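import Mathlib

/-!
# The space of smooth diffeomorphisms and topological conjugacy: definitions

We define the `C^∞` topology on the group `Diff^∞(M)` of smooth diffeomorphisms of a closed smooth
manifold `M` and the relation of topological conjugacy.
-/

open TopologicalSpace Set Filter Topology
open scoped Manifold ContDiff

namespace Pool.Agent.Lib.Helper37.ConjBorel

/-- The Euclidean space `ℝⁿ`, on which our `n`-dimensional manifolds are modelled. -/
abbrev Euc (n : ℕ) : Type := EuclideanSpace ℝ (Fin n)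

/-- The group `Diff^∞(M)` of smooth diffeomorphisms of the smooth `n`-dimensional manifold `M`. -/
abbrev DiffInf (n : ℕ) (M : Type*) [TopologicalSpace M] [ChartedSpace (Euc n) M] : Type _ :=
  M ≃ₘ^∞⟮𝓡 n, 𝓡 n⟯ M

section Defs

variable {n : ℕ} {M : Type*} [TopologicalSpace M] [ChartedSpace (Euc n) M]

/-- The basic set `N(f; φ, ψ, C, k, ε)`: all diffeomorphisms `g` such that `g ∘ φ⁻¹` maps the set
`C` into the domain of the chart `ψ` and such that the `k`-th derivative of the coordinate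
expression `ψ ∘ g ∘ φ⁻¹` of `g` is `ε`-close to the `k`-th derivative of `ψ ∘ f ∘ φ⁻¹`
everywhere on `C`. -/
def basicSet (f : DiffInf n M) (φ ψ : OpenPartialHomeomorph M (Euc n)) (C : Set (Euc n)) (k : ℕ)
    (ε : ℝ) : Set (DiffInf n M) :=
  {g | (∀ x ∈ C, g (φ.symm x) ∈ ψ.source) ∧
    ∀ x ∈ C, ‖iteratedFDeriv ℝ k (ψ ∘ g ∘ φ.symm) x - iteratedFDeriv ℝ k (ψ ∘ f ∘ φ.symm) x‖ < ε}

/-- The `C^∞` topology on `Diff^∞(M)` (uniform convergence of all derivatives in charts): it is
generated by the sets `N(f; φ, ψ, C, k, ε)`, where `f` is a diffeomorphism, `φ` and `ψ` are smooth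
charts of `M`, `C` is a compact subset of the image of `φ` which `f ∘ φ⁻¹` maps into the domain of
`ψ`, `k` is a natural number and `ε > 0`. -/
instance cInfTopology : TopologicalSpace (DiffInf n M) :=
  TopologicalSpace.generateFrom
    {N | ∃ (f : DiffInf n M) (φ ψ : OpenPartialHomeomorph M (Euc n)) (C : Set (Euc n)) (k : ℕ)
      (ε : ℝ), φ ∈ IsManifold.maximalAtlas (𝓡 n) ∞ M ∧ ψ ∈ IsManifold.maximalAtlas (𝓡 n) ∞ M ∧
      IsCompact C ∧ C ⊆ φ.target ∧ (∀ x ∈ C, f (φ.symm x) ∈ ψ.source) ∧ 0 < ε ∧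
      N = basicSet f φ ψ C k ε}

/-- Two diffeomorphisms are topologically conjugate if `h ∘ f = g ∘ h` for a homeomorphism `h`. -/
def TopConj (f g : DiffInf n M) : Prop := ∃ h : M ≃ₜ M, ∀ x, h (f x) = g (h x)

end Defs

end Pool.Agent.Lib.Helper37.ConjBorel
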