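import Mathlib

/-! Merged copies (to shorten the build) of Lib.H37D.DH20, Lib.H37D.DHA, Lib.H37N.I1a. -/

-- from Lib.H37D.DH20
section

open TopologicalSpace Set Filter Topology

namespace Pool.Agent.Lib.H37D

/-- **DH20 (M).** Fixed-point lemma for bounded continuous functions.

Proof. We may assume that `Z` is nonempty (otherwise trivial: `k` is the empty function), so `0 ≤ C`. On the complete metric
space `BoundedContinuousFunction Z W` consider `Φ k = (z ↦ G z (k (σ z)))`: continuous, and bounded, as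
`‖G z a‖ ≤ ‖G z 0‖ + c ‖a‖ ≤ C + c ‖k‖` (`BoundedContinuousFunction.ofNormedAddCommGroup`). It is a contraction with constant
`c` (`BoundedContinuousFunction.dist_le`, `hL`): `ContractingWith ⟨c, hc0⟩ Φ`; let `k` be its fixed point
(`ContractingWith.fixedPoint`, `ContractingWith.fixedPoint_isFixedPt`). `‖k z‖ = ‖G z (k (σ z))‖ ≤ C + c ‖k‖` for all `z`, so
`‖k‖ ≤ C + c ‖k‖`, `‖k z‖ ≤ ‖k‖ ≤ C / (1 - c)`. -/
theorem exists_fp {Z W : Type*} [TopologicalSpace Z] [NormedAddCommGroup W] [CompleteSpace W] {G : Z → W → W}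
    (hG : Continuous fun q : Z × W => G q.1 q.2) {c C : ℝ} (hc0 : 0 ≤ c) (hc1 : c < 1)
    (hL : ∀ z a b, ‖G z a - G z b‖ ≤ c * ‖a - b‖) (hC : ∀ z, ‖G z 0‖ ≤ C) {σ : Z → Z} (hσ : Continuous σ) :
    ∃ k : Z → W, Continuous k ∧ (∀ z, ‖k z‖ ≤ C / (1 - c)) ∧ ∀ z, k z = G z (k (σ z)) := by
  rcases isEmpty_or_nonempty Z with hZ | hZ
  · exact ⟨fun _ => 0, continuous_const, fun z => (hZ.false z).elim, fun z => (hZ.false z).elim⟩
  have hb : ∀ z a, ‖G z a‖ ≤ C + c * ‖a‖ := fun z a => by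
    have h1 := hL z a 0
    rw [sub_zero] at h1
    have h2 := norm_sub_norm_le (G z a) (G z 0)
    linarith [hC z]
  let Φ : BoundedContinuousFunction Z W → BoundedContinuousFunction Z W := fun k =>
    BoundedContinuousFunction.ofNormedAddCommGroup (fun z => G z (k (σ z)))
      (hG.comp (continuous_id.prodMk (k.continuous.comp hσ))) (C + c * ‖k‖) (fun z => (hb z _).trans (by
        have := k.norm_coe_le_norm (σ z)
        gcongr))
  have hΦ : ContractingWith (⟨c, hc0⟩ : NNReal) Φ := by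
    refine ⟨show (⟨c, hc0⟩ : NNReal) < 1 from NNReal.coe_lt_coe.1 hc1, LipschitzWith.of_dist_le_mul fun k k' => ?_⟩
    show dist (Φ k) (Φ k') ≤ c * dist k k'
    refine (BoundedContinuousFunction.dist_le (mul_nonneg hc0 dist_nonneg)).2 fun z => ?_
    rw [dist_eq_norm]
    refine (hL z _ _).trans ?_
    rw [← dist_eq_norm]
    exact mul_le_mul_of_nonneg_left (BoundedContinuousFunction.dist_coe_le_dist _) hc0
  have hfix : Φ (ContractingWith.fixedPoint Φ hΦ) = ContractingWith.fixedPoint Φ hΦ :=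
    hΦ.fixedPoint_isFixedPt
  generalize ContractingWith.fixedPoint Φ hΦ = k at hfix
  have hk : ∀ z, k z = G z (k (σ z)) := fun z => by
    have h1 : (Φ k) z = k z := by rw [hfix]
    exact h1.symm
  have hk2 : ∀ z, ‖k z‖ ≤ C + c * ‖k‖ := fun z => by
    rw [hk z]
    refine (hb z _).trans ?_
    have := k.norm_coe_le_norm (σ z)
    gcongr
  have hk3 : ‖k‖ ≤ C + c * ‖k‖ :=
    (BoundedContinuousFunction.norm_le ((norm_nonneg _).trans (hk2 (Classical.arbitrary Z)))).2 hk2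
  refine ⟨k, k.continuous, fun z => ?_, hk⟩
  refine (k.norm_coe_le_norm z).trans ?_
  rw [le_div_iff₀ (by linarith)]
  linarith

/-- **DH20, second part (S).** Proof: by induction on `j`, `b z ≤ C * (1 / 8) ^ j` for all `z` with `P z`; the limit is `0`
(`ge_of_tendsto'` with `tendsto_pow_atTop_nhds_zero_of_lt_one`). -/
theorem eq_zero_of_contr {Z : Type*} {b : Z → ℝ} {C : ℝ} {P : Z → Prop} (h0 : ∀ z, 0 ≤ b z) (hC : ∀ z, P z → b z ≤ C)
    (h : ∀ z, P z → ∃ z', P z' ∧ b z ≤ 1 / 8 * b z') {z : Z} (hz : P z) : b z = 0 := by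
  have key : ∀ j : ℕ, ∀ z, P z → b z ≤ C * (1 / 8) ^ j := by
    intro j
    induction j with
    | zero => intro z hz; rw [pow_zero, mul_one]; exact hC z hz
    | succ j ih =>
      intro z hz
      obtain ⟨z', hz', h1⟩ := h z hz
      have h2 := ih z' hz'
      rw [pow_succ]
      linarith
  have hl : Tendsto (fun j : ℕ => C * (1 / 8 : ℝ) ^ j) atTop (𝓝 (C * 0)) :=
    (tendsto_pow_atTop_nhds_zero_of_lt_one (by norm_num) (by norm_num)).const_mul C
  rw [mul_zero] at hl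
  exact le_antisymm (ge_of_tendsto' hl fun j => key j z hz) (h0 z)

end Pool.Agent.Lib.H37D
end

-- from Lib.H37D.DHA
section

/-!
# H37D, section HC: abstract definitions (gluing lemma, cocycle lemma)
-/

open TopologicalSpace Set Filter Topology

namespace Pool.Agent.Lib.H37D

/-! ## The gluing lemma -/

section Glue

variable {X : Type*} [TopologicalSpace X]

/-- Gluing data: `T` is an open set which is mapped to itself by `F^m` and `η` is a semiconjugacy from `F^m` to `F'^m`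
on `T`; all backward orbits of `T` tend to `p`, uniformly. -/
structure Glue (F F' : X ≃ₜ X) (T : Set X) (m : ℕ) (η : X → X) (p : X) : Prop where
  pos : 0 < m
  op : IsOpen T
  into : ∀ x ∈ T, (⇑F)^[m] x ∈ T
  ret : ∀ i, 0 < i → i < m → ∀ x ∈ T, (⇑F)^[i] x ∉ T
  maps : ∀ x ∈ T, η x ∈ T
  cont : ContinuousOn η T
  conj : ∀ x ∈ T, η ((⇑F)^[m] x) = (⇑F')^[m] (η x)
  off : ∀ x, (∀ k, (⇑F)^[k] x ∉ T) → F x = F' x
  np : ∀ k, (⇑F)^[k] p ∉ T
  unif : ∀ V ∈ 𝓝 p, ∃ N : ℕ, ∀ k ≥ N, ∀ x, (⇑F)^[k] x ∈ T → (∀ y ∈ T, (⇑F)^[m] y ≠ (⇑F)^[k] x) → x ∈ V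
  bdry : ∀ y ∈ closure T, (∀ k, (⇑F)^[k] y ∉ T) →
    ∀ᶠ u in 𝓝 y, u ∈ T → η u = u ∧ ∀ k x, (⇑F)^[k] x = u → (⇑F')^[k] x = u

open Classical in
/-- the glued map -/
noncomputable def gl (F F' : X ≃ₜ X) (T : Set X) (η : X → X) (x : X) : X :=
  if h : ∃ k, (⇑F)^[k] x ∈ T then (⇑F'.symm)^[Nat.find h] (η ((⇑F)^[Nat.find h] x)) else x

end Glue

/-! ## The cocycle lemma -/

section Coc

variable {Y : Type*} [TopologicalSpace Y] {W : Type*} [NormedAddCommGroup W] [NormedSpace ℝ W]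

/-- two continuous families of strong contractions which are close to each other -/
structure Coc (A B : Y → W ≃L[ℝ] W) : Prop where
  contA : Continuous fun y => (A y : W →L[ℝ] W)
  contB : Continuous fun y => (B y : W →L[ℝ] W)
  leA : ∀ y w, ‖A y w‖ ≤ 1 / 8 * ‖w‖
  leB : ∀ y w, ‖B y w‖ ≤ 1 / 8 * ‖w‖
  close : ∀ y w, ‖B y w - A y w‖ ≤ 1 / 100 * ‖A y w‖

/-- cut-off function: `1` on `[0, r/4]`, `0` on `[r/2, ∞)`, Lipschitz with constant `4/r` -/
noncomputable def th (r t : ℝ) : ℝ := max 0 (min 1 (2 - 4 * t / r))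

/-- the interpolation between the identity and `B_y A_y⁻¹` -/
noncomputable def sC (A B : Y → W ≃L[ℝ] W) (r : ℝ) (y : Y) (w : W) : W :=
  w + th r ‖w‖ • (B y ((A y).symm w) - w)

end Coc

end Pool.Agent.Lib.H37D
end

-- from Lib.H37N.I1a
section

/-! # H37N, chunk I1a (M): density -/

open Set Filter Topology
open scoped ContDiff

namespace Pool.Agent.Lib.H37N

/-- I.1, first part.

PROOF. `dense_addSubgroupClosure_pair_iff`: the subgroup generated by a and b is dense, so it contains δ = p a + q b (p, q ∈ ℤ; `AddSubgroup.mem_closure_pair`) with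
0 < δ < min ε (min a b) (`Dense.exists_between`).  p and q are nonzero with opposite signs: if p, q ≥ 0, not both 0, then δ ≥ min a b; if p, q ≤ 0 then δ ≤ 0.
Case 1: q > 0 > p.  q' = q, p' = -p natural, δ = q' b - p' a.  Choose n₀ ≥ N with N b - n₀ a < c (Archimedes), v₀ = N b - n₀ a, j = ⌊(c - v₀)/δ⌋₊; n = n₀ + j p', ν = N + j q':
ν b - n a = v₀ + j δ ∈ (c - δ, c].
Case 2: p > 0 > q.  p' = p, q' = -q, -δ = q' b - p' a.  Choose ν₀ ≥ N with v₀ = ν₀ b - N a > c, j = ⌊(v₀ - c)/δ⌋₊; n = N + j p', ν = ν₀ + j q': ν b - n a = v₀ - j δ ∈ [c, c + δ). -/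
theorem density_pair {a b : ℝ} (ha : 0 < a) (hb : 0 < b) (h : Irrational (a / b)) (c : ℝ) (N : ℕ) {ε : ℝ}
    (hε : 0 < ε) : ∃ n ν : ℕ, N ≤ n ∧ N ≤ ν ∧ |(ν : ℝ) * b - n * a - c| < ε := by
  obtain ⟨δ, hδmem, hδ0, hδ1⟩ := (dense_addSubgroupClosure_pair_iff.2 h).exists_between
    (show (0 : ℝ) < min ε (min a b) from lt_min hε (lt_min ha hb))
  obtain ⟨p, q, hpq⟩ := AddSubgroup.mem_closure_pair.1 hδmem
  rw [zsmul_eq_mul, zsmul_eq_mul] at hpq
  have hδε : δ < ε := hδ1.trans_le (min_le_left _ _)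
  have hδa : δ < a := hδ1.trans_le ((min_le_right _ _).trans (min_le_left _ _))
  have hδb : δ < b := hδ1.trans_le ((min_le_right _ _).trans (min_le_right _ _))
  rcases lt_or_ge p 0 with hp | hp
  · have hq : 0 < q := by
      by_contra hq
      have hq' : (q : ℝ) ≤ 0 := by exact_mod_cast not_lt.1 hq
      have hp' : (p : ℝ) < 0 := by exact_mod_cast hp
      nlinarith [mul_neg_of_neg_of_pos hp' ha, mul_nonpos_of_nonpos_of_nonneg hq' hb.le]
    obtain ⟨p', hp'⟩ := Int.eq_ofNat_of_zero_le (show 0 ≤ -p by omega)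
    obtain ⟨q', hq'⟩ := Int.eq_ofNat_of_zero_le hq.le
    have e1 : (p : ℝ) = -(p' : ℝ) := by
      have : p = -(p' : ℤ) := by omega
      rw [this]; push_cast; ring
    have e2 : (q : ℝ) = (q' : ℝ) := by rw [hq']; push_cast; ring
    rw [e1, e2] at hpq
    obtain ⟨n₁, hn₁⟩ := exists_nat_gt (((N : ℝ) * b - c) / a)
    set n₀ := max N n₁ with hn₀
    have hn₀' : ((N : ℝ) * b - c) / a < (n₀ : ℝ) :=
      hn₁.trans_le (by exact_mod_cast le_max_right _ _)
    rw [div_lt_iff₀ ha] at hn₀'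
    set v₀ : ℝ := N * b - n₀ * a with hv₀
    have hv : v₀ < c := by rw [hv₀]; linarith
    set j := ⌊(c - v₀) / δ⌋₊ with hj
    have hj1 : (j : ℝ) ≤ (c - v₀) / δ := Nat.floor_le (div_nonneg (by linarith) hδ0.le)
    have hj2 : (c - v₀) / δ < j + 1 := Nat.lt_floor_add_one _
    rw [le_div_iff₀ hδ0] at hj1
    rw [div_lt_iff₀ hδ0] at hj2
    refine ⟨n₀ + j * p', N + j * q', le_max_left N n₁ |>.trans (Nat.le_add_right _ _),
      Nat.le_add_right _ _, ?_⟩
    have e3 : ((N + j * q' : ℕ) : ℝ) * b - ((n₀ + j * p' : ℕ) : ℝ) * a - c = v₀ + j * δ - c := by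
      rw [← hpq, hv₀]
      push_cast
      ring
    rw [e3, abs_lt]
    constructor <;> nlinarith
  · have hq : q < 0 := by
      by_contra hq
      have hq1 : 0 ≤ q := not_lt.1 hq
      have hq' : (0 : ℝ) ≤ (q : ℝ) := by exact_mod_cast hq1
      have hp' : (0 : ℝ) ≤ (p : ℝ) := by exact_mod_cast hp
      rcases hp.lt_or_eq with h1 | h1
      · have : (1 : ℝ) ≤ (p : ℝ) := by exact_mod_cast h1
        nlinarith [mul_nonneg hq' hb.le]
      · rcases hq1.lt_or_eq with h2 | h2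
        · have : (1 : ℝ) ≤ (q : ℝ) := by exact_mod_cast h2
          nlinarith [mul_nonneg hp' ha.le]
        · rw [← h1, ← h2] at hpq
          simp at hpq
          linarith
    obtain ⟨p', hp'⟩ := Int.eq_ofNat_of_zero_le hp
    obtain ⟨q', hq'⟩ := Int.eq_ofNat_of_zero_le (show 0 ≤ -q by omega)
    have e1 : (p : ℝ) = (p' : ℝ) := by rw [hp']; push_cast; ring
    have e2 : (q : ℝ) = -(q' : ℝ) := by
      have : q = -(q' : ℤ) := by omega
      rw [this]; push_cast; ring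
    rw [e1, e2] at hpq
    obtain ⟨n₁, hn₁⟩ := exists_nat_gt (((N : ℝ) * a + c) / b)
    set n₀ := max N n₁ with hn₀
    have hn₀' : ((N : ℝ) * a + c) / b < (n₀ : ℝ) :=
      hn₁.trans_le (by exact_mod_cast le_max_right _ _)
    rw [div_lt_iff₀ hb] at hn₀'
    set v₀ : ℝ := n₀ * b - N * a with hv₀
    have hv : c < v₀ := by rw [hv₀]; linarith
    set j := ⌊(v₀ - c) / δ⌋₊ with hj
    have hj1 : (j : ℝ) ≤ (v₀ - c) / δ := Nat.floor_le (div_nonneg (by linarith) hδ0.le)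
    have hj2 : (v₀ - c) / δ < j + 1 := Nat.lt_floor_add_one _
    rw [le_div_iff₀ hδ0] at hj1
    rw [div_lt_iff₀ hδ0] at hj2
    refine ⟨N + j * p', n₀ + j * q', Nat.le_add_right _ _,
      le_max_left N n₁ |>.trans (Nat.le_add_right _ _), ?_⟩
    have e3 : ((n₀ + j * q' : ℕ) : ℝ) * b - ((N + j * p' : ℕ) : ℝ) * a - c = v₀ - j * δ - c := by
      rw [← hpq, hv₀]
      push_cast
      ring
    rw [e3, abs_lt]
    constructor <;> nlinarith

end Pool.Agent.Lib.H37N
end
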