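import Mathlib

/-! Merged copies (to shorten the build) of Lib.H37D.DH80, Lib.H37N.I3a, Lib.H37N.I3b, Lib.H37N.I3d. -/

-- from Lib.H37D.DH80
section

open TopologicalSpace Set Filter Topology

namespace Pool.Agent.Lib.H37D

/-- **DH80 (S/M).** Pointwise convergence to a locally uniform attractor is uniform on compact sets.

Proof. Let `U` be from `att`, `O` the interior of `U`, `p ∈ O`. For `z ∈ C` there is `j` with `g^j z ∈ O`; the open sets `{z | g^j z ∈ O}`, `j ∈ ℕ`, cover `C`, so finitely many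
do (`IsCompact.elim_finite_subcover`), let `J` be a bound for their indices. Given `W`, let `N` be the number of `att` for `W`; for `k ≥ N + J` and `z ∈ C`, `g^j z ∈ U` for some `j ≤ J` and
`g^k z = g^(k-j) (g^j z) ∈ W`, as `k - j ≥ N`. -/
theorem unif_of_pointwise {X : Type*} [TopologicalSpace X] {g : X → X} (hg : Continuous g) {p : X}
    (att : ∃ U ∈ 𝓝 p, ∀ W ∈ 𝓝 p, ∃ N : ℕ, ∀ k ≥ N, ∀ z ∈ U, g^[k] z ∈ W) {C : Set X} (hC : IsCompact C)
    (h : ∀ z ∈ C, Tendsto (fun k => g^[k] z) atTop (𝓝 p)) :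
    ∀ W ∈ 𝓝 p, ∃ N : ℕ, ∀ k ≥ N, ∀ z ∈ C, g^[k] z ∈ W := by
  obtain ⟨U, hU, hatt⟩ := att
  intro W hW
  obtain ⟨N, hN⟩ := hatt W hW
  have hcov : C ⊆ ⋃ j : ℕ, (fun z => g^[j] z) ⁻¹' interior U := by
    intro z hz
    have h1 : ∀ᶠ k in atTop, g^[k] z ∈ interior U :=
      (h z hz).eventually_mem (interior_mem_nhds.2 hU)
    obtain ⟨j, hj⟩ := h1.exists
    exact mem_iUnion.2 ⟨j, hj⟩
  obtain ⟨t, ht⟩ := hC.elim_finite_subcover (fun j : ℕ => (fun z => g^[j] z) ⁻¹' interior U)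
    (fun j => isOpen_interior.preimage (hg.iterate j)) hcov
  refine ⟨N + t.sup id, fun k hk z hz => ?_⟩
  obtain ⟨j, hj⟩ := mem_iUnion.1 (ht hz)
  obtain ⟨hjt, hj⟩ := mem_iUnion.1 hj
  have hjl : j ≤ t.sup id := Finset.le_sup (f := id) hjt
  have e : k = (k - j) + j := by omega
  rw [e, Function.iterate_add_apply]
  exact hN (k - j) (by omega) _ (interior_subset hj)

end Pool.Agent.Lib.H37D
end

-- from Lib.H37N.I3a
section

/-! # H37N, chunk I3a (M): an explicit expansion -/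

open Set Filter Topology Asymptotics
open scoped ContDiff

namespace Pool.Agent.Lib.H37N

/-- I.3, the expansion of x in powers of V = t(x + g x² + .. + g^(m-1) x^m) + ka x^(m+1).

PROOF. All functions are polynomials in x; V(x) = O(x), V(x) = t x + O(x²) (`∑` over Fin m; j = 0 gives t x).
(1) Multiply by (t + g V(x)), which tends to t ≠ 0: f = O(x^(m+2)) follows from (t + gV) f = O(x^(m+2)) (f = (t+gV)⁻¹ ((t+gV) f) near 0, (t+gV)⁻¹ bounded).
(2) (t + gV) Σ_{i ≤ m} (-g)^i/t^(i+1) V^(i+1) = V (1 - (-g V/t)^(m+1)) (geometric sum: multiply Σ (-gV/t)^i by (1 + gV/t)), = V + O(x^(m+2)).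
The sum in the statement runs over i < m; the term i = m, ((-g)^m/t^(m+1)) V^(m+1), is split off from the last coefficient:
(t g^m (1 + (-1)^m) - ka)/t^(m+2) = (-g)^m/t^(m+1) + (t g^m - ka)/t^(m+2).
(3) x (t + gV) - V = t x - V (1 - g x) and V (1 - g x) = t x (1 - g^m x^m) + ka x^(m+1) (1 - g x) (geometric sum: (Σ_{j<m} g^j x^(j+1)) (1 - gx) = x (1 - (gx)^m)), so
x (t + gV) - V = (t g^m - ka) x^(m+1) + O(x^(m+2)).
(4) (t g^m - ka)/t^(m+2) V^(m+1) (t + gV) = (t g^m - ka) x^(m+1) + O(x^(m+2)) because V^(m+1) = t^(m+1) x^(m+1) + O(x^(m+2)) and V^(m+2) = O(x^(m+2)).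
Altogether (t+gV) f = O(x^(m+2)). -/
theorem explicit_exp {m : ℕ} (hm : 1 ≤ m) {t g ka : ℝ} (ht : t ≠ 0) {V : ℝ → ℝ}
    (hV : ∀ x, V x = ka * x ^ (m + 1) + ∑ j : Fin m, t * g ^ (j : ℕ) * x ^ ((j : ℕ) + 1)) :
    (fun x => x - ∑ i ∈ Finset.range m, (-g) ^ i / t ^ (i + 1) * V x ^ (i + 1) -
      (t * g ^ m * (1 + (-1) ^ m) - ka) / t ^ (m + 2) * V x ^ (m + 1)) =O[𝓝 0] fun x : ℝ => x ^ (m + 2) := by
  set C : ℝ := (t * g ^ m * (1 + (-1) ^ m) - ka) / t ^ (m + 2) with hC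
  set P : ℝ → ℝ := fun x => ka * x ^ m + ∑ j : Fin m, t * g ^ (j : ℕ) * x ^ (j : ℕ) with hP
  have hVP : ∀ x, V x = x * P x := by
    intro x
    rw [hV]
    simp only [hP, mul_add, Finset.mul_sum]
    congr 1
    · ring
    · exact Finset.sum_congr rfl fun j _ => by ring
  have hP0 : P 0 = t := by
    obtain ⟨m', rfl⟩ : ∃ m', m = m' + 1 := ⟨m - 1, by omega⟩
    simp only [hP, Fin.sum_univ_succ]
    simp
  have hPd : Differentiable ℝ P := by
    simp only [hP]
    fun_prop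
  have hPs : ∀ x, P x = ka * x ^ m + t * ∑ j ∈ Finset.range m, (g * x) ^ j := by
    intro x
    simp only [hP]
    rw [← Fin.sum_univ_eq_sum_range (fun j => (g * x) ^ j) m, Finset.mul_sum]
    congr 1
    exact Finset.sum_congr rfl fun j _ => by rw [mul_pow]; ring
  have hPg : ∀ x, P x * (1 - g * x) = ka * x ^ m * (1 - g * x) + t * (1 - (g * x) ^ m) := by
    intro x
    rw [hPs, add_mul, mul_assoc t, geom_sum_mul_neg]
  set F : ℝ → ℝ := fun x => x - ∑ i ∈ Finset.range m, (-g) ^ i / t ^ (i + 1) * V x ^ (i + 1) -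
      C * V x ^ (m + 1) with hF
  set W : ℝ → ℝ := fun x => (t * g ^ m - ka) * (1 - (P x / t) ^ (m + 1)) +
      x * (ka * g - C * g * P x ^ (m + 2)) with hW
  have hsum : ∀ x, (t + g * V x) * ∑ i ∈ Finset.range m, (-g) ^ i / t ^ (i + 1) * V x ^ (i + 1) =
      V x * (1 - (-(g * V x) / t) ^ m) := by
    intro x
    rw [← geom_sum_mul_neg, Finset.sum_mul, Finset.mul_sum, Finset.mul_sum]
    refine Finset.sum_congr rfl fun i _ => ?_
    rw [div_pow, neg_pow (g * V x), mul_pow, neg_pow g, pow_succ t, pow_succ (V x)]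
    field_simp
    ring
  have hCt : (-g) ^ m / t ^ m - C * t = -((t * g ^ m - ka) / t ^ (m + 1)) := by
    rw [hC, neg_pow g, pow_succ t (m + 1), pow_succ t m]
    field_simp
    ring
  have hmain : ∀ x, (t + g * V x) * F x = x ^ (m + 1) * W x := by
    intro x
    have h1 : (t + g * V x) * F x = (x * (t + g * V x) - V x) + V x * (-(g * V x) / t) ^ m -
        C * V x ^ (m + 1) * (t + g * V x) := by
      simp only [hF]
      rw [mul_sub, mul_sub, hsum]
      ring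
    have h2 : x * (t + g * V x) - V x = x ^ (m + 1) * (t * g ^ m - ka + ka * g * x) := by
      have h3 := hPg x
      have h4 : x * (t + g * V x) - V x = x * (t - P x * (1 - g * x)) := by
        rw [hVP]
        ring
      rw [h4, h3, mul_pow]
      ring
    have h5 : V x * (-(g * V x) / t) ^ m = x ^ (m + 1) * (P x ^ (m + 1) * ((-g) ^ m / t ^ m)) := by
      rw [hVP, div_pow, show -(g * (x * P x)) = (-g) * (x * P x) by ring, mul_pow, mul_pow]
      ring
    have h6 : C * V x ^ (m + 1) * (t + g * V x) =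
        x ^ (m + 1) * (P x ^ (m + 1) * (C * t) + x * (C * g * P x ^ (m + 2))) := by
      rw [hVP, mul_pow]
      ring
    have h7 : (-g) ^ m / t ^ m = C * t - (t * g ^ m - ka) / t ^ (m + 1) := by linarith
    rw [h1, h2, h5, h6, h7]
    simp only [hW]
    rw [div_pow]
    field_simp
    ring
  have hW0 : W 0 = 0 := by
    simp only [hW]
    rw [hP0, div_self ht]
    simp
  have hWd : DifferentiableAt ℝ W 0 := by
    simp only [hW]
    have := hPd
    fun_prop
  have hWO : W =O[𝓝 0] fun x : ℝ => x := by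
    have := hWd.isBigO_sub
    simpa [hW0] using this
  have hV0 : V 0 = 0 := by rw [hVP]; simp
  have hVc : Continuous V := by
    have : V = fun x => x * P x := funext hVP
    rw [this]
    exact continuous_id.mul hPd.continuous
  have hT : ContinuousAt (fun x => t + g * V x) 0 := by fun_prop
  have hT0 : t + g * V 0 ≠ 0 := by rw [hV0]; simpa using ht
  have hne : ∀ᶠ x in 𝓝 (0 : ℝ), t + g * V x ≠ 0 := hT.eventually_ne hT0
  have hinv : (fun x => (t + g * V x)⁻¹) =O[𝓝 0] fun _ : ℝ => (1 : ℝ) :=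
    (hT.inv₀ hT0).tendsto.isBigO_one ℝ
  have hprod : (fun x => (t + g * V x)⁻¹ * (x ^ (m + 1) * W x)) =O[𝓝 0]
      fun x : ℝ => 1 * (x ^ (m + 1) * x) :=
    hinv.mul ((isBigO_refl (fun x : ℝ => x ^ (m + 1)) _).mul hWO)
  refine (hprod.congr' ?_ ?_)
  · filter_upwards [hne] with x hx
    rw [← hmain, ← mul_assoc, inv_mul_cancel₀ hx, one_mul]
  · exact Eventually.of_forall fun x => by
      show 1 * (x ^ (m + 1) * x) = x ^ (m + 2)
      ring

end Pool.Agent.Lib.H37N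
end

-- from Lib.H37N.I3b
section

/-! # H37N, chunk I3b (S/M): the path along which the sign changes -/

open Set Filter Topology

namespace Pool.Agent.Lib.H37N

theorem i3b_root {n : ℕ} (hn : n ≠ 0) {a : ℝ} (ha : 0 < a) : ∃ t : ℝ, 0 < t ∧ t ^ n = a :=
  ⟨a ^ ((n : ℝ)⁻¹), Real.rpow_pos_of_pos ha _, Real.rpow_inv_natCast_pow ha.le hn⟩

/-- A root with prescribed sign, even exponent. -/
theorem i3b_root_even {n : ℕ} (hn : n ≠ 0) (he : Even n) {a s : ℝ} (ha : 0 < a) (hs : s ≠ 0) :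
    ∃ t : ℝ, 0 < s / t ∧ t ^ n = a := by
  obtain ⟨t, ht, h⟩ := i3b_root hn ha
  rcases lt_or_gt_of_ne hs with h1 | h1
  · exact ⟨-t, div_pos_of_neg_of_neg h1 (by linarith), by rw [he.neg_pow, h]⟩
  · exact ⟨t, div_pos h1 ht, h⟩

/-- Odd exponent. -/
theorem i3b_root_odd {n : ℕ} (hn : n ≠ 0) (ho : Odd n) {c : ℝ} (hc : c ≠ 0) {a : ℝ} (ha : 0 < a) :
    ∃ t : ℝ, 0 < c / t ∧ t ^ n = a * c := by
  rcases lt_or_gt_of_ne hc with h1 | h1
  · obtain ⟨t, ht, h⟩ := i3b_root hn (show 0 < a * (-c) from mul_pos ha (by linarith))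
    exact ⟨-t, div_pos_of_neg_of_neg h1 (by linarith), by rw [ho.neg_pow, h]; ring⟩
  · obtain ⟨t, ht, h⟩ := i3b_root hn (mul_pos ha h1)
    exact ⟨t, div_pos h1 ht, h⟩

/-- I.3, the endpoints of the path: t(z) = t0 + z (t1 - t0), g(z) = z g1.

PROOF. m odd ((-1)^m = -1, the factor 1 + (-1)^m is 0): g1 = 0; e = sign of bt ka1 ka2 (±1); t0 = e τ₀ with τ₀ > 0 so small that |bt ka1|/τ₀^(m+2) > |ka2|, t1 = e τ₁ with τ₁ ≥ 1 so large
that |bt ka1|/τ₁^(m+2) < |ka2|.  The value at z = 0 is ka2 - bt ka1/(e τ₀^(m+2)) (m+2 odd), its second term has the sign opposite to ka2 and is larger; the value at z = 1 has the sign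
of ka2.
m even (factor 2, t^(m+2) > 0): t0 = t1 = t with sign t = sign ka1 and |t| so small that |bt ka1|/t^(m+2) > |ka2|; at z = 0 (g = 0, 0^m = 0): sign of -bt ka1; at z = 1: ka2 + bt (2 t g1^m - ka1)/t^(m+2)
with g1 > 0 so large that (2 |t| g1^m - |ka1|) |bt|/t^(m+2) > |ka2|: sign of bt t = sign of bt ka1. -/
theorem sign_path {m : ℕ} (hm : 1 ≤ m) {ka1 ka2 bt : ℝ} (h1 : ka1 ≠ 0) (h2 : ka2 ≠ 0) (hb : bt ≠ 0) :
    ∃ t0 t1 g1 : ℝ, (∀ z ∈ Icc (0 : ℝ) 1, t0 + z * (t1 - t0) ≠ 0) ∧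
      (ka2 + bt * ((t0 * (0 * g1) ^ m * (1 + (-1) ^ m) - ka1) / t0 ^ (m + 2))) *
        (ka2 + bt * ((t1 * (1 * g1) ^ m * (1 + (-1) ^ m) - ka1) / t1 ^ (m + 2))) < 0 := by
  have hm0 : m ≠ 0 := by omega
  rcases Nat.even_or_odd m with he | ho
  · -- even case
    have hs : (1 : ℝ) + (-1) ^ m = 2 := by rw [he.neg_one_pow]; norm_num
    set c : ℝ := ka2 / bt with hc
    set u : ℝ := |ka1| / (|c| + 1) with hu
    have hc1 : 0 < |c| + 1 := by positivity
    have hu0 : 0 < u := div_pos (abs_pos.mpr h1) hc1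
    obtain ⟨t, ht, htu⟩ := i3b_root_even (n := m + 2) (by omega) (he.add (by decide)) hu0 h1
    have ht0 : t ≠ 0 := by
      rintro rfl
      simp at ht
    obtain ⟨g, hg, hgm⟩ := i3b_root hm0 ht
    refine ⟨t, t, g, fun z _ => by simpa using ht0, ?_⟩
    have e0 : t * (0 * g) ^ m * (1 + (-1) ^ m) - ka1 = -ka1 := by
      rw [zero_mul, zero_pow hm0]; ring
    have e1 : t * (1 * g) ^ m * (1 + (-1) ^ m) - ka1 = ka1 := by
      rw [one_mul, hgm, hs]
      field_simp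
      ring
    rw [e0, e1, htu]
    have hk : ka2 = bt * c := by rw [hc]; field_simp
    have h3 : (ka2 + bt * (-ka1 / u)) * (ka2 + bt * (ka1 / u)) = bt ^ 2 * (c ^ 2 - (ka1 / u) ^ 2) := by
      rw [hk]; ring
    rw [h3]
    have h4 : (ka1 / u) ^ 2 = (|c| + 1) ^ 2 := by
      rw [← sq_abs (ka1 / u), abs_div, abs_of_pos hu0, hu]
      congr 1
      field_simp
    rw [h4]
    have h5 : 0 < bt ^ 2 := by positivity
    have h6 : c ^ 2 - (|c| + 1) ^ 2 < 0 := by
      rw [← sq_abs c]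
      nlinarith [abs_nonneg c]
    exact mul_neg_of_pos_of_neg h5 h6
  · -- odd case
    have hs : (1 : ℝ) + (-1) ^ m = 0 := by rw [ho.neg_one_pow]; norm_num
    set c : ℝ := bt * ka1 / ka2 with hc
    have hc0 : c ≠ 0 := div_ne_zero (mul_ne_zero hb h1) h2
    have hodd : Odd (m + 2) := ho.add_even (by decide)
    obtain ⟨t0, ht0, hp0⟩ := i3b_root_odd (n := m + 2) (by omega) hodd hc0 (show (0 : ℝ) < 1 / 2 by norm_num)
    obtain ⟨t1, ht1, hp1⟩ := i3b_root_odd (n := m + 2) (by omega) hodd hc0 (show (0 : ℝ) < 2 by norm_num)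
    have hd : bt * ka1 = c * ka2 := by rw [hc]; field_simp
    refine ⟨t0, t1, 0, ?_, ?_⟩
    · intro z hz h
      rcases lt_or_gt_of_ne hc0 with h3 | h3
      · have k0 : t0 < 0 := by
          by_contra hcon
          exact absurd ht0 (not_lt.mpr (div_nonpos_of_nonpos_of_nonneg h3.le (not_lt.mp hcon)))
        have k1 : t1 < 0 := by
          by_contra hcon
          exact absurd ht1 (not_lt.mpr (div_nonpos_of_nonpos_of_nonneg h3.le (not_lt.mp hcon)))
        rcases eq_or_lt_of_le hz.1 with hz0 | hz0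
        · rw [← hz0] at h
          linarith
        · nlinarith [hz.2]
      · have k0 : 0 < t0 := by
          by_contra hcon
          exact absurd ht0 (not_lt.mpr (div_nonpos_of_nonneg_of_nonpos h3.le (not_lt.mp hcon)))
        have k1 : 0 < t1 := by
          by_contra hcon
          exact absurd ht1 (not_lt.mpr (div_nonpos_of_nonneg_of_nonpos h3.le (not_lt.mp hcon)))
        rcases eq_or_lt_of_le hz.1 with hz0 | hz0
        · rw [← hz0] at h
          linarith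
        · nlinarith [hz.2]
    · rw [hs, hp0, hp1, mul_zero, mul_zero, zero_sub]
      have e0 : ka2 + bt * (-ka1 / (1 / 2 * c)) = -ka2 := by
        have : bt * (-ka1 / (1 / 2 * c)) = -(bt * ka1) / (1 / 2 * c) := by ring
        rw [this, hd]
        field_simp
        ring
      have e1 : ka2 + bt * (-ka1 / (2 * c)) = ka2 / 2 := by
        have : bt * (-ka1 / (2 * c)) = -(bt * ka1) / (2 * c) := by ring
        rw [this, hd]
        field_simp
        ring
      rw [e0, e1]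
      have : 0 < ka2 ^ 2 := by positivity
      nlinarith

end Pool.Agent.Lib.H37N
end

-- from Lib.H37N.I3d
section

/-! # H37N, chunk I3d (S/M): uniqueness of the expansion in powers of a function -/

open Set Filter Topology Asymptotics
open scoped ContDiff

namespace Pool.Agent.Lib.H37N

lemma i3d_rev {w : ℝ → ℝ} {w1 : ℝ} (hw : HasDerivAt w w1 0) (hw1 : w1 ≠ 0) :
    (fun x : ℝ => x - 0) =O[𝓝 0] fun x => w x - w 0 := by
  have h1 := hw.isTheta_sub hw1
  have h2 : (fun p : ℝ × ℝ => p.1 - p.2) =O[𝓝 0 ×ˢ pure 0] fun p => w p.1 - w p.2 := h1.2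
  have h3 : Tendsto (fun x : ℝ => (x, (0 : ℝ))) (𝓝 0) (𝓝 0 ×ˢ pure 0) :=
    tendsto_id.prodMk (tendsto_pure.2 (Eventually.of_forall fun _ => rfl))
  exact h2.comp_tendsto h3

lemma i3d_pow {a b : ℕ} (h : b ≤ a) : (fun x : ℝ => x ^ a) =O[𝓝 0] fun x : ℝ => x ^ b := by
  rcases h.eq_or_lt with rfl | h
  · exact isBigO_refl _ _
  · exact (isLittleO_pow_pow h).isBigO

/-- PROOF. W(x) = w x - w 0 satisfies W(x)/x → w1 ≠ 0 (x → 0, x ≠ 0), W = O(x), x = O(W).  Strong induction on j: if e i = 0 for i < j then Σ = W^(j+1) (e j + Σ_{j<i<M} e i W^(i-j)) = O(x^(M+1)),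
M + 1 ≥ j + 2, so dividing by W^(j+1) (x ≠ 0 near 0): e j + O(x) = O(x), so e j = 0 (limit along x → 0, x ≠ 0). -/
theorem pow_unique {w : ℝ → ℝ} {w1 : ℝ} (hw : HasDerivAt w w1 0) (hw1 : w1 ≠ 0) (M : ℕ) (e : ℕ → ℝ)
    (h : (fun x => ∑ j ∈ Finset.range M, e j * (w x - w 0) ^ (j + 1)) =O[𝓝 0] fun x : ℝ => x ^ (M + 1)) :
    ∀ j < M, e j = 0 := by
  intro j
  induction j using Nat.strong_induction_on with
  | _ j ih =>
  intro hj
  have hW0 : (fun x => w x - w 0) =O[𝓝 0] fun x : ℝ => x := by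
    simpa using hw.isBigO_sub
  have hxW : (fun x : ℝ => x) =O[𝓝 0] fun x => w x - w 0 := by
    simpa using i3d_rev hw hw1
  -- the sum reduces to the tail
  have h1 : ∀ x : ℝ, ∑ i ∈ Finset.range M, e i * (w x - w 0) ^ (i + 1) =
      e j * (w x - w 0) ^ (j + 1) +
        ∑ i ∈ Finset.Ico (j + 1) M, e i * (w x - w 0) ^ (i + 1) := by
    intro x
    rw [Finset.range_eq_Ico, ← Finset.sum_Ico_consecutive _ (Nat.zero_le j) hj.le,
      Finset.sum_eq_sum_Ico_succ_bot hj]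
    rw [Finset.sum_eq_zero, zero_add]
    intro i hi
    rw [Finset.mem_Ico] at hi
    rw [ih i hi.2 (by omega), zero_mul]
  have h2 : (fun x => ∑ i ∈ Finset.Ico (j + 1) M, e i * (w x - w 0) ^ (i + 1)) =O[𝓝 0]
      fun x : ℝ => x ^ (j + 2) := by
    have h2' : (∑ i ∈ Finset.Ico (j + 1) M, fun x => e i * (w x - w 0) ^ (i + 1)) =O[𝓝 0]
      fun x : ℝ => x ^ (j + 2) := ?_
    · refine h2'.congr_left fun x => ?_
      rw [Finset.sum_apply]
    apply IsBigO.sum
    intro i hi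
    rw [Finset.mem_Ico] at hi
    have h3 : (fun x => (w x - w 0) ^ (i + 1)) =O[𝓝 0] fun x : ℝ => x ^ (i + 1) := hW0.pow (i + 1)
    have h4 : (fun x : ℝ => x ^ (i + 1)) =O[𝓝 0] fun x : ℝ => x ^ (j + 2) :=
      i3d_pow (by omega)
    exact (h3.trans h4).const_mul_left (e i)
  have h5 : (fun x => e j * (w x - w 0) ^ (j + 1)) =O[𝓝 0] fun x : ℝ => x ^ (j + 2) := by
    have h6 : (fun x => ∑ i ∈ Finset.range M, e i * (w x - w 0) ^ (i + 1)) =O[𝓝 0]
        fun x : ℝ => x ^ (j + 2) := h.trans (i3d_pow (by omega))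
    have h7 := h6.sub h2
    refine h7.congr_left fun x => ?_
    show ∑ i ∈ Finset.range M, e i * (w x - w 0) ^ (i + 1) -
      ∑ i ∈ Finset.Ico (j + 1) M, e i * (w x - w 0) ^ (i + 1) = e j * (w x - w 0) ^ (j + 1)
    rw [h1 x]
    ring
  by_contra hne
  have h8 : (fun x : ℝ => x ^ (j + 1)) =O[𝓝 0] fun x : ℝ => x ^ (j + 2) := by
    have h9 : (fun x : ℝ => x ^ (j + 1)) =O[𝓝 0] fun x => (w x - w 0) ^ (j + 1) := hxW.pow (j + 1)
    have h10 : (fun x => (w x - w 0) ^ (j + 1)) =O[𝓝 0] fun x => e j * (w x - w 0) ^ (j + 1) :=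
      isBigO_self_const_mul (fun h => hne h) _ _
    exact (h9.trans h10).trans h5
  have h11 : (fun x : ℝ => x ^ (j + 2)) =o[𝓝 0] fun x : ℝ => x ^ (j + 1) :=
    isLittleO_pow_pow (by omega)
  have h12 : (fun x : ℝ => x ^ (j + 1)) =o[𝓝 0] fun x : ℝ => x ^ (j + 1) := h8.trans_isLittleO h11
  have h13 := (isLittleO_irrefl' (l := 𝓝 (0 : ℝ)) (f' := fun x : ℝ => x ^ (j + 1)) ?_) h12
  · exact h13
  · have h14 : ∃ᶠ x : ℝ in 𝓝[≠] 0, x ^ (j + 1) ≠ 0 := by
      apply Eventually.frequently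
      filter_upwards [self_mem_nhdsWithin] with x hx
      exact pow_ne_zero _ hx
    exact (h14.filter_mono nhdsWithin_le_nhds).mono fun x hx => norm_ne_zero_iff.2 hx

end Pool.Agent.Lib.H37N
end
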