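import Mathlib

/-! Merged copies (to shorten the build) of Lib.H37N.B12, Lib.H37N.T3, Lib.H37N.T10a, Lib.H37N.T5d, Lib.H37N.SA1, Lib.H37N.T1, Lib.H37N.T2, Lib.H37N.T2b, Lib.H37N.T5a. -/

-- from Lib.H37N.B12
section

/-! # H37N, chunk B12 (S/M): a lemma on sequences -/

open Set Filter Topology

namespace Pool.Agent.Lib.H37N

/-- PROOF. (1) v k ≤ u k for all k.  Suppose v k > u k for some k.  Put e = 1/10^11.  h1: u (k+1) (1 - e) ≤ (81/100 + 2 e) v k + e v (k+1) (because u k < v k), h2: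
v k (1 - 2e) ≤ (81/100 + e) v (k+1) + e u (k+1); together (linear arithmetic) v k ≤ (82/100) v (k+1) and u (k+1) < v (k+1) (v k > u k ≥ 0 so v (k+1) > 0).  So by induction on j:
v (k+j) > u (k+j) and (100/82)^j v k ≤ v (k+j) ≤ M: contradiction (`tendsto_pow_atTop_atTop_of_one_lt`, v k > 0).
(2) h1 and v ≤ u: u (k+1) ≤ (81/100) u k + e (2 u k + 2 u (k+1)), so u (k+1) ≤ (82/100) u k (linarith). -/
theorem seq_decay {u v : ℕ → ℝ} {M : ℝ} (hu : ∀ k, 0 ≤ u k) (hv : ∀ k, 0 ≤ v k) (hM : ∀ k, v k ≤ M)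
    (h1 : ∀ k, u (k + 1) ≤ 81 / 100 * u k + 1 / 10 ^ 11 * (u k + v k + u (k + 1) + v (k + 1)))
    (h2 : ∀ k, v k ≤ 81 / 100 * v (k + 1) + 1 / 10 ^ 11 * (u k + v k + u (k + 1) + v (k + 1))) :
    ∀ k, v k ≤ u k ∧ u (k + 1) ≤ 82 / 100 * u k := by
  have step : ∀ k, u k < v k → v k ≤ 82 / 100 * v (k + 1) ∧ u (k + 1) < v (k + 1) := by
    intro k hk
    have a1 := h1 k
    have a2 := h2 k
    have b1 := hu k
    have b2 := hu (k + 1)
    have b3 := hv (k + 1)
    refine ⟨by linarith, by linarith⟩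
  have hvu : ∀ k, v k ≤ u k := by
    intro k
    by_contra hcon
    push Not at hcon
    have hvk : 0 < v k := lt_of_le_of_lt (hu k) hcon
    have ind : ∀ j, u (k + j) < v (k + j) ∧ (100 / 82 : ℝ) ^ j * v k ≤ v (k + j) := by
      intro j
      induction j with
      | zero => exact ⟨hcon, by simp⟩
      | succ j ih =>
        obtain ⟨s1, s2⟩ := step (k + j) ih.1
        refine ⟨s2, ?_⟩
        have e : k + (j + 1) = k + j + 1 := by ring
        rw [e, pow_succ]
        have := ih.2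
        linarith
    have ht := tendsto_pow_atTop_atTop_of_one_lt (by norm_num : (1 : ℝ) < 100 / 82)
    obtain ⟨j, hj⟩ := (ht.eventually (eventually_gt_atTop (M / v k))).exists
    have h3 := (ind j).2
    have h4 := hM (k + j)
    rw [div_lt_iff₀ hvk] at hj
    linarith
  intro k
  refine ⟨hvu k, ?_⟩
  have a1 := h1 k
  have a3 := hvu k
  have a4 := hvu (k + 1)
  have b1 := hu k
  have b2 := hu (k + 1)
  linarith

theorem seq_decay_tendsto {u v : ℕ → ℝ} {M : ℝ} (hu : ∀ k, 0 ≤ u k) (hv : ∀ k, 0 ≤ v k) (hM : ∀ k, v k ≤ M)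
    (h1 : ∀ k, u (k + 1) ≤ 81 / 100 * u k + 1 / 10 ^ 11 * (u k + v k + u (k + 1) + v (k + 1)))
    (h2 : ∀ k, v k ≤ 81 / 100 * v (k + 1) + 1 / 10 ^ 11 * (u k + v k + u (k + 1) + v (k + 1))) :
    Tendsto u atTop (𝓝 0) ∧ Tendsto v atTop (𝓝 0) := by
  have key := seq_decay hu hv hM h1 h2
  have hb : ∀ k, u k ≤ (82 / 100 : ℝ) ^ k * u 0 := by
    intro k
    induction k with
    | zero => simp
    | succ k ih =>
      have := (key k).2
      rw [pow_succ]
      linarith
  have ht : Tendsto (fun k : ℕ => (82 / 100 : ℝ) ^ k * u 0) atTop (𝓝 0) := by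
    have := (tendsto_pow_atTop_nhds_zero_of_lt_one (by norm_num : (0 : ℝ) ≤ 82 / 100)
      (by norm_num)).mul_const (u 0)
    simpa using this
  have hu0 : Tendsto u atTop (𝓝 0) := squeeze_zero hu hb ht
  exact ⟨hu0, squeeze_zero hv (fun k => (key k).1) hu0⟩

end Pool.Agent.Lib.H37N
end

-- from Lib.H37N.T3
section

/-! # H37N, chunk T3 (S/M): cut-off functions and localisation -/

open Set Filter Topology Asymptotics
open scoped ContDiff

namespace Pool.Agent.Lib.H37N

variable {P E W : Type} [NormedAddCommGroup P] [NormedSpace ℝ P] [FiniteDimensional ℝ P]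
  [NormedAddCommGroup E] [NormedSpace ℝ E] [FiniteDimensional ℝ E]
  [NormedAddCommGroup W] [NormedSpace ℝ W] [CompleteSpace W]

omit [CompleteSpace W] in
/-- Cut-off function of a compact set in an open set.

PROOF. Mathlib: `exists_contDiff_tsupport_subset` at every point x of C gives f_x with f_x(x) = 1, tsupport in O, compact support, range in
[0,1]; finitely many sets {f_x > 1/2} cover C; Φ := Σ f_x has Φ > 1/2 on a neighbourhood of C; χ := τ(Φ) with a smooth τ : ℝ → [0,1], τ = 0 for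
t ≤ 0 and τ(t) = 1 for t ≥ 1/2 (`Real.smoothTransition (2 t)`).  tsupport χ ⊆ ∪ tsupport f_x.
(Alternatively `exists_contMDiff_...` of `Mathlib/Geometry/Manifold/PartitionOfUnity` with an intermediate compact set,
`exists_compact_between`, and `contMDiff_iff_contDiff`.) -/
theorem exists_cutoff {C O : Set E} (hC : IsCompact C) (hO : IsOpen O) (h : C ⊆ O) :
    ∃ χ : E → ℝ, ContDiff ℝ ∞ χ ∧ HasCompactSupport χ ∧ tsupport χ ⊆ O ∧ (∀ x, χ x ∈ Icc (0 : ℝ) 1) ∧
      ∀ᶠ x in 𝓝ˢ C, χ x = 1 := by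
  obtain ⟨L, hL, hCL, hLO⟩ := exists_compact_between hC hO h
  obtain ⟨f, h1, h0, h01⟩ := exists_contMDiffMap_one_nhds_of_subset_interior (n := ⊤)
    (modelWithCornersSelf ℝ E) hC.isClosed hCL
  have hsupp : Function.support f ⊆ L := fun x hx => by
    by_contra hxL
    exact hx (h0 x hxL)
  refine ⟨f, f.contMDiff.contDiff, HasCompactSupport.intro hL h0, ?_, h01, h1⟩
  exact (closure_minimal hsupp hL.isClosed).trans hLO

omit [CompleteSpace W] in
/-- T3. Localisation.

PROOF. g := χ • f with χ from `exists_cutoff`: smooth at the points of O (`ContDiffOn` on an open set) and zero near the points outside tsupport χ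
(closed): `contDiff_iff_contDiffAt`.  (The lemma `contDiff_of_tsupport` may help.) -/
theorem localise {C O : Set E} (hC : IsCompact C) (hO : IsOpen O) (h : C ⊆ O) {f : E → W} (hf : ContDiffOn ℝ ∞ f O) :
    ∃ g : E → W, ContDiff ℝ ∞ g ∧ HasCompactSupport g ∧ tsupport g ⊆ O ∧ ∀ᶠ x in 𝓝ˢ C, g x = f x := by
  obtain ⟨χ, hχ, hcs, hts, -, h1⟩ := exists_cutoff hC hO h
  refine ⟨fun x => χ x • f x, ?_, hcs.smul_right, (tsupport_smul_subset_left χ f).trans hts, ?_⟩
  · rw [contDiff_iff_contDiffAt]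
    intro x
    by_cases hx : x ∈ O
    · exact hχ.contDiffAt.smul (hf.contDiffAt (hO.mem_nhds hx))
    · have hx' : x ∉ tsupport χ := fun h' => hx (hts h')
      have h0 : χ =ᶠ[𝓝 x] 0 := notMem_tsupport_iff_eventuallyEq.1 hx'
      have h2 : (fun x => χ x • f x) =ᶠ[𝓝 x] fun _ => (0 : W) := by
        filter_upwards [h0] with y hy
        simp [hy]
      exact contDiffAt_const.congr_of_eventuallyEq h2
  · filter_upwards [h1] with x hx
    simp [hx]

omit [CompleteSpace W] in
/-- T3 at a point.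

PROOF. `localise` with C = {x₀} and O = interior {x | ContDiffAt ℝ ∞ f x} (`nhdsSet_singleton`). -/
theorem localise_at {x₀ : E} {f : E → W} (hf : ∀ᶠ x in 𝓝 x₀, ContDiffAt ℝ ∞ f x) :
    ∃ g : E → W, ContDiff ℝ ∞ g ∧ g =ᶠ[𝓝 x₀] f := by
  have hx : x₀ ∈ interior {x | ContDiffAt ℝ ∞ f x} := mem_interior_iff_mem_nhds.2 hf
  obtain ⟨g, hg, -, -, h1⟩ := localise (f := f) (isCompact_singleton (x := x₀))
    isOpen_interior (singleton_subset_iff.2 hx)
    (fun x hx => by
      have h' : ContDiffAt ℝ ∞ f x := by simpa using interior_subset hx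
      exact h'.contDiffWithinAt)
  rw [nhdsSet_singleton] at h1
  exact ⟨g, hg, h1⟩

end Pool.Agent.Lib.H37N
end

-- from Lib.H37N.T10a
section

/-! # H37N, chunk T10a (M): inverse function theorem with a global smooth inverse -/

open Set Filter Topology Asymptotics
open scoped ContDiff

namespace Pool.Agent.Lib.H37N

variable {E Z : Type} [NormedAddCommGroup E] [NormedSpace ℝ E] [FiniteDimensional ℝ E]
  [NormedAddCommGroup Z] [NormedSpace ℝ Z] [FiniteDimensional ℝ Z]

/-- T10, general form.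

PROOF. fderiv f x₀ is a continuous linear equivalence e (`ContinuousLinearEquiv.ofBijective` / `LinearEquiv.toContinuousLinearEquiv`).  `ContDiffAt.toOpenPartialHomeomorph` (n = ∞) gives a local
homeomorphism Φ with Φ = f on its source, x₀ in the source.  Φ.symm is ContDiffAt ∞ at all points y near f x₀: for x = Φ.symm y near x₀, f is ContDiffAt ∞ at x (hypothesis) and fderiv f x
is invertible (continuity of fderiv f at x₀ and openness of the units: `ContinuousLinearEquiv.nhds`), `OpenPartialHomeomorph.contDiffAt_symm`.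
So `localise_at` gives a global smooth g equal to Φ.symm near f x₀; g (f x) = x for x near x₀ (f continuous at x₀), f (g y) = y for y near f x₀. -/
theorem inverse_fun {f : E → Z} {x₀ : E} (hf : ∀ᶠ x in 𝓝 x₀, ContDiffAt ℝ ∞ f x)
    (hb : Function.Bijective (fderiv ℝ f x₀)) :
    ∃ g : Z → E, ContDiff ℝ ∞ g ∧ g (f x₀) = x₀ ∧ (∀ᶠ x in 𝓝 x₀, g (f x) = x) ∧ ∀ᶠ y in 𝓝 (f x₀), f (g y) = y := by
  have : CompleteSpace E := FiniteDimensional.complete ℝ E
  have : CompleteSpace Z := FiniteDimensional.complete ℝ Z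
  have hx0 : ContDiffAt ℝ ∞ f x₀ := hf.self_of_nhds
  obtain ⟨e, he⟩ : ∃ e : E ≃L[ℝ] Z, (e : E →L[ℝ] Z) = fderiv ℝ f x₀ := by
    refine ⟨ContinuousLinearEquiv.ofBijective (fderiv ℝ f x₀) ?_ ?_, ?_⟩
    · exact LinearMap.ker_eq_bot.2 hb.1
    · exact LinearMap.range_eq_top.2 hb.2
    · exact ContinuousLinearEquiv.coe_ofBijective _ _ _
  have hne : (∞ : WithTop ℕ∞) ≠ 0 := by simp
  have hfd : HasFDerivAt f (e : E →L[ℝ] Z) x₀ := by
    rw [he]
    exact (hx0.differentiableAt (by simp)).hasFDerivAt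
  set Φ := hx0.toOpenPartialHomeomorph f hfd hne with hΦ
  have hΦf : ∀ x, Φ x = f x := fun x => by rw [hΦ, ContDiffAt.toOpenPartialHomeomorph_coe]
  have hsrc : x₀ ∈ Φ.source := hx0.mem_toOpenPartialHomeomorph_source hfd hne
  have htgt : f x₀ ∈ Φ.target := hx0.image_mem_toOpenPartialHomeomorph_target hfd hne
  have hsymm0 : Φ.symm (f x₀) = x₀ := by
    rw [← hΦf x₀]
    exact Φ.left_inv hsrc
  -- the derivative is invertible nearby
  have hcont : ContinuousAt (fderiv ℝ f) x₀ := (hx0.fderiv_right (m := ∞) (by simp)).continuousAt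
  have hinv : ∀ᶠ x in 𝓝 x₀, fderiv ℝ f x ∈ range ((↑) : (E ≃L[ℝ] Z) → E →L[ℝ] Z) := by
    apply hcont.eventually
    rw [← he]
    exact ContinuousLinearEquiv.nhds e
  have hsc : Tendsto Φ.symm (𝓝 (f x₀)) (𝓝 x₀) := by
    have := Φ.continuousAt_symm htgt
    rw [ContinuousAt, hsymm0] at this
    exact this
  have hgood : ∀ᶠ y in 𝓝 (f x₀), ContDiffAt ℝ ∞ Φ.symm y := by
    filter_upwards [hsc.eventually hf, hsc.eventually hinv, Φ.open_target.mem_nhds htgt] with y h1 h2 h3
    obtain ⟨e', he'⟩ := h2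
    refine Φ.contDiffAt_symm (f₀' := e') h3 ?_ ?_
    · rw [he']
      exact (h1.differentiableAt (by simp)).hasFDerivAt
    · exact h1
  obtain ⟨g, hg, hgeq⟩ := localise_at hgood
  refine ⟨g, hg, ?_, ?_, ?_⟩
  · rw [hgeq.eq_of_nhds, hsymm0]
  · filter_upwards [hx0.continuousAt.eventually hgeq, Φ.open_source.mem_nhds hsrc] with x h1 h2
    rw [h1, ← hΦf x]
    exact Φ.left_inv h2
  · filter_upwards [hgeq, Φ.open_target.mem_nhds htgt] with y h1 h2
    rw [h1, ← hΦf]
    exact Φ.right_inv h2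

end Pool.Agent.Lib.H37N
end

-- from Lib.H37N.T5d
section

/-! # H37N, chunk T5d (S/M): polynomials of degree at most k which are O(|v|^(k+1)) vanish -/

open Set Filter Topology Asymptotics
open scoped ContDiff

namespace Pool.Agent.Lib.H37N

variable {W : Type} [NormedAddCommGroup W] [NormedSpace ℝ W]

/-- PROOF. Induction on k (or strong induction on n): suppose c m = 0 for m < n; then Σ_{m ≤ k} t^m c m = t^n (c n + O(t)) = O(t^(k+1)), k+1 > n; divide by t^n, let t → 0
(t ≠ 0): c n = 0. -/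
theorem poly1_unique (k : ℕ) (c : ℕ → W)
    (h : (fun t : ℝ => ∑ n ∈ Finset.range (k + 1), t ^ n • c n) =O[𝓝 0] fun t : ℝ => t ^ (k + 1)) :
    ∀ n ≤ k, c n = 0 := by
  intro n
  induction n using Nat.strong_induction_on with
  | _ n ih =>
  intro hn
  set g : ℝ → W := fun t => ∑ m ∈ Finset.range (k + 1), t ^ (m - n) • c m with hg
  have hfg : ∀ t : ℝ, ∑ m ∈ Finset.range (k + 1), t ^ m • c m = t ^ n • g t := by
    intro t
    rw [hg]
    simp only [Finset.smul_sum, smul_smul]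
    apply Finset.sum_congr rfl
    intro m hm
    by_cases h1 : m < n
    · rw [ih m h1 (by omega)]
      simp
    · rw [← pow_add]
      congr 2
      omega
  have hgc : Continuous g := by
    rw [hg]
    fun_prop
  have hg0 : g 0 = c n := by
    rw [hg]
    show ∑ m ∈ Finset.range (k + 1), (0 : ℝ) ^ (m - n) • c m = c n
    rw [Finset.sum_eq_single_of_mem n (Finset.mem_range.2 (by omega))]
    · simp
    · intro m _ hmn
      by_cases h1 : m < n
      · rw [ih m h1 (by omega)]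
        simp
      · rw [zero_pow (by omega), zero_smul]
  have h1 : (fun t : ℝ => t ^ n • g t) =o[𝓝 0] fun t : ℝ => t ^ n := by
    have h2 : (fun t : ℝ => t ^ n • g t) =O[𝓝 0] fun t : ℝ => t ^ (k + 1) := by
      refine h.congr_left fun t => hfg t
    exact h2.trans_isLittleO (isLittleO_pow_pow (by omega))
  have h3 := (h1.mono (nhdsWithin_le_nhds (s := {0}ᶜ))).tendsto_inv_smul_nhds_zero
  have h4 : Tendsto (fun t : ℝ => (t ^ n)⁻¹ • t ^ n • g t) (𝓝[≠] 0) (𝓝 (g 0)) := by
    have h5 : Tendsto g (𝓝[≠] 0) (𝓝 (g 0)) := (hgc.tendsto 0).mono_left nhdsWithin_le_nhds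
    refine h5.congr' ?_
    filter_upwards [self_mem_nhdsWithin] with t ht
    have ht' : t ^ n ≠ 0 := pow_ne_zero _ ht
    rw [smul_smul, inv_mul_cancel₀ ht', one_smul]
  rw [← hg0]
  exact tendsto_nhds_unique h4 h3

/-- PROOF. For fixed (ξ,η) compose with t ↦ (tξ, tη): the sum is Σ_n t^n Q_n(ξ,η), Q_n(ξ,η) = Σ_{a+b=n} ξ^a η^b c a b, and it is O(t^(k+1)); by `poly1_unique` Q_n(ξ,η) = 0 for
n ≤ k.  With η = 1: Σ_{a ≤ n} ξ^a • c a (n-a) = 0 for all ξ ∈ ℝ, so it is O(ξ^(n+1)) and `poly1_unique` (degree n) gives c a (n-a) = 0. -/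
theorem poly2_unique (k : ℕ) (c : ℕ → ℕ → W)
    (h : (fun z : ℝ × ℝ => ∑ n ∈ Finset.range (k + 1), ∑ a ∈ Finset.range (n + 1),
      (z.1 ^ a * z.2 ^ (n - a)) • c a (n - a)) =O[𝓝 0] fun z => ‖z‖ ^ (k + 1)) :
    ∀ a b, a + b ≤ k → c a b = 0 := by
  have h1 : ∀ (ξ η : ℝ), ∀ n ≤ k, ∑ a ∈ Finset.range (n + 1), (ξ ^ a * η ^ (n - a)) • c a (n - a) = 0 := by
    intro ξ η
    apply poly1_unique k (fun n => ∑ a ∈ Finset.range (n + 1), (ξ ^ a * η ^ (n - a)) • c a (n - a))
    have ht : Tendsto (fun t : ℝ => (t * ξ, t * η)) (𝓝 0) (𝓝 (0 : ℝ × ℝ)) := by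
      have h2 : Continuous (fun t : ℝ => (t * ξ, t * η)) := by fun_prop
      have h3 := h2.tendsto 0
      simp only [zero_mul] at h3
      exact h3
    have h4 := h.comp_tendsto ht
    have h5 : (fun t : ℝ => ∑ n ∈ Finset.range (k + 1), t ^ n •
        ∑ a ∈ Finset.range (n + 1), (ξ ^ a * η ^ (n - a)) • c a (n - a)) =
        ((fun z : ℝ × ℝ => ∑ n ∈ Finset.range (k + 1), ∑ a ∈ Finset.range (n + 1),
      (z.1 ^ a * z.2 ^ (n - a)) • c a (n - a)) ∘ fun t : ℝ => (t * ξ, t * η)) := by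
      funext t
      simp only [Function.comp]
      apply Finset.sum_congr rfl
      intro n _
      rw [Finset.smul_sum]
      apply Finset.sum_congr rfl
      intro a ha
      have ha' : a ≤ n := by
        have := Finset.mem_range.1 ha
        omega
      rw [smul_smul]
      congr 1
      rw [mul_pow, mul_pow]
      have h6 : t ^ n = t ^ a * t ^ (n - a) := by
        rw [← pow_add]
        congr 1
        omega
      rw [h6]
      ring
    rw [h5]
    refine h4.trans ?_
    have h7 : ((fun z : ℝ × ℝ => ‖z‖ ^ (k + 1)) ∘ fun t : ℝ => (t * ξ, t * η)) =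
        fun t : ℝ => ‖(ξ, η)‖ ^ (k + 1) * ‖t ^ (k + 1)‖ := by
      funext t
      simp only [Function.comp]
      have h8 : (t * ξ, t * η) = t • ((ξ, η) : ℝ × ℝ) := by simp
      rw [h8, norm_smul, mul_pow, norm_pow]
      ring
    rw [h7]
    exact (isBigO_norm_left.2 (isBigO_refl _ _)).const_mul_left _
  intro a b hab
  have h9 := poly1_unique (a + b) (fun a' => c a' (a + b - a')) (by
    have h10 : (fun t : ℝ => ∑ n ∈ Finset.range (a + b + 1), t ^ n • c n (a + b - n)) =
        fun _ => (0 : W) := by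
      funext t
      have h11 := h1 t 1 (a + b) hab
      simpa using h11
    rw [h10]
    exact isBigO_zero _ _) a (by omega)
  have h12 : a + b - a = b := by omega
  rw [h12] at h9
  exact h9

/-- PROOF. |x|, |y| ≤ ‖(x,y)‖ (sup norm) and G is bounded near 0: each term is O(‖z‖^(k+1)); `IsBigO.sum`. -/
theorem remainder2_isBigO (k : ℕ) (G : ℕ → ℕ → ℝ × ℝ → W) (hG : ∀ a b, ContinuousAt (G a b) 0) :
    (fun z : ℝ × ℝ => ∑ a ∈ Finset.range (k + 2), (z.1 ^ a * z.2 ^ (k + 1 - a)) • G a (k + 1 - a) z)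
      =O[𝓝 0] fun z => ‖z‖ ^ (k + 1) := by
  apply IsBigO.fun_sum
  intro a ha
  have ha' : a ≤ k + 1 := by
    have := Finset.mem_range.1 ha
    omega
  have h1 : (fun z : ℝ × ℝ => G a (k + 1 - a) z) =O[𝓝 0] fun _ => (1 : ℝ) :=
    (hG a (k + 1 - a)).isBigO_one ℝ
  have h2 : (fun z : ℝ × ℝ => z.1 ^ a * z.2 ^ (k + 1 - a)) =O[𝓝 0] fun z => ‖z‖ ^ (k + 1) := by
    apply IsBigO.of_bound 1
    filter_upwards with z
    rw [norm_mul, norm_pow, norm_pow, norm_pow, norm_norm, one_mul]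
    have h3 : ‖z.1‖ ^ a ≤ ‖z‖ ^ a := pow_le_pow_left₀ (norm_nonneg _) (norm_fst_le z) _
    have h4 : ‖z.2‖ ^ (k + 1 - a) ≤ ‖z‖ ^ (k + 1 - a) :=
      pow_le_pow_left₀ (norm_nonneg _) (norm_snd_le z) _
    calc ‖z.1‖ ^ a * ‖z.2‖ ^ (k + 1 - a) ≤ ‖z‖ ^ a * ‖z‖ ^ (k + 1 - a) :=
          mul_le_mul h3 h4 (by positivity) (by positivity)
      _ = ‖z‖ ^ (k + 1) := by
          rw [← pow_add]
          congr 1
          omega
  have h5 := h2.smul h1
  simpa using h5

end Pool.Agent.Lib.H37N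
end

-- from Lib.H37N.SA1
section

/-! # H37N, chunk SA1 (S/M): the rotation of order N = 2N', trigonometric part of AS2 (S.2) -/

open Set Filter Topology Asymptotics
open scoped ContDiff

namespace Pool.Agent.Lib.H37N

noncomputable section

/-- the angle `π / N'` (the map `(x,u) ↦ (u, -x + 2 cos θ u)` has order `N = 2 N'`) -/
def sth (n : ℕ) : ℝ := Real.pi / n

/-- `K_i = sin (i θ) / sin θ`, for real `i` -/
def sK (n : ℕ) (i : ℝ) : ℝ := Real.sin (i * sth n) / Real.sin (sth n)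

/-- first component of the i-th iterate of `(x,u)` -/
def spi (n : ℕ) (i : ℝ) (v : ℝ × ℝ) : ℝ := sK n i * v.2 - sK n (i - 1) * v.1

/-- `a_l = K_0 + ... + K_(N-1-l)`, `N = 2n` -/
def sa (n l : ℕ) : ℝ := ∑ i ∈ Finset.range (2 * n - l), sK n i

theorem sa1_mul {n : ℕ} (hn : 2 ≤ n) : (n : ℝ) * sth n = Real.pi := by
  have h0 : (n : ℝ) ≠ 0 := by
    have : 0 < n := by omega
    exact_mod_cast this.ne'
  unfold sth
  field_simp

theorem sa1_sth_pos {n : ℕ} (hn : 2 ≤ n) : 0 < sth n := by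
  have h0 : (0 : ℝ) < n := by
    have : 0 < n := by omega
    exact_mod_cast this
  exact div_pos Real.pi_pos h0

/-- PROOF.  `0 < π/n < π` for `2 ≤ n`. -/
theorem sin_sth_pos {n : ℕ} (hn : 2 ≤ n) : 0 < Real.sin (sth n) := by
  refine Real.sin_pos_of_pos_of_lt_pi (sa1_sth_pos hn) ?_
  have h1 := sa1_mul hn
  have h2 : (2 : ℝ) ≤ n := by exact_mod_cast hn
  have h3 := sa1_sth_pos hn
  nlinarith

/-- PROOF.  `sin ((i+1)θ) + sin ((i-1)θ) = 2 cos θ sin (iθ)`. -/
theorem sK_rec {n : ℕ} (hn : 2 ≤ n) (i : ℝ) : sK n (i + 1) = 2 * Real.cos (sth n) * sK n i - sK n (i - 1) := by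
  have h0 := (sin_sth_pos hn).ne'
  unfold sK
  rw [show (i + 1) * sth n = i * sth n + sth n by ring,
    show (i - 1) * sth n = i * sth n - sth n by ring, Real.sin_add, Real.sin_sub]
  field_simp
  ring

theorem sK_zero (n : ℕ) : sK n 0 = 0 := by
  simp [sK]

theorem sK_one {n : ℕ} (hn : 2 ≤ n) : sK n 1 = 1 := by
  have h0 := (sin_sth_pos hn).ne'
  unfold sK
  rw [one_mul]
  exact div_self h0

theorem sK_neg_one {n : ℕ} (hn : 2 ≤ n) : sK n (-1) = -1 := by
  have h0 := (sin_sth_pos hn).ne'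
  unfold sK
  rw [neg_one_mul, Real.sin_neg, neg_div, div_self h0]

/-- PROOF.  `(i + n) π/n = i π/n + π`. -/
theorem sK_add_half {n : ℕ} (hn : 2 ≤ n) (i : ℝ) : sK n (i + n) = - sK n i := by
  unfold sK
  rw [add_mul, sa1_mul hn, Real.sin_add_pi, neg_div]

/-- PROOF.  `sin (2π - iθ) = - sin (iθ)`. -/
theorem sK_sub {n : ℕ} (hn : 2 ≤ n) (i : ℝ) : sK n (2 * n - i) = - sK n i := by
  unfold sK
  rw [sub_mul, mul_assoc, sa1_mul hn, Real.sin_two_pi_sub, neg_div]

theorem spi_rec {n : ℕ} (hn : 2 ≤ n) (i : ℝ) (v : ℝ × ℝ) :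
    spi n (i + 1) v = 2 * Real.cos (sth n) * spi n i v - spi n (i - 1) v := by
  have h1 := sK_rec hn i
  have h2 := sK_rec hn (i - 1)
  unfold spi
  rw [show i + 1 - 1 = i by ring, h1]
  rw [show i - 1 + 1 = i by ring] at h2
  rw [h2]
  ring

theorem spi_zero {n : ℕ} (hn : 2 ≤ n) (v : ℝ × ℝ) : spi n 0 v = v.1 := by
  unfold spi
  rw [sK_zero, zero_sub, sK_neg_one hn]
  ring

theorem spi_one {n : ℕ} (hn : 2 ≤ n) (v : ℝ × ℝ) : spi n 1 v = v.2 := by
  unfold spi
  rw [sub_self, sK_zero, sK_one hn]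
  ring

theorem spi_add_half {n : ℕ} (hn : 2 ≤ n) (i : ℝ) (v : ℝ × ℝ) : spi n (i + n) v = - spi n i v := by
  unfold spi
  rw [show i + (n : ℝ) - 1 = (i - 1) + n by ring, sK_add_half hn, sK_add_half hn]
  ring

/-- PROOF.  Pair `j` with `j + n` (`spi_add_half`): `Finset.sum_range_add` / `Finset.range_eq_Ico`, the sum over `range (n + n)` is the sum over `range n` of
`spi (j+1) + spi (j+n+1) = 0`. -/
theorem spi_sum {n : ℕ} (hn : 2 ≤ n) (v : ℝ × ℝ) : ∑ j ∈ Finset.range (2 * n), spi n (j + 1) v = 0 := by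
  rw [two_mul, Finset.sum_range_add, ← Finset.sum_add_distrib]
  refine Finset.sum_eq_zero fun j _ => ?_
  rw [Nat.cast_add, show (n : ℝ) + j + 1 = (j + 1) + n by ring, spi_add_half hn]
  ring

/-- PROOF.  `0 < i π/n < π`. -/
theorem sK_pos {n i : ℕ} (hn : 2 ≤ n) (h0 : 0 < i) (hi : i < n) : 0 < sK n i := by
  have h1 : (0 : ℝ) < i := by exact_mod_cast h0
  have h2 : (i : ℝ) < n := by exact_mod_cast hi
  have h3 := sa1_sth_pos hn
  have h4 := sa1_mul hn
  refine div_pos (Real.sin_pos_of_pos_of_lt_pi (mul_pos h1 h3) ?_) (sin_sth_pos hn)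
  nlinarith

/-- `a_l + a_(l+n) = K_0 + ... + K_(n-1)`.  PROOF.  `a_l = Σ_{i<n} K_i + Σ_{i<n-l} K_(i+n)` (`Finset.sum_range_add` after `2n - l = n + (n - l)`), `K_(i+n) = - K_i`
(`sK_add_half`), `a_(l+n) = Σ_{i<n-l} K_i`. -/
theorem sa_add {n l : ℕ} (hn : 2 ≤ n) (hl : l < n) : sa n l + sa n (l + n) = ∑ i ∈ Finset.range n, sK n i := by
  unfold sa
  rw [show 2 * n - l = n + (n - l) by omega, show 2 * n - (l + n) = n - l by omega,
    Finset.sum_range_add, add_assoc, ← Finset.sum_add_distrib]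
  have h : ∑ x ∈ Finset.range (n - l), (sK n ((n + x : ℕ) : ℝ) + sK n (x : ℝ)) = 0 := by
    refine Finset.sum_eq_zero fun j _ => ?_
    rw [Nat.cast_add, add_comm (n : ℝ) j, sK_add_half hn]
    ring
  rw [h, add_zero]

/-- PROOF.  `K_0 = 0`, `K_1 = 1`, all other terms are positive (`sK_pos`). -/
theorem sa_sum_pos {n : ℕ} (hn : 2 ≤ n) : 0 < ∑ i ∈ Finset.range n, sK n i := by
  refine Finset.sum_pos' (fun i hi => ?_) ⟨1, Finset.mem_range.2 (by omega), ?_⟩
  · rcases Nat.eq_zero_or_pos i with h | h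
    · rw [h, Nat.cast_zero, sK_zero]
    · exact (sK_pos hn h (Finset.mem_range.1 hi)).le
  · exact sK_pos hn one_pos (by omega)

theorem sa1_sin_ne {n l m : ℕ} (hn : 2 ≤ n) (hl : l + 1 < n) (h : m < l) :
    Real.sin (((l : ℝ) - m) * sth n) ≠ 0 := by
  have h1 : (0 : ℝ) < (l : ℝ) - m := by
    have : (m : ℝ) < l := by exact_mod_cast h
    linarith
  have h2 : (l : ℝ) - m < n := by
    have h3 : (l : ℝ) + 1 < n := by exact_mod_cast hl
    have h4 : (0 : ℝ) ≤ m := Nat.cast_nonneg m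
    linarith
  have h3 := sa1_sth_pos hn
  have h4 := sa1_mul hn
  exact (Real.sin_pos_of_pos_of_lt_pi (mul_pos h1 h3) (by nlinarith)).ne'

theorem sa1_cross {n : ℕ} (l m : ℝ) :
    Real.sin (l * sth n) * Real.sin ((m + 1) * sth n) - Real.sin (m * sth n) * Real.sin ((l + 1) * sth n) =
      Real.sin (sth n) * Real.sin ((l - m) * sth n) := by
  rw [show (m + 1) * sth n = m * sth n + sth n by ring,
    show (l + 1) * sth n = l * sth n + sth n by ring,
    show (l - m) * sth n = l * sth n - m * sth n by ring, Real.sin_add, Real.sin_add, Real.sin_sub]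
  ring

/-- The ratios `K_l / K_(l+1)` are distinct.  PROOF.  Suppose `K_l / K_(l+1) = K_m / K_(m+1)`, so `K_l K_(m+1) = K_m K_(l+1)`; but
`sin (lθ) sin ((m+1)θ) - sin (mθ) sin ((l+1)θ) = sin θ sin ((l-m)θ)`, and `sin ((l - m) θ) ≠ 0` for `0 < |l - m| < n`. -/
theorem sK_ratio {n l m : ℕ} (hn : 2 ≤ n) (hl : l + 1 < n) (hm : m + 1 < n)
    (h : sK n l / sK n (l + 1) = sK n m / sK n (m + 1)) : l = m := by
  have hs := sin_sth_pos hn
  have h1 : 0 < sK n ((l : ℝ) + 1) := by
    have := sK_pos hn (Nat.succ_pos l) hl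
    rwa [Nat.succ_eq_add_one, Nat.cast_add, Nat.cast_one] at this
  have h2 : 0 < sK n ((m : ℝ) + 1) := by
    have := sK_pos hn (Nat.succ_pos m) hm
    rwa [Nat.succ_eq_add_one, Nat.cast_add, Nat.cast_one] at this
  rw [div_eq_div_iff h1.ne' h2.ne'] at h
  have h3 : Real.sin (l * sth n) * Real.sin (((m : ℝ) + 1) * sth n) =
      Real.sin (m * sth n) * Real.sin (((l : ℝ) + 1) * sth n) := by
    unfold sK at h
    rw [div_mul_div_comm, div_mul_div_comm] at h
    exact (div_left_inj' (mul_pos hs hs).ne').1 h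
  have h4 := sa1_cross (n := n) (l : ℝ) m
  rw [h3, sub_self] at h4
  have h5 : Real.sin (((l : ℝ) - m) * sth n) = 0 := by
    rcases mul_eq_zero.1 h4.symm with h | h
    · exact absurd h hs.ne'
    · exact h
  rcases lt_trichotomy l m with h6 | h6 | h6
  · exfalso
    have h7 := sa1_sin_ne hn hm h6
    apply h7
    rw [show ((m : ℝ) - l) * sth n = - (((l : ℝ) - m) * sth n) by ring, Real.sin_neg, h5, neg_zero]
  · exact h6
  · exact absurd h5 (sa1_sin_ne hn hl h6)

end

end Pool.Agent.Lib.H37N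
end

-- from Lib.H37N.T1
section

/-! # H37N, chunk T1 (done): smoothness of integrals with parameters -/

open Set Filter Topology Asymptotics
open scoped ContDiff

namespace Pool.Agent.Lib.H37N

theorem t1_hasFDerivAt {P W : Type} [NormedAddCommGroup P] [NormedSpace ℝ P] [FiniteDimensional ℝ P]
    [NormedAddCommGroup W] [NormedSpace ℝ W] [CompleteSpace W] (f : ℝ × P → W) (hf : ContDiff ℝ 1 f) (a b : ℝ) (z₀ : P) :
    HasFDerivAt (fun z : P => ∫ t in a..b, f (t, z))
      (∫ t in a..b, (fderiv ℝ f (t, z₀)).comp (ContinuousLinearMap.inr ℝ ℝ P)) z₀ := by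
  have hprop : ProperSpace P := FiniteDimensional.proper ℝ P
  have hdf : Continuous (fun p : ℝ × P =>
      (fderiv ℝ f p).comp (ContinuousLinearMap.inr ℝ ℝ P)) := by
    have h1 : Continuous (fderiv ℝ f) := hf.continuous_fderiv (by simp)
    exact h1.clm_comp continuous_const
  have hc : IsCompact (uIcc a b ×ˢ Metric.closedBall z₀ 1) :=
    isCompact_uIcc.prod (isCompact_closedBall z₀ 1)
  obtain ⟨C, hC⟩ := hc.exists_bound_of_continuousOn hdf.continuousOn
  refine intervalIntegral.hasFDerivAt_integral_of_dominated_of_fderiv_le (𝕜 := ℝ)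
    (s := Metric.closedBall z₀ 1) (bound := fun _ => C)
    (F := fun z t => f (t, z)) (F' := fun z t => (fderiv ℝ f (t, z)).comp
      (ContinuousLinearMap.inr ℝ ℝ P)) ?_ ?_ ?_ ?_ ?_ ?_ ?_
  · exact Metric.closedBall_mem_nhds z₀ one_pos
  · refine Eventually.of_forall fun z => ?_
    have : Continuous (fun t : ℝ => f (t, z)) := hf.continuous.comp (by fun_prop)
    exact this.aestronglyMeasurable
  · have : Continuous (fun t : ℝ => f (t, z₀)) := hf.continuous.comp (by fun_prop)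
    exact this.intervalIntegrable _ _
  · have : Continuous (fun t : ℝ => (fderiv ℝ f (t, z₀)).comp
      (ContinuousLinearMap.inr ℝ ℝ P)) := hdf.comp (by fun_prop)
    exact this.aestronglyMeasurable
  · refine Eventually.of_forall fun t ht z hz => ?_
    apply hC
    exact ⟨uIoc_subset_uIcc ht, hz⟩
  · exact continuous_const.intervalIntegrable _ _
  · refine Eventually.of_forall fun t ht z hz => ?_
    have h1 : HasFDerivAt f (fderiv ℝ f (t, z)) (t, z) :=
      (hf.differentiable (by simp) _).hasFDerivAt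
    have h2 : HasFDerivAt (fun z : P => (t, z)) (ContinuousLinearMap.inr ℝ ℝ P) z :=
      hasFDerivAt_prodMk_right t z
    exact h1.comp z h2

theorem t1_nat {P W : Type} [NormedAddCommGroup P] [NormedSpace ℝ P] [FiniteDimensional ℝ P]
    [NormedAddCommGroup W] [NormedSpace ℝ W] [CompleteSpace W] (a b : ℝ) (n : ℕ) (f : ℝ × P → W) (hf : ContDiff ℝ n f) :
    ContDiff ℝ n (fun z : P => ∫ t in a..b, f (t, z)) := by
  induction n generalizing f with
  | zero =>
    have : Continuous (fun z : P => ∫ t in a..b, f (t, z)) := by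
      apply intervalIntegral.continuous_parametric_intervalIntegral_of_continuous'
      have := hf.continuous
      simp only [Function.uncurry_def]
      fun_prop
    exact_mod_cast contDiff_zero.2 this
  | succ n ih =>
    push_cast at hf ⊢
    have hf1 : ContDiff ℝ 1 f := hf.of_le (by simp)
    rw [contDiff_succ_iff_fderiv_apply]
    refine ⟨fun z => (t1_hasFDerivAt f hf1 a b z).differentiableAt, by simp, ?_⟩
    intro v
    have hcong : (fun z : P => fderiv ℝ (fun z : P => ∫ t in a..b, f (t, z)) z v)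
        = fun z : P => ∫ t in a..b, (fderiv ℝ f (t, z)) (0, v) := by
      funext z
      rw [(t1_hasFDerivAt f hf1 a b z).fderiv]
      rw [ContinuousLinearMap.intervalIntegral_apply]
      · simp
      · have hdf : Continuous (fun p : ℝ × P =>
            (fderiv ℝ f p).comp (ContinuousLinearMap.inr ℝ ℝ P)) := by
          have h1 : Continuous (fderiv ℝ f) := hf1.continuous_fderiv (by simp)
          exact h1.clm_comp continuous_const
        have : Continuous (fun t : ℝ => (fderiv ℝ f (t, z)).comp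
          (ContinuousLinearMap.inr ℝ ℝ P)) := hdf.comp (by fun_prop)
        exact this.intervalIntegrable _ _
    rw [hcong]
    exact ih (fun p => fderiv ℝ f p (0, v))
      ((hf.fderiv_right (m := n) le_rfl).clm_apply contDiff_const)

/-- T1: integrals of smooth functions are smooth functions of the parameters -/
theorem par_int {P W : Type} [NormedAddCommGroup P] [NormedSpace ℝ P] [FiniteDimensional ℝ P]
    [NormedAddCommGroup W] [NormedSpace ℝ W] [CompleteSpace W] {F : P × ℝ → W} (hF : ContDiff ℝ ∞ F) (a b : ℝ) :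
    ContDiff ℝ ∞ (fun p : P => ∫ u in a..b, F (p, u)) := by
  rw [contDiff_infty]
  intro n
  refine t1_nat a b n (fun q : ℝ × P => F (q.2, q.1)) ?_
  exact (contDiff_infty.1 hF n).comp (contDiff_snd.prodMk contDiff_fst)

/-- T1, scaled form -/
theorem par_scale {P E W : Type} [NormedAddCommGroup P] [NormedSpace ℝ P] [FiniteDimensional ℝ P]
    [NormedAddCommGroup E] [NormedSpace ℝ E] [FiniteDimensional ℝ E]
    [NormedAddCommGroup W] [NormedSpace ℝ W] [CompleteSpace W] {F : P × E → W} (hF : ContDiff ℝ ∞ F) :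
    ContDiff ℝ ∞ (fun q : P × E => ∫ u in (0 : ℝ)..1, F (q.1, u • q.2)) := by
  refine par_int (P := P × E) (F := fun r : (P × E) × ℝ => F (r.1.1, r.2 • r.1.2)) ?_ 0 1
  exact hF.comp ((contDiff_fst.comp contDiff_fst).prodMk (contDiff_snd.smul (contDiff_snd.comp contDiff_fst)))

end Pool.Agent.Lib.H37N
end

-- from Lib.H37N.T2
section

/-! # H37N, chunk T2 (S/M): Hadamard lemma with parameters -/

open Set Filter Topology Asymptotics
open scoped ContDiff

namespace Pool.Agent.Lib.H37N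

variable {P E W : Type} [NormedAddCommGroup P] [NormedSpace ℝ P] [FiniteDimensional ℝ P]
  [NormedAddCommGroup E] [NormedSpace ℝ E] [FiniteDimensional ℝ E]
  [NormedAddCommGroup W] [NormedSpace ℝ W] [CompleteSpace W]

/-- T2.  F(p,v) = F(p,0) + G(p,v) v.

PROOF. G(p,v) := ∫_0^1 (fderiv ℝ F (p, u • v)).comp (inr ℝ P E) du.  Smooth by `par_scale` applied to the smooth function
(p,v) ↦ (fderiv ℝ F (p,v)).comp inr (`ContDiff.fderiv_right`, `ContDiff.clm_comp`; the space E →L[ℝ] W is complete).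
G(p,v) v = ∫_0^1 (fderiv ℝ F (p, u • v)) (0,v) du = F(p,v) - F(p,0): `ContinuousLinearMap.intervalIntegral_apply` and
`intervalIntegral.integral_eq_sub_of_hasDerivAt` for u ↦ F (p, u • v) (chain rule).  G(p,0) = fderiv of v ↦ F(p,v) at 0:
the integrand is constant (u • 0 = 0); chain rule with `hasFDerivAt_prodMk_right`. -/
theorem hadamard {F : P × E → W} (hF : ContDiff ℝ ∞ F) :
    ∃ G : P × E → (E →L[ℝ] W), ContDiff ℝ ∞ G ∧ (∀ p v, F (p, v) = F (p, 0) + G (p, v) v) ∧
      ∀ p, G (p, 0) = fderiv ℝ (fun v => F (p, v)) 0 := by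
  have hD : ContDiff ℝ ∞ (fun q : P × E => (fderiv ℝ F q).comp (ContinuousLinearMap.inr ℝ P E)) := by
    have h1 : ContDiff ℝ ∞ (fderiv ℝ F) := hF.fderiv_right (by simp)
    exact h1.clm_comp contDiff_const
  have hdiff : ∀ q : P × E, HasFDerivAt F (fderiv ℝ F q) q := fun q =>
    (hF.differentiable (by simp) q).hasFDerivAt
  refine ⟨fun q => ∫ u in (0 : ℝ)..1, (fderiv ℝ F (q.1, u • q.2)).comp (ContinuousLinearMap.inr ℝ P E),
    par_scale (F := fun q : P × E => (fderiv ℝ F q).comp (ContinuousLinearMap.inr ℝ P E)) hD, ?_, ?_⟩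
  · intro p v
    have hcont : Continuous (fun u : ℝ => (fderiv ℝ F (p, u • v)).comp (ContinuousLinearMap.inr ℝ P E)) :=
      hD.continuous.comp (by fun_prop : Continuous (fun u : ℝ => (p, u • v)))
    have h2 : (∫ u in (0 : ℝ)..1, (fderiv ℝ F (p, u • v)).comp (ContinuousLinearMap.inr ℝ P E)) v
        = ∫ u in (0 : ℝ)..1, (fderiv ℝ F (p, u • v)) (0, v) := by
      rw [ContinuousLinearMap.intervalIntegral_apply (hcont.intervalIntegrable _ _)]
      simp
    have h3 : ∀ u : ℝ, HasDerivAt (fun u : ℝ => F (p, u • v)) ((fderiv ℝ F (p, u • v)) (0, v)) u := by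
      intro u
      have h4 : HasDerivAt (fun u : ℝ => ((p, u • v) : P × E)) ((0 : P), v) u := by
        refine (hasDerivAt_const u p).prodMk ?_
        simpa using (hasDerivAt_id u).smul_const v
      exact (hdiff (p, u • v)).comp_hasDerivAt u h4
    have h5 : ∫ u in (0 : ℝ)..1, (fderiv ℝ F (p, u • v)) (0, v) = F (p, (1 : ℝ) • v) - F (p, (0 : ℝ) • v) := by
      refine intervalIntegral.integral_eq_sub_of_hasDerivAt (fun u _ => h3 u) ?_
      have h6 : Continuous (fun u : ℝ => (fderiv ℝ F (p, u • v)) (0, v)) := by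
        have := hcont.clm_apply (continuous_const (y := v))
        simpa using this
      exact h6.intervalIntegrable _ _
    simp only [h2, h5, one_smul, zero_smul]
    abel
  · intro p
    have h7 : HasFDerivAt (fun v => F (p, v)) ((fderiv ℝ F (p, 0)).comp (ContinuousLinearMap.inr ℝ P E)) 0 :=
      (hdiff (p, 0)).comp 0 (hasFDerivAt_prodMk_right p (0 : E))
    rw [h7.fderiv]
    simp

/-- T2, scalar form.

PROOF. From `hadamard` with E = ℝ: G₁(p,t) := G(p,t) 1 (`ContDiff.clm_apply`), G(p,t) t = t • G(p,t) 1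
(`ContinuousLinearMap.map_smul`, t = t • 1), and (fderiv ℝ f 0) 1 = deriv f 0. -/
theorem hadamard1 {F : P × ℝ → W} (hF : ContDiff ℝ ∞ F) :
    ∃ G : P × ℝ → W, ContDiff ℝ ∞ G ∧ (∀ p t, F (p, t) = F (p, 0) + t • G (p, t)) ∧
      ∀ p, G (p, 0) = deriv (fun t => F (p, t)) 0 := by
  obtain ⟨G, hG, h1, h2⟩ := hadamard hF
  refine ⟨fun q => G q 1, hG.clm_apply contDiff_const, ?_, ?_⟩
  · intro p t
    rw [h1 p t, ← ContinuousLinearMap.map_smul, smul_eq_mul, mul_one]
  · intro p
    simp only [h2 p]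
    exact fderiv_apply_one_eq_deriv

end Pool.Agent.Lib.H37N
end

-- from Lib.H37N.T2b
section

/-! # H37N, chunk T2b (S/M): division by powers of t, one-variable Taylor formula with parameters -/

open Set Filter Topology Asymptotics
open scoped ContDiff

namespace Pool.Agent.Lib.H37N

variable {P E W : Type} [NormedAddCommGroup P] [NormedSpace ℝ P] [FiniteDimensional ℝ P]
  [NormedAddCommGroup E] [NormedSpace ℝ E] [FiniteDimensional ℝ E]
  [NormedAddCommGroup W] [NormedSpace ℝ W] [CompleteSpace W]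

omit [CompleteSpace W] in
/-- a function `t • g t` which is `O(t^(k+1))` has `g` of order `O(t^k)` -/
theorem t2b_div {g : ℝ → W} (hg : Continuous g) (k : ℕ)
    (h : (fun t : ℝ => t • g t) =O[𝓝 0] fun t : ℝ => t ^ (k + 1)) :
    g =O[𝓝 0] fun t : ℝ => t ^ k := by
  rcases k with _ | k
  · simp only [pow_zero]
    exact hg.continuousAt.isBigO_one ℝ
  · obtain ⟨C, hC⟩ := h.bound
    -- bound away from zero
    have h1 : ∀ᶠ t in 𝓝[≠] (0 : ℝ), ‖g t‖ ≤ C * ‖t ^ (k + 1)‖ := by
      filter_upwards [hC.filter_mono nhdsWithin_le_nhds, self_mem_nhdsWithin] with t ht ht0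
      have ht0' : (0 : ℝ) < ‖t‖ := norm_pos_iff.2 ht0
      rw [norm_smul, norm_pow, pow_succ] at ht
      have h2 : ‖t‖ * ‖g t‖ ≤ ‖t‖ * (C * ‖t ^ (k + 1)‖) := by
        rw [norm_pow]
        calc ‖t‖ * ‖g t‖ ≤ C * (‖t‖ ^ (k + 1) * ‖t‖) := ht
          _ = ‖t‖ * (C * ‖t‖ ^ (k + 1)) := by ring
      exact le_of_mul_le_mul_left h2 ht0'
    -- the value at zero
    have h3 : ‖g 0‖ ≤ C * ‖(0 : ℝ) ^ (k + 1)‖ := by
      have h4 : Tendsto (fun t : ℝ => ‖g t‖) (𝓝[≠] 0) (𝓝 ‖g 0‖) :=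
        (hg.norm.tendsto 0).mono_left nhdsWithin_le_nhds
      have h5 : Tendsto (fun t : ℝ => C * ‖t ^ (k + 1)‖) (𝓝[≠] 0) (𝓝 (C * ‖(0 : ℝ) ^ (k + 1)‖)) := by
        have : Continuous (fun t : ℝ => C * ‖t ^ (k + 1)‖) := by fun_prop
        exact (this.tendsto 0).mono_left nhdsWithin_le_nhds
      exact le_of_tendsto_of_tendsto h4 h5 h1
    refine IsBigO.of_bound C ?_
    rw [eventually_nhdsWithin_iff] at h1
    filter_upwards [h1] with t ht
    by_cases h0 : t = 0
    · subst h0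
      exact h3
    · exact ht h0

/-- T2, iterated.

PROOF. Induction on k for all F.  k = 0: G = F.  k+1: F(p,·) = O(t^(k+1)) gives F(p,0) = 0 (`IsBigO.eq_zero_of_norm_pow` or: continuity
and t^(k+1) → 0), so by `hadamard1` F(p,t) = t • G(p,t); and G(p,·) = O(t^k): for t ≠ 0, t • G = O(t^(k+1)) gives ‖G(p,t)‖ ≤ C |t|^k;
at t = 0 the same bound holds by continuity of G (if k = 0 any continuous function is O(1); if k ≥ 1: G(p,0) = lim = 0).
Apply the induction hypothesis to G. -/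
theorem hadamard_pow {F : P × ℝ → W} (hF : ContDiff ℝ ∞ F) (k : ℕ)
    (h : ∀ p, (fun t => F (p, t)) =O[𝓝 0] fun t : ℝ => t ^ k) :
    ∃ G : P × ℝ → W, ContDiff ℝ ∞ G ∧ ∀ p t, F (p, t) = t ^ k • G (p, t) := by
  induction k generalizing F with
  | zero => exact ⟨F, hF, fun p t => by simp⟩
  | succ k ih =>
    obtain ⟨G, hG, h1, -⟩ := hadamard1 hF
    have h0 : ∀ p, F (p, 0) = 0 := by
      intro p
      obtain ⟨C, hC⟩ := (h p).bound
      have := hC.self_of_nhds
      simpa using this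
    have h2 : ∀ p, (fun t => G (p, t)) =O[𝓝 0] fun t : ℝ => t ^ k := by
      intro p
      refine t2b_div (hG.continuous.comp (by fun_prop : Continuous (fun t : ℝ => (p, t)))) k ?_
      refine (h p).congr_left fun t => ?_
      rw [h1 p t, h0 p, zero_add]
      rfl
    obtain ⟨G', hG', h3⟩ := ih hG h2
    refine ⟨G', hG', fun p t => ?_⟩
    rw [h1 p t, h0 p, zero_add, h3 p t, smul_smul, pow_succ, mul_comm]



end Pool.Agent.Lib.H37N
end

-- from Lib.H37N.T5a
section

/-! # H37N, chunk T5a (M): O-calculus: f = O(|v|^(k+1)) and the derivatives -/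

open Set Filter Topology Asymptotics
open scoped ContDiff

namespace Pool.Agent.Lib.H37N

variable {P E W : Type} [NormedAddCommGroup P] [NormedSpace ℝ P] [FiniteDimensional ℝ P]
  [NormedAddCommGroup E] [NormedSpace ℝ E] [FiniteDimensional ℝ E]
  [NormedAddCommGroup W] [NormedSpace ℝ W] [CompleteSpace W]

/-- T5. The derivative of a smooth function which is O(|v|^(k+1)) is O(|v|^k).

PROOF. k = 0: the derivative is continuous, so bounded near x₀.  General k: the function (v,t) ↦ f(x₀ + t • v) on E × ℝ is smooth and for fixed v it is O(t^(k+1)) at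
t = 0 (composition of the hypothesis with t ↦ x₀ + t • v), so by `hadamard_pow` f(x₀ + t•v) = t^(k+1) • g(v,t), g smooth.  Differentiate in v, in the direction
w: t • fderiv f (x₀ + t•v) w = t^(k+1) • D_v g(v,t) w, so for t ≠ 0: fderiv f (x₀+t•v) = t^k • D_v g(v,t) (D_v g = (fderiv g).comp inl, continuous, bounded by C on the compact set
closedBall 0 1 ×ˢ Icc 0 1).  For x near x₀, x ≠ x₀, put t = ‖x - x₀‖, v = t⁻¹ • (x - x₀).  At x = x₀ (k ≥ 1): fderiv f x₀ = 0 because f = o(x - x₀) and f x₀ = 0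
(or by continuity).  (E is proper: `FiniteDimensional.proper`.) -/
theorem isBigO_fderiv {f : E → W} (hf : ContDiff ℝ ∞ f) (x₀ : E) (k : ℕ)
    (h : f =O[𝓝 x₀] fun x => ‖x - x₀‖ ^ (k + 1)) : fderiv ℝ f =O[𝓝 x₀] fun x => ‖x - x₀‖ ^ k := by
  have hprop : ProperSpace E := FiniteDimensional.proper ℝ E
  have hF : ContDiff ℝ ∞ (fun p : E × ℝ => f (x₀ + p.2 • p.1)) :=
    hf.comp (contDiff_const.add (contDiff_snd.smul contDiff_fst))
  obtain ⟨g, hg, hfg⟩ := hadamard_pow (F := fun p : E × ℝ => f (x₀ + p.2 • p.1)) hF (k + 1) (by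
    intro v
    have ht : Tendsto (fun t : ℝ => x₀ + t • v) (𝓝 0) (𝓝 x₀) := by
      have hc : Continuous (fun t : ℝ => x₀ + t • v) := by fun_prop
      have := hc.tendsto 0
      simpa using this
    have h1 := h.comp_tendsto ht
    refine (h1.congr_left fun t => rfl).trans ?_
    refine IsBigO.of_bound (‖v‖ ^ (k + 1)) (Eventually.of_forall fun t => ?_)
    simp only [Function.comp_apply, add_sub_cancel_left, norm_smul, norm_pow, norm_norm, mul_pow,
      norm_mul]
    rw [mul_comm])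
  have hgd : Differentiable ℝ g := hg.differentiable (by simp)
  have hfd : Differentiable ℝ f := hf.differentiable (by simp)
  -- the derivative
  have hder : ∀ (v : E) (t : ℝ), t ≠ 0 →
      fderiv ℝ f (x₀ + t • v) = t ^ k • (fderiv ℝ g (v, t)).comp (ContinuousLinearMap.inl ℝ E ℝ) := by
    intro v t ht
    have e1 : HasFDerivAt (fun v : E => f (x₀ + t • v))
        ((fderiv ℝ f (x₀ + t • v)).comp (t • ContinuousLinearMap.id ℝ E)) v := by
      have h2 : HasFDerivAt (fun v : E => x₀ + t • v) (t • ContinuousLinearMap.id ℝ E) v :=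
        ((hasFDerivAt_id v).const_smul t).const_add x₀
      exact (hfd (x₀ + t • v)).hasFDerivAt.comp v h2
    have e2 : HasFDerivAt (fun v : E => t ^ (k + 1) • g (v, t))
        (t ^ (k + 1) • (fderiv ℝ g (v, t)).comp (ContinuousLinearMap.inl ℝ E ℝ)) v := by
      have h3 : HasFDerivAt (fun v : E => (v, t)) (ContinuousLinearMap.inl ℝ E ℝ) v :=
        hasFDerivAt_prodMk_left v t
      exact ((hgd (v, t)).hasFDerivAt.comp v h3).const_smul _
    have e3 : (fun v : E => f (x₀ + t • v)) = fun v : E => t ^ (k + 1) • g (v, t) := by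
      funext v'
      exact hfg v' t
    rw [e3] at e1
    have e4 := e1.unique e2
    ext w
    have e5 := congrArg (fun L : E →L[ℝ] W => L w) e4
    simp only [ContinuousLinearMap.comp_apply, ContinuousLinearMap.smul_apply,
      ContinuousLinearMap.id_apply, map_smul] at e5 ⊢
    have e6 : t • (fderiv ℝ f (x₀ + t • v)) w =
        t • (t ^ k • (fderiv ℝ g (v, t)) ((ContinuousLinearMap.inl ℝ E ℝ) w)) := by
      rw [e5, smul_smul, pow_succ' t k]
    exact smul_right_injective W ht e6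
  have hcont : Continuous fun p : E × ℝ =>
      (fderiv ℝ g p).comp (ContinuousLinearMap.inl ℝ E ℝ) :=
    (hg.continuous_fderiv (by simp)).clm_comp continuous_const
  obtain ⟨C, hC⟩ := ((isCompact_closedBall (0 : E) 1).prod (isCompact_Icc (a := (0 : ℝ))
    (b := 1))).exists_bound_of_continuousOn hcont.continuousOn
  have hmain : ∀ x : E, x ≠ x₀ → ‖x - x₀‖ ≤ 1 → ‖fderiv ℝ f x‖ ≤ C * ‖x - x₀‖ ^ k := by
    intro x hx h1
    have hpos : 0 < ‖x - x₀‖ := norm_pos_iff.mpr (sub_ne_zero.mpr hx)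
    have e : x = x₀ + ‖x - x₀‖ • (‖x - x₀‖⁻¹ • (x - x₀)) := by
      rw [smul_smul, mul_inv_cancel₀ hpos.ne', one_smul]; abel
    have hd := hder (‖x - x₀‖⁻¹ • (x - x₀)) ‖x - x₀‖ hpos.ne'
    rw [← e] at hd
    rw [hd, norm_smul, norm_pow, norm_norm, mul_comm]
    refine mul_le_mul_of_nonneg_right (hC (‖x - x₀‖⁻¹ • (x - x₀), ‖x - x₀‖) ?_) (by positivity)
    refine ⟨?_, ?_⟩
    · rw [mem_closedBall_zero_iff, norm_smul, norm_inv, norm_norm, inv_mul_cancel₀ hpos.ne']
    · exact ⟨hpos.le, h1⟩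
  have hball : ∀ᶠ x in 𝓝 x₀, ‖x - x₀‖ ≤ 1 := by
    have : Tendsto (fun x : E => ‖x - x₀‖) (𝓝 x₀) (𝓝 0) := by
      have hc : Continuous fun x : E => ‖x - x₀‖ := by fun_prop
      simpa using hc.tendsto x₀
    exact this.eventually (eventually_le_nhds one_pos)
  rcases Nat.eq_zero_or_pos k with rfl | hk
  · refine IsBigO.of_bound (max C ‖fderiv ℝ f x₀‖) (hball.mono fun x hx => ?_)
    simp only [pow_zero, norm_one, mul_one]
    by_cases hxx : x = x₀
    · rw [hxx]; exact le_max_right _ _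
    · have := hmain x hxx hx
      simp only [pow_zero, mul_one] at this
      exact this.trans (le_max_left _ _)
  · refine IsBigO.of_bound C (hball.mono fun x hx => ?_)
    rw [norm_pow, norm_norm]
    by_cases hxx : x = x₀
    · have h0 : fderiv ℝ f x₀ = 0 := (h.hasFDerivAt (by omega)).fderiv
      rw [hxx, h0, norm_zero, sub_self, norm_zero, zero_pow hk.ne', mul_zero]
    · exact hmain x hxx hx

omit [CompleteSpace W] in
/-- The converse.

PROOF. ‖fderiv f y‖ ≤ C ‖y - x₀‖^k for ‖y - x₀‖ < δ.  Mean value inequality on the convex set closedBall x₀ ‖x - x₀‖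
(`Convex.norm_image_sub_le_of_norm_fderiv_le`): ‖f x - f x₀‖ ≤ C ‖x-x₀‖^k ‖x-x₀‖. -/
theorem isBigO_of_fderiv {f : E → W} (hf : ContDiff ℝ ∞ f) (x₀ : E) (k : ℕ) (h0 : f x₀ = 0)
    (h : fderiv ℝ f =O[𝓝 x₀] fun x => ‖x - x₀‖ ^ k) : f =O[𝓝 x₀] fun x => ‖x - x₀‖ ^ (k + 1) := by
  obtain ⟨C, hC⟩ := h.bound
  obtain ⟨δ, hδ, hball⟩ := Metric.eventually_nhds_iff.mp hC
  refine IsBigO.of_bound C ?_
  refine Metric.eventually_nhds_iff.mpr ⟨δ, hδ, fun x hx => ?_⟩
  have hfd : Differentiable ℝ f := hf.differentiable (by simp)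
  have hC0 : 0 ≤ C ∨ C < 0 := le_or_gt 0 C
  have key : ∀ y ∈ Metric.closedBall x₀ ‖x - x₀‖, ‖fderiv ℝ f y‖ ≤ |C| * ‖x - x₀‖ ^ k := by
    intro y hy
    have hy' : dist y x₀ ≤ ‖x - x₀‖ := hy
    have h1 : dist y x₀ < δ := by
      rw [← dist_eq_norm] at hy'
      exact hy'.trans_lt hx
    have h2 := hball h1
    rw [norm_pow, norm_norm, ← dist_eq_norm y x₀] at h2
    refine h2.trans ?_
    refine mul_le_mul (le_abs_self C) (pow_le_pow_left₀ dist_nonneg hy' k) (by positivity)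
      (abs_nonneg C)
  have hconv : Convex ℝ (Metric.closedBall x₀ ‖x - x₀‖) := convex_closedBall _ _
  have hm := hconv.norm_image_sub_le_of_norm_fderiv_le (𝕜 := ℝ) (f := f)
    (fun y _ => hfd y) key (Metric.mem_closedBall_self (norm_nonneg _))
    (show x ∈ Metric.closedBall x₀ ‖x - x₀‖ by rw [Metric.mem_closedBall, dist_eq_norm])
  rw [h0, sub_zero] at hm
  rw [norm_pow, norm_norm]
  rcases hC0 with hC0 | hC0
  · rw [abs_of_nonneg hC0] at hm
    calc ‖f x‖ ≤ C * ‖x - x₀‖ ^ k * ‖x - x₀‖ := hm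
      _ = C * ‖x - x₀‖ ^ (k + 1) := by ring
  · -- `C < 0`: then the ball bound forces everything to vanish
    by_cases hxx : x = x₀
    · rw [hxx, h0]; simp
    · exfalso
      have h2 := hball hx
      have hpos : 0 < ‖x - x₀‖ := norm_pos_iff.mpr (sub_ne_zero.mpr hxx)
      rw [norm_pow, norm_norm] at h2
      have h3 : 0 < ‖x - x₀‖ ^ k := by positivity
      have h4 := norm_nonneg (fderiv ℝ f x)
      nlinarith

end Pool.Agent.Lib.H37N
end
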