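import Pool.Agent.Lib.H1M.FF.M003

/-! Merged copies (to shorten the build) of Lib.H37D.DN10, Lib.H37D.DN12, Lib.H37D.DN14, Lib.H37D.DN11, Lib.H37D.DN13, Lib.H37D.DN15. -/

-- from Lib.H37D.DN10
section

/-! # H37D, chunk DN10 (M): a linear equation for multilinear maps, with a parameter (section NF of PROOFN.md) -/

open Set Filter Topology Asymptotics
open scoped ContDiff

namespace Pool.Agent.Lib.H37D

open Pool.Agent.Lib.H37N

variable {Z W E : Type} [NormedAddCommGroup Z] [NormedSpace ℝ Z] [FiniteDimensional ℝ Z]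
  [NormedAddCommGroup W] [NormedSpace ℝ W] [FiniteDimensional ℝ W]
  [NormedAddCommGroup E] [NormedSpace ℝ E] [FiniteDimensional ℝ E]

omit [FiniteDimensional ℝ W] [FiniteDimensional ℝ E] in
theorem dn10_aux {X : Type} [NormedAddCommGroup X] [NormedSpace ℝ X] [CompleteSpace X]
    {T : Z → X →L[ℝ] X} (hT : ContDiff ℝ ∞ T) {U Ui K : X →L[ℝ] X}
    (h1 : U.comp Ui = ContinuousLinearMap.id ℝ X) (h2 : Ui.comp U = ContinuousLinearMap.id ℝ X)
    (hK : ‖K‖ < 1) (hT0 : T 0 = U.comp (ContinuousLinearMap.id ℝ X - K))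
    {C : Z → X} (hC : ContDiff ℝ ∞ C) :
    ∃ P : Z → X, ContDiff ℝ ∞ P ∧ ∀ᶠ v in 𝓝 (0 : Z), T v (P v) = - C v := by
  have hu1 : IsUnit U := ⟨⟨U, Ui, h1, h2⟩, rfl⟩
  have hu0 : IsUnit (T 0) := by
    rw [hT0]
    exact hu1.mul (isUnit_one_sub_of_norm_lt_one hK)
  have hev : ∀ᶠ v in 𝓝 (0 : Z), IsUnit (T v) :=
    hT.continuous.continuousAt.eventually (Units.isOpen.mem_nhds hu0)
  obtain ⟨P, hP, hPe⟩ := localise_at (x₀ := (0 : Z)) (f := fun v => -(Ring.inverse (T v)) (C v)) (by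
    filter_upwards [hev] with v hv
    obtain ⟨u, hu⟩ := hv
    have h3 : ContDiffAt ℝ ∞ (fun v => Ring.inverse (T v)) v := by
      refine ContDiffAt.comp (g := Ring.inverse) v ?_ hT.contDiffAt
      rw [← hu]
      exact contDiffAt_ringInverse ℝ u
    exact (h3.clm_apply hC.contDiffAt).neg)
  refine ⟨P, hP, ?_⟩
  filter_upwards [hev, hPe] with v hv hPv
  rw [hPv, map_neg]
  have h4 : T v (Ring.inverse (T v) (C v)) = (T v * Ring.inverse (T v)) (C v) := rfl
  rw [h4, Ring.mul_inverse_cancel _ hv]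
  rfl

set_option backward.isDefEq.respectTransparency false in
/-- The equation `M(v) ∘ P(v) - P(v) ∘ A(v)^{⊗j} = - C(v)` has a solution which is smooth in `v`.

PROOF. X := `W [×j]→L[ℝ] E` (a complete normed space).  T(v) : X →L[ℝ] X, T(v) P = M(v) ∘ P - P ∘ (A(v),..,A(v)):
first term `ContinuousLinearMap.compContinuousMultilinearMapL ℝ (fun _ : Fin j => W) E E (M v)` (a continuous linear function of `M v`),
second term `ContinuousMultilinearMap.compContinuousLinearMapContinuousMultilinear ℝ (fun _ : Fin j => W) (fun _ => W) E (fun _ => A v)` (a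
continuous multilinear function of its arguments, `ContinuousMultilinearMap.contDiff`, composed with v ↦ (fun _ => A v), `contDiff_pi`); so T is
C^inf in v.  T(0) is invertible: S₀ P := Mi ∘ P - ... more precisely T(0) P = M(0) ∘ (P - K P) with K P = Mi ∘ P ∘ A(0)^{⊗j}, ‖K‖ ≤ ‖Mi‖ ‖A 0‖^j < 1
(`ContinuousMultilinearMap.norm_compContinuousLinearMap_le`, `ContinuousLinearMap.norm_compContinuousMultilinearMap_le`,
`ContinuousLinearMap.opNorm_le_bound`), so 1 - K is a unit (`isUnit_one_sub_of_norm_lt_one` or `NormedRing.inverse_one_sub`,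
in the ring X →L[ℝ] X), and P ↦ M(0) ∘ P is a unit with inverse P ↦ Mi ∘ P.  So T(0) is a unit u, `contDiffAt_ringInverse ℝ u` : `Ring.inverse` is C^inf at T(0), and T(v) is a unit for v near 0
(`Units.nhds`).  P(v) := - (Ring.inverse (T v)) (C v) near 0: C^inf at all v near 0 (T(v) is a unit there), T(v) (P(v)) = - C(v) (`Ring.mul_inverse_cancel`).
Make it globally smooth with `localise_at`. -/
theorem solve_multi {M : Z → E →L[ℝ] E} (hM : ContDiff ℝ ∞ M) {A : Z → W →L[ℝ] W} (hA : ContDiff ℝ ∞ A)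
    {Mi : E →L[ℝ] E} (hMi : Mi.comp (M 0) = ContinuousLinearMap.id ℝ E)
    (hMi' : (M 0).comp Mi = ContinuousLinearMap.id ℝ E) (j : ℕ) (hj : ‖Mi‖ * ‖A 0‖ ^ j < 1)
    {C : Z → W [×j]→L[ℝ] E} (hC : ContDiff ℝ ∞ C) :
    ∃ P : Z → W [×j]→L[ℝ] E, ContDiff ℝ ∞ P ∧ ∀ᶠ v in 𝓝 (0 : Z), ∀ w : W,
      M v (P v (fun _ => w)) - P v (fun _ => A v w) = - C v (fun _ => w) := by
  have hcE : CompleteSpace E := FiniteDimensional.complete ℝ E
  let L1 : (E →L[ℝ] E) →L[ℝ] (W [×j]→L[ℝ] E) →L[ℝ] (W [×j]→L[ℝ] E) :=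
    ContinuousLinearMap.compContinuousMultilinearMapL ℝ (fun _ : Fin j => W) E E
  let B := ContinuousMultilinearMap.compContinuousLinearMapContinuousMultilinear ℝ
    (fun _ : Fin j => W) (fun _ : Fin j => W) E
  have hL1 : ∀ (N : E →L[ℝ] E) (P : W [×j]→L[ℝ] E) (w : Fin j → W), L1 N P w = N (P w) :=
    fun N P w => rfl
  have hB : ∀ (N : W →L[ℝ] W) (P : W [×j]→L[ℝ] E) (w : Fin j → W),
      B (fun _ => N) P w = P (fun i => N (w i)) := fun N P w => rfl
  let T : Z → ((W [×j]→L[ℝ] E) →L[ℝ] (W [×j]→L[ℝ] E)) := fun v => L1 (M v) - B (fun _ => A v)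
  have hc : ContDiff ℝ ∞ (fun N : E →L[ℝ] E => L1 N) :=
    ContinuousLinearMap.contDiff (𝕜 := ℝ) (E := E →L[ℝ] E)
      (F := (W [×j]→L[ℝ] E) →L[ℝ] (W [×j]→L[ℝ] E)) L1
  have hT1 : ContDiff ℝ ∞ (fun v => L1 (M v)) := hc.comp hM
  have hT2 : ContDiff ℝ ∞ (fun v => B (fun _ => A v)) :=
    B.contDiff.comp (contDiff_pi.2 fun _ => hA)
  have hT : ContDiff ℝ ∞ T := hT1.sub hT2
  have h1 : (L1 (M 0)).comp (L1 Mi) = ContinuousLinearMap.id ℝ (W [×j]→L[ℝ] E) := by
    ext P w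
    show (M 0) (Mi (P w)) = P w
    exact congrArg (fun f : E →L[ℝ] E => f (P w)) hMi'
  have h2 : (L1 Mi).comp (L1 (M 0)) = ContinuousLinearMap.id ℝ (W [×j]→L[ℝ] E) := by
    ext P w
    show Mi ((M 0) (P w)) = P w
    exact congrArg (fun f : E →L[ℝ] E => f (P w)) hMi
  have hK : ‖(L1 Mi).comp (B (fun _ => A 0))‖ < 1 := by
    refine lt_of_le_of_lt (ContinuousLinearMap.opNorm_le_bound _ (by positivity) fun P => ?_) hj
    have h3 : ((L1 Mi).comp (B (fun _ => A 0))) P =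
        Mi.compContinuousMultilinearMap (P.compContinuousLinearMap (fun _ => A 0)) := rfl
    rw [h3]
    have h4 := ContinuousLinearMap.norm_compContinuousMultilinearMap_le Mi
      (P.compContinuousLinearMap (fun _ => A 0))
    have h5 := ContinuousMultilinearMap.norm_compContinuousLinearMap_le P
      (fun _ : Fin j => A 0)
    rw [Finset.prod_const, Finset.card_univ, Fintype.card_fin] at h5
    have h6 := mul_le_mul_of_nonneg_left h5 (norm_nonneg Mi)
    calc ‖Mi.compContinuousMultilinearMap (P.compContinuousLinearMap (fun _ => A 0))‖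
        ≤ ‖Mi‖ * ‖P.compContinuousLinearMap (fun _ => A 0)‖ := h4
      _ ≤ ‖Mi‖ * (‖P‖ * ‖A 0‖ ^ j) := h6
      _ = ‖Mi‖ * ‖A 0‖ ^ j * ‖P‖ := by ring
  have hT0 : T 0 = (L1 (M 0)).comp
      (ContinuousLinearMap.id ℝ (W [×j]→L[ℝ] E) - (L1 Mi).comp (B (fun _ => A 0))) := by
    rw [ContinuousLinearMap.comp_sub, ContinuousLinearMap.comp_id,
      ← ContinuousLinearMap.comp_assoc, h1, ContinuousLinearMap.id_comp]
  obtain ⟨P, hP, hPe⟩ := dn10_aux hT h1 h2 hK hT0 hC
  refine ⟨P, hP, ?_⟩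
  filter_upwards [hPe] with v hv w
  exact congrArg (fun Q : W [×j]→L[ℝ] E => Q (fun _ => w)) hv

end Pool.Agent.Lib.H37D
end

-- from Lib.H37D.DN12
section

/-! # H37D, chunk DN12 (S/M): two estimates of second order (section NF of PROOFN.md) -/

open Set Filter Topology Asymptotics
open scoped ContDiff

namespace Pool.Agent.Lib.H37D

open Pool.Agent.Lib.H37N

variable {Z W E E' : Type} [NormedAddCommGroup Z] [NormedSpace ℝ Z] [FiniteDimensional ℝ Z]
  [NormedAddCommGroup W] [NormedSpace ℝ W] [FiniteDimensional ℝ W]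
  [NormedAddCommGroup E] [NormedSpace ℝ E] [FiniteDimensional ℝ E]
  [NormedAddCommGroup E'] [NormedSpace ℝ E'] [FiniteDimensional ℝ E']

/-- `G(a + b) = G(a) + DG(c) b + O(|b| (|a - c| + |b|))`.

PROOF. fderiv ℝ G is C^1, so Lipschitz (constant K) on a ball B(e,r) (`ContDiffAt.exists_lipschitzOnWith`).  Eventually a, a + b, c are in B(e,r) (convex), so for x on the segment
[a, a+b]: |DG(x) - DG(c)| ≤ K |x - c| ≤ K (|a - c| + |b|), and `Convex.norm_image_sub_le_of_norm_hasFDerivWithin_le'` (or `norm_image_sub_le_of_norm_fderiv_le'`) on the segment gives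
|G(a+b) - G(a) - DG(c) b| ≤ K (|a-c| + |b|) |b|. -/
theorem second_order {G : E → E'} (hG : ContDiff ℝ ∞ G) {X : Type} {l : Filter X} {a b c : X → E} {e : E}
    (ha : Tendsto a l (𝓝 e)) (hb : Tendsto b l (𝓝 0)) (hc : Tendsto c l (𝓝 e)) :
    (fun p => G (a p + b p) - G (a p) - fderiv ℝ G (c p) (b p)) =O[l] fun p => ‖b p‖ * (‖a p - c p‖ + ‖b p‖) := by
  have hD : ContDiff ℝ ∞ (fderiv ℝ G) := hG.fderiv_right (by simp)
  obtain ⟨K, s, hs, hK⟩ := ((hD.of_le (m := 1) (by simp)).contDiffAt (x := e)).exists_lipschitzOnWith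
  obtain ⟨r, hr, hrs⟩ := Metric.mem_nhds_iff.1 hs
  refine IsBigO.of_bound (K : ℝ) ?_
  filter_upwards [ha.eventually (Metric.ball_mem_nhds e (half_pos hr)),
    hb.eventually (Metric.ball_mem_nhds 0 (half_pos hr)),
    hc.eventually (Metric.ball_mem_nhds e hr)] with p h1 h2 h3
  rw [dist_eq_norm] at h1 h2
  rw [sub_zero] at h2
  have hseg : ∀ x ∈ segment ℝ (a p) (a p + b p), ‖x - a p‖ ≤ ‖b p‖ := by
    intro x hx
    rw [segment_eq_image'] at hx
    obtain ⟨t, ht, rfl⟩ := hx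
    simp only [add_sub_cancel_left]
    rw [norm_smul, Real.norm_eq_abs, abs_of_nonneg ht.1]
    exact mul_le_of_le_one_left (norm_nonneg _) ht.2
  have hball : ∀ x ∈ segment ℝ (a p) (a p + b p), x ∈ Metric.ball e r := by
    intro x hx
    rw [Metric.mem_ball, dist_eq_norm]
    have h4 : x - e = (x - a p) + (a p - e) := by abel
    rw [h4]
    calc ‖(x - a p) + (a p - e)‖ ≤ ‖x - a p‖ + ‖a p - e‖ := norm_add_le _ _
      _ < r / 2 + r / 2 := add_lt_add (lt_of_le_of_lt (hseg x hx) h2) h1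
      _ = r := by ring
  have hb2 : ∀ x ∈ segment ℝ (a p) (a p + b p),
      ‖fderiv ℝ G x - fderiv ℝ G (c p)‖ ≤ K * (‖a p - c p‖ + ‖b p‖) := by
    intro x hx
    have h5 := hK.dist_le_mul x (hrs (hball x hx)) (c p) (hrs h3)
    rw [dist_eq_norm, dist_eq_norm] at h5
    refine h5.trans (mul_le_mul_of_nonneg_left ?_ K.2)
    have h6 : x - c p = (a p - c p) + (x - a p) := by abel
    rw [h6]
    exact (norm_add_le _ _).trans (by linarith [hseg x hx])
  have h7 := Convex.norm_image_sub_le_of_norm_fderiv_le' (𝕜 := ℝ) (f := G)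
    (s := segment ℝ (a p) (a p + b p)) (x := a p) (y := a p + b p) (φ := fderiv ℝ G (c p))
    (fun x _ => hG.differentiable (by simp) x) hb2 (convex_segment _ _) (left_mem_segment ℝ _ _)
    (right_mem_segment ℝ _ _)
  rw [add_sub_cancel_left] at h7
  refine h7.trans (le_of_eq ?_)
  rw [Real.norm_of_nonneg (by positivity)]
  ring

/-- If `F(v,0) = 0` and `D_w F(v,0) = 0` for v near 0 then `F = O(|w|^2)`.

PROOF. `hadamard` (T2) twice: F(v,w) = F(v,0) + G(v,w) w, G(v,0) = D_w F(v,0) = 0 near 0, G(v,w) = G(v,0) + Gh(v,w) w.  So near 0: |F(v,w)| ≤ |Gh(v,w)| |w|^2, Gh continuous. -/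
theorem isBigO_sq {F : Z × W → E} (hF : ContDiff ℝ ∞ F) (h0 : ∀ᶠ v in 𝓝 (0 : Z), F (v, 0) = 0)
    (h1 : ∀ᶠ v in 𝓝 (0 : Z), ∀ w, fderiv ℝ F (v, 0) (0, w) = 0) :
    F =O[𝓝 0] fun p => ‖p.2‖ ^ 2 := by
  have : CompleteSpace E := FiniteDimensional.complete ℝ E
  obtain ⟨G, hG, hG1, hG2⟩ := hadamard hF
  obtain ⟨H, hH, hH1, -⟩ := hadamard hG
  have hbd : ∀ᶠ p in 𝓝 (0 : Z × W), ‖H p‖ < ‖H 0‖ + 1 :=
    (hH.continuous.norm.tendsto 0).eventually (gt_mem_nhds (lt_add_one _))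
  refine IsBigO.of_bound (‖H 0‖ + 1) ?_
  have hfst : Tendsto (fun p : Z × W => p.1) (𝓝 0) (𝓝 0) := continuous_fst.tendsto (0 : Z × W)
  filter_upwards [hfst.eventually h0, hfst.eventually h1, hbd] with p hp0 hp1 hpb
  obtain ⟨v, w⟩ := p
  have h2 : G (v, 0) w = 0 := by
    rw [hG2 v]
    have h7 : HasFDerivAt (fun w => F (v, w)) ((fderiv ℝ F (v, 0)).comp (ContinuousLinearMap.inr ℝ Z W)) 0 :=
      ((hF.differentiable (by simp) (v, 0)).hasFDerivAt).comp 0 (hasFDerivAt_prodMk_right v (0 : W))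
    rw [h7.fderiv]
    simpa using hp1 w
  have h3 : F (v, w) = (H (v, w) w) w := by
    rw [hG1 v w, hH1 v w]
    simp only at hp0
    rw [hp0, add_apply, h2, zero_add, zero_add]
  rw [h3]
  calc ‖(H (v, w) w) w‖ ≤ ‖H (v, w) w‖ * ‖w‖ := ContinuousLinearMap.le_opNorm _ _
    _ ≤ (‖H (v, w)‖ * ‖w‖) * ‖w‖ :=
        mul_le_mul_of_nonneg_right (ContinuousLinearMap.le_opNorm _ _) (norm_nonneg _)
    _ ≤ ((‖H 0‖ + 1) * ‖w‖) * ‖w‖ := by
        gcongr
    _ = (‖H 0‖ + 1) * ‖‖w‖ ^ 2‖ := by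
        rw [Real.norm_of_nonneg (by positivity)]
        ring

end Pool.Agent.Lib.H37D
end

-- from Lib.H37D.DN14
section

/-! # H37D, chunk DN14 (M): the first step of the normal form (section NF of PROOFN.md) -/

open Set Filter Topology Asymptotics
open scoped ContDiff

namespace Pool.Agent.Lib.H37D

open Pool.Agent.Lib.H37N

variable {Z W : Type} [NormedAddCommGroup Z] [NormedSpace ℝ Z] [FiniteDimensional ℝ Z]
  [NormedAddCommGroup W] [NormedSpace ℝ W] [FiniteDimensional ℝ W]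

/-- The first step: `Θ(v,w) = (v + H(v) w, w)`.

PROOF. A(v) w := (DG(v,0)(0,w)).2, b(v) w := (DG(v,0)(0,w)).1: smooth in v (compose fderiv ℝ G (v,0) with inr and snd / fst), A(0) = A0, b(0) = 0.  For v near 0 the identity
G(v',0) = (v',0) near v gives DG(v,0)(u,0) = (u,0).  H(v) := - b(v) ∘ (1 - A(v))^(-1) (`Ring.inverse (1 - A v)` in the ring W →L[ℝ] W; 1 - A(v) is a unit for v near 0, because ‖A 0‖ < 1:
`isUnit_one_sub_of_norm_lt_one`; smooth near 0 by `contDiffAt_ringInverse`; globally smooth by `localise_at`): H(v) A(v) - H(v) = b(v) near 0, H(0) = 0.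
Θ(v,w) := (v + H(v) w, w): smooth, Θ 0 = 0, Θ(v,0) = (v,0), DΘ(0)(u,w) = (u + H(0) w, w) = (u,w).
F(v,w) := G(Θ(v,w)) - Θ(v,A(v)w): F(v,0) = G(v,0) - (v,0) = 0 near 0; D_wF(v,0) w = DG(v,0)(H(v)w, w) - (H(v)A(v)w, A(v)w) = (H(v)w + b(v)w, A(v)w) - (H(v)A(v)w, A(v)w) = 0.
So F = O(|w|^2) by `isBigO_sq`. -/
theorem nf_first {G : Z × W → Z × W} (hG : ContDiff ℝ ∞ G) (hfix : ∀ᶠ v in 𝓝 (0 : Z), G (v, 0) = (v, 0))
    {A0 : W →L[ℝ] W} (hD : ∀ v w, fderiv ℝ G 0 (v, w) = (v, A0 w)) (hA : ‖A0‖ < 1) :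
    ∃ (Θ : Z × W → Z × W) (A : Z → W →L[ℝ] W), ContDiff ℝ ∞ Θ ∧ ContDiff ℝ ∞ A ∧ A 0 = A0 ∧
      (∀ v, Θ (v, 0) = (v, 0)) ∧ fderiv ℝ Θ 0 = ContinuousLinearMap.id ℝ (Z × W) ∧
      (fun p : Z × W => G (Θ p) - Θ (p.1, A p.1 p.2)) =O[𝓝 0] fun p => ‖p.2‖ ^ 2 := by
  have : CompleteSpace W := FiniteDimensional.complete ℝ W
  have : CompleteSpace Z := FiniteDimensional.complete ℝ Z
  have hGd : Differentiable ℝ G := hG.differentiable (by simp)
  have hDG : ContDiff ℝ ∞ (fderiv ℝ G) := hG.fderiv_right (by simp)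
  let A : Z → W →L[ℝ] W := fun v =>
    ((ContinuousLinearMap.snd ℝ Z W).comp (fderiv ℝ G (v, 0))).comp (ContinuousLinearMap.inr ℝ Z W)
  let b : Z → W →L[ℝ] Z := fun v =>
    ((ContinuousLinearMap.fst ℝ Z W).comp (fderiv ℝ G (v, 0))).comp (ContinuousLinearMap.inr ℝ Z W)
  have hAv : ∀ v w, A v w = (fderiv ℝ G (v, 0) (0, w)).2 := fun v w => rfl
  have hbv : ∀ v w, b v w = (fderiv ℝ G (v, 0) (0, w)).1 := fun v w => rfl
  have hvz : ContDiff ℝ ∞ (fun v : Z => ((v, 0) : Z × W)) := contDiff_id.prodMk contDiff_const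
  have hAs : ContDiff ℝ ∞ A := (contDiff_const.clm_comp (hDG.comp hvz)).clm_comp contDiff_const
  have hbs : ContDiff ℝ ∞ b := (contDiff_const.clm_comp (hDG.comp hvz)).clm_comp contDiff_const
  have hA0 : A 0 = A0 := by
    ext w
    have h1 := hD 0 w
    rw [hAv]
    show (fderiv ℝ G 0 (0, w)).2 = A0 w
    rw [h1]
  have hb0 : b 0 = 0 := by
    ext w
    have h1 := hD 0 w
    rw [hbv]
    show (fderiv ℝ G 0 (0, w)).1 = 0
    rw [h1]
  have hu : IsUnit (1 - A 0) := isUnit_one_sub_of_norm_lt_one (by rw [hA0]; exact hA)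
  have hunit : ∀ᶠ v in 𝓝 (0 : Z), IsUnit (1 - A v) :=
    ((continuous_const.sub hAs.continuous).tendsto 0).eventually (Units.isOpen.mem_nhds hu)
  have hsm : ∀ᶠ v in 𝓝 (0 : Z), ContDiffAt ℝ ∞ (fun v => -((b v).comp (Ring.inverse (1 - A v)))) v := by
    filter_upwards [hunit] with v hv
    obtain ⟨u, hu⟩ := hv
    have h1 : ContDiffAt ℝ ∞ (fun v => Ring.inverse (1 - A v)) v := by
      have h2 := contDiffAt_ringInverse (n := ∞) ℝ u
      rw [hu] at h2
      exact h2.comp v (contDiffAt_const.sub hAs.contDiffAt)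
    exact (hbs.contDiffAt.clm_comp h1).neg
  obtain ⟨H, hH, hHe⟩ := localise_at hsm
  have hHA : ∀ᶠ v in 𝓝 (0 : Z), ∀ w, H v w + b v w - H v (A v w) = 0 := by
    filter_upwards [hHe, hunit] with v h1 h2 w
    have h4 : Ring.inverse (1 - A v) * (1 - A v) = 1 := Ring.inverse_mul_cancel _ h2
    have h5 := congrArg (fun T : W →L[ℝ] W => T w) h4
    have h6 : Ring.inverse (1 - A v) (w - A v w) = w := h5
    have h7 : H v (w - A v w) = -(b v w) := by
      rw [h1]
      show -(b v (Ring.inverse (1 - A v) (w - A v w))) = _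
      rw [h6]
    rw [map_sub] at h7
    have h8 : H v w + b v w - H v (A v w) = (H v w - H v (A v w)) + b v w := by abel
    rw [h8, h7, neg_add_cancel]
  have hH0 : H 0 = 0 := by
    rw [hHe.self_of_nhds]
    show -((b 0).comp (Ring.inverse (1 - A 0))) = 0
    rw [hb0]
    simp
  let Θ : Z × W → Z × W := fun p => (p.1 + H p.1 p.2, p.2)
  have hΘ : ContDiff ℝ ∞ Θ :=
    (contDiff_fst.add ((hH.comp contDiff_fst).clm_apply contDiff_snd)).prodMk contDiff_snd
  refine ⟨Θ, A, hΘ, hAs, hA0, ?_, ?_, ?_⟩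
  · intro v
    show (v + H v 0, (0 : W)) = (v, 0)
    rw [map_zero, add_zero]
  · have h1 : HasFDerivAt (fun p : Z × W => H p.1) ((fderiv ℝ H 0).comp (ContinuousLinearMap.fst ℝ Z W)) 0 := by
      have h2 : HasFDerivAt H (fderiv ℝ H 0) ((0 : Z × W).1) := (hH.differentiable (by simp) 0).hasFDerivAt
      exact h2.comp (0 : Z × W) hasFDerivAt_fst
    have h3 : HasFDerivAt (fun p : Z × W => H p.1 p.2) (0 : Z × W →L[ℝ] Z) 0 := by
      refine (h1.clm_apply hasFDerivAt_snd).congr_fderiv ?_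
      ext w
      · simp [hH0]
      · simp [hH0]
    have h4 : HasFDerivAt Θ (((ContinuousLinearMap.fst ℝ Z W) + 0).prod (ContinuousLinearMap.snd ℝ Z W)) 0 :=
      (hasFDerivAt_fst.add h3).prodMk hasFDerivAt_snd
    rw [h4.fderiv, add_zero]
    ext w <;> simp
  · have hAp : ContDiff ℝ ∞ (fun p : Z × W => A p.1 p.2) := (hAs.comp contDiff_fst).clm_apply contDiff_snd
    have hF : ContDiff ℝ ∞ (fun p : Z × W => G (Θ p) - Θ (p.1, A p.1 p.2)) :=
      (hG.comp hΘ).sub (hΘ.comp (contDiff_fst.prodMk hAp))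
    refine isBigO_sq hF ?_ ?_
    · filter_upwards [hfix] with v hv
      show G (v + H v 0, (0 : W)) - (v + H v (A v 0), A v 0) = 0
      rw [map_zero, map_zero, map_zero, add_zero, hv, sub_self]
    · filter_upwards [eventually_eventually_nhds.2 hfix, hHA] with v hv hv2 w
      have hu1 : ∀ u : Z, fderiv ℝ G (v, 0) (u, 0) = (u, 0) := by
        intro u
        have h1 : HasFDerivAt (fun v : Z => ((v, 0) : Z × W)) (ContinuousLinearMap.inl ℝ Z W) v :=
          hasFDerivAt_prodMk_left v 0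
        have h2 : HasFDerivAt (fun v : Z => G (v, 0)) ((fderiv ℝ G (v, 0)).comp (ContinuousLinearMap.inl ℝ Z W)) v :=
          (hGd (v, 0)).hasFDerivAt.comp v h1
        have h3 : HasFDerivAt (fun v : Z => G (v, 0)) (ContinuousLinearMap.inl ℝ Z W) v :=
          h1.congr_of_eventuallyEq hv
        have h4 := h2.unique h3
        have h5 := congrArg (fun T : Z →L[ℝ] Z × W => T u) h4
        exact h5
      have hc1 : HasDerivAt (fun t : ℝ => ((v + t • H v w, t • w) : Z × W)) (H v w, w) 0 := by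
        have h1 : HasDerivAt (fun t : ℝ => v + t • H v w) (H v w) 0 := by
          have := ((hasDerivAt_id (0 : ℝ)).smul_const (H v w)).const_add v
          simpa using this
        have h2 : HasDerivAt (fun t : ℝ => t • w) w 0 := by
          have := (hasDerivAt_id (0 : ℝ)).smul_const w
          simpa using this
        exact h1.prodMk h2
      have hc2 : HasDerivAt (fun t : ℝ => ((v + t • H v (A v w), t • A v w) : Z × W)) (H v (A v w), A v w) 0 := by
        have h1 : HasDerivAt (fun t : ℝ => v + t • H v (A v w)) (H v (A v w)) 0 := by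
          have := ((hasDerivAt_id (0 : ℝ)).smul_const (H v (A v w))).const_add v
          simpa using this
        have h2 : HasDerivAt (fun t : ℝ => t • A v w) (A v w) 0 := by
          have := (hasDerivAt_id (0 : ℝ)).smul_const (A v w)
          simpa using this
        exact h1.prodMk h2
      have hc3 : HasDerivAt (fun t : ℝ => G (v + t • H v w, t • w)) (fderiv ℝ G (v, 0) (H v w, w)) 0 := by
        have h1 : HasFDerivAt G (fderiv ℝ G (v, 0)) (v + (0 : ℝ) • H v w, (0 : ℝ) • w) := by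
          rw [zero_smul, zero_smul, add_zero]
          exact (hGd (v, 0)).hasFDerivAt
        exact h1.comp_hasDerivAt (0 : ℝ) hc1
      have hc4 := hc3.sub hc2
      have hval : fderiv ℝ G (v, 0) (H v w, w) - (H v (A v w), A v w) = 0 := by
        have h1 : ((H v w, w) : Z × W) = (H v w, 0) + (0, w) := by simp
        rw [h1, map_add, hu1]
        have h2 : fderiv ℝ G (v, 0) (0, w) = (b v w, A v w) := rfl
        rw [h2, Prod.mk_add_mk, Prod.mk_sub_mk, hv2 w, zero_add, sub_self]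
        rfl
      rw [hval] at hc4
      have hc5 : HasDerivAt (fun t : ℝ => ((v, t • w) : Z × W)) (0, w) 0 := by
        have h2 : HasDerivAt (fun t : ℝ => t • w) w 0 := by
          have := (hasDerivAt_id (0 : ℝ)).smul_const w
          simpa using this
        exact (hasDerivAt_const (0 : ℝ) v).prodMk h2
      have hc6 : HasDerivAt (fun t : ℝ => (fun p : Z × W => G (Θ p) - Θ (p.1, A p.1 p.2)) (v, t • w))
          (fderiv ℝ (fun p : Z × W => G (Θ p) - Θ (p.1, A p.1 p.2)) (v, 0) (0, w)) 0 := by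
        have h1 : HasFDerivAt (fun p : Z × W => G (Θ p) - Θ (p.1, A p.1 p.2))
            (fderiv ℝ (fun p : Z × W => G (Θ p) - Θ (p.1, A p.1 p.2)) (v, 0)) (v, (0 : ℝ) • w) := by
          rw [zero_smul]
          exact (hF.differentiable (by simp) (v, 0)).hasFDerivAt
        exact h1.comp_hasDerivAt (0 : ℝ) hc5
      have hfun : (fun t : ℝ => (fun p : Z × W => G (Θ p) - Θ (p.1, A p.1 p.2)) (v, t • w)) =
          fun t : ℝ => G (v + t • H v w, t • w) - (v + t • H v (A v w), t • A v w) := by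
        funext t
        show G (v + H v (t • w), t • w) - (v + H v (A v (t • w)), A v (t • w)) = _
        rw [map_smul, map_smul, map_smul]
      rw [hfun] at hc6
      exact hc6.unique hc4

end Pool.Agent.Lib.H37D
end

-- from Lib.H37D.DN11
section

/-! # H37D, chunk DN11 (S/M): the homogeneous part of order j in w, with the parameter v (section NF of PROOFN.md) -/

open Set Filter Topology Asymptotics
open scoped ContDiff

namespace Pool.Agent.Lib.H37D

open Pool.Agent.Lib.H37N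

variable {Z W E : Type} [NormedAddCommGroup Z] [NormedSpace ℝ Z] [FiniteDimensional ℝ Z]
  [NormedAddCommGroup W] [NormedSpace ℝ W] [FiniteDimensional ℝ W]
  [NormedAddCommGroup E] [NormedSpace ℝ E] [FiniteDimensional ℝ E]

/-- If `F = O(|w|^j)` near 0 then `F(v,w) = G(v,w)(w,..,w)` near 0 with a smooth `G`.

PROOF. Induction on j (for all F).  j = 0: G p := `ContinuousMultilinearMap.constOfIsEmpty` of F p (a linear isometry in F p: `continuousMultilinearCurryFin0` or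
`ContinuousMultilinearMap.constOfIsEmptyL`; smooth).  j → j+1: F = O(|w|^(j+1)) implies F = O(|w|^j), so F(v,w) = G(v,w)(w,..,w) near 0.  Claim: for v near 0, G(v,0)(w,..,w) = 0 for all w.
Indeed for |v| < r and fixed w: G(v,0)(w,..,w) = lim_{t → 0+} G(v,tw)(w,..,w) = lim t^(-j) F(v,tw) = 0 because |F(v,tw)| ≤ C t^(j+1)|w|^(j+1) (G continuous, `map_smul_univ`
for the homogeneity: G(v,tw)(tw,..,tw) = t^j G(v,tw)(w,..,w)).  `hadamard` (T2): G(v,w) = G(v,0) + Gh(v,w) w with Gh : Z × W → (W →L[ℝ] (W [×j]→L[ℝ] E)) smooth.  So near 0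
F(v,w) = (Gh(v,w) w)(w,..,w) = (`ContinuousLinearMap.uncurryLeft` (Gh(v,w))) (w,..,w) (`ContinuousLinearMap.uncurryLeft_apply`; `Fin.tail` of a constant function is
constant); uncurryLeft is the continuous linear equivalence `continuousMultilinearCurryLeftEquiv ℝ (fun _ : Fin (j+1) => W) E` (symm), so the new G is smooth. -/
theorem multi_of_isBigO (j : ℕ) : ∀ {F : Z × W → E}, ContDiff ℝ ∞ F → (F =O[𝓝 0] fun p => ‖p.2‖ ^ j) →
    ∃ G : Z × W → W [×j]→L[ℝ] E, ContDiff ℝ ∞ G ∧ ∀ᶠ p in 𝓝 (0 : Z × W), F p = G p (fun _ => p.2) := by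
  have : CompleteSpace E := FiniteDimensional.complete ℝ E
  induction j with
  | zero =>
    intro F hF _
    refine ⟨fun p => (continuousMultilinearCurryFin0 ℝ W E).symm (F p),
      (continuousMultilinearCurryFin0 ℝ W E).symm.contDiff.comp hF, Eventually.of_forall fun p => ?_⟩
    rfl
  | succ j ih =>
    intro F hF hO
    have hO' : F =O[𝓝 0] fun p : Z × W => ‖p.2‖ ^ j := by
      refine hO.trans ?_
      refine IsBigO.of_bound 1 ?_
      filter_upwards [Metric.ball_mem_nhds (0 : Z × W) one_pos] with p hp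
      have h1 : ‖p.2‖ ≤ 1 := by
        rw [mem_ball_zero_iff] at hp
        exact (norm_snd_le p).trans hp.le
      rw [one_mul, Real.norm_eq_abs, Real.norm_eq_abs, abs_of_nonneg (by positivity),
        abs_of_nonneg (by positivity)]
      exact pow_le_pow_of_le_one (norm_nonneg _) h1 (Nat.le_succ j)
    obtain ⟨G, hG, hFG⟩ := ih hF hO'
    obtain ⟨C, hC⟩ := hO.bound
    obtain ⟨r, hr, hball⟩ := Metric.eventually_nhds_iff_ball.1 (hFG.and hC)
    have hz : ∀ v : Z, ‖v‖ < r → ∀ w : W, G (v, 0) (fun _ => w) = 0 := by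
      intro v hv w
      have hcont : Tendsto (fun t : ℝ => ‖G (v, t • w) (fun _ => w)‖) (𝓝[>] 0) (𝓝 ‖G (v, 0) (fun _ => w)‖) := by
        have h1 : Continuous (fun t : ℝ => ‖G (v, t • w) (fun _ => w)‖) := by
          have h2 : Continuous (fun t : ℝ => G (v, t • w)) :=
            hG.continuous.comp (by fun_prop)
          exact (h2.eval_const _).norm
        have h3 := h1.tendsto 0
        simp only [zero_smul] at h3
        exact h3.mono_left nhdsWithin_le_nhds
      have hlim : Tendsto (fun t : ℝ => C * ‖w‖ ^ (j + 1) * t) (𝓝[>] 0) (𝓝 0) := by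
        have h1 : Continuous (fun t : ℝ => C * ‖w‖ ^ (j + 1) * t) := by fun_prop
        have h3 := h1.tendsto 0
        simp only [mul_zero] at h3
        exact h3.mono_left nhdsWithin_le_nhds
      have hev : ∀ᶠ t : ℝ in 𝓝[>] 0, ‖G (v, t • w) (fun _ => w)‖ ≤ C * ‖w‖ ^ (j + 1) * t := by
        have h1 : ∀ᶠ t : ℝ in 𝓝 0, ‖((v, t • w) : Z × W)‖ < r := by
          have h2 : Continuous (fun t : ℝ => ‖((v, t • w) : Z × W)‖) := by fun_prop
          have h3 := h2.tendsto 0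
          simp only [zero_smul] at h3
          have h4 : ‖((v, 0) : Z × W)‖ < r := by
            rw [Prod.norm_def]
            simpa using hv
          exact h3.eventually (eventually_lt_nhds h4)
        filter_upwards [nhdsWithin_le_nhds h1, self_mem_nhdsWithin] with t ht ht0
        have ht0' : (0 : ℝ) < t := ht0
        obtain ⟨h5, h6⟩ := hball (v, t • w) (by simpa using ht)
        have h7 : G (v, t • w) (fun _ => t • w) = t ^ j • G (v, t • w) (fun _ => w) := by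
          have h8 := (G (v, t • w)).map_smul_univ (fun _ => t) (fun _ => w)
          simpa using h8
        rw [h5] at h6
        have h9 : ‖G (v, t • w) (fun _ => t • w)‖ ≤ C * (t * ‖w‖) ^ (j + 1) := by
          have h10 : ‖‖((v, t • w) : Z × W).2‖ ^ (j + 1)‖ = (t * ‖w‖) ^ (j + 1) := by
            rw [Real.norm_eq_abs, abs_of_nonneg (by positivity)]
            show ‖t • w‖ ^ (j + 1) = _
            rw [norm_smul, Real.norm_eq_abs, abs_of_pos ht0']
          rw [h10] at h6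
          exact h6
        rw [h7, norm_smul, Real.norm_eq_abs, abs_of_pos (by positivity : 0 < t ^ j)] at h9
        have h11 : t ^ j * ‖G (v, t • w) (fun _ => w)‖ ≤ t ^ j * (C * ‖w‖ ^ (j + 1) * t) := by
          refine h9.trans (le_of_eq ?_)
          rw [mul_pow, pow_succ t j]
          ring
        exact le_of_mul_le_mul_left h11 (by positivity)
      have := le_of_tendsto_of_tendsto hcont hlim hev
      exact norm_le_zero_iff.1 this
    obtain ⟨Gh, hGh, hG1, -⟩ := hadamard hG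
    refine ⟨fun p => (continuousMultilinearCurryLeftEquiv ℝ (fun _ : Fin (j + 1) => W) E).symm (Gh p), ?_, ?_⟩
    · exact (continuousMultilinearCurryLeftEquiv ℝ (fun _ : Fin (j + 1) => W) E).symm.contDiff.comp hGh
    filter_upwards [hFG, Metric.ball_mem_nhds (0 : Z × W) hr] with p hp hpr
    have h1 : ‖p.1‖ < r := by
      rw [mem_ball_zero_iff] at hpr
      exact (norm_fst_le p).trans_lt hpr
    have h2 : G p = G (p.1, 0) + Gh p p.2 := hG1 p.1 p.2
    rw [hp, h2, add_apply, hz p.1 h1, zero_add]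
    rfl

/-- The homogeneous part.

PROOF. G from `multi_of_isBigO`, C v := G (v,0).  F - C(v)(w,..,w) = (G(v,w) - G(v,0))(w,..,w), and |G(v,w) - G(v,0)| = O(|w|) near 0: `hadamard` (G(v,w) - G(v,0) = Gh(v,w) w,
Gh continuous so bounded near 0), or the local Lipschitz property of a C^1 function (`ContDiffAt.exists_lipschitzOnWith`).  `ContinuousMultilinearMap.le_opNorm`. -/
theorem homog_w {F : Z × W → E} (hF : ContDiff ℝ ∞ F) (j : ℕ) (h : F =O[𝓝 0] fun p => ‖p.2‖ ^ j) :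
    ∃ C : Z → W [×j]→L[ℝ] E, ContDiff ℝ ∞ C ∧
      (fun p : Z × W => F p - C p.1 (fun _ => p.2)) =O[𝓝 0] fun p => ‖p.2‖ ^ (j + 1) := by
  have : CompleteSpace E := FiniteDimensional.complete ℝ E
  obtain ⟨G, hG, hFG⟩ := multi_of_isBigO j hF h
  obtain ⟨Gh, hGh, hG1, -⟩ := hadamard hG
  refine ⟨fun v => G (v, 0), hG.comp (by fun_prop), ?_⟩
  refine IsBigO.of_bound (‖Gh 0‖ + 1) ?_
  have hb : ∀ᶠ p in 𝓝 (0 : Z × W), ‖Gh p‖ < ‖Gh 0‖ + 1 :=
    (hGh.continuous.norm.tendsto 0).eventually (eventually_lt_nhds (by linarith))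
  filter_upwards [hFG, hb] with p hp hpb
  have h2 : G p = G (p.1, 0) + Gh p p.2 := hG1 p.1 p.2
  rw [hp, h2, add_apply, add_sub_cancel_left]
  have h3 := (Gh p p.2).le_opNorm (fun _ => p.2)
  rw [Finset.prod_const, Finset.card_univ, Fintype.card_fin] at h3
  have h4 := (Gh p).le_opNorm p.2
  rw [Real.norm_eq_abs, abs_of_nonneg (by positivity)]
  calc _ ≤ ‖Gh p p.2‖ * ‖p.2‖ ^ j := h3
    _ ≤ (‖Gh p‖ * ‖p.2‖) * ‖p.2‖ ^ j := by gcongr
    _ ≤ ((‖Gh 0‖ + 1) * ‖p.2‖) * ‖p.2‖ ^ j := by gcongr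
    _ = _ := by ring

end Pool.Agent.Lib.H37D
end

-- from Lib.H37D.DN13
section

/-! # H37D, chunk DN13 (S/M): the step j → j+1 of the normal form (section NF of PROOFN.md) -/

open Set Filter Topology Asymptotics
open scoped ContDiff

namespace Pool.Agent.Lib.H37D

open Pool.Agent.Lib.H37N

variable {Z W E : Type} [NormedAddCommGroup Z] [NormedSpace ℝ Z] [FiniteDimensional ℝ Z]
  [NormedAddCommGroup W] [NormedSpace ℝ W] [FiniteDimensional ℝ W]
  [NormedAddCommGroup E] [NormedSpace ℝ E] [FiniteDimensional ℝ E]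

omit [FiniteDimensional ℝ Z] [FiniteDimensional ℝ W] [FiniteDimensional ℝ E] in
/-- Evaluation of a smooth family of multilinear maps on the diagonal. -/
theorem dn13_diag {X : Type} [NormedAddCommGroup X] [NormedSpace ℝ X] (j : ℕ) :
    ∀ {P : X → W [×j]→L[ℝ] E} {u : X → W}, ContDiff ℝ ∞ P → ContDiff ℝ ∞ u →
      ContDiff ℝ ∞ fun x => P x (fun _ => u x) := by
  induction j with
  | zero =>
    intro P u hP hu
    have h1 : (fun x => P x (fun _ => u x)) = fun x => (continuousMultilinearCurryFin0 ℝ W E) (P x) := by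
      funext x
      rw [continuousMultilinearCurryFin0_apply]
      exact congrArg (P x) (Subsingleton.elim _ _)
    rw [h1]
    exact (continuousMultilinearCurryFin0 ℝ W E).contDiff.comp hP
  | succ j ih =>
    intro P u hP hu
    let L : (W [×(j + 1)]→L[ℝ] E) →L[ℝ] (W →L[ℝ] (W [×j]→L[ℝ] E)) :=
      (continuousMultilinearCurryLeftEquiv ℝ (fun _ : Fin (j + 1) => W) E).toContinuousLinearEquiv.toContinuousLinearMap
    have h00 : ContDiff ℝ ∞ L :=
      ContinuousLinearMap.contDiff (𝕜 := ℝ) (E := W [×(j + 1)]→L[ℝ] E) (F := W →L[ℝ] (W [×j]→L[ℝ] E)) L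
    have h0 : ContDiff ℝ ∞ fun x => L (P x) := h00.comp hP
    have h1 : ContDiff ℝ ∞ fun x => (P x).curryLeft (u x) := h0.clm_apply hu
    have h2 := ih h1 hu
    have h3 : (fun x => P x (fun _ => u x)) = fun x => (P x).curryLeft (u x) (fun _ => u x) := by
      funext x
      rw [ContinuousMultilinearMap.curryLeft_apply]
      refine congrArg (P x) ?_
      funext i
      refine Fin.cases ?_ (fun i => ?_) i
      · rw [Fin.cons_zero]
      · rw [Fin.cons_succ]
    rw [h3]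
    exact h2

omit [FiniteDimensional ℝ Z] [FiniteDimensional ℝ W] [FiniteDimensional ℝ E] in
/-- The diagonal values are `O(|w|^j)`. -/
theorem dn13_isBigO (j : ℕ) {P : Z → W [×j]→L[ℝ] E} (hP : ContDiff ℝ ∞ P) :
    (fun p : Z × W => P p.1 (fun _ => p.2)) =O[𝓝 0] fun p => ‖p.2‖ ^ j := by
  have hbd : ∀ᶠ p in 𝓝 (0 : Z × W), ‖P p.1‖ < ‖P 0‖ + 1 :=
    ((hP.continuous.comp continuous_fst).norm.tendsto (0 : Z × W)).eventually (gt_mem_nhds (lt_add_one _))
  refine IsBigO.of_bound (‖P 0‖ + 1) ?_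
  filter_upwards [hbd] with p hp
  have h1 := (P p.1).le_opNorm (fun _ => p.2)
  rw [Finset.prod_const, Finset.card_univ, Fintype.card_fin] at h1
  rw [Real.norm_of_nonneg (by positivity)]
  exact h1.trans (mul_le_mul_of_nonneg_right hp.le (by positivity))

/-- The step: `Θ'(v,w) = Θ(v,w) + P(v)(w,..,w)`.

PROOF. F(v,w) := G(Θ(v,w)) - Θ(v,A(v)w) is smooth, F = O(|w|^j).  `homog_w`: F = C(v)(w,..,w) + O(|w|^(j+1)).  `solve_multi` with M(v) := DG(Θ(v,0)) (smooth: `ContDiff.fderiv_right`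
composed with v ↦ Θ(v,0)) gives P.  Then, with b := P(v)(w,..,w) = O(|w|^j):
G(Θ + b) - (Θ(v,Aw) + P(v)(Aw,..,Aw)) = [G(Θ+b) - G(Θ) - M(v) b] + F + M(v) b - P(v)(Aw,..,Aw)
 = O(|b| (|Θ(v,w) - Θ(v,0)| + |b|)) + [F - C(v)(w,..,w)] (for v near 0)
by `second_order` (a = Θ p, c = Θ(p.1,0), both tend to Θ 0) and the equation of `solve_multi`.  |Θ(v,w) - Θ(v,0)| = O(|w|) (`hadamard`), |b| = O(|w|^j), j ≥ 1, so everything is O(|w|^(j+1)). -/
theorem nf_step {G : E → E} (hG : ContDiff ℝ ∞ G) {Θ : Z × W → E} (hΘ : ContDiff ℝ ∞ Θ)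
    {A : Z → W →L[ℝ] W} (hA : ContDiff ℝ ∞ A) {Mi : E →L[ℝ] E}
    (hMi : Mi.comp (fderiv ℝ G (Θ 0)) = ContinuousLinearMap.id ℝ E)
    (hMi' : (fderiv ℝ G (Θ 0)).comp Mi = ContinuousLinearMap.id ℝ E) (j : ℕ) (hj1 : 1 ≤ j)
    (hj : ‖Mi‖ * ‖A 0‖ ^ j < 1)
    (hF : (fun p : Z × W => G (Θ p) - Θ (p.1, A p.1 p.2)) =O[𝓝 0] fun p => ‖p.2‖ ^ j) :
    ∃ P : Z → W [×j]→L[ℝ] E, ContDiff ℝ ∞ P ∧
      (fun p : Z × W => G (Θ p + P p.1 (fun _ => p.2)) -
        (Θ (p.1, A p.1 p.2) + P p.1 (fun _ => A p.1 p.2))) =O[𝓝 0] fun p => ‖p.2‖ ^ (j + 1) := by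
  have : CompleteSpace E := FiniteDimensional.complete ℝ E
  have hFs : ContDiff ℝ ∞ (fun p : Z × W => G (Θ p) - Θ (p.1, A p.1 p.2)) :=
    (hG.comp hΘ).sub (hΘ.comp (contDiff_fst.prodMk ((hA.comp contDiff_fst).clm_apply contDiff_snd)))
  obtain ⟨C, hC, hCF⟩ := homog_w hFs j hF
  have hM : ContDiff ℝ ∞ (fun v : Z => fderiv ℝ G (Θ (v, 0))) :=
    (hG.fderiv_right (by simp)).comp (hΘ.comp (contDiff_id.prodMk contDiff_const))
  obtain ⟨P, hP, hPe⟩ := solve_multi hM hA (Mi := Mi) hMi hMi' j hj hC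
  refine ⟨P, hP, ?_⟩
  have hb := dn13_isBigO j hP
  have hfst : Tendsto (fun p : Z × W => p.1) (𝓝 0) (𝓝 0) := continuous_fst.tendsto (0 : Z × W)
  have hbs : ContDiff ℝ ∞ (fun p : Z × W => P p.1 (fun _ => p.2)) :=
    dn13_diag j (hP.comp contDiff_fst) contDiff_snd
  have hb0 : Tendsto (fun p : Z × W => P p.1 (fun _ => p.2)) (𝓝 0) (𝓝 0) := by
    have h1 := hbs.continuous.tendsto (0 : Z × W)
    have h2 : P (0 : Z × W).1 (fun _ => (0 : Z × W).2) = 0 := by
      have : NeZero j := ⟨by omega⟩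
      exact (P 0).map_zero
    rw [h2] at h1
    exact h1
  have hc0 : Tendsto (fun p : Z × W => Θ (p.1, 0)) (𝓝 0) (𝓝 (Θ 0)) :=
    (hΘ.continuous.comp (continuous_fst.prodMk continuous_const)).tendsto (0 : Z × W)
  have hso := second_order hG (hΘ.continuous.tendsto (0 : Z × W)) hb0 hc0
  have hnear : ∀ᶠ p in 𝓝 (0 : Z × W), ‖p.2‖ ≤ 1 := by
    have h1 : Tendsto (fun p : Z × W => ‖p.2‖) (𝓝 0) (𝓝 ‖(0 : Z × W).2‖) :=
      (continuous_snd.norm).tendsto (0 : Z × W)
    have h2 : ‖(0 : Z × W).2‖ < 1 := by simp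
    exact (h1.eventually (gt_mem_nhds h2)).mono fun p hp => le_of_lt hp
  have hb1 : (fun p : Z × W => P p.1 (fun _ => p.2)) =O[𝓝 0] fun p => ‖p.2‖ := by
    refine hb.trans (IsBigO.of_bound 1 ?_)
    filter_upwards [hnear] with p hp
    rw [Real.norm_of_nonneg (by positivity), Real.norm_of_nonneg (norm_nonneg _), one_mul]
    calc ‖p.2‖ ^ j ≤ ‖p.2‖ ^ 1 := pow_le_pow_of_le_one (norm_nonneg _) hp hj1
      _ = ‖p.2‖ := pow_one _
  have hΘ1 : (fun p : Z × W => Θ p - Θ (p.1, 0)) =O[𝓝 0] fun p => ‖p.2‖ := by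
    obtain ⟨H, hH, hH1, -⟩ := hadamard hΘ
    have hbd : ∀ᶠ p in 𝓝 (0 : Z × W), ‖H p‖ < ‖H 0‖ + 1 :=
      (hH.continuous.norm.tendsto 0).eventually (gt_mem_nhds (lt_add_one _))
    refine IsBigO.of_bound (‖H 0‖ + 1) ?_
    filter_upwards [hbd] with p hp
    have h1 : Θ p - Θ (p.1, 0) = H p p.2 := by
      have h2 := hH1 p.1 p.2
      rw [Prod.mk.eta] at h2
      rw [h2, add_sub_cancel_left]
    rw [h1, norm_norm]
    exact ((H p).le_opNorm _).trans (mul_le_mul_of_nonneg_right hp.le (norm_nonneg _))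
  have hprod : (fun p : Z × W => ‖P p.1 (fun _ => p.2)‖ * (‖Θ p - Θ (p.1, 0)‖ + ‖P p.1 (fun _ => p.2)‖))
      =O[𝓝 0] fun p => ‖p.2‖ ^ (j + 1) := by
    have h1 := hb.norm_left.mul (hΘ1.norm_left.add hb1.norm_left)
    refine h1.trans (isBigO_of_le _ fun p => le_of_eq ?_)
    rw [pow_succ]
  refine ((hso.trans hprod).add hCF).congr' ?_ EventuallyEq.rfl
  filter_upwards [hfst.eventually hPe] with p hp
  have h1 := hp p.2
  simp only at h1 ⊢
  have h2 : fderiv ℝ G (Θ (p.1, 0)) (P p.1 (fun _ => p.2)) =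
      P p.1 (fun _ => A p.1 p.2) - C p.1 (fun _ => p.2) := by
    rw [sub_eq_iff_eq_add] at h1
    rw [h1]
    abel
  rw [h2]
  abel

end Pool.Agent.Lib.H37D
end

-- from Lib.H37D.DN15
section

/-! # H37D, chunk DN15 (S/M): the normal form (section NF of PROOFN.md) -/

open Set Filter Topology Asymptotics
open scoped ContDiff

namespace Pool.Agent.Lib.H37D

open Pool.Agent.Lib.H37N

variable {Z W : Type} [NormedAddCommGroup Z] [NormedSpace ℝ Z] [FiniteDimensional ℝ Z]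
  [NormedAddCommGroup W] [NormedSpace ℝ W] [FiniteDimensional ℝ W]

/-- The normal form.

PROOF. Induction on n.  n ≤ 2: `nf_first` (‖p.2‖^2 = O(‖p.2‖^n) near 0 for n ≤ 2).  Strengthen the statement: the SAME A for all n ≥ 2 (obtain A and Θ₂ from `nf_first` first, then prove by
`Nat.le_induction` for n ≥ 2 the existence of Θ with all the properties and Θ(v,0) = (v,0)).  Step n → n+1 (n ≥ 2): `nf_step` with E = Z × W, j = n, Mi := the map (v,w) ↦ (v, A0i w)
(`ContinuousLinearMap.prodMap`), inverse of DG(0) (hD), ‖Mi‖ ≤ max 1 ‖A0i‖; if ‖A0i‖ ≤ 1: ‖Mi‖ ‖A0‖^n ≤ ‖A0‖^n < 1; otherwise ‖A0i‖ ‖A0‖^n ≤ ‖A0i‖ ‖A0‖^2 < 1.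
Θ' p := Θ p + P p.1 (fun _ => p.2): smooth (`ContinuousMultilinearMap` evaluation is smooth: `ContDiff` of (P,w) ↦ P w, for instance through `ContinuousMultilinearMap.apply` or
`contDiff_..`), Θ'(v,0) = Θ(v,0) (n ≥ 1, `ContinuousMultilinearMap.map_zero` / `map_coord_zero`), and DΘ'(0) = DΘ(0) since P(v)(w,..,w) = O(|(v,w)|^2) (n ≥ 2) has derivative 0 at 0
(`Asymptotics.IsBigO.hasFDerivAt`). -/
theorem normal_form {G : Z × W → Z × W} (hG : ContDiff ℝ ∞ G) (hfix : ∀ᶠ v in 𝓝 (0 : Z), G (v, 0) = (v, 0))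
    {A0 A0i : W →L[ℝ] W} (h1 : A0.comp A0i = ContinuousLinearMap.id ℝ W)
    (h2 : A0i.comp A0 = ContinuousLinearMap.id ℝ W) (hD : ∀ v w, fderiv ℝ G 0 (v, w) = (v, A0 w))
    (hA : ‖A0‖ < 1) (hA2 : ‖A0i‖ * ‖A0‖ ^ 2 < 1) (n : ℕ) :
    ∃ (Θ : Z × W → Z × W) (A : Z → W →L[ℝ] W), ContDiff ℝ ∞ Θ ∧ ContDiff ℝ ∞ A ∧ A 0 = A0 ∧
      (∀ v, Θ (v, 0) = (v, 0)) ∧ fderiv ℝ Θ 0 = ContinuousLinearMap.id ℝ (Z × W) ∧
      (fun p : Z × W => G (Θ p) - Θ (p.1, A p.1 p.2)) =O[𝓝 0] fun p => ‖p.2‖ ^ n := by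
  obtain ⟨Θ₂, A, hΘ₂, hA', hA0, hΘ₂0, hΘ₂D, hΘ₂O⟩ := nf_first hG hfix hD hA
  have key : ∀ n : ℕ, 2 ≤ n → ∃ Θ : Z × W → Z × W, ContDiff ℝ ∞ Θ ∧
      (∀ v, Θ (v, 0) = (v, 0)) ∧ fderiv ℝ Θ 0 = ContinuousLinearMap.id ℝ (Z × W) ∧
      (fun p : Z × W => G (Θ p) - Θ (p.1, A p.1 p.2)) =O[𝓝 0] fun p => ‖p.2‖ ^ n := by
    intro n hn
    induction n, hn using Nat.le_induction with
    | base => exact ⟨Θ₂, hΘ₂, hΘ₂0, hΘ₂D, hΘ₂O⟩
    | succ n hn ih =>
      obtain ⟨Θ, hΘ, hΘ0, hΘD, hΘO⟩ := ih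
      have hz : Θ 0 = 0 := hΘ0 0
      have hDM : fderiv ℝ G 0 = (ContinuousLinearMap.id ℝ Z).prodMap A0 := by
        ext x
        · simp [hD]
        · simp [hD]
        · simp [hD]
        · simp [hD]
      obtain ⟨P, hP, hPO⟩ := nf_step hG hΘ hA' (Mi := (ContinuousLinearMap.id ℝ Z).prodMap A0i)
        (by
          rw [hz, hDM]
          refine ContinuousLinearMap.ext fun x => ?_
          have h3 := congrArg (fun L : W →L[ℝ] W => L x.2) h2
          simpa [Prod.ext_iff] using h3)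
        (by
          rw [hz, hDM]
          refine ContinuousLinearMap.ext fun x => ?_
          have h3 := congrArg (fun L : W →L[ℝ] W => L x.2) h1
          simpa [Prod.ext_iff] using h3) n (by omega)
        (by
          rw [hA0]
          have h3 : ‖(ContinuousLinearMap.id ℝ Z).prodMap A0i‖ ≤ max 1 ‖A0i‖ := by
            refine ContinuousLinearMap.opNorm_le_bound _ (by positivity) fun x => ?_
            rw [ContinuousLinearMap.coe_prodMap', Prod.norm_def]
            refine max_le ?_ ?_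
            · exact (norm_fst_le x).trans (le_mul_of_one_le_left (norm_nonneg _) (le_max_left _ _))
            · exact (A0i.le_opNorm _).trans (mul_le_mul (le_max_right _ _) (norm_snd_le x)
                (norm_nonneg _) (by positivity))
          have h4 : ‖A0‖ ^ n ≤ ‖A0‖ ^ 2 := pow_le_pow_of_le_one (norm_nonneg _) hA.le hn
          have h5 : ‖A0‖ ^ 2 < 1 := pow_lt_one₀ (norm_nonneg _) hA (by norm_num)
          have h6 : 0 ≤ ‖A0‖ ^ n := by positivity
          refine lt_of_le_of_lt (mul_le_mul_of_nonneg_right h3 h6) ?_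
          rcases le_total ‖A0i‖ 1 with h7 | h7
          · rw [max_eq_left h7, one_mul]
            exact lt_of_le_of_lt h4 h5
          · rw [max_eq_right h7]
            exact lt_of_le_of_lt (mul_le_mul_of_nonneg_left h4 (norm_nonneg _)) hA2) hΘO
      have hbs : ContDiff ℝ ∞ (fun p : Z × W => P p.1 (fun _ => p.2)) :=
        dn13_diag n (hP.comp contDiff_fst) contDiff_snd
      have hbO : (fun p : Z × W => P p.1 (fun _ => p.2)) =O[𝓝 0] fun p => ‖p - 0‖ ^ n := by
        refine (dn13_isBigO n hP).trans (isBigO_of_le _ fun p => ?_)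
        rw [Real.norm_of_nonneg (by positivity), Real.norm_of_nonneg (by positivity), sub_zero]
        exact pow_le_pow_left₀ (norm_nonneg _) (norm_snd_le p) n
      have hbD : HasFDerivAt (fun p : Z × W => P p.1 (fun _ => p.2)) (0 : Z × W →L[ℝ] Z × W) 0 :=
        hbO.hasFDerivAt (by omega)
      refine ⟨fun p => Θ p + P p.1 (fun _ => p.2), hΘ.add hbs, ?_, ?_, hPO⟩
      · intro v
        have : NeZero n := ⟨by omega⟩
        have h3 : P v (fun _ => (0 : W)) = 0 := (P v).map_zero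
        simp only [hΘ0, h3, add_zero]
      · have h3 : HasFDerivAt Θ (ContinuousLinearMap.id ℝ (Z × W)) 0 := by
          rw [← hΘD]
          exact (hΘ.differentiable (by simp) 0).hasFDerivAt
        have h4 := (h3.add hbD).fderiv
        rw [add_zero] at h4
        exact h4
  rcases le_total 2 n with hn | hn
  · obtain ⟨Θ, h3, h4, h5, h6⟩ := key n hn
    exact ⟨Θ, A, h3, hA', hA0, h4, h5, h6⟩
  · refine ⟨Θ₂, A, hΘ₂, hA', hA0, hΘ₂0, hΘ₂D, hΘ₂O.trans (IsBigO.of_bound 1 ?_)⟩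
    have hnear : ∀ᶠ p in 𝓝 (0 : Z × W), ‖p.2‖ ≤ 1 := by
      have h1 : Tendsto (fun p : Z × W => ‖p.2‖) (𝓝 0) (𝓝 ‖(0 : Z × W).2‖) :=
        (continuous_snd.norm).tendsto (0 : Z × W)
      have h2 : ‖(0 : Z × W).2‖ < 1 := by simp
      exact (h1.eventually (gt_mem_nhds h2)).mono fun p hp => le_of_lt hp
    filter_upwards [hnear] with p hp
    rw [Real.norm_of_nonneg (by positivity), Real.norm_of_nonneg (by positivity), one_mul]
    exact pow_le_pow_of_le_one (norm_nonneg _) hp hn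

end Pool.Agent.Lib.H37D
end
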