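import Mathlib
import Pool.Agent.Lib.H1M.FF.M004

/-! Merged copies (to shorten the build) of Lib.H37C.C1, Lib.H37C.C2, Lib.H37D.DB05, Lib.Helper44.MarkedGroups.DST, Lib.H37D.DB06a, Lib.H37N.T9, Lib.H37C.TDefs, Lib.H37C.T1, Lib.H37C.T1B, Lib.H37C.T2, Lib.H37C.T2B, Lib.H37C.T3, Lib.H37N.C35. -/

-- from Lib.H37C.C1
section

open TopologicalSpace Set Filter Topology

namespace Pool.Agent.Lib.H37C

/-- the orbit of `0` exhausts the line -/
theorem c1_exists (U : ℝ ≃o ℝ) (hU : ∀ x, x < U x) (x : ℝ) :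
    ∃ k : ℤ, (U ^ k) 0 ≤ x ∧ x < (U ^ (k + 1)) 0 := by
  have hcont : Continuous U := U.continuous
  have hmono : StrictMono (fun k : ℤ => (U ^ k) 0) := by
    refine strictMono_int_of_lt_succ fun k => ?_
    show (U ^ k) 0 < (U ^ (k + 1)) 0
    have : (U ^ (k + 1)) 0 = U ((U ^ k) 0) := by
      rw [zpow_add_one, ← (Commute.self_zpow U k).eq]
      rfl
    rw [this]
    exact hU _
  -- unbounded above
  have habove : ∀ x, ∃ k : ℤ, x < (U ^ k) 0 := by
    intro x
    by_contra hcon
    push Not at hcon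
    have hb : BddAbove (range (fun n : ℕ => (U ^ (n : ℤ)) 0)) := ⟨x, by
      rintro _ ⟨n, rfl⟩; exact hcon n⟩
    have hm : Monotone (fun n : ℕ => (U ^ (n : ℤ)) 0) := fun a b h =>
      hmono.monotone (by exact_mod_cast h)
    have hlim := tendsto_atTop_ciSup hm hb
    set p := ⨆ n : ℕ, (U ^ (n : ℤ)) 0
    have h1 : Tendsto (fun n : ℕ => U ((U ^ (n : ℤ)) 0)) atTop (𝓝 (U p)) :=
      (hcont.tendsto p).comp hlim
    have h2 : Tendsto (fun n : ℕ => (U ^ ((n + 1 : ℕ) : ℤ)) 0) atTop (𝓝 p) :=
      hlim.comp (tendsto_add_atTop_nat 1)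
    have h3 : (fun n : ℕ => (U ^ ((n + 1 : ℕ) : ℤ)) 0) = fun n : ℕ => U ((U ^ (n : ℤ)) 0) := by
      funext n
      rw [Nat.cast_succ, zpow_add_one, ← (Commute.self_zpow U (n : ℤ)).eq]
      rfl
    rw [h3] at h2
    exact absurd (tendsto_nhds_unique h1 h2) (hU p).ne'
  have hbelow : ∀ x, ∃ k : ℤ, (U ^ k) 0 ≤ x := by
    intro x
    by_contra hcon
    push Not at hcon
    have hb : BddBelow (range (fun n : ℕ => (U ^ (-(n : ℤ))) 0)) := ⟨x, by
      rintro _ ⟨n, rfl⟩; exact (hcon _).le⟩
    have hm : Antitone (fun n : ℕ => (U ^ (-(n : ℤ))) 0) := fun a b h =>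
      hmono.monotone (by simpa using h)
    have hlim := tendsto_atTop_ciInf hm hb
    set p := ⨅ n : ℕ, (U ^ (-(n : ℤ))) 0
    have h1 : Tendsto (fun n : ℕ => U ((U ^ (-((n + 1 : ℕ) : ℤ))) 0)) atTop (𝓝 (U p)) :=
      (hcont.tendsto p).comp (hlim.comp (tendsto_add_atTop_nat 1))
    have h3 : (fun n : ℕ => U ((U ^ (-((n + 1 : ℕ) : ℤ))) 0)) = fun n : ℕ => (U ^ (-(n : ℤ))) 0 := by
      funext n
      have : (U ^ (-(n : ℤ))) = U * (U ^ (-((n + 1 : ℕ) : ℤ))) := by
        rw [← zpow_one_add]
        congr 1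
        push_cast
        ring
      rw [this]
      rfl
    rw [h3] at h1
    exact absurd (tendsto_nhds_unique h1 hlim) (hU p).ne'
  obtain ⟨k₀, hk₀⟩ := habove x
  obtain ⟨k₁, hk₁⟩ := hbelow x
  have hex : ∃ k : ℤ, (U ^ k) 0 ≤ x ∧ ∀ z : ℤ, (U ^ z) 0 ≤ x → z ≤ k := by
    refine Int.exists_greatest_of_bdd ⟨k₀, fun z hz => ?_⟩ ⟨k₁, hk₁⟩
    by_contra h
    exact absurd (hz.trans_lt hk₀) (not_lt.2 (hmono.monotone (not_le.1 h).le))
  obtain ⟨k, hk, hmax⟩ := hex
  refine ⟨k, hk, ?_⟩
  by_contra h
  have := hmax (k + 1) (not_lt.1 h)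
  omega

/-- **C1.** An increasing homeomorphism of the real line without fixed points (moving all points to
the right) is conjugate to the translation by `1`.

Proof. `U ^ k` (`k : ℤ`, the group `ℝ ≃o ℝ`). Let `x₀ = 0`, `x_k = (U ^ k) 0`, strictly increasing.
For each `x` there is `k` with `x_k ≤ x < x_{k+1}`: otherwise the sequence `x_k` (`k → ∞` or
`k → -∞`) is bounded, converges to a point `p`, and `U p = p` by continuity, a contradiction. For such
`k` put `A x = k + (U ^ (-k) x - x₀) / (x₁ - x₀) ∈ [k, k+1)`. `A` is strictly increasing (compare the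
integer parts, then the fractional parts) and surjective (`s = k + θ`, `x = U ^ k (x₀ + θ (x₁ - x₀))`),
so an order isomorphism (`StrictMono.orderIsoOfSurjective`), and `A (U x) = A x + 1`. -/
theorem abel (U : ℝ ≃o ℝ) (hU : ∀ x, x < U x) : ∃ A : ℝ ≃o ℝ, ∀ x, A (U x) = A x + 1 := by
  have hmono : StrictMono (fun k : ℤ => (U ^ k) 0) := by
    refine strictMono_int_of_lt_succ fun k => ?_
    show (U ^ k) 0 < (U ^ (k + 1)) 0
    have : (U ^ (k + 1)) 0 = U ((U ^ k) 0) := by
      rw [zpow_add_one, ← (Commute.self_zpow U k).eq]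
      rfl
    rw [this]
    exact hU _
  choose k hk1 hk2 using c1_exists U hU
  have huniq : ∀ x (j : ℤ), (U ^ j) 0 ≤ x → x < (U ^ (j + 1)) 0 → k x = j := by
    intro x j h1 h2
    have h3 : j < k x + 1 := hmono.lt_iff_lt.1 (h1.trans_lt (hk2 x))
    have h4 : k x < j + 1 := hmono.lt_iff_lt.1 ((hk1 x).trans_lt h2)
    omega
  have hc : 0 < U 0 := hU 0
  have hUU : ∀ (j : ℤ) (y : ℝ), (U ^ j) ((U ^ (-j)) y) = y := by
    intro j y
    have : (U ^ j) * (U ^ (-j)) = 1 := by rw [← zpow_add, add_neg_cancel, zpow_zero]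
    exact DFunLike.congr_fun this y
  have hUU' : ∀ (j : ℤ) (y : ℝ), (U ^ (-j)) ((U ^ j) y) = y := by
    intro j y
    have : (U ^ (-j)) * (U ^ j) = 1 := by rw [← zpow_add, neg_add_cancel, zpow_zero]
    exact DFunLike.congr_fun this y
  have hUs : ∀ (j : ℤ) (y : ℝ), (U ^ (j + 1)) y = (U ^ j) (U y) := by
    intro j y
    rw [zpow_add_one]
    rfl
  have hUs' : ∀ (j : ℤ) (y : ℝ), (U ^ (j + 1)) y = U ((U ^ j) y) := by
    intro j y
    rw [zpow_add_one, ← (Commute.self_zpow U j).eq]
    rfl
  let A : ℝ → ℝ := fun x => k x + (U ^ (-k x)) x / U 0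
  have hfrac1 : ∀ x, 0 ≤ (U ^ (-k x)) x := by
    intro x
    have h1 := (U ^ (-k x)).monotone (hk1 x)
    rwa [hUU'] at h1
  have hfrac2 : ∀ x, (U ^ (-k x)) x < U 0 := by
    intro x
    have h1 := (U ^ (-k x)).strictMono (hk2 x)
    rwa [hUs, hUU'] at h1
  have hA1 : ∀ x, (k x : ℝ) ≤ A x := fun x => by
    have := div_nonneg (hfrac1 x) hc.le
    show (k x : ℝ) ≤ k x + _
    linarith
  have hA2 : ∀ x, A x < k x + 1 := fun x => by
    have := (div_lt_one hc).2 (hfrac2 x)
    show (k x : ℝ) + _ < k x + 1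
    linarith
  have hAm : StrictMono A := by
    intro x y hxy
    have hkk : k x ≤ k y := by
      by_contra h
      have h1 : k y + 1 ≤ k x := by omega
      have h2 := hmono.monotone h1
      have h3 := hk2 y
      have h4 := hk1 x
      have h5 : y < x := h3.trans_le (h2.trans h4)
      linarith
    rcases hkk.lt_or_eq with h | h
    · have h1 : (k x : ℝ) + 1 ≤ k y := by exact_mod_cast h
      exact (hA2 x).trans_le (h1.trans (hA1 y))
    · show (k x : ℝ) + (U ^ (-k x)) x / U 0 < k y + (U ^ (-k y)) y / U 0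
      rw [← h]
      have h1 := (U ^ (-k x)).strictMono hxy
      have h2 := div_lt_div_of_pos_right h1 hc
      linarith
  have hAs : Function.Surjective A := by
    intro s
    set θ := Int.fract s
    have hθ0 : 0 ≤ θ := Int.fract_nonneg s
    have hθ1 : θ < 1 := Int.fract_lt_one s
    refine ⟨(U ^ ⌊s⌋) (θ * U 0), ?_⟩
    have h1 : (U ^ ⌊s⌋) 0 ≤ (U ^ ⌊s⌋) (θ * U 0) :=
      (U ^ ⌊s⌋).monotone (mul_nonneg hθ0 hc.le)
    have h2 : (U ^ ⌊s⌋) (θ * U 0) < (U ^ (⌊s⌋ + 1)) 0 := by
      rw [hUs]
      apply (U ^ ⌊s⌋).strictMono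
      nlinarith
    have h3 := huniq _ _ h1 h2
    show (k ((U ^ ⌊s⌋) (θ * U 0)) : ℝ) + _ / U 0 = s
    rw [h3, hUU', mul_div_cancel_right₀ _ hc.ne']
    exact Int.floor_add_fract s
  refine ⟨StrictMono.orderIsoOfSurjective A hAm hAs, fun x => ?_⟩
  show A (U x) = A x + 1
  have h1 : (U ^ (k x + 1)) 0 ≤ U x := by
    rw [hUs']; exact U.monotone (hk1 x)
  have h2 : U x < (U ^ (k x + 1 + 1)) 0 := by
    rw [hUs']; exact U.strictMono (hk2 x)
  have h3 := huniq _ _ h1 h2
  show (k (U x) : ℝ) + (U ^ (-k (U x))) (U x) / U 0 = k x + (U ^ (-k x)) x / U 0 + 1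
  rw [h3]
  have h4 : (U ^ (-(k x + 1))) (U x) = (U ^ (-k x)) x := by
    have : -k x = -(k x + 1) + 1 := by ring
    rw [this, hUs]
  rw [h4]
  push_cast
  ring

end Pool.Agent.Lib.H37C
end

-- from Lib.H37C.C2
section

open TopologicalSpace Set Filter Topology

namespace Pool.Agent.Lib.H37C

/-- an order isomorphism between the unit interval and the line -/
theorem c2_iso : Nonempty (Ioo (0 : ℝ) 1 ≃o ℝ) := by
  let f : ℝ ≃o ℝ :=
    { toFun := fun x => (x + 1) / 2
      invFun := fun y => 2 * y - 1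
      left_inv := fun x => by ring
      right_inv := fun y => by ring
      map_rel_iff' := by
        intro a b
        simp only [Equiv.coe_fn_mk]
        constructor <;> intro h <;> linarith }
  have hf : ∀ x, x ∈ Ioo (-1 : ℝ) 1 ↔ f x ∈ Ioo (0 : ℝ) 1 := by
    intro x
    show _ ↔ (x + 1) / 2 ∈ _
    simp only [mem_Ioo]
    constructor <;> rintro ⟨h1, h2⟩ <;> constructor <;> linarith
  let g : Ioo (-1 : ℝ) 1 ≃o Ioo (0 : ℝ) 1 :=
    { toEquiv := f.toEquiv.subtypeEquiv hf
      map_rel_iff' := by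
        rintro ⟨a, ha⟩ ⟨b, hb⟩
        exact f.le_iff_le }
  exact ⟨((orderIsoIooNegOneOne ℝ).trans g).symm⟩

theorem c2_restrict (U : ℝ ≃o ℝ) (hU0 : ∀ y ∉ Ioo (0 : ℝ) 1, U y = y) :
    ∃ U' : Ioo (0 : ℝ) 1 ≃o Ioo (0 : ℝ) 1, ∀ y, (U' y : ℝ) = U y := by
  have h0 : U 0 = 0 := hU0 0 (by simp)
  have h1 : U 1 = 1 := hU0 1 (by simp)
  have hU : ∀ x, x ∈ Ioo (0 : ℝ) 1 ↔ U x ∈ Ioo (0 : ℝ) 1 := by
    intro x
    constructor
    · rintro ⟨a, b⟩
      exact ⟨h0 ▸ U.strictMono a, h1 ▸ U.strictMono b⟩
    · intro h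
      by_contra hx
      rw [hU0 x hx] at h
      exact hx h
  exact ⟨{ toEquiv := U.toEquiv.subtypeEquiv hU
           map_rel_iff' := by
            rintro ⟨a, ha⟩ ⟨b, hb⟩
            exact U.le_iff_le }, fun y => rfl⟩

theorem c2_extend (G' : Ioo (0 : ℝ) 1 ≃o Ioo (0 : ℝ) 1) :
    ∃ G : ℝ ≃o ℝ, (∀ y ∉ Ioo (0 : ℝ) 1, G y = y) ∧ ∀ y : Ioo (0 : ℝ) 1, G y = G' y := by
  classical
  let G : ℝ → ℝ := fun y => if h : y ∈ Ioo (0 : ℝ) 1 then (G' ⟨y, h⟩ : ℝ) else y
  have hG0 : ∀ y ∉ Ioo (0 : ℝ) 1, G y = y := fun y hy => by simp only [G, dif_neg hy]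
  have hG1 : ∀ y : Ioo (0 : ℝ) 1, G y = G' y := fun y => by
    simp only [G, dif_pos y.2]
  have hm : StrictMono G := by
    intro x y hxy
    by_cases hx : x ∈ Ioo (0 : ℝ) 1
    · have e1 : G x = G' ⟨x, hx⟩ := hG1 ⟨x, hx⟩
      by_cases hy : y ∈ Ioo (0 : ℝ) 1
      · have e2 : G y = G' ⟨y, hy⟩ := hG1 ⟨y, hy⟩
        rw [e1, e2]
        exact G'.strictMono (show (⟨x, hx⟩ : Ioo (0 : ℝ) 1) < ⟨y, hy⟩ from hxy)
      · rw [e1, hG0 y hy]
        have h3 : 1 ≤ y := by
          by_contra h4
          exact hy ⟨hx.1.trans hxy, not_le.1 h4⟩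
        exact (G' ⟨x, hx⟩).2.2.trans_le h3
    · rw [hG0 x hx]
      by_cases hy : y ∈ Ioo (0 : ℝ) 1
      · have e2 : G y = G' ⟨y, hy⟩ := hG1 ⟨y, hy⟩
        rw [e2]
        have h3 : x ≤ 0 := by
          by_contra h4
          exact hx ⟨not_le.1 h4, hxy.trans hy.2⟩
        exact h3.trans_lt (G' ⟨y, hy⟩).2.1
      · rw [hG0 y hy]; exact hxy
  have hs : Function.Surjective G := by
    intro z
    by_cases hz : z ∈ Ioo (0 : ℝ) 1
    · refine ⟨G'.symm ⟨z, hz⟩, ?_⟩
      rw [hG1, G'.apply_symm_apply]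
    · exact ⟨z, hG0 z hz⟩
  exact ⟨StrictMono.orderIsoOfSurjective G hm hs, hG0, hG1⟩

/-- **C2.** Two increasing homeomorphisms of the line which are the identity outside `(0,1)` and move
the points of `(0,1)` to the right are conjugate by a homeomorphism of the same kind.

Proof: there is an order isomorphism `Ioo 0 1 ≃o ℝ` (e.g. from `orderIsoIooNegOneOne` of Mathlib and an
affine map, or `x ↦ (2x-1)/(x(1-x))`). `U` and `V` map `Ioo 0 1` onto itself; transport to `ℝ`, apply
`abel` to both, and put `G = A_V⁻¹ ∘ A_U` on `Ioo 0 1`, the identity outside; `G` is strictly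
increasing and surjective (`StrictMono.orderIsoOfSurjective`). -/
theorem gap_conj (U V : ℝ ≃o ℝ) (hU0 : ∀ y ∉ Ioo (0 : ℝ) 1, U y = y)
    (hU1 : ∀ y ∈ Ioo (0 : ℝ) 1, y < U y) (hV0 : ∀ y ∉ Ioo (0 : ℝ) 1, V y = y)
    (hV1 : ∀ y ∈ Ioo (0 : ℝ) 1, y < V y) :
    ∃ G : ℝ ≃o ℝ, (∀ y ∉ Ioo (0 : ℝ) 1, G y = y) ∧ ∀ y, G (U y) = V (G y) := by
  obtain ⟨E⟩ := c2_iso
  obtain ⟨U', hU'⟩ := c2_restrict U hU0
  obtain ⟨V', hV'⟩ := c2_restrict V hV0
  obtain ⟨A, hA⟩ := abel (E.symm.trans (U'.trans E)) (fun x => by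
    show x < E (U' (E.symm x))
    have h1 : E.symm x < U' (E.symm x) := by
      show ((E.symm x : Ioo (0 : ℝ) 1) : ℝ) < U' (E.symm x)
      rw [hU']
      exact hU1 _ (E.symm x).2
    have h2 := E.strictMono h1
    rwa [E.apply_symm_apply] at h2)
  obtain ⟨B, hB⟩ := abel (E.symm.trans (V'.trans E)) (fun x => by
    show x < E (V' (E.symm x))
    have h1 : E.symm x < V' (E.symm x) := by
      show ((E.symm x : Ioo (0 : ℝ) 1) : ℝ) < V' (E.symm x)
      rw [hV']
      exact hV1 _ (E.symm x).2
    have h2 := E.strictMono h1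
    rwa [E.apply_symm_apply] at h2)
  have hA' : ∀ y : Ioo (0 : ℝ) 1, A (E (U' y)) = A (E y) + 1 := by
    intro y
    have := hA (E y)
    simpa using this
  have hB' : ∀ y : Ioo (0 : ℝ) 1, B (E (V' y)) = B (E y) + 1 := by
    intro y
    have := hB (E y)
    simpa using this
  let G' : Ioo (0 : ℝ) 1 ≃o Ioo (0 : ℝ) 1 := E.trans (A.trans (B.symm.trans E.symm))
  have hG' : ∀ y, G' y = E.symm (B.symm (A (E y))) := fun y => rfl
  have hconj : ∀ y, G' (U' y) = V' (G' y) := by
    intro y
    apply E.injective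
    apply B.injective
    rw [hB', hG', hG', E.apply_symm_apply, E.apply_symm_apply, B.apply_symm_apply,
      B.apply_symm_apply, hA']
  obtain ⟨G, hG0, hG1⟩ := c2_extend G'
  refine ⟨G, hG0, fun y => ?_⟩
  by_cases hy : y ∈ Ioo (0 : ℝ) 1
  · have e1 : U y = U' ⟨y, hy⟩ := (hU' ⟨y, hy⟩).symm
    have e2 : G y = G' ⟨y, hy⟩ := hG1 ⟨y, hy⟩
    rw [e1, e2, hG1, hconj, hV']
  · rw [hU0 y hy, hG0 y hy, hV0 y hy]

end Pool.Agent.Lib.H37C
end

-- from Lib.H37D.DB05
section

/-! # H37D, chunk DB05 (M, pure): generic eigenvalues have rationally independent logarithms; nonresonance -/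

open Set Filter Topology

namespace Pool.Agent.Lib.H37D

variable {ι : Type} [Fintype ι]

/-- The bad set of one integer relation is nowhere dense.

PROOF. F(t) = c₀ A + Σ_j c_j log((1 + t_j) L_j) is continuous on the open set {t | ∀ j, 0 < 1 + t_j} (continuity of log off 0).  The complement of the set in question is
{t | ∀ j, 0 < 1 + t j} ∩ {F ≠ 0} ∪ {t | ∃ j, 1 + t j ≤ 0}: we prove that its interior is dense, in the form needed: every nonempty open V contained in {t | ∀ j, 0 < 1 + t j} contains a nonempty open V'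
on which F ≠ 0.  By continuity it is enough to find t ∈ V with F t ≠ 0.  If some c_j ≠ 0: take t ∈ V and move only the coordinate j (`Function.update`): two values of F at two different
values of t_j differ by c_j (log((1+a) L_j) - log((1+b) L_j)) ≠ 0 (log injective on positive reals), so one of them is ≠ 0.  If all c_j = 0 then c₀ ≠ 0 and F = c₀ A ≠ 0. -/
theorem db05_nowhere {A : ℝ} (hA : A ≠ 0) {L : ι → ℝ} (hL : ∀ j, 0 < L j) {c : Option ι → ℚ} (hc : c ≠ 0)
    {V : Set (ι → ℝ)} (hV : IsOpen V) (hVne : V.Nonempty) (hpos : ∀ t ∈ V, ∀ j, 0 < 1 + t j) :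
    ∃ V' ⊆ V, IsOpen V' ∧ V'.Nonempty ∧ ∀ t ∈ V',
      (c none : ℝ) * A + ∑ j, (c (some j) : ℝ) * Real.log ((1 + t j) * L j) ≠ 0 := by
  classical
  set F : (ι → ℝ) → ℝ := fun t => (c none : ℝ) * A + ∑ j, (c (some j) : ℝ) * Real.log ((1 + t j) * L j)
    with hF
  have hcont : ContinuousOn F V := by
    refine ContinuousOn.add continuousOn_const ?_
    refine continuousOn_finsetSum _ fun j _ => ?_
    refine ContinuousOn.mul continuousOn_const ?_
    refine ContinuousOn.log (by fun_prop) ?_
    intro t ht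
    have := hpos t ht j
    have := hL j
    positivity
  have hex : ∃ t ∈ V, F t ≠ 0 := by
    obtain ⟨t, ht⟩ := hVne
    by_cases hj : ∃ j, c (some j) ≠ 0
    · obtain ⟨j, hj⟩ := hj
      by_contra hcon
      push Not at hcon
      have hcu : Continuous fun s : ℝ => Function.update t j s := by fun_prop
      have hmem : ∀ᶠ s in 𝓝 (t j), Function.update t j s ∈ V := by
        refine hcu.continuousAt.eventually_mem ?_
        refine hV.mem_nhds ?_
        rw [Function.update_eq_self]
        exact ht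
      obtain ⟨s, hs, hst⟩ : ∃ s, Function.update t j s ∈ V ∧ t j < s := by
        have h1 : ∀ᶠ s in 𝓝[>] (t j), Function.update t j s ∈ V := hmem.filter_mono nhdsWithin_le_nhds
        exact (h1.and self_mem_nhdsWithin).exists
      have e1 := hcon t ht
      have e2 := hcon _ hs
      simp only [hF] at e1 e2
      rw [← Finset.add_sum_erase _ _ (Finset.mem_univ j)] at e1 e2
      have e3 : ∑ x ∈ Finset.univ.erase j, (c (some x) : ℝ) * Real.log ((1 + Function.update t j s x) * L x) =
          ∑ x ∈ Finset.univ.erase j, (c (some x) : ℝ) * Real.log ((1 + t x) * L x) := by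
        refine Finset.sum_congr rfl fun x hx => ?_
        rw [Function.update_of_ne (Finset.ne_of_mem_erase hx)]
      rw [e3, Function.update_self] at e2
      have e4 : (c (some j) : ℝ) * Real.log ((1 + t j) * L j) = (c (some j) : ℝ) * Real.log ((1 + s) * L j) := by
        linarith
      have hj' : (c (some j) : ℝ) ≠ 0 := by exact_mod_cast hj
      have e5 := mul_left_cancel₀ hj' e4
      have p1 : 0 < (1 + t j) * L j := mul_pos (hpos t ht j) (hL j)
      have p2 : 0 < (1 + s) * L j := by
        have := hpos _ hs j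
        rw [Function.update_self] at this
        exact mul_pos this (hL j)
      have e6 := Real.log_injOn_pos (Set.mem_Ioi.2 p1) (Set.mem_Ioi.2 p2) e5
      have e7 := mul_right_cancel₀ (hL j).ne' e6
      linarith
    · push Not at hj
      refine ⟨t, ht, ?_⟩
      have hc0 : c none ≠ 0 := by
        intro h0
        apply hc
        funext o
        cases o with
        | none => exact h0
        | some j => exact hj j
      simp only [hF, hj, Rat.cast_zero, zero_mul, Finset.sum_const_zero, add_zero]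
      exact mul_ne_zero (by exact_mod_cast hc0) hA
  obtain ⟨t, ht, htF⟩ := hex
  refine ⟨V ∩ F ⁻¹' {0}ᶜ, inter_subset_left, hcont.isOpen_inter_preimage hV isOpen_compl_singleton,
    ⟨t, ht, htF⟩, ?_⟩
  intro t' ht'
  exact ht'.2

/-- Generic eigenvalues.

PROOF. Let V₀ be an open neighbourhood of 0 on which p holds and 1 + t j > 0 for all j.  For every c ≠ 0 (countably many c : Option ι → ℚ) the set
Z_c = {t ∈ V₀ | c none * A + Σ c (some j) log((1+t j) L j) = 0} is nowhere dense by `db05_nowhere` (applied to the open subsets of V₀).  By the Baire category theorem the union of the Z_c does not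
contain V₀ (for instance: the sets D_c = interior of the complement of Z_c are open and dense in the complete space ι → ℝ, `dense_iInter_of_isOpen` (countable index type {c // c ≠ 0}), and V₀ is open and
nonempty, so there is t ∈ V₀ ∩ ⋂ D_c; t ∈ V₀ and t ∉ Z_c).  For this t: p t, all 1 + t j > 0, and the family is linearly independent over ℚ: `Fintype.linearIndependent_iff` (sum over Option ι:
`Fintype.sum_option`; the action of ℚ on ℝ is multiplication by the cast: `Rat.smul_def`). -/
theorem gen_logs {A : ℝ} (hA : A ≠ 0) {L : ι → ℝ} (hL : ∀ j, 0 < L j) {p : (ι → ℝ) → Prop}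
    (hp : ∀ᶠ t in 𝓝 (0 : ι → ℝ), p t) :
    ∃ t, p t ∧ (∀ j, 0 < 1 + t j) ∧
      LinearIndependent ℚ (fun o : Option ι => o.elim A fun j => Real.log ((1 + t j) * L j)) := by
  classical
  have h1 : ∀ᶠ t in 𝓝 (0 : ι → ℝ), ∀ j, 0 < 1 + t j := by
    rw [eventually_all]
    intro j
    have hc : Continuous fun t : ι → ℝ => 1 + t j := by fun_prop
    refine hc.continuousAt.eventually (lt_mem_nhds ?_)
    simp
  obtain ⟨V₀, hV₀, hV₀o, h0⟩ := eventually_nhds_iff.1 (hp.and h1)
  have hpos : ∀ t ∈ V₀, ∀ j, 0 < 1 + t j := fun t ht => (hV₀ t ht).2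
  let D : {c : Option ι → ℚ // c ≠ 0} → Set (ι → ℝ) := fun c =>
    interior {t | t ∈ V₀ → (c.1 none : ℝ) * A + ∑ j, (c.1 (some j) : ℝ) * Real.log ((1 + t j) * L j) ≠ 0}
  have hdense : Dense (⋂ c, D c) := by
    refine dense_iInter_of_isOpen (fun c => isOpen_interior) fun c => ?_
    rw [dense_iff_inter_open]
    intro W hW hWne
    by_cases hWV : (W ∩ V₀).Nonempty
    · obtain ⟨V', hV', hV'o, ⟨t, ht⟩, hne⟩ := db05_nowhere hA hL c.2 (hW.inter hV₀o) hWV
        (fun t ht => hpos t ht.2)
      refine ⟨t, (hV' ht).1, ?_⟩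
      exact mem_interior.2 ⟨V', fun x hx _ => hne x hx, hV'o, ht⟩
    · obtain ⟨t, ht⟩ := hWne
      refine ⟨t, ht, mem_interior.2 ⟨W, fun x hx hxV => absurd ⟨x, hx, hxV⟩ hWV, hW, ht⟩⟩
  obtain ⟨t, htV, htD⟩ := hdense.inter_open_nonempty V₀ hV₀o ⟨0, h0⟩
  refine ⟨t, (hV₀ t htV).1, (hV₀ t htV).2, ?_⟩
  rw [Fintype.linearIndependent_iff]
  intro g hg
  by_contra hcon
  push Not at hcon
  obtain ⟨o, ho⟩ := hcon
  have hgne : g ≠ 0 := by
    intro h
    exact ho (by rw [h]; rfl)
  have h2 := mem_iInter.1 htD ⟨g, hgne⟩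
  have h3 := interior_subset h2 htV
  apply h3
  rw [Fintype.sum_option] at hg
  simpa [Rat.smul_def] using hg

/-- No resonances.

PROOF. Take logarithms (`Real.log_prod`, all Λ > 0): Σ_(j : Fin n) log Λ (t j) = log Λ a, and Σ_(j : Fin n) log Λ (t j) = Σ_b (card {j | t j = b}) log Λ b (`Finset.sum_fiberwise` /
`Finset.card_eq_sum_ones`).  So Σ_b (card {j | t j = b} - [b = a]) log Λ b = 0 is a rational relation; all its coefficients are 0 by independence (the family j ↦ log Λ j is linearly independent: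
composition of h with the injective map some, `LinearIndependent.comp`).  The sum of the coefficients is n - 1 ≥ 1: contradiction. -/
theorem nonresM {A : ℝ} {Λ : ι → ℝ} (hpos : ∀ j, 0 < Λ j)
    (h : LinearIndependent ℚ (fun o : Option ι => o.elim A fun j => Real.log (Λ j))) {n : ℕ} (hn : 2 ≤ n)
    (t : Fin n → ι) (a : ι) : ∏ j, Λ (t j) ≠ Λ a := by
  classical
  intro heq
  have hlog : ∑ j, Real.log (Λ (t j)) = Real.log (Λ a) := by
    rw [← heq, Real.log_prod]
    intro j _
    exact (hpos _).ne'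
  have hfib : ∑ j, Real.log (Λ (t j)) =
      ∑ b, ((Finset.univ.filter fun j => t j = b).card : ℝ) * Real.log (Λ b) := by
    rw [← Finset.sum_fiberwise Finset.univ t]
    refine Finset.sum_congr rfl fun b _ => ?_
    rw [Finset.sum_congr rfl (g := fun _ => Real.log (Λ b))]
    · rw [Finset.sum_const, nsmul_eq_mul]
    · intro x hx
      rw [(Finset.mem_filter.1 hx).2]
  rw [Fintype.linearIndependent_iff] at h
  let g : Option ι → ℚ := fun o => o.elim 0 fun b =>
    ((Finset.univ.filter fun j => t j = b).card : ℚ) - if b = a then 1 else 0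
  have hg0 : ∑ o, g o • (fun o : Option ι => o.elim A fun j => Real.log (Λ j)) o = 0 := by
    rw [Fintype.sum_option]
    have e : ∀ b, g (some b) • (fun o : Option ι => o.elim A fun j => Real.log (Λ j)) (some b) =
        ((Finset.univ.filter fun j => t j = b).card : ℝ) * Real.log (Λ b) -
          (if b = a then Real.log (Λ b) else 0) := by
      intro b
      simp only [g, Option.elim_some, Rat.smul_def, Rat.cast_sub, Rat.cast_natCast, sub_mul]
      by_cases hb : b = a
      · simp [hb]
      · simp [hb]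
    rw [Finset.sum_congr rfl fun b _ => e b, Finset.sum_sub_distrib, ← hfib, hlog]
    simp [g]
  have hg := h g hg0
  have hsum : ∑ b : ι, (((Finset.univ.filter fun j => t j = b).card : ℚ) - if b = a then 1 else 0) = 0 :=
    Finset.sum_eq_zero fun b _ => hg (some b)
  rw [Finset.sum_sub_distrib] at hsum
  have hcard : ∑ b : ι, ((Finset.univ.filter fun j => t j = b).card : ℚ) = n := by
    have := Finset.card_eq_sum_card_fiberwise (f := t) (s := (Finset.univ : Finset (Fin n)))
      (t := (Finset.univ : Finset ι)) (fun x _ => Finset.mem_coe.2 (Finset.mem_univ _))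
    rw [Finset.card_univ, Fintype.card_fin] at this
    rw [← Nat.cast_sum]
    exact_mod_cast this.symm
  rw [hcard] at hsum
  have h1 : ∑ b : ι, (if b = a then (1 : ℚ) else 0) = 1 := by simp
  rw [h1] at hsum
  have : (2 : ℚ) ≤ n := by exact_mod_cast hn
  linarith

/-- PROOF. If A / (log (Λ a) + log (Λ b)) = q is rational then A = q (log Λ a + log Λ b) (the denominator is ≠ 0 by independence: a ≠ b), a nontrivial rational relation between A, log Λ a, log Λ b:
contradiction.  `Real.log_mul`. -/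
theorem irr_of_indep {A : ℝ} {Λ : ι → ℝ} (hpos : ∀ j, 0 < Λ j)
    (h : LinearIndependent ℚ (fun o : Option ι => o.elim A fun j => Real.log (Λ j))) {a b : ι} (hab : a ≠ b) :
    Irrational (A / Real.log (Λ a * Λ b)) := by
  classical
  rw [Fintype.linearIndependent_iff] at h
  rw [Real.log_mul (hpos a).ne' (hpos b).ne']
  have key : ∀ x y : ℚ, (x : ℝ) * A + (y : ℝ) * (Real.log (Λ a) + Real.log (Λ b)) = 0 → x = 0 ∧ y = 0 := by
    intro x y hxy
    let g : Option ι → ℚ := fun o => o.elim x fun i => if i = a then y else if i = b then y else 0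
    have hg0 : ∑ o, g o • (fun o : Option ι => o.elim A fun j => Real.log (Λ j)) o = 0 := by
      rw [Fintype.sum_option]
      have e : ∀ i, g (some i) • (fun o : Option ι => o.elim A fun j => Real.log (Λ j)) (some i) =
          (if i = a then (y : ℝ) * Real.log (Λ a) else 0) + (if i = b then (y : ℝ) * Real.log (Λ b) else 0) := by
        intro i
        by_cases h1 : i = a
        · subst h1
          simp [g, hab, Rat.smul_def]
        · by_cases h2 : i = b
          · subst h2
            simp [g, h1, Rat.smul_def]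
          · simp [g, h1, h2, Rat.smul_def]
      rw [Finset.sum_congr rfl fun i _ => e i, Finset.sum_add_distrib]
      simp only [Finset.sum_ite_eq', Finset.mem_univ, if_true]
      simp only [g, Option.elim_none, Rat.smul_def]
      linarith
    have hg := h g hg0
    refine ⟨hg none, ?_⟩
    have := hg (some a)
    simpa [g] using this
  intro hq
  obtain ⟨q, hq⟩ := hq
  by_cases h0 : Real.log (Λ a) + Real.log (Λ b) = 0
  · have := (key 0 1 (by rw [h0]; simp)).2
    exact one_ne_zero this
  · have hA : A = q * (Real.log (Λ a) + Real.log (Λ b)) := by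
      rw [hq]
      field_simp
    have := (key 1 (-q) (by push_cast; rw [one_mul]; linarith)).1
    exact one_ne_zero this

end Pool.Agent.Lib.H37D
end

-- from Lib.Helper44.MarkedGroups.DST
section

set_option autoImplicit false

open MeasureTheory TopologicalSpace

namespace Pool.Agent.S14935Aux

/-- There is a Borel subset of `2^ω × ω^ω` whose projection to the first coordinate is not Borel. -/
theorem exists_measurable_nonmeasurable_proj :
    ∃ C : Set ((ℕ → Bool) × (ℕ → ℕ)), MeasurableSet C ∧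
      ¬ MeasurableSet {x : ℕ → Bool | ∃ y, (x, y) ∈ C} := by
  classical
  -- a countable basis, enumerated
  obtain ⟨U, hU⟩ : ∃ U : ℕ → Set ((ℕ → Bool) × (ℕ → ℕ)),
      IsTopologicalBasis (Set.range U) := by
    obtain ⟨b, hbc, -, hb⟩ := exists_countable_basis ((ℕ → Bool) × (ℕ → ℕ))
    have hne : b.Nonempty := by
      by_contra h
      rw [Set.not_nonempty_iff_eq_empty] at h
      have := hb.sUnion_eq
      rw [h, Set.sUnion_empty] at this
      exact absurd this.symm (Set.nonempty_iff_univ_nonempty.mp inferInstance |>.ne_empty)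
    obtain ⟨U, hU⟩ := hbc.exists_eq_range hne
    exact ⟨U, hU ▸ hb⟩
  let C : Set ((ℕ → Bool) × (ℕ → ℕ)) := {p | ∀ n, p.1 n = true → p ∉ U n}
  have hC : MeasurableSet C := by
    have : C = ⋂ n, ({p : (ℕ → Bool) × (ℕ → ℕ) | p.1 n = true}ᶜ ∪ (U n)ᶜ) := by
      ext p
      simp only [C, Set.mem_ofPred_eq, Set.mem_iInter, Set.mem_union, Set.mem_compl_iff]
      constructor
      · intro h n
        by_cases hn : p.1 n = true
        · right; exact h n hn
        · left; exact hn
      · intro h n hn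
        rcases h n with h | h
        · exact absurd hn h
        · exact h
    rw [this]
    refine MeasurableSet.iInter fun n => MeasurableSet.union ?_ ?_
    · apply MeasurableSet.compl
      have : Measurable fun p : (ℕ → Bool) × (ℕ → ℕ) => p.1 n :=
        (measurable_pi_apply n).comp measurable_fst
      exact this (measurableSet_singleton true)
    · apply MeasurableSet.compl
      exact (hU.isOpen (Set.mem_range_self n)).measurableSet
  refine ⟨C, hC, fun hD => ?_⟩
  -- the complement is analytic, hence the projection of a closed set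
  have : PolishSpace (ℕ → Bool) :=
    { toSecondCountableTopology := inferInstance
      toIsCompletelyMetrizableSpace := inferInstance }
  have hDc : AnalyticSet {x : ℕ → Bool | ∃ y, (x, y) ∈ C}ᶜ := hD.compl.analyticSet
  obtain ⟨F, hF, hFproj⟩ : ∃ F : Set ((ℕ → Bool) × (ℕ → ℕ)), IsClosed F ∧
      ∀ x, x ∈ {x : ℕ → Bool | ∃ y, (x, y) ∈ C}ᶜ ↔ ∃ y, (x, y) ∈ F := by
    rw [AnalyticSet] at hDc
    rcases hDc with h | ⟨f, hf, hfr⟩
    · refine ⟨∅, isClosed_empty, fun x => ?_⟩
      rw [h]
      simp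
    · refine ⟨{p | p.1 = f p.2}, isClosed_eq continuous_fst (hf.comp continuous_snd), fun x => ?_⟩
      rw [← hfr]
      simp only [Set.mem_range, Set.mem_ofPred_eq]
      exact ⟨fun ⟨y, hy⟩ => ⟨y, hy.symm⟩, fun ⟨y, hy⟩ => ⟨y, hy.symm⟩⟩
  let c : ℕ → Bool := fun n => decide (U n ⊆ Fᶜ)
  have hc : ∀ y, (c, y) ∈ C ↔ (c, y) ∈ F := by
    intro y
    constructor
    · intro h
      by_contra hn
      obtain ⟨V, ⟨n, rfl⟩, hV, hVF⟩ := hU.exists_subset_of_mem_open (Set.mem_compl hn)
        hF.isOpen_compl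
      exact h n (by simp [c, hVF]) hV
    · intro h n hn hmem
      have : U n ⊆ Fᶜ := by simpa [c] using hn
      exact this hmem h
  have h1 := hFproj c
  simp only [Set.mem_compl_iff, Set.mem_ofPred_eq] at h1
  have h2 : (∃ y, (c, y) ∈ C) ↔ ∃ y, (c, y) ∈ F :=
    ⟨fun ⟨y, hy⟩ => ⟨y, (hc y).1 hy⟩, fun ⟨y, hy⟩ => ⟨y, (hc y).2 hy⟩⟩
  rw [h2] at h1
  tauto

end Pool.Agent.S14935Aux
end

-- from Lib.H37D.DB06a
section

/-! # H37D, chunk DB06a (M, pure): the homological equation in an eigenbasis -/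

open Set Filter Topology Asymptotics
open scoped ContDiff

namespace Pool.Agent.Lib.H37D

variable {V ι : Type} [NormedAddCommGroup V] [NormedSpace ℝ V] [FiniteDimensional ℝ V] [Fintype ι]

/-- Expansion of a multilinear map in a basis.

PROOF. v = Σ_a (b.repr v a) • b a (`Module.Basis.sum_repr`), `ContinuousMultilinearMap.map_sum` (or `MultilinearMap.map_sum`) for the n equal arguments and
`ContinuousMultilinearMap.map_smul_univ`. -/
theorem db06_expand (b : Module.Basis ι ℝ V) {n : ℕ} (M : (V [×n]→L[ℝ] V)) (v : V) :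
    M (fun _ => v) = ∑ t : Fin n → ι, (∏ j, b.repr v (t j)) • M (fun j => b (t j)) := by
  classical
  have h : (fun _ : Fin n => v) = fun _ : Fin n => ∑ a, b.repr v a • b a := by
    funext _
    exact (b.sum_repr v).symm
  rw [h, M.map_sum]
  refine Finset.sum_congr rfl fun t _ => ?_
  exact M.map_smul_univ (fun j => b.repr v (t j)) (fun j => b (t j))

/-- The homological equation.

PROOF. Λ^t = ∏_j Λ (t j).  H(v) = Σ_t (∏_j (b.repr v (t j))) • Σ_a ((b.repr (M (b ∘ t)) a) / (Λ^t - Λ a)) • b a.  Smooth: v ↦ b.repr v a is linear (continuous in finite dimension: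
`LinearMap.toContinuousLinearMap` of `b.coord a`), finite products and sums.  H = O(‖v‖^n): |b.repr v a| ≤ C ‖v‖.  b.repr (L v) a = Λ a * b.repr v a (expand v in the basis, hΛ), so
∏_j b.repr (L v) (t j) = Λ^t ∏_j b.repr v (t j) (`Finset.prod_mul_distrib`).  L(H v) - H(L v) = Σ_t ∏.. • Σ_a (b.repr (M(b∘t)) a) (Λ a - Λ^t)/(Λ^t - Λ a) • b a = - Σ_t ∏.. • M (b ∘ t) =
- M (v,..,v) (`db06_expand`, Λ^t ≠ Λ a by hnr, `Module.Basis.sum_repr`). -/
theorem homol (b : Module.Basis ι ℝ V) {L : V →L[ℝ] V} {Λ : ι → ℝ} (hΛ : ∀ a, L (b a) = Λ a • b a) {n : ℕ}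
    (hnr : ∀ (t : Fin n → ι) (a : ι), ∏ j, Λ (t j) ≠ Λ a) (M : (V [×n]→L[ℝ] V)) :
    ∃ H : V → V, ContDiff ℝ ∞ H ∧ (H =O[𝓝 0] fun v => ‖v‖ ^ n) ∧
      ∀ v, L (H v) - H (L v) = - M (fun _ => v) := by
  classical
  -- the coordinates
  have hrepr : ∀ v a, b.repr (L v) a = Λ a * b.repr v a := by
    intro v a
    have h1 : L v = ∑ c, (b.repr v c * Λ c) • b c := by
      conv_lhs => rw [← b.sum_repr v]
      rw [map_sum]
      refine Finset.sum_congr rfl fun c _ => ?_
      rw [map_smul, hΛ, smul_smul]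
    rw [h1, b.repr_sum_self]
    ring
  have hcd : ∀ a, ContDiff ℝ ∞ (fun v => b.repr v a) := by
    intro a
    exact (LinearMap.toContinuousLinearMap (b.coord a)).contDiff
  have hbd : ∀ a v, ‖b.repr v a‖ ≤ ‖LinearMap.toContinuousLinearMap (b.coord a)‖ * ‖v‖ := by
    intro a v
    exact (LinearMap.toContinuousLinearMap (b.coord a)).le_opNorm v
  obtain ⟨W, hW⟩ : ∃ W : (Fin n → ι) → V, ∀ t, W t = ∑ a,
      ((b.repr (M (fun j => b (t j))) a) / (∏ j, Λ (t j) - Λ a)) • b a := ⟨_, fun _ => rfl⟩
  refine ⟨fun v => ∑ t : Fin n → ι, (∏ j, b.repr v (t j)) • W t, ?_, ?_, ?_⟩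
  · apply ContDiff.sum
    intro t _
    apply ContDiff.smul
    · apply contDiff_prod
      intro j _
      exact hcd (t j)
    · exact contDiff_const
  · apply IsBigO.fun_sum
    intro t _
    apply IsBigO.of_bound ((∏ j, ‖LinearMap.toContinuousLinearMap (b.coord (t j))‖) * ‖W t‖)
    apply Filter.Eventually.of_forall
    intro v
    rw [norm_smul, norm_prod, norm_pow, norm_norm]
    have h1 : ∏ j, ‖b.repr v (t j)‖ ≤
        ∏ j, (‖LinearMap.toContinuousLinearMap (b.coord (t j))‖ * ‖v‖) :=
      Finset.prod_le_prod (fun j _ => norm_nonneg _) (fun j _ => hbd (t j) v)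
    rw [Finset.prod_mul_distrib, Finset.prod_const, Finset.card_univ, Fintype.card_fin] at h1
    calc (∏ j, ‖b.repr v (t j)‖) * ‖W t‖ ≤
        ((∏ j, ‖LinearMap.toContinuousLinearMap (b.coord (t j))‖) * ‖v‖ ^ n) * ‖W t‖ :=
          mul_le_mul_of_nonneg_right h1 (norm_nonneg _)
      _ = _ := by ring
  · intro v
    rw [db06_expand b M v, map_sum, ← Finset.sum_sub_distrib, ← Finset.sum_neg_distrib]
    refine Finset.sum_congr rfl fun t _ => ?_
    have h1 : ∏ j, b.repr (L v) (t j) = (∏ j, Λ (t j)) * ∏ j, b.repr v (t j) := by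
      rw [← Finset.prod_mul_distrib]
      exact Finset.prod_congr rfl fun j _ => hrepr v (t j)
    have h2 : L (W t) - (∏ j, Λ (t j)) • W t = - M (fun j => b (t j)) := by
      rw [hW, map_sum, Finset.smul_sum, ← Finset.sum_sub_distrib,
        ← b.sum_repr (M (fun j => b (t j))), ← Finset.sum_neg_distrib]
      refine Finset.sum_congr rfl fun a _ => ?_
      rw [b.sum_repr, map_smul, hΛ, smul_smul, smul_smul, ← sub_smul, ← neg_smul]
      congr 1
      have h3 : ∏ j, Λ (t j) - Λ a ≠ 0 := sub_ne_zero.2 (hnr t a)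
      field_simp
      ring
    rw [h1, map_smul, mul_comm, mul_smul, ← smul_sub, h2, smul_neg]

end Pool.Agent.Lib.H37D
end

-- from Lib.H37N.T9
section

/-! # H37N, chunk T9 (S): open mapping with parameters -/

open Set Filter Topology Asymptotics
open scoped ContDiff

namespace Pool.Agent.Lib.H37N

variable {P Q Z : Type} [NormedAddCommGroup P] [NormedSpace ℝ P] [CompleteSpace P]
  [NormedAddCommGroup Q] [NormedSpace ℝ Q] [CompleteSpace Q] [NormedAddCommGroup Z] [NormedSpace ℝ Z] [CompleteSpace Z]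

/-- T9.

PROOF. The map (p,q) ↦ (p, Φ(p,q)) has at (p₀,q₀) the strict derivative (u,v) ↦ (u, DΦ(u,v)) (`ContDiffAt.hasStrictFDerivAt`), which is surjective because the partial derivative in q
(= DΦ ∘ inr, chain rule) is.  `HasStrictFDerivAt.map_nhds_eq_of_surj`: the image of the neighbourhood univ ×ˢ B (of (p₀,q₀)) is a neighbourhood of (p₀, Φ(p₀,q₀)). -/
theorem open_param {Φ : P × Q → Z} {p₀ : P} {q₀ : Q} (hΦ : ContDiffAt ℝ 1 Φ (p₀, q₀))
    (hs : Function.Surjective (fderiv ℝ (fun q => Φ (p₀, q)) q₀)) {B : Set Q} (hB : B ∈ 𝓝 q₀) :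
    ∀ᶠ r : P × Z in 𝓝 (p₀, Φ (p₀, q₀)), ∃ q ∈ B, Φ (r.1, q) = r.2 := by
  have h1 : HasStrictFDerivAt Φ (fderiv ℝ Φ (p₀, q₀)) (p₀, q₀) :=
    hΦ.hasStrictFDerivAt (by simp)
  have h2 : HasStrictFDerivAt (fun x : P × Q => (x.1, Φ x))
      ((ContinuousLinearMap.fst ℝ P Q).prod (fderiv ℝ Φ (p₀, q₀))) (p₀, q₀) :=
    hasStrictFDerivAt_fst.prodMk h1
  have h3 : fderiv ℝ (fun q => Φ (p₀, q)) q₀ =
      (fderiv ℝ Φ (p₀, q₀)).comp (ContinuousLinearMap.inr ℝ P Q) := by
    have h4 : HasFDerivAt (fun q : Q => (p₀, q)) (ContinuousLinearMap.inr ℝ P Q) q₀ :=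
      hasFDerivAt_prodMk_right p₀ q₀
    exact (h1.hasFDerivAt.comp q₀ h4).fderiv
  have h5 : ((ContinuousLinearMap.fst ℝ P Q).prod (fderiv ℝ Φ (p₀, q₀))).range = ⊤ := by
    rw [LinearMap.range_eq_top]
    rintro ⟨u, w⟩
    obtain ⟨v, hv⟩ := hs (w - fderiv ℝ Φ (p₀, q₀) (u, 0))
    refine ⟨(u, v), ?_⟩
    rw [h3] at hv
    have h6 : fderiv ℝ Φ (p₀, q₀) (0, v) = w - fderiv ℝ Φ (p₀, q₀) (u, 0) := hv
    have h7 : fderiv ℝ Φ (p₀, q₀) (u, v) = w := by
      have h8 : ((u, v) : P × Q) = (u, 0) + (0, v) := by simp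
      rw [h8, map_add, h6]
      abel
    exact Prod.ext rfl h7
  have h9 := h2.map_nhds_eq_of_surj h5
  have h10 : (univ ×ˢ B : Set (P × Q)) ∈ 𝓝 (p₀, q₀) := prod_mem_nhds univ_mem hB
  have h11 : (fun x : P × Q => (x.1, Φ x)) '' (univ ×ˢ B) ∈ 𝓝 (p₀, Φ (p₀, q₀)) := by
    rw [← h9]
    exact image_mem_map h10
  filter_upwards [h11] with r hr
  obtain ⟨⟨p, q⟩, ⟨-, hq⟩, rfl⟩ := hr
  exact ⟨q, hq, rfl⟩

end Pool.Agent.Lib.H37N
end

-- from Lib.H37C.TDefs
section

/-!
# Trees of finite sequences and the Kleene-Brouwer order: definitions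
-/

open TopologicalSpace Set Filter Topology

namespace Pool.Agent.Lib.H37C

/-- a tree: a set of lists closed under initial segments -/
def IsTree (T : Set (List ℕ)) : Prop := ∀ s ∈ T, ∀ t, t <+: s → t ∈ T

/-- the list of the first `k` values of `y` -/
def pre (y : ℕ → ℕ) (k : ℕ) : List ℕ := (List.range k).map y

/-- the tree has an infinite branch -/
def HasBranch (T : Set (List ℕ)) : Prop := ∃ y : ℕ → ℕ, ∀ k, pre y k ∈ T

/-- the list `s` followed by infinitely many symbols `∞` -/
def pad (s : List ℕ) (i : ℕ) : WithTop ℕ :=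
  match s[i]? with
  | none => ⊤
  | some a => (a : WithTop ℕ)

/-- the Kleene-Brouwer order: `s < t` if `s` is smaller than `t` at the first difference of the
padded sequences; so a longer list is smaller than its initial segments -/
def KB (s t : List ℕ) : Prop := ∃ i, (∀ j < i, pad s j = pad t j) ∧ pad s i < pad t i

open Classical in
/-- The linear order of all lists attached to a tree `T`: first the lists which are not in `T`, in
the order of their codes, then the members of `T` in the Kleene-Brouwer order. -/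
def TOrd (T : Set (List ℕ)) (s t : List ℕ) : Prop :=
  (s ∉ T ∧ t ∈ T) ∨ (s ∉ T ∧ t ∉ T ∧ Encodable.encode s < Encodable.encode t) ∨
    (s ∈ T ∧ t ∈ T ∧ KB s t)

end Pool.Agent.Lib.H37C
end

-- from Lib.H37C.T1
section

open TopologicalSpace Set Filter Topology

namespace Pool.Agent.Lib.H37C

theorem t1_inj {s t : List ℕ} (h : ∀ i, pad s i = pad t i) : s = t := by
  apply List.ext_getElem?
  intro i
  have h1 := h i
  unfold pad at h1
  cases hs : s[i]? with
  | none =>
    cases ht : t[i]? with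
    | none => rfl
    | some b =>
      rw [hs, ht] at h1
      exact absurd h1.symm (WithTop.coe_ne_top)
  | some a =>
    cases ht : t[i]? with
    | none =>
      rw [hs, ht] at h1
      exact absurd h1 (WithTop.coe_ne_top)
    | some b =>
      rw [hs, ht] at h1
      have h2 : a = b := WithTop.coe_injective h1
      rw [h2]

theorem t1_pre_lt (y : ℕ → ℕ) {k j : ℕ} (h : j < k) : pad (pre y k) j = (y j : WithTop ℕ) := by
  have h1 : (pre y k)[j]? = some (y j) := by
    unfold pre
    rw [List.getElem?_map, List.getElem?_range h]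
    rfl
  unfold pad
  rw [h1]

theorem t1_pre_ge (y : ℕ → ℕ) {k j : ℕ} (h : k ≤ j) : pad (pre y k) j = ⊤ := by
  have h1 : (pre y k)[j]? = none := by
    unfold pre
    rw [List.getElem?_eq_none]
    simpa using h
  unfold pad
  rw [h1]

theorem t1_tri (s t : List ℕ) (h1 : ¬ KB s t) (h2 : ¬ KB t s) : s = t := by
  classical
  by_contra hne
  have hex : ∃ i, pad s i ≠ pad t i := by
    by_contra hcon
    push Not at hcon
    exact hne (t1_inj hcon)
  have hf := Nat.find_spec hex
  have hm : ∀ j < Nat.find hex, pad s j = pad t j := fun j hj => by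
    have := Nat.find_min hex hj
    push Not at this
    exact this
  rcases lt_or_gt_of_ne hf with h | h
  · exact h1 ⟨_, hm, h⟩
  · exact h2 ⟨_, fun j hj => (hm j hj).symm, h⟩

theorem t1_irrefl (s : List ℕ) : ¬ KB s s := by
  rintro ⟨i, -, h⟩
  exact lt_irrefl _ h

theorem t1_trans (s t u : List ℕ) (h1 : KB s t) (h2 : KB t u) : KB s u := by
  obtain ⟨i, hi, hi'⟩ := h1
  obtain ⟨j, hj, hj'⟩ := h2
  rcases lt_trichotomy i j with h | h | h
  · refine ⟨i, fun l hl => (hi l hl).trans (hj l (hl.trans h)), ?_⟩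
    rw [← hj i h]
    exact hi'
  · subst h
    exact ⟨i, fun l hl => (hi l hl).trans (hj l hl), hi'.trans hj'⟩
  · refine ⟨j, fun l hl => (hi l (hl.trans h)).trans (hj l hl), ?_⟩
    rw [hi j h]
    exact hj'


/-- **T1, second part.** Initial segments: `pre y (k+1)` is smaller than `pre y k`.

Proof: the padded sequences agree below `k`; at `k` the first one has the value `y k < ⊤`. -/
theorem kb_pre (y : ℕ → ℕ) (k : ℕ) : KB (pre y (k + 1)) (pre y k) := by
  refine ⟨k, fun j hj => ?_, ?_⟩
  · rw [t1_pre_lt y hj, t1_pre_lt y (Nat.lt_succ_of_lt hj)]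
  · rw [t1_pre_lt y (Nat.lt_succ_self k), t1_pre_ge y le_rfl]
    exact WithTop.coe_lt_top _

end Pool.Agent.Lib.H37C
end

-- from Lib.H37C.T1B
section

open TopologicalSpace Set Filter Topology

namespace Pool.Agent.Lib.H37C

theorem t1b_some {s : List ℕ} {i a : ℕ} (h : pad s i = (a : WithTop ℕ)) : s[i]? = some a := by
  unfold pad at h
  cases hs : s[i]? with
  | none =>
    rw [hs] at h
    exact absurd h.symm (WithTop.coe_ne_top)
  | some b =>
    rw [hs] at h
    have h2 : b = a := WithTop.coe_injective h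
    rw [h2]

theorem t1b_none {s : List ℕ} {i j : ℕ} (h : pad s i = ⊤) (hij : i ≤ j) : pad s j = ⊤ := by
  have h1 : s[i]? = none := by
    unfold pad at h
    cases hs : s[i]? with
    | none => rfl
    | some b =>
      rw [hs] at h
      exact absurd h (WithTop.coe_ne_top)
  have h2 : s[j]? = none := by
    rw [List.getElem?_eq_none_iff] at h1 ⊢
    exact h1.trans hij
  unfold pad
  rw [h2]

theorem t1b_step {f : ℕ → ℕ → WithTop ℕ} (hd : ∀ n, ∃ i, (∀ j < i, f (n + 1) j = f n j) ∧ f (n + 1) i < f n i) (i : ℕ) :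
    ∃ N, ∀ n, N ≤ n → ∀ j < i, f n j = f N j := by
  induction i with
  | zero => exact ⟨0, fun n _ j hj => absurd hj (Nat.not_lt_zero j)⟩
  | succ i ih =>
    obtain ⟨N, hN⟩ := ih
    have h1 : ∀ m, f (N + m + 1) i ≤ f (N + m) i := by
      intro m
      obtain ⟨k, hk, hk'⟩ := hd (N + m)
      rcases lt_trichotomy k i with h | h | h
      · rw [hN (N + m + 1) (by omega) k h, hN (N + m) (by omega) k h] at hk'
        exact absurd hk' (lt_irrefl _)
      · subst h
        exact hk'.le
      · exact (hk i h).le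
    have hanti : Antitone fun m => f (N + m) i := antitone_nat_of_succ_le h1
    obtain ⟨x, ⟨M, hM⟩, hmin⟩ := WellFounded.has_min (wellFounded_lt (α := WithTop ℕ)) (Set.range fun m => f (N + m) i) ⟨_, 0, rfl⟩
    have hM' : f (N + M) i = x := hM
    refine ⟨N + M, fun n hn j hj => ?_⟩
    rcases Nat.lt_succ_iff_lt_or_eq.1 hj with h | h
    · rw [hN n (by omega) j h, hN (N + M) (by omega) j h]
    · subst h
      obtain ⟨m, rfl⟩ : ∃ m, n = N + m := ⟨n - N, by omega⟩
      refine le_antisymm (hanti (show M ≤ m by omega)) ?_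
      rw [hM']
      exact not_lt.1 (hmin _ ⟨m, rfl⟩)

/-- **T1B.** A strictly descending sequence for the Kleene-Brouwer order in a tree gives an infinite
branch.

Proof. Claim: for each `i` there is `N i` such that for all `n ≥ N i` and all `j < i`,
`pad (s n) j = pad (s (N i)) j`, that is, the first `i` coordinates are eventually constant:
induction on `i`. If the coordinates `j < i` are constant for `n ≥ N`, then for `n ≥ N`, by
`KB (s (n+1)) (s n)`, the first difference of `s (n+1)` and `s n` is at an index `≥ i`, hence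
`pad (s (n+1)) i ≤ pad (s n) i`; a non-increasing sequence in the well-order `WithTop ℕ` is
eventually constant (take a minimum of the values, `WellFounded.min`, or induction).
Let `z i` be the eventual value of the coordinate `i`. If `z i = ⊤` for some `i`, take `n ≥ N (i+1)`:
all `s n` with `n ≥ N (i+1)` have the same first coordinates `j ≤ i`, and the coordinate `i` is `⊤`,
so `s n` has length at most `i` and is determined by its first `i` coordinates; hence
`s n = s (n+1)`, a contradiction to irreflexivity (`kb_sto`). So `z i = y i` is a natural number,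
and for `n ≥ N k` the list `pre y k` is an initial segment of `s n`, hence in `T`. -/
theorem hasBranch_of_desc (T : Set (List ℕ)) (hT : IsTree T) (s : ℕ → List ℕ)
    (hs : ∀ n, s n ∈ T) (hd : ∀ n, KB (s (n + 1)) (s n)) : HasBranch T := by
  have hd' : ∀ n, ∃ i, (∀ j < i, pad (s (n + 1)) j = pad (s n) j) ∧ pad (s (n + 1)) i < pad (s n) i := hd
  choose N hN using t1b_step (f := fun n j => pad (s n) j) hd'
  have hN' : ∀ k n, N k ≤ n → ∀ j < k, pad (s n) j = pad (s (N k)) j := hN
  by_cases hz : ∃ i, pad (s (N (i + 1))) i = ⊤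
  · obtain ⟨i, hi⟩ := hz
    exfalso
    have h1 : ∀ n, N (i + 1) ≤ n → pad (s n) i = ⊤ := fun n hn => by
      rw [hN' (i + 1) n hn i (Nat.lt_succ_self i), hi]
    have h2 : s (N (i + 1) + 1) = s (N (i + 1)) := by
      apply t1_inj
      intro j
      rcases Nat.lt_or_ge j (i + 1) with h | h
      · exact hN' (i + 1) _ (Nat.le_succ _) j h
      · rw [t1b_none (h1 _ (Nat.le_succ _)) (by omega), t1b_none (h1 _ le_rfl) (by omega)]
    have h3 := hd (N (i + 1))
    rw [h2] at h3
    exact t1_irrefl _ h3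
  · push Not at hz
    have hy : ∀ i, ∃ a : ℕ, pad (s (N (i + 1))) i = (a : WithTop ℕ) := fun i => by
      obtain ⟨a, ha⟩ := WithTop.ne_top_iff_exists.1 (hz i)
      exact ⟨a, ha.symm⟩
    choose y hy' using hy
    refine ⟨y, fun k => ?_⟩
    have h1 : ∀ j < k, pad (s (N k)) j = (y j : WithTop ℕ) := fun j hj => by
      have h2 := hN' k (max (N k) (N (j + 1))) (le_max_left _ _) j hj
      have h3 := hN' (j + 1) (max (N k) (N (j + 1))) (le_max_right _ _) j (Nat.lt_succ_self j)
      rw [← h2, h3, hy']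
    have h2 : pre y k = (s (N k)).take k := by
      apply List.ext_getElem?
      intro j
      rcases Nat.lt_or_ge j k with h | h
      · rw [List.getElem?_take_of_lt h, t1b_some (h1 j h)]
        exact t1b_some (t1_pre_lt y h)
      · have h3 : (pre y k)[j]? = none := by
          unfold pre
          rw [List.getElem?_eq_none]
          simpa using h
        rw [h3, List.getElem?_take_eq_none h]
    rw [h2]
    exact hT _ (hs (N k)) _ (List.take_prefix k _)

end Pool.Agent.Lib.H37C
end

-- from Lib.H37C.T2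
section

open TopologicalSpace Set Filter Topology

namespace Pool.Agent.Lib.H37C

/-- **T2.** The order `TOrd T` is a strict total order (for every set `T` of lists).

Proof: it is the sum of the order of the codes on the complement of `T` and of the order `KB` on `T`
(`kb_sto`); case distinctions. -/
theorem tord_sto (T : Set (List ℕ)) : IsStrictTotalOrder (List ℕ) (TOrd T) := by
  refine { trichotomous := ?_, irrefl := ?_, trans := ?_ }
  · intro s t h1 h2
    unfold TOrd at h1 h2
    push Not at h1 h2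
    by_cases hs : s ∈ T
    · by_cases ht : t ∈ T
      · exact t1_tri s t (h1.2.2 hs ht) (h2.2.2 ht hs)
      · exact absurd hs (h2.1 ht)
    · by_cases ht : t ∈ T
      · exact absurd ht (h1.1 hs)
      · exact Encodable.encode_injective
          (le_antisymm (h2.2.1 ht hs) (h1.2.1 hs ht))
  · rintro s (h | h | h)
    · exact h.1 h.2
    · exact lt_irrefl _ h.2.2
    · exact t1_irrefl s h.2.2
  · rintro s t u (h | h | h) (g | g | g)
    · exact absurd h.2 g.1
    · exact absurd h.2 g.1
    · exact Or.inl ⟨h.1, g.2.1⟩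
    · exact Or.inl ⟨h.1, g.2⟩
    · exact Or.inr (Or.inl ⟨h.1, g.2.1, h.2.2.trans g.2.2⟩)
    · exact absurd g.1 h.2.1
    · exact absurd h.2.1 g.1
    · exact absurd h.2.1 g.1
    · exact Or.inr (Or.inr ⟨h.1, g.2.1, t1_trans s t u h.2.2 g.2.2⟩)

/-- **T2, second part.** The order `TOrd T` of a tree `T` is not well-founded if and only if `T` has
an infinite branch.

Proof. If `T` has a branch `y`, the sequence `pre y k` is strictly descending (`kb_pre`), and no
relation with a descending sequence is well-founded (`RelEmbedding.wellFounded_iff_isEmpty`, or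
`WellFounded.not_...`). Conversely, if it is not well-founded, there is a sequence with
`TOrd T (s (n+1)) (s n)` for all `n` (`RelEmbedding.wellFounded_iff_isEmpty`,
`exists_not_acc_lt_of_not_acc`...). If all `s n` are not in `T`, the codes descend forever, a
contradiction. If some `s n` is not in `T` then all later ones are not in `T`, same contradiction.
So all `s n` are in `T` and `hasBranch_of_desc` applies. -/
theorem tord_wf (T : Set (List ℕ)) (hT : IsTree T) : ¬ WellFounded (TOrd T) ↔ HasBranch T := by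
  rw [wellFounded_iff_isEmpty_descending_chain, not_isEmpty_iff]
  constructor
  · rintro ⟨⟨f, hf⟩⟩
    have hmem : ∀ n, f n ∈ T := by
      by_contra hcon
      push Not at hcon
      obtain ⟨n, hn⟩ := hcon
      have hall : ∀ m, f (n + m) ∉ T := by
        intro m
        induction m with
        | zero => exact hn
        | succ m ih =>
          rcases hf (n + m) with h | h | h
          · exact absurd h.2 ih
          · exact h.1
          · exact absurd h.2.1 ih
      have hdec : ∀ m, Encodable.encode (f (n + (m + 1))) < Encodable.encode (f (n + m)) := by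
        intro m
        rcases hf (n + m) with h | h | h
        · exact absurd h.2 (hall m)
        · exact h.2.2
        · exact absurd h.2.1 (hall m)
      have hbd : ∀ m, Encodable.encode (f (n + m)) + m ≤ Encodable.encode (f (n + 0)) := by
        intro m
        induction m with
        | zero => exact le_rfl
        | succ m ih =>
          have := hdec m
          omega
      have := hbd (Encodable.encode (f (n + 0)) + 1)
      omega
    refine hasBranch_of_desc T hT f hmem ?_
    intro n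
    rcases hf n with h | h | h
    · exact absurd (hmem _) h.1
    · exact absurd (hmem _) h.1
    · exact h.2.2
  · rintro ⟨y, hy⟩
    exact ⟨⟨fun k => pre y k, fun k => Or.inr (Or.inr ⟨hy _, hy _, kb_pre y k⟩)⟩⟩

/-- **T2, third part.** If the set `{x | s ∈ T x}` is clopen for all lists `s`, then
`{x | TOrd (T x) s t}` is clopen for all `s, t`. -/
theorem tord_clopen {X : Type*} [TopologicalSpace X] (T : X → Set (List ℕ))
    (hT : ∀ s, IsClopen {x | s ∈ T x}) (s t : List ℕ) : IsClopen {x | TOrd (T x) s t} := by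
  have hc : ∀ p : Prop, IsClopen {_x : X | p} := by
    intro p
    by_cases h : p
    · simpa [h] using isClopen_univ
    · simpa [h] using isClopen_empty
  have e : {x | TOrd (T x) s t} = ({x | s ∈ T x}ᶜ ∩ {x | t ∈ T x}) ∪
      (({x | s ∈ T x}ᶜ ∩ ({x | t ∈ T x}ᶜ ∩ {_x | Encodable.encode s < Encodable.encode t})) ∪
        ({x | s ∈ T x} ∩ ({x | t ∈ T x} ∩ {_x | KB s t}))) := by
    ext x
    rfl
  rw [e]
  exact ((hT s).compl.inter (hT t)).union
    (((hT s).compl.inter ((hT t).compl.inter (hc _))).union ((hT s).inter ((hT t).inter (hc _))))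

end Pool.Agent.Lib.H37C
end

-- from Lib.H37C.T2B
section

open TopologicalSpace Set Filter Topology MeasureTheory

namespace Pool.Agent.Lib.H37C

theorem t2b_pre_len (y : ℕ → ℕ) (k : ℕ) : (pre y k).length = k := by
  simp [pre]

theorem t2b_pre_prefix (y : ℕ → ℕ) (s t : List ℕ) (hs : pre y s.length = s) (ht : t <+: s) :
    pre y t.length = t := by
  have h1 : t = s.take t.length := List.prefix_iff_eq_take.1 ht
  have h2 : t.length ≤ s.length := ht.length_le
  have h3 : pre y t.length = (pre y s.length).take t.length := by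
    unfold pre
    rw [← List.map_take, List.take_range, min_eq_left h2]
  rw [h3, hs]
  exact h1.symm

theorem t2b_pre_get (y y' : ℕ → ℕ) (k : ℕ) (h : pre y k = pre y' k) : ∀ i < k, y i = y' i := by
  intro i hi
  have h1 := congrArg (fun l : List ℕ => l[i]?) h
  unfold pre at h1
  simpa [List.getElem?_map, List.getElem?_range hi] using h1

/-- **T2B.** Every analytic set of `2^ℕ` is the set of all `x` such that the tree `T x` has an
infinite branch, for a family of trees depending continuously on `x`.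

Proof. If `A = ∅`, take `T x = ∅`. Otherwise `A = range g` with `g : (ℕ → ℕ) → (ℕ → Bool)`
continuous (definition of `AnalyticSet`). Put
`T x = {s | ∃ y : ℕ → ℕ, pre y s.length = s ∧ ∀ i < s.length, g y i = x i}`.
Tree: the same `y` works for the initial segments. Clopen: `s ∈ T x` depends only on the
coordinates `x i`, `i < s.length`, so the set is a union of finitely many (or: an open set with open
complement) cylinders; e.g. it is the preimage of a subset of the discrete space
`Fin s.length → Bool` under a continuous map. If `x = g y`, then `pre y k ∈ T x` for all `k`.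
Conversely let `y` be a branch of `T x`: for each `k` there is `y k` with `pre (y k) k = pre y k` and
`g (y k) i = x i` for `i < k`. Then `y k → y` (`tendsto_pi_nhds`, discrete coordinates), so
`g (y k) → g y`, and also `g (y k) → x`. Hence `g y = x ∈ A`. -/
theorem exists_trees (A : Set (ℕ → Bool)) (hA : AnalyticSet A) :
    ∃ T : (ℕ → Bool) → Set (List ℕ), (∀ x, IsTree (T x)) ∧ (∀ s, IsClopen {x | s ∈ T x}) ∧
      ∀ x, x ∈ A ↔ HasBranch (T x) := by
  rw [AnalyticSet] at hA
  rcases hA with rfl | ⟨g, hg, rfl⟩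
  · refine ⟨fun _ => ∅, fun x s hs => absurd hs (by simp), fun s => by simpa using isClopen_empty,
      fun x => ?_⟩
    constructor
    · intro h; exact absurd h (by simp)
    · rintro ⟨y, hy⟩; exact absurd (hy 0) (by simp)
  · refine ⟨fun x => {s | ∃ y : ℕ → ℕ, pre y s.length = s ∧ ∀ i < s.length, g y i = x i},
      ?_, ?_, ?_⟩
    · rintro x s ⟨y, hy, hyx⟩ t ht
      exact ⟨y, t2b_pre_prefix y s t hy ht, fun i hi => hyx i (lt_of_lt_of_le hi ht.length_le)⟩
    · intro s
      have e : {x : ℕ → Bool | s ∈ {s | ∃ y : ℕ → ℕ, pre y s.length = s ∧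
          ∀ i < s.length, g y i = x i}} =
          (fun (x : ℕ → Bool) (i : Fin s.length) => x i) ⁻¹'
            {u | ∃ y : ℕ → ℕ, pre y s.length = s ∧ ∀ i : Fin s.length, g y i = u i} := by
        ext x
        constructor
        · rintro ⟨y, hy, hyx⟩
          exact ⟨y, hy, fun i => hyx i i.2⟩
        · rintro ⟨y, hy, hyx⟩
          exact ⟨y, hy, fun i hi => hyx ⟨i, hi⟩⟩
      rw [e]
      exact (isClopen_discrete _).preimage (by fun_prop)
    · intro x
      constructor
      · rintro ⟨y, rfl⟩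
        refine ⟨y, fun k => ⟨y, ?_, fun i _ => rfl⟩⟩
        rw [t2b_pre_len]
      · rintro ⟨y, hy⟩
        choose z hz hzx using hy
        simp only [t2b_pre_len] at hz hzx
        refine ⟨y, ?_⟩
        have hlim : Tendsto z atTop (𝓝 y) := by
          rw [tendsto_pi_nhds]
          intro i
          apply tendsto_const_nhds.congr'
          filter_upwards [eventually_gt_atTop i] with k hk
          exact (t2b_pre_get _ _ k (hz k) i hk).symm
        have h1 := (hg.tendsto y).comp hlim
        funext i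
        have h2 : Tendsto (fun k => g (z k) i) atTop (𝓝 (g y i)) :=
          (tendsto_pi_nhds.1 h1) i
        have h3 : Tendsto (fun k => g (z k) i) atTop (𝓝 (x i)) := by
          apply tendsto_const_nhds.congr'
          filter_upwards [eventually_gt_atTop i] with k hk
          exact (hzx k i hk).symm
        exact tendsto_nhds_unique h2 h3

end Pool.Agent.Lib.H37C
end

-- from Lib.H37C.T3
section

open TopologicalSpace Set Filter Topology MeasureTheory

namespace Pool.Agent.Lib.H37C

/-- **T3.** Every analytic subset of `2^ℕ` is the set of all `x` for which the linear order `lt x`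
on `ℕ` is ill-founded, for a family of linear orders depending continuously on `x`.

Proof: take the family of trees `T x` of `exists_trees` and transport the order `TOrd (T x)` of
`List ℕ` to `ℕ` by the bijection `Denumerable.eqv (List ℕ)`: `lt x i j = TOrd (T x) (a i) (a j)` with
`a = (Denumerable.eqv (List ℕ)).symm`. Use `tord_sto`, `tord_wf`, `tord_clopen`; the order is
isomorphic to `TOrd (T x)` (`Order.Preimage`, `RelIso`), so well-founded at the same time. -/
theorem exists_LO (A : Set (ℕ → Bool)) (hA : AnalyticSet A) :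
    ∃ lt : (ℕ → Bool) → ℕ → ℕ → Prop, (∀ x, IsStrictTotalOrder ℕ (lt x)) ∧
      (∀ i j, IsClopen {x | lt x i j}) ∧ ∀ x, x ∈ A ↔ ¬ WellFounded (lt x) := by
  obtain ⟨T, hT1, hT2, hT3⟩ := exists_trees A hA
  let a : ℕ ≃ List ℕ := (Denumerable.eqv (List ℕ)).symm
  refine ⟨fun x i j => TOrd (T x) (a i) (a j), ?_, ?_, ?_⟩
  · intro x
    have := tord_sto (T x)
    exact (RelIso.preimage a (TOrd (T x))).toRelEmbedding.isStrictTotalOrder
  · intro i j
    exact tord_clopen T hT2 (a i) (a j)
  · intro x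
    rw [hT3, ← tord_wf (T x) (hT1 x), not_iff_not]
    constructor
    · intro h
      exact (RelIso.preimage a (TOrd (T x))).toRelEmbedding.wellFounded h
    · intro h
      exact (RelIso.preimage a (TOrd (T x))).symm.toRelEmbedding.wellFounded h

end Pool.Agent.Lib.H37C
end

-- from Lib.H37N.C35
section

/-!
# H37N C35 (size M, pure topology and calculus): constant sign on one side of a curve; extremum gives order two
-/

open Set Filter Topology Asymptotics
open scoped ContDiff

namespace Pool.Agent.Lib.H37N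



/-- Proof. `0` is a local extremum, so `deriv φ 0 = 0` (`IsLocalMin.deriv_eq_zero`, `IsLocalMax.deriv_eq_zero`). `deriv φ` is
differentiable at `0`, so `|deriv φ t| ≤ C |t|` near `0`, and the mean value inequality on the segment gives
`|φ t| ≤ C |t|^2` (or Taylor's formula). -/
theorem order_two {φ : ℝ → ℝ} (hφ : ∀ᶠ t in 𝓝 (0 : ℝ), ContDiffAt ℝ ∞ φ t) (h0 : φ 0 = 0)
    (hs : (∀ᶠ t in 𝓝 (0 : ℝ), 0 ≤ φ t) ∨ (∀ᶠ t in 𝓝 (0 : ℝ), φ t ≤ 0)) :
    φ =O[𝓝 0] fun t => |t| ^ 2 := by
  have hd0 : deriv φ 0 = 0 := by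
    rcases hs with hs | hs
    · have h1 : IsLocalMin φ 0 := by
        filter_upwards [hs] with t ht
        rw [h0]
        exact ht
      exact h1.deriv_eq_zero
    · have h1 : IsLocalMax φ 0 := by
        filter_upwards [hs] with t ht
        rw [h0]
        exact ht
      exact h1.deriv_eq_zero
  have hφ0 : ContDiffAt ℝ ∞ φ 0 := hφ.self_of_nhds
  have h2 : ContDiffAt ℝ 1 (fderiv ℝ φ) 0 :=
    hφ0.fderiv_right (m := 1) (WithTop.coe_le_coe.2 (le_top : (1 + 1 : ℕ∞) ≤ ⊤))
  have h3 : DifferentiableAt ℝ (deriv φ) 0 := by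
    have h4 : DifferentiableAt ℝ (fun t => fderiv ℝ φ t 1) 0 :=
      (h2.differentiableAt (by norm_num)).clm_apply (differentiableAt_const _)
    exact h4
  have h5 : (fun t => deriv φ t - deriv φ 0) =O[𝓝 0] fun t => t - 0 :=
    h3.hasFDerivAt.isBigO_sub
  obtain ⟨C, hC⟩ := h5.bound
  have hdiff : ∀ᶠ t in 𝓝 (0 : ℝ), DifferentiableAt ℝ φ t := by
    filter_upwards [hφ] with t ht
    exact ht.differentiableAt (by simp)
  obtain ⟨ε, hε, hball⟩ := Metric.eventually_nhds_iff.1 (hC.and hdiff)
  refine IsBigO.of_bound C ?_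
  rw [Metric.eventually_nhds_iff]
  refine ⟨ε, hε, fun t ht => ?_⟩
  rw [Real.dist_eq, sub_zero] at ht
  have hball2 : ∀ x ∈ Metric.closedBall (0 : ℝ) |t|, DifferentiableAt ℝ φ x ∧
      ‖deriv φ x‖ ≤ C * |t| := by
    intro x hx
    rw [Metric.mem_closedBall, Real.dist_eq, sub_zero] at hx
    have h6 := hball (y := x) (by rw [Real.dist_eq, sub_zero]; linarith)
    rw [hd0, sub_zero, sub_zero] at h6
    refine ⟨h6.2, h6.1.trans ?_⟩
    rw [Real.norm_eq_abs]
    have h7 : 0 ≤ C ∨ C < 0 := le_or_gt 0 C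
    rcases h7 with h7 | h7
    · exact mul_le_mul_of_nonneg_left hx h7
    · have h8 : |x| = 0 := by
        by_contra h9
        have h10 : 0 < |x| := lt_of_le_of_ne (abs_nonneg _) (Ne.symm h9)
        have h11 := h6.1
        have h12 : 0 ≤ ‖deriv φ x‖ := norm_nonneg _
        rw [Real.norm_eq_abs x] at h11
        nlinarith
      have h13 : |t| = 0 := by
        by_contra h9
        have h10 : 0 < |t| := lt_of_le_of_ne (abs_nonneg _) (Ne.symm h9)
        have h14 := hball (y := t) (by rw [Real.dist_eq, sub_zero]; linarith)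
        rw [hd0, sub_zero, sub_zero] at h14
        have h11 := h14.1
        have h12 : 0 ≤ ‖deriv φ t‖ := norm_nonneg _
        rw [Real.norm_eq_abs t] at h11
        nlinarith
      rw [h8, h13]
  have h8 := Convex.norm_image_sub_le_of_norm_deriv_le (f := φ) (C := C * |t|)
    (s := Metric.closedBall (0 : ℝ) |t|) (x := 0) (y := t) (fun x hx => (hball2 x hx).1)
    (fun x hx => (hball2 x hx).2) (convex_closedBall _ _)
    (by simp) (by simp)
  rw [h0, sub_zero, sub_zero] at h8
  have h9 : ‖|t| ^ 2‖ = |t| * |t| := by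
    rw [Real.norm_eq_abs, abs_of_nonneg (by positivity)]
    ring
  rw [h9]
  rw [Real.norm_eq_abs t] at h8
  linarith [h8, mul_assoc C |t| |t|]

end Pool.Agent.Lib.H37N
end
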