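import Pool.Agent.Lib.H1M.FF.M004

/-! Merged copies (to shorten the build) of Lib.H37D.Defs. -/

-- from Lib.H37D.Defs
section

/-!
# H37D: definitions in dimension `2 + d` (the planar coordinates `Pt`, the strongly contracted coordinates `Wd d`)
-/

open Set Filter Topology
open scoped ContDiff

namespace Pool.Agent.Lib.H37D

open Pool.Agent.Lib.H37N

/-- the strongly contracted directions, with the sup norm -/
abbrev Wd (d : ℕ) := Fin d → ℝ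

/-- the space `(x, y, w)` -/
abbrev En (d : ℕ) := Pt × Wd d

noncomputable section

variable {d : ℕ}

/-- the closed unit ball of `Wd d` -/
def BW (d : ℕ) : Set (Wd d) := Metric.closedBall 0 1

/-- strong contraction rate -/
def aw : ℝ := 1 / 10 ^ 7

/-- closeness of the planar cross systems (as in H37N) is `ee = 10^-10`, of the maps `e0 = 10^-12` -/
def NNd (d : ℕ) : Set (En d) := NN ×ˢ BW d

def VVd (d : ℕ) (i : Sy) : Set (En d) := VV i ×ˢ BW d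

def FFd (d : ℕ) : Set (En d) := FF ×ˢ BW d

/-- the open region in which the dynamics takes place -/
def Omd (d : ℕ) : Set (En d) := Om ×ˢ Metric.ball 0 1

/-- the domain of all the conditions on `g` -/
def Dd (d : ℕ) : Set (En d) := VVd d Sy.P ∪ VVd d Sy.Q ∪ FFd d

/-- unit vectors of the plane -/
def eX (d : ℕ) : En d := ((1, 0), 0)
def eY (d : ℕ) : En d := ((0, 1), 0)

/-- planar part of the derivative as a function of the planar vector, mod a slope `l : W → Pt` at the target: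
`z ↦ (D (z,0)).1 - l ((D (z,0)).2)` -/
def slp (D : En d →L[ℝ] En d) (l : Wd d →L[ℝ] Pt) : Pt →L[ℝ] Pt :=
  ((ContinuousLinearMap.fst ℝ Pt (Wd d)).comp D).comp (ContinuousLinearMap.inl ℝ Pt (Wd d)) -
    (l.comp ((ContinuousLinearMap.snd ℝ Pt (Wd d)).comp D)).comp (ContinuousLinearMap.inl ℝ Pt (Wd d))

/-- `g` is close to the model (planar model) × (contraction of `Wd d` with a rate below `aw`) -/
structure NearD (g : En d → En d) : Prop where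
  smooth : ∃ O : Set (En d), IsOpen O ∧ Dd d ⊆ O ∧ ContDiffOn ℝ ∞ g O ∧ InjOn g O ∧
    ∀ z ∈ O, Function.Bijective (fderiv ℝ g z)
  -- values
  close0 : ∀ i, ∀ z ∈ VVd d i, |(g z).1.1 - (Aff i z.1).1| ≤ e0 ∧ |(g z).1.2 - (Aff i z.1).2| ≤ e0
  fold0 : ∀ z ∈ FFd d, |(g z).1.1 - (Fold z.1).1| ≤ e0 ∧ |(g z).1.2 - (Fold z.1).2| ≤ e0
  wval : ∀ z ∈ Dd d, ‖(g z).2‖ ≤ aw * ‖z.2‖ + e0
  -- derivatives on the strips
  close1 : ∀ i, ∀ z ∈ VVd d i, |(fderiv ℝ g z (eX d)).1.1 - 1 / pw i| ≤ e0 ∧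
    |(fderiv ℝ g z (eX d)).1.2| ≤ e0 ∧ |(fderiv ℝ g z (eY d)).1.1| ≤ e0 ∧
    |(fderiv ℝ g z (eY d)).1.2 - qw i| ≤ e0
  lip : ∀ i, ∀ z ∈ VVd d i, ∀ z' ∈ VVd d i, ‖fderiv ℝ g z - fderiv ℝ g z'‖ ≤ e0 * ‖z - z'‖
  -- derivatives on the fold
  fold1 : ∀ z ∈ FFd d, |(fderiv ℝ g z (eY d)).1.1 - cc| ≤ e0 ∧ |(fderiv ℝ g z (eY d)).1.2| ≤ e0
  foldX : ∀ z ∈ FFd d, |(fderiv ℝ g z (eX d)).1.1 + 2 * dd * (z.1.1 - xc)| ≤ e0 ∧
    |(fderiv ℝ g z (eX d)).1.2 + 1| ≤ e0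
  -- mixed derivatives
  wx : ∀ z ∈ Dd d, ‖(fderiv ℝ g z (eX d)).2‖ ≤ e0 ∧ ‖(fderiv ℝ g z (eY d)).2‖ ≤ e0
  ww : ∀ z ∈ Dd d, ∀ w : Wd d, ‖(fderiv ℝ g z (0, w)).1‖ ≤ e0 * ‖w‖ ∧ ‖(fderiv ℝ g z (0, w)).2‖ ≤ aw * ‖w‖

end

end Pool.Agent.Lib.H37D
end
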