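import Pool.Agent.Lib.H1M.FF.M001
import Pool.Agent.Lib.H1M.FF.M003
import Pool.Agent.Lib.H1M.FF.M007

/-! Merged copies (to shorten the build) of Lib.H37D.DC35, Lib.H37D.DN01, Lib.H37D.DN02, Lib.H37D.DH10, Lib.H37D.DH12, Lib.H37D.DH11, Lib.H37D.DH13, Lib.H37D.DH14, Lib.H37D.DN16, Lib.H37D.DN17. -/

-- from Lib.H37D.DC35
section

/-!
# H37D DC35: constant sign on one side of a hypersurface
-/

open Set Filter Topology Asymptotics
open scoped ContDiff

namespace Pool.Agent.Lib.H37D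

open Pool.Agent.Lib.H37N

variable {E : Type*} [NormedAddCommGroup E] [NormedSpace ℝ E]

theorem dc35_side {s : E → ℝ} {ψ : ℝ × E → ℝ} {w : ℝ × E} {ρ : ℝ} {B : Set E}
    (hw : w.2 ∈ B) (h1 : s w.2 - ρ < w.1) (h2 : w.1 ≤ s w.2)
    (hc : ContinuousAt ψ w) {P : ℝ → Prop} (hP : IsClosed {x | P x})
    (h : ∀ d ∈ Ioo 0 ρ ×ˢ B, P (ψ (s d.2 - d.1, d.2))) : P (ψ w) := by
  have ht : Tendsto (fun a : ℝ => ψ (w.1 - a, w.2)) (𝓝[>] 0) (𝓝 (ψ w)) := by
    have h3 : Tendsto (fun a : ℝ => ((w.1 - a, w.2) : ℝ × E)) (𝓝[>] 0) (𝓝 w) := by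
      have h4 : Continuous (fun a : ℝ => ((w.1 - a, w.2) : ℝ × E)) := by fun_prop
      have h5 := h4.tendsto 0
      simp only [sub_zero] at h5
      exact h5.mono_left nhdsWithin_le_nhds
    exact hc.tendsto.comp h3
  have h6 : ∀ᶠ a in 𝓝[>] (0 : ℝ), P (ψ (w.1 - a, w.2)) := by
    have h7 : 0 < ρ - (s w.2 - w.1) := by linarith
    filter_upwards [Ioo_mem_nhdsGT h7] with a ha
    have h8 := h (s w.2 - w.1 + a, w.2) ⟨⟨by linarith [ha.1], by linarith [ha.2]⟩, hw⟩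
    have h9 : s w.2 - (s w.2 - w.1 + a) = w.1 - a := by ring
    simp only [h9] at h8
    exact h8
  exact hP.mem_of_tendsto ht h6

/-- the sign of a function on one side of the hypersurface `x = s e` which contains all its zeros -/
theorem sign_sideD {s : E → ℝ} (hs : Continuous s) {ψ : ℝ × E → ℝ} {w0 : ℝ × E} (h0 : w0.1 = s w0.2)
    (hc : ∀ᶠ w in 𝓝 w0, ContinuousAt ψ w) (hz : ∀ᶠ w in 𝓝 w0, ψ w = 0 → w.1 = s w.2) :
    (∀ᶠ w in 𝓝 w0, w.1 ≤ s w.2 → 0 ≤ ψ w) ∨ (∀ᶠ w in 𝓝 w0, w.1 ≤ s w.2 → ψ w ≤ 0) := by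
  obtain ⟨ε, hε, hball⟩ := Metric.eventually_nhds_iff.1 (hc.and hz)
  obtain ⟨r0, hr0, hsr⟩ := Metric.continuousAt_iff.1 (hs.continuousAt (x := w0.2)) (ε / 2) (by linarith)
  obtain ⟨r, hr, hrr0, hrε⟩ : ∃ r : ℝ, 0 < r ∧ r ≤ r0 ∧ r ≤ ε :=
    ⟨min r0 ε, lt_min hr0 hε, min_le_left _ _, min_le_right _ _⟩
  have hA : ∀ w : ℝ × E, w.2 ∈ Metric.ball w0.2 r → s w.2 - ε / 2 < w.1 → w.1 ≤ s w.2 →
      ContinuousAt ψ w ∧ (ψ w = 0 → w.1 = s w.2) := by
    intro w hw h1 h2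
    apply hball
    rw [Metric.mem_ball] at hw
    have h4 : dist w.2 w0.2 < r0 := by linarith
    have h5 := hsr h4
    rw [Real.dist_eq] at h5
    have h6 := abs_lt.1 h5
    rw [Prod.dist_eq]
    apply max_lt
    · rw [Real.dist_eq, h0, abs_lt]
      constructor <;> linarith [h6.1, h6.2]
    · linarith
  set D : Set (ℝ × E) := Ioo 0 (ε / 2) ×ˢ Metric.ball w0.2 r with hD
  have hD1 : ∀ d ∈ D, ContinuousAt ψ (s d.2 - d.1, d.2) ∧ ψ (s d.2 - d.1, d.2) ≠ 0 := by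
    intro d hd
    obtain ⟨h1, h2⟩ := hA (s d.2 - d.1, d.2) hd.2 (by simp only; linarith [hd.1.2])
      (by simp only; linarith [hd.1.1])
    refine ⟨h1, fun h3 => ?_⟩
    have h4 := h2 h3
    simp only at h4
    linarith [hd.1.1]
  have hcont : ContinuousOn (fun d : ℝ × E => ψ (s d.2 - d.1, d.2)) D := by
    intro d hd
    have h1 : ContinuousAt (fun d : ℝ × E => ((s d.2 - d.1, d.2) : ℝ × E)) d := by
      apply Continuous.continuousAt
      fun_prop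
    exact (ContinuousAt.comp (f := fun d : ℝ × E => ((s d.2 - d.1, d.2) : ℝ × E)) (hD1 d hd).1
      h1).continuousWithinAt
  have hpre : IsPreconnected D :=
    (isPreconnected_Ioo).prod (convex_ball _ _).isPreconnected
  have hN : ∀ᶠ w : ℝ × E in 𝓝 w0, w.2 ∈ Metric.ball w0.2 r ∧ s w.2 - ε / 2 < w.1 := by
    refine Filter.Eventually.and ?_ ?_
    · exact (continuous_snd.tendsto w0).eventually (Metric.ball_mem_nhds _ hr)
    · have h1 : Continuous fun w : ℝ × E => s w.2 - ε / 2 := by fun_prop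
      refine (h1.tendsto w0).eventually_lt (continuous_fst.tendsto w0) ?_
      rw [h0]
      linarith
  by_cases hpos : ∀ d ∈ D, 0 ≤ ψ (s d.2 - d.1, d.2)
  · left
    filter_upwards [hN] with w hw hws
    exact dc35_side (P := fun x => 0 ≤ x) hw.1 hw.2 hws (hA w hw.1 hw.2 hws).1 isClosed_Ici hpos
  · right
    push Not at hpos
    obtain ⟨d1, hd1, hneg⟩ := hpos
    have hall : ∀ d ∈ D, ψ (s d.2 - d.1, d.2) ≤ 0 := by
      intro d hd
      by_contra hc2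
      push Not at hc2
      obtain ⟨d2, hd2, h2⟩ := hpre.intermediate_value hd1 hd hcont
        (show (0 : ℝ) ∈ Icc _ _ from ⟨hneg.le, hc2.le⟩)
      exact (hD1 d2 hd2).2 h2
    filter_upwards [hN] with w hw hws
    exact dc35_side (P := fun x => x ≤ 0) hw.1 hw.2 hws (hA w hw.1 hw.2 hws).1 isClosed_Iic hall

/-- the form for `En d`: the hypersurface `x = s (y, w)` -/
theorem sign_sideE {d : ℕ} {s : ℝ × Wd d → ℝ} (hs : Continuous s) {ψ : En d → ℝ} {w0 : En d}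
    (h0 : w0.1.1 = s (w0.1.2, w0.2)) (hc : ∀ᶠ w in 𝓝 w0, ContinuousAt ψ w)
    (hz : ∀ᶠ w in 𝓝 w0, ψ w = 0 → w.1.1 = s (w.1.2, w.2)) :
    (∀ᶠ w in 𝓝 w0, w.1.1 ≤ s (w.1.2, w.2) → 0 ≤ ψ w) ∨
      (∀ᶠ w in 𝓝 w0, w.1.1 ≤ s (w.1.2, w.2) → ψ w ≤ 0) := by
  set a : ℝ × (ℝ × Wd d) → En d := fun q => ((q.1, q.2.1), q.2.2) with ha
  have hac : Continuous a := by fun_prop
  set b : En d → ℝ × (ℝ × Wd d) := fun w => (w.1.1, (w.1.2, w.2)) with hb
  have hbc : Continuous b := by fun_prop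
  have hab : ∀ w, a (b w) = w := fun w => rfl
  have hta : Tendsto a (𝓝 (b w0)) (𝓝 w0) := by
    have := hac.tendsto (b w0)
    rwa [hab] at this
  have htb : Tendsto b (𝓝 w0) (𝓝 (b w0)) := hbc.tendsto w0
  have h1 := sign_sideD (E := ℝ × Wd d) hs (ψ := ψ ∘ a) (w0 := b w0) h0
    (by
      filter_upwards [hta.eventually hc] with q hq
      exact ContinuousAt.comp hq hac.continuousAt)
    (by
      filter_upwards [hta.eventually hz] with q hq hq'
      exact hq hq')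
  rcases h1 with h1 | h1
  · left
    filter_upwards [htb.eventually h1] with w hw hw'
    exact hw hw'
  · right
    filter_upwards [htb.eventually h1] with w hw hw'
    exact hw hw'

end Pool.Agent.Lib.H37D
end

-- from Lib.H37D.DN01
section

/-! # H37D, chunk DN01 (S/M): slopes of the strong stable directions, one step (section NF of PROOFN.md) -/

open Set Filter Topology Asymptotics
open scoped ContDiff

namespace Pool.Agent.Lib.H37D

open Pool.Agent.Lib.H37N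

variable {d : ℕ}

/-- the properties of the derivatives of near maps which are used for the strong stable directions; `slp A s z = (A (z,0)).1 - s ((A (z,0)).2)` -/
structure NLin (A : En d →L[ℝ] En d) : Prop where
  low : ∀ s : Wd d →L[ℝ] Pt, ‖s‖ ≤ 1 / 10 ^ 8 → ∀ z : Pt, ‖z‖ ≤ 4000 * ‖slp A s z‖
  zw : ∀ w, ‖(A (0, w)).1‖ ≤ 1 / 10 ^ 12 * ‖w‖
  wz : ∀ z, ‖(A (z, 0)).2‖ ≤ 1 / 10 ^ 12 * ‖z‖
  ww_le : ∀ w, ‖(A (0, w)).2‖ ≤ 101 / 10 ^ 9 * ‖w‖
  ww_ge : ∀ w, 89 / 10 ^ 9 * ‖w‖ ≤ ‖(A (0, w)).2‖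

/-- Pull-back of a slope.

PROOF. B := slp A s : Pt →L[ℝ] Pt is injective by `low`, so bijective (finite dimension); B⁻¹ has norm ≤ 4000.  s' w := B⁻¹ (s ((A (0,w)).2) - (A (0,w)).1): a linear map of w, norm
≤ 4000 (10^-8 * 101/10^9 + 10^-12) ≤ 10^-8.  A (s' w, w) = A (s' w, 0) + A (0,w) (`map_add`), so (A (s'w,w)).1 - s ((A (s'w,w)).2) = B (s' w) + (A (0,w)).1 - s ((A (0,w)).2) = 0.
(A (s'w,w)).2 = (A (0,w)).2 + (A (s'w,0)).2, the last term has norm ≤ 10^-12 * 10^-8 ‖w‖. -/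
theorem slope_step {A : En d →L[ℝ] En d} (hA : NLin A) {s : Wd d →L[ℝ] Pt} (hs : ‖s‖ ≤ 1 / 10 ^ 8) :
    ∃ s' : Wd d →L[ℝ] Pt, ‖s'‖ ≤ 1 / 10 ^ 8 ∧ ∀ w, (A (s' w, w)).1 = s ((A (s' w, w)).2) ∧
      ‖(A (s' w, w)).2‖ ≤ 102 / 10 ^ 9 * ‖w‖ ∧ 88 / 10 ^ 9 * ‖w‖ ≤ ‖(A (s' w, w)).2‖ := by
  have hBinj : Function.Injective (slp A s : Pt →ₗ[ℝ] Pt) := by
    rw [injective_iff_map_eq_zero]
    intro z hz
    have h1 := hA.low s hs z
    have h2 : slp A s z = 0 := hz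
    rw [h2, norm_zero, mul_zero] at h1
    exact norm_le_zero_iff.mp h1
  let e : Pt ≃ₗ[ℝ] Pt := LinearEquiv.ofInjectiveEndo (slp A s : Pt →ₗ[ℝ] Pt) hBinj
  have he : ∀ z : Pt, e z = slp A s z := fun z => rfl
  let Bi : Pt →L[ℝ] Pt := LinearMap.toContinuousLinearMap (e.symm : Pt →ₗ[ℝ] Pt)
  have hBi : ∀ z : Pt, slp A s (Bi z) = z := by
    intro z
    have h1 : Bi z = e.symm z := rfl
    rw [h1, ← he, LinearEquiv.apply_symm_apply]
  have hBn : ∀ z : Pt, ‖Bi z‖ ≤ 4000 * ‖z‖ := by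
    intro z
    have h1 := hA.low s hs (Bi z)
    rwa [hBi] at h1
  let T : Wd d →L[ℝ] Pt :=
    s.comp (((ContinuousLinearMap.snd ℝ Pt (Wd d)).comp A).comp (ContinuousLinearMap.inr ℝ Pt (Wd d))) -
      ((ContinuousLinearMap.fst ℝ Pt (Wd d)).comp A).comp (ContinuousLinearMap.inr ℝ Pt (Wd d))
  have hT : ∀ w, T w = s ((A (0, w)).2) - (A (0, w)).1 := fun w => rfl
  have hTn : ∀ w, ‖T w‖ ≤ (1 / 10 ^ 8 * (101 / 10 ^ 9) + 1 / 10 ^ 12) * ‖w‖ := by
    intro w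
    rw [hT]
    have h1 := norm_sub_le (s ((A (0, w)).2)) ((A (0, w)).1)
    have h2 : ‖s ((A (0, w)).2)‖ ≤ 1 / 10 ^ 8 * (101 / 10 ^ 9 * ‖w‖) :=
      (s.le_opNorm _).trans (mul_le_mul hs (hA.ww_le w) (norm_nonneg _) (by norm_num))
    have h3 := hA.zw w
    nlinarith [norm_nonneg w]
  have hs'n : ∀ w, ‖(Bi.comp T) w‖ ≤ 1 / 10 ^ 8 * ‖w‖ := by
    intro w
    have h1 : (Bi.comp T) w = Bi (T w) := rfl
    rw [h1]
    have h2 := hBn (T w)
    have h3 := hTn w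
    have h4 := norm_nonneg w
    norm_num at h3 ⊢
    linarith
  refine ⟨Bi.comp T, ContinuousLinearMap.opNorm_le_bound _ (by norm_num) hs'n, ?_⟩
  intro w
  have h1 : (Bi.comp T) w = Bi (T w) := rfl
  have h5 := hs'n w
  rw [h1] at h5 ⊢
  have hdec : ((Bi (T w), w) : En d) = (Bi (T w), 0) + (0, w) := by simp
  have h2 : A (Bi (T w), w) = A (Bi (T w), 0) + A (0, w) := by
    rw [hdec, map_add]
  have h3 : (A (Bi (T w), 0)).1 - s ((A (Bi (T w), 0)).2) = T w := hBi (T w)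
  have h4 := hA.wz (Bi (T w))
  have h6 := hA.ww_le w
  have h7 := hA.ww_ge w
  have h8 := norm_nonneg w
  have h9 : (A (Bi (T w), w)).2 = (A (0, w)).2 + (A (Bi (T w), 0)).2 := by
    rw [h2, Prod.snd_add, add_comm]
  refine ⟨?_, ?_, ?_⟩
  · rw [h2, Prod.fst_add, Prod.snd_add, map_add]
    have h10 := h3.trans (hT w)
    rw [sub_eq_sub_iff_add_eq_add] at h10
    rw [h10, add_comm]
  · rw [h9]
    have h10 := norm_add_le ((A (0, w)).2) ((A (Bi (T w), 0)).2)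
    norm_num at h4 h5 h6 h7 ⊢
    linarith
  · rw [h9]
    have h10 : ‖(A (0, w)).2‖ ≤ ‖(A (0, w)).2 + (A (Bi (T w), 0)).2‖ + ‖(A (Bi (T w), 0)).2‖ := by
      have := norm_sub_le ((A (0, w)).2 + (A (Bi (T w), 0)).2) ((A (Bi (T w), 0)).2)
      simpa using this
    norm_num at h4 h5 h6 h7 ⊢
    linarith

/-- The pull-back is a contraction.

PROOF. Let u = (A (s₂' w, w)).2, ‖u‖ ≤ 102/10^9 ‖w‖ (as in `slope_step`: ‖(A (0,w)).2‖ + 10^-12 ‖s₂' w‖).  z := (s₁' - s₂') w.  (A (z,0)).1 = (A (s₁'w,w)).1 - (A (s₂'w,w)).1 =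
s₁ (A (s₁'w,w)).2 - s₂ u and (A (z,0)).2 = (A (s₁'w,w)).2 - u, so slp A s₁ z = s₁ u - s₂ u = (s₁ - s₂) u, and ‖z‖ ≤ 4000 ‖s₁ - s₂‖ 102/10^9 ‖w‖ ≤ (1/2) ‖s₁ - s₂‖ ‖w‖.
`ContinuousLinearMap.opNorm_le_bound`. -/
theorem slope_contr {A : En d →L[ℝ] En d} (hA : NLin A) {s₁ s₂ s₁' s₂' : Wd d →L[ℝ] Pt}
    (hs₁ : ‖s₁‖ ≤ 1 / 10 ^ 8) (hs₂' : ‖s₂'‖ ≤ 1 / 10 ^ 8)
    (h₁ : ∀ w, (A (s₁' w, w)).1 = s₁ ((A (s₁' w, w)).2))
    (h₂ : ∀ w, (A (s₂' w, w)).1 = s₂ ((A (s₂' w, w)).2)) : ‖s₁' - s₂'‖ ≤ 1 / 2 * ‖s₁ - s₂‖ := by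
  refine ContinuousLinearMap.opNorm_le_bound _ (by positivity) ?_
  intro w
  have hz0 : (s₁' - s₂') w = s₁' w - s₂' w := rfl
  have hdec : ((s₁' w, w) : En d) - (s₂' w, w) = ((s₁' - s₂') w, 0) := by
    rw [hz0]; ext <;> simp
  have h3 : A ((s₁' - s₂') w, 0) = A (s₁' w, w) - A (s₂' w, w) := by
    rw [← hdec, map_sub]
  have hdec2 : ((s₂' w, w) : En d) = (s₂' w, 0) + (0, w) := by simp
  have h4 : (A (s₂' w, w)).2 = (A (0, w)).2 + (A (s₂' w, 0)).2 := by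
    rw [hdec2, map_add, Prod.snd_add, add_comm]
  have h5 : ‖(A (s₂' w, w)).2‖ ≤ 102 / 10 ^ 9 * ‖w‖ := by
    rw [h4]
    have h10 := norm_add_le ((A (0, w)).2) ((A (s₂' w, 0)).2)
    have h11 := hA.wz (s₂' w)
    have h12 := hA.ww_le w
    have h13 : ‖s₂' w‖ ≤ 1 / 10 ^ 8 * ‖w‖ := s₂'.le_of_opNorm_le hs₂' w
    have h14 := norm_nonneg w
    norm_num at h11 h12 h13 ⊢
    linarith
  have h6 : slp A s₁ ((s₁' - s₂') w) = (s₁ - s₂) ((A (s₂' w, w)).2) := by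
    have h7 : slp A s₁ ((s₁' - s₂') w) =
      (A ((s₁' - s₂') w, 0)).1 - s₁ ((A ((s₁' - s₂') w, 0)).2) := rfl
    rw [h7, h3, Prod.fst_sub, Prod.snd_sub, h₁ w, h₂ w, map_sub]
    have h8 : (s₁ - s₂) ((A (s₂' w, w)).2) = s₁ ((A (s₂' w, w)).2) - s₂ ((A (s₂' w, w)).2) := rfl
    rw [h8]; abel
  have h9 := hA.low s₁ hs₁ ((s₁' - s₂') w)
  rw [h6] at h9
  have h10 : ‖(s₁ - s₂) ((A (s₂' w, w)).2)‖ ≤ ‖s₁ - s₂‖ * (102 / 10 ^ 9 * ‖w‖) :=
    ((s₁ - s₂).le_opNorm _).trans (mul_le_mul_of_nonneg_left h5 (norm_nonneg _))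
  have h11 : 0 ≤ ‖s₁ - s₂‖ * ‖w‖ := by positivity
  calc ‖(s₁' - s₂') w‖ ≤ 4000 * (‖s₁ - s₂‖ * (102 / 10 ^ 9 * ‖w‖)) := h9.trans (by linarith)
    _ ≤ 1 / 2 * ‖s₁ - s₂‖ * ‖w‖ := by
      norm_num at *
      nlinarith

end Pool.Agent.Lib.H37D
end

-- from Lib.H37D.DN02
section

/-! # H37D, chunk DN02 (M): the strong stable space of a product of near linear maps (section NF of PROOFN.md) -/

open Set Filter Topology Asymptotics
open scoped ContDiff

namespace Pool.Agent.Lib.H37D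

open Pool.Agent.Lib.H37N

variable {d : ℕ}

/-- the product `A (k-1) ∘ .. ∘ A 0` -/
noncomputable def prodL (A : ℕ → En d →L[ℝ] En d) : ℕ → En d →L[ℝ] En d
  | 0 => ContinuousLinearMap.id ℝ _
  | k + 1 => (A k).comp (prodL A k)

/-- The strong stable space.

PROOF. X := `Metric.closedBall (0 : Wd d →L[ℝ] Pt) (1/10^8)`, a nonempty complete metric space (subtype).  For i < m `slope_step` gives (choice) T_i : X → X, a (1/2)-contraction by `slope_contr`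
(`LipschitzWith (1/2)`), and for every s in X and every w: A_i (T_i s w, w) = (s u, u) with u = (A_i (T_i s w, w)).2, 88/10^9 ‖w‖ ≤ ‖u‖ ≤ 102/10^9 ‖w‖.  F_k := T_0 ∘ .. ∘ T_{k-1} (recursively
F_0 = id, F_{k+1} = F_k ∘ T_k) is (1/2)^k-Lipschitz, and by induction on k ≤ m: for all s in X and all w, prodL A k (F_k s w, w) = (s u, u) for some u with (88/10^9)^k ‖w‖ ≤ ‖u‖ ≤ (102/10^9)^k ‖w‖
(step: prodL A k (F_k (T_k s) w, w) = (T_k s u, u), apply A_k).  m ≥ 1: F_m is a contraction, `ContractingWith.exists_fixedPoint` (or `ContractingWith.fixedPoint`): F_m s = s.  A0 := the linear map w ↦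
(prodL A m (s w, w)).2 (`ContinuousLinearMap.comp` of snd, prodL A m and s.prod id). -/
theorem strong_stable {m : ℕ} (hm : 0 < m) {A : ℕ → En d →L[ℝ] En d} (hA : ∀ i < m, NLin (A i)) :
    ∃ (s : Wd d →L[ℝ] Pt) (A0 : Wd d →L[ℝ] Wd d), ‖s‖ ≤ 1 / 10 ^ 8 ∧
      (∀ w, prodL A m (s w, w) = (s (A0 w), A0 w)) ∧
      ∀ w, ‖A0 w‖ ≤ (102 / 10 ^ 9) ^ m * ‖w‖ ∧ (88 / 10 ^ 9) ^ m * ‖w‖ ≤ ‖A0 w‖ := by
  let X := Metric.closedBall (0 : Wd d →L[ℝ] Pt) (1 / 10 ^ 8)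
  have hX : ∀ s : X, ‖(s : Wd d →L[ℝ] Pt)‖ ≤ 1 / 10 ^ 8 := fun s => mem_closedBall_zero_iff.mp s.2
  have : CompleteSpace X := Metric.isClosed_closedBall.completeSpace_coe
  have : Nonempty X := ⟨⟨0, Metric.mem_closedBall_self (by norm_num)⟩⟩
  have hstep : ∀ i, ∃ T : X → X, i < m →
      (∀ s s' : X, dist (T s) (T s') ≤ 1 / 2 * dist s s') ∧
      (∀ (s : X) (w : Wd d), ∃ u : Wd d, A i ((T s : Wd d →L[ℝ] Pt) w, w) = ((s : Wd d →L[ℝ] Pt) u, u) ∧
        ‖u‖ ≤ 102 / 10 ^ 9 * ‖w‖ ∧ 88 / 10 ^ 9 * ‖w‖ ≤ ‖u‖) := by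
    intro i
    by_cases hi : i < m
    · choose f hf using fun s : X => slope_step (hA i hi) (hX s)
      refine ⟨fun s => ⟨f s, mem_closedBall_zero_iff.mpr (hf s).1⟩, fun _ => ⟨?_, ?_⟩⟩
      · intro s s'
        have h1 := slope_contr (hA i hi) (hX s) (hf s').1 (fun w => ((hf s).2 w).1) (fun w => ((hf s').2 w).1)
        rw [Subtype.dist_eq, Subtype.dist_eq, dist_eq_norm, dist_eq_norm]
        exact h1
      · intro s w
        refine ⟨(A i ((f s) w, w)).2, ?_, ((hf s).2 w).2.1, ((hf s).2 w).2.2⟩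
        exact Prod.ext ((hf s).2 w).1 rfl
    · exact ⟨id, fun h => absurd h hi⟩
  choose T hT using hstep
  let F : ℕ → X → X := fun k => Nat.rec (motive := fun _ => X → X) id (fun k G => G ∘ T k) k
  have hF0 : F 0 = id := rfl
  have hFs : ∀ k, F (k + 1) = F k ∘ T k := fun k => rfl
  have hlip : ∀ k, k ≤ m → ∀ s s' : X, dist (F k s) (F k s') ≤ (1 / 2) ^ k * dist s s' := by
    intro k
    induction k with
    | zero => intro _ s s'; rw [hF0]; simp
    | succ k ih =>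
      intro hk s s'
      rw [hFs]
      have h1 := ih (by omega) (T k s) (T k s')
      have h2 := (hT k (by omega)).1 s s'
      calc dist ((F k ∘ T k) s) ((F k ∘ T k) s') ≤ (1 / 2) ^ k * dist (T k s) (T k s') := h1
        _ ≤ (1 / 2) ^ k * (1 / 2 * dist s s') := mul_le_mul_of_nonneg_left h2 (by positivity)
        _ = (1 / 2) ^ (k + 1) * dist s s' := by ring
  have hpath : ∀ k, k ≤ m → ∀ (s : X) (w : Wd d), ∃ u : Wd d,
      prodL A k ((F k s : Wd d →L[ℝ] Pt) w, w) = ((s : Wd d →L[ℝ] Pt) u, u) ∧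
        ‖u‖ ≤ (102 / 10 ^ 9) ^ k * ‖w‖ ∧ (88 / 10 ^ 9) ^ k * ‖w‖ ≤ ‖u‖ := by
    intro k
    induction k with
    | zero => intro _ s w; exact ⟨w, rfl, by simp, by simp⟩
    | succ k ih =>
      intro hk s w
      obtain ⟨u, hu, hu1, hu2⟩ := ih (by omega) (T k s) w
      obtain ⟨u', hu', hu1', hu2'⟩ := (hT k (by omega)).2 s u
      refine ⟨u', ?_, ?_, ?_⟩
      · have h1 : prodL A (k + 1) ((F (k + 1) s : Wd d →L[ℝ] Pt) w, w) =
          A k (prodL A k ((F k (T k s) : Wd d →L[ℝ] Pt) w, w)) := rfl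
        rw [h1, hu, hu']
      · calc ‖u'‖ ≤ 102 / 10 ^ 9 * ‖u‖ := hu1'
          _ ≤ 102 / 10 ^ 9 * ((102 / 10 ^ 9) ^ k * ‖w‖) := mul_le_mul_of_nonneg_left hu1 (by norm_num)
          _ = (102 / 10 ^ 9) ^ (k + 1) * ‖w‖ := by ring
      · calc (88 / 10 ^ 9) ^ (k + 1) * ‖w‖ = 88 / 10 ^ 9 * ((88 / 10 ^ 9) ^ k * ‖w‖) := by ring
          _ ≤ 88 / 10 ^ 9 * ‖u‖ := mul_le_mul_of_nonneg_left hu2 (by norm_num)
          _ ≤ ‖u'‖ := hu2'
  have hcon : ContractingWith (1 / 2 : NNReal) (F m) := by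
    refine ⟨by
      rw [← NNReal.coe_lt_coe]; norm_num, LipschitzWith.of_dist_le_mul ?_⟩
    intro s s'
    have h1 := hlip m le_rfl s s'
    have h2 : ((1 : ℝ) / 2) ^ m ≤ 1 / 2 := by
      calc ((1 : ℝ) / 2) ^ m ≤ (1 / 2) ^ 1 := pow_le_pow_of_le_one (by norm_num) (by norm_num) hm
        _ = 1 / 2 := by norm_num
    have h3 : ((1 / 2 : NNReal) : ℝ) = 1 / 2 := by norm_num
    rw [h3]
    exact h1.trans (mul_le_mul_of_nonneg_right h2 dist_nonneg)
  obtain ⟨s, hs⟩ : ∃ s : X, F m s = s := ⟨_, hcon.fixedPoint_isFixedPt⟩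
  let A0 : Wd d →L[ℝ] Wd d := ((ContinuousLinearMap.snd ℝ Pt (Wd d)).comp (prodL A m)).comp
    ((s : Wd d →L[ℝ] Pt).prod (ContinuousLinearMap.id ℝ (Wd d)))
  have hA0 : ∀ w, A0 w = (prodL A m ((s : Wd d →L[ℝ] Pt) w, w)).2 := fun w => rfl
  have key : ∀ w, prodL A m ((s : Wd d →L[ℝ] Pt) w, w) = ((s : Wd d →L[ℝ] Pt) (A0 w), A0 w) ∧
      ‖A0 w‖ ≤ (102 / 10 ^ 9) ^ m * ‖w‖ ∧ (88 / 10 ^ 9) ^ m * ‖w‖ ≤ ‖A0 w‖ := by
    intro w
    obtain ⟨u, hu, hu1, hu2⟩ := hpath m le_rfl s w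
    rw [hs] at hu
    have h1 : A0 w = u := by rw [hA0, hu]
    rw [h1]
    exact ⟨hu, hu1, hu2⟩
  exact ⟨s, A0, hX s, fun w => (key w).1, fun w => (key w).2⟩

/-- Norms of `A0` and of its inverse.

PROOF. A0 is injective (lower bound, 88/10^9 > 0), so bijective (finite dimension, `LinearMap.injective_iff_surjective`); A0i its inverse
(`LinearEquiv.ofInjectiveEndo`, `LinearMap.toContinuousLinearMap`).  ‖A0‖ ≤ (102/10^9)^m < 1 (`opNorm_le_bound`, m ≥ 1), ‖A0i‖ ≤ (10^9/88)^m, product ‖A0i‖ ‖A0‖^2 ≤ (102^2/(88 * 10^9))^m < 1. -/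
theorem strong_norms {m : ℕ} (hm : 0 < m) {A0 : Wd d →L[ℝ] Wd d}
    (h : ∀ w, ‖A0 w‖ ≤ (102 / 10 ^ 9) ^ m * ‖w‖ ∧ (88 / 10 ^ 9) ^ m * ‖w‖ ≤ ‖A0 w‖) :
    ∃ A0i : Wd d →L[ℝ] Wd d, A0.comp A0i = ContinuousLinearMap.id ℝ _ ∧ A0i.comp A0 = ContinuousLinearMap.id ℝ _ ∧
      ‖A0‖ ≤ 1 / 100 ∧ ‖A0i‖ * ‖A0‖ ^ 2 < 1 := by
  have hpos : (0 : ℝ) < (88 / 10 ^ 9) ^ m := by positivity
  have hinj : Function.Injective (A0 : Wd d →ₗ[ℝ] Wd d) := by
    rw [injective_iff_map_eq_zero]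
    intro w hw
    have h1 := (h w).2
    have h2 : A0 w = 0 := hw
    rw [h2, norm_zero] at h1
    have h3 : ‖w‖ ≤ 0 := by
      by_contra h4
      push Not at h4
      have : 0 < (88 / 10 ^ 9) ^ m * ‖w‖ := mul_pos hpos h4
      linarith
    exact norm_le_zero_iff.mp h3
  let e : Wd d ≃ₗ[ℝ] Wd d := LinearEquiv.ofInjectiveEndo (A0 : Wd d →ₗ[ℝ] Wd d) hinj
  have he : ∀ z : Wd d, e z = A0 z := fun z => rfl
  let Bi : Wd d →L[ℝ] Wd d := LinearMap.toContinuousLinearMap (e.symm : Wd d →ₗ[ℝ] Wd d)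
  have hBi' : ∀ z : Wd d, Bi z = e.symm z := fun z => rfl
  have h1 : ∀ z, A0 (Bi z) = z := by
    intro z
    rw [hBi', ← he, LinearEquiv.apply_symm_apply]
  have h2 : ∀ z, Bi (A0 z) = z := by
    intro z
    rw [hBi', ← he, LinearEquiv.symm_apply_apply]
  have hn1 : ‖A0‖ ≤ (102 / 10 ^ 9) ^ m :=
    ContinuousLinearMap.opNorm_le_bound _ (by positivity) fun w => (h w).1
  have hn2 : ‖Bi‖ ≤ (10 ^ 9 / 88) ^ m := by
    refine ContinuousLinearMap.opNorm_le_bound _ (by positivity) fun w => ?_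
    have h3 := (h (Bi w)).2
    rw [h1] at h3
    have h4 : ((10 : ℝ) ^ 9 / 88) ^ m * (88 / 10 ^ 9) ^ m = 1 := by
      rw [← mul_pow]; norm_num
    calc ‖Bi w‖ = ((10 : ℝ) ^ 9 / 88) ^ m * ((88 / 10 ^ 9) ^ m * ‖Bi w‖) := by
          rw [← mul_assoc, h4, one_mul]
      _ ≤ (10 ^ 9 / 88) ^ m * ‖w‖ := mul_le_mul_of_nonneg_left h3 (by positivity)
  refine ⟨Bi, ContinuousLinearMap.ext h1, ContinuousLinearMap.ext h2, ?_, ?_⟩
  · calc ‖A0‖ ≤ (102 / 10 ^ 9) ^ m := hn1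
      _ ≤ (102 / 10 ^ 9) ^ 1 := pow_le_pow_of_le_one (by norm_num) (by norm_num) hm
      _ ≤ 1 / 100 := by norm_num
  · calc ‖Bi‖ * ‖A0‖ ^ 2 ≤ (10 ^ 9 / 88) ^ m * ((102 / 10 ^ 9) ^ m) ^ 2 := by
          gcongr
      _ = (10 ^ 9 / 88 * (102 / 10 ^ 9) ^ 2) ^ m := by
          rw [← pow_mul, mul_comm m 2, pow_mul, ← mul_pow]
      _ < 1 := pow_lt_one₀ (by norm_num) (by norm_num) hm.ne'

end Pool.Agent.Lib.H37D
end

-- from Lib.H37D.DH10
section

open TopologicalSpace Set Filter Topology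

namespace Pool.Agent.Lib.H37D

variable {X : Type*} [TopologicalSpace X] {F F' : X ≃ₜ X} {T : Set X} {m : ℕ} {η : X → X} {p : X}

theorem dh10_q (h : Glue F F' T m η p) (q : ℕ) {y : X} (hy : y ∈ T) :
    (⇑F)^[q * m] y ∈ T ∧ η ((⇑F)^[q * m] y) = (⇑F')^[q * m] (η y) := by
  induction q with
  | zero => simpa using hy
  | succ q ih =>
    have h1 : (⇑F)^[(q + 1) * m] y = (⇑F)^[m] ((⇑F)^[q * m] y) := by
      rw [← Function.iterate_add_apply]
      congr 2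
      ring
    have h2 : (⇑F')^[(q + 1) * m] (η y) = (⇑F')^[m] ((⇑F')^[q * m] (η y)) := by
      rw [← Function.iterate_add_apply]
      congr 2
      ring
    rw [h1, h2, ← ih.2]
    exact ⟨h.into _ ih.1, h.conj _ ih.1⟩

/-- **DH10 (S).** The value of the glued map `h = gl F F' T η`: `F'^k (h x) = η (F^k x)` whenever `F^k x ∈ T`.

Proof. (a) For `y ∈ T`: `F^(q m) y ∈ T` and `η (F^(q m) y) = F'^(q m) (η y)` (induction on `q`, `into`, `conj`;
`Function.iterate_mul` or `F^(q m + m) = F^m ∘ F^(q m)`). (b) If `y ∈ T` and `F^j y ∈ T` then `m ∣ j`: `j = q m + i`, `i < m`,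
`F^j y = F^i (F^(q m) y)` with `F^(q m) y ∈ T`, so `i = 0` by `ret`. (c) Let `k₀ = Nat.find h ≤ k`, `y = F^[k₀] x ∈ T`,
`j = k - k₀`, so `F^j y = F^k x ∈ T`, `j = q m`. `F'^k (h x) = F'^j (F'^k₀ (F'⁻¹^[k₀] (η y))) = F'^j (η y) = η (F^j y)`. -/
theorem gl_eq (h : Glue F F' T m η p) {x : X} {k : ℕ} (hk : (⇑F)^[k] x ∈ T) :
    (⇑F')^[k] (gl F F' T η x) = η ((⇑F)^[k] x) := by
  classical
  have hex : ∃ k, (⇑F)^[k] x ∈ T := ⟨k, hk⟩
  unfold gl
  rw [dif_pos hex]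
  obtain ⟨k₀, hk₀⟩ : ∃ k₀, k₀ = Nat.find hex := ⟨_, rfl⟩
  have h0 : (⇑F)^[k₀] x ∈ T := by
    rw [hk₀]
    exact Nat.find_spec hex
  have hle : k₀ ≤ k := by
    rw [hk₀]
    exact Nat.find_min' hex hk
  rw [← hk₀]
  obtain ⟨j, rfl⟩ := Nat.exists_eq_add_of_le hle
  have h1 : (⇑F)^[k₀ + j] x = (⇑F)^[j] ((⇑F)^[k₀] x) := by
    rw [← Function.iterate_add_apply, Nat.add_comm]
  rw [h1] at hk ⊢
  obtain ⟨y, hy⟩ : ∃ y, y = (⇑F)^[k₀] x := ⟨_, rfl⟩
  rw [← hy] at hk h0 ⊢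
  have h2 : (⇑F')^[k₀ + j] ((⇑F'.symm)^[k₀] (η y)) = (⇑F')^[j] (η y) := by
    rw [Nat.add_comm, Function.iterate_add_apply]
    congr 1
    exact (Function.LeftInverse.iterate F'.apply_symm_apply k₀) (η y)
  rw [h2]
  have hj : j % m = 0 := by
    by_contra hne
    have h3 := h.ret (j % m) (Nat.pos_of_ne_zero hne) (Nat.mod_lt _ h.pos) _ (dh10_q h (j / m) h0).1
    apply h3
    rw [← Function.iterate_add_apply, Nat.mod_add_div' j m]
    exact hk
  have hj' : j = j / m * m := (Nat.div_mul_cancel (Nat.dvd_of_mod_eq_zero hj)).symm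
  rw [hj']
  exact (dh10_q h (j / m) h0).2.symm

/-- **DH10, second part.** -/
theorem gl_off {x : X} (hx : ∀ k, (⇑F)^[k] x ∉ T) : gl F F' T η x = x := by
  unfold gl
  rw [dif_neg]
  rintro ⟨k, hk⟩
  exact hx k hk

end Pool.Agent.Lib.H37D
end

-- from Lib.H37D.DH12
section

open TopologicalSpace Set Filter Topology

namespace Pool.Agent.Lib.H37D

variable {X : Type*} [TopologicalSpace X] {F F' : X ≃ₜ X} {T : Set X} {m : ℕ} {η η' : X → X} {p : X}

/-- **DH12 (S).** Near a point whose orbit avoids `T`, for each fixed `k`, the glued map `h` is the identity at the points `u`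
with `F^k u ∈ T`.

Proof. If `F^k x ∉ closure T` then `F^k u ∉ closure T` for `u` near `x` (continuity of `F^k`). Otherwise `y = F^k x ∈ closure T`,
its orbit avoids `T` (`F^j y = F^(j+k) x`), so `bdry` holds for all `v` near `y`, in particular for `v = F^k u`, `u` near `x`
(continuity): if `v ∈ T` then `η v = v` and (with `F^k u = v`) `F'^k u = v`. By `gl_eq`, `F'^k (h u) = η v = v = F'^k u`, so
`h u = u`. -/
theorem gl_near (h : Glue F F' T m η p) {x : X} (hx : ∀ k, (⇑F)^[k] x ∉ T) (k : ℕ) :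
    ∀ᶠ u in 𝓝 x, (⇑F)^[k] u ∈ T → gl F F' T η u = u := by
  have hc : Continuous ((⇑F)^[k]) := F.continuous.iterate k
  by_cases hy : (⇑F)^[k] x ∈ closure T
  · have h1 := h.bdry _ hy fun j => by
      rw [← Function.iterate_add_apply]
      exact hx _
    have h2 := (hc.tendsto x).eventually h1
    filter_upwards [h2] with u hu huT
    obtain ⟨h3, h4⟩ := hu huT
    have h5 := gl_eq h huT
    rw [h3, ← h4 k u rfl] at h5
    exact F'.injective.iterate k h5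
  · have h1 : ∀ᶠ u in 𝓝 x, (⇑F)^[k] u ∈ (closure T)ᶜ :=
      (hc.tendsto x).eventually (isClosed_closure.isOpen_compl.mem_nhds hy)
    filter_upwards [h1] with u hu huT
    exact absurd (subset_closure huT) hu

/-- **DH12, second part.** If `k ≥ m` is the first number with `F^k u ∈ T` then `F^k u` is not in `F^m T`.

Proof. If `F^m y = F^k u = F^m (F^(k-m) u)`, `y ∈ T`, then `F^(k-m) u = y ∈ T`, and `k - m < k` (`m > 0`). -/
theorem gl_first (h : Glue F F' T m η p) {u : X} {k : ℕ} (hk : m ≤ k) (hk' : ∀ j < k, (⇑F)^[j] u ∉ T) :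
    ∀ y ∈ T, (⇑F)^[m] y ≠ (⇑F)^[k] u := by
  intro y hy heq
  have h1 : (⇑F)^[k] u = (⇑F)^[m] ((⇑F)^[k - m] u) := by
    rw [← Function.iterate_add_apply, Nat.add_sub_cancel' hk]
  rw [h1] at heq
  have h2 := F.injective.iterate m heq
  rw [h2] at hy
  have := h.pos
  exact hk' (k - m) (by omega) hy

end Pool.Agent.Lib.H37D
end

-- from Lib.H37D.DH11
section

open TopologicalSpace Set Filter Topology

namespace Pool.Agent.Lib.H37D

variable {X : Type*} [TopologicalSpace X] {F F' : X ≃ₜ X} {T : Set X} {m : ℕ} {η η' : X → X} {p : X}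

/-- **DH11 (S).** The glued map `h` is a semiconjugacy: `h ∘ F = F' ∘ h`.

Proof. Let some `F^k x ∈ T`; then `F^(k+m) x = F^m (F^k x) ∈ T`, so we may assume `k = j + 1 ≥ 1` (replace `k` by `k + m`,
`m > 0`). `F^j (F x) ∈ T`, so by `gl_eq` `F'^j (h (F x)) = η (F^(j+1) x)` and `F'^(j+1) (h x) = η (F^(j+1) x)`; as
`F'^(j+1) (h x) = F'^j (F' (h x))` and `F'^j` is injective, `h (F x) = F' (h x)`. If no `F^k x ∈ T`, then the same holds for
`F x`, so `h (F x) = F x`, `h x = x` (`gl_off`) and `F x = F' x` (`off`). -/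
theorem gl_conj (h : Glue F F' T m η p) (x : X) : gl F F' T η (F x) = F' (gl F F' T η x) := by
  by_cases hx : ∃ k, (⇑F)^[k] x ∈ T
  · obtain ⟨k, hk⟩ := hx
    have h1 : (⇑F)^[k + m] x ∈ T := by
      rw [Nat.add_comm, Function.iterate_add_apply]
      exact h.into _ hk
    obtain ⟨j, hj⟩ : ∃ j, k + m = j + 1 := ⟨k + m - 1, by have := h.pos; omega⟩
    rw [hj] at h1
    have h2 : (⇑F)^[j] (F x) ∈ T := h1
    have h3 := gl_eq h h2
    have h4 := gl_eq h h1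
    have h5 : (⇑F')^[j + 1] (gl F F' T η x) = (⇑F')^[j] (F' (gl F F' T η x)) := rfl
    have h6 : (⇑F)^[j + 1] x = (⇑F)^[j] (F x) := rfl
    rw [h5, h6, ← h3] at h4
    exact (F'.injective.iterate j h4).symm
  · have hx' : ∀ k, (⇑F)^[k] x ∉ T := fun k hk => hx ⟨k, hk⟩
    rw [gl_off hx', gl_off fun k => hx' (k + 1)]
    exact h.off x hx'

/-- **DH11, second part.** The glued map of the inverse data is the inverse.

Proof. If `F^k x ∈ T`, let `y = h x`; `F'^k y = η (F^k x) ∈ T` (`gl_eq`, `maps`), so `F^k (h' y) = η' (F'^k y) = η' (η (F^k x)) = F^k x`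
(`gl_eq` for `h'`), and `F^k` is injective. If no `F^k x ∈ T`, then `h x = x`; `F'^k x = F^k x` for all `k` by induction
(`off` at the point `F^k x`, whose orbit avoids `T`), so no `F'^k x` is in `T` and `h' x = x` (`gl_off`). -/
theorem gl_inv (h : Glue F F' T m η p) (h' : Glue F' F T m η' p) (hl : ∀ x ∈ T, η' (η x) = x) (x : X) :
    gl F' F T η' (gl F F' T η x) = x := by
  by_cases hx : ∃ k, (⇑F)^[k] x ∈ T
  · obtain ⟨k, hk⟩ := hx
    have h1 := gl_eq h hk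
    have h2 : (⇑F')^[k] (gl F F' T η x) ∈ T := by
      rw [h1]
      exact h.maps _ hk
    have h3 := gl_eq h' h2
    rw [h1, hl _ hk] at h3
    exact F.injective.iterate k h3
  · have hx' : ∀ k, (⇑F)^[k] x ∉ T := fun k hk => hx ⟨k, hk⟩
    rw [gl_off hx']
    have h1 : ∀ k, (⇑F')^[k] x = (⇑F)^[k] x := by
      intro k
      induction k with
      | zero => rfl
      | succ k ih =>
        rw [Function.iterate_succ_apply', Function.iterate_succ_apply', ih]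
        refine (h.off _ fun j => ?_).symm
        rw [← Function.iterate_add_apply]
        exact hx' _
    apply gl_off
    intro k
    rw [h1]
    exact hx' k

end Pool.Agent.Lib.H37D
end

-- from Lib.H37D.DH13
section

open TopologicalSpace Set Filter Topology

namespace Pool.Agent.Lib.H37D

variable {X : Type*} [TopologicalSpace X] {F F' : X ≃ₜ X} {T : Set X} {m : ℕ} {η η' : X → X} {p : X}

/-- **DH13 (M).** The glued map `h` is continuous.

Proof. Let `x` be a point. (1) `F^k x ∈ T` for some `k`: on the open set `{u | F^k u ∈ T}` we have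
`h u = F'⁻¹^[k] (η (F^k u))` (`gl_eq`: apply `F'⁻¹^[k]`), which is continuous at `x` (`cont`, `op`: `η` is continuous at `F^k x`).
(2) `F^k x ∉ T` for all `k`; `h x = x` (`gl_off`). Let `V` be a neighbourhood of `x`. We show `h u ∈ V` for `u` near `x`.
(2a) `x ≠ p`. `X` is Hausdorff: there are disjoint neighbourhoods `V₁` of `x` and `V₂` of `p`. Let `N` be the number of
`unif` for `V₂`; by `gl_near` for `u` near `x` and all `k < max N m`: `F^k u ∈ T → h u = u` (`Filter.eventually_all_finite` or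
`(Finset.range _).eventually_all`); let also `u ∈ V₁ ∩ V`. If no `F^k u ∈ T`, `h u = u ∈ V`. Otherwise let `k` be the first one
(`Nat.find`). If `k < max N m` then `h u = u ∈ V`. If `k ≥ max N m` then by `gl_first` and `unif` `u ∈ V₂`, a contradiction.
(2b) `x = p`. Let `N` be the number of `h'.unif` for `V` (the data `(F', F)`), and as before `u` near `p` such that `u ∈ V` and
`F^k u ∈ T → h u = u` for all `k < max N m`. If no `F^k u ∈ T`, `h u = u ∈ V`. Otherwise let `k` be the first one. If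
`k < max N m` then `h u = u ∈ V`. If `k ≥ max N m`, let `y = h u`: `F'^k y = η (F^k u) ∈ T` (`gl_eq`, `maps`), and this point is
not in `F'^m T`: if `F'^m t = η (F^k u)`, `t ∈ T`, then with `s = η' t ∈ T`, `η s = t` and `F'^m t = F'^m (η s) = η (F^m s)`
(`conj`), so `η (F^m s) = η (F^k u)`, and `η'` gives `F^m s = F^k u` (`hl`, both points in `T`), a contradiction to `gl_first`.
So `y ∈ V` by `h'.unif`. -/
theorem gl_cont [T2Space X] (h : Glue F F' T m η p) (h' : Glue F' F T m η' p) (hl : ∀ x ∈ T, η' (η x) = x)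
    (hr : ∀ x ∈ T, η (η' x) = x) : Continuous (gl F F' T η) := by
  classical
  rw [continuous_iff_continuousAt]
  intro x
  by_cases hx : ∃ k, (⇑F)^[k] x ∈ T
  · obtain ⟨k, hk⟩ := hx
    have hc : Continuous (⇑F)^[k] := F.continuous.iterate k
    have hO : ∀ᶠ u in 𝓝 x, (⇑F)^[k] u ∈ T := hc.continuousAt.eventually (h.op.mem_nhds hk)
    have hval : (fun u => (⇑F'.symm)^[k] (η ((⇑F)^[k] u))) =ᶠ[𝓝 x] gl F F' T η := by
      filter_upwards [hO] with u hu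
      rw [← gl_eq h hu]
      exact (Function.LeftInverse.iterate F'.symm_apply_apply k) _
    have h0 : ContinuousAt η ((⇑F)^[k] x) := h.cont.continuousAt (h.op.mem_nhds hk)
    have h1 : ContinuousAt (fun u => (⇑F'.symm)^[k] (η ((⇑F)^[k] u))) x :=
      ContinuousAt.comp (F'.symm.continuous.iterate k).continuousAt
        (ContinuousAt.comp h0 hc.continuousAt)
    exact h1.congr hval
  · push Not at hx
    have h0 : gl F F' T η x = x := gl_off hx
    have hnear : ∀ N, ∀ᶠ u in 𝓝 x, ∀ k ∈ Finset.range N, (⇑F)^[k] u ∈ T →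
        gl F F' T η u = u := fun N =>
      (Finset.range N).eventually_all.2 fun k _ => gl_near h hx k
    intro V hV
    rw [h0] at hV
    show ∀ᶠ u in 𝓝 x, gl F F' T η u ∈ V
    by_cases hp : x = p
    · rw [hp] at hV
      obtain ⟨N, hN⟩ := h'.unif V hV
      rw [← hp] at hV
      filter_upwards [hV, hnear (max N m)] with u hu hk
      by_cases hu' : ∃ k, (⇑F)^[k] u ∈ T
      · have hkT := Nat.find_spec hu'
        by_cases hkk : Nat.find hu' < max N m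
        · rw [hk _ (Finset.mem_range.2 hkk) hkT]
          exact hu
        · push Not at hkk
          have hfirst := gl_first h (k := Nat.find hu') ((le_max_right _ _).trans hkk)
            (fun j hj => Nat.find_min hu' hj)
          refine hN (Nat.find hu') ((le_max_left _ _).trans hkk) _ ?_ ?_
          · rw [gl_eq h hkT]
            exact h.maps _ hkT
          · intro t ht hEq
            rw [gl_eq h hkT] at hEq
            have hs := h'.maps t ht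
            have e1 := h.conj _ hs
            rw [hr t ht, hEq] at e1
            have e2 := congrArg η' e1
            rw [hl _ (h.into _ hs), hl _ hkT] at e2
            exact hfirst _ hs e2
      · push Not at hu'
        rw [gl_off hu']
        exact hu
    · obtain ⟨V₁, V₂, o1, o2, m1, m2, hd⟩ := t2_separation hp
      obtain ⟨N, hN⟩ := h.unif V₂ (o2.mem_nhds m2)
      filter_upwards [hV, o1.mem_nhds m1, hnear (max N m)] with u hu hu1 hk
      by_cases hu' : ∃ k, (⇑F)^[k] u ∈ T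
      · have hkT := Nat.find_spec hu'
        by_cases hkk : Nat.find hu' < max N m
        · rw [hk _ (Finset.mem_range.2 hkk) hkT]
          exact hu
        · push Not at hkk
          have hfirst := gl_first h (k := Nat.find hu') ((le_max_right _ _).trans hkk)
            (fun j hj => Nat.find_min hu' hj)
          have hu2 : u ∈ V₂ := hN (Nat.find hu') ((le_max_left _ _).trans hkk) _ hkT hfirst
          exact absurd hu2 (Set.disjoint_left.1 hd hu1)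
      · push Not at hu'
        rw [gl_off hu']
        exact hu

end Pool.Agent.Lib.H37D
end

-- from Lib.H37D.DH14
section

open TopologicalSpace Set Filter Topology

namespace Pool.Agent.Lib.H37D

variable {X : Type*} [TopologicalSpace X] {F F' : X ≃ₜ X} {T : Set X} {m : ℕ} {η η' : X → X} {p : X}

/-- **DH14, gluing lemma.** -/
theorem glue [T2Space X] (h : Glue F F' T m η p) (h' : Glue F' F T m η' p) (hl : ∀ x ∈ T, η' (η x) = x)
    (hr : ∀ x ∈ T, η (η' x) = x) : ∃ H : X ≃ₜ X, ∀ x, H (F x) = F' (H x) :=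
  ⟨{ toFun := gl F F' T η
     invFun := gl F' F T η'
     left_inv := gl_inv h h' hl
     right_inv := gl_inv h' h hr
     continuous_toFun := gl_cont h h' hl hr
     continuous_invFun := gl_cont h' h hr hl }, gl_conj h⟩

end Pool.Agent.Lib.H37D
end

-- from Lib.H37D.DN16
section

/-! # H37D, chunk DN16 (M): flat coordinates near a disc of fixed points (section NF of PROOFN.md) -/

open Set Filter Topology Asymptotics
open scoped ContDiff

namespace Pool.Agent.Lib.H37D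

open Pool.Agent.Lib.H37N

variable {d : ℕ}

/-- Flat coordinates.

PROOF. Θ(v,w) := ι(v) + (s w, w).  DΘ(0)(v,w) = Dι(0) v + (s w, w).  Injective: f ∘ ι = ι near 0 gives L Dι(0) v = Dι(0) v, L = Df(ι 0); if Dι(0) v + (s w,w) = 0 apply L: Dι(0) v + (s A0 w, A0 w) = 0,
subtract: (s (w - A0 w), w - A0 w) = 0, so w = A0 w, ‖w‖ ≤ ‖w‖/100, w = 0, so Dι(0) v = 0, v = 0.  So bijective (endomorphism of a finite-dimensional space, `LinearMap.injective_iff_surjective`).  c from `inverse_fun`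
(T10a): c smooth, c (Θ p) = p near 0, Θ (c z) = z near ι 0.  c ∘ f ∘ Θ is C^inf near 0 (f (Θ 0) = f (ι 0) = ι 0); G := a globally smooth function equal to it near 0 (`localise_at`).  Θ(G p) = Θ(c(f(Θ p))) = f(Θ p) near 0
(f ∘ Θ is continuous at 0 with value ι 0).  G(v,0) = c(f(ι v)) = c(ι v) = c(Θ(v,0)) = (v,0) near 0.  Differentiating Θ ∘ G = f ∘ Θ at 0 (G 0 = 0): DΘ(0) (DG(0)(v,w)) = L (DΘ(0)(v,w)) = Dι(0)v + (s A0 w, A0 w) =
DΘ(0)(v, A0 w); DΘ(0) is injective. -/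
theorem flatten {f : En d → En d} {ι : Pt → En d} (hι : ContDiff ℝ ∞ ι) (hinj : Function.Injective (fderiv ℝ ι 0))
    (hf : ∀ᶠ z in 𝓝 (ι 0), ContDiffAt ℝ ∞ f z) (hfix : ∀ᶠ v in 𝓝 (0 : Pt), f (ι v) = ι v)
    {s : Wd d →L[ℝ] Pt} {A0 : Wd d →L[ℝ] Wd d} (hA : ‖A0‖ ≤ 1 / 100)
    (hs : ∀ w, fderiv ℝ f (ι 0) (s w, w) = (s (A0 w), A0 w)) :
    ∃ Θ G : En d → En d, ContDiff ℝ ∞ Θ ∧ ContDiff ℝ ∞ G ∧ Θ 0 = ι 0 ∧ Function.Bijective (fderiv ℝ Θ 0) ∧
      (∀ w, fderiv ℝ Θ 0 (0, w) = (s w, w)) ∧ (∀ᶠ p in 𝓝 (0 : En d), Θ (G p) = f (Θ p)) ∧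
      (∀ᶠ v in 𝓝 (0 : Pt), G (v, 0) = (v, 0)) ∧ ∀ v w, fderiv ℝ G 0 (v, w) = (v, A0 w) := by
  let S : Wd d →L[ℝ] En d := s.prod (ContinuousLinearMap.id ℝ _)
  have hS : ∀ w, S w = (s w, w) := fun w => rfl
  let Θ : En d → En d := fun p => ι p.1 + S p.2
  have hΘ0 : Θ 0 = ι 0 := by
    have h1 : Θ 0 = ι 0 + S 0 := rfl
    rw [h1, map_zero, add_zero]
  have hΘ : ContDiff ℝ ∞ Θ := (hι.comp contDiff_fst).add (S.contDiff.comp contDiff_snd)
  set I := fderiv ℝ ι 0 with hI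
  set L := fderiv ℝ f (ι 0) with hL
  have hIι : HasFDerivAt ι I 0 := (hι.differentiable (by simp) 0).hasFDerivAt
  let DΘ : En d →L[ℝ] En d := I.comp (ContinuousLinearMap.fst ℝ Pt (Wd d)) + S.comp (ContinuousLinearMap.snd ℝ Pt (Wd d))
  have hDΘ : ∀ p, DΘ p = I p.1 + S p.2 := fun p => rfl
  have hΘd : HasFDerivAt Θ DΘ 0 := by
    have h1 : HasFDerivAt (fun p : En d => ι p.1) (I.comp (ContinuousLinearMap.fst ℝ Pt (Wd d))) 0 :=
      HasFDerivAt.comp (g := ι) (f := Prod.fst) (0 : En d) hIι hasFDerivAt_fst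
    have h2 : HasFDerivAt (fun p : En d => S p.2) (S.comp (ContinuousLinearMap.snd ℝ Pt (Wd d))) 0 :=
      HasFDerivAt.comp (g := S) (f := Prod.snd) (0 : En d) S.hasFDerivAt hasFDerivAt_snd
    exact h1.add h2
  have hfd : HasFDerivAt f L (ι 0) := (hf.self_of_nhds.differentiableAt (by simp)).hasFDerivAt
  have hLI : ∀ v, L (I v) = I v := by
    intro v
    have h1 : HasFDerivAt (fun v => f (ι v)) (L.comp I) 0 := hfd.comp (0 : Pt) hIι
    have h2 : HasFDerivAt (fun v => f (ι v)) I 0 := hIι.congr_of_eventuallyEq hfix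
    have h3 := h1.unique h2
    exact congrArg (fun T : Pt →L[ℝ] En d => T v) h3
  have hLS : ∀ w, L (S w) = S (A0 w) := fun w => hs w
  have hLΘ : ∀ v w, L (DΘ (v, w)) = DΘ (v, A0 w) := by
    intro v w
    rw [hDΘ, hDΘ, map_add, hLI, hLS]
  have hDinj : Function.Injective DΘ := by
    rw [injective_iff_map_eq_zero]
    rintro ⟨v, w⟩ hp
    have h1 : DΘ (v, A0 w) = 0 := by rw [← hLΘ, hp, map_zero]
    have h2 : S (w - A0 w) = 0 := by
      have h3 : DΘ (v, w) - DΘ (v, A0 w) = S (w - A0 w) := by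
        rw [hDΘ, hDΘ, map_sub]
        simp only
        abel
      rw [← h3, hp, h1, sub_zero]
    have h3 : w - A0 w = 0 := congrArg Prod.snd h2
    have h4 : w = A0 w := sub_eq_zero.mp h3
    have h5 : ‖A0 w‖ ≤ 1 / 100 * ‖w‖ := A0.le_of_opNorm_le hA w
    rw [← h4] at h5
    have h6 : w = 0 := by
      have := norm_nonneg w
      exact norm_le_zero_iff.mp (by linarith)
    have h7 : I v = I 0 := by
      have h8 := hDΘ (v, w)
      rw [hp, h6] at h8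
      simp only [map_zero, add_zero] at h8
      rw [← h8, map_zero]
    exact Prod.ext (hinj h7) h6
  have hDbij : Function.Bijective DΘ :=
    ⟨hDinj, (LinearMap.injective_iff_surjective (f := (DΘ : En d →ₗ[ℝ] En d))).mp hDinj⟩
  have hΘfd : fderiv ℝ Θ 0 = DΘ := hΘd.fderiv
  have hΘbij : Function.Bijective (fderiv ℝ Θ 0) := by rw [hΘfd]; exact hDbij
  obtain ⟨c, hc, hc0, hcΘ, hΘc⟩ := inverse_fun (f := Θ) (x₀ := 0)
    (Filter.Eventually.of_forall fun x => hΘ.contDiffAt) hΘbij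
  have hΘt : Tendsto Θ (𝓝 0) (𝓝 (ι 0)) := by
    rw [← hΘ0]; exact hΘ.continuous.tendsto 0
  have hfι : f (ι 0) = ι 0 := hfix.self_of_nhds
  have hft : Tendsto f (𝓝 (ι 0)) (𝓝 (ι 0)) := by
    have h1 := hfd.continuousAt.tendsto
    rwa [hfι] at h1
  have hG0 : ∀ᶠ p in 𝓝 (0 : En d), ContDiffAt ℝ ∞ (fun p => c (f (Θ p))) p := by
    filter_upwards [hΘt.eventually hf] with p hp
    exact hc.contDiffAt.comp p (hp.comp p hΘ.contDiffAt)
  obtain ⟨G, hG, hGe⟩ := localise_at hG0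
  rw [hΘ0] at hΘc hc0
  have hconj : ∀ᶠ p in 𝓝 (0 : En d), Θ (G p) = f (Θ p) := by
    filter_upwards [hGe, hΘt.eventually (hft.eventually hΘc)] with p h1 h2
    rw [h1, h2]
  have hvt : Tendsto (fun v : Pt => ((v, 0) : En d)) (𝓝 0) (𝓝 0) := by
    have h1 : Continuous (fun v : Pt => ((v, 0) : En d)) := by fun_prop
    exact h1.tendsto 0
  have hΘv : ∀ v : Pt, Θ (v, 0) = ι v := by
    intro v
    have h1 : Θ (v, 0) = ι v + S 0 := rfl
    rw [h1, map_zero, add_zero]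
  have hGv : ∀ᶠ v in 𝓝 (0 : Pt), G (v, 0) = (v, 0) := by
    filter_upwards [hvt.eventually hGe, hfix, hvt.eventually hcΘ] with v h1 h2 h3
    rw [h1, hΘv, h2, ← hΘv, h3]
  refine ⟨Θ, G, hΘ, hG, hΘ0, hΘbij, ?_, hconj, hGv, ?_⟩
  · intro w
    rw [hΘfd, hDΘ]
    simp only [map_zero, zero_add]
    exact hS w
  · have hG00 : G 0 = 0 := hGv.self_of_nhds
    have hGd : HasFDerivAt G (fderiv ℝ G 0) 0 := (hG.differentiable (by simp) 0).hasFDerivAt
    intro v w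
    have h1 : HasFDerivAt (fun p => Θ (G p)) (DΘ.comp (fderiv ℝ G 0)) 0 := by
      refine HasFDerivAt.comp (g := Θ) (0 : En d) ?_ hGd
      rw [hG00]; exact hΘd
    have h2 : HasFDerivAt (fun p => f (Θ p)) (L.comp DΘ) 0 := by
      refine HasFDerivAt.comp (g := f) (0 : En d) ?_ hΘd
      rw [hΘ0]; exact hfd
    have h3 : HasFDerivAt (fun p => Θ (G p)) (L.comp DΘ) 0 := h2.congr_of_eventuallyEq hconj
    have h4 := h1.unique h3
    have h5 : DΘ (fderiv ℝ G 0 (v, w)) = L (DΘ (v, w)) :=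
      congrArg (fun T : En d →L[ℝ] En d => T (v, w)) h4
    rw [hLΘ] at h5
    exact hDinj h5

end Pool.Agent.Lib.H37D
end

-- from Lib.H37D.DN17
section

/-! # H37D, chunk DN17 (S/M): the germ of the flat correction (section NF of PROOFN.md) -/

open Set Filter Topology Asymptotics
open scoped ContDiff

namespace Pool.Agent.Lib.H37D

open Pool.Agent.Lib.H37N

variable {d : ℕ}

/-- The germ of the correction.

PROOF. h := f ∘ Θ is C^inf near 0, h 0 = z₀, Dh(0) = Df(z₀) DΘ(0) bijective; `inverse_fun` (T10a) gives k : En d → En d smooth, k z₀ = 0, k (h p) = p near 0, h (k z) = z near z₀.  ψ z := Θ ((k z).1, A (k z).1 (k z).2): smooth.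
ψ (f (Θ p)) = ψ (h p) = Θ (p.1, A p.1 p.2) near 0.  For z near z₀: ψ z - z = Θ(N(k z)) - f(Θ(k z)) with N p = (p.1, A p.1 p.2): composing the hypothesis with k (k z → 0 as z → z₀, `IsBigO.comp_tendsto`) it is
O(‖(k z).2‖^n), and ‖(k z).2‖ ≤ ‖k z‖ = ‖k z - k z₀‖ = O(‖z - z₀‖) (k differentiable at z₀: `DifferentiableAt.isBigO_sub`). -/
theorem nf_germ {f : En d → En d} {z₀ : En d} (hf : ∀ᶠ z in 𝓝 z₀, ContDiffAt ℝ ∞ f z) (hfz : f z₀ = z₀)
    (hb : Function.Bijective (fderiv ℝ f z₀)) {Θ : En d → En d} (hΘ : ContDiff ℝ ∞ Θ) (hΘ0 : Θ 0 = z₀)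
    (hΘb : Function.Bijective (fderiv ℝ Θ 0)) {A : Pt → Wd d →L[ℝ] Wd d} (hA : ContDiff ℝ ∞ A) {n : ℕ}
    (h : (fun p : En d => f (Θ p) - Θ (p.1, A p.1 p.2)) =O[𝓝 0] fun p => ‖p.2‖ ^ n) :
    ∃ ψ : En d → En d, ContDiff ℝ ∞ ψ ∧ ((fun z => ψ z - z) =O[𝓝 z₀] fun z => ‖z - z₀‖ ^ n) ∧
      ∀ᶠ p in 𝓝 (0 : En d), ψ (f (Θ p)) = Θ (p.1, A p.1 p.2) := by
  have hcΘ : Tendsto Θ (𝓝 0) (𝓝 z₀) := by
    have h1 := hΘ.continuous.tendsto 0
    rwa [hΘ0] at h1
  have hsm : ∀ᶠ p in 𝓝 (0 : En d), ContDiffAt ℝ ∞ (fun p => f (Θ p)) p := by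
    filter_upwards [hcΘ.eventually hf] with p hp
    exact hp.comp p hΘ.contDiffAt
  have hf0 : HasFDerivAt f (fderiv ℝ f z₀) (Θ 0) := by
    rw [hΘ0]
    exact (hf.self_of_nhds.differentiableAt (by simp)).hasFDerivAt
  have hD : fderiv ℝ (fun p => f (Θ p)) 0 = (fderiv ℝ f z₀).comp (fderiv ℝ Θ 0) :=
    (hf0.comp 0 (hΘ.differentiable (by simp) 0).hasFDerivAt).fderiv
  have hbij : Function.Bijective (fderiv ℝ (fun p => f (Θ p)) 0) := by
    rw [hD]
    exact hb.comp hΘb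
  obtain ⟨k, hk, hk0, hk1, hk2⟩ := inverse_fun hsm hbij
  rw [hΘ0, hfz] at hk0 hk2
  set N : En d → En d := fun p => (p.1, A p.1 p.2) with hN
  have hNs : ContDiff ℝ ∞ N := contDiff_fst.prodMk ((hA.comp contDiff_fst).clm_apply contDiff_snd)
  refine ⟨fun z => Θ (N (k z)), hΘ.comp (hNs.comp hk), ?_, ?_⟩
  · have hkt : Tendsto k (𝓝 z₀) (𝓝 0) := by
      have h1 := hk.continuous.tendsto z₀
      rwa [hk0] at h1
    have h1 := h.comp_tendsto hkt
    have h2 : (fun z => Θ (N (k z)) - z) =O[𝓝 z₀] fun z => ‖(k z).2‖ ^ n := by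
      refine IsBigO.congr' h1.neg_left ?_ (EventuallyEq.refl _ _)
      filter_upwards [hk2] with z hz
      have hz' : f (Θ (k z)) = z := hz
      show -(f (Θ (k z)) - Θ (N (k z))) = Θ (N (k z)) - z
      rw [hz']
      abel
    have h3 : (fun z => ‖(k z).2‖) =O[𝓝 z₀] fun z => ‖z - z₀‖ := by
      have h4 : (fun z => k z - k z₀) =O[𝓝 z₀] fun z => z - z₀ :=
        (hk.differentiable (by simp) z₀).isBigO_sub
      refine IsBigO.trans (IsBigO.of_bound 1 ?_) h4.norm_right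
      filter_upwards with z
      rw [hk0, sub_zero, one_mul, Real.norm_of_nonneg (norm_nonneg _)]
      exact norm_snd_le (k z)
    exact h2.trans (h3.pow n)
  · filter_upwards [hk1] with p hp
    show Θ (N (k (f (Θ p)))) = Θ (N p)
    have hp' : k (f (Θ p)) = p := hp
    rw [hp']

end Pool.Agent.Lib.H37D
end
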