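import Pool.Agent.Lib.H1M.FF.M004
import Pool.Agent.Lib.H1M.FF.M007
import Pool.Agent.Lib.H1M.FF.M008

/-! Merged copies (to shorten the build) of Lib.H37D.D0, Lib.H37N.A02, Lib.H37N.BDefs, Lib.H37N.B01, Lib.H37N.B16, Lib.H37N.B10, Lib.H37N.CDefs. -/

-- from Lib.H37D.D0
section

/-!
# H37D D0 (M): the closeness constant `en d` and the class `NearS`

`diagonalizable`: let `L0 = MdL d i` (the derivative of the model), `C0 = CC0 d`, so `L0 C0 = C0 D0` with `D0 = dgD (qw i) (1 / pw i) (awk d)`; the `d + 2` numbers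
`qw i, 1 / pw i, awk d k` are pairwise distinct. Consider `Φ(X, D) = (C0 + C0 X) D - L (C0 + C0 X)`, where `X` is a linear map with zero diagonal (in the
standard basis of `En d`) and `D` is diagonal; `Φ = 0` at `X = 0, D = D0, L = L0`, and `C0⁻¹ ∂Φ (Ẋ, Ḋ) = X' D0 - D0 X' + Ḋ` is bijective onto the linear maps (its `(i,j)` entry is
`X'_ij (D0_j - D0_i)` for `i ≠ j` and `Ḋ_i` for `i = j`; injective, and the dimensions are equal, or explicit inverse). Implicit function theorem (or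
`open_param`, T9; the solutions are as close to `(0, D0)` as we want). `C = C0 (1 + X)` is invertible for small `X`.
-/

open Set Filter Topology
open scoped ContDiff

namespace Pool.Agent.Lib.H37D

open Pool.Agent.Lib.H37N

noncomputable section

variable {d : ℕ}

/-- the rates of the model in the directions `w`: distinct, in `(0.9 * 10^-7, 10^-7)` -/
def awk (d : ℕ) (k : Fin d) : ℝ := aw * (1 - ((k : ℝ) + 1) / (10 * ((d : ℝ) + 1)))

/-- coordinatewise product -/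
def mulw (a w : Wd d) : Wd d := fun k => a k * w k

/-- coordinatewise product as a linear map -/
def mulL (a : Wd d) : Wd d →L[ℝ] Wd d :=
  ContinuousLinearMap.pi fun k => a k • ContinuousLinearMap.proj k

@[simp] theorem mulL_apply (a w : Wd d) : mulL a w = mulw a w := by
  ext k; simp [mulL, mulw]

/-- the diagonal linear map in the coordinates of the charts (`x` stable, `y` unstable, `w`) -/
def dgD (lam mu : ℝ) (al : Wd d) : En d →L[ℝ] En d :=
  ((lam • ContinuousLinearMap.fst ℝ ℝ ℝ).prod (mu • ContinuousLinearMap.snd ℝ ℝ ℝ)).prodMap (mulL al)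

theorem dgD_apply (lam mu : ℝ) (al : Wd d) (v : En d) :
    dgD lam mu al v = ((lam * v.1.1, mu * v.1.2), mulw al v.2) := by
  have h : (mulL al : Wd d →L[ℝ] Wd d) v.2 = mulw al v.2 := mulL_apply al v.2
  show (((lam * v.1.1, mu * v.1.2) : Pt), mulL al v.2) = _
  rw [h]

/-- the derivative of the model on `VVd d i` -/
def MdL (d : ℕ) (i : Sy) : En d →L[ℝ] En d := dgD (1 / pw i) (qw i) (awk d)

/-- the derivative of the model of the fold at `z` -/
def FoldL (d : ℕ) (z : En d) : En d →L[ℝ] En d :=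
  (((-(2 * dd * (z.1.1 - xc))) • ContinuousLinearMap.fst ℝ ℝ ℝ + cc • ContinuousLinearMap.snd ℝ ℝ ℝ).prod
    (-ContinuousLinearMap.fst ℝ ℝ ℝ)).prodMap (mulL (awk d))

/-- the model of the charts: `((x,y),w) ↦ ((y,-x),w)` -/
def CC0 (d : ℕ) : En d →L[ℝ] En d :=
  ((ContinuousLinearMap.snd ℝ ℝ ℝ).prod (-ContinuousLinearMap.fst ℝ ℝ ℝ)).prodMap
    (ContinuousLinearMap.id ℝ (Wd d))

/-- Diagonalisation near a diagonalisable element with different eigenvalues. -/
theorem d0_gen {R : Type*} [NormedRing R] [NormedAlgebra ℝ R] [CompleteSpace R] {I : Type}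
    [Fintype I] [DecidableEq I] (P : I → R) (hP : ∀ a, P a * P a = P a)
    (hPQ : ∀ a b, a ≠ b → P a * P b = 0) (hsum : ∑ a, P a = 1)
    (hrank : ∀ a M, ∃ m : ℝ, P a * M * P a = m • P a) (Λ : I → ℝ) (hΛ : Function.Injective Λ)
    {C0 C0i : R} (h1 : C0 * C0i = 1) (h2 : C0i * C0 = 1) {δ : ℝ} (hδ : 0 < δ) :
    ∃ ε > (0 : ℝ), ∀ L : R, ‖L - C0 * (∑ a, Λ a • P a) * C0i‖ ≤ ε →
      ∃ (C C' : R) (Λ' : I → ℝ), C' * C = 1 ∧ C * C' = 1 ∧ L * C = C * ∑ a, Λ' a • P a ∧
        ‖C - C0‖ ≤ δ ∧ ∀ a, |Λ' a - Λ a| ≤ δ := by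
  have hPD : ∀ b (l : I → ℝ), P b * ∑ a, l a • P a = l b • P b := by
    intro b l
    rw [Finset.mul_sum, Finset.sum_eq_single b]
    · rw [mul_smul_comm, hP]
    · intro a _ hab
      rw [mul_smul_comm, hPQ b a (Ne.symm hab), smul_zero]
    · intro h
      exact absurd (Finset.mem_univ b) h
  have hDP : ∀ b (l : I → ℝ), (∑ a, l a • P a) * P b = l b • P b := by
    intro b l
    rw [Finset.sum_mul, Finset.sum_eq_single b]
    · rw [smul_mul_assoc, hP]
    · intro a _ hab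
      rw [smul_mul_assoc, hPQ a b hab, smul_zero]
    · intro h
      exact absurd (Finset.mem_univ b) h
  obtain ⟨D', hD'⟩ : ∃ D' : (I → ℝ) →L[ℝ] R, ∀ l, D' l = ∑ a, l a • P a :=
    ⟨∑ a, (ContinuousLinearMap.proj (R := ℝ) (φ := fun _ : I => ℝ) a).smulRight (P a), fun l => by
      simp⟩
  obtain ⟨Ψ, hΨ⟩ : ∃ Ψ : R × (I → ℝ) → R, ∀ p, Ψ p = C0 * (1 + p.1) * D' p.2 *
    Ring.inverse (1 + p.1) * C0i := ⟨_, fun _ => rfl⟩
  -- the derivative
  have hA : HasStrictFDerivAt (fun p : R × (I → ℝ) => 1 + p.1)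
      (ContinuousLinearMap.fst ℝ R (I → ℝ)) (0, Λ) := hasStrictFDerivAt_fst.const_add 1
  have hB : HasStrictFDerivAt (fun p : R × (I → ℝ) => D' p.2)
      (D'.comp (ContinuousLinearMap.snd ℝ R (I → ℝ))) (0, Λ) :=
    (D'.comp (ContinuousLinearMap.snd ℝ R (I → ℝ))).hasStrictFDerivAt
  have hC : HasStrictFDerivAt (fun p : R × (I → ℝ) => Ring.inverse (1 + p.1))
      (-ContinuousLinearMap.fst ℝ R (I → ℝ)) (0, Λ) := by
    have h3 := hasStrictFDerivAt_ringInverse (𝕜 := ℝ) (1 : Rˣ)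
    have h4 : HasStrictFDerivAt Ring.inverse
        (-((ContinuousLinearMap.mulLeftRight ℝ R) ↑((1 : Rˣ)⁻¹)) ↑((1 : Rˣ)⁻¹)) (1 + (0 : R)) := by
      rw [add_zero]
      exact h3
    have h5 := HasStrictFDerivAt.comp ((0 : R), Λ) h4 hA
    have h6 : (-((ContinuousLinearMap.mulLeftRight ℝ R) ↑((1 : Rˣ)⁻¹)) ↑((1 : Rˣ)⁻¹)).comp
        (ContinuousLinearMap.fst ℝ R (I → ℝ)) = -ContinuousLinearMap.fst ℝ R (I → ℝ) := by
      ext p <;> simp
    rw [h6] at h5
    exact h5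
  have hd := (((hA.const_mul C0).mul' hB).mul' hC).mul_const' C0i
  obtain ⟨f', hf', hval⟩ : ∃ f' : (R × (I → ℝ)) →L[ℝ] R, HasStrictFDerivAt Ψ f' (0, Λ) ∧
      ∀ X l, f' (X, l) = C0 * (X * D' Λ + D' l - D' Λ * X) * C0i := by
    refine ⟨_, hd.congr_of_eventuallyEq (Filter.Eventually.of_forall fun p => (hΨ p).symm), ?_⟩
    intro X l
    simp
    noncomm_ring
  have hsurj : (↑f' : R × (I → ℝ) →ₗ[ℝ] R).range = ⊤ := by
    rw [LinearMap.range_eq_top]
    intro M
    obtain ⟨N, hN⟩ : ∃ N, N = C0i * M * C0 := ⟨_, rfl⟩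
    choose m hm using fun a => hrank a N
    obtain ⟨X, hX⟩ : ∃ X : R, X = ∑ a, ∑ b, (if a = b then (0 : ℝ) else (Λ b - Λ a)⁻¹) •
      (P a * N * P b) := ⟨_, rfl⟩
    refine ⟨(X, m), ?_⟩
    show f' (X, m) = M
    rw [hval]
    have e1 : X * D' Λ + D' m - D' Λ * X = N := by
      have e2 : X * D' Λ = ∑ a, ∑ b, ((if a = b then (0 : ℝ) else (Λ b - Λ a)⁻¹) * Λ b) •
          (P a * N * P b) := by
        rw [hX, Finset.sum_mul]
        refine Finset.sum_congr rfl fun a _ => ?_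
        rw [Finset.sum_mul]
        refine Finset.sum_congr rfl fun b _ => ?_
        rw [smul_mul_assoc, mul_assoc (P a * N), hD', hPD, mul_smul_comm, smul_smul]
      have e3 : D' Λ * X = ∑ a, ∑ b, ((if a = b then (0 : ℝ) else (Λ b - Λ a)⁻¹) * Λ a) •
          (P a * N * P b) := by
        rw [hX, Finset.mul_sum]
        refine Finset.sum_congr rfl fun a _ => ?_
        rw [Finset.mul_sum]
        refine Finset.sum_congr rfl fun b _ => ?_
        rw [mul_smul_comm, mul_assoc (P a), ← mul_assoc (D' Λ), hD', hDP, smul_mul_assoc,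
          smul_smul]
      have e4 : D' m = ∑ a, ∑ b, (if a = b then (1 : ℝ) else 0) • (P a * N * P b) := by
        rw [hD']
        refine Finset.sum_congr rfl fun a _ => ?_
        rw [← hm a, Finset.sum_eq_single a]
        · rw [if_pos rfl, one_smul]
        · intro b _ hab
          rw [if_neg (Ne.symm hab), zero_smul]
        · intro h
          exact absurd (Finset.mem_univ a) h
      have e5 : N = ∑ a, ∑ b, P a * N * P b := by
        have e6 : N = (∑ a, P a) * N * (∑ b, P b) := by rw [hsum, one_mul, mul_one]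
        conv_lhs => rw [e6]
        rw [Finset.sum_mul, Finset.sum_mul]
        refine Finset.sum_congr rfl fun a _ => ?_
        rw [Finset.mul_sum]
      rw [e2, e3, e4]
      conv_rhs => rw [e5]
      rw [← Finset.sum_add_distrib, ← Finset.sum_sub_distrib]
      refine Finset.sum_congr rfl fun a _ => ?_
      rw [← Finset.sum_add_distrib, ← Finset.sum_sub_distrib]
      refine Finset.sum_congr rfl fun b _ => ?_
      rw [← add_smul, ← sub_smul]
      have e7 : (if a = b then (0 : ℝ) else (Λ b - Λ a)⁻¹) * Λ b + (if a = b then (1 : ℝ) else 0) -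
          (if a = b then (0 : ℝ) else (Λ b - Λ a)⁻¹) * Λ a = 1 := by
        by_cases hab : a = b
        · rw [if_pos hab, if_pos hab]
          ring
        · rw [if_neg hab, if_neg hab]
          have h3 : Λ b - Λ a ≠ 0 := sub_ne_zero.2 (fun h => hab (hΛ h.symm))
          field_simp
          ring
      rw [e7, one_smul]
    rw [e1, hN]
    calc C0 * (C0i * M * C0) * C0i = (C0 * C0i) * M * (C0 * C0i) := by noncomm_ring
      _ = M := by rw [h1, one_mul, mul_one]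
  have hmap := hf'.map_nhds_eq_of_surj hsurj
  -- the neighbourhood
  have hS : ∀ᶠ p : R × (I → ℝ) in 𝓝 (0, Λ), IsUnit (1 + p.1) ∧ ‖C0 * (1 + p.1) - C0‖ ≤ δ ∧
      ∀ a, |p.2 a - Λ a| ≤ δ := by
    refine Filter.Eventually.and ?_ (Filter.Eventually.and ?_ ?_)
    · have h3 : Continuous fun p : R × (I → ℝ) => 1 + p.1 := by fun_prop
      have h4 := Units.isOpen.preimage h3
      apply h4.mem_nhds
      show IsUnit (1 + (0 : R))
      rw [add_zero]
      exact isUnit_one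
    · have h3 : Continuous fun p : R × (I → ℝ) => ‖C0 * (1 + p.1) - C0‖ := by fun_prop
      have h4 : Tendsto (fun p : R × (I → ℝ) => ‖C0 * (1 + p.1) - C0‖) (𝓝 (0, Λ)) (𝓝 0) := by
        have h5 := h3.tendsto ((0 : R), Λ)
        simpa using h5
      exact h4.eventually (Iic_mem_nhds hδ)
    · rw [Filter.eventually_all]
      intro a
      have h3 : Continuous fun p : R × (I → ℝ) => |p.2 a - Λ a| := by fun_prop
      have h4 : Tendsto (fun p : R × (I → ℝ) => |p.2 a - Λ a|) (𝓝 (0, Λ)) (𝓝 0) := by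
        have h5 := h3.tendsto ((0 : R), Λ)
        simpa using h5
      exact h4.eventually (Iic_mem_nhds hδ)
  have himg := Filter.image_mem_map (m := Ψ) hS
  rw [hmap] at himg
  obtain ⟨ε, hε, hball⟩ := Metric.nhds_basis_closedBall.mem_iff.1 himg
  refine ⟨ε, hε, fun L hL => ?_⟩
  have hΨ0 : Ψ (0, Λ) = C0 * (∑ a, Λ a • P a) * C0i := by
    rw [hΨ, hD']
    simp
  have hLmem : L ∈ Metric.closedBall (Ψ (0, Λ)) ε := by
    rw [Metric.mem_closedBall, dist_eq_norm, hΨ0]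
    exact hL
  obtain ⟨⟨X, l⟩, ⟨hu, hc, hl⟩, hXL⟩ := hball hLmem
  rw [hΨ] at hXL
  dsimp only at hu hc hl hXL
  have hi1 := Ring.inverse_mul_cancel _ hu
  have hi2 := Ring.mul_inverse_cancel _ hu
  refine ⟨C0 * (1 + X), Ring.inverse (1 + X) * C0i, l, ?_, ?_, ?_, hc, hl⟩
  · calc Ring.inverse (1 + X) * C0i * (C0 * (1 + X)) =
        Ring.inverse (1 + X) * (C0i * C0) * (1 + X) := by noncomm_ring
      _ = 1 := by rw [h2, mul_one, hi1]
  · calc C0 * (1 + X) * (Ring.inverse (1 + X) * C0i) =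
        C0 * ((1 + X) * Ring.inverse (1 + X)) * C0i := by noncomm_ring
      _ = 1 := by rw [hi2, mul_one, h1]
  · rw [← hXL, ← hD']
    calc C0 * (1 + X) * D' l * Ring.inverse (1 + X) * C0i * (C0 * (1 + X)) =
        C0 * (1 + X) * D' l * (Ring.inverse (1 + X) * (C0i * C0) * (1 + X)) := by noncomm_ring
      _ = C0 * (1 + X) * D' l := by rw [h2, mul_one, hi1, mul_one]

/-- the coordinate functionals -/
def d0_phi (d : ℕ) : Option (Option (Fin d)) → (En d →L[ℝ] ℝ)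
  | none => (ContinuousLinearMap.fst ℝ ℝ ℝ).comp (ContinuousLinearMap.fst ℝ Pt (Wd d))
  | some none => (ContinuousLinearMap.snd ℝ ℝ ℝ).comp (ContinuousLinearMap.fst ℝ Pt (Wd d))
  | some (some k) => (ContinuousLinearMap.proj (R := ℝ) (φ := fun _ : Fin d => ℝ) k).comp
      (ContinuousLinearMap.snd ℝ Pt (Wd d))

/-- the standard basis -/
def d0_e (d : ℕ) : Option (Option (Fin d)) → En d
  | none => ((1, 0), 0)
  | some none => ((0, 1), 0)
  | some (some k) => ((0, 0), Pi.single k 1)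

theorem d0_phi_e (d : ℕ) (a b : Option (Option (Fin d))) :
    d0_phi d a (d0_e d b) = if a = b then 1 else 0 := by
  rcases a with _ | _ | k <;> rcases b with _ | _ | l <;>
    simp [d0_phi, d0_e, Pi.single_apply]

theorem d0_sum (d : ℕ) (v : En d) : ∑ a, d0_phi d a v • d0_e d a = v := by
  rw [Fintype.sum_option, Fintype.sum_option]
  ext k
  · simp [d0_phi, d0_e, Prod.fst_sum]
  · simp [d0_phi, d0_e, Prod.fst_sum]
  · simp [d0_phi, d0_e, Prod.snd_sum, Finset.sum_apply, Pi.single_apply]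

/-- the projections -/
def d0_P (d : ℕ) (a : Option (Option (Fin d))) : En d →L[ℝ] En d :=
  (d0_phi d a).smulRight (d0_e d a)

theorem d0_P_apply (d : ℕ) (a : Option (Option (Fin d))) (v : En d) :
    d0_P d a v = d0_phi d a v • d0_e d a := rfl

theorem d0_dgD (d : ℕ) (Λ : Option (Option (Fin d)) → ℝ) :
    ∑ a, Λ a • d0_P d a = dgD (Λ none) (Λ (some none)) (fun k => Λ (some (some k))) := by
  rw [Fintype.sum_option, Fintype.sum_option]
  apply ContinuousLinearMap.ext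
  intro v
  rw [dgD_apply]
  ext k
  · simp [d0_P_apply, d0_phi, d0_e, Prod.fst_sum]
  · simp [d0_P_apply, d0_phi, d0_e, Prod.fst_sum]
  · simp [d0_P_apply, d0_phi, d0_e, Prod.snd_sum, Finset.sum_apply, Pi.single_apply, mulw]

/-- the inverse of `CC0` -/
def d0_C0i (d : ℕ) : En d →L[ℝ] En d :=
  ((-ContinuousLinearMap.snd ℝ ℝ ℝ).prod (ContinuousLinearMap.fst ℝ ℝ ℝ)).prodMap
    (ContinuousLinearMap.id ℝ (Wd d))

theorem d0_awk_pos (d : ℕ) (k : Fin d) : 0 < awk d k ∧ awk d k ≤ 1 / 10 ^ 7 := by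
  have hk : (k : ℝ) + 1 ≤ (d : ℝ) + 1 := by
    have h1 : (k : ℝ) ≤ (d : ℝ) := by exact_mod_cast k.2.le
    linarith
  have hk0 : 0 ≤ (k : ℝ) := Nat.cast_nonneg _
  have hd : 0 < 10 * ((d : ℝ) + 1) := by positivity
  have h2 : ((k : ℝ) + 1) / (10 * ((d : ℝ) + 1)) ≤ 1 / 10 := by
    rw [div_le_iff₀ hd]
    linarith
  have h3 : 0 ≤ ((k : ℝ) + 1) / (10 * ((d : ℝ) + 1)) := by positivity
  unfold awk aw
  constructor
  · apply mul_pos (by norm_num)
    linarith
  · have h4 : (1 : ℝ) / 10 ^ 7 * (1 - ((k : ℝ) + 1) / (10 * ((d : ℝ) + 1))) ≤ 1 / 10 ^ 7 * 1 := by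
      apply mul_le_mul_of_nonneg_left _ (by norm_num)
      linarith
    linarith

theorem d0_awk_inj (d : ℕ) {k l : Fin d} (h : awk d k = awk d l) : k = l := by
  unfold awk at h
  have h1 : (1 - ((k : ℝ) + 1) / (10 * ((d : ℝ) + 1))) = (1 - ((l : ℝ) + 1) / (10 * ((d : ℝ) + 1))) :=
    mul_left_cancel₀ (by unfold aw; norm_num) h
  have hd : (10 * ((d : ℝ) + 1)) ≠ 0 := by positivity
  have h2 : ((k : ℝ) + 1) / (10 * ((d : ℝ) + 1)) = ((l : ℝ) + 1) / (10 * ((d : ℝ) + 1)) := by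
    linarith
  rw [div_left_inj' hd] at h2
  have h3 : (k : ℝ) = (l : ℝ) := by linarith
  exact Fin.ext (by exact_mod_cast h3)

/-- the eigenvalues -/
def d0_lam (d : ℕ) (i : Sy) : Option (Option (Fin d)) → ℝ
  | none => qw i
  | some none => 1 / pw i
  | some (some k) => awk d k

theorem d0_lam_inj (d : ℕ) (i : Sy) : Function.Injective (d0_lam d i) := by
  have hq : 1 / 10 ^ 6 < qw i := by cases i <;> norm_num [qw]
  have hp : 1 / 10 ^ 6 < 1 / pw i := by cases i <;> norm_num [pw]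
  have hqp : qw i < 1 / pw i := by cases i <;> norm_num [pw, qw]
  intro a b hab
  rcases a with _ | _ | k <;> rcases b with _ | _ | l
  · rfl
  · exact absurd hab hqp.ne
  · have h1 : qw i = awk d l := hab
    have h2 := (d0_awk_pos d l).2
    norm_num at h2 hq
    linarith
  · exact absurd hab hqp.ne'
  · rfl
  · have h1 : 1 / pw i = awk d l := hab
    have h2 := (d0_awk_pos d l).2
    norm_num at h2 hp h1
    linarith
  · have h1 : awk d k = qw i := hab
    have h2 := (d0_awk_pos d k).2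
    norm_num at h2 hq
    linarith
  · have h1 : awk d k = 1 / pw i := hab
    have h2 := (d0_awk_pos d k).2
    norm_num at h2 hp h1
    linarith
  · have h1 : awk d k = awk d l := hab
    rw [d0_awk_inj d h1]

theorem d0_one (d : ℕ) (i : Sy) : ∃ ε > (0 : ℝ), ∀ (L : En d →L[ℝ] En d), ‖L - MdL d i‖ ≤ ε →
    ∃ (C C' : En d →L[ℝ] En d) (lam mu : ℝ) (al : Wd d), C'.comp C = ContinuousLinearMap.id ℝ _ ∧
      C.comp C' = ContinuousLinearMap.id ℝ _ ∧ L.comp C = C.comp (dgD lam mu al) ∧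
      ‖C - CC0 d‖ ≤ 1 / 10 ^ 12 ∧ |lam - qw i| ≤ 1 / 10 ^ 12 ∧ |mu - 1 / pw i| ≤ 1 / 10 ^ 12 ∧
      ∀ k, |al k - awk d k| ≤ 1 / (10 ^ 12 * ((d : ℝ) + 1)) := by
  have hδ : (0 : ℝ) < 1 / (10 ^ 12 * ((d : ℝ) + 1)) := by positivity
  have hδ' : (1 : ℝ) / (10 ^ 12 * ((d : ℝ) + 1)) ≤ 1 / 10 ^ 12 := by
    apply one_div_le_one_div_of_le (by norm_num)
    have h1 : (0 : ℝ) ≤ (d : ℝ) := Nat.cast_nonneg _
    nlinarith
  have h1 : CC0 d * d0_C0i d = 1 := by
    apply ContinuousLinearMap.ext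
    intro v
    ext k <;> simp [CC0, d0_C0i]
  have h2 : d0_C0i d * CC0 d = 1 := by
    apply ContinuousLinearMap.ext
    intro v
    ext k <;> simp [CC0, d0_C0i]
  obtain ⟨ε, hε, h⟩ := d0_gen (d0_P d) (by
    intro a
    apply ContinuousLinearMap.ext
    intro v
    rw [ContinuousLinearMap.mul_apply, d0_P_apply, d0_P_apply, map_smul, d0_phi_e, if_pos rfl,
      smul_eq_mul, mul_one]) (by
    intro a b hab
    apply ContinuousLinearMap.ext
    intro v
    rw [ContinuousLinearMap.mul_apply, d0_P_apply, d0_P_apply, map_smul, d0_phi_e, if_neg hab,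
      smul_zero, zero_smul, ContinuousLinearMap.zero_apply]) (by
    apply ContinuousLinearMap.ext
    intro v
    rw [ContinuousLinearMap.sum_apply]
    exact d0_sum d v) (by
    intro a M
    refine ⟨d0_phi d a (M (d0_e d a)), ?_⟩
    apply ContinuousLinearMap.ext
    intro v
    rw [ContinuousLinearMap.mul_apply, ContinuousLinearMap.mul_apply,
      ContinuousLinearMap.smul_apply, d0_P_apply, d0_P_apply, map_smul, map_smul, smul_eq_mul,
      smul_smul, mul_comm]) (d0_lam d i) (d0_lam_inj d i) h1 h2 hδ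
  refine ⟨ε, hε, fun L hL => ?_⟩
  have h3 : CC0 d * (∑ a, d0_lam d i a • d0_P d a) * d0_C0i d = MdL d i := by
    rw [d0_dgD]
    apply ContinuousLinearMap.ext
    intro v
    rw [ContinuousLinearMap.mul_apply, ContinuousLinearMap.mul_apply, dgD_apply, MdL, dgD_apply]
    ext k <;> simp [CC0, d0_C0i, d0_lam]
  rw [h3] at h
  obtain ⟨C, C', Λ', k1, k2, k3, k4, k5⟩ := h L hL
  rw [d0_dgD] at k3
  exact ⟨C, C', Λ' none, Λ' (some none), fun k => Λ' (some (some k)), k1, k2, k3, k4.trans hδ',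
    (k5 none).trans hδ', (k5 (some none)).trans hδ', fun k => k5 (some (some k))⟩

theorem exists_en (d : ℕ) : ∃ ε > (0 : ℝ), ∀ (i : Sy) (L : En d →L[ℝ] En d), ‖L - MdL d i‖ ≤ ε →
    ∃ (C C' : En d →L[ℝ] En d) (lam mu : ℝ) (al : Wd d), C'.comp C = ContinuousLinearMap.id ℝ _ ∧
      C.comp C' = ContinuousLinearMap.id ℝ _ ∧ L.comp C = C.comp (dgD lam mu al) ∧
      ‖C - CC0 d‖ ≤ 1 / 10 ^ 12 ∧ |lam - qw i| ≤ 1 / 10 ^ 12 ∧ |mu - 1 / pw i| ≤ 1 / 10 ^ 12 ∧
      ∀ k, |al k - awk d k| ≤ 1 / (10 ^ 12 * ((d : ℝ) + 1)) := by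
  obtain ⟨ε, hε, h⟩ := d0_one d Sy.P
  obtain ⟨ε', hε', h'⟩ := d0_one d Sy.Q
  refine ⟨min ε ε', lt_min hε hε', ?_⟩
  intro i L hL
  cases i
  · exact h L (hL.trans (min_le_left _ _))
  · exact h' L (hL.trans (min_le_right _ _))

/-- the closeness constant in dimension `2 + d` -/
def en (d : ℕ) : ℝ := min (min (exists_en d).choose e0) (1 / (10 ^ 12 * ((d : ℝ) + 1)))

theorem en_pos (d : ℕ) : 0 < en d := by
  unfold en
  refine lt_min (lt_min (exists_en d).choose_spec.1 (by norm_num [e0])) (by positivity)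

theorem en_le (d : ℕ) : en d ≤ e0 := (min_le_left _ _).trans (min_le_right _ _)

theorem diagonalizable {i : Sy} {L : En d →L[ℝ] En d} (h : ‖L - MdL d i‖ ≤ en d) :
    ∃ (C C' : En d →L[ℝ] En d) (lam mu : ℝ) (al : Wd d), C'.comp C = ContinuousLinearMap.id ℝ _ ∧
      C.comp C' = ContinuousLinearMap.id ℝ _ ∧ L.comp C = C.comp (dgD lam mu al) ∧
      ‖C - CC0 d‖ ≤ 1 / 10 ^ 12 ∧ |lam - qw i| ≤ 1 / 10 ^ 12 ∧ |mu - 1 / pw i| ≤ 1 / 10 ^ 12 ∧
      ∀ k, |al k - awk d k| ≤ 1 / (10 ^ 12 * ((d : ℝ) + 1)) :=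
  (exists_en d).choose_spec.2 i L (h.trans ((min_le_left _ _).trans (min_le_left _ _)))

/-- `NearD` with the closeness `en d` and the model rates `awk d`; for all sections except A -/
structure NearS (g : En d → En d) : Prop extends NearD g where
  closeS : ∀ i, ∀ z ∈ VVd d i, ‖fderiv ℝ g z - MdL d i‖ ≤ en d
  foldS : ∀ z ∈ FFd d, ‖fderiv ℝ g z - FoldL d z‖ ≤ en d
  wvalS : ∀ z ∈ Dd d, ‖(g z).2 - mulw (awk d) z.2‖ ≤ en d

/-- the box in which perturbations are supported -/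
def K0D (d : ℕ) : Set (En d) := K0 ×ˢ Metric.closedBall 0 4

/-- small perturbations of the identity -/
structure SmallD (R : ℕ) (ε : ℝ) (ψ : En d → En d) : Prop where
  smooth : ContDiff ℝ ∞ ψ
  supp : ∀ z, z ∉ K0D d → ψ z = z
  bound : ∀ j ≤ R, ∀ z, ‖iteratedFDeriv ℝ j (fun z => ψ z - z) z‖ ≤ ε

/-- sets of maps which are open for perturbations (after the map) that are small in `C^R` -/
def PertOpenD (R : ℕ) (U : Set (En d → En d)) : Prop :=
  ∀ g ∈ U, ∃ ε > (0 : ℝ), ∀ ψ, SmallD R ε ψ → ψ ∘ g ∈ U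

/-- a centre spot: a smooth disc of periodic points in `Omd d` -/
def CentreSpot (g : En d → En d) : Prop :=
  ∃ K : ℕ, 0 < K ∧ ∃ ι : Pt → En d, (∀ᶠ v in 𝓝 (0 : Pt), ContDiffAt ℝ ∞ ι v) ∧
    Function.Injective (fderiv ℝ ι 0) ∧
    ∀ᶠ v in 𝓝 (0 : Pt), (∀ i < K, g^[i] (ι v) ∈ Omd d) ∧ g^[K] (ι v) = ι v

end

end Pool.Agent.Lib.H37D
end

-- from Lib.H37N.A02
section

/-!
# H37N A02 (size M): the cross system of a near map: existence, uniqueness, values
-/

open Set Filter Topology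
open scoped ContDiff

namespace Pool.Agent.Lib.H37N

variable {g : Pt → Pt}

theorem a02_pw (i : Sy) : 0 < pw i ∧ pw i ≤ 4 / 5 := by
  cases i <;> norm_num [pw]

theorem a02_qw (i : Sy) : 0 < qw i ∧ qw i ≤ 1 / 2 := by
  cases i <;> norm_num [qw]

theorem a02_inv (i : Sy) : 0 < 1 / pw i - e0 := by
  cases i <;> norm_num [pw, e0]

theorem a02_fd (h : Near g) (i : Sy) {z : Pt} (hz : z ∈ VV i) : HasFDerivAt g (fderiv ℝ g z) z := by
  obtain ⟨O, hO, hsub, hc, -, -⟩ := h.smooth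
  have hzO : z ∈ O := by
    cases i
    · exact hsub (Or.inl (Or.inl hz))
    · exact hsub (Or.inl (Or.inr hz))
  have h1 : ContDiffAt ℝ ∞ g z := hc.contDiffAt (hO.mem_nhds hzO)
  exact (h1.differentiableAt (by simp)).hasFDerivAt

theorem a02_der (h : Near g) (i : Sy) {x y : ℝ} (hz : (x, y) ∈ VV i) :
    HasDerivAt (fun x => (g (x, y)).1) (fderiv ℝ g (x, y) (1, 0)).1 x := by
  have h1 : HasDerivAt (fun x : ℝ => ((x, y) : Pt)) ((1, 0) : Pt) x :=
    (hasDerivAt_id x).prodMk (hasDerivAt_const x y)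
  have h2 : HasDerivAt (fun x : ℝ => g (x, y)) (fderiv ℝ g (x, y) (1, 0)) x :=
    (a02_fd h i hz).comp_hasDerivAt x h1
  exact (hasFDerivAt_fst (𝕜 := ℝ) (E := ℝ) (F := ℝ) (p := g (x, y))).comp_hasDerivAt x h2

theorem a02_mem {i : Sy} {x0 x1 y x : ℝ} (h0 : (x0, y) ∈ VV i) (h1 : (x1, y) ∈ VV i) (hx : x ∈ Icc x0 x1) :
    (x, y) ∈ VV i :=
  ⟨⟨h0.1.1.trans hx.1, hx.2.trans h1.1.2⟩, h0.2⟩

/-- the first component is strictly increasing along horizontal segments of `VV i`: for `(x0, y), (x1, y) ∈ VV i`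
with `x0 ≤ x1`: `(1 / pw i - e0) (x1 - x0) ≤ g_1(x1,y) - g_1(x0,y)`.
Proof. `φ x = (g (x, y)).1` has derivative `(fderiv ℝ g (x, y) (1, 0)).1 ≥ 1 / pw i - e0` at every point of
`[x0, x1]` (chain rule; `g` is differentiable on the open `O ⊇ VV i`, `h.smooth`, `h.close1`); mean value theorem
(`Convex.mul_sub_le_image_sub_of_le_deriv` or `exists_deriv_eq_slope`). -/
theorem g1_mono (h : Near g) (i : Sy) {x0 x1 y : ℝ} (h0 : (x0, y) ∈ VV i) (h1 : (x1, y) ∈ VV i)
    (hx : x0 ≤ x1) : (1 / pw i - e0) * (x1 - x0) ≤ (g (x1, y)).1 - (g (x0, y)).1 := by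
  have hD : ∀ x ∈ Icc x0 x1, HasDerivAt (fun x => (g (x, y)).1) (fderiv ℝ g (x, y) (1, 0)).1 x :=
    fun x hx => a02_der h i (a02_mem h0 h1 hx)
  refine (convex_Icc x0 x1).mul_sub_le_image_sub_of_le_deriv (f := fun x => (g (x, y)).1)
    (fun x hx => (hD x hx).continuousAt.continuousWithinAt)
    (fun x hx => (hD x (interior_subset hx)).differentiableAt.differentiableWithinAt) ?_
    x0 ⟨le_rfl, hx⟩ x1 ⟨hx, le_rfl⟩ hx
  intro x hx
  rw [(hD x (interior_subset hx)).deriv]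
  have := (h.close1 i (x, y) (a02_mem h0 h1 (interior_subset hx))).1
  linarith [(abs_le.mp this).1]

/-- Proof. `y = z.2 ∈ II`, `x' = z.1 ∈ II`. `φ x = (g (x, y)).1` is continuous on `[al i - del, al i + pw i + del]`. At the
left end `φ ≤ -del / pw i + e0 < -del ≤ x'` (`h.close0`, `Aff`; `del / pw i ≥ 1.25 del` and `e0 < del / 4`), at the
right end `φ ≥ 1 + del / pw i - e0 > 1 + del ≥ x'`. Intermediate value theorem: some `x` with `φ x = x'`, so
`Classical.epsilon_spec` gives the claim for `XX g i z`. -/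
theorem XX_spec (h : Near g) (i : Sy) {z : Pt} (hz : z ∈ NN) :
    (XX g i z, z.2) ∈ VV i ∧ (g (XX g i z, z.2)).1 = z.1 := by
  obtain ⟨hz1, hz2⟩ := mem_NN.mp hz
  have hp := a02_pw i
  have hle : al i - del ≤ al i + pw i + del := by
    have : 0 < del := by norm_num [del]
    linarith
  have hL : (al i - del, z.2) ∈ VV i := ⟨⟨le_rfl, hle⟩, hz2⟩
  have hR : (al i + pw i + del, z.2) ∈ VV i := ⟨⟨hle, le_rfl⟩, hz2⟩
  have hcont : ContinuousOn (fun x => (g (x, z.2)).1) (Icc (al i - del) (al i + pw i + del)) :=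
    fun x hx => (a02_der h i (a02_mem hL hR hx)).continuousAt.continuousWithinAt
  have h1 : (g (al i - del, z.2)).1 ≤ z.1 := by
    have := (h.close0 i _ hL).1
    have h2 : (Aff i (al i - del, z.2)).1 = -del / pw i := by
      simp only [Aff]; congr 1; ring
    rw [h2] at this
    have h3 := (abs_le.mp this).2
    have h4 : -del / pw i + e0 ≤ -del := by
      cases i <;> norm_num [del, pw, e0]
    linarith [hz1.1]
  have h1' : z.1 ≤ (g (al i + pw i + del, z.2)).1 := by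
    have := (h.close0 i _ hR).1
    have h2 : (Aff i (al i + pw i + del, z.2)).1 = (pw i + del) / pw i := by
      simp only [Aff]; congr 1; ring
    rw [h2] at this
    have h3 := (abs_le.mp this).1
    have h4 : 1 + del ≤ (pw i + del) / pw i - e0 := by
      cases i <;> norm_num [del, pw, e0]
    linarith [hz1.2]
  obtain ⟨x, hx, hxe⟩ := intermediate_value_Icc hle hcont ⟨h1, h1'⟩
  have hex : ∃ x, (x, z.2) ∈ VV i ∧ (g (x, z.2)).1 = z.1 := ⟨x, a02_mem hL hR hx, hxe⟩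
  have := Classical.epsilon_spec (p := fun x => (x, z.2) ∈ VV i ∧ (g (x, z.2)).1 = z.1) hex
  unfold XX
  rw [if_pos hz]
  exact this

/-- Proof. Strict monotonicity (`g1_mono`, `1 / pw i - e0 > 0`). -/
theorem XX_unique (h : Near g) (i : Sy) {z : Pt} (hz : z ∈ NN) {x : ℝ} (hx : (x, z.2) ∈ VV i)
    (hgx : (g (x, z.2)).1 = z.1) : x = XX g i z := by
  obtain ⟨h1, h2⟩ := XX_spec h i hz
  have hi := a02_inv i
  rcases le_total x (XX g i z) with hle | hle
  · have h3 := g1_mono h i hx h1 hle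
    rw [h2, hgx, sub_self] at h3
    have : XX g i z - x ≤ 0 := by
      by_contra hc
      push Not at hc
      linarith [mul_pos hi hc]
    linarith
  · have h3 := g1_mono h i h1 hx hle
    rw [h2, hgx, sub_self] at h3
    have : x - XX g i z ≤ 0 := by
      by_contra hc
      push Not at hc
      linarith [mul_pos hi hc]
    linarith

/-- Proof. `|z.1 - (XX - al i) / pw i| = |g_1 - Aff_1| ≤ e0` (`h.close0` at the point of `XX_spec`); multiply by
`pw i ≤ 1`. -/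
theorem XX_val (h : Near g) (i : Sy) {z : Pt} (hz : z ∈ NN) :
    |XX g i z - (al i + pw i * z.1)| ≤ e0 := by
  obtain ⟨h1, h2⟩ := XX_spec h i hz
  have h3 := (h.close0 i _ h1).1
  rw [h2] at h3
  simp only [Aff] at h3
  have hp := a02_pw i
  have e : XX g i z - (al i + pw i * z.1) = -(pw i * (z.1 - (XX g i z - al i) / pw i)) := by
    have := hp.1.ne'
    field_simp
    ring
  rw [e, abs_neg, abs_mul, abs_of_pos hp.1]
  calc pw i * |z.1 - (XX g i z - al i) / pw i| ≤ 1 * e0 :=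
        mul_le_mul (by linarith [hp.2]) h3 (abs_nonneg _) zero_le_one
    _ = e0 := one_mul _

/-- Proof. `h.close0` at the point of `XX_spec`, second component. -/
theorem YY_val (h : Near g) (i : Sy) {z : Pt} (hz : z ∈ NN) :
    |YY g i z - (be i + qw i * z.2)| ≤ e0 := by
  obtain ⟨h1, h2⟩ := XX_spec h i hz
  have h3 := (h.close0 i _ h1).2
  simp only [Aff] at h3
  unfold YY
  rw [if_pos hz]
  exact h3

/-- the values are interior. Proof. From `XX_val` and `z.1 ∈ II`: `al i + pw i * z.1 ≥ al i - pw i * del`,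
`pw i * del + e0 < del` (as `pw i ≤ 4/5`), similarly on the right: `al i + pw i * z.1 ≤ al i + pw i + pw i * del`. -/
theorem XX_int (h : Near g) (i : Sy) {z : Pt} (hz : z ∈ NN) :
    XX g i z ∈ Ioo (al i - del) (al i + pw i + del) := by
  have h1 := abs_le.mp (XX_val h i hz)
  obtain ⟨hz1, -⟩ := mem_NN.mp hz
  have hp := a02_pw i
  have h2 : pw i * (-del) ≤ pw i * z.1 := mul_le_mul_of_nonneg_left hz1.1 hp.1.le
  have h3 : pw i * z.1 ≤ pw i * (1 + del) := mul_le_mul_of_nonneg_left hz1.2 hp.1.le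
  have h4 : pw i * del + e0 < del := by
    cases i <;> norm_num [del, pw, e0]
  constructor <;> linarith [h1.1, h1.2]

/-- Proof. From `YY_val`, `z.2 ∈ II`: `be i + qw i * z.2` lies in `[-qw i * del, 1 + qw i * del]` (for `Q`:
`be Q + qw Q = 1`), and `qw i * del + e0 < del`. -/
theorem YY_int (h : Near g) (i : Sy) {z : Pt} (hz : z ∈ NN) :
    YY g i z ∈ Ioo (-del) (1 + del) := by
  have h1 := abs_le.mp (YY_val h i hz)
  obtain ⟨-, hz1⟩ := mem_NN.mp hz
  have hp := a02_qw i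
  have h2 : qw i * (-del) ≤ qw i * z.2 := mul_le_mul_of_nonneg_left hz1.1 hp.1.le
  have h3 : qw i * z.2 ≤ qw i * (1 + del) := mul_le_mul_of_nonneg_left hz1.2 hp.1.le
  have h4 : qw i * del + e0 < del := by
    cases i <;> norm_num [del, qw, e0]
  have h5 : 0 ≤ be i ∧ be i + qw i ≤ 1 := by
    cases i <;> norm_num [be, qw]
  constructor <;> linarith [h1.1, h1.2, h5.1, h5.2]

/-- Proof. unfold; `al Q + pw Q = 1`. -/
theorem VV_sub_NN (i : Sy) : VV i ⊆ NN := by
  intro z hz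
  obtain ⟨⟨h1, h2⟩, h3⟩ := hz
  have h5 : 0 ≤ al i ∧ al i + pw i ≤ 1 := by
    cases i <;> norm_num [al, pw]
  exact ⟨⟨by linarith [h5.1], by linarith [h5.2]⟩, h3⟩

/-- A point of `VV i` whose image is in `NN` satisfies the cross equations.
Proof. `XX_unique` for `((g z).1, z.2) ∈ NN` (`z.2 ∈ II` since `VV i ⊆ NN`), and the definition of `YY`. -/
theorem cross_of (h : Near g) (i : Sy) {z : Pt} (hz : z ∈ VV i) (hgz : g z ∈ NN) :
    XX g i ((g z).1, z.2) = z.1 ∧ YY g i ((g z).1, z.2) = (g z).2 := by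
  have hz' : ((g z).1, z.2) ∈ NN := mem_NN.mpr ⟨(mem_NN.mp hgz).1, (mem_NN.mp (VV_sub_NN i hz)).2⟩
  have h1 : z.1 = XX g i ((g z).1, z.2) := XX_unique h i hz' (x := z.1) hz rfl
  refine ⟨h1.symm, ?_⟩
  unfold YY
  rw [if_pos hz', ← h1]

/-- Conversely. Proof: `XX_spec`, definition of `YY`. -/
theorem g_cross (h : Near g) (i : Sy) {x' y : ℝ} (hz : (x', y) ∈ NN) :
    g (XX g i (x', y), y) = (x', YY g i (x', y)) := by
  obtain ⟨h1, h2⟩ := XX_spec h i hz
  refine Prod.ext h2 ?_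
  unfold YY
  rw [if_pos hz]

end Pool.Agent.Lib.H37N
end

-- from Lib.H37N.BDefs
section

/-!
# H37N, section B: definitions (linear charts, transversal connection)
-/

open Set Filter Topology
open scoped ContDiff

namespace Pool.Agent.Lib.H37N

noncomputable section

/-- the Jacobian determinant -/
def jac (g : Pt → Pt) (z : Pt) : ℝ :=
  (fderiv ℝ g z (1, 0)).1 * (fderiv ℝ g z (0, 1)).2 -
    (fderiv ℝ g z (1, 0)).2 * (fderiv ℝ g z (0, 1)).1

/-- the box of the linear charts -/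
def Bx : Set Pt := Ioo (-2) 2 ×ˢ Ioo (-2) 2

/-- range of the unstable eigenvalue -/
def muR : Sy → Set ℝ
  | Sy.P => Ioo (124 / 100) (126 / 100)
  | Sy.Q => Ioo 5 (505 / 100)

/-- the fixed points of the affine models are `(fx i, fx i)` -/
def fx : Sy → ℝ
  | Sy.P => 0
  | Sy.Q => 1

/-- the diagonal linear map -/
def dg (lam mu : ℝ) : Pt →L[ℝ] Pt :=
  (lam • ContinuousLinearMap.fst ℝ ℝ ℝ).prod (mu • ContinuousLinearMap.snd ℝ ℝ ℝ)

@[simp] theorem dg_apply (lam mu : ℝ) (v : Pt) : dg lam mu v = (lam * v.1, mu * v.2) := rfl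

/-- `κ` linearises `g` near its fixed point in `VV i`; the first coordinate is the stable one,
the second coordinate is the unstable one; `c` is the inverse of `κ` -/
structure LinChart (g : Pt → Pt) (i : Sy) (κ c : Pt → Pt) (lam mu : ℝ) : Prop where
  smooth : ContDiff ℝ ∞ κ
  inj : InjOn κ Bx
  jac_pos : ∀ v ∈ Bx, 0 < jac κ v
  isOpen : IsOpen (κ '' Bx)
  sub : κ '' Bx ⊆ interior (VV i)
  smooth_c : ContDiff ℝ ∞ c
  left : ∀ v ∈ Bx, c (κ v) = v
  lin : ∀ x y : ℝ, |x| < 2 → |mu * y| < 2 → g (κ (x, y)) = κ (lam * x, mu * y)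
  lam_mem : lam ∈ Ioo (49 / 100 : ℝ) (51 / 100)
  mu_mem : mu ∈ muR i

/-- the domain of the two affine branches -/
def VO : Set Pt := interior (VV Sy.P) ∪ interior (VV Sy.Q)

/-- the transition map from the chart at `P` to the chart at `Q` -/
def SM (g κP cQ : Pt → Pt) (kS : ℕ) (uS : ℝ) (v : Pt) : Pt := cQ (g^[kS] (κP (v.1, uS + v.2)))

/-- a transversal connection of the two fixed points -/
structure SData (g κP κQ cQ : Pt → Pt) (kS : ℕ) (uS sS : ℝ) : Prop where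
  pos : 1 ≤ kS
  u_ne : uS ≠ 0
  u_lt : |uS| < 1
  s_lt : |sS| < 1
  path : ∀ᶠ v in 𝓝 (0 : Pt), ∀ j ≤ kS, g^[j] (κP (v.1, uS + v.2)) ∈ VO
  hit : g^[kS] (κP (0, uS)) = κQ (sS, 0)
  smooth : ∀ᶠ v in 𝓝 (0 : Pt), ContDiffAt ℝ ∞ (SM g κP cQ kS uS) v
  S0 : SM g κP cQ kS uS 0 = (sS, 0)
  back : ∀ᶠ v in 𝓝 (0 : Pt), SM g κP cQ kS uS v ∈ Bx ∧
    κQ (SM g κP cQ kS uS v) = g^[kS] (κP (v.1, uS + v.2))
  jac_pos : 0 < jac (SM g κP cQ kS uS) 0
  d_pos : 0 < (fderiv ℝ (SM g κP cQ kS uS) 0 (0, 1)).2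

/-- the data of the two charts and of the connection -/
structure Fr where
  κ : Sy → Pt → Pt
  c : Sy → Pt → Pt
  lam : Sy → ℝ
  mu : Sy → ℝ
  kS : ℕ
  uS : ℝ
  sS : ℝ

/-- `F` is a frame of `g` -/
structure IsFr (g : Pt → Pt) (F : Fr) : Prop where
  chart : ∀ i, LinChart g i (F.κ i) (F.c i) (F.lam i) (F.mu i)
  irr : Irrational (Real.log (F.lam Sy.P * F.mu Sy.P) / Real.log (F.lam Sy.Q * F.mu Sy.Q))
  sdata : SData g (F.κ Sy.P) (F.κ Sy.Q) (F.c Sy.Q) F.kS F.uS F.sS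

end

end Pool.Agent.Lib.H37N
end

-- from Lib.H37N.B01
section

/-! # H37N, chunk B01 (M): elementary facts on near maps on the strips -/

open Set Filter Topology
open scoped ContDiff

namespace Pool.Agent.Lib.H37N

/-- PROOF. `interior_prod_eq`, `interior_Icc`; numbers (unfold pw, al, del; cases i). -/
theorem mem_interior_VV {i : Sy} {z : Pt} : z ∈ interior (VV i) ↔
    (al i - del < z.1 ∧ z.1 < al i + pw i + del) ∧ -del < z.2 ∧ z.2 < 1 + del := by
  unfold VV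
  rw [interior_prod_eq, interior_Icc, interior_Icc]
  simp only [mem_prod, mem_Ioo]

theorem mem_VV {i : Sy} {z : Pt} : z ∈ VV i ↔
    (al i - del ≤ z.1 ∧ z.1 ≤ al i + pw i + del) ∧ -del ≤ z.2 ∧ z.2 ≤ 1 + del := by
  unfold VV
  simp only [mem_prod, mem_Icc]

theorem VV_sub_interior_K0 (i : Sy) : VV i ⊆ interior K0 := by
  intro z hz
  rw [mem_VV] at hz
  obtain ⟨⟨h1, h2⟩, h3, h4⟩ := hz
  unfold K0
  rw [interior_prod_eq, interior_Icc]
  simp only [mem_prod, mem_Ioo]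
  cases i <;> simp only [al, pw, del] at h1 h2 h3 h4 <;>
    refine ⟨⟨?_, ?_⟩, ?_, ?_⟩ <;> linarith

theorem not_mem_VV_of_ne {i j : Sy} (hij : i ≠ j) {z : Pt} (hz : z ∈ VV i) : z ∉ VV j := by
  intro hz'
  rw [mem_VV] at hz hz'
  obtain ⟨⟨h1, h2⟩, h3, h4⟩ := hz
  obtain ⟨⟨h1', h2'⟩, h3', h4'⟩ := hz'
  cases i <;> cases j <;> simp only [al, pw, del] at h1 h2 h1' h2' <;>
    first
      | exact hij rfl
      | linarith

/-- PROOF. `hg.smooth` gives an open O; O is a neighbourhood of z and of every w near z; `ContDiffOn.contDiffAt`. -/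
theorem Near.contDiffAt {g : Pt → Pt} (hg : Near g) {i : Sy} {z : Pt} (hz : z ∈ VV i) :
    ∀ᶠ w in 𝓝 z, ContDiffAt ℝ ∞ g w := by
  obtain ⟨O, hO, hsub, hs, -, -⟩ := hg.smooth
  have hzO : z ∈ O := by
    apply hsub
    cases i
    · exact Or.inl (Or.inl hz)
    · exact Or.inl (Or.inr hz)
  filter_upwards [hO.mem_nhds hzO] with w hw
  exact hs.contDiffAt (hO.mem_nhds hw)

theorem Near.jac_pos {g : Pt → Pt} (hg : Near g) {i : Sy} {z : Pt} (hz : z ∈ VV i) : 0 < jac g z := by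
  obtain ⟨O, hO, hsub, hs, -, hj⟩ := hg.smooth
  have hzO : z ∈ O := by
    apply hsub
    cases i
    · exact Or.inl (Or.inl hz)
    · exact Or.inl (Or.inr hz)
  exact hj z hzO

/-- PROOF. w = w.1 • (1,0) + w.2 • (0,1), linearity, `hg.close1`, |w.1|, |w.2| ≤ ‖w‖ (sup norm). -/
theorem Near.deriv_apply {g : Pt → Pt} (hg : Near g) {i : Sy} {z : Pt} (hz : z ∈ VV i) (w : Pt) :
    |(fderiv ℝ g z w).1 - w.1 / pw i| ≤ 2 * e0 * ‖w‖ ∧ |(fderiv ℝ g z w).2 - qw i * w.2| ≤ 2 * e0 * ‖w‖ := by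
  obtain ⟨c1, c2, c3, c4⟩ := hg.close1 i z hz
  have hw : w = w.1 • ((1 : ℝ), (0 : ℝ)) + w.2 • ((0 : ℝ), (1 : ℝ)) := by
    ext <;> simp
  have hL : fderiv ℝ g z w = w.1 • fderiv ℝ g z (1, 0) + w.2 • fderiv ℝ g z (0, 1) := by
    conv_lhs => rw [hw]
    rw [map_add, map_smul, map_smul]
  have n1 : |w.1| ≤ ‖w‖ := by
    have := norm_fst_le w
    rwa [Real.norm_eq_abs] at this
  have n2 : |w.2| ≤ ‖w‖ := by
    have := norm_snd_le w
    rwa [Real.norm_eq_abs] at this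
  have he : (0 : ℝ) ≤ e0 := by unfold e0; positivity
  rw [hL]
  constructor
  · have : (w.1 • fderiv ℝ g z (1, 0) + w.2 • fderiv ℝ g z (0, 1)).1 - w.1 / pw i
        = w.1 * ((fderiv ℝ g z (1, 0)).1 - 1 / pw i) + w.2 * (fderiv ℝ g z (0, 1)).1 := by
      simp only [Prod.fst_add, Prod.smul_fst, smul_eq_mul]
      ring
    rw [this]
    calc |w.1 * ((fderiv ℝ g z (1, 0)).1 - 1 / pw i) + w.2 * (fderiv ℝ g z (0, 1)).1|
        ≤ |w.1 * ((fderiv ℝ g z (1, 0)).1 - 1 / pw i)| + |w.2 * (fderiv ℝ g z (0, 1)).1| :=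
          abs_add_le _ _
      _ = |w.1| * |(fderiv ℝ g z (1, 0)).1 - 1 / pw i| + |w.2| * |(fderiv ℝ g z (0, 1)).1| := by
          rw [abs_mul, abs_mul]
      _ ≤ ‖w‖ * e0 + ‖w‖ * e0 := by
          gcongr
      _ = 2 * e0 * ‖w‖ := by ring
  · have : (w.1 • fderiv ℝ g z (1, 0) + w.2 • fderiv ℝ g z (0, 1)).2 - qw i * w.2
        = w.1 * (fderiv ℝ g z (1, 0)).2 + w.2 * ((fderiv ℝ g z (0, 1)).2 - qw i) := by
      simp only [Prod.snd_add, Prod.smul_snd, smul_eq_mul]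
      ring
    rw [this]
    calc |w.1 * (fderiv ℝ g z (1, 0)).2 + w.2 * ((fderiv ℝ g z (0, 1)).2 - qw i)|
        ≤ |w.1 * (fderiv ℝ g z (1, 0)).2| + |w.2 * ((fderiv ℝ g z (0, 1)).2 - qw i)| :=
          abs_add_le _ _
      _ = |w.1| * |(fderiv ℝ g z (1, 0)).2| + |w.2| * |(fderiv ℝ g z (0, 1)).2 - qw i| := by
          rw [abs_mul, abs_mul]
      _ ≤ ‖w‖ * e0 + ‖w‖ * e0 := by
          gcongr
      _ = 2 * e0 * ‖w‖ := by ring

/-- Mean value estimate on a strip.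

PROOF. VV i is convex (`convex_Icc`, `Convex.prod`).  For h(z) = (g z).1 - z.1 / pw i: differentiable at the points of VV i (`Near.contDiffAt`) with derivative
w ↦ (fderiv g z w).1 - w.1 / pw i of norm ≤ 2 e0 by `Near.deriv_apply` (`ContinuousLinearMap.opNorm_le_bound`); `Convex.norm_image_sub_le_of_norm_hasFDerivWithin_le`.
The same for (g z).2 - qw i * z.2. -/
theorem Near.diff {g : Pt → Pt} (hg : Near g) {i : Sy} {z z' : Pt} (hz : z ∈ VV i) (hz' : z' ∈ VV i) :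
    |(g z).1 - (g z').1 - (z.1 - z'.1) / pw i| ≤ 2 * e0 * ‖z - z'‖ ∧
      |(g z).2 - (g z').2 - qw i * (z.2 - z'.2)| ≤ 2 * e0 * ‖z - z'‖ := by
  have hconv : Convex ℝ (VV i) := (convex_Icc _ _).prod (convex_Icc _ _)
  have he : (0 : ℝ) ≤ 2 * e0 := by unfold e0; positivity
  have hd : ∀ x ∈ VV i, HasFDerivAt g (fderiv ℝ g x) x := by
    intro x hx
    have h1 : ContDiffAt ℝ ∞ g x := (hg.contDiffAt hx).self_of_nhds
    exact (h1.differentiableAt (by simp)).hasFDerivAt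
  constructor
  · have h1 : ∀ x ∈ VV i, HasFDerivWithinAt (fun z : Pt => (g z).1 - (1 / pw i) * z.1)
        ((ContinuousLinearMap.fst ℝ ℝ ℝ).comp (fderiv ℝ g x) -
          (1 / pw i) • ContinuousLinearMap.fst ℝ ℝ ℝ) (VV i) x := by
      intro x hx
      have ha : HasFDerivAt (fun z : Pt => (g z).1)
          ((ContinuousLinearMap.fst ℝ ℝ ℝ).comp (fderiv ℝ g x)) x :=
        (ContinuousLinearMap.fst ℝ ℝ ℝ).hasFDerivAt.comp x (hd x hx)
      have hb : HasFDerivAt (fun z : Pt => (1 / pw i) * z.1)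
          ((1 / pw i) • ContinuousLinearMap.fst ℝ ℝ ℝ) x :=
        (ContinuousLinearMap.fst ℝ ℝ ℝ).hasFDerivAt.const_mul (1 / pw i)
      exact (ha.sub hb).hasFDerivWithinAt
    have h2 : ∀ x ∈ VV i, ‖(ContinuousLinearMap.fst ℝ ℝ ℝ).comp (fderiv ℝ g x) -
          (1 / pw i) • ContinuousLinearMap.fst ℝ ℝ ℝ‖ ≤ 2 * e0 := by
      intro x hx
      apply ContinuousLinearMap.opNorm_le_bound _ he
      intro w
      have h3 := (hg.deriv_apply hx w).1
      have h4 : ((ContinuousLinearMap.fst ℝ ℝ ℝ).comp (fderiv ℝ g x) -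
          (1 / pw i) • ContinuousLinearMap.fst ℝ ℝ ℝ) w = (fderiv ℝ g x w).1 - w.1 / pw i := by
        simp [div_eq_inv_mul]
      rw [h4, Real.norm_eq_abs]
      exact h3
    have h5 := hconv.norm_image_sub_le_of_norm_hasFDerivWithin_le h1 h2 hz' hz
    rw [Real.norm_eq_abs] at h5
    have h6 : (g z).1 - (g z').1 - (z.1 - z'.1) / pw i
        = (g z).1 - (1 / pw i) * z.1 - ((g z').1 - (1 / pw i) * z'.1) := by ring
    rw [h6]
    exact h5
  · have h1 : ∀ x ∈ VV i, HasFDerivWithinAt (fun z : Pt => (g z).2 - qw i * z.2)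
        ((ContinuousLinearMap.snd ℝ ℝ ℝ).comp (fderiv ℝ g x) -
          (qw i) • ContinuousLinearMap.snd ℝ ℝ ℝ) (VV i) x := by
      intro x hx
      have ha : HasFDerivAt (fun z : Pt => (g z).2)
          ((ContinuousLinearMap.snd ℝ ℝ ℝ).comp (fderiv ℝ g x)) x :=
        (ContinuousLinearMap.snd ℝ ℝ ℝ).hasFDerivAt.comp x (hd x hx)
      have hb : HasFDerivAt (fun z : Pt => qw i * z.2)
          ((qw i) • ContinuousLinearMap.snd ℝ ℝ ℝ) x :=
        (ContinuousLinearMap.snd ℝ ℝ ℝ).hasFDerivAt.const_mul (qw i)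
      exact (ha.sub hb).hasFDerivWithinAt
    have h2 : ∀ x ∈ VV i, ‖(ContinuousLinearMap.snd ℝ ℝ ℝ).comp (fderiv ℝ g x) -
          (qw i) • ContinuousLinearMap.snd ℝ ℝ ℝ‖ ≤ 2 * e0 := by
      intro x hx
      apply ContinuousLinearMap.opNorm_le_bound _ he
      intro w
      have h3 := (hg.deriv_apply hx w).2
      have h4 : ((ContinuousLinearMap.snd ℝ ℝ ℝ).comp (fderiv ℝ g x) -
          (qw i) • ContinuousLinearMap.snd ℝ ℝ ℝ) w = (fderiv ℝ g x w).2 - qw i * w.2 := by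
        simp
      rw [h4, Real.norm_eq_abs]
      exact h3
    have h5 := hconv.norm_image_sub_le_of_norm_hasFDerivWithin_le h1 h2 hz' hz
    rw [Real.norm_eq_abs] at h5
    have h6 : (g z).2 - (g z').2 - qw i * (z.2 - z'.2)
        = (g z).2 - qw i * z.2 - ((g z').2 - qw i * z'.2) := by ring
    rw [h6]
    exact h5

end Pool.Agent.Lib.H37N
end

-- from Lib.H37N.B16
section

/-! # H37N, chunk B16 (M): iterates along orbits in the strips, Jacobians, the horizontal cone -/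

open Set Filter Topology
open scoped ContDiff

namespace Pool.Agent.Lib.H37N


theorem b16_VO {z : Pt} (hz : z ∈ VO) : ∃ i, z ∈ VV i := by
  rcases hz with h | h
  · exact ⟨_, interior_subset h⟩
  · exact ⟨_, interior_subset h⟩

theorem b16_cd {g : Pt → Pt} (hg : Near g) {z : Pt} (hz : z ∈ VO) : ContDiffAt ℝ ∞ g z := by
  obtain ⟨i, hi⟩ := b16_VO hz
  exact (hg.contDiffAt hi).self_of_nhds




theorem isOpen_VO : IsOpen VO := by
  exact isOpen_interior.union isOpen_interior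

/-- PROOF. Induction on n (`Function.iterate_succ'`: g^[n+1] = g ∘ g^[n]).  For w near z: g^[j] w ∈ VO for j < n+1 (g^[n] is continuous at z, VO is open), g^[n] is smooth at w and g is smooth at
g^[n] w ∈ VO (`Near.contDiffAt`). -/
theorem Near.iter {g : Pt → Pt} (hg : Near g) (n : ℕ) {z : Pt} (hz : ∀ j < n, g^[j] z ∈ VO) :
    ∀ᶠ w in 𝓝 z, ContDiffAt ℝ ∞ (g^[n]) w ∧ ∀ j < n, g^[j] w ∈ VO := by
  induction n with
  | zero =>
    refine Eventually.of_forall fun w => ⟨?_, fun j hj => absurd hj (Nat.not_lt_zero j)⟩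
    exact contDiffAt_id
  | succ n ih =>
    have ih' := ih fun j hj => hz j (hj.trans (Nat.lt_succ_self n))
    have hc : ContinuousAt (g^[n]) z := ih'.self_of_nhds.1.continuousAt
    have hV : ∀ᶠ w in 𝓝 z, g^[n] w ∈ VO :=
      hc.eventually_mem (isOpen_VO.mem_nhds (hz n (Nat.lt_succ_self n)))
    filter_upwards [ih', hV] with w hw hw'
    refine ⟨?_, fun j hj => ?_⟩
    · rw [Function.iterate_succ']
      exact (b16_cd hg hw').comp w hw.1
    · rcases Nat.lt_succ_iff_lt_or_eq.1 hj with h | rfl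
      · exact hw.2 j h
      · exact hw'




end Pool.Agent.Lib.H37N
end

-- from Lib.H37N.B10
section

/-! # H37N, chunk B10 (M): elementary properties of linear charts -/

open Set Filter Topology
open scoped ContDiff

namespace Pool.Agent.Lib.H37N

variable {g g' : Pt → Pt} {i : Sy} {κ c : Pt → Pt} {lam mu : ℝ}

theorem LinChart.one_lt (h : LinChart g i κ c lam mu) : 1 < mu := by
  have := h.mu_mem
  cases i
  · simp only [muR, mem_Ioo] at this; linarith [this.1]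
  · simp only [muR, mem_Ioo] at this; linarith [this.1]

theorem LinChart.lam_pos (h : LinChart g i κ c lam mu) : 0 < lam := by
  have := h.lam_mem.1
  linarith

theorem b10_mem_Bx {x y : ℝ} : (x, y) ∈ Bx ↔ |x| < 2 ∧ |y| < 2 := by
  simp only [Bx, mem_prod, mem_Ioo, abs_lt]

theorem b10_abs_lam (h : LinChart g i κ c lam mu) {x : ℝ} (hx : |x| < 2) : |lam * x| < 2 := by
  have h1 := h.lam_pos
  have h2 := h.lam_mem.2
  rw [abs_mul, abs_of_pos h1]
  nlinarith [abs_nonneg x]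

theorem b10_abs_mu (h : LinChart g i κ c lam mu) {y : ℝ} (hy : |mu * y| < 2) : |y| < 2 := by
  have h1 := h.one_lt
  rw [abs_mul, abs_of_pos (by linarith)] at hy
  nlinarith [abs_nonneg y]

/-- PROOF. Only `lin` mentions g, and κ (x,y) ∈ interior (VV i) for |x| < 2, |mu y| < 2 (then |y| < 2). -/
theorem LinChart.congr (h : LinChart g i κ c lam mu) (hg : ∀ z ∈ interior (VV i), g' z = g z) :
    LinChart g' i κ c lam mu := by
  refine ⟨h.smooth, h.inj, h.jac_pos, h.isOpen, h.sub, h.smooth_c, h.left, ?_, h.lam_mem, h.mu_mem⟩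
  intro x y hx hy
  rw [hg _ (h.sub ⟨(x, y), b10_mem_Bx.2 ⟨hx, b10_abs_mu h hy⟩, rfl⟩)]
  exact h.lin x y hx hy

/-- PROOF. ψ (g (κ (x,y))) = ψ (κ (lam x, mu y)) = κ (lam x, mu y), because κ (lam x, mu y) ∈ interior (VV i). -/
theorem LinChart.of_comp (h : LinChart g i κ c lam mu) {ψ : Pt → Pt} (hψ : ∀ z ∈ VV i, ψ z = z) :
    LinChart (ψ ∘ g) i κ c lam mu := by
  refine ⟨h.smooth, h.inj, h.jac_pos, h.isOpen, h.sub, h.smooth_c, h.left, ?_, h.lam_mem, h.mu_mem⟩
  intro x y hx hy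
  simp only [Function.comp_apply]
  rw [h.lin x y hx hy]
  exact hψ _ (interior_subset (h.sub ⟨(lam * x, mu * y), b10_mem_Bx.2 ⟨b10_abs_lam h hx, hy⟩, rfl⟩))

theorem b10_neg_mem {v : Pt} (hv : v ∈ Bx) : -v ∈ Bx := by
  obtain ⟨x, y⟩ := v
  rw [b10_mem_Bx] at hv
  change (-x, -y) ∈ Bx
  rw [b10_mem_Bx, abs_neg, abs_neg]
  exact hv

theorem b10_fderiv_neg (h : ContDiff ℝ ∞ κ) (v w : Pt) :
    fderiv ℝ (fun v => κ (-v)) v w = - fderiv ℝ κ (-v) w := by
  have h1 : HasFDerivAt κ (fderiv ℝ κ (-v)) (-v) :=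
    (h.differentiable (by simp) (-v)).hasFDerivAt
  have h2 : HasFDerivAt (fun v : Pt => -v) (-(ContinuousLinearMap.id ℝ Pt)) v :=
    (hasFDerivAt_id v).neg
  have h3 : HasFDerivAt (fun v => κ (-v)) ((fderiv ℝ κ (-v)).comp (-(ContinuousLinearMap.id ℝ Pt))) v :=
    HasFDerivAt.comp v h1 h2
  rw [h3.fderiv]
  simp

/-- PROOF. Bx = -Bx; fderiv (fun v => κ (-v)) v w = - fderiv κ (-v) w, the Jacobian does not change. -/
theorem LinChart.neg (h : LinChart g i κ c lam mu) :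
    LinChart g i (fun v => κ (-v)) (fun w => -c w) lam mu := by
  have himg : (fun v => κ (-v)) '' Bx = κ '' Bx := by
    ext w
    constructor
    · rintro ⟨v, hv, rfl⟩
      exact ⟨-v, b10_neg_mem hv, rfl⟩
    · rintro ⟨v, hv, rfl⟩
      exact ⟨-v, b10_neg_mem hv, by simp⟩
  refine ⟨h.smooth.comp contDiff_neg, ?_, ?_, ?_, ?_, h.smooth_c.neg, ?_, ?_, h.lam_mem, h.mu_mem⟩
  · intro v hv w hw hvw
    have := h.inj (b10_neg_mem hv) (b10_neg_mem hw) hvw
    exact neg_injective this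
  · intro v hv
    have h1 := h.jac_pos (-v) (b10_neg_mem hv)
    unfold jac at h1 ⊢
    rw [b10_fderiv_neg h.smooth, b10_fderiv_neg h.smooth]
    simp only [Prod.fst_neg, Prod.snd_neg]
    linarith
  · rw [himg]; exact h.isOpen
  · rw [himg]; exact h.sub
  · intro v hv
    show -c (κ (-v)) = v
    rw [h.left _ (b10_neg_mem hv), neg_neg]
  · intro x y hx hy
    have h1 := h.lin (-x) (-y) (by rwa [abs_neg]) (by rwa [mul_neg, abs_neg])
    show g (κ (-(x, y))) = κ (-(lam * x, mu * y))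
    rw [Prod.neg_mk, Prod.neg_mk, h1, mul_neg, mul_neg]

theorem LinChart.fix (h : LinChart g i κ c lam mu) : g (κ 0) = κ 0 := by
  have h1 := h.lin 0 0 (by simp) (by simp)
  rw [mul_zero, mul_zero] at h1
  exact h1

theorem LinChart.right (h : LinChart g i κ c lam mu) {w : Pt} (hw : w ∈ κ '' Bx) : κ (c w) = w ∧ c w ∈ Bx := by
  obtain ⟨v, hv, rfl⟩ := hw
  rw [h.left v hv]
  exact ⟨rfl, hv⟩

/-- PROOF. Induction on n (|mu^j y| ≤ |mu^n y| for j ≤ n because mu > 1; |lam^j x| < 2). -/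
theorem LinChart.iter (h : LinChart g i κ c lam mu) (n : ℕ) {x y : ℝ} (hx : |x| < 2) (hy : |mu ^ n * y| < 2) :
    g^[n] (κ (x, y)) = κ (lam ^ n * x, mu ^ n * y) := by
  induction n generalizing x y with
  | zero => simp
  | succ n ih =>
    have h1 := h.one_lt
    have hmy : |mu * y| < 2 := by
      have h2 : |mu * y| ≤ |mu ^ (n + 1) * y| := by
        rw [abs_mul, abs_mul]
        apply mul_le_mul_of_nonneg_right _ (abs_nonneg _)
        rw [abs_of_pos (by linarith), abs_of_pos (by positivity)]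
        calc mu = mu ^ 1 := (pow_one mu).symm
          _ ≤ mu ^ (n + 1) := pow_le_pow_right₀ h1.le (by omega)
      linarith
    rw [Function.iterate_succ_apply, h.lin x y hx hmy,
      ih (b10_abs_lam h hx) (by rw [← mul_assoc, ← pow_succ]; exact hy)]
    congr 1
    rw [pow_succ, pow_succ, mul_assoc, mul_assoc]

/-- PROOF. `LinChart.iter` for j, `sub`. -/
theorem LinChart.iter_mem (h : LinChart g i κ c lam mu) (n : ℕ) {x y : ℝ} (hx : |x| < 2)
    (hy : |mu ^ n * y| < 2) : ∀ j ≤ n, g^[j] (κ (x, y)) ∈ interior (VV i) := by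
  intro j hj
  have h1 := h.one_lt
  have h0 := h.lam_pos
  have hj' : |mu ^ j * y| < 2 := by
    have h2 : |mu ^ j * y| ≤ |mu ^ n * y| := by
      rw [abs_mul, abs_mul]
      apply mul_le_mul_of_nonneg_right _ (abs_nonneg _)
      rw [abs_of_pos (by positivity), abs_of_pos (by positivity)]
      exact pow_le_pow_right₀ h1.le hj
    linarith
  rw [h.iter j hx hj']
  apply h.sub
  refine ⟨_, b10_mem_Bx.2 ⟨?_, hj'⟩, rfl⟩
  rw [abs_mul, abs_of_pos (by positivity)]
  have h3 : lam ^ j ≤ 1 := pow_le_one₀ h0.le (by linarith [h.lam_mem.2])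
  nlinarith [abs_nonneg x, pow_pos h0 j]

end Pool.Agent.Lib.H37N
end

-- from Lib.H37N.CDefs
section

/-!
# H37N, section C: tangency data, places (definitions)
-/

open Set Filter Topology Asymptotics
open scoped ContDiff

namespace Pool.Agent.Lib.H37N

noncomputable section

/-- the transition from the unstable axis of `P` to the stable axis of `Q` in the charts -/
def SS (g : Pt → Pt) (s : Fr) (v : Pt) : Pt := SM g (s.κ Sy.P) (s.c Sy.Q) s.kS s.uS v

/-- the map from the chart at `Q` to the point after `k` steps -/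
def InM (g : Pt → Pt) (s : Fr) (b : ℝ) (k : ℕ) (v : Pt) : Pt := g^[k] (s.κ Sy.Q (v.1, b + v.2))

/-- the chart coordinates at `P` after `l` steps -/
def PlM (g : Pt → Pt) (s : Fr) (l : ℕ) (w : Pt) : Pt := s.c Sy.P (g^[l] w)

/-- the transition map from the chart at `Q` to the chart at `P` -/
def TT (g : Pt → Pt) (s : Fr) (b : ℝ) (k l : ℕ) (v : Pt) : Pt :=
  PlM g s l (g (InM g s b k v))

/-- `g' = g` off `Z` -/
def EqOff (Z : Set Pt) (g g' : Pt → Pt) : Prop :=
  ∀ z ∈ VV Sy.P ∪ VV Sy.Q ∪ FF, z ∉ Z → g' z = g z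

/-- a tangency of order (at least) `m` between the unstable manifold of `Q` and the stable manifold of
`P`, which visits the fold region only in the open set `Z` -/
structure TD (g : Pt → Pt) (s : Fr) (Z : Set Pt) (m : ℕ) (b a : ℝ) (k l : ℕ) : Prop where
  openZ : IsOpen Z
  subZ : Z ⊆ interior FF
  b_pos : 0 < |b|
  b_lt : |b| < 1
  a_lt : |a| < 1
  path1 : ∀ i ≤ k, InM g s b i 0 ∈ VO ∪ Z
  memZ : InM g s b k 0 ∈ Z
  dist : ∀ i < k, InM g s b i 0 ≠ InM g s b k 0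
  path2 : ∀ i ≤ l, g^[i] (g (InM g s b k 0)) ∈ VO
  fin : g^[l] (g (InM g s b k 0)) = s.κ Sy.P (a, 0)
  ord : (fun t : ℝ => (TT g s b k l (0, t)).2) =O[𝓝 0] fun t => |t| ^ (m + 1)

/-- a place where the map can be perturbed: the chart coordinates `PlM` identify the open set `D` with
the ball of radius `r` around `(a,0)`; the orbits of the points of `B` in the chart at `Q` enter `D`
exactly at the time `k + 1` -/
structure Place (g : Pt → Pt) (s : Fr) (Z : Set Pt) (b a : ℝ) (k l : ℕ) (r : ℝ) (D B : Set Pt)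
    (Li : Pt → Pt) : Prop where
  r_pos : 0 < r
  r_lt : |a| + r < 1
  openD : IsOpen D
  subD : D ⊆ g '' Z
  compD : ∃ C : Set Pt, IsCompact C ∧ D ⊆ C ∧ C ⊆ K0 ∧ C ⊆ g '' Z
  Pl_mem : ∀ w ∈ D, PlM g s l w ∈ Metric.ball ((a, 0) : Pt) r
  Li_Pl : ∀ w ∈ D, Li (PlM g s l w) = w
  Li_mem : ∀ v ∈ Metric.ball ((a, 0) : Pt) r, Li v ∈ D
  Pl_Li : ∀ v ∈ Metric.ball ((a, 0) : Pt) r, PlM g s l (Li v) = v
  smLi : ContDiffOn ℝ ∞ Li (Metric.ball ((a, 0) : Pt) r)
  smPl : ContDiffOn ℝ ∞ (PlM g s l) D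
  path : ∀ w ∈ D, ∀ i ≤ l, g^[i] w ∈ VO
  land : ∀ w ∈ D, g^[l] w = s.κ Sy.P (PlM g s l w)
  nhB : B ∈ 𝓝 (0 : Pt)
  boxB : ∀ v ∈ B, |v.1| < 1 ∧ |b + v.2| < 1
  pathB : ∀ v ∈ B, ∀ i ≤ k, InM g s b i v ∈ VO ∪ Z
  notD : ∀ v ∈ B, ∀ i < k, g (InM g s b i v) ∉ D
  inD : ∀ v ∈ B, g (InM g s b k v) ∈ D
  TB : ∀ v ∈ B, TT g s b k l v ∈ Metric.ball ((a, 0) : Pt) (r / 2)

/-- an admissible perturbation at the place -/
def Adm (D : Set Pt) (ψ : Pt → Pt) : Prop := (∀ w ∉ D, ψ w = w) ∧ ∀ w ∈ D, ψ w ∈ D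

end

end Pool.Agent.Lib.H37N
end
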