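import Pool.Agent.Lib.H1M.FF.M009

/-! Merged copies (to shorten the build) of Lib.H37C.C3, Lib.H37C.S2, Lib.H37C.S3, Lib.H37C.S4, Lib.H37C.S5. -/

-- from Lib.H37C.C3
section

open TopologicalSpace Set Filter Topology

namespace Pool.Agent.Lib.H37C

variable {lt lt' : ℕ → ℕ → Prop} [IsStrictTotalOrder ℕ lt] [IsStrictTotalOrder ℕ lt']

/-- the normalized position of `x` in the gap `i`, cut off at `0` and `1` -/
noncomputable def c3_c (lt : ℕ → ℕ → Prop) (i : ℕ) (x : ℝ) : ℝ :=
  max 0 (min 1 ((x - lend lt i) / wt i))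

omit [IsStrictTotalOrder ℕ lt] in
theorem c3_c_mem (i : ℕ) (x : ℝ) : c3_c lt i x ∈ Icc (0 : ℝ) 1 :=
  ⟨le_max_left _ _, max_le zero_le_one (min_le_left _ _)⟩

omit [IsStrictTotalOrder ℕ lt] in
theorem c3_c_mono (i : ℕ) : Monotone (c3_c lt i) := by
  intro x y h
  unfold c3_c
  have := wt_pos i
  gcongr

omit [IsStrictTotalOrder ℕ lt] in
theorem c3_c_zero {i : ℕ} {x : ℝ} (h : x ≤ lend lt i) : c3_c lt i x = 0 := by
  have hw := wt_pos i
  have h1 : (x - lend lt i) / wt i ≤ 0 := div_nonpos_of_nonpos_of_nonneg (by linarith) hw.le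
  unfold c3_c
  rw [min_eq_right (h1.trans zero_le_one), max_eq_left h1]

omit [IsStrictTotalOrder ℕ lt] in
theorem c3_c_one {i : ℕ} {x : ℝ} (h : lend lt i + wt i ≤ x) : c3_c lt i x = 1 := by
  have hw := wt_pos i
  have h1 : 1 ≤ (x - lend lt i) / wt i := by
    rw [le_div_iff₀ hw]; linarith
  unfold c3_c
  rw [min_eq_left h1, max_eq_right zero_le_one]

omit [IsStrictTotalOrder ℕ lt] in
theorem c3_c_eq {i : ℕ} {y : ℝ} (h : y ∈ Icc (0 : ℝ) 1) :
    c3_c lt i (lend lt i + wt i * y) = y := by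
  have hw := wt_pos i
  have h1 : (lend lt i + wt i * y - lend lt i) / wt i = y := by
    field_simp
    ring
  unfold c3_c
  rw [h1, min_eq_right h.2, max_eq_right h.1]

omit [IsStrictTotalOrder ℕ lt] in
theorem c3_c_lt {i : ℕ} {x y : ℝ} (hxy : x < y) (hx : x < lend lt i + wt i)
    (hy : lend lt i < y) : c3_c lt i x < c3_c lt i y := by
  have hw := wt_pos i
  have h1 : (x - lend lt i) / wt i < 1 := by
    rw [div_lt_one hw]; linarith
  have h2 : 0 < (y - lend lt i) / wt i := div_pos (by linarith) hw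
  have h3 : (x - lend lt i) / wt i < (y - lend lt i) / wt i :=
    div_lt_div_of_pos_right (by linarith) hw
  unfold c3_c
  rw [min_eq_right h1.le]
  have h4 : 0 < min 1 ((y - lend lt i) / wt i) := lt_min one_pos h2
  rw [max_eq_right h4.le]
  exact max_lt h4 (lt_min h1 h3)

omit [IsStrictTotalOrder ℕ lt] in
theorem c3_c_cont (i : ℕ) : Continuous (c3_c lt i) := by
  unfold c3_c
  fun_prop

/-- **C3.** Gluing. An isomorphism `π` of the orders and homeomorphisms `G i` of `[0,1]` give a
homeomorphism `φ` of `[0,1]` which maps the gap `i` of `lt` to the gap `π i` of `lt'` by `G i` (up to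
affine maps), and `Kset lt` to `Kset lt'`.

Proof. For `x ∈ [0,1]` put `φ x = ∑' i, wt (π i) * G i (max 0 (min 1 ((x - lend lt i) / wt i)))`, for
`x ∉ (0,1)` put `φ x = x`. The terms are continuous, non-decreasing functions with values in
`[0, wt (π i)]`, and `∑ wt (π i) = 1` (`Equiv.hasSum_iff`), so `φ` is continuous and non-decreasing;
`φ 0 = 0` and `φ 1 = 1` (`lend_nonneg`, `lend_add_le_one`). For `x` in the closed gap `i`,
`x = lend lt i + wt i * y`, the terms `j` with `lt j i` have the value `wt (π j)` (`lend_add_le`), the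
terms with `lt i j` have the value `0`; so `φ x = ∑_{lt j i} wt (π j) + wt (π i) * G i y` and
`∑_{lt j i} wt (π j) = lend lt' (π i)` (reindexing by `π`). Strictly increasing on `[0,1]`: if
`x < y`, either `x` is in the interior of a gap or `y` is, or both are in `Kset` and there is a gap
between them (`exists_gap`); in each case one term increases strictly. So `φ` is an order
isomorphism (surjective by the intermediate value theorem). If `x ∈ Kset lt` were mapped into the
interior of the gap `π i` of `lt'`, then `φ x = φ z` with `z` in the interior of the gap `i`, so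
`x = z`, a contradiction. -/
theorem glue (π : lt ≃r lt') (G : ℕ → ℝ ≃o ℝ) (hG : ∀ i, ∀ y ∉ Ioo (0 : ℝ) 1, G i y = y) :
    ∃ φ : ℝ ≃o ℝ, (∀ r ∉ Ioo (0 : ℝ) 1, φ r = r) ∧
      (∀ i, ∀ y ∈ Icc (0 : ℝ) 1, φ (lend lt i + wt i * y) = lend lt' (π i) + wt (π i) * G i y) ∧
      ∀ r ∈ Kset lt, φ r ∈ Kset lt' := by
  classical
  have hG0 : ∀ i, G i 0 = 0 := fun i => hG i 0 (by simp)
  have hG1 : ∀ i, G i 1 = 1 := fun i => hG i 1 (by simp)
  have hGm : ∀ i, ∀ y ∈ Icc (0 : ℝ) 1, G i y ∈ Icc (0 : ℝ) 1 := fun i y hy =>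
    ⟨hG0 i ▸ (G i).monotone hy.1, hG1 i ▸ (G i).monotone hy.2⟩
  have hsum : HasSum (fun i => wt (π i)) 1 := π.toEquiv.hasSum_iff.2 hasSum_wt
  let tm : ℕ → ℝ → ℝ := fun i x => wt (π i) * G i (c3_c lt i x)
  have htm0 : ∀ i x, 0 ≤ tm i x := fun i x =>
    mul_nonneg (wt_pos _).le (hGm i _ (c3_c_mem i x)).1
  have htm1 : ∀ i x, tm i x ≤ wt (π i) := fun i x =>
    mul_le_of_le_one_right (wt_pos _).le (hGm i _ (c3_c_mem i x)).2
  have htms : ∀ x, Summable (fun i => tm i x) := fun x =>
    Summable.of_nonneg_of_le (fun i => htm0 i x) (fun i => htm1 i x) hsum.summable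
  have htmm : ∀ i, Monotone (tm i) := fun i x y h =>
    mul_le_mul_of_nonneg_left ((G i).monotone (c3_c_mono i h)) (wt_pos _).le
  let φ₀ : ℝ → ℝ := fun x => ∑' i, tm i x
  have hφc : Continuous φ₀ := by
    refine continuous_tsum (u := fun i => wt (π i)) (fun i => ?_) hsum.summable (fun i x => ?_)
    · exact continuous_const.mul ((G i).continuous.comp (c3_c_cont i))
    · rw [Real.norm_eq_abs, abs_of_nonneg (htm0 i x)]
      exact htm1 i x
  have hφm : Monotone φ₀ := fun x y h =>
    (htms x).tsum_le_tsum (fun i => htmm i h) (htms y)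
  have hφ0 : ∀ x ≤ 0, φ₀ x = 0 := by
    intro x hx
    have : ∀ i, tm i x = 0 := by
      intro i
      show wt (π i) * G i (c3_c lt i x) = 0
      rw [c3_c_zero (hx.trans (lend_nonneg lt i)), hG0, mul_zero]
    show ∑' i, tm i x = 0
    simp [this]
  have hφ1 : ∀ x, 1 ≤ x → φ₀ x = 1 := by
    intro x hx
    have : ∀ i, tm i x = wt (π i) := by
      intro i
      show wt (π i) * G i (c3_c lt i x) = wt (π i)
      rw [c3_c_one ((lend_add_le_one i).trans hx), hG1, mul_one]
    show ∑' i, tm i x = 1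
    simp_rw [this]
    exact hsum.tsum_eq
  have hφs : ∀ x y, 0 ≤ x → x < y → y ≤ 1 → φ₀ x < φ₀ y := by
    intro x y hx hxy hy
    obtain ⟨i, hi1, hi2⟩ : ∃ i, lend lt i < y ∧ x < lend lt i + wt i := by
      by_contra hcon
      push Not at hcon
      have hd : ∀ i, y ≤ lend lt i ∨ lend lt i + wt i ≤ x := by
        intro i
        by_cases h : y ≤ lend lt i
        · exact Or.inl h
        · exact Or.inr (hcon i (not_le.1 h))
      have hxK : x ∈ Kset lt := ⟨hx, hxy.le.trans hy, fun i =>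
        (hd i).imp (fun h => hxy.le.trans h) id⟩
      have hyK : y ∈ Kset lt := ⟨hx.trans hxy.le, hy, fun i =>
        (hd i).imp id (fun h => h.trans hxy.le)⟩
      obtain ⟨i, h1, h2⟩ := exists_gap hxK hyK hxy
      have := wt_pos i
      rcases hd i with h3 | h3 <;> linarith
    refine (htms x).tsum_lt_tsum (i := i) (fun j => htmm j hxy.le) ?_ (htms y)
    exact mul_lt_mul_of_pos_left ((G i).strictMono (c3_c_lt hxy hi2 hi1)) (wt_pos _)
  let φ : ℝ → ℝ := fun x => φ₀ x + (min x 0 + max (x - 1) 0)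
  have hφin : ∀ x ∈ Icc (0 : ℝ) 1, φ x = φ₀ x := by
    intro x hx
    show φ₀ x + (min x 0 + max (x - 1) 0) = φ₀ x
    rw [min_eq_right hx.1, max_eq_right (by linarith [hx.2])]
    ring
  have hφout : ∀ x ∉ Ioo (0 : ℝ) 1, φ x = x := by
    intro x hx
    show φ₀ x + (min x 0 + max (x - 1) 0) = x
    by_cases h : x ≤ 0
    · rw [hφ0 x h, min_eq_left h, max_eq_right (by linarith)]
      ring
    · have h1 : 1 ≤ x := by
        by_contra h2
        exact hx ⟨not_le.1 h, not_le.1 h2⟩
      rw [hφ1 x h1, min_eq_right (by linarith), max_eq_left (by linarith)]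
      ring
  have hφsm : StrictMono φ := by
    intro x y hxy
    have h1 : φ₀ x ≤ φ₀ y := hφm hxy.le
    have h2 : min x 0 ≤ min y 0 := min_le_min_right _ hxy.le
    have h3 : max (x - 1) 0 ≤ max (y - 1) 0 := max_le_max_right _ (by linarith)
    show φ₀ x + (min x 0 + max (x - 1) 0) < φ₀ y + (min y 0 + max (y - 1) 0)
    by_cases hx : 0 ≤ x
    · by_cases hy : y ≤ 1
      · have := hφs x y hx hxy hy
        linarith
      · have h4 : max (x - 1) 0 < max (y - 1) 0 := by
          rw [max_eq_left (show (0 : ℝ) ≤ y - 1 by linarith)]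
          exact max_lt (by linarith) (by linarith)
        linarith
    · have h4 : min x 0 < min y 0 := by
        rw [min_eq_left (show x ≤ 0 by linarith)]
        exact lt_min hxy (by linarith)
      linarith
  have hφcont : Continuous φ := by
    show Continuous fun x => φ₀ x + (min x 0 + max (x - 1) 0)
    fun_prop
  have hφsurj : Function.Surjective φ := by
    refine hφcont.surjective ?_ ?_
    · refine tendsto_id.congr' ?_
      filter_upwards [eventually_ge_atTop (1 : ℝ)] with x hx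
      exact (hφout x (fun h => absurd h.2 (not_lt.2 hx))).symm
    · refine tendsto_id.congr' ?_
      filter_upwards [eventually_le_atBot (0 : ℝ)] with x hx
      exact (hφout x (fun h => absurd h.1 (not_lt.2 hx))).symm
  have hform : ∀ i, ∀ y ∈ Icc (0 : ℝ) 1,
      φ (lend lt i + wt i * y) = lend lt' (π i) + wt (π i) * G i y := by
    intro i y hy
    have hw := wt_pos i
    have hy1 : 0 ≤ wt i * y := mul_nonneg hw.le hy.1
    have hy2 : wt i * y ≤ wt i := mul_le_of_le_one_right hw.le hy.2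
    have hx : lend lt i + wt i * y ∈ Icc (0 : ℝ) 1 :=
      ⟨add_nonneg (lend_nonneg lt i) hy1, by linarith [lend_add_le_one (lt := lt) i]⟩
    rw [hφin _ hx]
    have h1 : ∀ j, tm j (lend lt i + wt i * y) =
        Set.indicator {j | lt j i} (fun j => wt (π j)) j +
          Set.indicator {i} (fun _ => wt (π i) * G i y) j := by
      intro j
      show wt (π j) * G j (c3_c lt j (lend lt i + wt i * y)) = _
      rcases trichotomous_of lt j i with h | h | h
      · have hne : j ∉ ({i} : Set ℕ) := by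
          rintro rfl; exact irrefl_of lt _ h
        rw [c3_c_one ((lend_add_le h).trans (by linarith)), hG1, Set.indicator_of_mem (by exact h),
          Set.indicator_of_notMem hne]
        ring
      · subst h
        rw [c3_c_eq hy, Set.indicator_of_notMem (by exact irrefl_of lt j),
          Set.indicator_of_mem (mem_singleton j)]
        ring
      · have hne : j ∉ ({i} : Set ℕ) := by
          rintro rfl; exact irrefl_of lt _ h
        have hna : j ∉ {j | lt j i} := asymm_of lt h
        rw [c3_c_zero ((show lend lt i + wt i * y ≤ lend lt i + wt i by linarith).trans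
          (lend_add_le h)), hG0, Set.indicator_of_notMem hna, Set.indicator_of_notMem hne]
        ring
    show ∑' j, tm j (lend lt i + wt i * y) = _
    simp_rw [h1]
    rw [Summable.tsum_add (hsum.summable.indicator _) (summable_of_finite_support
      ((Set.finite_singleton i).subset Set.support_indicator_subset))]
    congr 1
    · have h2 : (fun j => Set.indicator {j | lt j i} (fun j => wt (π j)) j) =
          (Set.indicator {j' | lt' j' (π i)} wt) ∘ π := by
        funext j
        by_cases h : lt j i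
        · have h3 : lt' (π j) (π i) := π.map_rel_iff.2 h
          rw [Set.indicator_of_mem (by exact h), Function.comp, Set.indicator_of_mem (by exact h3)]
        · have h3 : ¬ lt' (π j) (π i) := fun h4 => h (π.map_rel_iff.1 h4)
          rw [Set.indicator_of_notMem (by exact h), Function.comp,
            Set.indicator_of_notMem (by exact h3)]
      rw [h2]
      exact π.toEquiv.tsum_eq (Set.indicator {j' | lt' j' (π i)} wt)
    · rw [tsum_eq_single i]
      · rw [Set.indicator_of_mem (mem_singleton i)]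
      · intro j hj
        rw [Set.indicator_of_notMem (by simpa using hj)]
  refine ⟨StrictMono.orderIsoOfSurjective φ hφsm hφsurj, hφout, hform, ?_⟩
  intro r hr
  show φ r ∈ Kset lt'
  have e0 : φ 0 = 0 := hφout 0 (by simp)
  have e1 : φ 1 = 1 := hφout 1 (by simp)
  refine ⟨e0 ▸ hφsm.monotone hr.1, e1 ▸ hφsm.monotone hr.2.1, fun i' => ?_⟩
  obtain ⟨i, rfl⟩ := π.surjective i'
  rcases hr.2.2 i with h | h
  · left
    have h1 := hform i 0 (by simp)
    rw [hG0, mul_zero, mul_zero, add_zero, add_zero] at h1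
    rw [← h1]
    exact hφsm.monotone h
  · right
    have h1 := hform i 1 (by simp)
    rw [hG1, mul_one, mul_one] at h1
    rw [← h1]
    exact hφsm.monotone h

end Pool.Agent.Lib.H37C
end

-- from Lib.H37C.S2
section

open TopologicalSpace Set Filter Topology
open scoped Manifold ContDiff
open Pool.Agent.Lib.Helper37.ConjBorel

namespace Pool.Agent.Lib.H37C

theorem regN_pair {P E : Type*} [NormedAddCommGroup P] [NormedSpace ℝ P]
    [NormedAddCommGroup E] [NormedSpace ℝ E] (s₀ : P) (x₀ : E) :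
    RegN ⊤ (fun (s : P) (x : E) => (s, x)) s₀ x₀ := by
  have hsm : ∀ s : P, ContDiff ℝ ∞ (fun x : E => (s, x)) := fun s => contDiff_const.prodMk contDiff_id
  have h0 : RegN 0 (fun (s : P) (x : E) => (s, x)) s₀ x₀ := by
    refine ⟨Filter.Eventually.of_forall fun p => (hsm p.1).contDiffAt, fun k hk => ?_⟩
    have hk0 : k = 0 := by
      have : (k : ℕ∞) ≤ ((0 : ℕ) : ℕ∞) := by simpa using hk
      have h3 : k ≤ 0 := by exact_mod_cast this
      omega
    subst hk0
    have e : (fun p : P × E => iteratedFDeriv ℝ 0 (fun x : E => (p.1, x)) p.2) =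
        fun p : P × E => (continuousMultilinearCurryFin0 ℝ E (P × E)).symm p := by
      funext p
      rw [iteratedFDeriv_zero_eq_comp]
      rfl
    rw [e]
    exact (continuousMultilinearCurryFin0 ℝ E (P × E)).symm.continuous.continuousAt
  rw [regN_top_iff]
  intro n
  rcases n with _ | n
  · exact h0
  · refine RegN.ofDerivReg h0 ?_
    have e : (fun s : P => fderiv ℝ (fun x : E => (s, x))) =
        fun _ : P => fun _ : E => ContinuousLinearMap.inr ℝ P E := by
      funext s x
      have h1 : HasFDerivAt (fun x : E => (s, x)) (ContinuousLinearMap.inr ℝ P E) x :=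
        hasFDerivAt_prodMk_right s x
      exact h1.fderiv
    rw [e]
    exact regN_of_contDiffOn isOpen_univ contDiff_const.contDiffOn s₀ (mem_univ x₀)

/-- **S2.** A jointly smooth family is regular.

Proof: the slice `g s` is `G ∘ (fun x => (s, x))` with `G p = g p.1 p.2`; near a point of `O` it is
smooth, and its iterated derivatives are
`iteratedFDeriv ℝ k (g s) x = (iteratedFDeriv ℝ k G (s, x)).compContinuousLinearMap (fun _ => inr)`
(`g s x = G ((s, 0) + inr x)`: `ContinuousLinearMap.iteratedFDeriv_comp_right` for the linear map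
`inr`, applied to the translated function, `iteratedFDeriv_comp_add_left`; as `G` is only smooth on
the open set `O`, one may argue with `ContDiffOn`/`iteratedFDerivWithin`, or use
`iteratedFDeriv_comp` of Mathlib for `ContDiffAt` functions as in `RegN.comp`); the right hand side
is continuous in `(s, x)`. -/
theorem regN_of_joint {P E F : Type*} [NormedAddCommGroup P] [NormedSpace ℝ P]
    [NormedAddCommGroup E] [NormedSpace ℝ E] [NormedAddCommGroup F] [NormedSpace ℝ F]
    (g : P → E → F) {O : Set (P × E)} (hO : IsOpen O)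
    (hg : ContDiffOn ℝ ∞ (fun p : P × E => g p.1 p.2) O) {s₀ : P} {x₀ : E} (h : (s₀, x₀) ∈ O) :
    RegN ⊤ g s₀ x₀ := by
  have h1 : RegN ⊤ (fun _ : P => (fun p : P × E => g p.1 p.2)) s₀ (s₀, x₀) :=
    regN_of_contDiffOn hO hg s₀ h
  exact RegN.comp (G := fun _ : P => (fun p : P × E => g p.1 p.2)) h1 (regN_pair s₀ x₀)

/-- reparametrization of a regular family -/
theorem RegN.reparam {T P E F : Type*} [TopologicalSpace T] [TopologicalSpace P]
    [NormedAddCommGroup E] [NormedSpace ℝ E] [NormedAddCommGroup F] [NormedSpace ℝ F]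
    {g : P → E → F} {σ : T → P} {t₀ : T} {x₀ : E} (hg : RegN ⊤ g (σ t₀) x₀)
    (hσ : ContinuousAt σ t₀) : RegN ⊤ (fun t => g (σ t)) t₀ x₀ := by
  have h1 : ContinuousAt (fun p : T × E => (σ p.1, p.2)) (t₀, x₀) :=
    (ContinuousAt.comp (f := fun p : T × E => p.1) (x := (t₀, x₀)) hσ continuous_fst.continuousAt).prodMk
      continuous_snd.continuousAt
  refine ⟨h1.eventually hg.1, fun k hk => ?_⟩
  exact ContinuousAt.comp (f := fun p : T × E => (σ p.1, p.2)) (x := (t₀, x₀)) (hg.2 k hk) h1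

end Pool.Agent.Lib.H37C
end

-- from Lib.H37C.S3
section

open TopologicalSpace Set Filter Topology
open scoped Manifold ContDiff
open Pool.Agent.Lib.Helper37.ConjBorel

namespace Pool.Agent.Lib.H37C

/-- **S3.** The derivatives of the fields are bounded, uniformly in `s`.

Proof: `(s, x) ↦ iteratedFDeriv ℝ k (Vf w s) x` is continuous at all `(s, x)` with `s ≥ 0`
(`regN_of_joint`, `Vf_contDiffOn`), so it is bounded on the compact set `[0,1] × closedBall 0 3`;
for `‖x‖ > 2` the field vanishes near `x` (`Vf_zero`), so the derivatives are `0`. -/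
theorem Vf_bound {n : ℕ} {w : ℝ} (hw : 0 < w) (k : ℕ) :
    ∃ C : ℝ, ∀ s, 0 ≤ s → s + w ≤ 1 → ∀ x : Euc n, ‖iteratedFDeriv ℝ k (Vf w s) x‖ ≤ C := by
  have hO : IsOpen {p : ℝ × Euc n | -(1 / 2) < p.1} := isOpen_lt continuous_const continuous_fst
  have hc : ContinuousOn (fun p : ℝ × Euc n => iteratedFDeriv ℝ k (Vf w p.1) p.2)
      (Icc (0 : ℝ) 1 ×ˢ Metric.closedBall (0 : Euc n) 2) := by
    rintro ⟨s, x⟩ ⟨hs, _⟩
    have h1 : (s, x) ∈ {p : ℝ × Euc n | -(1 / 2) < p.1} := by
      change -(1 / 2) < s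
      linarith [hs.1]
    have h2 := (regN_of_joint (fun s (x : Euc n) => Vf w s x) hO (Vf_contDiffOn hw) h1).2 k le_top
    exact h2.continuousWithinAt
  obtain ⟨C, hC⟩ := (isCompact_Icc.prod (isCompact_closedBall (0 : Euc n) 2)).exists_bound_of_continuousOn hc
  refine ⟨max C 0, fun s hs hsw x => ?_⟩
  by_cases hx : ‖x‖ ≤ 2
  · refine (hC (s, x) ⟨⟨hs, by linarith⟩, ?_⟩).trans (le_max_left _ _)
    rw [Metric.mem_closedBall, dist_zero_right]
    exact hx
  · rw [not_le] at hx
    have h1 : Vf w s =ᶠ[𝓝 x] fun _ : Euc n => (0 : Euc n) := by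
      have h2 : IsOpen {y : Euc n | 2 < ‖y‖} := isOpen_lt continuous_const continuous_norm
      filter_upwards [h2.mem_nhds hx] with y hy
      have hy' : 2 < ‖y‖ := hy
      exact Vf_zero hw hs hsw (fun h => by linarith [h.2])
    rw [(h1.iteratedFDeriv ℝ k).eq_of_nhds]
    have h3 : iteratedFDeriv ℝ k (fun _ : Euc n => (0 : Euc n)) x = 0 := by
      have h4 := iteratedFDeriv_zero_fun (𝕜 := ℝ) (E := Euc n) (F := Euc n) (n := k)
      exact congrFun h4 x
    rw [h3, norm_zero]
    exact le_max_right _ _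

/-- `bmp` is Lipschitz (its derivative has compact support). -/
theorem bmp_lip : ∃ C : ℝ, ∀ y y' : ℝ, |bmp y - bmp y'| ≤ C * |y - y'| := by
  have h1 : HasCompactSupport bmp := by
    apply HasCompactSupport.intro (isCompact_Icc (a := (0 : ℝ)) (b := 1))
    intro y hy
    exact bmp_zero fun h => hy ⟨h.1.le, h.2.le⟩
  obtain ⟨C, hC⟩ := bmp_contDiff.lipschitzWith_of_hasCompactSupport h1 (by simp)
  refine ⟨C, fun y y' => ?_⟩
  have h2 := hC.dist_le_mul y y'
  rwa [Real.dist_eq, Real.dist_eq] at h2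

end Pool.Agent.Lib.H37C
end

-- from Lib.H37C.S4
section

open TopologicalSpace Set Filter Topology
open scoped Manifold ContDiff
open Pool.Agent.Lib.Helper37.ConjBorel

namespace Pool.Agent.Lib.H37C

/-- **S4.** The heights of the fields in the gaps.

Proof: let `C i k ≥ 0` be the bound of `Vf_bound` for `w = wt i` (maximum with `0`), `C₀` the
constant of `bmp_lip`. Put
`ε i = (1/2)^(i+2) * min 1 (wt i) / (1 + |C₀| + ∑ k ∈ range (i+2), C i k)`. For fixed `k` and
`i ≥ k`, `ε i * C i k ≤ (1/2)^(i+2)`; so `u i = ε i * C i k` is summable. For `k = 1` the bound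
holds for all `i`, and gives the Lipschitz constant (`lipschitzWith_of_nnnorm_fderiv_le`,
`norm_iteratedFDeriv_one`; smooth by `Vf_contDiffOn`). -/
theorem exists_eps (n : ℕ) : ∃ ε : ℕ → ℝ, (∀ i, 0 < ε i) ∧
    (∀ k : ℕ, ∃ u : ℕ → ℝ, Summable u ∧ ∀ i s, 0 ≤ s → s + wt i ≤ 1 → ∀ x : Euc n,
      ‖iteratedFDeriv ℝ k (fun x => ε i • Vf (wt i) s x) x‖ ≤ u i) ∧
    (∀ i s, 0 ≤ s → s + wt i ≤ 1 → ∀ x y : Euc n,
      ‖ε i • Vf (wt i) s x - ε i • Vf (wt i) s y‖ ≤ (1 / 2) ^ (i + 2) * ‖x - y‖) ∧
    ∀ i, ∀ y y' : ℝ, |ε i * bmp y - ε i * bmp y'| ≤ wt i / 2 * |y - y'| := by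
  have hwt1 : ∀ i, wt i ≤ 1 := by
    intro i
    unfold wt
    exact pow_le_one₀ (by norm_num) (by norm_num)
  choose C hC using fun i k => Vf_bound (n := n) (wt_pos i) k
  obtain ⟨C₀, hC₀⟩ := bmp_lip
  have hS0 : ∀ i, 0 ≤ ∑ k ∈ Finset.range (i + 2), |C i k| := fun i =>
    Finset.sum_nonneg fun k _ => abs_nonneg _
  set ε : ℕ → ℝ := fun i => (1 / 2) ^ (i + 2) * wt i /
    (1 + |C₀| + ∑ k ∈ Finset.range (i + 2), |C i k|) with hε
  have hden : ∀ i, 0 < 1 + |C₀| + ∑ k ∈ Finset.range (i + 2), |C i k| := fun i => by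
    have h1 := hS0 i
    have h2 := abs_nonneg C₀
    linarith
  have hpos : ∀ i, 0 < ε i := fun i => by
    simp only [hε]
    have h1 := hden i
    have h2 := wt_pos i
    positivity
  have hkey : ∀ i a, 0 ≤ a → a ≤ 1 + |C₀| + ∑ k ∈ Finset.range (i + 2), |C i k| →
      ε i * a ≤ (1 / 2) ^ (i + 2) * wt i := by
    intro i a _ ha
    simp only [hε]
    rw [div_mul_eq_mul_div, div_le_iff₀ (hden i)]
    apply mul_le_mul_of_nonneg_left ha
    have := wt_pos i
    positivity
  have hkeyk : ∀ i k, k < i + 2 → ε i * |C i k| ≤ (1 / 2) ^ (i + 2) := by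
    intro i k hk
    have h1 : |C i k| ≤ ∑ k ∈ Finset.range (i + 2), |C i k| :=
      Finset.single_le_sum (f := fun k => |C i k|) (fun k _ => abs_nonneg _) (Finset.mem_range.2 hk)
    have h2 := hkey i |C i k| (abs_nonneg _) (by
      have := abs_nonneg C₀
      linarith)
    refine h2.trans ?_
    have h3 := hwt1 i
    have h4 : (0 : ℝ) < (1 / 2) ^ (i + 2) := by positivity
    nlinarith
  have hsm : ∀ i s, 0 ≤ s → ContDiff ℝ ∞ (fun x : Euc n => Vf (wt i) s x) := by
    intro i s hs
    rw [contDiff_iff_contDiffAt]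
    intro x
    have hO : IsOpen {p : ℝ × Euc n | -(1 / 2) < p.1} := isOpen_lt continuous_const continuous_fst
    have h1 : (s, x) ∈ {p : ℝ × Euc n | -(1 / 2) < p.1} := by
      change -(1 / 2) < s
      linarith
    have h2 := (Vf_contDiffOn (n := n) (wt_pos i)).contDiffAt (hO.mem_nhds h1)
    exact h2.comp (g := fun p : ℝ × Euc n => Vf (wt i) p.1 p.2) x
      (contDiffAt_const.prodMk contDiffAt_id)
  refine ⟨ε, hpos, ?_, ?_, ?_⟩
  · intro k
    refine ⟨fun i => ε i * |C i k|, ?_, ?_⟩
    · refine Summable.of_norm_bounded_eventually_nat (g := fun i => (1 / 2 : ℝ) ^ (i + 2)) ?_ ?_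
      · have h1 : Summable fun i : ℕ => (1 / 2 : ℝ) ^ i := summable_geometric_two
        have h2 := h1.mul_right ((1 / 2 : ℝ) ^ 2)
        refine h2.congr fun i => ?_
        rw [pow_add]
      · filter_upwards [Filter.eventually_ge_atTop k] with i hi
        rw [Real.norm_eq_abs, abs_of_nonneg (mul_nonneg (hpos i).le (abs_nonneg _))]
        exact hkeyk i k (by omega)
    · intro i s hs hsw x
      have h1 : iteratedFDeriv ℝ k (fun x : Euc n => ε i • Vf (wt i) s x) x =
          ε i • iteratedFDeriv ℝ k (fun x : Euc n => Vf (wt i) s x) x :=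
        iteratedFDeriv_const_smul_apply' ((hsm i s hs).of_le (by exact_mod_cast le_top)).contDiffAt
      rw [h1, norm_smul, Real.norm_eq_abs, abs_of_pos (hpos i)]
      apply mul_le_mul_of_nonneg_left _ (hpos i).le
      exact (hC i k s hs hsw x).trans (le_abs_self _)
  · intro i s hs hsw x y
    rw [← smul_sub, norm_smul, Real.norm_eq_abs, abs_of_pos (hpos i)]
    have h1 : ‖Vf (wt i) s x - Vf (wt i) s y‖ ≤ |C i 1| * ‖x - y‖ := by
      have h2 := Convex.norm_image_sub_le_of_norm_fderiv_le (𝕜 := ℝ) (f := fun x : Euc n => Vf (wt i) s x)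
        (C := |C i 1|) (s := univ) (x := y) (y := x)
        (fun z _ => ((hsm i s hs).differentiable (by simp)).differentiableAt)
        (fun z _ => by
          rw [← norm_iteratedFDeriv_one]
          exact (hC i 1 s hs hsw z).trans (le_abs_self _)) convex_univ (mem_univ _) (mem_univ _)
      exact h2
    calc ε i * ‖Vf (wt i) s x - Vf (wt i) s y‖ ≤ ε i * (|C i 1| * ‖x - y‖) :=
          mul_le_mul_of_nonneg_left h1 (hpos i).le
      _ = (ε i * |C i 1|) * ‖x - y‖ := by ring
      _ ≤ (1 / 2) ^ (i + 2) * ‖x - y‖ :=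
          mul_le_mul_of_nonneg_right (hkeyk i 1 (by omega)) (norm_nonneg _)
  · intro i y y'
    rw [← mul_sub, abs_mul, abs_of_pos (hpos i)]
    have h1 : |bmp y - bmp y'| ≤ |C₀| * |y - y'| :=
      (hC₀ y y').trans (mul_le_mul_of_nonneg_right (le_abs_self _) (abs_nonneg _))
    have h2 := hkey i |C₀| (abs_nonneg _) (by
      have := hS0 i
      linarith)
    have h3 : ((1 : ℝ) / 2) ^ (i + 2) ≤ 1 / 2 := by
      have h4 : ((1 : ℝ) / 2) ^ (i + 2) ≤ (1 / 2) ^ 1 :=
        pow_le_pow_of_le_one (by norm_num) (by norm_num) (by omega)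
      rwa [pow_one] at h4
    have h4 := wt_pos i
    calc ε i * |bmp y - bmp y'| ≤ ε i * (|C₀| * |y - y'|) :=
          mul_le_mul_of_nonneg_left h1 (hpos i).le
      _ = (ε i * |C₀|) * |y - y'| := by ring
      _ ≤ (wt i / 2) * |y - y'| := by
          apply mul_le_mul_of_nonneg_right _ (abs_nonneg _)
          nlinarith

/-- the heights of the fields in the gaps -/
noncomputable def eps (n : ℕ) : ℕ → ℝ := (exists_eps n).choose

theorem eps_pos (n : ℕ) (i : ℕ) : 0 < eps n i := (exists_eps n).choose_spec.1 i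

theorem eps_bound (n k : ℕ) : ∃ u : ℕ → ℝ, Summable u ∧ ∀ i s, 0 ≤ s → s + wt i ≤ 1 →
    ∀ x : Euc n, ‖iteratedFDeriv ℝ k (fun x => eps n i • Vf (wt i) s x) x‖ ≤ u i :=
  (exists_eps n).choose_spec.2.1 k

theorem eps_lip (n : ℕ) : ∀ i s, 0 ≤ s → s + wt i ≤ 1 → ∀ x y : Euc n,
    ‖eps n i • Vf (wt i) s x - eps n i • Vf (wt i) s y‖ ≤ (1 / 2) ^ (i + 2) * ‖x - y‖ :=
  (exists_eps n).choose_spec.2.2.1

theorem eps_lip' (n : ℕ) : ∀ i, ∀ y y' : ℝ,
    |eps n i * bmp y - eps n i * bmp y'| ≤ wt i / 2 * |y - y'| :=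
  (exists_eps n).choose_spec.2.2.2

/-- the field of the order `lt` -/
noncomputable def Fld {n : ℕ} (lt : ℕ → ℕ → Prop) (x : Euc n) : Euc n :=
  ∑' i, eps n i • Vf (wt i) (lend lt i) x

/-- the height function of the order `lt` -/
noncomputable def vv (n : ℕ) (lt : ℕ → ℕ → Prop) (r : ℝ) : ℝ :=
  ∑' i, eps n i * bmp ((r - lend lt i) / wt i)

/-- the perturbation of the identity -/
noncomputable def psi {n : ℕ} (lt : ℕ → ℕ → Prop) (δ : ℝ) (x : Euc n) : Euc n := x + δ • Fld lt x

end Pool.Agent.Lib.H37C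
end

-- from Lib.H37C.S5
section

open TopologicalSpace Set Filter Topology
open scoped Manifold ContDiff
open Pool.Agent.Lib.Helper37.ConjBorel

namespace Pool.Agent.Lib.H37C

variable {lt : ℕ → ℕ → Prop} [IsStrictTotalOrder ℕ lt]

omit [IsStrictTotalOrder ℕ lt] in
theorem s5_out {i : ℕ} {r : ℝ} (h : r ≤ lend lt i ∨ lend lt i + wt i ≤ r) : bmp ((r - lend lt i) / wt i) = 0 := by
  have hw := wt_pos i
  apply bmp_zero
  rintro ⟨h1, h2⟩
  rw [lt_div_iff₀ hw, zero_mul] at h1
  rw [div_lt_one hw] at h2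
  rcases h with h | h <;> linarith

theorem s5_other {i j : ℕ} (hij : j ≠ i) {r : ℝ} (h1 : lend lt i ≤ r) (h2 : r ≤ lend lt i + wt i) :
    r ≤ lend lt j ∨ lend lt j + wt j ≤ r := by
  rcases trichotomous_of lt i j with h | h | h
  · left
    exact h2.trans (lend_add_le h)
  · exact absurd h.symm hij
  · right
    exact (lend_add_le h).trans h1

/-- **S5.** The height function in the `i`-th gap: the other terms vanish, as the gaps are disjoint
(`lend_add_le`, `bmp_zero`). -/
theorem vv_gap (n : ℕ) (i : ℕ) {y : ℝ} (hy : y ∈ Icc (0 : ℝ) 1) :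
    vv n lt (lend lt i + wt i * y) = eps n i * bmp y := by
  have hw := wt_pos i
  unfold vv
  rw [tsum_eq_single i]
  · rw [add_sub_cancel_left, mul_div_cancel_left₀ _ hw.ne']
  · intro j hj
    rw [s5_out, mul_zero]
    exact s5_other hj (by nlinarith [hy.1]) (by nlinarith [hy.2])

/-- outside the gaps the height function is `0` -/
theorem vv_zero (n : ℕ) {r : ℝ} (h : ∀ i, r ≤ lend lt i ∨ lend lt i + wt i ≤ r) :
    vv n lt r = 0 := by
  unfold vv
  rw [← tsum_zero (β := ℕ)]
  congr 1
  funext i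
  rw [s5_out (h i), mul_zero]

theorem vv_out (n : ℕ) {r : ℝ} (hr : r ∉ Ioo (0 : ℝ) 1) : vv n lt r = 0 := by
  apply vv_zero
  intro i
  by_cases h : 0 < r
  · right
    have h1 : 1 ≤ r := by
      by_contra h2
      exact hr ⟨h, not_le.mp h2⟩
    exact (lend_add_le_one i).trans h1
  · left
    exact (not_lt.mp h).trans (lend_nonneg lt i)

theorem vv_nonneg (n : ℕ) (r : ℝ) : 0 ≤ vv n lt r :=
  tsum_nonneg fun i => mul_nonneg (eps_pos n i).le (bmp_nonneg _)

/-- the zeros of the height function in `[0,1]` are the points of `Kset` -/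
theorem vv_eq_zero_iff (n : ℕ) {r : ℝ} (hr : r ∈ Icc (0 : ℝ) 1) :
    vv n lt r = 0 ↔ r ∈ Kset lt := by
  constructor
  · intro h
    refine ⟨hr.1, hr.2, fun i => ?_⟩
    by_contra hc
    push Not at hc
    have hw := wt_pos i
    have hy : (r - lend lt i) / wt i ∈ Ioo (0 : ℝ) 1 := by
      constructor
      · apply div_pos _ hw
        linarith [hc.1]
      · rw [div_lt_one hw]
        linarith [hc.2]
    have h1 := vv_gap (lt := lt) n i (Ioo_subset_Icc_self hy)
    rw [mul_div_cancel₀ _ hw.ne', add_sub_cancel, h] at h1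
    exact absurd h1 (mul_pos (eps_pos n i) (bmp_pos hy)).ne
  · intro h
    exact vv_zero n h.2.2

theorem s5_summable (n : ℕ) (r : ℝ) : Summable fun i => eps n i * bmp ((r - lend lt i) / wt i) := by
  by_cases h : ∀ i, r ≤ lend lt i ∨ lend lt i + wt i ≤ r
  · have e : (fun i => eps n i * bmp ((r - lend lt i) / wt i)) = fun _ => 0 := by
      funext i
      rw [s5_out (h i), mul_zero]
    rw [e]
    exact summable_zero
  · push Not at h
    obtain ⟨i, h1, h2⟩ := h
    refine (hasSum_single i fun j hj => ?_).summable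
    rw [s5_out (s5_other hj h1.le h2.le), mul_zero]

/-- The field in terms of the height function (at each point at most one term of the series is not
zero, so `tsum` commutes with the scalar multiplication). -/
theorem fld_eq {n : ℕ} (x : Euc n) : Fld lt x = (vv n lt (‖x‖ - 1) * ‖x‖⁻¹) • x := by
  have h := (s5_summable (lt := lt) n (‖x‖ - 1)).tsum_smul_const (‖x‖⁻¹ • x)
  rw [smul_smul] at h
  unfold vv
  rw [← h]
  unfold Fld
  congr 1
  funext i
  unfold Vf
  rw [smul_smul, smul_smul, mul_assoc]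

theorem fld_zero {n : ℕ} {x : Euc n} (hx : ‖x‖ ∉ Ioo (1 : ℝ) 2) : Fld lt x = 0 := by
  rw [fld_eq, vv_out, zero_mul, zero_smul]
  rintro ⟨h1, h2⟩
  exact hx ⟨by linarith, by linarith⟩

/-- norm and direction of `psi` -/
theorem psi_eq {n : ℕ} {δ : ℝ} (x : Euc n) :
    psi lt δ x = ((‖x‖ + δ * vv n lt (‖x‖ - 1)) * ‖x‖⁻¹) • x := by
  unfold psi
  rw [fld_eq]
  by_cases hx : x = 0
  · rw [hx, smul_zero, smul_zero, smul_zero, add_zero]
  · have h1 : ‖x‖ ≠ 0 := norm_ne_zero_iff.mpr hx
    rw [add_mul, mul_inv_cancel₀ h1, add_smul, one_smul, smul_smul, mul_assoc]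

theorem norm_psi {n : ℕ} {δ : ℝ} (hδ : 0 ≤ δ) (x : Euc n) :
    ‖psi lt δ x‖ = ‖x‖ + δ * vv n lt (‖x‖ - 1) := by
  rw [psi_eq, norm_smul]
  have h0 : 0 ≤ vv n lt (‖x‖ - 1) := vv_nonneg n _
  by_cases hx : x = 0
  · rw [hx, norm_zero, mul_zero, zero_add, vv_out, mul_zero]
    rintro ⟨h1, -⟩
    linarith
  · have h1 : 0 < ‖x‖ := norm_pos_iff.mpr hx
    rw [Real.norm_eq_abs, abs_of_nonneg (by positivity), mul_assoc, inv_mul_cancel₀ h1.ne', mul_one]

end Pool.Agent.Lib.H37C
end
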