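import Pool.Agent.Lib.H1M.FF.M003
import Pool.Agent.Lib.H1M.FF.M004
import Pool.Agent.Lib.H1M.FF.M008
import Pool.Agent.Lib.H1M.FF.M009

/-! Merged copies (to shorten the build) of Lib.H37C.Z1, Lib.H37C.Z2, Lib.H37C.Z3, Lib.H37N.SA2, Lib.H37N.T10b, Lib.H37N.A05, Lib.H37N.T7, Lib.H37N.T5c, Lib.H37N.SA5. -/

-- from Lib.H37C.Z1
section

open TopologicalSpace Set Filter Topology

namespace Pool.Agent.Lib.H37C

/-- **Z1.** For a strict total order `r` on `Ω`, the relation `NLt r` (largest difference decides) is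
a strict total order on the finitely supported functions `Ω → ℤ`.

Proof: the set of differences of `f` and `g` is the (finite) support of `f - g`; if `f ≠ g` it is
nonempty and has an `r`-largest element `j`: then `f j < g j` or `g j < f j`. Irreflexive: clear.
Transitive: if `f < g` with `j` and `g < h` with `j'`, take the larger of `j`, `j'`. (One may also
use `Finsupp.Lex` for the reversed order.) -/
theorem nlt_sto {Ω : Type*} (r : Ω → Ω → Prop) [IsStrictTotalOrder Ω r] :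
    IsStrictTotalOrder (Ω →₀ ℤ) (NLt r) := by
  classical
  refine { trichotomous := ?_, irrefl := ?_, trans := ?_ }
  · intro f g h1 h2
    by_contra hne
    -- the largest difference
    have hmax : ∀ F : Finset Ω, F.Nonempty → ∃ j ∈ F, ∀ k ∈ F, ¬ r j k := by
      intro F hF
      induction hF using Finset.Nonempty.cons_induction with
      | singleton a => exact ⟨a, by simp, by simpa using irrefl_of r a⟩
      | cons a F ha hF ih =>
        obtain ⟨j, hj, hjm⟩ := ih
        rcases trichotomous_of r a j with h | h | h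
        · refine ⟨j, by simp [hj], fun k hk => ?_⟩
          rcases Finset.mem_cons.1 hk with rfl | hk
          · exact asymm_of r h
          · exact hjm k hk
        · refine ⟨j, by simp [hj], fun k hk => ?_⟩
          rcases Finset.mem_cons.1 hk with rfl | hk
          · rw [h]; exact irrefl_of r _
          · exact hjm k hk
        · refine ⟨a, by simp, fun k hk => ?_⟩
          rcases Finset.mem_cons.1 hk with rfl | hk
          · exact irrefl_of r _
          · intro h3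
            exact hjm k hk (_root_.trans h h3)
    have hne' : (f - g).support.Nonempty := by
      rw [Finsupp.support_nonempty_iff, sub_ne_zero]
      exact hne
    obtain ⟨j, hj, hjm⟩ := hmax _ hne'
    have hjne : f j ≠ g j := by
      intro h
      rw [Finsupp.mem_support_iff] at hj
      simp [h] at hj
    have habove : ∀ k, r j k → f k = g k := by
      intro k hk
      by_contra h
      refine hjm k ?_ hk
      rw [Finsupp.mem_support_iff, Finsupp.sub_apply]
      exact sub_ne_zero.2 h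
    rcases lt_or_gt_of_ne hjne with h | h
    · exact h1 ⟨j, h, habove⟩
    · exact h2 ⟨j, h, fun k hk => (habove k hk).symm⟩
  · rintro f ⟨j, hj, -⟩
    exact lt_irrefl _ hj
  · rintro f g h ⟨j, hj, hj'⟩ ⟨k, hk, hk'⟩
    rcases trichotomous_of r j k with h3 | h3 | h3
    · refine ⟨k, ?_, fun m hm => ?_⟩
      · rw [hj' k h3]; exact hk
      · rw [hj' m (_root_.trans h3 hm), hk' m hm]
    · subst h3
      exact ⟨j, hj.trans hk, fun m hm => (hj' m hm).trans (hk' m hm)⟩
    · refine ⟨j, ?_, fun m hm => ?_⟩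
      · rw [← hk' j h3]; exact hj
      · rw [hj' m hm, hk' m (_root_.trans h3 hm)]

/-- **Z1, second part.** If the relation `r x` depends continuously on `x` (clopen sets), so does
`NLt (r x)`.

Proof: in `NLt r f g` only the `j` in the finite support of `f - g` matter, and for such a `j` only
the `k` in this support matter: `NLt (r x) f g ↔ ∃ j ∈ (f - g).support, f j < g j ∧
∀ k ∈ (f - g).support, ¬ r x j k`. A finite union of finite intersections of clopen sets. -/
theorem nlt_clopen {X : Type*} [TopologicalSpace X] {Ω : Type*} (r : X → Ω → Ω → Prop)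
    (hr : ∀ i j, IsClopen {x | r x i j}) (f g : Ω →₀ ℤ) : IsClopen {x | NLt (r x) f g} := by
  classical
  have h1 : {x | NLt (r x) f g} = ⋃ j ∈ (f - g).support, ⋂ k ∈ (f - g).support,
      {x | f j < g j ∧ ¬ r x j k} := by
    ext x
    simp only [mem_setOf_eq, mem_iUnion, mem_iInter, exists_prop]
    constructor
    · rintro ⟨j, hj, hj'⟩
      refine ⟨j, ?_, fun k hk => ⟨hj, fun h => ?_⟩⟩
      · rw [Finsupp.mem_support_iff, Finsupp.sub_apply]
        omega
      · rw [Finsupp.mem_support_iff, Finsupp.sub_apply, hj' k h, sub_self] at hk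
        exact hk rfl
    · rintro ⟨j, hj, hj'⟩
      refine ⟨j, (hj' j hj).1, fun k hk => ?_⟩
      by_contra hne
      refine (hj' k ?_).2 hk
      rw [Finsupp.mem_support_iff, Finsupp.sub_apply]
      exact sub_ne_zero.2 hne
  rw [h1]
  refine isClopen_biUnion_finset fun j _ => isClopen_biInter_finset fun k _ => ?_
  by_cases hj : f j < g j
  · have : {x | f j < g j ∧ ¬ r x j k} = {x | r x j k}ᶜ := by
      ext x; simp [hj]
    rw [this]
    exact (hr j k).compl
  · have : {x | f j < g j ∧ ¬ r x j k} = ∅ := by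
      ext x; simp [hj]
    rw [this]
    exact isClopen_empty

end Pool.Agent.Lib.H37C
end

-- from Lib.H37C.Z2
section

open TopologicalSpace Set Filter Topology

namespace Pool.Agent.Lib.H37C

/-- **Z2.** If `P` is an initial segment of `Ω`, then `ℤ^Ω` is the lexicographic product of
`ℤ^(Ω \ P)` (more significant) and `ℤ^P`.

Proof: the bijection `f ↦ (f restricted to the complement of P, f restricted to P)`
(`Finsupp.subtypeDomain`, or `Finsupp.sumFinsuppEquivProdFinsupp` and `Equiv.sumCompl`). If `f` and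
`g` differ somewhere outside `P`, the largest difference is outside `P`, as `P` is an initial
segment; otherwise the restrictions to the complement agree and the largest difference is in `P`. -/
theorem nlt_split {Ω : Type*} (r : Ω → Ω → Prop) [IsStrictTotalOrder Ω r] (P : Set Ω)
    (hP : ∀ a b, r a b → b ∈ P → a ∈ P) :
    Nonempty (NLt r ≃r Prod.Lex (NLt (fun a b : {m // m ∉ P} => r a b))
      (NLt (fun a b : {m // m ∈ P} => r a b))) := by
  classical
  let φ : (Ω →₀ ℤ) → ({m // m ∉ P} →₀ ℤ) × ({m // m ∈ P} →₀ ℤ) := fun f =>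
    (f.subtypeDomain (fun m => m ∉ P), f.subtypeDomain (fun m => m ∈ P))
  have hbij : Function.Bijective φ := by
    constructor
    · intro f g h
      have h1 : f.subtypeDomain (fun m => m ∉ P) = g.subtypeDomain (fun m => m ∉ P) :=
        congrArg Prod.fst h
      have h2 : f.subtypeDomain (fun m => m ∈ P) = g.subtypeDomain (fun m => m ∈ P) :=
        congrArg Prod.snd h
      ext m
      by_cases hm : m ∈ P
      · exact DFunLike.congr_fun h2 ⟨m, hm⟩
      · exact DFunLike.congr_fun h1 ⟨m, hm⟩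
    · rintro ⟨a, b⟩
      refine ⟨a.mapDomain Subtype.val + b.mapDomain Subtype.val, ?_⟩
      refine Prod.ext ?_ ?_
      · ext ⟨m, hm⟩
        show (a.mapDomain Subtype.val + b.mapDomain Subtype.val : Ω →₀ ℤ) m = a ⟨m, hm⟩
        rw [Finsupp.add_apply]
        have h1 : (a.mapDomain Subtype.val : Ω →₀ ℤ) m = a ⟨m, hm⟩ :=
          Finsupp.mapDomain_apply Subtype.val_injective a ⟨m, hm⟩
        have h2 : (b.mapDomain Subtype.val : Ω →₀ ℤ) m = 0 :=
          Finsupp.mapDomain_notin_range _ _ (by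
            rintro ⟨x, hx⟩
            exact hm (hx ▸ x.2))
        rw [h1, h2, add_zero]
      · ext ⟨m, hm⟩
        show (a.mapDomain Subtype.val + b.mapDomain Subtype.val : Ω →₀ ℤ) m = b ⟨m, hm⟩
        rw [Finsupp.add_apply]
        have h1 : (b.mapDomain Subtype.val : Ω →₀ ℤ) m = b ⟨m, hm⟩ :=
          Finsupp.mapDomain_apply Subtype.val_injective b ⟨m, hm⟩
        have h2 : (a.mapDomain Subtype.val : Ω →₀ ℤ) m = 0 :=
          Finsupp.mapDomain_notin_range _ _ (by
            rintro ⟨x, hx⟩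
            exact x.2 (hx ▸ hm))
        rw [h1, h2, zero_add]
  refine ⟨⟨Equiv.ofBijective φ hbij, ?_⟩⟩
  intro f g
  rw [Equiv.ofBijective_apply, Equiv.ofBijective_apply, Prod.lex_def]
  show NLt _ (f.subtypeDomain _) (g.subtypeDomain _) ∨ (f.subtypeDomain (fun m => m ∉ P) =
    g.subtypeDomain (fun m => m ∉ P) ∧ NLt _ (f.subtypeDomain _) (g.subtypeDomain _)) ↔ _
  constructor
  · rintro (⟨⟨j, hj⟩, h1, h2⟩ | ⟨h0, ⟨j, hj⟩, h1, h2⟩)
    · refine ⟨j, h1, fun k hk => ?_⟩
      by_cases hkP : k ∈ P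
      · exact absurd (hP j k hk hkP) hj
      · exact h2 ⟨k, hkP⟩ hk
    · refine ⟨j, h1, fun k hk => ?_⟩
      by_cases hkP : k ∈ P
      · exact h2 ⟨k, hkP⟩ hk
      · exact DFunLike.congr_fun h0 ⟨k, hkP⟩
  · rintro ⟨j, h1, h2⟩
    by_cases hj : j ∈ P
    · right
      refine ⟨?_, ⟨⟨j, hj⟩, h1, fun k hk => h2 k hk⟩⟩
      ext ⟨m, hm⟩
      show f m = g m
      apply h2
      rcases trichotomous_of r m j with h | h | h
      · exact absurd (hP m j h hj) hm
      · rw [h] at hm; exact absurd hj hm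
      · exact h
    · left
      exact ⟨⟨j, hj⟩, h1, fun k hk => h2 k hk⟩

end Pool.Agent.Lib.H37C
end

-- from Lib.H37C.Z3
section

open TopologicalSpace Set Filter Topology

namespace Pool.Agent.Lib.H37C

/-- **Z3.** If `Ω` is countable, nonempty and has no smallest element, then `ℤ^Ω` is a countable
dense linear order without end points, so isomorphic to `ℚ` (Cantor).

Proof: `NLt r` is a strict total order (`nlt_sto`), countable. No end points: for `f` and any `j`,
`f - single j 1 < f < f + single j 1`. Dense: if `f < g` with largest difference `j`, take `j'` with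
`r j' j` and `h = f + single j' 1`: `f < h` (largest difference `j'`) and `h < g` (the values at `j`
and above are those of `f`; `h j = f j < g j`). Use `linearOrderOfSTO` and
`Order.iso_of_countable_dense`. -/
theorem nlt_cantor {Ω : Type*} [Countable Ω] [Nonempty Ω] (r : Ω → Ω → Prop)
    [IsStrictTotalOrder Ω r] (h : ∀ m, ∃ m', r m' m) :
    Nonempty (NLt r ≃r ((· < ·) : ℚ → ℚ → Prop)) := by
  classical
  have hsto := nlt_sto r
  let L : LinearOrder (Ω →₀ ℤ) := linearOrderOfSTO (NLt r)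
  have hadd : ∀ (f : Ω →₀ ℤ) j, NLt r f (f + Finsupp.single j 1) := by
    intro f j
    refine ⟨j, by simp, fun k hk => ?_⟩
    have : k ≠ j := by rintro rfl; exact irrefl_of r _ hk
    simp [this]
  have hsub : ∀ (f : Ω →₀ ℤ) j, NLt r (f - Finsupp.single j 1) f := by
    intro f j
    refine ⟨j, by simp, fun k hk => ?_⟩
    have : k ≠ j := by rintro rfl; exact irrefl_of r _ hk
    simp [this]
  have j₀ : Ω := Classical.arbitrary Ω
  have hD : @DenselyOrdered (Ω →₀ ℤ) L.toLT := by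
    refine @DenselyOrdered.mk _ L.toLT ?_
    intro f g hfg
    obtain ⟨j, hj, hj'⟩ : NLt r f g := hfg
    obtain ⟨j', hj'j⟩ := h j
    refine ⟨f + Finsupp.single j' 1, hadd f j', ?_⟩
    show NLt r (f + Finsupp.single j' 1) g
    have hne : ∀ k, (k = j ∨ r j k) → k ≠ j' := by
      rintro k (rfl | hk) rfl
      · exact irrefl_of r _ hj'j
      · exact asymm_of r hk hj'j
    refine ⟨j, ?_, fun k hk => ?_⟩
    · simpa [hne j (Or.inl rfl)] using hj
    · simpa [hne k (Or.inr hk)] using hj' k hk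
  have hmax : @NoMaxOrder (Ω →₀ ℤ) L.toLT := @NoMaxOrder.mk _ L.toLT fun f => ⟨_, hadd f j₀⟩
  have hmin : @NoMinOrder (Ω →₀ ℤ) L.toLT := @NoMinOrder.mk _ L.toLT fun f => ⟨_, hsub f j₀⟩
  have hc : Countable (Ω →₀ ℤ) := inferInstance
  obtain ⟨φ⟩ := @Order.iso_of_countable_dense (Ω →₀ ℤ) ℚ L _ _ hD hmin hmax ⟨0⟩ _ _ _ _ _
  exact ⟨⟨φ.toEquiv, fun {f g} => @OrderIso.lt_iff_lt _ _ L.toPreorder _ φ f g⟩⟩

end Pool.Agent.Lib.H37C
end

-- from Lib.H37N.SA2
section

/-! # H37N, chunk SA2 (M): powers of linear forms span; the linear algebra of AS2 (S.2) -/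

open Set Filter Topology Asymptotics
open scoped ContDiff

namespace Pool.Agent.Lib.H37N

theorem sa2_vander (m : ℕ) (r : ℕ → ℝ) (hr : ∀ l ≤ m, ∀ l' ≤ m, r l = r l' → l = l')
    (t : ℕ → ℝ) : ∃ β : ℕ → ℝ, ∀ a ≤ m, ∑ l ∈ Finset.range (m + 1), β l * r l ^ a = t a := by
  classical
  obtain ⟨v, hv⟩ : ∃ v : Fin (m + 1) → ℝ, v = fun l : Fin (m + 1) => r (l : ℕ) := ⟨_, rfl⟩
  have hinj : Function.Injective v := by
    intro i j hij
    rw [hv] at hij
    exact Fin.ext (hr i (by omega) j (by omega) hij)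
  have hdet : ((Matrix.vandermonde v).transpose).det ≠ 0 := by
    rw [Matrix.det_transpose]
    exact Matrix.det_vandermonde_ne_zero_iff.2 hinj
  have hu : IsUnit ((Matrix.vandermonde v).transpose).det := hdet.isUnit
  set b : Fin (m + 1) → ℝ :=
    ((Matrix.vandermonde v).transpose)⁻¹.mulVec (fun a : Fin (m + 1) => t a) with hb
  have h1 : ((Matrix.vandermonde v).transpose).mulVec b = fun a : Fin (m + 1) => t a := by
    rw [hb, Matrix.mulVec_mulVec, Matrix.mul_nonsing_inv _ hu, Matrix.one_mulVec]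
  refine ⟨fun l => if h : l < m + 1 then b ⟨l, h⟩ else 0, fun a ha => ?_⟩
  have h2 := congrFun h1 ⟨a, by omega⟩
  simp only [Matrix.mulVec, dotProduct, Matrix.transpose_apply, Matrix.vandermonde_apply] at h2
  rw [Finset.sum_range]
  rw [← h2]
  refine Finset.sum_congr rfl fun l _ => ?_
  simp only [hv, l.2, dif_pos]
  ring

/-- The m-th powers of m+1 linear forms, pairwise not proportional, span the forms of degree m.

PROOF.  `(k_l (u + r_l x))^m = k_l^m Σ_a C(m,a) r_l^a x^a u^(m-a)` (`add_pow`, `mul_pow`).  So it suffices to find `β_l = α_l k_l^m`, `l ∈ range (m+1)` (`Fin (m+1)`), with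
`Σ_l β_l r_l^a = c_a / C(m,a)` for all `a ≤ m`: the transpose of the Vandermonde matrix of `r_0, ..., r_m` is invertible (`Matrix.det_vandermonde_ne_zero_iff`,
`Matrix.det_transpose`, `Matrix.mulVec_surjective_iff_isUnit` or `Matrix.mulVec` with the inverse).  Put `α_l = β_l / k_l^m`. -/
theorem span_pow (m : ℕ) (k r : ℕ → ℝ) (hk : ∀ l ≤ m, k l ≠ 0)
    (hr : ∀ l ≤ m, ∀ l' ≤ m, r l = r l' → l = l') (c : ℕ → ℝ) :
    ∃ α : ℕ → ℝ, ∀ x u : ℝ, ∑ l ∈ Finset.range (m + 1), α l * (k l * (u + r l * x)) ^ m =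
      ∑ a ∈ Finset.range (m + 1), c a * (x ^ a * u ^ (m - a)) := by
  obtain ⟨β, hβ⟩ := sa2_vander m r hr (fun a => c a / (m.choose a))
  refine ⟨fun l => β l / k l ^ m, fun x u => ?_⟩
  have h1 : ∀ l ∈ Finset.range (m + 1), β l / k l ^ m * (k l * (u + r l * x)) ^ m =
      ∑ a ∈ Finset.range (m + 1), β l * r l ^ a * (m.choose a * (x ^ a * u ^ (m - a))) := by
    intro l hl
    have hl' : l ≤ m := by
      have := Finset.mem_range.1 hl
      omega
    have hkl : k l ^ m ≠ 0 := pow_ne_zero _ (hk l hl')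
    rw [mul_pow, ← mul_assoc, div_mul_cancel₀ _ hkl, add_comm u, add_pow, Finset.mul_sum]
    refine Finset.sum_congr rfl fun a _ => ?_
    rw [mul_pow]
    ring
  rw [Finset.sum_congr rfl h1, Finset.sum_comm]
  refine Finset.sum_congr rfl fun a ha => ?_
  have ha' : a ≤ m := by
    have := Finset.mem_range.1 ha
    omega
  rw [← Finset.sum_mul, hβ a ha']
  have hc : (m.choose a : ℝ) ≠ 0 := by
    have := Nat.choose_pos ha'
    positivity
  field_simp

/-- PROOF.  `span_pow` with `k l = K_(l+1) > 0` and `r l = - K_l / K_(l+1)` (`sK_pos`, `sK_ratio`; `l + 1 ≤ m + 1 < n`):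
`k l (u + r l x) = K_(l+1) u - K_l x = spi n (l+1) (x,u)`.  Take `α l = 0` for `l > m`. -/
theorem span_spi {n m : ℕ} (hn : 2 ≤ n) (hm : m + 1 < n) (c : ℕ → ℝ) :
    ∃ α : ℕ → ℝ, ∀ v : ℝ × ℝ, ∑ l ∈ Finset.range n, α l * spi n (l + 1) v ^ m =
      ∑ a ∈ Finset.range (m + 1), c a * (v.1 ^ a * v.2 ^ (m - a)) := by
  have hpos : ∀ l ≤ m, 0 < sK n ((l : ℝ) + 1) := by
    intro l hl
    have := sK_pos (n := n) (i := l + 1) hn (by omega) (by omega)
    push_cast at this
    exact this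
  obtain ⟨α, hα⟩ := span_pow m (fun l => sK n ((l : ℝ) + 1)) (fun l => - (sK n l / sK n ((l : ℝ) + 1)))
    (fun l hl => (hpos l hl).ne') (fun l hl l' hl' h => by
      have h' : sK n l / sK n ((l : ℝ) + 1) = sK n l' / sK n ((l' : ℝ) + 1) := neg_injective h
      exact sK_ratio hn (by omega) (by omega) h') c
  refine ⟨fun l => if l ≤ m then α l else 0, fun v => ?_⟩
  rw [← hα v.1 v.2]
  have hz : ∀ l ∈ Finset.range n, l ∉ Finset.range (m + 1) →
      (if l ≤ m then α l else 0) * spi n (l + 1) v ^ m = 0 := by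
    intro l _ hl
    have hl' : ¬ l ≤ m := by
      intro h
      exact hl (Finset.mem_range.2 (by omega))
    rw [if_neg hl', zero_mul]
  rw [← Finset.sum_subset (Finset.range_subset_range.2 (by omega)) hz]
  · refine Finset.sum_congr rfl fun l hl => ?_
    have hl' : l ≤ m := by
      have := Finset.mem_range.1 hl
      omega
    rw [if_pos hl']
    congr 2
    have := (hpos l hl').ne'
    simp only [spi, add_sub_cancel_right]
    field_simp
    ring

/-- The linear algebra of AS2: for every degree `i` the pair (degree `i+1` form, degree `i` form) is arbitrary.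

PROOF.  `span_spi` with `m = i + 1` and `c` gives `α`, with `m = i` and `c'` gives `β` (both over `l < n`).  For `l < n` let `s = (-1)^i`, `A = a_l + a_(l+n) ≠ 0` (`sa_add`, `sa_sum_pos`),
`q (l+n) = s (β_l - a_l α_l) / A`, `q l = α_l + s q (l+n)`; so `q l - s q (l+n) = α_l`, `a_l q l + s a_(l+n) q (l+n) = β_l` (`s² = 1`).  Split the sums over `range (2n) = range (n+n)` into
`l` and `l+n` (`Finset.sum_range_add`-type lemma `Finset.sum_range_add`? else `Finset.range_add`, `Finset.sum_Ico_consecutive`), with `spi n (l+n+1) = - spi n (l+1)` (`spi_add_half`), so its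
`(i+1)`-st power is `- s` times and its `i`-th power is `s` times the power of `spi n (l+1)`. -/
theorem as2_linear {n i : ℕ} (hn : 2 ≤ n) (hi : i + 2 < n) (c c' : ℕ → ℝ) :
    ∃ q : ℕ → ℝ, (∀ v : ℝ × ℝ, ∑ l ∈ Finset.range (2 * n), q l * spi n (l + 1) v ^ (i + 1) =
        ∑ a ∈ Finset.range (i + 2), c a * (v.1 ^ a * v.2 ^ (i + 1 - a))) ∧
      ∀ v : ℝ × ℝ, ∑ l ∈ Finset.range (2 * n), sa n l * q l * spi n (l + 1) v ^ i =
        ∑ a ∈ Finset.range (i + 1), c' a * (v.1 ^ a * v.2 ^ (i - a)) := by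
  obtain ⟨α, hα⟩ := span_spi (n := n) (m := i + 1) hn (by omega) c
  obtain ⟨β, hβ⟩ := span_spi (n := n) (m := i) hn (by omega) c'
  obtain ⟨A, hA⟩ : ∃ A, A = ∑ j ∈ Finset.range n, sK n j := ⟨_, rfl⟩
  have hA0 : A ≠ 0 := by
    rw [hA]
    exact (sa_sum_pos hn).ne'
  obtain ⟨s, hs⟩ : ∃ s : ℝ, s = (-1) ^ i := ⟨_, rfl⟩
  have hss : s * s = 1 := by
    rw [hs, ← mul_pow]
    norm_num
  obtain ⟨p, hp⟩ : ∃ p : ℕ → ℝ, p = fun l => s * (β l - sa n l * α l) / A := ⟨_, rfl⟩
  refine ⟨fun l => if l < n then α l + s * p l else p (l - n), ?_, ?_⟩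
  · intro v
    rw [← hα v, two_mul, Finset.sum_range_add, ← Finset.sum_add_distrib]
    refine Finset.sum_congr rfl fun l hl => ?_
    have hl' := Finset.mem_range.1 hl
    beta_reduce
    rw [if_pos hl', if_neg (by omega), Nat.add_sub_cancel_left]
    have e : spi n (((n + l : ℕ) : ℝ) + 1) v = - spi n ((l : ℝ) + 1) v := by
      rw [← spi_add_half hn]
      congr 1
      push_cast
      ring
    rw [e, neg_pow, pow_succ (-1 : ℝ) i, ← hs]
    ring
  · intro v
    rw [← hβ v, two_mul, Finset.sum_range_add, ← Finset.sum_add_distrib]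
    refine Finset.sum_congr rfl fun l hl => ?_
    have hl' := Finset.mem_range.1 hl
    beta_reduce
    rw [if_pos hl', if_neg (by omega), Nat.add_sub_cancel_left]
    have e : spi n (((n + l : ℕ) : ℝ) + 1) v = - spi n ((l : ℝ) + 1) v := by
      rw [← spi_add_half hn]
      congr 1
      push_cast
      ring
    have h1 := sa_add hn hl'
    rw [← hA, add_comm l n] at h1
    have h2 : sa n (n + l) = A - sa n l := by linarith
    have h3 : sa n l * (α l + s * p l) + (A - sa n l) * p l * s = β l := by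
      have h4 : A * p l = s * (β l - sa n l * α l) := by
        rw [hp]
        field_simp
      calc sa n l * (α l + s * p l) + (A - sa n l) * p l * s
          = sa n l * α l + s * (A * p l) := by ring
        _ = sa n l * α l + (s * s) * (β l - sa n l * α l) := by rw [h4]; ring
        _ = β l := by rw [hss]; ring
    rw [e, neg_pow, ← hs, h2, ← h3]
    ring

end Pool.Agent.Lib.H37N
end

-- from Lib.H37N.T10b
section

/-! # H37N, chunk T10b (S/M): implicit functions with parameters -/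

open Set Filter Topology Asymptotics
open scoped ContDiff

namespace Pool.Agent.Lib.H37N

variable {P E Z : Type} [NormedAddCommGroup P] [NormedSpace ℝ P] [FiniteDimensional ℝ P]
  [NormedAddCommGroup E] [NormedSpace ℝ E] [FiniteDimensional ℝ E]
  [NormedAddCommGroup Z] [NormedSpace ℝ Z] [FiniteDimensional ℝ Z]

/-- T10, implicit function theorem with parameters: the solution x = ξ(p,z) of F(p,x) = z.

PROOF. `inverse_fun` for f : P × E → P × Z, (p,x) ↦ (p, F(p,x)) at (p₀,x₀): smooth near, derivative (u,v) ↦ (u, DF(u,v)), bijective because v ↦ DF(0,v) is (= fderiv of x ↦ F(p₀,x),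
chain rule).  Let g be the inverse; near (p₀,z₀): f(g(r)) = r, so (g r).1 = r.1.  ξ(r) := (g r).2. -/
theorem implicit_param {F : P × E → Z} {p₀ : P} {x₀ : E} (hF : ∀ᶠ q in 𝓝 (p₀, x₀), ContDiffAt ℝ ∞ F q)
    (hb : Function.Bijective (fderiv ℝ (fun x => F (p₀, x)) x₀)) :
    ∃ ξ : P × Z → E, ContDiff ℝ ∞ ξ ∧ ξ (p₀, F (p₀, x₀)) = x₀ ∧ (∀ᶠ q in 𝓝 (p₀, x₀), ξ (q.1, F q) = q.2) ∧
      ∀ᶠ r in 𝓝 (p₀, F (p₀, x₀)), F (r.1, ξ r) = r.2 := by
  set f : P × E → P × Z := fun q => (q.1, F q) with hfdef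
  have hf : ∀ᶠ q in 𝓝 (p₀, x₀), ContDiffAt ℝ ∞ f q := by
    filter_upwards [hF] with q hq
    exact contDiffAt_fst.prodMk hq
  have hF0 : ContDiffAt ℝ ∞ F (p₀, x₀) := hF.self_of_nhds
  have h1 : HasFDerivAt F (fderiv ℝ F (p₀, x₀)) (p₀, x₀) :=
    (hF0.differentiableAt (by simp)).hasFDerivAt
  have h2 : fderiv ℝ f (p₀, x₀) = (ContinuousLinearMap.fst ℝ P E).prod (fderiv ℝ F (p₀, x₀)) :=
    (hasFDerivAt_fst.prodMk h1).fderiv
  have h3 : fderiv ℝ (fun x => F (p₀, x)) x₀ =
      (fderiv ℝ F (p₀, x₀)).comp (ContinuousLinearMap.inr ℝ P E) := by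
    have h4 : HasFDerivAt (fun x : E => (p₀, x)) (ContinuousLinearMap.inr ℝ P E) x₀ :=
      hasFDerivAt_prodMk_right p₀ x₀
    exact (h1.comp x₀ h4).fderiv
  have hbij : Function.Bijective (fderiv ℝ f (p₀, x₀)) := by
    rw [h2]
    rw [h3] at hb
    have hsplit : ∀ (u : P) (v : E), fderiv ℝ F (p₀, x₀) (u, v) =
        fderiv ℝ F (p₀, x₀) (u, 0) + fderiv ℝ F (p₀, x₀) (0, v) := by
      intro u v
      have h8 : ((u, v) : P × E) = (u, 0) + (0, v) := by simp
      rw [h8, map_add]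
    constructor
    · rintro ⟨u, v⟩ ⟨u', v'⟩ h
      have h5 : u = u' := congrArg Prod.fst h
      subst h5
      have h6 : fderiv ℝ F (p₀, x₀) (u, v) = fderiv ℝ F (p₀, x₀) (u, v') := congrArg Prod.snd h
      rw [hsplit, hsplit u v'] at h6
      have h7 : fderiv ℝ F (p₀, x₀) (0, v) = fderiv ℝ F (p₀, x₀) (0, v') := add_left_cancel h6
      have h8 : v = v' := hb.1 h7
      rw [h8]
    · rintro ⟨u, w⟩
      obtain ⟨v, hv⟩ := hb.2 (w - fderiv ℝ F (p₀, x₀) (u, 0))
      have h6 : fderiv ℝ F (p₀, x₀) (0, v) = w - fderiv ℝ F (p₀, x₀) (u, 0) := hv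
      refine ⟨(u, v), Prod.ext rfl ?_⟩
      show fderiv ℝ F (p₀, x₀) (u, v) = w
      rw [hsplit, h6]
      abel
  obtain ⟨g, hg, hg0, hg1, hg2⟩ := inverse_fun hf hbij
  refine ⟨fun r => (g r).2, contDiff_snd.comp hg, ?_, ?_, ?_⟩
  · show (g (f (p₀, x₀))).2 = x₀
    rw [hg0]
  · filter_upwards [hg1] with q hq
    show (g (f q)).2 = q.2
    rw [hq]
  · have h9 : f (p₀, x₀) = (p₀, F (p₀, x₀)) := rfl
    rw [h9] at hg2
    filter_upwards [hg2] with r hr
    have h10 : (g r).1 = r.1 := congrArg Prod.fst hr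
    have h11 : F (g r) = r.2 := congrArg Prod.snd hr
    show F (r.1, (g r).2) = r.2
    rw [← h10]
    exact h11

/-- T10, scalar form.

PROOF. `implicit_param` with E = Z = ℝ: fderiv (fun t => F(p₀,t)) t₀ = (deriv ..) • id is bijective. -/
theorem inverse_param {F : P × ℝ → ℝ} {p₀ : P} {t₀ : ℝ} (hF : ∀ᶠ q in 𝓝 (p₀, t₀), ContDiffAt ℝ ∞ F q)
    (hd : deriv (fun t => F (p₀, t)) t₀ ≠ 0) :
    ∃ θ : P × ℝ → ℝ, ContDiff ℝ ∞ θ ∧ θ (p₀, F (p₀, t₀)) = t₀ ∧ (∀ᶠ q in 𝓝 (p₀, t₀), θ (q.1, F q) = q.2) ∧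
      ∀ᶠ r in 𝓝 (p₀, F (p₀, t₀)), F (r.1, θ r) = r.2 := by
  refine implicit_param hF ?_
  set φ : ℝ → ℝ := fun t => F (p₀, t) with hφ
  have h1 : ∀ v : ℝ, fderiv ℝ φ t₀ v = v * deriv φ t₀ := by
    intro v
    have h2 : v = v • (1 : ℝ) := by simp
    rw [h2, map_smul, fderiv_apply_one_eq_deriv]
    simp
  constructor
  · intro a b hab
    rw [h1, h1] at hab
    exact mul_right_cancel₀ hd hab
  · intro w
    refine ⟨w / deriv φ t₀, ?_⟩
    rw [h1, div_mul_cancel₀ _ hd]

end Pool.Agent.Lib.H37N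
end

-- from Lib.H37N.A05
section

/-!
# H37N A05 (size S): swapping a cross system
-/

open Set Filter Topology

namespace Pool.Agent.Lib.H37N

theorem a05_swap_mem {z : Pt} (h : z ∈ NN) : ((z.2, z.1) : Pt) ∈ NN := ⟨h.2, h.1⟩

theorem a05_norm (z w : Pt) : ‖((z.2, z.1) : Pt) - (w.2, w.1)‖ = ‖z - w‖ := by
  simp only [Prod.norm_def, Prod.fst_sub, Prod.snd_sub]
  exact max_comm _ _

theorem a05_mv {s t : ℝ} {F : Pt → ℝ} (h : MV s t F) : MV t s (fun z => F (z.2, z.1)) := by
  intro z0 h0 z1 h1 z2 h2 z3 h3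
  obtain ⟨a, b, a', b', e1, e2, ha, hb, ha', hb', haa, hbb⟩ :=
    h _ (a05_swap_mem h0) _ (a05_swap_mem h1) _ (a05_swap_mem h2) _ (a05_swap_mem h3)
  rw [a05_norm, a05_norm] at haa hbb
  refine ⟨b, a, b', a', ?_, ?_, hb, ha, hb', ha', hbb, haa⟩
  · simp only at e1 ⊢
    rw [e1]; ring
  · simp only at e2 ⊢
    rw [e2]; ring

/-- Proof. All fields by exchanging the coordinates: `(z.2, z.1) ∈ NN ↔ z ∈ NN`, the sup norm is symmetric; in `MV`
exchange the roles of `a, b` (and `a', b'`): for `swX Y i`, `Y z1 - Y z0 = a dx + b dy` becomes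
`b * (z1.1 - z0.1) + a * (z1.2 - z0.2)`. -/
theorem CS.swap {p q : Sy → ℝ} {X Y : Sy → Pt → ℝ} (h : CS p q X Y) :
    CS q p (swX Y) (swX X) where
  p0 := h.q0
  q0 := h.p0
  psum := h.qsum
  qsum := h.psum
  X0 := fun i _ hz => h.Y0 i _ (a05_swap_mem hz)
  Y0 := fun i _ hz => h.X0 i _ (a05_swap_mem hz)
  mvX := fun i => a05_mv (h.mvY i)
  mvY := fun i => a05_mv (h.mvX i)

end Pool.Agent.Lib.H37N
end

-- from Lib.H37N.T7
section

/-! # H37N, chunk T7 (S/M): smooth families are small perturbations -/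

open Set Filter Topology Asymptotics
open scoped ContDiff

namespace Pool.Agent.Lib.H37N

variable {P E W : Type} [NormedAddCommGroup P] [NormedSpace ℝ P] [FiniteDimensional ℝ P]
  [NormedAddCommGroup E] [NormedSpace ℝ E] [FiniteDimensional ℝ E]
  [NormedAddCommGroup W] [NormedSpace ℝ W] [CompleteSpace W]

omit [FiniteDimensional ℝ P] [FiniteDimensional ℝ E] [CompleteSpace W] in
/-- PROOF. x ↦ h(p,x) is h composed with x ↦ inr x + (p,0); `iteratedFDeriv_comp_add_left` / `iteratedFDeriv_comp_add_right` and `ContinuousLinearMap.iteratedFDeriv_comp_right`: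
iteratedFDeriv j (h(p,·)) x = (iteratedFDeriv j h (p,x)).compContinuousLinearMap (fun _ => inr ℝ P E).  The right side is continuous in (p,x)
(`ContDiff.continuous_iteratedFDeriv`, `ContinuousMultilinearMap.compContinuousLinearMapL`). -/
theorem continuous_partial_iteratedFDeriv {h : P × E → W} (hh : ContDiff ℝ ∞ h) (j : ℕ) :
    Continuous (fun q : P × E => iteratedFDeriv ℝ j (fun x => h (q.1, x)) q.2) := by
  have key : ∀ q : P × E, iteratedFDeriv ℝ j (fun x => h (q.1, x)) q.2 =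
      (iteratedFDeriv ℝ j h q).compContinuousLinearMap
        (fun _ => ContinuousLinearMap.inr ℝ P E) := by
    intro q
    have h1 : (fun x => h (q.1, x)) =
        (fun y : P × E => h ((q.1, 0) + y)) ∘ (ContinuousLinearMap.inr ℝ P E) := by
      funext x
      simp
    have hc : ContDiff ℝ ∞ (fun y : P × E => h ((q.1, 0) + y)) :=
      hh.comp (contDiff_const.add contDiff_id)
    rw [h1, ContinuousLinearMap.iteratedFDeriv_comp_right (ContinuousLinearMap.inr ℝ P E) hc q.2
      (by exact_mod_cast le_top), iteratedFDeriv_comp_add_left]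
    simp
  have h2 : (fun q : P × E => iteratedFDeriv ℝ j (fun x => h (q.1, x)) q.2) =
      fun q => (iteratedFDeriv ℝ j h q).compContinuousLinearMap
        (fun _ => ContinuousLinearMap.inr ℝ P E) := funext key
  rw [h2]
  exact (ContinuousMultilinearMap.compContinuousLinearMapL
    (fun _ : Fin j => ContinuousLinearMap.inr ℝ P E)).continuous.comp
    (hh.continuous_iteratedFDeriv (by exact_mod_cast le_top))

omit [FiniteDimensional ℝ P] in
/-- T7.

PROOF. h(p,z) = Ψ(p,z) - z is smooth.  For j ≤ R the function (p,z) ↦ ‖iteratedFDeriv j (h(p,·)) z‖ is continuous (`continuous_partial_iteratedFDeriv`) and 0 for p = p₀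
(h(p₀,·) = 0).  For every z in C there are neighbourhoods with the value < ε; by compactness of C (tube lemma, `IsCompact.eventually_forall_of_forall_eventually`) for p near p₀ it is
< ε for all z ∈ C.  For z ∉ C (open complement) h(p,·) = 0 near z, so the derivative is 0 ≤ ε.  Finitely many j ≤ R. -/
theorem small_family {Ψ : P × Pt → Pt} (hΨ : ContDiff ℝ ∞ Ψ) (p₀ : P) (h0 : ∀ z, Ψ (p₀, z) = z)
    {C : Set Pt} (hC : IsCompact C) (hCK : C ⊆ K0) (hs : ∀ p z, z ∉ C → Ψ (p, z) = z) (R : ℕ) {ε : ℝ} (hε : 0 < ε) :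
    ∀ᶠ p in 𝓝 p₀, Small R ε (fun z => Ψ (p, z)) := by
  have hh : ContDiff ℝ ∞ (fun q : P × Pt => Ψ q - q.2) := hΨ.sub contDiff_snd
  have h1 : ∀ j : ℕ, ∀ᶠ p in 𝓝 p₀, ∀ z ∈ C,
      ‖iteratedFDeriv ℝ j (fun x => Ψ (p, x) - x) z‖ < ε := by
    intro j
    have hc := continuous_partial_iteratedFDeriv (h := fun q : P × Pt => Ψ q - q.2) hh j
    apply hC.eventually_forall_of_forall_eventually
    intro z _
    have h2 : Continuous (fun q : P × Pt => ‖iteratedFDeriv ℝ j (fun x => Ψ (q.1, x) - x) q.2‖) :=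
      hc.norm
    have h3 : ‖iteratedFDeriv ℝ j (fun x => Ψ (p₀, x) - x) z‖ < ε := by
      have h4 : (fun x => Ψ (p₀, x) - x) = fun _ => (0 : Pt) := by
        funext x
        rw [h0, sub_self]
      rw [h4, iteratedFDeriv_zero_fun]
      simpa using hε
    exact (h2.tendsto (p₀, z)).eventually (gt_mem_nhds h3)
  have h5 : ∀ᶠ p in 𝓝 p₀, ∀ j ∈ Finset.range (R + 1), ∀ z ∈ C,
      ‖iteratedFDeriv ℝ j (fun x => Ψ (p, x) - x) z‖ < ε := by
    rw [Filter.eventually_all_finset]
    intro j _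
    exact h1 j
  filter_upwards [h5] with p hp
  refine ⟨hΨ.comp (contDiff_const.prodMk contDiff_id), fun z hz => hs p z fun h => hz (hCK h), ?_⟩
  intro j hj z
  by_cases hz : z ∈ C
  · exact (hp j (Finset.mem_range.2 (by omega)) z hz).le
  · have h6 : (fun x => Ψ (p, x) - x) =ᶠ[𝓝 z] fun _ => (0 : Pt) := by
      filter_upwards [hC.isClosed.isOpen_compl.mem_nhds hz] with x hx
      rw [hs p x hx, sub_self]
    have h7 := (h6.iteratedFDeriv ℝ j).eq_of_nhds
    show ‖iteratedFDeriv ℝ j (fun x => Ψ (p, x) - x) z‖ ≤ ε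
    rw [h7, iteratedFDeriv_zero_fun]
    simpa using hε.le

end Pool.Agent.Lib.H37N
end

-- from Lib.H37N.T5c
section

/-! # H37N, chunk T5c (M): Taylor formula in the plane with parameters -/

open Set Filter Topology Asymptotics
open scoped ContDiff

namespace Pool.Agent.Lib.H37N

variable {P W : Type} [NormedAddCommGroup P] [NormedSpace ℝ P] [FiniteDimensional ℝ P]
  [NormedAddCommGroup W] [NormedSpace ℝ W] [CompleteSpace W]

/-- One step.

PROOF. `hadamard` with E = ℝ × ℝ: F(p,z) = F(p,0) + G(p,z) z, z = (x,y) = x • (1,0) + y • (0,1); A(p,x,y) = G(p,(x,y)) (1,0), B = G(p,(x,y)) (0,1). -/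
theorem t5c_step {F : P × ℝ × ℝ → W} (hF : ContDiff ℝ ∞ F) :
    ∃ A B : P × ℝ × ℝ → W, ContDiff ℝ ∞ A ∧ ContDiff ℝ ∞ B ∧
      (∀ p x y, F (p, x, y) = F (p, 0, 0) + x • A (p, x, y) + y • B (p, x, y)) ∧
      (∀ p, A (p, 0, 0) = fderiv ℝ (fun z : ℝ × ℝ => F (p, z)) 0 (1, 0)) ∧
      ∀ p, B (p, 0, 0) = fderiv ℝ (fun z : ℝ × ℝ => F (p, z)) 0 (0, 1) := by
  obtain ⟨G, hG, h1, h2⟩ := hadamard (E := ℝ × ℝ) hF
  refine ⟨fun q => G q (1, 0), fun q => G q (0, 1), hG.clm_apply contDiff_const,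
    hG.clm_apply contDiff_const, ?_, ?_, ?_⟩
  · intro p x y
    have e : ((x, y) : ℝ × ℝ) = x • ((1, 0) : ℝ × ℝ) + y • ((0, 1) : ℝ × ℝ) := by simp
    have e2 : G (p, x, y) (x, y) = x • G (p, x, y) (1, 0) + y • G (p, x, y) (0, 1) := by
      conv_lhs => rw [show G (p, x, y) (x, y) = G (p, x, y) (x • ((1, 0) : ℝ × ℝ) +
        y • ((0, 1) : ℝ × ℝ)) from by rw [← e]]
      rw [map_add, map_smul, map_smul]
    rw [h1 p (x, y), e2, add_assoc]
    rfl
  · intro p
    have := h2 p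
    rw [show (p, (0 : ℝ × ℝ)) = (p, (0 : ℝ), (0 : ℝ)) from rfl] at this
    simp only [this]
  · intro p
    have := h2 p
    rw [show (p, (0 : ℝ × ℝ)) = (p, (0 : ℝ), (0 : ℝ)) from rfl] at this
    simp only [this]

omit [CompleteSpace W] in
theorem t5c_sum (A B C D : ℕ → W) (x y : ℝ) (n : ℕ)
    (h : ∀ a, C a = D a + x • A a + y • B a) :
    ∑ a ∈ Finset.range (n + 1), (x ^ a * y ^ (n - a)) • C a =
      (∑ a ∈ Finset.range (n + 1), (x ^ a * y ^ (n - a)) • D a) +
      ∑ a ∈ Finset.range (n + 2), (x ^ a * y ^ (n + 1 - a)) •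
        ((if a = 0 then 0 else A (a - 1)) + (if a ≤ n then B a else 0)) := by
  have h1 : ∑ a ∈ Finset.range (n + 2), (x ^ a * y ^ (n + 1 - a)) •
      (if a = 0 then (0 : W) else A (a - 1)) =
      ∑ a ∈ Finset.range (n + 1), (x ^ (a + 1) * y ^ (n - a)) • A a := by
    rw [Finset.sum_range_succ']
    simp
  have h2 : ∑ a ∈ Finset.range (n + 2), (x ^ a * y ^ (n + 1 - a)) •
      (if a ≤ n then B a else (0 : W)) =
      ∑ a ∈ Finset.range (n + 1), (x ^ a * y ^ (n + 1 - a)) • B a := by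
    rw [Finset.sum_range_succ, if_neg (by omega), smul_zero, add_zero]
    refine Finset.sum_congr rfl fun a ha => ?_
    rw [if_pos (by have := Finset.mem_range.1 ha; omega)]
  simp only [smul_add]
  rw [Finset.sum_add_distrib, h1, h2, ← add_assoc, ← Finset.sum_add_distrib,
    ← Finset.sum_add_distrib]
  refine Finset.sum_congr rfl fun a ha => ?_
  have ha' : n + 1 - a = (n - a) + 1 := by have := Finset.mem_range.1 ha; omega
  rw [h a, ha', smul_add, smul_add, smul_smul, smul_smul, pow_succ, pow_succ]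
  congr 2
  · congr 1
    ring
  · ring

/-- T5. Taylor formula with parameters; the coefficients do not depend on k.

PROOF. Choose for every smooth G functions stA G, stB G as in `t5c_step` (zero if G is not smooth).  Define Γ n a b (for a + b = n) recursively:
Γ 0 0 0 = F, Γ (n+1) a b = (if b = 0 then stA (Γ n (a-1) 0) else if a = 0 then stB (Γ n 0 (b-1)) else stA (Γ n (a-1) b)), all smooth [so Γ (n+1) a 0 = stA, and for
b ≥ 1: every term x^a y^b Γ n a b = x^a y^b c a b + x^(a+1) y^b stA(Γ n a b) + x^a y^(b+1) stB(Γ n a b)].  To be safe collect BOTH contributions: for a + b = n+1,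
Γ (n+1) a b := (if a = 0 then 0 else stA (Γ n (a-1) b)) + (if b = 0 then 0 else stB (Γ n a (b-1))).  Then
Σ_{a+b=n} x^a y^b Γ n a b (p,x,y) = Σ_{a+b=n} x^a y^b Γ n a b (p,0,0) + Σ_{a+b=n+1} x^a y^b Γ (n+1) a b (p,x,y), and c a b p := Γ (a+b) a b (p,0,0).
Induction on k gives the formula with G = Γ (k+1).  (Sums over a ∈ range (n+1), b = n - a: `Finset.sum_range_succ`, `Finset.sum_range_succ'`; for a ≤ n: n + 1 - a = (n - a) + 1.)
c 0 0 p = F(p,0,0); c 1 0 p = stA F (p,0,0), c 0 1 p = stB F (p,0,0). -/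
theorem taylor2 {F : P × ℝ × ℝ → W} (hF : ContDiff ℝ ∞ F) :
    ∃ c : ℕ → ℕ → P → W, (∀ a b, ContDiff ℝ ∞ (c a b)) ∧ (∀ p, c 0 0 p = F (p, 0, 0)) ∧
      (∀ p, c 1 0 p = fderiv ℝ (fun z : ℝ × ℝ => F (p, z)) 0 (1, 0)) ∧
      (∀ p, c 0 1 p = fderiv ℝ (fun z : ℝ × ℝ => F (p, z)) 0 (0, 1)) ∧
      ∀ k : ℕ, ∃ G : ℕ → ℕ → P × ℝ × ℝ → W, (∀ a b, ContDiff ℝ ∞ (G a b)) ∧
        ∀ p x y, F (p, x, y) =
          (∑ n ∈ Finset.range (k + 1), ∑ a ∈ Finset.range (n + 1), (x ^ a * y ^ (n - a)) • c a (n - a) p) +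
          ∑ a ∈ Finset.range (k + 2), (x ^ a * y ^ (k + 1 - a)) • G a (k + 1 - a) (p, x, y) := by
  choose A B hA hB h1 h2 h3 using
    fun F : {F : P × ℝ × ℝ → W // ContDiff ℝ ∞ F} => t5c_step F.2
  let Γ : ℕ → ℕ → {F : P × ℝ × ℝ → W // ContDiff ℝ ∞ F} := fun n =>
    Nat.rec (fun _ => ⟨F, hF⟩) (fun n Γ a =>
      ⟨fun q => (if a = 0 then 0 else A (Γ (a - 1)) q) + (if a ≤ n then B (Γ a) q else 0), by
        refine ContDiff.add ?_ ?_
        · split_ifs
          · exact contDiff_const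
          · exact hA _
        · split_ifs
          · exact hB _
          · exact contDiff_const⟩) n
  have hΓ0 : ∀ a, (Γ 0 a).1 = F := fun a => rfl
  have hΓ : ∀ n a q, (Γ (n + 1) a).1 q =
      (if a = 0 then 0 else A (Γ n (a - 1)) q) + (if a ≤ n then B (Γ n a) q else 0) :=
    fun n a q => rfl
  have hst : ∀ n p x y, ∑ a ∈ Finset.range (n + 1), (x ^ a * y ^ (n - a)) • (Γ n a).1 (p, x, y) =
      (∑ a ∈ Finset.range (n + 1), (x ^ a * y ^ (n - a)) • (Γ n a).1 (p, 0, 0)) +
      ∑ a ∈ Finset.range (n + 2), (x ^ a * y ^ (n + 1 - a)) • (Γ (n + 1) a).1 (p, x, y) := by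
    intro n p x y
    simp only [hΓ]
    exact t5c_sum (fun a => A (Γ n a) (p, x, y)) (fun a => B (Γ n a) (p, x, y))
      (fun a => (Γ n a).1 (p, x, y)) (fun a => (Γ n a).1 (p, 0, 0)) x y n
      (fun a => h1 (Γ n a) p x y)
  refine ⟨fun a b p => (Γ (a + b) a).1 (p, 0, 0), ?_, ?_, ?_, ?_, ?_⟩
  · intro a b
    exact (Γ (a + b) a).2.comp (contDiff_id.prodMk contDiff_const)
  · intro p
    rfl
  · intro p
    have e := hΓ 0 1 (p, 0, 0)
    simp only [one_ne_zero, if_false, Nat.sub_self, nonpos_iff_eq_zero, add_zero] at e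
    show (Γ (0 + 1) 1).1 (p, 0, 0) = _
    rw [e]
    exact h2 ⟨F, hF⟩ p
  · intro p
    have e := hΓ 0 0 (p, 0, 0)
    simp only [if_true, le_refl, zero_add] at e
    show (Γ 1 0).1 (p, 0, 0) = _
    rw [e]
    exact h3 ⟨F, hF⟩ p
  · intro k
    refine ⟨fun a b => (Γ (k + 1) a).1, fun a b => (Γ (k + 1) a).2, ?_⟩
    intro p x y
    have key : ∀ k : ℕ, F (p, x, y) =
        (∑ n ∈ Finset.range (k + 1), ∑ a ∈ Finset.range (n + 1),
          (x ^ a * y ^ (n - a)) • (Γ n a).1 (p, 0, 0)) +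
        ∑ a ∈ Finset.range (k + 2), (x ^ a * y ^ (k + 1 - a)) • (Γ (k + 1) a).1 (p, x, y) := by
      intro k
      induction k with
      | zero =>
        have := hst 0 p x y
        simp only [zero_add, Finset.sum_range_one, pow_zero, Nat.sub_zero, mul_one, one_smul] at this ⊢
        rw [← this, hΓ0]
      | succ k ih =>
        rw [Finset.sum_range_succ, add_assoc, ← hst (k + 1) p x y]
        exact ih
    rw [key k]
    congr 1
    refine Finset.sum_congr rfl fun n _ => Finset.sum_congr rfl fun a ha => ?_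
    have : a + (n - a) = n := by have := Finset.mem_range.1 ha; omega
    simp only [this]

end Pool.Agent.Lib.H37N
end

-- from Lib.H37N.SA5
section

/-! # H37N, chunk SA5 (M): derivatives of Taylor coefficients with respect to the parameters -/

open Set Filter Topology Asymptotics
open scoped ContDiff

namespace Pool.Agent.Lib.H37N

variable {P : Type} [NormedAddCommGroup P] [NormedSpace ℝ P] [FiniteDimensional ℝ P]

/-- PROOF.  Differentiate the Taylor formula along `τ ↦ p₀ + τ • w` at `τ = 0` for fixed `(x,y)`: the left side has the derivative `Σ d a b x^a y^b` by `hd`; the right side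
`Σ (D c_ab(p₀) w) x^a y^b + Σ_{a+b=k+1} x^a y^b g_ab(x,y)`, `g_ab(x,y) = fderiv (G a b) (p₀,x,y) (w,0,0)` continuous in `(x,y)`.  By uniqueness of derivatives the polynomial with the
coefficients `d a b - D c_ab(p₀) w` equals `Σ_{a+b=k+1} x^a y^b g_ab(x,y)`, which is `O(‖(x,y)‖^(k+1))` (`remainder2_isBigO`); `poly2_unique`. -/
theorem taylor_coeff_deriv {F : P × ℝ × ℝ → ℝ} {c : ℕ → ℕ → P → ℝ} (hc : ∀ a b, ContDiff ℝ ∞ (c a b)) (k : ℕ)
    {G : ℕ → ℕ → P × ℝ × ℝ → ℝ} (hG : ∀ a b, ContDiff ℝ ∞ (G a b))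
    (hT : ∀ p x y, F (p, x, y) =
      (∑ n ∈ Finset.range (k + 1), ∑ a ∈ Finset.range (n + 1), (x ^ a * y ^ (n - a)) • c a (n - a) p) +
      ∑ a ∈ Finset.range (k + 2), (x ^ a * y ^ (k + 1 - a)) • G a (k + 1 - a) (p, x, y))
    (p₀ w : P) (d : ℕ → ℕ → ℝ)
    (hd : ∀ x y : ℝ, HasDerivAt (fun τ : ℝ => F (p₀ + τ • w, x, y))
      (∑ n ∈ Finset.range (k + 1), ∑ a ∈ Finset.range (n + 1), (x ^ a * y ^ (n - a)) * d a (n - a)) 0) :
    ∀ a b, a + b ≤ k → fderiv ℝ (c a b) p₀ w = d a b := by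
  have hline : HasDerivAt (fun τ : ℝ => p₀ + τ • w) w 0 := by
    have h := ((hasDerivAt_id (0 : ℝ)).smul_const w).const_add p₀
    simpa using h
  have hcd : ∀ a b, HasDerivAt (fun τ : ℝ => c a b (p₀ + τ • w)) (fderiv ℝ (c a b) p₀ w) 0 := by
    intro a b
    have h1 : HasFDerivAt (c a b) (fderiv ℝ (c a b) p₀) (p₀ + (0 : ℝ) • w) := by
      rw [zero_smul, add_zero]
      exact (((hc a b).differentiable (by simp)) p₀).hasFDerivAt
    exact h1.comp_hasDerivAt 0 hline
  have hGd : ∀ a b (x y : ℝ), HasDerivAt (fun τ : ℝ => G a b (p₀ + τ • w, x, y))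
      (fderiv ℝ (G a b) (p₀, x, y) (w, 0)) 0 := by
    intro a b x y
    have h1 : HasFDerivAt (G a b) (fderiv ℝ (G a b) (p₀, x, y)) (p₀ + (0 : ℝ) • w, x, y) := by
      rw [zero_smul, add_zero]
      exact (((hG a b).differentiable (by simp)) _).hasFDerivAt
    have h2 : HasDerivAt (fun τ : ℝ => (p₀ + τ • w, x, y)) ((w, 0) : P × ℝ × ℝ) 0 :=
      hline.prodMk (hasDerivAt_const (0 : ℝ) ((x, y) : ℝ × ℝ))
    exact h1.comp_hasDerivAt 0 h2
  have hsum : ∀ x y : ℝ, HasDerivAt (fun τ : ℝ => F (p₀ + τ • w, x, y))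
      ((∑ n ∈ Finset.range (k + 1), ∑ a ∈ Finset.range (n + 1),
        (x ^ a * y ^ (n - a)) • fderiv ℝ (c a (n - a)) p₀ w) +
      ∑ a ∈ Finset.range (k + 2), (x ^ a * y ^ (k + 1 - a)) •
        fderiv ℝ (G a (k + 1 - a)) (p₀, x, y) (w, 0)) 0 := by
    intro x y
    simp only [hT]
    refine HasDerivAt.fun_add ?_ ?_
    · refine HasDerivAt.fun_sum fun n _ => ?_
      refine HasDerivAt.fun_sum fun a _ => ?_
      exact (hcd a (n - a)).const_mul (x ^ a * y ^ (n - a))
    · refine HasDerivAt.fun_sum fun a _ => ?_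
      exact (hGd a (k + 1 - a) x y).const_mul (x ^ a * y ^ (k + 1 - a))
  have heq : ∀ x y : ℝ, ∑ n ∈ Finset.range (k + 1), ∑ a ∈ Finset.range (n + 1),
      (x ^ a * y ^ (n - a)) • (d a (n - a) - fderiv ℝ (c a (n - a)) p₀ w) =
      ∑ a ∈ Finset.range (k + 2), (x ^ a * y ^ (k + 1 - a)) •
        fderiv ℝ (G a (k + 1 - a)) (p₀, x, y) (w, 0) := by
    intro x y
    have h1 := (hd x y).unique (hsum x y)
    simp only [smul_sub, Finset.sum_sub_distrib]
    simp only [smul_eq_mul] at h1 ⊢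
    linarith
  have hcont : ∀ a b, ContinuousAt (fun z : ℝ × ℝ => fderiv ℝ (G a b) (p₀, z) (w, 0)) 0 := by
    intro a b
    have h1 : Continuous (fderiv ℝ (G a b)) := (hG a b).continuous_fderiv (by simp)
    have h2 : Continuous (fun z : ℝ × ℝ => ((p₀, z) : P × ℝ × ℝ)) := by fun_prop
    exact ((h1.comp h2).clm_apply continuous_const).continuousAt
  have hO := remainder2_isBigO k (fun a b (z : ℝ × ℝ) => fderiv ℝ (G a b) (p₀, z) (w, 0)) hcont
  have h2 := poly2_unique k (fun a b => d a b - fderiv ℝ (c a b) p₀ w)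
    (hO.congr_left fun z => (heq z.1 z.2).symm)
  intro a b hab
  have := h2 a b hab
  linarith

/-- PROOF.  The Taylor formula at `p`, all coefficients 0: `F (p,x,y) = Σ_{a+b=k+1} x^a y^b G_ab(p,x,y)`; `remainder2_isBigO`. -/
theorem isBigO_of_coeff {F : P × ℝ × ℝ → ℝ} {c : ℕ → ℕ → P → ℝ} (k : ℕ)
    {G : ℕ → ℕ → P × ℝ × ℝ → ℝ} (hG : ∀ a b, ContDiff ℝ ∞ (G a b)) (p : P)
    (hT : ∀ x y, F (p, x, y) =
      (∑ n ∈ Finset.range (k + 1), ∑ a ∈ Finset.range (n + 1), (x ^ a * y ^ (n - a)) • c a (n - a) p) +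
      ∑ a ∈ Finset.range (k + 2), (x ^ a * y ^ (k + 1 - a)) • G a (k + 1 - a) (p, x, y))
    (h0 : ∀ a b, a + b ≤ k → c a b p = 0) :
    (fun v : ℝ × ℝ => F (p, v)) =O[𝓝 0] fun v : ℝ × ℝ => ‖v‖ ^ (k + 1) := by
  have hcont : ∀ a b, ContinuousAt (fun z : ℝ × ℝ => G a b (p, z)) 0 := by
    intro a b
    have h2 : Continuous (fun z : ℝ × ℝ => ((p, z) : P × ℝ × ℝ)) := by fun_prop
    exact ((hG a b).continuous.comp h2).continuousAt
  have hO := remainder2_isBigO k (fun a b (z : ℝ × ℝ) => G a b (p, z)) hcont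
  refine hO.congr_left fun z => ?_
  have h1 := hT z.1 z.2
  rw [Finset.sum_eq_zero, zero_add] at h1
  · exact h1.symm
  · intro n hn
    refine Finset.sum_eq_zero fun a ha => ?_
    have hn' := Finset.mem_range.1 hn
    have ha' := Finset.mem_range.1 ha
    rw [h0 a (n - a) (by omega), smul_zero]

/-- PROOF.  If `F (p,v) = 0` for all `v` then all coefficients vanish: `poly2_unique` and `remainder2_isBigO`. -/
theorem coeff_eq_zero {F : P × ℝ × ℝ → ℝ} {c : ℕ → ℕ → P → ℝ} (k : ℕ)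
    {G : ℕ → ℕ → P × ℝ × ℝ → ℝ} (hG : ∀ a b, ContDiff ℝ ∞ (G a b)) (p : P)
    (hT : ∀ x y, F (p, x, y) =
      (∑ n ∈ Finset.range (k + 1), ∑ a ∈ Finset.range (n + 1), (x ^ a * y ^ (n - a)) • c a (n - a) p) +
      ∑ a ∈ Finset.range (k + 2), (x ^ a * y ^ (k + 1 - a)) • G a (k + 1 - a) (p, x, y))
    (h0 : ∀ v : ℝ × ℝ, F (p, v) = 0) : ∀ a b, a + b ≤ k → c a b p = 0 := by
  have hcont : ∀ a b, ContinuousAt (fun z : ℝ × ℝ => G a b (p, z)) 0 := by
    intro a b
    have h2 : Continuous (fun z : ℝ × ℝ => ((p, z) : P × ℝ × ℝ)) := by fun_prop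
    exact ((hG a b).continuous.comp h2).continuousAt
  have hO := remainder2_isBigO k (fun a b (z : ℝ × ℝ) => G a b (p, z)) hcont
  refine poly2_unique k (fun a b => c a b p) (hO.neg_left.congr_left fun z => ?_)
  have h1 := hT z.1 z.2
  rw [h0] at h1
  linarith

end Pool.Agent.Lib.H37N
end
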