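import Pool.Agent.Lib.H1M.FF.M008
import Pool.Agent.Lib.H1M.FF.M011

/-! Merged copies (to shorten the build) of Lib.H37N.A01, Lib.H37D.A01, Lib.H37N.A11, Lib.H37N.A12, Lib.H37N.A35, Lib.H37N.A31, Lib.H37N.A33. -/

-- from Lib.H37N.A01
section

/-!
# H37N A01 (size M, pure analysis): mean value property for two segments
-/

open Set Filter Topology
open scoped ContDiff

namespace Pool.Agent.Lib.H37N

open MeasureTheory in
theorem a01_cont {O K : Set Pt} (hO : IsOpen O) (hK : Convex ℝ K) (hKO : K ⊆ O) {g : Pt → Pt}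
    (hg : ContDiffOn ℝ ∞ g O) {z0 z1 : Pt} (h0 : z0 ∈ K) (h1 : z1 ∈ K) :
    ContinuousOn (fun t : ℝ => fderiv ℝ g (z0 + t • (z1 - z0))) (Icc 0 1) := by
  have h := hg.continuousOn_fderiv_of_isOpen hO (by norm_num)
  refine h.comp (Continuous.continuousOn (by fun_prop)) ?_
  intro t ht
  exact hKO (hK.add_smul_sub_mem h0 h1 ht)

open MeasureTheory in
theorem a01_one {O K : Set Pt} (hO : IsOpen O) (hK : Convex ℝ K) (hKO : K ⊆ O) {g : Pt → Pt}
    (hg : ContDiffOn ℝ ∞ g O)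
    {C : Set (Pt →L[ℝ] Pt)} (hC : Convex ℝ C) (hC' : IsClosed C) (hgC : ∀ z ∈ K, fderiv ℝ g z ∈ C)
    {z0 z1 : Pt} (h0 : z0 ∈ K) (h1 : z1 ∈ K) :
    (∫ t in (0 : ℝ)..1, fderiv ℝ g (z0 + t • (z1 - z0))) ∈ C ∧
      g z1 - g z0 = (∫ t in (0 : ℝ)..1, fderiv ℝ g (z0 + t • (z1 - z0))) (z1 - z0) := by
  have hcont := a01_cont hO hK hKO hg h0 h1
  have hii : IntervalIntegrable (fun t : ℝ => fderiv ℝ g (z0 + t • (z1 - z0))) volume 0 1 :=
    ContinuousOn.intervalIntegrable (by rwa [uIcc_of_le zero_le_one])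
  constructor
  · rw [intervalIntegral.integral_of_le zero_le_one]
    have hprob : IsProbabilityMeasure (volume.restrict (Ioc (0 : ℝ) 1)) := by
      constructor
      rw [Measure.restrict_apply_univ, Real.volume_Ioc]
      norm_num
    refine hC.integral_mem hC' ?_ hii.1
    refine (ae_restrict_iff' measurableSet_Ioc).2 (Eventually.of_forall fun t ht => ?_)
    exact hgC _ (hK.add_smul_sub_mem h0 h1 ⟨ht.1.le, ht.2⟩)
  · rw [ContinuousLinearMap.intervalIntegral_apply hii]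
    have hderiv : ∀ t ∈ uIcc (0 : ℝ) 1, HasDerivAt (fun t : ℝ => g (z0 + t • (z1 - z0)))
        (fderiv ℝ g (z0 + t • (z1 - z0)) (z1 - z0)) t := by
      intro t ht
      rw [uIcc_of_le zero_le_one] at ht
      have hmem := hKO (hK.add_smul_sub_mem h0 h1 ht)
      have hd : HasFDerivAt g (fderiv ℝ g (z0 + t • (z1 - z0))) (z0 + t • (z1 - z0)) :=
        ((hg.contDiffAt (hO.mem_nhds hmem)).differentiableAt (by norm_num)).hasFDerivAt
      have hl : HasDerivAt (fun t : ℝ => z0 + t • (z1 - z0)) (z1 - z0) t := by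
        simpa using ((hasDerivAt_id t).smul_const (z1 - z0)).const_add z0
      exact hd.comp_hasDerivAt t hl
    rw [intervalIntegral.integral_eq_sub_of_hasDerivAt hderiv]
    · simp
    · refine ContinuousOn.intervalIntegrable ?_
      rw [uIcc_of_le zero_le_one]
      exact hcont.clm_apply continuousOn_const

/-- Proof. Put `A = ∫ t in 0..1, fderiv ℝ g (z0 + t • (z1 - z0))` and
`A' = ∫ t in 0..1, fderiv ℝ g (z2 + t • (z3 - z2))`. The segments lie in `K ⊆ O` (convexity); `fderiv ℝ g` is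
continuous on the open `O` (`hg.continuousOn_fderiv_of_isOpen hO`), so the integrands are continuous on `[0,1]`,
hence interval integrable.
(1) `A ∈ C`: `Convex.integral_mem` (or `Convex.average_mem`) for the probability measure `volume.restrict (Icc 0 1)`
(closed convex set, integrand in `C` a.e., integrable).
(2) `g z1 - g z0 = A (z1 - z0)`: the function `t ↦ g (z0 + t • (z1 - z0))` has derivative
`fderiv ℝ g (z0 + t • (z1 - z0)) (z1 - z0)` (chain rule; `g` is differentiable at points of the open set `O`);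
fundamental theorem (`intervalIntegral.integral_eq_sub_of_hasDerivAt` on `uIcc 0 1`), and
`(∫ φ) v = ∫ φ v` (`ContinuousLinearMap.intervalIntegral_apply`).
(3) `‖A - A'‖ ≤ ∫ ‖...‖ ≤ L * M`, `M = max ‖z2 - z0‖ ‖z3 - z1‖`, because for `t ∈ [0,1]` the difference of the two
points is `(1 - t) • (z2 - z0) + t • (z3 - z1)`, of norm at most `M`
(`intervalIntegral.norm_integral_le_of_norm_le_const`). -/
theorem mean_two {O K : Set Pt} (hO : IsOpen O) (hK : Convex ℝ K) (hKO : K ⊆ O) {g : Pt → Pt}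
    (hg : ContDiffOn ℝ ∞ g O) {L : ℝ} (hL0 : 0 ≤ L)
    (hL : ∀ z ∈ K, ∀ z' ∈ K, ‖fderiv ℝ g z - fderiv ℝ g z'‖ ≤ L * ‖z - z'‖)
    {C : Set (Pt →L[ℝ] Pt)} (hC : Convex ℝ C) (hC' : IsClosed C) (hgC : ∀ z ∈ K, fderiv ℝ g z ∈ C)
    {z0 z1 z2 z3 : Pt} (h0 : z0 ∈ K) (h1 : z1 ∈ K) (h2 : z2 ∈ K) (h3 : z3 ∈ K) :
    ∃ A ∈ C, ∃ A' ∈ C, g z1 - g z0 = A (z1 - z0) ∧ g z3 - g z2 = A' (z3 - z2) ∧
      ‖A - A'‖ ≤ L * max ‖z2 - z0‖ ‖z3 - z1‖ := by
  obtain ⟨hA1, hA2⟩ := a01_one hO hK hKO hg hC hC' hgC h0 h1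
  obtain ⟨hB1, hB2⟩ := a01_one hO hK hKO hg hC hC' hgC h2 h3
  refine ⟨_, hA1, _, hB1, hA2, hB2, ?_⟩
  have hi1 : IntervalIntegrable (fun t : ℝ => fderiv ℝ g (z0 + t • (z1 - z0)))
      MeasureTheory.volume 0 1 :=
    ContinuousOn.intervalIntegrable (by
      rw [uIcc_of_le zero_le_one]; exact a01_cont hO hK hKO hg h0 h1)
  have hi2 : IntervalIntegrable (fun t : ℝ => fderiv ℝ g (z2 + t • (z3 - z2)))
      MeasureTheory.volume 0 1 :=
    ContinuousOn.intervalIntegrable (by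
      rw [uIcc_of_le zero_le_one]; exact a01_cont hO hK hKO hg h2 h3)
  rw [← intervalIntegral.integral_sub hi1 hi2]
  have hb := intervalIntegral.norm_integral_le_of_norm_le_const (a := (0 : ℝ)) (b := 1)
    (f := fun t : ℝ => fderiv ℝ g (z0 + t • (z1 - z0)) - fderiv ℝ g (z2 + t • (z3 - z2)))
    (C := L * max ‖z2 - z0‖ ‖z3 - z1‖) ?_
  · simpa using hb
  · intro t ht
    rw [uIoc_of_le zero_le_one] at ht
    have ht' : t ∈ Icc (0 : ℝ) 1 := ⟨ht.1.le, ht.2⟩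
    refine (hL _ (hK.add_smul_sub_mem h0 h1 ht') _ (hK.add_smul_sub_mem h2 h3 ht')).trans ?_
    refine mul_le_mul_of_nonneg_left ?_ hL0
    have e : z0 + t • (z1 - z0) - (z2 + t • (z3 - z2)) =
        -((1 - t) • (z2 - z0) + t • (z3 - z1)) := by
      module
    rw [e, norm_neg]
    refine (norm_add_le _ _).trans ?_
    rw [norm_smul, norm_smul, Real.norm_of_nonneg (sub_nonneg.2 ht'.2), Real.norm_of_nonneg ht'.1]
    have m1 := le_max_left ‖z2 - z0‖ ‖z3 - z1‖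
    have m2 := le_max_right ‖z2 - z0‖ ‖z3 - z1‖
    have k1 := mul_le_mul_of_nonneg_left m1 (sub_nonneg.2 ht'.2)
    have k2 := mul_le_mul_of_nonneg_left m2 ht'.1
    linarith

end Pool.Agent.Lib.H37N
end

-- from Lib.H37D.A01
section

/-!
# H37D A01 (size S/M): mean values for two segments in a normed space

Copy the proof of `mean_two` in `Lib/H37N/A01.lean` (`a01_cont`, `a01_one`, `mean_two`), with `Pt` replaced by `E` in the source and by `Z` in the
target (`E` arbitrary, `Z` complete).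
-/

open Set Filter Topology
open scoped ContDiff

namespace Pool.Agent.Lib.H37D

open Pool.Agent.Lib.H37N

open MeasureTheory in
theorem da01_cont {E Z : Type*} [NormedAddCommGroup E] [NormedSpace ℝ E] [NormedAddCommGroup Z]
    [NormedSpace ℝ Z] {O K : Set E} (hO : IsOpen O) (hK : Convex ℝ K) (hKO : K ⊆ O) {g : E → Z}
    (hg : ContDiffOn ℝ ∞ g O) {z0 z1 : E} (h0 : z0 ∈ K) (h1 : z1 ∈ K) :
    ContinuousOn (fun t : ℝ => fderiv ℝ g (z0 + t • (z1 - z0))) (Icc 0 1) := by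
  have h := hg.continuousOn_fderiv_of_isOpen hO (by norm_num)
  refine h.comp (Continuous.continuousOn (by fun_prop)) ?_
  intro t ht
  exact hKO (hK.add_smul_sub_mem h0 h1 ht)

open MeasureTheory in
theorem da01_one {E Z : Type*} [NormedAddCommGroup E] [NormedSpace ℝ E] [NormedAddCommGroup Z]
    [NormedSpace ℝ Z] [CompleteSpace Z] {O K : Set E} (hO : IsOpen O) (hK : Convex ℝ K) (hKO : K ⊆ O) {g : E → Z}
    (hg : ContDiffOn ℝ ∞ g O)
    {C : Set (E →L[ℝ] Z)} (hC : Convex ℝ C) (hC' : IsClosed C) (hgC : ∀ z ∈ K, fderiv ℝ g z ∈ C)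
    {z0 z1 : E} (h0 : z0 ∈ K) (h1 : z1 ∈ K) :
    (∫ t in (0 : ℝ)..1, fderiv ℝ g (z0 + t • (z1 - z0))) ∈ C ∧
      g z1 - g z0 = (∫ t in (0 : ℝ)..1, fderiv ℝ g (z0 + t • (z1 - z0))) (z1 - z0) := by
  have hcont := da01_cont hO hK hKO hg h0 h1
  have hii : IntervalIntegrable (fun t : ℝ => fderiv ℝ g (z0 + t • (z1 - z0))) volume 0 1 :=
    ContinuousOn.intervalIntegrable (by rwa [uIcc_of_le zero_le_one])
  constructor
  · rw [intervalIntegral.integral_of_le zero_le_one]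
    have hprob : IsProbabilityMeasure (volume.restrict (Ioc (0 : ℝ) 1)) := by
      constructor
      rw [Measure.restrict_apply_univ, Real.volume_Ioc]
      norm_num
    refine hC.integral_mem hC' ?_ hii.1
    refine (ae_restrict_iff' measurableSet_Ioc).2 (Eventually.of_forall fun t ht => ?_)
    exact hgC _ (hK.add_smul_sub_mem h0 h1 ⟨ht.1.le, ht.2⟩)
  · rw [ContinuousLinearMap.intervalIntegral_apply hii]
    have hderiv : ∀ t ∈ uIcc (0 : ℝ) 1, HasDerivAt (fun t : ℝ => g (z0 + t • (z1 - z0)))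
        (fderiv ℝ g (z0 + t • (z1 - z0)) (z1 - z0)) t := by
      intro t ht
      rw [uIcc_of_le zero_le_one] at ht
      have hmem := hKO (hK.add_smul_sub_mem h0 h1 ht)
      have hd : HasFDerivAt g (fderiv ℝ g (z0 + t • (z1 - z0))) (z0 + t • (z1 - z0)) :=
        ((hg.contDiffAt (hO.mem_nhds hmem)).differentiableAt (by norm_num)).hasFDerivAt
      have hl : HasDerivAt (fun t : ℝ => z0 + t • (z1 - z0)) (z1 - z0) t := by
        simpa using ((hasDerivAt_id t).smul_const (z1 - z0)).const_add z0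
      exact hd.comp_hasDerivAt t hl
    rw [intervalIntegral.integral_eq_sub_of_hasDerivAt hderiv]
    · simp
    · refine ContinuousOn.intervalIntegrable ?_
      rw [uIcc_of_le zero_le_one]
      exact hcont.clm_apply continuousOn_const

theorem mean_two {E Z : Type*} [NormedAddCommGroup E] [NormedSpace ℝ E] [NormedAddCommGroup Z]
    [NormedSpace ℝ Z] [CompleteSpace Z] {O K : Set E} (hO : IsOpen O) (hK : Convex ℝ K) (hKO : K ⊆ O)
    {g : E → Z} (hg : ContDiffOn ℝ ∞ g O) {L : ℝ} (hL0 : 0 ≤ L)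
    (hL : ∀ z ∈ K, ∀ z' ∈ K, ‖fderiv ℝ g z - fderiv ℝ g z'‖ ≤ L * ‖z - z'‖)
    {C : Set (E →L[ℝ] Z)} (hC : Convex ℝ C) (hC' : IsClosed C) (hgC : ∀ z ∈ K, fderiv ℝ g z ∈ C)
    {z0 z1 z2 z3 : E} (h0 : z0 ∈ K) (h1 : z1 ∈ K) (h2 : z2 ∈ K) (h3 : z3 ∈ K) :
    ∃ A ∈ C, ∃ A' ∈ C, g z1 - g z0 = A (z1 - z0) ∧ g z3 - g z2 = A' (z3 - z2) ∧
      ‖A - A'‖ ≤ L * max ‖z2 - z0‖ ‖z3 - z1‖ := by
  obtain ⟨hA1, hA2⟩ := da01_one hO hK hKO hg hC hC' hgC h0 h1
  obtain ⟨hB1, hB2⟩ := da01_one hO hK hKO hg hC hC' hgC h2 h3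
  refine ⟨_, hA1, _, hB1, hA2, hB2, ?_⟩
  have hi1 : IntervalIntegrable (fun t : ℝ => fderiv ℝ g (z0 + t • (z1 - z0)))
      MeasureTheory.volume 0 1 :=
    ContinuousOn.intervalIntegrable (by
      rw [uIcc_of_le zero_le_one]; exact da01_cont hO hK hKO hg h0 h1)
  have hi2 : IntervalIntegrable (fun t : ℝ => fderiv ℝ g (z2 + t • (z3 - z2)))
      MeasureTheory.volume 0 1 :=
    ContinuousOn.intervalIntegrable (by
      rw [uIcc_of_le zero_le_one]; exact da01_cont hO hK hKO hg h2 h3)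
  rw [← intervalIntegral.integral_sub hi1 hi2]
  have hb := intervalIntegral.norm_integral_le_of_norm_le_const (a := (0 : ℝ)) (b := 1)
    (f := fun t : ℝ => fderiv ℝ g (z0 + t • (z1 - z0)) - fderiv ℝ g (z2 + t • (z3 - z2)))
    (C := L * max ‖z2 - z0‖ ‖z3 - z1‖) ?_
  · simpa using hb
  · intro t ht
    rw [uIoc_of_le zero_le_one] at ht
    have ht' : t ∈ Icc (0 : ℝ) 1 := ⟨ht.1.le, ht.2⟩
    refine (hL _ (hK.add_smul_sub_mem h0 h1 ht') _ (hK.add_smul_sub_mem h2 h3 ht')).trans ?_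
    refine mul_le_mul_of_nonneg_left ?_ hL0
    have e : z0 + t • (z1 - z0) - (z2 + t • (z3 - z2)) =
        -((1 - t) • (z2 - z0) + t • (z3 - z1)) := by
      module
    rw [e, norm_neg]
    refine (norm_add_le _ _).trans ?_
    rw [norm_smul, norm_smul, Real.norm_of_nonneg (sub_nonneg.2 ht'.2), Real.norm_of_nonneg ht'.1]
    have m1 := le_max_left ‖z2 - z0‖ ‖z3 - z1‖
    have m2 := le_max_right ‖z2 - z0‖ ‖z3 - z1‖
    have k1 := mul_le_mul_of_nonneg_left m1 (sub_nonneg.2 ht'.2)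
    have k2 := mul_le_mul_of_nonneg_left m2 ht'.1
    linarith

end Pool.Agent.Lib.H37D
end

-- from Lib.H37N.A11
section

/-!
# H37N A11 (size M): the solution `sol`, basic estimates of cross systems
-/

open Set Filter Topology

namespace Pool.Agent.Lib.H37N

variable {p q : Sy → ℝ} {X Y : Sy → Pt → ℝ}

/-- two-point estimate. Proof. `h.mvX i` with `z0 = z2 = (x', y)`, `z1 = z3 = (x'', y')`: the difference is
`a dx + b dy`, `|a - p i| ≤ ee`, `|b| ≤ ee`. -/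
theorem CS.X_diff (h : CS p q X Y) (i : Sy) {z z' : Pt} (hz : z ∈ NN) (hz' : z' ∈ NN) :
    |X i z' - X i z - p i * (z'.1 - z.1)| ≤ ee * |z'.1 - z.1| + ee * |z'.2 - z.2| := by
  obtain ⟨a, b, a', b', h1, -, ha, hb, -⟩ := h.mvX i z hz z' hz' z hz z' hz'
  have e : X i z' - X i z - p i * (z'.1 - z.1) =
      (a - p i) * (z'.1 - z.1) + (b - 0) * (z'.2 - z.2) := by
    rw [h1]; ring
  rw [e]
  refine (abs_add_le _ _).trans ?_
  rw [abs_mul, abs_mul]
  exact add_le_add (mul_le_mul_of_nonneg_right ha (abs_nonneg _))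
    (mul_le_mul_of_nonneg_right hb (abs_nonneg _))

/-- Proof: the same with `h.mvY`. -/
theorem CS.Y_diff (h : CS p q X Y) (i : Sy) {z z' : Pt} (hz : z ∈ NN) (hz' : z' ∈ NN) :
    |Y i z' - Y i z - q i * (z'.2 - z.2)| ≤ ee * |z'.1 - z.1| + ee * |z'.2 - z.2| := by
  obtain ⟨a, b, a', b', h1, -, ha, hb, -⟩ := h.mvY i z hz z' hz' z hz z' hz'
  have e : Y i z' - Y i z - q i * (z'.2 - z.2) =
      (a - 0) * (z'.1 - z.1) + (b - q i) * (z'.2 - z.2) := by
    rw [h1]; ring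
  rw [e]
  refine (abs_add_le _ _).trans ?_
  rw [abs_mul, abs_mul]
  exact add_le_add (mul_le_mul_of_nonneg_right ha (abs_nonneg _))
    (mul_le_mul_of_nonneg_right hb (abs_nonneg _))

theorem a11_mem {p : Sy → ℝ} (p0 : ∀ i, 19 / 100 ≤ p i ∧ p i ≤ 81 / 100) (psum : p Sy.P + p Sy.Q = 1 - gam)
    (i : Sy) {v t : ℝ} (ht : t ∈ II) (hv : |v - (off p i + p i * t)| ≤ ee) : v ∈ Ioo (-del) (1 + del) := by
  have h1 := p0 i
  have hp : 0 ≤ p i := by linarith
  have h2 : p i * (-del) ≤ p i * t := mul_le_mul_of_nonneg_left ht.1 hp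
  have h3 : p i * t ≤ p i * (1 + del) := mul_le_mul_of_nonneg_left ht.2 hp
  have h4 := abs_le.mp hv
  have hd : del = 1 / 100000 := rfl
  have he : ee = 1 / 10 ^ 10 := rfl
  have hg : gam = 1 / 1000 := rfl
  rw [hd] at h2 h3
  rw [he] at h4
  rw [hg] at psum
  have hP := p0 Sy.P
  have hQ := p0 Sy.Q
  constructor
  · rw [hd]
    cases i
    · simp only [off] at h4
      norm_num at h4 ⊢
      linarith [h4.1, h4.2]
    · simp only [off] at h4
      rw [hg] at h4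
      norm_num at h4 ⊢
      linarith [h4.1, h4.2]
  · rw [hd]
    cases i
    · simp only [off] at h4
      norm_num at h4 ⊢
      linarith [h4.1, h4.2]
    · simp only [off] at h4
      rw [hg] at h4
      norm_num at h4 ⊢
      linarith [h4.1, h4.2]

/-- the values are in the interior of `II`. Proof. `X0`, `off`, `psum`: for `P`: `-p del - ee ≤ X ≤ p (1+del) + ee`, for `Q`:
`off = 1 - p Q` (from `psum`), `1 - p Q - p Q del - ee ≤ X ≤ 1 + p Q del + ee`; `19/100 ≤ p ≤ 81/100`, `ee < del / 100`. -/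
theorem CS.X_mem (h : CS p q X Y) (i : Sy) {z : Pt} (hz : z ∈ NN) : X i z ∈ Ioo (-del) (1 + del) :=
  a11_mem h.p0 h.psum i (mem_NN.mp hz).1 (h.X0 i z hz)

theorem CS.Y_mem (h : CS p q X Y) (i : Sy) {z : Pt} (hz : z ∈ NN) : Y i z ∈ Ioo (-del) (1 + del) :=
  a11_mem h.q0 h.qsum i (mem_NN.mp hz).2 (h.Y0 i z hz)

theorem a11_phi (h : CS p q X Y) (i : Sy) {f : ℝ → ℝ} (hf : IsLeaf f) (x' x y : ℝ) :
    |X i (cl x', f x) - X i (cl x', f y)| ≤ 10 * ee * ee * |x - y| := by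
  have h1 := h.X_diff i (z := (cl x', f y)) (z' := (cl x', f x)) (mem_NN.mpr ⟨cl_mem _, hf.mem _⟩)
    (mem_NN.mpr ⟨cl_mem _, hf.mem _⟩)
  simp only [sub_self, mul_zero, sub_zero, abs_zero, zero_add] at h1
  refine h1.trans ?_
  calc ee * |f x - f y| ≤ ee * (10 * ee * |x - y|) := mul_le_mul_of_nonneg_left (hf.lip x y) ee_pos.le
    _ = _ := by ring

/-- Proof. The map `φ x = X i (cl x', f x)` satisfies `|φ x - φ y| ≤ ee |f x - f y| ≤ ee * (10 * ee) * |x - y|` (`X_diff` with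
equal first components; `(cl x', f x) ∈ NN`), a contraction of the complete space `ℝ`; so there is a fixed point
(`ContractingWith.fixedPoint` or the intermediate value theorem for `x - φ x`); `Classical.epsilon_spec`. -/
theorem sol_spec (h : CS p q X Y) (i : Sy) {f : ℝ → ℝ} (hf : IsLeaf f) (x' : ℝ) :
    sol X i f x' = X i (cl x', f (sol X i f x')) := by
  have hc : ContractingWith (1 / 2 : NNReal) (fun x => X i (cl x', f x)) := by
    refine ⟨by norm_num, LipschitzWith.of_dist_le_mul fun x y => ?_⟩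
    rw [Real.dist_eq, Real.dist_eq]
    refine (a11_phi h i hf x' x y).trans (mul_le_mul_of_nonneg_right ?_ (abs_nonneg _))
    norm_num [ee]
  have hex : ∃ x, x = X i (cl x', f x) := ⟨_, (hc.fixedPoint_isFixedPt).symm⟩
  exact Classical.epsilon_spec (p := fun x => x = X i (cl x', f x)) hex


/-- Proof. `sol_spec`, `X_mem`. -/
theorem sol_mem (h : CS p q X Y) (i : Sy) {f : ℝ → ℝ} (hf : IsLeaf f) (x' : ℝ) :
    sol X i f x' ∈ Ioo (-del) (1 + del) := by
  rw [sol_spec h i hf x']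
  exact h.X_mem i (mem_NN.mpr ⟨cl_mem _, hf.mem _⟩)


/-- Proof. With `x = sol .. x'`, `y = sol .. y'`: by `X_diff`
`|x - y| ≤ (p i + ee) |cl x' - cl y'| + ee |f x - f y| ≤ (p i + ee) |cl x' - cl y'| + 10 ee^2 |x - y|`; so
`|x - y| ≤ (p i + ee) / (1 - 10 ee^2) |cl x' - cl y'| ≤ (p i + 2 ee) |cl x' - cl y'|`. -/
theorem sol_lip (h : CS p q X Y) (i : Sy) {f : ℝ → ℝ} (hf : IsLeaf f) (x' y' : ℝ) :
    |sol X i f x' - sol X i f y'| ≤ (p i + 2 * ee) * |cl x' - cl y'| := by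
  have h1 := h.X_diff i (z := (cl y', f (sol X i f y'))) (z' := (cl x', f (sol X i f x')))
    (mem_NN.mpr ⟨cl_mem _, hf.mem _⟩) (mem_NN.mpr ⟨cl_mem _, hf.mem _⟩)
  rw [← sol_spec h i hf x', ← sol_spec h i hf y'] at h1
  simp only at h1
  set x := sol X i f x'
  set y := sol X i f y'
  have h2 := hf.lip x y
  have hp := h.p0 i
  have h3 : |x - y| ≤ |x - y - p i * (cl x' - cl y')| + |p i * (cl x' - cl y')| := by
    have := abs_add_le (x - y - p i * (cl x' - cl y')) (p i * (cl x' - cl y'))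
    simpa using this
  rw [abs_mul, abs_of_nonneg (by linarith : (0 : ℝ) ≤ p i)] at h3
  have h4 : ee * |f x - f y| ≤ ee * (10 * ee * |x - y|) := mul_le_mul_of_nonneg_left h2 ee_pos.le
  set A := |cl x' - cl y'|
  set B := |x - y|
  have hA : 0 ≤ A := abs_nonneg _
  have hB : 0 ≤ B := abs_nonneg _
  have h5 : B ≤ (p i + ee) * A + 10 * ee * ee * B := by nlinarith
  have h6 : B * (1 - 10 * ee * ee) ≤ (p i + ee) * A := by linarith
  have h7 : (p i + ee) ≤ (p i + 2 * ee) * (1 - 10 * ee * ee) := by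
    have he : ee = 1 / 10 ^ 10 := rfl
    rw [he]; norm_num
    nlinarith
  have h8 : (p i + ee) * A ≤ (p i + 2 * ee) * (1 - 10 * ee * ee) * A := mul_le_mul_of_nonneg_right h7 hA
  have h9 : 0 < 1 - 10 * ee * ee := by norm_num [ee]
  have h10 : B * (1 - 10 * ee * ee) ≤ ((p i + 2 * ee) * A) * (1 - 10 * ee * ee) := by linarith
  exact le_of_mul_le_mul_right h10 h9

end Pool.Agent.Lib.H37N
end

-- from Lib.H37N.A12
section

/-!
# H37N A12 (size M): the graph transform preserves leaves; comparison of two leaves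
-/

open Set Filter Topology

namespace Pool.Agent.Lib.H37N

variable {p q : Sy → ℝ} {X Y : Sy → Pt → ℝ}

theorem a12_mem {f : ℝ → ℝ} (hf : IsLeaf f) (x' y : ℝ) : ((cl x', f y) : Pt) ∈ NN :=
  mem_NN.2 ⟨cl_mem x', hf.mem y⟩

theorem a12_ee : ee = 1 / 10 ^ 10 := rfl

theorem a12_ee1 : 0 < ee ∧ ee ≤ 1 / 1000 := by
  rw [a12_ee]
  norm_num

/-- Proof. `Y0` at `(cl x', f (sol ..)) ∈ NN`. -/
theorem GG_val (h : CS p q X Y) (i : Sy) {f : ℝ → ℝ} (hf : IsLeaf f) (x' : ℝ) :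
    |GG X Y i f x' - (off q i + q i * f (sol X i f x'))| ≤ ee :=
  h.Y0 i _ (a12_mem hf x' _)

/-- Proof. `Y_mem`. -/
theorem GG_int (h : CS p q X Y) (i : Sy) {f : ℝ → ℝ} (hf : IsLeaf f) (x' : ℝ) :
    GG X Y i f x' ∈ Ioo (-del) (1 + del) :=
  h.Y_mem i (a12_mem hf x' _)

/-- Proof. Values: `GG_int`. Lipschitz: with `x = sol .. x'`, `y = sol .. y'`, `Y_diff`, `sol_lip`:
`|GG x' - GG y'| ≤ ee |cl x' - cl y'| + (q i + ee) |f x - f y| ≤ (ee + (q i + ee) * 10 * ee * (p i + 2 ee)) |cl x' - cl y'|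
≤ (1 + .82 * 10 * .82) ee |x' - y'| ≤ 10 ee |x' - y'|` (`cl_lip`). -/
theorem GG_leaf (h : CS p q X Y) (i : Sy) {f : ℝ → ℝ} (hf : IsLeaf f) : IsLeaf (GG X Y i f) := by
  refine ⟨fun x => Ioo_subset_Icc_self (GG_int h i hf x), fun x' y' => ?_⟩
  obtain ⟨he0, he1⟩ := a12_ee1
  have hp := h.p0 i
  have hq := h.q0 i
  have h1 := h.Y_diff i (a12_mem hf y' (sol X i f y')) (a12_mem hf x' (sol X i f x'))
  have h2 := sol_lip h i hf x' y'
  have h3 := hf.lip (sol X i f x') (sol X i f y')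
  have h4 := cl_lip x' y'
  have hGx : GG X Y i f x' = Y i (cl x', f (sol X i f x')) := rfl
  have hGy : GG X Y i f y' = Y i (cl y', f (sol X i f y')) := rfl
  rw [← hGx, ← hGy] at h1
  simp only at h1
  set D := |cl x' - cl y'| with hD
  set F := f (sol X i f x') - f (sol X i f y') with hF
  have hD0 : 0 ≤ D := abs_nonneg _
  have h5 : |F| ≤ 10 * ee * ((p i + 2 * ee) * D) :=
    h3.trans (mul_le_mul_of_nonneg_left h2 (by positivity))
  have h6 : |GG X Y i f x' - GG X Y i f y'| ≤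
      |GG X Y i f x' - GG X Y i f y' - q i * F| + |q i * F| := by
    have := abs_add_le (GG X Y i f x' - GG X Y i f y' - q i * F) (q i * F)
    simpa using this
  have h7 : |q i * F| = q i * |F| := by
    rw [abs_mul, abs_of_nonneg (by linarith [hq.1] : (0 : ℝ) ≤ q i)]
  have h8 : (q i + ee) * |F| ≤ 8 * ee * D := by
    have h9 : (q i + ee) * |F| ≤ (q i + ee) * (10 * ee * ((p i + 2 * ee) * D)) :=
      mul_le_mul_of_nonneg_left h5 (by linarith [hq.1])
    have h10 : (q i + ee) * (p i + 2 * ee) ≤ 8 / 10 := by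
      have h11 : q i + ee ≤ 82 / 100 := by linarith [hq.2]
      have h12 : p i + 2 * ee ≤ 82 / 100 := by linarith [hp.2]
      have h13 : (q i + ee) * (p i + 2 * ee) ≤ 82 / 100 * (82 / 100) :=
        mul_le_mul h11 h12 (by linarith [hp.1]) (by norm_num)
      linarith
    have h14 : (q i + ee) * (10 * ee * ((p i + 2 * ee) * D)) =
        (q i + ee) * (p i + 2 * ee) * (10 * ee * D) := by ring
    have h15 : (q i + ee) * (p i + 2 * ee) * (10 * ee * D) ≤ 8 / 10 * (10 * ee * D) :=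
      mul_le_mul_of_nonneg_right h10 (by positivity)
    linarith
  have h16 : ee * D ≤ ee * |x' - y'| := mul_le_mul_of_nonneg_left h4 he0.le
  have h17 : q i * |F| + ee * |F| ≤ 8 * ee * D := by linarith
  have h18 : 0 ≤ ee * |x' - y'| := by positivity
  linarith

/-- comparison. Proof. `x0 = sol f0 x'`, `x1 = sol f1 x'`, `y0 = f0 x0`, `y1 = f1 x1`, `Δ = f1 x0 - f0 x0`. `X_diff` with equal first
components: `|x1 - x0| ≤ ee |y1 - y0|`. `y1 - y0 = (f1 x1 - f1 x0) + Δ`, so `|y1 - y0 - Δ| ≤ 10 ee^2 |y1 - y0|`, hence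
`|y1 - y0| ≤ 1.001 |Δ|` and `|y1 - y0 - Δ| ≤ 11 ee^2 |Δ|`. `Y_diff` with equal first components:
`|(GG f1 x' - GG f0 x') - q i (y1 - y0)| ≤ ee |y1 - y0|`. Sum: `≤ (1.001 ee + 11 ee^2) |Δ| ≤ 2 ee |Δ|`. -/
theorem GG_diff (h : CS p q X Y) (i : Sy) {f0 f1 : ℝ → ℝ} (h0 : IsLeaf f0) (h1 : IsLeaf f1) (x' : ℝ) :
    |GG X Y i f1 x' - GG X Y i f0 x' - q i * (f1 (sol X i f0 x') - f0 (sol X i f0 x'))| ≤
      2 * ee * |f1 (sol X i f0 x') - f0 (sol X i f0 x')| := by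
  obtain ⟨he0, he1⟩ := a12_ee1
  have hp := h.p0 i
  have hq := h.q0 i
  set x0 := sol X i f0 x' with hx0
  set x1 := sol X i f1 x' with hx1
  have e0 : x0 = X i (cl x', f0 x0) := sol_spec h i h0 x'
  have e1 : x1 = X i (cl x', f1 x1) := sol_spec h i h1 x'
  have h2 := h.X_diff i (a12_mem h0 x' x0) (a12_mem h1 x' x1)
  rw [← e0, ← e1] at h2
  simp only [sub_self, mul_zero, sub_zero, abs_zero, zero_add] at h2
  have h3 := h.Y_diff i (a12_mem h0 x' x0) (a12_mem h1 x' x1)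
  have hG0 : GG X Y i f0 x' = Y i (cl x', f0 x0) := rfl
  have hG1 : GG X Y i f1 x' = Y i (cl x', f1 x1) := rfl
  rw [← hG0, ← hG1] at h3
  simp only [sub_self, abs_zero, mul_zero, zero_add] at h3
  have h4 := h1.lip x1 x0
  set Δ := f1 x0 - f0 x0 with hΔ
  set W := f1 x1 - f0 x0 with hW
  have h5 : |W - Δ| ≤ 10 * ee * (ee * |W|) := by
    have h6 : W - Δ = f1 x1 - f1 x0 := by rw [hW, hΔ]; ring
    rw [h6]
    exact h4.trans (mul_le_mul_of_nonneg_left h2 (by positivity))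
  have hWabs : |W| ≤ |W - Δ| + |Δ| := by
    have := abs_add_le (W - Δ) Δ
    simpa using this
  have hW0 := abs_nonneg W
  have hΔ0 := abs_nonneg Δ
  have h7 : 10 * ee * (ee * |W|) ≤ 1 / 100 * (ee * |W|) := by
    have : 10 * ee ≤ 1 / 100 := by linarith
    exact mul_le_mul_of_nonneg_right this (by positivity)
  have h8 : ee * |W| ≤ 1 / 1000 * |W| := mul_le_mul_of_nonneg_right he1 hW0
  have h9 : |W| ≤ 1001 / 1000 * |Δ| := by linarith
  have h10 : |q i * (W - Δ)| = q i * |W - Δ| := by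
    rw [abs_mul, abs_of_nonneg (by linarith [hq.1] : (0 : ℝ) ≤ q i)]
  have h11 : |GG X Y i f1 x' - GG X Y i f0 x' - q i * Δ| ≤
      |GG X Y i f1 x' - GG X Y i f0 x' - q i * W| + |q i * (W - Δ)| := by
    have := abs_add_le (GG X Y i f1 x' - GG X Y i f0 x' - q i * W) (q i * (W - Δ))
    have e : GG X Y i f1 x' - GG X Y i f0 x' - q i * W + q i * (W - Δ) =
        GG X Y i f1 x' - GG X Y i f0 x' - q i * Δ := by ring
    rwa [e] at this
  have h12 : q i * |W - Δ| ≤ 1 * |W - Δ| :=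
    mul_le_mul_of_nonneg_right (by linarith [hq.2]) (abs_nonneg _)
  have h13 : ee * |W| ≤ ee * (1001 / 1000 * |Δ|) := mul_le_mul_of_nonneg_left h9 he0.le
  have h14 : 0 ≤ ee * |Δ| := by positivity
  have h15 : ee * (1001 / 1000 * |Δ|) = 1001 / 1000 * (ee * |Δ|) := by ring
  linarith

/-- Proof. From `GG_diff`: if `Δ ≥ 0` then the difference is `≥ (q i - 2 ee) Δ ≥ 0`. -/
theorem GG_mono (h : CS p q X Y) (i : Sy) {f0 f1 : ℝ → ℝ} (h0 : IsLeaf f0) (h1 : IsLeaf f1)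
    (hle : ∀ x, f0 x ≤ f1 x) (x' : ℝ) : GG X Y i f0 x' ≤ GG X Y i f1 x' := by
  obtain ⟨he0, he1⟩ := a12_ee1
  have h2 := GG_diff h i h0 h1 x'
  have h3 : 0 ≤ f1 (sol X i f0 x') - f0 (sol X i f0 x') := sub_nonneg.2 (hle _)
  rw [abs_of_nonneg h3] at h2
  have h4 := (abs_le.1 h2).1
  have h5 : 0 ≤ (q i - 2 * ee) * (f1 (sol X i f0 x') - f0 (sol X i f0 x')) :=
    mul_nonneg (by linarith [(h.q0 i).1]) h3
  linarith

theorem GG_strictMono (h : CS p q X Y) (i : Sy) {f0 f1 : ℝ → ℝ} (h0 : IsLeaf f0) (h1 : IsLeaf f1)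
    (hle : ∀ x, f0 x < f1 x) (x' : ℝ) : GG X Y i f0 x' < GG X Y i f1 x' := by
  obtain ⟨he0, he1⟩ := a12_ee1
  have h2 := GG_diff h i h0 h1 x'
  have h3 : 0 < f1 (sol X i f0 x') - f0 (sol X i f0 x') := sub_pos.2 (hle _)
  rw [abs_of_nonneg h3.le] at h2
  have h4 := (abs_le.1 h2).1
  have h5 : 0 < (q i - 2 * ee) * (f1 (sol X i f0 x') - f0 (sol X i f0 x')) :=
    mul_pos (by linarith [(h.q0 i).1]) h3
  linarith

/-- Proof. `GG_diff`, `q i + 2 ee ≤ 82/100`. -/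
theorem GG_contr (h : CS p q X Y) (i : Sy) {f0 f1 : ℝ → ℝ} (h0 : IsLeaf f0) (h1 : IsLeaf f1) {C : ℝ}
    (hC : ∀ x, |f1 x - f0 x| ≤ C) (x' : ℝ) : |GG X Y i f1 x' - GG X Y i f0 x'| ≤ 82 / 100 * C := by
  obtain ⟨he0, he1⟩ := a12_ee1
  have h2 := GG_diff h i h0 h1 x'
  have hq := h.q0 i
  set Δ := f1 (sol X i f0 x') - f0 (sol X i f0 x') with hΔ
  have h3 : |Δ| ≤ C := hC _
  have h4 : |GG X Y i f1 x' - GG X Y i f0 x'| ≤
      |GG X Y i f1 x' - GG X Y i f0 x' - q i * Δ| + |q i * Δ| := by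
    have := abs_add_le (GG X Y i f1 x' - GG X Y i f0 x' - q i * Δ) (q i * Δ)
    simpa using this
  rw [abs_mul, abs_of_nonneg (by linarith [hq.1] : (0 : ℝ) ≤ q i)] at h4
  have h5 : (q i + 2 * ee) * |Δ| ≤ 82 / 100 * |Δ| :=
    mul_le_mul_of_nonneg_right (by linarith [hq.2]) (abs_nonneg _)
  have h6 : 82 / 100 * |Δ| ≤ 82 / 100 * C := mul_le_mul_of_nonneg_left h3 (by norm_num)
  linarith

/-- the same for words. Proofs: induction on `w` (generalizing the leaves). -/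
theorem Gw_leaf (h : CS p q X Y) (w : List Sy) {f : ℝ → ℝ} (hf : IsLeaf f) : IsLeaf (Gw X Y w f) := by
  induction w generalizing f with
  | nil => exact hf
  | cons i w ih => exact ih (GG_leaf h i hf)

theorem Gw_mono (h : CS p q X Y) (w : List Sy) {f0 f1 : ℝ → ℝ} (h0 : IsLeaf f0) (h1 : IsLeaf f1)
    (hle : ∀ x, f0 x ≤ f1 x) (x' : ℝ) : Gw X Y w f0 x' ≤ Gw X Y w f1 x' := by
  induction w generalizing f0 f1 with
  | nil => exact hle x'
  | cons i w ih => exact ih (GG_leaf h i h0) (GG_leaf h i h1) (GG_mono h i h0 h1 hle)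

theorem Gw_strictMono (h : CS p q X Y) (w : List Sy) {f0 f1 : ℝ → ℝ} (h0 : IsLeaf f0) (h1 : IsLeaf f1)
    (hle : ∀ x, f0 x < f1 x) (x' : ℝ) : Gw X Y w f0 x' < Gw X Y w f1 x' := by
  induction w generalizing f0 f1 with
  | nil => exact hle x'
  | cons i w ih => exact ih (GG_leaf h i h0) (GG_leaf h i h1) (GG_strictMono h i h0 h1 hle)


end Pool.Agent.Lib.H37N
end

-- from Lib.H37N.A35
section

/-!
# H37N A35 (size M): points of transformed leaves lie on cross orbits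
-/

open Set Filter Topology

namespace Pool.Agent.Lib.H37N

variable {p q : Sy → ℝ} {X Y : Sy → Pt → ℝ}

/-- Proof. Induction on `w`, generalizing `f`. `w = []`: constant sequences `x`, `f x` (`hf.mem`). `w = j :: w'`: put
`f' = GG X Y j f` (a leaf, `GG_leaf`) and take `xs', ys'` for `w'`, `f'`; `ys' 0 = f' (xs' 0)`, `xs' 0 ∈ II` (`COrb.mx`). Put
`xs 0 = sol X j f (xs' 0)`, `ys 0 = f (xs 0)`, `xs (n+1) = xs' n`, `ys (n+1) = ys' n` (`Nat.casesOn`). The equations at `n = 0`: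
`xs 0 = X j (xs' 0, f (xs 0))` is `sol_spec` (`cl_of_mem`), `ys 1 = ys' 0 = GG X Y j f (xs' 0) = Y j (xs' 0, f (xs 0))` by
definition. -/
theorem leaf_orbit (h : CS p q X Y) (w : List Sy) {f : ℝ → ℝ} (hf : IsLeaf f) {x : ℝ} (hx : x ∈ II) :
    ∃ xs ys : ℕ → ℝ, COrb X Y (fun n => w.getD n Sy.P) w.length xs ys ∧ xs w.length = x ∧
      ys w.length = Gw X Y w f x ∧ ys 0 = f (xs 0) := by
  induction w generalizing f with
  | nil =>
    exact ⟨fun _ => x, fun _ => f x, ⟨fun n _ => hx, fun n _ => hf.mem x,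
      fun n hn => absurd hn (Nat.not_lt_zero _), fun n hn => absurd hn (Nat.not_lt_zero _)⟩,
      rfl, rfl, rfl⟩
  | cons j w ih =>
    obtain ⟨xs, ys, o, h1, h2, h3⟩ := ih (GG_leaf h j hf)
    have hx0 : xs 0 ∈ II := o.mx 0 (Nat.zero_le _)
    refine ⟨fun n => Nat.casesOn n (sol X j f (xs 0)) xs,
      fun n => Nat.casesOn n (f (sol X j f (xs 0))) ys, ⟨?_, ?_, ?_, ?_⟩, ?_, ?_, ?_⟩
    · rintro (_ | n) hn
      · exact Ioo_subset_Icc_self (sol_mem h j hf _)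
      · exact o.mx n (Nat.le_of_succ_le_succ hn)
    · rintro (_ | n) hn
      · exact hf.mem _
      · exact o.my n (Nat.le_of_succ_le_succ hn)
    · rintro (_ | n) hn
      · have := sol_spec h j hf (xs 0)
        rw [cl_of_mem hx0] at this
        exact this
      · exact o.ex n (Nat.lt_of_succ_lt_succ hn)
    · rintro (_ | n) hn
      · show ys 0 = Y j (xs 0, f (sol X j f (xs 0)))
        rw [h3]
        unfold GG
        rw [cl_of_mem hx0]
      · exact o.ey n (Nat.lt_of_succ_lt_succ hn)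
    · exact h1
    · exact h2
    · rfl

end Pool.Agent.Lib.H37N
end

-- from Lib.H37N.A31
section

/-!
# H37N A31 (size M): pairs of cross orbits with the same end abscissa
-/

open Set Filter Topology

namespace Pool.Agent.Lib.H37N

variable {p q : Sy → ℝ} {X Y : Sy → Pt → ℝ}

theorem a31_E (h : CS p q X Y) {i : ℕ → Sy} {k : ℕ} {x0 y0 x1 y1 : ℕ → ℝ}
    (o0 : COrb X Y i k x0 y0) (o1 : COrb X Y i k x1 y1) {n : ℕ} (hn : n < k) :
    |x1 n - x0 n - p (i n) * (x1 (n + 1) - x0 (n + 1))| ≤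
      ee * |x1 (n + 1) - x0 (n + 1)| + ee * |y1 n - y0 n| := by
  have := h.X_diff (i n) (z := (x0 (n + 1), y0 n)) (z' := (x1 (n + 1), y1 n))
    ⟨o0.mx _ hn, o0.my _ hn.le⟩ ⟨o1.mx _ hn, o1.my _ hn.le⟩
  rw [← o0.ex n hn, ← o1.ex n hn] at this
  exact this

theorem a31_D (h : CS p q X Y) {i : ℕ → Sy} {k : ℕ} {x0 y0 x1 y1 : ℕ → ℝ}
    (o0 : COrb X Y i k x0 y0) (o1 : COrb X Y i k x1 y1) {n : ℕ} (hn : n < k) :
    |y1 (n + 1) - y0 (n + 1) - q (i n) * (y1 n - y0 n)| ≤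
      ee * |x1 (n + 1) - x0 (n + 1)| + ee * |y1 n - y0 n| := by
  have := h.Y_diff (i n) (z := (x0 (n + 1), y0 n)) (z' := (x1 (n + 1), y1 n))
    ⟨o0.mx _ hn, o0.my _ hn.le⟩ ⟨o1.mx _ hn, o1.my _ hn.le⟩
  rw [← o0.ey n hn, ← o1.ey n hn] at this
  exact this

theorem a31_num1 {E' D' D E p q : ℝ} (hp : 19 / 100 ≤ p ∧ p ≤ 81 / 100)
    (hq : 19 / 100 ≤ q ∧ q ≤ 81 / 100) (h1 : |E - p * E'| ≤ ee * |E'| + ee * |D|)
    (h2 : |D' - q * D| ≤ ee * |E'| + ee * |D|) (h3 : |E'| ≤ 3 * ee * |D'|) :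
    |E| ≤ 3 * ee * |D| := by
  have a1 : |E| ≤ |E - p * E'| + |p * E'| := by
    have := abs_add_le (E - p * E') (p * E')
    rwa [sub_add_cancel] at this
  have a2 : |D'| ≤ |D' - q * D| + |q * D| := by
    have := abs_add_le (D' - q * D) (q * D)
    rwa [sub_add_cancel] at this
  have a3 : |p * E'| ≤ 81 / 100 * |E'| := by
    rw [abs_mul, abs_of_nonneg (by linarith : 0 ≤ p)]
    exact mul_le_mul_of_nonneg_right hp.2 (abs_nonneg _)
  have a4 : |q * D| ≤ 81 / 100 * |D| := by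
    rw [abs_mul, abs_of_nonneg (by linarith : 0 ≤ q)]
    exact mul_le_mul_of_nonneg_right hq.2 (abs_nonneg _)
  have b1 := abs_nonneg E'
  have b2 := abs_nonneg D'
  have b3 := abs_nonneg D
  unfold ee at *
  linarith

theorem a31_num2 {E' D' D q : ℝ} (hq : 19 / 100 ≤ q ∧ q ≤ 81 / 100)
    (h2 : |D' - q * D| ≤ ee * |E'| + ee * |D|) (h3 : |E'| ≤ 3 * ee * |D'|) (hD : 0 < D) :
    18 / 100 * D ≤ D' ∧ D' ≤ 82 / 100 * D := by
  have b1 := abs_nonneg E'
  rw [abs_of_pos hD] at h2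
  have a1 : 19 / 100 * D ≤ q * D := mul_le_mul_of_nonneg_right hq.1 hD.le
  have a2 : q * D ≤ 81 / 100 * D := mul_le_mul_of_nonneg_right hq.2 hD.le
  have c := abs_le.1 h2
  unfold ee at *
  rcases abs_cases D' with h' | h'
  · rw [h'.1] at h3
    constructor <;> linarith [c.1, c.2]
  · rw [h'.1] at h3
    constructor <;> linarith [c.1, c.2]

/-- Notation: `D n = y1 n - y0 n`, `E n = x1 n - x0 n`. One step: for `n < k`, by `X_diff`, `Y_diff` at the points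
`(x (n+1), y n) ∈ NN`: `|E n - p E (n+1)| ≤ ee |E (n+1)| + ee |D n|`, `|D (n+1) - q D n| ≤ ee |E (n+1)| + ee |D n|`.
Proof. Backward induction (`Nat.decreasingInduction` or induction on `k - n`): `E k = 0`. If `|E (n+1)| ≤ 3 ee |D (n+1)|` then
`|D (n+1)| ≤ (81/100 + ee) |D n| + 3 ee^2 |D (n+1)|`, so `|D (n+1)| ≤ .8101 |D n|`, and
`|E n| ≤ (.81 + ee) * 3 ee * .8101 |D n| + ee |D n| ≤ 3 ee |D n|` (`.81 * 3 * .8101 + 1 < 2.98`). -/
theorem pair_E (h : CS p q X Y) {i : ℕ → Sy} {k : ℕ} {x0 y0 x1 y1 : ℕ → ℝ}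
    (o0 : COrb X Y i k x0 y0) (o1 : COrb X Y i k x1 y1) (hk : x0 k = x1 k) {n : ℕ} (hn : n ≤ k) :
    |x1 n - x0 n| ≤ 3 * ee * |y1 n - y0 n| := by
  have key : ∀ m n, n + m = k → |x1 n - x0 n| ≤ 3 * ee * |y1 n - y0 n| := by
    intro m
    induction m with
    | zero =>
      intro n hn
      rw [Nat.add_zero] at hn
      rw [hn, hk, sub_self, abs_zero]
      exact mul_nonneg (mul_nonneg (by norm_num) ee_pos.le) (abs_nonneg _)
    | succ m ih =>
      intro n hn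
      have hnk : n < k := by omega
      exact a31_num1 (h.p0 (i n)) (h.q0 (i n)) (a31_E h o0 o1 hnk) (a31_D h o0 o1 hnk)
        (ih (n + 1) (by omega))
  exact key (k - n) n (by omega)

/-- Proof. From `pair_E` at `n + 1` and the step inequality: `|D (n+1) - q D n| ≤ 3 ee^2 |D (n+1)| + ee |D n|`; for
`D n > 0` this gives `18/100 D n ≤ D (n+1) ≤ 82/100 D n` (`19/100 ≤ q ≤ 81/100`); forward induction from
`D 0 > 0` gives `D n > 0`. -/
theorem pair_D (h : CS p q X Y) {i : ℕ → Sy} {k : ℕ} {x0 y0 x1 y1 : ℕ → ℝ}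
    (o0 : COrb X Y i k x0 y0) (o1 : COrb X Y i k x1 y1) (hk : x0 k = x1 k) (h0 : y0 0 < y1 0) :
    (∀ n ≤ k, 0 < y1 n - y0 n) ∧ ∀ n < k, 18 / 100 * (y1 n - y0 n) ≤ y1 (n + 1) - y0 (n + 1) ∧
      y1 (n + 1) - y0 (n + 1) ≤ 82 / 100 * (y1 n - y0 n) := by
  have step : ∀ n, n < k → 0 < y1 n - y0 n → 18 / 100 * (y1 n - y0 n) ≤ y1 (n + 1) - y0 (n + 1) ∧
      y1 (n + 1) - y0 (n + 1) ≤ 82 / 100 * (y1 n - y0 n) := fun n hn hp =>
    a31_num2 (h.q0 (i n)) (a31_D h o0 o1 hn) (pair_E h o0 o1 hk hn) hp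
  have pos : ∀ n ≤ k, 0 < y1 n - y0 n := by
    intro n
    induction n with
    | zero => intro _; linarith
    | succ n ih =>
      intro hn
      have h1 := ih (by omega)
      have h2 := (step n (by omega) h1).1
      linarith
  exact ⟨pos, fun n hn => step n hn (pos n hn.le)⟩

end Pool.Agent.Lib.H37N
end

-- from Lib.H37N.A33
section

/-!
# H37N A33 (size M): sums of the distances of two cross orbits with the same itinerary
-/

open Set Filter Topology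

namespace Pool.Agent.Lib.H37N

variable {p q : Sy → ℝ} {X Y : Sy → Pt → ℝ}

/-- Proof. `a n = |x1 n - x0 n|`, `c n = |y1 n - y0 n|`. For `n < k`, by `X_diff`, `Y_diff` (points `(x (n+1), y n)`):
`a n ≤ (.81 + ee) a (n+1) + ee c n`, `c (n+1) ≤ (.81 + ee) c n + ee a (n+1)`; `a k ≤ 1 + 2 del`, `c 0 ≤ 1 + 2 del`. Put
`A = ∑ n < k, a (n+1)`, `C = ∑ n < k, c n`. `C ≤ c 0 + ∑_{n < k} c (n+1) ≤ c 0 + .8101 C + ee A` (`Finset.sum_range_succ'`) and
`A ≤ a k + ∑_{n < k} a n ≤ a k + .8101 A + ee C`. So `.1899 (A + C) ≤ 2 (1 + 2 del) + ee (A + C)`, `A + C ≤ 12`. -/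
theorem sum_dist (h : CS p q X Y) {i : ℕ → Sy} {k : ℕ} {x0 y0 x1 y1 : ℕ → ℝ}
    (o0 : COrb X Y i k x0 y0) (o1 : COrb X Y i k x1 y1) :
    ∑ n ∈ Finset.range k, (|x1 (n + 1) - x0 (n + 1)| + |y1 n - y0 n|) ≤ 12 := by
  have hee : 0 < ee := ee_pos
  have hee2 : ee ≤ 1 / 10 ^ 5 := by norm_num [ee]
  have step : ∀ n ∈ Finset.range k,
      |x1 n - x0 n| ≤ 811 / 1000 * |x1 (n + 1) - x0 (n + 1)| + 1 / 10 ^ 5 * |y1 n - y0 n| ∧
      |y1 (n + 1) - y0 (n + 1)| ≤ 811 / 1000 * |y1 n - y0 n| +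
        1 / 10 ^ 5 * |x1 (n + 1) - x0 (n + 1)| := by
    intro n hn
    have hn' : n < k := Finset.mem_range.1 hn
    have m0 : (x0 (n + 1), y0 n) ∈ NN := ⟨o0.mx (n + 1) hn', o0.my n hn'.le⟩
    have m1 : (x1 (n + 1), y1 n) ∈ NN := ⟨o1.mx (n + 1) hn', o1.my n hn'.le⟩
    have dX := h.X_diff (i n) m0 m1
    have dY := h.Y_diff (i n) m0 m1
    rw [← o0.ex n hn', ← o1.ex n hn'] at dX
    rw [← o0.ey n hn', ← o1.ey n hn'] at dY
    simp only at dX dY
    obtain ⟨p1, p2⟩ := h.p0 (i n)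
    obtain ⟨q1, q2⟩ := h.q0 (i n)
    have ha : 0 ≤ |x1 (n + 1) - x0 (n + 1)| := abs_nonneg _
    have hc : 0 ≤ |y1 n - y0 n| := abs_nonneg _
    have tX := abs_sub_abs_le_abs_sub (x1 n - x0 n) (p (i n) * (x1 (n + 1) - x0 (n + 1)))
    have tY := abs_sub_abs_le_abs_sub (y1 (n + 1) - y0 (n + 1)) (q (i n) * (y1 n - y0 n))
    rw [abs_mul, abs_of_nonneg (by linarith : (0 : ℝ) ≤ p (i n))] at tX
    rw [abs_mul, abs_of_nonneg (by linarith : (0 : ℝ) ≤ q (i n))] at tY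
    have u1 := mul_le_mul_of_nonneg_right p2 ha
    have u2 := mul_le_mul_of_nonneg_right q2 hc
    have u3 := mul_le_mul_of_nonneg_right hee2 ha
    have u4 := mul_le_mul_of_nonneg_right hee2 hc
    constructor <;> linarith
  rw [Finset.sum_add_distrib]
  set A := ∑ n ∈ Finset.range k, |x1 (n + 1) - x0 (n + 1)| with hA
  set C := ∑ n ∈ Finset.range k, |y1 n - y0 n| with hC
  have hA0 : 0 ≤ A := Finset.sum_nonneg fun _ _ => abs_nonneg _
  have hC0 : 0 ≤ C := Finset.sum_nonneg fun _ _ => abs_nonneg _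
  have s1 : ∑ n ∈ Finset.range k, |x1 n - x0 n| ≤ 811 / 1000 * A + 1 / 10 ^ 5 * C := by
    rw [hA, hC, Finset.mul_sum, Finset.mul_sum, ← Finset.sum_add_distrib]
    exact Finset.sum_le_sum fun n hn => (step n hn).1
  have s2 : ∑ n ∈ Finset.range k, |y1 (n + 1) - y0 (n + 1)| ≤ 811 / 1000 * C + 1 / 10 ^ 5 * A := by
    rw [hA, hC, Finset.mul_sum, Finset.mul_sum, ← Finset.sum_add_distrib]
    exact Finset.sum_le_sum fun n hn => (step n hn).2
  have t1 : A + |x1 0 - x0 0| = ∑ n ∈ Finset.range k, |x1 n - x0 n| + |x1 k - x0 k| := by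
    rw [hA, ← Finset.sum_range_succ (fun n => |x1 n - x0 n|),
      ← Finset.sum_range_succ' (fun n => |x1 n - x0 n|)]
  have t2 : ∑ n ∈ Finset.range k, |y1 (n + 1) - y0 (n + 1)| + |y1 0 - y0 0| =
      C + |y1 k - y0 k| := by
    rw [hC, ← Finset.sum_range_succ (fun n => |y1 n - y0 n|),
      ← Finset.sum_range_succ' (fun n => |y1 n - y0 n|)]
  have dx : |x1 k - x0 k| ≤ 101 / 100 := by
    have h0 := o0.mx k le_rfl
    have h1 := o1.mx k le_rfl
    rw [II_def] at h0 h1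
    norm_num [del] at h0 h1
    rw [abs_le]; constructor <;> linarith [h0.1, h0.2, h1.1, h1.2]
  have dy : |y1 0 - y0 0| ≤ 101 / 100 := by
    have h0 := o0.my 0 (Nat.zero_le k)
    have h1 := o1.my 0 (Nat.zero_le k)
    rw [II_def] at h0 h1
    norm_num [del] at h0 h1
    rw [abs_le]; constructor <;> linarith [h0.1, h0.2, h1.1, h1.2]
  have a0 : 0 ≤ |x1 0 - x0 0| := abs_nonneg _
  have ck : 0 ≤ |y1 k - y0 k| := abs_nonneg _
  linarith

end Pool.Agent.Lib.H37N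
end
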