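import Pool.Agent.Lib.H1M.FF.M011

/-! Merged copies (to shorten the build) of Lib.H37D.A11. -/

-- from Lib.H37D.A11
section

/-!
# H37D A11 (size M): the solution `sol`, basic estimates of general cross systems

As `Lib/H37N/A11.lean` (same proofs, norms instead of absolute values). A vector `z' - z` of `H × ℝ × V` is the sum of
`(h, 0, 0)`, `(0, t, 0) = t • (0, 1, 0)` and `(0, 0, v)`; the conditions on `A` give the estimates.
-/

open Set Filter Topology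

namespace Pool.Agent.Lib.H37D

open Pool.Agent.Lib.H37N

variable {H V : Type*} [NormedAddCommGroup H] [NormedSpace ℝ H] [NormedAddCommGroup V]
  [NormedSpace ℝ V] {S : Sys H V}

/-- decomposition of a linear map -/
theorem lin_split {Z : Type*} [NormedAddCommGroup Z] [NormedSpace ℝ Z] (A : H × ℝ × V →L[ℝ] Z)
    (z : H × ℝ × V) : A z = A (z.1, 0, 0) + z.2.1 • A (0, 1, 0) + A (0, 0, z.2.2) := by
  rw [← map_smul, ← map_add, ← map_add]
  congr 1
  obtain ⟨h, t, v⟩ := z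
  simp

theorem a11_norm {Z : Type*} [NormedAddCommGroup Z] [NormedSpace ℝ Z] (A : H × ℝ × V →L[ℝ] Z)
    (z : H × ℝ × V) {a b c : ℝ} (ha : ‖A (z.1, 0, 0)‖ ≤ a * ‖z.1‖) (hb : ‖A (0, 1, 0)‖ ≤ b)
    (hc : ‖A (0, 0, z.2.2)‖ ≤ c * ‖z.2.2‖) : ‖A z‖ ≤ a * ‖z.1‖ + b * |z.2.1| + c * ‖z.2.2‖ := by
  rw [lin_split A z]
  refine (norm_add_le _ _).trans ?_
  refine add_le_add ((norm_add_le _ _).trans (add_le_add ha ?_)) hc
  rw [norm_smul, Real.norm_eq_abs, mul_comm]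
  exact mul_le_mul_of_nonneg_right hb (abs_nonneg _)

/-- Proof. `h.mvX i` with `z2 = z0 = z`, `z3 = z1 = z'`, `lin_split`. -/
theorem Sys.Good.X_diff (h : S.Good) (i : Sy) {z z' : H × ℝ × V} (hz : z ∈ S.dom) (hz' : z' ∈ S.dom) :
    ‖S.X i z' - S.X i z‖ ≤
      811 / 1000 * ‖z'.1 - z.1‖ + ee * |z'.2.1 - z.2.1| + ee * ‖z'.2.2 - z.2.2‖ := by
  obtain ⟨A, hA, A', -, h1, -, -⟩ := h.mvX i z hz z' hz' z hz z' hz'
  rw [h1]
  exact a11_norm A (z' - z) (hA.1 _) hA.2.1 (hA.2.2 _)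

theorem Sys.Good.Y_diff (h : S.Good) (i : Sy) {z z' : H × ℝ × V} (hz : z ∈ S.dom) (hz' : z' ∈ S.dom) :
    |S.Y i z' - S.Y i z - S.q i * (z'.2.1 - z.2.1)| ≤
      ee * ‖z'.1 - z.1‖ + ee * |z'.2.1 - z.2.1| + ee * ‖z'.2.2 - z.2.2‖ := by
  obtain ⟨A, hA, A', -, h1, -, -⟩ := h.mvY i z hz z' hz' z hz z' hz'
  rw [h1]
  have e : A (z' - z) - S.q i * (z'.2.1 - z.2.1) = A ((z' - z).1, 0, 0) +
      (A (0, 1, 0) - S.q i) * (z'.2.1 - z.2.1) + A (0, 0, (z' - z).2.2) := by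
    conv_lhs => rw [lin_split A (z' - z)]
    simp only [smul_eq_mul, Prod.snd_sub, Prod.fst_sub]
    ring
  rw [e]
  refine (abs_add_le _ _).trans ?_
  refine add_le_add ((abs_add_le _ _).trans (add_le_add (hA.1 _) ?_)) (hA.2.2 _)
  rw [abs_mul]
  exact mul_le_mul_of_nonneg_right hA.2.1 (abs_nonneg _)

theorem Sys.Good.K_diff (h : S.Good) (i : Sy) {z z' : H × ℝ × V} (hz : z ∈ S.dom) (hz' : z' ∈ S.dom) :
    ‖S.K i z' - S.K i z‖ ≤
      ee * ‖z'.1 - z.1‖ + ee * |z'.2.1 - z.2.1| + 1 / 50 * ‖z'.2.2 - z.2.2‖ := by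
  obtain ⟨A, hA, A', -, h1, -, -⟩ := h.mvK i z hz z' hz' z hz z' hz'
  rw [h1]
  exact a11_norm A (z' - z) (hA.1 _) hA.2.1 (hA.2.2 _)

/-- the values are in the interior of `II`, with a margin. Proof: `Y0`, `off`, `qsum`, `z.2.1 ∈ II` (`a11_mem` in `Lib/H37N/A11.lean`, with the
margin `del - 81/100 del - ee ≥ del / 10`). -/
theorem Sys.Good.Y_mem (h : S.Good) (i : Sy) {z : H × ℝ × V} (hz : z ∈ S.dom) :
    -del + del / 10 ≤ S.Y i z ∧ S.Y i z ≤ 1 + del - del / 10 := by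
  have ht : z.2.1 ∈ II := hz.2.1
  have hv := h.Y0 i z hz
  have h1 := h.q0 i
  have hp : 0 ≤ S.q i := by linarith
  have h2 : S.q i * (-del) ≤ S.q i * z.2.1 := mul_le_mul_of_nonneg_left ht.1 hp
  have h3 : S.q i * z.2.1 ≤ S.q i * (1 + del) := mul_le_mul_of_nonneg_left ht.2 hp
  have h4 := abs_le.mp hv
  have hd : del = 1 / 100000 := rfl
  have he : ee = 1 / 10 ^ 10 := rfl
  have hg : gam = 1 / 1000 := rfl
  have psum := h.qsum
  rw [hd] at h2 h3
  rw [he] at h4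
  rw [hg] at psum
  have hP := h.q0 Sy.P
  have hQ := h.q0 Sy.Q
  rw [hd]
  constructor
  · cases i
    · simp only [off] at h4
      norm_num at h4 ⊢
      linarith [h4.1, h4.2]
    · simp only [off] at h4
      rw [hg] at h4
      norm_num at h4 ⊢
      linarith [h4.1, h4.2]
  · cases i
    · simp only [off] at h4
      norm_num at h4 ⊢
      linarith [h4.1, h4.2]
    · simp only [off] at h4
      rw [hg] at h4
      norm_num at h4 ⊢
      linarith [h4.1, h4.2]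

theorem Sys.Leaf.mem_dom {f : H → ℝ × V} (hf : S.Leaf f) (h' x : H) : (S.RH.cl h', f x) ∈ S.dom :=
  ⟨S.RH.cl_mem h', hf.mem1 x, hf.mem2 x⟩

theorem a11_lipf {f : H → ℝ × V} (hf : S.Leaf f) (x y : H) :
    |(f x).1 - (f y).1| ≤ 10 * ee * ‖x - y‖ ∧ ‖(f x).2 - (f y).2‖ ≤ 10 * ee * ‖x - y‖ := by
  have h1 := hf.lip x y
  rw [Prod.norm_def, max_le_iff] at h1
  exact ⟨h1.1, h1.2⟩

theorem a11_phi (h : S.Good) (i : Sy) {f : H → ℝ × V} (hf : S.Leaf f) (h' x y : H) :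
    ‖S.X i (S.RH.cl h', f x) - S.X i (S.RH.cl h', f y)‖ ≤ 20 * ee * ee * ‖x - y‖ := by
  have h1 := h.X_diff i (hf.mem_dom h' y) (hf.mem_dom h' x)
  simp only [sub_self, norm_zero, mul_zero, zero_add] at h1
  obtain ⟨h2, h3⟩ := a11_lipf hf x y
  have h4 := mul_le_mul_of_nonneg_left h2 ee_pos.le
  have h5 := mul_le_mul_of_nonneg_left h3 ee_pos.le
  refine h1.trans ?_
  linarith

theorem a11_ex [CompleteSpace H] (h : S.Good) (i : Sy) {f : H → ℝ × V} (hf : S.Leaf f) (h' : H) :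
    ∃ x, x = S.X i (S.RH.cl h', f x) := by
  have hc : ContractingWith (1 / 2 : NNReal) (fun x => S.X i (S.RH.cl h', f x)) := by
    refine ⟨by norm_num, LipschitzWith.of_dist_le_mul fun x y => ?_⟩
    rw [dist_eq_norm, dist_eq_norm]
    refine (a11_phi h i hf h' x y).trans (mul_le_mul_of_nonneg_right ?_ (norm_nonneg _))
    norm_num [ee]
  exact ⟨_, (hc.fixedPoint_isFixedPt).symm⟩

/-- Proof. `φ x = X i (cl h', f x)` satisfies `‖φ x - φ y‖ ≤ 2 ee * ‖f x - f y‖ ≤ 20 ee^2 ‖x - y‖` (`X_diff` with equal first components; both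
components of `f x - f y` are at most `‖f x - f y‖`), a contraction of the complete space `H`. -/
theorem sol_spec [CompleteSpace H] (h : S.Good) (i : Sy) {f : H → ℝ × V} (hf : S.Leaf f) (h' : H) :
    S.sol i f h' = S.X i (S.RH.cl h', f (S.sol i f h')) :=
  Classical.epsilon_spec (p := fun x => x = S.X i (S.RH.cl h', f x)) (a11_ex h i hf h')


theorem sol_mem [CompleteSpace H] (h : S.Good) (i : Sy) {f : H → ℝ × V} (hf : S.Leaf f) (h' : H) :
    S.sol i f h' ∈ S.RH.S := by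
  rw [sol_spec h i hf h']
  exact h.X0 i _ (hf.mem_dom h' _)

/-- Proof: as in `A11`: `‖x - y‖ ≤ 811/1000 ‖cl x' - cl y'‖ + 2 ee * 10 ee ‖x - y‖`. -/
theorem sol_lip [CompleteSpace H] (h : S.Good) (i : Sy) {f : H → ℝ × V} (hf : S.Leaf f) (x' y' : H) :
    ‖S.sol i f x' - S.sol i f y'‖ ≤ 812 / 1000 * ‖S.RH.cl x' - S.RH.cl y'‖ := by
  have h1 := h.X_diff i (hf.mem_dom y' (S.sol i f y')) (hf.mem_dom x' (S.sol i f x'))
  rw [← sol_spec h i hf x', ← sol_spec h i hf y'] at h1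
  simp only at h1
  obtain ⟨h2, h3⟩ := a11_lipf hf (S.sol i f x') (S.sol i f y')
  have h4 := mul_le_mul_of_nonneg_left h2 ee_pos.le
  have h5 := mul_le_mul_of_nonneg_left h3 ee_pos.le
  set A := ‖S.RH.cl x' - S.RH.cl y'‖
  set B := ‖S.sol i f x' - S.sol i f y'‖
  have hA : 0 ≤ A := norm_nonneg _
  have hB : 0 ≤ B := norm_nonneg _
  have h6 : B ≤ 811 / 1000 * A + 20 * ee * ee * B := by linarith
  have h7 : 20 * ee * ee = 20 / 10 ^ 20 := by norm_num [ee]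
  rw [h7] at h6
  linarith

end Pool.Agent.Lib.H37D
end
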