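import Pool.Agent.Lib.H1M.FF.M008
import Pool.Agent.Lib.H1M.FF.M011

/-! Merged copies (to shorten the build) of Lib.H37N.A32, Lib.H37D.A32. -/

-- from Lib.H37N.A32
section

/-!
# H37N A32 (size M, pure real inequality): one step of the distortion estimate
-/

open Set Filter Topology

namespace Pool.Agent.Lib.H37N

theorem a32_log {x y m : ℝ} (hm : 0 < m) (hx : m ≤ x) (hy : m ≤ y) :
    |Real.log x - Real.log y| ≤ |x - y| / m := by
  have hx0 : 0 < x := hm.trans_le hx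
  have hy0 : 0 < y := hm.trans_le hy
  have key : ∀ x y : ℝ, m ≤ x → m ≤ y → Real.log x - Real.log y ≤ |x - y| / m := by
    intro x y hx hy
    have hx0 : 0 < x := hm.trans_le hx
    have hy0 : 0 < y := hm.trans_le hy
    rw [← Real.log_div hx0.ne' hy0.ne']
    refine (Real.log_le_sub_one_of_pos (div_pos hx0 hy0)).trans ?_
    have e : x / y - 1 = (x - y) / y := by field_simp
    rw [e]
    refine (div_le_div_of_nonneg_right (le_abs_self _) hy0.le).trans ?_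
    exact div_le_div_of_nonneg_left (abs_nonneg _) hm hy
  rw [abs_le]
  constructor
  · have := key y x hy hx
    rw [abs_sub_comm] at this
    linarith
  · exact key x y hx hy

theorem a32_prod {a a' r1 r1' δ : ℝ} (hδ : 0 ≤ δ)
    (ha' : |a'| ≤ ee) (hr : |r1| ≤ 3 * ee) (hab : |a - a'| ≤ ee * δ) :
    |a * r1 - a' * r1'| ≤ 1 / 10 ^ 5 * (ee * δ) + ee * |r1 - r1'| := by
  have hee : 0 < ee := ee_pos
  have e : a * r1 - a' * r1' = (a - a') * r1 + a' * (r1 - r1') := by ring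
  rw [e]
  refine (abs_add_le _ _).trans ?_
  rw [abs_mul, abs_mul]
  have h1 : |a - a'| * |r1| ≤ (ee * δ) * (3 * ee) :=
    mul_le_mul hab hr (abs_nonneg _) (mul_nonneg hee.le hδ)
  have h2 : |a'| * |r1 - r1'| ≤ ee * |r1 - r1'| :=
    mul_le_mul_of_nonneg_right ha' (abs_nonneg _)
  have h3 : (ee * δ) * (3 * ee) ≤ 1 / 10 ^ 5 * (ee * δ) := by
    have : 3 * ee ≤ 1 / 10 ^ 5 := by norm_num [ee]
    have := mul_le_mul_of_nonneg_left this (mul_nonneg hee.le hδ)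
    linarith
  linarith

theorem a32_small {a r1 : ℝ} (ha : |a| ≤ ee) (hr : |r1| ≤ 3 * ee) : |a * r1| ≤ 1 / 10 ^ 5 := by
  have hee : 0 < ee := ee_pos
  rw [abs_mul]
  have h1 : |a| * |r1| ≤ ee * (3 * ee) := mul_le_mul ha hr (abs_nonneg _) hee.le
  refine h1.trans ?_
  norm_num [ee]

/-- `ρ = b / (1 - a r1)` is the ratio `D (n+1) / D n`, `r0 = c r1 ρ + d`; the primed numbers belong to a second pair.
Proof. `|a r1| ≤ 3 ee^2`. `|log ρ - log ρ'| ≤ |log b - log b'| + |log (1 - a r1) - log (1 - a' r1')|`.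
`|log b - log b'| ≤ |b - b'| / min b b' ≤ ee δ / .1899 ≤ 5.3 ee δ` (`Real.log_le_sub_one_of_pos` applied to the
quotient), `|log (1 - u) - log (1 - u')| ≤ 1.01 |u - u'|` for `|u|, |u'| ≤ 10^-3`, `|a r1 - a' r1'| ≤ |a - a'| |r1| + |a'| |r1 - r1'| ≤
3 ee^2 δ + ee |r1 - r1'|`. -/
theorem step_log {b b' a a' r1 r1' δ q : ℝ} (hδ : 0 ≤ δ) (hq : 19 / 100 ≤ q) (hq' : q ≤ 81 / 100)
    (hb : |b - q| ≤ ee) (hb' : |b' - q| ≤ ee) (ha : |a| ≤ ee) (ha' : |a'| ≤ ee)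
    (hr : |r1| ≤ 3 * ee) (hr' : |r1'| ≤ 3 * ee) (hab : |a - a'| ≤ ee * δ) (hbb : |b - b'| ≤ ee * δ) :
    |Real.log (b / (1 - a * r1)) - Real.log (b' / (1 - a' * r1'))| ≤
      10 * (ee * δ + ee * |r1 - r1'|) := by
  have hee : 0 < ee := ee_pos
  have hee2 : ee ≤ 1 / 10 ^ 5 := by norm_num [ee]
  have hu := a32_small ha hr
  have hu' := a32_small ha' hr'
  have hp := a32_prod (r1' := r1') hδ ha' hr hab
  rw [abs_le] at hb hb' hu hu'
  have hb1 : 18 / 100 ≤ b := by norm_num at hee2; linarith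
  have hb1' : 18 / 100 ≤ b' := by norm_num at hee2; linarith
  have hv : 99 / 100 ≤ 1 - a * r1 := by linarith
  have hv' : 99 / 100 ≤ 1 - a' * r1' := by linarith
  rw [Real.log_div (by linarith) (by linarith), Real.log_div (by linarith) (by linarith)]
  have k1 := a32_log (by norm_num) hb1 hb1'
  have k2 := a32_log (by norm_num) hv hv'
  have e1 : (1 - a * r1) - (1 - a' * r1') = -(a * r1 - a' * r1') := by ring
  rw [e1, abs_neg] at k2
  have e2 : Real.log b - Real.log (1 - a * r1) - (Real.log b' - Real.log (1 - a' * r1')) =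
      (Real.log b - Real.log b') - (Real.log (1 - a * r1) - Real.log (1 - a' * r1')) := by ring
  rw [e2]
  refine (abs_sub _ _).trans ?_
  have hS : 0 ≤ ee * |r1 - r1'| := mul_nonneg hee.le (abs_nonneg _)
  have hM : 0 ≤ ee * δ := mul_nonneg hee.le hδ
  have k3 : |b - b'| / (18 / 100) ≤ (ee * δ) / (18 / 100) :=
    div_le_div_of_nonneg_right hbb (by norm_num)
  have k4 : |a * r1 - a' * r1'| / (99 / 100) ≤
      (1 / 10 ^ 5 * (ee * δ) + ee * |r1 - r1'|) / (99 / 100) :=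
    div_le_div_of_nonneg_right hp (by norm_num)
  linarith

/-- Proof. `ρ, ρ' ∈ [.189, .8101]`; `|ρ - ρ'| ≤ ` (direct: `ρ - ρ' = (b (1 - a' r1') - b' (1 - a r1)) / ((1 - a r1)(1 - a' r1'))`)
`≤ 1.001 (|b - b'| + |a r1 - a' r1'|) ≤ 1.01 ee δ + 1.01 ee |r1 - r1'| + 4 ee^2 δ`. Then
`|c r1 ρ - c' r1' ρ'| ≤ |c - c'| |r1| ρ + |c'| |r1 - r1'| ρ + |c'| |r1'| |ρ - ρ'|
≤ 3 ee^2 δ + (.8101)(.8101) |r1 - r1'| + 3 ee (...)`, `|d - d'| ≤ ee δ`; total `≤ .7 |r1 - r1'| + 10 ee δ`. -/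
theorem step_r {b b' a a' c c' d d' r1 r1' δ p q : ℝ} (hδ : 0 ≤ δ) (hq : 19 / 100 ≤ q)
    (hq' : q ≤ 81 / 100) (hp : 19 / 100 ≤ p) (hp' : p ≤ 81 / 100)
    (hb : |b - q| ≤ ee) (hb' : |b' - q| ≤ ee) (ha : |a| ≤ ee) (ha' : |a'| ≤ ee)
    (hc : |c - p| ≤ ee) (hc' : |c' - p| ≤ ee) (hd : |d| ≤ ee) (hd' : |d'| ≤ ee)
    (hr : |r1| ≤ 3 * ee) (hr' : |r1'| ≤ 3 * ee) (hab : |a - a'| ≤ ee * δ) (hbb : |b - b'| ≤ ee * δ)
    (hcc : |c - c'| ≤ ee * δ) (hdd : |d - d'| ≤ ee * δ) :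
    |(c * r1 * (b / (1 - a * r1)) + d) - (c' * r1' * (b' / (1 - a' * r1')) + d')| ≤
      7 / 10 * |r1 - r1'| + 10 * ee * δ := by
  have hee : 0 < ee := ee_pos
  have hee2 : ee ≤ 1 / 10 ^ 5 := by norm_num [ee]
  have hu := a32_small ha hr
  have hu' := a32_small ha' hr'
  have hP := a32_prod (r1' := r1') hδ ha' hr hab
  have hbA := hb
  have hbA' := hb'
  have hcA' := hc'
  rw [abs_le] at hb hb' hu hu' hc'
  have hv : 99 / 100 ≤ 1 - a * r1 := by linarith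
  have hv' : 99 / 100 ≤ 1 - a' * r1' := by linarith
  have hv0 : 0 < 1 - a * r1 := by linarith
  have hv0' : 0 < 1 - a' * r1' := by linarith
  have hS : 0 ≤ |r1 - r1'| := abs_nonneg _
  have hM : 0 ≤ ee * δ := mul_nonneg hee.le hδ
  have hb1 : |b| ≤ 811 / 1000 := by
    rw [abs_le]; constructor <;> linarith
  have hb1' : |b'| ≤ 811 / 1000 := by
    rw [abs_le]; constructor <;> linarith
  have hc1' : |c'| ≤ 811 / 1000 := by
    rw [abs_le]; constructor <;> linarith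
  -- the ratio
  have hinv : |(1 - a * r1)⁻¹| ≤ 1002 / 1000 := by
    rw [abs_of_pos (inv_pos.2 hv0)]
    rw [inv_le_comm₀ hv0 (by norm_num)]
    linarith
  have hinv' : |(1 - a' * r1')⁻¹| ≤ 1002 / 1000 := by
    rw [abs_of_pos (inv_pos.2 hv0')]
    rw [inv_le_comm₀ hv0' (by norm_num)]
    linarith
  set ρ := b / (1 - a * r1) with hρ
  set ρ' := b' / (1 - a' * r1') with hρ'
  have hρb : |ρ| ≤ 813 / 1000 := by
    rw [hρ, div_eq_mul_inv, abs_mul]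
    have := mul_le_mul hb1 hinv (abs_nonneg _) (by norm_num)
    norm_num at this ⊢
    linarith
  have hρρ : |ρ - ρ'| ≤ 2 * (ee * δ) + ee * |r1 - r1'| := by
    have e : ρ - ρ' = (b - b') * (1 - a * r1)⁻¹ +
        b' * ((a * r1 - a' * r1') * ((1 - a * r1)⁻¹ * (1 - a' * r1')⁻¹)) := by
      rw [hρ, hρ']
      field_simp
      ring
    rw [e]
    refine (abs_add_le _ _).trans ?_
    rw [abs_mul, abs_mul b', abs_mul (a * r1 - a' * r1'), abs_mul (1 - a * r1)⁻¹]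
    have f1 : |b - b'| * |(1 - a * r1)⁻¹| ≤ (ee * δ) * (1002 / 1000) :=
      mul_le_mul hbb hinv (abs_nonneg _) hM
    have f2 : |(1 - a * r1)⁻¹| * |(1 - a' * r1')⁻¹| ≤ (1002 / 1000) * (1002 / 1000) :=
      mul_le_mul hinv hinv' (abs_nonneg _) (by norm_num)
    have f3 : |a * r1 - a' * r1'| * (|(1 - a * r1)⁻¹| * |(1 - a' * r1')⁻¹|) ≤
        (1 / 10 ^ 5 * (ee * δ) + ee * |r1 - r1'|) * ((1002 / 1000) * (1002 / 1000)) :=
      mul_le_mul hP f2 (by positivity) (by positivity)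
    have f4 : |b'| * (|a * r1 - a' * r1'| * (|(1 - a * r1)⁻¹| * |(1 - a' * r1')⁻¹|)) ≤
        (811 / 1000) *
          ((1 / 10 ^ 5 * (ee * δ) + ee * |r1 - r1'|) * ((1002 / 1000) * (1002 / 1000))) :=
      mul_le_mul hb1' f3 (by positivity) (by norm_num)
    have hS2 : 0 ≤ ee * |r1 - r1'| := mul_nonneg hee.le hS
    linarith
  have e : (c * r1 * ρ + d) - (c' * r1' * ρ' + d') =
      (c - c') * (r1 * ρ) + c' * ((r1 - r1') * ρ) + c' * (r1' * (ρ - ρ')) + (d - d') := by ring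
  rw [e]
  have g0 := abs_add_le ((c - c') * (r1 * ρ) + c' * ((r1 - r1') * ρ) + c' * (r1' * (ρ - ρ'))) (d - d')
  have g1 := abs_add_le ((c - c') * (r1 * ρ) + c' * ((r1 - r1') * ρ)) (c' * (r1' * (ρ - ρ')))
  have g2 := abs_add_le ((c - c') * (r1 * ρ)) (c' * ((r1 - r1') * ρ))
  rw [abs_mul (c - c'), abs_mul r1, abs_mul c', abs_mul (r1 - r1')] at g2
  rw [abs_mul c', abs_mul r1'] at g1
  have k1 : |r1| * |ρ| ≤ (3 * ee) * (813 / 1000) :=
    mul_le_mul hr hρb (abs_nonneg _) (by positivity)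
  have k2 : |c - c'| * (|r1| * |ρ|) ≤ (ee * δ) * ((3 * ee) * (813 / 1000)) :=
    mul_le_mul hcc k1 (by positivity) hM
  have k3 : |r1 - r1'| * |ρ| ≤ |r1 - r1'| * (813 / 1000) :=
    mul_le_mul_of_nonneg_left hρb hS
  have k4 : |c'| * (|r1 - r1'| * |ρ|) ≤ (811 / 1000) * (|r1 - r1'| * (813 / 1000)) :=
    mul_le_mul hc1' k3 (by positivity) (by norm_num)
  have k5 : |r1'| * |ρ - ρ'| ≤ (3 * ee) * (2 * (ee * δ) + ee * |r1 - r1'|) :=
    mul_le_mul hr' hρρ (abs_nonneg _) (by positivity)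
  have k6 : |c'| * (|r1'| * |ρ - ρ'|) ≤
      (811 / 1000) * ((3 * ee) * (2 * (ee * δ) + ee * |r1 - r1'|)) :=
    mul_le_mul hc1' k5 (by positivity) (by norm_num)
  have k7 : (ee * δ) * ((3 * ee) * (813 / 1000)) ≤ (ee * δ) * 1 :=
    mul_le_mul_of_nonneg_left (by linarith) hM
  have k8 : (3 * ee) * (2 * (ee * δ) + ee * |r1 - r1'|) ≤
      1 / 100 * (2 * (ee * δ) + ee * |r1 - r1'|) :=
    mul_le_mul_of_nonneg_right (by linarith) (by positivity)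
  have k9 : ee * |r1 - r1'| ≤ 1 * |r1 - r1'| := mul_le_mul_of_nonneg_right (by linarith) hS
  linarith

end Pool.Agent.Lib.H37N
end

-- from Lib.H37D.A32
section

/-!
# H37D A32 (size M, pure inequalities): one step of the distortion estimate

`ρ = b / (1 - u)` is the ratio `D (n+1) / D n`, where `u = a (r (n+1))`, `b = b0 + c (s n)`; `r n = ρ • C (r (n+1)) + d + e (s n)` in `H`;
`s (n+1) = α (r (n+1)) + ρ⁻¹ • (β + Γ (s n))` in `V`.
-/

open Set Filter Topology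

namespace Pool.Agent.Lib.H37D

open Pool.Agent.Lib.H37N

/-- Proof: `a32_log` (Lib/H37N/A32.lean) for `b, b' ≥ 18/100` and for `1 - u, 1 - u' ≥ 99/100`. -/
theorem step_log {b b' u u' : ℝ} (hb : 18 / 100 ≤ b) (hb' : 18 / 100 ≤ b') (hu : |u| ≤ 1 / 100)
    (hu' : |u'| ≤ 1 / 100) :
    |Real.log (b / (1 - u)) - Real.log (b' / (1 - u'))| ≤ 6 * |b - b'| + 2 * |u - u'| := by
  obtain ⟨u1, u2⟩ := abs_le.1 hu
  obtain ⟨u1', u2'⟩ := abs_le.1 hu'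
  have hv : 99 / 100 ≤ 1 - u := by linarith
  have hv' : 99 / 100 ≤ 1 - u' := by linarith
  rw [Real.log_div (by linarith) (by linarith), Real.log_div (by linarith) (by linarith)]
  have k1 := a32_log (by norm_num) hb hb'
  have k2 := a32_log (by norm_num) hv hv'
  have e1 : (1 - u) - (1 - u') = -(u - u') := by ring
  rw [e1, abs_neg] at k2
  have e2 : Real.log b - Real.log (1 - u) - (Real.log b' - Real.log (1 - u')) =
      (Real.log b - Real.log b') - (Real.log (1 - u) - Real.log (1 - u')) := by ring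
  rw [e2]
  refine (abs_sub _ _).trans ?_
  have h1 := abs_nonneg (b - b')
  have h2 := abs_nonneg (u - u')
  linarith

/-- Proof: `ρ - ρ' = (b - b') / (1 - u) + b' (u - u') / ((1 - u)(1 - u'))`. -/
theorem step_rho {b b' u u' : ℝ} (hb : |b| ≤ 82 / 100) (hb' : |b'| ≤ 82 / 100) (hu : |u| ≤ 1 / 1000)
    (hu' : |u'| ≤ 1 / 1000) :
    |b / (1 - u) - b' / (1 - u')| ≤ 2 * |b - b'| + 2 * |u - u'| ∧ |b / (1 - u)| ≤ 821 / 1000 := by
  obtain ⟨u1, u2⟩ := abs_le.1 hu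
  obtain ⟨u1', u2'⟩ := abs_le.1 hu'
  have hv0 : 0 < 1 - u := by linarith
  have hv0' : 0 < 1 - u' := by linarith
  have hinv : |(1 - u)⁻¹| ≤ 10011 / 10000 := by
    rw [abs_of_pos (inv_pos.2 hv0)]
    rw [inv_le_comm₀ hv0 (by norm_num)]
    linarith
  have hinv' : |(1 - u')⁻¹| ≤ 10011 / 10000 := by
    rw [abs_of_pos (inv_pos.2 hv0')]
    rw [inv_le_comm₀ hv0' (by norm_num)]
    linarith
  constructor
  · have e : b / (1 - u) - b' / (1 - u') = (b - b') * (1 - u)⁻¹ +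
        b' * ((u - u') * ((1 - u)⁻¹ * (1 - u')⁻¹)) := by
      field_simp
      ring
    rw [e]
    refine (abs_add_le _ _).trans ?_
    rw [abs_mul, abs_mul b', abs_mul (u - u'), abs_mul (1 - u)⁻¹]
    have f1 : |b - b'| * |(1 - u)⁻¹| ≤ |b - b'| * (10011 / 10000) :=
      mul_le_mul_of_nonneg_left hinv (abs_nonneg _)
    have f2 : |(1 - u)⁻¹| * |(1 - u')⁻¹| ≤ (10011 / 10000) * (10011 / 10000) :=
      mul_le_mul hinv hinv' (abs_nonneg _) (by norm_num)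
    have f3 : |u - u'| * (|(1 - u)⁻¹| * |(1 - u')⁻¹|) ≤
        |u - u'| * ((10011 / 10000) * (10011 / 10000)) :=
      mul_le_mul_of_nonneg_left f2 (abs_nonneg _)
    have f4 : |b'| * (|u - u'| * (|(1 - u)⁻¹| * |(1 - u')⁻¹|)) ≤
        (82 / 100) * (|u - u'| * ((10011 / 10000) * (10011 / 10000))) :=
      mul_le_mul hb' f3 (by positivity) (by norm_num)
    have h1 := abs_nonneg (b - b')
    have h2 := abs_nonneg (u - u')
    linarith
  · rw [div_eq_mul_inv, abs_mul]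
    have := mul_le_mul hb hinv (abs_nonneg _) (by norm_num)
    norm_num at this ⊢
    linarith

/-- Proof. `ρ • C r - ρ' • C' r' = ρ • (C - C') r + ρ • C' (r - r') + (ρ - ρ') • C' r'`. -/
theorem step_r {H V : Type*} [NormedAddCommGroup H] [NormedSpace ℝ H] [NormedAddCommGroup V]
    [NormedSpace ℝ V] {C C' : H →L[ℝ] H} {e e' : V →L[ℝ] H} {d d' r r' : H} {s s' : V} {ρ ρ' δ : ℝ}
    (hδ : 0 ≤ δ) (hC : ‖C - C'‖ ≤ ee * δ) (hC' : ∀ h, ‖C' h‖ ≤ 811 / 1000 * ‖h‖)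
    (he : ‖e - e'‖ ≤ ee * δ) (he' : ∀ v, ‖e' v‖ ≤ ee * ‖v‖) (hd : ‖d - d'‖ ≤ ee * δ)
    (hr : ‖r‖ ≤ 6 * ee) (hr' : ‖r'‖ ≤ 6 * ee) (hs : ‖s‖ ≤ 1) (hρ : |ρ| ≤ 821 / 1000)
    (hρρ : |ρ - ρ'| ≤ 5 * ee * (δ + ‖s - s'‖ + ‖r - r'‖)) :
    ‖(ρ • C r + d + e s) - (ρ' • C' r' + d' + e' s')‖ ≤
      7 / 10 * ‖r - r'‖ + 5 * ee * (δ + ‖s - s'‖) := by
  have hee : 0 < ee := ee_pos
  have hr0 := norm_nonneg (r - r')
  have hs0 := norm_nonneg (s - s')
  have hM : 0 ≤ ee * δ := mul_nonneg hee.le hδ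
  have eqn : (ρ • C r + d + e s) - (ρ' • C' r' + d' + e' s') =
      ρ • (C - C') r + ρ • C' (r - r') + (ρ - ρ') • C' r' + (d - d') + (e - e') s +
        e' (s - s') := by
    simp only [map_sub, ContinuousLinearMap.sub_apply, smul_sub, sub_smul]
    abel
  rw [eqn]
  have n1 : ‖ρ • (C - C') r‖ ≤ 821 / 1000 * ((ee * δ) * (6 * ee)) := by
    rw [norm_smul, Real.norm_eq_abs]
    refine mul_le_mul hρ ?_ (norm_nonneg _) (by norm_num)
    exact ((C - C').le_opNorm r).trans (mul_le_mul hC hr (norm_nonneg _) hM)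
  have n2 : ‖ρ • C' (r - r')‖ ≤ 821 / 1000 * (811 / 1000 * ‖r - r'‖) := by
    rw [norm_smul, Real.norm_eq_abs]
    exact mul_le_mul hρ (hC' _) (norm_nonneg _) (by norm_num)
  have n3 : ‖(ρ - ρ') • C' r'‖ ≤
      (5 * ee * (δ + ‖s - s'‖ + ‖r - r'‖)) * (811 / 1000 * (6 * ee)) := by
    rw [norm_smul, Real.norm_eq_abs]
    refine mul_le_mul hρρ ?_ (norm_nonneg _) (by positivity)
    exact (hC' _).trans (mul_le_mul_of_nonneg_left hr' (by norm_num))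
  have n4 : ‖(e - e') s‖ ≤ (ee * δ) * 1 :=
    ((e - e').le_opNorm s).trans (mul_le_mul he hs (norm_nonneg _) hM)
  have n5 := he' (s - s')
  have t1 := norm_add_le (ρ • (C - C') r + ρ • C' (r - r') + (ρ - ρ') • C' r' + (d - d') +
    (e - e') s) (e' (s - s'))
  have t2 := norm_add_le (ρ • (C - C') r + ρ • C' (r - r') + (ρ - ρ') • C' r' + (d - d'))
    ((e - e') s)
  have t3 := norm_add_le (ρ • (C - C') r + ρ • C' (r - r') + (ρ - ρ') • C' r') (d - d')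
  have t4 := norm_add_le (ρ • (C - C') r + ρ • C' (r - r')) ((ρ - ρ') • C' r')
  have t5 := norm_add_le (ρ • (C - C') r) (ρ • C' (r - r'))
  unfold ee at *
  linarith

/-- Proof. `α r - α' r' = (α - α') r + α' (r - r')`; `ρ⁻¹ • x - ρ'⁻¹ • x' = ρ⁻¹ • (x - x') + (ρ⁻¹ - ρ'⁻¹) • x'`, `|ρ⁻¹ - ρ'⁻¹| ≤ 31 |ρ - ρ'|`,
`x - x' = (β - β') + (Γ - Γ') s + Γ' (s - s')`, `‖x'‖ ≤ ee + 1/50`; `1/50 / (18/100) < 112/1000`. -/
theorem step_s {H V : Type*} [NormedAddCommGroup H] [NormedSpace ℝ H] [NormedAddCommGroup V]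
    [NormedSpace ℝ V] {α α' : H →L[ℝ] V} {G G' : V →L[ℝ] V} {β β' s s' : V} {r r' : H} {ρ ρ' δ : ℝ}
    (hδ : 0 ≤ δ) (hα : ‖α - α'‖ ≤ ee * δ) (hα' : ∀ h, ‖α' h‖ ≤ ee * ‖h‖) (hG : ‖G - G'‖ ≤ ee * δ)
    (hG' : ∀ v, ‖G' v‖ ≤ 1 / 50 * ‖v‖) (hβ : ‖β - β'‖ ≤ ee * δ) (hβ' : ‖β'‖ ≤ ee)
    (hr : ‖r‖ ≤ 6 * ee) (hs : ‖s‖ ≤ 1) (hs' : ‖s'‖ ≤ 1) (hρ : 18 / 100 ≤ ρ) (hρ' : 18 / 100 ≤ ρ')
    (hρρ : |ρ - ρ'| ≤ 5 * ee * (δ + ‖s - s'‖ + ‖r - r'‖)) :
    ‖(α r + ρ⁻¹ • (β + G s)) - (α' r' + ρ'⁻¹ • (β' + G' s'))‖ ≤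
      12 / 100 * ‖s - s'‖ + 20 * ee * (δ + ‖r - r'‖) := by
  have hee : 0 < ee := ee_pos
  have hr0 := norm_nonneg (r - r')
  have hs0 := norm_nonneg (s - s')
  have hM : 0 ≤ ee * δ := mul_nonneg hee.le hδ
  have hρ0 : 0 < ρ := by linarith
  have hρ0' : 0 < ρ' := by linarith
  have i1 : |ρ⁻¹| ≤ 100 / 18 := by
    rw [abs_of_pos (inv_pos.2 hρ0), inv_le_comm₀ hρ0 (by norm_num)]
    linarith
  have i2 : |ρ'⁻¹| ≤ 100 / 18 := by
    rw [abs_of_pos (inv_pos.2 hρ0'), inv_le_comm₀ hρ0' (by norm_num)]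
    linarith
  have i3 : |ρ⁻¹ - ρ'⁻¹| ≤ (5 * ee * (δ + ‖s - s'‖ + ‖r - r'‖)) * (100 / 18 * (100 / 18)) := by
    have e0 : ρ⁻¹ - ρ'⁻¹ = -(ρ - ρ') * (ρ⁻¹ * ρ'⁻¹) := by
      field_simp
      ring
    rw [e0, abs_mul, abs_neg, abs_mul]
    exact mul_le_mul hρρ (mul_le_mul i1 i2 (abs_nonneg _) (by norm_num)) (by positivity)
      (by positivity)
  have e : (α r + ρ⁻¹ • (β + G s)) - (α' r' + ρ'⁻¹ • (β' + G' s')) =
      (α - α') r + α' (r - r') + ρ⁻¹ • ((β - β') + (G - G') s + G' (s - s')) +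
        (ρ⁻¹ - ρ'⁻¹) • (β' + G' s') := by
    simp only [map_sub, ContinuousLinearMap.sub_apply, smul_sub, sub_smul, smul_add]
    abel
  rw [e]
  have n1 : ‖(α - α') r‖ ≤ (ee * δ) * (6 * ee) :=
    ((α - α').le_opNorm r).trans (mul_le_mul hα hr (norm_nonneg _) hM)
  have n2 := hα' (r - r')
  have n3 : ‖(G - G') s‖ ≤ (ee * δ) * 1 :=
    ((G - G').le_opNorm s).trans (mul_le_mul hG hs (norm_nonneg _) hM)
  have n4 := hG' (s - s')
  have n5 : ‖(β - β') + (G - G') s + G' (s - s')‖ ≤ ee * δ + (ee * δ) * 1 + 1 / 50 * ‖s - s'‖ :=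
    (norm_add_le _ _).trans (add_le_add ((norm_add_le _ _).trans (add_le_add hβ n3)) n4)
  have n6 : ‖ρ⁻¹ • ((β - β') + (G - G') s + G' (s - s'))‖ ≤
      100 / 18 * (ee * δ + (ee * δ) * 1 + 1 / 50 * ‖s - s'‖) := by
    rw [norm_smul, Real.norm_eq_abs]
    exact mul_le_mul i1 n5 (norm_nonneg _) (by norm_num)
  have n7 : ‖β' + G' s'‖ ≤ ee + 1 / 50 * 1 :=
    (norm_add_le _ _).trans (add_le_add hβ' ((hG' _).trans
      (mul_le_mul_of_nonneg_left hs' (by norm_num))))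
  have n8 : ‖(ρ⁻¹ - ρ'⁻¹) • (β' + G' s')‖ ≤
      ((5 * ee * (δ + ‖s - s'‖ + ‖r - r'‖)) * (100 / 18 * (100 / 18))) * (ee + 1 / 50 * 1) := by
    rw [norm_smul, Real.norm_eq_abs]
    exact mul_le_mul i3 n7 (norm_nonneg _) (by positivity)
  have t1 := norm_add_le ((α - α') r + α' (r - r') +
    ρ⁻¹ • ((β - β') + (G - G') s + G' (s - s'))) ((ρ⁻¹ - ρ'⁻¹) • (β' + G' s'))
  have t2 := norm_add_le ((α - α') r + α' (r - r'))
    (ρ⁻¹ • ((β - β') + (G - G') s + G' (s - s')))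
  have t3 := norm_add_le ((α - α') r) (α' (r - r'))
  unfold ee at *
  linarith

end Pool.Agent.Lib.H37D
end
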