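import Pool.Agent.Lib.H1M.FF.M011
import Pool.Agent.Lib.H1M.FF.M012

/-! Merged copies (to shorten the build) of Lib.H37D.BDefs, Lib.H37N.C01, Lib.H37D.Bas0, Lib.H37D.A02, Lib.H37D.DB08a, Lib.H37D.AD2, Lib.H37D.DB01, Lib.H37D.DB10. -/

-- from Lib.H37D.BDefs
section

/-!
# H37D, section B: definitions (linear charts and transversal connection in `En d`)
-/

open Set Filter Topology
open scoped ContDiff

namespace Pool.Agent.Lib.H37D

open Pool.Agent.Lib.H37N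

noncomputable section

variable {d : ℕ}

/-- determinant of a linear map of the plane -/
def det2 (M : Pt →L[ℝ] Pt) : ℝ := (M (1, 0)).1 * (M (0, 1)).2 - (M (1, 0)).2 * (M (0, 1)).1

/-- the minor of the planar block of a linear map -/
def planar (L : En d →L[ℝ] En d) : ℝ :=
  (L ((1, 0), 0)).1.1 * (L ((0, 1), 0)).1.2 - (L ((1, 0), 0)).1.2 * (L ((0, 1), 0)).1.1

/-- the planar minor of the derivative -/
def pjac (g : En d → En d) (z : En d) : ℝ := planar (fderiv ℝ g z)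

/-- the box of the linear charts -/
def BxD (d : ℕ) : Set (En d) := Bx ×ˢ Metric.ball (0 : Wd d) 2

/-- the domain of the two affine branches -/
def VOD (d : ℕ) : Set (En d) := VO ×ˢ Metric.ball (0 : Wd d) 1

/-- `κ` linearises `g` near its fixed point in `VVd i`; coordinates `((x,y),w)`: `x` weakly stable, `y` unstable, `w` strongly
stable; `c` is the inverse of `κ`.  `sgn1`, `sgn2`: orientation in the quotient by the strong stable directions (PROOFN.md 0.2):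
`slp K s` is the map `z ↦ (K (z,0)).1 - s ((K (z,0)).2)`. -/
structure LinChartD (g : En d → En d) (i : Sy) (κ c : En d → En d) (lam mu : ℝ) (al : Wd d) : Prop where
  smooth : ContDiff ℝ ∞ κ
  inj : InjOn κ (BxD d)
  inv : ∀ v ∈ BxD d, Function.Bijective (fderiv ℝ κ v)
  isOpen : IsOpen (κ '' BxD d)
  sub : κ '' BxD d ⊆ interior (VV i) ×ˢ Metric.ball (0 : Wd d) 1
  smooth_c : ContDiff ℝ ∞ c
  left : ∀ v ∈ BxD d, c (κ v) = v
  lin : ∀ (x y : ℝ) (w : Wd d), |x| < 2 → |mu * y| < 2 → ‖w‖ < 2 →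
    g (κ ((x, y), w)) = κ ((lam * x, mu * y), mulw al w)
  lam_mem : lam ∈ Ioo (49 / 100 : ℝ) (51 / 100)
  mu_mem : mu ∈ muR i
  al_mem : ∀ k, al k ∈ Ioo (89 / 10 ^ 9 : ℝ) (101 / 10 ^ 9)
  sgn1 : ∀ v ∈ BxD d, ∀ s : Wd d →L[ℝ] Pt, ‖s‖ ≤ 1 / 10 ^ 8 → 0 < det2 (slp (fderiv ℝ κ v) s)
  sgn2 : ∀ z ∈ κ '' BxD d, ∃ (B : Pt →L[ℝ] Pt) (s : Wd d →L[ℝ] Pt), 0 < det2 B ∧ ‖s‖ ≤ 1 / 10 ^ 8 ∧
    ∀ u : En d, (fderiv ℝ c z u).1 = B (u.1 - s u.2)

/-- the transition map from the chart at `P` to the chart at `Q` -/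
def SMD (g κP cQ : En d → En d) (kS : ℕ) (uS : ℝ) (v : En d) : En d :=
  cQ (g^[kS] (κP ((v.1.1, uS + v.1.2), v.2)))

/-- a transversal connection of the two fixed points -/
structure SDataD (g κP κQ cQ : En d → En d) (kS : ℕ) (uS sS : ℝ) (wS : Wd d) : Prop where
  pos : 1 ≤ kS
  u_ne : uS ≠ 0
  u_lt : |uS| < 1
  s_lt : |sS| < 1
  w_lt : ‖wS‖ < 1
  path : ∀ᶠ v in 𝓝 (0 : En d), ∀ j ≤ kS, g^[j] (κP ((v.1.1, uS + v.1.2), v.2)) ∈ VOD d
  hit : g^[kS] (κP ((0, uS), 0)) = κQ ((sS, 0), wS)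
  smooth : ∀ᶠ v in 𝓝 (0 : En d), ContDiffAt ℝ ∞ (SMD g κP cQ kS uS) v
  S0 : SMD g κP cQ kS uS 0 = ((sS, 0), wS)
  back : ∀ᶠ v in 𝓝 (0 : En d), SMD g κP cQ kS uS v ∈ BxD d ∧
    κQ (SMD g κP cQ kS uS v) = g^[kS] (κP ((v.1.1, uS + v.1.2), v.2))
  pj_pos : 0 < pjac (SMD g κP cQ kS uS) 0
  d_pos : 0 < (fderiv ℝ (SMD g κP cQ kS uS) 0 ((0, 1), 0)).1.2

/-- the data of the two charts and of the connection -/
structure FrD (d : ℕ) where
  κ : Sy → En d → En d
  c : Sy → En d → En d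
  lam : Sy → ℝ
  mu : Sy → ℝ
  al : Sy → Wd d
  kS : ℕ
  uS : ℝ
  sS : ℝ
  wS : Wd d

/-- `F` is a frame of `g` -/
structure IsFrD (g : En d → En d) (F : FrD d) : Prop where
  chart : ∀ i, LinChartD g i (F.κ i) (F.c i) (F.lam i) (F.mu i) (F.al i)
  irr : Irrational (Real.log (F.lam Sy.P * F.mu Sy.P) / Real.log (F.lam Sy.Q * F.mu Sy.Q))
  sdata : SDataD g (F.κ Sy.P) (F.κ Sy.Q) (F.c Sy.Q) F.kS F.uS F.sS F.wS

end

end Pool.Agent.Lib.H37D
end

-- from Lib.H37N.C01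
section

/-!
# H37N C01 (size M): iterates along orbits in `Om`
-/

open Set Filter Topology Asymptotics
open scoped ContDiff

namespace Pool.Agent.Lib.H37N

variable {g : Pt → Pt}

/-- Proof: the first coordinates: `0.8 + del < xc - u0`, `xc + u0 < 0.801 - del`. -/
theorem VV_FF_disjoint : Disjoint (VV Sy.P ∪ VV Sy.Q) FF := by
  rw [Set.disjoint_left]
  intro z hz hF
  simp only [FF, mem_prod, mem_Icc] at hF
  obtain ⟨⟨h1, h2⟩, -⟩ := hF
  rcases hz with hz | hz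
  · rw [mem_VV] at hz
    obtain ⟨⟨h3, h4⟩, -⟩ := hz
    simp only [al, pw, del, xc, u0] at *
    linarith
  · rw [mem_VV] at hz
    obtain ⟨⟨h3, h4⟩, -⟩ := hz
    simp only [al, pw, del, xc, u0] at *
    linarith

theorem Om_sub : Om ⊆ VV Sy.P ∪ VV Sy.Q ∪ FF :=
  union_subset_union (union_subset_union interior_subset interior_subset) interior_subset

theorem isOpen_Om : IsOpen Om :=
  (isOpen_interior.union isOpen_interior).union isOpen_interior

/-- Proof. `Om ⊆ O` (`h.smooth`), `O` open. -/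
theorem Near.contDiffAt_Om (h : Near g) {z : Pt} (hz : z ∈ Om) : ∀ᶠ w in 𝓝 z, ContDiffAt ℝ ∞ g w := by
  obtain ⟨O, hO, hsub, hs, -, -⟩ := h.smooth
  filter_upwards [hO.mem_nhds (hsub (Om_sub hz))] with w hw
  exact hs.contDiffAt (hO.mem_nhds hw)


/-- Proof. Induction on `n` (`Function.iterate_succ'`), as `Near.iter` (B16) with `Om` instead of `VO`. -/
theorem Near.iter_Om (h : Near g) (n : ℕ) {z : Pt} (hz : ∀ j < n, g^[j] z ∈ Om) :
    ∀ᶠ w in 𝓝 z, ContDiffAt ℝ ∞ (g^[n]) w ∧ ∀ j < n, g^[j] w ∈ Om := by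
  induction n with
  | zero =>
    refine Eventually.of_forall fun w => ⟨?_, fun j hj => absurd hj (Nat.not_lt_zero j)⟩
    exact contDiffAt_id
  | succ n ih =>
    have ih' := ih fun j hj => hz j (hj.trans (Nat.lt_succ_self n))
    have hc : ContinuousAt (g^[n]) z := ih'.self_of_nhds.1.continuousAt
    have hV : ∀ᶠ w in 𝓝 z, g^[n] w ∈ Om :=
      hc.eventually_mem (isOpen_Om.mem_nhds (hz n (Nat.lt_succ_self n)))
    filter_upwards [ih', hV] with w hw hw'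
    refine ⟨?_, fun j hj => ?_⟩
    · rw [Function.iterate_succ']
      exact (h.contDiffAt_Om hw').self_of_nhds.comp w hw.1
    · rcases Nat.lt_succ_iff_lt_or_eq.1 hj with h' | rfl
      · exact hw.2 j h'
      · exact hw'


end Pool.Agent.Lib.H37N
end

-- from Lib.H37D.Bas0
section

/-!
# H37D Bas0: elementary facts on the sets `Omd`, `VOD`, `VVd`, `FFd` (proved)
-/

open Set Filter Topology Asymptotics
open scoped ContDiff

namespace Pool.Agent.Lib.H37D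

open Pool.Agent.Lib.H37N

variable {d : ℕ}

theorem mem_VVd {i : Sy} {z : En d} : z ∈ VVd d i ↔ z.1 ∈ VV i ∧ ‖z.2‖ ≤ 1 := by
  unfold VVd BW
  rw [mem_prod, mem_closedBall_zero_iff]

theorem mem_NNd {z : En d} : z ∈ NNd d ↔ z.1 ∈ NN ∧ ‖z.2‖ ≤ 1 := by
  unfold NNd BW
  rw [mem_prod, mem_closedBall_zero_iff]

theorem mem_FFd {z : En d} : z ∈ FFd d ↔ z.1 ∈ FF ∧ ‖z.2‖ ≤ 1 := by
  unfold FFd BW
  rw [mem_prod, mem_closedBall_zero_iff]

theorem VVd_sub_Dd (i : Sy) : VVd d i ⊆ Dd d := by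
  intro z hz
  cases i
  · exact Or.inl (Or.inl hz)
  · exact Or.inl (Or.inr hz)

theorem FFd_sub_Dd : FFd d ⊆ Dd d := fun _ hz => Or.inr hz

theorem VVd_FFd_disjoint : Disjoint (VVd d Sy.P ∪ VVd d Sy.Q) (FFd d) := by
  rw [Set.disjoint_left]
  rintro z (hz | hz) hF
  · exact (Set.disjoint_left.1 VV_FF_disjoint) (Or.inl hz.1) hF.1
  · exact (Set.disjoint_left.1 VV_FF_disjoint) (Or.inr hz.1) hF.1

theorem Omd_sub : Omd d ⊆ Dd d := by
  rintro z ⟨hz, hw⟩
  have hw' : z.2 ∈ BW d := Metric.ball_subset_closedBall hw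
  rcases Om_sub hz with (h | h) | h
  · exact Or.inl (Or.inl ⟨h, hw'⟩)
  · exact Or.inl (Or.inr ⟨h, hw'⟩)
  · exact Or.inr ⟨h, hw'⟩

theorem isOpen_Omd : IsOpen (Omd d) := isOpen_Om.prod Metric.isOpen_ball

theorem isOpen_VOD : IsOpen (VOD d) := (isOpen_interior.union isOpen_interior).prod Metric.isOpen_ball

theorem VOD_sub_Omd : VOD d ⊆ Omd d := by
  rintro z ⟨hz, hw⟩
  exact ⟨Or.inl hz, hw⟩

theorem VOD_sub : VOD d ⊆ VVd d Sy.P ∪ VVd d Sy.Q := by
  rintro z ⟨hz, hw⟩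
  have hw' : z.2 ∈ BW d := Metric.ball_subset_closedBall hw
  rcases hz with h | h
  · exact Or.inl ⟨interior_subset h, hw'⟩
  · exact Or.inr ⟨interior_subset h, hw'⟩

theorem interior_FFd : interior (FFd d) = interior FF ×ˢ Metric.ball 0 1 := by
  unfold FFd BW
  rw [interior_prod_eq, interior_closedBall _ (by norm_num)]

theorem interior_VVd (i : Sy) : interior (VVd d i) = interior (VV i) ×ˢ Metric.ball 0 1 := by
  unfold VVd BW
  rw [interior_prod_eq, interior_closedBall _ (by norm_num)]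

theorem interior_FFd_sub_Omd : interior (FFd d) ⊆ Omd d := by
  rw [interior_FFd]
  rintro z ⟨hz, hw⟩
  exact ⟨Or.inr hz, hw⟩

theorem interior_VVd_sub_VOD (i : Sy) : interior (VVd d i) ⊆ VOD d := by
  rw [interior_VVd]
  rintro z ⟨hz, hw⟩
  cases i
  · exact ⟨Or.inl hz, hw⟩
  · exact ⟨Or.inr hz, hw⟩

end Pool.Agent.Lib.H37D
end

-- from Lib.H37D.A02
section

/-!
# H37D A02 (size M): the cross system of a near map: existence, uniqueness, values

As `Lib/H37N/A02.lean`; for fixed `(y, w)` the function `x ↦ (g ((x, y), w)).1.1` has derivative `(fderiv ℝ g z (eX d)).1.1 ≥ 1 / pw i - e0`.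
-/

open Set Filter Topology
open scoped ContDiff

namespace Pool.Agent.Lib.H37D

open Pool.Agent.Lib.H37N

variable {d : ℕ} {g : En d → En d}

theorem mem_DX {z : Cx d} : z ∈ DX d ↔ z.1 ∈ II ∧ z.2.1 ∈ II ∧ ‖z.2.2‖ ≤ 1 := by
  unfold DX
  rw [mem_prod, mem_prod, mem_BW]

theorem VVd_sub_NNd (i : Sy) : VVd d i ⊆ NNd d := fun _ hz =>
  ⟨VV_sub_NN i hz.1, hz.2⟩

theorem da02_fd (h : NearD g) (i : Sy) {z : En d} (hz : z ∈ VVd d i) :
    HasFDerivAt g (fderiv ℝ g z) z := by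
  obtain ⟨O, hO, hsub, hc, -, -⟩ := h.smooth
  have hzO : z ∈ O := hsub (VVd_sub_Dd i hz)
  have h1 : ContDiffAt ℝ ∞ g z := hc.contDiffAt (hO.mem_nhds hzO)
  exact (h1.differentiableAt (by simp)).hasFDerivAt

theorem da02_der (h : NearD g) (i : Sy) {x y : ℝ} {w : Wd d} (hz : ((x, y), w) ∈ VVd d i) :
    HasDerivAt (fun x => (g ((x, y), w)).1.1) (fderiv ℝ g ((x, y), w) (eX d)).1.1 x := by
  have h0 : HasDerivAt (fun x : ℝ => ((x, y) : Pt)) ((1, 0) : Pt) x :=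
    (hasDerivAt_id x).prodMk (hasDerivAt_const x y)
  have h1 : HasDerivAt (fun x : ℝ => (((x, y), w) : En d)) (eX d) x :=
    h0.prodMk (hasDerivAt_const x w)
  have h2 : HasDerivAt (fun x : ℝ => g ((x, y), w)) (fderiv ℝ g ((x, y), w) (eX d)) x :=
    (da02_fd h i hz).comp_hasDerivAt x h1
  have h3 : HasDerivAt (fun x : ℝ => (g ((x, y), w)).1) (fderiv ℝ g ((x, y), w) (eX d)).1 x :=
    (ContinuousLinearMap.fst ℝ Pt (Wd d)).hasFDerivAt.comp_hasDerivAt x h2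
  exact (ContinuousLinearMap.fst ℝ ℝ ℝ).hasFDerivAt.comp_hasDerivAt x h3

theorem da02_mem {i : Sy} {x0 x1 y x : ℝ} {w : Wd d} (h0 : ((x0, y), w) ∈ VVd d i)
    (h1 : ((x1, y), w) ∈ VVd d i) (hx : x ∈ Icc x0 x1) : ((x, y), w) ∈ VVd d i :=
  ⟨a02_mem h0.1 h1.1 hx, h0.2⟩

theorem g1_mono (h : NearD g) (i : Sy) {x0 x1 y : ℝ} {w : Wd d} (h0 : ((x0, y), w) ∈ VVd d i)
    (h1 : ((x1, y), w) ∈ VVd d i) (hx : x0 ≤ x1) :
    (1 / pw i - e0) * (x1 - x0) ≤ (g ((x1, y), w)).1.1 - (g ((x0, y), w)).1.1 := by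
  have hD : ∀ x ∈ Icc x0 x1, HasDerivAt (fun x => (g ((x, y), w)).1.1)
      (fderiv ℝ g ((x, y), w) (eX d)).1.1 x :=
    fun x hx => da02_der h i (da02_mem h0 h1 hx)
  refine (convex_Icc x0 x1).mul_sub_le_image_sub_of_le_deriv (f := fun x => (g ((x, y), w)).1.1)
    (fun x hx => (hD x hx).continuousAt.continuousWithinAt)
    (fun x hx => (hD x (interior_subset hx)).differentiableAt.differentiableWithinAt) ?_
    x0 ⟨le_rfl, hx⟩ x1 ⟨hx, le_rfl⟩ hx
  intro x hx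
  rw [(hD x (interior_subset hx)).deriv]
  have := (h.close1 i ((x, y), w) (da02_mem h0 h1 (interior_subset hx))).1
  linarith [(abs_le.mp this).1]

theorem XX_spec (h : NearD g) (i : Sy) {z : Cx d} (hz : z ∈ DX d) :
    ((XX g i z, z.2.1), z.2.2) ∈ VVd d i ∧ (g ((XX g i z, z.2.1), z.2.2)).1.1 = z.1 := by
  obtain ⟨hz1, hz2, hz3⟩ := mem_DX.mp hz
  have hp := a02_pw i
  have hle : al i - del ≤ al i + pw i + del := by
    have : 0 < del := by norm_num [del]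
    linarith
  have hL : ((al i - del, z.2.1), z.2.2) ∈ VVd d i := mem_VVd.2 ⟨⟨⟨le_rfl, hle⟩, hz2⟩, hz3⟩
  have hR : ((al i + pw i + del, z.2.1), z.2.2) ∈ VVd d i := mem_VVd.2 ⟨⟨⟨hle, le_rfl⟩, hz2⟩, hz3⟩
  have hcont : ContinuousOn (fun x => (g ((x, z.2.1), z.2.2)).1.1)
      (Icc (al i - del) (al i + pw i + del)) :=
    fun x hx => (da02_der h i (da02_mem hL hR hx)).continuousAt.continuousWithinAt
  have h1 : (g ((al i - del, z.2.1), z.2.2)).1.1 ≤ z.1 := by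
    have := (h.close0 i _ hL).1
    have h2 : (Aff i (al i - del, z.2.1)).1 = -del / pw i := by
      simp only [Aff]; congr 1; ring
    rw [h2] at this
    have h3 := (abs_le.mp this).2
    have h4 : -del / pw i + e0 ≤ -del := by
      cases i <;> norm_num [del, pw, e0]
    linarith [hz1.1]
  have h1' : z.1 ≤ (g ((al i + pw i + del, z.2.1), z.2.2)).1.1 := by
    have := (h.close0 i _ hR).1
    have h2 : (Aff i (al i + pw i + del, z.2.1)).1 = (pw i + del) / pw i := by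
      simp only [Aff]; congr 1; ring
    rw [h2] at this
    have h3 := (abs_le.mp this).1
    have h4 : 1 + del ≤ (pw i + del) / pw i - e0 := by
      cases i <;> norm_num [del, pw, e0]
    linarith [hz1.2]
  obtain ⟨x, hx, hxe⟩ := intermediate_value_Icc hle hcont ⟨h1, h1'⟩
  have hm : ((x, z.2.1), z.2.2) ∈ VVd d i := da02_mem hL hR hx
  have hex : ∃ x, (x, z.2.1) ∈ VV i ∧ (g ((x, z.2.1), z.2.2)).1.1 = z.1 :=
    ⟨x, (mem_VVd.1 hm).1, hxe⟩
  have := Classical.epsilon_spec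
    (p := fun x => (x, z.2.1) ∈ VV i ∧ (g ((x, z.2.1), z.2.2)).1.1 = z.1) hex
  unfold XX
  rw [if_pos hz]
  exact ⟨mem_VVd.2 ⟨this.1, hz3⟩, this.2⟩

theorem XX_unique (h : NearD g) (i : Sy) {z : Cx d} (hz : z ∈ DX d) {x : ℝ}
    (hx : ((x, z.2.1), z.2.2) ∈ VVd d i) (hgx : (g ((x, z.2.1), z.2.2)).1.1 = z.1) :
    x = XX g i z := by
  obtain ⟨h1, h2⟩ := XX_spec h i hz
  have hi := a02_inv i
  rcases le_total x (XX g i z) with hle | hle
  · have h3 := g1_mono h i hx h1 hle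
    rw [h2, hgx, sub_self] at h3
    have : XX g i z - x ≤ 0 := by
      by_contra hc
      push Not at hc
      linarith [mul_pos hi hc]
    linarith
  · have h3 := g1_mono h i h1 hx hle
    rw [h2, hgx, sub_self] at h3
    have : x - XX g i z ≤ 0 := by
      by_contra hc
      push Not at hc
      linarith [mul_pos hi hc]
    linarith

theorem XX_val (h : NearD g) (i : Sy) {z : Cx d} (hz : z ∈ DX d) :
    |XX g i z - (al i + pw i * z.1)| ≤ e0 := by
  obtain ⟨h1, h2⟩ := XX_spec h i hz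
  have h3 := (h.close0 i _ h1).1
  rw [h2] at h3
  simp only [Aff] at h3
  have hp := a02_pw i
  have e : XX g i z - (al i + pw i * z.1) = -(pw i * (z.1 - (XX g i z - al i) / pw i)) := by
    have := hp.1.ne'
    field_simp
    ring
  rw [e, abs_neg, abs_mul, abs_of_pos hp.1]
  calc pw i * |z.1 - (XX g i z - al i) / pw i| ≤ 1 * e0 :=
        mul_le_mul (by linarith [hp.2]) h3 (abs_nonneg _) zero_le_one
    _ = e0 := one_mul _

theorem YY_val (h : NearD g) (i : Sy) {z : Cx d} (hz : z ∈ DX d) :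
    |YY g i z - (be i + qw i * z.2.1)| ≤ e0 := by
  obtain ⟨h1, h2⟩ := XX_spec h i hz
  have h3 := (h.close0 i _ h1).2
  simp only [Aff] at h3
  unfold YY
  rw [if_pos hz]
  exact h3

/-- Proof: `h.wval` at the point of `XX_spec`. -/
theorem KK_val (h : NearD g) (i : Sy) {z : Cx d} (hz : z ∈ DX d) :
    ‖KK g i z‖ ≤ aw * ‖z.2.2‖ + e0 := by
  obtain ⟨h1, h2⟩ := XX_spec h i hz
  have h3 := h.wval _ (VVd_sub_Dd i h1)
  unfold KK
  rw [if_pos hz]
  exact h3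

theorem XX_int (h : NearD g) (i : Sy) {z : Cx d} (hz : z ∈ DX d) :
    XX g i z ∈ Ioo (al i - del) (al i + pw i + del) := by
  have h1 := abs_le.mp (XX_val h i hz)
  obtain ⟨hz1, -, -⟩ := mem_DX.mp hz
  have hp := a02_pw i
  have h2 : pw i * (-del) ≤ pw i * z.1 := mul_le_mul_of_nonneg_left hz1.1 hp.1.le
  have h3 : pw i * z.1 ≤ pw i * (1 + del) := mul_le_mul_of_nonneg_left hz1.2 hp.1.le
  have h4 : pw i * del + e0 < del := by
    cases i <;> norm_num [del, pw, e0]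
  constructor <;> linarith [h1.1, h1.2]

theorem YY_int (h : NearD g) (i : Sy) {z : Cx d} (hz : z ∈ DX d) :
    YY g i z ∈ Ioo (-del) (1 + del) := by
  have h1 := abs_le.mp (YY_val h i hz)
  obtain ⟨-, hz1, -⟩ := mem_DX.mp hz
  have hp := a02_qw i
  have h2 : qw i * (-del) ≤ qw i * z.2.1 := mul_le_mul_of_nonneg_left hz1.1 hp.1.le
  have h3 : qw i * z.2.1 ≤ qw i * (1 + del) := mul_le_mul_of_nonneg_left hz1.2 hp.1.le
  have h4 : qw i * del + e0 < del := by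
    cases i <;> norm_num [del, qw, e0]
  have h5 : 0 ≤ be i ∧ be i + qw i ≤ 1 := by
    cases i <;> norm_num [be, qw]
  constructor <;> linarith [h1.1, h1.2, h5.1, h5.2]

/-- Proof: `KK_val`, `aw + e0 < 1`. -/
theorem KK_int (h : NearD g) (i : Sy) {z : Cx d} (hz : z ∈ DX d) : ‖KK g i z‖ < 1 := by
  obtain ⟨-, -, hz3⟩ := mem_DX.mp hz
  have h1 := KK_val h i hz
  have h2 : aw * ‖z.2.2‖ ≤ aw * 1 := mul_le_mul_of_nonneg_left hz3 (by norm_num [aw])
  have h3 : aw * 1 + e0 < 1 := by norm_num [aw, e0]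
  linarith

/-- A point of `VVd d i` whose image is in `NNd d` satisfies the cross equations. -/
theorem cross_of (h : NearD g) (i : Sy) {z : En d} (hz : z ∈ VVd d i) (hgz : g z ∈ NNd d) :
    XX g i ((g z).1.1, z.1.2, z.2) = z.1.1 ∧ YY g i ((g z).1.1, z.1.2, z.2) = (g z).1.2 ∧
      KK g i ((g z).1.1, z.1.2, z.2) = (g z).2 := by
  have hz0 := mem_VVd.1 hz
  have hz' : (((g z).1.1, z.1.2, z.2) : Cx d) ∈ DX d :=
    mem_DX.mpr ⟨(mem_NN.mp (mem_NNd.mp hgz).1).1, (mem_NN.mp (VV_sub_NN i hz0.1)).2, hz0.2⟩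
  have h1 : z.1.1 = XX g i ((g z).1.1, z.1.2, z.2) := XX_unique h i hz' (x := z.1.1) hz rfl
  refine ⟨h1.symm, ?_, ?_⟩
  · unfold YY
    rw [if_pos hz', ← h1]
  · unfold KK
    rw [if_pos hz', ← h1]

theorem g_cross (h : NearD g) (i : Sy) {x' y : ℝ} {w : Wd d} (hz : ((x', y, w) : Cx d) ∈ DX d) :
    g ((XX g i (x', y, w), y), w) = ((x', YY g i (x', y, w)), KK g i (x', y, w)) := by
  obtain ⟨h1, h2⟩ := XX_spec h i hz
  refine Prod.ext (Prod.ext h2 ?_) ?_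
  · unfold YY
    rw [if_pos hz]
  · unfold KK
    rw [if_pos hz]

end Pool.Agent.Lib.H37D
end

-- from Lib.H37D.DB08a
section

/-! # H37D, chunk DB08a (M, linear algebra): orientation in the quotient by the strong stable directions -/

open Set Filter Topology
open scoped ContDiff

namespace Pool.Agent.Lib.H37D

open Pool.Agent.Lib.H37N

variable {d : ℕ}

/-- PROOF. (u.1, u.2) = (u.1,0) + (0,u.2), linearity. -/
theorem slp_apply (K : En d →L[ℝ] En d) (s : Wd d →L[ℝ] Pt) (z : Pt) :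
    slp K s z = (K (z, 0)).1 - s ((K (z, 0)).2) := rfl

theorem db08a_lin (A : Pt →L[ℝ] Pt) (v : Pt) : A v = v.1 • A (1, 0) + v.2 • A (0, 1) := by
  have e : v = v.1 • ((1, 0) : Pt) + v.2 • ((0, 1) : Pt) := by simp
  conv_lhs => rw [e]
  rw [map_add, map_smul, map_smul]

/-- The determinant is multiplicative.

PROOF. Write B (1,0) = (a,b), B (0,1) = (a',b'): A (B (1,0)) = a • A (1,0) + b • A (0,1); `ring`. -/
theorem det2_comp (A B : Pt →L[ℝ] Pt) : det2 (A.comp B) = det2 A * det2 B := by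
  have h1 : (A.comp B) (1, 0) = A (B (1, 0)) := rfl
  have h2 : (A.comp B) (0, 1) = A (B (0, 1)) := rfl
  unfold det2
  rw [h1, h2, db08a_lin A (B (1, 0)), db08a_lin A (B (0, 1))]
  simp only [Prod.fst_add, Prod.smul_fst, Prod.snd_add, Prod.smul_snd, smul_eq_mul]
  ring


/-- The planar part of the inverse.

PROOF. For w: (K (0,w)).2 = 0 implies (K (0,w)).1 = 0 (hsl), so K (0,w) = 0 and w = 0 (D (K (0,w)) = (0,w)).  So w ↦ (K (0,w)).2 is an injective linear endomorphism of the finite-dimensional space Wd d,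
hence a linear equivalence e (`LinearEquiv.ofInjectiveEndo` or `LinearMap.injective_iff_surjective`); s w' := (K (0, e⁻¹ w')).1 (continuous: finite dimension, `LinearMap.mkContinuous`), ‖s w'‖ ≤ 1/10^8 ‖w'‖ by hsl, so
‖s‖ ≤ 1/10^8 (`ContinuousLinearMap.opNorm_le_bound`), and K (0,w) = (s w', w') with w' = e w.  B z := (D (z,0)).1.  For u: u = (u.1 - s u.2, 0) + (s u.2, u.2), and (s u.2, u.2) = K (0, e⁻¹ u.2), so
D (s u.2, u.2) = (0, e⁻¹ u.2) has planar part 0: (D u).1 = B (u.1 - s u.2).  For z: D (K (z,0)) = (z,0), so z = B ((K (z,0)).1 - s (K (z,0)).2) = B (slp K s z): B.comp (slp K s) = id,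
det2 B * det2 (slp K s) = 1 (`det2_comp`) and det2 (slp K s) > 0 (hsg), so det2 B > 0. -/
theorem sgn2_of {K D : En d →L[ℝ] En d} (hDK : ∀ u, D (K u) = u)
    (hsg : ∀ s : Wd d →L[ℝ] Pt, ‖s‖ ≤ 1 / 10 ^ 8 → 0 < det2 (slp K s))
    (hsl : ∀ w : Wd d, ‖(K (0, w)).1‖ ≤ 1 / 10 ^ 8 * ‖(K (0, w)).2‖) :
    ∃ (B : Pt →L[ℝ] Pt) (s : Wd d →L[ℝ] Pt), 0 < det2 B ∧ ‖s‖ ≤ 1 / 10 ^ 8 ∧
      ∀ u : En d, (D u).1 = B (u.1 - s u.2) := by
  set Kw : Wd d →L[ℝ] En d := K.comp (ContinuousLinearMap.inr ℝ Pt (Wd d)) with hKw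
  have hKwa : ∀ w, Kw w = K (0, w) := fun w => rfl
  set E : Wd d →ₗ[ℝ] Wd d := (((ContinuousLinearMap.snd ℝ Pt (Wd d)).comp Kw : Wd d →L[ℝ] Wd d) :
    Wd d →ₗ[ℝ] Wd d) with hE
  have hEa : ∀ w, E w = (K (0, w)).2 := fun w => rfl
  have hinj : Function.Injective E := by
    rw [injective_iff_map_eq_zero]
    intro w hw
    rw [hEa] at hw
    have h1 := hsl w
    rw [hw, norm_zero, mul_zero] at h1
    have h2 : K (0, w) = 0 := Prod.ext (norm_le_zero_iff.1 h1) hw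
    have h3 := hDK (0, w)
    rw [h2, map_zero] at h3
    exact (congrArg Prod.snd h3).symm
  set e : Wd d ≃ₗ[ℝ] Wd d := LinearEquiv.ofInjectiveEndo E hinj with he
  have hea : ∀ w, e w = (K (0, w)).2 := fun w => rfl
  have hes : ∀ w, (K (0, e.symm w)).2 = w := fun w => by
    rw [← hea, LinearEquiv.apply_symm_apply]
  set s0 : Wd d →ₗ[ℝ] Pt := (((ContinuousLinearMap.fst ℝ Pt (Wd d)).comp Kw : Wd d →L[ℝ] Pt) :
    Wd d →ₗ[ℝ] Pt).comp e.symm.toLinearMap with hs0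
  have hs0a : ∀ w, s0 w = (K (0, e.symm w)).1 := fun w => rfl
  have hs0b : ∀ w, ‖s0 w‖ ≤ 1 / 10 ^ 8 * ‖w‖ := fun w => by
    rw [hs0a]
    have := hsl (e.symm w)
    rwa [hes] at this
  set s : Wd d →L[ℝ] Pt := s0.mkContinuous (1 / 10 ^ 8) hs0b with hs
  have hsa : ∀ w, s w = (K (0, e.symm w)).1 := fun w => rfl
  have hsn : ‖s‖ ≤ 1 / 10 ^ 8 := s0.mkContinuous_norm_le (by norm_num) hs0b
  have hK : ∀ w, K (0, e.symm w) = (s w, w) := fun w => Prod.ext (hsa w).symm (hes w)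
  set B : Pt →L[ℝ] Pt := ((ContinuousLinearMap.fst ℝ Pt (Wd d)).comp D).comp
    (ContinuousLinearMap.inl ℝ Pt (Wd d)) with hB
  have hBa : ∀ z, B z = (D (z, 0)).1 := fun z => rfl
  have hu : ∀ u : En d, (D u).1 = B (u.1 - s u.2) := by
    intro u
    have h1 : u = (u.1 - s u.2, 0) + (s u.2, u.2) := by
      refine Prod.ext ?_ ?_
      · show u.1 = u.1 - s u.2 + s u.2
        abel
      · show u.2 = 0 + u.2
        rw [zero_add]
    have h2 : D (s u.2, u.2) = (0, e.symm u.2) := by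
      rw [← hK, hDK]
    conv_lhs => rw [h1]
    rw [map_add, h2, hBa]
    simp
  refine ⟨B, s, ?_, hsn, hu⟩
  have h1 : B.comp (slp K s) = ContinuousLinearMap.id ℝ Pt := by
    refine ContinuousLinearMap.ext fun z => ?_
    show B (slp K s z) = z
    rw [slp_apply, ← hu, hDK]
  have h2 := det2_comp B (slp K s)
  rw [h1] at h2
  have h3 : det2 (ContinuousLinearMap.id ℝ Pt) = 1 := by
    simp [det2]
  rw [h3] at h2
  have h4 := hsg s hsn
  by_contra hcon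
  have h5 : det2 B * det2 (slp K s) ≤ 0 := mul_nonpos_of_nonpos_of_nonneg (not_lt.1 hcon) h4.le
  linarith

/-- The sign conditions are open.

PROOF. Bijectivity: the continuous linear equivalences are open (`ContinuousLinearEquiv.nhds`).  Second: the set {s | ‖s‖ ≤ 1/10^8} = closedBall 0 (1/10^8) is compact
(Wd d →L Pt is finite-dimensional: `ProperSpace`/`isCompact_closedBall`), (K,s) ↦ det2 (slp K s) is continuous (evaluations of K and s are continuous: `ContinuousLinearMap.apply`, or `fun_prop`), so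
`IsCompact.eventually_forall_of_forall_eventually` (tube lemma).  Third: C is antilipschitz: ‖C u‖ ≥ c ‖u‖ with c > 0 (‖u‖ = ‖C⁻¹ (C u)‖ ≤ ‖C⁻¹‖ ‖C u‖), so for u = (0,w): ‖C (0,w)‖ ≥ c ‖w‖, and
‖C (0,w)‖ = max(‖.1‖,‖.2‖) = ‖(C (0,w)).2‖ by h2.  For ‖K - C‖ ≤ δ: ‖(K (0,w)).1‖ ≤ 1/10^9 ‖(C (0,w)).2‖ + δ ‖w‖ ≤ 1/10^9 (‖(K (0,w)).2‖ + δ‖w‖) + δ‖w‖ and ‖(K (0,w)).2‖ ≥ (c - δ)‖w‖:
choose δ with 2 δ ≤ (9/10^9) (c - δ). -/
theorem sgn_open (C : En d ≃L[ℝ] En d)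
    (h1 : ∀ s : Wd d →L[ℝ] Pt, ‖s‖ ≤ 1 / 10 ^ 8 → 0 < det2 (slp (C : En d →L[ℝ] En d) s))
    (h2 : ∀ w : Wd d, ‖(C (0, w)).1‖ ≤ 1 / 10 ^ 9 * ‖(C (0, w)).2‖) :
    ∀ᶠ K : En d →L[ℝ] En d in 𝓝 (C : En d →L[ℝ] En d), Function.Bijective K ∧
      (∀ s : Wd d →L[ℝ] Pt, ‖s‖ ≤ 1 / 10 ^ 8 → 0 < det2 (slp K s)) ∧
      ∀ w : Wd d, ‖(K (0, w)).1‖ ≤ 1 / 10 ^ 8 * ‖(K (0, w)).2‖ := by
  have hA : ∀ᶠ K : En d →L[ℝ] En d in 𝓝 (C : En d →L[ℝ] En d), Function.Bijective K := by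
    filter_upwards [ContinuousLinearEquiv.nhds C] with K hK
    obtain ⟨e', he'⟩ := hK
    rw [← he']
    exact e'.bijective
  have hB : ∀ᶠ K : En d →L[ℝ] En d in 𝓝 (C : En d →L[ℝ] En d),
      ∀ s ∈ Metric.closedBall (0 : Wd d →L[ℝ] Pt) (1 / 10 ^ 8), 0 < det2 (slp K s) := by
    have hprop : ProperSpace (Wd d →L[ℝ] Pt) := FiniteDimensional.proper ℝ _
    refine (isCompact_closedBall (0 : Wd d →L[ℝ] Pt) (1 / 10 ^ 8)).eventually_forall_of_forall_eventually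
      fun s hs => ?_
    have hev : ∀ z : Pt, Continuous fun p : (En d →L[ℝ] En d) × (Wd d →L[ℝ] Pt) => slp p.1 p.2 z := by
      intro z
      have e1 : Continuous fun p : (En d →L[ℝ] En d) × (Wd d →L[ℝ] Pt) => p.1 (z, 0) :=
        continuous_fst.clm_apply continuous_const
      exact e1.fst.sub (continuous_snd.clm_apply e1.snd)
    have hc : Continuous fun p : (En d →L[ℝ] En d) × (Wd d →L[ℝ] Pt) => det2 (slp p.1 p.2) :=
      ((hev (1, 0)).fst.mul (hev (0, 1)).snd).sub ((hev (1, 0)).snd.mul (hev (0, 1)).fst)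
    exact hc.continuousAt.eventually (lt_mem_nhds (h1 s (by simpa using hs)))
  have hCi : ∀ w : Wd d, ‖w‖ ≤ (‖(C.symm : En d →L[ℝ] En d)‖ + 1) * ‖(C (0, w)).2‖ := by
    intro w
    have e1 : ‖C.symm (C (0, w))‖ ≤ ‖(C.symm : En d →L[ℝ] En d)‖ * ‖C (0, w)‖ :=
      (C.symm : En d →L[ℝ] En d).le_opNorm _
    rw [ContinuousLinearEquiv.symm_apply_apply] at e1
    have e2 : ‖w‖ ≤ ‖((0, w) : En d)‖ := norm_snd_le ((0, w) : En d)
    have e3 : ‖C (0, w)‖ ≤ ‖(C (0, w)).2‖ := by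
      rw [Prod.norm_def]
      refine max_le ((h2 w).trans ?_) le_rfl
      exact mul_le_of_le_one_left (norm_nonneg _) (by norm_num)
    calc ‖w‖ ≤ ‖(C.symm : En d →L[ℝ] En d)‖ * ‖C (0, w)‖ := e2.trans e1
      _ ≤ (‖(C.symm : En d →L[ℝ] En d)‖ + 1) * ‖(C (0, w)).2‖ :=
        mul_le_mul (by linarith) e3 (norm_nonneg _) (by positivity)
  set a : ℝ := ‖(C.symm : En d →L[ℝ] En d)‖ + 1 with ha
  have ha0 : 0 < a := by positivity
  have hC : ∀ᶠ K : En d →L[ℝ] En d in 𝓝 (C : En d →L[ℝ] En d),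
      ∀ w : Wd d, ‖(K (0, w)).1‖ ≤ 1 / 10 ^ 8 * ‖(K (0, w)).2‖ := by
    have hδ : 0 < 1 / (10 ^ 9 * a) := by positivity
    filter_upwards [Metric.ball_mem_nhds (C : En d →L[ℝ] En d) hδ] with K hK w
    rw [mem_ball_iff_norm] at hK
    have e0 : ‖((0, w) : En d)‖ = ‖w‖ := by
      rw [Prod.norm_def, norm_zero]
      exact max_eq_right (norm_nonneg w)
    have e1 : ‖K (0, w) - C (0, w)‖ ≤ 1 / (10 ^ 9 * a) * ‖w‖ := by
      have := (K - (C : En d →L[ℝ] En d)).le_opNorm (0, w)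
      rw [e0] at this
      exact this.trans (mul_le_mul_of_nonneg_right hK.le (norm_nonneg _))
    have e2 : ‖(K (0, w)).1 - (C (0, w)).1‖ ≤ 1 / (10 ^ 9 * a) * ‖w‖ := (norm_fst_le _).trans e1
    have e3 : ‖(K (0, w)).2 - (C (0, w)).2‖ ≤ 1 / (10 ^ 9 * a) * ‖w‖ := (norm_snd_le _).trans e1
    have e4 : 1 / (10 ^ 9 * a) * ‖w‖ ≤ 1 / 10 ^ 9 * ‖(C (0, w)).2‖ := by
      have := hCi w
      rw [one_div_mul_eq_div, div_le_iff₀ (by positivity)]
      calc ‖w‖ ≤ a * ‖(C (0, w)).2‖ := this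
        _ = 1 / 10 ^ 9 * ‖(C (0, w)).2‖ * (10 ^ 9 * a) := by ring
    have e5 : ‖(K (0, w)).1‖ ≤ ‖(K (0, w)).1 - (C (0, w)).1‖ + ‖(C (0, w)).1‖ := norm_le_norm_sub_add _ _
    have e6 : ‖(C (0, w)).2‖ ≤ ‖(K (0, w)).2 - (C (0, w)).2‖ + ‖(K (0, w)).2‖ := by
      rw [norm_sub_rev]
      exact norm_le_norm_sub_add _ _
    have e7 := h2 w
    have e8 := norm_nonneg (C (0, w)).2
    have e9 := e2.trans e4
    have e10 := e3.trans e4
    clear e1 e2 e3 e4
    norm_num at e7 e9 e10 ⊢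
    linarith
  filter_upwards [hA, hB, hC] with K k1 k2 k3
  exact ⟨k1, fun s hs => k2 s (by simpa using hs), k3⟩

end Pool.Agent.Lib.H37D
end

-- from Lib.H37D.AD2
section

/-!
# H37D, section A: leaves without reference to a map
-/

open Set Filter Topology

namespace Pool.Agent.Lib.H37D

open Pool.Agent.Lib.H37N

variable {d : ℕ} {g : En d → En d}

/-- unstable leaves (the same as `(SU g).Leaf f` for every `g`) -/
structure ULeaf (f : ℝ → ℝ × Wd d) : Prop where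
  mem : ∀ x, (f x).1 ∈ II
  small : ∀ x, ‖(f x).2‖ ≤ 3 * ee
  lip : ∀ x x', ‖f x - f x'‖ ≤ 10 * ee * |x - x'|

theorem Sys.Leaf.uleaf {f : ℝ → ℝ × Wd d} (hf : (SU g).Leaf f) : ULeaf f :=
  ⟨hf.mem1, hf.small, fun x x' => by
    have h := hf.lip x x'
    rwa [Real.norm_eq_abs (x - x')] at h⟩

theorem ULeaf.leaf {f : ℝ → ℝ × Wd d} (hf : ULeaf f) (g : En d → En d) : (SU g).Leaf f where
  mem1 := hf.mem
  mem2 := fun x => by
    show (f x).2 ∈ BW d
    rw [mem_BW]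
    exact (hf.small x).trans (by norm_num [ee])
  small := hf.small
  lip := fun x x' => by rw [Real.norm_eq_abs (x - x')]; exact hf.lip x x'

theorem ULeaf.norm_le {f : ℝ → ℝ × Wd d} (hf : ULeaf f) (x : ℝ) : ‖(f x).2‖ ≤ 1 :=
  (hf.small x).trans (by norm_num [ee])

theorem Sys.Leaf.sleaf {f : ℝ × Wd d → ℝ × Wd 0} (hf : (SV g).Leaf f) : SLeaf fun h => (f h).1 where
  mem := hf.mem1
  lip := fun h h' => by
    have h1 := hf.lip h h'
    have h2 : ‖(f h - f h').1‖ ≤ ‖f h - f h'‖ := by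
      rw [Prod.norm_def]
      exact le_max_left _ _
    rw [Prod.fst_sub, Real.norm_eq_abs] at h2
    exact h2.trans h1

theorem SLeaf.leaf {s : ℝ × Wd d → ℝ} (hs : SLeaf s) (g : En d → En d) :
    (SV g).Leaf fun h => ((s h, 0) : ℝ × Wd 0) where
  mem1 := hs.mem
  mem2 := fun h => (RgW 0).zero_mem
  small := fun h => by
    show ‖(0 : Wd 0)‖ ≤ _
    rw [norm_zero]
    norm_num [ee]
  lip := fun h h' => by
    have h1 := hs.lip h h'
    rw [Prod.norm_def]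
    simp only [Prod.fst_sub, Prod.snd_sub, sub_self, norm_zero, Real.norm_eq_abs]
    exact max_le h1 (mul_nonneg (by norm_num [ee]) (norm_nonneg _))



theorem ULeaf.continuous {f : ℝ → ℝ × Wd d} (hf : ULeaf f) : Continuous f := by
  refine LipschitzWith.continuous (K := ⟨10 * ee, by norm_num [ee]⟩) ?_
  refine LipschitzWith.of_dist_le_mul fun x y => ?_
  rw [dist_eq_norm, dist_eq_norm, Real.norm_eq_abs (x - y)]
  exact hf.lip x y

theorem SLeaf.continuous {s : ℝ × Wd d → ℝ} (hs : SLeaf s) : Continuous s := by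
  refine LipschitzWith.continuous (K := ⟨10 * ee, by norm_num [ee]⟩) ?_
  refine LipschitzWith.of_dist_le_mul fun x y => ?_
  rw [dist_eq_norm, dist_eq_norm, Real.norm_eq_abs]
  exact hs.lip x y

end Pool.Agent.Lib.H37D
end

-- from Lib.H37D.DB01
section

/-! # H37D, chunk DB01 (M): elementary facts on near maps on the strips (pattern: H37N/B01.lean) -/

open Set Filter Topology
open scoped ContDiff

namespace Pool.Agent.Lib.H37D

open Pool.Agent.Lib.H37N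

variable {d : ℕ} {g : En d → En d} {i : Sy}

/-- PROOF. `interior_prod_eq`, `interior_closedBall` (radius 1 ≠ 0). -/
theorem mem_interior_VVd {z : En d} : z ∈ interior (VVd d i) ↔ z.1 ∈ interior (VV i) ∧ ‖z.2‖ < 1 := by
  unfold VVd BW
  rw [interior_prod_eq, interior_closedBall _ one_ne_zero, mem_prod, mem_ball_zero_iff]

/-- PROOF. `VV_sub_interior_K0`, `interior_prod_eq`, the unit ball is in the ball of radius 4. -/
theorem VVd_sub_interior_K0D (i : Sy) : VVd d i ⊆ interior (K0D d) := by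
  intro z hz
  rw [mem_VVd] at hz
  unfold K0D
  rw [interior_prod_eq, interior_closedBall _ (by norm_num), mem_prod, mem_ball_zero_iff]
  exact ⟨VV_sub_interior_K0 i hz.1, by linarith [hz.2]⟩

theorem not_mem_VVd_of_ne {j : Sy} (hij : i ≠ j) {z : En d} (hz : z ∈ VVd d i) : z ∉ VVd d j := by
  intro hz'
  exact not_mem_VV_of_ne hij (mem_VVd.1 hz).1 (mem_VVd.1 hz').1

/-- PROOF. `hg.smooth` gives an open O; `ContDiffOn.contDiffAt` at every w ∈ O, and O is a neighbourhood of z. -/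
theorem NearD.contDiffAt (hg : NearD g) {z : En d} (hz : z ∈ Dd d) : ∀ᶠ w in 𝓝 z, ContDiffAt ℝ ∞ g w := by
  obtain ⟨O, hO, hsub, hs, -, -⟩ := hg.smooth
  filter_upwards [hO.mem_nhds (hsub hz)] with w hw
  exact hs.contDiffAt (hO.mem_nhds hw)


theorem db01_norms (v : En d) : |v.1.1| ≤ ‖v‖ ∧ |v.1.2| ≤ ‖v‖ ∧ ‖v.2‖ ≤ ‖v‖ := by
  have h1 := norm_fst_le v
  have h2 := norm_fst_le v.1
  have h3 := norm_snd_le v.1
  rw [Real.norm_eq_abs] at h2 h3
  exact ⟨h2.trans h1, h3.trans h1, norm_snd_le v⟩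

theorem db01_split (L : En d →L[ℝ] En d) (v : En d) :
    L v = v.1.1 • L (eX d) + v.1.2 • L (eY d) + L (0, v.2) := by
  have hv : v = v.1.1 • eX d + v.1.2 • eY d + ((0 : Pt), v.2) := by
    unfold eX eY
    ext <;> simp
  conv_lhs => rw [hv]
  rw [map_add, map_add, map_smul, map_smul]

/-- PROOF. v = v.1.1 • eX + v.1.2 • eY + (0, v.2), linearity, `hg.close1`, `hg.wx`, `hg.ww`, |v.1.1|, |v.1.2|, ‖v.2‖ ≤ ‖v‖ (sup norm).  Each of the two planar components has three error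
terms, each at most e0 ‖v‖. -/
theorem NearD.deriv_apply (hg : NearD g) {z : En d} (hz : z ∈ VVd d i) (v : En d) :
    |(fderiv ℝ g z v).1.1 - v.1.1 / pw i| ≤ 3 * e0 * ‖v‖ ∧ |(fderiv ℝ g z v).1.2 - qw i * v.1.2| ≤ 3 * e0 * ‖v‖ ∧
      ‖(fderiv ℝ g z v).2‖ ≤ aw * ‖v.2‖ + 2 * e0 * ‖v‖ := by
  obtain ⟨c1, c2, c3, c4⟩ := hg.close1 i z hz
  obtain ⟨w1, w2⟩ := hg.wx z (VVd_sub_Dd i hz)
  obtain ⟨u1, u2⟩ := hg.ww z (VVd_sub_Dd i hz) v.2
  obtain ⟨n1, n2, n3⟩ := db01_norms v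
  have he : (0 : ℝ) ≤ e0 := by unfold e0; positivity
  set L := fderiv ℝ g z with hL
  have hu1 : |(L ((0 : Pt), v.2)).1.1| ≤ e0 * ‖v‖ := by
    have h2 := norm_fst_le (L ((0 : Pt), v.2)).1
    rw [Real.norm_eq_abs] at h2
    calc _ ≤ _ := h2
      _ ≤ e0 * ‖v.2‖ := u1
      _ ≤ e0 * ‖v‖ := by gcongr
  have hu2 : |(L ((0 : Pt), v.2)).1.2| ≤ e0 * ‖v‖ := by
    have h2 := norm_snd_le (L ((0 : Pt), v.2)).1
    rw [Real.norm_eq_abs] at h2
    calc _ ≤ _ := h2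
      _ ≤ e0 * ‖v.2‖ := u1
      _ ≤ e0 * ‖v‖ := by gcongr
  have hs := db01_split L v
  refine ⟨?_, ?_, ?_⟩
  · have h1 : (L v).1.1 - v.1.1 / pw i
        = v.1.1 * ((L (eX d)).1.1 - 1 / pw i) + v.1.2 * (L (eY d)).1.1 + (L ((0 : Pt), v.2)).1.1 := by
      rw [hs]
      simp only [Prod.fst_add, Prod.smul_fst, smul_eq_mul]
      ring
    rw [h1]
    calc _ ≤ |v.1.1 * ((L (eX d)).1.1 - 1 / pw i) + v.1.2 * (L (eY d)).1.1| +
          |(L ((0 : Pt), v.2)).1.1| := abs_add_le _ _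
      _ ≤ |v.1.1 * ((L (eX d)).1.1 - 1 / pw i)| + |v.1.2 * (L (eY d)).1.1| +
          |(L ((0 : Pt), v.2)).1.1| := by
          gcongr
          exact abs_add_le _ _
      _ = |v.1.1| * |(L (eX d)).1.1 - 1 / pw i| + |v.1.2| * |(L (eY d)).1.1| +
          |(L ((0 : Pt), v.2)).1.1| := by rw [abs_mul, abs_mul]
      _ ≤ ‖v‖ * e0 + ‖v‖ * e0 + e0 * ‖v‖ := by gcongr
      _ = 3 * e0 * ‖v‖ := by ring
  · have h1 : (L v).1.2 - qw i * v.1.2
        = v.1.1 * (L (eX d)).1.2 + v.1.2 * ((L (eY d)).1.2 - qw i) + (L ((0 : Pt), v.2)).1.2 := by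
      rw [hs]
      simp only [Prod.fst_add, Prod.smul_fst, Prod.snd_add, Prod.smul_snd, smul_eq_mul]
      ring
    rw [h1]
    calc _ ≤ |v.1.1 * (L (eX d)).1.2 + v.1.2 * ((L (eY d)).1.2 - qw i)| +
          |(L ((0 : Pt), v.2)).1.2| := abs_add_le _ _
      _ ≤ |v.1.1 * (L (eX d)).1.2| + |v.1.2 * ((L (eY d)).1.2 - qw i)| +
          |(L ((0 : Pt), v.2)).1.2| := by
          gcongr
          exact abs_add_le _ _
      _ = |v.1.1| * |(L (eX d)).1.2| + |v.1.2| * |(L (eY d)).1.2 - qw i| +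
          |(L ((0 : Pt), v.2)).1.2| := by rw [abs_mul, abs_mul]
      _ ≤ ‖v‖ * e0 + ‖v‖ * e0 + e0 * ‖v‖ := by gcongr
      _ = 3 * e0 * ‖v‖ := by ring
  · have h1 : (L v).2 = v.1.1 • (L (eX d)).2 + v.1.2 • (L (eY d)).2 + (L ((0 : Pt), v.2)).2 := by
      rw [hs]
      simp only [Prod.snd_add, Prod.smul_snd]
    rw [h1]
    calc _ ≤ ‖v.1.1 • (L (eX d)).2 + v.1.2 • (L (eY d)).2‖ + ‖(L ((0 : Pt), v.2)).2‖ :=
          norm_add_le _ _
      _ ≤ ‖v.1.1 • (L (eX d)).2‖ + ‖v.1.2 • (L (eY d)).2‖ + ‖(L ((0 : Pt), v.2)).2‖ := by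
          gcongr
          exact norm_add_le _ _
      _ = |v.1.1| * ‖(L (eX d)).2‖ + |v.1.2| * ‖(L (eY d)).2‖ + ‖(L ((0 : Pt), v.2)).2‖ := by
          rw [norm_smul, norm_smul, Real.norm_eq_abs, Real.norm_eq_abs]
      _ ≤ ‖v‖ * e0 + ‖v‖ * e0 + aw * ‖v.2‖ := by gcongr
      _ = aw * ‖v.2‖ + 2 * e0 * ‖v‖ := by ring

theorem db01_convex : Convex ℝ (VVd d i) :=
  ((convex_Icc _ _).prod (convex_Icc _ _)).prod (convex_closedBall _ _)

theorem db01_seg {W : Type} [NormedAddCommGroup W] [NormedSpace ℝ W] {h : En d → W}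
    {h' : En d → En d →L[ℝ] W} {C : ℝ} {z z' : En d} (hz : z ∈ VVd d i) (hz' : z' ∈ VVd d i)
    (hd : ∀ x ∈ VVd d i, HasFDerivAt h (h' x) x) (hb : ∀ x ∈ VVd d i, ‖h' x (z - z')‖ ≤ C) :
    ‖h z - h z'‖ ≤ C := by
  have hmem : ∀ t ∈ Icc (0 : ℝ) 1, z' + t • (z - z') ∈ VVd d i := fun t ht =>
    db01_convex.add_smul_sub_mem hz' hz ht
  have h1 : ∀ t ∈ Icc (0 : ℝ) 1, HasDerivWithinAt (fun t : ℝ => h (z' + t • (z - z')))
      (h' (z' + t • (z - z')) (z - z')) (Icc (0 : ℝ) 1) t := by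
    intro t ht
    have h2 : HasDerivAt (fun t : ℝ => z' + t • (z - z')) (z - z') t := by
      simpa using ((hasDerivAt_id t).smul_const (z - z')).const_add z'
    exact ((hd _ (hmem t ht)).comp_hasDerivAt t h2).hasDerivWithinAt
  have h3 := norm_image_sub_le_of_norm_deriv_le_segment_01' h1
    (fun t ht => hb _ (hmem t ⟨ht.1, ht.2.le⟩))
  simpa using h3

/-- Mean value estimates on a strip.

PROOF. VVd d i is convex.  Put φ(t) = g (z' + t • (z - z')) - (linear part): on [0,1] the point is in VVd d i, φ has the derivative fderiv g (..) (z - z') - ..., whose components are bounded by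
`NearD.deriv_apply` with v = z - z'; `norm_image_sub_le_of_norm_deriv_le_segment_01'` (or `Convex.norm_image_sub_le_of_norm_hasFDerivWithin_le` for the first two, as in H37N/B01.lean `Near.diff`). -/
theorem NearD.diff (hg : NearD g) {z z' : En d} (hz : z ∈ VVd d i) (hz' : z' ∈ VVd d i) :
    |(g z).1.1 - (g z').1.1 - (z.1.1 - z'.1.1) / pw i| ≤ 3 * e0 * ‖z - z'‖ ∧
      |(g z).1.2 - (g z').1.2 - qw i * (z.1.2 - z'.1.2)| ≤ 3 * e0 * ‖z - z'‖ ∧
      ‖(g z).2 - (g z').2‖ ≤ aw * ‖z.2 - z'.2‖ + 2 * e0 * ‖z - z'‖ := by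
  have hd : ∀ x ∈ VVd d i, HasFDerivAt g (fderiv ℝ g x) x := by
    intro x hx
    have h1 : ContDiffAt ℝ ∞ g x := (hg.contDiffAt (VVd_sub_Dd i hx)).self_of_nhds
    exact (h1.differentiableAt (by simp)).hasFDerivAt
  refine ⟨?_, ?_, ?_⟩
  · have h1 : ∀ x ∈ VVd d i, HasFDerivAt (fun z : En d => (g z).1.1 - (1 / pw i) * z.1.1)
        ((((ContinuousLinearMap.fst ℝ ℝ ℝ).comp (ContinuousLinearMap.fst ℝ Pt (Wd d))).comp
          (fderiv ℝ g x)) - (1 / pw i) •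
          ((ContinuousLinearMap.fst ℝ ℝ ℝ).comp (ContinuousLinearMap.fst ℝ Pt (Wd d)))) x := by
      intro x hx
      have ha : HasFDerivAt (fun z : En d => (g z).1.1)
          (((ContinuousLinearMap.fst ℝ ℝ ℝ).comp (ContinuousLinearMap.fst ℝ Pt (Wd d))).comp
            (fderiv ℝ g x)) x :=
        ((ContinuousLinearMap.fst ℝ ℝ ℝ).comp
          (ContinuousLinearMap.fst ℝ Pt (Wd d))).hasFDerivAt.comp x (hd x hx)
      have hb : HasFDerivAt (fun z : En d => (1 / pw i) * z.1.1)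
          ((1 / pw i) • ((ContinuousLinearMap.fst ℝ ℝ ℝ).comp
            (ContinuousLinearMap.fst ℝ Pt (Wd d)))) x :=
        ((ContinuousLinearMap.fst ℝ ℝ ℝ).comp
          (ContinuousLinearMap.fst ℝ Pt (Wd d))).hasFDerivAt.const_mul (1 / pw i)
      exact ha.sub hb
    have h5 := db01_seg hz hz' h1 (C := 3 * e0 * ‖z - z'‖) (by
      intro x hx
      have h3 := (hg.deriv_apply hx (z - z')).1
      rw [Real.norm_eq_abs]
      refine le_trans (le_of_eq ?_) h3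
      congr 1
      simp [div_eq_inv_mul])
    rw [Real.norm_eq_abs] at h5
    refine le_trans (le_of_eq ?_) h5
    congr 1
    ring
  · have h1 : ∀ x ∈ VVd d i, HasFDerivAt (fun z : En d => (g z).1.2 - (qw i) * z.1.2)
        ((((ContinuousLinearMap.snd ℝ ℝ ℝ).comp (ContinuousLinearMap.fst ℝ Pt (Wd d))).comp
          (fderiv ℝ g x)) - (qw i) •
          ((ContinuousLinearMap.snd ℝ ℝ ℝ).comp (ContinuousLinearMap.fst ℝ Pt (Wd d)))) x := by
      intro x hx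
      have ha : HasFDerivAt (fun z : En d => (g z).1.2)
          (((ContinuousLinearMap.snd ℝ ℝ ℝ).comp (ContinuousLinearMap.fst ℝ Pt (Wd d))).comp
            (fderiv ℝ g x)) x :=
        ((ContinuousLinearMap.snd ℝ ℝ ℝ).comp
          (ContinuousLinearMap.fst ℝ Pt (Wd d))).hasFDerivAt.comp x (hd x hx)
      have hb : HasFDerivAt (fun z : En d => (qw i) * z.1.2)
          ((qw i) • ((ContinuousLinearMap.snd ℝ ℝ ℝ).comp
            (ContinuousLinearMap.fst ℝ Pt (Wd d)))) x :=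
        ((ContinuousLinearMap.snd ℝ ℝ ℝ).comp
          (ContinuousLinearMap.fst ℝ Pt (Wd d))).hasFDerivAt.const_mul (qw i)
      exact ha.sub hb
    have h5 := db01_seg hz hz' h1 (C := 3 * e0 * ‖z - z'‖) (by
      intro x hx
      have h3 := (hg.deriv_apply hx (z - z')).2.1
      rw [Real.norm_eq_abs]
      exact h3)
    rw [Real.norm_eq_abs] at h5
    refine le_trans (le_of_eq ?_) h5
    congr 1
    ring
  · have h1 : ∀ x ∈ VVd d i, HasFDerivAt (fun z : En d => (g z).2)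
        ((ContinuousLinearMap.snd ℝ Pt (Wd d)).comp (fderiv ℝ g x)) x := fun x hx =>
      (ContinuousLinearMap.snd ℝ Pt (Wd d)).hasFDerivAt.comp x (hd x hx)
    have h5 := db01_seg hz hz' h1 (C := aw * ‖z.2 - z'.2‖ + 2 * e0 * ‖z - z'‖) (by
      intro x hx
      have h3 := (hg.deriv_apply hx (z - z')).2.2
      rw [Prod.snd_sub] at h3
      rw [ContinuousLinearMap.comp_apply, ContinuousLinearMap.coe_snd']
      exact h3)
    exact h5

end Pool.Agent.Lib.H37D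
end

-- from Lib.H37D.DB10
section

/-! # H37D, chunk DB10 (M): elementary properties of linear charts (port of H37N/B10.lean) -/

open Set Filter Topology
open scoped ContDiff

namespace Pool.Agent.Lib.H37D

open Pool.Agent.Lib.H37N

variable {d : ℕ} {g g' : En d → En d} {i : Sy} {κ c : En d → En d} {lam mu : ℝ} {al : Wd d}

theorem LinChartD.one_lt (h : LinChartD g i κ c lam mu al) : 1 < mu := by
  have := h.mu_mem
  cases i
  · simp only [muR, mem_Ioo] at this; linarith [this.1]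
  · simp only [muR, mem_Ioo] at this; linarith [this.1]

theorem LinChartD.lam_pos (h : LinChartD g i κ c lam mu al) : 0 < lam := by
  have := h.lam_mem.1
  linarith

theorem mem_BxD {x y : ℝ} {w : Wd d} : ((x, y), w) ∈ BxD d ↔ (|x| < 2 ∧ |y| < 2) ∧ ‖w‖ < 2 := by
  unfold BxD
  rw [mem_prod, mem_ball_zero_iff, b10_mem_Bx]

theorem isOpen_BxD : IsOpen (BxD d) :=
  (isOpen_Ioo.prod isOpen_Ioo).prod Metric.isOpen_ball

/-- PROOF. sup norm: |al k * w k| ≤ (101/10^9) |w k| (`norm_mulw`-like: `pi_norm_le_iff_of_nonneg`). -/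
theorem norm_mulw_le (h : LinChartD g i κ c lam mu al) (w : Wd d) : ‖mulw al w‖ ≤ 101 / 10 ^ 9 * ‖w‖ := by
  rw [pi_norm_le_iff_of_nonneg (by positivity)]
  intro k
  obtain ⟨h1, h2⟩ := h.al_mem k
  have h3 := norm_le_pi_norm w k
  unfold mulw
  rw [norm_mul, Real.norm_eq_abs, abs_of_pos (lt_trans (by norm_num) h1)]
  exact mul_le_mul h2.le h3 (norm_nonneg _) (by norm_num)


theorem db10_abs_lam (h : LinChartD g i κ c lam mu al) {x : ℝ} (hx : |x| < 2) : |lam * x| < 2 := by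
  have h1 := h.lam_pos
  have h2 := h.lam_mem.2
  rw [abs_mul, abs_of_pos h1]
  nlinarith [abs_nonneg x]

theorem db10_abs_mu (h : LinChartD g i κ c lam mu al) {y : ℝ} (hy : |mu * y| < 2) : |y| < 2 := by
  have h1 := h.one_lt
  rw [abs_mul, abs_of_pos (by linarith)] at hy
  nlinarith [abs_nonneg y]

theorem db10_norm_w (h : LinChartD g i κ c lam mu al) {w : Wd d} (hw : ‖w‖ < 2) : ‖mulw al w‖ < 2 := by
  have h1 := norm_mulw_le h w
  have h2 : 101 / 10 ^ 9 * ‖w‖ ≤ 1 * ‖w‖ := mul_le_mul_of_nonneg_right (by norm_num) (norm_nonneg _)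
  linarith

/-- PROOF. Only `lin` mentions g, and κ ((x,y),w) ∈ interior (VV i) × ball 0 1 for |x| < 2, |mu y| < 2 (then |y| < 2), ‖w‖ < 2. -/
theorem LinChartD.congr (h : LinChartD g i κ c lam mu al)
    (hg : ∀ z ∈ interior (VV i) ×ˢ Metric.ball (0 : Wd d) 1, g' z = g z) : LinChartD g' i κ c lam mu al := by
  refine ⟨h.smooth, h.inj, h.inv, h.isOpen, h.sub, h.smooth_c, h.left, ?_, h.lam_mem, h.mu_mem,
    h.al_mem, h.sgn1, h.sgn2⟩
  intro x y w hx hy hw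
  rw [hg _ (h.sub ⟨((x, y), w), mem_BxD.2 ⟨⟨hx, db10_abs_mu h hy⟩, hw⟩, rfl⟩)]
  exact h.lin x y w hx hy hw

/-- PROOF. ψ (g (κ v)) = ψ (κ (..)) = κ (..), because κ (..) ∈ interior (VV i) × ball 0 1 ⊆ VVd d i. -/
theorem LinChartD.of_comp (h : LinChartD g i κ c lam mu al) {ψ : En d → En d} (hψ : ∀ z ∈ VVd d i, ψ z = z) :
    LinChartD (ψ ∘ g) i κ c lam mu al := by
  refine ⟨h.smooth, h.inj, h.inv, h.isOpen, h.sub, h.smooth_c, h.left, ?_, h.lam_mem, h.mu_mem,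
    h.al_mem, h.sgn1, h.sgn2⟩
  intro x y w hx hy hw
  simp only [Function.comp_apply]
  rw [h.lin x y w hx hy hw]
  apply hψ
  have h1 := h.sub ⟨((lam * x, mu * y), mulw al w),
    mem_BxD.2 ⟨⟨db10_abs_lam h hx, hy⟩, db10_norm_w h hw⟩, rfl⟩
  exact ⟨interior_subset h1.1, Metric.ball_subset_closedBall h1.2⟩

/-- the reflection ((x,y),w) ↦ ((-x,-y),w) -/
def rfl2 (v : En d) : En d := (-v.1, v.2)

/-- the reflection as a linear map -/
def rfl2L : En d →L[ℝ] En d := (-(ContinuousLinearMap.id ℝ Pt)).prodMap (ContinuousLinearMap.id ℝ (Wd d))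


theorem rfl2_rfl2 (v : En d) : rfl2 (rfl2 v) = v := by
  unfold rfl2
  simp

theorem rfl2_mem {v : En d} (hv : v ∈ BxD d) : rfl2 v ∈ BxD d := by
  obtain ⟨⟨x, y⟩, w⟩ := v
  rw [mem_BxD] at hv
  change ((-x, -y), w) ∈ BxD d
  rw [mem_BxD, abs_neg, abs_neg]
  exact hv

theorem rfl2_fderiv_comp (h : ContDiff ℝ ∞ κ) (v : En d) :
    fderiv ℝ (fun v => κ (rfl2 v)) v = (fderiv ℝ κ (rfl2 v)).comp rfl2L := by
  have h1 : HasFDerivAt κ (fderiv ℝ κ (rfl2 v)) (rfl2 v) :=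
    (h.differentiable (by simp) (rfl2 v)).hasFDerivAt
  have h2 : HasFDerivAt (fun v : En d => rfl2 v) (rfl2L : En d →L[ℝ] En d) v :=
    (rfl2L : En d →L[ℝ] En d).hasFDerivAt
  exact (HasFDerivAt.comp v h1 h2).fderiv

theorem rfl2_comp_fderiv (h : ContDiff ℝ ∞ c) (v : En d) :
    fderiv ℝ (fun v => rfl2 (c v)) v = rfl2L.comp (fderiv ℝ c v) := by
  have h1 : HasFDerivAt c (fderiv ℝ c v) v :=
    (h.differentiable (by simp) v).hasFDerivAt
  exact ((rfl2L : En d →L[ℝ] En d).hasFDerivAt.comp v h1).fderiv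

/-- PROOF. BxD d is invariant under rfl2; fderiv (κ ∘ rfl2) v = fderiv κ (rfl2 v) ∘ J, J the linear map rfl2: slp (K ∘ J) s = - slp K s (J (z,0) = (-z,0)), det2 (-M) = det2 M; bijective composition.  sgn2:
(fderiv (rfl2 ∘ c) z u).1 = - (fderiv c z u).1 = (-B) (u.1 - s u.2). -/
theorem LinChartD.neg (h : LinChartD g i κ c lam mu al) :
    LinChartD g i (fun v => κ (rfl2 v)) (fun w => rfl2 (c w)) lam mu al := by
  have himg : (fun v => κ (rfl2 v)) '' BxD d = κ '' BxD d := by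
    ext w
    constructor
    · rintro ⟨v, hv, rfl⟩
      exact ⟨rfl2 v, rfl2_mem hv, rfl⟩
    · rintro ⟨v, hv, rfl⟩
      exact ⟨rfl2 v, rfl2_mem hv, by simp only [rfl2_rfl2]⟩
  refine ⟨h.smooth.comp (rfl2L : En d →L[ℝ] En d).contDiff, ?_, ?_, ?_, ?_,
    (rfl2L : En d →L[ℝ] En d).contDiff.comp h.smooth_c, ?_, ?_, h.lam_mem, h.mu_mem, h.al_mem, ?_, ?_⟩
  · intro v hv w hw hvw
    have h1 := h.inj (rfl2_mem hv) (rfl2_mem hw) hvw
    rw [← rfl2_rfl2 v, h1, rfl2_rfl2]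
  · intro v hv
    rw [rfl2_fderiv_comp h.smooth]
    have h1 := h.inv _ (rfl2_mem hv)
    have h2 : Function.Bijective (rfl2L : En d →L[ℝ] En d) :=
      Function.Involutive.bijective (f := (rfl2L : En d →L[ℝ] En d)) rfl2_rfl2
    exact h1.comp h2
  · rw [himg]; exact h.isOpen
  · rw [himg]; exact h.sub
  · intro v hv
    show rfl2 (c (κ (rfl2 v))) = v
    rw [h.left _ (rfl2_mem hv), rfl2_rfl2]
  · intro x y w hx hy hw
    have h1 := h.lin (-x) (-y) w (by rwa [abs_neg]) (by rwa [mul_neg, abs_neg]) hw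
    show g (κ (-(x, y), w)) = κ (-(lam * x, mu * y), mulw al w)
    rw [Prod.neg_mk, Prod.neg_mk, h1, mul_neg, mul_neg]
  · intro v hv s hs
    have h1 := h.sgn1 _ (rfl2_mem hv) s hs
    rw [rfl2_fderiv_comp h.smooth]
    have h2 : ∀ x : Pt, slp ((fderiv ℝ κ (rfl2 v)).comp rfl2L) s x = -(slp (fderiv ℝ κ (rfl2 v)) s x) := by
      intro x
      rw [← map_neg]
      rfl
    unfold det2 at h1 ⊢
    rw [h2, h2]
    simp only [Prod.fst_neg, Prod.snd_neg]
    linarith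
  · rw [himg]
    intro z hz
    obtain ⟨B, s, hB, hs, hu⟩ := h.sgn2 z hz
    refine ⟨-B, s, ?_, hs, ?_⟩
    · unfold det2 at hB ⊢
      simp only [neg_apply, Prod.fst_neg, Prod.snd_neg]
      linarith
    · intro u
      rw [rfl2_comp_fderiv h.smooth_c, neg_apply, ← hu u]
      rfl

theorem LinChartD.fix (h : LinChartD g i κ c lam mu al) : g (κ 0) = κ 0 := by
  have h1 := h.lin 0 0 0 (by simp) (by simp) (by simp)
  rw [mul_zero, mul_zero] at h1
  have h2 : mulw al (0 : Wd d) = 0 := by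
    funext k
    exact mul_zero _
  rw [h2] at h1
  exact h1

theorem LinChartD.right (h : LinChartD g i κ c lam mu al) {w : En d} (hw : w ∈ κ '' BxD d) : κ (c w) = w ∧ c w ∈ BxD d := by
  obtain ⟨v, hv, rfl⟩ := hw
  rw [h.left v hv]
  exact ⟨rfl, hv⟩

/-- PROOF. Induction on n (|mu^j y| ≤ |mu^n y| for j ≤ n because mu > 1; |lam x| < 2; ‖mulw al w‖ < 2).  The iterate of the w-part: k ↦ al k ^ n * w k. -/
theorem LinChartD.iter (h : LinChartD g i κ c lam mu al) (n : ℕ) {x y : ℝ} {w : Wd d} (hx : |x| < 2)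
    (hy : |mu ^ n * y| < 2) (hw : ‖w‖ < 2) :
    g^[n] (κ ((x, y), w)) = κ ((lam ^ n * x, mu ^ n * y), mulw (fun k => al k ^ n) w) := by
  induction n generalizing x y w with
  | zero =>
    have h1 : mulw (fun k => al k ^ 0) w = w := by
      funext k
      simp [mulw]
    rw [h1]; simp
  | succ n ih =>
    have h1 := h.one_lt
    have hmy : |mu * y| < 2 := by
      have h2 : |mu * y| ≤ |mu ^ (n + 1) * y| := by
        rw [abs_mul, abs_mul]
        apply mul_le_mul_of_nonneg_right _ (abs_nonneg _)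
        rw [abs_of_pos (by linarith), abs_of_pos (by positivity)]
        calc mu = mu ^ 1 := (pow_one mu).symm
          _ ≤ mu ^ (n + 1) := pow_le_pow_right₀ h1.le (by omega)
      linarith
    rw [Function.iterate_succ_apply, h.lin x y w hx hmy hw,
      ih (db10_abs_lam h hx) (by rw [← mul_assoc, ← pow_succ]; exact hy) (db10_norm_w h hw)]
    have h3 : mulw (fun k => al k ^ n) (mulw al w) = mulw (fun k => al k ^ (n + 1)) w := by
      funext k
      simp only [mulw]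
      rw [pow_succ, mul_assoc]
    rw [h3]
    congr 3
    · rw [pow_succ, mul_assoc]
    · rw [pow_succ, mul_assoc]

/-- PROOF. `LinChartD.iter` for j, `sub`. -/
theorem LinChartD.iter_mem (h : LinChartD g i κ c lam mu al) (n : ℕ) {x y : ℝ} {w : Wd d} (hx : |x| < 2)
    (hy : |mu ^ n * y| < 2) (hw : ‖w‖ < 2) :
    ∀ j ≤ n, g^[j] (κ ((x, y), w)) ∈ interior (VV i) ×ˢ Metric.ball (0 : Wd d) 1 := by
  intro j hj
  have h1 := h.one_lt
  have h0 := h.lam_pos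
  have hj' : |mu ^ j * y| < 2 := by
    have h2 : |mu ^ j * y| ≤ |mu ^ n * y| := by
      rw [abs_mul, abs_mul]
      apply mul_le_mul_of_nonneg_right _ (abs_nonneg _)
      rw [abs_of_pos (by positivity), abs_of_pos (by positivity)]
      exact pow_le_pow_right₀ h1.le hj
    linarith
  rw [h.iter j hx hj' hw]
  apply h.sub
  refine ⟨_, mem_BxD.2 ⟨⟨?_, hj'⟩, ?_⟩, rfl⟩
  · rw [abs_mul, abs_of_pos (by positivity)]
    have h3 : lam ^ j ≤ 1 := pow_le_one₀ h0.le (by linarith [h.lam_mem.2])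
    nlinarith [abs_nonneg x, pow_pos h0 j]
  · have h4 : ‖mulw (fun k => al k ^ j) w‖ ≤ ‖w‖ := by
      rw [pi_norm_le_iff_of_nonneg (norm_nonneg _)]
      intro k
      obtain ⟨h5, h6⟩ := h.al_mem k
      have h7 := norm_le_pi_norm w k
      have h8 : (0 : ℝ) < al k := lt_trans (by norm_num) h5
      have h9 : al k ^ j ≤ 1 := pow_le_one₀ h8.le (h6.le.trans (by norm_num))
      unfold mulw
      rw [norm_mul, Real.norm_eq_abs, abs_of_pos (pow_pos h8 j)]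
      calc al k ^ j * ‖w k‖ ≤ 1 * ‖w k‖ := mul_le_mul_of_nonneg_right h9 (norm_nonneg _)
        _ = ‖w k‖ := one_mul _
        _ ≤ ‖w‖ := h7
    linarith

end Pool.Agent.Lib.H37D
end
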