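import Pool.Agent.Lib.H1M.FF.M003
import Pool.Agent.Lib.H1M.FF.M012

/-! Merged copies (to shorten the build) of Lib.H37N.B08, Lib.H37N.MM1, Lib.H37N.MK7, Lib.H37N.T5b, Lib.H37N.B15, Lib.H37N.IPar, Lib.H37N.SC1, Lib.H37N.SA3, Lib.H37N.SA4. -/

-- from Lib.H37N.B08
section

/-! # H37N, chunk B08 (M): from a germ to a chart on the box -/

open Set Filter Topology
open scoped ContDiff

namespace Pool.Agent.Lib.H37N


theorem b08_norm {v : Pt} (hv : v ∈ Bx) : ‖v‖ < 2 := by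
  obtain ⟨h1, h2⟩ := hv
  rw [Prod.norm_def]
  exact max_lt (abs_lt.2 h1) (abs_lt.2 h2)

theorem b08_one_lt {i : Sy} {mu : ℝ} (h : mu ∈ muR i) : 1 < mu := by
  cases i
  · have := h.1
    linarith
  · have := h.1
    linarith



end Pool.Agent.Lib.H37N
end

-- from Lib.H37N.MM1
section

/-!
# H37N MM1 (size M): compactly supported diffeomorphisms of the plane
-/

open Set Filter Topology
open scoped ContDiff

namespace Pool.Agent.Lib.H37N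

/-- compactly supported `C^∞` diffeomorphisms of the plane -/
structure IsCDiff (Φ : Pt → Pt) : Prop where
  smooth : ContDiff ℝ ∞ Φ
  inv : ∃ Φi : Pt → Pt, ContDiff ℝ ∞ Φi ∧ (∀ z, Φi (Φ z) = z) ∧ ∀ z, Φ (Φi z) = z
  supp : ∃ r : ℝ, ∀ z, r ≤ ‖z‖ → Φ z = z

/-- Proof. Chain; if `‖z‖ ≥ max r r'` then `Φ z = z` and `Ψ z = z`. -/
theorem IsCDiff.comp {Φ Ψ : Pt → Pt} (h : IsCDiff Φ) (h' : IsCDiff Ψ) : IsCDiff (Φ ∘ Ψ) := by
  obtain ⟨Φi, h1, h2, h3⟩ := h.inv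
  obtain ⟨Ψi, h1', h2', h3'⟩ := h'.inv
  obtain ⟨r, hr⟩ := h.supp
  obtain ⟨r', hr'⟩ := h'.supp
  refine ⟨h.smooth.comp h'.smooth, ⟨Ψi ∘ Φi, h1'.comp h1, fun z => ?_, fun z => ?_⟩,
    ⟨max r r', fun z hz => ?_⟩⟩
  · simp only [Function.comp_apply, h2, h2']
  · simp only [Function.comp_apply, h3, h3']
  · simp only [Function.comp_apply]
    rw [hr' z (le_trans (le_max_right _ _) hz), hr z (le_trans (le_max_left _ _) hz)]






end Pool.Agent.Lib.H37N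
end

-- from Lib.H37N.MK7
section

/-!
# H37N MK7 (size M, pure): maps close to the model are near
-/

open Set Filter Topology
open scoped ContDiff

namespace Pool.Agent.Lib.H37N

theorem mk7_aff (i : Sy) (z : Pt) : HasFDerivAt (Aff i) (dg (1 / pw i) (qw i)) z := by
  have h1 : HasFDerivAt (fun z : Pt => (z.1 - al i) / pw i) ((1 / pw i) • ContinuousLinearMap.fst ℝ ℝ ℝ) z := by
    have h := ((hasFDerivAt_fst (𝕜 := ℝ) (p := z)).sub_const (al i)).const_mul (1 / pw i)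
    refine h.congr_of_eventuallyEq (Eventually.of_forall fun y => ?_)
    simp only
    ring
  have h2 : HasFDerivAt (fun z : Pt => be i + qw i * z.2) ((qw i) • ContinuousLinearMap.snd ℝ ℝ ℝ) z := by
    exact ((hasFDerivAt_snd (𝕜 := ℝ) (p := z)).const_mul (qw i)).const_add (be i)
  exact h1.prodMk h2

theorem mk7_fold (z : Pt) : HasFDerivAt Fold
    ((cc • ContinuousLinearMap.snd ℝ ℝ ℝ - (2 * dd * (z.1 - xc)) • ContinuousLinearMap.fst ℝ ℝ ℝ).prod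
      (-ContinuousLinearMap.fst ℝ ℝ ℝ)) z := by
  have hx : HasFDerivAt (fun z : Pt => z.1 - xc) (ContinuousLinearMap.fst ℝ ℝ ℝ) z :=
    (hasFDerivAt_fst (𝕜 := ℝ) (p := z)).sub_const xc
  have h1 : HasFDerivAt (fun z : Pt => 1 / 2 + cc * (z.2 - 1 / 2) - dd * (z.1 - xc) ^ 2)
      (cc • ContinuousLinearMap.snd ℝ ℝ ℝ - (2 * dd * (z.1 - xc)) • ContinuousLinearMap.fst ℝ ℝ ℝ) z := by
    have ha : HasFDerivAt (fun z : Pt => 1 / 2 + cc * (z.2 - 1 / 2)) (cc • ContinuousLinearMap.snd ℝ ℝ ℝ) z :=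
      (((hasFDerivAt_snd (𝕜 := ℝ) (p := z)).sub_const (1 / 2)).const_mul cc).const_add (1 / 2)
    have hb : HasFDerivAt (fun z : Pt => dd * (z.1 - xc) ^ 2)
        ((2 * dd * (z.1 - xc)) • ContinuousLinearMap.fst ℝ ℝ ℝ) z := by
      have h := (hx.mul hx).const_mul dd
      have e : dd • ((z.1 - xc) • ContinuousLinearMap.fst ℝ ℝ ℝ + (z.1 - xc) • ContinuousLinearMap.fst ℝ ℝ ℝ) =
          (2 * dd * (z.1 - xc)) • ContinuousLinearMap.fst ℝ ℝ ℝ := by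
        rw [← add_smul, smul_smul]
        congr 1
        ring
      rw [e] at h
      refine h.congr_of_eventuallyEq (Eventually.of_forall fun y => ?_)
      show dd * (y.1 - xc) ^ 2 = dd * ((y.1 - xc) * (y.1 - xc))
      ring
    exact ha.sub hb
  have h2 : HasFDerivAt (fun z : Pt => yc - (z.1 - xc)) (-ContinuousLinearMap.fst ℝ ℝ ℝ) z :=
    hx.const_sub yc
  exact h1.prodMk h2





end Pool.Agent.Lib.H37N
end

-- from Lib.H37N.T5b
section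

/-! # H37N, chunk T5b (S/M): O-calculus: vanishing jets -/

open Set Filter Topology Asymptotics
open scoped ContDiff

namespace Pool.Agent.Lib.H37N

variable {P E W : Type} [NormedAddCommGroup P] [NormedSpace ℝ P] [FiniteDimensional ℝ P]
  [NormedAddCommGroup E] [NormedSpace ℝ E] [FiniteDimensional ℝ E]
  [NormedAddCommGroup W] [NormedSpace ℝ W] [CompleteSpace W]






theorem t5b_it (j : ℕ) : ∀ {E W : Type} [NormedAddCommGroup E] [NormedSpace ℝ E] [FiniteDimensional ℝ E]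
    [NormedAddCommGroup W] [NormedSpace ℝ W] [CompleteSpace W] {f : E → W}, ContDiff ℝ ∞ f → ∀ (x₀ : E) (k : ℕ),
    j ≤ k + 1 → (f =O[𝓝 x₀] fun x => ‖x - x₀‖ ^ (k + 1)) →
    (fun x => iteratedFDeriv ℝ j f x) =O[𝓝 x₀] fun x => ‖x - x₀‖ ^ (k + 1 - j) := by
  induction j with
  | zero =>
    intro E W _ _ _ _ _ _ f hf x₀ k hj h
    rw [← isBigO_norm_left]
    simp only [norm_iteratedFDeriv_zero, Nat.sub_zero]
    exact h.norm_left
  | succ j ih =>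
    intro E W _ _ _ _ _ _ f hf x₀ k hj h
    have hf' : ContDiff ℝ ∞ (fderiv ℝ f) := hf.fderiv_right (m := ∞) (by simp)
    have h1 := isBigO_fderiv hf x₀ k h
    rw [← isBigO_norm_left]
    have h2 : (fun x => ‖iteratedFDeriv ℝ (j + 1) f x‖) =
        fun x => ‖iteratedFDeriv ℝ j (fderiv ℝ f) x‖ := by
      funext x
      rw [norm_iteratedFDeriv_fderiv]
    rw [h2]
    rcases k with _ | k
    · obtain rfl : j = 0 := by omega
      simp only [norm_iteratedFDeriv_zero]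
      simpa using h1.norm_left
    · have h3 := ih hf' x₀ k (by omega) h1
      have h4 : k + 1 + 1 - (j + 1) = k + 1 - j := by omega
      rw [h4]
      exact h3.norm_left

/-- PROOF. Induction on j for all f, W and k: j = 0 clear (`norm_iteratedFDeriv_zero`); j+1: ‖iteratedFDeriv (j+1) f x‖ = ‖iteratedFDeriv j (fderiv f) x‖
(`norm_iteratedFDeriv_fderiv`) and fderiv f =O(..^k) = O(..^((k-1)+1)) by `isBigO_fderiv`. -/
theorem isBigO_iteratedFDeriv {f : E → W} (hf : ContDiff ℝ ∞ f) (x₀ : E) (k j : ℕ) (hj : j ≤ k + 1)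
    (h : f =O[𝓝 x₀] fun x => ‖x - x₀‖ ^ (k + 1)) :
    (fun x => iteratedFDeriv ℝ j f x) =O[𝓝 x₀] fun x => ‖x - x₀‖ ^ (k + 1 - j) :=
  t5b_it j hf x₀ k hj h

end Pool.Agent.Lib.H37N
end

-- from Lib.H37N.B15
section

/-! # H37N, chunk B15 (S/M): orbits converging to the fixed point lie on the axes of the chart -/

open Set Filter Topology
open scoped ContDiff

namespace Pool.Agent.Lib.H37N

variable {g : Pt → Pt} {i : Sy} {κ c : Pt → Pt} {lam mu : ℝ}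

theorem b15_zero : (0 : Pt) ∈ Bx := by
  simp [Bx]

theorem b15_mem {x y : ℝ} (hx : |x| < 2) (hy : |y| < 2) : ((x, y) : Pt) ∈ Bx := by
  rw [abs_lt] at hx hy
  exact ⟨hx, hy⟩

theorem b15_mu (h : mu ∈ muR i) : 1 < mu ∧ mu < 10 := by
  cases i <;> simp only [muR, mem_Ioo] at h <;> constructor <;> linarith [h.1, h.2]

theorem b15_lim (h : LinChart g i κ c lam mu) {w : ℕ → Pt}
    (hlim : Tendsto w atTop (𝓝 (κ 0))) : Tendsto (fun n => c (w n)) atTop (𝓝 0) := by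
  have h1 : Tendsto (fun n => c (w n)) atTop (𝓝 (c (κ 0))) :=
    (h.smooth_c.continuous.tendsto (κ 0)).comp hlim
  rw [h.left 0 b15_zero] at h1
  exact h1

theorem b15_ev (h : LinChart g i κ c lam mu) {w : ℕ → Pt}
    (hlim : Tendsto w atTop (𝓝 (κ 0))) : ∃ N : ℕ, ∀ n ≥ N, κ (c (w n)) = w n ∧ c (w n) ∈ Bx ∧
      |(c (w n)).1| < 1 / 10 ∧ |(c (w n)).2| < 1 / 10 := by
  have h1 : ∀ᶠ n in atTop, w n ∈ κ '' Bx :=
    hlim.eventually (h.isOpen.mem_nhds ⟨0, b15_zero, rfl⟩)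
  have h2 : ∀ᶠ n in atTop, c (w n) ∈ Metric.ball (0 : Pt) (1 / 10) :=
    (b15_lim h hlim).eventually (Metric.ball_mem_nhds _ (by norm_num))
  obtain ⟨N, hN⟩ := eventually_atTop.1 (h1.and h2)
  refine ⟨N, fun n hn => ?_⟩
  obtain ⟨h3, h4⟩ := hN n hn
  obtain ⟨h5, h6⟩ := h.right h3
  rw [mem_ball_zero_iff, Prod.norm_def, max_lt_iff, Real.norm_eq_abs, Real.norm_eq_abs] at h4
  exact ⟨h5, h6, h4.1, h4.2⟩

theorem b15_step (h : LinChart g i κ c lam mu) {w w' : Pt} (e : κ (c w) = w) (e' : κ (c w') = w')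
    (hB' : c w' ∈ Bx) (h1 : |(c w).1| < 1 / 10) (h2 : |(c w).2| < 1 / 10) (hw : g w = w') :
    c w' = (lam * (c w).1, mu * (c w).2) := by
  obtain ⟨m1, m2⟩ := b15_mu h.mu_mem
  have hl := h.lam_mem
  have a1 : |lam * (c w).1| < 2 := by
    rw [abs_mul, abs_of_pos (by linarith [hl.1])]
    nlinarith [abs_nonneg (c w).1, hl.1, hl.2]
  have a2 : |mu * (c w).2| < 2 := by
    rw [abs_mul, abs_of_pos (by linarith)]
    nlinarith [abs_nonneg (c w).2]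
  have h3 := h.lin (c w).1 (c w).2 (by linarith) a2
  have h4 : κ ((c w).1, (c w).2) = κ (c w) := rfl
  rw [h4, e, hw, ← e'] at h3
  exact h.inj hB' (b15_mem a1 a2) h3

theorem b15_mono {u : ℕ → ℝ} {N : ℕ} (h : ∀ n ≥ N, |u n| ≤ |u (n + 1)|)
    (hlim : Tendsto u atTop (𝓝 0)) : ∀ n ≥ N, u n = 0 := by
  intro n hn
  have h1 : Monotone fun k => |u (n + k)| := by
    refine monotone_nat_of_le_succ fun k => ?_
    exact h (n + k) (by omega)
  have h2 : Tendsto (fun k => |u (n + k)|) atTop (𝓝 0) := by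
    have h3 : Tendsto (fun k => u (n + k)) atTop (𝓝 0) := by
      have := hlim.comp (tendsto_add_atTop_nat n)
      refine this.congr fun k => ?_
      simp only [Function.comp_apply]
      congr 1
      omega
    have := h3.abs
    rwa [abs_zero] at this
  have h4 := h1.ge_of_tendsto h2 0
  simp only [add_zero] at h4
  exact abs_eq_zero.1 (le_antisymm h4 (abs_nonneg _))

/-- PROOF. κ '' Bx is an open neighbourhood of κ 0, so w n ∈ κ '' Bx for large n, v n := c (w n) → c (κ 0) = 0.  Take n₀ with ‖v n‖ < 1/10 for n ≥ n₀.  For n ≥ n₀: w (n+1) = g (κ (v n)) =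
κ (lam x_n, mu y_n) (`right`, `lin`; |mu y_n| < 2 because mu < 10), so v (n+1) = (lam x_n, mu y_n) (injectivity).  |y_(n+1)| = mu |y_n| ≥ |y_n| and y_n → 0, so y_n = 0 for n ≥ n₀
(`Monotone.ge_of_tendsto`).  w n = κ (x_n, 0), |x_n| < 1. -/
theorem LinChart.fwd (h : LinChart g i κ c lam mu) {w : ℕ → Pt} (hw : ∀ n, g (w n) = w (n + 1))
    (hlim : Tendsto w atTop (𝓝 (κ 0))) : ∀ᶠ n in atTop, ∃ x : ℝ, |x| < 1 ∧ w n = κ (x, 0) := by
  obtain ⟨N, hN⟩ := b15_ev h hlim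
  obtain ⟨m1, m2⟩ := b15_mu h.mu_mem
  have hs : ∀ n ≥ N, |(c (w n)).2| ≤ |(c (w (n + 1))).2| := by
    intro n hn
    obtain ⟨e, -, h1, h2⟩ := hN n hn
    obtain ⟨e', hB', -, -⟩ := hN (n + 1) (by omega)
    rw [b15_step h e e' hB' h1 h2 (hw n)]
    simp only [abs_mul, abs_of_pos (show (0 : ℝ) < mu by linarith)]
    nlinarith [abs_nonneg (c (w n)).2]
  have hl : Tendsto (fun n => (c (w n)).2) atTop (𝓝 0) := by
    have := (continuous_snd.tendsto (0 : Pt)).comp (b15_lim h hlim)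
    exact this
  have h0 := b15_mono hs hl
  refine eventually_atTop.2 ⟨N, fun n hn => ?_⟩
  obtain ⟨e, -, h1, -⟩ := hN n hn
  refine ⟨(c (w n)).1, by linarith, ?_⟩
  rw [← h0 n hn]
  exact e.symm

/-- PROOF. The same: v n = (lam x_(n+1), mu y_(n+1)) for large n; |x_(n+1)| = |x_n| / lam ≥ |x_n| and x_n → 0, so x_n = 0. -/
theorem LinChart.bwd (h : LinChart g i κ c lam mu) {w : ℕ → Pt} (hw : ∀ n, g (w (n + 1)) = w n)
    (hlim : Tendsto w atTop (𝓝 (κ 0))) : ∀ᶠ n in atTop, ∃ y : ℝ, |y| < 1 ∧ w n = κ (0, y) := by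
  obtain ⟨N, hN⟩ := b15_ev h hlim
  have hl0 := h.lam_mem
  have hs : ∀ n ≥ N, |(c (w n)).1| ≤ |(c (w (n + 1))).1| := by
    intro n hn
    obtain ⟨e, hB, -, -⟩ := hN n hn
    obtain ⟨e', -, h1, h2⟩ := hN (n + 1) (by omega)
    rw [b15_step h e' e hB h1 h2 (hw n)]
    simp only [abs_mul, abs_of_pos (show (0 : ℝ) < lam by linarith [hl0.1])]
    nlinarith [abs_nonneg (c (w (n + 1))).1, hl0.2]
  have hl : Tendsto (fun n => (c (w n)).1) atTop (𝓝 0) := by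
    have := (continuous_fst.tendsto (0 : Pt)).comp (b15_lim h hlim)
    exact this
  have h0 := b15_mono hs hl
  refine eventually_atTop.2 ⟨N, fun n hn => ?_⟩
  obtain ⟨e, -, -, h1⟩ := hN n hn
  refine ⟨(c (w n)).2, by linarith, ?_⟩
  rw [← h0 n hn]
  exact e.symm

end Pool.Agent.Lib.H37N
end

-- from Lib.H37N.IPar
section

/-!
# H37N, section I: definitions (rates, pass functions, rescaled functions of Stage I)

The parameter `p : Par` is `(s, e1, e2, x0, e4, β)`: s = E^(-1/m), e1 = λ_P^n, e2 = μ_Q^(-ν)/d_S, x0 = λ_Q^ν s_S,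
e4 = μ_P^n λ_Q^ν, β = B - B₀.
-/

open Set Filter Topology Asymptotics
open scoped ContDiff

namespace Pool.Agent.Lib.H37N

noncomputable section

/-- the rates of the two charts -/
structure Rates (lP mP lQ mQ : ℝ) : Prop where
  lP_pos : 0 < lP
  lP_lt : lP < 1
  mP_gt : 1 < mP
  lQ_pos : 0 < lQ
  lQ_lt : lQ < 1
  mQ_gt : 1 < mQ
  prodP : lP * mP < 1
  prodQ : 1 < lQ * mQ
  R1 : Real.log lQ + Real.log (lQ * mQ) / (-Real.log (lP * mP)) * Real.log mP < 0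
  irr : Irrational (Real.log (lP * mP) / Real.log (lQ * mQ))

/-- the functions which describe the transition `S` from the chart at `P` to the chart at `Q` (I.0) -/
structure PassFn (S : Pt → Pt) (dS sS : ℝ) (Th : ℝ → ℝ) (W : Pt → ℝ) (Y1 : ℝ → ℝ) (Y2 : Pt → ℝ) :
    Prop where
  smooth_Th : ContDiff ℝ ∞ Th
  smooth_W : ContDiff ℝ ∞ W
  smooth_Y1 : ContDiff ℝ ∞ Y1
  smooth_Y2 : ContDiff ℝ ∞ Y2
  Th0 : Th 0 = 0
  W0 : W 0 = 1
  Y10 : Y1 0 = jac S 0 / dS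
  eq1 : ∀ᶠ v : Pt in 𝓝 0, (S (v.1, Th v.1 + v.2)).1 = sS + v.1 * Y1 v.1 + v.2 * Y2 v
  eq2 : ∀ᶠ v : Pt in 𝓝 0, (S (v.1, Th v.1 + v.2)).2 = dS * v.2 * W v




/-- parameters `(s, e1, e2, x0, e4, β)` -/
abbrev Par := ℝ × ℝ × ℝ × ℝ × ℝ × ℝ


/-- parameters of the two families of perturbations -/
abbrev PE (m : ℕ) := ℝ × ℝ × ℝ × (Fin m → ℝ)

/-- the ingredients of Stage I: `a = a_1`, `b = b_2`, `a2 = a_2`; `T_1(0,t) = (a + t Ah t, t^(m+1) Yh t)`, `T_2 = (XX, YY)`,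
`YY (0,t) = t^(m+1) Yk t` -/
structure Ing (m : ℕ) where
  a : ℝ
  b : ℝ
  a2 : ℝ
  B0 : ℝ
  uS : ℝ
  Th : ℝ → ℝ
  W : Pt → ℝ
  Y1 : ℝ → ℝ
  Y2 : Pt → ℝ
  U0 : Pt → ℝ
  Ah : ℝ → ℝ
  Yh : ℝ → ℝ
  XX : Pt → ℝ
  YY : Pt → ℝ
  Yk : ℝ → ℝ
  N : Pt → ℝ
  Mh : ℝ × ℝ × ℝ → ℝ
  /-- the path of AS1 -/
  G : Fin m → ℝ → ℝ
  /-- divided differences of `HB`, `RB`, `ZB` -/
  DH : Par × (ℝ × ℝ × ℝ) × ℝ → ℝ
  DR : Par × (ℝ × ℝ × ℝ) × ℝ → ℝ
  DZ : Par × (ℝ × ℝ × ℝ) × ℝ → ℝ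

namespace Ing

variable {m : ℕ} (I : Ing m)

/-- η as a function of (e1, e2, X, U) -/
def H (e1 e2 X U : ℝ) : ℝ := (U + I.b) * I.W (e1 * X, e2 * (U + I.b)) - I.b

/-- Ξ as a function of (e1, e2, e4, β, X, U) -/
def Xi (e1 e2 e4 β X U : ℝ) : ℝ :=
  (I.B0 + β) * X * I.Y1 (e1 * X) + e4 * (U + I.b) * I.Y2 (e1 * X, e2 * (U + I.b))

/-- Ξ as a function of (p, (X, U, η)) -/
def XiB (q : Par × (ℝ × ℝ × ℝ)) : ℝ :=
  I.Xi q.1.2.1 q.1.2.2.1 q.1.2.2.2.2.1 q.1.2.2.2.2.2 q.2.1 q.2.2.1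

/-- η as a function of (p, (X, U, η)) -/
def HB (q : Par × (ℝ × ℝ × ℝ)) : ℝ := I.H q.1.2.1 q.1.2.2.1 q.2.1 q.2.2.1

/-- Ξ Mh(x0, η, s^m Ξ) as a function of (p, (X, U, η)) -/
def RB (q : Par × (ℝ × ℝ × ℝ)) : ℝ :=
  I.XiB q * I.Mh (q.1.2.2.2.1, q.2.2.2, q.1.1 ^ m * I.XiB q)

/-- X_2 = XX(x0 + s^m Ξ, η) as a function of (p, (X, U, η)) -/
def ZB (q : Par × (ℝ × ℝ × ℝ)) : ℝ := I.XX (q.1.2.2.2.1 + q.1.1 ^ m * I.XiB q, q.2.2.2)

/-- the base point (X, U, η) = (a_1, U_0(e1,e2), 0) -/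
def base (p : Par) : ℝ × ℝ × ℝ := (I.a, I.U0 (p.2.1, p.2.2.1), 0)

/-- χ = (X_1 - a_1)/s -/
def chi (q : Par × ℝ × ℝ) : ℝ := q.2.2 * I.Ah (q.1.1 * q.2.2)

/-- V as a function of (p, z, x) -/
def V (q : Par × ℝ × ℝ) : ℝ :=
  q.2.2 ^ (m + 1) * I.Yh (q.1.1 * q.2.2) + ∑ j : Fin m, I.G j q.2.1 * I.chi q ^ ((j : ℕ) + 1)

/-- V_2 = η_2/s as a function of (p, z, x) -/
def V2 (q : Par × ℝ × ℝ) : ℝ := I.DH (q.1, (I.chi q, I.V q, 0), q.1.1)

/-- the direction (χ, V, V_2) -/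
def vv (q : Par × ℝ × ℝ) : ℝ × ℝ × ℝ := (I.chi q, I.V q, I.V2 q)

/-- ζ = (X_2 - X_2^0)/s -/
def zt (q : Par × ℝ × ℝ) : ℝ := I.DZ (q.1, I.vv q, q.1.1)

/-- the rescaled K -/
def K (q : Par × ℝ × ℝ) : ℝ :=
  I.V2 q ^ (m + 1) * I.Yk (q.1.1 * I.V2 q) + I.DR (q.1, I.vv q, q.1.1)

/-- the first family of perturbations; the parameter is (μ_P^(-n), e1, E^(-1)(b+U_0), s^(m-j) g_j) -/
def Ph1 (q : PE m × ℝ) : ℝ :=
  q.1.1 * (I.uS + I.Th (q.1.2.1 * q.2)) + q.1.2.2.1 + ∑ j : Fin m, q.1.2.2.2 j * (q.2 - I.a) ^ ((j : ℕ) + 1)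

/-- the second family of perturbations; the parameter is (x0, s^m R(base), X_2^0 - a_2, s^(m-j) k_j) -/
def Ph2 (q : PE m × ℝ) : ℝ :=
  -I.N (q.1.1, q.2) - q.1.2.1 - ∑ j : Fin m, q.1.2.2.2 j * (q.2 - I.a2 - q.1.2.2.1) ^ ((j : ℕ) + 1)

/-- parameter of the first family -/
def par1 (mi : ℝ) (p : Par) (z : ℝ) : PE m :=
  (mi, p.2.1, p.1 ^ m * (I.b + I.U0 (p.2.1, p.2.2.1)), fun j => p.1 ^ (m - (j : ℕ)) * I.G j z)

/-- parameter of the second family -/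
def par2 (p : Par) (k : Fin m → ℝ) : PE m :=
  (p.2.2.2.1, p.1 ^ m * I.RB (p, I.base p), I.ZB (p, I.base p) - I.a2, fun j => p.1 ^ (m - (j : ℕ)) * k j)

/-- X_1 as a function of (p, z, x) -/
def X1 (q : Par × ℝ × ℝ) : ℝ := I.a + q.1.1 * I.chi q

/-- U as a function of (p, z, x) -/
def U (q : Par × ℝ × ℝ) : ℝ := I.U0 (q.1.2.1, q.1.2.2.1) + q.1.1 * I.V q

/-- Ξ as a function of (p, z, x) -/
def XiQ (q : Par × ℝ × ℝ) : ℝ :=
  I.Xi q.1.2.1 q.1.2.2.1 q.1.2.2.2.2.1 q.1.2.2.2.2.2 (I.X1 q) (I.U q)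

/-- the conditions (at (p,z,x)) under which the formulas for the curve hold -/
structure Good (S T1 T2 : Pt → Pt) (dS sS : ℝ) (N : Set Pt) (q : Par × ℝ × ℝ) : Prop where
  gT1 : T1 (0, q.1.1 * q.2.2) =
    (I.a + (q.1.1 * q.2.2) * I.Ah (q.1.1 * q.2.2), (q.1.1 * q.2.2) ^ (m + 1) * I.Yh (q.1.1 * q.2.2))
  gU0 : (I.U0 (q.1.2.1, q.1.2.2.1) + I.b) * I.W (q.1.2.1 * I.a, q.1.2.2.1 * (I.U0 (q.1.2.1, q.1.2.2.1) + I.b)) = I.b
  g1 : (S (q.1.2.1 * I.X1 q, I.Th (q.1.2.1 * I.X1 q) + q.1.2.2.1 * (I.U q + I.b))).1 =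
    sS + (q.1.2.1 * I.X1 q) * I.Y1 (q.1.2.1 * I.X1 q) +
      (q.1.2.2.1 * (I.U q + I.b)) * I.Y2 (q.1.2.1 * I.X1 q, q.1.2.2.1 * (I.U q + I.b))
  g2 : (S (q.1.2.1 * I.X1 q, I.Th (q.1.2.1 * I.X1 q) + q.1.2.2.1 * (I.U q + I.b))).2 =
    dS * (q.1.2.2.1 * (I.U q + I.b)) * I.W (q.1.2.1 * I.X1 q, q.1.2.2.1 * (I.U q + I.b))
  gM : I.YY (q.1.2.2.2.1 + q.1.1 ^ m * I.XiQ q, q.1.1 * I.V2 q) -
      I.N (q.1.2.2.2.1, I.XX (q.1.2.2.2.1 + q.1.1 ^ m * I.XiQ q, q.1.1 * I.V2 q)) =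
    I.YY (0, q.1.1 * I.V2 q) + (q.1.1 ^ m * I.XiQ q) * I.Mh (q.1.2.2.2.1, q.1.1 * I.V2 q, q.1.1 ^ m * I.XiQ q)
  gYk : I.YY (0, q.1.1 * I.V2 q) = (q.1.1 * I.V2 q) ^ (m + 1) * I.Yk (q.1.1 * I.V2 q)
  gT2 : T2 (q.1.2.2.2.1 + q.1.1 ^ m * I.XiQ q, q.1.1 * I.V2 q) =
    (I.XX (q.1.2.2.2.1 + q.1.1 ^ m * I.XiQ q, q.1.1 * I.V2 q), I.YY (q.1.2.2.2.1 + q.1.1 ^ m * I.XiQ q, q.1.1 * I.V2 q))
  gN1 : (q.1.2.1 * I.X1 q, I.Th (q.1.2.1 * I.X1 q) + q.1.2.2.1 * (I.U q + I.b)) ∈ N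
  gN2 : (q.1.2.2.2.1 + q.1.1 ^ m * I.XiQ q, q.1.1 * I.V2 q) ∈ N
  gN3 : (I.ZB (q.1, I.base q.1) + q.1.1 * I.zt q - I.a2, 0) ∈ N

/-- the properties of the ingredients -/
structure OK (S T1 T2 : Pt → Pt) (dS sS al1 al2 ka1 ka2 gm2 el : ℝ) : Prop where
  hm : 1 ≤ m
  pf : PassFn S dS sS I.Th I.W I.Y1 I.Y2
  smooth_U0 : ContDiff ℝ ∞ I.U0
  U00 : I.U0 0 = 0
  eqU0 : ∀ᶠ e : Pt in 𝓝 0, (I.U0 e + I.b) * I.W (e.1 * I.a, e.2 * (I.U0 e + I.b)) = I.b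
  smooth_Ah : ContDiff ℝ ∞ I.Ah
  smooth_Yh : ContDiff ℝ ∞ I.Yh
  Ah0 : I.Ah 0 = al1
  Yh0 : I.Yh 0 = ka1
  eqT1 : ∀ᶠ t : ℝ in 𝓝 0, T1 (0, t) = (I.a + t * I.Ah t, t ^ (m + 1) * I.Yh t)
  smooth_XX : ContDiff ℝ ∞ I.XX
  smooth_YY : ContDiff ℝ ∞ I.YY
  smooth_Yk : ContDiff ℝ ∞ I.Yk
  XX0 : I.XX 0 = I.a2
  XXt : HasDerivAt (fun t => I.XX (0, t)) al2 0
  Yk0 : I.Yk 0 = ka2
  eqYk : ∀ᶠ t : ℝ in 𝓝 0, I.YY (0, t) = t ^ (m + 1) * I.Yk t
  eqT2 : ∀ᶠ v : Pt in 𝓝 0, T2 v = (I.XX v, I.YY v)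
  smooth_N : ContDiff ℝ ∞ I.N
  N0 : ∀ X, I.N (0, X) = 0
  smooth_Mh : ContDiff ℝ ∞ I.Mh
  Mh0 : I.Mh 0 = gm2
  eqM : ∀ᶠ r : ℝ × ℝ × ℝ in 𝓝 0,
    I.YY (r.1 + r.2.2, r.2.1) - I.N (r.1, I.XX (r.1 + r.2.2, r.2.1)) = I.YY (0, r.2.1) + r.2.2 * I.Mh r
  smooth_G : ∀ j, ContDiff ℝ ∞ (I.G j)
  smooth_DH : ContDiff ℝ ∞ I.DH
  smooth_DR : ContDiff ℝ ∞ I.DR
  smooth_DZ : ContDiff ℝ ∞ I.DZ
  eqDH : ∀ p v s, I.HB (p, I.base p + s • v) = I.HB (p, I.base p) + s * I.DH (p, v, s)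
  eqDR : ∀ p v s, I.RB (p, I.base p + s • v) = I.RB (p, I.base p) + s * I.DR (p, v, s)
  eqDZ : ∀ p v s, I.ZB (p, I.base p + s • v) = I.ZB (p, I.base p) + s * I.DZ (p, v, s)
  DH0 : ∀ v, I.DH (0, v, 0) = v.2.1
  DR0 : ∀ v, I.DR (0, v, 0) = I.B0 * I.Y1 0 * gm2 * v.1 + el * v.2.2
  DZ0 : ∀ v, I.DZ (0, v, 0) = al2 * v.2.2

end Ing

end

end Pool.Agent.Lib.H37N
end

-- from Lib.H37N.SC1
section

/-! # H37N, chunk SC1 (M): Lemma C (S.3), the three steps.  Jacobian of plane maps. -/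

open Set Filter Topology Asymptotics
open scoped ContDiff

namespace Pool.Agent.Lib.H37N

theorem sc1_vec {W : Type} [NormedAddCommGroup W] [NormedSpace ℝ W] (L : ℝ × ℝ →L[ℝ] W) (w : ℝ × ℝ) :
    L w = w.1 • L (1, 0) + w.2 • L (0, 1) := by
  have h : w = w.1 • ((1 : ℝ), (0 : ℝ)) + w.2 • ((0 : ℝ), (1 : ℝ)) := by ext <;> simp
  conv_lhs => rw [h]
  rw [map_add, map_smul, map_smul]

/-- (The same statement is `jac_comp` in B16; here to be independent of it.)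
PROOF.  Chain rule `fderiv_comp`, `v = v.1 • (1,0) + v.2 • (0,1)` for the vectors `fderiv g v (1,0)`, `fderiv g v (0,1)`; `ring`. -/
theorem sc_jac_comp {f g : ℝ × ℝ → ℝ × ℝ} {v : ℝ × ℝ} (hf : DifferentiableAt ℝ f (g v)) (hg : DifferentiableAt ℝ g v) :
    jac (fun w => f (g w)) v = jac f (g v) * jac g v := by
  unfold jac
  have h' : fderiv ℝ (fun w => f (g w)) v = (fderiv ℝ f (g v)).comp (fderiv ℝ g v) := fderiv_comp v hf hg
  rw [h']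
  simp only [ContinuousLinearMap.comp_apply]
  rw [sc1_vec (fderiv ℝ f (g v)) (fderiv ℝ g v (1, 0)), sc1_vec (fderiv ℝ f (g v)) (fderiv ℝ g v (0, 1))]
  simp only [Prod.fst_add, Prod.snd_add, Prod.smul_fst, Prod.smul_snd, smul_eq_mul]
  ring

/-- PROOF.  Let `|u v + Du(v) v| ≤ C ‖v‖^k` for `‖v‖ < δ`.  For such `v` put `g t = t * u (t • v)` on `[0,1]`:
`g' t = u (t • v) + (fderiv u (t • v)) (t • v)` (product and chain rule, `t * L v = L (t • v)`), so `|g' t| ≤ C ‖t • v‖^k ≤ C ‖v‖^k`; `g 0 = 0`, `g 1 = u v`;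
mean value inequality `norm_image_sub_le_of_norm_deriv_le_segment_01'`. -/
theorem sc_radial {u : ℝ × ℝ → ℝ} (hu : ContDiff ℝ ∞ u) (k : ℕ)
    (h : (fun v => u v + fderiv ℝ u v v) =O[𝓝 0] fun v : ℝ × ℝ => ‖v‖ ^ k) :
    u =O[𝓝 0] fun v : ℝ × ℝ => ‖v‖ ^ k := by
  obtain ⟨C, hC0, hC⟩ := h.exists_pos
  obtain ⟨δ, hδ, hball⟩ := Metric.eventually_nhds_iff.mp hC.bound
  refine IsBigO.of_bound C (Metric.eventually_nhds_iff.mpr ⟨δ, hδ, fun v hv => ?_⟩)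
  have hd : Differentiable ℝ u := hu.differentiable (by simp)
  have hder : ∀ t : ℝ, HasDerivAt (fun t : ℝ => t * u (t • v)) (u (t • v) + fderiv ℝ u (t • v) (t • v)) t := by
    intro t
    have h1 : HasDerivAt (fun t : ℝ => t • v) v t := by
      simpa using (hasDerivAt_id t).smul_const v
    have h2 : HasDerivAt (fun t : ℝ => u (t • v)) (fderiv ℝ u (t • v) v) t :=
      (hd (t • v)).hasFDerivAt.comp_hasDerivAt t h1
    have h3 := (hasDerivAt_id' t).mul h2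
    have e : u (t • v) + fderiv ℝ u (t • v) (t • v) = 1 * u (t • v) + t * fderiv ℝ u (t • v) v := by
      rw [map_smul, smul_eq_mul, one_mul]
    rw [e]
    exact h3
  have hb : ∀ t ∈ Ico (0 : ℝ) 1, ‖u (t • v) + fderiv ℝ u (t • v) (t • v)‖ ≤ C * ‖v‖ ^ k := by
    intro t ht
    have h1 : ‖t • v‖ ≤ ‖v‖ := by
      rw [norm_smul, Real.norm_of_nonneg ht.1]
      nlinarith [norm_nonneg v, ht.2]
    have h2 : dist (t • v) 0 < δ := by
      rw [dist_zero_right] at *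
      linarith
    have h3 := hball h2
    rw [norm_pow, norm_norm] at h3
    exact h3.trans (mul_le_mul_of_nonneg_left (pow_le_pow_left₀ (norm_nonneg _) h1 _) hC0.le)
  have h4 := norm_image_sub_le_of_norm_deriv_le_segment_01' (f := fun t : ℝ => t * u (t • v))
    (fun t _ => (hder t).hasDerivWithinAt) hb
  simpa using h4

theorem sc1_fst {u : ℝ × ℝ → ℝ × ℝ} {v : ℝ × ℝ} (hu : DifferentiableAt ℝ u v) (w : ℝ × ℝ) :
    fderiv ℝ (fun v => (u v).1) v w = (fderiv ℝ u v w).1 := by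
  have h := (hasFDerivAt_fst (𝕜 := ℝ) (p := u v)).comp v hu.hasFDerivAt
  have h2 : HasFDerivAt (fun v => (u v).1) ((ContinuousLinearMap.fst ℝ ℝ ℝ).comp (fderiv ℝ u v)) v := h
  rw [h2.fderiv]
  rfl

theorem sc1_snd {u : ℝ × ℝ → ℝ × ℝ} {v : ℝ × ℝ} (hu : DifferentiableAt ℝ u v) (w : ℝ × ℝ) :
    fderiv ℝ (fun v => (u v).2) v w = (fderiv ℝ u v w).2 := by
  have h := (hasFDerivAt_snd (𝕜 := ℝ) (p := u v)).comp v hu.hasFDerivAt
  have h2 : HasFDerivAt (fun v => (u v).2) ((ContinuousLinearMap.snd ℝ ℝ ℝ).comp (fderiv ℝ u v)) v := h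
  rw [h2.fderiv]
  rfl

theorem sc1_K {u : ℝ × ℝ → ℝ × ℝ} {v : ℝ × ℝ} (hu : DifferentiableAt ℝ u v) (w : ℝ × ℝ) :
    fderiv ℝ (fun v : ℝ × ℝ => v.1 * (u v).2 - v.2 * (u v).1) v w =
      (v.1 * (fderiv ℝ u v w).2 + w.1 * (u v).2) - (v.2 * (fderiv ℝ u v w).1 + w.2 * (u v).1) := by
  have h1 : HasFDerivAt (fun v => (u v).1) ((ContinuousLinearMap.fst ℝ ℝ ℝ).comp (fderiv ℝ u v)) v :=
    (hasFDerivAt_fst (𝕜 := ℝ) (p := u v)).comp v hu.hasFDerivAt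
  have h2 : HasFDerivAt (fun v => (u v).2) ((ContinuousLinearMap.snd ℝ ℝ ℝ).comp (fderiv ℝ u v)) v :=
    (hasFDerivAt_snd (𝕜 := ℝ) (p := u v)).comp v hu.hasFDerivAt
  have h3 := ((hasFDerivAt_fst (𝕜 := ℝ) (p := v)).mul h2).sub ((hasFDerivAt_snd (𝕜 := ℝ) (p := v)).mul h1)
  have h4 : HasFDerivAt (fun v : ℝ × ℝ => v.1 * (u v).2 - v.2 * (u v).1) _ v := h3
  rw [h4.fderiv]
  simp
  ring

theorem sc1_smooth {u : ℝ × ℝ → ℝ × ℝ} (hu : ContDiff ℝ ∞ u) :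
    ContDiff ℝ ∞ (fun v : ℝ × ℝ => v.1 * (u v).2 - v.2 * (u v).1) :=
  (contDiff_fst.mul (contDiff_snd.comp hu)).sub (contDiff_snd.mul (contDiff_fst.comp hu))

theorem sc1_app {W : Type} [NormedAddCommGroup W] [NormedSpace ℝ W] {L : ℝ × ℝ → (ℝ × ℝ →L[ℝ] W)} {k : ℕ}
    (h : L =O[𝓝 0] fun v : ℝ × ℝ => ‖v‖ ^ k) (w : ℝ × ℝ) :
    (fun v => L v w) =O[𝓝 0] fun v : ℝ × ℝ => ‖v‖ ^ k := by
  refine (IsBigO.of_bound ‖w‖ (Eventually.of_forall fun v => ?_)).trans h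
  rw [mul_comm]
  exact (L v).le_opNorm w

theorem sc1_f {L : ℝ × ℝ → ℝ × ℝ} {k : ℕ} (h : L =O[𝓝 0] fun v : ℝ × ℝ => ‖v‖ ^ k) :
    (fun v => (L v).1) =O[𝓝 0] fun v : ℝ × ℝ => ‖v‖ ^ k :=
  (IsBigO.of_bound 1 (Eventually.of_forall fun v => by rw [one_mul]; exact norm_fst_le _)).trans h

theorem sc1_s {L : ℝ × ℝ → ℝ × ℝ} {k : ℕ} (h : L =O[𝓝 0] fun v : ℝ × ℝ => ‖v‖ ^ k) :
    (fun v => (L v).2) =O[𝓝 0] fun v : ℝ × ℝ => ‖v‖ ^ k :=
  (IsBigO.of_bound 1 (Eventually.of_forall fun v => by rw [one_mul]; exact norm_snd_le _)).trans h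

theorem sc1_mul {f g : ℝ × ℝ → ℝ} {j k l : ℕ} (h : l ≤ j + k) (hf : f =O[𝓝 0] fun v : ℝ × ℝ => ‖v‖ ^ j)
    (hg : g =O[𝓝 0] fun v : ℝ × ℝ => ‖v‖ ^ k) : (fun v => f v * g v) =O[𝓝 0] fun v : ℝ × ℝ => ‖v‖ ^ l := by
  have h1 := hf.mul hg
  refine h1.trans ?_
  refine IsBigO.of_bound 1 ?_
  filter_upwards [Metric.ball_mem_nhds (0 : ℝ × ℝ) one_pos] with v hv
  rw [← pow_add, one_mul, norm_pow, norm_pow, norm_norm]
  rw [Metric.mem_ball, dist_zero_right] at hv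
  exact pow_le_pow_of_le_one (norm_nonneg _) hv.le h

theorem sc1_x : (fun v : ℝ × ℝ => v.1) =O[𝓝 0] fun v : ℝ × ℝ => ‖v‖ ^ 1 :=
  IsBigO.of_bound 1 (Eventually.of_forall fun v => by
    rw [one_mul, norm_pow, norm_norm, pow_one]; exact norm_fst_le _)

theorem sc1_y : (fun v : ℝ × ℝ => v.2) =O[𝓝 0] fun v : ℝ × ℝ => ‖v‖ ^ 1 :=
  IsBigO.of_bound 1 (Eventually.of_forall fun v => by
    rw [one_mul, norm_pow, norm_norm, pow_one]; exact norm_snd_le _)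

/-- One step.  PROOF.  Write `u = (u₁, u₂)` (smooth), `a = ∂ₓu₁`, `b = ∂_y u₁`, `c = ∂ₓu₂`, `d' = ∂_y u₂` (values of `fderiv u v` at `(1,0)`, `(0,1)`); all are `O(‖v‖^(d-1))` by
`isBigO_fderiv` (with `k = d - 1`).  `jac (v + u) - 1 = (a + d') + (a d' - b c)`, the second bracket is `O(‖v‖^(2d-2))`, so `O(‖v‖^d)` (`2 ≤ d`); so
`a + d' = O(‖v‖^d)` (*).  Let `K v = v.1 u₂ - v.2 u₁ = O(‖v‖^(d+2))`; by `isBigO_fderiv` `DK = O(‖v‖^(d+1))`, and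
`DK(v)(1,0) = u₂ + v.1 c - v.2 a`, `DK(v)(0,1) = - u₁ + v.1 d' - v.2 b`.  With (*) multiplied by `v.2` and by `v.1` (each `O(‖v‖)`):
`u₂ + v.1 c + v.2 d' = O(‖v‖^(d+1))`, `u₁ + v.1 a + v.2 b = O(‖v‖^(d+1))`, that is `u_i + fderiv u_i v v = O(‖v‖^(d+1))` (`v = v.1 • (1,0) + v.2 • (0,1)`).
`sc_radial`; `IsBigO.prod_left`. -/
theorem sc_step {u : ℝ × ℝ → ℝ × ℝ} (hu : ContDiff ℝ ∞ u) (d : ℕ) (hd : 2 ≤ d)
    (h : u =O[𝓝 0] fun v : ℝ × ℝ => ‖v‖ ^ d)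
    (hK : (fun v : ℝ × ℝ => v.1 * (u v).2 - v.2 * (u v).1) =O[𝓝 0] fun v : ℝ × ℝ => ‖v‖ ^ (d + 2))
    (hJ : (fun v => jac (fun w => w + u w) v - 1) =O[𝓝 0] fun v : ℝ × ℝ => ‖v‖ ^ d) :
    u =O[𝓝 0] fun v : ℝ × ℝ => ‖v‖ ^ (d + 1) := by
  have hud : Differentiable ℝ u := hu.differentiable (by simp)
  obtain ⟨k, rfl⟩ : ∃ k, d = k + 1 := ⟨d - 1, by omega⟩
  have hD : fderiv ℝ u =O[𝓝 0] fun v : ℝ × ℝ => ‖v‖ ^ k := by
    have := isBigO_fderiv hu 0 k (by simpa using h)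
    simpa using this
  have ha := sc1_f (sc1_app hD (1, 0))
  have hc := sc1_s (sc1_app hD (1, 0))
  have hb := sc1_f (sc1_app hD (0, 1))
  have hd' := sc1_s (sc1_app hD (0, 1))
  have hjac : ∀ v, jac (fun w => w + u w) v - 1 =
      ((fderiv ℝ u v (1, 0)).1 + (fderiv ℝ u v (0, 1)).2) +
      ((fderiv ℝ u v (1, 0)).1 * (fderiv ℝ u v (0, 1)).2 - (fderiv ℝ u v (1, 0)).2 * (fderiv ℝ u v (0, 1)).1) := by
    intro v
    have h1 : HasFDerivAt (fun w => w + u w) (ContinuousLinearMap.id ℝ (ℝ × ℝ) + fderiv ℝ u v) v :=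
      (hasFDerivAt_id v).add (hud v).hasFDerivAt
    unfold jac
    rw [h1.fderiv]
    simp
    ring
  have htr : (fun v => (fderiv ℝ u v (1, 0)).1 + (fderiv ℝ u v (0, 1)).2) =O[𝓝 0]
      fun v : ℝ × ℝ => ‖v‖ ^ (k + 1) := by
    have h1 := hJ.sub ((sc1_mul (l := k + 1) (by omega) ha hd').sub (sc1_mul (l := k + 1) (by omega) hc hb))
    refine h1.congr_left fun v => ?_
    rw [hjac v]
    ring
  have hDK : fderiv ℝ (fun v : ℝ × ℝ => v.1 * (u v).2 - v.2 * (u v).1) =O[𝓝 0]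
      fun v : ℝ × ℝ => ‖v‖ ^ (k + 1 + 1) := by
    have := isBigO_fderiv (sc1_smooth hu) 0 (k + 1 + 1) (by simpa using hK)
    simpa using this
  have hu1 : ContDiff ℝ ∞ (fun v => (u v).1) := contDiff_fst.comp hu
  have hu2 : ContDiff ℝ ∞ (fun v => (u v).2) := contDiff_snd.comp hu
  have e2 : (fun v => (u v).2) =O[𝓝 0] fun v : ℝ × ℝ => ‖v‖ ^ (k + 1 + 1) := by
    apply sc_radial hu2
    have h1 := (sc1_app hDK (1, 0)).add (sc1_mul (l := k + 1 + 1) (by omega) sc1_y htr)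
    refine h1.congr_left fun v => ?_
    rw [sc1_K (hud v), sc1_snd (hud v) v, sc1_vec (fderiv ℝ u v) v]
    simp only [Prod.snd_add, Prod.smul_snd, smul_eq_mul]
    ring
  have e1 : (fun v => (u v).1) =O[𝓝 0] fun v : ℝ × ℝ => ‖v‖ ^ (k + 1 + 1) := by
    apply sc_radial hu1
    have h1 := (sc1_mul (l := k + 1 + 1) (by omega) sc1_x htr).sub (sc1_app hDK (0, 1))
    refine h1.congr_left fun v => ?_
    rw [sc1_K (hud v), sc1_fst (hud v) v, sc1_vec (fderiv ℝ u v) v]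
    simp only [Prod.fst_add, Prod.smul_fst, smul_eq_mul]
    ring
  exact (e1.prod_left e2)

/-- The linear part.  PROOF.  `K v = v.1 R₂ - v.2 R₁ = O(‖v‖^3)`.  Along `(x,0)`: `x R₂(x,0) = O(|x|^3)`, so `R₂(0) = 0` (continuity); along `(0,y)`: `R₁(0) = 0`.
`DK = O(‖v‖^2)` by `isBigO_fderiv`; `DK(v)(1,0) = R₂ + v.1 ∂ₓR₂ - v.2 ∂ₓR₁`, `DK(v)(0,1) = - R₁ + v.1 ∂_yR₂ - v.2 ∂_yR₁`.  Put `v = (t,0)`, divide by `t`, `t → 0`
(`(R (t,0)).2 / t → ∂ₓR₂(0)`): `2 ∂ₓR₂(0) = 0` and `- ∂ₓR₁(0) + ∂_yR₂(0) = 0`; `v = (0,t)`: `- 2 ∂_yR₁(0) = 0`.  So `DR(0) = a • id`, `jac R 0 = a² = 1`,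
`|a - 1| ≤ ‖DR(0) - id‖ < 1/2` (apply to `(1,0)`), so `a = 1`.  So `u = R - id` has `u 0 = 0`, `Du(0) = 0`, hence `Du = O(‖v‖)` (`Du` is `C^1`), and `u = O(‖v‖^2)` by
`isBigO_of_fderiv` (k = 1). -/
theorem sc_base {R : ℝ × ℝ → ℝ × ℝ} (hR : ContDiff ℝ ∞ R)
    (hK : (fun v : ℝ × ℝ => v.1 * (R v).2 - v.2 * (R v).1) =O[𝓝 0] fun v : ℝ × ℝ => ‖v‖ ^ 3)
    (hJ : jac R 0 = 1) (hD : ‖fderiv ℝ R 0 - ContinuousLinearMap.id ℝ (ℝ × ℝ)‖ < 1 / 2) :
    (fun v => R v - v) =O[𝓝 0] fun v : ℝ × ℝ => ‖v‖ ^ 2 := by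
  have hRd : Differentiable ℝ R := hR.differentiable (by simp)
  have hDK : fderiv ℝ (fun v : ℝ × ℝ => v.1 * (R v).2 - v.2 * (R v).1) =O[𝓝 0]
      fun v : ℝ × ℝ => ‖v‖ ^ 2 := by
    have := isBigO_fderiv (sc1_smooth hR) 0 2 (by simpa using hK)
    simpa using this
  have hDR : ∀ w, DifferentiableAt ℝ (fun v => fderiv ℝ R v w) 0 := by
    intro w
    have h1 : ContDiff ℝ 1 (fderiv ℝ R) := hR.fderiv_right (by norm_cast)
    exact ((h1.differentiable (by simp)).clm_apply (differentiable_const w)) 0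
  have key : ∀ w w' : ℝ × ℝ, w'.1 * (fderiv ℝ R 0 w).2 + w.1 * (fderiv ℝ R 0 w').2 -
      (w'.2 * (fderiv ℝ R 0 w).1 + w.2 * (fderiv ℝ R 0 w').1) = 0 := by
    intro w w'
    have h1 : HasFDerivAt (fun v => fderiv ℝ (fun v : ℝ × ℝ => v.1 * (R v).2 - v.2 * (R v).1) v w)
        (0 : ℝ × ℝ →L[ℝ] ℝ) 0 := by
      have h2 := sc1_app hDK w
      have h2' : (fun v => fderiv ℝ (fun v : ℝ × ℝ => v.1 * (R v).2 - v.2 * (R v).1) v w) =O[𝓝 (0 : ℝ × ℝ)]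
          fun v => ‖v - 0‖ ^ 2 := by simpa using h2
      exact h2'.hasFDerivAt (by norm_num)
    have h3 : HasFDerivAt (fun v => (R v).1) ((ContinuousLinearMap.fst ℝ ℝ ℝ).comp (fderiv ℝ R 0)) 0 :=
      (hasFDerivAt_fst (𝕜 := ℝ) (p := R 0)).comp 0 (hRd 0).hasFDerivAt
    have h4 : HasFDerivAt (fun v => (R v).2) ((ContinuousLinearMap.snd ℝ ℝ ℝ).comp (fderiv ℝ R 0)) 0 :=
      (hasFDerivAt_snd (𝕜 := ℝ) (p := R 0)).comp 0 (hRd 0).hasFDerivAt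
    have h5 : HasFDerivAt (fun v => (fderiv ℝ R v w).1)
        ((ContinuousLinearMap.fst ℝ ℝ ℝ).comp (fderiv ℝ (fun v => fderiv ℝ R v w) 0)) 0 :=
      (hasFDerivAt_fst (𝕜 := ℝ) (p := fderiv ℝ R 0 w)).comp 0 (hDR w).hasFDerivAt
    have h6 : HasFDerivAt (fun v => (fderiv ℝ R v w).2)
        ((ContinuousLinearMap.snd ℝ ℝ ℝ).comp (fderiv ℝ (fun v => fderiv ℝ R v w) 0)) 0 :=
      (hasFDerivAt_snd (𝕜 := ℝ) (p := fderiv ℝ R 0 w)).comp 0 (hDR w).hasFDerivAt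
    have h7 := (((hasFDerivAt_fst (𝕜 := ℝ) (p := (0 : ℝ × ℝ))).mul h6).add (h4.const_mul w.1)).sub
      (((hasFDerivAt_snd (𝕜 := ℝ) (p := (0 : ℝ × ℝ))).mul h5).add (h3.const_mul w.2))
    have h8 := h7.congr_of_eventuallyEq
      (f₁ := fun v => fderiv ℝ (fun v : ℝ × ℝ => v.1 * (R v).2 - v.2 * (R v).1) v w)
      (Eventually.of_forall fun v => sc1_K (hRd v) w)
    have h9 := congrArg (fun L : ℝ × ℝ →L[ℝ] ℝ => L w') (h8.unique h1)
    simp at h9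
    linarith
  have k1 := key (1, 0) (1, 0)
  have k2 := key (0, 1) (0, 1)
  have k3 := key (1, 0) (0, 1)
  simp only [one_mul, zero_mul, zero_add, add_zero] at k1 k2 k3
  have z1 : (fderiv ℝ R 0 (1, 0)).2 = 0 := by linarith
  have z2 : (fderiv ℝ R 0 (0, 1)).1 = 0 := by linarith
  have z3 : (fderiv ℝ R 0 (0, 1)).2 = (fderiv ℝ R 0 (1, 0)).1 := by linarith
  have z4 : |(fderiv ℝ R 0 (1, 0)).1 - 1| < 1 / 2 := by
    have h1 := (fderiv ℝ R 0 - ContinuousLinearMap.id ℝ (ℝ × ℝ)).le_opNorm (1, 0)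
    have h2 : ‖((1 : ℝ), (0 : ℝ))‖ = 1 := by simp [Prod.norm_def]
    rw [h2, mul_one] at h1
    have h3 := norm_fst_le ((fderiv ℝ R 0 - ContinuousLinearMap.id ℝ (ℝ × ℝ)) (1, 0))
    simp only [sub_apply, ContinuousLinearMap.id_apply, Prod.fst_sub,
      Real.norm_eq_abs] at h1 h3
    linarith
  have z5 : (fderiv ℝ R 0 (1, 0)).1 = 1 := by
    unfold jac at hJ
    rw [z1, z3] at hJ
    have h1 := abs_lt.1 z4
    nlinarith [h1.1, h1.2]
  have hid : fderiv ℝ R 0 = ContinuousLinearMap.id ℝ (ℝ × ℝ) := by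
    refine ContinuousLinearMap.ext fun w => ?_
    rw [sc1_vec (fderiv ℝ R 0) w]
    ext
    · simp [z5, z2]
    · simp [z1, z3, z5]
  have hR0 : R 0 = 0 := by
    have h1 : ∀ w : ℝ × ℝ, w.1 * (R 0).2 - w.2 * (R 0).1 = 0 := by
      intro w
      have h2 := sc1_app hDK w
      have h3 : fderiv ℝ (fun v : ℝ × ℝ => v.1 * (R v).2 - v.2 * (R v).1) 0 w = 0 :=
        IsBigO.eq_zero_of_norm_pow (n := 2) (x₀ := (0 : ℝ × ℝ))
          (f := fun v => fderiv ℝ (fun v : ℝ × ℝ => v.1 * (R v).2 - v.2 * (R v).1) v w)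
          (by simpa using h2) (by norm_num)
      rw [sc1_K (hRd 0)] at h3
      simpa using h3
    have h2 := h1 (1, 0)
    have h3 := h1 (0, 1)
    simp only [one_mul, zero_mul, sub_zero, zero_sub, neg_eq_zero] at h2 h3
    exact Prod.ext h3 h2
  have hu : ContDiff ℝ ∞ (fun v => R v - v) := hR.sub contDiff_id
  have hDu : fderiv ℝ (fun v => R v - v) 0 = 0 := by
    have h1 : HasFDerivAt (fun v => R v - v) (fderiv ℝ R 0 - ContinuousLinearMap.id ℝ (ℝ × ℝ)) 0 :=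
      (hRd 0).hasFDerivAt.sub (hasFDerivAt_id 0)
    rw [h1.fderiv, hid, sub_self]
  have h1 : fderiv ℝ (fun v => R v - v) =O[𝓝 0] fun v => ‖v - 0‖ ^ 1 := by
    have h2 : ContDiff ℝ 1 (fderiv ℝ (fun v => R v - v)) := hu.fderiv_right (by norm_cast)
    have h3 := ((h2.differentiable (by simp)) 0).isBigO_sub
    rw [hDu] at h3
    simp only [sub_zero] at h3 ⊢
    simpa using h3.norm_right
  have h2 := isBigO_of_fderiv hu 0 1 (by simp [hR0]) h1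
  simpa using h2

end Pool.Agent.Lib.H37N
end

-- from Lib.H37N.SA3
section

/-! # H37N, chunk SA3 (M): the composition of the blocks of AS2 (S.2) -/

open Set Filter Topology Asymptotics
open scoped ContDiff

namespace Pool.Agent.Lib.H37N

/-- successive states of the composition `B (j-1) ∘ ... ∘ B 0` -/
def st {P : Type} (B : ℕ → P × ℝ × ℝ → ℝ × ℝ) : ℕ → P × ℝ × ℝ → ℝ × ℝ
  | 0, r => r.2
  | j + 1, r => B j (r.1, st B j r)

section general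

variable {P : Type} [NormedAddCommGroup P] [NormedSpace ℝ P]

theorem st_contDiff {B : ℕ → P × ℝ × ℝ → ℝ × ℝ} {N : ℕ} (hB : ∀ j < N, ContDiff ℝ ∞ (B j)) :
    ∀ j ≤ N, ContDiff ℝ ∞ (st B j) := by
  intro j
  induction j with
  | zero =>
    intro _
    show ContDiff ℝ ∞ (fun r : P × ℝ × ℝ => r.2)
    exact contDiff_snd
  | succ j ih =>
    intro hj
    show ContDiff ℝ ∞ (fun r : P × ℝ × ℝ => B j (r.1, st B j r))
    exact (hB j (by omega)).comp (contDiff_fst.prodMk (ih (by omega)))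

/-- PROOF.  Induction on `N`.  `N = 0`: `jac (fun v => v) = 1 = exp 0`.  Step: `st B (N+1) (p,v) = B N (p, st B N (p,v))`; `sc_jac_comp` for fixed `p`; the hypothesis `hdet N` is used at
`(p, st B N (p,v))`, which tends to `(z₀, 0)` as `(p,v) → (z₀,0)` (`st_contDiff`, continuity, `h0 N`); `Real.exp_add`. -/
theorem st_jac {B : ℕ → P × ℝ × ℝ → ℝ × ℝ} {J : ℕ → P × ℝ × ℝ → ℝ} {ρ : P → ℝ} {z₀ : P} (N : ℕ)
    (hB : ∀ j < N, ContDiff ℝ ∞ (B j)) (h0 : ∀ j < N, st B j (z₀, 0) = 0)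
    (hdet : ∀ j < N, ∀ᶠ r : P × ℝ × ℝ in 𝓝 (z₀, 0), ρ r.1 ≠ 0 → jac (fun v => B j (r.1, v)) r.2 = Real.exp (ρ r.1 * J j r)) :
    ∀ᶠ r : P × ℝ × ℝ in 𝓝 (z₀, 0), ρ r.1 ≠ 0 → jac (fun v => st B N (r.1, v)) r.2 =
      Real.exp (ρ r.1 * ∑ j ∈ Finset.range N, J j (r.1, st B j r)) := by
  induction N with
  | zero =>
    refine Eventually.of_forall fun r _ => ?_
    have h1 : (fun v : ℝ × ℝ => st B 0 (r.1, v)) = fun v => v := rfl
    rw [h1, Finset.sum_range_zero, mul_zero, Real.exp_zero]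
    unfold jac
    rw [fderiv_fun_id]
    simp
  | succ N ih =>
    have ih' := ih (fun j hj => hB j (by omega)) (fun j hj => h0 j (by omega))
      (fun j hj => hdet j (by omega))
    have hs := st_contDiff hB N (by omega)
    have hBN := hB N (by omega)
    have ht : Tendsto (fun r : P × ℝ × ℝ => (r.1, st B N r)) (𝓝 (z₀, 0)) (𝓝 (z₀, 0)) := by
      have h1 : Continuous (fun r : P × ℝ × ℝ => (r.1, st B N r)) :=
        continuous_fst.prodMk hs.continuous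
      have h2 := h1.tendsto (z₀, 0)
      rw [h0 N (by omega)] at h2
      exact h2
    filter_upwards [ih', ht.eventually (hdet N (by omega))] with r h1 h2 hρ
    have h3 : (fun v : ℝ × ℝ => st B (N + 1) (r.1, v)) =
        fun v => (fun v' => B N (r.1, v')) ((fun v'' => st B N (r.1, v'')) v) := rfl
    have hg : DifferentiableAt ℝ (fun v'' : ℝ × ℝ => st B N (r.1, v'')) r.2 := by
      have h4 : ContDiff ℝ ∞ (fun v'' : ℝ × ℝ => st B N (r.1, v'')) :=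
        hs.comp (contDiff_const.prodMk contDiff_id)
      exact h4.differentiable (by simp) _
    have hf : DifferentiableAt ℝ (fun v' : ℝ × ℝ => B N (r.1, v'))
        ((fun v'' : ℝ × ℝ => st B N (r.1, v'')) r.2) := by
      have h4 : ContDiff ℝ ∞ (fun v' : ℝ × ℝ => B N (r.1, v')) :=
        hBN.comp (contDiff_const.prodMk contDiff_id)
      exact h4.differentiable (by simp) _
    rw [h3, sc_jac_comp hf hg, h1 hρ]
    have h5 : jac (fun v' : ℝ × ℝ => B N (r.1, v')) ((fun v'' : ℝ × ℝ => st B N (r.1, v'')) r.2) =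
        Real.exp (ρ r.1 * J N (r.1, st B N r)) := h2 hρ
    rw [h5, ← Real.exp_add, Finset.sum_range_succ]
    congr 1
    ring

end general

/-- the space of the parameters `q_ji`, `j < 2n`, `i ≤ e` -/
abbrev QQ (n e : ℕ) : Type := Fin (2 * n) → Fin (e + 1) → ℝ

/-- the parameter `q_ji` for natural numbers `j`, `i` (0 outside the range) -/
def qx {n e : ℕ} (q : QQ n e) (j i : ℕ) : ℝ := if h : j < 2 * n ∧ i < e + 1 then q ⟨j, h.1⟩ ⟨i, h.2⟩ else 0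

theorem qx_smul {n e : ℕ} (q : QQ n e) (τ : ℝ) (j i : ℕ) : qx (τ • q) j i = τ * qx q j i := by
  unfold qx
  split_ifs
  · simp
  · simp

/-- every family of coefficients is of the form `qx q` -/
theorem qx_surj {n e : ℕ} (f : ℕ → ℕ → ℝ) : ∃ q : QQ n e, ∀ j < 2 * n, ∀ i < e + 1, qx q j i = f j i := by
  refine ⟨fun j i => f j i, fun j hj i hi => ?_⟩
  unfold qx
  rw [dif_pos ⟨hj, hi⟩]

/-- the blocks of AS2: smooth, with given values at the parameter `p = 0` -/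
structure Blocks {P : Type} [NormedAddCommGroup P] [NormedSpace ℝ P] (n e : ℕ) (s₀ : ℝ) (d : ℕ → ℝ)
    (B : ℕ → (P × QQ n e) × ℝ × ℝ → ℝ × ℝ) (J : ℕ → (P × QQ n e) × ℝ × ℝ → ℝ) : Prop where
  smooth : ∀ j < 2 * n, ContDiff ℝ ∞ (B j)
  smoothJ : ∀ j < 2 * n, ContDiff ℝ ∞ (J j)
  val : ∀ j < 2 * n, ∀ (q : QQ n e) (x u : ℝ), B j ((0, q), (x, u)) =
    (u, -x + 2 * Real.cos (sth n) * u + ∑ i ∈ Finset.range (e + 1), qx q j i * u ^ i)
  valJ : ∀ j < 2 * n, ∀ (q : QQ n e) (x u : ℝ), J j ((0, q), (x, u)) = s₀ * (u + d (j + 1))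

section blocks

variable {P : Type} [NormedAddCommGroup P] [NormedSpace ℝ P] {n e : ℕ} {s₀ : ℝ} {d : ℕ → ℝ}
  {B : ℕ → (P × QQ n e) × ℝ × ℝ → ℝ × ℝ} {J : ℕ → (P × QQ n e) × ℝ × ℝ → ℝ}

/-- PROOF.  Induction on `j`: `spi_zero`, `spi_one`; `val` at `q = 0` (`qx 0 = 0`) and `spi_rec` (at `i = j + 1`). -/
theorem st_zero (hn : 2 ≤ n) (h : Blocks n e s₀ d B J) (v : ℝ × ℝ) : ∀ j ≤ 2 * n,
    st B j ((0, 0), v) = (spi n j v, spi n (j + 1) v) := by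
  intro j
  induction j with
  | zero =>
    intro _
    have h1 : st B 0 (((0 : P), (0 : QQ n e)), v) = v := rfl
    rw [h1, Nat.cast_zero, zero_add, spi_zero hn, spi_one hn]
  | succ j ih =>
    intro hj
    have h1 : st B (j + 1) (((0 : P), (0 : QQ n e)), v) =
      B j (((0 : P), (0 : QQ n e)), st B j (((0 : P), (0 : QQ n e)), v)) := rfl
    rw [h1, ih (by omega), h.val j (by omega)]
    have h2 : ∑ i ∈ Finset.range (e + 1), qx (0 : QQ n e) j i * spi n (j + 1) v ^ i = 0 := by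
      refine Finset.sum_eq_zero fun i _ => ?_
      have h3 := qx_smul (0 : QQ n e) 0 j i
      rw [smul_zero, zero_mul] at h3
      rw [h3, zero_mul]
    rw [h2, add_zero]
    have h4 := spi_rec hn ((j : ℝ) + 1) v
    rw [add_sub_cancel_right] at h4
    push_cast
    rw [h4]
    ext
    · rfl
    · simp only
      ring

/-- PROOF.  Induction on `j`.  `j = 0`: constant.  Step: `st B (j+1) ((0,τ•q),v) = (u, -x + 2cosθ u + τ Σ_i q_ji u^i)` with `(x,u) = st B j ((0,τ•q),v)`; derivative at `τ = 0`: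
`(u', -x' + 2cosθ u' + Σ_i q_ji u(0)^i)`, `u(0) = spi n (j+1) v` (`st_zero`); with `x' = Σ_{l<j} c_l K_(j-1-l)`, `u' = Σ_{l<j} c_l K_(j-l)`, `c_l = Σ_i q_li spi(l+1)^i`:
`u' = Σ_{l<j+1} c_l K_(j-l)` because `K_0 = 0`, and `-x' + 2cosθ u' + c_j = Σ_{l<j+1} c_l K_(j+1-l)` (`sK_rec`, `K_1 = 1`). -/
theorem st_deriv (hn : 2 ≤ n) (h : Blocks n e s₀ d B J) (q : QQ n e) (v : ℝ × ℝ) : ∀ j ≤ 2 * n,
    HasDerivAt (fun τ : ℝ => st B j ((0, τ • q), v))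
      (∑ l ∈ Finset.range j, (∑ i ∈ Finset.range (e + 1), qx q l i * spi n (l + 1) v ^ i) •
        ((sK n ((j : ℝ) - 1 - l), sK n ((j : ℝ) - l)) : ℝ × ℝ)) 0 := by
  intro j
  induction j with
  | zero =>
    intro _
    have h1 : (fun τ : ℝ => st B 0 (((0 : P), τ • q), v)) = fun _ => v := rfl
    rw [h1, Finset.sum_range_zero]
    exact hasDerivAt_const _ _
  | succ j ih =>
    intro hj
    have ih' := ih (by omega)
    have hx := (hasFDerivAt_fst (𝕜 := ℝ) (p := st B j (((0 : P), (0 : ℝ) • q), v))).comp_hasDerivAt 0 ih'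
    have hu := (hasFDerivAt_snd (𝕜 := ℝ) (p := st B j (((0 : P), (0 : ℝ) • q), v))).comp_hasDerivAt 0 ih'
    set X : ℝ → ℝ := fun τ => (st B j (((0 : P), τ • q), v)).1 with hX
    set U : ℝ → ℝ := fun τ => (st B j (((0 : P), τ • q), v)).2 with hU
    have hx' : HasDerivAt X (∑ l ∈ Finset.range j,
        (∑ i ∈ Finset.range (e + 1), qx q l i * spi n (l + 1) v ^ i) * sK n ((j : ℝ) - 1 - l)) 0 := by
      refine HasDerivAt.congr_deriv (f := X) hx ?_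
      rw [ContinuousLinearMap.coe_fst', Prod.fst_sum]
      rfl
    have hu' : HasDerivAt U (∑ l ∈ Finset.range j,
        (∑ i ∈ Finset.range (e + 1), qx q l i * spi n (l + 1) v ^ i) * sK n ((j : ℝ) - l)) 0 := by
      refine HasDerivAt.congr_deriv (f := U) hu ?_
      rw [ContinuousLinearMap.coe_snd', Prod.snd_sum]
      rfl
    have hU0 : U 0 = spi n (j + 1) v := by
      rw [hU]
      simp only [zero_smul]
      rw [st_zero hn h v j (by omega)]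
    have hfun : (fun τ : ℝ => st B (j + 1) (((0 : P), τ • q), v)) =
        fun τ => (U τ, -X τ + 2 * Real.cos (sth n) * U τ +
          τ * ∑ i ∈ Finset.range (e + 1), qx q j i * U τ ^ i) := by
      funext τ
      have h1 : st B (j + 1) (((0 : P), τ • q), v) =
        B j (((0 : P), τ • q), (X τ, U τ)) := rfl
      rw [h1, h.val j (by omega)]
      congr 2
      rw [Finset.mul_sum]
      refine Finset.sum_congr rfl fun i _ => ?_
      rw [qx_smul]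
      ring
    have hS : HasDerivAt (fun τ => τ * ∑ i ∈ Finset.range (e + 1), qx q j i * U τ ^ i)
        (∑ i ∈ Finset.range (e + 1), qx q j i * spi n (j + 1) v ^ i) 0 := by
      have h1 : DifferentiableAt ℝ (fun τ => ∑ i ∈ Finset.range (e + 1), qx q j i * U τ ^ i) 0 := by
        refine DifferentiableAt.fun_sum fun i _ => ?_
        exact (hu'.differentiableAt.pow i).const_mul _
      have h2 := (hasDerivAt_id' (0 : ℝ)).mul h1.hasDerivAt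
      rw [zero_mul, add_zero, one_mul, hU0] at h2
      exact h2
    rw [hfun]
    have hfin : HasDerivAt (fun τ => (U τ, -X τ + 2 * Real.cos (sth n) * U τ +
        τ * ∑ i ∈ Finset.range (e + 1), qx q j i * U τ ^ i)) _ 0 :=
      hu'.prodMk ((hx'.neg.add (hu'.const_mul (2 * Real.cos (sth n)))).add hS)
    refine hfin.congr_deriv (Eq.symm ?_)
    rw [Prod.ext_iff]
    simp only [Prod.fst_sum, Prod.snd_sum, Prod.smul_fst, Prod.smul_snd, smul_eq_mul]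
    constructor
    · rw [Finset.sum_range_succ]
      push_cast
      have e1 : (j : ℝ) + 1 - 1 - j = 0 := by ring
      rw [e1, sK_zero, mul_zero, add_zero]
      refine Finset.sum_congr rfl fun l _ => ?_
      congr 2
      ring
    · rw [Finset.sum_range_succ]
      push_cast
      have e1 : (j : ℝ) + 1 - j = 1 := by ring
      rw [e1, sK_one hn, mul_one]
      congr 1
      rw [Finset.mul_sum, ← Finset.sum_neg_distrib, ← Finset.sum_add_distrib]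
      refine Finset.sum_congr rfl fun l _ => ?_
      have h3 := sK_rec hn ((j : ℝ) - l)
      have e2 : (j : ℝ) + 1 - l = (j : ℝ) - l + 1 := by ring
      have e3 : (j : ℝ) - 1 - l = (j : ℝ) - l - 1 := by ring
      rw [e2, e3, h3]
      ring

end blocks

end Pool.Agent.Lib.H37N
end

-- from Lib.H37N.SA4
section

/-! # H37N, chunk SA4 (M): the functions K and Jt of AS2 (S.2) and their first variations -/

open Set Filter Topology Asymptotics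
open scoped ContDiff

namespace Pool.Agent.Lib.H37N

/-- `v ∧ R(v)`, `R` the composition of the first `N` blocks -/
def Kf {P : Type} (B : ℕ → P × ℝ × ℝ → ℝ × ℝ) (N : ℕ) (r : P × ℝ × ℝ) : ℝ :=
  r.2.1 * (st B N r).2 - r.2.2 * (st B N r).1

/-- the sum of the functions `J` along the orbit -/
def Jf {P : Type} (B : ℕ → P × ℝ × ℝ → ℝ × ℝ) (J : ℕ → P × ℝ × ℝ → ℝ) (N : ℕ) (r : P × ℝ × ℝ) : ℝ :=
  ∑ j ∈ Finset.range N, J j (r.1, st B j r)

variable {P : Type} [NormedAddCommGroup P] [NormedSpace ℝ P] {n e : ℕ} {s₀ : ℝ} {d : ℕ → ℝ}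
  {B : ℕ → (P × QQ n e) × ℝ × ℝ → ℝ × ℝ} {J : ℕ → (P × QQ n e) × ℝ × ℝ → ℝ}

theorem Kf_contDiff (h : Blocks n e s₀ d B J) : ContDiff ℝ ∞ (Kf B (2 * n)) := by
  have h1 := st_contDiff h.smooth (2 * n) le_rfl
  unfold Kf
  exact ((contDiff_fst.comp contDiff_snd).mul (contDiff_snd.comp h1)).sub
    ((contDiff_snd.comp contDiff_snd).mul (contDiff_fst.comp h1))

theorem Jf_contDiff (h : Blocks n e s₀ d B J) : ContDiff ℝ ∞ (Jf B J (2 * n)) := by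
  unfold Jf
  refine ContDiff.sum fun j hj => ?_
  have hj' := Finset.mem_range.1 hj
  exact (h.smoothJ j hj').comp (contDiff_fst.prodMk (st_contDiff h.smooth j hj'.le))

/-- PROOF.  `st B (2n) ((0,0),v) = (spi n (2n) v, spi n (2n+1) v) = v` (`spi_add_half` twice, `spi_zero`, `spi_one`). -/
theorem st_full (hn : 2 ≤ n) (h : Blocks n e s₀ d B J) (v : ℝ × ℝ) : st B (2 * n) ((0, 0), v) = v := by
  rw [st_zero hn h v (2 * n) le_rfl]
  have e1 : ((2 * n : ℕ) : ℝ) = (0 + n) + n := by push_cast; ring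
  have e2 : (0 + (n : ℝ)) + n + 1 = (1 + n) + n := by ring
  rw [e1, e2, spi_add_half hn, spi_add_half hn, spi_add_half hn, spi_add_half hn, spi_zero hn,
    spi_one hn, neg_neg, neg_neg]

theorem Kf_zero (hn : 2 ≤ n) (h : Blocks n e s₀ d B J) (v : ℝ × ℝ) : Kf B (2 * n) ((0, 0), v) = 0 := by
  unfold Kf
  rw [st_full hn h v]
  ring

/-- PROOF.  `J j (0, (spi n j v, spi n (j+1) v)) = s₀ (spi n (j+1) v + d (j+1))` (`valJ`, `st_zero`); `spi_sum` and `hd`. -/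
theorem Jf_zero (hn : 2 ≤ n) (h : Blocks n e s₀ d B J) (hd : ∑ j ∈ Finset.range (2 * n), d (j + 1) = 0) (v : ℝ × ℝ) :
    Jf B J (2 * n) ((0, 0), v) = 0 := by
  unfold Jf
  have h1 : ∀ j ∈ Finset.range (2 * n), J j ((((0 : P), (0 : QQ n e)), v).1, st B j (((0 : P), (0 : QQ n e)), v)) =
      s₀ * (spi n (j + 1) v + d (j + 1)) := by
    intro j hj
    have hj' := Finset.mem_range.1 hj
    rw [st_zero hn h v j hj'.le]
    exact h.valJ j hj' 0 _ _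
  rw [Finset.sum_congr rfl h1, ← Finset.mul_sum, Finset.sum_add_distrib, spi_sum hn v, hd]
  ring

/-- PROOF.  `st_deriv` with `j = 2n`: the derivative of `v.1 * (st).2 - v.2 * (st).1` is `Σ_l c_l (v.1 K_(2n-l) - v.2 K_(2n-1-l))`, and `K_(2n-l) = - K_l`,
`K_(2n-1-l) = - K_(l+1)` (`sK_sub`): the bracket is `K_(l+1) v.2 - K_l v.1 = spi n (l+1) v`. -/
theorem Kf_deriv (hn : 2 ≤ n) (h : Blocks n e s₀ d B J) (q : QQ n e) (v : ℝ × ℝ) :
    HasDerivAt (fun τ : ℝ => Kf B (2 * n) ((0, τ • q), v))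
      (∑ i ∈ Finset.range (e + 1), ∑ l ∈ Finset.range (2 * n), qx q l i * spi n (l + 1) v ^ (i + 1)) 0 := by
  have h1 := st_deriv hn h q v (2 * n) le_rfl
  have h1s : HasDerivAt (fun τ : ℝ => (st B (2 * n) (((0 : P), τ • q), v)).2)
      (∑ l ∈ Finset.range (2 * n), (∑ i ∈ Finset.range (e + 1), qx q l i * spi n (l + 1) v ^ i) •
        ((sK n (((2 * n : ℕ) : ℝ) - 1 - l), sK n (((2 * n : ℕ) : ℝ) - l)) : ℝ × ℝ)).2 0 := h1.snd
  have h1f : HasDerivAt (fun τ : ℝ => (st B (2 * n) (((0 : P), τ • q), v)).1)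
      (∑ l ∈ Finset.range (2 * n), (∑ i ∈ Finset.range (e + 1), qx q l i * spi n (l + 1) v ^ i) •
        ((sK n (((2 * n : ℕ) : ℝ) - 1 - l), sK n (((2 * n : ℕ) : ℝ) - l)) : ℝ × ℝ)).1 0 := h1.fst
  have h2 := (h1s.const_mul v.1).sub (h1f.const_mul v.2)
  refine h2.congr_deriv ?_
  rw [Prod.snd_sum, Prod.fst_sum, Finset.mul_sum, Finset.mul_sum, ← Finset.sum_sub_distrib,
    Finset.sum_comm]
  refine Finset.sum_congr rfl fun l hl => ?_
  have e1 : sK n (((2 * n : ℕ) : ℝ) - 1 - l) = - sK n (l + 1) := by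
    rw [← sK_sub hn]
    congr 1
    push_cast
    ring
  have e2 : sK n (((2 * n : ℕ) : ℝ) - l) = - sK n l := by
    rw [← sK_sub hn]
    congr 1
    push_cast
    ring
  have e3 : spi n (l + 1) v = sK n (l + 1) * v.2 - sK n l * v.1 := by
    rw [spi, add_sub_cancel_right]
  simp only [Prod.smul_fst, Prod.smul_snd, smul_eq_mul]
  rw [e1, e2]
  have e4 : ∀ S : ℝ, v.1 * (S * -sK n l) - v.2 * (S * -sK n (l + 1)) = S * spi n (l + 1) v := by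
    intro S
    rw [e3]
    ring
  rw [e4, Finset.sum_mul]
  refine Finset.sum_congr rfl fun i _ => ?_
  rw [pow_succ]
  ring

/-- PROOF.  `J j ((0,τ•q), st_j) = s₀ ((st_j).2 + d (j+1))`, derivative `s₀ (D_j).2 = s₀ Σ_{l<j} c_l K_(j-l)` (`st_deriv`).  Sum over `j < 2n` and exchange
(`Finset.sum_sigma'` / `Finset.range_eq_Ico`, `Finset.sum_comm'`): the coefficient of `c_l` is `Σ_{l<j<2n} K_(j-l) = Σ_{i<2n-l} K_i = sa n l` (`K_0 = 0`). -/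
theorem Jf_deriv (hn : 2 ≤ n) (h : Blocks n e s₀ d B J) (q : QQ n e) (v : ℝ × ℝ) :
    HasDerivAt (fun τ : ℝ => Jf B J (2 * n) ((0, τ • q), v))
      (s₀ * ∑ i ∈ Finset.range (e + 1), ∑ l ∈ Finset.range (2 * n), sa n l * qx q l i * spi n (l + 1) v ^ i) 0 := by
  set c : ℕ → ℝ := fun l => ∑ i ∈ Finset.range (e + 1), qx q l i * spi n (l + 1) v ^ i with hc
  have h1 : ∀ j ∈ Finset.range (2 * n), HasDerivAt
      (fun τ : ℝ => J j (((((0 : P), τ • q), v) : (P × QQ n e) × ℝ × ℝ).1, st B j (((0 : P), τ • q), v)))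
      (s₀ * ∑ l ∈ Finset.range j, c l * sK n ((j : ℝ) - l)) 0 := by
    intro j hj
    have hj' := Finset.mem_range.1 hj
    have h2 := st_deriv hn h q v j hj'.le
    have h2s : HasDerivAt (fun τ : ℝ => (st B j (((0 : P), τ • q), v)).2)
      (∑ l ∈ Finset.range j, (∑ i ∈ Finset.range (e + 1), qx q l i * spi n (l + 1) v ^ i) •
        ((sK n ((j : ℝ) - 1 - l), sK n ((j : ℝ) - l)) : ℝ × ℝ)).2 0 := h2.snd
    have h3 := (h2s.add_const (d (j + 1))).const_mul s₀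
    have h4 : (fun τ : ℝ => J j (((((0 : P), τ • q), v) : (P × QQ n e) × ℝ × ℝ).1, st B j (((0 : P), τ • q), v))) =
        fun τ : ℝ => s₀ * ((st B j (((0 : P), τ • q), v)).2 + d (j + 1)) := by
      ext τ
      exact h.valJ j hj' (τ • q) _ _
    rw [h4]
    refine h3.congr_deriv ?_
    rw [Prod.snd_sum]
    rfl
  have h5 : HasDerivAt (fun τ : ℝ => Jf B J (2 * n) ((0, τ • q), v))
      (∑ j ∈ Finset.range (2 * n), (s₀ * ∑ l ∈ Finset.range j, c l * sK n ((j : ℝ) - l))) 0 := by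
    unfold Jf
    exact HasDerivAt.fun_sum h1
  refine h5.congr_deriv ?_
  rw [← Finset.mul_sum]
  congr 1
  have h6 : ∀ j ∈ Finset.range (2 * n), ∑ l ∈ Finset.range j, c l * sK n ((j : ℝ) - l) =
      ∑ l ∈ Finset.range (j + 1), c l * sK n ((j - l : ℕ) : ℝ) := by
    intro j _
    rw [Finset.sum_range_succ, Nat.sub_self, Nat.cast_zero, sK_zero, mul_zero, add_zero]
    refine Finset.sum_congr rfl fun l hl => ?_
    rw [Nat.cast_sub (Finset.mem_range.1 hl).le]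
  rw [Finset.sum_congr rfl h6, Finset.sum_range_diag_flip (2 * n) (fun l i => c l * sK n (i : ℝ)),
    Finset.sum_comm]
  refine Finset.sum_congr rfl fun l _ => ?_
  rw [← Finset.mul_sum, hc]
  simp only
  rw [Finset.sum_mul]
  refine Finset.sum_congr rfl fun i _ => ?_
  rw [sa]
  ring

end Pool.Agent.Lib.H37N
end
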