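import Pool.Agent.Lib.H1M.FF.M003
import Pool.Agent.Lib.H1M.FF.M004
import Pool.Agent.Lib.H1M.FF.M006
import Pool.Agent.Lib.H1M.FF.M007
import Pool.Agent.Lib.H1M.FF.M009
import Pool.Agent.Lib.H1M.FF.M012
import Pool.Agent.Lib.H1M.FF.M014

/-! Merged copies (to shorten the build) of Lib.H37C.B1, Lib.H37C.F5, Lib.H37C.T4, Lib.H37N.I2a, Lib.H37D.DI2c, Lib.H37N.I2d, Lib.H37D.DI2d, Lib.H37D.NDefs, Lib.H37N.T8, Lib.H37D.DZ21, Lib.H37N.I3c, Lib.H37P.P05. -/

-- from Lib.H37C.B1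
section

open TopologicalSpace Set Filter Topology

namespace Pool.Agent.Lib.H37C

open Cardinal in
/-- an uncountable well-order with countable initial segments -/
theorem b1_order : ∃ (W : Type) (_ : LinearOrder W) (_ : WellFoundedLT W), ¬ Countable W ∧
    ∀ w : W, Countable (Set.Iio w) := by
  refine ⟨(ℵ₁).ord.ToType, inferInstance, inferInstance, ?_, fun w => ?_⟩
  · rw [← Cardinal.mk_le_aleph0_iff, Cardinal.mk_ord_toType, not_le]
    exact Cardinal.aleph0_lt_aleph_one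
  · rw [← Cardinal.mk_le_aleph0_iff, ← Cardinal.lt_aleph_one_iff]
    exact Cardinal.mk_Iio_toType_ord_lt w

/-- the derived sets indexed by a well-order -/
noncomputable def b1_R {Z : Type*} [TopologicalSpace Z] (X : Set Z) {W : Type} [LinearOrder W]
    [WellFoundedLT W] : W → Set Z :=
  WellFounded.fix (wellFounded_lt (α := W)) (fun w F => {x | x ∈ X ∧
    ∀ (w' : W) (h : w' < w), AccX X (F w' h) x})

theorem b1_eq {Z : Type*} [TopologicalSpace Z] (X : Set Z) {W : Type} [LinearOrder W]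
    [WellFoundedLT W] (w : W) :
    b1_R X w = {x | x ∈ X ∧ ∀ w' : W, w' < w → AccX X (b1_R X w') x} := by
  unfold b1_R
  rw [WellFounded.fix_eq]

theorem b1_mono {Z : Type*} [TopologicalSpace Z] {X S T : Set Z} (h : S ⊆ T) {x : Z}
    (hx : AccX X S x) : AccX X T x :=
  closure_mono (diff_subset_diff_left h) hx

/-- **B1.** For a subset `X` of a second countable space there is a countable well-order `B₀` such
that all points of rank `B₀` are in the kernel.

Proof. Define by transfinite recursion on the ordinals `R α = {x ∈ X | ∀ α' < α, AccX X (R α') x}`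
(`WellFoundedLT.fix` / `WellFounded.fix`). For `α ≤ α'`, `R α' ⊆ R α`. Claim: there is a countable
ordinal `β` with `R β ⊆ R (β+1)`. Otherwise for each `α < ω₁` there is `x α ∈ R α \ R (α+1)`; so
`¬ AccX X (R α) (x α)` (the conditions for `α' < α` hold), and there is a member `U (i α)` of a countable
basis with `x α ∈ U (i α)` and `U (i α) ∩ R α ⊆ C (x α)`, `C` the component in `X`. The map `i` is
injective on the countable ordinals: if `α < α'` and `i α = i α'`, then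
`x α' ∈ R α' ⊆ R α` and `x α' ∈ U (i α)`, so `x α' ∈ C (x α)` and `C (x α') = C (x α)`
(`connectedComponentIn_eq`); but `x α' ∈ R α'` and `α < α'` give `AccX X (R α) (x α')`, so
`U (i α)` contains a point of `R α \ C (x α')`, a contradiction. There are uncountably many
countable ordinals, a contradiction. (`Cardinal.mk_Iio_ordinal`, `Ordinal.omega_one`,
`Ordinal.ToType`, `Cardinal.aleph`...)
So `R β` is `SelfAcc`. Let `B₀ = β.ToType` (countable) with its order. If `R'` is a good family over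
`B₀` then, by induction, `R' b ⊆ R (typein b)`; and if all `AccX X (R' b) x`, `x ∈ X`, then
`x ∈ R β`: take `D = R β`. -/
theorem exists_prefix {Z : Type*} [TopologicalSpace Z] [SecondCountableTopology Z] (X : Set Z) :
    ∃ (B₀ : Type) (r₀ : B₀ → B₀ → Prop), Countable B₀ ∧ IsStrictTotalOrder B₀ r₀ ∧
      WellFounded r₀ ∧ ∀ R : B₀ → Set Z, GoodFam X r₀ R → ∀ x ∈ X, (∀ b, AccX X (R b) x) →
        ∃ D, SelfAcc X D ∧ x ∈ D := by
  classical
  obtain ⟨W, hW1, hW2, hW3, hW4⟩ := b1_order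
  obtain ⟨b, hbc, -, hb⟩ := TopologicalSpace.exists_countable_basis Z
  have hst : ∃ β : W, ∀ x ∈ b1_R X β, AccX X (b1_R X β) x := by
    by_contra hcon
    push Not at hcon
    choose x hx hx' using hcon
    have hU : ∀ β : W, ∃ U ∈ b, x β ∈ U ∧ ∀ y ∈ U, y ∈ b1_R X β →
        y ∈ connectedComponentIn X (x β) := by
      intro β
      have h1 := hx' β
      unfold AccX at h1
      rw [hb.mem_closure_iff] at h1
      push Not at h1
      obtain ⟨U, hU1, hU2, hU3⟩ := h1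
      refine ⟨U, hU1, hU2, fun y hy1 hy2 => ?_⟩
      by_contra hy3
      exact absurd hU3 (Set.Nonempty.ne_empty ⟨y, hy1, hy2, hy3⟩)
    choose U hU1 hU2 hU3 using hU
    have hinj : Function.Injective (fun β : W => (⟨U β, hU1 β⟩ : b)) := by
      have key : ∀ β γ : W, β < γ → U β ≠ U γ := by
        intro β γ hβγ hUU
        have h1 : x γ ∈ b1_R X γ := hx γ
        rw [b1_eq] at h1
        have h2 : x γ ∈ b1_R X β := by
          rw [b1_eq]
          exact ⟨h1.1, fun w' hw' => h1.2 w' (hw'.trans hβγ)⟩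
        have h3 : x γ ∈ connectedComponentIn X (x β) :=
          hU3 β _ (hUU ▸ hU2 γ) h2
        have h4 : connectedComponentIn X (x β) = connectedComponentIn X (x γ) :=
          connectedComponentIn_eq h3
        have h5 := h1.2 β hβγ
        unfold AccX at h5
        rw [hb.mem_closure_iff] at h5
        obtain ⟨y, hy1, hy2, hy3⟩ := h5 (U β) (hU1 β) (hUU ▸ hU2 γ)
        apply hy3
        rw [← h4]
        exact hU3 β y hy1 hy2
      intro β γ h
      have h1 : U β = U γ := congrArg Subtype.val h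
      rcases lt_trichotomy β γ with h2 | h2 | h2
      · exact absurd h1 (key β γ h2)
      · exact h2
      · exact absurd h1.symm (key γ β h2)
    have : Countable b := hbc
    exact hW3 hinj.countable
  obtain ⟨β, hβ⟩ := hst
  refine ⟨Set.Iio β, (· < ·), hW4 β, inferInstance, wellFounded_lt, ?_⟩
  intro R hR x hx hacc
  have hsub : ∀ w : Set.Iio β, R w ⊆ b1_R X (w : W) := by
    intro w
    induction w using (wellFounded_lt (α := Set.Iio β)).induction with
    | _ w ih =>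
      intro y hy
      rw [b1_eq]
      refine ⟨(hR w y hy).1, fun w' hw' => ?_⟩
      have hw'β : w' < β := hw'.trans w.2
      exact b1_mono (ih ⟨w', hw'β⟩ hw') ((hR w y hy).2 ⟨w', hw'β⟩ hw')
  refine ⟨b1_R X β, ⟨fun y hy => ?_, hβ⟩, ?_⟩
  · rw [b1_eq] at hy
    exact hy.1
  · rw [b1_eq]
    exact ⟨hx, fun w' hw' => b1_mono (hsub ⟨w', hw'⟩) (hacc ⟨w', hw'⟩)⟩

end Pool.Agent.Lib.H37C
end

-- from Lib.H37C.F5
section

open TopologicalSpace Set Filter Topology

namespace Pool.Agent.Lib.H37C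

variable {Z : Type*} [TopologicalSpace Z]

/-- **F5.** Homeomorphisms transport accumulation (`Homeomorph.image_connectedComponentIn`,
`Homeomorph.image_closure`). -/
theorem AccX.image {Z' : Type*} [TopologicalSpace Z'] (g : Z ≃ₜ Z') {X S : Set Z} {x : Z}
    (hx : x ∈ X) (h : AccX X S x) : AccX (g '' X) (g '' S) (g x) := by
  unfold AccX at h ⊢
  rw [← g.image_connectedComponentIn hx, ← image_diff g.injective, ← g.image_closure]
  exact mem_image_of_mem g h

theorem GoodFam.image {Z' : Type*} [TopologicalSpace Z'] (g : Z ≃ₜ Z') {X : Set Z} {Ω : Type*}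
    {r : Ω → Ω → Prop} {R : Ω → Set Z} (h : GoodFam X r R) :
    GoodFam (g '' X) r (fun l => g '' R l) := by
  rintro l _ ⟨x, hx, rfl⟩
  exact ⟨mem_image_of_mem g (h l x hx).1, fun l' hl' => AccX.image g (h l x hx).1
    ((h l x hx).2 l' hl')⟩

theorem SelfAcc.image {Z' : Type*} [TopologicalSpace Z'] (g : Z ≃ₜ Z') {X D : Set Z}
    (h : SelfAcc X D) : SelfAcc (g '' X) (g '' D) := by
  refine ⟨image_mono h.1, ?_⟩
  rintro _ ⟨x, hx, rfl⟩
  exact AccX.image g (h.1 hx) (h.2 x hx)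

theorem TopProp.image {Z' : Type*} [TopologicalSpace Z'] (g : Z ≃ₜ Z') {X : Set Z} {Ω : Type*}
    {r : Ω → Ω → Prop} (h : TopProp r X) : TopProp r (g '' X) := by
  obtain ⟨R, hR, x, hx, hacc, hno⟩ := h
  refine ⟨fun l => g '' R l, hR.image g, g x, mem_image_of_mem g hx,
    fun l => AccX.image g hx (hacc l), fun D hD hxD => ?_⟩
  have h1 := hD.image g.symm
  have h2 : g.symm '' (g '' X) = X := by
    rw [← image_comp]
    simp
  rw [h2] at h1
  exact hno _ h1 ⟨g x, hxD, g.symm_apply_apply x⟩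

/-- **F5, last part.** The background: if `X` is the disjoint union of the closed sets `A` and `Y`,
then the component in `X` of a point of `A` is its component in `A`, and a good family of `X` gives
a good family of `A`.

Proof. The component of `x ∈ A` in `X` is preconnected and covered by the disjoint closed sets `A`
and `Y`, so contained in `A`, hence in the component in `A`
(`IsPreconnected.subset_connectedComponentIn`); the other inclusion is `connectedComponentIn_mono`.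
As `Y` is closed and `x ∉ Y`, `x ∈ closure (S \ C)` implies `x ∈ closure ((S ∩ A) \ C)` for
`S ⊆ X`. -/
theorem comp_background {X A Y : Set Z} (hX : X = A ∪ Y) (hA : IsClosed A) (hY : IsClosed Y)
    (hAY : Disjoint A Y) {x : Z} (hx : x ∈ A) :
    connectedComponentIn X x = connectedComponentIn A x := by
  have hxX : x ∈ X := hX ▸ Or.inl hx
  apply Subset.antisymm
  · refine isPreconnected_connectedComponentIn.subset_connectedComponentIn
      (mem_connectedComponentIn hxX) ?_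
    have h1 : connectedComponentIn X x ⊆ A ∪ Y := by
      rw [← hX]; exact connectedComponentIn_subset X x
    have h2 := isPreconnected_closed_iff.1
      (isPreconnected_connectedComponentIn (F := X) (x := x)) A Y hA hY h1
      ⟨x, mem_connectedComponentIn hxX, hx⟩
    intro y hy
    rcases h1 hy with h3 | h3
    · exact h3
    · obtain ⟨w, -, hw⟩ := h2 ⟨y, hy, h3⟩
      exact absurd hw.2 (Set.disjoint_left.1 hAY hw.1)
  · exact connectedComponentIn_mono x (hX ▸ subset_union_left)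

theorem background {X A Y : Set Z} (hX : X = A ∪ Y) (hA : IsClosed A) (hY : IsClosed Y)
    (hAY : Disjoint A Y) {Ω : Type*} {r : Ω → Ω → Prop} {R : Ω → Set Z} (hR : GoodFam X r R)
    {x : Z} (hx : x ∈ A) (hacc : ∀ l, AccX X (R l) x) :
    GoodFam A r (fun l => R l ∩ A) ∧ ∀ l, AccX A (R l ∩ A) x := by
  have key : ∀ y ∈ A, ∀ l, AccX X (R l) y → AccX A (R l ∩ A) y := by
    intro y hy l h
    unfold AccX at h ⊢
    rw [comp_background hX hA hY hAY hy] at h
    rw [mem_closure_iff_nhds] at h ⊢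
    intro V hV
    have h1 : Yᶜ ∈ 𝓝 y := hY.isOpen_compl.mem_nhds (Set.disjoint_left.1 hAY hy)
    obtain ⟨w, hw1, hw2⟩ := h _ (Filter.inter_mem hV h1)
    have hwX : w ∈ A ∪ Y := hX ▸ (hR l w hw2.1).1
    rcases hwX with h3 | h3
    · exact ⟨w, hw1.1, ⟨hw2.1, h3⟩, hw2.2⟩
    · exact absurd h3 hw1.2
  refine ⟨?_, fun l => key x hx l (hacc l)⟩
  rintro l y ⟨hy1, hy2⟩
  exact ⟨hy2, fun l' hl' => key y hy2 l' ((hR l y hy1).2 l' hl')⟩

theorem selfAcc_background {X A Y : Set Z} (hX : X = A ∪ Y) (hA : IsClosed A) (hY : IsClosed Y)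
    (hAY : Disjoint A Y) {D : Set Z} (hD : SelfAcc A D) : SelfAcc X D := by
  refine ⟨hD.1.trans (hX ▸ subset_union_left), fun x hx => ?_⟩
  have h := hD.2 x hx
  unfold AccX at h ⊢
  rwa [comp_background hX hA hY hAY (hD.1 hx)]

end Pool.Agent.Lib.H37C
end

-- from Lib.H37C.T4
section

open TopologicalSpace Set Filter Topology MeasureTheory
open scoped Manifold ContDiff
open Pool.Agent.Lib.Helper37.ConjBorel

namespace Pool.Agent.Lib.H37C

theorem t4_bool : PolishSpace Bool := by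
  have h : IsClosedEmbedding (fun b : Bool => b.toNat) := by
    refine IsClosedEmbedding.of_continuous_injective_isClosedMap continuous_of_discreteTopology ?_ ?_
    · intro a b h
      cases a <;> cases b <;> simp_all
    · intro s _
      exact isClosed_discrete _
  exact h.polishSpace

/-- **T4.** There is an analytic subset of `2^ℕ` which is not Borel.

Proof: `Pool.Agent.S14935Aux.exists_measurable_nonmeasurable_proj` gives a Borel set `C` of
`2^ℕ × ℕ^ℕ` whose projection `{x | ∃ y, (x, y) ∈ C} = Prod.fst '' C` is not Borel; it is analytic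
(`MeasurableSet.analyticSet`, `AnalyticSet.image_of_continuous`). -/
theorem exists_analytic_nonborel : ∃ A : Set (ℕ → Bool), AnalyticSet A ∧ ¬ MeasurableSet A := by
  have hB : PolishSpace Bool := t4_bool
  obtain ⟨C, hC, hn⟩ := Pool.Agent.S14935Aux.exists_measurable_nonmeasurable_proj
  refine ⟨{x : ℕ → Bool | ∃ y, (x, y) ∈ C}, ?_, hn⟩
  have e : {x : ℕ → Bool | ∃ y, (x, y) ∈ C} = Prod.fst '' C := by
    ext x
    constructor
    · rintro ⟨y, hy⟩
      exact ⟨(x, y), hy, rfl⟩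
    · rintro ⟨⟨x', y⟩, hy, rfl⟩
      exact ⟨y, hy⟩
  rw [e]
  exact hC.analyticSet.image_of_continuous continuous_fst

/-- **T4, second part.** Topological conjugacy is an analytic relation on every open set.

Proof. See `main_theorem` in `Pool.Agent.Lib.Helper37.ConjBorel.Proof` for the Polish spaces:
`polishSpace_diffInf`, `homeo_polishSpace` (the group `M ≃ₜ M` with `homeoTopology` as a local
instance). The set is the image, under the projection to the last two factors, of the closed subset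
`{(h, f, g) | h ∘ f = g ∘ h}` of the Polish space `(M ≃ₜ M) × U × U` (the evaluation maps are
continuous; `U` is open in a Polish space, hence Polish: `IsOpen.polishSpace`). Use
`IsClosed.analyticSet` and `AnalyticSet.image_of_continuous`. -/
theorem analyticSet_topConj {n : ℕ} {M : Type*} [TopologicalSpace M] [T2Space M] [CompactSpace M]
    [ChartedSpace (Euc n) M] [IsManifold (𝓡 n) ∞ M] (U : Set (DiffInf n M)) (hU : IsOpen U) :
    AnalyticSet {p : U × U | TopConj (p.1 : DiffInf n M) (p.2 : DiffInf n M)} := by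
  have hX : PolishSpace (DiffInf n M) := polishSpace_diffInf
  have hMsc : SecondCountableTopology M := by
    obtain ⟨ι, hι, ⟨A⟩⟩ := exists_goodCover (n := n) (M := M)
    exact A.emb.isEmbedding.secondCountableTopology
  let _ : TopologicalSpace (M ≃ₜ M) := homeoTopology M
  have hG : PolishSpace (M ≃ₜ M) := homeo_polishSpace
  have hU' : PolishSpace U := hU.polishSpace
  have hcl : IsClosed {q : (M ≃ₜ M) × (U × U) |
      ∀ x, q.1 ((q.2.1 : DiffInf n M) x) = (q.2.2 : DiffInf n M) (q.1 x)} := by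
    have e : {q : (M ≃ₜ M) × (U × U) |
        ∀ x, q.1 ((q.2.1 : DiffInf n M) x) = (q.2.2 : DiffInf n M) (q.1 x)} =
        ⋂ x : M, {q : (M ≃ₜ M) × (U × U) |
          q.1 ((q.2.1 : DiffInf n M) x) = (q.2.2 : DiffInf n M) (q.1 x)} := by
      ext q
      rw [mem_iInter]
      rfl
    rw [e]
    refine isClosed_iInter fun x => ?_
    have h1 : Continuous fun q : (M ≃ₜ M) × (U × U) => (q.1 : C(M, M)) :=
      continuous_homeo_fst.comp continuous_fst
    have h2 : Continuous fun q : (M ≃ₜ M) × (U × U) => toCM (q.2.1 : DiffInf n M) :=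
      continuous_toCM.comp (continuous_subtype_val.comp (continuous_fst.comp continuous_snd))
    have h3 : Continuous fun q : (M ≃ₜ M) × (U × U) => toCM (q.2.2 : DiffInf n M) :=
      continuous_toCM.comp (continuous_subtype_val.comp (continuous_snd.comp continuous_snd))
    have h4 : Continuous fun q : (M ≃ₜ M) × (U × U) => (q.1 : C(M, M)) (toCM (q.2.1 : DiffInf n M) x) :=
      h1.eval (h2.eval continuous_const)
    have h5 : Continuous fun q : (M ≃ₜ M) × (U × U) => toCM (q.2.2 : DiffInf n M) ((q.1 : C(M, M)) x) :=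
      h3.eval (h1.eval continuous_const)
    exact isClosed_eq h4 h5
  have himg : {p : U × U | TopConj (p.1 : DiffInf n M) (p.2 : DiffInf n M)} =
      Prod.snd '' {q : (M ≃ₜ M) × (U × U) |
        ∀ x, q.1 ((q.2.1 : DiffInf n M) x) = (q.2.2 : DiffInf n M) (q.1 x)} := by
    ext p
    constructor
    · rintro ⟨h, hh⟩
      exact ⟨(h, p), hh, rfl⟩
    · rintro ⟨⟨h, p'⟩, hh, rfl⟩
      exact ⟨h, hh⟩
  rw [himg]
  exact hcl.analyticSet.image_of_continuous continuous_snd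

end Pool.Agent.Lib.H37C
end

-- from Lib.H37N.I2a
section

/-! # H37N, chunk I2a (S): divided differences -/

open Set Filter Topology
open scoped ContDiff

namespace Pool.Agent.Lib.H37N

variable {P E W : Type} [NormedAddCommGroup P] [NormedSpace ℝ P] [FiniteDimensional ℝ P]
  [NormedAddCommGroup E] [NormedSpace ℝ E] [FiniteDimensional ℝ E]
  [NormedAddCommGroup W] [NormedSpace ℝ W] [CompleteSpace W]

/-- PROOF. `hadamard1` (parameter space P × E) for F((p,v),s) = R(p, β p + s v): D(p,v,s) = G((p,v),s); the value at s = 0 is the derivative of s ↦ R(p, β p + s v) at 0, chain rule. -/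
theorem divdiff {R : P × E → W} (hR : ContDiff ℝ ∞ R) {β : P → E} (hβ : ContDiff ℝ ∞ β) :
    ∃ D : P × E × ℝ → W, ContDiff ℝ ∞ D ∧ (∀ p v s, R (p, β p + s • v) = R (p, β p) + s • D (p, v, s)) ∧
      ∀ p v, D (p, v, 0) = fderiv ℝ (fun y => R (p, y)) (β p) v := by
  have hF : ContDiff ℝ ∞ (fun q : (P × E) × ℝ => R (q.1.1, β q.1.1 + q.2 • q.1.2)) := by
    refine hR.comp ?_
    refine (contDiff_fst.comp contDiff_fst).prodMk ?_
    refine (hβ.comp (contDiff_fst.comp contDiff_fst)).add ?_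
    exact contDiff_snd.smul (contDiff_snd.comp contDiff_fst)
  obtain ⟨G, hG, h1, h2⟩ := hadamard1 (P := P × E) hF
  refine ⟨fun q => G ((q.1, q.2.1), q.2.2), ?_, ?_, ?_⟩
  · exact hG.comp ((contDiff_fst.prodMk (contDiff_fst.comp contDiff_snd)).prodMk
      (contDiff_snd.comp contDiff_snd))
  · intro p v s
    have := h1 (p, v) s
    simpa using this
  · intro p v
    have h3 := h2 (p, v)
    simp only at h3 ⊢
    rw [h3]
    have h4 : HasFDerivAt (fun y => R (p, y)) (fderiv ℝ (fun y => R (p, y)) (β p)) (β p + (0 : ℝ) • v) := by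
      rw [zero_smul, add_zero]
      have : ContDiff ℝ ∞ (fun y => R (p, y)) := hR.comp (contDiff_const.prodMk contDiff_id)
      exact (this.differentiable (by simp) _).hasFDerivAt
    have h5 : HasDerivAt (fun t : ℝ => β p + t • v) v 0 := by
      have h6 := ((hasDerivAt_id (0 : ℝ)).smul_const v).const_add (β p)
      simpa using h6
    exact (h4.comp_hasDerivAt (0 : ℝ) h5).deriv

end Pool.Agent.Lib.H37N
end

-- from Lib.H37D.DI2c
section

/-! # H37D, chunk DI2c (M): the functions N and Mh (port of H37N/I2c.lean) -/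

open Set Filter Topology
open scoped ContDiff

namespace Pool.Agent.Lib.H37D

open Pool.Agent.Lib.H37N

variable {d : ℕ}

/-- PROOF. `inverse_param` for `F((x0,w0),t) = XX((x0,t),w0)` at `(0,0)`: `θ` smooth, `θ((x0,w0), XX((x0,t),w0)) = t`
near `(0,0)`. `N((x0,w0),X) = YY((x0,θ),w0) - YY((0,θ),0)` with `θ = θ((x0,w0),X)`; `N(0,X) = 0`.
`divdiff` for `R(p,y) = YY((y.1,p.2),y.2) - N(p.1, XX((y.1,p.2),y.2))` (`p = ((x0,w0),t)`, `y = (x,w)`), `β p = p.1`. -/
theorem exists_NMD {XX YY : En d → ℝ} (hX : ContDiff ℝ ∞ XX) (hY : ContDiff ℝ ∞ YY) {al gm : ℝ}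
    (hXt : HasDerivAt (fun t : ℝ => XX ((0, t), 0)) al 0) (hal : al ≠ 0)
    (hYx : HasDerivAt (fun x : ℝ => YY ((x, 0), 0)) gm 0) :
    ∃ (N : (ℝ × Wd d) × ℝ → ℝ) (Mh : ((ℝ × Wd d) × ℝ) × (ℝ × Wd d) × ℝ → ℝ), ContDiff ℝ ∞ N ∧
      (∀ X, N (0, X) = 0) ∧ ContDiff ℝ ∞ Mh ∧ (∀ z : ℝ, Mh (0, (z, 0), 0) = gm * z) ∧
      ∀ᶠ p : (ℝ × Wd d) × ℝ in 𝓝 0, ∀ (v : ℝ × Wd d) (s : ℝ),
        YY ((p.1.1 + s * v.1, p.2), p.1.2 + s • v.2) -
            N (p.1, XX ((p.1.1 + s * v.1, p.2), p.1.2 + s • v.2)) =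
          YY ((0, p.2), 0) + s * Mh (p, v, s) := by
  have hF : ContDiff ℝ ∞ (fun q : (ℝ × Wd d) × ℝ => XX ((q.1.1, q.2), q.1.2)) :=
    hX.comp (((contDiff_fst.comp contDiff_fst).prodMk contDiff_snd).prodMk (contDiff_snd.comp contDiff_fst))
  obtain ⟨θ, hθ, -, h1, -⟩ := inverse_param (P := ℝ × Wd d) (F := fun q : (ℝ × Wd d) × ℝ => XX ((q.1.1, q.2), q.1.2))
    (p₀ := (0 : ℝ × Wd d)) (t₀ := (0 : ℝ))
    (Eventually.of_forall fun q => hF.contDiffAt) (by
      have : deriv (fun t : ℝ => XX (((0 : ℝ × Wd d).1, t), (0 : ℝ × Wd d).2)) 0 = al := hXt.deriv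
      rw [this]; exact hal)
  have hN : ContDiff ℝ ∞ (fun r : (ℝ × Wd d) × ℝ => YY ((r.1.1, θ r), r.1.2) - YY ((0, θ r), 0)) :=
    (hY.comp (((contDiff_fst.comp contDiff_fst).prodMk hθ).prodMk (contDiff_snd.comp contDiff_fst))).sub
      (hY.comp ((contDiff_const.prodMk hθ).prodMk contDiff_const))
  have hR : ContDiff ℝ ∞ (fun q : ((ℝ × Wd d) × ℝ) × (ℝ × Wd d) => YY ((q.2.1, q.1.2), q.2.2) -
      (fun r : (ℝ × Wd d) × ℝ => YY ((r.1.1, θ r), r.1.2) - YY ((0, θ r), 0)) (q.1.1, XX ((q.2.1, q.1.2), q.2.2))) := by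
    have e1 : ContDiff ℝ ∞ (fun q : ((ℝ × Wd d) × ℝ) × (ℝ × Wd d) => (((q.2.1, q.1.2), q.2.2) : En d)) :=
      ((contDiff_fst.comp contDiff_snd).prodMk (contDiff_snd.comp contDiff_fst)).prodMk
        (contDiff_snd.comp contDiff_snd)
    exact (hY.comp e1).sub (hN.comp ((contDiff_fst.comp contDiff_fst).prodMk (hX.comp e1)))
  obtain ⟨D, hD, hD1, hD2⟩ := divdiff (P := (ℝ × Wd d) × ℝ) (E := ℝ × Wd d) hR
    (β := fun p : (ℝ × Wd d) × ℝ => p.1) contDiff_fst
  refine ⟨fun r : (ℝ × Wd d) × ℝ => YY ((r.1.1, θ r), r.1.2) - YY ((0, θ r), 0), D, hN, ?_, hD, ?_, ?_⟩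
  · intro X
    simp
  · intro z
    rw [hD2]
    have h2 : ContDiff ℝ ∞ (fun y : ℝ × Wd d => YY ((y.1, 0), y.2)) :=
      hY.comp ((contDiff_fst.prodMk contDiff_const).prodMk contDiff_snd)
    have h3 : (fun y : ℝ × Wd d => YY ((y.1, (0 : (ℝ × Wd d) × ℝ).2), y.2) -
        (fun r : (ℝ × Wd d) × ℝ => YY ((r.1.1, θ r), r.1.2) - YY ((0, θ r), 0))
          ((0 : (ℝ × Wd d) × ℝ).1, XX ((y.1, (0 : (ℝ × Wd d) × ℝ).2), y.2))) =
        fun y : ℝ × Wd d => YY ((y.1, 0), y.2) := by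
      funext y
      simp
    have h4 := (h2.differentiable (by simp) (0 : ℝ × Wd d)).hasFDerivAt
    have h5 : HasDerivAt (fun t : ℝ => ((t * z, 0) : ℝ × Wd d)) (z, 0) 0 := by
      have := (hasDerivAt_id (0 : ℝ)).mul_const z
      rw [one_mul] at this
      exact this.prodMk (hasDerivAt_const _ _)
    have h4' : HasFDerivAt (fun y : ℝ × Wd d => YY ((y.1, 0), y.2))
        (fderiv ℝ (fun y : ℝ × Wd d => YY ((y.1, 0), y.2)) 0) ((0 : ℝ) * z, 0) := by
      rw [zero_mul]; exact h4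
    have h6 := HasFDerivAt.comp_hasDerivAt (0 : ℝ) (f := fun t : ℝ => ((t * z, 0) : ℝ × Wd d))
      (l := fun y : ℝ × Wd d => YY ((y.1, 0), y.2)) h4' h5
    have h7 : HasDerivAt (fun t : ℝ => YY ((t * z, 0), 0)) (gm * z) 0 := by
      have h8 : HasDerivAt (fun x : ℝ => YY ((x, 0), 0)) gm ((0 : ℝ) * z) := by rw [zero_mul]; exact hYx
      have h9 := (hasDerivAt_id (0 : ℝ)).mul_const z
      rw [one_mul] at h9
      exact h8.comp (0 : ℝ) h9
    exact (congrArg (fun F => fderiv ℝ F (0 : ℝ × Wd d) (z, 0)) h3).trans (h6.unique h7)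
  · filter_upwards [h1] with p hp v s
    have h3 := hD1 p v s
    simp only [smul_eq_mul, Prod.fst_add, Prod.snd_add, Prod.smul_fst, Prod.smul_snd] at h3 hp ⊢
    rw [h3]
    have hp' : θ (p.1, XX ((p.1.1, p.2), p.1.2)) = p.2 := hp
    rw [hp']
    ring

end Pool.Agent.Lib.H37D
end

-- from Lib.H37N.I2d
section

/-! # H37N, chunk I2d (M): normal forms of the maps T along the curve -/

open Set Filter Topology Asymptotics
open scoped ContDiff

namespace Pool.Agent.Lib.H37N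

theorem i2d_zero (n : ℕ) : ∀ {g : ℝ → ℝ}, Continuous g →
    ((fun t : ℝ => t ^ n * g t) =O[𝓝 0] fun t : ℝ => t ^ (n + 1)) → g 0 = 0 := by
  induction n with
  | zero =>
    intro g _ h
    obtain ⟨C, hC⟩ := h.bound
    have := hC.self_of_nhds
    simpa using this
  | succ n ih =>
    intro g hg h
    refine ih hg ?_
    refine t2b_div (g := fun t : ℝ => t ^ n * g t) (by fun_prop) (n + 1) ?_
    refine h.congr_left fun t => ?_
    simp only [smul_eq_mul]
    ring

/-- a smooth function of one variable with the expansion ka t^(m+1) + O(t^(m+2)).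

PROOF. f(t) = O(t^(m+1)) (ka t^(m+1) = O(t^(m+1)), t^(m+2) = O(t^(m+1)) at 0).  `hadamard_pow` with a trivial parameter (P = ℝ, F(p,t) = f(t), G(0,·)): f(t) = t^(m+1) Yh(t), Yh smooth.
t^(m+1)(Yh t - ka) = O(t^(m+2)), so Yh t - ka = O(t) for t ≠ 0, so Yh 0 = ka by continuity. -/
theorem exists_hat {f : ℝ → ℝ} (hf : ContDiff ℝ ∞ f) {m : ℕ} {ka : ℝ}
    (h : (fun t => f t - ka * t ^ (m + 1)) =O[𝓝 0] fun t : ℝ => t ^ (m + 2)) :
    ∃ Yh : ℝ → ℝ, ContDiff ℝ ∞ Yh ∧ Yh 0 = ka ∧ ∀ t, f t = t ^ (m + 1) * Yh t := by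
  have h0 : (fun t : ℝ => t ^ (m + 2)) =O[𝓝 0] fun t : ℝ => t ^ (m + 1) := by
    have : (fun t : ℝ => t ^ (m + 2)) = fun t : ℝ => t * t ^ (m + 1) := by
      funext t; ring
    rw [this]
    have h1 : (fun t : ℝ => t) =O[𝓝 0] fun _ : ℝ => (1 : ℝ) := continuous_id.continuousAt.isBigO_one ℝ
    simpa using h1.mul (isBigO_refl (fun t : ℝ => t ^ (m + 1)) (𝓝 0))
  have h1 : f =O[𝓝 0] fun t : ℝ => t ^ (m + 1) := by
    have h2 := (h.trans h0).add ((isBigO_refl (fun t : ℝ => t ^ (m + 1)) (𝓝 0)).const_mul_left ka)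
    refine h2.congr_left fun t => ?_
    ring
  obtain ⟨G, hG, hfG⟩ := hadamard_pow (P := ℝ) (W := ℝ) (F := fun q => f q.2) (hf.comp contDiff_snd) (m + 1)
    (fun p => h1)
  refine ⟨fun t => G (0, t), hG.comp (contDiff_const.prodMk contDiff_id), ?_, fun t => ?_⟩
  · have hc : Continuous (fun t : ℝ => G (0, t) - ka) :=
      (hG.continuous.comp (by fun_prop)).sub continuous_const
    have := i2d_zero (m + 1) hc (by
      refine h.congr_left fun t => ?_
      have := hfG 0 t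
      simp only [smul_eq_mul] at this
      rw [this]
      ring)
    linarith
  · have := hfG 0 t
    simpa using this



end Pool.Agent.Lib.H37N
end

-- from Lib.H37D.DI2d
section

/-! # H37D, chunk DI2d (M): normal forms of the maps T along the curve (port of H37N/I2d.lean) -/

open Set Filter Topology Asymptotics
open scoped ContDiff

namespace Pool.Agent.Lib.H37D

open Pool.Agent.Lib.H37N

variable {d : ℕ}

theorem di2d_lim : Tendsto (fun t : ℝ => (((0, t), 0) : En d)) (𝓝 0) (𝓝 0) := by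
  have : Continuous (fun t : ℝ => (((0, t), 0) : En d)) := by fun_prop
  exact this.tendsto' 0 0 rfl

theorem di2d_t {g : En d → En d} {L : En d →L[ℝ] En d} (hd : HasFDerivAt g L 0) :
    HasDerivAt (fun t : ℝ => g ((0, t), 0)) (L ((0, 1), 0)) 0 := by
  have hd2 : HasDerivAt (fun t : ℝ => (((0, t), 0) : En d)) ((0, 1), 0) 0 :=
    ((hasDerivAt_const _ _).prodMk (hasDerivAt_id _)).prodMk (hasDerivAt_const _ _)
  exact HasFDerivAt.comp_hasDerivAt (0 : ℝ) (f := fun t : ℝ => (((0, t), 0) : En d)) (l := g) hd hd2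

theorem di2d_x {g : En d → En d} {L : En d →L[ℝ] En d} (hd : HasFDerivAt g L 0) :
    HasDerivAt (fun t : ℝ => g ((t, 0), 0)) (L ((1, 0), 0)) 0 := by
  have hd2 : HasDerivAt (fun t : ℝ => (((t, 0), 0) : En d)) ((1, 0), 0) 0 :=
    ((hasDerivAt_id _).prodMk (hasDerivAt_const _ _)).prodMk (hasDerivAt_const _ _)
  exact HasFDerivAt.comp_hasDerivAt (0 : ℝ) (f := fun t : ℝ => (((t, 0), 0) : En d)) (l := g) hd hd2

/-- first place -/
theorem exists_normal1D {T : En d → En d} (hT : ∀ᶠ v in 𝓝 (0 : En d), ContDiffAt ℝ ∞ T v) {a al ka : ℝ}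
    {w : Wd d} {m : ℕ} (h0 : T 0 = ((a, 0), w)) (hal : (fderiv ℝ T 0 ((0, 1), 0)).1.1 = al)
    (hka : (fun t : ℝ => (T ((0, t), 0)).1.2 - ka * t ^ (m + 1)) =O[𝓝 0] fun t : ℝ => t ^ (m + 2)) :
    ∃ (Ah Yh : ℝ → ℝ) (wh : ℝ → Wd d), ContDiff ℝ ∞ Ah ∧ ContDiff ℝ ∞ Yh ∧ ContDiff ℝ ∞ wh ∧ Ah 0 = al ∧ Yh 0 = ka ∧
      ∀ᶠ t : ℝ in 𝓝 0, T ((0, t), 0) = ((a + t * Ah t, t ^ (m + 1) * Yh t), w + t • wh t) := by
  obtain ⟨g, hg, hgT⟩ := localise_at hT
  have hev := (di2d_lim (d := d)).eventually hgT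
  have hc : ContDiff ℝ ∞ (fun t : ℝ => g ((0, t), 0)) :=
    hg.comp ((contDiff_const.prodMk contDiff_id).prodMk contDiff_const)
  have hc2 : ContDiff ℝ ∞ (fun q : ℝ × ℝ => g ((0, q.2), 0)) :=
    hg.comp ((contDiff_const.prodMk contDiff_snd).prodMk contDiff_const)
  obtain ⟨A, hA, hA1, hA2⟩ := hadamard1 (P := ℝ) (W := ℝ) (F := fun q => (g ((0, q.2), 0)).1.1)
    (contDiff_fst.comp (contDiff_fst.comp hc2))
  obtain ⟨B, hB, hB1, -⟩ := hadamard1 (P := ℝ) (W := Wd d) (F := fun q => (g ((0, q.2), 0)).2)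
    (contDiff_snd.comp hc2)
  obtain ⟨Yh, hY, hY0, hY1⟩ := exists_hat (f := fun t => (g ((0, t), 0)).1.2) (ka := ka) (m := m)
    (contDiff_snd.comp (contDiff_fst.comp hc)) (by
      refine (hka.congr' ?_ EventuallyEq.rfl)
      filter_upwards [hev] with t ht
      rw [ht])
  have hg0 : g 0 = ((a, 0), w) := by rw [hgT.self_of_nhds, h0]
  have hg00 : g ((0, 0), 0) = ((a, 0), w) := hg0
  refine ⟨fun t => A (0, t), Yh, fun t => B (0, t), hA.comp (contDiff_const.prodMk contDiff_id), hY,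
    hB.comp (contDiff_const.prodMk contDiff_id), ?_, hY0, ?_⟩
  · show A (0, 0) = al
    rw [hA2]
    have hd : HasFDerivAt g (fderiv ℝ T 0) 0 := by
      have h1 := (hg.differentiable (by simp) 0).hasFDerivAt
      rwa [hgT.fderiv_eq] at h1
    have hd4 : HasDerivAt (fun t : ℝ => (g ((0, t), 0)).1.1) (fderiv ℝ T 0 ((0, 1), 0)).1.1 0 := (di2d_t hd).fst.fst
    rw [hd4.deriv, hal]
  · filter_upwards [hev] with t ht
    have h1 := hA1 0 t
    have h2 := hY1 t
    have h3 := hB1 0 t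
    simp only [smul_eq_mul] at h1
    rw [hg00] at h1 h3
    rw [← ht]
    exact Prod.ext (Prod.ext h1 h2) h3

/-- second place -/
theorem exists_normal2D {T : En d → En d} (hT : ∀ᶠ v in 𝓝 (0 : En d), ContDiffAt ℝ ∞ T v) {a al gm ka : ℝ}
    {w : Wd d} {m : ℕ} (h0 : T 0 = ((a, 0), w)) (hal : (fderiv ℝ T 0 ((0, 1), 0)).1.1 = al)
    (hgm : (fderiv ℝ T 0 ((1, 0), 0)).1.2 = gm)
    (hka : (fun t : ℝ => (T ((0, t), 0)).1.2 - ka * t ^ (m + 1)) =O[𝓝 0] fun t : ℝ => t ^ (m + 2)) :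
    ∃ (XX YY : En d → ℝ) (WW : En d → Wd d) (Yk : ℝ → ℝ), ContDiff ℝ ∞ XX ∧ ContDiff ℝ ∞ YY ∧ ContDiff ℝ ∞ WW ∧
      ContDiff ℝ ∞ Yk ∧ XX 0 = a ∧ WW 0 = w ∧
      HasDerivAt (fun t : ℝ => XX ((0, t), 0)) al 0 ∧ HasDerivAt (fun x : ℝ => YY ((x, 0), 0)) gm 0 ∧ Yk 0 = ka ∧
      (∀ t, YY ((0, t), 0) = t ^ (m + 1) * Yk t) ∧ ∀ᶠ v : En d in 𝓝 0, T v = ((XX v, YY v), WW v) := by
  obtain ⟨g, hg, hgT⟩ := localise_at hT
  have hev := (di2d_lim (d := d)).eventually hgT
  have hc : ContDiff ℝ ∞ (fun t : ℝ => g ((0, t), 0)) :=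
    hg.comp ((contDiff_const.prodMk contDiff_id).prodMk contDiff_const)
  obtain ⟨Yk, hY, hY0, hY1⟩ := exists_hat (f := fun t => (g ((0, t), 0)).1.2) (ka := ka) (m := m)
    (contDiff_snd.comp (contDiff_fst.comp hc)) (by
      refine (hka.congr' ?_ EventuallyEq.rfl)
      filter_upwards [hev] with t ht
      rw [ht])
  have hg0 : g 0 = ((a, 0), w) := by rw [hgT.self_of_nhds, h0]
  have hd : HasFDerivAt g (fderiv ℝ T 0) 0 := by
    have h1 := (hg.differentiable (by simp) 0).hasFDerivAt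
    rwa [hgT.fderiv_eq] at h1
  refine ⟨fun v => (g v).1.1, fun v => (g v).1.2, fun v => (g v).2, Yk, contDiff_fst.comp (contDiff_fst.comp hg),
    contDiff_snd.comp (contDiff_fst.comp hg), contDiff_snd.comp hg, hY, ?_, ?_, ?_, ?_, hY0, hY1, ?_⟩
  · show (g 0).1.1 = a
    rw [hg0]
  · show (g 0).2 = w
    rw [hg0]
  · rw [← hal]
    exact (di2d_t hd).fst.fst
  · rw [← hgm]
    exact (di2d_x hd).fst.snd
  · filter_upwards [hgT] with v hv
    rw [hv]

end Pool.Agent.Lib.H37D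
end

-- from Lib.H37D.NDefs
section

/-!
# H37D, section N: definitions (centre discs, centre spots in normal form)
-/

open Set Filter Topology
open scoped ContDiff

namespace Pool.Agent.Lib.H37D

open Pool.Agent.Lib.H37N

noncomputable section

variable {d : ℕ}

/-- the result of stage II: a smooth disc of points of (not necessarily minimal) period `K` in the region `Omd` -/
def CDisc (g : En d → En d) : Prop :=
  ∃ K : ℕ, 0 < K ∧ ∃ ι : Pt → En d, ContDiff ℝ ∞ ι ∧ Function.Injective (fderiv ℝ ι 0) ∧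
    ∀ᶠ v in 𝓝 (0 : Pt), (∀ i < K, g^[i] (ι v) ∈ Omd d) ∧ g^[K] (ι v) = ι v

/-- the box of the tube -/
def Bt (d : ℕ) : Set (En d) := Metric.ball 0 4

/-- a centre spot in normal form: the points `Θ (v, 0)` have period `m` (the images of the tube `Θ (Bt d)` under
`g^i`, `0 < i < m`, are disjoint from the tube), and `g^m (Θ (v, w)) = Θ (v, A v w)` -/
structure CSpotD (g : En d → En d) (m : ℕ) (Θ c : En d → En d) (A : Pt → Wd d →L[ℝ] Wd d) : Prop where
  pos : 0 < m
  smooth : ContDiff ℝ ∞ Θ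
  smooth_c : ContDiff ℝ ∞ c
  left : ∀ p ∈ Bt d, c (Θ p) = p
  isOpen : IsOpen (Θ '' Bt d)
  smooth_A : ContDiff ℝ ∞ A
  A_bij : ∀ v, ‖v‖ < 4 → Function.Bijective (A v)
  A_le : ∀ v, ‖v‖ < 4 → ∀ w, ‖A v w‖ ≤ 1 / 8 * ‖w‖
  A_close : ∀ v, ‖v‖ < 4 → ∀ v', ‖v'‖ < 4 → ∀ w, ‖A v w - A v' w‖ ≤ 1 / 100 * ‖A v' w‖
  lin : ∀ v w, ‖v‖ < 4 → ‖w‖ < 4 → g^[m] (Θ (v, w)) = Θ (v, A v w)
  path : ∀ p ∈ Bt d, ∀ i ≤ m, g^[i] (Θ p) ∈ Omd d
  disj : ∀ i, 0 < i → i < m → ∀ p ∈ Bt d, ∀ q ∈ Bt d, g^[i] (Θ p) ≠ Θ q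
  cone : ∀ v w, ‖v‖ < 4 → ‖w‖ < 4 → ‖(Θ (v, w)).1 - (Θ (v, 0)).1‖ ≤ 1 / 10 ^ 7 * ‖(Θ (v, w)).2 - (Θ (v, 0)).2‖

/-- `g` has a centre spot -/
def LocalSpotD (g : En d → En d) : Prop :=
  ∃ (m : ℕ) (Θ c : En d → En d) (A : Pt → Wd d →L[ℝ] Wd d), CSpotD g m Θ c A

end

end Pool.Agent.Lib.H37D
end

-- from Lib.H37N.T8
section

/-! # H37N, chunk T8 (M): small perturbations are diffeomorphisms -/

open Set Filter Topology Asymptotics
open scoped ContDiff

namespace Pool.Agent.Lib.H37N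

theorem Small.mono {R R' : ℕ} {ε ε' : ℝ} {ψ : Pt → Pt} (h : Small R ε ψ) (hR : R' ≤ R) (hε : ε ≤ ε') : Small R' ε' ψ :=
  ⟨h.smooth, h.supp, fun j hj z => (h.bound j (hj.trans hR) z).trans hε⟩

/-- PROOF. j = 0: `norm_iteratedFDeriv_zero`. -/
theorem Small.norm_sub_le {R : ℕ} {ε : ℝ} {ψ : Pt → Pt} (h : Small R ε ψ) (z : Pt) : ‖ψ z - z‖ ≤ ε := by
  have h1 := h.bound 0 (Nat.zero_le _) z
  rwa [norm_iteratedFDeriv_zero] at h1

theorem t8_fderiv {R : ℕ} {ε : ℝ} {ψ : Pt → Pt} (h : Small R ε ψ) (hR : 1 ≤ R) (z : Pt) :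
    ‖fderiv ℝ (fun z => ψ z - z) z‖ ≤ ε := by
  have h1 := h.bound 1 hR z
  rwa [norm_iteratedFDeriv_one] at h1

theorem t8_diff {R : ℕ} {ε : ℝ} {ψ : Pt → Pt} (h : Small R ε ψ) : Differentiable ℝ (fun z => ψ z - z) :=
  (h.smooth.differentiable (by simp)).sub differentiable_id

/-- PROOF. j = 1: ‖iteratedFDeriv 1 f z‖ = ‖fderiv f z‖ (`norm_iteratedFDeriv_one`), mean value inequality on the whole plane
(`Convex.norm_image_sub_le_of_norm_fderiv_le`, convex_univ). -/
theorem Small.lip {R : ℕ} {ε : ℝ} {ψ : Pt → Pt} (h : Small R ε ψ) (hR : 1 ≤ R) (z w : Pt) :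
    ‖(ψ z - z) - (ψ w - w)‖ ≤ ε * ‖z - w‖ := by
  exact Convex.norm_image_sub_le_of_norm_fderiv_le (𝕜 := ℝ) (f := fun z => ψ z - z) (s := univ)
    (fun x _ => (t8_diff h) x) (fun x _ => t8_fderiv h hR x) convex_univ (mem_univ w) (mem_univ z)

theorem t8_expand {ψ : Pt → Pt} (h : Small 1 (1 / 2) ψ) (z w : Pt) :
    ‖z - w‖ ≤ 2 * ‖ψ z - ψ w‖ := by
  have h1 := h.lip le_rfl z w
  have h2 : z - w = (ψ z - ψ w) - ((ψ z - z) - (ψ w - w)) := by abel
  have h3 : ‖z - w‖ ≤ ‖ψ z - ψ w‖ + ‖(ψ z - z) - (ψ w - w)‖ := by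
    conv_lhs => rw [h2]
    exact norm_sub_le _ _
  linarith

theorem t8_inj {ψ : Pt → Pt} (h : Small 1 (1 / 2) ψ) : Function.Injective ψ := by
  intro z w hzw
  have h1 := t8_expand h z w
  rw [hzw, sub_self, norm_zero, mul_zero] at h1
  have h2 : ‖z - w‖ = 0 := le_antisymm h1 (norm_nonneg _)
  exact sub_eq_zero.mp (norm_eq_zero.mp h2)






end Pool.Agent.Lib.H37N
end

-- from Lib.H37D.DZ21
section

/-! # H37D, chunk DZ21 (S): zoom, with the value at `ρ = 0` for all parameters -/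

open Set Filter Topology Asymptotics
open scoped ContDiff

namespace Pool.Agent.Lib.H37D

open Pool.Agent.Lib.H37N

/-- PROOF. `hadamard1` (P = P' × E, t = ρ) for ((ε,ξ),ρ) ↦ F (ρ • ε, x0 + ρ • ξ): G smooth with F (ρ • ε, x0 + ρ • ξ) = F (0, x0) + ρ • G ((ε,ξ),ρ) and G ((ε,ξ),0) = deriv at ρ = 0 of
F (ρ • ε, x0 + ρ • ξ) = fderiv F (0,x0) (ε,ξ) (chain rule along the line ρ ↦ (0,x0) + ρ • (ε,ξ)).  H ((ρ,ε),ξ) := G ((ε,ξ),ρ). -/
theorem zoomD {P' E W : Type} [NormedAddCommGroup P'] [NormedSpace ℝ P'] [FiniteDimensional ℝ P']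
    [NormedAddCommGroup E] [NormedSpace ℝ E] [FiniteDimensional ℝ E] [NormedAddCommGroup W] [NormedSpace ℝ W]
    [CompleteSpace W] {F : P' × E → W} (hF : ContDiff ℝ ∞ F) (x0 : E) :
    ∃ H : (ℝ × P') × E → W, ContDiff ℝ ∞ H ∧
      (∀ (ρ : ℝ) (ε : P') (ξ : E), F (ρ • ε, x0 + ρ • ξ) = F (0, x0) + ρ • H ((ρ, ε), ξ)) ∧
      ∀ (ε : P') (ξ : E), H ((0, ε), ξ) = fderiv ℝ F (0, x0) (ε, ξ) := by
  have h1 : ContDiff ℝ ∞ (fun r : (P' × E) × ℝ => F (r.2 • r.1.1, x0 + r.2 • r.1.2)) :=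
    hF.comp (by fun_prop)
  obtain ⟨G, hG, h2, h3⟩ := hadamard1 h1
  refine ⟨fun q => G ((q.1.2, q.2), q.1.1), hG.comp (by fun_prop), fun ρ ε ξ => ?_, fun ε ξ => ?_⟩
  · have h4 := h2 (ε, ξ) ρ
    simp only [zero_smul, add_zero] at h4
    exact h4
  · have h4 := h3 (ε, ξ)
    show G ((ε, ξ), 0) = _
    rw [h4]
    have h5 : HasDerivAt (fun t : ℝ => ((t • ε, x0 + t • ξ) : P' × E)) (ε, ξ) 0 := by
      have e1 : HasDerivAt (fun t : ℝ => t • ε) ((1 : ℝ) • ε) 0 := (hasDerivAt_id (0 : ℝ)).smul_const ε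
      have e2 : HasDerivAt (fun t : ℝ => x0 + t • ξ) ((1 : ℝ) • ξ) 0 :=
        ((hasDerivAt_id (0 : ℝ)).smul_const ξ).const_add x0
      rw [one_smul] at e1 e2
      exact e1.prodMk e2
    have h6 : HasFDerivAt F (fderiv ℝ F (0, x0)) ((fun t : ℝ => ((t • ε, x0 + t • ξ) : P' × E)) 0) := by
      simp only [zero_smul, add_zero]
      exact (hF.differentiable (by simp) _).hasFDerivAt
    exact (h6.comp_hasDerivAt 0 h5).deriv

end Pool.Agent.Lib.H37D
end

-- from Lib.H37N.I3c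
section

/-! # H37N, chunk I3c (M): expansions in powers of a function, with parameters -/

open Set Filter Topology Asymptotics
open scoped ContDiff

namespace Pool.Agent.Lib.H37N

/-- primitive of a `O(x^n)`. -/
theorem i3c_prim {h h' : ℝ → ℝ} {n : ℕ} (hd : ∀ᶠ x in 𝓝 (0 : ℝ), HasDerivAt h (h' x) x)
    (hO : h' =O[𝓝 0] fun x : ℝ => x ^ n) (h0 : h 0 = 0) : h =O[𝓝 0] fun x : ℝ => x ^ (n + 1) := by
  obtain ⟨C, hC⟩ := hO.bound
  obtain ⟨δ, hδ, hball⟩ := Metric.eventually_nhds_iff_ball.1 (hd.and hC)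
  refine IsBigO.of_bound C ?_
  filter_upwards [Metric.ball_mem_nhds (0 : ℝ) hδ] with x hx
  have hxδ : |x| < δ := by simpa using hx
  have key := (convex_closedBall (0 : ℝ) |x|).norm_image_sub_le_of_norm_hasDerivWithin_le (f := h) (f' := h')
    (C := C * |x| ^ n) (x := 0) (y := x) (fun y hy => ?_) (fun y hy => ?_) (by simp) (by simp)
  · rw [h0, sub_zero, sub_zero] at key
    rw [norm_pow, pow_succ, ← mul_assoc]
    exact key
  · have hy1 : |y| ≤ |x| := by simpa using hy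
    exact (hball y (by simpa using lt_of_le_of_lt hy1 hxδ)).1.hasDerivWithinAt
  · have hy1 : |y| ≤ |x| := by simpa using hy
    have h1 := (hball y (by simpa using lt_of_le_of_lt hy1 hxδ)).2
    rw [norm_pow, Real.norm_eq_abs y] at h1
    have hC0 : 0 ≤ C * |y| ^ n := le_trans (norm_nonneg _) h1
    by_cases hC' : 0 ≤ C
    · exact h1.trans (mul_le_mul_of_nonneg_left (pow_le_pow_left₀ (abs_nonneg y) hy1 n) hC')
    · -- C < 0 : then |y|^n = 0 for all y, in particular for x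
      have hx2 := (hball x hx).2
      rw [norm_pow, Real.norm_eq_abs x] at hx2
      have hC1 : 0 ≤ C * |x| ^ n := le_trans (norm_nonneg _) hx2
      have e1 : C * |y| ^ n ≤ 0 := mul_nonpos_of_nonpos_of_nonneg (not_le.1 hC').le (by positivity)
      exact (h1.trans e1).trans hC1

variable {Q : Type} [NormedAddCommGroup Q] [NormedSpace ℝ Q]

/-- the operator `f ↦ ρ ∂f`. -/
noncomputable def i3cD (ρ : Q × ℝ → ℝ) (f : Q × ℝ → ℝ) : Q × ℝ → ℝ :=
  fun r => ρ r * fderiv ℝ f r (0, 1)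

theorem i3cD_smooth {ρ f : Q × ℝ → ℝ} (hρ : ContDiff ℝ ∞ ρ) (hf : ContDiff ℝ ∞ f) : ContDiff ℝ ∞ (i3cD ρ f) := by
  unfold i3cD
  exact hρ.mul ((hf.fderiv_right (m := ∞) (by simp)).clm_apply contDiff_const)

theorem i3cD_iter_smooth {ρ : Q × ℝ → ℝ} (hρ : ContDiff ℝ ∞ ρ) (n : ℕ) : ∀ {f : Q × ℝ → ℝ}, ContDiff ℝ ∞ f →
    ContDiff ℝ ∞ ((i3cD ρ)^[n] f) := by
  induction n with
  | zero => intro f hf; exact hf
  | succ n ih =>
    intro f hf
    rw [Function.iterate_succ_apply]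
    exact ih (i3cD_smooth hρ hf)

theorem i3c_hasDerivAt {f : Q × ℝ → ℝ} (hf : ContDiff ℝ ∞ f) (q : Q) (x : ℝ) :
    HasDerivAt (fun x => f (q, x)) (fderiv ℝ f (q, x) (0, 1)) x := by
  have h1 := (hf.differentiable (by simp) (q, x)).hasFDerivAt
  have h2 : HasDerivAt (fun t : ℝ => ((q, t) : Q × ℝ)) (0, 1) x :=
    (hasDerivAt_const _ _).prodMk (hasDerivAt_id _)
  exact HasFDerivAt.comp_hasDerivAt x (f := fun t : ℝ => ((q, t) : Q × ℝ)) (l := f) h1 h2

theorem i3c_claim {w ρ : Q × ℝ → ℝ} (hw : ContDiff ℝ ∞ w) (hρ : ContDiff ℝ ∞ ρ) {q : Q}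
    (hq : ∀ᶠ x in 𝓝 (0 : ℝ), ρ (q, x) * fderiv ℝ w (q, x) (0, 1) = 1) (M : ℕ) :
    ∀ {f : Q × ℝ → ℝ}, ContDiff ℝ ∞ f →
    (fun x => f (q, x) - ∑ j ∈ Finset.range (M + 1), ((i3cD ρ)^[j] f) (q, 0) / (j.factorial : ℝ) *
      (w (q, x) - w (q, 0)) ^ j) =O[𝓝 0] fun x : ℝ => x ^ (M + 1) := by
  induction M with
  | zero =>
    intro f hf
    refine i3c_prim (h' := fun x => fderiv ℝ f (q, x) (0, 1)) (n := 0) ?_ ?_ ?_
    · refine Eventually.of_forall fun x => ?_
      have := (i3c_hasDerivAt hf q x).sub_const (f (q, 0))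
      simpa using this
    · simp only [pow_zero]
      have hc : Continuous (fun x : ℝ => fderiv ℝ f (q, x) (0, 1)) := by
        have h1 := ((hf.fderiv_right (m := ∞) (by simp)).clm_apply
          (contDiff_const (c := ((0, 1) : Q × ℝ)))).continuous
        exact h1.comp (by fun_prop)
      exact hc.continuousAt.isBigO_one ℝ
    · simp
  | succ M ih =>
    intro f hf
    have hDf := i3cD_smooth hρ hf
    have ih' := ih hDf
    refine i3c_prim (h' := fun x => fderiv ℝ w (q, x) (0, 1) * ((i3cD ρ f) (q, x) -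
      ∑ j ∈ Finset.range (M + 1), ((i3cD ρ)^[j] (i3cD ρ f)) (q, 0) / (j.factorial : ℝ) *
      (w (q, x) - w (q, 0)) ^ j)) (n := M + 1) ?_ ?_ ?_
    · filter_upwards [hq] with x hx
      have h1 := i3c_hasDerivAt hf q x
      have hW := (i3c_hasDerivAt hw q x).sub_const (w (q, 0))
      have h2 : HasDerivAt (fun x => ∑ j ∈ Finset.range (M + 2), ((i3cD ρ)^[j] f) (q, 0) / (j.factorial : ℝ) *
          (w (q, x) - w (q, 0)) ^ j)
          (∑ j ∈ Finset.range (M + 2), ((i3cD ρ)^[j] f) (q, 0) / (j.factorial : ℝ) *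
          ((j : ℝ) * (w (q, x) - w (q, 0)) ^ (j - 1) * fderiv ℝ w (q, x) (0, 1))) x := by
        refine HasDerivAt.fun_sum fun j _ => ?_
        exact (hW.fun_pow j).const_mul _
      refine (h1.sub h2).congr_deriv ?_
      rw [Finset.sum_range_succ']
      simp only [Nat.cast_zero, zero_mul, mul_zero, add_zero]
      have h3 : fderiv ℝ f (q, x) (0, 1) = fderiv ℝ w (q, x) (0, 1) * (i3cD ρ f) (q, x) := by
        unfold i3cD
        linear_combination (-(fderiv ℝ f (q, x) (0, 1))) * hx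
      rw [h3, mul_sub, Finset.mul_sum]
      congr 1
      refine Finset.sum_congr rfl fun j _ => ?_
      rw [Function.iterate_succ_apply, Nat.add_sub_cancel, Nat.factorial_succ]
      have hj : ((j : ℝ) + 1) ≠ 0 := by positivity
      have hf' : (j.factorial : ℝ) ≠ 0 := by positivity
      push_cast
      field_simp
    · have hc : Continuous (fun x : ℝ => fderiv ℝ w (q, x) (0, 1)) := by
        have h1 := ((hw.fderiv_right (m := ∞) (by simp)).clm_apply
          (contDiff_const (c := ((0, 1) : Q × ℝ)))).continuous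
        exact h1.comp (by fun_prop)
      have := (hc.continuousAt (x := 0)).isBigO_one ℝ |>.mul ih'
      simpa using this
    · rw [Finset.sum_range_succ']
      simp

/-- I.3, Taylor formula in the variable w.

PROOF. ∂w(q,x) := fderiv w (q,x) (0,1) is smooth and ≠ 0 on the compact set C × {0}, so 1/∂w is smooth on the open set {∂w ≠ 0} ⊇ C × {0}; `localise`: a global smooth ρ with ρ ∂w = 1 near
C × {0}.  For smooth f : Q × ℝ → ℝ put D f (q,x) = ρ(q,x) fderiv f (q,x) (0,1) (smooth).  d j q = (D^(j+1) K)(q,0)/(j+1)!.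
For q near C (`𝓝ˢ C`; ∀ᶠ r in 𝓝ˢ (C ×ˢ {0}) implies: ∀ᶠ q in 𝓝ˢ C, ∀ᶠ x in 𝓝 0) we have ρ ∂w = 1 at (q,x) for all x near 0.  Fix such q, W(x) = w(q,x) - w(q,0).  Claim: for all M and all
smooth f: f(q,x) - Σ_{j ≤ M} (D^j f)(q,0)/j! W^j = O(x^(M+1)).  M = 0: f(q,x) - f(q,0) = O(x).  M → M+1: h(x) = f(q,x) - Σ_{j ≤ M+1} (D^j f)(q,0)/j! W(x)^j;
h'(x) = ∂w(q,x) [Df(q,x) - Σ_{j ≤ M} (D^j Df)(q,0)/j! W^j] near 0 (∂f = ∂w Df near), = O(x^(M+1)) by the claim for Df, and h(0) = 0, so h = O(x^(M+2)) (mean value inequality: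
|h(x)| ≤ sup |h'| |x|). -/
theorem exp_powers {Q : Type} [NormedAddCommGroup Q] [NormedSpace ℝ Q] [FiniteDimensional ℝ Q] {w K : Q × ℝ → ℝ}
    (hw : ContDiff ℝ ∞ w) (hK : ContDiff ℝ ∞ K) {C : Set Q} (hC : IsCompact C)
    (h : ∀ q ∈ C, deriv (fun x => w (q, x)) 0 ≠ 0) :
    ∃ d : ℕ → Q → ℝ, (∀ j, ContDiff ℝ ∞ (d j)) ∧ ∀ᶠ q in 𝓝ˢ C, ∀ M : ℕ,
      (fun x => K (q, x) - K (q, 0) - ∑ j ∈ Finset.range M, d j q * (w (q, x) - w (q, 0)) ^ (j + 1)) =O[𝓝 0]
        fun x : ℝ => x ^ (M + 1) := by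
  have hdw : ContDiff ℝ ∞ (fun r : Q × ℝ => fderiv ℝ w r (0, 1)) :=
    (hw.fderiv_right (m := ∞) (by simp)).clm_apply contDiff_const
  set O : Set (Q × ℝ) := {r | fderiv ℝ w r (0, 1) ≠ 0} with hO
  have hOo : IsOpen O := isOpen_ne_fun hdw.continuous continuous_const
  have hCO : C ×ˢ ({0} : Set ℝ) ⊆ O := by
    rintro ⟨q, x⟩ ⟨hq, hx⟩
    simp only [mem_singleton_iff] at hx
    subst hx
    show fderiv ℝ w (q, 0) (0, 1) ≠ 0
    rw [← (i3c_hasDerivAt hw q 0).deriv]
    exact h q hq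
  obtain ⟨ρ, hρ, -, -, hρ1⟩ := localise (f := fun r : Q × ℝ => (fderiv ℝ w r (0, 1))⁻¹)
    (hC.prod isCompact_singleton) hOo hCO (fun r hr => (hdw.contDiffAt.inv hr).contDiffWithinAt)
  have hnear : ∀ᶠ q in 𝓝ˢ C, ∀ᶠ x in 𝓝 (0 : ℝ), ρ (q, x) * fderiv ℝ w (q, x) (0, 1) = 1 := by
    rw [eventually_nhdsSet_iff_forall] at hρ1 ⊢
    intro q hq
    have h1 := (hρ1 (q, 0) ⟨hq, rfl⟩).and (hOo.mem_nhds (hCO ⟨hq, rfl⟩ : ((q, 0) : Q × ℝ) ∈ O))
    have h2 : ∀ᶠ r in 𝓝 ((q, 0) : Q × ℝ), ρ r * fderiv ℝ w r (0, 1) = 1 := by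
      filter_upwards [h1] with r hr
      rw [hr.1]
      exact inv_mul_cancel₀ hr.2
    have h3 := eventually_eventually_nhds.2 h2
    have hc1 : Tendsto (fun q' : Q => ((q', 0) : Q × ℝ)) (𝓝 q) (𝓝 (q, 0)) := by
      have : Continuous (fun q' : Q => ((q', 0) : Q × ℝ)) := by fun_prop
      exact this.tendsto q
    filter_upwards [hc1.eventually h3] with q' hq'
    have hc2 : Tendsto (fun x : ℝ => ((q', x) : Q × ℝ)) (𝓝 0) (𝓝 (q', 0)) := by
      have : Continuous (fun x : ℝ => ((q', x) : Q × ℝ)) := by fun_prop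
      exact this.tendsto 0
    exact hc2.eventually hq'
  refine ⟨fun j q => ((i3cD ρ)^[j + 1] K) (q, 0) / ((j + 1).factorial : ℝ), fun j => ?_, ?_⟩
  · exact ((i3cD_iter_smooth hρ (j + 1) hK).comp (contDiff_id.prodMk contDiff_const)).div_const _
  · filter_upwards [hnear] with q hq M
    refine (i3c_claim hw hρ hq M hK).congr_left fun x => ?_
    rw [Finset.sum_range_succ']
    simp only [Function.iterate_zero, id_eq, Nat.factorial_zero, Nat.cast_one, div_one, pow_zero, mul_one]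
    ring

end Pool.Agent.Lib.H37N
end

-- from Lib.H37P.P05
section

/-!
# H37N P05 (M/L): smooth families of perturbations at a place are small

`ψ_p(w) = Li (Ψ (p, PlM w))` for `w ∈ D`, `= w` off `D`. `Ψ_p = id` off the closed ball `C1` of radius `r/2`, so `ψ_p = id` off the
compact set `Li '' C1 ⊆ D`, and `Ψ_p` maps the ball of radius `r` into itself for small `p` (uniformly close to the
identity on `C1`). `ψ` is smooth in `(p,w)` for `p` near `0`. Smallness of all derivatives up to the order `R`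
for `p → 0`: the derivatives of `(p,w) ↦ ψ_p w - w` in `w` are continuous, vanish for `p = 0`, compact support
(tube lemma), i.e. `small_family` (T7): `F : P × Pt → Pt` smooth on `O × Pt`, `O` a neighbourhood of `0`, `F(0,w) = w`,
`F(p,w) = w` off a compact set implies `Small R ε (F p)` for `p` near `0`. (If the tool T7 is stated for global
families, multiply with a cut-off in `p`: `F(χ(p) p, w)`.)
-/

open Set Filter Topology Asymptotics
open scoped ContDiff

namespace Pool.Agent.Lib.H37N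

variable {g : Pt → Pt} {s : Fr} {Z : Set Pt} {b a : ℝ} {k l : ℕ} {r : ℝ} {D B : Set Pt}
  {Li : Pt → Pt}

theorem Place.family (hp : Place g s Z b a k l r D B Li) {P : Type} [NormedAddCommGroup P]
    [NormedSpace ℝ P] [FiniteDimensional ℝ P] (Ψ : P × Pt → Pt) (hΨ : ContDiff ℝ ∞ Ψ)
    (h0 : ∀ v, Ψ (0, v) = v)
    (hsupp : ∀ p v, v ∉ Metric.closedBall ((a, 0) : Pt) (r / 2) → Ψ (p, v) = v) (R : ℕ) {ε : ℝ}
    (hε : 0 < ε) :
    ∀ᶠ p in 𝓝 (0 : P), ∃ ψ : Pt → Pt, Small R ε ψ ∧ Adm D ψ ∧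
      ∀ v ∈ Metric.ball ((a, 0) : Pt) r, PlM g s l (ψ (Li v)) = Ψ (p, v) := by
  classical
  have hr := hp.r_pos
  set C1 : Set Pt := Metric.closedBall ((a, 0) : Pt) (r / 2) with hC1
  set B1 : Set Pt := Metric.ball ((a, 0) : Pt) r with hB1
  have hC1c : IsCompact C1 := isCompact_closedBall _ _
  have hC1B : C1 ⊆ B1 := Metric.closedBall_subset_ball (by linarith)
  have hB1o : IsOpen B1 := Metric.isOpen_ball
  -- the family maps the ball into itself for small parameters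
  have h1 : ∀ᶠ p in 𝓝 (0 : P), ∀ v ∈ C1, Ψ (p, v) ∈ B1 := by
    apply hC1c.eventually_forall_of_forall_eventually
    intro v hv
    have h2 : Ψ (0, v) ∈ B1 := by rw [h0]; exact hC1B hv
    have h3 : Tendsto Ψ (𝓝 ((0 : P), v)) (𝓝 (Ψ (0, v))) := hΨ.continuous.tendsto _
    exact h3.eventually (hB1o.mem_nhds h2)
  obtain ⟨ρ, hρ, hρ1⟩ := Metric.eventually_nhds_iff_ball.1 h1
  obtain ⟨χ, hχ, -, hχt, hχ01, hχ1⟩ := exists_cutoff (E := P) (isCompact_singleton (x := (0 : P)))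
    (Metric.isOpen_ball (x := (0 : P)) (ε := ρ)) (singleton_subset_iff.2 (Metric.mem_ball_self hρ))
  rw [nhdsSet_singleton] at hχ1
  have hball : ∀ p : P, χ p • p ∈ Metric.ball (0 : P) ρ := by
    intro p
    by_cases hpb : p ∈ Metric.ball (0 : P) ρ
    · rw [mem_ball_zero_iff] at hpb ⊢
      rw [norm_smul, Real.norm_of_nonneg (hχ01 p).1]
      calc χ p * ‖p‖ ≤ 1 * ‖p‖ := mul_le_mul_of_nonneg_right (hχ01 p).2 (norm_nonneg _)
        _ = ‖p‖ := one_mul _
        _ < ρ := hpb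
    · have : χ p = 0 := by
        by_contra hne
        exact hpb (hχt (subset_tsupport _ hne))
      rw [this, zero_smul]
      exact Metric.mem_ball_self hρ
  set Φ : P × Pt → Pt := fun q => Ψ (χ q.1 • q.1, q.2) with hΦ
  have hΦs : ContDiff ℝ ∞ Φ := by
    apply hΨ.comp
    exact ((hχ.comp contDiff_fst).smul contDiff_fst).prodMk contDiff_snd
  have hΦB : ∀ p v, v ∈ B1 → Φ (p, v) ∈ B1 := by
    intro p v hv
    by_cases hvC : v ∈ C1
    · exact hρ1 _ (hball p) v hvC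
    · show Ψ (χ p • p, v) ∈ B1
      rw [hsupp _ v hvC]
      exact hv
  have hΦ0 : ∀ v, Φ (0, v) = v := by
    intro v
    show Ψ (χ 0 • (0 : P), v) = v
    rw [smul_zero, h0]
  have hΦid : ∀ p v, v ∉ C1 → Φ (p, v) = v := fun p v hv => hsupp _ v hv
  -- the compact set
  set K : Set Pt := Li '' C1 with hK
  have hKc : IsCompact K := hC1c.image_of_continuousOn (hp.smLi.continuousOn.mono hC1B)
  have hKD : K ⊆ D := by
    rintro w ⟨v, hv, rfl⟩
    exact hp.Li_mem v (hC1B hv)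
  have hnK : ∀ w ∈ D, w ∉ K → PlM g s l w ∉ C1 := by
    intro w hw hwK hC
    exact hwK ⟨_, hC, hp.Li_Pl w hw⟩
  set F : P × Pt → Pt := fun q => if q.2 ∈ D then Li (Φ (q.1, PlM g s l q.2)) else q.2 with hF
  have hFid : ∀ p w, w ∉ K → F (p, w) = w := by
    intro p w hw
    by_cases hwD : w ∈ D
    · show (if w ∈ D then Li (Φ (p, PlM g s l w)) else w) = w
      rw [if_pos hwD, hΦid p _ (hnK w hwD hw), hp.Li_Pl w hwD]
    · show (if w ∈ D then Li (Φ (p, PlM g s l w)) else w) = w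
      rw [if_neg hwD]
  have hFs : ContDiff ℝ ∞ F := by
    rw [contDiff_iff_contDiffAt]
    rintro ⟨p, w⟩
    by_cases hwD : w ∈ D
    · have hO : IsOpen ((univ : Set P) ×ˢ D) := isOpen_univ.prod hp.openD
      have hmem : ((p, w) : P × Pt) ∈ (univ : Set P) ×ˢ D := ⟨mem_univ _, hwD⟩
      have hG : ContDiffOn ℝ ∞ (fun q : P × Pt => Li (Φ (q.1, PlM g s l q.2)))
          ((univ : Set P) ×ˢ D) := by
        apply hp.smLi.comp (t := B1)
        · apply hΦs.comp_contDiffOn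
          exact contDiff_fst.contDiffOn.prodMk
            (hp.smPl.comp contDiff_snd.contDiffOn (fun q hq => hq.2))
        · intro q hq
          exact hΦB _ _ (hp.Pl_mem _ hq.2)
      refine (hG.contDiffAt (hO.mem_nhds hmem)).congr_of_eventuallyEq ?_
      filter_upwards [hO.mem_nhds hmem] with q hq
      exact if_pos hq.2
    · have hwK : w ∉ K := fun h => hwD (hKD h)
      have hO : IsOpen ((univ : Set P) ×ˢ Kᶜ) := isOpen_univ.prod hKc.isClosed.isOpen_compl
      have hmem : ((p, w) : P × Pt) ∈ (univ : Set P) ×ˢ Kᶜ := ⟨mem_univ _, hwK⟩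
      refine (contDiff_snd.contDiffAt (x := (p, w))).congr_of_eventuallyEq ?_
      filter_upwards [hO.mem_nhds hmem] with q hq
      exact hFid q.1 q.2 hq.2
  have hF0 : ∀ w, F (0, w) = w := by
    intro w
    by_cases hwD : w ∈ D
    · show (if w ∈ D then Li (Φ (0, PlM g s l w)) else w) = w
      rw [if_pos hwD, hΦ0, hp.Li_Pl w hwD]
    · show (if w ∈ D then Li (Φ (0, PlM g s l w)) else w) = w
      rw [if_neg hwD]
  obtain ⟨C, hCc, hDC, hCK, -⟩ := hp.compD
  have hsm := small_family hFs (0 : P) hF0 hKc ((hKD.trans hDC).trans hCK) hFid R hε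
  filter_upwards [hsm, hχ1] with p hps hpχ
  refine ⟨fun z => F (p, z), hps, ⟨?_, ?_⟩, ?_⟩
  · intro w hw
    exact hFid p w (fun h => hw (hKD h))
  · intro w hw
    show (if w ∈ D then Li (Φ (p, PlM g s l w)) else w) ∈ D
    rw [if_pos hw]
    exact hp.Li_mem _ (hΦB _ _ (hp.Pl_mem w hw))
  · intro v hv
    have hD := hp.Li_mem v hv
    have hχp : χ p = 1 := by simpa using hpχ
    show PlM g s l (if Li v ∈ D then Li (Φ (p, PlM g s l (Li v))) else Li v) = Ψ (p, v)
    rw [if_pos hD, hp.Pl_Li v hv, hp.Pl_Li _ (hΦB p v hv)]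
    show Ψ (χ p • p, v) = Ψ (p, v)
    rw [hχp, one_smul]

end Pool.Agent.Lib.H37N
end
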