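import Pool.Agent.Lib.H1M.FF.M006
import Pool.Agent.Lib.H1M.FF.M009
import Pool.Agent.Lib.H1M.FF.M014

/-! Merged copies (to shorten the build) of Lib.H37C.K2, Lib.H37C.K3, Lib.H37C.K4, Lib.H37C.K5, Lib.H37C.K6, Lib.H37C.K7, Lib.H37C.Z4, Lib.H37C.Z5, Lib.H37C.Z6. -/

-- from Lib.H37C.K2
section

open TopologicalSpace Set Filter Topology

namespace Pool.Agent.Lib.H37C

variable {lt : ℕ → ℕ → Prop} [IsStrictTotalOrder ℕ lt]

/-- The point `k` separates the set `B` of gaps: one gap is to the left of `k`, another one to the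
right. -/
def Sep (lt : ℕ → ℕ → Prop) (k : ℝ) (B : Set ℕ) : Prop :=
  ∃ i ∈ B, ∃ j ∈ B, lend lt i + wt i ≤ k ∧ k ≤ lend lt j

theorem k2_lt {i j : ℕ} (h : lend lt i + wt i ≤ lend lt j) : lt i j := by
  rcases trichotomous_of lt i j with h1 | h1 | h1
  · exact h1
  · subst h1
    have := wt_pos i
    linarith
  · have h2 := lend_add_le h1
    have := wt_pos i
    have := wt_pos j
    linarith

theorem k2_nlt {Ω : Type*} {r : Ω → Ω → Prop} [IsStrictTotalOrder Ω r]
    {ι : (Ω →₀ ℤ) → ℕ} (hι : BlockEmb lt r ι) {f g : Ω →₀ ℤ} (h : lt (ι f) (ι g)) :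
    NLt r f g := by
  have := nlt_sto r
  rcases trichotomous_of (NLt r) f g with h1 | h1 | h1
  · exact h1
  · subst h1
    exact absurd h (irrefl_of lt _)
  · exact absurd h (asymm_of lt (hι.mono _ _ h1))

theorem k2_between {Ω : Type*} {r : Ω → Ω → Prop} [IsStrictTotalOrder Ω r]
    {h g : Ω →₀ ℤ} {j : Ω} (h1 : NLt r h g) (h2 : NLt r g (h + Finsupp.single j 1)) :
    (∀ m, ¬ r m j → g m = h m) ∨ ∀ m, ¬ r m j → g m = (h + Finsupp.single j 1 : Ω →₀ ℤ) m := by
  classical
  obtain ⟨a, ha, ha'⟩ := h1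
  obtain ⟨b, hb, hb'⟩ := h2
  have hne : ∀ m, r j m → (h + Finsupp.single j 1 : Ω →₀ ℤ) m = h m := by
    intro m hm
    have : m ≠ j := by rintro rfl; exact irrefl_of r _ hm
    simp [this]
  have hja : ¬ r j a := by
    intro hja
    rcases trichotomous_of r b a with hba | hba | hba
    · have := hb' a hba
      rw [hne a hja] at this
      omega
    · subst hba
      rw [hne b hja] at hb
      omega
    · have h3 := ha' b hba
      have h4 := hne b (_root_.trans hja hba)
      rw [h4] at hb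
      omega
  have hjb : ¬ r j b := by
    intro hjb
    rw [hne b hjb] at hb
    rcases trichotomous_of r b a with hba | hba | hba
    · exact hja (_root_.trans hjb hba)
    · subst hba
      omega
    · have h3 := ha' b hba
      omega
  have hja' : ∀ m, r j m → r a m := by
    intro m hm
    rcases trichotomous_of r a j with h3 | h3 | h3
    · exact _root_.trans h3 hm
    · rw [h3]; exact hm
    · exact absurd h3 hja
  have habove : ∀ m, r j m → g m = h m := fun m hm => (ha' m (hja' m hm)).symm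
  have hj1 : h j ≤ g j := by
    rcases trichotomous_of r a j with h3 | h3 | h3
    · exact (ha' j h3).le
    · rw [← h3]; exact ha.le
    · exact absurd h3 hja
  have hj2 : g j ≤ h j + 1 := by
    have h5 : (h + Finsupp.single j 1 : Ω →₀ ℤ) j = h j + 1 := by simp
    rcases trichotomous_of r b j with h3 | h3 | h3
    · rw [← h5]; exact (hb' j h3).le
    · subst h3; rw [← h5]; exact hb.le
    · exact absurd h3 hjb
  rcases lt_or_eq_of_le hj1 with h3 | h3
  · right
    intro m hm
    rcases trichotomous_of r m j with h4 | h4 | h4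
    · exact absurd h4 hm
    · subst h4
      simp
      omega
    · rw [hne m h4, habove m h4]
  · left
    intro m hm
    rcases trichotomous_of r m j with h4 | h4 | h4
    · exact absurd h4 hm
    · subst h4; exact h3.symm
    · exact habove m h4

/-- **K2.** The main step of the rank computation. Let `j` be a position, `f` a function; suppose
that the points of `R j` do not separate the blocks `{ι g | g k = h k for all k ≥ j}` (`¬ r k j`)
and that the point `k` of `Kset` is between two consecutive blocks: all `ι g` with `g = h` at the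
positions `≥ j` are to the left of `k` and all `ι g` with `g = h + single j 1` at the positions
`≥ j` are to the right of `k`. Then `k` is not a limit of other points of `R j`.

Proof. Let `i = ι h` and `i' = ι (h + single j 1)`, and suppose `k' ∈ R j`, `k' ≠ k`, with
`|k' - k| < min (wt i) (wt i')`. Case `k' < k`. Then `k' > k - wt i ≥ lend i`, so `lend i + wt i ≤ k'`
as `k' ∈ Kset`. By `exists_gap` there is `i₀` with `k' ≤ lend i₀`, `lend i₀ + wt i₀ ≤ k`. So
`lt i i₀` and `lt i₀ i'` (the gaps are ordered as the indices; `lend i' ≥ k`). By convexity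
(`BlockEmb.conv`) `i₀ = ι g` with `h < g < h + single j 1` in the order `NLt`; so `g = h` at the
positions above `j`, and `g j` is `h j` or `h j + 1`. In the second case `g` belongs to the right
block, a contradiction to `lend i₀ + wt i₀ ≤ k`, `wt i₀ > 0`. In the first case `g` and `h` belong to
the left block, `ι h` is to the left of `k'` and `ι g` to the right: `k'` separates the block of `h`,
a contradiction. Case `k' > k`: the same with the right block (`k' < k + wt i' ≤ lend i' + wt i'`,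
so `k' ≤ lend i'`; a gap `i₀` between `k` and `k'` is in the right block). -/
theorem not_acc_between {Ω : Type*} {r : Ω → Ω → Prop} [IsStrictTotalOrder Ω r]
    {ι : (Ω →₀ ℤ) → ℕ} (hι : BlockEmb lt r ι) {S : Set ℝ} (hS : S ⊆ Kset lt) {j : Ω} (h : Ω →₀ ℤ)
    (hsep : ∀ k ∈ S, ∀ f : Ω →₀ ℤ, ¬ Sep lt k (ι '' {g | ∀ m, ¬ r m j → g m = f m})) {k : ℝ}
    (hk : k ∈ Kset lt) (hl : ∀ g : Ω →₀ ℤ, (∀ m, ¬ r m j → g m = h m) → lend lt (ι g) + wt (ι g) ≤ k)
    (hr : ∀ g : Ω →₀ ℤ, (∀ m, ¬ r m j → g m = (h + Finsupp.single j 1 : Ω →₀ ℤ) m) → k ≤ lend lt (ι g)) :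
    ¬ AccR S k := by
  intro hacc
  have hw1 := wt_pos (ι h)
  have hw2 := wt_pos (ι (h + Finsupp.single j 1))
  obtain ⟨k', ⟨hk'S, hk'k⟩, hd⟩ := Metric.mem_closure_iff.1 hacc
    (min (wt (ι h)) (wt (ι (h + Finsupp.single j 1)))) (lt_min hw1 hw2)
  have hk'K := hS hk'S
  have hk'ne : k' ≠ k := hk'k
  rw [Real.dist_eq] at hd
  have hd1 : |k - k'| < wt (ι h) := hd.trans_le (min_le_left _ _)
  have hd2 : |k - k'| < wt (ι (h + Finsupp.single j 1)) := hd.trans_le (min_le_right _ _)
  have hL := hl h (fun m _ => rfl)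
  have hR := hr (h + Finsupp.single j 1) (fun m _ => rfl)
  rcases lt_or_gt_of_ne hk'ne with hlt | hgt
  · have h1 : k - k' < wt (ι h) := lt_of_abs_lt hd1
    have h2 : lend lt (ι h) + wt (ι h) ≤ k' := by
      rcases hk'K.2.2 (ι h) with h3 | h3
      · linarith
      · exact h3
    obtain ⟨i₀, hi1, hi2⟩ := exists_gap hk'K hk hlt
    have l1 : lt (ι h) i₀ := k2_lt (h2.trans hi1)
    have l2 : lt i₀ (ι (h + Finsupp.single j 1)) := k2_lt (hi2.trans hR)
    obtain ⟨g, rfl⟩ := hι.conv _ _ _ l1 l2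
    rcases k2_between (k2_nlt hι l1) (k2_nlt hι l2) with hg | hg
    · exact hsep k' hk'S h ⟨ι h, ⟨h, fun m _ => rfl, rfl⟩, ι g, ⟨g, hg, rfl⟩, h2, hi1⟩
    · have h3 := hr g hg
      have := wt_pos (ι g)
      linarith
  · have h1 : k' - k < wt (ι (h + Finsupp.single j 1)) := by
      rw [abs_sub_comm] at hd2
      exact lt_of_abs_lt hd2
    have h2 : k' ≤ lend lt (ι (h + Finsupp.single j 1)) := by
      rcases hk'K.2.2 (ι (h + Finsupp.single j 1)) with h3 | h3
      · exact h3
      · linarith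
    obtain ⟨i₀, hi1, hi2⟩ := exists_gap hk hk'K hgt
    have l1 : lt (ι h) i₀ := k2_lt (hL.trans hi1)
    have l2 : lt i₀ (ι (h + Finsupp.single j 1)) := k2_lt (hi2.trans h2)
    obtain ⟨g, rfl⟩ := hι.conv _ _ _ l1 l2
    rcases k2_between (k2_nlt hι l1) (k2_nlt hι l2) with hg | hg
    · have h3 := hl g hg
      have := wt_pos (ι g)
      linarith
    · exact hsep k' hk'S (h + Finsupp.single j 1) ⟨ι g, ⟨g, hg, rfl⟩,
        ι (h + Finsupp.single j 1), ⟨h + Finsupp.single j 1, fun m _ => rfl, rfl⟩, hi2, h2⟩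

end Pool.Agent.Lib.H37C
end

-- from Lib.H37C.K3
section

open TopologicalSpace Set Filter Topology

namespace Pool.Agent.Lib.H37C

variable {lt : ℕ → ℕ → Prop} [IsStrictTotalOrder ℕ lt]

/-- **K3.** If the point `k` separates a set `ι '' B` of blocks, where `B` consists of the functions
which agree with `f` at the positions in an upper set `U` of `Ω` (`U` may be empty), then there are a
position `j ∉ U` and a function `h ∈ B` such that `k` lies between the consecutive blocks of `h` and
`h + single j 1`, and `k` does not separate... precisely the conclusion below.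

Proof. By assumption there are `g, g' ∈ B` with `ι g` to the left and `ι g'` to the right of `k`; so
`NLt r g g'` (trichotomy, monotonicity of `ι`, the gaps are ordered as the indices); let `j` be the
largest difference: `j ∉ U`. Choose the pair `(g, g')` such that `j` is minimal (`r` is
well-founded). For an integer `z` let `h z = g` with the value at `j` replaced by `z`
(`Finsupp.update` or `g + single j (z - g j)`). The block of `h z` (functions which agree with `h z`
at the positions `≥ j`) is contained in `B` and is not separated by `k`, by the minimality of `j`.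
Each `ι g''` is to the left or to the right of `k` (definition of `Kset`). So each block is
completely to the left or completely to the right. The block of `h (g j)` is to the left, that of
`h (g' j)` is to the right (as `g'` agrees with `g` above `j`), `g j < g' j`; so there is `z` such
that the block of `h z` is to the left and the block of `h (z+1)` is to the right (induction on the
integers). Take `h = h z`. -/
theorem exists_between {Ω : Type*} {r : Ω → Ω → Prop} [IsStrictTotalOrder Ω r]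
    (hwf : WellFounded r) {ι : (Ω →₀ ℤ) → ℕ} (hι : BlockEmb lt r ι) {k : ℝ} (hk : k ∈ Kset lt)
    (U : Set Ω) (hU : ∀ a b, r a b → a ∈ U → b ∈ U) (f : Ω →₀ ℤ)
    (hs : Sep lt k (ι '' {g | ∀ m ∈ U, g m = f m})) :
    ∃ j ∉ U, ∃ h : Ω →₀ ℤ,
      (∀ g : Ω →₀ ℤ, (∀ m, ¬ r m j → g m = h m) → lend lt (ι g) + wt (ι g) ≤ k) ∧
      ∀ g : Ω →₀ ℤ, (∀ m, ¬ r m j → g m = (h + Finsupp.single j 1 : Ω →₀ ℤ) m) → k ≤ lend lt (ι g) := by
  classical
  have hw := fun i => wt_pos i
  let P : Set Ω := {j | ∃ g g' : Ω →₀ ℤ, (∀ m ∈ U, g m = f m) ∧ (∀ m ∈ U, g' m = f m) ∧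
    lend lt (ι g) + wt (ι g) ≤ k ∧ k ≤ lend lt (ι g') ∧ g j < g' j ∧ ∀ m, r j m → g m = g' m}
  have hP : ∀ g g' : Ω →₀ ℤ, (∀ m ∈ U, g m = f m) → (∀ m ∈ U, g' m = f m) →
      lend lt (ι g) + wt (ι g) ≤ k → k ≤ lend lt (ι g') → ∃ j ∈ P, g j < g' j ∧
        ∀ m, r j m → g m = g' m := by
    intro g g' h1 h2 h3 h4
    obtain ⟨j, hj, hj'⟩ := k2_nlt hι (k2_lt (h3.trans h4))
    exact ⟨j, ⟨g, g', h1, h2, h3, h4, hj, hj'⟩, hj, hj'⟩
  obtain ⟨-, ⟨g₁, hg₁, rfl⟩, -, ⟨g₂, hg₂, rfl⟩, hs1, hs2⟩ := hs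
  have hPne : P.Nonempty := by
    obtain ⟨j, hj, -⟩ := hP g₁ g₂ hg₁ hg₂ hs1 hs2
    exact ⟨j, hj⟩
  obtain ⟨j, hjP, hmin⟩ := hwf.has_min P hPne
  obtain ⟨g, g', hg, hg', h3, h4, hjlt, hjab⟩ := hjP
  have hjU : j ∉ U := by
    intro hj
    rw [hg j hj, hg' j hj] at hjlt
    exact lt_irrefl _ hjlt
  refine ⟨j, hjU, ?_⟩
  let H : ℤ → (Ω →₀ ℤ) := fun z => g + Finsupp.single j (z - g j)
  have hHj : ∀ z, H z j = z := by intro z; simp [H]
  have hHne : ∀ z m, m ≠ j → H z m = g m := by
    intro z m hm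
    simp [H, hm]
  have hinB : ∀ z (g₃ : Ω →₀ ℤ), (∀ m, ¬ r m j → g₃ m = H z m) → ∀ m ∈ U, g₃ m = f m := by
    intro z g₃ h5 m hm
    have h6 : ¬ r m j := fun h7 => hjU (hU _ _ h7 hm)
    have h8 : m ≠ j := fun h9 => hjU (h9 ▸ hm)
    rw [h5 m h6, hHne z m h8, hg m hm]
  have hblock : ∀ z (g₃ g₄ : Ω →₀ ℤ), (∀ m, ¬ r m j → g₃ m = H z m) →
      (∀ m, ¬ r m j → g₄ m = H z m) → lend lt (ι g₃) + wt (ι g₃) ≤ k →
      ¬ k ≤ lend lt (ι g₄) := by
    intro z g₃ g₄ h5 h6 h7 h8
    obtain ⟨j', hj'P, hj', -⟩ := hP g₃ g₄ (hinB z g₃ h5) (hinB z g₄ h6) h7 h8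
    by_cases h9 : r j' j
    · exact hmin j' hj'P h9
    · rw [h5 j' h9, h6 j' h9] at hj'
      exact lt_irrefl _ hj'
  have hdich : ∀ i, ¬ k ≤ lend lt i → lend lt i + wt i ≤ k := fun i hi =>
    (hk.2.2 i).resolve_left hi
  have hleft : ∀ z, lend lt (ι (H z)) + wt (ι (H z)) ≤ k → ∀ g₃ : Ω →₀ ℤ,
      (∀ m, ¬ r m j → g₃ m = H z m) → lend lt (ι g₃) + wt (ι g₃) ≤ k := by
    intro z hz g₃ h5
    exact hdich _ (hblock z (H z) g₃ (fun m _ => rfl) h5 hz)
  have hright : ∀ z, ¬ lend lt (ι (H z)) + wt (ι (H z)) ≤ k → ∀ g₃ : Ω →₀ ℤ,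
      (∀ m, ¬ r m j → g₃ m = H z m) → k ≤ lend lt (ι g₃) := by
    intro z hz g₃ h5
    have h6 : k ≤ lend lt (ι (H z)) := (hk.2.2 _).resolve_right hz
    rcases hk.2.2 (ι g₃) with h7 | h7
    · exact h7
    · exact absurd h6 (hblock z g₃ (H z) h5 (fun m _ => rfl) h7)
  have hstart : lend lt (ι (H (g j))) + wt (ι (H (g j))) ≤ k := by
    have : H (g j) = g := by simp [H]
    rw [this]; exact h3
  have hend : ¬ lend lt (ι (H (g' j))) + wt (ι (H (g' j))) ≤ k := by
    intro h5
    have h6 := hleft (g' j) h5 g' (fun m hm => by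
      rcases trichotomous_of r m j with h7 | h7 | h7
      · exact absurd h7 hm
      · rw [h7, hHj]
      · have : m ≠ j := by rintro rfl; exact irrefl_of r _ h7
        rw [hHne _ _ this, hjab m h7])
    have := hw (ι g')
    linarith
  have hex : ∃ z, lend lt (ι (H z)) + wt (ι (H z)) ≤ k ∧
      ¬ lend lt (ι (H (z + 1))) + wt (ι (H (z + 1))) ≤ k := by
    by_contra hcon
    push Not at hcon
    have : ∀ z, g j ≤ z → lend lt (ι (H z)) + wt (ι (H z)) ≤ k := by
      intro z hz
      induction z, hz using Int.le_induction with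
      | base => exact hstart
      | succ z hz ih => exact hcon z ih
    exact hend (this _ hjlt.le)
  obtain ⟨z, hz1, hz2⟩ := hex
  have hsucc : H z + Finsupp.single j 1 = H (z + 1) := by
    ext m
    by_cases hm : m = j
    · subst hm
      rw [hHj]
      simp [hHj]
    · rw [hHne _ _ hm]
      simp [hHne _ _ hm, hm]
  refine ⟨H z, hleft z hz1, ?_⟩
  rw [hsucc]
  exact hright (z + 1) hz2

end Pool.Agent.Lib.H37C
end

-- from Lib.H37C.K4
section

open TopologicalSpace Set Filter Topology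

namespace Pool.Agent.Lib.H37C

variable {lt : ℕ → ℕ → Prop} [IsStrictTotalOrder ℕ lt]

/-- **K4.** In a good family, the points of rank `Ω` do not separate the blocks `ℤ^Ω`.

Proof. First claim, by well-founded induction on `l`: the points `k` of `R l` do not separate the
blocks `ι '' {g | ∀ m, ¬ r m l → g m = f m}`. If `k` separates, `exists_between` with
`U = {m | ¬ r m l}` gives `j` with `r j l` and `h`; by the induction hypothesis for `j` and
`not_acc_between` with `S = R j`, the point `k` is not a limit of other points of `R j`, a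
contradiction to `GoodR`, as `r j l`. Second, the statement for `k`: the same with `U = ∅`. -/
theorem not_sep_of_goodR {Ω : Type*} {r : Ω → Ω → Prop} [IsStrictTotalOrder Ω r]
    (hwf : WellFounded r) {ι : (Ω →₀ ℤ) → ℕ} (hι : BlockEmb lt r ι) {R : Ω → Set ℝ}
    (hR : GoodR (Kset lt) r R) {k : ℝ} (hk : k ∈ Kset lt) (hacc : ∀ l, AccR (R l) k) :
    ¬ Sep lt k (range ι) := by
  have hSub : ∀ l, R l ⊆ Kset lt := fun l k' hk' => (hR l k' hk').1
  have claim : ∀ l, ∀ k' ∈ R l, ∀ f : Ω →₀ ℤ,
      ¬ Sep lt k' (ι '' {g | ∀ m, ¬ r m l → g m = f m}) := by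
    intro l
    induction l using hwf.induction with
    | _ l ih =>
      intro k' hk' f hsep
      obtain ⟨j, hj, h, hl, hr⟩ := exists_between hwf hι (hSub l hk') {m | ¬ r m l}
        (fun a b hab ha hb => ha (_root_.trans hab hb)) f hsep
      have hjl : r j l := by
        by_contra h1
        exact hj h1
      exact not_acc_between hι (hSub j) h (fun k'' hk'' f' => ih j hjl k'' hk'' f') (hSub l hk')
        hl hr ((hR l k' hk').2 j hjl)
  intro hsep
  obtain ⟨j, -, h, hl, hr⟩ := exists_between hwf hι hk (∅ : Set Ω)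
    (fun a b _ ha => absurd ha (Set.notMem_empty a)) 0 (by
      have : {g : Ω →₀ ℤ | ∀ m ∈ (∅ : Set Ω), g m = (0 : Ω →₀ ℤ) m} = univ := by
        ext g; simp
      rw [this, image_univ]
      exact hsep)
  exact not_acc_between hι (hSub j) h (fun k'' hk'' f' => claim j k'' hk'' f') hk hl hr (hacc j)

end Pool.Agent.Lib.H37C
end

-- from Lib.H37C.K5
section

open TopologicalSpace Set Filter Topology

namespace Pool.Agent.Lib.H37C

variable {lt : ℕ → ℕ → Prop} [IsStrictTotalOrder ℕ lt]

/-- the initial segment generated by the gaps of `B` -/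
def k5_init (lt : ℕ → ℕ → Prop) {Ω : Type*} (ι : (Ω →₀ ℤ) → ℕ) (B : Set (Ω →₀ ℤ)) : Set ℕ :=
  {i | ∃ g ∈ B, i = ι g ∨ lt i (ι g)}

/-- the block of `f` -/
def k5_blk {Ω : Type*} (r : Ω → Ω → Prop) (l : Ω) (f : Ω →₀ ℤ) : Set (Ω →₀ ℤ) :=
  {g | ∀ m, ¬ r m l → g m = f m}

theorem k5_initial {Ω : Type*} (ι : (Ω →₀ ℤ) → ℕ) (B : Set (Ω →₀ ℤ)) :
    ∀ i j, lt i j → j ∈ k5_init lt ι B → i ∈ k5_init lt ι B := by
  rintro i j hij ⟨g, hg, h | h⟩
  · exact ⟨g, hg, Or.inr (h ▸ hij)⟩
  · exact ⟨g, hg, Or.inr (_root_.trans hij h)⟩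

theorem k5_mono {Ω : Type*} (ι : (Ω →₀ ℤ) → ℕ) {B B' : Set (Ω →₀ ℤ)} (h : B ⊆ B') :
    k5_init lt ι B ⊆ k5_init lt ι B' := by
  rintro i ⟨g, hg, h'⟩
  exact ⟨g, h hg, h'⟩

theorem k5_acc {Ω : Type*} {r : Ω → Ω → Prop} [IsStrictTotalOrder Ω r]
    {ι : (Ω →₀ ℤ) → ℕ} (hι : BlockEmb lt r ι) {B : Set (Ω →₀ ℤ)} (hB : B.Nonempty) {l' : Ω}
    (h1 : ∀ g ∈ B, g + Finsupp.single l' 1 ∈ B) (h2 : ∀ g ∈ B, k5_blk r l' g ⊆ B) :
    AccR {k | ∃ g, k = pt (k5_init lt ι (k5_blk r l' g))} (pt (k5_init lt ι B)) := by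
  classical
  have hself : ∀ g : Ω →₀ ℤ, g ∈ k5_blk r l' g := fun g m _ => rfl
  unfold AccR
  rw [Metric.mem_closure_iff]
  intro ε hε
  obtain ⟨F, hF, hFε⟩ := exists_finset_pt (k5_init lt ι B) hε
  -- an upper bound
  have hub : ∀ F : Finset ℕ, (↑F : Set ℕ) ⊆ k5_init lt ι B →
      ∃ g ∈ B, ∀ i ∈ F, i = ι g ∨ lt i (ι g) := by
    intro F
    induction F using Finset.induction_on with
    | empty =>
      intro _
      obtain ⟨g, hg⟩ := hB
      exact ⟨g, hg, by simp⟩
    | insert a F ha ih =>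
      intro hsub
      obtain ⟨g, hg, hgF⟩ := ih (fun i hi => hsub (by simp [Finset.mem_coe.1 hi]))
      obtain ⟨g', hg', hag'⟩ := hsub (show a ∈ ((insert a F : Finset ℕ) : Set ℕ) by simp)
      rcases trichotomous_of lt (ι g) (ι g') with h | h | h
      · refine ⟨g', hg', fun i hi => ?_⟩
        rcases Finset.mem_insert.1 hi with rfl | hi
        · exact hag'
        · rcases hgF i hi with h3 | h3
          · rw [h3]; exact Or.inr h
          · exact Or.inr (_root_.trans h3 h)
      · refine ⟨g', hg', fun i hi => ?_⟩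
        rcases Finset.mem_insert.1 hi with rfl | hi
        · exact hag'
        · rw [← h]; exact hgF i hi
      · refine ⟨g, hg, fun i hi => ?_⟩
        rcases Finset.mem_insert.1 hi with rfl | hi
        · rcases hag' with h3 | h3
          · rw [h3]; exact Or.inr h
          · exact Or.inr (_root_.trans h3 h)
        · exact hgF i hi
  obtain ⟨g, hg, hgF⟩ := hub F hF
  have hk1 : pt (F : Set ℕ) ≤ pt (k5_init lt ι (k5_blk r l' g)) :=
    pt_mono fun i hi => ⟨g, hself g, hgF i hi⟩
  have hnot : ι (g + Finsupp.single l' 1) ∉ k5_init lt ι (k5_blk r l' g) := by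
    rintro ⟨f, hf, hf'⟩
    have h3 : lt (ι f) (ι (g + Finsupp.single l' 1)) := by
      apply hι.mono
      refine ⟨l', ?_, fun m hm => ?_⟩
      · rw [hf l' (irrefl_of r l')]
        simp
      · rw [hf m (asymm_of r hm)]
        have : m ≠ l' := by rintro rfl; exact irrefl_of r _ hm
        simp [this]
    rcases hf' with h4 | h4
    · rw [h4] at h3; exact irrefl_of lt _ h3
    · exact asymm_of lt h3 h4
  have hk2 : pt (k5_init lt ι (k5_blk r l' g)) + wt (ι (g + Finsupp.single l' 1)) ≤
      pt (k5_init lt ι B) :=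
    pt_add_le (k5_mono ι (h2 g hg)) ⟨_, h1 g hg, Or.inl rfl⟩ hnot
  have hw := wt_pos (ι (g + Finsupp.single l' 1))
  refine ⟨pt (k5_init lt ι (k5_blk r l' g)), ⟨⟨g, rfl⟩, ?_⟩, ?_⟩
  · intro h
    rw [mem_singleton_iff] at h
    linarith
  · rw [Real.dist_eq, abs_of_pos (by linarith)]
    linarith

/-- **K5.** The end points of the blocks form a good family. Let `lt` be the order `1 + ℤ^Ω + 1`
with last element `t`.

Proof. For `l ∈ Ω` and a function `f` let `I l f` be the initial segment of all indices `i` with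
`i = ι g` or `lt i (ι g)` for some `g` in the block of `f` (`g m = f m` for all `m` with `¬ r m l`), and
`R l` the set of all points `pt (I l f)`. They belong to `Kset` (`pt_mem_Kset`) and to `(0,1)`
(`b ∈ I l f`, `t ∉ I l f`, `pt_add_le`). Let `r l' l`, `k = pt (I l f)`, `ε > 0`. Choose a finite set
`F ⊆ I l f` with `pt F > k - ε` (`exists_finset_pt`) and `g` in the block of `f` such that all elements
of `F` are `≤ ι g` (finite set, maximum in the order; the block is linearly ordered). Then `k' =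
pt (I l' g)` satisfies `k' ≥ pt F > k - ε`, and `k' < k`: the function `g + single l' 1` is in the
block of `f` (as `r l' l`), and `ι (g + single l' 1)` is in `I l f` but not in `I l' g`, as
`g + single l' 1` is larger than all functions in the `l'`-block of `g` (`pt_add_le`). So
`AccR (R l') k`. The same argument (all functions in place of the block of `f`) shows that the point
`k = pt {i | i ≠ t} = lend t` is a limit of points of `R l'` for all `l'`; `0 < k < 1`. -/
theorem exists_goodR {Ω : Type*} {r : Ω → Ω → Prop} [IsStrictTotalOrder Ω r]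
    {b t : ℕ} {ι : (Ω →₀ ℤ) → ℕ} (hι : BlockEmb lt r ι) (hb : ∀ f, lt b (ι f))
    (ht : ∀ f, lt (ι f) t) (hall : ∀ i, i = b ∨ i = t ∨ ∃ f, ι f = i) :
    lend lt t ∈ Kint lt ∧ ∃ R : Ω → Set ℝ, GoodR (Kint lt) r R ∧ ∀ l, AccR (R l) (lend lt t) := by
  have htop : lend lt t = pt (k5_init lt ι univ) := by
    rw [lend_eq_pt]
    congr 1
    ext i
    constructor
    · intro hi
      rcases hall i with h | h | ⟨f, h⟩
      · exact ⟨0, mem_univ _, Or.inr (h ▸ hb 0)⟩
      · rw [h] at hi
        exact absurd hi (irrefl_of lt t)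
      · exact ⟨f, mem_univ _, Or.inl h.symm⟩
    · rintro ⟨g, -, h | h⟩
      · show lt i t
        rw [h]; exact ht g
      · exact _root_.trans h (ht g)
  have hmem : ∀ B : Set (Ω →₀ ℤ), B.Nonempty → pt (k5_init lt ι B) ∈ Kint lt := by
    rintro B ⟨g, hg⟩
    refine ⟨pt_mem_Kset (k5_initial ι B), ?_, ?_⟩
    · have h1 : wt b ≤ pt (k5_init lt ι B) := by
        rw [← k0_single b]
        refine pt_mono ?_
        rw [singleton_subset_iff]
        exact ⟨g, hg, Or.inr (hb g)⟩
      exact (wt_pos b).trans_le h1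
    · have h1 : t ∉ k5_init lt ι B := by
        rintro ⟨f, -, h | h⟩
        · have := ht f
          rw [← h] at this
          exact irrefl_of lt _ this
        · exact asymm_of lt h (ht f)
      have h2 : pt (k5_init lt ι B) + wt t ≤ pt univ := pt_add_le (subset_univ _) (mem_univ _) h1
      have h3 := pt_le_one univ
      have := wt_pos t
      linarith
  refine ⟨htop ▸ hmem univ ⟨0, mem_univ _⟩,
    fun l => {k | ∃ g, k = pt (k5_init lt ι (k5_blk r l g))}, ?_, ?_⟩
  · rintro l k ⟨f, rfl⟩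
    have hf : (k5_blk r l f).Nonempty := ⟨f, fun m _ => rfl⟩
    refine ⟨hmem _ hf, fun l' hl' => ?_⟩
    refine k5_acc hι hf ?_ ?_
    · intro g hg m hm
      have : m ≠ l' := by rintro rfl; exact hm hl'
      simp [this, hg m hm]
    · intro g hg h hh m hm
      have h3 : ¬ r m l' := fun h4 => hm (_root_.trans h4 hl')
      rw [hh m h3, hg m hm]
  · intro l
    rw [htop]
    exact k5_acc hι ⟨0, mem_univ _⟩ (fun _ _ => mem_univ _) (fun _ _ => subset_univ _)

end Pool.Agent.Lib.H37C
end

-- from Lib.H37C.K6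
section

open TopologicalSpace Set Filter Topology

namespace Pool.Agent.Lib.H37C

variable {lt : ℕ → ℕ → Prop} [IsStrictTotalOrder ℕ lt]

/-- **K6.** For the order `1 + ℤ^Ω + 1` there is a point of rank `Ω` which does not belong to a set
without isolated points.

Proof: the point `k = lend t` and the family `R` of `exists_goodR`. Let `D ⊆ Kint` accumulate at each
of its points, `k ∈ D`. The constant family `D` is good (in `Kset`), so by `not_sep_of_goodR` no point
of `D` separates the set `range ι`: for each `x ∈ D` all `ι f` are to the left of `x` or all `ι f`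
are to the right. The gap `b` is to the left of `x` (`x > 0 = lend b`, `x ∈ Kset`), the gap `t` to
the right (`x < 1 = lend t + wt t`). So `below lt x` is `{b}` or everything except `t`, and by
`pt_below` (`K1`) the set `D` has at most two points. A finite set does not accumulate at the point
`k`. -/
theorem topR_of_isA {Ω : Type*} {r : Ω → Ω → Prop} [IsStrictTotalOrder Ω r]
    (hwf : WellFounded r) (h : IsA lt r) :
    ∃ k ∈ Kint lt, (∃ R : Ω → Set ℝ, GoodR (Kint lt) r R ∧ ∀ l, AccR (R l) k) ∧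
      ∀ D, SelfR (Kint lt) D → k ∉ D := by
  classical
  obtain ⟨b, t, ι, hι, hb, ht, hall⟩ := h
  obtain ⟨hk, R, hR, hacc⟩ := exists_goodR hι hb ht hall
  refine ⟨lend lt t, hk, ⟨R, hR, hacc⟩, fun D hD hkD => ?_⟩
  have hDK : D ⊆ Kset lt := fun x hx => (hD.1 hx).1
  have hgood : GoodR (Kset lt) r (fun _ : Ω => D) := fun _ x hx =>
    ⟨hDK hx, fun _ _ => hD.2 x hx⟩
  have hbt : lt b t := _root_.trans (hb 0) (ht 0)
  have hlb : lend lt b = 0 := by
    rw [lend_eq_pt]
    have : {j | lt j b} = ∅ := by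
      ext j
      simp only [mem_setOf_eq, mem_empty_iff_false, iff_false]
      intro hj
      rcases hall j with h | h | ⟨f, h⟩
      · rw [h] at hj; exact irrefl_of lt _ hj
      · rw [h] at hj; exact asymm_of lt hj hbt
      · rw [← h] at hj; exact asymm_of lt hj (hb f)
    rw [this]
    simp [pt]
  have hlt : lend lt t + wt t = 1 := by
    rw [lend_add]
    have : {j | j = t ∨ lt j t} = univ := by
      ext j
      simp only [mem_setOf_eq, mem_univ, iff_true]
      rcases hall j with h | h | ⟨f, h⟩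
      · right; rw [h]; exact hbt
      · left; exact h
      · right; rw [← h]; exact ht f
    rw [this]
    have := pt_compl univ
    simpa [pt] using this
  -- the points of `D` are determined by one bit
  have hbit : ∀ x ∈ D, x = pt {b} ∨ x = pt {j | j ≠ t} := by
    intro x hx
    have hns := not_sep_of_goodR hwf hι hgood (hDK hx) (fun _ => hD.2 x hx)
    have hxb : b ∈ below lt x := by
      rcases (hDK hx).2.2 b with h | h
      · rw [hlb] at h
        exact absurd (hD.1 hx).2.1 (not_lt.2 h)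
      · exact h
    have hxt : t ∉ below lt x := by
      intro h
      have h1 : lend lt t + wt t ≤ x := h
      rw [hlt] at h1
      exact absurd (hD.1 hx).2.2 (not_lt.2 h1)
    by_cases hf : ∃ f, ι f ∈ below lt x
    · right
      obtain ⟨f, hf⟩ := hf
      rw [← pt_below (hDK hx)]
      congr 1
      ext j
      constructor
      · rintro hj rfl
        exact hxt hj
      · intro hj
        rcases hall j with h | h | ⟨g, h⟩
        · rw [h]; exact hxb
        · exact absurd h hj
        · rw [← h]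
          rcases (hDK hx).2.2 (ι g) with h1 | h1
          · exact absurd ⟨ι f, ⟨f, rfl⟩, ι g, ⟨g, rfl⟩, hf, h1⟩ hns
          · exact h1
    · left
      push Not at hf
      rw [← pt_below (hDK hx)]
      congr 1
      ext j
      constructor
      · intro hj
        rcases hall j with h | h | ⟨g, h⟩
        · exact h
        · rw [h] at hj; exact absurd hj hxt
        · rw [← h] at hj; exact absurd hj (hf g)
      · rintro rfl
        exact hxb
  have hfin : (D \ {lend lt t}).Finite := by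
    refine Set.Finite.subset (Set.toFinite {pt {b}, pt {j | j ≠ t}}) ?_
    rintro x ⟨hx, -⟩
    exact hbit x hx
  have h1 := hD.2 _ hkD
  unfold AccR at h1
  rw [hfin.isClosed.closure_eq] at h1
  exact h1.2 rfl

end Pool.Agent.Lib.H37C
end

-- from Lib.H37C.K7
section

open TopologicalSpace Set Filter Topology

namespace Pool.Agent.Lib.H37C

variable {lt : ℕ → ℕ → Prop} [IsStrictTotalOrder ℕ lt]

/-- **K7.** For the order `1 + ℚ × ℤ^Ω + 1`: the set of all points which do not separate a block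
`{q} × ℤ^Ω` accumulates at each of its points.

Proof. Let `k` be such a point and `J` the set of all rationals `q` such that the block `q` is to the
left of `k` (each block is completely to the left or completely to the right of `k`, as
`k ∈ Kset`); `J` is an initial segment of `ℚ`, and `below lt k = {b} ∪ ⋃_{q ∈ J} range (ι q)`. For a
rational `q` let `I q = {b} ∪ ⋃_{q' ≤ q} range (ι q')`, an initial segment, and `k_q = pt (I q)`, a
point of `Kint` which does not separate a block (`below_pt`). Let `ε > 0`.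
Case 1: `J` is nonempty and has no largest element. Choose a finite `F ⊆ below lt k` with
`pt F > pt (below lt k) - ε = k - ε` and `q ∈ J` such that all elements of `F` are in `I q`
(finitely many rationals). Then `k - ε < k_q < k` (strict: there is a larger `q' ∈ J`).
Case 2: `J` is empty or has a largest element `q₀`. Then the complement `Jᶜ` is nonempty and has no
smallest element (density of `ℚ`). Choose a finite `F ⊆ (below lt k)ᶜ` with
`pt F > pt ((below lt k)ᶜ) - ε = 1 - k - ε` and `q ∈ Jᶜ` smaller than all rationals `q'` such that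
an element of `F` is in the block `q'`. Then `I q` is disjoint from `F`, so
`k_q = 1 - pt ((I q)ᶜ) ≤ 1 - pt F < k + ε`, and `k < k_q`, as the block `q` is in `I q` and not in
`below lt k`. -/
theorem selfR_noSep {Ω : Type*} {r : Ω → Ω → Prop} [IsStrictTotalOrder Ω r]
    {b t : ℕ} {ι : ℚ → (Ω →₀ ℤ) → ℕ} (hι : ∀ q, BlockEmb lt r (ι q))
    (hq : ∀ q q', q < q' → ∀ f g, lt (ι q f) (ι q' g)) (hb : ∀ q f, lt b (ι q f))
    (ht : ∀ q f, lt (ι q f) t) (hall : ∀ i, i = b ∨ i = t ∨ ∃ q f, ι q f = i) :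
    SelfR (Kint lt) {k | k ∈ Kint lt ∧ ∀ q, ¬ Sep lt k (range (ι q))} := by
  classical
  refine ⟨fun k hk => hk.1, ?_⟩
  rintro k ⟨hkK, hns⟩
  have hKs := hkK.1
  -- disjointness of the blocks
  have hbt : lt b t := _root_.trans (hb 0 0) (ht 0 0)
  have hqlt : ∀ q q' f g, lt (ι q f) (ι q' g) → q ≤ q' := by
    intro q q' f g h
    by_contra h1
    exact asymm_of lt h (hq q' q (not_le.1 h1) g f)
  have hqeq : ∀ q q' f g, ι q f = ι q' g → q = q' := by
    intro q q' f g h
    rcases lt_trichotomy q q' with h1 | h1 | h1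
    · have := hq q q' h1 f g
      rw [h] at this
      exact absurd this (irrefl_of lt _)
    · exact h1
    · have := hq q' q h1 g f
      rw [h] at this
      exact absurd this (irrefl_of lt _)
  -- initial segments up to `q`
  let I : ℚ → Set ℕ := fun q => {i | i = b ∨ ∃ q' ≤ q, ∃ f, ι q' f = i}
  have hIi : ∀ q, ∀ i j, lt i j → j ∈ I q → i ∈ I q := by
    rintro q i j hij (h | ⟨q', hq', f, h⟩)
    · subst h
      rcases hall i with h | h | ⟨q'', g, h⟩
      · exact Or.inl h
      · rw [h] at hij; exact absurd hij (asymm_of lt hbt)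
      · rw [← h] at hij; exact absurd hij (asymm_of lt (hb q'' g))
    · subst h
      rcases hall i with h | h | ⟨q'', g, h⟩
      · exact Or.inl h
      · rw [h] at hij; exact absurd hij (asymm_of lt (ht q' f))
      · rw [← h] at hij ⊢
        exact Or.inr ⟨q'', (hqlt _ _ _ _ hij).trans hq', g, rfl⟩
  have htI : ∀ q, t ∉ I q := by
    rintro q (h | ⟨q', -, f, h⟩)
    · rw [h] at hbt; exact irrefl_of lt _ hbt
    · have := ht q' f
      rw [h] at this
      exact irrefl_of lt _ this
  have hIK : ∀ q, pt (I q) ∈ Kint lt := by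
    intro q
    refine ⟨pt_mem_Kset (hIi q), ?_, ?_⟩
    · have h1 : wt b ≤ pt (I q) := by
        rw [← k0_single b]
        refine pt_mono ?_
        rw [singleton_subset_iff]
        exact Or.inl rfl
      exact (wt_pos b).trans_le h1
    · have h2 : pt (I q) + wt t ≤ pt univ := pt_add_le (subset_univ _) (mem_univ _) (htI q)
      have h3 := pt_le_one univ
      have := wt_pos t
      linarith
  have hIns : ∀ q q', ¬ Sep lt (pt (I q)) (range (ι q')) := by
    rintro q q' ⟨-, ⟨f, rfl⟩, -, ⟨g, rfl⟩, h1, h2⟩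
    have h3 : ι q' f ∈ below lt (pt (I q)) := h1
    rw [below_pt (hIi q)] at h3
    have h4 : ι q' g ∉ below lt (pt (I q)) := by
      intro h5
      have h6 : lend lt (ι q' g) + wt (ι q' g) ≤ pt (I q) := h5
      have := wt_pos (ι q' g)
      linarith
    rw [below_pt (hIi q)] at h4
    apply h4
    rcases h3 with h3 | ⟨q'', hq'', f', h3⟩
    · have := hb q' f
      rw [h3] at this
      exact absurd this (irrefl_of lt _)
    · have := hqeq _ _ _ _ h3
      subst this
      exact Or.inr ⟨q'', hq'', g, rfl⟩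
  have hbk : b ∈ below lt k := by
    rcases hKs.2.2 b with h | h
    · have hlb : lend lt b = 0 := by
        rw [lend_eq_pt]
        have : {j | lt j b} = ∅ := by
          ext j
          simp only [mem_setOf_eq, mem_empty_iff_false, iff_false]
          intro hj
          rcases hall j with h | h | ⟨q, f, h⟩
          · rw [h] at hj; exact irrefl_of lt _ hj
          · rw [h] at hj; exact asymm_of lt hj hbt
          · rw [← h] at hj; exact asymm_of lt hj (hb q f)
        rw [this]
        simp [pt]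
      rw [hlb] at h
      exact absurd hkK.2.1 (not_lt.2 h)
    · exact h
  have htk : t ∉ below lt k := by
    intro h
    have h1 : lend lt t + wt t ≤ k := h
    have hlt : lend lt t + wt t = 1 := by
      rw [lend_add]
      have : {j | j = t ∨ lt j t} = univ := by
        ext j
        simp only [mem_setOf_eq, mem_univ, iff_true]
        rcases hall j with h | h | ⟨q, f, h⟩
        · right; rw [h]; exact hbt
        · left; exact h
        · right; rw [← h]; exact ht q f
      rw [this]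
      have := pt_compl univ
      simpa [pt] using this
    rw [hlt] at h1
    exact absurd hkK.2.2 (not_lt.2 h1)
  -- each block is on one side
  have hside : ∀ q f g, ι q f ∈ below lt k → ι q g ∈ below lt k := by
    intro q f g h
    rcases hKs.2.2 (ι q g) with h1 | h1
    · exact absurd ⟨ι q f, ⟨f, rfl⟩, ι q g, ⟨g, rfl⟩, h, h1⟩ (hns q)
    · exact h1
  let J : Set ℚ := {q | ι q 0 ∈ below lt k}
  have hJmem : ∀ q f, ι q f ∈ below lt k ↔ q ∈ J := fun q f =>
    ⟨fun h => hside q f 0 h, fun h => hside q 0 f h⟩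
  have hJlow : ∀ q q', q ≤ q' → q' ∈ J → q ∈ J := by
    intro q q' hqq' hq'
    rcases hqq'.lt_or_eq with h | h
    · exact below_initial k _ _ (hq q q' h 0 0) hq'
    · rw [h]; exact hq'
  show k ∈ closure _
  rw [Metric.mem_closure_iff]
  intro ε hε
  by_cases hcase : J.Nonempty ∧ ∀ q ∈ J, ∃ q' ∈ J, q < q'
  · -- limit from the left
    obtain ⟨⟨q₀, hq₀⟩, hno⟩ := hcase
    obtain ⟨F, hF, hFε⟩ := exists_finset_pt (below lt k) hε
    rw [pt_below hKs] at hFε
    have hub : ∀ F : Finset ℕ, (↑F : Set ℕ) ⊆ below lt k → ∃ q ∈ J, (↑F : Set ℕ) ⊆ I q := by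
      intro F
      induction F using Finset.induction_on with
      | empty => exact fun _ => ⟨q₀, hq₀, by simp⟩
      | insert a F ha ih =>
        intro hsub
        obtain ⟨q, hqJ, hqF⟩ := ih (fun i hi => hsub (by simp [Finset.mem_coe.1 hi]))
        have ha' : a ∈ below lt k := hsub (by simp)
        rcases hall a with h | h | ⟨q', f, h⟩
        · refine ⟨q, hqJ, ?_⟩
          intro i hi
          rcases Finset.mem_insert.1 (Finset.mem_coe.1 hi) with rfl | hi
          · exact Or.inl h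
          · exact hqF hi
        · rw [h] at ha'; exact absurd ha' htk
        · have hq'J : q' ∈ J := (hJmem q' f).1 (h ▸ ha')
          refine ⟨max q q', ?_, ?_⟩
          · rcases le_total q q' with h3 | h3
            · rw [max_eq_right h3]; exact hq'J
            · rw [max_eq_left h3]; exact hqJ
          · intro i hi
            rcases Finset.mem_insert.1 (Finset.mem_coe.1 hi) with rfl | hi
            · exact Or.inr ⟨q', le_max_right _ _, f, h⟩
            · rcases hqF hi with h3 | ⟨q'', hq'', f', h3⟩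
              · exact Or.inl h3
              · exact Or.inr ⟨q'', hq''.trans (le_max_left _ _), f', h3⟩
    obtain ⟨q, hqJ, hqF⟩ := hub F hF
    obtain ⟨q', hq'J, hqq'⟩ := hno q hqJ
    have h1 : k - ε < pt (I q) := hFε.trans_le (pt_mono hqF)
    have hsub : I q ⊆ below lt k := by
      rintro i (h | ⟨q'', hq'', f, h⟩)
      · rw [h]; exact hbk
      · rw [← h]; exact (hJmem _ _).2 (hJlow _ _ hq'' hqJ)
    have h2 : pt (I q) + wt (ι q' 0) ≤ pt (below lt k) := by
      refine pt_add_le hsub hq'J ?_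
      rintro (h | ⟨q'', hq'', f, h⟩)
      · have := hb q' 0
        rw [h] at this
        exact irrefl_of lt _ this
      · have := hqeq _ _ _ _ h
        subst this
        exact absurd hqq' (not_lt.2 hq'')
    rw [pt_below hKs] at h2
    have hw := wt_pos (ι q' 0)
    refine ⟨pt (I q), ⟨⟨hIK q, hIns q⟩, ?_⟩, ?_⟩
    · intro h
      rw [mem_singleton_iff] at h
      linarith
    · rw [Real.dist_eq, abs_of_pos (by linarith)]
      linarith
  · -- limit from the right
    have hJc : ∃ q, q ∉ J := by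
      by_contra h
      push Not at h
      exact hcase ⟨⟨0, h 0⟩, fun q _ => ⟨q + 1, h _, by linarith⟩⟩
    have hnomin : ∀ q, q ∉ J → ∃ q', q' ∉ J ∧ q' < q := by
      intro q hqJ
      by_cases hJne : J.Nonempty
      · have h1 : ∃ q₁ ∈ J, ∀ q' ∈ J, q' ≤ q₁ := by
          by_contra h2
          push Not at h2
          exact hcase ⟨hJne, h2⟩
        obtain ⟨q₁, hq₁, hmax⟩ := h1
        have h3 : q₁ < q := by
          by_contra h4
          exact hqJ (hJlow _ _ (not_lt.1 h4) hq₁)
        refine ⟨(q₁ + q) / 2, fun h4 => ?_, by linarith⟩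
        have := hmax _ h4
        linarith
      · refine ⟨q - 1, fun h4 => hJne ⟨_, h4⟩, by linarith⟩
    obtain ⟨q₀, hq₀⟩ := hJc
    obtain ⟨F, hF, hFε⟩ := exists_finset_pt (below lt k)ᶜ hε
    have hcompl := pt_compl (below lt k)
    rw [pt_below hKs] at hcompl
    have hlb : ∀ F : Finset ℕ, (↑F : Set ℕ) ⊆ (below lt k)ᶜ →
        ∃ q, q ∉ J ∧ Disjoint (↑F : Set ℕ) (I q) := by
      intro F
      induction F using Finset.induction_on with
      | empty => exact fun _ => ⟨q₀, hq₀, by simp⟩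
      | insert a F ha ih =>
        intro hsub
        obtain ⟨q, hqJ, hqF⟩ := ih (fun i hi => hsub (by simp [Finset.mem_coe.1 hi]))
        have ha' : a ∉ below lt k := hsub (by simp)
        have hIm : ∀ q₁ q₂, q₁ ≤ q₂ → I q₁ ⊆ I q₂ := by
          rintro q₁ q₂ h12 i (h | ⟨q'', hq'', f, h⟩)
          · exact Or.inl h
          · exact Or.inr ⟨q'', hq''.trans h12, f, h⟩
        rcases hall a with h | h | ⟨q', f, h⟩
        · rw [h] at ha'; exact absurd hbk ha'
        · refine ⟨q, hqJ, ?_⟩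
          rw [Set.disjoint_left] at hqF ⊢
          intro i hi hi'
          rcases Finset.mem_insert.1 (Finset.mem_coe.1 hi) with rfl | hi
          · rw [h] at hi'; exact htI q hi'
          · exact hqF hi hi'
        · have hq'J : q' ∉ J := fun h3 => ha' (h ▸ (hJmem q' f).2 h3)
          obtain ⟨q₂, hq₂J, hq₂⟩ := hnomin q' hq'J
          refine ⟨min q q₂, ?_, ?_⟩
          · rcases le_total q q₂ with h3 | h3
            · rw [min_eq_left h3]; exact hqJ
            · rw [min_eq_right h3]; exact hq₂J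
          · rw [Set.disjoint_left] at hqF ⊢
            intro i hi hi'
            rcases Finset.mem_insert.1 (Finset.mem_coe.1 hi) with rfl | hi
            · rcases hi' with h3 | ⟨q'', hq'', f', h3⟩
              · rw [h3] at ha'; exact ha' hbk
              · have := hqeq _ _ _ _ (h3.trans h.symm)
                subst this
                have h4 := hq''.trans (min_le_right _ _)
                linarith
            · exact hqF hi (hIm _ _ (min_le_left _ _) hi')
    obtain ⟨q, hqJ, hqF⟩ := hlb F hF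
    have h1 : pt (F : Set ℕ) ≤ pt (I q)ᶜ := pt_mono fun i hi hi' =>
      Set.disjoint_left.1 hqF hi hi'
    have h2 := pt_compl (I q)
    have hsub : below lt k ⊆ I q := by
      intro i hi
      rcases hall i with h | h | ⟨q', f, h⟩
      · exact Or.inl h
      · rw [h] at hi; exact absurd hi htk
      · rw [← h] at hi ⊢
        have h3 : q' ∈ J := (hJmem _ _).1 hi
        have h4 : q' ≤ q := by
          by_contra h5
          exact hqJ (hJlow _ _ (not_le.1 h5).le h3)
        exact Or.inr ⟨q', h4, f, rfl⟩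
    have h3 : pt (below lt k) + wt (ι q 0) ≤ pt (I q) :=
      pt_add_le hsub (Or.inr ⟨q, le_rfl, 0, rfl⟩) hqJ
    rw [pt_below hKs] at h3
    have hw := wt_pos (ι q 0)
    refine ⟨pt (I q), ⟨⟨hIK q, hIns q⟩, ?_⟩, ?_⟩
    · intro h
      rw [mem_singleton_iff] at h
      linarith
    · rw [Real.dist_eq, abs_of_neg (by linarith)]
      linarith

/-- **K7, conclusion.** For the order `1 + ℚ × ℤ^Ω + 1` all points of rank `Ω` belong to a set without
isolated points.

Proof: by `not_sep_of_goodR` they do not separate the blocks; `selfR_noSep`. -/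
theorem selfR_of_isB {Ω : Type*} {r : Ω → Ω → Prop} [IsStrictTotalOrder Ω r]
    (hwf : WellFounded r) (h : IsB lt r) (R : Ω → Set ℝ) (hR : GoodR (Kint lt) r R) (k : ℝ)
    (hk : k ∈ Kint lt) (hacc : ∀ l, AccR (R l) k) : ∃ D, SelfR (Kint lt) D ∧ k ∈ D := by
  obtain ⟨b, t, ι, hι, hq, hb, ht, hall⟩ := h
  refine ⟨_, selfR_noSep hι hq hb ht hall, hk, fun q => ?_⟩
  exact not_sep_of_goodR hwf (hι q) (fun l k' hk' => ⟨(hR l k' hk').1.1, (hR l k' hk').2⟩) hk.1
    hacc

end Pool.Agent.Lib.H37C
end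

-- from Lib.H37C.Z4
section

open TopologicalSpace Set Filter Topology

namespace Pool.Agent.Lib.H37C

/-- **Z4.** The lexicographic square of `ℚ` is isomorphic to `ℚ` (Cantor:
`Order.iso_of_countable_dense` for `ℚ ×ₗ ℚ`). -/
theorem lex_rat : Nonempty (Prod.Lex ((· < ·) : ℚ → ℚ → Prop) ((· < ·) : ℚ → ℚ → Prop) ≃r
    ((· < ·) : ℚ → ℚ → Prop)) := by
  have hc : Countable (ℚ ×ₗ ℚ) := inferInstanceAs (Countable (ℚ × ℚ))
  have hne : Nonempty (ℚ ×ₗ ℚ) := ⟨toLex (0, 0)⟩
  obtain ⟨φ⟩ := Order.iso_of_countable_dense (ℚ ×ₗ ℚ) ℚ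
  refine ⟨⟨toLex.trans φ.toEquiv, fun {a b} => ?_⟩⟩
  exact φ.lt_iff_lt (x := toLex a) (y := toLex b)

/-- associativity of lexicographic products -/
theorem z4_assoc {α β γ : Type*} (r : α → α → Prop) (s : β → β → Prop) (t : γ → γ → Prop) :
    Nonempty (Prod.Lex r (Prod.Lex s t) ≃r Prod.Lex (Prod.Lex r s) t) := by
  refine ⟨⟨(Equiv.prodAssoc α β γ).symm, ?_⟩⟩
  rintro ⟨a, b, c⟩ ⟨a', b', c'⟩
  simp only [Equiv.prodAssoc_symm_apply, Prod.lex_def, Prod.mk.injEq]
  tauto

/-- **Z4, second part.** If the strict total order `r` on the countable set `Ω` is not well-founded,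
then `ℤ^Ω ≅ ℚ × ℤ^Ω`.

Proof: let `P = {m | Acc r m}` (well-founded part), an initial segment. Its complement is nonempty
and has no smallest element (if all `m'` with `r m' m` are accessible, so is `m`). By `nlt_split` and
`nlt_cantor` (for the complement of `P`), `ℤ^Ω ≅ ℤ^(Ω \ P) × ℤ^P ≅ ℚ × ℤ^P` (`RelIso.prodLexCongr`),
and `ℚ × ℤ^Ω ≅ ℚ × (ℚ × ℤ^P) ≅ (ℚ × ℚ) × ℤ^P ≅ ℚ × ℤ^P` by `lex_rat`. -/
theorem nlt_illfounded {Ω : Type*} [Countable Ω] (r : Ω → Ω → Prop) [IsStrictTotalOrder Ω r]
    (h : ¬ WellFounded r) :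
    Nonempty (NLt r ≃r Prod.Lex ((· < ·) : ℚ → ℚ → Prop) (NLt r)) := by
  let P : Set Ω := {m | Acc r m}
  have hP : ∀ a b, r a b → b ∈ P → a ∈ P := fun a b hab hb => hb.inv hab
  obtain ⟨e₁⟩ := nlt_split r P hP
  have hne : Nonempty {m // m ∉ P} := by
    by_contra h1
    rw [not_nonempty_iff, isEmpty_subtype] at h1
    exact h ⟨fun a => by simpa [P] using h1 a⟩
  have hno : ∀ m : {m // m ∉ P}, ∃ m' : {m // m ∉ P}, r m' m := by
    rintro ⟨m, hm⟩
    by_contra h1
    push Not at h1
    apply hm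
    refine ⟨_, fun y hy => ?_⟩
    by_contra h2
    exact h1 ⟨y, h2⟩ hy
  have hs : IsStrictTotalOrder {m // m ∉ P} (fun a b : {m // m ∉ P} => r a b) :=
    { trichotomous := fun a b h1 h2 => Subtype.ext (by
        rcases trichotomous_of r (a : Ω) b with h3 | h3 | h3
        · exact absurd h3 h1
        · exact h3
        · exact absurd h3 h2)
      irrefl := fun a => irrefl_of r (a : Ω)
      trans := fun a b c h1 h2 => _root_.trans h1 h2 }
  obtain ⟨e₂⟩ := nlt_cantor (fun a b : {m // m ∉ P} => r a b) hno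
  obtain ⟨e₃⟩ := lex_rat
  let t := NLt (fun a b : {m // m ∈ P} => r a b)
  have f₁ : NLt r ≃r Prod.Lex ((· < ·) : ℚ → ℚ → Prop) t :=
    e₁.trans (RelIso.prodLexCongr e₂ (RelIso.refl t))
  obtain ⟨a⟩ := z4_assoc ((· < ·) : ℚ → ℚ → Prop) ((· < ·) : ℚ → ℚ → Prop) t
  have f₂ : Prod.Lex ((· < ·) : ℚ → ℚ → Prop) (NLt r) ≃r Prod.Lex ((· < ·) : ℚ → ℚ → Prop) t :=
    ((RelIso.prodLexCongr (RelIso.refl _) f₁).trans a).trans
      (RelIso.prodLexCongr e₃ (RelIso.refl t))
  exact ⟨f₁.trans f₂.symm⟩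

end Pool.Agent.Lib.H37C
end

-- from Lib.H37C.Z5
section

open TopologicalSpace Set Filter Topology

namespace Pool.Agent.Lib.H37C

/-- the order `1 + s + 1` -/
def z5_cap {α : Type*} (s : α → α → Prop) : Unit ⊕ (α ⊕ Unit) → Unit ⊕ (α ⊕ Unit) → Prop :=
  Sum.Lex (fun _ _ => False) (Sum.Lex s (fun _ _ => False))

theorem z5_cap_sto {α : Type*} (s : α → α → Prop) [IsStrictTotalOrder α s] :
    IsStrictTotalOrder (Unit ⊕ (α ⊕ Unit)) (z5_cap s) := by
  refine { trichotomous := ?_, irrefl := ?_, trans := ?_ }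
  · rintro (⟨⟩ | a | ⟨⟩) (⟨⟩ | b | ⟨⟩) h1 h2 <;> simp [z5_cap] at h1 h2 ⊢
    rcases trichotomous_of s a b with h3 | h3 | h3
    · exact absurd h3 h1
    · exact h3
    · exact absurd h3 h2
  · rintro (⟨⟩ | a | ⟨⟩) h <;> simp [z5_cap] at h
    exact irrefl_of s _ h
  · rintro (⟨⟩ | a | ⟨⟩) (⟨⟩ | b | ⟨⟩) (⟨⟩ | c | ⟨⟩) h1 h2 <;> simp [z5_cap] at h1 h2 ⊢
    exact _root_.trans h1 h2

theorem z5_prod_sto {α β : Type*} (s : α → α → Prop) (t : β → β → Prop)
    [IsStrictTotalOrder α s] [IsStrictTotalOrder β t] :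
    IsStrictTotalOrder (α × β) (Prod.Lex s t) := by
  refine { trichotomous := ?_, irrefl := ?_, trans := ?_ }
  · rintro ⟨a, b⟩ ⟨a', b'⟩ h1 h2
    rw [Prod.lex_def] at h1 h2
    rcases trichotomous_of s a a' with h3 | h3 | h3
    · exact absurd (Or.inl h3) h1
    · subst h3
      rcases trichotomous_of t b b' with h4 | h4 | h4
      · exact absurd (Or.inr ⟨rfl, h4⟩) h1
      · rw [h4]
      · exact absurd (Or.inr ⟨rfl, h4⟩) h2
    · exact absurd (Or.inl h3) h2
  · rintro ⟨a, b⟩ h
    rw [Prod.lex_def] at h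
    rcases h with h | ⟨-, h⟩
    · exact irrefl_of s _ h
    · exact irrefl_of t _ h
  · rintro ⟨a, b⟩ ⟨a', b'⟩ ⟨a'', b''⟩ h1 h2
    rw [Prod.lex_def] at h1 h2 ⊢
    simp only at h1 h2 ⊢
    rcases h1 with h1 | ⟨rfl, h1⟩
    · rcases h2 with h2 | ⟨rfl, h2⟩
      · exact Or.inl (_root_.trans h1 h2)
      · exact Or.inl h1
    · rcases h2 with h2 | ⟨rfl, h2⟩
      · exact Or.inl h2
      · exact Or.inr ⟨rfl, _root_.trans h1 h2⟩

/-- transport of the order `1 + s + 1` to `ℕ` -/
def z5_lt {α : Type*} (e : Unit ⊕ (α ⊕ Unit) ≃ ℕ) (s : α → α → Prop) (i j : ℕ) : Prop :=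
  z5_cap s (e.symm i) (e.symm j)

/-- the isomorphism -/
def z5_iso {α : Type*} (e : Unit ⊕ (α ⊕ Unit) ≃ ℕ) (s : α → α → Prop) :
    z5_lt e s ≃r z5_cap s :=
  ⟨e.symm, Iff.rfl⟩

theorem z5_lt_sto {α : Type*} (e : Unit ⊕ (α ⊕ Unit) ≃ ℕ) (s : α → α → Prop)
    [IsStrictTotalOrder α s] : IsStrictTotalOrder ℕ (z5_lt e s) := by
  have := z5_cap_sto s
  exact (z5_iso e s).toRelEmbedding.isStrictTotalOrder

theorem z5_clopen {X α : Type*} [TopologicalSpace X] (e : Unit ⊕ (α ⊕ Unit) ≃ ℕ)
    (s : X → α → α → Prop) (hs : ∀ a b, IsClopen {x | s x a b}) (i j : ℕ) :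
    IsClopen {x | z5_lt e (s x) i j} := by
  unfold z5_lt
  rcases e.symm i with (⟨⟩ | a | ⟨⟩) <;> rcases e.symm j with (⟨⟩ | b | ⟨⟩) <;>
    simp [z5_cap, isClopen_empty, isClopen_univ, hs]

theorem z5_denum {α : Type*} [Countable α] [Infinite α] : Nonempty (Unit ⊕ (α ⊕ Unit) ≃ ℕ) := by
  have h1 : Infinite (Unit ⊕ (α ⊕ Unit)) :=
    Infinite.of_injective (fun a : α => (Sum.inr (Sum.inl a) : Unit ⊕ (α ⊕ Unit)))
      (fun a b h => Sum.inl_injective (Sum.inr_injective h))
  obtain ⟨h⟩ := nonempty_denumerable (Unit ⊕ (α ⊕ Unit))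
  exact ⟨Denumerable.eqv _⟩

theorem z5_cong {α β : Type*} {s : α → α → Prop} {t : β → β → Prop} (h : s ≃r t)
    (e : Unit ⊕ (α ⊕ Unit) ≃ ℕ) (e' : Unit ⊕ (β ⊕ Unit) ≃ ℕ) : Nonempty (z5_lt e s ≃r z5_lt e' t) :=
  ⟨((z5_iso e s).trans (RelIso.sumLexCongr (RelIso.refl _)
    (RelIso.sumLexCongr h (RelIso.refl _)))).trans (z5_iso e' t).symm⟩

/-- **Z5.** The two families of orders on `ℕ` attached to a family of orders on a countable set `Ω`.

Proof. The set `WA = Unit ⊕ (Ω →₀ ℤ) ⊕ Unit` with the relation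
`Sum.Lex (emptyRelation) (Sum.Lex (NLt (r x)) emptyRelation)` is the order `1 + ℤ^Ω + 1`, and
`WB = Unit ⊕ (ℚ × (Ω →₀ ℤ)) ⊕ Unit` with `Sum.Lex emptyRelation (Sum.Lex (Prod.Lex (<) (NLt (r x)))
emptyRelation)` is `1 + ℚ × ℤ^Ω + 1`. (One may also define the relations on these sets by cases.)
Both sets are countable and infinite (`Ω` is nonempty); fix bijections with `ℕ`
(`nonempty_denumerable`, independent of `x`), and transport the relations. Strict total orders by
`nlt_sto`; clopen by `nlt_clopen`; isomorphic for ill-founded `r x` by `nlt_illfounded`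
(`RelIso.sumLexCongr`). `IsA`, `IsB`: `b` and `t` are the codes of the first and the last point, `ι`
the code of the functions; the convexity `BlockEmb.conv` holds since the elements between two
elements of one block belong to the block. -/
theorem exists_AB {X : Type*} [TopologicalSpace X] {Ω : Type*} [Countable Ω] [Nonempty Ω]
    (r : X → Ω → Ω → Prop) (hr : ∀ x, IsStrictTotalOrder Ω (r x))
    (hc : ∀ i j, IsClopen {x | r x i j}) :
    ∃ ltA ltB : X → ℕ → ℕ → Prop, (∀ x, IsStrictTotalOrder ℕ (ltA x)) ∧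
      (∀ x, IsStrictTotalOrder ℕ (ltB x)) ∧ (∀ i j, IsClopen {x | ltA x i j}) ∧
      (∀ i j, IsClopen {x | ltB x i j}) ∧
      (∀ x, ¬ WellFounded (r x) → Nonempty (ltA x ≃r ltB x)) ∧
      (∀ x, IsA (ltA x) (r x)) ∧ ∀ x, IsB (ltB x) (r x) := by
  classical
  have hinf : Infinite (Ω →₀ ℤ) :=
    Infinite.of_injective (fun z : ℤ => Finsupp.single (Classical.arbitrary Ω) z)
      (Finsupp.single_injective _)
  obtain ⟨eA⟩ := z5_denum (α := Ω →₀ ℤ)
  obtain ⟨eB⟩ := z5_denum (α := ℚ × (Ω →₀ ℤ))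
  refine ⟨fun x => z5_lt eA (NLt (r x)), fun x => z5_lt eB (Prod.Lex (· < ·) (NLt (r x))),
    fun x => ?_, fun x => ?_, fun i j => ?_, fun i j => ?_, fun x hx => ?_, fun x => ?_,
    fun x => ?_⟩
  · have := hr x
    have := nlt_sto (r x)
    exact z5_lt_sto eA _
  · have := hr x
    have := nlt_sto (r x)
    have := z5_prod_sto ((· < ·) : ℚ → ℚ → Prop) (NLt (r x))
    exact z5_lt_sto eB _
  · exact z5_clopen eA (fun x => NLt (r x)) (fun a b => nlt_clopen r hc a b) i j
  · refine z5_clopen eB (fun x => Prod.Lex (· < ·) (NLt (r x))) ?_ i j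
    rintro ⟨q, f⟩ ⟨q', g⟩
    simp only [Prod.lex_def]
    by_cases h1 : q < q'
    · simp [h1, isClopen_univ]
    · by_cases h2 : q = q'
      · simpa [h1, h2] using nlt_clopen r hc f g
      · simp [h1, h2, isClopen_empty]
  · have := hr x
    obtain ⟨e⟩ := nlt_illfounded (r x) hx
    exact z5_cong e eA eB
  · refine ⟨eA (Sum.inl ()), eA (Sum.inr (Sum.inr ())), fun f => eA (Sum.inr (Sum.inl f)),
      ⟨fun f g h => ?_, fun f g i h1 h2 => ?_⟩, fun f => ?_, fun f => ?_, fun i => ?_⟩
    · simpa [z5_lt, z5_cap] using h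
    · unfold z5_lt at h1 h2
      obtain ⟨y, rfl⟩ := eA.surjective i
      simp only [Equiv.symm_apply_apply] at h1 h2
      rcases y with (⟨⟩ | a | ⟨⟩)
      · simp [z5_cap] at h1
      · exact ⟨a, rfl⟩
      · simp [z5_cap] at h2
    · simp [z5_lt, z5_cap]
    · simp [z5_lt, z5_cap]
    · obtain ⟨y, rfl⟩ := eA.surjective i
      rcases y with (⟨⟩ | a | ⟨⟩)
      · exact Or.inl rfl
      · exact Or.inr (Or.inr ⟨a, rfl⟩)
      · exact Or.inr (Or.inl rfl)
  · refine ⟨eB (Sum.inl ()), eB (Sum.inr (Sum.inr ())), fun q f => eB (Sum.inr (Sum.inl (q, f))),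
      fun q => ⟨fun f g h => ?_, fun f g i h1 h2 => ?_⟩, fun q q' hq f g => ?_, fun q f => ?_,
      fun q f => ?_, fun i => ?_⟩
    · simpa [z5_lt, z5_cap, Prod.lex_def] using h
    · unfold z5_lt at h1 h2
      obtain ⟨y, rfl⟩ := eB.surjective i
      simp only [Equiv.symm_apply_apply] at h1 h2
      rcases y with (⟨⟩ | ⟨q', a⟩ | ⟨⟩)
      · simp [z5_cap] at h1
      · simp only [z5_cap, Sum.lex_inr_inr, Sum.lex_inl_inl, Prod.lex_def] at h1 h2
        have hq' : q' = q := by
          rcases h1 with h1 | ⟨h1, -⟩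
          · rcases h2 with h2 | ⟨h2, -⟩
            · exact absurd h1 (not_lt.2 h2.le)
            · exact h2
          · exact h1.symm
        subst hq'
        exact ⟨a, rfl⟩
      · simp [z5_cap] at h2
    · simp [z5_lt, z5_cap, Prod.lex_def, hq]
    · simp [z5_lt, z5_cap]
    · simp [z5_lt, z5_cap]
    · obtain ⟨y, rfl⟩ := eB.surjective i
      rcases y with (⟨⟩ | ⟨q, a⟩ | ⟨⟩)
      · exact Or.inl rfl
      · exact Or.inr (Or.inr ⟨q, a, rfl⟩)
      · exact Or.inr (Or.inl rfl)

end Pool.Agent.Lib.H37C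
end

-- from Lib.H37C.Z6
section

open TopologicalSpace Set Filter Topology MeasureTheory

namespace Pool.Agent.Lib.H37C

/-- **Z6.** The families of orders used in the reduction. `B₀` is a countable set with a
well-founded strict total order `r₀` (a prefix which takes care of the background).

Proof: `exists_LO` gives the orders `lt x` on `ℕ`; put `Ω = B₀ ⊕ ℕ` with `r x = Sum.Lex r₀ (lt x)`,
a strict total order depending continuously on `x`, well-founded if and only if `lt x` is
(`sumLex_wf`, and the embedding `Sum.inr`). Apply `exists_AB`. -/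
theorem exists_orders {B₀ : Type} [Countable B₀] (r₀ : B₀ → B₀ → Prop)
    [IsStrictTotalOrder B₀ r₀] (h₀ : WellFounded r₀) (A : Set (ℕ → Bool)) (hA : AnalyticSet A) :
    ∃ ltA ltB : (ℕ → Bool) → ℕ → ℕ → Prop, (∀ x, IsStrictTotalOrder ℕ (ltA x)) ∧
      (∀ x, IsStrictTotalOrder ℕ (ltB x)) ∧ (∀ i j, IsClopen {x | ltA x i j}) ∧
      (∀ i j, IsClopen {x | ltB x i j}) ∧ (∀ x ∈ A, Nonempty (ltA x ≃r ltB x)) ∧
      ∀ x ∉ A, ∃ r : B₀ ⊕ ℕ → B₀ ⊕ ℕ → Prop, IsStrictTotalOrder (B₀ ⊕ ℕ) r ∧ WellFounded r ∧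
        (∀ b b', r₀ b b' → r (Sum.inl b) (Sum.inl b')) ∧ IsA (ltA x) r ∧ IsB (ltB x) r := by
  obtain ⟨lt, hlt1, hlt2, hlt3⟩ := exists_LO A hA
  have hs : ∀ x, IsStrictTotalOrder (B₀ ⊕ ℕ) (Sum.Lex r₀ (lt x)) := by
    intro x
    have := hlt1 x
    refine { trichotomous := ?_, irrefl := ?_, trans := ?_ }
    · rintro (a | a) (b | b) h1 h2 <;> simp at h1 h2 ⊢
      · rcases trichotomous_of r₀ a b with h3 | h3 | h3
        · exact absurd h3 h1
        · exact h3
        · exact absurd h3 h2
      · rcases trichotomous_of (lt x) a b with h3 | h3 | h3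
        · exact absurd h3 h1
        · exact h3
        · exact absurd h3 h2
    · rintro (a | a) h <;> simp at h
      · exact irrefl_of r₀ _ h
      · exact irrefl_of (lt x) _ h
    · rintro (a | a) (b | b) (c | c) h1 h2 <;> simp at h1 h2 ⊢
      · exact _root_.trans h1 h2
      · exact _root_.trans h1 h2
  have hc : ∀ i j, IsClopen {x | Sum.Lex r₀ (lt x) i j} := by
    rintro (i | i) (j | j)
    · by_cases h : r₀ i j <;> simp [h, isClopen_univ, isClopen_empty]
    · simp [isClopen_univ]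
    · simp [isClopen_empty]
    · simpa using hlt2 i j
  obtain ⟨ltA, ltB, h1, h2, h3, h4, h5, h6, h7⟩ := exists_AB (fun x => Sum.Lex r₀ (lt x)) hs hc
  refine ⟨ltA, ltB, h1, h2, h3, h4, fun x hx => h5 x ?_, fun x hx => ?_⟩
  · intro hw
    refine (hlt3 x).1 hx ?_
    exact (RelEmbedding.sumLexInr r₀ (lt x)).wellFounded hw
  · refine ⟨Sum.Lex r₀ (lt x), hs x, ?_, fun b b' h => Sum.Lex.inl h, h6 x, h7 x⟩
    have hw : WellFounded (lt x) := by
      by_contra h
      exact hx ((hlt3 x).2 h)
    exact Sum.lex_wf h₀ hw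

end Pool.Agent.Lib.H37C
end
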