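import Pool.Agent.Lib.H1M.FF.M016

/-! Merged copies (to shorten the build) of Lib.H37D.A12, Lib.H37D.A35, Lib.H37D.A14, Lib.H37D.A15. -/

-- from Lib.H37D.A12
section

/-!
# H37D A12 (size M): the graph transform preserves leaves; comparison of two leaves

As `Lib/H37N/A12.lean`. The norm of `ℝ × V` is the maximum of the two norms.
-/

open Set Filter Topology

namespace Pool.Agent.Lib.H37D

open Pool.Agent.Lib.H37N

variable {H V : Type*} [NormedAddCommGroup H] [NormedSpace ℝ H] [CompleteSpace H]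
  [NormedAddCommGroup V] [NormedSpace ℝ V] {S : Sys H V}

theorem da12_ee : 0 < ee ∧ ee ≤ 1 / 100000 := by
  have : ee = 1 / 10 ^ 10 := rfl
  rw [this]
  norm_num

theorem da12_fst {V : Type*} [NormedAddCommGroup V] (a b : ℝ × V) : |a.1 - b.1| ≤ ‖a - b‖ := by
  have := norm_fst_le (a - b)
  simpa using this

theorem da12_snd {V : Type*} [NormedAddCommGroup V] (a b : ℝ × V) : ‖a.2 - b.2‖ ≤ ‖a - b‖ := by
  have := norm_snd_le (a - b)
  simpa using this

theorem da12_le {V : Type*} [NormedAddCommGroup V] {a b : ℝ × V} {c : ℝ} (h1 : |a.1 - b.1| ≤ c)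
    (h2 : ‖a.2 - b.2‖ ≤ c) : ‖a - b‖ ≤ c := by
  rw [Prod.norm_def]
  refine max_le ?_ ?_
  · simpa using h1
  · simpa using h2

theorem GG_val (h : S.Good) (i : Sy) {f : H → ℝ × V} (hf : S.Leaf f) (x' : H) :
    |(S.GG i f x').1 - (off S.q i + S.q i * (f (S.sol i f x')).1)| ≤ ee :=
  h.Y0 i _ (hf.mem_dom x' _)

theorem GG_int (h : S.Good) (i : Sy) {f : H → ℝ × V} (hf : S.Leaf f) (x' : H) :
    -del + del / 10 ≤ (S.GG i f x').1 ∧ (S.GG i f x').1 ≤ 1 + del - del / 10 :=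
  h.Y_mem i (hf.mem_dom x' _)

/-- Proof. `mem1`: `GG_int`; `mem2`, `small`: `h.K0` (`1/50 * 3 ee + ee ≤ 3 ee`); `lip`: with `x = sol x'`, `y = sol y'`, `D = ‖cl x' - cl y'‖`,
`Y_diff` (`|q i| ≤ 81/100`) and `K_diff`: both components of the difference are at most
`ee D + (81/100 + 2 ee) ‖f x - f y‖ ≤ ee D + (811/1000) * 10 ee * (812/1000) D ≤ 10 ee D` (`sol_lip`), `RH.cl_lip`. -/
theorem GG_leaf (h : S.Good) (i : Sy) {f : H → ℝ × V} (hf : S.Leaf f) : S.Leaf (S.GG i f) := by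
  obtain ⟨he0, he1⟩ := da12_ee
  refine ⟨fun x => ?_, fun x => ?_, fun x => ?_, fun x' y' => ?_⟩
  · obtain ⟨h1, h2⟩ := GG_int h i hf x
    have hd : (0 : ℝ) < del := by norm_num [del]
    rw [II_def]
    exact ⟨by linarith, by linarith⟩
  · exact (h.K0 i _ (hf.mem_dom x _)).1
  · have h1 := (h.K0 i _ (hf.mem_dom x (S.sol i f x))).2
    have h2 := hf.small (S.sol i f x)
    refine h1.trans ?_
    simp only
    linarith
  · have hq := h.q0 i
    have hY := h.Y_diff i (hf.mem_dom y' (S.sol i f y')) (hf.mem_dom x' (S.sol i f x'))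
    have hK := h.K_diff i (hf.mem_dom y' (S.sol i f y')) (hf.mem_dom x' (S.sol i f x'))
    have hs := sol_lip h i hf x' y'
    have h3 := hf.lip (S.sol i f x') (S.sol i f y')
    have h4 := S.RH.cl_lip x' y'
    simp only at hY hK
    have a1 := da12_fst (f (S.sol i f x')) (f (S.sol i f y'))
    have a2 := da12_snd (f (S.sol i f x')) (f (S.sol i f y'))
    set D := ‖S.RH.cl x' - S.RH.cl y'‖ with hD
    set F := ‖f (S.sol i f x') - f (S.sol i f y')‖ with hF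
    have hF0 : 0 ≤ F := norm_nonneg _
    have hD0 : 0 ≤ D := norm_nonneg _
    have h5 : F ≤ 10 * ee * (812 / 1000 * D) :=
      h3.trans (mul_le_mul_of_nonneg_left hs (by positivity))
    have h6 : ee * D ≤ ee * ‖x' - y'‖ := mul_le_mul_of_nonneg_left h4 he0.le
    have h7 : ee * F ≤ 1 / 100000 * F := mul_le_mul_of_nonneg_right he1 hF0
    have h8 : ee * |(f (S.sol i f x')).1 - (f (S.sol i f y')).1| ≤ ee * F :=
      mul_le_mul_of_nonneg_left a1 he0.le
    have h9 : ee * ‖(f (S.sol i f x')).2 - (f (S.sol i f y')).2‖ ≤ ee * F :=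
      mul_le_mul_of_nonneg_left a2 he0.le
    have h12 : 0 ≤ ee * D := by positivity
    have h13 : 10 * ee * (812 / 1000 * D) = 812 / 100 * (ee * D) := by ring
    rw [h13] at h5
    refine da12_le ?_ ?_
    · have h10 : |S.q i * ((f (S.sol i f x')).1 - (f (S.sol i f y')).1)| ≤ 81 / 100 * F := by
        rw [abs_mul, abs_of_nonneg (by linarith [hq.1] : (0 : ℝ) ≤ S.q i)]
        exact mul_le_mul hq.2 a1 (abs_nonneg _) (by norm_num)
      have h11 := abs_add_le (S.Y i (S.RH.cl x', f (S.sol i f x')) -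
        S.Y i (S.RH.cl y', f (S.sol i f y')) -
        S.q i * ((f (S.sol i f x')).1 - (f (S.sol i f y')).1))
        (S.q i * ((f (S.sol i f x')).1 - (f (S.sol i f y')).1))
      rw [sub_add_cancel] at h11
      show |S.Y i (S.RH.cl x', f (S.sol i f x')) - S.Y i (S.RH.cl y', f (S.sol i f y'))| ≤ _
      linarith
    · show ‖S.K i (S.RH.cl x', f (S.sol i f x')) - S.K i (S.RH.cl y', f (S.sol i f y'))‖ ≤ _
      linarith

/-- comparison. Proof. `x0 = sol f0 x'`, `x1 = sol f1 x'`; `X_diff` with equal first components: `‖x1 - x0‖ ≤ 2 ee ‖f1 x1 - f0 x0‖`;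
`f1 x1 - f0 x0 = (f1 x1 - f1 x0) + (f1 x0 - f0 x0)`, `‖f1 x1 - f1 x0‖ ≤ 10 ee ‖x1 - x0‖ ≤ 20 ee^2 ‖f1 x1 - f0 x0‖`, so
`‖f1 x1 - f0 x0‖ ≤ 1.001 M` and `‖f1 x1 - f1 x0‖ ≤ 21 ee^2 M`, `M = ‖f1 x0 - f0 x0‖`. `Y_diff`, `K_diff` with equal first components. -/
theorem GG_diff (h : S.Good) (i : Sy) {f0 f1 : H → ℝ × V} (h0 : S.Leaf f0) (h1 : S.Leaf f1) (x' : H) :
    |(S.GG i f1 x').1 - (S.GG i f0 x').1 -
        S.q i * ((f1 (S.sol i f0 x')).1 - (f0 (S.sol i f0 x')).1)| ≤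
      3 * ee * ‖f1 (S.sol i f0 x') - f0 (S.sol i f0 x')‖ ∧
    ‖(S.GG i f1 x').2 - (S.GG i f0 x').2‖ ≤
      1 / 50 * ‖(f1 (S.sol i f0 x')).2 - (f0 (S.sol i f0 x')).2‖ +
        3 * ee * ‖f1 (S.sol i f0 x') - f0 (S.sol i f0 x')‖ := by
  obtain ⟨he0, he1⟩ := da12_ee
  have hq := h.q0 i
  set x0 := S.sol i f0 x' with hx0
  set x1 := S.sol i f1 x' with hx1
  have e0 : x0 = S.X i (S.RH.cl x', f0 x0) := sol_spec h i h0 x'
  have e1 : x1 = S.X i (S.RH.cl x', f1 x1) := sol_spec h i h1 x'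
  have h2 := h.X_diff i (h0.mem_dom x' x0) (h1.mem_dom x' x1)
  rw [← e0, ← e1] at h2
  simp only [sub_self, norm_zero, mul_zero, zero_add] at h2
  have h3 := h.Y_diff i (h0.mem_dom x' x0) (h1.mem_dom x' x1)
  simp only [sub_self, norm_zero, mul_zero, zero_add] at h3
  have h4 := h.K_diff i (h0.mem_dom x' x0) (h1.mem_dom x' x1)
  simp only [sub_self, norm_zero, mul_zero, zero_add] at h4
  have h5 := h1.lip x1 x0
  have w1 := da12_fst (f1 x1) (f0 x0)
  have w2 := da12_snd (f1 x1) (f0 x0)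
  have v1 := da12_fst (f1 x1) (f1 x0)
  have v2 := da12_snd (f1 x1) (f1 x0)
  have m : ‖f1 x1 - f0 x0‖ ≤ ‖f1 x1 - f1 x0‖ + ‖f1 x0 - f0 x0‖ := norm_sub_le_norm_sub_add_norm_sub _ _ _
  set W := ‖f1 x1 - f0 x0‖ with hW
  set E := ‖f1 x1 - f1 x0‖ with hE
  set M := ‖f1 x0 - f0 x0‖ with hM
  have hW0 : 0 ≤ W := norm_nonneg _
  have hE0 : 0 ≤ E := norm_nonneg _
  have hM0 : 0 ≤ M := norm_nonneg _
  have w3 : ee * |(f1 x1).1 - (f0 x0).1| ≤ ee * W := mul_le_mul_of_nonneg_left w1 he0.le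
  have w4 : ee * ‖(f1 x1).2 - (f0 x0).2‖ ≤ ee * W := mul_le_mul_of_nonneg_left w2 he0.le
  have h6 : ‖x1 - x0‖ ≤ 2 * (ee * W) := by linarith
  have h7 : E ≤ 10 * ee * (2 * (ee * W)) := h5.trans (mul_le_mul_of_nonneg_left h6 (by positivity))
  have h8 : 10 * ee * (2 * (ee * W)) ≤ 1 / 10000 * (2 * (ee * W)) :=
    mul_le_mul_of_nonneg_right (by linarith) (by positivity)
  have h9 : ee * W ≤ 1 / 100000 * W := mul_le_mul_of_nonneg_right he1 hW0
  have h10 : W ≤ 1001 / 1000 * M := by linarith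
  have h11 : ee * W ≤ ee * (1001 / 1000 * M) := mul_le_mul_of_nonneg_left h10 he0.le
  have h12 : ee * (1001 / 1000 * M) = 1001 / 1000 * (ee * M) := by ring
  have h13 : 0 ≤ ee * M := by positivity
  have h14 : 3 * ee * M = 3 * (ee * M) := by ring
  rw [h14]
  constructor
  · have h15 : |S.q i * ((f1 x1).1 - (f1 x0).1)| ≤ 1 * E := by
      rw [abs_mul, abs_of_nonneg (by linarith [hq.1] : (0 : ℝ) ≤ S.q i)]
      exact mul_le_mul (by linarith [hq.2]) v1 (abs_nonneg _) (by norm_num)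
    have h16 := abs_add_le ((S.GG i f1 x').1 - (S.GG i f0 x').1 -
      S.q i * ((f1 x1).1 - (f0 x0).1)) (S.q i * ((f1 x1).1 - (f1 x0).1))
    have e : (S.GG i f1 x').1 - (S.GG i f0 x').1 - S.q i * ((f1 x1).1 - (f0 x0).1) +
        S.q i * ((f1 x1).1 - (f1 x0).1) = (S.GG i f1 x').1 - (S.GG i f0 x').1 -
        S.q i * ((f1 x0).1 - (f0 x0).1) := by ring
    rw [e] at h16
    have h3' : |(S.GG i f1 x').1 - (S.GG i f0 x').1 - S.q i * ((f1 x1).1 - (f0 x0).1)| ≤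
      ee * |(f1 x1).1 - (f0 x0).1| + ee * ‖(f1 x1).2 - (f0 x0).2‖ := h3
    linarith
  · have h4' : ‖(S.GG i f1 x').2 - (S.GG i f0 x').2‖ ≤
      ee * |(f1 x1).1 - (f0 x0).1| + 1 / 50 * ‖(f1 x1).2 - (f0 x0).2‖ := h4
    have h17 : ‖(f1 x1).2 - (f0 x0).2‖ ≤ ‖(f1 x1).2 - (f1 x0).2‖ + ‖(f1 x0).2 - (f0 x0).2‖ :=
      norm_sub_le_norm_sub_add_norm_sub _ _ _
    linarith

theorem da12_norm {V : Type*} [NormedAddCommGroup V] {a b : ℝ × V} (h1 : a.1 ≤ b.1)
    (h2 : ‖b.2 - a.2‖ ≤ b.1 - a.1) : ‖b - a‖ = b.1 - a.1 := by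
  refine le_antisymm (da12_le (le_of_eq (abs_of_nonneg (sub_nonneg.2 h1))) h2) ?_
  exact (le_abs_self _).trans (da12_fst b a)

theorem da12_cone {V : Type*} [NormedAddCommGroup V] {a b a' b' : ℝ × V} {e q : ℝ}
    (h1 : a.1 ≤ b.1) (h2 : ‖b.2 - a.2‖ ≤ b.1 - a.1) (he0 : 0 < e) (he1 : e ≤ 1 / 100000)
    (hq : 19 / 100 ≤ q ∧ q ≤ 81 / 100)
    (h3 : |b'.1 - a'.1 - q * (b.1 - a.1)| ≤ 3 * e * ‖b - a‖)
    (h4 : ‖b'.2 - a'.2‖ ≤ 1 / 50 * ‖b.2 - a.2‖ + 3 * e * ‖b - a‖) :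
    18 / 100 * (b.1 - a.1) ≤ b'.1 - a'.1 ∧ ‖b'.2 - a'.2‖ ≤ b'.1 - a'.1 := by
  rw [da12_norm h1 h2] at h3 h4
  have h5 := (abs_le.1 h3).1
  have h6 : 0 ≤ b.1 - a.1 := sub_nonneg.2 h1
  have h7 : 19 / 100 * (b.1 - a.1) ≤ q * (b.1 - a.1) := mul_le_mul_of_nonneg_right hq.1 h6
  have h8 : 3 * e * (b.1 - a.1) ≤ 1 / 1000 * (b.1 - a.1) :=
    mul_le_mul_of_nonneg_right (by linarith) h6
  constructor <;> linarith

/-- Proof. `GG_diff` at `x0`: `Δ = (f1 x0).1 - (f0 x0).1 ≥ 0`, `‖f1 x0 - f0 x0‖ = Δ` (cone), so the new first component is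
`≥ (q i - 3 ee) Δ ≥ 18/100 Δ` and the new second component has norm `≤ (1/50 + 3 ee) Δ`. -/
theorem GG_mono (h : S.Good) (i : Sy) {f0 f1 : H → ℝ × V} (h0 : S.Leaf f0) (h1 : S.Leaf f1)
    (hle : ∀ x, LeC f0 f1 x) (x' : H) : LeC (S.GG i f0) (S.GG i f1) x' := by
  obtain ⟨he0, he1⟩ := da12_ee
  obtain ⟨h2, h3⟩ := GG_diff h i h0 h1 x'
  obtain ⟨h4, h5⟩ := hle (S.sol i f0 x')
  obtain ⟨h6, h7⟩ := da12_cone h4 h5 he0 he1 (h.q0 i) h2 h3
  have h8 : 0 ≤ (f1 (S.sol i f0 x')).1 - (f0 (S.sol i f0 x')).1 := sub_nonneg.2 h4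
  exact ⟨by linarith, h7⟩

theorem GG_strictMono (h : S.Good) (i : Sy) {f0 f1 : H → ℝ × V} (h0 : S.Leaf f0) (h1 : S.Leaf f1)
    (hle : ∀ x, LtC f0 f1 x) (x' : H) : LtC (S.GG i f0) (S.GG i f1) x' := by
  obtain ⟨he0, he1⟩ := da12_ee
  obtain ⟨h2, h3⟩ := GG_diff h i h0 h1 x'
  obtain ⟨h4, h5⟩ := hle (S.sol i f0 x')
  obtain ⟨h6, h7⟩ := da12_cone h4.le h5 he0 he1 (h.q0 i) h2 h3
  have h8 : 0 < (f1 (S.sol i f0 x')).1 - (f0 (S.sol i f0 x')).1 := sub_pos.2 h4
  exact ⟨by linarith, h7⟩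

theorem GG_contr (h : S.Good) (i : Sy) {f0 f1 : H → ℝ × V} (h0 : S.Leaf f0) (h1 : S.Leaf f1) {C : ℝ}
    (hC : ∀ x, ‖f1 x - f0 x‖ ≤ C) (x' : H) : ‖S.GG i f1 x' - S.GG i f0 x'‖ ≤ 82 / 100 * C := by
  obtain ⟨he0, he1⟩ := da12_ee
  obtain ⟨h2, h3⟩ := GG_diff h i h0 h1 x'
  have hc := hC (S.sol i f0 x')
  have a1 := da12_fst (f1 (S.sol i f0 x')) (f0 (S.sol i f0 x'))
  have a2 := da12_snd (f1 (S.sol i f0 x')) (f0 (S.sol i f0 x'))
  have hq := h.q0 i
  set M := ‖f1 (S.sol i f0 x') - f0 (S.sol i f0 x')‖ with hM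
  have hM0 : 0 ≤ M := norm_nonneg _
  have h5 : 3 * ee * M ≤ 1 / 1000 * M := mul_le_mul_of_nonneg_right (by linarith) hM0
  refine da12_le ?_ ?_
  · have h6 : |S.q i * ((f1 (S.sol i f0 x')).1 - (f0 (S.sol i f0 x')).1)| ≤ 81 / 100 * M := by
      rw [abs_mul, abs_of_nonneg (by linarith [hq.1] : (0 : ℝ) ≤ S.q i)]
      exact mul_le_mul hq.2 a1 (abs_nonneg _) (by norm_num)
    have h7 := abs_add_le ((S.GG i f1 x').1 - (S.GG i f0 x').1 -
      S.q i * ((f1 (S.sol i f0 x')).1 - (f0 (S.sol i f0 x')).1))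
      (S.q i * ((f1 (S.sol i f0 x')).1 - (f0 (S.sol i f0 x')).1))
    rw [sub_add_cancel] at h7
    linarith
  · linarith

/-! the same for words: induction on `w` (generalizing the leaves) -/

theorem Gw_leaf (h : S.Good) (w : List Sy) {f : H → ℝ × V} (hf : S.Leaf f) : S.Leaf (S.Gw w f) := by
  induction w generalizing f with
  | nil => exact hf
  | cons i w ih => exact ih (GG_leaf h i hf)

theorem Gw_mono (h : S.Good) (w : List Sy) {f0 f1 : H → ℝ × V} (h0 : S.Leaf f0) (h1 : S.Leaf f1)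
    (hle : ∀ x, LeC f0 f1 x) (x' : H) : LeC (S.Gw w f0) (S.Gw w f1) x' := by
  induction w generalizing f0 f1 with
  | nil => exact hle x'
  | cons i w ih => exact ih (GG_leaf h i h0) (GG_leaf h i h1) (GG_mono h i h0 h1 hle)

theorem Gw_strictMono (h : S.Good) (w : List Sy) {f0 f1 : H → ℝ × V} (h0 : S.Leaf f0)
    (h1 : S.Leaf f1) (hle : ∀ x, LtC f0 f1 x) (x' : H) : LtC (S.Gw w f0) (S.Gw w f1) x' := by
  induction w generalizing f0 f1 with
  | nil => exact hle x'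
  | cons i w ih => exact ih (GG_leaf h i h0) (GG_leaf h i h1) (GG_strictMono h i h0 h1 hle)


theorem Sys.Leaf.continuous {f : H → ℝ × V} (hf : S.Leaf f) : Continuous f := by
  refine LipschitzWith.continuous (K := ⟨10 * ee, by norm_num [ee]⟩) ?_
  refine LipschitzWith.of_dist_le_mul fun x y => ?_
  rw [dist_eq_norm, dist_eq_norm]
  exact hf.lip x y

end Pool.Agent.Lib.H37D
end

-- from Lib.H37D.A35
section

/-!
# H37D A35 (size S/M): points of transformed leaves lie on cross orbits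

As `Lib/H37N/A35.lean`.
-/

open Set Filter Topology

namespace Pool.Agent.Lib.H37D

open Pool.Agent.Lib.H37N

variable {H V : Type*} [NormedAddCommGroup H] [NormedSpace ℝ H] [CompleteSpace H]
  [NormedAddCommGroup V] [NormedSpace ℝ V] {S : Sys H V}

theorem leaf_orbit (h : S.Good) (w : List Sy) {f : H → ℝ × V} (hf : S.Leaf f) {x : H}
    (hx : x ∈ S.RH.S) : ∃ (xs : ℕ → H) (ys : ℕ → ℝ) (vs : ℕ → V),
      S.Orb (fun n => w.getD n Sy.P) w.length xs ys vs ∧ xs w.length = x ∧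
      (ys w.length, vs w.length) = S.Gw w f x ∧ (ys 0, vs 0) = f (xs 0) := by
  induction w generalizing f with
  | nil =>
    exact ⟨fun _ => x, fun _ => (f x).1, fun _ => (f x).2,
      ⟨fun n _ => hx, fun n _ => hf.mem1 x, fun n _ => hf.mem2 x,
      fun n hn => absurd hn (Nat.not_lt_zero _), fun n hn => absurd hn (Nat.not_lt_zero _),
      fun n hn => absurd hn (Nat.not_lt_zero _)⟩,
      rfl, rfl, rfl⟩
  | cons j w ih =>
    obtain ⟨xs, ys, vs, o, h1, h2, h3⟩ := ih (GG_leaf h j hf)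
    have hx0 : xs 0 ∈ S.RH.S := o.mx 0 (Nat.zero_le _)
    refine ⟨fun n => Nat.casesOn n (S.sol j f (xs 0)) xs,
      fun n => Nat.casesOn n (f (S.sol j f (xs 0))).1 ys,
      fun n => Nat.casesOn n (f (S.sol j f (xs 0))).2 vs, ⟨?_, ?_, ?_, ?_, ?_, ?_⟩, ?_, ?_, ?_⟩
    · rintro (_ | n) hn
      · exact sol_mem h j hf _
      · exact o.mx n (Nat.le_of_succ_le_succ hn)
    · rintro (_ | n) hn
      · exact hf.mem1 _
      · exact o.my n (Nat.le_of_succ_le_succ hn)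
    · rintro (_ | n) hn
      · exact hf.mem2 _
      · exact o.mv n (Nat.le_of_succ_le_succ hn)
    · rintro (_ | n) hn
      · have := sol_spec h j hf (xs 0)
        rw [S.RH.cl_of _ hx0] at this
        exact this
      · exact o.ex n (Nat.lt_of_succ_lt_succ hn)
    · rintro (_ | n) hn
      · have h4 : ys 0 = (S.GG j f (xs 0)).1 := congrArg Prod.fst h3
        show ys 0 = S.Y j (xs 0, (f (S.sol j f (xs 0))).1, (f (S.sol j f (xs 0))).2)
        rw [h4]
        unfold Sys.GG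
        rw [S.RH.cl_of _ hx0]
      · exact o.ey n (Nat.lt_of_succ_lt_succ hn)
    · rintro (_ | n) hn
      · have h4 : vs 0 = (S.GG j f (xs 0)).2 := congrArg Prod.snd h3
        show vs 0 = S.K j (xs 0, (f (S.sol j f (xs 0))).1, (f (S.sol j f (xs 0))).2)
        rw [h4]
        unfold Sys.GG
        rw [S.RH.cl_of _ hx0]
      · exact o.ev n (Nat.lt_of_succ_lt_succ hn)
    · exact h1
    · exact h2
    · rfl

end Pool.Agent.Lib.H37D
end

-- from Lib.H37D.A14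
section

/-!
# H37D A14 (size M): the fixed leaves

As `Lib/H37N/A14.lean`, with norms.
-/

open Set Filter Topology

namespace Pool.Agent.Lib.H37D

open Pool.Agent.Lib.H37N

variable {H V : Type*} [NormedAddCommGroup H] [NormedSpace ℝ H] [CompleteSpace H]
  [NormedAddCommGroup V] [NormedSpace ℝ V] [CompleteSpace V] {S : Sys H V}

theorem a14_ee : (0 : ℝ) < ee := by norm_num [ee]

/-- constant leaves. Proof: `S.RV.zero_mem`. -/
theorem leaf_const {c : ℝ} (hc : c ∈ II) : S.Leaf fun _ => (c, 0) := by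
  refine ⟨fun _ => hc, fun _ => S.RV.zero_mem, fun _ => ?_, fun h h' => ?_⟩
  · rw [norm_zero]
    have := a14_ee
    positivity
  · rw [sub_self, norm_zero]
    have := a14_ee
    positivity

theorem a14_leaf (h : S.Good) (i : Sy) (n : ℕ) : S.Leaf ((S.GG i)^[n] (fun _ => 0)) := by
  induction n with
  | zero =>
    have h0 : (0 : ℝ) ∈ II := by rw [II_def]; constructor <;> norm_num [del]
    exact leaf_const h0
  | succ n ih =>
    rw [Function.iterate_succ_apply']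
    exact GG_leaf h i ih

theorem a14_two {f g : H → ℝ × V} (hf : S.Leaf f) (hg : S.Leaf g) (x : H) : ‖f x - g x‖ ≤ 2 := by
  rw [Prod.norm_def]
  refine max_le ?_ ?_
  · show ‖(f x).1 - (g x).1‖ ≤ 2
    have h1 := (hf.mem1 x).1
    have h2 := (hf.mem1 x).2
    have h3 := (hg.mem1 x).1
    have h4 := (hg.mem1 x).2
    simp only [del] at h1 h2 h3 h4
    rw [Real.norm_eq_abs, abs_le]
    constructor <;> linarith
  · exact S.RV.diam _ (hf.mem2 x) _ (hg.mem2 x)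

theorem a14_step (h : S.Good) (i : Sy) (n : ℕ) (x : H) :
    ‖(S.GG i)^[n + 1] (fun _ => 0) x - (S.GG i)^[n] (fun _ => 0) x‖ ≤ 2 * (82 / 100) ^ n := by
  induction n generalizing x with
  | zero =>
    rw [pow_zero, mul_one]
    exact a14_two (a14_leaf h i _) (a14_leaf h i _) x
  | succ n ih =>
    rw [Function.iterate_succ_apply' (S.GG i) (n + 1), Function.iterate_succ_apply' (S.GG i) n]
    have := GG_contr h i (a14_leaf h i n) (a14_leaf h i (n + 1)) ih x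
    rw [Function.iterate_succ_apply' (S.GG i) n] at this
    refine this.trans (le_of_eq ?_)
    ring

theorem a14_dist (h : S.Good) (i : Sy) (n : ℕ) (x : H) :
    dist ((S.GG i)^[n] (fun _ => 0) x) ((S.GG i)^[n + 1] (fun _ => 0) x) ≤
      2 * (82 / 100) ^ n := by
  rw [dist_eq_norm, norm_sub_rev]
  exact a14_step h i n x

theorem a14_lim {a b c r : ℝ} (hr0 : 0 ≤ r) (hr : r < 1) (h : ∀ n : ℕ, a ≤ b * r ^ n + c) :
    a ≤ c := by
  have h1 : Tendsto (fun n : ℕ => b * r ^ n + c) atTop (𝓝 (b * 0 + c)) :=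
    ((tendsto_pow_atTop_nhds_zero_of_lt_one hr0 hr).const_mul b).add_const c
  rw [mul_zero, zero_add] at h1
  exact ge_of_tendsto' h1 h

/-- Proof. `F n = (S.GG i)^[n] (fun _ => 0)` are leaves; `‖F (n+1) x - F n x‖ ≤ (82/100)^n * 2` (induction, `GG_contr`; two values of leaves differ by at
most `2`: `II` has length `1 + 2 del`, the second components have norm `≤ 3 ee`). Cauchy in `ℝ × V`. -/
theorem fixL_tendsto (h : S.Good) (i : Sy) (x : H) :
    Tendsto (fun n : ℕ => (S.GG i)^[n] (fun _ => 0) x) atTop (𝓝 (S.fixL i x)) := by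
  exact (cauchySeq_of_le_geometric (82 / 100) 2 (by norm_num)
    fun n => a14_dist h i n x).tendsto_limUnder

theorem fixL_rate (h : S.Good) (i : Sy) (n : ℕ) (x : H) :
    ‖(S.GG i)^[n] (fun _ => 0) x - S.fixL i x‖ ≤ 12 * (82 / 100) ^ n := by
  have := dist_le_of_le_geometric_of_tendsto (82 / 100) 2 (by norm_num)
    (fun n => a14_dist h i n x) (fixL_tendsto h i x) n
  rw [dist_eq_norm] at this
  have h2 : (0 : ℝ) ≤ (82 / 100) ^ n := by positivity
  refine this.trans ?_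
  rw [div_le_iff₀ (by norm_num)]
  nlinarith

/-- Proof. All conditions are closed (`S.RV.closed`), pass to the limit. -/
theorem fixL_leaf (h : S.Good) (i : Sy) : S.Leaf (S.fixL i) := by
  have t1 : ∀ x, Tendsto (fun n : ℕ => ((S.GG i)^[n] (fun _ => 0) x).1) atTop
      (𝓝 (S.fixL i x).1) := fun x =>
    (continuous_fst.tendsto _).comp (fixL_tendsto h i x)
  have t2 : ∀ x, Tendsto (fun n : ℕ => ((S.GG i)^[n] (fun _ => 0) x).2) atTop
      (𝓝 (S.fixL i x).2) := fun x =>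
    (continuous_snd.tendsto _).comp (fixL_tendsto h i x)
  refine ⟨fun x => ?_, fun x => ?_, fun x => ?_, fun x y => ?_⟩
  · have hc : IsClosed II := isClosed_Icc
    exact hc.mem_of_tendsto (t1 x) (Eventually.of_forall fun n => (a14_leaf h i n).mem1 x)
  · exact S.RV.closed.mem_of_tendsto (t2 x)
      (Eventually.of_forall fun n => (a14_leaf h i n).mem2 x)
  · exact le_of_tendsto (t2 x).norm (Eventually.of_forall fun n => (a14_leaf h i n).small x)
  · exact le_of_tendsto ((fixL_tendsto h i x).sub (fixL_tendsto h i y)).norm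
      (Eventually.of_forall fun n => (a14_leaf h i n).lip x y)

theorem fixL_fix (h : S.Good) (i : Sy) : S.GG i (S.fixL i) = S.fixL i := by
  funext x
  have key : ∀ n : ℕ, ‖S.GG i (S.fixL i) x - S.fixL i x‖ ≤ 24 * (82 / 100) ^ n + 0 := by
    intro n
    have h1 := GG_contr h i (a14_leaf h i n) (fixL_leaf h i) (C := 12 * (82 / 100) ^ n)
      (fun x => by rw [norm_sub_rev]; exact fixL_rate h i n x) x
    have h2 := fixL_rate h i (n + 1) x
    rw [Function.iterate_succ_apply'] at h2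
    have h3 := norm_sub_le_norm_sub_add_norm_sub (S.GG i (S.fixL i) x)
      (S.GG i ((S.GG i)^[n] (fun _ => 0)) x) (S.fixL i x)
    have h4 : (0 : ℝ) ≤ (82 / 100) ^ n := by positivity
    rw [pow_succ] at h2
    linarith
  have h0 := a14_lim (by norm_num) (by norm_num) key
  exact sub_eq_zero.1 (norm_le_zero_iff.1 h0)


/-- the values of the base leaves, as in `A14` -/
theorem fixL_P_val (h : S.Good) (x : H) : |(S.fixL Sy.P x).1| ≤ 6 * ee := by
  have hq := (h.q0 Sy.P)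
  have key : ∀ (n : ℕ) (x : H), |(S.fixL Sy.P x).1| ≤ 2 * (81 / 100) ^ n + 55 / 10 * ee := by
    intro n
    induction n with
    | zero =>
      intro x
      have h1 := (fixL_leaf h Sy.P).mem1 x
      have h2 := h1.1
      have h3 := h1.2
      simp only [del] at h2 h3
      rw [pow_zero, mul_one, abs_le]
      have := a14_ee
      constructor <;> linarith
    | succ n ih =>
      intro x
      have h1 := GG_val h Sy.P (fixL_leaf h Sy.P) x
      rw [fixL_fix h] at h1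
      have h2 := ih (S.sol Sy.P (S.fixL Sy.P) x)
      simp only [off, zero_add] at h1
      have h3 : |S.q Sy.P * (S.fixL Sy.P (S.sol Sy.P (S.fixL Sy.P) x)).1| ≤
          81 / 100 * (2 * (81 / 100) ^ n + 55 / 10 * ee) := by
        rw [abs_mul, abs_of_nonneg (by linarith : (0 : ℝ) ≤ S.q Sy.P)]
        exact mul_le_mul hq.2 h2 (abs_nonneg _) (by norm_num)
      have h4 := abs_sub_abs_le_abs_sub (S.fixL Sy.P x).1
        (S.q Sy.P * (S.fixL Sy.P (S.sol Sy.P (S.fixL Sy.P) x)).1)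
      have := a14_ee
      rw [pow_succ]
      linarith
  have h0 := a14_lim (by norm_num) (by norm_num) (fun n => key n x)
  have := a14_ee
  linarith

theorem fixL_Q_val (h : S.Good) (x : H) : |(S.fixL Sy.Q x).1 - 1| ≤ 6 * ee := by
  have hq := (h.q0 Sy.Q)
  have key : ∀ (n : ℕ) (x : H), |(S.fixL Sy.Q x).1 - 1| ≤ 2 * (81 / 100) ^ n + 55 / 10 * ee := by
    intro n
    induction n with
    | zero =>
      intro x
      have h1 := (fixL_leaf h Sy.Q).mem1 x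
      have h2 := h1.1
      have h3 := h1.2
      simp only [del] at h2 h3
      rw [pow_zero, mul_one, abs_le]
      have := a14_ee
      constructor <;> linarith
    | succ n ih =>
      intro x
      have h1 := GG_val h Sy.Q (fixL_leaf h Sy.Q) x
      rw [fixL_fix h] at h1
      have h2 := ih (S.sol Sy.Q (S.fixL Sy.Q) x)
      have hsum := h.qsum
      have h3 : |S.q Sy.Q * ((S.fixL Sy.Q (S.sol Sy.Q (S.fixL Sy.Q) x)).1 - 1)| ≤
          81 / 100 * (2 * (81 / 100) ^ n + 55 / 10 * ee) := by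
        rw [abs_mul, abs_of_nonneg (by linarith : (0 : ℝ) ≤ S.q Sy.Q)]
        exact mul_le_mul hq.2 h2 (abs_nonneg _) (by norm_num)
      have h5 : (S.fixL Sy.Q x).1 - (off S.q Sy.Q + S.q Sy.Q *
          (S.fixL Sy.Q (S.sol Sy.Q (S.fixL Sy.Q) x)).1) = ((S.fixL Sy.Q x).1 - 1) -
          S.q Sy.Q * ((S.fixL Sy.Q (S.sol Sy.Q (S.fixL Sy.Q) x)).1 - 1) := by
        simp only [off]
        linear_combination -hsum
      rw [h5] at h1
      have h4 := abs_sub_abs_le_abs_sub ((S.fixL Sy.Q x).1 - 1)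
        (S.q Sy.Q * ((S.fixL Sy.Q (S.sol Sy.Q (S.fixL Sy.Q) x)).1 - 1))
      have := a14_ee
      rw [pow_succ]
      linarith
  have h0 := a14_lim (by norm_num) (by norm_num) (fun n => key n x)
  have := a14_ee
  linarith

theorem GGPQ_val (h : S.Good) (x : H) : |(S.GG Sy.P (S.fixL Sy.Q) x).1 - S.q Sy.P| ≤ 6 * ee := by
  have hq := (h.q0 Sy.P)
  have h1 := GG_val h Sy.P (fixL_leaf h Sy.Q) x
  have h2 := fixL_Q_val h (S.sol Sy.P (S.fixL Sy.Q) x)
  have h3 : |S.q Sy.P * ((S.fixL Sy.Q (S.sol Sy.P (S.fixL Sy.Q) x)).1 - 1)| ≤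
      81 / 100 * (6 * ee) := by
    rw [abs_mul, abs_of_nonneg (by linarith : (0 : ℝ) ≤ S.q Sy.P)]
    exact mul_le_mul hq.2 h2 (abs_nonneg _) (by norm_num)
  have h4 : (S.GG Sy.P (S.fixL Sy.Q) x).1 - S.q Sy.P = ((S.GG Sy.P (S.fixL Sy.Q) x).1 -
      (off S.q Sy.P + S.q Sy.P * (S.fixL Sy.Q (S.sol Sy.P (S.fixL Sy.Q) x)).1)) +
      S.q Sy.P * ((S.fixL Sy.Q (S.sol Sy.P (S.fixL Sy.Q) x)).1 - 1) := by
    simp only [off]; ring
  rw [h4]
  refine (abs_add_le _ _).trans ?_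
  have := a14_ee
  linarith

theorem GGQP_val (h : S.Good) (x : H) :
    |(S.GG Sy.Q (S.fixL Sy.P) x).1 - (S.q Sy.P + gam)| ≤ 6 * ee := by
  have hq := (h.q0 Sy.Q)
  have h1 := GG_val h Sy.Q (fixL_leaf h Sy.P) x
  have h2 := fixL_P_val h (S.sol Sy.Q (S.fixL Sy.P) x)
  have h3 : |S.q Sy.Q * (S.fixL Sy.P (S.sol Sy.Q (S.fixL Sy.P) x)).1| ≤
      81 / 100 * (6 * ee) := by
    rw [abs_mul, abs_of_nonneg (by linarith : (0 : ℝ) ≤ S.q Sy.Q)]
    exact mul_le_mul hq.2 h2 (abs_nonneg _) (by norm_num)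
  have h4 : (S.GG Sy.Q (S.fixL Sy.P) x).1 - (S.q Sy.P + gam) = ((S.GG Sy.Q (S.fixL Sy.P) x).1 -
      (off S.q Sy.Q + S.q Sy.Q * (S.fixL Sy.P (S.sol Sy.Q (S.fixL Sy.P) x)).1)) +
      S.q Sy.Q * (S.fixL Sy.P (S.sol Sy.Q (S.fixL Sy.P) x)).1 := by
    simp only [off]; ring
  rw [h4]
  refine (abs_add_le _ _).trans ?_
  have := a14_ee
  linarith

theorem Gw_cons_fixL (h : S.Good) (i : Sy) (w : List Sy) :
    S.Gw (i :: w) (S.fixL i) = S.Gw w (S.fixL i) := by
  rw [Sys.Gw_cons, fixL_fix h]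

end Pool.Agent.Lib.H37D
end

-- from Lib.H37D.A15
section

/-!
# H37D A15 (size S/M): the order of the base leaves (cone order)

As `Lib/H37N/A15.lean`; the second components of leaves have norm `≤ 3 ee`, so the cone condition `‖v1 - v0‖ ≤ y1 - y0` follows from
`y1 - y0 ≥ 6 ee`.
-/

open Set Filter Topology

namespace Pool.Agent.Lib.H37D

open Pool.Agent.Lib.H37N

variable {H V : Type*} [NormedAddCommGroup H] [NormedSpace ℝ H] [CompleteSpace H]
  [NormedAddCommGroup V] [NormedSpace ℝ V] [CompleteSpace V] {S : Sys H V}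

/-- Proof: `Leaf.small` and the triangle inequality. -/
theorem LtC.of_gap {f0 f1 : H → ℝ × V} (h0 : S.Leaf f0) (h1 : S.Leaf f1) {x : H}
    (hg : (f0 x).1 + 6 * ee ≤ (f1 x).1) : LtC f0 f1 x := by
  have he := ee_pos
  refine ⟨by linarith, ?_⟩
  have a := norm_sub_le (f1 x).2 (f0 x).2
  have b := h0.small x
  have c := h1.small x
  linarith

theorem lo_leaf : S.Leaf lo := leaf_const ⟨le_rfl, del_le⟩
theorem hi_leaf : S.Leaf hi := leaf_const ⟨del_le, le_rfl⟩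

theorem lo_lt_fixL (h : S.Good) (i : Sy) (x : H) : LtC lo (S.fixL i) x := by
  refine LtC.of_gap lo_leaf (fixL_leaf h i) ?_
  show -del + 6 * ee ≤ _
  cases i with
  | P =>
    have := abs_le.1 (fixL_P_val h x)
    unfold del ee at *
    linarith [this.1]
  | Q =>
    have := abs_le.1 (fixL_Q_val h x)
    unfold del ee at *
    linarith [this.1]

theorem fixL_lt_hi (h : S.Good) (i : Sy) (x : H) : LtC (S.fixL i) hi x := by
  refine LtC.of_gap (fixL_leaf h i) hi_leaf ?_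
  show _ ≤ 1 + del
  cases i with
  | P =>
    have := abs_le.1 (fixL_P_val h x)
    unfold del ee at *
    linarith [this.2]
  | Q =>
    have := abs_le.1 (fixL_Q_val h x)
    unfold del ee at *
    linarith [this.2]

theorem fixP_lt_GPQ (h : S.Good) (x : H) : LtC (S.fixL Sy.P) (S.GG Sy.P (S.fixL Sy.Q)) x := by
  refine LtC.of_gap (fixL_leaf h _) (GG_leaf h _ (fixL_leaf h _)) ?_
  have h1 := abs_le.1 (fixL_P_val h x)
  have h2 := abs_le.1 (GGPQ_val h x)
  have h3 := h.q0 Sy.P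
  unfold ee at *
  linarith [h1.2, h2.1, h3.1]

theorem GPQ_lt_GQP (h : S.Good) (x : H) :
    LtC (S.GG Sy.P (S.fixL Sy.Q)) (S.GG Sy.Q (S.fixL Sy.P)) x := by
  refine LtC.of_gap (GG_leaf h _ (fixL_leaf h _)) (GG_leaf h _ (fixL_leaf h _)) ?_
  have h1 := abs_le.1 (GGQP_val h x)
  have h2 := abs_le.1 (GGPQ_val h x)
  unfold ee gam at *
  linarith [h1.1, h2.2]

theorem GQP_lt_fixQ (h : S.Good) (x : H) : LtC (S.GG Sy.Q (S.fixL Sy.P)) (S.fixL Sy.Q) x := by
  refine LtC.of_gap (GG_leaf h _ (fixL_leaf h _)) (fixL_leaf h _) ?_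
  have h1 := abs_le.1 (GGQP_val h x)
  have h2 := abs_le.1 (fixL_Q_val h x)
  have h3 := (h.q0 Sy.P).2
  unfold ee gam at *
  linarith [h1.2, h2.1]

/-- Proof: `GG_int` (`del / 10 ≥ 6 ee`). -/
theorem lo_lt_GG (h : S.Good) (i : Sy) {f : H → ℝ × V} (hf : S.Leaf f) (x : H) :
    LtC lo (S.GG i f) x := by
  refine LtC.of_gap lo_leaf (GG_leaf h _ hf) ?_
  have h1 := (GG_int h i hf x).1
  show -del + 6 * ee ≤ _
  have h2 : 6 * ee ≤ del / 10 := by norm_num [ee, del]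
  linarith

theorem GG_lt_hi (h : S.Good) (i : Sy) {f : H → ℝ × V} (hf : S.Leaf f) (x : H) :
    LtC (S.GG i f) hi x := by
  refine LtC.of_gap (GG_leaf h _ hf) hi_leaf ?_
  have h1 := (GG_int h i hf x).2
  show _ ≤ 1 + del
  have h2 : 6 * ee ≤ del / 10 := by norm_num [ee, del]
  linarith

/-- Proof: `GG_val` for the two constants. -/
theorem GP_hi_lt_GQ_lo (h : S.Good) (x : H) : LtC (S.GG Sy.P hi) (S.GG Sy.Q lo) x := by
  refine LtC.of_gap (GG_leaf h _ hi_leaf) (GG_leaf h _ lo_leaf) ?_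
  have h1 : (S.GG Sy.P hi x).1 - (0 + S.q Sy.P * (1 + del)) ≤ ee :=
    (abs_le.1 (GG_val h Sy.P hi_leaf x)).2
  have h2 : -ee ≤ (S.GG Sy.Q lo x).1 - ((S.q Sy.P + gam) + S.q Sy.Q * (-del)) :=
    (abs_le.1 (GG_val h Sy.Q lo_leaf x)).1
  have h3 := (h.q0 Sy.P).2
  have h4 := (h.q0 Sy.Q).2
  generalize (S.GG Sy.P hi x).1 = a at *
  generalize (S.GG Sy.Q lo x).1 = b at *
  unfold ee gam del at *
  linarith

/-- Proof: the last letter of `w` (`List.eq_nil_or_concat`, `Gw_append`), `lo_lt_GG`. -/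
theorem lo_lt_Gw (h : S.Good) {w : List Sy} (hw : w ≠ []) {f : H → ℝ × V} (hf : S.Leaf f) (x : H) :
    LtC lo (S.Gw w f) x := by
  rcases List.eq_nil_or_concat w with h1 | ⟨l, a, h1⟩
  · exact absurd h1 hw
  · rw [h1, List.concat_eq_append, Sys.Gw_append]
    exact lo_lt_GG h a (Gw_leaf h l hf) x

theorem Gw_lt_hi (h : S.Good) {w : List Sy} (hw : w ≠ []) {f : H → ℝ × V} (hf : S.Leaf f) (x : H) :
    LtC (S.Gw w f) hi x := by
  rcases List.eq_nil_or_concat w with h1 | ⟨l, a, h1⟩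
  · exact absurd h1 hw
  · rw [h1, List.concat_eq_append, Sys.Gw_append]
    exact GG_lt_hi h a (Gw_leaf h l hf) x

end Pool.Agent.Lib.H37D
end
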