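import Pool.Agent.Lib.H1M.FF.M003
import Pool.Agent.Lib.H1M.FF.M012
import Pool.Agent.Lib.H1M.FF.M015
import Pool.Agent.Lib.H1M.FF.M017

/-! Merged copies (to shorten the build) of Lib.H37N.A03, Lib.H37N.A04, Lib.H37N.A14, Lib.H37N.A15, Lib.H37N.B02, Lib.H37N.B13, Lib.H37N.B14, Lib.H37P.PDefs, Lib.H37N.A34, Lib.H37N.A36. -/

-- from Lib.H37N.A03
section

/-!
# H37N A03 (size M): coefficients of the differences of `g` on `VV i`
-/

open Set Filter Topology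
open scoped ContDiff

namespace Pool.Agent.Lib.H37N

variable {g : Pt → Pt}

/-- the four coefficients of a linear map as linear functionals -/
noncomputable def a03_l (k : Bool) (v : Pt) : (Pt →L[ℝ] Pt) →L[ℝ] ℝ :=
  (if k then ContinuousLinearMap.snd ℝ ℝ ℝ else ContinuousLinearMap.fst ℝ ℝ ℝ).comp
    (ContinuousLinearMap.apply ℝ Pt v)

theorem a03_l_fst (v : Pt) (A : Pt →L[ℝ] Pt) : a03_l false v A = (A v).1 := by
  simp [a03_l]

theorem a03_l_snd (v : Pt) (A : Pt →L[ℝ] Pt) : a03_l true v A = (A v).2 := by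
  simp [a03_l]

theorem a03_convex (l : (Pt →L[ℝ] Pt) →L[ℝ] ℝ) (c e : ℝ) : Convex ℝ {A | |l A - c| ≤ e} := by
  have h : {A | |l A - c| ≤ e} = l ⁻¹' Metric.closedBall c e := by
    ext A
    simp [Real.dist_eq]
  rw [h]
  exact (convex_closedBall c e).linear_preimage l.toLinearMap

theorem a03_closed (l : (Pt →L[ℝ] Pt) →L[ℝ] ℝ) (c e : ℝ) : IsClosed {A | |l A - c| ≤ e} := by
  have h : {A | |l A - c| ≤ e} = l ⁻¹' Metric.closedBall c e := by
    ext A
    simp [Real.dist_eq]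
  rw [h]
  exact Metric.isClosed_closedBall.preimage l.continuous

theorem a03_apply (A : Pt →L[ℝ] Pt) (v : Pt) : A v = v.1 • A (1, 0) + v.2 • A (0, 1) := by
  rw [← map_smul, ← map_smul, ← map_add]
  congr 1
  ext <;> simp

theorem a03_bound (A A' : Pt →L[ℝ] Pt) (v : Pt) (hv : ‖v‖ ≤ 1) :
    |(A v).1 - (A' v).1| ≤ ‖A - A'‖ ∧ |(A v).2 - (A' v).2| ≤ ‖A - A'‖ := by
  have h1 : ‖(A - A') v‖ ≤ ‖A - A'‖ := by
    refine ((A - A').le_opNorm v).trans ?_
    have := mul_le_mul_of_nonneg_left hv (norm_nonneg (A - A'))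
    linarith
  have h2 : (A - A') v = A v - A' v := rfl
  rw [h2] at h1
  exact ⟨(norm_fst_le (A v - A' v)).trans h1, (norm_snd_le (A v - A' v)).trans h1⟩

/-- Proof. `mean_two` with `K = VV i` (convex, a product of intervals), `O` from `h.smooth`, `L = e0` (`h.lip`),
`C = {A | |(A (1,0)).1 - 1/pw i| ≤ e0 ∧ |(A (1,0)).2| ≤ e0 ∧ |(A (0,1)).1| ≤ e0 ∧ |(A (0,1)).2 - qw i| ≤ e0}`, which is
convex (intersection of preimages of intervals under linear maps) and closed; `h.close1`. Then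
`a = (A (1,0)).1`, `c = (A (1,0)).2`, `b = (A (0,1)).1`, `d = (A (0,1)).2`, `A v = v.1 • A (1,0) + v.2 • A (0,1)`, and each
`|a - a'| ≤ ‖(A - A') (1,0)‖ ≤ ‖A - A'‖ * ‖(1,0)‖ = ‖A - A'‖` (sup norm). -/
theorem near_mean (h : Near g) (i : Sy) {z0 z1 z2 z3 : Pt} (h0 : z0 ∈ VV i) (h1 : z1 ∈ VV i)
    (h2 : z2 ∈ VV i) (h3 : z3 ∈ VV i) : ∃ a b c d a' b' c' d' : ℝ,
    (g z1).1 - (g z0).1 = a * (z1.1 - z0.1) + b * (z1.2 - z0.2) ∧
    (g z1).2 - (g z0).2 = c * (z1.1 - z0.1) + d * (z1.2 - z0.2) ∧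
    (g z3).1 - (g z2).1 = a' * (z3.1 - z2.1) + b' * (z3.2 - z2.2) ∧
    (g z3).2 - (g z2).2 = c' * (z3.1 - z2.1) + d' * (z3.2 - z2.2) ∧
    (|a - 1 / pw i| ≤ e0 ∧ |b| ≤ e0 ∧ |c| ≤ e0 ∧ |d - qw i| ≤ e0) ∧
    (|a' - 1 / pw i| ≤ e0 ∧ |b'| ≤ e0 ∧ |c'| ≤ e0 ∧ |d' - qw i| ≤ e0) ∧
    (|a - a'| ≤ e0 * max ‖z2 - z0‖ ‖z3 - z1‖ ∧ |b - b'| ≤ e0 * max ‖z2 - z0‖ ‖z3 - z1‖ ∧
     |c - c'| ≤ e0 * max ‖z2 - z0‖ ‖z3 - z1‖ ∧ |d - d'| ≤ e0 * max ‖z2 - z0‖ ‖z3 - z1‖) := by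
  obtain ⟨O, hO, hsub, hsm, -, -⟩ := h.smooth
  have hKO : VV i ⊆ O := by
    intro z hz
    apply hsub
    cases i
    · exact Or.inl (Or.inl hz)
    · exact Or.inl (Or.inr hz)
  have hK : Convex ℝ (VV i) := (convex_Icc _ _).prod (convex_Icc _ _)
  have he0 : (0 : ℝ) ≤ e0 := by norm_num [e0]
  obtain ⟨A, hA, A', hA', e1, e2, e3⟩ := mean_two hO hK hKO hsm he0 (h.lip i)
    (C := {A | |a03_l false (1, 0) A - 1 / pw i| ≤ e0} ∩ {A | |a03_l true (1, 0) A - 0| ≤ e0} ∩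
      {A | |a03_l false (0, 1) A - 0| ≤ e0} ∩ {A | |a03_l true (0, 1) A - qw i| ≤ e0})
    ((((a03_convex _ _ _).inter (a03_convex _ _ _)).inter (a03_convex _ _ _)).inter
      (a03_convex _ _ _))
    ((((a03_closed _ _ _).inter (a03_closed _ _ _)).inter (a03_closed _ _ _)).inter
      (a03_closed _ _ _))
    (by
      intro z hz
      obtain ⟨c1, c2, c3, c4⟩ := h.close1 i z hz
      refine ⟨⟨⟨?_, ?_⟩, ?_⟩, ?_⟩
      · change |a03_l false (1, 0) (fderiv ℝ g z) - 1 / pw i| ≤ e0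
        rw [a03_l_fst]; exact c1
      · change |a03_l true (1, 0) (fderiv ℝ g z) - 0| ≤ e0
        rw [a03_l_snd, sub_zero]; exact c2
      · change |a03_l false (0, 1) (fderiv ℝ g z) - 0| ≤ e0
        rw [a03_l_fst, sub_zero]; exact c3
      · change |a03_l true (0, 1) (fderiv ℝ g z) - qw i| ≤ e0
        rw [a03_l_snd]; exact c4) h0 h1 h2 h3
  obtain ⟨⟨⟨b1, b2⟩, b3⟩, b4⟩ := hA
  obtain ⟨⟨⟨b1', b2'⟩, b3'⟩, b4'⟩ := hA'
  simp only [mem_setOf_eq, a03_l_fst, a03_l_snd, sub_zero] at b1 b2 b3 b4 b1' b2' b3' b4'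
  have hv1 : ‖((1 : ℝ), (0 : ℝ))‖ ≤ 1 := by simp [Prod.norm_def]
  have hv2 : ‖((0 : ℝ), (1 : ℝ))‖ ≤ 1 := by simp [Prod.norm_def]
  obtain ⟨d1, d2⟩ := a03_bound A A' (1, 0) hv1
  obtain ⟨d3, d4⟩ := a03_bound A A' (0, 1) hv2
  refine ⟨(A (1, 0)).1, (A (0, 1)).1, (A (1, 0)).2, (A (0, 1)).2, (A' (1, 0)).1, (A' (0, 1)).1,
    (A' (1, 0)).2, (A' (0, 1)).2, ?_, ?_, ?_, ?_, ⟨b1, b3, b2, b4⟩, ⟨b1', b3', b2', b4'⟩,
    d1.trans e3, d3.trans e3, d2.trans e3, d4.trans e3⟩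
  · have := congrArg Prod.fst e1
    rw [a03_apply] at this
    simp only [Prod.fst_sub, Prod.fst_add, Prod.smul_fst, smul_eq_mul, Prod.snd_sub] at this
    rw [this]; ring
  · have := congrArg Prod.snd e1
    rw [a03_apply] at this
    simp only [Prod.fst_sub, Prod.snd_add, Prod.smul_snd, smul_eq_mul, Prod.snd_sub] at this
    rw [this]; ring
  · have := congrArg Prod.fst e2
    rw [a03_apply] at this
    simp only [Prod.fst_sub, Prod.fst_add, Prod.smul_fst, smul_eq_mul, Prod.snd_sub] at this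
    rw [this]; ring
  · have := congrArg Prod.snd e2
    rw [a03_apply] at this
    simp only [Prod.fst_sub, Prod.snd_add, Prod.smul_snd, smul_eq_mul, Prod.snd_sub] at this
    rw [this]; ring

end Pool.Agent.Lib.H37N
end

-- from Lib.H37N.A04
section

/-!
# H37N A04 (size M): the cross system of a near map is a `CS`
-/

open Set Filter Topology
open scoped ContDiff

namespace Pool.Agent.Lib.H37N

variable {g : Pt → Pt}

theorem a04_pw (i : Sy) : 0 < pw i ∧ pw i ≤ 4 / 5 ∧ 5 / 4 ≤ 1 / pw i := by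
  cases i <;> norm_num [pw]

theorem a04_a {i : Sy} {a : ℝ} (ha : |a - 1 / pw i| ≤ e0) : 12 / 10 ≤ a := by
  have h1 := (a04_pw i).2.2
  have h2 := (abs_le.1 ha).1
  unfold e0 at h2
  linarith

theorem a04_inv {a : ℝ} (ha : 12 / 10 ≤ a) : 0 < 1 / a ∧ 1 / a ≤ 1 := by
  have h0 : 0 < a := by linarith
  refine ⟨by positivity, ?_⟩
  rw [div_le_one h0]
  linarith

theorem a04_r1 {i : Sy} {a : ℝ} (h : |a - 1 / pw i| ≤ e0) : |1 / a - pw i| ≤ e0 := by
  have ha := a04_a h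
  have h0 : 0 < a := by linarith
  obtain ⟨hp0, hp1, -⟩ := a04_pw i
  obtain ⟨hi0, hi1⟩ := a04_inv ha
  have e : 1 / a - pw i = -((1 / a) * pw i * (a - 1 / pw i)) := by
    field_simp
    ring
  rw [e, abs_neg, abs_mul, abs_of_pos (mul_pos hi0 hp0)]
  have h1 : 1 / a * pw i ≤ 1 * 1 := mul_le_mul hi1 (by linarith) hp0.le (by norm_num)
  have h2 := abs_nonneg (a - 1 / pw i)
  calc 1 / a * pw i * |a - 1 / pw i| ≤ (1 * 1) * |a - 1 / pw i| :=
        mul_le_mul_of_nonneg_right h1 h2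
    _ ≤ e0 := by linarith

theorem a04_r2 {a a' t : ℝ} (ha : 12 / 10 ≤ a) (ha' : 12 / 10 ≤ a') (h : |a - a'| ≤ t) :
    |1 / a - 1 / a'| ≤ t := by
  have h0 : 0 < a := by linarith
  have h0' : 0 < a' := by linarith
  obtain ⟨hi0, hi1⟩ := a04_inv ha
  obtain ⟨hi0', hi1'⟩ := a04_inv ha'
  have e : 1 / a - 1 / a' = -((1 / a) * (1 / a') * (a - a')) := by
    field_simp
    ring
  rw [e, abs_neg, abs_mul, abs_of_pos (mul_pos hi0 hi0')]
  have h1 : 1 / a * (1 / a') ≤ 1 * 1 := mul_le_mul hi1 hi1' hi0'.le (by norm_num)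
  have h2 := abs_nonneg (a - a')
  calc 1 / a * (1 / a') * |a - a'| ≤ (1 * 1) * |a - a'| :=
        mul_le_mul_of_nonneg_right h1 h2
    _ ≤ t := by linarith

theorem a04_r3 {a b t : ℝ} (ha : 12 / 10 ≤ a) (h : |b| ≤ t) : |b * (1 / a)| ≤ t := by
  obtain ⟨hi0, hi1⟩ := a04_inv ha
  rw [abs_mul, abs_of_pos hi0]
  have := mul_le_mul_of_nonneg_left hi1 (abs_nonneg b)
  linarith

theorem a04_r4 {a a' b b' M : ℝ} (hM : 0 ≤ M) (ha : 12 / 10 ≤ a) (ha' : 12 / 10 ≤ a')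
    (h : |a - a'| ≤ e0 * M) (hb' : |b'| ≤ e0) (hb : |b - b'| ≤ e0 * M) :
    |b * (1 / a) - b' * (1 / a')| ≤ 2 * e0 * M := by
  have e : b * (1 / a) - b' * (1 / a') = (b - b') * (1 / a) + b' * (1 / a - 1 / a') := by ring
  have h1 := a04_r3 ha hb
  have h2 := a04_r2 ha ha' h
  have h3 : |b' * (1 / a - 1 / a')| ≤ e0 * (e0 * M) := by
    rw [abs_mul]
    exact mul_le_mul hb' h2 (abs_nonneg _) (by norm_num [e0])
  have h4 := abs_add_le ((b - b') * (1 / a)) (b' * (1 / a - 1 / a'))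
  rw [e]
  have h5 : e0 * (e0 * M) ≤ e0 * M := by
    have : 0 ≤ e0 * M := mul_nonneg (by norm_num [e0]) hM
    have h6 : e0 ≤ 1 := by norm_num [e0]
    nlinarith
  linarith

theorem a04_norm (z w : Pt) : ‖z - w‖ = max |z.1 - w.1| |z.2 - w.2| := by
  rw [Prod.norm_def, Real.norm_eq_abs, Real.norm_eq_abs]
  rfl

theorem a04_M (z0 z1 z2 z3 : Pt) : 0 ≤ max ‖z2 - z0‖ ‖z3 - z1‖ := le_max_of_le_left (norm_nonneg _)

/-- distances do not grow. Proof. `near_mean` for `z0 = (XX g i z, z.2)`, `z1 = (XX g i z', z'.2)` (points of `VV i` by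
`XX_spec`, `g_1` there is `z.1`, `z'.1`): `z'.1 - z.1 = a (XX' - XX) + b (z'.2 - z.2)`, `a ≥ 1.2`, `|b| ≤ e0`:
`|XX' - XX| ≤ (|z'.1 - z.1| + e0 |z'.2 - z.2|) / 1.2 ≤ ‖z' - z‖`; the second component of the difference is
`z'.2 - z.2`. -/
theorem XX_dist (h : Near g) (i : Sy) {z z' : Pt} (hz : z ∈ NN) (hz' : z' ∈ NN) :
    ‖((XX g i z', z'.2) : Pt) - (XX g i z, z.2)‖ ≤ ‖z' - z‖ := by
  obtain ⟨m0, e0'⟩ := XX_spec h i hz
  obtain ⟨m1, e1'⟩ := XX_spec h i hz'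
  obtain ⟨a, b, c, d, -, -, -, -, e, -, -, -, ⟨ha, hb, -, -⟩, -, -⟩ := near_mean h i m0 m1 m0 m1
  rw [e0', e1'] at e
  have ha' := a04_a ha
  rw [a04_norm, a04_norm]
  simp only at e ⊢
  refine max_le ?_ (le_max_right _ _)
  have h1 : |z'.1 - z.1| ≤ max |z'.1 - z.1| |z'.2 - z.2| := le_max_left _ _
  have h2 : |z'.2 - z.2| ≤ max |z'.1 - z.1| |z'.2 - z.2| := le_max_right _ _
  have h3 : 0 ≤ max |z'.1 - z.1| |z'.2 - z.2| := (abs_nonneg _).trans h1
  generalize max |z'.1 - z.1| |z'.2 - z.2| = M at *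
  have h4 : a * |XX g i z' - XX g i z| ≤ |z'.1 - z.1| + |b| * |z'.2 - z.2| := by
    rw [← abs_mul, ← abs_of_nonneg (by linarith : 0 ≤ a), ← abs_mul]
    have e2 : a * (XX g i z' - XX g i z) = (z'.1 - z.1) - b * (z'.2 - z.2) := by
      rw [e]; ring
    rw [e2]
    exact abs_sub _ _
  have h5 : |b| * |z'.2 - z.2| ≤ e0 * M :=
    mul_le_mul hb h2 (abs_nonneg _) (by norm_num [e0])
  have h6 : 12 / 10 * |XX g i z' - XX g i z| ≤ a * |XX g i z' - XX g i z| :=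
    mul_le_mul_of_nonneg_right ha' (abs_nonneg _)
  have h7 : e0 * M ≤ 1 / 10 * M := mul_le_mul_of_nonneg_right (by norm_num [e0]) h3
  linarith

/-- Proof. Given `z0..z3 ∈ NN` put `ζj = (XX g i zj, zj.2) ∈ VV i`, `(g ζj).1 = zj.1`, `(g ζj).2 = YY g i zj`. With the
coefficients of `near_mean` for the `ζj`: `zj`-differences `u = z1.1 - z0.1 = a ξ + b v`, `ξ = ζ1.1 - ζ0.1`,
`v = z1.2 - z0.2`, so `ξ = (1/a) u + (-b/a) v` and `YY z1 - YY z0 = c ξ + d v = (c/a) u + (d - c b / a) v`.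
Bounds (`1.2 ≤ a ≤ 5.1`, `|1/a - pw i| = pw i |1/pw i - a| / a ≤ e0`, `|b/a| ≤ e0`, `|c/a| ≤ e0`,
`|d - c b/a - qw i| ≤ e0 + e0^2`), and the differences of the coefficients for the two pairs: with
`M = max ‖ζ2 - ζ0‖ ‖ζ3 - ζ1‖ ≤ max ‖z2 - z0‖ ‖z3 - z1‖` (`XX_dist`), `|1/a - 1/a'| = |a - a'| / (a a') ≤ e0 M`,
`|b/a - b'/a'| ≤ |b - b'|/a + |b'| |1/a - 1/a'| ≤ 2 e0 M`, `|c b/a - c' b'/a'| ≤ 3 e0 M` and so on: all at most
`5 e0 M ≤ ee M` (`ee = 100 e0`). -/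
theorem near_mvX (h : Near g) (i : Sy) : MV (pw i) 0 (XX g i) := by
  intro z0 h0 z1 h1 z2 h2 z3 h3
  obtain ⟨m0, g0⟩ := XX_spec h i h0
  obtain ⟨m1, g1⟩ := XX_spec h i h1
  obtain ⟨m2, g2⟩ := XX_spec h i h2
  obtain ⟨m3, g3⟩ := XX_spec h i h3
  obtain ⟨a, b, c, d, a', b', c', d', e1, -, e3, -, ⟨ha, hb, -, -⟩, ⟨ha', hb', -, -⟩,
    ⟨haa, hbb, -, -⟩⟩ := near_mean h i m0 m1 m2 m3
  rw [g0, g1] at e1
  rw [g2, g3] at e3
  simp only at e1 e3
  have hM := max_le_max (XX_dist h i h0 h2) (XX_dist h i h1 h3)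
  have hM0 := a04_M z0 z1 z2 z3
  have hee : e0 = ee / 100 := by norm_num [e0, ee]
  have hep : 0 < e0 := by norm_num [e0]
  have b1 := a04_a ha
  have b1' := a04_a ha'
  have p1 : 0 < a := by linarith
  have p1' : 0 < a' := by linarith
  generalize max ‖z2 - z0‖ ‖z3 - z1‖ = M at *
  have haa' := haa.trans (mul_le_mul_of_nonneg_left hM hep.le)
  have hbb' := hbb.trans (mul_le_mul_of_nonneg_left hM hep.le)
  refine ⟨1 / a, -(b * (1 / a)), 1 / a', -(b' * (1 / a')), ?_, ?_, ?_, ?_, ?_, ?_, ?_, ?_⟩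
  · rw [e1]; field_simp; ring
  · rw [e3]; field_simp; ring
  · have := a04_r1 ha; rw [hee] at this; linarith [ee_pos]
  · rw [sub_zero, abs_neg]
    have := a04_r3 b1 hb; rw [hee] at this; linarith [ee_pos]
  · have := a04_r1 ha'; rw [hee] at this; linarith [ee_pos]
  · rw [sub_zero, abs_neg]
    have := a04_r3 b1' hb'; rw [hee] at this; linarith [ee_pos]
  · refine (a04_r2 b1 b1' haa').trans (mul_le_mul_of_nonneg_right ?_ hM0)
    norm_num [e0, ee]
  · have e : -(b * (1 / a)) - -(b' * (1 / a')) = -(b * (1 / a) - b' * (1 / a')) := by ring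
    rw [e, abs_neg]
    refine (a04_r4 hM0 b1 b1' haa' hb' hbb').trans (mul_le_mul_of_nonneg_right ?_ hM0)
    norm_num [e0, ee]

theorem a04_YY {i : Sy} {z : Pt} (hz : z ∈ NN) : YY g i z = (g (XX g i z, z.2)).2 := if_pos hz

/-- Proof: see `near_mvX`. -/
theorem near_mvY (h : Near g) (i : Sy) : MV 0 (qw i) (YY g i) := by
  intro z0 h0 z1 h1 z2 h2 z3 h3
  obtain ⟨m0, g0⟩ := XX_spec h i h0
  obtain ⟨m1, g1⟩ := XX_spec h i h1
  obtain ⟨m2, g2⟩ := XX_spec h i h2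
  obtain ⟨m3, g3⟩ := XX_spec h i h3
  obtain ⟨a, b, c, d, a', b', c', d', e1, f1, e3, f3, ⟨ha, hb, hc, hd⟩, ⟨ha', hb', hc', hd'⟩,
    ⟨haa, hbb, hcc, hdd⟩⟩ := near_mean h i m0 m1 m2 m3
  rw [g0, g1] at e1
  rw [g2, g3] at e3
  rw [← a04_YY h0, ← a04_YY h1] at f1
  rw [← a04_YY h2, ← a04_YY h3] at f3
  simp only at e1 e3 f1 f3
  have hM := max_le_max (XX_dist h i h0 h2) (XX_dist h i h1 h3)
  have hM0 := a04_M z0 z1 z2 z3
  have hep : 0 < e0 := by norm_num [e0]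
  have b1 := a04_a ha
  have b1' := a04_a ha'
  have p1 : 0 < a := by linarith
  have p1' : 0 < a' := by linarith
  generalize max ‖z2 - z0‖ ‖z3 - z1‖ = M at *
  have haa' := haa.trans (mul_le_mul_of_nonneg_left hM hep.le)
  have hbb' := hbb.trans (mul_le_mul_of_nonneg_left hM hep.le)
  have hcc' := hcc.trans (mul_le_mul_of_nonneg_left hM hep.le)
  have hdd' := hdd.trans (mul_le_mul_of_nonneg_left hM hep.le)
  have k1 := a04_r3 b1 hc
  have k1' := a04_r3 b1' hc'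
  have k2 := a04_r4 hM0 b1 b1' haa' hc' hcc'
  have k3 : |c * (1 / a) * b| ≤ e0 * e0 := by
    rw [abs_mul]; exact mul_le_mul k1 hb (abs_nonneg _) hep.le
  have k3' : |c' * (1 / a') * b'| ≤ e0 * e0 := by
    rw [abs_mul]; exact mul_le_mul k1' hb' (abs_nonneg _) hep.le
  have k4 : |c * (1 / a) * b - c' * (1 / a') * b'| ≤ (2 * e0 * M) * e0 + e0 * (e0 * M) := by
    have e : c * (1 / a) * b - c' * (1 / a') * b' =
        (c * (1 / a) - c' * (1 / a')) * b + c' * (1 / a') * (b - b') := by ring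
    rw [e]
    refine (abs_add_le _ _).trans (add_le_add ?_ ?_)
    · rw [abs_mul]
      exact mul_le_mul k2 hb (abs_nonneg _) (by positivity)
    · rw [abs_mul]
      exact mul_le_mul k1' hbb' (abs_nonneg _) hep.le
  have hee : ee = 100 * e0 := by norm_num [e0, ee]
  refine ⟨c * (1 / a), d - c * (1 / a) * b, c' * (1 / a'), d' - c' * (1 / a') * b',
    ?_, ?_, ?_, ?_, ?_, ?_, ?_, ?_⟩
  · rw [f1, e1]; field_simp; ring
  · rw [f3, e3]; field_simp; ring
  · rw [sub_zero]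
    rw [hee]; linarith
  · have e : d - c * (1 / a) * b - qw i = (d - qw i) - c * (1 / a) * b := by ring
    rw [e]
    refine (abs_sub _ _).trans ?_
    have : e0 * e0 ≤ e0 := by norm_num [e0]
    rw [hee]; linarith
  · rw [sub_zero]
    rw [hee]; linarith
  · have e : d' - c' * (1 / a') * b' - qw i = (d' - qw i) - c' * (1 / a') * b' := by ring
    rw [e]
    refine (abs_sub _ _).trans ?_
    have : e0 * e0 ≤ e0 := by norm_num [e0]
    rw [hee]; linarith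
  · refine k2.trans (mul_le_mul_of_nonneg_right ?_ hM0)
    norm_num [e0, ee]
  · have e : d - c * (1 / a) * b - (d' - c' * (1 / a') * b') =
        (d - d') - (c * (1 / a) * b - c' * (1 / a') * b') := by ring
    rw [e]
    refine (abs_sub _ _).trans ((add_le_add hdd' k4).trans ?_)
    have e' : e0 * M + (2 * e0 * M * e0 + e0 * (e0 * M)) = (e0 + 3 * e0 * e0) * M := by ring
    rw [e']
    refine mul_le_mul_of_nonneg_right ?_ hM0
    norm_num [e0, ee]

/-- Proof. `p0`, `q0`, `psum`, `qsum`: numbers. `X0`, `Y0`: `XX_val`, `YY_val`, `off_pw`, `off_qw`, `e0 ≤ ee`. -/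
theorem Near.cs (h : Near g) : CS pw qw (XX g) (YY g) where
  p0 := fun i => by cases i <;> norm_num [pw]
  q0 := fun i => by cases i <;> norm_num [qw]
  psum := by norm_num [pw, gam]
  qsum := by norm_num [qw, gam]
  X0 := fun i z hz => by
    rw [off_pw]
    exact (XX_val h i hz).trans (by norm_num [e0, ee])
  Y0 := fun i z hz => by
    rw [off_qw]
    exact (YY_val h i hz).trans (by norm_num [e0, ee])
  mvX := near_mvX h
  mvY := near_mvY h


end Pool.Agent.Lib.H37N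
end

-- from Lib.H37N.A14
section

/-!
# H37N A14 (size M): the fixed leaves
-/

open Set Filter Topology

namespace Pool.Agent.Lib.H37N

variable {p q : Sy → ℝ} {X Y : Sy → Pt → ℝ}

theorem a14_leaf (h : CS p q X Y) (i : Sy) (n : ℕ) : IsLeaf ((GG X Y i)^[n] (fun _ => 0)) := by
  induction n with
  | zero =>
    have h0 : (0 : ℝ) ∈ II := by rw [II_def]; constructor <;> norm_num [del]
    exact leaf_const h0
  | succ n ih =>
    rw [Function.iterate_succ_apply']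
    exact GG_leaf h i ih

theorem a14_two {a b : ℝ} (ha : a ∈ II) (hb : b ∈ II) : |a - b| ≤ 2 := by
  have h1 := ha.1
  have h2 := ha.2
  have h3 := hb.1
  have h4 := hb.2
  simp only [del] at h1 h2 h3 h4
  rw [abs_le]
  constructor <;> linarith

theorem a14_step (h : CS p q X Y) (i : Sy) (n : ℕ) (x : ℝ) :
    |(GG X Y i)^[n + 1] (fun _ => 0) x - (GG X Y i)^[n] (fun _ => 0) x| ≤ 2 * (82 / 100) ^ n := by
  induction n generalizing x with
  | zero =>
    rw [pow_zero, mul_one]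
    exact a14_two ((a14_leaf h i _).mem x) ((a14_leaf h i _).mem x)
  | succ n ih =>
    rw [Function.iterate_succ_apply' (GG X Y i) (n + 1), Function.iterate_succ_apply' (GG X Y i) n]
    have := GG_contr h i (a14_leaf h i n) (a14_leaf h i (n + 1)) ih x
    rw [Function.iterate_succ_apply' (GG X Y i) n] at this
    refine this.trans (le_of_eq ?_)
    ring

theorem a14_dist (h : CS p q X Y) (i : Sy) (n : ℕ) (x : ℝ) :
    dist ((GG X Y i)^[n] (fun _ => 0) x) ((GG X Y i)^[n + 1] (fun _ => 0) x) ≤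
      2 * (82 / 100) ^ n := by
  rw [Real.dist_eq, abs_sub_comm]
  exact a14_step h i n x

theorem a14_lim {a b c r : ℝ} (hr0 : 0 ≤ r) (hr : r < 1) (h : ∀ n : ℕ, a ≤ b * r ^ n + c) : a ≤ c := by
  have h1 : Tendsto (fun n : ℕ => b * r ^ n + c) atTop (𝓝 (b * 0 + c)) :=
    ((tendsto_pow_atTop_nhds_zero_of_lt_one hr0 hr).const_mul b).add_const c
  rw [mul_zero, zero_add] at h1
  exact ge_of_tendsto' h1 h

/-- Proof. `F n = (GG X Y i)^[n] (fun _ => 0)` are leaves (`leaf_const`, `GG_leaf`); `|F (n+1) x - F n x| ≤ (82/100)^n * 2`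
(induction, `GG_contr`, start: values in `II`), so `F n x` is Cauchy (`cauchySeq_of_le_geometric`) and converges to
`limUnder = fixL X Y i x` (`CauchySeq.tendsto_limUnder` / `tendsto_nhds_limUnder`). -/
theorem fixL_tendsto (h : CS p q X Y) (i : Sy) (x : ℝ) :
    Tendsto (fun n : ℕ => (GG X Y i)^[n] (fun _ => 0) x) atTop (𝓝 (fixL X Y i x)) := by
  exact (cauchySeq_of_le_geometric (82 / 100) 2 (by norm_num) fun n => a14_dist h i n x).tendsto_limUnder

/-- uniform version. Proof: `|F n x - fixL x| ≤ 2 (82/100)^n / (1 - 82/100) ≤ 12 (82/100)^n`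
(`dist_le_of_le_geometric_of_tendsto`). -/
theorem fixL_rate (h : CS p q X Y) (i : Sy) (n : ℕ) (x : ℝ) :
    |(GG X Y i)^[n] (fun _ => 0) x - fixL X Y i x| ≤ 12 * (82 / 100) ^ n := by
  have := dist_le_of_le_geometric_of_tendsto (82 / 100) 2 (by norm_num)
    (fun n => a14_dist h i n x) (fixL_tendsto h i x) n
  rw [Real.dist_eq] at this
  have h2 : (0 : ℝ) ≤ (82 / 100) ^ n := by positivity
  refine this.trans ?_
  rw [div_le_iff₀ (by norm_num)]
  nlinarith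

/-- Proof. Both conditions are closed, pass to the limit (`isClosed_Icc.mem_of_tendsto`, `le_of_tendsto`). -/
theorem fixL_leaf (h : CS p q X Y) (i : Sy) : IsLeaf (fixL X Y i) := by
  refine ⟨fun x => isClosed_Icc.mem_of_tendsto (fixL_tendsto h i x)
    (Eventually.of_forall fun n => (a14_leaf h i n).mem x), fun x y => ?_⟩
  refine le_of_tendsto ((fixL_tendsto h i x).sub (fixL_tendsto h i y)).abs
    (Eventually.of_forall fun n => (a14_leaf h i n).lip x y)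

/-- Proof. `|GG fixL x - fixL x| ≤ |GG fixL x - GG (F n) x| + |F (n+1) x - fixL x| ≤ 24 (82/100)^n → 0`
(`GG_contr`, `fixL_rate`); `Function.iterate_succ_apply'`. -/
theorem fixL_fix (h : CS p q X Y) (i : Sy) : GG X Y i (fixL X Y i) = fixL X Y i := by
  ext x
  have key : ∀ n : ℕ, |GG X Y i (fixL X Y i) x - fixL X Y i x| ≤ 24 * (82 / 100) ^ n + 0 := by
    intro n
    have h1 := GG_contr h i (a14_leaf h i n) (fixL_leaf h i) (C := 12 * (82 / 100) ^ n)
      (fun x => by rw [abs_sub_comm]; exact fixL_rate h i n x) x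
    have h2 := fixL_rate h i (n + 1) x
    rw [Function.iterate_succ_apply'] at h2
    have h3 := abs_sub_le (GG X Y i (fixL X Y i) x)
      (GG X Y i ((GG X Y i)^[n] (fun _ => 0)) x) (fixL X Y i x)
    have h4 : (0 : ℝ) ≤ (82 / 100) ^ n := by positivity
    rw [pow_succ] at h2
    linarith
  have h0 := a14_lim (by norm_num) (by norm_num) key
  have h1 := abs_nonneg (GG X Y i (fixL X Y i) x - fixL X Y i x)
  exact sub_eq_zero.1 (abs_eq_zero.1 (le_antisymm h0 h1))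


/-- Proof. `M = sup |fixL P|`, or directly: if `|f x| ≤ C` for all `x` then `|f x| = |GG f x| ≤ ee + 81/100 C`
(`GG_val`, `off q P = 0`); starting with `C = 2` the bound `2 (81/100)^n + 5.5 ee` holds for all `n`; limit. -/
theorem fixL_P_val (h : CS p q X Y) (x : ℝ) : |fixL X Y Sy.P x| ≤ 6 * ee := by
  have hq := (h.q0 Sy.P)
  have key : ∀ (n : ℕ) (x : ℝ), |fixL X Y Sy.P x| ≤ 2 * (81 / 100) ^ n + 55 / 10 * ee := by
    intro n
    induction n with
    | zero =>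
      intro x
      have h1 := (fixL_leaf h Sy.P).mem x
      have h2 := h1.1
      have h3 := h1.2
      simp only [del] at h2 h3
      rw [pow_zero, mul_one, abs_le]
      have := ee_pos
      constructor <;> linarith
    | succ n ih =>
      intro x
      have h1 := GG_val h Sy.P (fixL_leaf h Sy.P) x
      rw [fixL_fix h] at h1
      have h2 := ih (sol X Sy.P (fixL X Y Sy.P) x)
      simp only [off, zero_add] at h1
      have h3 : |q Sy.P * fixL X Y Sy.P (sol X Sy.P (fixL X Y Sy.P) x)| ≤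
          81 / 100 * (2 * (81 / 100) ^ n + 55 / 10 * ee) := by
        rw [abs_mul, abs_of_nonneg (by linarith : (0 : ℝ) ≤ q Sy.P)]
        exact mul_le_mul hq.2 h2 (abs_nonneg _) (by norm_num)
      have h4 := abs_sub_abs_le_abs_sub (fixL X Y Sy.P x)
        (q Sy.P * fixL X Y Sy.P (sol X Sy.P (fixL X Y Sy.P) x))
      have := ee_pos
      rw [pow_succ]
      linarith
  have h0 := a14_lim (by norm_num) (by norm_num) (fun n => key n x)
  have := ee_pos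
  linarith

/-- Proof. The same for `f - 1`: `off q Q + q Q * y - 1 = q Q * (y - 1)` because `q P + gam + q Q = 1`. -/
theorem fixL_Q_val (h : CS p q X Y) (x : ℝ) : |fixL X Y Sy.Q x - 1| ≤ 6 * ee := by
  have hq := (h.q0 Sy.Q)
  have key : ∀ (n : ℕ) (x : ℝ), |fixL X Y Sy.Q x - 1| ≤ 2 * (81 / 100) ^ n + 55 / 10 * ee := by
    intro n
    induction n with
    | zero =>
      intro x
      have h1 := (fixL_leaf h Sy.Q).mem x
      have h2 := h1.1
      have h3 := h1.2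
      simp only [del] at h2 h3
      rw [pow_zero, mul_one, abs_le]
      have := ee_pos
      constructor <;> linarith
    | succ n ih =>
      intro x
      have h1 := GG_val h Sy.Q (fixL_leaf h Sy.Q) x
      rw [fixL_fix h] at h1
      have h2 := ih (sol X Sy.Q (fixL X Y Sy.Q) x)
      have hsum := h.qsum
      have h3 : |q Sy.Q * (fixL X Y Sy.Q (sol X Sy.Q (fixL X Y Sy.Q) x) - 1)| ≤
          81 / 100 * (2 * (81 / 100) ^ n + 55 / 10 * ee) := by
        rw [abs_mul, abs_of_nonneg (by linarith : (0 : ℝ) ≤ q Sy.Q)]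
        exact mul_le_mul hq.2 h2 (abs_nonneg _) (by norm_num)
      have h5 : fixL X Y Sy.Q x - (off q Sy.Q + q Sy.Q *
          fixL X Y Sy.Q (sol X Sy.Q (fixL X Y Sy.Q) x)) = (fixL X Y Sy.Q x - 1) -
          q Sy.Q * (fixL X Y Sy.Q (sol X Sy.Q (fixL X Y Sy.Q) x) - 1) := by
        simp only [off]
        linear_combination -hsum
      rw [h5] at h1
      have h4 := abs_sub_abs_le_abs_sub (fixL X Y Sy.Q x - 1)
        (q Sy.Q * (fixL X Y Sy.Q (sol X Sy.Q (fixL X Y Sy.Q) x) - 1))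
      have := ee_pos
      rw [pow_succ]
      linarith
  have h0 := a14_lim (by norm_num) (by norm_num) (fun n => key n x)
  have := ee_pos
  linarith

/-- Proof. `GG_val` and the values of the fixed leaves: `off q P = 0`, so the value is `q P * 1` up to
`ee + 81/100 * 6 ee ≤ 6 ee`. -/
theorem GGPQ_val (h : CS p q X Y) (x : ℝ) : |GG X Y Sy.P (fixL X Y Sy.Q) x - q Sy.P| ≤ 6 * ee := by
  have hq := (h.q0 Sy.P)
  have h1 := GG_val h Sy.P (fixL_leaf h Sy.Q) x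
  have h2 := fixL_Q_val h (sol X Sy.P (fixL X Y Sy.Q) x)
  have h3 : |q Sy.P * (fixL X Y Sy.Q (sol X Sy.P (fixL X Y Sy.Q) x) - 1)| ≤
      81 / 100 * (6 * ee) := by
    rw [abs_mul, abs_of_nonneg (by linarith : (0 : ℝ) ≤ q Sy.P)]
    exact mul_le_mul hq.2 h2 (abs_nonneg _) (by norm_num)
  have h4 : GG X Y Sy.P (fixL X Y Sy.Q) x - q Sy.P = (GG X Y Sy.P (fixL X Y Sy.Q) x -
      (off q Sy.P + q Sy.P * fixL X Y Sy.Q (sol X Sy.P (fixL X Y Sy.Q) x))) +
      q Sy.P * (fixL X Y Sy.Q (sol X Sy.P (fixL X Y Sy.Q) x) - 1) := by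
    simp only [off]; ring
  rw [h4]
  refine (abs_add_le _ _).trans ?_
  have := ee_pos
  linarith

theorem GGQP_val (h : CS p q X Y) (x : ℝ) :
    |GG X Y Sy.Q (fixL X Y Sy.P) x - (q Sy.P + gam)| ≤ 6 * ee := by
  have hq := (h.q0 Sy.Q)
  have h1 := GG_val h Sy.Q (fixL_leaf h Sy.P) x
  have h2 := fixL_P_val h (sol X Sy.Q (fixL X Y Sy.P) x)
  have h3 : |q Sy.Q * fixL X Y Sy.P (sol X Sy.Q (fixL X Y Sy.P) x)| ≤
      81 / 100 * (6 * ee) := by
    rw [abs_mul, abs_of_nonneg (by linarith : (0 : ℝ) ≤ q Sy.Q)]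
    exact mul_le_mul hq.2 h2 (abs_nonneg _) (by norm_num)
  have h4 : GG X Y Sy.Q (fixL X Y Sy.P) x - (q Sy.P + gam) = (GG X Y Sy.Q (fixL X Y Sy.P) x -
      (off q Sy.Q + q Sy.Q * fixL X Y Sy.P (sol X Sy.Q (fixL X Y Sy.P) x))) +
      q Sy.Q * fixL X Y Sy.P (sol X Sy.Q (fixL X Y Sy.P) x) := by
    simp only [off]; ring
  rw [h4]
  refine (abs_add_le _ _).trans ?_
  have := ee_pos
  linarith

/-- Proof: `Gw_cons`, `fixL_fix`. -/
theorem Gw_cons_fixL (h : CS p q X Y) (i : Sy) (w : List Sy) :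
    Gw X Y (i :: w) (fixL X Y i) = Gw X Y w (fixL X Y i) := by
  rw [Gw_cons, fixL_fix h]

end Pool.Agent.Lib.H37N
end

-- from Lib.H37N.A15
section

/-!
# H37N A15 (size S): the order of the base leaves
-/

open Set Filter Topology

namespace Pool.Agent.Lib.H37N

variable {p q : Sy → ℝ} {X Y : Sy → Pt → ℝ}

/-! Proofs: the values of `A14` (`fixL P` within `6 ee` of `0`, `fixL Q` within `6 ee` of `1`, `GG P (fixL Q)` within `6 ee` of
`q P`, `GG Q (fixL P)` within `6 ee` of `q P + gam`), `GG_int`, `GG_val`, and `19/100 ≤ q i ≤ 81/100`, `gam = 1/1000`,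
`del = 1/100000`, `ee = 10^-10`. -/

theorem lo_lt_fixL (h : CS p q X Y) (i : Sy) (x : ℝ) : lo x < fixL X Y i x := by
  cases i with
  | P =>
    have := abs_le.1 (fixL_P_val h x)
    unfold lo del ee at *
    linarith [this.1]
  | Q =>
    have := abs_le.1 (fixL_Q_val h x)
    unfold lo del ee at *
    linarith [this.1]

theorem fixL_lt_hi (h : CS p q X Y) (i : Sy) (x : ℝ) : fixL X Y i x < hi x := by
  cases i with
  | P =>
    have := abs_le.1 (fixL_P_val h x)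
    unfold hi del ee at *
    linarith [this.2]
  | Q =>
    have := abs_le.1 (fixL_Q_val h x)
    unfold hi del ee at *
    linarith [this.2]

theorem fixP_lt_GPQ (h : CS p q X Y) (x : ℝ) : fixL X Y Sy.P x < GG X Y Sy.P (fixL X Y Sy.Q) x := by
  have h1 := abs_le.1 (fixL_P_val h x)
  have h2 := abs_le.1 (GGPQ_val h x)
  have h3 := h.q0 Sy.P
  unfold ee at *
  linarith [h1.2, h2.1, h3.1]

theorem GPQ_lt_GQP (h : CS p q X Y) (x : ℝ) :
    GG X Y Sy.P (fixL X Y Sy.Q) x < GG X Y Sy.Q (fixL X Y Sy.P) x := by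
  have h1 := abs_le.1 (GGQP_val h x)
  have h2 := abs_le.1 (GGPQ_val h x)
  unfold ee gam at *
  linarith [h1.1, h2.2]

theorem GQP_lt_fixQ (h : CS p q X Y) (x : ℝ) : GG X Y Sy.Q (fixL X Y Sy.P) x < fixL X Y Sy.Q x := by
  have h1 := abs_le.1 (GGQP_val h x)
  have h2 := abs_le.1 (fixL_Q_val h x)
  have h3 := (h.q0 Sy.P).2
  unfold ee gam at *
  linarith [h1.2, h2.1]



/-- Proof. `GG_val` for the two constants: `off q P + q P (1 + del) + ee < off q Q - q Q del - ee`, i.e.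
`q P del + q Q del + 2 ee < gam`. -/
theorem GP_hi_lt_GQ_lo (h : CS p q X Y) (x : ℝ) : GG X Y Sy.P hi x < GG X Y Sy.Q lo x := by
  have h1 : GG X Y Sy.P hi x - (0 + q Sy.P * (1 + del)) ≤ ee :=
    (abs_le.1 (GG_val h Sy.P hi_leaf x)).2
  have h2 : -ee ≤ GG X Y Sy.Q lo x - ((q Sy.P + gam) + q Sy.Q * (-del)) :=
    (abs_le.1 (GG_val h Sy.Q lo_leaf x)).1
  have h3 := (h.q0 Sy.P).2
  have h4 := (h.q0 Sy.Q).2
  generalize GG X Y Sy.P hi x = a at *
  generalize GG X Y Sy.Q lo x = b at *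
  unfold ee gam del at *
  linarith



end Pool.Agent.Lib.H37N
end

-- from Lib.H37N.B02
section

/-! # H37N, chunk B02 (M): fixed points -/

open Set Filter Topology
open scoped ContDiff

namespace Pool.Agent.Lib.H37N


theorem b02_pw (i : Sy) : 0 < pw i ∧ pw i < 1 ∧ pw i / (1 - pw i) ≤ 4 ∧ 0 < pw i / (1 - pw i) := by
  cases i <;> simp only [pw] <;> norm_num







end Pool.Agent.Lib.H37N
end

-- from Lib.H37N.B13
section

/-! # H37N, chunk B13 (M): orbits with a given bi-infinite itinerary -/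

open Set Filter Topology
open scoped ContDiff

namespace Pool.Agent.Lib.H37N


theorem b13_pw (i : Sy) : 0 < pw i ∧ pw i ≤ 4 / 5 := by
  cases i <;> norm_num [pw]

theorem b13_al (i : Sy) : 0 ≤ al i ∧ al i + pw i ≤ 1 := by
  cases i <;> norm_num [pw, al]

theorem b13_be (i : Sy) : 0 ≤ be i ∧ be i + qw i ≤ 1 := by
  cases i <;> norm_num [qw, be]

theorem b13_qw (i : Sy) : 0 < qw i ∧ qw i ≤ 1 / 2 := by
  cases i <;> norm_num [qw]




end Pool.Agent.Lib.H37N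
end

-- from Lib.H37N.B14
section

/-! # H37N, chunk B14 (M): convergence of orbits with the same itinerary; the connecting orbit -/

open Set Filter Topology
open scoped ContDiff

namespace Pool.Agent.Lib.H37N

theorem b14_pw (i : Sy) : 0 < pw i ∧ pw i ≤ 4 / 5 := by
  cases i <;> norm_num [pw]

theorem b14_qw (i : Sy) : 0 < qw i ∧ qw i ≤ 1 / 2 := by
  cases i <;> norm_num [qw]

theorem b14_x {i : Sy} {z : Pt} (h : z ∈ VV i) : -del ≤ z.1 ∧ z.1 ≤ 1 + del := by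
  obtain ⟨⟨h1, h2⟩, -⟩ := mem_VV.1 h
  cases i
  · simp only [al, pw] at h1 h2
    constructor <;> linarith
  · simp only [al, pw] at h1 h2
    constructor <;> linarith

theorem b14_y {i : Sy} {z : Pt} (h : z ∈ VV i) : -del ≤ z.2 ∧ z.2 ≤ 1 + del :=
  (mem_VV.1 h).2


theorem b14_two {a b : ℝ} (ha : -del ≤ a ∧ a ≤ 1 + del) (hb : -del ≤ b ∧ b ≤ 1 + del) :
    |a - b| ≤ 2 := by
  have hd : del ≤ 1 / 2 := by norm_num [del]
  rw [abs_le]
  constructor <;> linarith [ha.1, ha.2, hb.1, hb.2]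







end Pool.Agent.Lib.H37N
end

-- from Lib.H37P.PDefs
section

/-!
# H37N: the pass from the chart at `P` to the chart at `Q` (definitions)
-/

open Set Filter Topology Asymptotics
open scoped ContDiff

namespace Pool.Agent.Lib.H37N

noncomputable section

/-- `d_S`, the derivative of the second coordinate of the connection along the unstable axis -/
def dS (g : Pt → Pt) (s : Fr) : ℝ := (fderiv ℝ (SS g s) 0 (0, 1)).2

/-- the functions `Θ, W, Y¹, Y²` of the pass -/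
structure PF where
  Th : ℝ → ℝ
  Y1 : ℝ → ℝ
  W : Pt → ℝ
  Y2 : Pt → ℝ


/-- `ε1 = λ_P^n` -/
def e1 (s : Fr) (n : ℕ) : ℝ := s.lam Sy.P ^ n
/-- `ε2 = μ_Q^(-m) / d_S` -/
def e2 (g : Pt → Pt) (s : Fr) (m : ℕ) : ℝ := 1 / (dS g s * s.mu Sy.Q ^ m)
/-- `ε4 = μ_P^n λ_Q^m` -/
def e4 (s : Fr) (n m : ℕ) : ℝ := s.mu Sy.P ^ n * s.lam Sy.Q ^ m




/-- the unstable coordinate at the exit of `Q`, minus `b` -/
def etaF (f : PF) (b ε1 ε2 X U : ℝ) : ℝ := (U + b) * f.W (ε1 * X, ε2 * (U + b)) - b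

/-- the rescaled stable coordinate at the exit of `Q` -/
def XiF (f : PF) (b ε1 ε2 ε4 Bv X U : ℝ) : ℝ :=
  Bv * X * f.Y1 (ε1 * X) + ε4 * (U + b) * f.Y2 (ε1 * X, ε2 * (U + b))

end

end Pool.Agent.Lib.H37N
end

-- from Lib.H37N.A34
section

/-!
# H37N A34 (size M): distortion of four cross orbits
-/

open Set Filter Topology

namespace Pool.Agent.Lib.H37N

variable {p q : Sy → ℝ} {X Y : Sy → Pt → ℝ}

theorem a34_alg {D0 D1 E0 E1 a b c d : ℝ} (h0 : 0 < D0) (h1 : 0 < D1) (ha : |a| ≤ ee)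
    (hr : |E1 / D1| ≤ 3 * ee) (hD : D1 = a * E1 + b * D0) (hE : E0 = c * E1 + d * D0) :
    D1 / D0 = b / (1 - a * (E1 / D1)) ∧
      E0 / D0 = c * (E1 / D1) * (b / (1 - a * (E1 / D1))) + d := by
  have he : (0 : ℝ) < ee := ee_pos
  have hE1 : E1 = E1 / D1 * D1 := by field_simp
  generalize E1 / D1 = r at *
  have hab : |a * r| ≤ ee * (3 * ee) := by
    rw [abs_mul]
    exact mul_le_mul ha hr (abs_nonneg _) he.le
  have hee : ee * (3 * ee) < 1 := by norm_num [ee]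
  have hpos : 0 < 1 - a * r := by
    have := (abs_le.1 hab).2
    linarith
  have h2 : D1 / D0 = b / (1 - a * r) := by
    rw [div_eq_div_iff h0.ne' hpos.ne']
    rw [hE1] at hD
    linear_combination hD
  refine ⟨h2, ?_⟩
  rw [← h2, hE, hE1]
  field_simp

theorem a34_pt {o : ℕ → Sy} {k n : ℕ} {x y : ℕ → ℝ} (h : COrb X Y o k x y) (hn : n < k) :
    ((x (n + 1), y n) : Pt) ∈ NN :=
  mem_NN.2 ⟨h.mx (n + 1) hn, h.my n hn.le⟩

/-- Notation `D n = y1 n - y0 n`, `E n = x1 n - x0 n`, `r n = E n / D n`, `D' n = y3 n - y2 n`, ... ; `|r n| ≤ 3 ee` (`pair_E`), all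
`D n, D' n > 0` (`pair_D`). For `n < k`, `h.mvX (i n)`, `h.mvY (i n)` for the four points
`z_j = (x_j (n+1), y_j n)` (`j = 0,1,2,3`) give `a, b, a', b'` with `D (n+1) = a E (n+1) + b D n`, ... and
`c, d, c', d'` with `E n = c E (n+1) + d D n`, ...; dividing by `D n` resp. `D' n`: `D (n+1) / D n = b / (1 - a r (n+1))`,
`r n = c r (n+1) * (D (n+1) / D n) + d`. With `δ n = max ‖z_2 - z_0‖ ‖z_3 - z_1‖` the hypotheses of `step_log`, `step_r` hold.
Conclusion for one step: exists `δ n ≥ 0`, `δ n ≤ (|x2 (n+1) - x0 (n+1)| + |y2 n - y0 n|) + (|x3 (n+1) - x1 (n+1)| + |y3 n - y1 n|)` with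
`|log (D (n+1)/D n) - log (D' (n+1)/D' n)| ≤ 10 (ee δ n + ee |r (n+1) - r' (n+1)|)`,
`|r n - r' n| ≤ .7 |r (n+1) - r' (n+1)| + 10 ee δ n`. -/
theorem dist_step (h : CS p q X Y) {i : ℕ → Sy} {k : ℕ} {x0 y0 x1 y1 x2 y2 x3 y3 : ℕ → ℝ}
    (o0 : COrb X Y i k x0 y0) (o1 : COrb X Y i k x1 y1) (o2 : COrb X Y i k x2 y2)
    (o3 : COrb X Y i k x3 y3) (hk : x0 k = x1 k) (hk' : x2 k = x3 k) (h0 : y0 0 < y1 0)
    (h0' : y2 0 < y3 0) {n : ℕ} (hn : n < k) : ∃ δ : ℝ, 0 ≤ δ ∧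
      δ ≤ (|x2 (n + 1) - x0 (n + 1)| + |y2 n - y0 n|) + (|x3 (n + 1) - x1 (n + 1)| + |y3 n - y1 n|) ∧
      |Real.log ((y1 (n + 1) - y0 (n + 1)) / (y1 n - y0 n)) -
        Real.log ((y3 (n + 1) - y2 (n + 1)) / (y3 n - y2 n))| ≤
        10 * (ee * δ + ee * |(x1 (n + 1) - x0 (n + 1)) / (y1 (n + 1) - y0 (n + 1)) -
          (x3 (n + 1) - x2 (n + 1)) / (y3 (n + 1) - y2 (n + 1))|) ∧
      |(x1 n - x0 n) / (y1 n - y0 n) - (x3 n - x2 n) / (y3 n - y2 n)| ≤
        7 / 10 * |(x1 (n + 1) - x0 (n + 1)) / (y1 (n + 1) - y0 (n + 1)) -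
          (x3 (n + 1) - x2 (n + 1)) / (y3 (n + 1) - y2 (n + 1))| + 10 * ee * δ := by
  have z0 := a34_pt o0 hn
  have z1 := a34_pt o1 hn
  have z2 := a34_pt o2 hn
  have z3 := a34_pt o3 hn
  obtain ⟨c, d, c', d', e1, e2, hc, hd, hc', hd', hcc, hdd⟩ := h.mvX (i n) _ z0 _ z1 _ z2 _ z3
  obtain ⟨a, b, a', b', e3, e4, ha, hb, ha', hb', haa, hbb⟩ := h.mvY (i n) _ z0 _ z1 _ z2 _ z3
  simp only [← o0.ex n hn, ← o1.ex n hn, ← o2.ex n hn, ← o3.ex n hn, sub_zero] at e1 e2 hd hd'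
  simp only [← o0.ey n hn, ← o1.ey n hn, ← o2.ey n hn, ← o3.ey n hn, sub_zero] at e3 e4 ha ha'
  obtain ⟨hD, -⟩ := pair_D h o0 o1 hk h0
  obtain ⟨hD', -⟩ := pair_D h o2 o3 hk' h0'
  have hr1 : |(x1 (n + 1) - x0 (n + 1)) / (y1 (n + 1) - y0 (n + 1))| ≤ 3 * ee := by
    have hp := hD (n + 1) hn
    have := pair_E h o0 o1 hk (n := n + 1) hn
    rw [abs_div, div_le_iff₀ (abs_pos.2 hp.ne')]
    exact this
  have hr1' : |(x3 (n + 1) - x2 (n + 1)) / (y3 (n + 1) - y2 (n + 1))| ≤ 3 * ee := by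
    have hp := hD' (n + 1) hn
    have := pair_E h o2 o3 hk' (n := n + 1) hn
    rw [abs_div, div_le_iff₀ (abs_pos.2 hp.ne')]
    exact this
  obtain ⟨q1, q2⟩ := a34_alg (hD n hn.le) (hD (n + 1) hn) ha hr1 e3 e1
  obtain ⟨q1', q2'⟩ := a34_alg (hD' n hn.le) (hD' (n + 1) hn) ha' hr1' e4 e2
  have hn1 : ∀ z w : Pt, ‖w - z‖ ≤ |w.1 - z.1| + |w.2 - z.2| := by
    intro z w
    rw [Prod.norm_def]
    exact max_le (by simp [Real.norm_eq_abs]) (by simp [Real.norm_eq_abs])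
  have hδ0 : 0 ≤ max ‖((x2 (n + 1), y2 n) : Pt) - (x0 (n + 1), y0 n)‖
      ‖((x3 (n + 1), y3 n) : Pt) - (x1 (n + 1), y1 n)‖ := (norm_nonneg _).trans (le_max_left _ _)
  refine ⟨max ‖((x2 (n + 1), y2 n) : Pt) - (x0 (n + 1), y0 n)‖
      ‖((x3 (n + 1), y3 n) : Pt) - (x1 (n + 1), y1 n)‖, hδ0, ?_, ?_, ?_⟩
  · have h1 := hn1 (x0 (n + 1), y0 n) (x2 (n + 1), y2 n)
    have h2 := hn1 (x1 (n + 1), y1 n) (x3 (n + 1), y3 n)
    simp only at h1 h2
    refine max_le ?_ ?_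
    · have h3 := abs_nonneg (x3 (n + 1) - x1 (n + 1))
      have h4 := abs_nonneg (y3 n - y1 n)
      linarith
    · have h3 := abs_nonneg (x2 (n + 1) - x0 (n + 1))
      have h4 := abs_nonneg (y2 n - y0 n)
      linarith
  · rw [q1, q1']
    exact step_log hδ0 (h.q0 (i n)).1 (h.q0 (i n)).2 hb hb' ha ha' hr1 hr1' haa hbb
  · rw [q2, q2']
    exact step_r hδ0 (h.q0 (i n)).1 (h.q0 (i n)).2 (h.p0 (i n)).1 (h.p0 (i n)).2 hb hb' ha ha'
      hc hc' hd hd' hr1 hr1' haa hbb hcc hdd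

/-- Proof. Choose `δ n` from `dist_step`; `∑_{n<k} δ n ≤ 24` (`sum_dist` for the pairs (0,2), (1,3)). `s n = |r n - r' n|`, `s k = 0`,
`s n ≤ .7 s (n+1) + 10 ee δ n`: with `Σ = ∑_{n<k} s (n+1)`, `Σ ≤ ∑_{n<k} s n + s k ≤ .7 Σ + 240 ee`, so `Σ ≤ 800 ee`. Telescoping
(`log (D k / D 0) = ∑ log (D (n+1)/D n)`, all positive; induction): the difference is
`≤ 10 (24 ee + ee * 800 ee) ≤ 1000 ee`. -/
theorem distortion (h : CS p q X Y) {i : ℕ → Sy} {k : ℕ} {x0 y0 x1 y1 x2 y2 x3 y3 : ℕ → ℝ}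
    (o0 : COrb X Y i k x0 y0) (o1 : COrb X Y i k x1 y1) (o2 : COrb X Y i k x2 y2)
    (o3 : COrb X Y i k x3 y3) (hk : x0 k = x1 k) (hk' : x2 k = x3 k) (h0 : y0 0 < y1 0)
    (h0' : y2 0 < y3 0) :
    |Real.log ((y1 k - y0 k) / (y1 0 - y0 0)) - Real.log ((y3 k - y2 k) / (y3 0 - y2 0))| ≤
      1000 * ee := by
  have he : (0 : ℝ) < ee := ee_pos
  have hst := fun n (hn : n < k) => dist_step h o0 o1 o2 o3 hk hk' h0 h0' hn
  choose! δ hδ0 hδ1 hδ2 hδ3 using hst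
  obtain ⟨hD, -⟩ := pair_D h o0 o1 hk h0
  obtain ⟨hD', -⟩ := pair_D h o2 o3 hk' h0'
  -- the sum of the distances
  have hsum : ∑ n ∈ Finset.range k, δ n ≤ 24 := by
    have h1 : ∑ n ∈ Finset.range k, δ n ≤ ∑ n ∈ Finset.range k,
        ((|x2 (n + 1) - x0 (n + 1)| + |y2 n - y0 n|) +
          (|x3 (n + 1) - x1 (n + 1)| + |y3 n - y1 n|)) :=
      Finset.sum_le_sum fun n hn => hδ1 n (Finset.mem_range.1 hn)
    rw [Finset.sum_add_distrib] at h1
    have h2 := sum_dist h o0 o2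
    have h3 := sum_dist h o1 o3
    linarith
  set s : ℕ → ℝ := fun n => |(x1 n - x0 n) / (y1 n - y0 n) - (x3 n - x2 n) / (y3 n - y2 n)| with hs
  have hs0 : ∀ n, 0 ≤ s n := fun n => abs_nonneg _
  have hsk : s k = 0 := by
    simp [hs, hk, hk']
  have hS : ∑ n ∈ Finset.range k, s (n + 1) ≤ 800 * ee := by
    have h1 : ∑ n ∈ Finset.range k, s n ≤ ∑ n ∈ Finset.range k,
        (7 / 10 * s (n + 1) + 10 * ee * δ n) :=
      Finset.sum_le_sum fun n hn => hδ3 n (Finset.mem_range.1 hn)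
    rw [Finset.sum_add_distrib, ← Finset.mul_sum, ← Finset.mul_sum] at h1
    have h2 : ∑ n ∈ Finset.range k, s (n + 1) + s 0 = ∑ n ∈ Finset.range k, s n + s k := by
      rw [← Finset.sum_range_succ', ← Finset.sum_range_succ]
    have h3 : 10 * ee * ∑ n ∈ Finset.range k, δ n ≤ 10 * ee * 24 :=
      mul_le_mul_of_nonneg_left hsum (by positivity)
    have h4 := hs0 0
    rw [hsk] at h2
    linarith
  -- telescoping
  have hlog : ∀ y y' : ℕ → ℝ, (∀ n ≤ k, 0 < y' n - y n) →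
      Real.log ((y' k - y k) / (y' 0 - y 0)) =
        ∑ n ∈ Finset.range k, Real.log ((y' (n + 1) - y (n + 1)) / (y' n - y n)) := by
    intro y y' hp
    rw [Real.log_div (hp k le_rfl).ne' (hp 0 (Nat.zero_le _)).ne',
      ← Finset.sum_range_sub (fun n => Real.log (y' n - y n)) k]
    refine Finset.sum_congr rfl fun n hn => ?_
    have hn' := Finset.mem_range.1 hn
    rw [Real.log_div (hp (n + 1) hn').ne' (hp n hn'.le).ne']
  rw [hlog y0 y1 hD, hlog y2 y3 hD', ← Finset.sum_sub_distrib]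
  refine (Finset.abs_sum_le_sum_abs _ _).trans ?_
  have h5 : ∑ n ∈ Finset.range k, |Real.log ((y1 (n + 1) - y0 (n + 1)) / (y1 n - y0 n)) -
      Real.log ((y3 (n + 1) - y2 (n + 1)) / (y3 n - y2 n))| ≤
      ∑ n ∈ Finset.range k, 10 * (ee * δ n + ee * s (n + 1)) :=
    Finset.sum_le_sum fun n hn => hδ2 n (Finset.mem_range.1 hn)
  refine h5.trans ?_
  rw [← Finset.mul_sum, Finset.sum_add_distrib, ← Finset.mul_sum, ← Finset.mul_sum]
  have h6 : ee * ∑ n ∈ Finset.range k, δ n ≤ ee * 24 := mul_le_mul_of_nonneg_left hsum he.le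
  have h7 : ee * ∑ n ∈ Finset.range k, s (n + 1) ≤ ee * (800 * ee) :=
    mul_le_mul_of_nonneg_left hS he.le
  have h8 : ee * (800 * ee) ≤ ee * 1 := mul_le_mul_of_nonneg_left (by norm_num [ee]) he.le
  linarith

end Pool.Agent.Lib.H37N
end

-- from Lib.H37N.A36
section

/-!
# H37N A36 (size M): distortion for leaves
-/

open Set Filter Topology

namespace Pool.Agent.Lib.H37N

variable {p q : Sy → ℝ} {X Y : Sy → Pt → ℝ}

theorem a36_cl (X Y : Sy → Pt → ℝ) (w : List Sy) (hw : w ≠ []) (f : ℝ → ℝ) (x : ℝ) :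
    Gw X Y w f (cl x) = Gw X Y w f x := by
  induction w generalizing f with
  | nil => exact absurd rfl hw
  | cons i w ih =>
    rw [Gw_cons]
    by_cases h : w = []
    · subst h
      rw [Gw_nil]
      exact GG_cl X Y i f x
    · exact ih h _

theorem a36_real {a b a' b' m m' : ℝ} (ha : 0 < a) (hb : 0 < b) (ha' : 0 < a') (hb' : 0 < b')
    (hm0 : gam / 2 ≤ m) (hm0' : gam / 2 ≤ m') (hbm : |b - m| ≤ 100 * ee)
    (hbm' : |b' - m'| ≤ 100 * ee)
    (h : |Real.log (a / b) - Real.log (a' / b')| ≤ 1000 * ee) :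
    a / m ≤ (1 + 1 / 20000) * (a' / m') := by
  have hm : 0 < m := lt_of_lt_of_le (by norm_num [gam]) hm0
  have hm' : 0 < m' := lt_of_lt_of_le (by norm_num [gam]) hm0'
  have hexp : Real.exp (1000 * ee) ≤ 1 + 2 / 10 ^ 7 := by
    refine (Real.exp_bound_div_one_sub_of_interval (by norm_num [ee]) (by norm_num [ee])).trans ?_
    norm_num [ee]
  have h1 : a / b ≤ (1 + 2 / 10 ^ 7) * (a' / b') := by
    have e1 : Real.log (a / b) ≤ 1000 * ee + Real.log (a' / b') := by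
      have := (abs_le.1 h).2
      linarith
    calc a / b = Real.exp (Real.log (a / b)) := (Real.exp_log (div_pos ha hb)).symm
      _ ≤ Real.exp (1000 * ee + Real.log (a' / b')) := Real.exp_le_exp.2 e1
      _ = Real.exp (1000 * ee) * (a' / b') := by rw [Real.exp_add, Real.exp_log (div_pos ha' hb')]
      _ ≤ (1 + 2 / 10 ^ 7) * (a' / b') :=
        mul_le_mul_of_nonneg_right hexp (div_pos ha' hb').le
  have h2 : b / m ≤ 1 + 2 / 10 ^ 5 := by
    rw [div_le_iff₀ hm]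
    have := (abs_le.1 hbm).2
    have e : 100 * ee ≤ 2 / 10 ^ 5 * m := by
      have : 100 * ee ≤ 2 / 10 ^ 5 * (gam / 2) := by norm_num [ee, gam]
      nlinarith
    linarith
  have h3 : (1 - 2 / 10 ^ 5) * m' ≤ b' := by
    have := (abs_le.1 hbm').1
    have e : 100 * ee ≤ 2 / 10 ^ 5 * m' := by
      have : 100 * ee ≤ 2 / 10 ^ 5 * (gam / 2) := by norm_num [ee, gam]
      nlinarith
    linarith
  have h4 : a' / b' ≤ (a' / m') / (1 - 2 / 10 ^ 5) := by
    rw [div_div, mul_comm m']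
    exact div_le_div_of_nonneg_left ha'.le (by positivity) h3
  have hr : 0 < a' / m' := div_pos ha' hm'
  generalize a' / m' = r at *
  have h5 : a / m = a / b * (b / m) := by field_simp
  have h6 : 0 < a / b := div_pos ha hb
  have h7 : a / b ≤ (1 + 2 / 10 ^ 7) * (r / (1 - 2 / 10 ^ 5)) :=
    h1.trans (mul_le_mul_of_nonneg_left h4 (by norm_num))
  calc a / m = a / b * (b / m) := h5
    _ ≤ (1 + 2 / 10 ^ 7) * (r / (1 - 2 / 10 ^ 5)) * (1 + 2 / 10 ^ 5) :=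
      mul_le_mul h7 h2 (div_pos hb hm).le (h6.le.trans h7)
    _ = (1 + 2 / 10 ^ 7) * (1 + 2 / 10 ^ 5) / (1 - 2 / 10 ^ 5) * r := by ring
    _ ≤ (1 + 1 / 20000) * r := mul_le_mul_of_nonneg_right (by norm_num) hr.le

/-- `f0, f1, f2, f3` almost constant leaves with gaps `m` (between `f0`, `f1`) and `m'` (between `f2`, `f3`). The relative gaps
after the transformation by the word `w` agree up to the factor `1 + 1/20000`.
Proof. Replace `x`, `x'` by `cl x`, `cl x'` (if `w ≠ []` the values `Gw w f` depend on `cl x` only, `GG_cl`; if `w = []` the claim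
is immediate from `hm`, `hm'`: `(m + 100 ee)/m ≤ 1 + 2*10^-5`, `(m' - 100 ee)/m' ≥ 1 - 2*10^-5`). `leaf_orbit` for
`f0, f1` at `x` and `f2, f3` at `x'` gives four cross orbits with itinerary `w` and `y_j 0 = f_j (x_j 0)`. By `hm`:
`|D 0 - m| ≤ 100 ee` (for all arguments), `m ≥ gam / 2 = 5*10^-4`, so `D 0 / m ∈ [1 - 2*10^-5, 1 + 2*10^-5]`, positive; the same for
`D' 0 / m'`. `distortion`: `D k / D 0 ≤ exp (1000 ee) * D' k / D' 0`, `exp (10^-7) ≤ 1 + 2*10^-7`. Product of the factors: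
`(1 + 2*10^-5) / (1 - 2*10^-5) * (1 + 2*10^-7) ≤ 1 + 1/20000` (it is `1 + 4.03*10^-5`). -/
theorem leaf_dist (h : CS p q X Y) (w : List Sy) {f0 f1 f2 f3 : ℝ → ℝ} (l0 : IsLeaf f0)
    (l1 : IsLeaf f1) (l2 : IsLeaf f2) (l3 : IsLeaf f3) {m m' : ℝ} (hm0 : gam / 2 ≤ m)
    (hm0' : gam / 2 ≤ m') (hm : ∀ x y, |f1 x - f0 y - m| ≤ 100 * ee)
    (hm' : ∀ x y, |f3 x - f2 y - m'| ≤ 100 * ee) (x x' : ℝ) :
    (Gw X Y w f1 x - Gw X Y w f0 x) / m ≤
      (1 + 1 / 20000) * ((Gw X Y w f3 x' - Gw X Y w f2 x') / m') := by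
  by_cases hw : w = []
  · subst hw
    simp only [Gw_nil]
    have hmp : 0 < m := lt_of_lt_of_le (by norm_num [gam]) hm0
    have hmp' : 0 < m' := lt_of_lt_of_le (by norm_num [gam]) hm0'
    have h1 : (f1 x - f0 x) / m ≤ 1 + 2 / 10 ^ 5 := by
      rw [div_le_iff₀ hmp]
      have := (abs_le.1 (hm x x)).2
      have e : 100 * ee ≤ 2 / 10 ^ 5 * (gam / 2) := by norm_num [ee, gam]
      nlinarith
    have h2 : 1 - 2 / 10 ^ 5 ≤ (f3 x' - f2 x') / m' := by
      rw [le_div_iff₀ hmp']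
      have := (abs_le.1 (hm' x' x')).1
      have e : 100 * ee ≤ 2 / 10 ^ 5 * (gam / 2) := by norm_num [ee, gam]
      nlinarith
    calc (f1 x - f0 x) / m ≤ 1 + 2 / 10 ^ 5 := h1
      _ ≤ (1 + 1 / 20000) * (1 - 2 / 10 ^ 5) := by norm_num
      _ ≤ _ := mul_le_mul_of_nonneg_left h2 (by norm_num)
  · rw [← a36_cl X Y w hw f1 x, ← a36_cl X Y w hw f0 x, ← a36_cl X Y w hw f3 x',
      ← a36_cl X Y w hw f2 x']
    obtain ⟨x0, y0, o0, p0, q0, r0⟩ := leaf_orbit h w l0 (cl_mem x)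
    obtain ⟨x1, y1, o1, p1, q1, r1⟩ := leaf_orbit h w l1 (cl_mem x)
    obtain ⟨x2, y2, o2, p2, q2, r2⟩ := leaf_orbit h w l2 (cl_mem x')
    obtain ⟨x3, y3, o3, p3, q3, r3⟩ := leaf_orbit h w l3 (cl_mem x')
    have hk : x0 w.length = x1 w.length := by rw [p0, p1]
    have hk' : x2 w.length = x3 w.length := by rw [p2, p3]
    have hee : 100 * ee < gam / 2 := by norm_num [ee, gam]
    have hb : |y1 0 - y0 0 - m| ≤ 100 * ee := by
      rw [r1, r0]
      exact hm _ _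
    have hb' : |y3 0 - y2 0 - m'| ≤ 100 * ee := by
      rw [r3, r2]
      exact hm' _ _
    have h0 : y0 0 < y1 0 := by
      have := (abs_le.1 hb).1
      linarith
    have h0' : y2 0 < y3 0 := by
      have := (abs_le.1 hb').1
      linarith
    have hd := distortion h o0 o1 o2 o3 hk hk' h0 h0'
    have hD := (pair_D h o0 o1 hk h0).1
    have hD' := (pair_D h o2 o3 hk' h0').1
    rw [← q0, ← q1, ← q2, ← q3]
    exact a36_real (hD _ le_rfl) (hD 0 (Nat.zero_le _)) (hD' _ le_rfl) (hD' 0 (Nat.zero_le _))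
      hm0 hm0' hb hb' hd

end Pool.Agent.Lib.H37N
end
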