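import Pool.Agent.Lib.H1M.FF.M018

/-! Merged copies (to shorten the build) of Lib.H37D.A51, Lib.H37D.A53, Lib.H37D.A55, Lib.H37D.DB20. -/

-- from Lib.H37D.A51
section

/-!
# H37D A51 (size M): the function `hh`: estimates on `FFd d` along cone vectors, continuity, maximum

As `Lib/H37N/A51.lean`.
-/

open Set Filter Topology
open scoped ContDiff

namespace Pool.Agent.Lib.H37D

open Pool.Agent.Lib.H37N

variable {d : ℕ} {g : En d → En d}

theorem a51_convex : Convex ℝ (FFd d) :=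
  ((convex_Icc _ _).prod (convex_Icc _ _)).prod (convex_closedBall _ _)

theorem a51_hasFDerivAt (h : NearD g) {z : En d} (hz : z ∈ FFd d) : HasFDerivAt g (fderiv ℝ g z) z := by
  obtain ⟨O, hO, hsub, hC, -, -⟩ := h.smooth
  have hm : z ∈ O := hsub (FFd_sub_Dd hz)
  have hd : DifferentiableAt ℝ g z :=
    (hC.contDiffAt (hO.mem_nhds hm)).differentiableAt (by simp)
  exact hd.hasFDerivAt

theorem a51_contOn (h : NearD g) : ContinuousOn g (FFd d) := by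
  obtain ⟨O, hO, hsub, hC, -, -⟩ := h.smooth
  exact hC.continuousOn.mono fun z hz => hsub (FFd_sub_Dd hz)

/-- components of the derivative along a vertical cone vector -/
theorem a51_vec (h : NearD g) {z : En d} (hz : z ∈ FFd d) {D : ℝ} {w : Wd d} (hw : ‖w‖ ≤ D) :
    |(fderiv ℝ g z ((0, D), w)).1.1 - cc * D| ≤ 2 * e0 * D ∧ |(fderiv ℝ g z ((0, D), w)).1.2| ≤ 2 * e0 * D ∧
      ‖(fderiv ℝ g z ((0, D), w)).2‖ ≤ (e0 + aw) * D := by
  have hD : 0 ≤ D := le_trans (norm_nonneg w) hw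
  have he : (0 : ℝ) ≤ e0 := by unfold e0; positivity
  have ha : (0 : ℝ) ≤ aw := by unfold aw; positivity
  obtain ⟨f1, f2⟩ := h.fold1 z hz
  obtain ⟨-, f3⟩ := h.wx z (FFd_sub_Dd hz)
  obtain ⟨f4, f5⟩ := h.ww z (FFd_sub_Dd hz) w
  set L := fderiv ℝ g z with hL
  have hv : (((0, D), w) : En d) = D • eY d + ((0 : Pt), w) := by
    unfold eY
    ext <;> simp
  have hs : L ((0, D), w) = D • L (eY d) + L (0, w) := by
    rw [hv, map_add, map_smul]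
  have g1 : |(L ((0 : Pt), w)).1.1| ≤ e0 * D := by
    have h2 := norm_fst_le (L ((0 : Pt), w)).1
    rw [Real.norm_eq_abs] at h2
    exact h2.trans (f4.trans (mul_le_mul_of_nonneg_left hw he))
  have g2 : |(L ((0 : Pt), w)).1.2| ≤ e0 * D := by
    have h2 := norm_snd_le (L ((0 : Pt), w)).1
    rw [Real.norm_eq_abs] at h2
    exact h2.trans (f4.trans (mul_le_mul_of_nonneg_left hw he))
  have g3 : ‖(L ((0 : Pt), w)).2‖ ≤ aw * D := f5.trans (mul_le_mul_of_nonneg_left hw ha)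
  refine ⟨?_, ?_, ?_⟩
  · have e : (L ((0, D), w)).1.1 - cc * D = D * ((L (eY d)).1.1 - cc) + (L ((0 : Pt), w)).1.1 := by
      rw [hs]
      simp only [Prod.fst_add, Prod.smul_fst, smul_eq_mul]
      ring
    rw [e]
    calc _ ≤ |D * ((L (eY d)).1.1 - cc)| + |(L ((0 : Pt), w)).1.1| := abs_add_le _ _
      _ = D * |(L (eY d)).1.1 - cc| + |(L ((0 : Pt), w)).1.1| := by rw [abs_mul, abs_of_nonneg hD]
      _ ≤ D * e0 + e0 * D := add_le_add (mul_le_mul_of_nonneg_left f1 hD) g1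
      _ = 2 * e0 * D := by ring
  · have e : (L ((0, D), w)).1.2 = D * (L (eY d)).1.2 + (L ((0 : Pt), w)).1.2 := by
      rw [hs]
      simp only [Prod.fst_add, Prod.smul_fst, Prod.snd_add, Prod.smul_snd, smul_eq_mul]
    rw [e]
    calc _ ≤ |D * (L (eY d)).1.2| + |(L ((0 : Pt), w)).1.2| := abs_add_le _ _
      _ = D * |(L (eY d)).1.2| + |(L ((0 : Pt), w)).1.2| := by rw [abs_mul, abs_of_nonneg hD]
      _ ≤ D * e0 + e0 * D := add_le_add (mul_le_mul_of_nonneg_left f2 hD) g2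
      _ = 2 * e0 * D := by ring
  · have e : (L ((0, D), w)).2 = D • (L (eY d)).2 + (L ((0 : Pt), w)).2 := by
      rw [hs]
      simp only [Prod.snd_add, Prod.smul_snd]
    rw [e]
    calc _ ≤ ‖D • (L (eY d)).2‖ + ‖(L ((0 : Pt), w)).2‖ := norm_add_le _ _
      _ = D * ‖(L (eY d)).2‖ + ‖(L ((0 : Pt), w)).2‖ := by
          rw [norm_smul, Real.norm_eq_abs, abs_of_nonneg hD]
      _ ≤ D * e0 + aw * D := add_le_add (mul_le_mul_of_nonneg_left f3 hD) g3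
      _ = (e0 + aw) * D := by ring

/-- Proof. `z0 = ((x, y0), w0)`, `z1 = ((x, y1), w1)`, `Δ = y1 - y0`; `FFd d` is convex (product of intervals and a ball), so the segment
`z t = z0 + t • (z1 - z0)`, `t ∈ [0,1]`, is in `FFd d ⊆ O` and `φ t = g (z t)` has derivative `Dg (z t) (z1 - z0)`, where
`z1 - z0 = Δ • eY d + (0, w1 - w0)`, so (`fold1`, `wx`, `ww`): `|(φ' t).1.1 - cc Δ| ≤ e0 Δ + e0 ‖w1 - w0‖ ≤ 2 e0 Δ`, `|(φ' t).1.2| ≤ 2 e0 Δ`,
`‖(φ' t).2‖ ≤ e0 Δ + aw Δ`. Mean value inequality (`norm_image_sub_le_of_norm_deriv_le_segment_01'` or `image_norm_le_of_norm_deriv_right_le...`) for the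
functions `t ↦ (φ t).1.1 - cc Δ t`, `t ↦ ((φ t).1.2, (φ t).2)`. -/
theorem fold_vert (h : NearD g) {x y0 y1 : ℝ} {w0 w1 : Wd d} (h0 : ((x, y0), w0) ∈ FFd d)
    (h1 : ((x, y1), w1) ∈ FFd d) (hw : ‖w1 - w0‖ ≤ y1 - y0) :
    (cc - 2 * e0) * (y1 - y0) ≤ (g ((x, y1), w1)).1.1 - (g ((x, y0), w0)).1.1 ∧
    (g ((x, y1), w1)).1.1 - (g ((x, y0), w0)).1.1 ≤ (cc + 2 * e0) * (y1 - y0) ∧
    ‖((g ((x, y1), w1)).1.2, (g ((x, y1), w1)).2) -
      ((g ((x, y0), w0)).1.2, (g ((x, y0), w0)).2)‖ ≤ 1 / 10 ^ 6 * (y1 - y0) := by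
  set D := y1 - y0 with hD
  have hD0 : 0 ≤ D := le_trans (norm_nonneg _) hw
  set z0 : En d := ((x, y0), w0) with hz0
  set z1 : En d := ((x, y1), w1) with hz1
  have hdz : z1 - z0 = ((0, D), w1 - w0) := by
    rw [hz0, hz1, hD]
    ext <;> simp
  have hmem : ∀ t ∈ Icc (0 : ℝ) 1, z0 + t • (z1 - z0) ∈ FFd d := fun t ht =>
    a51_convex.add_smul_sub_mem h0 h1 ht
  have hder : ∀ t ∈ Icc (0 : ℝ) 1, HasDerivAt (fun t : ℝ => g (z0 + t • (z1 - z0)))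
      (fderiv ℝ g (z0 + t • (z1 - z0)) ((0, D), w1 - w0)) t := by
    intro t ht
    have h2 : HasDerivAt (fun t : ℝ => z0 + t • (z1 - z0)) (z1 - z0) t := by
      simpa using ((hasDerivAt_id t).smul_const (z1 - z0)).const_add z0
    have h3 := (a51_hasFDerivAt h (hmem t ht)).comp_hasDerivAt t h2
    rw [← hdz]
    exact h3
  have he1 : z0 + (1 : ℝ) • (z1 - z0) = z1 := by rw [one_smul]; abel
  have he0 : z0 + (0 : ℝ) • (z1 - z0) = z0 := by rw [zero_smul, add_zero]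
  have hd1 : ∀ t ∈ Icc (0 : ℝ) 1, HasDerivAt (fun t : ℝ => (g (z0 + t • (z1 - z0))).1.1)
      (fderiv ℝ g (z0 + t • (z1 - z0)) ((0, D), w1 - w0)).1.1 t := fun t ht =>
    ((ContinuousLinearMap.fst ℝ ℝ ℝ).comp
      (ContinuousLinearMap.fst ℝ Pt (Wd d))).hasFDerivAt.comp_hasDerivAt t (hder t ht)
  have hd2 : ∀ t ∈ Icc (0 : ℝ) 1, HasDerivAt
      (fun t : ℝ => ((g (z0 + t • (z1 - z0))).1.2, (g (z0 + t • (z1 - z0))).2))
      ((fderiv ℝ g (z0 + t • (z1 - z0)) ((0, D), w1 - w0)).1.2,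
      (fderiv ℝ g (z0 + t • (z1 - z0)) ((0, D), w1 - w0)).2) t := fun t ht =>
    (((ContinuousLinearMap.snd ℝ ℝ ℝ).comp (ContinuousLinearMap.fst ℝ Pt (Wd d))).prod
      (ContinuousLinearMap.snd ℝ Pt (Wd d))).hasFDerivAt.comp_hasDerivAt t (hder t ht)
  -- the first component
  have hA := norm_image_sub_le_of_norm_deriv_le_segment_01' (C := 2 * e0 * D)
    (f := fun t : ℝ => (g (z0 + t • (z1 - z0))).1.1 - t * (cc * D))
    (f' := fun t : ℝ => (fderiv ℝ g (z0 + t • (z1 - z0)) ((0, D), w1 - w0)).1.1 - 1 * (cc * D))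
    (fun t ht => (HasDerivAt.sub (hd1 t ht) ((hasDerivAt_id t).mul_const (cc * D))).hasDerivWithinAt)
    (fun t ht => by
      rw [Real.norm_eq_abs, one_mul]
      exact (a51_vec h (hmem t ⟨ht.1, ht.2.le⟩) hw).1)
  simp only [he1, he0] at hA
  rw [Real.norm_eq_abs, abs_le] at hA
  -- the other components
  have hB := norm_image_sub_le_of_norm_deriv_le_segment_01' (C := 1 / 10 ^ 6 * D)
    (f := fun t : ℝ => ((g (z0 + t • (z1 - z0))).1.2, (g (z0 + t • (z1 - z0))).2))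
    (f' := fun t : ℝ => ((fderiv ℝ g (z0 + t • (z1 - z0)) ((0, D), w1 - w0)).1.2,
      (fderiv ℝ g (z0 + t • (z1 - z0)) ((0, D), w1 - w0)).2))
    (fun t ht => (hd2 t ht).hasDerivWithinAt)
    (fun t ht => by
      obtain ⟨-, k2, k3⟩ := a51_vec h (hmem t ⟨ht.1, ht.2.le⟩) hw
      rw [Prod.norm_def, Real.norm_eq_abs]
      refine max_le (k2.trans ?_) (k3.trans ?_)
      · refine mul_le_mul_of_nonneg_right ?_ hD0
        norm_num [e0]
      · refine mul_le_mul_of_nonneg_right ?_ hD0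
        norm_num [e0, aw])
  simp only [he1, he0] at hB
  refine ⟨by linarith [hA.1], by linarith [hA.2], ?_⟩
  exact hB

theorem graph_FF {f : ℝ → ℝ × Wd d} (hf : ULeaf f) {x : ℝ} (hx : x ∈ JJ) : pt f x ∈ FFd d :=
  mem_FFd.2 ⟨⟨hx, hf.mem x⟩, hf.norm_le x⟩

theorem hh_cont (h : NearD g) {f : ℝ → ℝ × Wd d} {s : ℝ × Wd d → ℝ} (hf : ULeaf f) (hs : SLeaf s) :
    ContinuousOn (hh g f s) JJ := by
  have h0 : Continuous fun x : ℝ => pt f x := by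
    have hc := hf.continuous
    unfold pt
    fun_prop
  have h1 : ContinuousOn (fun x : ℝ => g (pt f x)) JJ :=
    (a51_contOn h).comp h0.continuousOn fun x hx => graph_FF hf hx
  have h2 : ContinuousOn (fun x : ℝ => s ((g (pt f x)).1.2, (g (pt f x)).2)) JJ :=
    hs.continuous.comp_continuousOn
      ((continuous_snd.comp_continuousOn (continuous_fst.comp_continuousOn h1)).prodMk
        (continuous_snd.comp_continuousOn h1))
  exact (continuous_fst.comp_continuousOn (continuous_fst.comp_continuousOn h1)).sub h2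

/-- Proof. `JJ` compact and nonempty: `IsCompact.exists_isMaxOn`; the maximum is the supremum of the image. -/
theorem DD_attained (h : NearD g) {f : ℝ → ℝ × Wd d} {s : ℝ × Wd d → ℝ} (hf : ULeaf f)
    (hs : SLeaf s) : ∃ x ∈ JJ, DD g f s = hh g f s x := by
  have hne : JJ.Nonempty := ⟨xc, by norm_num [JJ, xc, u0]⟩
  have hcomp : IsCompact JJ := isCompact_Icc
  obtain ⟨x, hx, hm⟩ := hcomp.exists_isMaxOn hne (hh_cont h hf hs)
  refine ⟨x, hx, le_antisymm ?_ ?_⟩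
  · refine csSup_le (hne.image _) ?_
    rintro _ ⟨y, hy, rfl⟩
    exact hm hy
  · exact le_csSup (hcomp.bddAbove_image (hh_cont h hf hs)) ⟨x, hx, rfl⟩

/-- Proof. `le_csSup` with `IsCompact.bddAbove_image`. -/
theorem hh_le_DD (h : NearD g) {f : ℝ → ℝ × Wd d} {s : ℝ × Wd d → ℝ} (hf : ULeaf f) (hs : SLeaf s)
    {x : ℝ} (hx : x ∈ JJ) : hh g f s x ≤ DD g f s := by
  have hcomp : IsCompact JJ := isCompact_Icc
  exact le_csSup (hcomp.bddAbove_image (hh_cont h hf hs)) ⟨x, hx, rfl⟩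

end Pool.Agent.Lib.H37D
end

-- from Lib.H37D.A53
section

/-!
# H37D A53 (size M): monotonicity of `DD` in both leaves

As `Lib/H37N/A53.lean` (cone order for the unstable leaves).
-/

open Set Filter Topology

namespace Pool.Agent.Lib.H37D

open Pool.Agent.Lib.H37N

variable {d : ℕ} {g : En d → En d}

/-- Proof: `fold_vert` for the points `pt f0 x`, `pt f1 x`; `|s h1 - s h0| ≤ 10 ee * 10^-6 * Δ`. -/
theorem hh_mono (h : NearD g) {f0 f1 : ℝ → ℝ × Wd d} {s : ℝ × Wd d → ℝ} (h0 : ULeaf f0)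
    (h1 : ULeaf f1) (hs : SLeaf s) {x : ℝ} (hx : x ∈ JJ) (hle : LeC f0 f1 x) :
    (cc - 1 / 10 ^ 8) * ((f1 x).1 - (f0 x).1) ≤ hh g f1 s x - hh g f0 s x ∧
      hh g f1 s x - hh g f0 s x ≤ (cc + 1 / 10 ^ 8) * ((f1 x).1 - (f0 x).1) := by
  have a0 := graph_FF h0 hx
  have a1 := graph_FF h1 hx
  obtain ⟨b1, b2, b3⟩ := fold_vert h a0 a1 hle.2
  have b4 := hs.lip ((g (pt f1 x)).1.2, (g (pt f1 x)).2) ((g (pt f0 x)).1.2, (g (pt f0 x)).2)
  have hD : 0 ≤ (f1 x).1 - (f0 x).1 := sub_nonneg.2 hle.1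
  have b5 : |s ((g (pt f1 x)).1.2, (g (pt f1 x)).2) - s ((g (pt f0 x)).1.2, (g (pt f0 x)).2)| ≤
      10 * ee * (1 / 10 ^ 6 * ((f1 x).1 - (f0 x).1)) :=
    b4.trans (mul_le_mul_of_nonneg_left b3 (by norm_num [ee]))
  obtain ⟨b6, b7⟩ := abs_le.1 b5
  simp only [hh, pt, cc, ee, e0] at *
  constructor <;> nlinarith

theorem DD_mono_f (h : NearD g) {f0 f1 : ℝ → ℝ × Wd d} {s : ℝ × Wd d → ℝ} (h0 : ULeaf f0)
    (h1 : ULeaf f1) (hs : SLeaf s) {L H : ℝ} (hL : 0 ≤ L) (hle : ∀ x ∈ JJ, LeC f0 f1 x)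
    (hLe : ∀ x ∈ JJ, L ≤ (f1 x).1 - (f0 x).1) (hHe : ∀ x ∈ JJ, (f1 x).1 - (f0 x).1 ≤ H) :
    (cc - 1 / 10 ^ 8) * L ≤ DD g f1 s - DD g f0 s ∧ DD g f1 s - DD g f0 s ≤ (cc + 1 / 10 ^ 8) * H := by
  obtain ⟨x0, hx0, e0'⟩ := DD_attained h h0 hs
  obtain ⟨x1, hx1, e1'⟩ := DD_attained h h1 hs
  have c1 := hh_le_DD h h1 hs hx0
  have c0 := hh_le_DD h h0 hs hx1
  have d0 := (hh_mono h h0 h1 hs hx0 (hle x0 hx0)).1
  have d1 := (hh_mono h h0 h1 hs hx1 (hle x1 hx1)).2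
  have l0 := hLe x0 hx0
  have l1 := hHe x1 hx1
  have m0 : (cc - 1 / 10 ^ 8) * L ≤ (cc - 1 / 10 ^ 8) * ((f1 x0).1 - (f0 x0).1) :=
    mul_le_mul_of_nonneg_left l0 (by norm_num [cc])
  have m1 : (cc + 1 / 10 ^ 8) * ((f1 x1).1 - (f0 x1).1) ≤ (cc + 1 / 10 ^ 8) * H :=
    mul_le_mul_of_nonneg_left l1 (by norm_num [cc])
  constructor <;> linarith

theorem DD_mono_s (h : NearD g) {f : ℝ → ℝ × Wd d} {s0 s1 : ℝ × Wd d → ℝ} (hf : ULeaf f)
    (h0 : SLeaf s0) (h1 : SLeaf s1) {L H : ℝ} (hLe : ∀ y, L ≤ s1 y - s0 y)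
    (hHe : ∀ y, s1 y - s0 y ≤ H) : L ≤ DD g f s0 - DD g f s1 ∧ DD g f s0 - DD g f s1 ≤ H := by
  obtain ⟨x0, hx0, e0'⟩ := DD_attained h hf h0
  obtain ⟨x1, hx1, e1'⟩ := DD_attained h hf h1
  have c1 := hh_le_DD h hf h1 hx0
  have c0 := hh_le_DD h hf h0 hx1
  have l0 := hLe ((g (pt f x1)).1.2, (g (pt f x1)).2)
  have l1 := hHe ((g (pt f x0)).1.2, (g (pt f x0)).2)
  simp only [hh] at e0' e1' c0 c1
  constructor <;> linarith

theorem DD_le_f (h : NearD g) {f0 f1 : ℝ → ℝ × Wd d} {s : ℝ × Wd d → ℝ} (h0 : ULeaf f0)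
    (h1 : ULeaf f1) (hs : SLeaf s) (hle : ∀ x ∈ JJ, LeC f0 f1 x) : DD g f0 s ≤ DD g f1 s := by
  obtain ⟨x0, hx0, e0'⟩ := DD_attained h h0 hs
  have c1 := hh_le_DD h h1 hs hx0
  have d0 := (hh_mono h h0 h1 hs hx0 (hle x0 hx0)).1
  have m0 : 0 ≤ (cc - 1 / 10 ^ 8) * ((f1 x0).1 - (f0 x0).1) :=
    mul_nonneg (by norm_num [cc]) (sub_nonneg.2 (hle x0 hx0).1)
  linarith

theorem DD_le_s (h : NearD g) {f : ℝ → ℝ × Wd d} {s0 s1 : ℝ × Wd d → ℝ} (hf : ULeaf f)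
    (h0 : SLeaf s0) (h1 : SLeaf s1) (hle : ∀ y, s0 y ≤ s1 y) : DD g f s1 ≤ DD g f s0 := by
  obtain ⟨x1, hx1, e1'⟩ := DD_attained h hf h1
  have c0 := hh_le_DD h hf h0 hx1
  have l0 := hle ((g (pt f x1)).1.2, (g (pt f x1)).2)
  simp only [hh] at e1' c0
  linarith

end Pool.Agent.Lib.H37D
end

-- from Lib.H37D.A55
section

/-!
# H37D A55 (size M): location of the maximum and value of `DD`

As `Lib/H37N/A55.lean`.
-/

open Set Filter Topology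

namespace Pool.Agent.Lib.H37D

open Pool.Agent.Lib.H37N

variable {d : ℕ} {g : En d → En d}

/-- Proof. `pt f x ∈ FFd d`, `h.fold0`: `(g ..).1.1` is within `e0` of `1/2 + cc ((f x).1 - 1/2) - dd (x - xc)^2`, `(g ..).1.2` within `e0` of
`yc - (x - xc)`, `‖(g ..).2‖ ≤ aw * 3 ee + e0` (`h.wval`); so the distance of `((g ..).1.2, (g ..).2)` from `(yc, 0)` is at most `u0 + e0 ≤ 1`.
`|(f x).1 - (f xc).1| ≤ 10 ee u0`, `|s .. - s (yc, 0)| ≤ 10 ee`. Total `≤ e0 + cc * 10 ee u0 + 10 ee ≤ 10^-8`. -/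
theorem hh_val (h : NearD g) {f : ℝ → ℝ × Wd d} {s : ℝ × Wd d → ℝ} (hf : ULeaf f) (hs : SLeaf s)
    {x : ℝ} (hx : x ∈ JJ) :
    |hh g f s x - (1 / 2 + cc * ((f xc).1 - 1 / 2) - dd * (x - xc) ^ 2 - s (yc, 0))| ≤
      1 / 10 ^ 8 := by
  obtain ⟨h1, h2⟩ := h.fold0 _ (graph_FF hf hx)
  have hw := h.wval _ (FFd_sub_Dd (graph_FF hf hx))
  have hxu : |x - xc| ≤ u0 := by
    rw [abs_le]
    constructor <;> linarith [hx.1, hx.2]
  have h3 : |(f x).1 - (f xc).1| ≤ 10 * ee * |x - xc| := by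
    have := hf.lip x xc
    rw [Prod.norm_def, max_le_iff] at this
    exact this.1
  have h4 := hs.lip ((g (pt f x)).1.2, (g (pt f x)).2) (yc, 0)
  have hu : u0 = 1 / 4000 := rfl
  have he0 : e0 = 1 / 10 ^ 12 := rfl
  have hee : ee = 1 / 10 ^ 10 := rfl
  have hcc : cc = 1 / 2 := rfl
  have haw : aw = 1 / 10 ^ 7 := rfl
  have h5 : |(f x).1 - (f xc).1| ≤ 1 / 10 ^ 9 := by
    refine h3.trans ?_
    rw [hee]
    rw [hu] at hxu
    nlinarith
  have h6 : |(g (pt f x)).1.2 - yc| ≤ 1 := by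
    have h2' : |(g (pt f x)).1.2 - (yc - (x - xc))| ≤ e0 := h2
    rw [abs_le] at h2' hxu ⊢
    rw [hu] at hxu
    rw [he0] at h2'
    constructor <;> linarith [hxu.1, hxu.2, h2'.1, h2'.2]
  have h6' : ‖(g (pt f x)).2‖ ≤ 1 := by
    have h8 : ‖(pt f x).2‖ ≤ 1 := hf.norm_le x
    rw [haw, he0] at hw
    linarith
  have h7 : |s ((g (pt f x)).1.2, (g (pt f x)).2) - s (yc, 0)| ≤ 1 / 10 ^ 9 := by
    refine h4.trans ?_
    have h9 : ‖((g (pt f x)).1.2, (g (pt f x)).2) - ((yc, 0) : ℝ × Wd d)‖ ≤ 1 := by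
      rw [Prod.norm_def]
      refine max_le ?_ ?_
      · exact h6
      · rw [Prod.snd_sub, sub_zero]
        exact h6'
    rw [hee]
    linarith
  have h1' : |(g (pt f x)).1.1 - (1 / 2 + cc * ((f x).1 - 1 / 2) - dd * (x - xc) ^ 2)| ≤ e0 := h1
  rw [hcc] at h1' ⊢
  rw [he0] at h1'
  generalize dd * (x - xc) ^ 2 = t at h1' ⊢
  unfold hh
  rw [abs_le] at h1' h5 h7 ⊢
  constructor <;> linarith [h1'.1, h1'.2, h5.1, h5.2, h7.1, h7.2]

theorem a55_xc_mem : xc ∈ JJ := by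
  constructor <;> norm_num [xc, u0]

theorem DD_val (h : NearD g) {f : ℝ → ℝ × Wd d} {s : ℝ × Wd d → ℝ} (hf : ULeaf f) (hs : SLeaf s) :
    |DD g f s - (1 / 2 + cc * ((f xc).1 - 1 / 2) - s (yc, 0))| ≤ 1 / 10 ^ 8 := by
  obtain ⟨x, hx, e⟩ := DD_attained h hf hs
  have h1 := hh_val h hf hs hx
  have h2 := hh_val h hf hs a55_xc_mem
  have h3 := hh_le_DD h hf hs a55_xc_mem
  have h4 : 0 ≤ dd * (x - xc) ^ 2 := mul_nonneg (by norm_num [dd]) (sq_nonneg _)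
  rw [sub_self] at h2
  rw [← e] at h1
  generalize dd * (x - xc) ^ 2 = t at h1 h4
  rw [abs_le] at h1 h2 ⊢
  constructor
  · nlinarith [h2.1, h2.2]
  · linarith [h1.1, h1.2]

/-- Proof. `hh_val` at `x` and `DD_val`; `dd * (u0/2)^2 = 5/128 > 0.039`. -/
theorem hh_far (h : NearD g) {f : ℝ → ℝ × Wd d} {s : ℝ × Wd d → ℝ} (hf : ULeaf f) (hs : SLeaf s)
    {x : ℝ} (hx : x ∈ JJ) (hfar : u0 / 2 ≤ |x - xc|) : hh g f s x ≤ DD g f s - 1 / 100 := by
  have h1 := hh_val h hf hs hx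
  have h2 := DD_val h hf hs
  have h3 : 39 / 1000 ≤ dd * (x - xc) ^ 2 := by
    have h4 : (u0 / 2) ^ 2 ≤ (x - xc) ^ 2 := by
      rw [← sq_abs (x - xc)]
      exact pow_le_pow_left₀ (by norm_num [u0]) hfar 2
    have h5 : dd = 2500000 := rfl
    have h6 : u0 = 1 / 4000 := rfl
    rw [h6] at h4
    rw [h5]
    nlinarith
  generalize dd * (x - xc) ^ 2 = t at h1 h3
  rw [abs_le] at h1 h2
  linarith [h1.1, h1.2, h2.1, h2.2]

theorem DD_attained_mid (h : NearD g) {f : ℝ → ℝ × Wd d} {s : ℝ × Wd d → ℝ} (hf : ULeaf f)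
    (hs : SLeaf s) : ∃ x, |x - xc| < u0 / 2 ∧ DD g f s = hh g f s x := by
  obtain ⟨x, hx, e⟩ := DD_attained h hf hs
  refine ⟨x, ?_, e⟩
  by_contra hcon
  have := hh_far h hf hs hx (not_lt.1 hcon)
  linarith

end Pool.Agent.Lib.H37D
end

-- from Lib.H37D.DB20
section

/-! # H37D, chunk DB20 (S/M): rates (port of H37N/B20.lean) -/

open Set Filter Topology
open scoped ContDiff

namespace Pool.Agent.Lib.H37D

open Pool.Agent.Lib.H37N

variable {d : ℕ}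

theorem db20_bds {g : En d → En d} {F : FrD d} (h : IsFrD g F) :
    (49 / 100 < F.lam Sy.P ∧ F.lam Sy.P < 51 / 100) ∧ (49 / 100 < F.lam Sy.Q ∧ F.lam Sy.Q < 51 / 100) ∧
      (124 / 100 < F.mu Sy.P ∧ F.mu Sy.P < 126 / 100) ∧ (5 < F.mu Sy.Q ∧ F.mu Sy.Q < 505 / 100) := by
  have h1 := (h.chart Sy.P).lam_mem
  have h2 := (h.chart Sy.Q).lam_mem
  have h3 := (h.chart Sy.P).mu_mem
  have h4 := (h.chart Sy.Q).mu_mem
  exact ⟨⟨h1.1, h1.2⟩, ⟨h2.1, h2.2⟩, ⟨h3.1, h3.2⟩, ⟨h4.1, h4.2⟩⟩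

/-- PROOF. lamP muP < 51/100 * 126/100 = 0.6426; lamQ muQ > 49/100 * 5 = 2.45. -/
theorem IsFrD.rates {g : En d → En d} {F : FrD d} (h : IsFrD g F) :
    0 < F.lam Sy.P ∧ F.lam Sy.P < 1 ∧ 0 < F.lam Sy.Q ∧ F.lam Sy.Q < 1 ∧ 1 < F.mu Sy.P ∧ 1 < F.mu Sy.Q ∧
      F.lam Sy.P * F.mu Sy.P < 1 ∧ 1 < F.lam Sy.Q * F.mu Sy.Q := by
  obtain ⟨⟨a1, a2⟩, ⟨b1, b2⟩, ⟨c1, c2⟩, ⟨d1, d2⟩⟩ := db20_bds h
  refine ⟨by linarith, by linarith, by linarith, by linarith, by linarith, by linarith, ?_, ?_⟩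
  · nlinarith
  · nlinarith

/-- (R1).

PROOF. b0 = log (lamQ muQ) ≤ log 2.5755 ≤ 1 (exp 1 > 2.7), a0 = -log (lamP muP) ≥ -log 0.6426 ≥ 0.4 (exp 0.4 ≤ 1.55: exp (0.4)^5 = (exp 1)^2 < 7.39 and 1.55^5 > 8.9), log muP ≤ log 1.26 ≤ 0.25
(1 + x + x^2/2 ≤ exp x), log lamQ ≤ log 0.51 = log 0.5 + log 1.02 ≤ -0.693 + 0.02.  So log lamQ + (b0/a0) log muP ≤ -0.673 + 2.5 * 0.25 = -0.048 < 0. -/
theorem IsFrD.R1 {g : En d → En d} {F : FrD d} (h : IsFrD g F) :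
    Real.log (F.lam Sy.Q) + Real.log (F.lam Sy.Q * F.mu Sy.Q) / (-Real.log (F.lam Sy.P * F.mu Sy.P)) *
      Real.log (F.mu Sy.P) < 0 := by
  obtain ⟨⟨a1, a2⟩, ⟨b1, b2⟩, ⟨c1, c2⟩, ⟨d1, d2⟩⟩ := db20_bds h
  set lP := F.lam Sy.P
  set lQ := F.lam Sy.Q
  set mP := F.mu Sy.P
  set mQ := F.mu Sy.Q
  -- the logarithms
  have hmP0 : 0 < Real.log mP := Real.log_pos (by linarith)
  have hmP : Real.log mP ≤ 1 / 4 := by
    rw [Real.log_le_iff_le_exp (by linarith)]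
    have := Real.quadratic_le_exp_of_nonneg (show (0 : ℝ) ≤ 1 / 4 by norm_num)
    norm_num at this ⊢
    linarith
  have hQ0 : 0 < Real.log (lQ * mQ) := Real.log_pos (by nlinarith)
  have hQ : Real.log (lQ * mQ) ≤ 1 := by
    rw [Real.log_le_iff_le_exp (by nlinarith)]
    have := Real.exp_one_gt_d9
    nlinarith
  have hP : Real.log (lP * mP) ≤ -(2 / 5) := by
    have h1 : Real.log (lP * mP) ≤ Real.log (6426 / 10000) :=
      Real.log_le_log (by nlinarith) (by nlinarith)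
    have h2 : Real.log (6426 / 10000) ≤ -(2 / 5) := by
      rw [Real.log_le_iff_le_exp (by norm_num)]
      have h3 : (Real.exp (-(2 / 5))) ^ 5 = (Real.exp 1)⁻¹ ^ 2 := by
        rw [← Real.exp_nat_mul, ← Real.exp_neg, ← Real.exp_nat_mul]
        congr 1
        norm_num
      have h4 : (6426 / 10000 : ℝ) ^ 5 ≤ (Real.exp (-(2 / 5))) ^ 5 := by
        rw [h3, inv_pow, le_inv_comm₀ (by positivity) (by positivity)]
        have h5 := Real.exp_one_lt_d9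
        have h6 : Real.exp 1 ^ 2 ≤ 2.7182818286 ^ 2 :=
          pow_le_pow_left₀ (Real.exp_pos 1).le h5.le 2
        refine h6.trans ?_
        norm_num
      exact le_of_pow_le_pow_left₀ (by norm_num) (Real.exp_pos _).le h4
    linarith
  have hlQ : Real.log lQ ≤ -(66 / 100) := by
    have h1 : Real.log lQ ≤ Real.log (51 / 100) := Real.log_le_log (by linarith) b2.le
    have h2 : Real.log (51 / 100) = Real.log (102 / 100) - Real.log 2 := by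
      rw [← Real.log_div (by norm_num) (by norm_num)]
      norm_num
    have h3 : Real.log (102 / 100) ≤ 102 / 100 - 1 := Real.log_le_sub_one_of_pos (by norm_num)
    have h4 := Real.log_two_gt_d9
    linarith
  have hq : Real.log (lQ * mQ) / (-Real.log (lP * mP)) ≤ 5 / 2 := by
    rw [div_le_iff₀ (by linarith)]
    linarith
  have hq0 : 0 ≤ Real.log (lQ * mQ) / (-Real.log (lP * mP)) := by
    apply div_nonneg hQ0.le; linarith
  nlinarith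

/-- The strong rates.

PROOF. al ≤ 101/10^9 < 1/10^6, lam ≥ 49/100, mu ≤ 505/100 (and muP ≤ 126/100). -/
theorem IsFrD.strong {g : En d → En d} {F : FrD d} (h : IsFrD g F) (i j : Sy) (k : Fin d) :
    0 < F.al i k ∧ F.al i k < 1 / 10 ^ 6 ∧ F.al i k < F.lam j / 10 ^ 5 ∧ F.al i k * F.mu j < 1 / 10 ^ 6 := by
  obtain ⟨h1, h2⟩ := (h.chart i).al_mem k
  obtain ⟨l1, l2⟩ := (h.chart j).lam_mem
  have hmu : 0 < F.mu j ∧ F.mu j < 505 / 100 := by
    have h4 := (h.chart j).mu_mem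
    cases j
    · exact ⟨by linarith [h4.1], by linarith [h4.2]⟩
    · exact ⟨by linarith [h4.1], by linarith [h4.2]⟩
  norm_num at h1 h2
  refine ⟨by linarith, by norm_num; linarith, by norm_num; linarith, ?_⟩
  have h5 : F.al i k * F.mu j ≤ 101 / 1000000000 * (505 / 100) :=
    mul_le_mul h2.le hmu.2.le hmu.1.le (by norm_num)
  norm_num at h5 ⊢
  linarith

end Pool.Agent.Lib.H37D
end
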