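import Pool.Agent.Lib.H1M.FF.M018

/-! Merged copies (to shorten the build) of Lib.H37D.DB16, Lib.H37D.DB16b. -/

-- from Lib.H37D.DB16
section

/-! # H37D, chunk DB16 (M): the quotient by the strong stable directions (PROOFN.md 0.2), iterates -/

open Set Filter Topology
open scoped ContDiff

namespace Pool.Agent.Lib.H37D

open Pool.Agent.Lib.H37N

variable {d : ℕ} {g : En d → En d}

/-- PROOF. Omd d = Om × ball 0 1, Om = interior (VV P) ∪ interior (VV Q) ∪ interior FF. -/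
theorem Omd_sub_Dd : Omd d ⊆ Dd d := by
  rintro z ⟨h1, h2⟩
  have h3 : z.2 ∈ BW d := Metric.ball_subset_closedBall h2
  rcases h1 with (h1 | h1) | h1
  · exact Or.inl (Or.inl ⟨interior_subset h1, h3⟩)
  · exact Or.inl (Or.inr ⟨interior_subset h1, h3⟩)
  · exact Or.inr ⟨interior_subset h1, h3⟩

theorem db16_exp (L : Pt →L[ℝ] Pt) (v : Pt) : L v = v.1 • L (1, 0) + v.2 • L (0, 1) := by
  have : v = v.1 • ((1 : ℝ), (0 : ℝ)) + v.2 • ((0 : ℝ), (1 : ℝ)) := by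
    ext <;> simp
  conv_lhs => rw [this]
  rw [map_add, map_smul, map_smul]

theorem db16_n1 (v : Pt) : |v.1| ≤ ‖v‖ := by
  have := norm_fst_le v
  rwa [Real.norm_eq_abs] at this

theorem db16_n2 (v : Pt) : |v.2| ≤ ‖v‖ := by
  have := norm_snd_le v
  rwa [Real.norm_eq_abs] at this

/-- Linear algebra.

PROOF. Write B = ((a,b),(c,e)): B (1,0) = (a,c), B (0,1) = (b,e); det = a e - b c.  B is bijective with inverse (r₁,r₂) ↦ ((e r₁ - b r₂)/det, (a r₂ - c r₁)/det), of norm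
≤ (max (|e|+|b|) (|a|+|c|))/det ≤ 1252 / (49/100) ≤ 2600.  s' w := - B⁻¹ (T w); ‖s'‖ ≤ 2600 ‖T‖ ≤ 1/10^8. -/
theorem db16_lin (B : Pt →L[ℝ] Pt) (T : Wd d →L[ℝ] Pt) (h1 : |(B (1, 0)).1| + |(B (1, 0)).2| ≤ 1252)
    (h2 : |(B (0, 1)).1| + |(B (0, 1)).2| ≤ 1252) (hd : 49 / 100 ≤ det2 B) (hT : ‖T‖ ≤ 2 / 10 ^ 12) :
    ∃ s' : Wd d →L[ℝ] Pt, ‖s'‖ ≤ 1 / 10 ^ 8 ∧ ∀ w, T w = - B (s' w) := by
  obtain ⟨a, ha⟩ : ∃ a, a = (B (1, 0)).1 := ⟨_, rfl⟩
  obtain ⟨c, hc⟩ : ∃ c, c = (B (1, 0)).2 := ⟨_, rfl⟩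
  obtain ⟨b, hb⟩ : ∃ b, b = (B (0, 1)).1 := ⟨_, rfl⟩
  obtain ⟨e, he⟩ : ∃ e, e = (B (0, 1)).2 := ⟨_, rfl⟩
  obtain ⟨D, hD⟩ : ∃ D, D = a * e - c * b := ⟨_, rfl⟩
  have hdet : det2 B = D := by unfold det2; rw [hD, ha, hb, hc, he]
  rw [hdet] at hd
  have hD0 : 0 < D := by linarith
  rw [← ha, ← hc] at h1
  rw [← hb, ← he] at h2
  have hinv : (1 : ℝ) / D ≤ 100 / 49 := by
    rw [div_le_div_iff₀ hD0 (by norm_num)]
    linarith
  have hinv0 : 0 < 1 / D := by positivity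
  let Bi : Pt →L[ℝ] Pt :=
    ((e / D) • ContinuousLinearMap.fst ℝ ℝ ℝ - (b / D) • ContinuousLinearMap.snd ℝ ℝ ℝ).prod
      ((a / D) • ContinuousLinearMap.snd ℝ ℝ ℝ - (c / D) • ContinuousLinearMap.fst ℝ ℝ ℝ)
  have hBi : ∀ r : Pt, Bi r = (e / D * r.1 - b / D * r.2, a / D * r.2 - c / D * r.1) := by
    intro r
    simp [Bi]
  have hBB : ∀ r : Pt, B (Bi r) = r := by
    intro r
    rw [db16_exp, hBi]
    ext
    · simp only [Prod.fst_add, Prod.smul_fst, smul_eq_mul, ← ha, ← hb]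
      field_simp
      rw [hD]
      ring
    · simp only [Prod.snd_add, Prod.smul_snd, smul_eq_mul, ← hc, ← he]
      field_simp
      rw [hD]
      ring
  have hBn : ∀ r : Pt, ‖Bi r‖ ≤ 2600 * ‖r‖ := by
    intro r
    rw [hBi, Prod.norm_def, Real.norm_eq_abs, Real.norm_eq_abs]
    have hr1 := db16_n1 r
    have hr2 := db16_n2 r
    have hr0 := norm_nonneg r
    apply max_le
    · have e1 : e / D * r.1 - b / D * r.2 = (e * r.1 - b * r.2) * (1 / D) := by ring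
      rw [e1, abs_mul, abs_of_pos hinv0]
      have e2 : |e * r.1 - b * r.2| ≤ 1252 * ‖r‖ := by
        calc |e * r.1 - b * r.2| ≤ |e * r.1| + |b * r.2| := abs_sub _ _
          _ = |e| * |r.1| + |b| * |r.2| := by rw [abs_mul, abs_mul]
          _ ≤ |e| * ‖r‖ + |b| * ‖r‖ := by gcongr
          _ = (|b| + |e|) * ‖r‖ := by ring
          _ ≤ 1252 * ‖r‖ := by gcongr
      calc |e * r.1 - b * r.2| * (1 / D) ≤ (1252 * ‖r‖) * (100 / 49) := by gcongr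
        _ ≤ 2600 * ‖r‖ := by nlinarith
    · have e1 : a / D * r.2 - c / D * r.1 = (a * r.2 - c * r.1) * (1 / D) := by ring
      rw [e1, abs_mul, abs_of_pos hinv0]
      have e2 : |a * r.2 - c * r.1| ≤ 1252 * ‖r‖ := by
        calc |a * r.2 - c * r.1| ≤ |a * r.2| + |c * r.1| := abs_sub _ _
          _ = |a| * |r.2| + |c| * |r.1| := by rw [abs_mul, abs_mul]
          _ ≤ |a| * ‖r‖ + |c| * ‖r‖ := by gcongr
          _ = (|a| + |c|) * ‖r‖ := by ring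
          _ ≤ 1252 * ‖r‖ := by gcongr
      calc |a * r.2 - c * r.1| * (1 / D) ≤ (1252 * ‖r‖) * (100 / 49) := by gcongr
        _ ≤ 2600 * ‖r‖ := by nlinarith
  refine ⟨-(Bi.comp T), ?_, ?_⟩
  · rw [norm_neg]
    apply ContinuousLinearMap.opNorm_le_bound _ (by norm_num)
    intro w
    have h3 : ‖T w‖ ≤ 2 / 10 ^ 12 * ‖w‖ := T.le_of_opNorm_le hT w
    have h4 := hBn (T w)
    have h5 := norm_nonneg w
    rw [ContinuousLinearMap.comp_apply]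
    calc ‖Bi (T w)‖ ≤ 2600 * ‖T w‖ := h4
      _ ≤ 2600 * (2 / 10 ^ 12 * ‖w‖) := by gcongr
      _ ≤ 1 / 10 ^ 8 * ‖w‖ := by nlinarith
  · intro w
    simp only [neg_apply, ContinuousLinearMap.comp_apply, map_neg, neg_neg]
    exact (hBB _).symm

/-- One step.

PROOF. D = fderiv g z, B = slp D s, T w = (D (0,w)).1 - s ((D (0,w)).2): ‖T w‖ ≤ e0 ‖w‖ + 1/10^8 * aw ‖w‖ ≤ 2/10^12 ‖w‖ (`hg.ww`).  `db16_lin` gives s' with T w = - B (s' w), and for u = (u.1,0) + (0,u.2):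
(D u).1 - s (D u).2 = B u.1 + T u.2 = B (u.1 - s' u.2).  Entries of B: (D (1,0)).1 - s ((D (1,0)).2) etc., ‖s ((D eX).2)‖ ≤ 1/10^8 e0 (`hg.wx`).  z ∈ VVd d i (`hg.close1`): entries within 2 e0 of
((1/pw,0),(0,qw)), det ≥ 6/10 - small ≥ 49/100 (1/pw * qw ≥ 5/4 * 499/1000).  z ∈ FFd d (`hg.fold1`, `hg.foldX`): entries within 2 e0 of ((-2 dd (x-xc), cc), (-1, 0)), |2 dd (x - xc)| ≤ 1250
(|x - xc| ≤ u0), det = 1/2 + error, error ≤ 1250 * 2 e0 + 2 * 2 e0 + .. ≤ 1/100. -/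
theorem quot_step (hg : NearD g) {z : En d} (hz : z ∈ Dd d) (s : Wd d →L[ℝ] Pt) (hs : ‖s‖ ≤ 1 / 10 ^ 8) :
    ∃ (B : Pt →L[ℝ] Pt) (s' : Wd d →L[ℝ] Pt), 0 < det2 B ∧ ‖s'‖ ≤ 1 / 10 ^ 8 ∧
      ∀ u : En d, (fderiv ℝ g z u).1 - s (fderiv ℝ g z u).2 = B (u.1 - s' u.2) := by
  obtain ⟨D, hD⟩ : ∃ D, D = fderiv ℝ g z := ⟨_, rfl⟩
  have hwx := hg.wx z hz
  have hww := hg.ww z hz
  rw [← hD] at hwx hww ⊢
  obtain ⟨T, hT⟩ : ∃ T : Wd d →L[ℝ] Pt, ∀ w, T w = (D (0, w)).1 - s (D (0, w)).2 :=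
    ⟨(((ContinuousLinearMap.fst ℝ Pt (Wd d)).comp D) -
      (s.comp ((ContinuousLinearMap.snd ℝ Pt (Wd d)).comp D))).comp
        (ContinuousLinearMap.inr ℝ Pt (Wd d)), fun w => by simp⟩
  have hTn : ‖T‖ ≤ 2 / 10 ^ 12 := by
    apply ContinuousLinearMap.opNorm_le_bound _ (by norm_num)
    intro w
    obtain ⟨h1, h2⟩ := hww w
    rw [hT]
    have h3 : ‖s (D (0, w)).2‖ ≤ 1 / 10 ^ 8 * (aw * ‖w‖) :=
      (s.le_of_opNorm_le hs _).trans (by gcongr)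
    have h4 := norm_sub_le (D (0, w)).1 (s (D (0, w)).2)
    have h5 := norm_nonneg w
    simp only [e0, aw] at h1 h3
    linarith
  have hB1 : slp D s (1, 0) = (D (eX d)).1 - s (D (eX d)).2 := slp_apply D s (1, 0)
  have hB2 : slp D s (0, 1) = (D (eY d)).1 - s (D (eY d)).2 := slp_apply D s (0, 1)
  have k1 : ‖s (D (eX d)).2‖ ≤ 1 / 10 ^ 8 * e0 := (s.le_of_opNorm_le hs _).trans (by gcongr; exact hwx.1)
  have k2 : ‖s (D (eY d)).2‖ ≤ 1 / 10 ^ 8 * e0 := (s.le_of_opNorm_le hs _).trans (by gcongr; exact hwx.2)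
  obtain ⟨p, hp⟩ : ∃ p, p = s (D (eX d)).2 := ⟨_, rfl⟩
  obtain ⟨q, hq⟩ : ∃ q, q = s (D (eY d)).2 := ⟨_, rfl⟩
  rw [← hp] at k1 hB1
  rw [← hq] at k2 hB2
  have p1 := abs_le.1 ((db16_n1 p).trans k1)
  have p2 := abs_le.1 ((db16_n2 p).trans k1)
  have q1 := abs_le.1 ((db16_n1 q).trans k2)
  have q2 := abs_le.1 ((db16_n2 q).trans k2)
  have key : |(slp D s (1, 0)).1| + |(slp D s (1, 0)).2| ≤ 1252 ∧
      |(slp D s (0, 1)).1| + |(slp D s (0, 1)).2| ≤ 1252 ∧ 49 / 100 ≤ det2 (slp D s) := by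
    have hdet : det2 (slp D s) = (slp D s (1, 0)).1 * (slp D s (0, 1)).2 -
      (slp D s (1, 0)).2 * (slp D s (0, 1)).1 := rfl
    rw [hdet, hB1, hB2]
    simp only [Prod.fst_sub, Prod.snd_sub]
    obtain ⟨A1, hA1⟩ : ∃ A1, A1 = (D (eX d)).1.1 := ⟨_, rfl⟩
    obtain ⟨A2, hA2⟩ : ∃ A2, A2 = (D (eX d)).1.2 := ⟨_, rfl⟩
    obtain ⟨A3, hA3⟩ : ∃ A3, A3 = (D (eY d)).1.1 := ⟨_, rfl⟩
    obtain ⟨A4, hA4⟩ : ∃ A4, A4 = (D (eY d)).1.2 := ⟨_, rfl⟩
    have strip : ∀ i, z ∈ VVd d i → |A1 - 1 / pw i| ≤ e0 ∧ |A2| ≤ e0 ∧ |A3| ≤ e0 ∧ |A4 - qw i| ≤ e0 := by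
      intro i hi
      have := hg.close1 i z hi
      rw [← hD] at this
      rw [hA1, hA2, hA3, hA4]
      exact this
    rw [← hA1, ← hA2, ← hA3, ← hA4]
    obtain ⟨x1, hx1⟩ : ∃ x1, x1 = A1 - p.1 := ⟨_, rfl⟩
    obtain ⟨x2, hx2⟩ : ∃ x2, x2 = A2 - p.2 := ⟨_, rfl⟩
    obtain ⟨x3, hx3⟩ : ∃ x3, x3 = A3 - q.1 := ⟨_, rfl⟩
    obtain ⟨x4, hx4⟩ : ∃ x4, x4 = A4 - q.2 := ⟨_, rfl⟩
    rw [← hx1, ← hx2, ← hx3, ← hx4]
    simp only [e0] at p1 p2 q1 q2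
    have stripG : ∀ i, z ∈ VVd d i → |x1| + |x2| ≤ 1252 ∧ |x3| + |x4| ≤ 1252 ∧
        49 / 100 ≤ x1 * x4 - x2 * x3 := by
      intro i hi
      obtain ⟨c1, c2, c3, c4⟩ := strip i hi
      rw [abs_le] at c1 c2 c3 c4
      simp only [e0] at c1 c2 c3 c4
      have y2 : |x2| ≤ 2 / 10 ^ 12 := by
        rw [abs_le]; constructor <;> linarith [c2.1, c2.2, p2.1, p2.2]
      have y3 : |x3| ≤ 2 / 10 ^ 12 := by
        rw [abs_le]; constructor <;> linarith [c3.1, c3.2, q1.1, q1.2]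
      have y23 : |x2 * x3| ≤ 2 / 10 ^ 12 * (2 / 10 ^ 12) := by
        rw [abs_mul]; gcongr
      have y23' := (abs_le.1 y23).2
      have hpq : (6 / 5 : ℝ) ≤ x1 ∧ x1 ≤ 6 ∧ (49 / 100 : ℝ) ≤ x4 ∧ x4 ≤ 1 := by
        cases i <;> simp only [pw, qw] at c1 c4 <;> norm_num at c1 c4 <;>
          refine ⟨?_, ?_, ?_, ?_⟩ <;> linarith [c1.1, c1.2, c4.1, c4.2, p1.1, p1.2, q2.1, q2.2]
      obtain ⟨z1, z2, z3, z4⟩ := hpq
      refine ⟨?_, ?_, ?_⟩
      · rw [abs_of_pos (by linarith : 0 < x1)]; linarith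
      · rw [abs_of_pos (by linarith : 0 < x4)]; linarith
      · have : (6 / 5 : ℝ) * (49 / 100) ≤ x1 * x4 := by gcongr
        linarith
    rcases hz with (hz | hz) | hz
    · exact stripG _ hz
    · exact stripG _ hz
    · have f1 := hg.fold1 z hz
      have f2 := hg.foldX z hz
      rw [← hD, ← hA3, ← hA4] at f1
      rw [← hD, ← hA1, ← hA2] at f2
      obtain ⟨⟨hz1, -⟩, -⟩ := hz
      simp only [mem_Icc, xc, u0] at hz1
      obtain ⟨t, ht⟩ : ∃ t, t = z.1.1 - xc := ⟨_, rfl⟩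
      rw [← ht] at f2
      have ht1 : -(1 / 4000) ≤ t ∧ t ≤ 1 / 4000 := by
        simp only [xc] at ht
        constructor <;> linarith [hz1.1, hz1.2]
      simp only [e0, cc, dd] at f1 f2
      rw [abs_le, abs_le] at f1 f2
      obtain ⟨⟨f11, f12⟩, f13, f14⟩ := f1
      obtain ⟨⟨f21, f22⟩, f23, f24⟩ := f2
      have y1 : |x1| ≤ 1250 + 1 / 100 := by
        rw [abs_le]; constructor <;> linarith [p1.1, p1.2, ht1.1, ht1.2]
      have y2 : x2 ≤ -1 + 2 / 10 ^ 12 ∧ -1 - 2 / 10 ^ 12 ≤ x2 := by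
        constructor <;> linarith [p2.1, p2.2]
      have y3 : x3 ≤ 1 / 2 + 2 / 10 ^ 12 ∧ 1 / 2 - 2 / 10 ^ 12 ≤ x3 := by
        constructor <;> linarith [q1.1, q1.2]
      have y4 : |x4| ≤ 2 / 10 ^ 12 := by
        rw [abs_le]; constructor <;> linarith [q2.1, q2.2]
      have y2' : |x2| ≤ 101 / 100 := by
        rw [abs_le]; constructor <;> linarith [y2.1, y2.2]
      have y3' : |x3| ≤ 1 := by
        rw [abs_le]; constructor <;> linarith [y3.1, y3.2]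
      refine ⟨by linarith, by linarith, ?_⟩
      have m1 : |x1 * x4| ≤ (1250 + 1 / 100) * (2 / 10 ^ 12) := by
        rw [abs_mul]; gcongr
      have m2 := (abs_le.1 m1).1
      have m3 : (999 / 1000 : ℝ) * (499 / 1000) ≤ (-x2) * x3 :=
        mul_le_mul (by linarith [y2.1]) (by linarith [y3.2]) (by norm_num) (by linarith [y2.1])
      linarith
  obtain ⟨s', hs', hTs⟩ := db16_lin (slp D s) T key.1 key.2.1 key.2.2 hTn
  refine ⟨slp D s, s', by linarith [key.2.2], hs', fun u => ?_⟩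
  have hu : u = ((u.1, 0) : En d) + ((0, u.2) : En d) := by
    ext <;> simp
  have e1 : D u = D (u.1, 0) + D (0, u.2) := by
    conv_lhs => rw [hu]
    rw [map_add]
  have e2 := hT u.2
  rw [hTs] at e2
  rw [map_sub, slp_apply, e1, Prod.fst_add, Prod.snd_add, map_add]
  have e3 : -(slp D s) (s' u.2) = (D (0, u.2)).1 - s (D (0, u.2)).2 := e2
  rw [sub_eq_add_neg ((D (u.1, 0)).1 - s (D (u.1, 0)).2), e3]
  abel

/-- PROOF. Induction on n (`Function.iterate_succ'`: g^[n+1] = g ∘ g^[n]).  For w near z: g^[j] w ∈ V for j < n+1 (g^[n] is continuous at z, V is open), g^[n] is smooth at w and g is smooth at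
g^[n] w ∈ V ⊆ Dd d (`hg.smooth`: V ⊆ O, O open). -/
theorem NearD.iter (hg : NearD g) {V : Set (En d)} (hV : IsOpen V) (hVD : V ⊆ Dd d) (n : ℕ) {z : En d}
    (hz : ∀ j < n, g^[j] z ∈ V) :
    ∀ᶠ w in 𝓝 z, ContDiffAt ℝ ∞ (g^[n]) w ∧ ∀ j < n, g^[j] w ∈ V := by
  obtain ⟨O, hO, hsub, hs, -, -⟩ := hg.smooth
  have hcd : ∀ w ∈ V, ContDiffAt ℝ ∞ g w := fun w hw =>
    hs.contDiffAt (hO.mem_nhds (hsub (hVD hw)))
  induction n with
  | zero =>
    refine Eventually.of_forall fun w => ⟨?_, fun j hj => absurd hj (Nat.not_lt_zero j)⟩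
    exact contDiffAt_id
  | succ n ih =>
    have ih' := ih fun j hj => hz j (hj.trans (Nat.lt_succ_self n))
    have hc : ContinuousAt (g^[n]) z := ih'.self_of_nhds.1.continuousAt
    have hV' : ∀ᶠ w in 𝓝 z, g^[n] w ∈ V :=
      hc.eventually_mem (hV.mem_nhds (hz n (Nat.lt_succ_self n)))
    filter_upwards [ih', hV'] with w hw hw'
    refine ⟨?_, fun j hj => ?_⟩
    · rw [Function.iterate_succ']
      exact (hcd _ hw').comp w hw.1
    · rcases Nat.lt_succ_iff_lt_or_eq.1 hj with h | rfl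
      · exact hw.2 j h
      · exact hw'

theorem db16_gd (hg : NearD g) {w : En d} (hw : w ∈ Omd d) : DifferentiableAt ℝ g w := by
  obtain ⟨O, hO, hsub, hs, -, -⟩ := hg.smooth
  exact (hs.contDiffAt (hO.mem_nhds (hsub (Omd_sub_Dd hw)))).differentiableAt (by simp)

theorem db16_gnd (hg : NearD g) {n : ℕ} {z : En d} (hz : ∀ j < n, g^[j] z ∈ Omd d) :
    DifferentiableAt ℝ (g^[n]) z :=
  ((hg.iter isOpen_Omd Omd_sub_Dd n hz).self_of_nhds.1).differentiableAt (by simp)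

/-- PROOF. Induction on n: g^[n+1] = g ∘ g^[n], fderiv g (g^[n] z) ∘ fderiv (g^[n]) z; `quot_step` at g^[n] z ∈ Dd d gives B, s'; the induction hypothesis for s' gives B', s''; B ∘ B', `det2_comp`. -/
theorem quot_iter (hg : NearD g) {n : ℕ} {z : En d} (hz : ∀ j < n, g^[j] z ∈ Omd d) (s : Wd d →L[ℝ] Pt)
    (hs : ‖s‖ ≤ 1 / 10 ^ 8) :
    ∃ (B : Pt →L[ℝ] Pt) (s' : Wd d →L[ℝ] Pt), 0 < det2 B ∧ ‖s'‖ ≤ 1 / 10 ^ 8 ∧
      ∀ u : En d, (fderiv ℝ (g^[n]) z u).1 - s (fderiv ℝ (g^[n]) z u).2 = B (u.1 - s' u.2) := by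
  induction n generalizing s with
  | zero =>
    refine ⟨ContinuousLinearMap.id ℝ Pt, s, by simp [det2], hs, fun u => ?_⟩
    have : fderiv ℝ (g^[0]) z = ContinuousLinearMap.id ℝ (En d) := by
      simp only [Function.iterate_zero]
      exact fderiv_id
    rw [this]
    rfl
  | succ n ih =>
    have hz' : ∀ j < n, g^[j] z ∈ Omd d := fun j hj => hz j (hj.trans (Nat.lt_succ_self n))
    have hzn := hz n (Nat.lt_succ_self n)
    have hd1 := db16_gd hg hzn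
    have hd2 := db16_gnd hg hz'
    obtain ⟨B, s', b1, b2, b3⟩ := quot_step hg (Omd_sub_Dd hzn) s hs
    obtain ⟨B', s'', b4, b5, b6⟩ := ih hz' s' b2
    refine ⟨B.comp B', s'', ?_, b5, fun u => ?_⟩
    · rw [det2_comp]
      exact mul_pos b1 b4
    · have h3 : fderiv ℝ (g^[n + 1]) z u = fderiv ℝ g (g^[n] z) (fderiv ℝ (g^[n]) z u) := by
        rw [Function.iterate_succ', fderiv_comp z hd1 hd2]
        rfl
      rw [h3, b3, b6]
      rfl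

/-- The planar minor of the composition is positive.

PROOF. K = fderiv κ v, D = fderiv (g^[n]) (κ v), C = fderiv c (..).  Chain rule: the derivative of the composition is C ∘ D ∘ K.  For z : Pt: (C (D (K (z,0)))).1 = B ((D u).1 - s (D u).2) with u = K (z,0),
= B (B' (u.1 - s' u.2)) (`quot_iter`) = B (B' (slp K s' z)) (`slp_apply`).  So the planar block is B ∘ B' ∘ slp K s', det2 > 0 by `det2_comp` and h1. -/
theorem quot_pjac (hg : NearD g) {n : ℕ} {κ c : En d → En d} {v : En d} (hκ : DifferentiableAt ℝ κ v)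
    (h1 : ∀ s : Wd d →L[ℝ] Pt, ‖s‖ ≤ 1 / 10 ^ 8 → 0 < det2 (slp (fderiv ℝ κ v) s))
    (hz : ∀ j < n, g^[j] (κ v) ∈ Omd d) (hc : DifferentiableAt ℝ c (g^[n] (κ v)))
    (h2 : ∃ (B : Pt →L[ℝ] Pt) (s : Wd d →L[ℝ] Pt), 0 < det2 B ∧ ‖s‖ ≤ 1 / 10 ^ 8 ∧
      ∀ u : En d, (fderiv ℝ c (g^[n] (κ v)) u).1 = B (u.1 - s u.2)) :
    0 < pjac (fun v' => c (g^[n] (κ v'))) v := by
  have hd := db16_gnd hg hz
  obtain ⟨B, s, b1, b2, b3⟩ := h2
  obtain ⟨B', s', b4, b5, b6⟩ := quot_iter hg hz s b2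
  have hK := h1 s' b5
  have hch : ∀ u, fderiv ℝ (fun v' => c (g^[n] (κ v'))) v u =
      fderiv ℝ c (g^[n] (κ v)) (fderiv ℝ (g^[n]) (κ v) (fderiv ℝ κ v u)) := by
    intro u
    have e1 : (fun v' => c (g^[n] (κ v'))) = c ∘ (g^[n] ∘ κ) := rfl
    rw [e1, fderiv_comp v (g := c) (f := g^[n] ∘ κ) hc (hd.comp v hκ),
      fderiv_comp v (g := g^[n]) (f := κ) hd hκ]
    rfl
  have hM : ∀ x : Pt, (fderiv ℝ (fun v' => c (g^[n] (κ v'))) v (x, 0)).1 =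
      (B.comp (B'.comp (slp (fderiv ℝ κ v) s'))) x := by
    intro x
    rw [hch, b3, b6]
    simp only [ContinuousLinearMap.comp_apply]
    rw [slp_apply]
  have hdet : pjac (fun v' => c (g^[n] (κ v'))) v =
      det2 (B.comp (B'.comp (slp (fderiv ℝ κ v) s'))) := by
    unfold pjac planar det2
    rw [hM, hM]
  rw [hdet, det2_comp, det2_comp]
  exact mul_pos b1 (mul_pos b4 hK)

end Pool.Agent.Lib.H37D
end

-- from Lib.H37D.DB16b
section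

/-! # H37D, chunk DB16b (M): the horizontal cone (port of the cone part of H37N/B16.lean) -/

open Set Filter Topology
open scoped ContDiff

namespace Pool.Agent.Lib.H37D

open Pool.Agent.Lib.H37N

variable {d : ℕ} {g : En d → En d}

/-- the horizontal cone -/
def HCone (u : En d) : Prop := |u.1.2| ≤ |u.1.1| / 2 ∧ ‖u.2‖ ≤ |u.1.1| / 2

/-- PROOF. ‖u‖ = |u.1.1|.  `NearD.deriv_apply`: |(Dg u).1.1| ≥ |u.1.1| / pw - 3 e0 |u.1.1| ≥ (5/4 - 3 e0) |u.1.1|; the other components are ≤ (1/4 + 3 e0) |u.1.1|. -/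
theorem cone_mapD (hg : NearD g) {i : Sy} {z : En d} (hz : z ∈ VVd d i) {u : En d} (hu : HCone u) :
    HCone (fderiv ℝ g z u) ∧ 6 / 5 * |u.1.1| ≤ |(fderiv ℝ g z u).1.1| := by
  obtain ⟨hu1, hu2⟩ := hu
  have hu0 := abs_nonneg u.1.1
  have hn : ‖u‖ = |u.1.1| := by
    rw [Prod.norm_def, Prod.norm_def, Real.norm_eq_abs, Real.norm_eq_abs]
    rw [max_eq_left (a := |u.1.1|) (b := |u.1.2|) (by linarith)]
    exact max_eq_left (by linarith)
  obtain ⟨h1, h2, h7⟩ := hg.deriv_apply hz u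
  rw [hn] at h1 h2 h7
  have hp : 0 < pw i ∧ pw i ≤ 4 / 5 := by cases i <;> norm_num [pw]
  have hq : 0 < qw i ∧ qw i ≤ 1 / 2 := by cases i <;> norm_num [qw]
  have h3 : 5 / 4 * |u.1.1| ≤ |u.1.1 / pw i| := by
    rw [abs_div, abs_of_pos hp.1, le_div_iff₀ hp.1]
    nlinarith
  have h4 : |qw i * u.1.2| ≤ 1 / 4 * |u.1.1| := by
    rw [abs_mul, abs_of_pos hq.1]
    nlinarith [abs_nonneg u.1.2]
  have h5 := abs_sub_abs_le_abs_sub (u.1.1 / pw i) (fderiv ℝ g z u).1.1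
  rw [abs_sub_comm] at h5
  have h6 := abs_sub_abs_le_abs_sub (fderiv ℝ g z u).1.2 (qw i * u.1.2)
  simp only [e0, aw] at h1 h2 h7
  refine ⟨⟨?_, ?_⟩, ?_⟩ <;> linarith

/-- PROOF. Induction on n, chain rule, `cone_mapD` (a point of VOD d is in VVd d P or VVd d Q). -/
theorem cone_iterD (hg : NearD g) (n : ℕ) {z : En d} (hz : ∀ j < n, g^[j] z ∈ VOD d) {u : En d} (hu : HCone u) :
    HCone (fderiv ℝ (g^[n]) z u) ∧ (6 / 5) ^ n * |u.1.1| ≤ |(fderiv ℝ (g^[n]) z u).1.1| := by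
  induction n with
  | zero =>
    simp only [Function.iterate_zero]
    rw [fderiv_id]
    simpa using hu
  | succ n ih =>
    have hz' : ∀ j < n, g^[j] z ∈ VOD d := fun j hj => hz j (hj.trans (Nat.lt_succ_self n))
    have h2 := hz n (Nat.lt_succ_self n)
    have h1 : DifferentiableAt ℝ (g^[n]) z := db16_gnd hg fun j hj => VOD_sub_Omd (hz' j hj)
    obtain ⟨i, hi⟩ : ∃ i, g^[n] z ∈ VVd d i := by
      obtain ⟨h5, h6⟩ := h2
      have h6' : (g^[n] z).2 ∈ BW d := Metric.ball_subset_closedBall h6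
      rcases h5 with h | h
      · exact ⟨_, interior_subset h, h6'⟩
      · exact ⟨_, interior_subset h, h6'⟩
    obtain ⟨a, b⟩ := ih hz'
    have h3 : fderiv ℝ (g^[n + 1]) z u = fderiv ℝ g (g^[n] z) (fderiv ℝ (g^[n]) z u) := by
      rw [Function.iterate_succ', fderiv_comp z (db16_gd hg (VOD_sub_Omd h2)) h1]
      rfl
    rw [h3]
    obtain ⟨c, e⟩ := cone_mapD hg hi a
    refine ⟨c, le_trans ?_ e⟩
    rw [pow_succ]
    nlinarith

end Pool.Agent.Lib.H37D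
end
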