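import Pool.Agent.Lib.H1M.FF.M004
import Pool.Agent.Lib.H1M.FF.M006
import Pool.Agent.Lib.H1M.FF.M009
import Pool.Agent.Lib.H1M.FF.M012
import Pool.Agent.Lib.H1M.FF.M013
import Pool.Agent.Lib.H1M.FF.M019

/-! Merged copies (to shorten the build) of Lib.H37C.C4, Lib.H37C.C5, Lib.H37D.DK7, Lib.H37C.E1, Lib.H37C.D2, Lib.H37N.MK1, Lib.H37D.KDefs, Lib.H37D.DK1, Lib.H37N.MK8, Lib.H37D.KT8. -/

-- from Lib.H37C.C4
section

open TopologicalSpace Set Filter Topology

namespace Pool.Agent.Lib.H37C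

/-- **C4.** The normalized map in a gap is an increasing homeomorphism: `y ↦ y + c * bmp y` is
strictly increasing if `c * bmp` is Lipschitz with constant `1/2`, continuous, and the identity
outside `(0,1)`, so surjective. -/
theorem exists_gapIso {c : ℝ} (hlip : ∀ y y' : ℝ, |c * bmp y - c * bmp y'| ≤ 1 / 2 * |y - y'|) :
    ∃ U : ℝ ≃o ℝ, ∀ y, U y = y + c * bmp y := by
  have hm : StrictMono (fun y => y + c * bmp y) := by
    intro x y hxy
    have h1 := hlip y x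
    have h2 := neg_abs_le (c * bmp y - c * bmp x)
    rw [abs_of_pos (by linarith : (0 : ℝ) < y - x)] at h1
    show x + c * bmp x < y + c * bmp y
    linarith
  have hc : Continuous (fun y => y + c * bmp y) := by
    have := bmp_contDiff.continuous
    fun_prop
  have hout : ∀ y ∉ Ioo (0 : ℝ) 1, y + c * bmp y = y := by
    intro y hy
    rw [bmp_zero hy, mul_zero, add_zero]
  have hs : Function.Surjective (fun y => y + c * bmp y) := by
    refine hc.surjective ?_ ?_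
    · refine tendsto_id.congr' ?_
      filter_upwards [eventually_ge_atTop (1 : ℝ)] with x hx
      exact (hout x (fun h => absurd h.2 (not_lt.2 hx))).symm
    · refine tendsto_id.congr' ?_
      filter_upwards [eventually_le_atBot (0 : ℝ)] with x hx
      exact (hout x (fun h => absurd h.1 (not_lt.2 hx))).symm
  exact ⟨StrictMono.orderIsoOfSurjective _ hm hs, fun y => rfl⟩

variable {lt lt' : ℕ → ℕ → Prop} [IsStrictTotalOrder ℕ lt] [IsStrictTotalOrder ℕ lt']

/-- **C4, second part.** Isomorphic orders give conjugate maps of the interval.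

Proof. For each `i` let `U i y = y + (δ * eps n i / wt i) * bmp y` (`exists_gapIso`; the Lipschitz
condition from `eps_lip'` and `δ ≤ 1`), and `G i` a conjugacy from `U i` to `U (π i)` (`gap_conj`,
`bmp_pos`, `bmp_zero`), `φ` from `glue`. In the gap `i`, `r = lend lt i + wt i * y`, `y ∈ [0,1]`, we
have `r + δ * vv n lt r = lend lt i + wt i * U i y` (`vv_gap`) with `U i y ∈ [0,1]`, and so
`φ (r + δ * vv n lt r) = lend lt' (π i) + wt (π i) * G i (U i y) = lend lt' (π i) + wt (π i) *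
U (π i) (G i y) = φ r + δ * vv n lt' (φ r)` (`vv_gap` again, `G i y ∈ [0,1]`). If `r` is in no closed
gap and in `[0,1]` then `r ∈ Kset lt`, `φ r ∈ Kset lt'` and both height functions vanish
(`vv_eq_zero_iff`); if `r ∉ (0,1)`, `vv_out`. -/
theorem conj_line (n : ℕ) (π : lt ≃r lt') {δ : ℝ} (h0 : 0 < δ) (h1 : δ ≤ 1) :
    ∃ φ : ℝ ≃o ℝ, (∀ r ∉ Ioo (0 : ℝ) 1, φ r = r) ∧
      ∀ r, φ (r + δ * vv n lt r) = φ r + δ * vv n lt' (φ r) := by
  have hU : ∀ i, ∃ U : ℝ ≃o ℝ, ∀ y, U y = y + (δ * eps n i / wt i) * bmp y := by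
    intro i
    apply exists_gapIso
    intro y y'
    have hw := wt_pos i
    have h2 := eps_lip' n i y y'
    have h3 : δ * eps n i / wt i * bmp y - δ * eps n i / wt i * bmp y' =
        (δ / wt i) * (eps n i * bmp y - eps n i * bmp y') := by ring
    rw [h3, abs_mul, abs_of_pos (div_pos h0 hw)]
    calc δ / wt i * |eps n i * bmp y - eps n i * bmp y'|
        ≤ δ / wt i * (wt i / 2 * |y - y'|) :=
          mul_le_mul_of_nonneg_left h2 (div_pos h0 hw).le
      _ = δ / 2 * |y - y'| := by field_simp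
      _ ≤ 1 / 2 * |y - y'| := by
          apply mul_le_mul_of_nonneg_right _ (abs_nonneg _)
          linarith
  choose U hU using hU
  have hU0 : ∀ i, ∀ y ∉ Ioo (0 : ℝ) 1, U i y = y := fun i y hy => by
    rw [hU, bmp_zero hy, mul_zero, add_zero]
  have hU1 : ∀ i, ∀ y ∈ Ioo (0 : ℝ) 1, y < U i y := fun i y hy => by
    rw [hU]
    have := mul_pos (div_pos (mul_pos h0 (eps_pos n i)) (wt_pos i)) (bmp_pos hy)
    linarith
  have hG := fun i => gap_conj (U i) (U (π i)) (hU0 i) (hU1 i) (hU0 (π i)) (hU1 (π i))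
  choose G hG0 hG1 using hG
  obtain ⟨φ, hφ1, hφ2, hφ3⟩ := glue π G hG0
  refine ⟨φ, hφ1, fun r => ?_⟩
  have hGm : ∀ i, ∀ y ∈ Icc (0 : ℝ) 1, G i y ∈ Icc (0 : ℝ) 1 := fun i y hy => by
    have e0 : G i 0 = 0 := hG0 i 0 (by simp)
    have e1 : G i 1 = 1 := hG0 i 1 (by simp)
    exact ⟨e0 ▸ (G i).monotone hy.1, e1 ▸ (G i).monotone hy.2⟩
  have hUm : ∀ i, ∀ y ∈ Icc (0 : ℝ) 1, U i y ∈ Icc (0 : ℝ) 1 := fun i y hy => by
    have e0 : U i 0 = 0 := hU0 i 0 (by simp)
    have e1 : U i 1 = 1 := hU0 i 1 (by simp)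
    exact ⟨e0 ▸ (U i).monotone hy.1, e1 ▸ (U i).monotone hy.2⟩
  by_cases hr : ∃ i, lend lt i < r ∧ r < lend lt i + wt i
  · obtain ⟨i, hi1, hi2⟩ := hr
    have hw := wt_pos i
    obtain ⟨y, hy, rfl⟩ : ∃ y ∈ Icc (0 : ℝ) 1, r = lend lt i + wt i * y := by
      refine ⟨(r - lend lt i) / wt i, ⟨div_nonneg (by linarith) hw.le, ?_⟩, ?_⟩
      · rw [div_le_one hw]; linarith
      · field_simp
        ring
    rw [vv_gap n i hy]
    have h2 : lend lt i + wt i * y + δ * (eps n i * bmp y) = lend lt i + wt i * U i y := by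
      rw [hU]
      field_simp
      ring
    rw [h2, hφ2 i _ (hUm i y hy), hφ2 i y hy, vv_gap n (π i) (hGm i y hy), hG1, hU]
    have := wt_pos (π i)
    field_simp
    ring
  · have hd : ∀ i, r ≤ lend lt i ∨ lend lt i + wt i ≤ r := by
      intro i
      by_contra h
      push Not at h
      exact hr ⟨i, h.1, h.2⟩
    rw [vv_zero n hd, mul_zero, add_zero]
    by_cases hr01 : r ∈ Ioo (0 : ℝ) 1
    · have h1 : r ∈ Kset lt := ⟨hr01.1.le, hr01.2.le, hd⟩
      have h2 := hφ3 r h1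
      rw [vv_zero n h2.2.2, mul_zero, add_zero]
    · rw [hφ1 r hr01, vv_out n hr01, mul_zero, add_zero]

end Pool.Agent.Lib.H37C
end

-- from Lib.H37C.C5
section

open TopologicalSpace Set Filter Topology
open Pool.Agent.Lib.Helper37.ConjBorel

namespace Pool.Agent.Lib.H37C

/-- the radial map -/
noncomputable def c5_map {n : ℕ} (φ : ℝ ≃o ℝ) (x : Euc n) : Euc n :=
  ((φ (‖x‖ - 1) + 1) * ‖x‖⁻¹) • x

theorem c5_zero {n : ℕ} (φ : ℝ ≃o ℝ) : c5_map φ (0 : Euc n) = 0 := by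
  simp [c5_map]

theorem c5_small {n : ℕ} {φ : ℝ ≃o ℝ} (hφ : ∀ r ∉ Ioo (0 : ℝ) 1, φ r = r) {x : Euc n}
    (hx : ‖x‖ ∉ Ioo (1 : ℝ) 2) : c5_map φ x = x := by
  by_cases h0 : x = 0
  · rw [h0, c5_zero]
  · have h1 : φ (‖x‖ - 1) = ‖x‖ - 1 := hφ _ (fun h => hx ⟨by linarith [h.1], by linarith [h.2]⟩)
    have h2 : ‖x‖ ≠ 0 := norm_ne_zero_iff.2 h0
    unfold c5_map
    rw [h1, sub_add_cancel, mul_inv_cancel₀ h2, one_smul]

theorem c5_pos {n : ℕ} {φ : ℝ ≃o ℝ} (hφ : ∀ r ∉ Ioo (0 : ℝ) 1, φ r = r) {x : Euc n}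
    (hx : x ≠ 0) : 0 < φ (‖x‖ - 1) + 1 := by
  have h1 : φ (-1) = -1 := hφ _ (by simp)
  have h2 : (-1 : ℝ) < ‖x‖ - 1 := by
    have := norm_pos_iff.2 hx
    linarith
  have := φ.strictMono h2
  linarith

theorem c5_norm {n : ℕ} {φ : ℝ ≃o ℝ} (hφ : ∀ r ∉ Ioo (0 : ℝ) 1, φ r = r) (x : Euc n) :
    ‖c5_map φ x‖ = φ (‖x‖ - 1) + 1 := by
  by_cases h0 : x = 0
  · rw [h0, c5_zero, norm_zero, zero_sub, hφ (-1) (by simp)]
    ring
  · have h1 := c5_pos hφ h0
    have h2 : ‖x‖ ≠ 0 := norm_ne_zero_iff.2 h0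
    unfold c5_map
    rw [norm_smul, Real.norm_eq_abs, abs_of_nonneg (mul_nonneg h1.le (inv_nonneg.2 (norm_nonneg _))),
      mul_assoc, inv_mul_cancel₀ h2, mul_one]

theorem c5_inv {n : ℕ} {φ : ℝ ≃o ℝ} (hφ : ∀ r ∉ Ioo (0 : ℝ) 1, φ r = r) (x : Euc n) :
    c5_map φ.symm (c5_map φ x) = x := by
  by_cases h0 : x = 0
  · rw [h0, c5_zero, c5_zero]
  · have h1 := c5_pos hφ h0
    have h2 : ‖x‖ ≠ 0 := norm_ne_zero_iff.2 h0
    have h3 : φ.symm (‖c5_map φ x‖ - 1) = ‖x‖ - 1 := by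
      rw [c5_norm hφ, add_sub_cancel_right, φ.symm_apply_apply]
    rw [c5_map, h3, c5_norm hφ, c5_map, smul_smul, sub_add_cancel]
    have : ‖x‖ * (φ (‖x‖ - 1) + 1)⁻¹ * ((φ (‖x‖ - 1) + 1) * ‖x‖⁻¹) = 1 := by
      field_simp
    rw [this, one_smul]

theorem c5_cont {n : ℕ} {φ : ℝ ≃o ℝ} (hφ : ∀ r ∉ Ioo (0 : ℝ) 1, φ r = r) :
    Continuous (c5_map φ : Euc n → Euc n) := by
  rw [continuous_iff_continuousAt]
  intro x
  by_cases h0 : x = 0
  · subst h0
    refine continuousAt_id.congr ?_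
    have h1 : ∀ᶠ x : Euc n in 𝓝 0, ‖x‖ < 1 := by
      have := (continuous_norm (E := Euc n)).continuousAt (x := 0)
      exact this.eventually (by simpa using gt_mem_nhds (show (0 : ℝ) < 1 by norm_num))
    filter_upwards [h1] with x hx
    exact (c5_small hφ (fun h => absurd h.1 (not_lt.2 hx.le))).symm
  · have h2 : ‖x‖ ≠ 0 := norm_ne_zero_iff.2 h0
    unfold c5_map
    have h3 : Continuous fun x : Euc n => φ (‖x‖ - 1) + 1 := by
      have := φ.continuous
      fun_prop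
    exact (h3.continuousAt.mul (continuous_norm.continuousAt.inv₀ h2)).smul continuousAt_id

/-- **C5.** Radial homeomorphisms.

Proof: `φ` is continuous (`OrderIso.continuous`) and maps `[-1, ∞)` to itself. The map
`Φ x = ((φ (‖x‖ - 1) + 1) * ‖x‖⁻¹) • x` is continuous at `x ≠ 0` and it is the identity near `0`
(for `0 < ‖x‖ < 1`, `φ (‖x‖ - 1) = ‖x‖ - 1`; `Φ 0 = 0`). Its norm is `φ (‖x‖ - 1) + 1`. The inverse is
the same map for `φ.symm`. -/
theorem exists_radial {n : ℕ} (φ : ℝ ≃o ℝ) (hφ : ∀ r ∉ Ioo (0 : ℝ) 1, φ r = r) :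
    ∃ Φ : Euc n ≃ₜ Euc n, ∀ x, Φ x = ((φ (‖x‖ - 1) + 1) * ‖x‖⁻¹) • x := by
  have hφ' : ∀ r ∉ Ioo (0 : ℝ) 1, φ.symm r = r := fun r hr => by
    rw [φ.symm_apply_eq, hφ r hr]
  exact ⟨{ toFun := c5_map φ
           invFun := c5_map φ.symm
           left_inv := c5_inv hφ
           right_inv := fun x => c5_inv (φ := φ.symm) hφ' x
           continuous_toFun := c5_cont hφ
           continuous_invFun := c5_cont hφ' }, fun x => rfl⟩

variable {lt lt' : ℕ → ℕ → Prop} [IsStrictTotalOrder ℕ lt] [IsStrictTotalOrder ℕ lt']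

/-- **C5, second part.** Isomorphic orders give conjugate maps `psi` of the Euclidean space.

Proof: `conj_line` and `exists_radial`; for `x ≠ 0` compare norms and directions: by `psi_eq`,
`norm_psi`, `Φ (psi lt δ x)` is `x / ‖x‖` times `φ (‖x‖ - 1 + δ * vv n lt (‖x‖ - 1)) + 1` and
`psi lt' δ (Φ x)` is `x / ‖x‖` times `φ (‖x‖ - 1) + 1 + δ * vv n lt' (φ (‖x‖ - 1))`. If `‖x‖ ≥ 2` or
`‖x‖ ≤ 1` then `Φ x = x`. -/
theorem conj_space (n : ℕ) (π : lt ≃r lt') {δ : ℝ} (h0 : 0 < δ) (h1 : δ ≤ 1) :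
    ∃ Φ : Euc n ≃ₜ Euc n, (∀ x, 2 ≤ ‖x‖ → Φ x = x) ∧
      ∀ x, Φ (psi lt δ x) = psi lt' δ (Φ x) := by
  obtain ⟨φ, hφ1, hφ2⟩ := conj_line n π h0 h1
  obtain ⟨Φ, hΦ⟩ := exists_radial (n := n) φ hφ1
  have hΦ' : ∀ x, Φ x = c5_map φ x := hΦ
  refine ⟨Φ, fun x hx => ?_, fun x => ?_⟩
  · rw [hΦ', c5_small hφ1 (fun h => absurd h.2 (not_lt.2 hx))]
  · by_cases hx : x = 0
    · subst hx
      have e1 : psi lt δ (0 : Euc n) = 0 := by rw [psi_eq]; simp
      have e2 : psi lt' δ (0 : Euc n) = 0 := by rw [psi_eq]; simp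
      rw [e1, hΦ', c5_zero, e2]
    · have hn : ‖x‖ ≠ 0 := norm_ne_zero_iff.2 hx
      have hp : 0 < ‖x‖ := norm_pos_iff.2 hx
      have hv := vv_nonneg n (lt := lt) (‖x‖ - 1)
      have hpos := c5_pos hφ1 hx
      have hψ : ‖x‖ + δ * vv n lt (‖x‖ - 1) ≠ 0 := by
        have := mul_nonneg h0.le hv
        linarith
      have hL : Φ (psi lt δ x) =
          ((φ (‖x‖ - 1) + δ * vv n lt' (φ (‖x‖ - 1)) + 1) * ‖x‖⁻¹) • x := by
        rw [hΦ', c5_map, norm_psi h0.le]
        have e1 : ‖x‖ + δ * vv n lt (‖x‖ - 1) - 1 = (‖x‖ - 1) + δ * vv n lt (‖x‖ - 1) := by ring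
        rw [e1, hφ2, psi_eq, smul_smul]
        congr 1
        field_simp
      have hN := c5_norm hφ1 x
      have hR : psi lt' δ (Φ x) =
          ((φ (‖x‖ - 1) + δ * vv n lt' (φ (‖x‖ - 1)) + 1) * ‖x‖⁻¹) • x := by
        rw [hΦ', psi_eq, hN, add_sub_cancel_right, c5_map, smul_smul]
        congr 1
        have := hpos.ne'
        field_simp
        ring
      rw [hL, hR]

end Pool.Agent.Lib.H37C
end

-- from Lib.H37D.DK7
section

/-!
# H37D DK7 (port of H37N MK7): maps close to the model are near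
-/

open Set Filter Topology
open scoped ContDiff

namespace Pool.Agent.Lib.H37D

open Pool.Agent.Lib.H37N

variable {d : ℕ}

/-- the model on the strips -/
noncomputable def AffD (d : ℕ) (i : Sy) (z : En d) : En d := (Aff i z.1, mulw (awk d) z.2)

/-- the model on the fold -/
noncomputable def FoldD (d : ℕ) (z : En d) : En d := (Fold z.1, mulw (awk d) z.2)

theorem dk7_mul (a w : Wd d) : HasFDerivAt (mulw a) (mulL a) w := by
  have h : (mulw a : Wd d → Wd d) = mulL a := by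
    funext v
    rw [mulL_apply]
  rw [h]
  exact (mulL a).hasFDerivAt

theorem dk7_aff (i : Sy) (z : En d) : HasFDerivAt (AffD d i) (MdL d i) z :=
  (mk7_aff i z.1).prodMap z (dk7_mul (awk d) z.2)

theorem dk7_fold (z : En d) : HasFDerivAt (FoldD d) (FoldL d z) z := by
  have h := (mk7_fold z.1).prodMap z (dk7_mul (awk d) z.2)
  have e : FoldL d z = (((cc • ContinuousLinearMap.snd ℝ ℝ ℝ - (2 * dd * (z.1.1 - xc)) •
      ContinuousLinearMap.fst ℝ ℝ ℝ).prod (-ContinuousLinearMap.fst ℝ ℝ ℝ)).prodMap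
      (mulL (awk d))) := by
    have e1 : (-(2 * dd * (z.1.1 - xc))) • ContinuousLinearMap.fst ℝ ℝ ℝ + cc • ContinuousLinearMap.snd ℝ ℝ ℝ =
        cc • ContinuousLinearMap.snd ℝ ℝ ℝ - (2 * dd * (z.1.1 - xc)) • ContinuousLinearMap.fst ℝ ℝ ℝ := by
      refine ContinuousLinearMap.ext fun v => ?_
      show (-(2 * dd * (z.1.1 - xc))) * v.1 + cc * v.2 = cc * v.2 - (2 * dd * (z.1.1 - xc)) * v.1
      ring
    unfold FoldL
    rw [e1]
  rw [e]
  exact h

theorem dk7_awk (k : Fin d) : 0 ≤ awk d k ∧ awk d k ≤ aw - 1 / (10 ^ 12 * ((d : ℝ) + 1)) := by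
  have hk0 : (0 : ℝ) ≤ (k : ℝ) := Nat.cast_nonneg _
  have hk1 : (k : ℝ) + 1 ≤ d := by
    have := k.2
    exact_mod_cast this
  have hd : (0 : ℝ) < (d : ℝ) + 1 := by positivity
  unfold awk aw
  constructor
  · have h1 : ((k : ℝ) + 1) / (10 * ((d : ℝ) + 1)) ≤ 1 := by
      rw [div_le_one (by positivity)]
      linarith
    have : 0 ≤ 1 - ((k : ℝ) + 1) / (10 * ((d : ℝ) + 1)) := by linarith
    positivity
  · have h1 : 1 / (10 * ((d : ℝ) + 1)) ≤ ((k : ℝ) + 1) / (10 * ((d : ℝ) + 1)) := by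
      gcongr
      linarith
    have h2 : 1 / (10 ^ 12 * ((d : ℝ) + 1)) ≤ 1 / 10 ^ 7 * (1 / (10 * ((d : ℝ) + 1))) := by
      rw [one_div_mul_one_div]
      apply one_div_le_one_div_of_le (by positivity)
      nlinarith
    nlinarith

theorem dk7_mulw_le (w : Wd d) :
    ‖mulw (awk d) w‖ ≤ (aw - 1 / (10 ^ 12 * ((d : ℝ) + 1))) * ‖w‖ := by
  have hd : (0 : ℝ) < (d : ℝ) + 1 := by positivity
  have h0 : (0 : ℝ) ≤ aw - 1 / (10 ^ 12 * ((d : ℝ) + 1)) := by
    have h2 : 1 / (10 ^ 12 * ((d : ℝ) + 1)) ≤ 1 / 10 ^ 12 := by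
      apply one_div_le_one_div_of_le (by positivity)
      have : (0 : ℝ) ≤ d := Nat.cast_nonneg _
      nlinarith
    unfold aw
    norm_num at h2 ⊢
    linarith
  rw [pi_norm_le_iff_of_nonneg (mul_nonneg h0 (norm_nonneg _))]
  intro k
  obtain ⟨h1, h2⟩ := dk7_awk k
  show ‖awk d k * w k‖ ≤ _
  rw [norm_mul, Real.norm_eq_abs, abs_of_nonneg h1]
  exact mul_le_mul h2 (norm_le_pi_norm w k) (norm_nonneg _) h0

theorem dk7_ent {v : En d} {e : ℝ} (h : ‖v‖ ≤ e) : |v.1.1| ≤ e ∧ |v.1.2| ≤ e ∧ ‖v.2‖ ≤ e :=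
  ⟨((norm_fst_le v.1).trans (norm_fst_le v)).trans h, ((norm_snd_le v.1).trans (norm_fst_le v)).trans h,
    (norm_snd_le v).trans h⟩

theorem dk7_entry (A B : En d →L[ℝ] En d) {e : ℝ} (he : 0 ≤ e) (h : ‖A - B‖ ≤ e) (v : En d) (hv : ‖v‖ ≤ 1) :
    |(A v).1.1 - (B v).1.1| ≤ e ∧ |(A v).1.2 - (B v).1.2| ≤ e ∧ ‖(A v).2 - (B v).2‖ ≤ e := by
  have h1 : ‖(A - B) v‖ ≤ e := ((A - B).le_opNorm v).trans (by
    calc ‖A - B‖ * ‖v‖ ≤ e * 1 := mul_le_mul h hv (norm_nonneg _) he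
      _ = e := mul_one e)
  exact dk7_ent h1

theorem dk7_eX : ‖eX d‖ ≤ 1 := by
  simp [eX, Prod.norm_def]

theorem dk7_eY : ‖eY d‖ ≤ 1 := by
  simp [eY, Prod.norm_def]

theorem dk7_mulw0 (a : Wd d) : mulw a 0 = 0 := by
  funext k
  simp [mulw]

theorem dk7_MX (i : Sy) : MdL d i (eX d) = ((1 / pw i, 0), 0) := by
  unfold MdL
  rw [dgD_apply]
  simp [eX, dk7_mulw0]

theorem dk7_MY (i : Sy) : MdL d i (eY d) = ((0, qw i), 0) := by
  unfold MdL
  rw [dgD_apply]
  simp [eY, dk7_mulw0]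

theorem dk7_M0 (i : Sy) (w : Wd d) : MdL d i (0, w) = (0, mulw (awk d) w) := by
  unfold MdL
  rw [dgD_apply]
  simp

theorem dk7_FX (z : En d) : FoldL d z (eX d) = ((-(2 * dd * (z.1.1 - xc)), -1), 0) := by
  simp [FoldL, eX, dk7_mulw0]

theorem dk7_FY (z : En d) : FoldL d z (eY d) = ((cc, 0), 0) := by
  simp [FoldL, eY, dk7_mulw0]

theorem dk7_F0 (z : En d) (w : Wd d) : FoldL d z (0, w) = (0, mulw (awk d) w) := by
  simp [FoldL]

theorem dk7_VD (i : Sy) : VVd d i ⊆ Dd d := by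
  intro z hz
  cases i with
  | P => exact Or.inl (Or.inl hz)
  | Q => exact Or.inl (Or.inr hz)

theorem dk7_FD : FFd d ⊆ Dd d := fun z hz => Or.inr hz

/-- a map which is `C²`-close to the model on the domain `Dd d` is `NearS` -/
theorem nearS_of_close {g Fs : En d → En d} (hV : ∀ i, ∀ᶠ z in 𝓝ˢ (VVd d i), Fs z = AffD d i z)
    (hF : ∀ᶠ z in 𝓝ˢ (FFd d), Fs z = FoldD d z) {O : Set (En d)} (hO : IsOpen O)
    (hsub : Dd d ⊆ O) (hg : ContDiffOn ℝ ∞ g O) (hinj : InjOn g O)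
    (hbij : ∀ z ∈ O, Function.Bijective (fderiv ℝ g z))
    (h0 : ∀ z ∈ Dd d, ‖g z - Fs z‖ ≤ en d)
    (h1 : ∀ z ∈ Dd d, ‖fderiv ℝ g z - fderiv ℝ Fs z‖ ≤ en d)
    (h2 : ∀ i, ∀ z ∈ VVd d i, ‖iteratedFDeriv ℝ 2 g z - iteratedFDeriv ℝ 2 Fs z‖ ≤ en d) : NearS g := by
  have hVz : ∀ i, ∀ z ∈ VVd d i, ∀ᶠ y in 𝓝 z, Fs y = AffD d i y := fun i z hz =>
    eventually_nhdsSet_iff_forall.1 (hV i) z hz
  have hFz : ∀ z ∈ FFd d, ∀ᶠ y in 𝓝 z, Fs y = FoldD d y := fun z hz =>
    eventually_nhdsSet_iff_forall.1 hF z hz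
  have hVd : ∀ i, ∀ z ∈ VVd d i, fderiv ℝ Fs z = MdL d i := fun i z hz => by
    have h : Fs =ᶠ[𝓝 z] AffD d i := hVz i z hz
    rw [h.fderiv_eq, (dk7_aff i z).fderiv]
  have hFd : ∀ z ∈ FFd d, fderiv ℝ Fs z = FoldL d z := fun z hz => by
    have h : Fs =ᶠ[𝓝 z] FoldD d := hFz z hz
    rw [h.fderiv_eq, (dk7_fold z).fderiv]
  have hen : en d ≤ e0 := en_le d
  have hen0 : 0 ≤ en d := (en_pos d).le
  have hen1 : en d ≤ 1 / (10 ^ 12 * ((d : ℝ) + 1)) := min_le_right _ _
  have haw : (0 : ℝ) ≤ aw := by unfold aw; norm_num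
  have hval : ∀ z ∈ Dd d, (Fs z).2 = mulw (awk d) z.2 := by
    rintro z ((hz | hz) | hz)
    · rw [(hVz _ z hz).self_of_nhds]; rfl
    · rw [(hVz _ z hz).self_of_nhds]; rfl
    · rw [(hFz z hz).self_of_nhds]; rfl
  have hder2 : ∀ z ∈ Dd d, (fderiv ℝ Fs z (eX d)).2 = 0 ∧ (fderiv ℝ Fs z (eY d)).2 = 0 ∧
      ∀ w, fderiv ℝ Fs z (0, w) = (0, mulw (awk d) w) := by
    rintro z ((hz | hz) | hz)
    · rw [hVd _ z hz, dk7_MX, dk7_MY]
      exact ⟨rfl, rfl, dk7_M0 _⟩
    · rw [hVd _ z hz, dk7_MX, dk7_MY]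
      exact ⟨rfl, rfl, dk7_M0 _⟩
    · rw [hFd z hz, dk7_FX, dk7_FY]
      exact ⟨rfl, rfl, dk7_F0 z⟩
  refine
    { smooth := ⟨O, hO, hsub, hg, hinj, hbij⟩
      close0 := ?_
      fold0 := ?_
      wval := ?_
      close1 := ?_
      lip := ?_
      fold1 := ?_
      foldX := ?_
      wx := ?_
      ww := ?_
      closeS := fun i z hz => by
        rw [← hVd i z hz]
        exact h1 z (dk7_VD i hz)
      foldS := fun z hz => by
        rw [← hFd z hz]
        exact h1 z (dk7_FD hz)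
      wvalS := fun z hz => by
        have h3 := (dk7_ent (h0 z hz)).2.2
        rw [← hval z hz]
        exact h3 }
  · intro i z hz
    have h3 := dk7_ent (h0 z (dk7_VD i hz))
    rw [(hVz i z hz).self_of_nhds] at h3
    exact ⟨h3.1.trans hen, h3.2.1.trans hen⟩
  · intro z hz
    have h3 := dk7_ent (h0 z (dk7_FD hz))
    rw [(hFz z hz).self_of_nhds] at h3
    exact ⟨h3.1.trans hen, h3.2.1.trans hen⟩
  · intro z hz
    have h3 : ‖(g z).2 - (Fs z).2‖ ≤ en d := (dk7_ent (h0 z hz)).2.2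
    rw [hval z hz] at h3
    have h4 := dk7_mulw_le (d := d) z.2
    have h5 : (aw - 1 / (10 ^ 12 * ((d : ℝ) + 1))) * ‖z.2‖ ≤ aw * ‖z.2‖ := by
      gcongr
      have : (0 : ℝ) ≤ 1 / (10 ^ 12 * ((d : ℝ) + 1)) := by positivity
      linarith
    have h6 : ‖(g z).2‖ ≤ ‖(g z).2 - mulw (awk d) z.2‖ + ‖mulw (awk d) z.2‖ := norm_le_norm_sub_add _ _
    linarith
  · intro i z hz
    have ha := dk7_entry _ _ hen0 (h1 z (dk7_VD i hz)) (eX d) dk7_eX
    have hb := dk7_entry _ _ hen0 (h1 z (dk7_VD i hz)) (eY d) dk7_eY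
    rw [hVd i z hz, dk7_MX] at ha
    rw [hVd i z hz, dk7_MY] at hb
    simp only [sub_zero] at ha hb
    exact ⟨ha.1.trans hen, ha.2.1.trans hen, hb.1.trans hen, hb.2.1.trans hen⟩
  · intro i z hz z' hz'
    have hconv : Convex ℝ (VVd d i) :=
      ((convex_Icc _ _).prod (convex_Icc _ _)).prod (convex_closedBall _ _)
    have hz2 : ∀ y ∈ VVd d i, ‖fderiv ℝ (fderiv ℝ g) y‖ ≤ e0 := by
      intro y hy
      have h3 := h2 i y hy
      have h4 : iteratedFDeriv ℝ 2 Fs y = 0 := by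
        rw [← norm_eq_zero, ← norm_iteratedFDeriv_fderiv, norm_iteratedFDeriv_one, norm_eq_zero]
        have h5 : fderiv ℝ Fs =ᶠ[𝓝 y] fun _ => MdL d i := by
          filter_upwards [(hVz i y hy).eventually_nhds] with x hx
          have h6 : Fs =ᶠ[𝓝 x] AffD d i := hx
          rw [h6.fderiv_eq, (dk7_aff i x).fderiv]
        rw [h5.fderiv_eq]
        simp
      rw [h4, sub_zero, ← norm_iteratedFDeriv_fderiv, norm_iteratedFDeriv_one] at h3
      exact h3.trans hen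
    have hdiff : ∀ y ∈ VVd d i, DifferentiableAt ℝ (fderiv ℝ g) y := by
      intro y hy
      have h3 : ContDiffAt ℝ 1 (fderiv ℝ g) y :=
        (hg.contDiffAt (hO.mem_nhds (hsub (dk7_VD i hy)))).fderiv_right (by norm_cast)
      exact h3.differentiableAt (by simp)
    exact hconv.norm_image_sub_le_of_norm_fderiv_le hdiff hz2 hz' hz
  · intro z hz
    have hb := dk7_entry _ _ hen0 (h1 z (dk7_FD hz)) (eY d) dk7_eY
    rw [hFd z hz, dk7_FY] at hb
    simp only [sub_zero] at hb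
    exact ⟨hb.1.trans hen, hb.2.1.trans hen⟩
  · intro z hz
    have ha := dk7_entry _ _ hen0 (h1 z (dk7_FD hz)) (eX d) dk7_eX
    rw [hFd z hz, dk7_FX] at ha
    simp only [sub_neg_eq_add] at ha
    exact ⟨ha.1.trans hen, ha.2.1.trans hen⟩
  · intro z hz
    have ha := dk7_entry _ _ hen0 (h1 z hz) (eX d) dk7_eX
    have hb := dk7_entry _ _ hen0 (h1 z hz) (eY d) dk7_eY
    rw [(hder2 z hz).1, sub_zero] at ha
    rw [(hder2 z hz).2.1, sub_zero] at hb
    exact ⟨ha.2.2.trans hen, hb.2.2.trans hen⟩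
  · intro z hz w
    have h3 : ‖(fderiv ℝ g z - fderiv ℝ Fs z) (0, w)‖ ≤ en d * ‖w‖ := by
      have h4 := (fderiv ℝ g z - fderiv ℝ Fs z).le_opNorm (0, w)
      have h5 : ‖((0 : Pt), w)‖ = ‖w‖ := by
        rw [Prod.norm_def]
        simp
      rw [h5] at h4
      exact h4.trans (by gcongr; exact h1 z hz)
    have h6 : (fderiv ℝ g z - fderiv ℝ Fs z) (0, w) =
        ((fderiv ℝ g z (0, w)).1, (fderiv ℝ g z (0, w)).2 - mulw (awk d) w) := by
      rw [sub_apply, (hder2 z hz).2.2 w]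
      refine Prod.ext ?_ rfl
      simp
    rw [h6] at h3
    have h7 : ‖(fderiv ℝ g z (0, w)).1‖ ≤ en d * ‖w‖ :=
      (norm_fst_le (((fderiv ℝ g z (0, w)).1, (fderiv ℝ g z (0, w)).2 - mulw (awk d) w) : En d)).trans h3
    have h8 : ‖(fderiv ℝ g z (0, w)).2 - mulw (awk d) w‖ ≤ en d * ‖w‖ :=
      (norm_snd_le (((fderiv ℝ g z (0, w)).1, (fderiv ℝ g z (0, w)).2 - mulw (awk d) w) : En d)).trans h3
    refine ⟨h7.trans (by gcongr), ?_⟩
    have h9 := dk7_mulw_le (d := d) w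
    have h10 : ‖(fderiv ℝ g z (0, w)).2‖ ≤ ‖(fderiv ℝ g z (0, w)).2 - mulw (awk d) w‖ +
      ‖mulw (awk d) w‖ := norm_le_norm_sub_add _ _
    have h11 : en d * ‖w‖ ≤ 1 / (10 ^ 12 * ((d : ℝ) + 1)) * ‖w‖ := by gcongr
    nlinarith

end Pool.Agent.Lib.H37D
end

-- from Lib.H37C.E1
section

open TopologicalSpace Set Filter Topology
open scoped Manifold ContDiff
open Pool.Agent.Lib.Helper37.ConjBorel

namespace Pool.Agent.Lib.H37C

variable {n : ℕ} {M : Type*} [TopologicalSpace M] [ChartedSpace (Euc n) M]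

open Classical in
/-- the self-map of `M` which is `ψ` in the chart `e` and the identity outside the chart -/
noncomputable def ext (e : OpenPartialHomeomorph M (Euc n)) (ψ : Euc n → Euc n) (z : M) : M :=
  if z ∈ e.source then e.symm (ψ (e z)) else z

theorem ext_of_mem {e : OpenPartialHomeomorph M (Euc n)} {ψ : Euc n → Euc n} {z : M}
    (hz : z ∈ e.source) : ext e ψ z = e.symm (ψ (e z)) := by
  simp [ext, hz]

theorem ext_of_notMem {e : OpenPartialHomeomorph M (Euc n)} {ψ : Euc n → Euc n} {z : M}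
    (hz : z ∉ e.source) : ext e ψ z = z := by
  simp [ext, hz]










end Pool.Agent.Lib.H37C
end

-- from Lib.H37C.D2
section

open TopologicalSpace Set Filter Topology
open scoped Manifold ContDiff
open Pool.Agent.Lib.Helper37.ConjBorel

namespace Pool.Agent.Lib.H37C

variable {n : ℕ} {M : Type*} [TopologicalSpace M] [ChartedSpace (Euc n) M]

/-- the open shell in the chart -/
def Co (e : OpenPartialHomeomorph M (Euc n)) : Set M := {z | z ∈ e.source ∧ 1 < ‖e z‖ ∧ ‖e z‖ < 2}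

/-- the radial coordinate -/
noncomputable def rad (e : OpenPartialHomeomorph M (Euc n)) (z : M) : ℝ := ‖e z‖ - 1

variable {f₀ : DiffInf n M} {m : ℕ} {e : OpenPartialHomeomorph M (Euc n)}




end Pool.Agent.Lib.H37C
end

-- from Lib.H37N.MK1
section

/-!
# H37N MK1 (size M): big charts, extension of compactly supported diffeomorphisms
-/

open Set Filter Topology
open scoped ContDiff Manifold
open Pool.Agent.Lib.Helper37.ConjBorel Pool.Agent.Lib.H37C

namespace Pool.Agent.Lib.H37N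

variable {M : Type*} [TopologicalSpace M] [ChartedSpace (Euc 2) M]


section ExtK

variable {n : ℕ} {N : Type*} [TopologicalSpace N] [ChartedSpace (Euc n) N]

theorem mk1_off {e : OpenPartialHomeomorph N (Euc n)} {K : Set (Euc n)} {ψ : Euc n → Euc n}
    (hψK : ∀ x, x ∉ K → ψ x = x) {z : N} (hz : z ∉ e.symm '' K) : ext e ψ z = z := by
  by_cases h : z ∈ e.source
  · rw [ext_of_mem h]
    by_cases h2 : e z ∈ K
    · exact absurd ⟨e z, h2, e.left_inv h⟩ hz
    · rw [hψK _ h2, e.left_inv h]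
  · exact ext_of_notMem h

theorem mk1_target {e : OpenPartialHomeomorph N (Euc n)} {K : Set (Euc n)}
    (hKe : K ⊆ e.target) {ψ : Euc n → Euc n} (hψK : ∀ x, x ∉ K → ψ x = x)
    (hψi : Function.Injective ψ) {x : Euc n} (hx : x ∈ e.target) : ψ x ∈ e.target := by
  by_cases h : x ∈ K
  · apply hKe
    by_contra h2
    have h3 := hψi (hψK (ψ x) h2)
    rw [h3] at h2
    exact h2 h
  · rw [hψK x h]
    exact hx

theorem mk1_comp {e : OpenPartialHomeomorph N (Euc n)} {K : Set (Euc n)}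
    (hKe : K ⊆ e.target) {ψ g : Euc n → Euc n} (hψK : ∀ x, x ∉ K → ψ x = x)
    (h1 : ∀ x, g (ψ x) = x) (z : N) : ext e g (ext e ψ z) = z := by
  by_cases h : z ∈ e.source
  · have h2 := mk1_target hKe hψK (Function.LeftInverse.injective h1) (e.map_source h)
    have h3 := e.map_target h2
    rw [ext_of_mem h, ext_of_mem h3, e.right_inv h2, h1, e.left_inv h]
  · rw [ext_of_notMem h, ext_of_notMem h]

theorem mk1_smooth [T2Space N] [IsManifold (𝓡 n) ∞ N] {e : OpenPartialHomeomorph N (Euc n)}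
    (he : e ∈ IsManifold.maximalAtlas (𝓡 n) ∞ N) {K : Set (Euc n)} (hK : IsCompact K)
    (hKe : K ⊆ e.target) {ψ : Euc n → Euc n} (hψ : ContDiff ℝ ∞ ψ)
    (hψK : ∀ x, x ∉ K → ψ x = x) (hψi : Function.Injective ψ) :
    ContMDiff (𝓡 n) (𝓡 n) ∞ (ext e ψ) := by
  have hcl : IsClosed (e.symm '' K) :=
    (hK.image_of_continuousOn (e.continuousOn_symm.mono hKe)).isClosed
  intro z
  by_cases h : z ∈ e.source
  · have h1 : ContMDiffAt (𝓡 n) (𝓡 n) ∞ (fun z => e.symm (ψ (e z))) z := by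
      have h2 : ContMDiffAt (𝓡 n) (𝓡 n) ∞ ψ (e z) := hψ.contMDiff.contMDiffAt
      have h3 : ContMDiffAt (𝓡 n) (𝓡 n) ∞ e z :=
        (contMDiffOn_of_mem_maximalAtlas he).contMDiffAt (e.open_source.mem_nhds h)
      have h4 : ContMDiffAt (𝓡 n) (𝓡 n) ∞ e.symm (ψ (e z)) :=
        (contMDiffOn_symm_of_mem_maximalAtlas he).contMDiffAt
          (e.open_target.mem_nhds (mk1_target hKe hψK hψi (e.map_source h)))
      exact h4.comp z (h2.comp z h3)
    refine h1.congr_of_eventuallyEq ?_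
    filter_upwards [e.open_source.mem_nhds h] with w hw
    exact ext_of_mem hw
  · have hz : z ∉ e.symm '' K := by
      rintro ⟨x, hx, rfl⟩
      exact h (e.map_target (hKe hx))
    refine contMDiffAt_id.congr_of_eventuallyEq ?_
    filter_upwards [hcl.isOpen_compl.mem_nhds hz] with w hw
    exact mk1_off hψK hw

end ExtK

/-- Proof. Copy of `exists_diff` of `H37C/E1.lean` with the compact set `K ⊆ e.target` instead of the closed ball of radius `2`:
`e.symm '' K` is compact, so closed; `ψ` and `g` map `K` to `K` (bijections equal to the identity off `K`). -/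
theorem exists_diffK {n : ℕ} {M : Type*} [TopologicalSpace M] [ChartedSpace (Euc n) M] [T2Space M]
    [IsManifold (𝓡 n) ∞ M] {e : OpenPartialHomeomorph M (Euc n)}
    (he : e ∈ IsManifold.maximalAtlas (𝓡 n) ∞ M) {K : Set (Euc n)} (hK : IsCompact K)
    (hKe : K ⊆ e.target) {ψ g : Euc n → Euc n} (hψ : ContDiff ℝ ∞ ψ) (hg : ContDiff ℝ ∞ g)
    (h1 : ∀ x, g (ψ x) = x) (h2 : ∀ x, ψ (g x) = x) (hψK : ∀ x, x ∉ K → ψ x = x) :
    ∃ G : DiffInf n M, ∀ z, G z = ext e ψ z := by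
  have hgK : ∀ x, x ∉ K → g x = x := fun x hx => by
    rw [← hψK x hx, h1, hψK x hx]
  exact ⟨{ toFun := ext e ψ
           invFun := ext e g
           left_inv := mk1_comp hKe hψK h1
           right_inv := mk1_comp hKe hgK h2
           contMDiff_toFun := mk1_smooth he hK hKe hψ hψK (Function.LeftInverse.injective h1)
           contMDiff_invFun := mk1_smooth he hK hKe hg hgK (Function.LeftInverse.injective h2) },
    fun z => rfl⟩

end Pool.Agent.Lib.H37N
end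

-- from Lib.H37D.KDefs
section

/-!
# H37D, section K: definitions (small perturbations of `En d`, charts, local representations of diffeomorphisms)
-/

open Set Filter Topology
open scoped ContDiff Manifold
open Pool.Agent.Lib.Helper37.ConjBorel Pool.Agent.Lib.H37C

namespace Pool.Agent.Lib.H37D

open Pool.Agent.Lib.H37N

noncomputable section

variable {d : ℕ}

theorem finrank_En (d : ℕ) : Module.finrank ℝ (Euc (d + 2)) = Module.finrank ℝ (En d) := by
  simp [Module.finrank_prod]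
  ring

/-- an identification of the two models of the space -/
def LLd (d : ℕ) : Euc (d + 2) ≃L[ℝ] En d := ContinuousLinearEquiv.ofFinrankEq (finrank_En d)

/-- a self-map of `En d`, seen on `Euc (d + 2)` -/
def cjd (ψ : En d → En d) (x : Euc (d + 2)) : Euc (d + 2) := (LLd d).symm (ψ (LLd d x))

variable {M : Type*} [TopologicalSpace M] [ChartedSpace (Euc (d + 2)) M]

/-- a smooth chart whose image contains the closed ball of radius `r` of `En d` -/
structure BigCD (e : OpenPartialHomeomorph M (Euc (d + 2))) (r : ℝ) : Prop where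
  mem : e ∈ IsManifold.maximalAtlas (𝓡 (d + 2)) ∞ M
  big : ∀ z : En d, ‖z‖ ≤ r → (LLd d).symm z ∈ e.target

/-- the points at which the local representation is meaningful -/
def domD (e : OpenPartialHomeomorph M (Euc (d + 2))) (f : M → M) : Set (En d) :=
  {z | (LLd d).symm z ∈ e.target ∧ f (e.symm ((LLd d).symm z)) ∈ e.source}

open Classical in
/-- the local representation of `f` in the chart `e` (a point outside `K0D` where it is not defined) -/
def locD (e : OpenPartialHomeomorph M (Euc (d + 2))) (f : M → M) (z : En d) : En d :=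
  if z ∈ domD e f then LLd d (e (f (e.symm ((LLd d).symm z)))) else ((10, 10), 0)

end

end Pool.Agent.Lib.H37D
end

-- from Lib.H37D.DK1
section

/-!
# H37D DK1 (port of H37N MK1): big charts; the extension of compactly supported diffeomorphisms (`exists_diffK`) is general already
-/

open Set Filter Topology
open scoped ContDiff Manifold
open Pool.Agent.Lib.Helper37.ConjBorel Pool.Agent.Lib.H37C

namespace Pool.Agent.Lib.H37D

open Pool.Agent.Lib.H37N

variable {d : ℕ} {M : Type*} [TopologicalSpace M] [ChartedSpace (Euc (d + 2)) M]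

theorem exists_bigCD [IsManifold (𝓡 (d + 2)) ∞ M] [Nonempty M] (r : ℝ) :
    ∃ e : OpenPartialHomeomorph M (Euc (d + 2)), BigCD e r := by
  obtain ⟨p⟩ := (inferInstance : Nonempty M)
  set e₀ := chartAt (Euc (d + 2)) p with he₀
  have h₀ : e₀ ∈ (contDiffGroupoid ∞ (𝓡 (d + 2))).maximalAtlas M := IsManifold.chart_mem_maximalAtlas p
  have hp₀ : p ∈ e₀.source := mem_chart_source _ _
  obtain ⟨ρ, hρ, hball⟩ := Metric.nhds_basis_closedBall.mem_iff.1
    (e₀.open_target.mem_nhds (e₀.map_source hp₀))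
  set R : ℝ := ‖((LLd d).symm : En d →L[ℝ] Euc (d + 2))‖ * |r| + 1 with hR
  have hRpos : 0 < R := by positivity
  let a : Euc (d + 2) ≃ₜ Euc (d + 2) :=
    { toFun := fun y => (R / ρ) • (y - e₀ p)
      invFun := fun y => (ρ / R) • y + e₀ p
      left_inv := fun y => by
        simp only [smul_smul]
        rw [show ρ / R * (R / ρ) = 1 by field_simp, one_smul, sub_add_cancel]
      right_inv := fun y => by
        simp only [add_sub_cancel_right, smul_smul]
        rw [show R / ρ * (ρ / R) = 1 by field_simp, one_smul]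
      continuous_toFun := by fun_prop
      continuous_invFun := by fun_prop }
  have ha : a.toOpenPartialHomeomorph ∈ contDiffGroupoid ∞ (𝓡 (d + 2)) := by
    rw [contDiffGroupoid, mem_groupoid_of_pregroupoid]
    constructor
    · show ContDiffOn ℝ ∞ _ _
      have : ContDiff ℝ ∞ (fun y : Euc (d + 2) => (R / ρ) • (y - e₀ p)) := by fun_prop
      exact this.contDiffOn
    · show ContDiffOn ℝ ∞ _ _
      have : ContDiff ℝ ∞ (fun y : Euc (d + 2) => (ρ / R) • y + e₀ p) := by fun_prop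
      exact this.contDiffOn
  have ha' : a.toOpenPartialHomeomorph.symm ∈ contDiffGroupoid ∞ (𝓡 (d + 2)) :=
    StructureGroupoid.symm _ ha
  refine ⟨e₀.trans a.toOpenPartialHomeomorph, ?_, ?_⟩
  · show _ ∈ (contDiffGroupoid ∞ (𝓡 (d + 2))).maximalAtlas M
    rw [mem_maximalAtlas_iff] at h₀ ⊢
    intro e' he'
    obtain ⟨h1, h2⟩ := h₀ e' he'
    constructor
    · rw [OpenPartialHomeomorph.trans_symm_eq_symm_trans_symm, OpenPartialHomeomorph.trans_assoc]
      exact StructureGroupoid.trans _ ha' h1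
    · rw [← OpenPartialHomeomorph.trans_assoc]
      exact StructureGroupoid.trans _ h2 ha
  · intro z hz
    rw [OpenPartialHomeomorph.trans_target]
    refine ⟨mem_univ _, ?_⟩
    show (ρ / R) • (LLd d).symm z + e₀ p ∈ e₀.target
    apply hball
    rw [Metric.mem_closedBall, dist_eq_norm, add_sub_cancel_right, norm_smul, Real.norm_eq_abs,
      abs_of_pos (by positivity)]
    have h1 : ‖(LLd d).symm z‖ ≤ R := by
      have h2 := ((LLd d).symm : En d →L[ℝ] Euc (d + 2)).le_opNorm z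
      have h3 : ‖((LLd d).symm : En d →L[ℝ] Euc (d + 2))‖ * ‖z‖ ≤
          ‖((LLd d).symm : En d →L[ℝ] Euc (d + 2))‖ * |r| := by
        gcongr
        exact hz.trans (le_abs_self r)
      have h4 : ‖(LLd d).symm z‖ ≤ ‖((LLd d).symm : En d →L[ℝ] Euc (d + 2))‖ * ‖z‖ := h2
      linarith
    calc ρ / R * ‖(LLd d).symm z‖ ≤ ρ / R * R := by gcongr
      _ = ρ := by field_simp

end Pool.Agent.Lib.H37D
end

-- from Lib.H37N.MK8
section

/-!
# H37N MK8 (size M): the open set of diffeomorphisms with near local representations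
-/

open Set Filter Topology
open scoped ContDiff Manifold
open Pool.Agent.Lib.Helper37.ConjBorel Pool.Agent.Lib.H37C

namespace Pool.Agent.Lib.H37N


variable {M : Type*} [TopologicalSpace M] [ChartedSpace (Euc 2) M]





theorem mk8_S {z : Pt} (hz : z ∈ VV Sy.P ∪ VV Sy.Q ∪ FF) : ‖z‖ ≤ 2 := by
  rw [Prod.norm_def]
  rcases hz with (hz | hz) | hz
  all_goals
    obtain ⟨h1, h2⟩ := hz
    rw [mem_Icc] at h1 h2
    norm_num [al, pw, del, xc, u0] at h1 h2
    refine max_le ?_ ?_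
    · rw [Real.norm_eq_abs, abs_le]
      constructor <;> linarith
    · rw [Real.norm_eq_abs, abs_le]
      constructor <;> linarith



end Pool.Agent.Lib.H37N
end

-- from Lib.H37D.KT8
section

/-! # H37D, KT8 (port of T8): small perturbations are diffeomorphisms -/

open Set Filter Topology Asymptotics
open scoped ContDiff

namespace Pool.Agent.Lib.H37D

open Pool.Agent.Lib.H37N

variable {d : ℕ}

theorem k0D_compact (d : ℕ) : IsCompact (K0D d) :=
  (isCompact_Icc.prod isCompact_Icc).prod (isCompact_closedBall _ _)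

theorem k0D_norm {z : En d} (hz : z ∈ K0D d) : ‖z‖ ≤ 4 := by
  obtain ⟨⟨⟨h1, h2⟩, h3, h4⟩, h5⟩ := hz
  rw [Prod.norm_def, Prod.norm_def, Real.norm_eq_abs, Real.norm_eq_abs]
  exact max_le (max_le (abs_le.2 ⟨by linarith, h2⟩) (abs_le.2 ⟨by linarith, h4⟩)) (by simpa using h5)

theorem SmallD.mono {R R' : ℕ} {ε ε' : ℝ} {ψ : En d → En d} (h : SmallD R ε ψ) (hR : R' ≤ R) (hε : ε ≤ ε') : SmallD R' ε' ψ :=
  ⟨h.smooth, h.supp, fun j hj z => (h.bound j (hj.trans hR) z).trans hε⟩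

/-- PROOF. j = 0: `norm_iteratedFDeriv_zero`. -/
theorem SmallD.norm_sub_le {R : ℕ} {ε : ℝ} {ψ : En d → En d} (h : SmallD R ε ψ) (z : En d) : ‖ψ z - z‖ ≤ ε := by
  have h1 := h.bound 0 (Nat.zero_le _) z
  rwa [norm_iteratedFDeriv_zero] at h1

theorem kt8_fderiv {R : ℕ} {ε : ℝ} {ψ : En d → En d} (h : SmallD R ε ψ) (hR : 1 ≤ R) (z : En d) :
    ‖fderiv ℝ (fun z => ψ z - z) z‖ ≤ ε := by
  have h1 := h.bound 1 hR z
  rwa [norm_iteratedFDeriv_one] at h1

theorem kt8_diff {R : ℕ} {ε : ℝ} {ψ : En d → En d} (h : SmallD R ε ψ) : Differentiable ℝ (fun z => ψ z - z) :=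
  (h.smooth.differentiable (by simp)).sub differentiable_id

/-- PROOF. j = 1: ‖iteratedFDeriv 1 f z‖ = ‖fderiv f z‖ (`norm_iteratedFDeriv_one`), mean value inequality on the whole plane
(`Convex.norm_image_sub_le_of_norm_fderiv_le`, convex_univ). -/
theorem SmallD.lip {R : ℕ} {ε : ℝ} {ψ : En d → En d} (h : SmallD R ε ψ) (hR : 1 ≤ R) (z w : En d) :
    ‖(ψ z - z) - (ψ w - w)‖ ≤ ε * ‖z - w‖ := by
  exact Convex.norm_image_sub_le_of_norm_fderiv_le (𝕜 := ℝ) (f := fun z => ψ z - z) (s := univ)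
    (fun x _ => (kt8_diff h) x) (fun x _ => kt8_fderiv h hR x) convex_univ (mem_univ w) (mem_univ z)

theorem kt8_expand {ψ : En d → En d} (h : SmallD 1 (1 / 2) ψ) (z w : En d) :
    ‖z - w‖ ≤ 2 * ‖ψ z - ψ w‖ := by
  have h1 := h.lip le_rfl z w
  have h2 : z - w = (ψ z - ψ w) - ((ψ z - z) - (ψ w - w)) := by abel
  have h3 : ‖z - w‖ ≤ ‖ψ z - ψ w‖ + ‖(ψ z - z) - (ψ w - w)‖ := by
    conv_lhs => rw [h2]
    exact norm_sub_le _ _
  linarith

theorem kt8_inj {ψ : En d → En d} (h : SmallD 1 (1 / 2) ψ) : Function.Injective ψ := by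
  intro z w hzw
  have h1 := kt8_expand h z w
  rw [hzw, sub_self, norm_zero, mul_zero] at h1
  have h2 : ‖z - w‖ = 0 := le_antisymm h1 (norm_nonneg _)
  exact sub_eq_zero.mp (norm_eq_zero.mp h2)

theorem kt8_surj {ψ : En d → En d} (h : SmallD 1 (1 / 2) ψ) : Function.Surjective ψ := by
  intro w
  have hc : ContractingWith (1 / 2 : NNReal) (fun z => w - (ψ z - z)) := by
    refine ⟨by norm_num, LipschitzWith.of_dist_le_mul fun x y => ?_⟩
    have h1 := h.lip le_rfl x y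
    rw [dist_eq_norm, dist_eq_norm]
    have h2 : (w - (ψ x - x)) - (w - (ψ y - y)) = -((ψ x - x) - (ψ y - y)) := by abel
    rw [h2, norm_neg]
    simpa using h1
  refine ⟨hc.fixedPoint, ?_⟩
  have h1 := hc.fixedPoint_isFixedPt
  have h2 : w - (ψ (hc.fixedPoint) - hc.fixedPoint) = hc.fixedPoint := h1
  have h3 : ψ (hc.fixedPoint) = w - (w - (ψ (hc.fixedPoint) - hc.fixedPoint)) + hc.fixedPoint := by abel
  rw [h3, h2]
  abel

/-- the inverse as a homeomorphism -/
noncomputable def kt8_homeo {ψ : En d → En d} (h : SmallD 1 (1 / 2) ψ) : En d ≃ₜ En d where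
  toEquiv := Equiv.ofBijective ψ ⟨kt8_inj h, kt8_surj h⟩
  continuous_toFun := h.smooth.continuous
  continuous_invFun := by
    have hL : LipschitzWith 2 (Equiv.ofBijective ψ ⟨kt8_inj h, kt8_surj h⟩).symm := by
      refine LipschitzWith.of_dist_le_mul fun x y => ?_
      rw [dist_eq_norm, dist_eq_norm]
      have h1 := kt8_expand h ((Equiv.ofBijective ψ ⟨kt8_inj h, kt8_surj h⟩).symm x)
        ((Equiv.ofBijective ψ ⟨kt8_inj h, kt8_surj h⟩).symm y)
      rw [Equiv.ofBijective_apply_symm_apply ψ ⟨kt8_inj h, kt8_surj h⟩ x,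
        Equiv.ofBijective_apply_symm_apply ψ ⟨kt8_inj h, kt8_surj h⟩ y] at h1
      simpa using h1
    exact hL.continuous

/-- PROOF. Injective: `SmallD.lip` with ε = 1/2.  Surjective: for given w the map z ↦ w - (ψ z - z) is a contraction (factor 1/2) of the complete space En d; its fixed point is a preimage.
The inverse φ is smooth: fderiv ψ z = id + A with ‖A‖ ≤ 1/2 is invertible (injective: ‖v + A v‖ ≥ ‖v‖/2; finite dimension), `ContDiffAt.to_localInverse` or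
`OpenPartialHomeomorph.contDiffAt_symm` for the homeomorphism ψ (continuous inverse: ‖φ a - φ b‖ ≤ 2 ‖a - b‖).  φ z = z for z ∉ K0D d because ψ z = z. -/
theorem SmallD.exists_inverse {ψ : En d → En d} (h : SmallD 1 (1 / 2) ψ) :
    ∃ φ : En d → En d, ContDiff ℝ ∞ φ ∧ (∀ z, φ (ψ z) = z) ∧ (∀ z, ψ (φ z) = z) ∧ ∀ z, z ∉ K0D d → φ z = z := by
  have hder : ∀ z, HasFDerivAt ψ (fderiv ℝ ψ z) z := fun z =>
    ((h.smooth.differentiable (by simp)) z).hasFDerivAt
  have hA : ∀ z, ‖fderiv ℝ ψ z - ContinuousLinearMap.id ℝ (En d)‖ ≤ 1 / 2 := by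
    intro z
    have h1 := kt8_fderiv h le_rfl z
    have h2 : fderiv ℝ (fun z => ψ z - z) z = fderiv ℝ ψ z - ContinuousLinearMap.id ℝ (En d) :=
      ((hder z).sub (hasFDerivAt_id z)).fderiv
    rwa [h2] at h1
  have hlt : ∀ z, ‖-(fderiv ℝ ψ z - ContinuousLinearMap.id ℝ (En d))‖ < 1 := by
    intro z
    rw [norm_neg]
    linarith [hA z]
  have hcoe : ∀ z, ((ContinuousLinearEquiv.ofUnit (Units.oneSub _ (hlt z)) : En d ≃L[ℝ] En d) : En d →L[ℝ] En d) =
      fderiv ℝ ψ z := by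
    intro z
    refine ContinuousLinearMap.ext fun v => ?_
    simp [ContinuousLinearEquiv.ofUnit, Units.oneSub]
  refine ⟨(kt8_homeo h).symm, ?_, ?_, ?_, ?_⟩
  · refine Homeomorph.contDiff_symm (kt8_homeo h)
      (f₀' := fun z => ContinuousLinearEquiv.ofUnit (Units.oneSub _ (hlt z))) ?_ h.smooth
    intro z
    rw [hcoe z]
    exact hder z
  · intro z
    exact (kt8_homeo h).symm_apply_apply z
  · intro z
    exact (kt8_homeo h).apply_symm_apply z
  · intro z hz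
    apply kt8_inj h
    rw [h.supp z hz]
    exact (kt8_homeo h).apply_symm_apply z

/-- PROOF. If ψ z ∉ K0D d then ψ (ψ z) = ψ z, so ψ z = z (injectivity), z ∉ K0D d. -/
theorem SmallD.mem_K0D {ψ : En d → En d} (h : SmallD 1 (1 / 2) ψ) {z : En d} (hz : z ∈ K0D d) : ψ z ∈ K0D d := by
  by_contra hc
  have h1 := kt8_inj h (h.supp _ hc)
  rw [h1] at hc
  exact hc hz


end Pool.Agent.Lib.H37D
end
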