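import Pool.Agent.Lib.H1M.FF.M001
import Pool.Agent.Lib.H1M.FF.M003
import Pool.Agent.Lib.H1M.FF.M006
import Pool.Agent.Lib.H1M.FF.M012
import Pool.Agent.Lib.H1M.FF.M019

/-! Merged copies (to shorten the build) of Lib.H37D.DB00, Lib.H37D.DB06b, Lib.H37D.DB07, Lib.H37N.B20, Lib.H37N.I1b, Lib.H37N.I1d. -/

-- from Lib.H37D.DB00
section

/-! # H37D, chunk DB00 (M, pure): Taylor formula with multilinear maps and parameters, homogeneous parts -/

open Set Filter Topology Asymptotics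
open scoped ContDiff

namespace Pool.Agent.Lib.H37D

open Pool.Agent.Lib.H37N

variable {P E W : Type} [NormedAddCommGroup P] [NormedSpace ℝ P] [FiniteDimensional ℝ P]
  [NormedAddCommGroup E] [NormedSpace ℝ E] [FiniteDimensional ℝ E]
  [NormedAddCommGroup W] [NormedSpace ℝ W] [FiniteDimensional ℝ W]

/-- One step.

PROOF. `hadamard` for G (values in the finite-dimensional, hence complete, space E [×n]→L W): G(p,v) = G(p,0) + H(p,v) v with H(p,v) : E →L (E [×n]→L W), smooth.  Put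
G'(p,v) = (H(p,v)).uncurryLeft (`ContinuousLinearMap.uncurryLeft`; smooth: it is the continuous linear equivalence (`continuousMultilinearCurryLeftEquiv ℝ (fun _ : Fin (n+1) => E) W`).symm
composed with H; `ContinuousLinearMap.uncurryLeft_apply`: (uncurryLeft f) m = f (m 0) (tail m), and tail (fun _ => v) = fun _ => v). -/
theorem db00_step {n : ℕ} {G : P × E → (E [×n]→L[ℝ] W)} (hG : ContDiff ℝ ∞ G) :
    ∃ G' : P × E → (E [×(n + 1)]→L[ℝ] W), ContDiff ℝ ∞ G' ∧
      ∀ p v, G (p, v) (fun _ => v) = G (p, 0) (fun _ => v) + G' (p, v) (fun _ => v) := by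
  have : CompleteSpace W := FiniteDimensional.complete ℝ W
  obtain ⟨H, hH, hH2, -⟩ := hadamard (P := P) (E := E) (W := E [×n]→L[ℝ] W) hG
  refine ⟨fun q => (continuousMultilinearCurryLeftEquiv ℝ (fun _ : Fin (n + 1) => E) W).symm (H q), ?_, ?_⟩
  · exact (continuousMultilinearCurryLeftEquiv ℝ (fun _ : Fin (n + 1) => E) W).symm.contDiff.comp hH
  · intro p v
    have h1 := congrArg (fun M : E [×n]→L[ℝ] W => M (fun _ => v)) (hH2 p v)
    simp only [add_apply] at h1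
    rw [h1]
    congr 1

noncomputable def db00_seq (F : P × E → W) (hF : ContDiff ℝ ∞ F) :
    (n : ℕ) → {G : P × E → (E [×n]→L[ℝ] W) // ContDiff ℝ ∞ G}
  | 0 => ⟨fun q => (continuousMultilinearCurryFin0 ℝ E W).symm (F q),
      (continuousMultilinearCurryFin0 ℝ E W).symm.contDiff.comp hF⟩
  | n + 1 => ⟨(db00_step (db00_seq F hF n).2).choose, (db00_step (db00_seq F hF n).2).choose_spec.1⟩

/-- Taylor formula with multilinear maps and parameters.

PROOF. Define recursively (choice, `db00_step`) smooth G_n : P × E → (E [×n]→L W), G_0(p,v) = the constant map with value F(p,v)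
(`ContinuousMultilinearMap.constOfIsEmpty` or `(continuousMultilinearCurryFin0 ℝ E W).symm`), G_(n+1) from G_n.  M n p = G_n(p,0) (smooth).  Induction on n:
F(p,v) = Σ_(k<n) M k p (v,..,v) + G_n(p,v)(v,..,v) (`Finset.sum_range_succ`). -/
theorem taylorM {F : P × E → W} (hF : ContDiff ℝ ∞ F) :
    ∃ M : (k : ℕ) → P → (E [×k]→L[ℝ] W), (∀ k, ContDiff ℝ ∞ (M k)) ∧
      ∀ n, ∃ G : P × E → (E [×n]→L[ℝ] W), ContDiff ℝ ∞ G ∧ (∀ p, G (p, 0) = M n p) ∧
        ∀ p v, F (p, v) = ∑ k ∈ Finset.range n, M k p (fun _ => v) + G (p, v) (fun _ => v) := by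
  refine ⟨fun k p => (db00_seq F hF k).1 (p, 0), fun k => ?_, fun n => ?_⟩
  · exact (db00_seq F hF k).2.comp (contDiff_id.prodMk contDiff_const)
  · refine ⟨(db00_seq F hF n).1, (db00_seq F hF n).2, fun p => rfl, fun p v => ?_⟩
    induction n with
    | zero =>
      simp only [Finset.range_zero, Finset.sum_empty, zero_add]
      simp [db00_seq]
    | succ n ih =>
      rw [Finset.sum_range_succ, ih, add_assoc]
      congr 1
      exact (db00_step (db00_seq F hF n).2).choose_spec.2 p v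

/-- PROOF. M (v,..,v) is bounded by ‖M‖ ‖v‖^n (`ContinuousMultilinearMap.le_opNorm`, `Finset.prod_const`, `Finset.card_univ`, `Fintype.card_fin`); for a continuous family G the norm ‖G v‖ is
bounded near 0. -/
theorem multi_isBigO {n : ℕ} {G : E → (E [×n]→L[ℝ] W)} (hG : ContinuousAt G 0) :
    (fun v => G v (fun _ => v)) =O[𝓝 0] fun v => ‖v‖ ^ n := by
  have h1 : ∀ᶠ v in 𝓝 (0 : E), ‖G v‖ < ‖G 0‖ + 1 := by
    exact (hG.norm).eventually (gt_mem_nhds (by linarith))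
  refine IsBigO.of_bound (‖G 0‖ + 1) (h1.mono fun v hv => ?_)
  have h2 := (G v).le_opNorm (fun _ => v)
  rw [Finset.prod_const, Finset.card_univ, Fintype.card_fin] at h2
  rw [norm_pow, norm_norm]
  exact h2.trans (mul_le_mul_of_nonneg_right hv.le (by positivity))

/-- The homogeneous part of order n.

PROOF. `taylorM` with P = ℝ for F(p,v) = f v (p = 0): f v = Σ_(k<n+1) M k 0 (v,..,v) + G(0,v)(v,..,v) with G of degree n+1, the last term is O(‖v‖^(n+1)) (`multi_isBigO`).  If n = 0: M = M 0 0.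
If n ≥ 1, fix v.  The function t ↦ f (t • v) is O(t^n) at 0 (composition with t ↦ t • v), and M k 0 (t v,..,t v) = t^k M k 0 (v,..,v) (`ContinuousMultilinearMap.map_smul_univ`), so
Σ_(k ≤ n-1) t^k M k 0 (v,..,v) = O(t^n), and `poly1_unique` (with k = n - 1) gives M k 0 (v,..,v) = 0 for k < n.  So f v - M n 0 (v,..,v) = G(0,v)(v,..,v). -/
theorem homog_partM {f : E → W} (hf : ContDiff ℝ ∞ f) (n : ℕ) (h : f =O[𝓝 0] fun v => ‖v‖ ^ n) :
    ∃ M : (E [×n]→L[ℝ] W), (fun v => f v - M (fun _ => v)) =O[𝓝 0] fun v => ‖v‖ ^ (n + 1) := by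
  obtain ⟨M, hM, hT⟩ := taylorM (P := ℝ) (E := E) (W := W) (F := fun q => f q.2) (hf.comp contDiff_snd)
  obtain ⟨G, hG, -, hGT⟩ := hT (n + 1)
  have hrem : (fun v => G (0, v) (fun _ => v)) =O[𝓝 0] fun v => ‖v‖ ^ (n + 1) := by
    refine multi_isBigO (G := fun v => G (0, v)) ?_
    exact (hG.continuous.comp (by fun_prop : Continuous fun v : E => ((0 : ℝ), v))).continuousAt
  have hzero : ∀ k, k < n → ∀ v, M k 0 (fun _ => v) = 0 := by
    intro k hk v
    obtain ⟨m, rfl⟩ : ∃ m, n = m + 1 := ⟨n - 1, by omega⟩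
    have hdir : Tendsto (fun t : ℝ => t • v) (𝓝 0) (𝓝 0) := by
      have : Continuous fun t : ℝ => t • v := by fun_prop
      simpa using this.tendsto 0
    have hnorm : ∀ j : ℕ, (fun t : ℝ => ‖t • v‖ ^ j) =O[𝓝 0] fun t : ℝ => t ^ j := by
      intro j
      refine IsBigO.of_bound (‖v‖ ^ j) (Eventually.of_forall fun t => ?_)
      rw [norm_smul, mul_pow, norm_mul, norm_pow, norm_norm, norm_pow, norm_pow, norm_norm, mul_comm]
    have a1 : (fun t : ℝ => f (t • v)) =O[𝓝 0] fun t : ℝ => t ^ (m + 1) :=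
      (h.comp_tendsto hdir).trans (hnorm _)
    have a2 : (fun t : ℝ => G (0, t • v) (fun _ => t • v)) =O[𝓝 0] fun t : ℝ => t ^ (m + 1) := by
      have b1 := (hrem.comp_tendsto hdir).trans (hnorm (m + 1 + 1))
      refine b1.trans ?_
      have b2 : (fun t : ℝ => t ^ (m + 1 + 1)) =O[𝓝 0] fun t : ℝ => t ^ (m + 1) := by
        have : (fun t : ℝ => t ^ (m + 1 + 1)) = fun t : ℝ => t * t ^ (m + 1) := by
          funext t; ring
        rw [this]
        have b3 : (fun t : ℝ => t) =O[𝓝 0] fun _ : ℝ => (1 : ℝ) := by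
          exact (continuous_id.continuousAt (x := (0 : ℝ))).norm.isBoundedUnder_le.isBigO_one ℝ
        simpa using b3.mul (isBigO_refl (fun t : ℝ => t ^ (m + 1)) (𝓝 0))
      exact b2
    have a3 : (fun t : ℝ => M (m + 1) 0 (fun _ => t • v)) =O[𝓝 0] fun t : ℝ => t ^ (m + 1) := by
      have : (fun t : ℝ => M (m + 1) 0 (fun _ => t • v)) = fun t : ℝ => t ^ (m + 1) • M (m + 1) 0 (fun _ => v) := by
        funext t
        have := (M (m + 1) 0).map_smul_univ (fun _ => t) (fun _ => v)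
        simpa using this
      rw [this]
      refine IsBigO.of_bound ‖M (m + 1) 0 (fun _ => v)‖ (Eventually.of_forall fun t => ?_)
      rw [norm_smul, mul_comm]
    have a4 : (fun t : ℝ => ∑ j ∈ Finset.range (m + 1), t ^ j • M j 0 (fun _ => v)) =O[𝓝 0]
        fun t : ℝ => t ^ (m + 1) := by
      have : (fun t : ℝ => ∑ j ∈ Finset.range (m + 1), t ^ j • M j 0 (fun _ => v)) =
          fun t : ℝ => f (t • v) - M (m + 1) 0 (fun _ => t • v) - G (0, t • v) (fun _ => t • v) := by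
        funext t
        have := hGT 0 (t • v)
        simp only at this
        rw [this, Finset.sum_range_succ _ (m + 1)]
        have e : ∀ j, M j 0 (fun _ => t • v) = t ^ j • M j 0 (fun _ => v) := by
          intro j
          have := (M j 0).map_smul_univ (fun _ => t) (fun _ => v)
          simpa using this
        simp only [e]
        abel
      rw [this]
      exact (a1.sub a3).sub a2
    exact poly1_unique m (fun j => M j 0 (fun _ => v)) a4 k (by omega)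
  refine ⟨M n 0, ?_⟩
  have : (fun v => f v - M n 0 (fun _ => v)) = fun v => G (0, v) (fun _ => v) := by
    funext v
    have := hGT 0 v
    simp only at this
    rw [this, Finset.sum_range_succ, Finset.sum_eq_zero (fun k hk => hzero k (Finset.mem_range.1 hk) v)]
    abel
  rw [this]
  exact hrem

end Pool.Agent.Lib.H37D
end

-- from Lib.H37D.DB06b
section

/-! # H37D, chunk DB06b: the normal form in a finite-dimensional space -/

open Set Filter Topology Asymptotics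
open scoped ContDiff

namespace Pool.Agent.Lib.H37D

open Pool.Agent.Lib.H37N

variable {V ι : Type} [NormedAddCommGroup V] [NormedSpace ℝ V] [FiniteDimensional ℝ V] [Fintype ι]

/-- PROOF. F = f - L is smooth, fderiv F 0 = 0, and fderiv F is differentiable at 0, so ‖fderiv F z‖ ≤ C ‖z‖ for ‖z‖ ≤ r (`HasFDerivAt.isBigO_sub`,
`IsBigO.exists_nonneg`, `Metric.eventually_nhds_iff`; take a smaller r for closed balls).  Mean value inequality on the convex set closedBall 0 (max ‖a‖ ‖b‖)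
(`Convex.norm_image_sub_le_of_norm_fderiv_le`): ‖F a - F b‖ ≤ C max(‖a‖,‖b‖) ‖a - b‖. -/
theorem lip_remM {f : V → V} (hf : ContDiff ℝ ∞ f) (L : V →L[ℝ] V) (hL : fderiv ℝ f 0 = L) :
    ∃ C r : ℝ, 0 ≤ C ∧ 0 < r ∧ ∀ a b : V, ‖a‖ ≤ r → ‖b‖ ≤ r →
      ‖f a - f b - L (a - b)‖ ≤ C * max ‖a‖ ‖b‖ * ‖a - b‖ := by
  have h1 : ContDiff ℝ ∞ (fderiv ℝ f) := hf.fderiv_right (by simp)
  have h2 : DifferentiableAt ℝ (fderiv ℝ f) 0 := h1.differentiable (by simp) 0
  have h3 : (fun z : V => fderiv ℝ f z - fderiv ℝ f 0) =O[𝓝 0] fun z : V => z - 0 := h2.isBigO_sub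
  obtain ⟨C, hC0, hC⟩ := h3.exists_nonneg
  rw [IsBigOWith, Metric.eventually_nhds_iff] at hC
  obtain ⟨r, hr, hCr⟩ := hC
  refine ⟨C, r / 2, hC0, by positivity, ?_⟩
  intro a b ha hb
  set m := max ‖a‖ ‖b‖ with hm
  have hmr : m ≤ r / 2 := max_le ha hb
  have hbound : ∀ z ∈ Metric.closedBall (0 : V) m, ‖fderiv ℝ f z - L‖ ≤ C * m := by
    intro z hz
    rw [mem_closedBall_zero_iff] at hz
    have h4 := hCr (y := z) (by rw [dist_zero_right]; linarith)
    rw [hL, sub_zero] at h4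
    exact h4.trans (mul_le_mul_of_nonneg_left hz hC0)
  have h5 := (convex_closedBall (0 : V) m).norm_image_sub_le_of_norm_fderiv_le' (𝕜 := ℝ)
    (fun z _ => hf.differentiable (by simp) z) hbound
    (mem_closedBall_zero_iff.2 (le_max_right ‖a‖ ‖b‖)) (mem_closedBall_zero_iff.2 (le_max_left ‖a‖ ‖b‖))
  exact h5

theorem db06b_pow {m n : ℕ} (h : n ≤ m) :
    (fun v : V => ‖v‖ ^ m) =O[𝓝 0] fun v => ‖v‖ ^ n := by
  refine IsBigO.of_bound 1 ?_
  filter_upwards [Metric.closedBall_mem_nhds (0 : V) one_pos] with v hv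
  rw [mem_closedBall_zero_iff] at hv
  rw [norm_pow, norm_pow, norm_norm, one_mul]
  exact pow_le_pow_of_le_one (norm_nonneg v) hv h

theorem db06b_tendsto {H : V → V} {n : ℕ} (hn : 1 ≤ n) (hH : H =O[𝓝 0] fun v => ‖v‖ ^ n) :
    Tendsto H (𝓝 0) (𝓝 0) := by
  refine hH.trans_tendsto ?_
  have : Continuous (fun v : V => ‖v‖ ^ n) := by fun_prop
  have h2 := this.tendsto 0
  rw [norm_zero, zero_pow (by omega)] at h2
  exact h2

theorem db06b_zero {H : V → V} {n : ℕ} (hn : 1 ≤ n) (hH : H =O[𝓝 0] fun v => ‖v‖ ^ n) :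
    H 0 = 0 := by
  obtain ⟨C, hC⟩ := hH.bound
  have := hC.self_of_nhds
  rw [norm_zero, zero_pow (by omega), norm_zero, mul_zero] at this
  exact norm_le_zero_iff.1 this

/-- PROOF. By `lip_rem` with a = h v + H v, b = h v (both small for small v, h and H continuous, zero at 0): the error is at most C max(‖h v + H v‖, ‖h v‖) ‖H v‖ and
‖h v‖ = O(‖v‖) (differentiable, h 0 = 0), ‖H v‖ = O(‖v‖^n) = O(‖v‖) (n ≥ 1). -/
theorem db06_add {f h H : V → V} (hf : ContDiff ℝ ∞ f) {L : V →L[ℝ] V} (hL : fderiv ℝ f 0 = L)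
    (hh : ContDiff ℝ ∞ h) (h0 : h 0 = 0) {n : ℕ} (hn : 1 ≤ n) (hH : H =O[𝓝 0] fun v => ‖v‖ ^ n) :
    (fun v => f (h v + H v) - f (h v) - L (H v)) =O[𝓝 0] fun v => ‖v‖ ^ (n + 1) := by
  obtain ⟨C, r, hC, hr, hlip⟩ := lip_remM hf L hL
  have hHt : Tendsto H (𝓝 0) (𝓝 0) := db06b_tendsto hn hH
  have hht : Tendsto h (𝓝 0) (𝓝 0) := by
    have := hh.continuous.tendsto 0
    rw [h0] at this
    exact this
  have hst : Tendsto (fun v => h v + H v) (𝓝 0) (𝓝 0) := by simpa using hht.add hHt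
  have e1 : ∀ᶠ v in 𝓝 (0 : V), ‖h v + H v‖ ≤ r := by
    filter_upwards [hst (Metric.closedBall_mem_nhds (0 : V) hr)] with v hv
    exact mem_closedBall_zero_iff.1 hv
  have e2 : ∀ᶠ v in 𝓝 (0 : V), ‖h v‖ ≤ r := by
    filter_upwards [hht (Metric.closedBall_mem_nhds (0 : V) hr)] with v hv
    exact mem_closedBall_zero_iff.1 hv
  have hO1 : (fun v => ‖h v‖ + ‖H v‖) =O[𝓝 0] fun v : V => ‖v‖ ^ 1 := by
    have h3 : h =O[𝓝 0] fun v : V => ‖v‖ ^ 1 := by
      have h4 := (hh.differentiable (by simp) 0).isBigO_sub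
      simp only [h0, sub_zero] at h4
      simpa only [pow_one] using h4.norm_right
    exact h3.norm_left.add (hH.trans (db06b_pow hn)).norm_left
  have hO2 : (fun v => (‖h v‖ + ‖H v‖) * ‖H v‖) =O[𝓝 0] fun v : V => ‖v‖ ^ (n + 1) := by
    refine (hO1.mul hH.norm_left).congr_right fun v => ?_
    rw [pow_one, pow_succ, mul_comm]
  refine IsBigO.trans (IsBigO.of_bound C ?_) hO2
  filter_upwards [e1, e2] with v h1 h2
  have h3 := hlip (h v + H v) (h v) h1 h2
  rw [add_sub_cancel_left] at h3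
  refine h3.trans ?_
  rw [norm_mul, norm_norm, Real.norm_of_nonneg (by positivity), mul_assoc]
  refine mul_le_mul_of_nonneg_left ?_ hC
  refine mul_le_mul_of_nonneg_right ?_ (norm_nonneg _)
  exact max_le (norm_add_le _ _) (by linarith [norm_nonneg (H v)])

/-- Normal form.

PROOF. n ≤ 2: h = id; f v - L v = O(‖v‖^2) by `lip_rem` with b = 0; and ‖v‖^2 = O(‖v‖^n).  Step from n ≥ 2 to n+1: E(v) = f (h v) - h (L v) is smooth and O(‖v‖^n); `homog_part` gives c with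
E = Σ + O(‖v‖^(n+1)), `homog_solve` gives H.  New h' = h + H: smooth, h' 0 = 0 (H 0 = 0 because H = O(‖v‖^n), n ≥ 1), fderiv h' 0 = id because fderiv H 0 = 0 (H = O(‖v‖^2) = o(‖v‖)).
f (h' v) - h' (L v) = [f (h v + H v) - f (h v) - L (H v)] + [E(v) - Σ] + [Σ + L (H v) - H (L v)], the last bracket is 0, the first is O(‖v‖^(n+1)) by `db06_add`. -/
theorem normal_formM (b : Module.Basis ι ℝ V) {f : V → V} (hf : ContDiff ℝ ∞ f) (h0 : f 0 = 0) {L : V →L[ℝ] V} {Λ : ι → ℝ}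
    (hL : fderiv ℝ f 0 = L) (hΛ : ∀ a, L (b a) = Λ a • b a)
    (hnr : ∀ n : ℕ, 2 ≤ n → ∀ (t : Fin n → ι) (a : ι), ∏ j, Λ (t j) ≠ Λ a) (n : ℕ) :
    ∃ h : V → V, ContDiff ℝ ∞ h ∧ h 0 = 0 ∧ fderiv ℝ h 0 = ContinuousLinearMap.id ℝ V ∧
      (fun v => f (h v) - h (L v)) =O[𝓝 0] fun v => ‖v‖ ^ n := by
  have key : ∀ m, 2 ≤ m → ∃ h : V → V, ContDiff ℝ ∞ h ∧ h 0 = 0 ∧
      fderiv ℝ h 0 = ContinuousLinearMap.id ℝ V ∧
      (fun v => f (h v) - h (L v)) =O[𝓝 0] fun v => ‖v‖ ^ m := by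
    intro m hm
    induction m, hm using Nat.le_induction with
    | base =>
      refine ⟨id, contDiff_id, rfl, fderiv_id, ?_⟩
      obtain ⟨C, r, hC, hr, hlip⟩ := lip_remM hf L hL
      refine IsBigO.of_bound C ?_
      filter_upwards [Metric.closedBall_mem_nhds (0 : V) hr] with v hv
      have h3 := hlip v 0 (mem_closedBall_zero_iff.1 hv) (by rw [norm_zero]; exact hr.le)
      rw [h0, sub_zero, sub_zero, norm_zero, max_eq_left (norm_nonneg v)] at h3
      rw [norm_pow, norm_norm]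
      refine h3.trans (le_of_eq ?_)
      ring
    | succ n hn ih =>
      obtain ⟨h, hh, hh0, hhd, hO⟩ := ih
      have hE : ContDiff ℝ ∞ (fun v => f (h v) - h (L v)) :=
        (hf.comp hh).sub (hh.comp L.contDiff)
      obtain ⟨M, hM⟩ := homog_partM hE n hO
      obtain ⟨H, hHs, hHO, hHe⟩ := homol b hΛ (hnr n hn) M
      have hH0 : H 0 = 0 := db06b_zero (by omega) hHO
      have hHd : HasFDerivAt H (0 : V →L[ℝ] V) 0 := by
        rw [hasFDerivAt_iff_isLittleO_nhds_zero]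
        simp only [zero_add, hH0, sub_zero, zero_apply]
        have h4 : H =O[𝓝 0] fun v : V => ‖v‖ ^ 2 := hHO.trans (db06b_pow hn)
        refine h4.trans_isLittleO ?_
        exact isLittleO_norm_pow_id one_lt_two
      refine ⟨fun v => h v + H v, hh.add hHs, by simp only [hh0, hH0, add_zero], ?_, ?_⟩
      · have h5 : HasFDerivAt (fun v => h v + H v) (fderiv ℝ h 0 + 0) 0 :=
          (hh.differentiable (by simp) 0).hasFDerivAt.add hHd
        rw [h5.fderiv, hhd, add_zero]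
      · have h6 := db06_add hf hL hh hh0 (n := n) (by omega) hHO
        refine (h6.add hM).congr_left fun v => ?_
        have h7 := hHe v
        have h8 : M (fun _ => v) = H (L v) - L (H v) := by
          rw [← neg_inj, ← h7]
          abel
        simp only [h8]
        abel
  obtain ⟨h, hh, hh0, hhd, hO⟩ := key (max n 2) (le_max_right _ _)
  exact ⟨h, hh, hh0, hhd, hO.trans (db06b_pow (le_max_left _ _))⟩

end Pool.Agent.Lib.H37D
end

-- from Lib.H37D.DB07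
section

/-! # H37D, chunk DB07: linearisation by a flat correction, in a finite-dimensional space -/

open Set Filter Topology Asymptotics
open scoped ContDiff

namespace Pool.Agent.Lib.H37D

open Pool.Agent.Lib.H37N

variable {V ι : Type} [NormedAddCommGroup V] [NormedSpace ℝ V] [FiniteDimensional ℝ V] [Fintype ι]

/-- Approximate linearisation.

PROOF. f₀(v) = C⁻¹ (g (z₀ + C v) - z₀) is smooth near 0, f₀ 0 = 0, fderiv f₀ 0 = C⁻¹ ∘ fderiv g z₀ ∘ C = L (chain rule, hC).  `localise_at`: a global smooth f with f = f₀ near 0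
(so the same value and derivative at 0: `Filter.EventuallyEq.fderiv_eq`).  h from `normal_form` for f and n; κ₀ v = z₀ + C (h v).  For v near 0, h v is near 0, g (κ₀ v) = z₀ + C (f (h v)), so
g (κ₀ v) - κ₀ (L v) = C (f (h v) - h (L v)) = O(‖v‖^n). -/
theorem db07_approx (b : Module.Basis ι ℝ V) {g : V → V} {z₀ : V} (hg : ∀ᶠ z in 𝓝 z₀, ContDiffAt ℝ ∞ g z) (hfix : g z₀ = z₀)
    (C : V ≃L[ℝ] V) {L : V →L[ℝ] V} {Λ : ι → ℝ} (hC : ∀ v, fderiv ℝ g z₀ (C v) = C (L v)) (hΛ : ∀ a, L (b a) = Λ a • b a)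
    (hnr : ∀ n : ℕ, 2 ≤ n → ∀ (t : Fin n → ι) (a : ι), ∏ j, Λ (t j) ≠ Λ a) (n : ℕ) :
    ∃ κ₀ : V → V, ContDiff ℝ ∞ κ₀ ∧ κ₀ 0 = z₀ ∧ fderiv ℝ κ₀ 0 = (C : V →L[ℝ] V) ∧
      (fun v => g (κ₀ v) - κ₀ (L v)) =O[𝓝 0] fun v => ‖v‖ ^ n := by
  have hCs : ContDiff ℝ ∞ (fun v : V => z₀ + C v) := contDiff_const.add C.contDiff
  have hC0 : z₀ + C 0 = z₀ := by rw [map_zero, add_zero]
  have hf0 : ∀ᶠ v in 𝓝 (0 : V), ContDiffAt ℝ ∞ (fun v => C.symm (g (z₀ + C v) - z₀)) v := by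
    have ht : Tendsto (fun v : V => z₀ + C v) (𝓝 0) (𝓝 z₀) := by
      have := hCs.continuous.tendsto 0
      rw [hC0] at this
      exact this
    filter_upwards [ht.eventually hg] with v hv
    have h1 : ContDiffAt ℝ ∞ (fun v => g (z₀ + C v)) v := ContDiffAt.comp v hv hCs.contDiffAt
    exact C.symm.contDiff.contDiffAt.comp v (h1.sub contDiffAt_const)
  have hder : HasFDerivAt (fun v => C.symm (g (z₀ + C v) - z₀)) L 0 := by
    have h1 : HasFDerivAt (fun v : V => z₀ + C v) (C : V →L[ℝ] V) 0 :=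
      (C.hasFDerivAt).const_add z₀
    have h2 : HasFDerivAt g (fderiv ℝ g z₀) (z₀ + C 0) := by
      rw [hC0]
      exact (hg.self_of_nhds.differentiableAt (by simp)).hasFDerivAt
    have h3 := (C.symm.hasFDerivAt (x := g (z₀ + C 0) - z₀)).comp (0 : V) ((h2.comp (0 : V) h1).sub_const z₀)
    have h4 : ((C.symm : V →L[ℝ] V).comp ((fderiv ℝ g z₀).comp (C : V →L[ℝ] V))) = L := by
      refine ContinuousLinearMap.ext fun v => ?_
      simp only [ContinuousLinearMap.comp_apply, ContinuousLinearEquiv.coe_coe, hC,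
        ContinuousLinearEquiv.symm_apply_apply]
    rw [h4] at h3
    exact h3
  obtain ⟨f, hf, hfe⟩ := localise_at hf0
  have hf00 : f 0 = 0 := by
    rw [hfe.eq_of_nhds]
    simp only [map_zero, add_zero, hfix, sub_self]
  have hfd : fderiv ℝ f 0 = L := by
    rw [hfe.fderiv_eq]
    exact hder.fderiv
  obtain ⟨h, hh, hh0, hhd, hO⟩ := normal_formM b hf hf00 hfd hΛ hnr n
  refine ⟨fun v => z₀ + C (h v), contDiff_const.add (C.contDiff.comp hh), ?_, ?_, ?_⟩
  · simp only [hh0, map_zero, add_zero]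
  · have h1 : HasFDerivAt h (ContinuousLinearMap.id ℝ V) 0 := by
      rw [← hhd]
      exact (hh.differentiable (by simp) 0).hasFDerivAt
    have h2 : HasFDerivAt (fun v => z₀ + C (h v)) ((C : V →L[ℝ] V).comp (ContinuousLinearMap.id ℝ V)) 0 :=
      ((C.hasFDerivAt (x := h 0)).comp (0 : V) h1).const_add z₀
    rw [h2.fderiv, ContinuousLinearMap.comp_id]
  · have ht : Tendsto h (𝓝 0) (𝓝 0) := by
      have := hh.continuous.tendsto 0
      rw [hh0] at this
      exact this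
    have h3 : (fun v => C (f (h v) - h (L v))) =O[𝓝 0] fun v => ‖v‖ ^ n :=
      ((C : V →L[ℝ] V).isBigO_comp _ _).trans hO
    refine h3.congr' ?_ (EventuallyEq.refl _ _)
    filter_upwards [ht.eventually hfe] with v hv
    rw [hv, map_sub, ContinuousLinearEquiv.apply_symm_apply]
    abel

theorem db07_bij (b : Module.Basis ι ℝ V) {L : V →L[ℝ] V} {Λ : ι → ℝ} (hΛ : ∀ a, L (b a) = Λ a • b a)
    (hne : ∀ a, Λ a ≠ 0) : Function.Bijective L := by
  have hs : Function.Surjective (L : V →ₗ[ℝ] V) := by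
    intro w
    refine ⟨∑ a, (b.repr w a / Λ a) • b a, ?_⟩
    rw [map_sum]
    conv_rhs => rw [← b.sum_repr w]
    refine Finset.sum_congr rfl fun a _ => ?_
    rw [map_smul, ContinuousLinearMap.coe_coe, hΛ, smul_smul, div_mul_cancel₀ _ (hne a)]
  exact ⟨LinearMap.injective_iff_surjective.2 hs, hs⟩

/-- Linearisation after a small perturbation.

PROOF. κ₀ from `db07_approx` with n = R+1.  θ = g ∘ κ₀ is smooth near 0 (κ₀ continuous, κ₀ 0 = z₀), θ 0 = z₀, fderiv θ 0 = fderiv g z₀ ∘ C = C ∘ L is bijective (lam, mu ≠ 0).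
`inverse_fun`: τ smooth with τ z₀ = 0, τ (θ v) = v for v near 0, θ (τ w) = w for w near z₀.  G w = κ₀ (L (τ w)) is smooth, and near z₀: G w - w = κ₀ (L (τ w)) - θ (τ w) =
- (g (κ₀ v) - κ₀ (L v)) at v = τ w, so it is O(‖τ w‖^(R+1)) = O(‖w - z₀‖^(R+1)) (τ differentiable at z₀, τ z₀ = 0: `IsBigO.comp_tendsto`, `DifferentiableAt.isBigO_sub`).
`flat_corr` gives ψ with ψ = G near z₀.  For v near 0: ψ (g (κ₀ v)) = ψ (θ v) = G (θ v) = κ₀ (L (τ (θ v))) = κ₀ (L v). -/
theorem flat_germM (b : Module.Basis ι ℝ V) {g : V → V} {z₀ : V} (hg : ∀ᶠ z in 𝓝 z₀, ContDiffAt ℝ ∞ g z)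
    (hfix : g z₀ = z₀) (C : V ≃L[ℝ] V) {L : V →L[ℝ] V} {Λ : ι → ℝ} (hC : ∀ v, fderiv ℝ g z₀ (C v) = C (L v))
    (hΛ : ∀ a, L (b a) = Λ a • b a) (hne : ∀ a, Λ a ≠ 0)
    (hnr : ∀ n : ℕ, 2 ≤ n → ∀ (t : Fin n → ι) (a : ι), ∏ j, Λ (t j) ≠ Λ a) (R : ℕ) :
    ∃ G κ₀ : V → V, ContDiff ℝ ∞ G ∧ ((fun w => G w - w) =O[𝓝 z₀] fun w => ‖w - z₀‖ ^ (R + 1)) ∧ ContDiff ℝ ∞ κ₀ ∧
      κ₀ 0 = z₀ ∧ fderiv ℝ κ₀ 0 = (C : V →L[ℝ] V) ∧ ∀ᶠ v in 𝓝 (0 : V), G (g (κ₀ v)) = κ₀ (L v) := by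
  obtain ⟨κ₀, hκ, hκ0, hκd, hO⟩ := db07_approx b hg hfix C hC hΛ hnr (R + 1)
  have hκt : Tendsto κ₀ (𝓝 0) (𝓝 z₀) := by
    have := hκ.continuous.tendsto 0
    rw [hκ0] at this
    exact this
  have hθs : ∀ᶠ v in 𝓝 (0 : V), ContDiffAt ℝ ∞ (fun v => g (κ₀ v)) v := by
    filter_upwards [hκt.eventually hg] with v hv
    exact ContDiffAt.comp v hv hκ.contDiffAt
  have hθ0 : g (κ₀ 0) = z₀ := by rw [hκ0, hfix]
  have hθd : fderiv ℝ (fun v => g (κ₀ v)) 0 = (fderiv ℝ g z₀).comp (C : V →L[ℝ] V) := by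
    have h1 : HasFDerivAt κ₀ (C : V →L[ℝ] V) 0 := by
      rw [← hκd]
      exact (hκ.differentiable (by simp) 0).hasFDerivAt
    have h2 : HasFDerivAt g (fderiv ℝ g z₀) (κ₀ 0) := by
      rw [hκ0]
      exact (hg.self_of_nhds.differentiableAt (by simp)).hasFDerivAt
    exact (h2.comp (0 : V) h1).fderiv
  have hbij : Function.Bijective (fderiv ℝ (fun v => g (κ₀ v)) 0) := by
    rw [hθd]
    have h1 : ∀ v, ((fderiv ℝ g z₀).comp (C : V →L[ℝ] V)) v = C (L v) := fun v => hC v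
    have h2 : Function.Bijective L := db07_bij b hΛ hne
    have h3 : ⇑((fderiv ℝ g z₀).comp (C : V →L[ℝ] V)) = fun v => C (L v) := funext h1
    rw [h3]
    exact C.bijective.comp h2
  obtain ⟨τ, hτ, hτ0, hτl, hτr⟩ := inverse_fun hθs hbij
  simp only [hθ0] at hτ0 hτr
  have hτt : Tendsto τ (𝓝 z₀) (𝓝 0) := by
    have := hτ.continuous.tendsto z₀
    rw [hτ0] at this
    exact this
  have hG : ContDiff ℝ ∞ (fun w => κ₀ (L (τ w))) :=
    hκ.comp (L.contDiff.comp hτ)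
  have hGO : (fun w => κ₀ (L (τ w)) - w) =O[𝓝 z₀] fun w => ‖w - z₀‖ ^ (R + 1) := by
    have h1 : (fun w => g (κ₀ (τ w)) - κ₀ (L (τ w))) =O[𝓝 z₀] fun w => ‖τ w‖ ^ (R + 1) :=
      hO.comp_tendsto hτt
    have h2 : (fun w => ‖τ w‖ ^ (R + 1)) =O[𝓝 z₀] fun w => ‖w - z₀‖ ^ (R + 1) := by
      have h3 : (fun w => τ w - τ z₀) =O[𝓝 z₀] fun w => w - z₀ := (hτ.differentiable (by simp) z₀).isBigO_sub
      simp only [hτ0, sub_zero] at h3
      exact h3.norm_norm.pow _
    refine ((h1.trans h2).neg_left).congr' ?_ (EventuallyEq.refl _ _)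
    filter_upwards [hτr] with w hw
    rw [hw]
    abel
  refine ⟨fun w => κ₀ (L (τ w)), κ₀, hG, hGO, hκ, hκ0, hκd, ?_⟩
  filter_upwards [hτl] with v h2
  rw [h2]

end Pool.Agent.Lib.H37D
end

-- from Lib.H37N.B20
section

/-! # H37N, chunk B20 (S/M): the rate inequality (R1) -/

open Set Filter Topology
open scoped ContDiff

namespace Pool.Agent.Lib.H37N

theorem b20_bds {g : Pt → Pt} {F : Fr} (h : IsFr g F) :
    (49 / 100 < F.lam Sy.P ∧ F.lam Sy.P < 51 / 100) ∧ (49 / 100 < F.lam Sy.Q ∧ F.lam Sy.Q < 51 / 100) ∧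
      (124 / 100 < F.mu Sy.P ∧ F.mu Sy.P < 126 / 100) ∧ (5 < F.mu Sy.Q ∧ F.mu Sy.Q < 505 / 100) := by
  have h1 := (h.chart Sy.P).lam_mem
  have h2 := (h.chart Sy.Q).lam_mem
  have h3 := (h.chart Sy.P).mu_mem
  have h4 := (h.chart Sy.Q).mu_mem
  exact ⟨⟨h1.1, h1.2⟩, ⟨h2.1, h2.2⟩, ⟨h3.1, h3.2⟩, ⟨h4.1, h4.2⟩⟩

/-- PROOF. lamP muP < 51/100 * 126/100 = 0.6426; lamQ muQ > 49/100 * 5 = 2.45. -/
theorem IsFr.rates {g : Pt → Pt} {F : Fr} (h : IsFr g F) :
    0 < F.lam Sy.P ∧ F.lam Sy.P < 1 ∧ 0 < F.lam Sy.Q ∧ F.lam Sy.Q < 1 ∧ 1 < F.mu Sy.P ∧ 1 < F.mu Sy.Q ∧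
      F.lam Sy.P * F.mu Sy.P < 1 ∧ 1 < F.lam Sy.Q * F.mu Sy.Q := by
  obtain ⟨⟨a1, a2⟩, ⟨b1, b2⟩, ⟨c1, c2⟩, ⟨d1, d2⟩⟩ := b20_bds h
  refine ⟨by linarith, by linarith, by linarith, by linarith, by linarith, by linarith, ?_, ?_⟩
  · nlinarith
  · nlinarith

/-- (R1).

PROOF. b0 = log (lamQ muQ) ≤ log 2.5755 ≤ 1 (exp 1 > 2.7), a0 = -log (lamP muP) ≥ -log 0.6426 ≥ 0.4 (exp 0.4 ≤ 1.55: exp (0.4)^5 = (exp 1)^2 < 7.39 and 1.55^5 > 8.9), log muP ≤ log 1.26 ≤ 0.25
(1 + x + x^2/2 ≤ exp x), log lamQ ≤ log 0.51 = log 0.5 + log 1.02 ≤ -0.693 + 0.02.  So log lamQ + (b0/a0) log muP ≤ -0.673 + 2.5 * 0.25 = -0.048 < 0. -/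
theorem IsFr.R1 {g : Pt → Pt} {F : Fr} (h : IsFr g F) :
    Real.log (F.lam Sy.Q) + Real.log (F.lam Sy.Q * F.mu Sy.Q) / (-Real.log (F.lam Sy.P * F.mu Sy.P)) *
      Real.log (F.mu Sy.P) < 0 := by
  obtain ⟨⟨a1, a2⟩, ⟨b1, b2⟩, ⟨c1, c2⟩, ⟨d1, d2⟩⟩ := b20_bds h
  set lP := F.lam Sy.P
  set lQ := F.lam Sy.Q
  set mP := F.mu Sy.P
  set mQ := F.mu Sy.Q
  -- the logarithms
  have hmP0 : 0 < Real.log mP := Real.log_pos (by linarith)
  have hmP : Real.log mP ≤ 1 / 4 := by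
    rw [Real.log_le_iff_le_exp (by linarith)]
    have := Real.quadratic_le_exp_of_nonneg (show (0 : ℝ) ≤ 1 / 4 by norm_num)
    norm_num at this ⊢
    linarith
  have hQ0 : 0 < Real.log (lQ * mQ) := Real.log_pos (by nlinarith)
  have hQ : Real.log (lQ * mQ) ≤ 1 := by
    rw [Real.log_le_iff_le_exp (by nlinarith)]
    have := Real.exp_one_gt_d9
    nlinarith
  have hP : Real.log (lP * mP) ≤ -(2 / 5) := by
    have h1 : Real.log (lP * mP) ≤ Real.log (6426 / 10000) :=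
      Real.log_le_log (by nlinarith) (by nlinarith)
    have h2 : Real.log (6426 / 10000) ≤ -(2 / 5) := by
      rw [Real.log_le_iff_le_exp (by norm_num)]
      have h3 : (Real.exp (-(2 / 5))) ^ 5 = (Real.exp 1)⁻¹ ^ 2 := by
        rw [← Real.exp_nat_mul, ← Real.exp_neg, ← Real.exp_nat_mul]
        congr 1
        norm_num
      have h4 : (6426 / 10000 : ℝ) ^ 5 ≤ (Real.exp (-(2 / 5))) ^ 5 := by
        rw [h3, inv_pow, le_inv_comm₀ (by positivity) (by positivity)]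
        have h5 := Real.exp_one_lt_d9
        have h6 : Real.exp 1 ^ 2 ≤ 2.7182818286 ^ 2 :=
          pow_le_pow_left₀ (Real.exp_pos 1).le h5.le 2
        refine h6.trans ?_
        norm_num
      exact le_of_pow_le_pow_left₀ (by norm_num) (Real.exp_pos _).le h4
    linarith
  have hlQ : Real.log lQ ≤ -(66 / 100) := by
    have h1 : Real.log lQ ≤ Real.log (51 / 100) := Real.log_le_log (by linarith) b2.le
    have h2 : Real.log (51 / 100) = Real.log (102 / 100) - Real.log 2 := by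
      rw [← Real.log_div (by norm_num) (by norm_num)]
      norm_num
    have h3 : Real.log (102 / 100) ≤ 102 / 100 - 1 := Real.log_le_sub_one_of_pos (by norm_num)
    have h4 := Real.log_two_gt_d9
    linarith
  have hq : Real.log (lQ * mQ) / (-Real.log (lP * mP)) ≤ 5 / 2 := by
    rw [div_le_iff₀ (by linarith)]
    linarith
  have hq0 : 0 ≤ Real.log (lQ * mQ) / (-Real.log (lP * mP)) := by
    apply div_nonneg hQ0.le; linarith
  nlinarith

end Pool.Agent.Lib.H37N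
end

-- from Lib.H37N.I1b
section

/-! # H37N, chunk I1b (M): the sequences (n_j, ν_j) -/

open Set Filter Topology
open scoped ContDiff

namespace Pool.Agent.Lib.H37N

/-- I.1.

PROOF. Put a = -log(lP mP) > 0, b = log(lQ mQ) > 0; a/b = -(log(lP mP)/log(lQ mQ)) is irrational (`Rates.irr`, `Irrational.neg`), c = log(B0/dS).  `density_pair` with
N = j, ε = 1/(j+1): n j, ν j ≥ j with |ν_j b - n_j a - c| < 1/(j+1).
Third limit: dS (lP mP)^n (lQ mQ)^ν = dS exp(ν b - n a) → dS exp(c) = B0 (`Real.exp_log`, `Real.exp_nat_mul`).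
Fourth: log(mP^n lQ^ν) = n log mP + ν log lQ = (log mP/a)(n a - ν b) + ν (log lQ + (b/a) log mP); the first term is bounded (converges to -(log mP/a) c), the second tends to -∞ by
`Rates.R1` (b/a log mP + log lQ < 0) and ν_j → ∞.  mP^n lQ^ν = exp of it → 0 (`Real.tendsto_exp_atBot`).  -/
theorem density_seq {lP mP lQ mQ : ℝ} (h : Rates lP mP lQ mQ) {dS B0 : ℝ} (hd : 0 < dS) (hB : 0 < B0) :
    ∃ n ν : ℕ → ℕ, Tendsto n atTop atTop ∧ Tendsto ν atTop atTop ∧
      Tendsto (fun j => dS * (lP * mP) ^ n j * (lQ * mQ) ^ ν j) atTop (𝓝 B0) ∧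
      Tendsto (fun j => mP ^ n j * lQ ^ ν j) atTop (𝓝 0) := by
  have hlP := h.lP_pos
  have hmP : 0 < mP := by have := h.mP_gt; linarith
  have hlQ := h.lQ_pos
  have hmQ : 0 < mQ := by have := h.mQ_gt; linarith
  have hPP : 0 < lP * mP := mul_pos hlP hmP
  have hQQ : 0 < lQ * mQ := mul_pos hlQ hmQ
  set a := -Real.log (lP * mP) with ha_def
  set b := Real.log (lQ * mQ) with hb_def
  have ha : 0 < a := by
    have := Real.log_neg hPP h.prodP
    linarith
  have hb : 0 < b := Real.log_pos h.prodQ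
  have hirr : Irrational (a / b) := by
    have h1 := h.irr.neg
    rw [← neg_div] at h1
    exact h1
  set c := Real.log (B0 / dS) with hc_def
  have hj : ∀ j : ℕ, ∃ p : ℕ × ℕ, j ≤ p.1 ∧ j ≤ p.2 ∧ |(p.2 : ℝ) * b - p.1 * a - c| < 1 / ((j : ℝ) + 1) := by
    intro j
    obtain ⟨n, ν, h1, h2, h3⟩ := density_pair ha hb hirr c j (ε := 1 / ((j : ℝ) + 1)) (by positivity)
    exact ⟨(n, ν), h1, h2, h3⟩
  choose p hp1 hp2 hp3 using hj
  have hn : Tendsto (fun j => (p j).1) atTop atTop := tendsto_atTop_mono hp1 tendsto_id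
  have hν : Tendsto (fun j => (p j).2) atTop atTop := tendsto_atTop_mono hp2 tendsto_id
  have hνr : Tendsto (fun j => ((p j).2 : ℝ)) atTop atTop := tendsto_natCast_atTop_atTop.comp hν
  have hlim : Tendsto (fun j => ((p j).2 : ℝ) * b - (p j).1 * a) atTop (𝓝 c) := by
    rw [tendsto_iff_norm_sub_tendsto_zero]
    refine squeeze_zero (fun j => norm_nonneg _) (fun j => ?_) tendsto_one_div_add_atTop_nhds_zero_nat
    rw [Real.norm_eq_abs]
    exact (hp3 j).le
  refine ⟨fun j => (p j).1, fun j => (p j).2, hn, hν, ?_, ?_⟩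
  · have h1 : Tendsto (fun j => dS * Real.exp (((p j).2 : ℝ) * b - (p j).1 * a)) atTop (𝓝 (dS * Real.exp c)) :=
      ((Real.continuous_exp.tendsto c).comp hlim).const_mul dS
    have h2 : dS * Real.exp c = B0 := by
      rw [hc_def, Real.exp_log (div_pos hB hd)]
      field_simp
    rw [h2] at h1
    refine h1.congr (fun j => ?_)
    have e1 : (lP * mP) ^ (p j).1 = Real.exp (-((p j).1 * a)) := by
      rw [ha_def, mul_neg, neg_neg, Real.exp_nat_mul, Real.exp_log hPP]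
    have e2 : (lQ * mQ) ^ (p j).2 = Real.exp ((p j).2 * b) := by
      rw [hb_def, Real.exp_nat_mul, Real.exp_log hQQ]
    rw [e1, e2, mul_assoc, ← Real.exp_add]
    congr 2
    ring
  · have h1 : Tendsto (fun j => (Real.log mP / a) * -(((p j).2 : ℝ) * b - (p j).1 * a)) atTop (𝓝 ((Real.log mP / a) * -c)) :=
      hlim.neg.const_mul _
    have hneg : Real.log lQ + b / a * Real.log mP < 0 := h.R1
    have h2 : Tendsto (fun j => (Real.log lQ + b / a * Real.log mP) * ((p j).2 : ℝ)) atTop atBot :=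
      hνr.const_mul_atTop_of_neg hneg
    have h3 := h1.add_atBot h2
    have h4 := Real.tendsto_exp_atBot.comp h3
    refine h4.congr (fun j => ?_)
    have e1 : mP ^ (p j).1 = Real.exp ((p j).1 * Real.log mP) := by
      rw [Real.exp_nat_mul, Real.exp_log hmP]
    have e2 : lQ ^ (p j).2 = Real.exp ((p j).2 * Real.log lQ) := by
      rw [Real.exp_nat_mul, Real.exp_log hlQ]
    rw [e1, e2, ← Real.exp_add]
    simp only [Function.comp_apply]
    congr 1
    field_simp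
    ring

end Pool.Agent.Lib.H37N
end

-- from Lib.H37N.I1d
section

/-! # H37N, chunk I1d: the rates of a frame -/

open Set Filter Topology
open scoped ContDiff

namespace Pool.Agent.Lib.H37N

theorem IsFr.toRates {g : Pt → Pt} {F : Fr} (h : IsFr g F) :
    Rates (F.lam Sy.P) (F.mu Sy.P) (F.lam Sy.Q) (F.mu Sy.Q) := by
  obtain ⟨h1, h2, h3, h4, h5, h6, h7, h8⟩ := h.rates
  exact ⟨h1, h2, h5, h3, h4, h6, h7, h8, h.R1, h.irr⟩

end Pool.Agent.Lib.H37N
end
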