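import Pool.Agent.Lib.H1M.FF.M018
import Pool.Agent.Lib.H1M.FF.M019

/-! Merged copies (to shorten the build) of Lib.H37D.DB03, Lib.H37D.DB09a, Lib.H37N.MM2, Lib.H37N.MM4. -/

-- from Lib.H37D.DB03
section

/-! # H37D, chunk DB03 (S/M): the eigenbasis at a point of a strip -/

open Set Filter Topology
open scoped ContDiff

namespace Pool.Agent.Lib.H37D

open Pool.Agent.Lib.H37N

variable {d : ℕ}

theorem db03_CC0 (v : En d) : CC0 d v = ((v.1.2, -v.1.1), v.2) := rfl

theorem db03_awk (k : Fin d) : awk d k ∈ Icc (90 / 10 ^ 9 : ℝ) (100 / 10 ^ 9) := by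
  have h1 : ((k : ℕ) : ℝ) + 1 ≤ (d : ℝ) + 1 := by
    have : ((k : ℕ) : ℝ) ≤ (d : ℝ) := by exact_mod_cast k.2.le
    linarith
  have h0 : (0 : ℝ) < (d : ℝ) + 1 := by positivity
  have h2 : ((k : ℕ) : ℝ) + 1 ≤ 1 * ((d : ℝ) + 1) := by linarith
  have h3 : (((k : ℕ) : ℝ) + 1) / (10 * ((d : ℝ) + 1)) ≤ 1 / 10 := by
    rw [div_le_div_iff₀ (by positivity) (by norm_num)]
    linarith
  have h4 : 0 ≤ (((k : ℕ) : ℝ) + 1) / (10 * ((d : ℝ) + 1)) := by positivity
  unfold awk aw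
  constructor
  · norm_num at *
    linarith
  · norm_num at *
    linarith

/-- PROOF. `diagonalizable` for L = fderiv ℝ g z (`hg.closeS`); C as a continuous linear equivalence: `ContinuousLinearEquiv.equivOfInverse` with inverse C'.  fderiv g z (C v) = C (dgD lam mu al v):
apply L.comp C = C.comp (dgD ..) to v.  Ranges: qw i ∈ {1/2, 499/1000}, 1/pw i ∈ {5/4, 1000/199}, muR; awk d k = aw (1 - (k+1)/(10(d+1))) ∈ [9/10^8, 1/10^7] (k + 1 ≤ d + 1), aw = 1/10^7,
error at most 1/10^12.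
Sign: ‖C - CC0‖ ≤ 1/10^12 and CC0 ((x,y),w) = ((y,-x),w).  So (C ((1,0),0)) is within 1/10^12 of ((0,-1),0), (C ((0,1),0)) within 1/10^12 of ((1,0),0) (the norms of ((1,0),0), ((0,1),0) are 1),
slp C s z = (C (z,0)).1 - s ((C (z,0)).2), ‖s ((C (z,0)).2)‖ ≤ 1/10^8 * 1/10^12 for z = (1,0), (0,1): the four entries of slp C s are within 2/10^12 of those of ((0,1),(-1,0)), det2 > 0.
Slope: CC0 (0,w) = (0,w), so ‖(C (0,w)).1‖ ≤ 1/10^12 ‖w‖ and ‖(C (0,w)).2‖ ≥ ‖w‖ - 1/10^12 ‖w‖. -/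
theorem exists_eigD {g : En d → En d} (hg : NearS g) {i : Sy} {z : En d} (hz : z ∈ VVd d i) :
    ∃ (C : En d ≃L[ℝ] En d) (lam mu : ℝ) (al : Wd d), lam ∈ Ioo (49 / 100 : ℝ) (51 / 100) ∧ mu ∈ muR i ∧
      (∀ k, al k ∈ Ioo (89 / 10 ^ 9 : ℝ) (101 / 10 ^ 9)) ∧
      (∀ v, fderiv ℝ g z (C v) = C (dgD lam mu al v)) ∧
      (∀ s : Wd d →L[ℝ] Pt, ‖s‖ ≤ 1 / 10 ^ 8 → 0 < det2 (slp (C : En d →L[ℝ] En d) s)) ∧
      ∀ w : Wd d, ‖(C (0, w)).1‖ ≤ 1 / 10 ^ 9 * ‖(C (0, w)).2‖ := by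
  obtain ⟨C, C', lam, mu, al, hCC, hCC', hL, hC0, hlam, hmu, hal⟩ := diagonalizable (hg.closeS i z hz)
  have hleft : Function.LeftInverse C' C := fun v => congrArg (fun f : En d →L[ℝ] En d => f v) hCC
  have hright : Function.RightInverse C' C := fun v => congrArg (fun f : En d →L[ℝ] En d => f v) hCC'
  have hE : ∀ v : En d, ‖C v - CC0 d v‖ ≤ 1 / 10 ^ 12 * ‖v‖ := by
    intro v
    have h1 := (C - CC0 d).le_opNorm v
    rw [sub_apply] at h1
    exact h1.trans (mul_le_mul_of_nonneg_right hC0 (norm_nonneg _))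
  refine ⟨ContinuousLinearEquiv.equivOfInverse C C' hleft hright, lam, mu, al, ?_, ?_, ?_, ?_, ?_, ?_⟩
  · rw [abs_le] at hlam
    obtain ⟨a1, a2⟩ := hlam
    cases i <;> simp only [qw] at a1 a2 <;> constructor <;> linarith
  · rw [abs_le] at hmu
    obtain ⟨a1, a2⟩ := hmu
    cases i <;> simp only [pw, muR] at a1 a2 ⊢ <;> norm_num at a1 a2 <;> constructor <;> linarith
  · intro k
    have h1 := hal k
    have h2 := db03_awk k
    have h3 : 1 / (10 ^ 12 * ((d : ℝ) + 1)) ≤ 1 / 10 ^ 12 := by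
      apply one_div_le_one_div_of_le (by norm_num)
      have : (0 : ℝ) ≤ (d : ℝ) := by positivity
      nlinarith
    rw [abs_le] at h1
    obtain ⟨h4, h5⟩ := h1
    obtain ⟨h6, h7⟩ := h2
    constructor <;> linarith
  · intro v
    exact congrArg (fun f : En d →L[ℝ] En d => f v) hL
  · intro s hs
    have key : ∀ x : Pt, ‖x‖ ≤ 1 → ‖slp C s x - (x.2, -x.1)‖ ≤ 2 / 10 ^ 12 := by
      intro x hx
      have hn : ‖((x, 0) : En d)‖ ≤ 1 := by
        rw [Prod.norm_def, norm_zero]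
        exact max_le hx zero_le_one
      have h1 : ‖C (x, 0) - CC0 d (x, 0)‖ ≤ 1 / 10 ^ 12 := by
        refine (hE (x, 0)).trans ?_
        calc (1 : ℝ) / 10 ^ 12 * ‖((x, 0) : En d)‖ ≤ 1 / 10 ^ 12 * 1 := by gcongr
          _ = 1 / 10 ^ 12 := mul_one _
      rw [db03_CC0] at h1
      have h2 : ‖(C (x, 0)).1 - (x.2, -x.1)‖ ≤ 1 / 10 ^ 12 := (norm_fst_le _).trans h1
      have h3 : ‖(C (x, 0)).2‖ ≤ 1 / 10 ^ 12 := by
        have h4 := (norm_snd_le _).trans h1
        simpa using h4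
      have h5 : ‖s ((C (x, 0)).2)‖ ≤ 1 / 10 ^ 12 := by
        calc ‖s ((C (x, 0)).2)‖ ≤ ‖s‖ * ‖(C (x, 0)).2‖ := s.le_opNorm _
          _ ≤ 1 / 10 ^ 8 * (1 / 10 ^ 12) := by gcongr
          _ ≤ 1 / 10 ^ 12 := by norm_num
      have h6 : slp C s x - (x.2, -x.1) = ((C (x, 0)).1 - (x.2, -x.1)) - s ((C (x, 0)).2) := by
        show ((C (x, 0)).1 - s ((C (x, 0)).2)) - (x.2, -x.1) = _
        abel
      rw [h6]
      calc _ ≤ ‖(C (x, 0)).1 - (x.2, -x.1)‖ + ‖s ((C (x, 0)).2)‖ := norm_sub_le _ _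
        _ ≤ 1 / 10 ^ 12 + 1 / 10 ^ 12 := add_le_add h2 h5
        _ = 2 / 10 ^ 12 := by norm_num
    have k1 := key (1, 0) (by simp [Prod.norm_def])
    have k2 := key (0, 1) (by simp [Prod.norm_def])
    have a1 := (norm_fst_le _).trans k1
    have a2 := (norm_snd_le _).trans k1
    have a3 := (norm_fst_le _).trans k2
    have a4 := (norm_snd_le _).trans k2
    rw [Real.norm_eq_abs] at a1 a2 a3 a4
    simp only [Prod.fst_sub, Prod.snd_sub] at a1 a2 a3 a4
    rw [abs_le] at a1 a2 a3 a4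
    show 0 < det2 (slp C s)
    unfold det2
    set a := (slp C s (1, 0)).1
    set b := (slp C s (1, 0)).2
    set c := (slp C s (0, 1)).1
    set e := (slp C s (0, 1)).2
    obtain ⟨a11, a12⟩ := a1
    obtain ⟨a21, a22⟩ := a2
    obtain ⟨a31, a32⟩ := a3
    obtain ⟨a41, a42⟩ := a4
    have hb : 1 - 2 / 10 ^ 12 ≤ -b := by linarith
    have hc : 1 - 2 / 10 ^ 12 ≤ c := by linarith
    have h7 : (1 - 2 / 10 ^ 12) * (1 - 2 / 10 ^ 12) ≤ (-b) * c :=
      mul_le_mul hb hc (by norm_num) (le_trans (by norm_num) hb)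
    have h8 : |a * e| ≤ 2 / 10 ^ 12 * (2 / 10 ^ 12) := by
      rw [abs_mul]
      apply mul_le_mul _ _ (abs_nonneg _) (by norm_num)
      · rw [abs_le]; constructor <;> linarith
      · rw [abs_le]; constructor <;> linarith
    rw [abs_le] at h8
    norm_num at h7 h8 ⊢
    linarith [h8.1]
  · intro w
    show ‖(C (0, w)).1‖ ≤ 1 / 10 ^ 9 * ‖(C (0, w)).2‖
    have hn : ‖((0, w) : En d)‖ = ‖w‖ := by
      rw [Prod.norm_def, norm_zero]
      exact max_eq_right (norm_nonneg w)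
    have h1 := hE (0, w)
    rw [db03_CC0, hn] at h1
    have h2 : ‖(C (0, w)).1‖ ≤ 1 / 10 ^ 12 * ‖w‖ := by
      have h4 := (norm_fst_le _).trans h1
      have h5 : (C (0, w) - (((0 : Pt).2, -(0 : Pt).1), w)).1 = (C (0, w)).1 := by
        rw [Prod.fst_sub]
        have : (((0 : Pt).2, -(0 : Pt).1) : Pt) = 0 := by simp
        rw [this, sub_zero]
      rwa [h5] at h4
    have h3 : ‖(C (0, w)).2 - w‖ ≤ 1 / 10 ^ 12 * ‖w‖ := (norm_snd_le _).trans h1
    have h4 : ‖w‖ ≤ ‖(C (0, w)).2‖ + ‖(C (0, w)).2 - w‖ := by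
      have h5 := norm_sub_le (C (0, w)).2 ((C (0, w)).2 - w)
      rwa [sub_sub_cancel] at h5
    have h6 := norm_nonneg w
    norm_num at h2 h3 ⊢
    linarith

end Pool.Agent.Lib.H37D
end

-- from Lib.H37D.DB09a
section

/-! # H37D, chunk DB09a (M): the standard basis of `En d`, perturbation of the eigenvalues -/

open Set Filter Topology
open scoped ContDiff

namespace Pool.Agent.Lib.H37D

open Pool.Agent.Lib.H37N

variable {d : ℕ}

/-- the standard basis of `En d` -/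
noncomputable def basD (d : ℕ) : Module.Basis (Fin 2 ⊕ Fin d) ℝ (En d) :=
  (Module.Basis.finTwoProd ℝ).prod (Pi.basisFun ℝ (Fin d))

/-- the eigenvalues as a function on the index set of the basis -/
def LamD (lam mu : ℝ) (al : Wd d) : Fin 2 ⊕ Fin d → ℝ := Sum.elim ![lam, mu] al

/-- PROOF. Cases a = inl 0, inl 1, inr k: the basis vectors are ((1,0),0), ((0,1),0), (0, Pi.single k 1) (`Module.Basis.prod_apply_inl_fst` etc.); `dgD_apply`. -/
theorem dgD_basD (lam mu : ℝ) (al : Wd d) (a : Fin 2 ⊕ Fin d) :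
    dgD lam mu al (basD d a) = LamD lam mu al a • basD d a := by
  rcases a with a | k
  · fin_cases a
    · rw [dgD_apply]
      ext j
      · simp [basD, LamD, Module.Basis.prod_apply_inl_fst]
      · simp [basD, LamD, Module.Basis.prod_apply_inl_fst]
      · simp [basD, LamD, mulw]
    · rw [dgD_apply]
      ext j
      · simp [basD, LamD, Module.Basis.prod_apply_inl_fst]
      · simp [basD, LamD, Module.Basis.prod_apply_inl_fst]
      · simp [basD, LamD, mulw]
  · rw [dgD_apply]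
    ext j
    · simp [basD, LamD]
    · simp [basD, LamD]
    · simp only [basD, LamD, mulw, Module.Basis.prod_apply_inr_snd, Pi.basisFun_apply, Sum.elim_inr,
        Prod.smul_snd, Pi.smul_apply, smul_eq_mul]
      by_cases hjk : j = k
      · subst hjk; simp
      · simp [hjk]

/-- The family of perturbations of the eigenvalues.

PROOF. The map t ↦ C ∘ dgD (t (inl 0)) (t (inl 1)) (fun k => t (inr k)) ∘ C⁻¹ is linear in t (dgD is linear in (lam,mu,al)); a linear map on the finite-dimensional space is continuous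
(`LinearMap.toContinuousLinearMap`). -/
theorem exists_pertA (C : En d ≃L[ℝ] En d) :
    ∃ A : (Fin 2 ⊕ Fin d → ℝ) →L[ℝ] (En d →L[ℝ] En d), ∀ t v,
      A t (C v) = C (dgD (t (Sum.inl 0)) (t (Sum.inl 1)) (fun k => t (Sum.inr k)) v) := by
  have hadd : ∀ (s t : Fin 2 ⊕ Fin d → ℝ) (v : En d),
      dgD ((s + t) (Sum.inl 0)) ((s + t) (Sum.inl 1)) (fun k => (s + t) (Sum.inr k)) v =
        dgD (s (Sum.inl 0)) (s (Sum.inl 1)) (fun k => s (Sum.inr k)) v +
          dgD (t (Sum.inl 0)) (t (Sum.inl 1)) (fun k => t (Sum.inr k)) v := by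
    intro s t v
    rw [dgD_apply, dgD_apply, dgD_apply]
    ext j
    · simp only [Pi.add_apply, Prod.fst_add]; ring
    · simp only [Pi.add_apply, Prod.fst_add, Prod.snd_add]; ring
    · simp only [Pi.add_apply, Prod.snd_add, mulw]; ring
  have hsmul : ∀ (r : ℝ) (t : Fin 2 ⊕ Fin d → ℝ) (v : En d),
      dgD ((r • t) (Sum.inl 0)) ((r • t) (Sum.inl 1)) (fun k => (r • t) (Sum.inr k)) v =
        r • dgD (t (Sum.inl 0)) (t (Sum.inl 1)) (fun k => t (Sum.inr k)) v := by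
    intro r t v
    rw [dgD_apply, dgD_apply]
    ext j
    · simp only [Pi.smul_apply, Prod.smul_fst, smul_eq_mul]; ring
    · simp only [Pi.smul_apply, Prod.smul_fst, Prod.smul_snd, smul_eq_mul]; ring
    · simp only [Pi.smul_apply, Prod.smul_snd, mulw, smul_eq_mul]; ring
  let A₀ : (Fin 2 ⊕ Fin d → ℝ) →ₗ[ℝ] (En d →L[ℝ] En d) :=
    { toFun := fun t => (C : En d →L[ℝ] En d).comp
        ((dgD (t (Sum.inl 0)) (t (Sum.inl 1)) (fun k => t (Sum.inr k))).comp
          (C.symm : En d →L[ℝ] En d))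
      map_add' := by
        intro s t
        apply ContinuousLinearMap.ext
        intro v
        simp only [ContinuousLinearMap.comp_apply, ContinuousLinearEquiv.coe_coe, hadd, map_add]
        rfl
      map_smul' := by
        intro r t
        apply ContinuousLinearMap.ext
        intro v
        simp only [ContinuousLinearMap.comp_apply, ContinuousLinearEquiv.coe_coe, hsmul, map_smul]
        rfl }
  refine ⟨LinearMap.toContinuousLinearMap A₀, fun t v => ?_⟩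
  rw [LinearMap.coe_toContinuousLinearMap']
  show C ((dgD (t (Sum.inl 0)) (t (Sum.inl 1)) (fun k => t (Sum.inr k))) (C.symm (C v))) = _
  rw [ContinuousLinearEquiv.symm_apply_apply]

/-- The derivative of the perturbed map at the fixed point.

PROOF. As `b09_deriv` in H37N/B09.lean: fderiv ψ z₀ = id + A t, chain rule at z₀ = g z₀; dgD t₀ t₁ t₂ (dgD lam mu al v) + dgD lam mu al v = dgD ((1+t₀) lam) .. v. -/
theorem db09_deriv {g ψ : En d → En d} {z₀ : En d} (hg : DifferentiableAt ℝ g z₀) (hfix : g z₀ = z₀)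
    (C : En d ≃L[ℝ] En d) {lam mu : ℝ} {al : Wd d} (hC : ∀ v, fderiv ℝ g z₀ (C v) = C (dgD lam mu al v))
    {A : (Fin 2 ⊕ Fin d → ℝ) →L[ℝ] (En d →L[ℝ] En d)}
    (hA : ∀ t v, A t (C v) = C (dgD (t (Sum.inl 0)) (t (Sum.inl 1)) (fun k => t (Sum.inr k)) v))
    (t : Fin 2 ⊕ Fin d → ℝ) (hψ : ψ =ᶠ[𝓝 z₀] fun z => z + A t (z - z₀)) (v : En d) :
    fderiv ℝ (ψ ∘ g) z₀ (C v) =
      C (dgD ((1 + t (Sum.inl 0)) * lam) ((1 + t (Sum.inl 1)) * mu) (fun k => (1 + t (Sum.inr k)) * al k) v) := by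
  have h1 : HasFDerivAt (fun z => z + A t (z - z₀)) (ContinuousLinearMap.id ℝ (En d) + A t) z₀ := by
    have h2 : HasFDerivAt (fun z : En d => A t (z - z₀)) (A t) z₀ := by
      have := (A t).hasFDerivAt.comp z₀ ((hasFDerivAt_id z₀).sub_const z₀)
      simpa [Function.comp_def] using this
    exact (hasFDerivAt_id z₀).add h2
  have h3 : HasFDerivAt ψ (ContinuousLinearMap.id ℝ (En d) + A t) (g z₀) := by
    rw [hfix]
    exact h1.congr_of_eventuallyEq hψ
  have h4 := (h3.comp z₀ hg.hasFDerivAt).fderiv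
  rw [h4, ContinuousLinearMap.comp_apply, hC, ContinuousLinearMap.add_apply, hA,
    ContinuousLinearMap.id_apply, ← map_add]
  congr 1
  rw [dgD_apply, dgD_apply, dgD_apply]
  ext j
  · simp only [Prod.fst_add]; ring
  · simp only [Prod.fst_add, Prod.snd_add]; ring
  · simp only [Prod.snd_add, Pi.add_apply, mulw]; ring

end Pool.Agent.Lib.H37D
end

-- from Lib.H37N.MM2
section

/-!
# H37N MM2 (size M): slow cut-off functions, fibre affine diffeomorphisms
-/

open Set Filter Topology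
open scoped ContDiff

namespace Pool.Agent.Lib.H37N

theorem mm2_theta_bound : ∃ M : ℝ, 0 < M ∧ ∀ t, |deriv (fun t : ℝ => Real.smoothTransition (2 - t)) t| ≤ M := by
  have hc : ContDiff ℝ ∞ (fun t : ℝ => Real.smoothTransition (2 - t)) :=
    Real.smoothTransition.contDiff.comp (contDiff_const.sub contDiff_id)
  have hd : Continuous (deriv (fun t : ℝ => Real.smoothTransition (2 - t))) :=
    hc.continuous_deriv (by simp)
  obtain ⟨M, hM⟩ := (isCompact_Icc (a := (0 : ℝ)) (b := 3)).exists_bound_of_continuousOn hd.continuousOn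
  refine ⟨max M 1, lt_of_lt_of_le one_pos (le_max_right _ _), fun t => ?_⟩
  by_cases h1 : t < 1
  · have : (fun t : ℝ => Real.smoothTransition (2 - t)) =ᶠ[𝓝 t] fun _ => 1 := by
      filter_upwards [Iio_mem_nhds h1] with s hs
      exact Real.smoothTransition.one_of_one_le (by have := mem_Iio.1 hs; linarith)
    rw [this.deriv_eq, deriv_const, abs_zero]
    exact le_trans zero_le_one (le_max_right _ _)
  · by_cases h2 : 2 < t
    · have : (fun t : ℝ => Real.smoothTransition (2 - t)) =ᶠ[𝓝 t] fun _ => 0 := by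
        filter_upwards [Ioi_mem_nhds h2] with s hs
        exact Real.smoothTransition.zero_of_nonpos (by have := mem_Ioi.1 hs; linarith)
      rw [this.deriv_eq, deriv_const, abs_zero]
      exact le_trans zero_le_one (le_max_right _ _)
    · have := hM t ⟨by linarith, by linarith⟩
      rw [Real.norm_eq_abs] at this
      exact le_trans this (le_max_left _ _)

/-- slow cut-off. Proof. Let `θ : ℝ → ℝ` be `C^∞` with values in `[0,1]`, `θ t = 1` for `t ≤ 1`, `θ t = 0` for `t ≥ 2`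
(`θ t = Real.smoothTransition (2 - t)`), `|θ'| ≤ M` (continuous with compact support). `χ y = θ (log (1 + y^2) / L)` with `L` large:
`L ≥ log (1 + C^2)`, `χ = 1` for `|y| ≤ C`, `χ = 0` if `1 + y^2 ≥ exp (2 L)`, and
`|χ' y| (1 + |y|) ≤ M / L * (2 |y| / (1 + y^2)) * (1 + |y|) ≤ 4 M / L ≤ η`. -/
theorem slow_cutoff (C : ℝ) {η : ℝ} (hη : 0 < η) : ∃ χ : ℝ → ℝ, ContDiff ℝ ∞ χ ∧
    (∀ y, 0 ≤ χ y ∧ χ y ≤ 1) ∧ (∀ y, |y| ≤ C → χ y = 1) ∧ (∃ r : ℝ, ∀ y, r ≤ |y| → χ y = 0) ∧
    ∀ y, |deriv χ y| * (1 + |y|) ≤ η := by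
  obtain ⟨M, hM0, hM⟩ := mm2_theta_bound
  set θ : ℝ → ℝ := fun t => Real.smoothTransition (2 - t) with hθ
  have hθc : ContDiff ℝ ∞ θ := Real.smoothTransition.contDiff.comp (contDiff_const.sub contDiff_id)
  set L : ℝ := max (Real.log (1 + C ^ 2)) (4 * M / η) with hL
  have hL0 : 0 < L := lt_of_lt_of_le (by positivity) (le_max_right _ _)
  have hpos : ∀ y : ℝ, (1 : ℝ) + y ^ 2 ≠ 0 := fun y => by positivity
  have hlogc : ContDiff ℝ ∞ (fun y : ℝ => Real.log (1 + y ^ 2) / L) :=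
    ((contDiff_const.add (contDiff_id.pow 2)).log hpos).div_const L
  refine ⟨fun y => θ (Real.log (1 + y ^ 2) / L), hθc.comp hlogc, fun y => ?_, fun y hy => ?_, ?_, fun y => ?_⟩
  · exact ⟨Real.smoothTransition.nonneg _, Real.smoothTransition.le_one _⟩
  · apply Real.smoothTransition.one_of_one_le
    have h1 : Real.log (1 + y ^ 2) ≤ L := by
      refine le_trans (Real.log_le_log (by positivity) ?_) (le_max_left _ _)
      have : y ^ 2 ≤ C ^ 2 := sq_le_sq' (by linarith [neg_abs_le y]) (le_trans (le_abs_self y) hy)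
      linarith
    have h2 : Real.log (1 + y ^ 2) / L ≤ 1 := (div_le_one hL0).2 h1
    linarith
  · refine ⟨Real.exp L, fun y hy => ?_⟩
    apply Real.smoothTransition.zero_of_nonpos
    have h1 : 2 * L ≤ Real.log (1 + y ^ 2) := by
      rw [Real.le_log_iff_exp_le (by positivity)]
      have : Real.exp (2 * L) = Real.exp L ^ 2 := by
        rw [← Real.exp_nat_mul]; norm_num
      rw [this]
      have h3 : Real.exp L ^ 2 ≤ |y| ^ 2 := pow_le_pow_left₀ (Real.exp_pos L).le hy 2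
      rw [sq_abs] at h3
      linarith
    have h2 : 2 ≤ Real.log (1 + y ^ 2) / L := by
      rw [le_div_iff₀ hL0]; exact h1
    linarith
  · have hd1 : HasDerivAt (fun y : ℝ => Real.log (1 + y ^ 2) / L) (2 * y / (1 + y ^ 2) / L) y := by
      have : HasDerivAt (fun y : ℝ => 1 + y ^ 2) (2 * y) y := by
        have := (hasDerivAt_pow 2 y).const_add 1
        simpa using this
      exact (this.log (hpos y)).div_const L
    have hd2 : HasDerivAt θ (deriv θ (Real.log (1 + y ^ 2) / L)) (Real.log (1 + y ^ 2) / L) :=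
      (hθc.differentiable (by simp) _).hasDerivAt
    have hd3 := hd2.comp y hd1
    have hd4 : deriv (fun y => θ (Real.log (1 + y ^ 2) / L)) y =
        deriv θ (Real.log (1 + y ^ 2) / L) * (2 * y / (1 + y ^ 2) / L) := hd3.deriv
    rw [hd4, abs_mul, abs_div, abs_div, abs_of_pos hL0, abs_mul, abs_of_pos (show (0 : ℝ) < 2 by norm_num),
      abs_of_pos (show (0 : ℝ) < 1 + y ^ 2 by positivity)]
    have h1 := hM (Real.log (1 + y ^ 2) / L)
    have h2 : 2 * |y| / (1 + y ^ 2) * (1 + |y|) ≤ 4 := by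
      rw [div_mul_eq_mul_div, div_le_iff₀ (by positivity)]
      rw [← sq_abs y]
      nlinarith [abs_nonneg y, sq_nonneg (|y| - 1)]
    have h3 : 4 * M / η ≤ L := le_max_right _ _
    have h4 : 4 * M / L ≤ η := by
      rw [div_le_iff₀ hL0]
      rw [div_le_iff₀ hη] at h3
      linarith
    calc |deriv θ (Real.log (1 + y ^ 2) / L)| * (2 * |y| / (1 + y ^ 2) / L) * (1 + |y|)
        = |deriv θ (Real.log (1 + y ^ 2) / L)| * ((2 * |y| / (1 + y ^ 2) * (1 + |y|)) / L) := by ring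
      _ ≤ M * (4 / L) := by
          apply mul_le_mul h1 _ (by positivity) hM0.le
          exact div_le_div_of_nonneg_right h2 hL0.le
      _ = 4 * M / L := by ring
      _ ≤ η := h4

theorem mm2_bounds {lam c : ℝ → ℝ} (hl : Continuous lam) (hc : Continuous c)
    (hpos : ∀ x, 0 < lam x) {K : ℝ} (hK : ∀ x, K ≤ |x| → lam x = 1 ∧ c x = 0) :
    ∃ m0 K' : ℝ, 0 < m0 ∧ m0 ≤ 1 ∧ 0 ≤ K' ∧ ∀ x, m0 ≤ lam x ∧ |lam x - 1| ≤ K' ∧ |c x| ≤ K' := by
  have hcomp : IsCompact (Icc (-|K|) |K|) := isCompact_Icc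
  have hne : (Icc (-|K|) |K|).Nonempty := ⟨0, by simp⟩
  obtain ⟨x0, hx0, hmin⟩ := hcomp.exists_isMinOn hne hl.continuousOn
  obtain ⟨A, hA⟩ := hcomp.exists_bound_of_continuousOn (hl.sub (continuous_const (y := (1 : ℝ)))).continuousOn
  obtain ⟨B, hB⟩ := hcomp.exists_bound_of_continuousOn hc.continuousOn
  refine ⟨min (lam x0) 1, max (max A B) 0, lt_min (hpos x0) one_pos, min_le_right _ _,
    le_max_right _ _, fun x => ?_⟩
  by_cases hx : x ∈ Icc (-|K|) |K|
  · refine ⟨le_trans (min_le_left _ _) (hmin hx), ?_, ?_⟩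
    · have := hA x hx
      rw [Real.norm_eq_abs] at this
      exact le_trans this (le_trans (le_max_left _ _) (le_max_left _ _))
    · have := hB x hx
      rw [Real.norm_eq_abs] at this
      exact le_trans this (le_trans (le_max_right _ _) (le_max_left _ _))
  · have h1 : K ≤ |x| := by
      by_contra h
      push Not at h
      apply hx
      have h2 : |x| ≤ |K| := le_trans h.le (le_abs_self K)
      exact ⟨by linarith [neg_abs_le x], le_trans (le_abs_self x) h2⟩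
    obtain ⟨h2, h3⟩ := hK x h1
    rw [h2, h3]
    refine ⟨min_le_right _ _, ?_, ?_⟩
    · simp
    · simp


end Pool.Agent.Lib.H37N
end

-- from Lib.H37N.MM4
section

/-!
# H37N MM4 (size S/M): profile functions; the twist
-/

open Set Filter Topology
open scoped ContDiff

namespace Pool.Agent.Lib.H37N

theorem mm4_bump {a b ε : ℝ} (hε : 0 < ε) (_hab : a ≤ b) : ∃ χ : ℝ → ℝ, ContDiff ℝ ∞ χ ∧
    (∀ x, 0 ≤ χ x ∧ χ x ≤ 1) ∧ (∀ x ∈ Icc a b, χ x = 1) ∧
    (∀ x, x ≤ a - ε → χ x = 0) ∧ ∀ x, b + ε ≤ x → χ x = 0 := by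
  refine ⟨fun x => Real.smoothTransition ((x - (a - ε)) / ε) *
    Real.smoothTransition (((b + ε) - x) / ε), ?_, ?_, ?_, ?_, ?_⟩
  · refine ContDiff.mul ?_ ?_
    · exact Real.smoothTransition.contDiff.comp (by fun_prop)
    · exact Real.smoothTransition.contDiff.comp (by fun_prop)
  · intro x
    exact ⟨mul_nonneg (Real.smoothTransition.nonneg _) (Real.smoothTransition.nonneg _),
      mul_le_one₀ (Real.smoothTransition.le_one _) (Real.smoothTransition.nonneg _)
        (Real.smoothTransition.le_one _)⟩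
  · intro x hx
    obtain ⟨h1, h2⟩ := hx
    show Real.smoothTransition _ * Real.smoothTransition _ = 1
    rw [Real.smoothTransition.one_of_one_le, Real.smoothTransition.one_of_one_le, mul_one]
    · rw [le_div_iff₀ hε]; linarith
    · rw [le_div_iff₀ hε]; linarith
  · intro x hx
    show Real.smoothTransition _ * Real.smoothTransition _ = 0
    rw [Real.smoothTransition.zero_of_nonpos, zero_mul]
    exact div_nonpos_of_nonpos_of_nonneg (by linarith) hε.le
  · intro x hx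
    show Real.smoothTransition _ * Real.smoothTransition _ = 0
    rw [Real.smoothTransition.zero_of_nonpos (x := ((b + ε) - x) / ε), mul_zero]
    exact div_nonpos_of_nonpos_of_nonneg (by linarith) hε.le

theorem mm4_pos {t l : ℝ} (h0 : 0 ≤ t) (h1 : t ≤ 1) (hl : 0 < l) : 0 < 1 + t * (l - 1) := by
  have h2 : 1 + t * (l - 1) = (1 - t) + t * l := by ring
  rw [h2]
  rcases h0.eq_or_lt with h | h
  · rw [← h]; norm_num
  · have := mul_pos h hl
    linarith

/-- Proof. For `i = 0,1,2` let `χ i` be `C^∞` with values in `[0,1]`, `χ i = 1` on `[a i, b i]`, compact support in an open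
interval around `[a i, b i]` disjoint from the other two (`exists_cutoff`, T3, or `Real.smoothTransition`). Put
`lam = 1 + ∑ χ i (l i - 1)` and `c = ∑ χ i * c i`. At each point at most one `χ i` is not zero, so `lam` is between `1` and `l i`. -/
theorem profile {a b l : Fin 3 → ℝ} {c : Fin 3 → ℝ → ℝ} (hab : ∀ i, a i ≤ b i) (h01 : b 0 < a 1)
    (h12 : b 1 < a 2) (hl : ∀ i, 0 < l i) (hc : ∀ i, ContDiff ℝ ∞ (c i)) :
    ∃ lam cc' : ℝ → ℝ, ContDiff ℝ ∞ lam ∧ ContDiff ℝ ∞ cc' ∧ (∀ x, 0 < lam x) ∧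
      (∃ K : ℝ, ∀ x, K ≤ |x| → lam x = 1 ∧ cc' x = 0) ∧
      ∀ i, ∀ x ∈ Icc (a i) (b i), lam x = l i ∧ cc' x = c i x := by
  obtain ⟨ε, hε, he1, he2⟩ : ∃ ε : ℝ, 0 < ε ∧ b 0 + ε ≤ a 1 - ε ∧ b 1 + ε ≤ a 2 - ε := by
    refine ⟨min ((a 1 - b 0) / 2) ((a 2 - b 1) / 2), ?_, ?_, ?_⟩
    · exact lt_min (by linarith) (by linarith)
    · have := min_le_left ((a 1 - b 0) / 2) ((a 2 - b 1) / 2)
      linarith
    · have := min_le_right ((a 1 - b 0) / 2) ((a 2 - b 1) / 2)
      linarith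
  obtain ⟨x0, hs0, hr0, h10, hl0, hu0⟩ := mm4_bump hε (hab 0)
  obtain ⟨x1, hs1, hr1, h11, hl1, hu1⟩ := mm4_bump hε (hab 1)
  obtain ⟨x2, hs2, hr2, h12', hl2, hu2⟩ := mm4_bump hε (hab 2)
  have ha0 := hab 0
  have ha1 := hab 1
  have ha2 := hab 2
  refine ⟨fun x => 1 + (x0 x * (l 0 - 1) + x1 x * (l 1 - 1) + x2 x * (l 2 - 1)),
    fun x => x0 x * c 0 x + x1 x * c 1 x + x2 x * c 2 x, ?_, ?_, ?_, ?_, ?_⟩
  · exact contDiff_const.add (((hs0.mul contDiff_const).add (hs1.mul contDiff_const)).add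
      (hs2.mul contDiff_const))
  · exact ((hs0.mul (hc 0)).add (hs1.mul (hc 1))).add (hs2.mul (hc 2))
  · intro x
    show 0 < 1 + (x0 x * (l 0 - 1) + x1 x * (l 1 - 1) + x2 x * (l 2 - 1))
    rcases le_total x (b 0 + ε) with h | h
    · rw [hl1 x (by linarith), hl2 x (by linarith)]
      have := mm4_pos (hr0 x).1 (hr0 x).2 (hl 0)
      linarith
    · rcases le_total x (b 1 + ε) with h' | h'
      · rw [hu0 x h, hl2 x (by linarith)]
        have := mm4_pos (hr1 x).1 (hr1 x).2 (hl 1)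
        linarith
      · rw [hu0 x h, hu1 x h']
        have := mm4_pos (hr2 x).1 (hr2 x).2 (hl 2)
        linarith
  · refine ⟨|a 0| + |b 2| + ε, fun x hx => ?_⟩
    have hz : x0 x = 0 ∧ x1 x = 0 ∧ x2 x = 0 := by
      have hA := neg_abs_le (a 0)
      have hB := le_abs_self (b 2)
      have hA' := abs_nonneg (a 0)
      have hB' := abs_nonneg (b 2)
      rcases le_total 0 x with h | h
      · rw [abs_of_nonneg h] at hx
        exact ⟨hu0 x (by linarith), hu1 x (by linarith), hu2 x (by linarith)⟩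
      · rw [abs_of_nonpos h] at hx
        exact ⟨hl0 x (by linarith), hl1 x (by linarith), hl2 x (by linarith)⟩
    obtain ⟨z0, z1, z2⟩ := hz
    show 1 + (x0 x * (l 0 - 1) + x1 x * (l 1 - 1) + x2 x * (l 2 - 1)) = 1 ∧
      x0 x * c 0 x + x1 x * c 1 x + x2 x * c 2 x = 0
    rw [z0, z1, z2]
    constructor <;> ring
  · intro i x hx
    show 1 + (x0 x * (l 0 - 1) + x1 x * (l 1 - 1) + x2 x * (l 2 - 1)) = l i ∧
      x0 x * c 0 x + x1 x * c 1 x + x2 x * c 2 x = c i x
    fin_cases i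
    · have hx' : x ∈ Icc (a 0) (b 0) := hx
      obtain ⟨hx1, hx2⟩ := id hx'
      rw [h10 x hx', hl1 x (by linarith), hl2 x (by linarith)]
      constructor
      · show _ = l 0
        ring
      · show _ = c 0 x
        ring
    · have hx' : x ∈ Icc (a 1) (b 1) := hx
      obtain ⟨hx1, hx2⟩ := id hx'
      rw [h11 x hx', hu0 x (by linarith), hl2 x (by linarith)]
      constructor
      · show _ = l 1
        ring
      · show _ = c 1 x
        ring
    · have hx' : x ∈ Icc (a 2) (b 2) := hx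
      obtain ⟨hx1, hx2⟩ := id hx'
      rw [h12' x hx', hu0 x (by linarith), hu1 x (by linarith)]
      constructor
      · show _ = l 2
        ring
      · show _ = c 2 x
        ring

/-- The twist map with angle function `θ`. -/
noncomputable def mm4_tw (v0 : Pt) (θ : ℝ → ℝ) (v : Pt) : Pt :=
  (v0.1 + (Real.cos (θ ((v.1 - v0.1) ^ 2 + (v.2 - v0.2) ^ 2)) * (v.1 - v0.1) -
      Real.sin (θ ((v.1 - v0.1) ^ 2 + (v.2 - v0.2) ^ 2)) * (v.2 - v0.2)),
    v0.2 + (Real.sin (θ ((v.1 - v0.1) ^ 2 + (v.2 - v0.2) ^ 2)) * (v.1 - v0.1) +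
      Real.cos (θ ((v.1 - v0.1) ^ 2 + (v.2 - v0.2) ^ 2)) * (v.2 - v0.2)))


theorem mm4_inv (v0 : Pt) (θ : ℝ → ℝ) (v : Pt) :
    mm4_tw v0 (fun t => - θ t) (mm4_tw v0 θ v) = v := by
  have hρ : ((mm4_tw v0 θ v).1 - v0.1) ^ 2 + ((mm4_tw v0 θ v).2 - v0.2) ^ 2 =
      (v.1 - v0.1) ^ 2 + (v.2 - v0.2) ^ 2 := by
    simp only [mm4_tw]
    have hcs := Real.sin_sq_add_cos_sq (θ ((v.1 - v0.1) ^ 2 + (v.2 - v0.2) ^ 2))
    linear_combination ((v.1 - v0.1) ^ 2 + (v.2 - v0.2) ^ 2) * hcs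
  have hcs := Real.sin_sq_add_cos_sq (θ ((v.1 - v0.1) ^ 2 + (v.2 - v0.2) ^ 2))
  have h0 : mm4_tw v0 (fun t => - θ t) (mm4_tw v0 θ v) =
      (v0.1 + (Real.cos (- θ ((v.1 - v0.1) ^ 2 + (v.2 - v0.2) ^ 2)) *
          ((mm4_tw v0 θ v).1 - v0.1) -
        Real.sin (- θ ((v.1 - v0.1) ^ 2 + (v.2 - v0.2) ^ 2)) * ((mm4_tw v0 θ v).2 - v0.2)),
      v0.2 + (Real.sin (- θ ((v.1 - v0.1) ^ 2 + (v.2 - v0.2) ^ 2)) *
          ((mm4_tw v0 θ v).1 - v0.1) +
        Real.cos (- θ ((v.1 - v0.1) ^ 2 + (v.2 - v0.2) ^ 2)) *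
          ((mm4_tw v0 θ v).2 - v0.2))) := by
    conv_lhs => rw [mm4_tw]
    rw [hρ]
  rw [h0, Real.cos_neg, Real.sin_neg]
  refine Prod.ext ?_ ?_
  · simp only [mm4_tw]
    linear_combination (v.1 - v0.1) * hcs
  · simp only [mm4_tw]
    linear_combination (v.2 - v0.2) * hcs


end Pool.Agent.Lib.H37N
end
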