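import Pool.Agent.Lib.H1M.FF.M003
import Pool.Agent.Lib.H1M.FF.M006
import Pool.Agent.Lib.H1M.FF.M014
import Pool.Agent.Lib.H1M.FF.M019

/-! Merged copies (to shorten the build) of Lib.H37N.SA6, Lib.H37N.SC2, Lib.H37N.SA7, Lib.H37N.SA8, Lib.H37D.DS0, Lib.H37D.DS1, Lib.H37D.DS2, Lib.H37D.DS3. -/

-- from Lib.H37N.SA6
section

/-! # H37N, chunk SA6 (M): solving the equations of AS2 (S.2) -/

open Set Filter Topology Asymptotics
open scoped ContDiff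

namespace Pool.Agent.Lib.H37N

variable {P : Type} [NormedAddCommGroup P] [NormedSpace ℝ P] [FiniteDimensional ℝ P] {n e : ℕ} {s₀ : ℝ} {d : ℕ → ℝ}
  {B : ℕ → (P × QQ n e) × ℝ × ℝ → ℝ × ℝ} {J : ℕ → (P × QQ n e) × ℝ × ℝ → ℝ}

/-- The space of the Taylor coefficients: for `i ≤ e` those of `K` of degree `i+1` and those of `Jt` of degree `i`. -/
abbrev ZZ (e : ℕ) : Type := (i : Fin (e + 1)) → (Fin (i.1 + 2) → ℝ) × (Fin (i.1 + 1) → ℝ)

/-- The coefficient map: `cK`, `cJ` are the coefficient functions of `taylor2` for `Kf`, `Jf`. -/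
def PhiZ (n e : ℕ) (cK cJ : ℕ → ℕ → P × QQ n e → ℝ) (z : P × QQ n e) : ZZ e :=
  fun i => (fun a => cK a (i.1 + 1 - a) z, fun a => cJ a (i.1 - a) z)

theorem PhiZ_contDiff {cK cJ : ℕ → ℕ → P × QQ n e → ℝ} (hK : ∀ a b, ContDiff ℝ ∞ (cK a b)) (hJ : ∀ a b, ContDiff ℝ ∞ (cJ a b)) :
    ContDiff ℝ ∞ (PhiZ n e cK cJ) := by
  refine contDiff_pi.2 fun i => ?_
  refine ContDiff.prodMk ?_ ?_
  · exact contDiff_pi.2 fun a => hK _ _
  · exact contDiff_pi.2 fun a => hJ _ _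

omit [FiniteDimensional ℝ P] in
theorem sa6_line (q : QQ n e) (τ : ℝ) :
    ((0, 0) : P × QQ n e) + τ • ((0, q) : P × QQ n e) = (0, τ • q) := by
  simp

omit [FiniteDimensional ℝ P] in
theorem sa6_comp {c : P × QQ n e → ℝ} (hc : ContDiff ℝ ∞ c) (q : QQ n e) :
    HasDerivAt (fun τ : ℝ => c (0, τ • q)) (fderiv ℝ c (0, 0) (0, q)) 0 := by
  have h1 : HasDerivAt (fun τ : ℝ => ((0, τ • q) : P × QQ n e)) (0, q) 0 := by
    have h2 : HasDerivAt (fun τ : ℝ => τ • q) q 0 := by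
      have := (hasDerivAt_id (0 : ℝ)).smul_const q
      simpa using this
    exact (hasDerivAt_const (0 : ℝ) (0 : P)).prodMk h2
  have h3 : HasFDerivAt c (fderiv ℝ c (0, 0)) ((0, (0 : ℝ) • q) : P × QQ n e) := by
    rw [zero_smul]
    exact (hc.differentiable (by simp) _).hasFDerivAt
  exact h3.comp_hasDerivAt (0 : ℝ) h1

/-- Surjectivity of the partial derivative.  PROOF.  Let a target `ζ` be given.  For `i ≤ e` apply `as2_linear` (`i + 2 < n` since `n = e + 3`) with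
`c a = (ζ i).1 a` (0 outside the range) and `c' a = (ζ i).2 a / s₀` to get `q^i : ℕ → ℝ`; by `qx_surj` there is `q` with `qx q l i = q^i l` (`l < 2n`, `i < e+1`).  By `Kf_deriv` the
derivative of `τ ↦ Kf ((0,τ•q),(x,y))` at 0 is `Σ_{i ≤ e} Σ_{a ≤ i+1} c a x^a y^(i+1-a)`, a polynomial of degree `≤ e+1` without constant term: of the form in `taylor_coeff_deriv` with `k = e+1`,
`d a b = ` (if `a + b = 0` then 0 else `(ζ (a+b-1)).1 a`) (`Finset.sum_range_succ'`), so `fderiv (cK a b) (0,0) (0,q) = (ζ i).1 a` for `a + b = i+1`.  The same for `Jf_deriv`, `k = e`.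
The derivative of `q ↦ PhiZ (0,q)` at 0 in direction `q` has the components `fderiv (cK a b) (0,0) (0,q)` and `fderiv (cJ a b) (0,0) (0,q)` (`fderiv_pi`-type lemmas, or `HasFDerivAt`
with `hasFDerivAt_pi`, and the chain rule with `q ↦ (0,q)`). -/
theorem PhiZ_surj (hn : n = e + 3) (h : Blocks n e s₀ d B J) (hs : s₀ ≠ 0)
    {cK cJ : ℕ → ℕ → P × QQ n e → ℝ} (hK : ∀ a b, ContDiff ℝ ∞ (cK a b)) (hJ : ∀ a b, ContDiff ℝ ∞ (cJ a b))
    {GK GJ : ℕ → ℕ → (P × QQ n e) × ℝ × ℝ → ℝ} (hGK : ∀ a b, ContDiff ℝ ∞ (GK a b)) (hGJ : ∀ a b, ContDiff ℝ ∞ (GJ a b))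
    (hTK : ∀ z x y, Kf B (2 * n) (z, x, y) =
      (∑ m ∈ Finset.range (e + 1 + 1), ∑ a ∈ Finset.range (m + 1), (x ^ a * y ^ (m - a)) • cK a (m - a) z) +
      ∑ a ∈ Finset.range (e + 1 + 2), (x ^ a * y ^ (e + 1 + 1 - a)) • GK a (e + 1 + 1 - a) (z, x, y))
    (hTJ : ∀ z x y, Jf B J (2 * n) (z, x, y) =
      (∑ m ∈ Finset.range (e + 1), ∑ a ∈ Finset.range (m + 1), (x ^ a * y ^ (m - a)) • cJ a (m - a) z) +
      ∑ a ∈ Finset.range (e + 2), (x ^ a * y ^ (e + 1 - a)) • GJ a (e + 1 - a) (z, x, y)) :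
    Function.Surjective (fderiv ℝ (fun q : QQ n e => PhiZ n e cK cJ ((0 : P), q)) 0) := by
  intro ζ
  have hn2 : 2 ≤ n := by omega
  obtain ⟨cc, hcc⟩ : ∃ cc : ℕ → ℕ → ℝ, cc = fun i a => if h : i < e + 1 then
    (if h2 : a < i + 2 then (ζ ⟨i, h⟩).1 ⟨a, h2⟩ else 0) else 0 := ⟨_, rfl⟩
  obtain ⟨cj, hcj⟩ : ∃ cj : ℕ → ℕ → ℝ, cj = fun i a => if h : i < e + 1 then
    (if h2 : a < i + 1 then (ζ ⟨i, h⟩).2 ⟨a, h2⟩ / s₀ else 0) else 0 := ⟨_, rfl⟩
  have hex : ∀ i : ℕ, ∃ q : ℕ → ℝ, i < e + 1 →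
      (∀ v : ℝ × ℝ, ∑ l ∈ Finset.range (2 * n), q l * spi n (l + 1) v ^ (i + 1) =
        ∑ a ∈ Finset.range (i + 2), cc i a * (v.1 ^ a * v.2 ^ (i + 1 - a))) ∧
      ∀ v : ℝ × ℝ, ∑ l ∈ Finset.range (2 * n), sa n l * q l * spi n (l + 1) v ^ i =
        ∑ a ∈ Finset.range (i + 1), cj i a * (v.1 ^ a * v.2 ^ (i - a)) := by
    intro i
    by_cases hi : i < e + 1
    · obtain ⟨q, hq⟩ := as2_linear (n := n) (i := i) hn2 (by omega) (cc i) (cj i)
      exact ⟨q, fun _ => hq⟩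
    · exact ⟨0, fun h => absurd h hi⟩
  choose Q hQ using hex
  obtain ⟨q, hq⟩ := qx_surj (n := n) (e := e) (fun j i => Q i j)
  refine ⟨q, ?_⟩
  obtain ⟨dK, hdK⟩ : ∃ dK : ℕ → ℕ → ℝ, dK = fun a b => if a + b = 0 then 0 else cc (a + b - 1) a :=
    ⟨_, rfl⟩
  obtain ⟨dJ, hdJ⟩ : ∃ dJ : ℕ → ℕ → ℝ, dJ = fun a b => s₀ * cj (a + b) a := ⟨_, rfl⟩
  have kK : ∀ a b, a + b ≤ e + 1 → fderiv ℝ (cK a b) (0, 0) (0, q) = dK a b := by
    refine taylor_coeff_deriv hK (e + 1) hGK hTK (0, 0) (0, q) dK ?_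
    intro x y
    have h1 := Kf_deriv hn2 h q (x, y)
    have e1 : (fun τ : ℝ => Kf B (2 * n) (((0, 0) : P × QQ n e) + τ • ((0, q) : P × QQ n e), x, y)) =
        fun τ : ℝ => Kf B (2 * n) ((0, τ • q), (x, y)) := by
      funext τ
      rw [sa6_line]
    rw [e1]
    convert h1 using 1
    rw [Finset.sum_range_succ']
    have e0 : ∑ a ∈ Finset.range (0 + 1), (x ^ a * y ^ (0 - a)) * dK a (0 - a) = 0 := by
      rw [Finset.sum_range_one, hdK]
      simp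
    rw [e0, add_zero]
    refine Finset.sum_congr rfl fun m hm => ?_
    have hm' := Finset.mem_range.1 hm
    have h2 : ∑ l ∈ Finset.range (2 * n), qx q l m * spi n (l + 1) (x, y) ^ (m + 1) =
        ∑ l ∈ Finset.range (2 * n), Q m l * spi n (l + 1) (x, y) ^ (m + 1) := by
      refine Finset.sum_congr rfl fun l hl => ?_
      rw [hq l (Finset.mem_range.1 hl) m hm']
    rw [h2, (hQ m hm').1 (x, y)]
    refine Finset.sum_congr rfl fun a ha => ?_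
    have ha' := Finset.mem_range.1 ha
    rw [hdK]
    beta_reduce
    rw [if_neg (by omega), show a + (m + 1 - a) - 1 = m by omega]
    ring
  have kJ : ∀ a b, a + b ≤ e → fderiv ℝ (cJ a b) (0, 0) (0, q) = dJ a b := by
    refine taylor_coeff_deriv hJ e hGJ hTJ (0, 0) (0, q) dJ ?_
    intro x y
    have h1 := Jf_deriv hn2 h q (x, y)
    have e1 : (fun τ : ℝ => Jf B J (2 * n) (((0, 0) : P × QQ n e) + τ • ((0, q) : P × QQ n e), x, y)) =
        fun τ : ℝ => Jf B J (2 * n) ((0, τ • q), (x, y)) := by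
      funext τ
      rw [sa6_line]
    rw [e1]
    convert h1 using 1
    rw [Finset.mul_sum]
    refine Finset.sum_congr rfl fun m hm => ?_
    have hm' := Finset.mem_range.1 hm
    have h2 : ∑ l ∈ Finset.range (2 * n), sa n l * qx q l m * spi n (l + 1) (x, y) ^ m =
        ∑ l ∈ Finset.range (2 * n), sa n l * Q m l * spi n (l + 1) (x, y) ^ m := by
      refine Finset.sum_congr rfl fun l hl => ?_
      rw [hq l (Finset.mem_range.1 hl) m hm']
    rw [h2, (hQ m hm').2 (x, y), Finset.mul_sum]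
    refine Finset.sum_congr rfl fun a ha => ?_
    have ha' := Finset.mem_range.1 ha
    rw [hdJ]
    beta_reduce
    rw [show a + (m - a) = m by omega]
    ring
  have hΦ : ContDiff ℝ ∞ (fun q : QQ n e => PhiZ n e cK cJ ((0 : P), q)) :=
    (PhiZ_contDiff hK hJ).comp (contDiff_const.prodMk contDiff_id)
  have hline : HasDerivAt (fun τ : ℝ => PhiZ n e cK cJ ((0 : P), τ • q))
      (fderiv ℝ (fun q : QQ n e => PhiZ n e cK cJ ((0 : P), q)) 0 q) 0 := by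
    have h2 : HasDerivAt (fun τ : ℝ => τ • q) q 0 := by
      have := (hasDerivAt_id (0 : ℝ)).smul_const q
      simpa using this
    have h3 : HasFDerivAt (fun q : QQ n e => PhiZ n e cK cJ ((0 : P), q))
        (fderiv ℝ (fun q : QQ n e => PhiZ n e cK cJ ((0 : P), q)) 0) ((0 : ℝ) • q) := by
      rw [zero_smul]
      exact (hΦ.differentiable (by simp) _).hasFDerivAt
    exact h3.comp_hasDerivAt (0 : ℝ) h2
  refine hline.unique ?_
  refine hasDerivAt_pi.2 fun i => ?_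
  have g1 : HasDerivAt (fun τ : ℝ => fun a : Fin (i.1 + 2) => cK a (i.1 + 1 - a) ((0 : P), τ • q))
      (ζ i).1 0 := by
    refine hasDerivAt_pi.2 fun a => ?_
    have h1 := sa6_comp (hK a (i.1 + 1 - a)) q
    rw [kK a (i.1 + 1 - a) (by omega), hdK] at h1
    beta_reduce at h1
    rw [if_neg (by omega), show (a : ℕ) + (i.1 + 1 - a) - 1 = i.1 by omega, hcc] at h1
    beta_reduce at h1
    rw [dif_pos i.2, dif_pos a.2] at h1
    exact h1
  have g2 : HasDerivAt (fun τ : ℝ => fun a : Fin (i.1 + 1) => cJ a (i.1 - a) ((0 : P), τ • q))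
      (ζ i).2 0 := by
    refine hasDerivAt_pi.2 fun a => ?_
    have h1 := sa6_comp (hJ a (i.1 - a)) q
    rw [kJ a (i.1 - a) (by omega), hdJ] at h1
    beta_reduce at h1
    rw [show (a : ℕ) + (i.1 - a) = i.1 by omega, hcj] at h1
    beta_reduce at h1
    rw [dif_pos i.2, dif_pos a.2, mul_div_cancel₀ _ hs] at h1
    exact h1
  exact g1.prodMk g2

/-- PROOF.  `taylor2` for `Kf B (2n)` (coefficients `cK`, remainder for `k = e+1`) and for `Jf B J (2n)` (`cJ`, `k = e`).  `PhiZ (0,0) = 0`: `coeff_eq_zero` with `Kf_zero`, `Jf_zero`.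
`open_param` (T9) with `B = V`: for `r = (p, 0)` near `(0,0)` there is `q ∈ V` with `PhiZ (p,q) = 0`.  So `cK a b (p,q) = 0` for `1 ≤ a+b ≤ e+1`, and `cK 0 0 (p,q) = Kf ((p,q),0,0) = 0`
(`taylor2`, definition of `Kf`), `cJ a b (p,q) = 0` for `a+b ≤ e`; `isBigO_of_coeff`. -/
theorem as2_solve (hn : n = e + 3) (h : Blocks n e s₀ d B J) (hs : s₀ ≠ 0)
    (hd : ∑ j ∈ Finset.range (2 * n), d (j + 1) = 0) {V : Set (QQ n e)} (hV : V ∈ 𝓝 0) :
    ∀ᶠ p : P in 𝓝 0, ∃ q ∈ V,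
      ((fun v : ℝ × ℝ => Kf B (2 * n) ((p, q), v)) =O[𝓝 0] fun v : ℝ × ℝ => ‖v‖ ^ (e + 2)) ∧
      (fun v : ℝ × ℝ => Jf B J (2 * n) ((p, q), v)) =O[𝓝 0] fun v : ℝ × ℝ => ‖v‖ ^ (e + 1) := by
  have hn2 : 2 ≤ n := by omega
  obtain ⟨cK, hcK, hK0, -, -, hK⟩ := taylor2 (Kf_contDiff h)
  obtain ⟨cJ, hcJ, -, -, -, hJ⟩ := taylor2 (Jf_contDiff h)
  obtain ⟨GK, hGK, hTK⟩ := hK (e + 1)
  obtain ⟨GJ, hGJ, hTJ⟩ := hJ e
  have hsurj := PhiZ_surj hn h hs hcK hcJ hGK hGJ hTK hTJ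
  have zK : ∀ a b, a + b ≤ e + 1 → cK a b ((0 : P), (0 : QQ n e)) = 0 :=
    coeff_eq_zero (e + 1) hGK (0, 0) (hTK (0, 0)) (Kf_zero hn2 h)
  have zJ : ∀ a b, a + b ≤ e → cJ a b ((0 : P), (0 : QQ n e)) = 0 :=
    coeff_eq_zero e hGJ (0, 0) (hTJ (0, 0)) (Jf_zero hn2 h hd)
  have hzero : PhiZ n e cK cJ ((0 : P), (0 : QQ n e)) = 0 := by
    funext i
    refine Prod.ext ?_ ?_
    · funext a
      exact zK a (i.1 + 1 - a) (by omega)
    · funext a
      exact zJ a (i.1 - a) (by omega)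
  have hev := open_param (Φ := PhiZ n e cK cJ) (p₀ := (0 : P)) (q₀ := (0 : QQ n e))
    ((PhiZ_contDiff hcK hcJ).of_le (by simp)).contDiffAt hsurj hV
  rw [hzero] at hev
  have ht : Tendsto (fun p : P => (p, (0 : ZZ e))) (𝓝 0) (𝓝 ((0 : P), (0 : ZZ e))) :=
    (continuous_id.prodMk continuous_const).tendsto 0
  filter_upwards [ht.eventually hev] with p hp
  obtain ⟨q, hq, hqe⟩ := hp
  refine ⟨q, hq, ?_, ?_⟩
  · refine isBigO_of_coeff (e + 1) hGK (p, q) (hTK (p, q)) ?_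
    intro a b hab
    by_cases h0 : a + b = 0
    · have ha : a = 0 := by omega
      have hb : b = 0 := by omega
      subst ha hb
      rw [hK0]
      simp [Kf]
    · have h1 := congrArg Prod.fst (congrFun hqe ⟨a + b - 1, by omega⟩)
      have h2 := congrFun h1 ⟨a, by simp only; omega⟩
      have h3 : cK a (a + b - 1 + 1 - a) (p, q) = 0 := h2
      rwa [show a + b - 1 + 1 - a = b by omega] at h3
  · refine isBigO_of_coeff e hGJ (p, q) (hTJ (p, q)) ?_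
    intro a b hab
    have h1 := congrArg Prod.snd (congrFun hqe ⟨a + b, by omega⟩)
    have h2 := congrFun h1 ⟨a, by simp only; omega⟩
    have h3 : cJ a (a + b - a) (p, q) = 0 := h2
    rwa [show a + b - a = b by omega] at h3

end Pool.Agent.Lib.H37N
end

-- from Lib.H37N.SC2
section

/-! # H37N, chunk SC2 (S): Lemma C (S.3) -/

open Set Filter Topology Asymptotics
open scoped ContDiff

namespace Pool.Agent.Lib.H37N

/-- Comparison of powers near 0. -/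
theorem sc2_pow {m k : ℕ} (h : m ≤ k) :
    (fun v : ℝ × ℝ => ‖v‖ ^ k) =O[𝓝 0] fun v : ℝ × ℝ => ‖v‖ ^ m := by
  refine IsBigO.of_bound 1 ?_
  filter_upwards [Metric.closedBall_mem_nhds (0 : ℝ × ℝ) one_pos] with v hv
  have hv1 : ‖v‖ ≤ 1 := by simpa using hv
  rw [one_mul, norm_pow, norm_pow, norm_norm]
  exact pow_le_pow_of_le_one (norm_nonneg v) hv1 h

/-- S.3, LEMMA C: a plane map which preserves the directions and the area up to a high order is close to the identity to a high order.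

PROOF.  Let `u v = R v - v`; `v.1 (u v).2 - v.2 (u v).1 = v.1 (R v).2 - v.2 (R v).1` and `w + u w = R w`.  Claim: `u = O(‖v‖^d)` for all `d` with `2 ≤ d ≤ e + 1`, by induction on `d`.
`d = 2`: `sc_base` (`‖v‖^(e+2) = O(‖v‖^3)` near 0 since `3 ≤ e+2`; `jac R 0 = 1` because `jac R v - 1 = O(‖v‖^e)`, `1 ≤ e`, at `v = 0`: `IsBigO.eq_zero_imp` or the bound at `v = 0`).
`d → d+1` for `d ≤ e`: `sc_step` (`‖v‖^(e+2) = O(‖v‖^(d+2))`, `‖v‖^e = O(‖v‖^d)` near 0).  (Comparison of powers near 0: `IsBigO.of_bound 1`, `pow_le_pow_of_le_one`.) -/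
theorem lemmaC {e : ℕ} (he : 1 ≤ e) {R : ℝ × ℝ → ℝ × ℝ} (hR : ContDiff ℝ ∞ R)
    (hK : (fun v : ℝ × ℝ => v.1 * (R v).2 - v.2 * (R v).1) =O[𝓝 0] fun v : ℝ × ℝ => ‖v‖ ^ (e + 2))
    (hJ : (fun v => jac R v - 1) =O[𝓝 0] fun v : ℝ × ℝ => ‖v‖ ^ e)
    (hD : ‖fderiv ℝ R 0 - ContinuousLinearMap.id ℝ (ℝ × ℝ)‖ < 1 / 2) :
    (fun v => R v - v) =O[𝓝 0] fun v : ℝ × ℝ => ‖v‖ ^ (e + 1) := by
  have hu : ContDiff ℝ ∞ fun v => R v - v := hR.sub contDiff_id
  have hj0 : jac R 0 = 1 := by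
    have h0 := IsBigO.eq_zero_of_norm_pow (f := fun v => jac R v - 1) (x₀ := (0 : ℝ × ℝ))
      (n := e) (by simpa using hJ) (by omega)
    linarith
  have key : ∀ d, d + 1 ≤ e →
      (fun v => R v - v) =O[𝓝 0] fun v : ℝ × ℝ => ‖v‖ ^ (d + 2) := by
    intro d
    induction d with
    | zero => intro _; exact sc_base hR (hK.trans (sc2_pow (by omega))) hj0 hD
    | succ d ih =>
      intro hd
      have h1 := ih (by omega)
      refine sc_step hu (d + 2) (by omega) h1 ?_ ?_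
      · refine IsBigO.trans ?_ (hK.trans (sc2_pow (show d + 2 + 2 ≤ e + 2 by omega)))
        refine (EventuallyEq.of_eq ?_).isBigO
        funext v
        simp only [Prod.snd_sub, Prod.fst_sub]
        ring
      · refine IsBigO.trans ?_ (hJ.trans (sc2_pow (show d + 2 ≤ e by omega)))
        refine (EventuallyEq.of_eq ?_).isBigO
        funext v
        have h3 : (fun w => w + (R w - w)) = R := by
          funext w
          abel
        rw [h3]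
  obtain ⟨k, hk⟩ : ∃ k, e = k + 1 := ⟨e - 1, by omega⟩
  have h5 := key k (by omega)
  rw [hk]
  exact h5

end Pool.Agent.Lib.H37N
end

-- from Lib.H37N.SA7
section

/-! # H37N, chunk SA7 (M): AS2 (S.2) -/

open Set Filter Topology Asymptotics
open scoped ContDiff

namespace Pool.Agent.Lib.H37N

variable {P : Type} [NormedAddCommGroup P] [NormedSpace ℝ P] [FiniteDimensional ℝ P] {n e : ℕ} {s₀ : ℝ} {d : ℕ → ℝ}
  {B : ℕ → (P × QQ n e) × ℝ × ℝ → ℝ × ℝ} {J : ℕ → (P × QQ n e) × ℝ × ℝ → ℝ}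

/-- S.2, THEOREM AS2.

PROOF.  Let `R z v = st B (2n) (z,v)`.  `R (0,0) = id` (`st_full`), and `z ↦ fderiv (R z) 0` is continuous (`R` is smooth; `fderiv (R z) 0 = (fderiv (st B (2n)) (z,0)).comp inr`), so
`‖fderiv (R z) 0 - id‖ < 1/2` for `z` near `(0,0)`.  By `st_jac` (`z₀ = (0,0)`, `ρ' z = ρ z.1`, `h0`: `st_zero` at `v = 0`, `spi n j 0 = 0`) for `z` near `(0,0)`, `v` near 0, `ρ z.1 ≠ 0`:
`jac (R z) v = exp (ρ z.1 * Jf (z,v))`; so there are a neighbourhood `U` of `0 : P` and `V'` of `0 : QQ` such that for `p ∈ U`, `q ∈ V'` both hold, the second one for all `v` near 0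
(`Filter.Eventually.prod_nhds`-type lemmas: `eventually_nhds_prod_iff`, `Filter.Eventually.curry_nhds`).  Apply `as2_solve` with `V ∩ V'`.  For the `q` obtained:
`jac (R (p,q)) v - 1 = exp (ρ p * Jf) - 1 = O(|Jf|) = O(‖v‖^(e+1)) = O(‖v‖^e)` (`Real.exp` is differentiable at 0; `Jf → 0`), `v ∧ R(v) = Kf = O(‖v‖^(e+2))`; `lemmaC`. -/
theorem as2 (he : 1 ≤ e) (hn : n = e + 3) (h : Blocks n e s₀ d B J) (hs : s₀ ≠ 0)
    (hd : ∑ j ∈ Finset.range (2 * n), d (j + 1) = 0) {ρ : P → ℝ}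
    (hdet : ∀ j < 2 * n, ∀ᶠ r : (P × QQ n e) × ℝ × ℝ in 𝓝 ((0, 0), 0), ρ r.1.1 ≠ 0 →
      jac (fun v => B j (r.1, v)) r.2 = Real.exp (ρ r.1.1 * J j r))
    {V : Set (QQ n e)} (hV : V ∈ 𝓝 0) :
    ∀ᶠ p : P in 𝓝 0, ρ p ≠ 0 → ∃ q ∈ V, (fun v : ℝ × ℝ => st B (2 * n) ((p, q), v) - v) =O[𝓝 0] fun v : ℝ × ℝ => ‖v‖ ^ (e + 1) := by
  have hn2 : 2 ≤ n := by omega
  have hF : ContDiff ℝ ∞ (st B (2 * n)) := st_contDiff (N := 2 * n) h.smooth _ le_rfl
  have hFz : ∀ z : P × QQ n e, ContDiff ℝ ∞ (fun v : ℝ × ℝ => st B (2 * n) (z, v)) := fun z =>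
    hF.comp (contDiff_const.prodMk contDiff_id)
  -- the derivative at `0` is close to the identity
  have hfd : ∀ z : P × QQ n e, fderiv ℝ (fun v : ℝ × ℝ => st B (2 * n) (z, v)) 0 =
      (fderiv ℝ (st B (2 * n)) (z, 0)).comp (ContinuousLinearMap.inr ℝ (P × QQ n e) (ℝ × ℝ)) := by
    intro z
    have h1 : HasFDerivAt (fun v : ℝ × ℝ => (z, v)) (ContinuousLinearMap.inr ℝ (P × QQ n e) (ℝ × ℝ)) 0 :=
      (hasFDerivAt_const z (0 : ℝ × ℝ)).prodMk (hasFDerivAt_id (𝕜 := ℝ) (0 : ℝ × ℝ))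
    have h2 : HasFDerivAt (st B (2 * n)) (fderiv ℝ (st B (2 * n)) (z, 0)) (z, (0 : ℝ × ℝ)) :=
      ((hF.differentiable (by simp)) _).hasFDerivAt
    exact (h2.comp (0 : ℝ × ℝ) h1).fderiv
  have hcont : Continuous fun z : P × QQ n e =>
      ‖fderiv ℝ (fun v : ℝ × ℝ => st B (2 * n) (z, v)) 0 - ContinuousLinearMap.id ℝ (ℝ × ℝ)‖ := by
    simp only [hfd]
    have h1 : Continuous fun z : P × QQ n e => fderiv ℝ (st B (2 * n)) (z, (0 : ℝ × ℝ)) :=
      (hF.continuous_fderiv (by simp)).comp (continuous_id.prodMk continuous_const)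
    exact ((h1.clm_comp continuous_const).sub continuous_const).norm
  have hD0 : ‖fderiv ℝ (fun v : ℝ × ℝ => st B (2 * n) (((0, 0) : P × QQ n e), v)) 0 -
      ContinuousLinearMap.id ℝ (ℝ × ℝ)‖ < 1 / 2 := by
    have h1 : (fun v : ℝ × ℝ => st B (2 * n) (((0, 0) : P × QQ n e), v)) = fun v => v := by
      funext v
      exact st_full hn2 h v
    rw [h1, fderiv_fun_id]
    simp
  have hev1 : ∀ᶠ z : P × QQ n e in 𝓝 (0, 0),
      ‖fderiv ℝ (fun v : ℝ × ℝ => st B (2 * n) (z, v)) 0 - ContinuousLinearMap.id ℝ (ℝ × ℝ)‖ < 1 / 2 :=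
    hcont.continuousAt.eventually_lt continuousAt_const hD0
  -- the Jacobian
  have hst0 : ∀ j < 2 * n, st B j (((0, 0) : P × QQ n e), (0 : ℝ × ℝ)) = 0 := by
    intro j hj
    rw [st_zero hn2 h 0 j hj.le]
    simp [spi]
  have hev2 := (st_jac (z₀ := ((0, 0) : P × QQ n e)) (ρ := fun z => ρ z.1) (2 * n) h.smooth hst0 hdet).curry_nhds
  obtain ⟨pa, hpa, pb, hpb, hpp⟩ := Filter.eventually_prod_iff.1 ((nhds_prod_eq (x := (0 : P)) (y := (0 : QQ n e))) ▸ (hev1.and hev2))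
  filter_upwards [hpa, as2_solve hn h hs hd (Filter.inter_mem hV hpb)] with p hp hq hρ
  obtain ⟨q, ⟨hqV, hqb⟩, hK, hJ⟩ := hq
  obtain ⟨h1, h2⟩ := hpp hp hqb
  refine ⟨q, hqV, ?_⟩
  refine lemmaC he (hFz (p, q)) hK ?_ h1
  have h2' : (fun v : ℝ × ℝ => jac (fun v => st B (2 * n) ((p, q), v)) v - 1) =ᶠ[𝓝 0]
      fun v => Real.exp (ρ p * Jf B J (2 * n) ((p, q), v)) - 1 := by
    filter_upwards [h2] with v hv
    rw [hv hρ]
    rfl
  refine h2'.trans_isBigO ?_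
  have hJ1 : (fun v : ℝ × ℝ => ρ p * Jf B J (2 * n) ((p, q), v)) =O[𝓝 0] fun v : ℝ × ℝ => ‖v‖ ^ (e + 1) :=
    hJ.const_mul_left (ρ p)
  have hpow0 : Tendsto (fun v : ℝ × ℝ => ‖v‖ ^ (e + 1)) (𝓝 0) (𝓝 0) := by
    have : Tendsto (fun v : ℝ × ℝ => ‖v‖ ^ (e + 1)) (𝓝 0) (𝓝 (‖(0 : ℝ × ℝ)‖ ^ (e + 1))) :=
      (continuous_norm.pow (e + 1)).continuousAt
    simpa using this
  have hJ0 : Tendsto (fun v : ℝ × ℝ => ρ p * Jf B J (2 * n) ((p, q), v)) (𝓝 0) (𝓝 0) := hJ1.trans_tendsto hpow0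
  have hexp : (fun x : ℝ => Real.exp x - 1) =O[𝓝 0] fun x => x := by
    have := (Real.hasDerivAt_exp 0).isBigO_sub
    simpa using this
  refine ((hexp.comp_tendsto hJ0).trans hJ1).trans ?_
  refine IsBigO.of_bound 1 ?_
  filter_upwards [Metric.ball_mem_nhds (0 : ℝ × ℝ) one_pos] with v hv
  have hv1 : ‖v‖ ≤ 1 := by
    rw [mem_ball_zero_iff] at hv
    exact hv.le
  rw [one_mul, norm_pow, norm_pow, norm_norm]
  exact pow_le_pow_of_le_one (norm_nonneg _) hv1 (Nat.le_succ e)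

end Pool.Agent.Lib.H37N
end

-- from Lib.H37N.SA8
section

/-! # H37N, chunk SA8: AS2 (S.2) with local hypotheses -/

open Set Filter Topology Asymptotics
open scoped ContDiff

namespace Pool.Agent.Lib.H37N

variable {P : Type} [NormedAddCommGroup P] [NormedSpace ℝ P] [FiniteDimensional ℝ P] {n e : ℕ} {s₀ : ℝ} {d : ℕ → ℝ}
  {B : ℕ → (P × QQ n e) × ℝ × ℝ → ℝ × ℝ} {J : ℕ → (P × QQ n e) × ℝ × ℝ → ℝ}

/-- the model block of AS2 -/
noncomputable def sMo (n e j : ℕ) (r : QQ n e × ℝ × ℝ) : ℝ × ℝ :=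
  (r.2.2, -r.2.1 + 2 * Real.cos (sth n) * r.2.2 + ∑ i ∈ Finset.range (e + 1), qx r.1 j i * r.2.2 ^ i)

theorem contDiff_qx (n e j i : ℕ) : ContDiff ℝ ∞ (fun q : QQ n e => qx q j i) := by
  by_cases h : j < 2 * n ∧ i < e + 1
  · have : (fun q : QQ n e => qx q j i) = fun q => q ⟨j, h.1⟩ ⟨i, h.2⟩ := by
      funext q
      simp [qx, h]
    rw [this]
    exact (contDiff_apply_apply ℝ ℝ (⟨j, h.1⟩ : Fin (2 * n)) (⟨i, h.2⟩ : Fin (e + 1)))
  · have : (fun q : QQ n e => qx q j i) = fun _ => 0 := by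
      funext q
      simp only [qx, dif_neg h]
    rw [this]
    exact contDiff_const

theorem contDiff_sMo (n e j : ℕ) : ContDiff ℝ ∞ (sMo n e j) := by
  unfold sMo
  have h1 : ContDiff ℝ ∞ fun r : QQ n e × ℝ × ℝ => r.2.2 := contDiff_snd.comp contDiff_snd
  have h2 : ContDiff ℝ ∞ fun r : QQ n e × ℝ × ℝ => r.2.1 := contDiff_fst.comp contDiff_snd
  refine h1.prodMk ((h2.neg.add (contDiff_const.mul h1)).add ?_)
  refine ContDiff.sum fun i _ => ?_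
  exact ((contDiff_qx n e j i).comp contDiff_fst).mul (h1.pow i)

/-- S.2, THEOREM AS2 with local hypotheses: the formulas at the parameter `p = 0` are only required near `(q,v) = 0`. -/
theorem as2_local (he : 1 ≤ e) (hn : n = e + 3) (hB : ∀ j < 2 * n, ContDiff ℝ ∞ (B j))
    (hJ : ∀ j < 2 * n, ContDiff ℝ ∞ (J j))
    (hB0 : ∀ j < 2 * n, ∀ᶠ r : QQ n e × ℝ × ℝ in 𝓝 0, B j ((0, r.1), r.2) =
      (r.2.2, -r.2.1 + 2 * Real.cos (sth n) * r.2.2 + ∑ i ∈ Finset.range (e + 1), qx r.1 j i * r.2.2 ^ i))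
    (hJ0 : ∀ j < 2 * n, ∀ᶠ r : QQ n e × ℝ × ℝ in 𝓝 0, J j ((0, r.1), r.2) = s₀ * (r.2.2 + d (j + 1)))
    (hs : s₀ ≠ 0)
    (hd : ∑ j ∈ Finset.range (2 * n), d (j + 1) = 0) {ρ : P → ℝ}
    (hdet : ∀ j < 2 * n, ∀ᶠ r : (P × QQ n e) × ℝ × ℝ in 𝓝 0, ρ r.1.1 ≠ 0 →
      jac (fun v => B j (r.1, v)) r.2 = Real.exp (ρ r.1.1 * J j r))
    {V : Set (QQ n e)} (hV : V ∈ 𝓝 0) :
    ∀ᶠ p : P in 𝓝 0, ρ p ≠ 0 → ∃ q ∈ V, (fun v : ℝ × ℝ => st B (2 * n) ((p, q), v) - v) =O[𝓝 0] fun v : ℝ × ℝ => ‖v‖ ^ (e + 1) := by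
  have hn2 : 2 ≤ n := by omega
  -- the cut-off function
  have hev : ∀ᶠ r : QQ n e × ℝ × ℝ in 𝓝 0, ∀ j ∈ Finset.range (2 * n),
      B j ((0, r.1), r.2) = sMo n e j r ∧ J j ((0, r.1), r.2) = s₀ * (r.2.2 + d (j + 1)) := by
    refine (Filter.eventually_all_finset _).2 fun j hj => ?_
    rw [Finset.mem_range] at hj
    exact (hB0 j hj).and (hJ0 j hj)
  obtain ⟨O, hO, hOo, h0O⟩ := _root_.eventually_nhds_iff.1 hev
  obtain ⟨χ, hχ, -, hts, -, h1⟩ := exists_cutoff (isCompact_singleton (x := (0 : QQ n e × ℝ × ℝ))) hOo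
    (singleton_subset_iff.2 h0O)
  rw [nhdsSet_singleton] at h1
  have hχO : ∀ r, χ r ≠ 0 → r ∈ O := fun r hr => hts (subset_tsupport _ hr)
  -- the modified blocks
  let B' : ℕ → (P × QQ n e) × ℝ × ℝ → ℝ × ℝ := fun j r =>
    sMo n e j (r.1.2, r.2) + χ (r.1.2, r.2) • (B j r - sMo n e j (r.1.2, r.2))
  let J' : ℕ → (P × QQ n e) × ℝ × ℝ → ℝ := fun j r =>
    s₀ * (r.2.2 + d (j + 1)) + χ (r.1.2, r.2) * (J j r - s₀ * (r.2.2 + d (j + 1)))
  have hpr : ContDiff ℝ ∞ fun r : (P × QQ n e) × ℝ × ℝ => (r.1.2, r.2) :=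
    (contDiff_snd.comp contDiff_fst).prodMk contDiff_snd
  have hB' : ∀ j < 2 * n, ContDiff ℝ ∞ (B' j) := fun j hj =>
    ((contDiff_sMo n e j).comp hpr).add ((hχ.comp hpr).smul ((hB j hj).sub ((contDiff_sMo n e j).comp hpr)))
  have hlin : ∀ j, ContDiff ℝ ∞ fun r : (P × QQ n e) × ℝ × ℝ => s₀ * (r.2.2 + d (j + 1)) := fun j =>
    contDiff_const.mul ((contDiff_snd.comp contDiff_snd).add contDiff_const)
  have hJ' : ∀ j < 2 * n, ContDiff ℝ ∞ (J' j) := fun j hj =>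
    (hlin j).add ((hχ.comp hpr).mul ((hJ j hj).sub (hlin j)))
  have hbl : Blocks n e s₀ d B' J' := by
    refine ⟨hB', hJ', fun j hj q x u => ?_, fun j hj q x u => ?_⟩
    · show sMo n e j (q, (x, u)) + χ (q, (x, u)) • (B j ((0, q), (x, u)) - sMo n e j (q, (x, u))) = _
      have : χ (q, (x, u)) • (B j ((0, q), (x, u)) - sMo n e j (q, (x, u))) = 0 := by
        by_cases hc : χ (q, (x, u)) = 0
        · rw [hc, zero_smul]
        · have := (hO (q, (x, u)) (hχO _ hc) j (Finset.mem_range.2 hj)).1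
          rw [this, sub_self, smul_zero]
      rw [this, add_zero]
      rfl
    · show s₀ * (u + d (j + 1)) + χ (q, (x, u)) * (J j ((0, q), (x, u)) - s₀ * (u + d (j + 1))) = _
      have : χ (q, (x, u)) * (J j ((0, q), (x, u)) - s₀ * (u + d (j + 1))) = 0 := by
        by_cases hc : χ (q, (x, u)) = 0
        · rw [hc, zero_mul]
        · have := (hO (q, (x, u)) (hχO _ hc) j (Finset.mem_range.2 hj)).2
          rw [this, sub_self, mul_zero]
      rw [this, add_zero]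
  -- near `0` the blocks are not modified
  have hpr0 : Tendsto (fun r : (P × QQ n e) × ℝ × ℝ => (r.1.2, r.2)) (𝓝 0) (𝓝 0) := by
    exact hpr.continuous.tendsto (0 : (P × QQ n e) × ℝ × ℝ)
  have hχ1 : ∀ᶠ r : (P × QQ n e) × ℝ × ℝ in 𝓝 0, χ (r.1.2, r.2) = 1 := hpr0.eventually h1
  have hχ2 : ∀ᶠ r : (P × QQ n e) × ℝ × ℝ in 𝓝 0, ∀ᶠ s in 𝓝 r, χ (s.1.2, s.2) = 1 := eventually_eventually_nhds.2 hχ1
  have heq : ∀ r : (P × QQ n e) × ℝ × ℝ, χ (r.1.2, r.2) = 1 → ∀ j, B' j r = B j r ∧ J' j r = J j r := by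
    intro r hr j
    constructor
    · show sMo n e j (r.1.2, r.2) + χ (r.1.2, r.2) • (B j r - sMo n e j (r.1.2, r.2)) = _
      rw [hr, one_smul, add_sub_cancel]
    · show s₀ * (r.2.2 + d (j + 1)) + χ (r.1.2, r.2) * (J j r - s₀ * (r.2.2 + d (j + 1))) = _
      rw [hr, one_mul, add_sub_cancel]
  have hdet' : ∀ j < 2 * n, ∀ᶠ r : (P × QQ n e) × ℝ × ℝ in 𝓝 ((0, 0), 0), ρ r.1.1 ≠ 0 →
      jac (fun v => B' j (r.1, v)) r.2 = Real.exp (ρ r.1.1 * J' j r) := by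
    intro j hj
    have h00 : (((0, 0), 0) : (P × QQ n e) × ℝ × ℝ) = 0 := rfl
    rw [h00]
    filter_upwards [hdet j hj, hχ2] with r hr hr2 hρ
    have e1 : (fun v => B' j (r.1, v)) =ᶠ[𝓝 r.2] fun v => B j (r.1, v) := by
      have hc : Tendsto (fun v : ℝ × ℝ => (r.1, v)) (𝓝 r.2) (𝓝 r) :=
        (continuous_const.prodMk continuous_id).tendsto r.2
      filter_upwards [hc.eventually hr2] with v hv
      exact (heq _ hv j).1
    rw [(heq r hr2.self_of_nhds j).2, ← hr hρ]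
    unfold jac
    rw [e1.fderiv_eq]
  -- the states agree near `0`
  have hst0 : ∀ j < 2 * n, st B' j (((0, 0) : P × QQ n e), (0 : ℝ × ℝ)) = 0 := by
    intro j hj
    rw [st_zero hn2 hbl 0 j hj.le]
    simp [spi]
  have hstc : ∀ j ≤ 2 * n, ContDiff ℝ ∞ (st B' j) := st_contDiff (N := 2 * n) hB'
  have hst : ∀ j ≤ 2 * n, ∀ᶠ r : (P × QQ n e) × ℝ × ℝ in 𝓝 0, st B j r = st B' j r := by
    intro j
    induction j with
    | zero => exact fun _ => Eventually.of_forall fun r => rfl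
    | succ j ih =>
      intro hj
      have hc : Tendsto (fun r : (P × QQ n e) × ℝ × ℝ => (r.1, st B' j r)) (𝓝 0) (𝓝 0) := by
        have := (continuous_fst.prodMk (hstc j (by omega)).continuous).tendsto (0 : (P × QQ n e) × ℝ × ℝ)
        have h0 : st B' j (0 : (P × QQ n e) × ℝ × ℝ) = 0 := hst0 j (by omega)
        rw [h0] at this
        exact this
      filter_upwards [ih (by omega), hc.eventually hχ1] with r hr hr1
      show B j (r.1, st B j r) = B' j (r.1, st B' j r)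
      rw [hr, (heq _ hr1 j).1]
  have hev3 := (hst (2 * n) le_rfl)
  have h00 : (0 : (P × QQ n e) × ℝ × ℝ) = (((0, 0) : P × QQ n e), (0 : ℝ × ℝ)) := rfl
  rw [h00] at hev3
  obtain ⟨pa, hpa, pb, hpb, hpp⟩ := Filter.eventually_prod_iff.1
    ((nhds_prod_eq (x := (0 : P)) (y := (0 : QQ n e))) ▸ hev3.curry_nhds)
  filter_upwards [hpa, as2 he hn hbl hs hd hdet' (Filter.inter_mem hV hpb)] with p hp hq hρ
  obtain ⟨q, ⟨hqV, hqb⟩, hO⟩ := hq hρ
  refine ⟨q, hqV, IsBigO.congr' hO ?_ EventuallyEq.rfl⟩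
  filter_upwards [hpp hp hqb] with v hv
  rw [hv]

end Pool.Agent.Lib.H37N
end

-- from Lib.H37D.DS0
section

/-! # H37D, chunk DS0: blocks with a slaved variable (definition, smoothness) -/

open Set Filter Topology Asymptotics
open scoped ContDiff

namespace Pool.Agent.Lib.H37D

open Pool.Agent.Lib.H37N

/-- the point after `j` blocks; `G j (p, (v, w))` is the `j`-th block -/
def stW {X W : Type} (G : ℕ → X × (ℝ × ℝ) × W → (ℝ × ℝ) × W) : ℕ → X × (ℝ × ℝ) × W → (ℝ × ℝ) × W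
  | 0, r => r.2
  | j + 1, r => G j (r.1, stW G j r)

theorem stW_contDiff {X W : Type} [NormedAddCommGroup X] [NormedSpace ℝ X] [NormedAddCommGroup W] [NormedSpace ℝ W]
    {G : ℕ → X × (ℝ × ℝ) × W → (ℝ × ℝ) × W} {N : ℕ} (hG : ∀ j < N, ContDiff ℝ ∞ (G j)) :
    ∀ j ≤ N, ContDiff ℝ ∞ (stW G j) := by
  intro j
  induction j with
  | zero =>
    intro _
    show ContDiff ℝ ∞ (fun r : X × (ℝ × ℝ) × W => r.2)
    exact contDiff_snd
  | succ j ih =>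
    intro hj
    show ContDiff ℝ ∞ (fun r : X × (ℝ × ℝ) × W => G j (r.1, stW G j r))
    exact (hG j (by omega)).comp (contDiff_fst.prodMk (ih (by omega)))

end Pool.Agent.Lib.H37D
end

-- from Lib.H37D.DS1
section

/-! # H37D, chunk DS1: the composition at the parameter `p = 0`; the slaved variable -/

open Set Filter Topology Asymptotics
open scoped ContDiff

namespace Pool.Agent.Lib.H37D

open Pool.Agent.Lib.H37N

section model

variable {n e : ℕ}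


theorem ds1_st_zero (hn : 2 ≤ n) (v : ℝ × ℝ) (j : ℕ) :
    st (sMo n e) j ((0 : QQ n e), v) = (spi n j v, spi n (j + 1) v) := by
  induction j with
  | zero =>
    show v = _
    rw [Nat.cast_zero, zero_add, spi_zero hn, spi_one hn]
  | succ j ih =>
    show sMo n e j ((0 : QQ n e), st (sMo n e) j ((0 : QQ n e), v)) = _
    rw [ih]
    have hq : ∀ i, qx (0 : QQ n e) j i = 0 := by
      intro i
      have := qx_smul (0 : QQ n e) 0 j i
      rwa [zero_smul, zero_mul] at this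
    have h2 := spi_rec hn ((j : ℝ) + 1) v
    rw [add_sub_cancel_right] at h2
    unfold sMo
    simp only [hq, zero_mul, Finset.sum_const_zero, add_zero]
    push_cast
    rw [h2]
    ext
    · rfl
    · show _ = _
      ring

theorem ds1_st_zero' (hn : 2 ≤ n) (j : ℕ) : st (sMo n e) j (0 : QQ n e × ℝ × ℝ) = 0 := by
  have h := ds1_st_zero (e := e) hn (0 : ℝ × ℝ) j
  have h0 : ((0 : QQ n e), (0 : ℝ × ℝ)) = (0 : QQ n e × ℝ × ℝ) := rfl
  rw [h0] at h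
  rw [h]
  simp [spi]

/-- the linear part of the composition of `j` model blocks -/
noncomputable def sLin (n j : ℕ) : ℝ × ℝ →L[ℝ] ℝ × ℝ :=
  (sK n j • ContinuousLinearMap.snd ℝ ℝ ℝ - sK n ((j : ℝ) - 1) • ContinuousLinearMap.fst ℝ ℝ ℝ).prod
    (sK n (j + 1) • ContinuousLinearMap.snd ℝ ℝ ℝ - sK n j • ContinuousLinearMap.fst ℝ ℝ ℝ)

theorem sLin_apply (n j : ℕ) (v : ℝ × ℝ) : sLin n j v = (spi n j v, spi n (j + 1) v) := by
  unfold sLin spi
  simp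

theorem sLin_bij (hn : 2 ≤ n) (j : ℕ) : Function.Bijective (sLin n j) := by
  have hinj : Function.Injective (sLin n j : ℝ × ℝ →ₗ[ℝ] ℝ × ℝ) := by
    rw [← LinearMap.ker_eq_bot, LinearMap.ker_eq_bot']
    intro v hv
    have h1 : (spi n j v, spi n (j + 1) v) = 0 := by
      rw [← sLin_apply]
      exact hv
    have key : ∀ i : ℕ, i ≤ j → spi n ((j : ℝ) - i) v = 0 ∧ spi n ((j : ℝ) - i + 1) v = 0 := by
      intro i
      induction i with
      | zero =>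
        intro _
        rw [Nat.cast_zero, sub_zero]
        exact ⟨congrArg Prod.fst h1, congrArg Prod.snd h1⟩
      | succ i ih =>
        intro hi
        obtain ⟨h2, h3⟩ := ih (by omega)
        have h4 := spi_rec hn ((j : ℝ) - i) v
        rw [h2, h3] at h4
        push_cast
        rw [show (j : ℝ) - (i + 1) + 1 = j - i by ring, show (j : ℝ) - (i + 1) = j - i - 1 by ring]
        exact ⟨by linarith, h2⟩
    obtain ⟨h2, h3⟩ := key j le_rfl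
    rw [sub_self] at h2 h3
    rw [spi_zero hn] at h2
    rw [zero_add, spi_one hn] at h3
    exact Prod.ext h2 h3
  exact ⟨hinj, LinearMap.injective_iff_surjective.1 hinj⟩

end model

section blocks

variable {P' : Type} [NormedAddCommGroup P'] [NormedSpace ℝ P'] [FiniteDimensional ℝ P']
  {W : Type} [NormedAddCommGroup W] [NormedSpace ℝ W] [FiniteDimensional ℝ W] {n e : ℕ}
  {c : W} {G : ℕ → ((ℝ × P') × QQ n e) × (ℝ × ℝ) × W → (ℝ × ℝ) × W}

/-- the values at the parameter `p = 0` -/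
theorem ds1_val (hn : 2 ≤ n) (hG : ∀ j < 2 * n, ContDiff ℝ ∞ (G j))
    (hG0 : ∀ j < 2 * n, ∀ᶠ r : QQ n e × (ℝ × ℝ) × W in 𝓝 0, G j ((0, r.1), r.2) =
      ((r.2.1.2, -r.2.1.1 + 2 * Real.cos (sth n) * r.2.1.2 + ∑ i ∈ Finset.range (e + 1), qx r.1 j i * r.2.1.2 ^ i),
        r.2.1.2 • c)) : ∀ j ≤ 2 * n, ∀ᶠ r : QQ n e × (ℝ × ℝ) × W in 𝓝 0,
      (stW G j ((0, r.1), r.2)).1 = st (sMo n e) j (r.1, r.2.1) ∧
      (j ≠ 0 → (stW G j ((0, r.1), r.2)).2 = (st (sMo n e) j (r.1, r.2.1)).1 • c) := by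
  intro j
  induction j with
  | zero => exact fun _ => Eventually.of_forall fun r => ⟨rfl, fun h => absurd rfl h⟩
  | succ j ih =>
    intro hj
    have ih' := ih (by omega)
    have hs := stW_contDiff hG j (by omega)
    -- the value at `0`
    have h0 : stW G j (((0 : ℝ × P'), (0 : QQ n e)), (0 : (ℝ × ℝ) × W)) = 0 := by
      rcases Nat.eq_zero_or_pos j with rfl | hpos
      · rfl
      · obtain ⟨h1, h2⟩ := ih'.self_of_nhds
        have h3 : st (sMo n e) j ((0 : QQ n e × (ℝ × ℝ) × W).1, (0 : QQ n e × (ℝ × ℝ) × W).2.1) = 0 :=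
          ds1_st_zero' hn j
        rw [h3] at h1 h2
        refine Prod.ext h1 ?_
        exact (h2 hpos.ne').trans (zero_smul ℝ c)
    have ht : Tendsto (fun r : QQ n e × (ℝ × ℝ) × W => (r.1, stW G j ((0, r.1), r.2))) (𝓝 0) (𝓝 0) := by
      have h1 : Continuous (fun r : QQ n e × (ℝ × ℝ) × W => (r.1, stW G j ((0, r.1), r.2))) := by
        refine continuous_fst.prodMk (hs.continuous.comp ?_)
        exact (continuous_const.prodMk continuous_fst).prodMk continuous_snd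
      have h2 := h1.tendsto (0 : QQ n e × (ℝ × ℝ) × W)
      have h3 : ((0 : QQ n e × (ℝ × ℝ) × W).1, stW G j ((0, (0 : QQ n e × (ℝ × ℝ) × W).1),
          (0 : QQ n e × (ℝ × ℝ) × W).2)) = (0 : QQ n e × (ℝ × ℝ) × W) := Prod.ext rfl h0
      rw [h3] at h2
      exact h2
    filter_upwards [ih', ht.eventually (hG0 j (by omega))] with r h1 h2
    have h3 : stW G (j + 1) ((0, r.1), r.2) = G j ((0, r.1), stW G j ((0, r.1), r.2)) := rfl
    have h4 : st (sMo n e) (j + 1) (r.1, r.2.1) = sMo n e j (r.1, st (sMo n e) j (r.1, r.2.1)) := rfl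
    rw [h3, h2, h4]
    simp only [h1.1]
    refine ⟨rfl, fun _ => rfl⟩

/-- the value of the composition at `0` -/
theorem ds1_val0 (hn : 2 ≤ n) (hG : ∀ j < 2 * n, ContDiff ℝ ∞ (G j))
    (hG0 : ∀ j < 2 * n, ∀ᶠ r : QQ n e × (ℝ × ℝ) × W in 𝓝 0, G j ((0, r.1), r.2) =
      ((r.2.1.2, -r.2.1.1 + 2 * Real.cos (sth n) * r.2.1.2 + ∑ i ∈ Finset.range (e + 1), qx r.1 j i * r.2.1.2 ^ i),
        r.2.1.2 • c)) {j : ℕ} (hj : j ≤ 2 * n) :
    stW G j (0 : ((ℝ × P') × QQ n e) × (ℝ × ℝ) × W) = 0 := by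
  rcases Nat.eq_zero_or_pos j with rfl | hpos
  · rfl
  · obtain ⟨h1, h2⟩ := (ds1_val hn hG hG0 j hj).self_of_nhds
    have h3 : st (sMo n e) j ((0 : QQ n e × (ℝ × ℝ) × W).1, (0 : QQ n e × (ℝ × ℝ) × W).2.1) = 0 :=
      ds1_st_zero' hn j
    rw [h3] at h1 h2
    refine Prod.ext h1 ?_
    exact (h2 hpos.ne').trans (zero_smul ℝ c)

/-- the slaved variable -/
theorem ds1_om (hn : 2 ≤ n) (hG : ∀ j < 2 * n, ContDiff ℝ ∞ (G j))
    (hG0 : ∀ j < 2 * n, ∀ᶠ r : QQ n e × (ℝ × ℝ) × W in 𝓝 0, G j ((0, r.1), r.2) =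
      ((r.2.1.2, -r.2.1.1 + 2 * Real.cos (sth n) * r.2.1.2 + ∑ i ∈ Finset.range (e + 1), qx r.1 j i * r.2.1.2 ^ i),
        r.2.1.2 • c)) :
    ∃ om : ((ℝ × P') × QQ n e) × ℝ × ℝ → W, ContDiff ℝ ∞ om ∧ om 0 = 0 ∧
      ∀ᶠ r in 𝓝 0, (stW G (2 * n) (r.1, (r.2, om r))).2 = om r := by
  have hS := stW_contDiff hG (2 * n) le_rfl
  set F : (((ℝ × P') × QQ n e) × ℝ × ℝ) × W → W :=
    fun s => s.2 - (stW G (2 * n) (s.1.1, (s.1.2, s.2))).2 with hF
  have hFs : ContDiff ℝ ∞ F := by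
    refine contDiff_snd.sub (contDiff_snd.comp (hS.comp ?_))
    exact (contDiff_fst.comp contDiff_fst).prodMk ((contDiff_snd.comp contDiff_fst).prodMk contDiff_snd)
  have hev : (fun x : W => F (0, x)) =ᶠ[𝓝 0] fun x => x := by
    have h1 := ds1_val hn hG hG0 (2 * n) le_rfl
    have h2 : Tendsto (fun x : W => (((0 : QQ n e), ((0 : ℝ × ℝ), x)) : QQ n e × (ℝ × ℝ) × W)) (𝓝 0) (𝓝 0) := by
      have h3 : Continuous (fun x : W => (((0 : QQ n e), ((0 : ℝ × ℝ), x)) : QQ n e × (ℝ × ℝ) × W)) :=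
        continuous_const.prodMk (continuous_const.prodMk continuous_id)
      exact h3.tendsto 0
    filter_upwards [h2.eventually h1] with x hx
    have h4 := hx.2 (by omega)
    have h5 : st (sMo n e) (2 * n) ((0 : QQ n e), (0 : ℝ × ℝ)) = 0 := ds1_st_zero' hn _
    have h6 : (stW G (2 * n) (((0 : ℝ × P'), (0 : QQ n e)), ((0 : ℝ × ℝ), x))).2 = 0 := by
      rw [h4]
      show (st (sMo n e) (2 * n) ((0 : QQ n e), (0 : ℝ × ℝ))).1 • c = 0
      rw [h5, Prod.fst_zero, zero_smul]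
    show x - (stW G (2 * n) (((0 : ℝ × P'), (0 : QQ n e)), ((0 : ℝ × ℝ), x))).2 = x
    rw [h6, sub_zero]
  have hb : Function.Bijective (fderiv ℝ (fun x : W => F (0, x)) 0) := by
    rw [hev.fderiv_eq, fderiv_fun_id]
    exact Function.bijective_id
  obtain ⟨ξ, hξ, hξ0, -, hξ2⟩ := implicit_param (P := ((ℝ × P') × QQ n e) × ℝ × ℝ) (E := W) (Z := W) (F := F)
    (p₀ := 0) (x₀ := 0) (Eventually.of_forall fun x => hFs.contDiffAt) hb
  have hF0 : F ((0 : ((ℝ × P') × QQ n e) × ℝ × ℝ), (0 : W)) = 0 := hev.self_of_nhds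
  rw [hF0] at hξ0 hξ2
  refine ⟨fun r => ξ (r, 0), hξ.comp (contDiff_id.prodMk contDiff_const), hξ0, ?_⟩
  have ht : Tendsto (fun r : ((ℝ × P') × QQ n e) × ℝ × ℝ => (r, (0 : W))) (𝓝 0) (𝓝 (0, 0)) :=
    (continuous_id.prodMk continuous_const).tendsto 0
  filter_upwards [ht.eventually hξ2] with r hr
  have h7 : ξ (r, 0) - (stW G (2 * n) (r.1, (r.2, ξ (r, 0)))).2 = 0 := hr
  exact (sub_eq_zero.1 h7).symm

end blocks

end Pool.Agent.Lib.H37D
end

-- from Lib.H37D.DS2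
section

/-! # H37D, chunk DS2: the planar blocks of a composition with a slaved variable -/

open Set Filter Topology Asymptotics
open scoped ContDiff

namespace Pool.Agent.Lib.H37D

open Pool.Agent.Lib.H37N

section blocks

variable {P' : Type} [NormedAddCommGroup P'] [NormedSpace ℝ P'] [FiniteDimensional ℝ P']
  {W : Type} [NormedAddCommGroup W] [NormedSpace ℝ W] [FiniteDimensional ℝ W] {n e : ℕ}
  {c : W} {G : ℕ → ((ℝ × P') × QQ n e) × (ℝ × ℝ) × W → (ℝ × ℝ) × W}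

/-- the planar part after `j` blocks, the `W`-variable being a function of the planar one -/
def dPhi {X W : Type} (G : ℕ → X × (ℝ × ℝ) × W → (ℝ × ℝ) × W) (om : X × ℝ × ℝ → W) (j : ℕ) (r : X × ℝ × ℝ) : ℝ × ℝ :=
  (stW G j (r.1, (r.2, om r))).1

omit [FiniteDimensional ℝ P'] [FiniteDimensional ℝ W] in
theorem ds2_smooth (hG : ∀ j < 2 * n, ContDiff ℝ ∞ (G j)) {om : ((ℝ × P') × QQ n e) × ℝ × ℝ → W}
    (hom : ContDiff ℝ ∞ om) {j : ℕ} (hj : j ≤ 2 * n) : ContDiff ℝ ∞ (dPhi G om j) := by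
  have hS := stW_contDiff hG j hj
  exact contDiff_fst.comp (hS.comp (contDiff_fst.prodMk (contDiff_snd.prodMk hom)))

theorem ds2_zero (hn : 2 ≤ n) (hG : ∀ j < 2 * n, ContDiff ℝ ∞ (G j))
    (hG0 : ∀ j < 2 * n, ∀ᶠ r : QQ n e × (ℝ × ℝ) × W in 𝓝 0, G j ((0, r.1), r.2) =
      ((r.2.1.2, -r.2.1.1 + 2 * Real.cos (sth n) * r.2.1.2 + ∑ i ∈ Finset.range (e + 1), qx r.1 j i * r.2.1.2 ^ i),
        r.2.1.2 • c)) {om : ((ℝ × P') × QQ n e) × ℝ × ℝ → W} (hom : ContDiff ℝ ∞ om) (hom0 : om 0 = 0) {j : ℕ}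
    (hj : j ≤ 2 * n) : (fun x : ℝ × ℝ => dPhi G om j (0, x)) =ᶠ[𝓝 0] fun x => sLin n j x := by
  have ht : Tendsto (fun x : ℝ × ℝ => (((0 : QQ n e), (x, om (0, x))) : QQ n e × (ℝ × ℝ) × W)) (𝓝 0) (𝓝 0) := by
    have h1 : Continuous (fun x : ℝ × ℝ => (((0 : QQ n e), (x, om (0, x))) : QQ n e × (ℝ × ℝ) × W)) :=
      continuous_const.prodMk (continuous_id.prodMk (hom.continuous.comp (continuous_const.prodMk continuous_id)))
    have h2 := h1.tendsto 0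
    have h3 : (((0 : QQ n e), ((0 : ℝ × ℝ), om (0, 0))) : QQ n e × (ℝ × ℝ) × W) = 0 :=
      Prod.ext rfl (Prod.ext rfl hom0)
    rw [h3] at h2
    exact h2
  filter_upwards [ht.eventually (ds1_val hn hG hG0 j hj)] with x hx
  show (stW G j (0, (x, om (0, x)))).1 = _
  rw [sLin_apply, ← ds1_st_zero (e := e) hn x j]
  exact hx.1

theorem ds2_inv (hn : 2 ≤ n) (hG : ∀ j < 2 * n, ContDiff ℝ ∞ (G j))
    (hG0 : ∀ j < 2 * n, ∀ᶠ r : QQ n e × (ℝ × ℝ) × W in 𝓝 0, G j ((0, r.1), r.2) =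
      ((r.2.1.2, -r.2.1.1 + 2 * Real.cos (sth n) * r.2.1.2 + ∑ i ∈ Finset.range (e + 1), qx r.1 j i * r.2.1.2 ^ i),
        r.2.1.2 • c)) {om : ((ℝ × P') × QQ n e) × ℝ × ℝ → W} (hom : ContDiff ℝ ∞ om) (hom0 : om 0 = 0) (j : ℕ) :
    ∃ ξ : ((ℝ × P') × QQ n e) × ℝ × ℝ → ℝ × ℝ, j ≤ 2 * n → (ContDiff ℝ ∞ ξ ∧ ξ 0 = 0 ∧
      (∀ᶠ r in 𝓝 0, ξ (r.1, dPhi G om j r) = r.2) ∧ ∀ᶠ r in 𝓝 0, dPhi G om j (r.1, ξ r) = r.2) := by
  by_cases hj : j ≤ 2 * n
  · have hs := ds2_smooth hG hom hj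
    have hz := ds2_zero hn hG hG0 hom hom0 hj
    have hb : Function.Bijective (fderiv ℝ (fun x : ℝ × ℝ => dPhi G om j (0, x)) 0) := by
      rw [hz.fderiv_eq, (sLin n j).fderiv]
      exact sLin_bij hn j
    obtain ⟨ξ, h1, h2, h3, h4⟩ := implicit_param (P := (ℝ × P') × QQ n e) (E := ℝ × ℝ) (Z := ℝ × ℝ)
      (F := dPhi G om j) (p₀ := 0) (x₀ := 0) (Eventually.of_forall fun x => hs.contDiffAt) hb
    have h0 : dPhi G om j ((0 : (ℝ × P') × QQ n e), (0 : ℝ × ℝ)) = 0 := by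
      exact (hz.self_of_nhds).trans (map_zero (sLin n j))
    rw [h0] at h2 h4
    exact ⟨ξ, fun _ => ⟨h1, h2, h3, h4⟩⟩
  · exact ⟨fun _ => 0, fun h => absurd h hj⟩

theorem ds2_blocks (hn : 2 ≤ n) (hG : ∀ j < 2 * n, ContDiff ℝ ∞ (G j))
    (hG0 : ∀ j < 2 * n, ∀ᶠ r : QQ n e × (ℝ × ℝ) × W in 𝓝 0, G j ((0, r.1), r.2) =
      ((r.2.1.2, -r.2.1.1 + 2 * Real.cos (sth n) * r.2.1.2 + ∑ i ∈ Finset.range (e + 1), qx r.1 j i * r.2.1.2 ^ i),
        r.2.1.2 • c)) {om : ((ℝ × P') × QQ n e) × ℝ × ℝ → W} (hom : ContDiff ℝ ∞ om) (hom0 : om 0 = 0) :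
    ∃ (B : ℕ → ((ℝ × P') × QQ n e) × ℝ × ℝ → ℝ × ℝ) (Ω : ℕ → ((ℝ × P') × QQ n e) × ℝ × ℝ → W),
      (∀ j < 2 * n, ContDiff ℝ ∞ (B j)) ∧ (∀ j < 2 * n, Continuous (Ω j) ∧ Ω j 0 = 0) ∧
      (∀ j < 2 * n, ∀ᶠ r in 𝓝 0, B j r = (G j (r.1, (r.2, Ω j r))).1) ∧
      ∀ j ≤ 2 * n, ∀ᶠ r in 𝓝 0, st B j r = dPhi G om j r := by
  choose ξ hξ using ds2_inv hn hG hG0 hom hom0
  refine ⟨fun j r => dPhi G om (j + 1) (r.1, ξ j r), fun j r => (stW G j (r.1, (ξ j r, om (r.1, ξ j r)))).2,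
    fun j hj => ?_, fun j hj => ⟨?_, ?_⟩, fun j hj => ?_, fun j => ?_⟩
  · exact (ds2_smooth hG hom hj).comp (contDiff_fst.prodMk (hξ j hj.le).1)
  · have hS := (stW_contDiff hG j hj.le).continuous
    have h1 := (hξ j hj.le).1.continuous
    exact continuous_snd.comp (hS.comp (continuous_fst.prodMk
      (h1.prodMk (hom.continuous.comp (continuous_fst.prodMk h1)))))
  · have h1 := (hξ j hj.le).2.1
    show (stW G j ((0 : ((ℝ × P') × QQ n e) × ℝ × ℝ).1, (ξ j 0, om ((0 : ((ℝ × P') × QQ n e) × ℝ × ℝ).1, ξ j 0)))).2 = 0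
    rw [h1]
    have h2 : om ((0 : ((ℝ × P') × QQ n e) × ℝ × ℝ).1, (0 : ℝ × ℝ)) = 0 := hom0
    rw [h2]
    have h3 := ds1_val0 hn hG hG0 hj.le
    exact congrArg Prod.snd h3
  · filter_upwards [(hξ j hj.le).2.2.2] with r hr
    show (G j (r.1, stW G j (r.1, (ξ j r, om (r.1, ξ j r))))).1 =
      (G j (r.1, (r.2, (stW G j (r.1, (ξ j r, om (r.1, ξ j r)))).2))).1
    have h1 : (stW G j (r.1, (ξ j r, om (r.1, ξ j r)))).1 = r.2 := hr
    have h2 : stW G j (r.1, (ξ j r, om (r.1, ξ j r))) = (r.2, (stW G j (r.1, (ξ j r, om (r.1, ξ j r)))).2) :=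
      Prod.ext h1 rfl
    rw [← h2]
  · induction j with
    | zero => exact fun _ => Eventually.of_forall fun r => rfl
    | succ j ih =>
      intro hj
      filter_upwards [ih (by omega), (hξ j (by omega)).2.2.1] with r h1 h2
      show dPhi G om (j + 1) (r.1, ξ j (r.1, st _ j r)) = _
      rw [h1, h2]

end blocks

end Pool.Agent.Lib.H37D
end

-- from Lib.H37D.DS3
section

/-! # H37D, chunk DS3: the logarithm of the Jacobian is divisible by `ρ` -/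

open Set Filter Topology Asymptotics
open scoped ContDiff

namespace Pool.Agent.Lib.H37D

open Pool.Agent.Lib.H37N

/-- the planar Jacobian of a family is smooth -/
theorem ds3_jac_smooth {X : Type} [NormedAddCommGroup X] [NormedSpace ℝ X] {B : X × ℝ × ℝ → ℝ × ℝ}
    (hB : ContDiff ℝ ∞ B) : ContDiff ℝ ∞ (fun r : X × ℝ × ℝ => jac (fun v => B (r.1, v)) r.2) := by
  have h1 : ∀ (r : X × ℝ × ℝ) (w : ℝ × ℝ), fderiv ℝ (fun v => B (r.1, v)) r.2 w = fderiv ℝ B r (0, w) := by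
    intro r w
    have h2 : HasFDerivAt (fun v : ℝ × ℝ => (r.1, v)) (ContinuousLinearMap.inr ℝ X (ℝ × ℝ)) r.2 :=
      hasFDerivAt_prodMk_right r.1 r.2
    have h3 : HasFDerivAt B (fderiv ℝ B r) (r.1, r.2) := (hB.differentiable (by simp) r).hasFDerivAt
    have h4 : fderiv ℝ (fun v => B (r.1, v)) r.2 = (fderiv ℝ B r).comp (ContinuousLinearMap.inr ℝ X (ℝ × ℝ)) :=
      (h3.comp r.2 h2).fderiv
    rw [h4]
    rfl
  have h4 : ∀ w : ℝ × ℝ, ContDiff ℝ ∞ (fun r : X × ℝ × ℝ => fderiv ℝ B r (0, w)) := fun w =>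
    (hB.fderiv_right (m := ∞) (by simp)).clm_apply contDiff_const
  have h5 : (fun r : X × ℝ × ℝ => jac (fun v => B (r.1, v)) r.2) = fun r =>
      (fderiv ℝ B r (0, (1, 0))).1 * (fderiv ℝ B r (0, (0, 1))).2 -
        (fderiv ℝ B r (0, (1, 0))).2 * (fderiv ℝ B r (0, (0, 1))).1 := by
    funext r
    unfold jac
    rw [h1, h1]
  rw [h5]
  exact ((contDiff_fst.comp (h4 _)).mul (contDiff_snd.comp (h4 _))).sub
    ((contDiff_snd.comp (h4 _)).mul (contDiff_fst.comp (h4 _)))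

variable {P' : Type} [NormedAddCommGroup P'] [NormedSpace ℝ P'] [FiniteDimensional ℝ P'] {n e : ℕ}

/-- `log jac = ρ * Jn` with a smooth `Jn`, known at `p = 0` -/
theorem ds3_log {B : ((ℝ × P') × QQ n e) × ℝ × ℝ → ℝ × ℝ} (hB : ContDiff ℝ ∞ B)
    (hρ : ∀ᶠ r : (P' × QQ n e) × ℝ × ℝ in 𝓝 0, jac (fun v => B (((0, r.1.1), r.1.2), v)) r.2 = 1)
    {J : (ℝ × QQ n e) × ℝ × ℝ → ℝ} (hJ : Continuous J)
    (hε : ∀ᶠ r : (ℝ × QQ n e) × ℝ × ℝ in 𝓝 0, r.1.1 ≠ 0 →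
      jac (fun v => B (((r.1.1, 0), r.1.2), v)) r.2 = Real.exp (r.1.1 * J r)) {s₀ d' : ℝ}
    (hJ0 : ∀ᶠ r : QQ n e × ℝ × ℝ in 𝓝 0, J ((0, r.1), r.2) = s₀ * (r.2.2 + d')) :
    ∃ Jn : ((ℝ × P') × QQ n e) × ℝ × ℝ → ℝ, ContDiff ℝ ∞ Jn ∧
      (∀ᶠ r in 𝓝 0, jac (fun v => B (r.1, v)) r.2 = Real.exp (r.1.1.1 * Jn r)) ∧
      ∀ᶠ r : QQ n e × ℝ × ℝ in 𝓝 0, Jn ((0, r.1), r.2) = s₀ * (r.2.2 + d') := by
  set jB : ((ℝ × P') × QQ n e) × ℝ × ℝ → ℝ := fun r => jac (fun v => B (r.1, v)) r.2 with hjB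
  have hjs : ContDiff ℝ ∞ jB := ds3_jac_smooth hB
  have h0 : jB 0 = 1 := hρ.self_of_nhds
  have hpos : ∀ᶠ r in 𝓝 0, 0 < jB r := by
    refine hjs.continuous.continuousAt.eventually (lt_mem_nhds ?_)
    rw [h0]
    exact one_pos
  obtain ⟨Lg, hLg, hLe⟩ := localise_at (f := fun r => Real.log (jB r)) (x₀ := 0)
    (hpos.mono fun r hr => hjs.contDiffAt.log hr.ne')
  set F : ((P' × QQ n e) × ℝ × ℝ) × ℝ → ℝ := fun s => Lg (((s.2, s.1.1.1), s.1.1.2), s.1.2) with hF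
  have hFs : ContDiff ℝ ∞ F := by
    refine hLg.comp ?_
    exact ((contDiff_snd.prodMk (contDiff_fst.comp (contDiff_fst.comp contDiff_fst))).prodMk
      (contDiff_snd.comp (contDiff_fst.comp contDiff_fst))).prodMk (contDiff_snd.comp contDiff_fst)
  obtain ⟨K, hK, hK1, -⟩ := hadamard1 hFs
  set Jn : ((ℝ × P') × QQ n e) × ℝ × ℝ → ℝ := fun r => K (((r.1.1.2, r.1.2), r.2), r.1.1.1) with hJn
  have hJns : ContDiff ℝ ∞ Jn := by
    refine hK.comp ?_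
    exact (((contDiff_snd.comp (contDiff_fst.comp contDiff_fst)).prodMk (contDiff_snd.comp contDiff_fst)).prodMk
      contDiff_snd).prodMk (contDiff_fst.comp (contDiff_fst.comp contDiff_fst))
  -- near `0`: `log jac = ρ * Jn`
  have ht : Tendsto (fun r : ((ℝ × P') × QQ n e) × ℝ × ℝ => ((r.1.1.2, r.1.2), r.2)) (𝓝 0) (𝓝 0) := by
    have h1 : Continuous (fun r : ((ℝ × P') × QQ n e) × ℝ × ℝ => ((r.1.1.2, r.1.2), r.2)) := by fun_prop
    exact h1.tendsto 0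
  have ht2 : Tendsto (fun r : ((ℝ × P') × QQ n e) × ℝ × ℝ => (((0, r.1.1.2), r.1.2), r.2)) (𝓝 0)
      (𝓝 (0 : ((ℝ × P') × QQ n e) × ℝ × ℝ)) := by
    have h1 : Continuous (fun r : ((ℝ × P') × QQ n e) × ℝ × ℝ =>
      ((((0 : ℝ), r.1.1.2), r.1.2), r.2)) := by fun_prop
    exact h1.tendsto 0
  have hlog : ∀ᶠ r in 𝓝 0, Real.log (jB r) = r.1.1.1 * Jn r := by
    filter_upwards [hLe, ht.eventually hρ, ht2.eventually hLe] with r h1 h2 h3
    have h4 := hK1 ((r.1.1.2, r.1.2), r.2) r.1.1.1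
    have h5 : F (((r.1.1.2, r.1.2), r.2), r.1.1.1) = Lg r := rfl
    have h6 : F (((r.1.1.2, r.1.2), r.2), 0) = Lg (((0, r.1.1.2), r.1.2), r.2) := rfl
    have h7 : jB (((0, r.1.1.2), r.1.2), r.2) = 1 := h2
    rw [h5, h6, h3, h7, Real.log_one, zero_add, h1] at h4
    exact h4
  refine ⟨Jn, hJns, ?_, ?_⟩
  · filter_upwards [hlog, hpos] with r h1 h2
    show jB r = _
    rw [← h1, Real.exp_log h2]
  · -- the values at `p = 0`
    have ht3 : Tendsto (fun r : (ℝ × QQ n e) × ℝ × ℝ => (((r.1.1, (0 : P')), r.1.2), r.2)) (𝓝 0) (𝓝 0) := by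
      have h1 : Continuous (fun r : (ℝ × QQ n e) × ℝ × ℝ => (((r.1.1, (0 : P')), r.1.2), r.2)) := by fun_prop
      exact h1.tendsto 0
    have hev : ∀ᶠ r : (ℝ × QQ n e) × ℝ × ℝ in 𝓝 0, r.1.1 ≠ 0 → Jn (((r.1.1, 0), r.1.2), r.2) = J r := by
      filter_upwards [hε, ht3.eventually hlog] with r h1 h2 h3
      have h4 : jB (((r.1.1, 0), r.1.2), r.2) = Real.exp (r.1.1 * J r) := h1 h3
      rw [h4, Real.log_exp] at h2
      exact (mul_left_cancel₀ h3 h2).symm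
    have ht4 : Tendsto (fun r : QQ n e × ℝ × ℝ => (((0 : ℝ), r.1), r.2)) (𝓝 0) (𝓝 0) := by
      have h1 : Continuous (fun r : QQ n e × ℝ × ℝ => (((0 : ℝ), r.1), r.2)) := by fun_prop
      exact h1.tendsto 0
    filter_upwards [ht4.eventually (eventually_eventually_nhds.2 hev), hJ0] with s h1 h2
    rw [← h2]
    have h3 : Tendsto (fun t : ℝ => ((t, s.1), s.2)) (𝓝 0) (𝓝 (((0 : ℝ), s.1), s.2)) := by
      have h4 : Continuous (fun t : ℝ => ((t, s.1), s.2)) := by fun_prop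
      exact h4.tendsto 0
    have h5 : ∀ᶠ t in 𝓝[≠] (0 : ℝ), Jn (((t, 0), s.1), s.2) = J ((t, s.1), s.2) := by
      filter_upwards [(h3.eventually h1).filter_mono nhdsWithin_le_nhds, self_mem_nhdsWithin] with t h6 h7
      exact h6 h7
    have h8 : Tendsto (fun t : ℝ => Jn (((t, 0), s.1), s.2)) (𝓝[≠] 0) (𝓝 (Jn (((0, 0), s.1), s.2))) := by
      have h9 : Continuous (fun t : ℝ => Jn (((t, 0), s.1), s.2)) := hJns.continuous.comp (by fun_prop)
      exact (h9.tendsto 0).mono_left nhdsWithin_le_nhds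
    have h9 : Tendsto (fun t : ℝ => J ((t, s.1), s.2)) (𝓝[≠] 0) (𝓝 (J ((0, s.1), s.2))) := by
      have h10 : Continuous (fun t : ℝ => J ((t, s.1), s.2)) := hJ.comp (by fun_prop)
      exact (h10.tendsto 0).mono_left nhdsWithin_le_nhds
    exact tendsto_nhds_unique_of_eventuallyEq h8 h9 h5

end Pool.Agent.Lib.H37D
end
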