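import Pool.Agent.Lib.H1M.FF.M001
import Pool.Agent.Lib.H1M.FF.M002
import Pool.Agent.Lib.H1M.FF.M019
import Pool.Agent.Lib.H1M.FF.M020

/-! Merged copies (to shorten the build) of Lib.H37D.DH21, Lib.H37D.DH22, Lib.H37D.DH24, Lib.H37D.DH82, Lib.H37N.I3e, Lib.H37D.DI3e. -/

-- from Lib.H37D.DH21
section

open TopologicalSpace Set Filter Topology

namespace Pool.Agent.Lib.H37D

/-! **DH21 (S).** Elementary properties of the cut-off `th` and of `Coc`. -/

section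

variable {r : ℝ}

theorem th_nonneg (r t : ℝ) : 0 ≤ th r t := le_max_left _ _

theorem th_le_one (r t : ℝ) : th r t ≤ 1 := max_le zero_le_one (min_le_left _ _)

theorem th_one (hr : 0 < r) {t : ℝ} (ht : t ≤ r / 4) : th r t = 1 := by
  have h1 : 4 * t / r ≤ 1 := by rw [div_le_one hr]; linarith
  unfold th
  rw [min_eq_left (by linarith), max_eq_right zero_le_one]

theorem th_zero (hr : 0 < r) {t : ℝ} (ht : r / 2 ≤ t) : th r t = 0 := by
  have h1 : 2 ≤ 4 * t / r := by rw [le_div_iff₀ hr]; linarith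
  unfold th
  exact max_eq_left ((min_le_right _ _).trans (by linarith))

theorem th_cont (r : ℝ) : Continuous (th r) := by
  unfold th
  exact continuous_const.max (continuous_const.min
    (continuous_const.sub ((continuous_const.mul continuous_id).div_const r)))

/-- `max 0 ∘ min 1` is Lipschitz with constant `1` (`abs_max_sub_max_le_max`, `abs_min_sub_min_le_max`). -/
theorem th_lip (hr : 0 < r) (t t' : ℝ) : |th r t - th r t'| ≤ 4 / r * |t - t'| := by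
  unfold th
  have h1 := abs_max_sub_max_le_max (0 : ℝ) (min 1 (2 - 4 * t / r)) 0 (min 1 (2 - 4 * t' / r))
  have h2 := abs_min_sub_min_le_max (1 : ℝ) (2 - 4 * t / r) 1 (2 - 4 * t' / r)
  rw [sub_self, abs_zero] at h1 h2
  have h4 := h1.trans (max_le (abs_nonneg _) le_rfl)
  have h5 := h2.trans (max_le (abs_nonneg _) le_rfl)
  refine (h4.trans h5).trans (le_of_eq ?_)
  have h3 : 2 - 4 * t / r - (2 - 4 * t' / r) = 4 / r * (t' - t) := by ring
  rw [h3, abs_mul, abs_of_pos (by positivity), abs_sub_comm]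

end

variable {Y : Type*} [TopologicalSpace Y] {W : Type*} [NormedAddCommGroup W] [NormedSpace ℝ W] {A B : Y → W ≃L[ℝ] W}

/-- Proof: `((A y).symm : W →L[ℝ] W) = ContinuousLinearMap.inverse (A y : W →L[ℝ] W)` (`ContinuousLinearMap.inverse_equiv`), and
`ContinuousLinearMap.inverse` is continuous at invertible maps (`contDiffAt_map_inverse (A y)` gives `ContDiffAt`, so
`ContinuousAt`; `n = 0`). -/
theorem continuous_symm [CompleteSpace W] (h : Continuous fun y => (A y : W →L[ℝ] W)) :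
    Continuous fun y => ((A y).symm : W →L[ℝ] W) := by
  rw [continuous_iff_continuousAt]
  intro y
  have h1 : ContinuousAt (ContinuousLinearMap.inverse : (W →L[ℝ] W) → W →L[ℝ] W) (A y : W →L[ℝ] W) :=
    (contDiffAt_map_inverse (𝕜 := ℝ) (n := 0) (A y)).continuousAt
  have h2 : ContinuousAt (fun y => ContinuousLinearMap.inverse (A y : W →L[ℝ] W)) y :=
    ContinuousAt.comp (f := fun y => (A y : W →L[ℝ] W)) h1 h.continuousAt
  simpa only [ContinuousLinearMap.inverse_equiv] using h2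

/-- `Continuous.clm_apply` -/
theorem continuous_app (h : Continuous fun y => (A y : W →L[ℝ] W)) : Continuous fun q : Y × W => A q.1 q.2 := by
  have h1 : Continuous fun q : Y × W => (A q.1 : W →L[ℝ] W) q.2 :=
    (h.comp continuous_fst).clm_apply continuous_snd
  exact h1

theorem continuous_app_symm [CompleteSpace W] (h : Continuous fun y => (A y : W →L[ℝ] W)) :
    Continuous fun q : Y × W => (A q.1).symm q.2 := by
  have h1 : Continuous fun q : Y × W => ((A q.1).symm : W →L[ℝ] W) q.2 :=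
    ((continuous_symm h).comp continuous_fst).clm_apply continuous_snd
  exact h1

/-- `‖w‖ = ‖A (A⁻¹ w)‖ ≤ ‖A⁻¹ w‖ / 8` -/
theorem Coc.le_symmA (h : Coc A B) (y : Y) (w : W) : 8 * ‖w‖ ≤ ‖(A y).symm w‖ := by
  have h1 := h.leA y ((A y).symm w)
  rw [ContinuousLinearEquiv.apply_symm_apply] at h1
  linarith

theorem Coc.le_symmB (h : Coc A B) (y : Y) (w : W) : 8 * ‖w‖ ≤ ‖(B y).symm w‖ := by
  have h1 := h.leB y ((B y).symm w)
  rw [ContinuousLinearEquiv.apply_symm_apply] at h1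
  linarith

/-- `close` at `A⁻¹ w` -/
theorem Coc.BA (h : Coc A B) (y : Y) (w : W) : ‖B y ((A y).symm w) - w‖ ≤ 1 / 100 * ‖w‖ := by
  have h1 := h.close y ((A y).symm w)
  rwa [ContinuousLinearEquiv.apply_symm_apply] at h1

/-- `close` at `w = B⁻¹ u`: `‖u - A w‖ ≤ ‖A w‖ / 100 ≤ (‖u‖ + ‖u - A w‖) / 100` -/
theorem Coc.AB (h : Coc A B) (y : Y) (u : W) : ‖A y ((B y).symm u) - u‖ ≤ 1 / 99 * ‖u‖ := by
  have h1 := h.close y ((B y).symm u)
  rw [ContinuousLinearEquiv.apply_symm_apply, norm_sub_rev] at h1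
  have h2 : ‖A y ((B y).symm u)‖ ≤ ‖A y ((B y).symm u) - u‖ + ‖u‖ := by
    have := norm_add_le (A y ((B y).symm u) - u) u
    rwa [sub_add_cancel] at this
  linarith

end Pool.Agent.Lib.H37D
end

-- from Lib.H37D.DH22
section

open TopologicalSpace Set Filter Topology

namespace Pool.Agent.Lib.H37D

variable {Y : Type*} [TopologicalSpace Y] {W : Type*} [NormedAddCommGroup W] [NormedSpace ℝ W] {A B : Y → W ≃L[ℝ] W} {r : ℝ}

theorem dh22_eq (y : Y) (w : W) :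
    sC A B r y w - w = th r ‖w‖ • (B y ((A y).symm w) - w) := by
  unfold sC
  abel

theorem dh22_aux (h : Coc A B) (hr : 0 < r) (y : Y) (w w' : W) (hle : ‖w'‖ ≤ ‖w‖) :
    ‖(sC A B r y w - w) - (sC A B r y w' - w')‖ ≤ 3 / 100 * ‖w - w'‖ := by
  rw [dh22_eq, dh22_eq]
  by_cases hw' : r / 2 ≤ ‖w'‖
  · rw [th_zero hr hw', th_zero hr (hw'.trans hle), zero_smul, zero_smul, sub_zero, norm_zero]
    positivity
  · have hw : ‖w'‖ < r / 2 := not_le.mp hw'
    have e : th r ‖w‖ • (B y ((A y).symm w) - w) - th r ‖w'‖ • (B y ((A y).symm w') - w')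
        = th r ‖w‖ • (B y ((A y).symm (w - w')) - (w - w'))
          + (th r ‖w‖ - th r ‖w'‖) • (B y ((A y).symm w') - w') := by
      rw [map_sub, map_sub]
      module
    rw [e]
    refine (norm_add_le _ _).trans ?_
    have h1 : ‖th r ‖w‖ • (B y ((A y).symm (w - w')) - (w - w'))‖ ≤ 1 / 100 * ‖w - w'‖ := by
      rw [norm_smul, Real.norm_eq_abs, abs_of_nonneg (th_nonneg _ _)]
      calc th r ‖w‖ * ‖B y ((A y).symm (w - w')) - (w - w')‖
          ≤ 1 * (1 / 100 * ‖w - w'‖) :=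
            mul_le_mul (th_le_one _ _) (h.BA y _) (norm_nonneg _) zero_le_one
        _ = 1 / 100 * ‖w - w'‖ := one_mul _
    have h2 : ‖(th r ‖w‖ - th r ‖w'‖) • (B y ((A y).symm w') - w')‖ ≤ 2 / 100 * ‖w - w'‖ := by
      rw [norm_smul, Real.norm_eq_abs]
      have h3 : |th r ‖w‖ - th r ‖w'‖| ≤ 4 / r * ‖w - w'‖ :=
        (th_lip hr _ _).trans (mul_le_mul_of_nonneg_left (abs_norm_sub_norm_le w w')
          (by positivity))
      have h4 : ‖B y ((A y).symm w') - w'‖ ≤ 1 / 100 * (r / 2) :=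
        (h.BA y w').trans (by linarith)
      calc |th r ‖w‖ - th r ‖w'‖| * ‖B y ((A y).symm w') - w'‖
          ≤ (4 / r * ‖w - w'‖) * (1 / 100 * (r / 2)) :=
            mul_le_mul h3 h4 (norm_nonneg _) (by positivity)
        _ = 2 / 100 * ‖w - w'‖ := by
            field_simp
            ring
    linarith

/-- **DH22 (M).** `sC A B r y` is a Lipschitz perturbation of the identity.

Proof. `g w = B_y A_y⁻¹ w - w` is linear with `‖g w‖ ≤ ‖w‖ / 100` (`Coc.BA`), `sC y w - w = θ(‖w‖) g w`, `θ = th r`. By symmetry let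
`‖w'‖ ≤ ‖w‖`. If `‖w'‖ ≥ r/2` both terms are `0`. Otherwise
`θ(‖w‖) g w - θ(‖w'‖) g w' = θ(‖w‖) g (w - w') + (θ(‖w‖) - θ(‖w'‖)) g w'` has norm at most
`‖w - w'‖ / 100 + (4 / r) ‖w - w'‖ (r / 2) / 100 = 3/100 ‖w - w'‖` (`th_lip`, `abs_norm_sub_norm_le`). -/
theorem sC_lip (h : Coc A B) (hr : 0 < r) (y : Y) (w w' : W) :
    ‖(sC A B r y w - w) - (sC A B r y w' - w')‖ ≤ 3 / 100 * ‖w - w'‖ := by
  rcases le_total ‖w'‖ ‖w‖ with hle | hle
  · exact dh22_aux h hr y w w' hle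
  · rw [norm_sub_rev, norm_sub_rev w w']
    exact dh22_aux h hr y w' w hle

/-- If `‖w‖ ≥ r/2` it is `0`, otherwise `‖w‖ / 100 ≤ r / 200`. -/
theorem sC_bound (h : Coc A B) (hr : 0 < r) (y : Y) (w : W) : ‖sC A B r y w - w‖ ≤ r / 200 := by
  rw [dh22_eq]
  by_cases hw' : r / 2 ≤ ‖w‖
  · rw [th_zero hr hw', zero_smul, norm_zero]
    positivity
  · have hw : ‖w‖ < r / 2 := not_le.mp hw'
    rw [norm_smul, Real.norm_eq_abs, abs_of_nonneg (th_nonneg _ _)]
    calc th r ‖w‖ * ‖B y ((A y).symm w) - w‖ ≤ 1 * (1 / 100 * ‖w‖) :=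
          mul_le_mul (th_le_one _ _) (h.BA y _) (norm_nonneg _) zero_le_one
      _ ≤ r / 200 := by linarith

theorem sC_cont [CompleteSpace W] (h : Coc A B) (r : ℝ) : Continuous fun q : Y × W => sC A B r q.1 q.2 := by
  have h1 : Continuous fun q : Y × W => (A q.1).symm q.2 := continuous_app_symm h.contA
  have h2 : Continuous fun q : Y × W => B q.1 ((A q.1).symm q.2) :=
    (continuous_app h.contB).comp (continuous_fst.prodMk h1)
  have h3 : Continuous fun q : Y × W => th r ‖q.2‖ := (th_cont r).comp continuous_snd.norm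
  exact continuous_snd.add (h3.smul (h2.sub continuous_snd))

/-- **DH22, second part.** The inverse of `sC` is continuous in both variables.

Proof. `exists_fp` with `Z = Y × W`, `σ = id`, `G (y, u) a = -(sC y (u + a) - (u + a))`, `c = 3/100`, `C = r/200` gives a
continuous `k`; let `S y u = u + k (y, u)`. Then `S y u - u = -(sC y (S y u) - S y u)`, so `sC y (S y u) = u`. `sC y` is injective
(`sC_lip`: if `sC y w = sC y w'` then `‖w - w'‖ ≤ 3/100 ‖w - w'‖`), so `S y (sC y w) = w`. -/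
theorem exists_sInv [CompleteSpace W] (h : Coc A B) (hr : 0 < r) :
    ∃ S : Y → W → W, (Continuous fun q : Y × W => S q.1 q.2) ∧ (∀ y w, S y (sC A B r y w) = w) ∧
      ∀ y w, sC A B r y (S y w) = w := by
  have hs : Continuous fun q : (Y × W) × W => q.1.2 + q.2 :=
    (continuous_snd.comp continuous_fst).add continuous_snd
  have hG : Continuous fun q : (Y × W) × W =>
      -(sC A B r q.1.1 (q.1.2 + q.2) - (q.1.2 + q.2)) := by
    have h1 : Continuous fun q : (Y × W) × W => sC A B r q.1.1 (q.1.2 + q.2) :=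
      (sC_cont h r).comp ((continuous_fst.comp continuous_fst).prodMk hs)
    exact (h1.sub hs).neg
  obtain ⟨k, hk, _, hfix⟩ := exists_fp (Z := Y × W) (W := W)
    (G := fun z a => -(sC A B r z.1 (z.2 + a) - (z.2 + a))) hG (c := 3 / 100) (C := r / 200)
    (by norm_num) (by norm_num)
    (by
      intro z a b
      have h1 := sC_lip h hr z.1 (z.2 + a) (z.2 + b)
      have e : ‖-(sC A B r z.1 (z.2 + a) - (z.2 + a)) - -(sC A B r z.1 (z.2 + b) - (z.2 + b))‖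
          = ‖(sC A B r z.1 (z.2 + a) - (z.2 + a)) - (sC A B r z.1 (z.2 + b) - (z.2 + b))‖ := by
        rw [← norm_neg]
        congr 1
        abel
      rw [add_sub_add_left_eq_sub] at h1
      calc _ = _ := e
        _ ≤ _ := h1)
    (by
      intro z
      have h1 := sC_bound h hr z.1 (z.2 + 0)
      show ‖-(sC A B r z.1 (z.2 + 0) - (z.2 + 0))‖ ≤ r / 200
      rw [norm_neg]
      exact h1)
    (σ := id) continuous_id
  have hright : ∀ y w, sC A B r y (w + k (y, w)) = w := by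
    intro y w
    have h1 : k (y, w) = -(sC A B r y (w + k (y, w)) - (w + k (y, w))) := hfix (y, w)
    have h2 : sC A B r y (w + k (y, w)) = (w + k (y, w)) - k (y, w) := by
      nth_rewrite 3 [h1]
      abel
    rw [h2]
    abel
  have hinj : ∀ y w w', sC A B r y w = sC A B r y w' → w = w' := by
    intro y w w' he
    have h1 := sC_lip h hr y w w'
    have e : (sC A B r y w - w) - (sC A B r y w' - w') = -(w - w') := by
      rw [he]
      abel
    rw [e, norm_neg] at h1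
    have h2 : ‖w - w'‖ ≤ 0 := by linarith [norm_nonneg (w - w')]
    exact sub_eq_zero.mp (norm_le_zero_iff.mp h2)
  refine ⟨fun y u => u + k (y, u), ?_, ?_, hright⟩
  · exact continuous_snd.add hk
  · intro y w
    exact hinj y _ _ (hright y (sC A B r y w))

end Pool.Agent.Lib.H37D
end

-- from Lib.H37D.DH24
section

open TopologicalSpace Set Filter Topology

namespace Pool.Agent.Lib.H37D

variable {Y : Type*} [TopologicalSpace Y] {W : Type*} [NormedAddCommGroup W] [NormedSpace ℝ W] {A B : Y → W ≃L[ℝ] W} {r : ℝ}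

/-- **DH24 (M).** The map `L`, which will be the inverse of `K`: the solution of
`L y u = (1 - θ') S_y u + θ' A_y L (ψ⁻¹ y, B_y⁻¹ u)`, where `θ' = th r (4 ‖u‖)` (so `θ' = 1` for `‖u‖ ≤ r/16` and `θ' = 0` for
`‖u‖ ≥ r/8`) and `S` is the inverse of `sC`.

Proof. `exists_fp` with `Z = Y × W`, `σ (y, u) = (ψ⁻¹ y, B_y⁻¹ u)`,
`G (y, u) a = (1 - θ') (S_y u - u) + θ' (A_y B_y⁻¹ u - u) + θ' A_y a`, `c = 1/8`, `C = r/200`: `‖S_y u - u‖ ≤ r/200` by `sC_bound` at
`S_y u`, and `θ' ‖A_y B_y⁻¹ u - u‖ ≤ θ' ‖u‖ / 99 ≤ θ' r / 200` (`Coc.AB`; `θ' = 0` if `‖u‖ ≥ r/8`). It gives `l` with `‖l‖ ≤ r/100`;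
`L y u = u + l (y, u)`, and `L y u = (1 - θ') S_y u + θ' A_y L (ψ⁻¹ y) (B_y⁻¹ u)`  (E).
(1) If `‖u‖ ≥ r/8`, then `θ' = 0`: `L y u = S_y u`. If `‖u‖ ≥ r/2`, moreover `sC y u = u` (`th_zero`), so `S_y u = u`, `L y u = u`.
(2) Let `r/16 ≤ ‖u‖ ≤ r/8`. `‖B_y⁻¹ u‖ ≥ r/2` (`le_symmB`), so `L (ψ⁻¹ y) (B_y⁻¹ u) = B_y⁻¹ u` by (1). `w = A_y B_y⁻¹ u` has
`‖w‖ ≤ (1 + 1/99) r/8 ≤ r/4`, so `sC y w = B_y A_y⁻¹ w = u` (`th_one`) and `S_y u = w`. So both terms in (E) are multiples of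
`w`: `L y u = w = S_y u = A_y L (ψ⁻¹ y) (B_y⁻¹ u)`.
(3) If `‖u‖ ≤ r/16` then `θ' = 1`. -/
theorem exists_L [CompleteSpace W] (h : Coc A B) (hr : 0 < r) (ψ : Y ≃ₜ Y) {S : Y → W → W}
    (hS : Continuous fun q : Y × W => S q.1 q.2) (hl : ∀ y w, S y (sC A B r y w) = w) (hr' : ∀ y w, sC A B r y (S y w) = w) :
    ∃ L : Y → W → W, (Continuous fun q : Y × W => L q.1 q.2) ∧ (∀ y u, ‖L y u - u‖ ≤ r / 100) ∧
      (∀ y u, r / 2 ≤ ‖u‖ → L y u = u) ∧ (∀ y u, r / 16 ≤ ‖u‖ → L y u = S y u) ∧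
      ∀ y u, ‖u‖ ≤ r / 8 → L y u = A y (L (ψ.symm y) ((B y).symm u)) := by
  have hcA := continuous_app h.contA
  have hcBs := continuous_app_symm h.contB
  have t0 : ∀ y : Y × W, 0 ≤ th r (4 * ‖y.2‖) := fun y => th_nonneg _ _
  have t1 : ∀ y : Y × W, th r (4 * ‖y.2‖) ≤ 1 := fun y => th_le_one _ _
  have hSb : ∀ y u, ‖S y u - u‖ ≤ r / 200 := fun y u => by
    have h1 := sC_bound h hr y (S y u)
    rw [hr', norm_sub_rev] at h1
    exact h1
  obtain ⟨l, lc, lb, le⟩ := exists_fp (Z := Y × W) (W := W)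
    (G := fun q a => (1 - th r (4 * ‖q.2‖)) • (S q.1 q.2 - q.2) +
      th r (4 * ‖q.2‖) • (A q.1 ((B q.1).symm q.2) - q.2) + th r (4 * ‖q.2‖) • A q.1 a)
    (σ := fun q => (ψ.symm q.1, (B q.1).symm q.2)) (c := 1 / 8) (C := r / 200)
    (by
      have c1 : Continuous fun q : (Y × W) × W => th r (4 * ‖q.1.2‖) :=
        (th_cont r).comp (continuous_const.mul (continuous_norm.comp (continuous_snd.comp continuous_fst)))
      have c2 : Continuous fun q : (Y × W) × W => S q.1.1 q.1.2 := hS.comp continuous_fst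
      have c3 : Continuous fun q : (Y × W) × W => (B q.1.1).symm q.1.2 := hcBs.comp continuous_fst
      have c4 : Continuous fun q : (Y × W) × W => A q.1.1 ((B q.1.1).symm q.1.2) :=
        hcA.comp ((continuous_fst.comp continuous_fst).prodMk c3)
      have c5 : Continuous fun q : (Y × W) × W => A q.1.1 q.2 :=
        hcA.comp ((continuous_fst.comp continuous_fst).prodMk continuous_snd)
      have c6 : Continuous fun q : (Y × W) × W => q.1.2 := continuous_snd.comp continuous_fst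
      exact (((continuous_const.sub c1).smul (c2.sub c6)).add (c1.smul (c4.sub c6))).add (c1.smul c5))
    (by norm_num) (by norm_num)
    (fun z a b => by
      have e : ((1 - th r (4 * ‖z.2‖)) • (S z.1 z.2 - z.2) +
          th r (4 * ‖z.2‖) • (A z.1 ((B z.1).symm z.2) - z.2) + th r (4 * ‖z.2‖) • A z.1 a) -
          ((1 - th r (4 * ‖z.2‖)) • (S z.1 z.2 - z.2) +
          th r (4 * ‖z.2‖) • (A z.1 ((B z.1).symm z.2) - z.2) + th r (4 * ‖z.2‖) • A z.1 b) =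
          th r (4 * ‖z.2‖) • A z.1 (a - b) := by
        rw [map_sub]
        module
      show ‖((1 - th r (4 * ‖z.2‖)) • (S z.1 z.2 - z.2) +
          th r (4 * ‖z.2‖) • (A z.1 ((B z.1).symm z.2) - z.2) + th r (4 * ‖z.2‖) • A z.1 a) -
          ((1 - th r (4 * ‖z.2‖)) • (S z.1 z.2 - z.2) +
          th r (4 * ‖z.2‖) • (A z.1 ((B z.1).symm z.2) - z.2) + th r (4 * ‖z.2‖) • A z.1 b)‖ ≤ _
      rw [e, norm_smul, Real.norm_eq_abs, abs_of_nonneg (t0 z)]
      have h1 := h.leA z.1 (a - b)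
      have h2 : th r (4 * ‖z.2‖) * ‖A z.1 (a - b)‖ ≤ 1 * ‖A z.1 (a - b)‖ :=
        mul_le_mul_of_nonneg_right (t1 z) (norm_nonneg _)
      linarith)
    (fun z => by
      show ‖(1 - th r (4 * ‖z.2‖)) • (S z.1 z.2 - z.2) +
          th r (4 * ‖z.2‖) • (A z.1 ((B z.1).symm z.2) - z.2) + th r (4 * ‖z.2‖) • A z.1 0‖ ≤ _
      rw [map_zero, smul_zero, add_zero]
      refine (norm_add_le _ _).trans ?_
      rw [norm_smul, norm_smul, Real.norm_eq_abs, Real.norm_eq_abs, abs_of_nonneg (t0 z),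
        abs_of_nonneg (sub_nonneg.2 (t1 z))]
      have h1 : (1 - th r (4 * ‖z.2‖)) * ‖S z.1 z.2 - z.2‖ ≤ (1 - th r (4 * ‖z.2‖)) * (r / 200) :=
        mul_le_mul_of_nonneg_left (hSb _ _) (sub_nonneg.2 (t1 z))
      have h2 : th r (4 * ‖z.2‖) * ‖A z.1 ((B z.1).symm z.2) - z.2‖ ≤ th r (4 * ‖z.2‖) * (r / 200) := by
        rcases le_or_gt (r / 8) ‖z.2‖ with h3 | h3
        · rw [th_zero hr (by linarith), zero_mul, zero_mul]
        · refine mul_le_mul_of_nonneg_left ?_ (t0 z)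
          have h4 := h.AB z.1 z.2
          linarith
      linarith)
    (by
      exact (ψ.symm.continuous.comp continuous_fst).prodMk hcBs)
  have E : ∀ y u, u + l (y, u) = (1 - th r (4 * ‖u‖)) • S y u +
      th r (4 * ‖u‖) • A y ((B y).symm u + l (ψ.symm y, (B y).symm u)) := fun y u => by
    have h1 : l (y, u) = (1 - th r (4 * ‖u‖)) • (S y u - u) +
      th r (4 * ‖u‖) • (A y ((B y).symm u) - u) +
        th r (4 * ‖u‖) • A y (l (ψ.symm y, (B y).symm u)) := le (y, u)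
    rw [h1, map_add]
    module
  have P1 : ∀ y u, r / 8 ≤ ‖u‖ → u + l (y, u) = S y u := fun y u hu => by
    rw [E y u, th_zero hr (by linarith), sub_zero, one_smul, zero_smul, add_zero]
  have P1' : ∀ y u, r / 2 ≤ ‖u‖ → u + l (y, u) = u := fun y u hu => by
    rw [P1 y u (by linarith)]
    have h1 : sC A B r y u = u := by
      unfold sC
      rw [th_zero hr hu, zero_smul, add_zero]
    calc S y u = S y (sC A B r y u) := by rw [h1]
      _ = u := hl y u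
  have P2 : ∀ y u, r / 16 ≤ ‖u‖ → ‖u‖ ≤ r / 8 →
      A y ((B y).symm u + l (ψ.symm y, (B y).symm u)) = S y u := fun y u h1 h2 => by
    have h3 := h.le_symmB y u
    rw [P1' (ψ.symm y) ((B y).symm u) (by linarith)]
    have h4 := h.AB y u
    have h5 : ‖A y ((B y).symm u)‖ ≤ r / 4 := by
      have h6 := norm_sub_norm_le (A y ((B y).symm u)) u
      linarith
    have h7 : sC A B r y (A y ((B y).symm u)) = u := by
      unfold sC
      rw [th_one hr h5, one_smul, ContinuousLinearEquiv.symm_apply_apply,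
        ContinuousLinearEquiv.apply_symm_apply]
      abel
    calc A y ((B y).symm u) = S y (sC A B r y (A y ((B y).symm u))) := (hl _ _).symm
      _ = S y u := by rw [h7]
  have P2' : ∀ y u, r / 16 ≤ ‖u‖ → u + l (y, u) = S y u := fun y u h1 => by
    rcases le_or_gt ‖u‖ (r / 8) with h2 | h2
    · rw [E y u, P2 y u h1 h2]
      module
    · exact P1 y u h2.le
  refine ⟨fun y u => u + l (y, u), continuous_snd.add lc, fun y u => ?_, P1', P2', fun y u hu => ?_⟩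
  · show ‖u + l (y, u) - u‖ ≤ r / 100
    rw [add_sub_cancel_left]
    refine (lb (y, u)).trans ?_
    have e : r / 200 / (1 - 1 / 8) = 1 / 175 * r := by ring
    rw [e]
    linarith
  · show u + l (y, u) = A y ((B y).symm u + l (ψ.symm y, (B y).symm u))
    rcases le_or_gt (r / 16) ‖u‖ with h1 | h1
    · rw [P2' y u h1, P2 y u h1 hu]
    · rw [E y u, th_one hr (by linarith)]
      module

end Pool.Agent.Lib.H37D
end

-- from Lib.H37D.DH82
section

open TopologicalSpace Set Filter Topology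
open scoped Manifold ContDiff
open Pool.Agent.Lib.H37N

namespace Pool.Agent.Lib.H37D

/-- the identification of `Euc 2` with `Pt` -/
noncomputable def P2 : EuclideanSpace ℝ (Fin 2) ≃L[ℝ] Pt :=
  LinearEquiv.toContinuousLinearEquiv
    { toFun := fun ζ => (ζ 0, ζ 1)
      invFun := fun z => !₂[z.1, z.2]
      left_inv := fun ζ => by ext i; fin_cases i <;> rfl
      right_inv := fun z => rfl
      map_add' := fun _ _ => rfl
      map_smul' := fun _ _ => rfl }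

/-- **DH82 (S).** `max |ζ 0| |ζ 1| ≤ ‖ζ‖` (`PiLp.norm_apply_le`-like: `EuclideanSpace.norm_eq`). -/
theorem norm_P2_le (ζ : EuclideanSpace ℝ (Fin 2)) : ‖P2 ζ‖ ≤ ‖ζ‖ := by
  have h0 : |ζ 0| ≤ ‖ζ‖ := by simpa using PiLp.norm_apply_le ζ 0
  have h1 : |ζ 1| ≤ ‖ζ‖ := by simpa using PiLp.norm_apply_le ζ 1
  show ‖((ζ 0, ζ 1) : Pt)‖ ≤ ‖ζ‖
  rw [Prod.norm_def]
  exact max_le h0 h1

variable {d : ℕ}

/-- **DH82 (M).** The family `A` on all of `Euc 2`.

Proof. Let `ρ ζ = (3 / max 3 ‖ζ‖) • ζ`, continuous, `‖ρ ζ‖ ≤ 3`, `ρ ζ = ζ` if `‖ζ‖ ≤ 3`. `v ζ = P2 (ρ ζ)`, `‖v ζ‖ ≤ 3 < 4`. `A' ζ` is the continuous linear equivalence given by the bijective map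
`A (v ζ)` (`ContinuousLinearEquiv.ofBijective`, `LinearMap.ker_eq_bot`, `LinearMap.range_eq_top`; or `LinearEquiv.ofBijective` and `toContinuousLinearEquiv`). The first five properties are clear.
`ζ ↦ ((A' ζ).symm : Wd d →L[ℝ] Wd d)` is continuous (`continuous_symm`, DH21), so its norm is bounded by some `C ≥ 0` on the compact ball `‖ζ‖ ≤ 3`, hence everywhere (`A' ζ = A' (ρ ζ)`).
`r₂ = min 1 (3 / (C + 1))`: if `‖A' ζ w‖ ≤ r₂` then `‖w‖ = ‖(A' ζ).symm (A' ζ w)‖ ≤ C r₂ ≤ 3`. -/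
theorem exists_AE {A : Pt → Wd d →L[ℝ] Wd d} (hA : Continuous A) (hb : ∀ v, ‖v‖ < 4 → Function.Bijective (A v))
    (hle : ∀ v, ‖v‖ < 4 → ∀ w, ‖A v w‖ ≤ 1 / 8 * ‖w‖)
    (hcl : ∀ v, ‖v‖ < 4 → ∀ v', ‖v'‖ < 4 → ∀ w, ‖A v w - A v' w‖ ≤ 1 / 100 * ‖A v' w‖) :
    ∃ (A' : EuclideanSpace ℝ (Fin 2) → Wd d ≃L[ℝ] Wd d) (r₂ : ℝ), 0 < r₂ ∧ r₂ < 3 ∧
      (Continuous fun ζ => (A' ζ : Wd d →L[ℝ] Wd d)) ∧ (∀ ζ w, ‖A' ζ w‖ ≤ 1 / 8 * ‖w‖) ∧
      (∀ ζ ζ' w, ‖A' ζ w - A' ζ' w‖ ≤ 1 / 100 * ‖A' ζ' w‖) ∧ (∀ ζ w, ‖A' ζ w‖ ≤ r₂ → ‖w‖ ≤ 3) ∧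
      ∀ ζ, ‖ζ‖ ≤ 3 → ∀ w, A' ζ w = A (P2 ζ) w := by
  obtain ⟨ρ, hρ⟩ : ∃ ρ : EuclideanSpace ℝ (Fin 2) → EuclideanSpace ℝ (Fin 2),
      ρ = fun ζ => (3 / max 3 ‖ζ‖) • ζ := ⟨_, rfl⟩
  have hpos : ∀ ζ : EuclideanSpace ℝ (Fin 2), 0 < max 3 ‖ζ‖ := fun ζ =>
    lt_of_lt_of_le (by norm_num) (le_max_left _ _)
  have hρc : Continuous ρ := by
    rw [hρ]
    have h1 : Continuous fun ζ : EuclideanSpace ℝ (Fin 2) => max 3 ‖ζ‖ :=
      Continuous.max continuous_const continuous_norm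
    have h2 : Continuous fun ζ : EuclideanSpace ℝ (Fin 2) => 3 / max 3 ‖ζ‖ :=
      Continuous.div continuous_const h1 fun ζ => (hpos ζ).ne'
    exact h2.smul continuous_id
  have hρn : ∀ ζ, ‖ρ ζ‖ ≤ 3 := by
    intro ζ
    have h3 := hpos ζ
    rw [hρ]
    show ‖(3 / max 3 ‖ζ‖) • ζ‖ ≤ 3
    rw [norm_smul, Real.norm_of_nonneg (by positivity), div_mul_eq_mul_div, div_le_iff₀ h3]
    exact mul_le_mul_of_nonneg_left (le_max_right _ _) (by norm_num)
  have hρi : ∀ ζ, ‖ζ‖ ≤ 3 → ρ ζ = ζ := by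
    intro ζ h
    rw [hρ]
    show (3 / max 3 ‖ζ‖) • ζ = ζ
    rw [max_eq_left h, div_self (by norm_num), one_smul]
  have hv : ∀ ζ, ‖P2 (ρ ζ)‖ < 4 := fun ζ =>
    lt_of_le_of_lt ((norm_P2_le _).trans (hρn ζ)) (by norm_num)
  obtain ⟨A', hA'⟩ : ∃ A' : EuclideanSpace ℝ (Fin 2) → Wd d ≃L[ℝ] Wd d,
      ∀ ζ, (A' ζ : Wd d →L[ℝ] Wd d) = A (P2 (ρ ζ)) :=
    ⟨fun ζ => ContinuousLinearEquiv.ofBijective (A (P2 (ρ ζ)))
      (LinearMap.ker_eq_bot.2 (hb _ (hv ζ)).1) (LinearMap.range_eq_top.2 (hb _ (hv ζ)).2),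
      fun ζ => ContinuousLinearEquiv.coe_ofBijective _ _ _⟩
  have hA'' : ∀ ζ w, A' ζ w = A (P2 (ρ ζ)) w := fun ζ w => by rw [← hA' ζ]; rfl
  have hAc : Continuous fun ζ => (A' ζ : Wd d →L[ℝ] Wd d) := by
    simp only [hA']
    exact hA.comp (P2.continuous.comp hρc)
  have hsc := continuous_symm hAc
  obtain ⟨C, hC⟩ := (isCompact_closedBall (0 : EuclideanSpace ℝ (Fin 2)) 3).exists_bound_of_continuousOn
    hsc.continuousOn
  have hAρ : ∀ ζ, A' (ρ ζ) = A' ζ := by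
    intro ζ
    refine ContinuousLinearEquiv.ext (funext fun w => ?_)
    rw [hA'', hA'', hρi _ (hρn ζ)]
  have hC' : ∀ ζ, ‖((A' ζ).symm : Wd d →L[ℝ] Wd d)‖ ≤ max C 0 := by
    intro ζ
    rw [← hAρ]
    exact (hC _ (mem_closedBall_zero_iff.2 (hρn ζ))).trans (le_max_left _ _)
  have hC0 : 0 ≤ max C 0 := le_max_right _ _
  refine ⟨A', 3 / (max C 0 + 2), by positivity, ?_, hAc, ?_, ?_, ?_, ?_⟩
  · rw [div_lt_iff₀ (by positivity)]
    linarith
  · intro ζ w
    rw [hA'']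
    exact hle _ (hv ζ) w
  · intro ζ ζ' w
    rw [hA'', hA'']
    exact hcl _ (hv ζ) _ (hv ζ') w
  · intro ζ w hw
    have h1 : w = ((A' ζ).symm : Wd d →L[ℝ] Wd d) (A' ζ w) := by simp
    have h2 : ‖w‖ ≤ max C 0 * ‖A' ζ w‖ := by
      conv_lhs => rw [h1]
      exact ContinuousLinearMap.le_of_opNorm_le _ (hC' ζ) _
    have h3 : max C 0 * ‖A' ζ w‖ ≤ max C 0 * (3 / (max C 0 + 2)) :=
      mul_le_mul_of_nonneg_left hw hC0
    have h4 : max C 0 * (3 / (max C 0 + 2)) ≤ 3 := by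
      rw [mul_div_assoc', div_le_iff₀ (by positivity)]
      linarith
    linarith
  · intro ζ hζ w
    rw [hA'', hρi ζ hζ]

end Pool.Agent.Lib.H37D
end

-- from Lib.H37N.I3e
section

/-! # H37N, chunk I3e (M): Lemma AS1 -/

open Set Filter Topology Asymptotics
open scoped ContDiff

namespace Pool.Agent.Lib.H37N

/-- the path: G_j(z) = t(z) g(z)^j / al1^(j+1) -/
noncomputable def pathG (m : ℕ) (al1 t0 t1 g1 : ℝ) (j : Fin m) (z : ℝ) : ℝ :=
  (t0 + z * (t1 - t0)) * (z * g1) ^ (j : ℕ) / al1 ^ ((j : ℕ) + 1)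

theorem i3e_deriv {m : ℕ} (hm : 1 ≤ m) {t g ka1 : ℝ} {V0 : ℝ → ℝ}
    (hV : ∀ x, V0 x = ka1 * x ^ (m + 1) + ∑ j : Fin m, t * g ^ (j : ℕ) * x ^ ((j : ℕ) + 1)) :
    HasDerivAt V0 t 0 ∧ V0 0 = 0 := by
  set P : ℝ → ℝ := fun x => ka1 * x ^ m + ∑ j : Fin m, t * g ^ (j : ℕ) * x ^ (j : ℕ) with hP
  have hVP : ∀ x, V0 x = x * P x := by
    intro x
    rw [hV]
    simp only [hP, mul_add, Finset.mul_sum]
    congr 1
    · ring
    · exact Finset.sum_congr rfl fun j _ => by ring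
  have hP0 : P 0 = t := by
    obtain ⟨m', rfl⟩ : ∃ m', m = m' + 1 := ⟨m - 1, by omega⟩
    simp only [hP, Fin.sum_univ_succ]
    simp
  have hPd : Differentiable ℝ P := by
    simp only [hP]
    fun_prop
  refine ⟨?_, by rw [hVP]; simp⟩
  have h1 := (hasDerivAt_id (0 : ℝ)).mul (hPd 0).hasDerivAt
  have h2 : V0 = id * P := funext fun x => hVP x
  rw [h2]
  simpa [hP0] using h1

/-- I.3, at p = 0: the coefficient of w^(m+1), w = al2 V.

PROOF. V0 x = ka1 x^(m+1) + Σ t g^j x^(j+1).  `explicit_exp`: x = Σ_{i<m} c_i V0^(i+1) + c V0^(m+1) + O(x^(m+2)), c = (t g^m (1+(-1)^m) - ka1)/t^(m+2).  So K x = ka2 V0^(m+1) + bt x + el V0 is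
Σ_{i<m} (bt c_i + [i=0] el) V0^(i+1) + (ka2 + bt c) V0^(m+1) + O(x^(m+2)), V0 = w/al2 (w 0 = 0).  Subtract the expansion of the hypothesis (K 0 = 0, w 0 = 0): `pow_unique` (M = m+1,
w'(0) = al2 t ≠ 0) gives the coefficient of w^(m+1): d m = (ka2 + bt c)/al2^(m+1). -/
theorem coeff_zero {m : ℕ} (hm : 1 ≤ m) {t g ka1 ka2 bt al2 el : ℝ} (ht : t ≠ 0) (ha : al2 ≠ 0) {w K : ℝ → ℝ} {V0 : ℝ → ℝ}
    (hV : ∀ x, V0 x = ka1 * x ^ (m + 1) + ∑ j : Fin m, t * g ^ (j : ℕ) * x ^ ((j : ℕ) + 1))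
    (hw : ∀ x, w x = al2 * V0 x) (hK : ∀ x, K x = ka2 * V0 x ^ (m + 1) + bt * x + el * V0 x) (d : ℕ → ℝ)
    (h : (fun x => K x - K 0 - ∑ j ∈ Finset.range (m + 1), d j * (w x - w 0) ^ (j + 1)) =O[𝓝 0] fun x : ℝ => x ^ (m + 2)) :
    d m = (ka2 + bt * ((t * g ^ m * (1 + (-1) ^ m) - ka1) / t ^ (m + 2))) / al2 ^ (m + 1) := by
  obtain ⟨hd, hV0⟩ := i3e_deriv hm hV
  have hw0 : w 0 = 0 := by rw [hw, hV0, mul_zero]
  have hK0 : K 0 = 0 := by rw [hK, hV0]; simp
  have hwd : HasDerivAt w (al2 * t) 0 := by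
    have : w = fun x => al2 * V0 x := funext hw
    rw [this]
    exact hd.const_mul al2
  have hexp := explicit_exp hm (g := g) ht hV
  set c : ℝ := (t * g ^ m * (1 + (-1) ^ m) - ka1) / t ^ (m + 2) with hc
  set e : ℕ → ℝ := fun j => if j < m then (bt * ((-g) ^ j / t ^ (j + 1)) + (if j = 0 then el else 0)) / al2 ^ (j + 1)
    else (ka2 + bt * c) / al2 ^ (j + 1) with he
  have hsum : ∀ x, ∑ j ∈ Finset.range (m + 1), e j * (w x - w 0) ^ (j + 1) =
      bt * ∑ i ∈ Finset.range m, (-g) ^ i / t ^ (i + 1) * V0 x ^ (i + 1) + el * V0 x +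
        (ka2 + bt * c) * V0 x ^ (m + 1) := by
    intro x
    rw [Finset.sum_range_succ]
    have h1 : e m * (w x - w 0) ^ (m + 1) = (ka2 + bt * c) * V0 x ^ (m + 1) := by
      simp only [he, lt_irrefl, if_false]
      rw [hw0, sub_zero, hw, mul_pow]
      field_simp
    rw [h1]
    congr 1
    have h2 : ∀ j ∈ Finset.range m, e j * (w x - w 0) ^ (j + 1) =
        bt * ((-g) ^ j / t ^ (j + 1) * V0 x ^ (j + 1)) + (if j = 0 then el * V0 x else 0) := by
      intro j hj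
      have hj' := Finset.mem_range.1 hj
      simp only [he, if_pos hj']
      rw [hw0, sub_zero, hw, mul_pow]
      have hne : al2 ^ (j + 1) ≠ 0 := pow_ne_zero _ ha
      rw [div_mul_eq_mul_div, mul_comm (al2 ^ (j + 1)), ← mul_assoc, mul_div_assoc, div_self hne, mul_one]
      by_cases h0 : j = 0
      · subst h0
        simp
        ring
      · simp only [if_neg h0, add_zero]
        ring
    rw [Finset.sum_congr rfl h2, Finset.sum_add_distrib, ← Finset.mul_sum, Finset.sum_ite_eq']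
    rw [if_pos (Finset.mem_range.2 (by omega))]
  have h3 : (fun x => ∑ j ∈ Finset.range (m + 1), (e j - d j) * (w x - w 0) ^ (j + 1)) =O[𝓝 0]
      fun x : ℝ => x ^ ((m + 1) + 1) := by
    have h4 := h.sub (hexp.const_mul_left bt)
    refine h4.congr' (Eventually.of_forall fun x => ?_) (Eventually.of_forall fun x => rfl)
    have h5 : ∑ j ∈ Finset.range (m + 1), (e j - d j) * (w x - w 0) ^ (j + 1) =
        ∑ j ∈ Finset.range (m + 1), e j * (w x - w 0) ^ (j + 1) -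
          ∑ j ∈ Finset.range (m + 1), d j * (w x - w 0) ^ (j + 1) := by
      rw [← Finset.sum_sub_distrib]
      exact Finset.sum_congr rfl fun j _ => by ring
    simp only []
    rw [h5, hsum, hK0, hK]
    ring
  have h6 := pow_unique hwd (mul_ne_zero ha ht) (m + 1) (fun j => e j - d j) h3 m (Nat.lt_succ_self m)
  have h7 : e m = (ka2 + bt * c) / al2 ^ (m + 1) := by
    simp only [he, lt_irrefl, if_false]
  have h8 : e m - d m = 0 := h6
  rw [← h7]
  linarith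


end Pool.Agent.Lib.H37N
end

-- from Lib.H37D.DI3e
section

/-! # H37D, DI3e: Lemma AS1 for a general finite-dimensional space of parameters (port of H37N/I3e.lean) -/

open Set Filter Topology Asymptotics
open scoped ContDiff

namespace Pool.Agent.Lib.H37D

open Pool.Agent.Lib.H37N

/-- Lemma AS1.

PROOF. `sign_path` gives t0, t1, g1; G = pathG m al1 t0 t1 g1, smooth (polynomial).  Q = P × ℝ (p,z), w(q,x) = zt(p,z,x), K(q,x) = K(p,z,x) (reassociate), C = {0} ×ˢ Icc 0 1 compact;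
∂_x zt(0,z,0) = al2 t(z) ≠ 0 (G_j(z) (al1 x)^(j+1) = t g^j x^(j+1); only j = 0 contributes; m ≥ 1).  `exp_powers` gives smooth d j.  For (p,z) near C the expansion with M = m+1 holds;
for p near 0 it holds for all z ∈ [0,1] (tube).  `coeff_zero`: d m (0,z) = c(z)/al2^(m+1) for z ∈ [0,1], so d m (0,0) d m (0,1) < 0 (`sign_path`); by continuity
d m (p,0) d m (p,1) < 0 for p near 0, so by the intermediate value theorem (z ↦ d m (p,z) continuous on [0,1]) there is z with d m (p,z) = 0.  k j = d j (p,z) for j < m; the sum over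
range (m+1) is the sum over Fin m plus the zero term.  C: the functions (p,z) ↦ |d j (p,z)|, j < m, are continuous, bounded by some C on {0} ×ˢ [0,1] strictly, so (tube) for p near 0. -/
theorem AS1D {P : Type} [NormedAddCommGroup P] [NormedSpace ℝ P] [FiniteDimensional ℝ P] {m : ℕ} (hm : 1 ≤ m) {ka1 ka2 bt al1 al2 : ℝ} (h1 : ka1 ≠ 0) (h2 : ka2 ≠ 0) (hb : bt ≠ 0) (ha1 : al1 ≠ 0)
    (ha2 : al2 ≠ 0) :
    ∃ G : Fin m → ℝ → ℝ, (∀ j, ContDiff ℝ ∞ (G j)) ∧ ∀ (el : ℝ) (zt K : P × ℝ × ℝ → ℝ), ContDiff ℝ ∞ zt → ContDiff ℝ ∞ K →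
      (∀ z x, zt (0, z, x) = al2 * (ka1 * x ^ (m + 1) + ∑ j : Fin m, G j z * (al1 * x) ^ ((j : ℕ) + 1))) →
      (∀ z x, K (0, z, x) = ka2 * (ka1 * x ^ (m + 1) + ∑ j : Fin m, G j z * (al1 * x) ^ ((j : ℕ) + 1)) ^ (m + 1) + bt * x +
        el * (ka1 * x ^ (m + 1) + ∑ j : Fin m, G j z * (al1 * x) ^ ((j : ℕ) + 1))) →
      ∃ C : ℝ, ∀ᶠ p in 𝓝 (0 : P), ∃ z ∈ Icc (0 : ℝ) 1, ∃ k : Fin m → ℝ, (∀ j, |k j| ≤ C) ∧
        (fun x => K (p, z, x) - K (p, z, 0) - ∑ j : Fin m, k j * (zt (p, z, x) - zt (p, z, 0)) ^ ((j : ℕ) + 1)) =O[𝓝 0]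
          fun x : ℝ => x ^ (m + 2) := by
  obtain ⟨t0, t1, g1, hpath, hsign⟩ := sign_path hm h1 h2 hb
  refine ⟨pathG m al1 t0 t1 g1, ?_, ?_⟩
  · intro j
    unfold pathG
    fun_prop
  intro el zt K hzt hK hzt0 hK0
  have hG : ∀ z x : ℝ, ∑ j : Fin m, pathG m al1 t0 t1 g1 j z * (al1 * x) ^ ((j : ℕ) + 1) =
      ∑ j : Fin m, (t0 + z * (t1 - t0)) * (z * g1) ^ (j : ℕ) * x ^ ((j : ℕ) + 1) := by
    intro z x
    refine Finset.sum_congr rfl fun j _ => ?_
    have hne : al1 ^ ((j : ℕ) + 1) ≠ 0 := pow_ne_zero _ ha1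
    unfold pathG
    rw [mul_pow al1 x, div_mul_eq_mul_div, ← mul_assoc, mul_right_comm, mul_div_assoc, div_self hne, mul_one]
  set V0 : ℝ → ℝ → ℝ := fun z x => ka1 * x ^ (m + 1) +
    ∑ j : Fin m, (t0 + z * (t1 - t0)) * (z * g1) ^ (j : ℕ) * x ^ ((j : ℕ) + 1) with hV0
  have hzt0' : ∀ z x, zt (0, z, x) = al2 * V0 z x := fun z x => by rw [hzt0, hG]
  have hK0' : ∀ z x, K (0, z, x) = ka2 * V0 z x ^ (m + 1) + bt * x + el * V0 z x :=
    fun z x => by rw [hK0, hG]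
  set w : (P × ℝ) × ℝ → ℝ := fun r => zt (r.1.1, r.1.2, r.2) with hw
  set K' : (P × ℝ) × ℝ → ℝ := fun r => K (r.1.1, r.1.2, r.2) with hK'
  have hws : ContDiff ℝ ∞ w := hzt.comp
    ((contDiff_fst.fst).prodMk ((contDiff_fst.snd).prodMk contDiff_snd))
  have hKs : ContDiff ℝ ∞ K' := hK.comp
    ((contDiff_fst.fst).prodMk ((contDiff_fst.snd).prodMk contDiff_snd))
  set C : Set (P × ℝ) := {0} ×ˢ Icc (0 : ℝ) 1 with hC
  have hCc : IsCompact C := isCompact_singleton.prod isCompact_Icc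
  have hCmem : ∀ z ∈ Icc (0 : ℝ) 1, ((0 : P), z) ∈ C := fun z hz => ⟨rfl, hz⟩
  obtain ⟨d, hd, hexp⟩ := exp_powers hws hKs hCc (by
    rintro ⟨p, z⟩ ⟨hp, hz⟩
    have hp' : p = 0 := hp
    subst hp'
    have h3 : (fun x => w (((0 : P), z), x)) = fun x => al2 * V0 z x := funext fun x => hzt0' z x
    rw [h3, ((i3e_deriv hm (V0 := V0 z) fun x => rfl).1.const_mul al2).deriv]
    exact mul_ne_zero ha2 (hpath z hz))
  rw [eventually_nhdsSet_iff_forall] at hexp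
  -- the value at p = 0
  have hval : ∀ z ∈ Icc (0 : ℝ) 1, d m ((0 : P), z) =
      (ka2 + bt * (((t0 + z * (t1 - t0)) * (z * g1) ^ m * (1 + (-1) ^ m) - ka1) /
        (t0 + z * (t1 - t0)) ^ (m + 2))) / al2 ^ (m + 1) := by
    intro z hz
    exact coeff_zero hm (hpath z hz) ha2 (w := fun x => w (((0 : P), z), x))
      (K := fun x => K' (((0 : P), z), x)) (V0 := V0 z) (fun x => rfl) (fun x => hzt0' z x)
      (fun x => hK0' z x) (fun j => d j ((0 : P), z))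
      ((hexp _ (hCmem z hz)).self_of_nhds (m + 1))
  have hneg : d m ((0 : P), 0) * d m ((0 : P), 1) < 0 := by
    rw [hval 0 ⟨le_rfl, zero_le_one⟩, hval 1 ⟨zero_le_one, le_rfl⟩]
    have e0 : t0 + 0 * (t1 - t0) = t0 := by ring
    have e1 : t0 + 1 * (t1 - t0) = t1 := by ring
    rw [e0, e1, div_mul_div_comm]
    exact div_neg_of_neg_of_pos hsign (mul_self_pos.2 (pow_ne_zero _ ha2))
  have hdc : ∀ j, Continuous (d j) := fun j => (hd j).continuous
  have hev1 : ∀ᶠ p in 𝓝 (0 : P), d m (p, 0) * d m (p, 1) < 0 := by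
    have hc : Continuous fun p : P => d m (p, 0) * d m (p, 1) :=
      ((hdc m).comp (by fun_prop)).mul ((hdc m).comp (by fun_prop))
    exact hc.continuousAt.eventually_lt_const hneg
  -- the bound
  set B : P × ℝ → ℝ := fun q => ∑ j : Fin m, |d j q| with hB
  have hBc : Continuous B := by
    rw [hB]
    exact continuous_finsetSum _ fun j _ => (hdc j).abs
  obtain ⟨C0, hC0⟩ := hCc.exists_bound_of_continuousOn hBc.continuousOn
  have hev2 : ∀ᶠ p in 𝓝 (0 : P), ∀ z ∈ Icc (0 : ℝ) 1, B (p, z) < C0 + 1 := by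
    refine isCompact_Icc.eventually_forall_of_forall_eventually fun z hz => ?_
    have h3 : B ((0 : P), z) < C0 + 1 := by
      have := hC0 _ (hCmem z hz)
      rw [Real.norm_eq_abs] at this
      linarith [le_abs_self (B ((0 : P), z))]
    exact hBc.continuousAt.eventually_lt_const h3
  have hev3 : ∀ᶠ p in 𝓝 (0 : P), ∀ z ∈ Icc (0 : ℝ) 1, ∀ M : ℕ,
      (fun x => K' ((p, z), x) - K' ((p, z), 0) - ∑ j ∈ Finset.range M, d j (p, z) *
        (w ((p, z), x) - w ((p, z), 0)) ^ (j + 1)) =O[𝓝 0] fun x : ℝ => x ^ (M + 1) :=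
    isCompact_Icc.eventually_forall_of_forall_eventually fun z hz => hexp _ (hCmem z hz)
  refine ⟨C0 + 1, ?_⟩
  filter_upwards [hev1, hev2, hev3] with p hp1 hp2 hp3
  have hcz : Continuous fun z : ℝ => d m (p, z) := (hdc m).comp (by fun_prop)
  obtain ⟨z, hz, hz0⟩ : ∃ z ∈ Icc (0 : ℝ) 1, d m (p, z) = 0 := by
    rcases mul_neg_iff.1 hp1 with ⟨h3, h4⟩ | ⟨h3, h4⟩
    · obtain ⟨z, hz, hz'⟩ := intermediate_value_Icc' zero_le_one hcz.continuousOn
        (show (0 : ℝ) ∈ Icc (d m (p, 1)) (d m (p, 0)) from ⟨h4.le, h3.le⟩)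
      exact ⟨z, hz, hz'⟩
    · obtain ⟨z, hz, hz'⟩ := intermediate_value_Icc zero_le_one hcz.continuousOn
        (show (0 : ℝ) ∈ Icc (d m (p, 0)) (d m (p, 1)) from ⟨h3.le, h4.le⟩)
      exact ⟨z, hz, hz'⟩
  refine ⟨z, hz, fun j => d j (p, z), fun j => ?_, ?_⟩
  · have h3 : |d j (p, z)| ≤ B (p, z) :=
      Finset.single_le_sum (f := fun j : Fin m => |d j (p, z)|) (fun i _ => abs_nonneg _)
        (Finset.mem_univ j)
    exact h3.trans (hp2 z hz).le
  · have h3 := hp3 z hz (m + 1)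
    refine h3.congr' (Eventually.of_forall fun x => ?_) (Eventually.of_forall fun x => rfl)
    simp only []
    rw [Finset.sum_range_succ, hz0, zero_mul, add_zero, Finset.sum_range]

end Pool.Agent.Lib.H37D
end
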