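import Pool.Agent.Lib.H1M.FF.M023

/-! Merged copies (to shorten the build) of Lib.H37D.A33. -/

-- from Lib.H37D.A33
section

/-!
# H37D A33 (size M): sums of the distances of two cross orbits with the same itinerary

As `Lib/H37N/A33.lean`: `a n = ‖x1 n - x0 n‖`, `c n = |y1 n - y0 n|`, `w n = ‖v1 n - v0 n‖`; for `n < k` (`orb_step`): `a n ≤ .811 a (n+1) + ee (c n + w n)`,
`c (n+1) ≤ .811 c n + ee (a (n+1) + w n)`, `w (n+1) ≤ .02 w n + ee (a (n+1) + c n)`; `a k ≤ 2`, `c 0 ≤ 1.01`, `w 0 ≤ 2`. With the sums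
`A = Σ a (n+1)`, `C = Σ c n`, `W = Σ w n` over `n < k`: `.189 A ≤ 2 + ee (..)`, `.189 C ≤ 1.01 + ee (..)`, `.98 W ≤ 2 + ee (..)`.
-/

open Set Filter Topology

namespace Pool.Agent.Lib.H37D

open Pool.Agent.Lib.H37N

variable {H V : Type*} [NormedAddCommGroup H] [NormedSpace ℝ H] [NormedAddCommGroup V]
  [NormedSpace ℝ V] {S : Sys H V}

theorem sum_dist (h : S.Good) {i : ℕ → Sy} {k : ℕ} {x0 x1 : ℕ → H} {y0 y1 : ℕ → ℝ} {v0 v1 : ℕ → V}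
    (o0 : S.Orb i k x0 y0 v0) (o1 : S.Orb i k x1 y1 v1) :
    ∑ n ∈ Finset.range k, (‖x1 (n + 1) - x0 (n + 1)‖ + |y1 n - y0 n| + ‖v1 n - v0 n‖) ≤ 20 := by
  have hee : 0 < ee := ee_pos
  have hee2 : ee ≤ 1 / 10 ^ 5 := by norm_num [ee]
  have step : ∀ n ∈ Finset.range k,
      ‖x1 n - x0 n‖ ≤ 811 / 1000 * ‖x1 (n + 1) - x0 (n + 1)‖ + 1 / 10 ^ 5 * |y1 n - y0 n| +
        1 / 10 ^ 5 * ‖v1 n - v0 n‖ ∧
      |y1 (n + 1) - y0 (n + 1)| ≤ 811 / 1000 * |y1 n - y0 n| +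
        1 / 10 ^ 5 * ‖x1 (n + 1) - x0 (n + 1)‖ + 1 / 10 ^ 5 * ‖v1 n - v0 n‖ ∧
      ‖v1 (n + 1) - v0 (n + 1)‖ ≤ 1 / 50 * ‖v1 n - v0 n‖ +
        1 / 10 ^ 5 * ‖x1 (n + 1) - x0 (n + 1)‖ + 1 / 10 ^ 5 * |y1 n - y0 n| := by
    intro n hn
    have hn' : n < k := Finset.mem_range.1 hn
    obtain ⟨s1, s2, s3⟩ := orb_step h o0 o1 hn'
    have s2' := a31_D' (h.q0 (i n)) s2
    have ha : 0 ≤ ‖x1 (n + 1) - x0 (n + 1)‖ := norm_nonneg _
    have hc : 0 ≤ |y1 n - y0 n| := abs_nonneg _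
    have hw : 0 ≤ ‖v1 n - v0 n‖ := norm_nonneg _
    have u3 := mul_le_mul_of_nonneg_right hee2 ha
    have u4 := mul_le_mul_of_nonneg_right hee2 hc
    have u5 := mul_le_mul_of_nonneg_right hee2 hw
    refine ⟨?_, ?_, ?_⟩ <;> linarith
  rw [Finset.sum_add_distrib, Finset.sum_add_distrib]
  set A := ∑ n ∈ Finset.range k, ‖x1 (n + 1) - x0 (n + 1)‖ with hA
  set C := ∑ n ∈ Finset.range k, |y1 n - y0 n| with hC
  set W := ∑ n ∈ Finset.range k, ‖v1 n - v0 n‖ with hW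
  have hA0 : 0 ≤ A := Finset.sum_nonneg fun _ _ => norm_nonneg _
  have hC0 : 0 ≤ C := Finset.sum_nonneg fun _ _ => abs_nonneg _
  have hW0 : 0 ≤ W := Finset.sum_nonneg fun _ _ => norm_nonneg _
  have s1 : ∑ n ∈ Finset.range k, ‖x1 n - x0 n‖ ≤
      811 / 1000 * A + 1 / 10 ^ 5 * C + 1 / 10 ^ 5 * W := by
    rw [hA, hC, hW, Finset.mul_sum, Finset.mul_sum, Finset.mul_sum, ← Finset.sum_add_distrib,
      ← Finset.sum_add_distrib]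
    exact Finset.sum_le_sum fun n hn => (step n hn).1
  have s2 : ∑ n ∈ Finset.range k, |y1 (n + 1) - y0 (n + 1)| ≤
      811 / 1000 * C + 1 / 10 ^ 5 * A + 1 / 10 ^ 5 * W := by
    rw [hA, hC, hW, Finset.mul_sum, Finset.mul_sum, Finset.mul_sum, ← Finset.sum_add_distrib,
      ← Finset.sum_add_distrib]
    exact Finset.sum_le_sum fun n hn => (step n hn).2.1
  have s3 : ∑ n ∈ Finset.range k, ‖v1 (n + 1) - v0 (n + 1)‖ ≤
      1 / 50 * W + 1 / 10 ^ 5 * A + 1 / 10 ^ 5 * C := by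
    rw [hA, hC, hW, Finset.mul_sum, Finset.mul_sum, Finset.mul_sum, ← Finset.sum_add_distrib,
      ← Finset.sum_add_distrib]
    exact Finset.sum_le_sum fun n hn => (step n hn).2.2
  have t1 : A + ‖x1 0 - x0 0‖ = ∑ n ∈ Finset.range k, ‖x1 n - x0 n‖ + ‖x1 k - x0 k‖ := by
    rw [hA, ← Finset.sum_range_succ (fun n => ‖x1 n - x0 n‖),
      ← Finset.sum_range_succ' (fun n => ‖x1 n - x0 n‖)]
  have t2 : ∑ n ∈ Finset.range k, |y1 (n + 1) - y0 (n + 1)| + |y1 0 - y0 0| =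
      C + |y1 k - y0 k| := by
    rw [hC, ← Finset.sum_range_succ (fun n => |y1 n - y0 n|),
      ← Finset.sum_range_succ' (fun n => |y1 n - y0 n|)]
  have t3 : ∑ n ∈ Finset.range k, ‖v1 (n + 1) - v0 (n + 1)‖ + ‖v1 0 - v0 0‖ =
      W + ‖v1 k - v0 k‖ := by
    rw [hW, ← Finset.sum_range_succ (fun n => ‖v1 n - v0 n‖),
      ← Finset.sum_range_succ' (fun n => ‖v1 n - v0 n‖)]
  have dx : ‖x1 k - x0 k‖ ≤ 2 := S.RH.diam _ (o1.mx k le_rfl) _ (o0.mx k le_rfl)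
  have dv : ‖v1 0 - v0 0‖ ≤ 2 := S.RV.diam _ (o1.mv 0 (Nat.zero_le k)) _ (o0.mv 0 (Nat.zero_le k))
  have dy : |y1 0 - y0 0| ≤ 101 / 100 := by
    have h0 := o0.my 0 (Nat.zero_le k)
    have h1 := o1.my 0 (Nat.zero_le k)
    rw [II_def] at h0 h1
    norm_num [del] at h0 h1
    rw [abs_le]; constructor <;> linarith [h0.1, h0.2, h1.1, h1.2]
  have a0 : 0 ≤ ‖x1 0 - x0 0‖ := norm_nonneg _
  have ck : 0 ≤ |y1 k - y0 k| := abs_nonneg _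
  have wk : 0 ≤ ‖v1 k - v0 k‖ := norm_nonneg _
  linarith

end Pool.Agent.Lib.H37D
end
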