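import Pool.Agent.Lib.H1M.FF.M015
import Pool.Agent.Lib.H1M.FF.M018
import Pool.Agent.Lib.H1M.FF.M024

/-! Merged copies (to shorten the build) of Lib.H37D.A03, Lib.H37D.A04, Lib.H37D.A05. -/

-- from Lib.H37D.A03
section

/-!
# H37D A03 (size M): mean derivatives of `g` on `VVd d i`

As `Lib/H37N/A03.lean`: `mean_two` (A01) with `K = VVd d i` (convex), `L = e0`, `C` = the set below (intersection of preimages of closed balls under
linear maps `A ↦ A v`; convex and closed).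
-/

open Set Filter Topology
open scoped ContDiff

namespace Pool.Agent.Lib.H37D

open Pool.Agent.Lib.H37N

variable {d : ℕ} {g : En d → En d}

/-- the admissible derivatives on the strip `i` -/
def CD (d : ℕ) (i : Sy) : Set (En d →L[ℝ] En d) :=
  {A | |(A (eX d)).1.1 - 1 / pw i| ≤ e0 ∧ |(A (eX d)).1.2| ≤ e0 ∧ |(A (eY d)).1.1| ≤ e0 ∧
    |(A (eY d)).1.2 - qw i| ≤ e0 ∧ ‖(A (eX d)).2‖ ≤ e0 ∧ ‖(A (eY d)).2‖ ≤ e0 ∧
    (∀ w : Wd d, ‖(A (0, w)).1‖ ≤ e0 * ‖w‖) ∧ ∀ w : Wd d, ‖(A (0, w)).2‖ ≤ aw * ‖w‖}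

theorem A03_ball {F : Type*} [NormedAddCommGroup F] [NormedSpace ℝ F]
    (l : (En d →L[ℝ] En d) →L[ℝ] F) (c : F) (e : ℝ) :
    Convex ℝ {A | ‖l A - c‖ ≤ e} ∧ IsClosed {A | ‖l A - c‖ ≤ e} := by
  have h : {A | ‖l A - c‖ ≤ e} = l ⁻¹' Metric.closedBall c e := by
    ext A
    simp [dist_eq_norm]
  rw [h]
  exact ⟨(convex_closedBall c e).linear_preimage l.toLinearMap,
    Metric.isClosed_closedBall.preimage l.continuous⟩

/-- evaluation at `v`, followed by a projection -/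
noncomputable def A03_l {F : Type*} [NormedAddCommGroup F] [NormedSpace ℝ F] (P : En d →L[ℝ] F)
    (v : En d) : (En d →L[ℝ] En d) →L[ℝ] F :=
  P.comp (ContinuousLinearMap.apply ℝ (En d) v)

noncomputable def A03_x : En d →L[ℝ] ℝ :=
  (ContinuousLinearMap.fst ℝ ℝ ℝ).comp (ContinuousLinearMap.fst ℝ Pt (Wd d))

noncomputable def A03_y : En d →L[ℝ] ℝ :=
  (ContinuousLinearMap.snd ℝ ℝ ℝ).comp (ContinuousLinearMap.fst ℝ Pt (Wd d))

theorem A03_set (i : Sy) : CD d i =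
    {A | ‖A03_l A03_x (eX d) A - 1 / pw i‖ ≤ e0} ∩ ({A | ‖A03_l A03_y (eX d) A - 0‖ ≤ e0} ∩
      ({A | ‖A03_l A03_x (eY d) A - 0‖ ≤ e0} ∩ ({A | ‖A03_l A03_y (eY d) A - qw i‖ ≤ e0} ∩
        ({A | ‖A03_l (ContinuousLinearMap.snd ℝ Pt (Wd d)) (eX d) A - 0‖ ≤ e0} ∩
          ({A | ‖A03_l (ContinuousLinearMap.snd ℝ Pt (Wd d)) (eY d) A - 0‖ ≤ e0} ∩
            ((⋂ w : Wd d, {A | ‖A03_l (ContinuousLinearMap.fst ℝ Pt (Wd d)) (0, w) A - 0‖ ≤
              e0 * ‖w‖}) ∩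
            (⋂ w : Wd d, {A | ‖A03_l (ContinuousLinearMap.snd ℝ Pt (Wd d)) (0, w) A - 0‖ ≤
              aw * ‖w‖}))))))) := by
  ext A
  simp [CD, A03_l, A03_x, A03_y]

theorem CD_convex (i : Sy) : Convex ℝ (CD d i) := by
  rw [A03_set]
  exact (A03_ball _ _ _).1.inter ((A03_ball _ _ _).1.inter ((A03_ball _ _ _).1.inter
    ((A03_ball _ _ _).1.inter ((A03_ball _ _ _).1.inter ((A03_ball _ _ _).1.inter
    ((convex_iInter fun _ => (A03_ball _ _ _).1).inter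
      (convex_iInter fun _ => (A03_ball _ _ _).1)))))))

theorem CD_closed (i : Sy) : IsClosed (CD d i) := by
  rw [A03_set]
  exact (A03_ball _ _ _).2.inter ((A03_ball _ _ _).2.inter ((A03_ball _ _ _).2.inter
    ((A03_ball _ _ _).2.inter ((A03_ball _ _ _).2.inter ((A03_ball _ _ _).2.inter
    ((isClosed_iInter fun _ => (A03_ball _ _ _).2).inter
      (isClosed_iInter fun _ => (A03_ball _ _ _).2)))))))

theorem near_mean (h : NearD g) (i : Sy) {z0 z1 z2 z3 : En d} (h0 : z0 ∈ VVd d i)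
    (h1 : z1 ∈ VVd d i) (h2 : z2 ∈ VVd d i) (h3 : z3 ∈ VVd d i) :
    ∃ A ∈ CD d i, ∃ A' ∈ CD d i, g z1 - g z0 = A (z1 - z0) ∧ g z3 - g z2 = A' (z3 - z2) ∧
      ‖A - A'‖ ≤ e0 * max ‖z2 - z0‖ ‖z3 - z1‖ := by
  obtain ⟨O, hO, hsub, hsm, -, -⟩ := h.smooth
  have hK : Convex ℝ (VVd d i) :=
    ((convex_Icc _ _).prod (convex_Icc _ _)).prod (convex_closedBall _ _)
  have he0 : (0 : ℝ) ≤ e0 := by norm_num [e0]
  refine mean_two hO hK ((VVd_sub_Dd i).trans hsub) hsm he0 (h.lip i) (CD_convex i)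
    (CD_closed i) ?_ h0 h1 h2 h3
  intro z hz
  obtain ⟨c1, c2, c3, c4⟩ := h.close1 i z hz
  have hzD := VVd_sub_Dd i hz
  exact ⟨c1, c2, c3, c4, (h.wx z hzD).1, (h.wx z hzD).2, fun w => (h.ww z hzD w).1,
    fun w => (h.ww z hzD w).2⟩

end Pool.Agent.Lib.H37D
end

-- from Lib.H37D.A04
section

/-!
# H37D A04 (size M/L): mean value properties of the cross coordinates

`A ∈ CD d i` with `g z1 - g z0 = A (z1 - z0)`, `z_j = ((x_j, y_j), w_j)`, `x_j = XX g i (x'_j, y_j, w_j)` (`XX_spec`: `(g z_j).1.1 = x'_j`). Put `a = (A (eX d)).1.1 ≥ 12/10`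
(`a04_a` in `Lib/H37N/A04.lean`). Then `x'_1 - x'_0 = a Δx + (A (eY d)).1.1 Δy + (A (0, Δw)).1.1`, so `Δx = B (Δx', Δy, Δw)` with the linear map
`B (t, s, w) = (t - s (A (eY d)).1.1 - (A (0, w)).1.1) / a`, and `(Δy', Δw')` = the other components of
`A ((B (t,s,w), s), w)`. Hence the mean linear maps below, `crs A : Cx d →L En d`: `crs A u = A ((B u, u.2.1), u.2.2)` has first coordinate `u.1`. For two
maps `A, A' ∈ CD d i`: `‖B - B'‖ ≤ 3 ‖A - A'‖` (`a04_r2`), so `‖crs A - crs A'‖ ≤ 10 ‖A - A'‖` (`‖A‖ ≤ 6`: `1/pw i ≤ 5.03`). The distances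
`‖z2 - z0‖` are at most `2` times the distances of the cross coordinates (`|Δx| ≤ |Δx'| + 2 e0 (...)`, apply the formula to the pair `z2, z0`: with `near_mean` for that
pair). Total constant `e0 * 10 * 2 ≤ ee = 100 e0`.
-/

open Set Filter Topology
open scoped ContDiff

namespace Pool.Agent.Lib.H37D

open Pool.Agent.Lib.H37N

variable {d : ℕ} {g : En d → En d}

/-- the triple `(X, Y, K)` of a cross point -/
noncomputable def crT (g : En d → En d) (i : Sy) (z : Cx d) : ℝ × ℝ × Wd d := (XX g i z, YY g i z, KK g i z)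

/-- the slaved coordinate of the mean cross map -/
noncomputable def A04_B (A : En d →L[ℝ] En d) : Cx d →L[ℝ] ℝ :=
  (1 / (A (eX d)).1.1) • (ContinuousLinearMap.fst ℝ ℝ (ℝ × Wd d) -
    (A (eY d)).1.1 • (ContinuousLinearMap.fst ℝ ℝ (Wd d)).comp
      (ContinuousLinearMap.snd ℝ ℝ (ℝ × Wd d)) -
    ((A03_x.comp A).comp (ContinuousLinearMap.inr ℝ Pt (Wd d))).comp
      ((ContinuousLinearMap.snd ℝ ℝ (Wd d)).comp (ContinuousLinearMap.snd ℝ ℝ (ℝ × Wd d))))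

theorem A04_B_apply (A : En d →L[ℝ] En d) (u : Cx d) :
    A04_B A u = 1 / (A (eX d)).1.1 * (u.1 - (A (eY d)).1.1 * u.2.1 - (A (0, u.2.2)).1.1) := by
  simp [A04_B, A03_x]

/-- the lift of a cross vector -/
noncomputable def A04_E (A : En d →L[ℝ] En d) : Cx d →L[ℝ] En d :=
  ((A04_B A).prod ((ContinuousLinearMap.fst ℝ ℝ (Wd d)).comp
    (ContinuousLinearMap.snd ℝ ℝ (ℝ × Wd d)))).prod
    ((ContinuousLinearMap.snd ℝ ℝ (Wd d)).comp (ContinuousLinearMap.snd ℝ ℝ (ℝ × Wd d)))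

theorem A04_E_apply (A : En d →L[ℝ] En d) (u : Cx d) :
    A04_E A u = ((A04_B A u, u.2.1), u.2.2) := by
  simp [A04_E]

/-- the mean cross map -/
noncomputable def A04_crs (A : En d →L[ℝ] En d) : Cx d →L[ℝ] ℝ × ℝ × Wd d :=
  (A04_B A).prod (((A03_y.comp A).comp (A04_E A)).prod
    (((ContinuousLinearMap.snd ℝ Pt (Wd d)).comp A).comp (A04_E A)))

theorem A04_crs_apply (A : En d →L[ℝ] En d) (u : Cx d) :
    A04_crs A u = (A04_B A u, (A ((A04_B A u, u.2.1), u.2.2)).1.2,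
      (A ((A04_B A u, u.2.1), u.2.2)).2) := by
  simp [A04_crs, A04_E_apply, A03_y]

theorem A04_split (x y : ℝ) (w : Wd d) :
    (((x, y), w) : En d) = x • eX d + y • eY d + (0, w) := by
  simp [eX, eY]

theorem A04_lin (A : En d →L[ℝ] En d) (x y : ℝ) (w : Wd d) :
    A ((x, y), w) = x • A (eX d) + y • A (eY d) + A (0, w) := by
  rw [A04_split, map_add, map_add, map_smul, map_smul]

theorem A04_x (A : En d →L[ℝ] En d) (x y : ℝ) (w : Wd d) :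
    (A ((x, y), w)).1.1 = x * (A (eX d)).1.1 + y * (A (eY d)).1.1 + (A (0, w)).1.1 := by
  rw [A04_lin]
  simp

theorem A04_y (A : En d →L[ℝ] En d) (x y : ℝ) (w : Wd d) :
    (A ((x, y), w)).1.2 = x * (A (eX d)).1.2 + y * (A (eY d)).1.2 + (A (0, w)).1.2 := by
  rw [A04_lin]
  simp

theorem A04_w (A : En d →L[ℝ] En d) (x y : ℝ) (w : Wd d) :
    (A ((x, y), w)).2 = x • (A (eX d)).2 + y • (A (eY d)).2 + (A (0, w)).2 := by
  rw [A04_lin]
  simp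

theorem A04_e0 : (0 : ℝ) < e0 ∧ e0 ≤ 1 / 1000 ∧ ee = 100 * e0 := by
  refine ⟨?_, ?_, ?_⟩ <;> norm_num [e0, ee]

/-- the components of a vector -/
theorem A04_comp (z : En d) : |z.1.1| ≤ ‖z‖ ∧ |z.1.2| ≤ ‖z‖ ∧ ‖z.2‖ ≤ ‖z‖ :=
  ⟨(norm_fst_le z.1).trans (norm_fst_le z), (norm_snd_le z.1).trans (norm_fst_le z),
    norm_snd_le z⟩

theorem A04_compC (z : Cx d) : |z.1| ≤ ‖z‖ ∧ |z.2.1| ≤ ‖z‖ ∧ ‖z.2.2‖ ≤ ‖z‖ :=
  ⟨norm_fst_le z, (norm_fst_le z.2).trans (norm_snd_le z), (norm_snd_le z.2).trans (norm_snd_le z)⟩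

theorem A04_leE {z : En d} {M : ℝ} (h1 : |z.1.1| ≤ M) (h2 : |z.1.2| ≤ M) (h3 : ‖z.2‖ ≤ M) :
    ‖z‖ ≤ M := by
  rw [Prod.norm_def, Prod.norm_def]
  exact max_le (max_le h1 h2) h3

theorem A04_leC {z : Cx d} {M : ℝ} (h1 : |z.1| ≤ M) (h2 : |z.2.1| ≤ M) (h3 : ‖z.2.2‖ ≤ M) :
    ‖z‖ ≤ M := by
  rw [Prod.norm_def, Prod.norm_def]
  exact max_le h1 (max_le h2 h3)

theorem A04_eX : ‖eX d‖ ≤ 1 ∧ ‖eY d‖ ≤ 1 := by
  constructor
  · apply A04_leE <;> simp [eX]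
  · apply A04_leE <;> simp [eY]

/-- bound for the slaved coordinate before the division -/
theorem A04_num {i : Sy} {A : En d →L[ℝ] En d} (hA : A ∈ CD d i) (u : Cx d) :
    |u.1 - (A (eY d)).1.1 * u.2.1 - (A (0, u.2.2)).1.1| ≤ 11 / 10 * ‖u‖ := by
  obtain ⟨-, -, h3, -, -, -, h7, -⟩ := hA
  obtain ⟨c1, c2, c3⟩ := A04_compC u
  obtain ⟨p1, p2, -⟩ := A04_e0
  have hn := norm_nonneg u
  have k1 : |(A (eY d)).1.1 * u.2.1| ≤ e0 * ‖u‖ := by
    rw [abs_mul]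
    exact mul_le_mul h3 c2 (abs_nonneg _) p1.le
  have k2 : |(A (0, u.2.2)).1.1| ≤ e0 * ‖u‖ :=
    (norm_fst_le (A (0, u.2.2)).1).trans ((h7 _).trans (mul_le_mul_of_nonneg_left c3 p1.le))
  have k3 : e0 * ‖u‖ ≤ 1 / 1000 * ‖u‖ := mul_le_mul_of_nonneg_right p2 hn
  have k4 := abs_sub (u.1 - (A (eY d)).1.1 * u.2.1) ((A (0, u.2.2)).1.1)
  have k5 := abs_sub u.1 ((A (eY d)).1.1 * u.2.1)
  linarith

theorem A04_Bn {i : Sy} {A : En d →L[ℝ] En d} (hA : A ∈ CD d i) (u : Cx d) :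
    |A04_B A u| ≤ ‖u‖ := by
  rw [A04_B_apply, abs_mul]
  have h1 := a04_a hA.1
  have h0 : 0 < (A (eX d)).1.1 := by linarith
  have h2 := A04_num hA u
  have h3 : |1 / (A (eX d)).1.1| ≤ 10 / 11 := by
    rw [abs_of_pos (by positivity), div_le_iff₀ h0]
    linarith
  have := mul_le_mul h3 h2 (abs_nonneg _) (by norm_num)
  linarith

/-- The slaved coordinates of two mean maps. -/
theorem A04_Bd {i : Sy} {A A' : En d →L[ℝ] En d} (hA : A ∈ CD d i) (hA' : A' ∈ CD d i)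
    (u : Cx d) : |A04_B A u - A04_B A' u| ≤ 4 * ‖A - A'‖ * ‖u‖ := by
  rw [A04_B_apply, A04_B_apply]
  obtain ⟨c1, c2, c3⟩ := A04_compC u
  have hn := norm_nonneg u
  have hd := norm_nonneg (A - A')
  have h1 := a04_a hA.1
  have h1' := a04_a hA'.1
  have j1 : ‖A (eX d) - A' (eX d)‖ ≤ ‖A - A'‖ := by
    have := (A - A').le_opNorm (eX d)
    have k := mul_le_mul_of_nonneg_left (A04_eX (d := d)).1 hd
    rw [mul_one] at k
    exact this.trans k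
  have j2 : ‖A (eY d) - A' (eY d)‖ ≤ ‖A - A'‖ := by
    have := (A - A').le_opNorm (eY d)
    have k := mul_le_mul_of_nonneg_left (A04_eX (d := d)).2 hd
    rw [mul_one] at k
    exact this.trans k
  have j3 : ‖A (0, u.2.2) - A' (0, u.2.2)‖ ≤ ‖A - A'‖ * ‖u‖ := by
    have := (A - A').le_opNorm ((0, u.2.2) : En d)
    refine this.trans (mul_le_mul_of_nonneg_left ?_ hd)
    exact A04_leE (by simp) (by simp) c3
  have i1 : |(A (eX d)).1.1 - (A' (eX d)).1.1| ≤ ‖A - A'‖ := (A04_comp _).1.trans j1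
  have i2 : |(A (eY d)).1.1 - (A' (eY d)).1.1| ≤ ‖A - A'‖ := (A04_comp _).1.trans j2
  have i3 : |(A (0, u.2.2)).1.1 - (A' (0, u.2.2)).1.1| ≤ ‖A - A'‖ * ‖u‖ :=
    (A04_comp _).1.trans j3
  have k1 := a04_r2 h1 h1' i1
  have k2 := A04_num hA u
  have e : 1 / (A (eX d)).1.1 * (u.1 - (A (eY d)).1.1 * u.2.1 - (A (0, u.2.2)).1.1) -
      1 / (A' (eX d)).1.1 * (u.1 - (A' (eY d)).1.1 * u.2.1 - (A' (0, u.2.2)).1.1) =
      (1 / (A (eX d)).1.1 - 1 / (A' (eX d)).1.1) *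
        (u.1 - (A (eY d)).1.1 * u.2.1 - (A (0, u.2.2)).1.1) +
      (-(((A (eY d)).1.1 - (A' (eY d)).1.1) * u.2.1 +
        ((A (0, u.2.2)).1.1 - (A' (0, u.2.2)).1.1))) * (1 / (A' (eX d)).1.1) := by ring
  rw [e]
  have k3 : |(1 / (A (eX d)).1.1 - 1 / (A' (eX d)).1.1) *
      (u.1 - (A (eY d)).1.1 * u.2.1 - (A (0, u.2.2)).1.1)| ≤ ‖A - A'‖ * (11 / 10 * ‖u‖) := by
    rw [abs_mul]
    exact mul_le_mul k1 k2 (abs_nonneg _) hd
  have k4 : |-(((A (eY d)).1.1 - (A' (eY d)).1.1) * u.2.1 +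
        ((A (0, u.2.2)).1.1 - (A' (0, u.2.2)).1.1))| ≤ 2 * (‖A - A'‖ * ‖u‖) := by
    rw [abs_neg]
    refine (abs_add_le _ _).trans ?_
    have : |((A (eY d)).1.1 - (A' (eY d)).1.1) * u.2.1| ≤ ‖A - A'‖ * ‖u‖ := by
      rw [abs_mul]
      exact mul_le_mul i2 c2 (abs_nonneg _) hd
    linarith
  have k5 := a04_r3 h1' k4
  refine (abs_add_le _ _).trans ?_
  have hm : 0 ≤ ‖A - A'‖ * ‖u‖ := mul_nonneg hd hn
  linarith

theorem A04_crs_dist {i : Sy} {A A' : En d →L[ℝ] En d} (hA : A ∈ CD d i) (hA' : A' ∈ CD d i) :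
    ‖A04_crs A - A04_crs A'‖ ≤ 4 * ‖A - A'‖ := by
  have hd := norm_nonneg (A - A')
  refine ContinuousLinearMap.opNorm_le_bound _ (by linarith) fun u => ?_
  have hn := norm_nonneg u
  have hm : 0 ≤ ‖A - A'‖ * ‖u‖ := mul_nonneg hd hn
  obtain ⟨p1, p2, -⟩ := A04_e0
  obtain ⟨c1, c2, c3⟩ := A04_compC u
  have hB := A04_Bd hA hA' u
  have hBn := A04_Bn hA u
  have e1 : ‖(A - A') ((A04_B A u, u.2.1), u.2.2)‖ ≤ ‖A - A'‖ * ‖u‖ :=
    ((A - A').le_opNorm _).trans (mul_le_mul_of_nonneg_left (A04_leE hBn c2 c3) hd)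
  have e2 : A ((A04_B A u, u.2.1), u.2.2) - A' ((A04_B A' u, u.2.1), u.2.2) =
      (A - A') ((A04_B A u, u.2.1), u.2.2) + (A04_B A u - A04_B A' u) • A' (eX d) := by
    have : (A - A') ((A04_B A u, u.2.1), u.2.2) =
        A ((A04_B A u, u.2.1), u.2.2) - A' ((A04_B A u, u.2.1), u.2.2) := rfl
    rw [this, A04_lin A' (A04_B A u), A04_lin A' (A04_B A' u)]
    module
  obtain ⟨-, g2, -, -, g5, -, -, -⟩ := hA'
  obtain ⟨q1, q2, q3⟩ := A04_comp ((A - A') ((A04_B A u, u.2.1), u.2.2))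
  have k1 : |A04_B A u - A04_B A' u| * e0 ≤ ‖A - A'‖ * ‖u‖ := by
    have := mul_le_mul hB p2 p1.le (by positivity)
    linarith
  show ‖A04_crs A u - A04_crs A' u‖ ≤ _
  rw [A04_crs_apply, A04_crs_apply]
  refine A04_leC ?_ ?_ ?_
  · exact hB
  · have e3 : (A ((A04_B A u, u.2.1), u.2.2)).1.2 - (A' ((A04_B A' u, u.2.1), u.2.2)).1.2 =
        ((A - A') ((A04_B A u, u.2.1), u.2.2)).1.2 +
          (A04_B A u - A04_B A' u) * (A' (eX d)).1.2 :=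
      congrArg (fun z : En d => z.1.2) e2
    show |(A ((A04_B A u, u.2.1), u.2.2)).1.2 - (A' ((A04_B A' u, u.2.1), u.2.2)).1.2| ≤ _
    rw [e3]
    refine (abs_add_le _ _).trans ?_
    have : |(A04_B A u - A04_B A' u) * (A' (eX d)).1.2| ≤ |A04_B A u - A04_B A' u| * e0 := by
      rw [abs_mul]
      exact mul_le_mul_of_nonneg_left g2 (abs_nonneg _)
    linarith
  · have e3 : (A ((A04_B A u, u.2.1), u.2.2)).2 - (A' ((A04_B A' u, u.2.1), u.2.2)).2 =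
        ((A - A') ((A04_B A u, u.2.1), u.2.2)).2 +
          (A04_B A u - A04_B A' u) • (A' (eX d)).2 :=
      congrArg (fun z : En d => z.2) e2
    show ‖(A ((A04_B A u, u.2.1), u.2.2)).2 - (A' ((A04_B A' u, u.2.1), u.2.2)).2‖ ≤ _
    rw [e3]
    refine (norm_add_le _ _).trans ?_
    have : ‖(A04_B A u - A04_B A' u) • (A' (eX d)).2‖ ≤ |A04_B A u - A04_B A' u| * e0 := by
      rw [norm_smul, Real.norm_eq_abs]
      exact mul_le_mul_of_nonneg_left g5 (abs_nonneg _)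
    linarith

/-- the bounds on the mean cross map -/
theorem A04_bounds {i : Sy} {A : En d →L[ℝ] En d} (hA : A ∈ CD d i) :
    |(A04_crs A (1, 0, 0)).1 - pw i| ≤ ee ∧ |(A04_crs A (0, 1, 0)).1| ≤ ee ∧
      (∀ w, |(A04_crs A (0, 0, w)).1| ≤ ee * ‖w‖) ∧
    |(A04_crs A (1, 0, 0)).2.1| ≤ ee ∧ |(A04_crs A (0, 1, 0)).2.1 - qw i| ≤ ee ∧
      (∀ w, |(A04_crs A (0, 0, w)).2.1| ≤ ee * ‖w‖) ∧
    ‖(A04_crs A (1, 0, 0)).2.2‖ ≤ ee ∧ ‖(A04_crs A (0, 1, 0)).2.2‖ ≤ ee ∧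
      ∀ w, ‖(A04_crs A (0, 0, w)).2.2‖ ≤ 1 / 50 * ‖w‖ := by
  obtain ⟨p1, p2, p3⟩ := A04_e0
  obtain ⟨h1, h2, h3, h4, h5, h6, h7, h8⟩ := hA
  have a1 := a04_a h1
  obtain ⟨r1, r2⟩ := a04_inv a1
  have b0 : A04_B A (1, 0, 0) = 1 / (A (eX d)).1.1 := by
    rw [A04_B_apply]
    have : (A ((0, (0 : Wd d)) : En d)).1.1 = 0 := by
      have : ((0, (0 : Wd d)) : En d) = 0 := rfl
      rw [this, map_zero]
      rfl
    simp only [this]
    ring
  have b1 : A04_B A (0, 1, 0) = -((A (eY d)).1.1 * (1 / (A (eX d)).1.1)) := by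
    rw [A04_B_apply]
    have : (A ((0, (0 : Wd d)) : En d)).1.1 = 0 := by
      have : ((0, (0 : Wd d)) : En d) = 0 := rfl
      rw [this, map_zero]
      rfl
    simp only [this]
    ring
  have b2 : ∀ w : Wd d, A04_B A (0, 0, w) = -((A (0, w)).1.1 * (1 / (A (eX d)).1.1)) := by
    intro w
    rw [A04_B_apply]
    ring
  have z0 : A ((0, (0 : Wd d)) : En d) = 0 := by
    have : ((0, (0 : Wd d)) : En d) = 0 := rfl
    rw [this, map_zero]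
  have m0 : |A04_B A (1, 0, 0)| ≤ 1 := by
    rw [b0, abs_of_pos r1]
    exact r2
  have m1 : |A04_B A (0, 1, 0)| ≤ e0 := by
    rw [b1, abs_neg]
    exact a04_r3 a1 h3
  have m2 : ∀ w : Wd d, |A04_B A (0, 0, w)| ≤ e0 * ‖w‖ := by
    intro w
    rw [b2, abs_neg]
    exact a04_r3 a1 ((norm_fst_le (A (0, w)).1).trans (h7 w))
  have s1 : ee = 100 * e0 := p3
  have s2 : e0 * e0 ≤ e0 := by
    have := mul_le_mul_of_nonneg_left (p2.trans (by norm_num : (1 : ℝ) / 1000 ≤ 1)) p1.le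
    linarith
  simp only [A04_crs_apply]
  refine ⟨?_, ?_, ?_, ?_, ?_, ?_, ?_, ?_, ?_⟩
  · rw [b0]
    have := a04_r1 h1
    linarith
  · linarith
  · intro w
    have := m2 w
    have hw := norm_nonneg w
    have : e0 * ‖w‖ ≤ ee * ‖w‖ := mul_le_mul_of_nonneg_right (by linarith) hw
    linarith
  · rw [A04_y, z0]
    have : |A04_B A (1, 0, 0) * (A (eX d)).1.2| ≤ 1 * e0 := by
      rw [abs_mul]
      exact mul_le_mul m0 h2 (abs_nonneg _) zero_le_one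
    simp only [zero_mul, Prod.fst_zero, Prod.snd_zero, add_zero]
    linarith
  · rw [A04_y, z0]
    have : |A04_B A (0, 1, 0) * (A (eX d)).1.2| ≤ e0 * e0 := by
      rw [abs_mul]
      exact mul_le_mul m1 h2 (abs_nonneg _) p1.le
    simp only [one_mul, Prod.fst_zero, Prod.snd_zero, add_zero]
    have e : A04_B A (0, 1, 0) * (A (eX d)).1.2 + (A (eY d)).1.2 - qw i =
        A04_B A (0, 1, 0) * (A (eX d)).1.2 + ((A (eY d)).1.2 - qw i) := by ring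
    rw [e]
    refine (abs_add_le _ _).trans ?_
    linarith
  · intro w
    have hw := norm_nonneg w
    rw [A04_y]
    have k1 : |A04_B A (0, 0, w) * (A (eX d)).1.2| ≤ (e0 * ‖w‖) * 1 := by
      rw [abs_mul]
      exact mul_le_mul (m2 w) (h2.trans (by linarith)) (abs_nonneg _) (by positivity)
    have k2 : |(A (0, w)).1.2| ≤ e0 * ‖w‖ := (norm_snd_le (A (0, w)).1).trans (h7 w)
    simp only [zero_mul, add_zero]
    refine (abs_add_le _ _).trans ?_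
    have : 2 * e0 * ‖w‖ ≤ ee * ‖w‖ := mul_le_mul_of_nonneg_right (by linarith) hw
    linarith
  · rw [A04_w, z0]
    have : ‖A04_B A (1, 0, 0) • (A (eX d)).2‖ ≤ 1 * e0 := by
      rw [norm_smul, Real.norm_eq_abs]
      exact mul_le_mul m0 h5 (norm_nonneg _) zero_le_one
    simp only [zero_smul, Prod.snd_zero, add_zero]
    linarith
  · rw [A04_w, z0]
    have : ‖A04_B A (0, 1, 0) • (A (eX d)).2‖ ≤ e0 * e0 := by
      rw [norm_smul, Real.norm_eq_abs]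
      exact mul_le_mul m1 h5 (norm_nonneg _) p1.le
    simp only [one_smul, Prod.snd_zero, add_zero]
    refine (norm_add_le _ _).trans ?_
    linarith
  · intro w
    have hw := norm_nonneg w
    rw [A04_w]
    have k1 : ‖A04_B A (0, 0, w) • (A (eX d)).2‖ ≤ (e0 * ‖w‖) * 1 := by
      rw [norm_smul, Real.norm_eq_abs]
      exact mul_le_mul (m2 w) (h5.trans (by linarith)) (norm_nonneg _) (by positivity)
    have k2 := h8 w
    simp only [zero_smul, add_zero]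
    refine (norm_add_le _ _).trans ?_
    have : e0 * ‖w‖ ≤ 1 / 1000 * ‖w‖ := mul_le_mul_of_nonneg_right p2 hw
    have : aw * ‖w‖ ≤ 1 / 1000 * ‖w‖ := mul_le_mul_of_nonneg_right (by norm_num [aw]) hw
    linarith

/-- the point of `VVd d i` over a cross point -/
noncomputable def A04_up (g : En d → En d) (i : Sy) (z : Cx d) : En d :=
  ((XX g i z, z.2.1), z.2.2)

theorem A04_g (h : NearD g) (i : Sy) {z : Cx d} (hz : z ∈ DX d) :
    g (A04_up g i z) = ((z.1, YY g i z), KK g i z) := g_cross h i (x' := z.1) hz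

theorem A04_diff {A : En d →L[ℝ] En d} {i : Sy} (h : NearD g) (hA : A ∈ CD d i) {z z' : Cx d}
    (hz : z ∈ DX d) (hz' : z' ∈ DX d)
    (he : g (A04_up g i z') - g (A04_up g i z) = A (A04_up g i z' - A04_up g i z)) :
    crT g i z' - crT g i z = A04_crs A (z' - z) := by
  have a1 := a04_a hA.1
  have a0 : (A (eX d)).1.1 ≠ 0 := by linarith
  rw [A04_g h i hz, A04_g h i hz'] at he
  have e0' : A04_up g i z' - A04_up g i z = ((XX g i z' - XX g i z, (z' - z).2.1),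
      (z' - z).2.2) := rfl
  rw [e0'] at he
  have e1 : z'.1 - z.1 = (A ((XX g i z' - XX g i z, (z' - z).2.1), (z' - z).2.2)).1.1 :=
    congrArg (fun z : En d => z.1.1) he
  have e2 : YY g i z' - YY g i z =
      (A ((XX g i z' - XX g i z, (z' - z).2.1), (z' - z).2.2)).1.2 :=
    congrArg (fun z : En d => z.1.2) he
  have e3 : KK g i z' - KK g i z = (A ((XX g i z' - XX g i z, (z' - z).2.1), (z' - z).2.2)).2 :=
    congrArg (fun z : En d => z.2) he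
  have hB : A04_B A (z' - z) = XX g i z' - XX g i z := by
    rw [A04_B_apply]
    have : (z' - z).1 = z'.1 - z.1 := rfl
    rw [this, e1, A04_x A (XX g i z' - XX g i z) (z' - z).2.1 (z' - z).2.2]
    field_simp
    ring
  rw [A04_crs_apply, hB, ← e2, ← e3]
  rfl

theorem A04_dist (h : NearD g) (i : Sy) {z z' : Cx d} (hz : z ∈ DX d) (hz' : z' ∈ DX d) :
    ‖A04_up g i z' - A04_up g i z‖ ≤ ‖z' - z‖ := by
  have m0 := (XX_spec h i hz).1
  have m1 := (XX_spec h i hz').1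
  obtain ⟨A, hA, -, -, he, -, -⟩ := near_mean h i m0 m1 m0 m1
  have hd := A04_diff h hA hz hz' he
  have e1 : XX g i z' - XX g i z = A04_B A (z' - z) := by
    have := congrArg Prod.fst hd
    rw [A04_crs_apply] at this
    exact this
  obtain ⟨c1, c2, c3⟩ := A04_compC (z' - z)
  refine A04_leE ?_ c2 c3
  show |XX g i z' - XX g i z| ≤ _
  rw [e1]
  exact A04_Bn hA _

theorem A04_B0 {i : Sy} {A : En d →L[ℝ] En d} (hA : A ∈ CD d i) (u : Cx d) (hu : u.1 = 0) :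
    |(A04_crs A u).1| ≤ ee * ‖u‖ := by
  obtain ⟨c1, c2, c3⟩ := A04_compC u
  obtain ⟨p1, p2, p3⟩ := A04_e0
  obtain ⟨h1, -, h3, -, -, -, h7, -⟩ := hA
  have hn := norm_nonneg u
  have a1 := a04_a h1
  rw [A04_crs_apply]
  show |A04_B A u| ≤ _
  rw [A04_B_apply, hu, mul_comm]
  refine a04_r3 a1 ?_
  have k1 : |(A (eY d)).1.1 * u.2.1| ≤ e0 * ‖u‖ := by
    rw [abs_mul]
    exact mul_le_mul h3 c2 (abs_nonneg _) p1.le
  have k2 : |(A (0, u.2.2)).1.1| ≤ e0 * ‖u‖ :=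
    (norm_fst_le (A (0, u.2.2)).1).trans ((h7 _).trans (mul_le_mul_of_nonneg_left c3 p1.le))
  have k4 := abs_sub (0 - (A (eY d)).1.1 * u.2.1) ((A (0, u.2.2)).1.1)
  have k5 : |0 - (A (eY d)).1.1 * u.2.1| = |(A (eY d)).1.1 * u.2.1| := by
    rw [zero_sub, abs_neg]
  have k6 : 2 * e0 * ‖u‖ ≤ ee * ‖u‖ := mul_le_mul_of_nonneg_right (by linarith) hn
  linarith

/-- `cross_mean` with one more bound (used in A05). -/
theorem A04_mean (h : NearD g) (i : Sy) {z0 z1 z2 z3 : Cx d} (h0 : z0 ∈ DX d) (h1 : z1 ∈ DX d)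
    (h2 : z2 ∈ DX d) (h3 : z3 ∈ DX d) :
    ∃ A A' : Cx d →L[ℝ] ℝ × ℝ × Wd d,
      crT g i z1 - crT g i z0 = A (z1 - z0) ∧ crT g i z3 - crT g i z2 = A' (z3 - z2) ∧
      ‖A - A'‖ ≤ ee * max ‖z2 - z0‖ ‖z3 - z1‖ ∧ ∀ B ∈ ({A, A'} : Set (Cx d →L[ℝ] ℝ × ℝ × Wd d)),
        (|(B (1, 0, 0)).1 - pw i| ≤ ee ∧ |(B (0, 1, 0)).1| ≤ ee ∧
          (∀ w, |(B (0, 0, w)).1| ≤ ee * ‖w‖) ∧
        |(B (1, 0, 0)).2.1| ≤ ee ∧ |(B (0, 1, 0)).2.1 - qw i| ≤ ee ∧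
          (∀ w, |(B (0, 0, w)).2.1| ≤ ee * ‖w‖) ∧
        ‖(B (1, 0, 0)).2.2‖ ≤ ee ∧ ‖(B (0, 1, 0)).2.2‖ ≤ ee ∧
          ∀ w, ‖(B (0, 0, w)).2.2‖ ≤ 1 / 50 * ‖w‖) ∧
        ∀ u : Cx d, u.1 = 0 → |(B u).1| ≤ ee * ‖u‖ := by
  obtain ⟨p1, p2, p3⟩ := A04_e0
  obtain ⟨A, hA, A', hA', e1, e2, e3⟩ := near_mean h i (XX_spec h i h0).1 (XX_spec h i h1).1
    (XX_spec h i h2).1 (XX_spec h i h3).1
  refine ⟨A04_crs A, A04_crs A', A04_diff h hA h0 h1 e1, A04_diff h hA' h2 h3 e2, ?_, ?_⟩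
  · have hM := max_le_max (A04_dist h i h0 h2) (A04_dist h i h1 h3)
    have k1 := A04_crs_dist hA hA'
    have k2 : ‖A - A'‖ ≤ e0 * max ‖z2 - z0‖ ‖z3 - z1‖ :=
      e3.trans (mul_le_mul_of_nonneg_left hM p1.le)
    have k3 : 0 ≤ e0 * max ‖z2 - z0‖ ‖z3 - z1‖ := (norm_nonneg _).trans k2
    rw [p3]
    linarith
  · intro B hB
    rcases hB with rfl | hB
    · exact ⟨A04_bounds hA, A04_B0 hA⟩
    · rw [mem_singleton_iff] at hB
      subst hB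
      exact ⟨A04_bounds hA', A04_B0 hA'⟩


end Pool.Agent.Lib.H37D
end

-- from Lib.H37D.A05
section

/-!
# H37D A05 (size M): the unstable and the stable system of a near map are good

`q0`, `qsum`: `qw P = 1/2`, `qw Q = 499/1000`, `pw P = 4/5`, `pw Q = 199/1000`; `Y0`: `YY_val`, `XX_val` (`off_qw`, `off_pw`, `e0 ≤ ee`); `X0`, `K0`: `XX_int` (`VV_sub_NN`), `YY_int`, `KK_val`.
Mean values: from `cross_mean`, with the components of `A` (compositions with `fst`, `snd`). For the stable system the linear map on `(ℝ × Wd d) × ℝ × Wd 0` is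
`u ↦ A (u.2.1, u.1.1, u.1.2)`, of norm at most that of `A` (the same for differences); `‖((B (0,y,w)).2)‖ ≤ 811/1000 ‖(y,w)‖`; the coordinate in `Wd 0` is `0` (`Subsingleton`).
-/

open Set Filter Topology
open scoped ContDiff

namespace Pool.Agent.Lib.H37D

open Pool.Agent.Lib.H37N

variable {d : ℕ} {g : En d → En d}

/-- the bounds of `cross_mean` -/
def A05_bd (i : Sy) (B : Cx d →L[ℝ] ℝ × ℝ × Wd d) : Prop :=
  |(B (1, 0, 0)).1 - pw i| ≤ ee ∧ |(B (0, 1, 0)).1| ≤ ee ∧ (∀ w, |(B (0, 0, w)).1| ≤ ee * ‖w‖) ∧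
    |(B (1, 0, 0)).2.1| ≤ ee ∧ |(B (0, 1, 0)).2.1 - qw i| ≤ ee ∧
      (∀ w, |(B (0, 0, w)).2.1| ≤ ee * ‖w‖) ∧
    ‖(B (1, 0, 0)).2.2‖ ≤ ee ∧ ‖(B (0, 1, 0)).2.2‖ ≤ ee ∧
      ∀ w, ‖(B (0, 0, w)).2.2‖ ≤ 1 / 50 * ‖w‖

/-- the additional bound of `A04_mean` -/
def A05_b0 (B : Cx d →L[ℝ] ℝ × ℝ × Wd d) : Prop := ∀ u : Cx d, u.1 = 0 → |(B u).1| ≤ ee * ‖u‖

theorem A05_mv (h : NearD g) (i : Sy) {E' Z : Type*} [NormedAddCommGroup E'] [NormedSpace ℝ E']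
    [NormedAddCommGroup Z] [NormedSpace ℝ Z] (T : E' →L[ℝ] Cx d) (hT : ∀ u, ‖T u‖ ≤ ‖u‖)
    (P : ℝ × ℝ × Wd d →L[ℝ] Z) (hP : ∀ v, ‖P v‖ ≤ ‖v‖) (S : Set E')
    (hS : ∀ z ∈ S, T z ∈ DX d) (C : Set (E' →L[ℝ] Z)) (F : E' → Z)
    (hF : ∀ z, F z = P (crT g i (T z)))
    (hC : ∀ B : Cx d →L[ℝ] ℝ × ℝ × Wd d, A05_bd i B → A05_b0 B → (P.comp B).comp T ∈ C) :
    MVd S C F := by
  intro z0 h0 z1 h1 z2 h2 z3 h3
  obtain ⟨A, A', e1, e2, e3, e4⟩ := A04_mean h i (hS z0 h0) (hS z1 h1) (hS z2 h2) (hS z3 h3)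
  refine ⟨(P.comp A).comp T, hC A (e4 A (by simp)).1 (e4 A (by simp)).2, (P.comp A').comp T,
    hC A' (e4 A' (by simp)).1 (e4 A' (by simp)).2, ?_, ?_, ?_⟩
  · rw [hF, hF, ← map_sub, e1, ← map_sub]
    rfl
  · rw [hF, hF, ← map_sub, e2, ← map_sub]
    rfl
  · have k1 : ‖(P.comp A).comp T - (P.comp A').comp T‖ ≤ ‖A - A'‖ := by
      refine ContinuousLinearMap.opNorm_le_bound _ (norm_nonneg _) fun u => ?_
      have : ((P.comp A).comp T - (P.comp A').comp T) u = P ((A - A') (T u)) := by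
        simp
      rw [this]
      exact (hP _).trans (((A - A').le_opNorm _).trans
        (mul_le_mul_of_nonneg_left (hT u) (norm_nonneg _)))
    refine k1.trans (e3.trans (mul_le_mul_of_nonneg_left (max_le_max ?_ ?_) ee_pos.le))
    · rw [← map_sub]
      exact hT _
    · rw [← map_sub]
      exact hT _

theorem A05_lin {Z : Type*} [NormedAddCommGroup Z] [NormedSpace ℝ Z] (B : Cx d →L[ℝ] Z)
    (t s : ℝ) (w : Wd d) : B (t, s, w) = t • B (1, 0, 0) + s • B (0, 1, 0) + B (0, 0, w) := by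
  rw [← map_smul, ← map_smul, ← map_add, ← map_add]
  congr 1
  simp

theorem A05_t {Z : Type*} [NormedAddCommGroup Z] [NormedSpace ℝ Z] (B : Cx d →L[ℝ] Z)
    (t : ℝ) : B (t, 0, 0) = t • B (1, 0, 0) := by
  rw [← map_smul]
  congr 1
  simp

theorem A05_consts (i : Sy) : 19 / 100 ≤ qw i ∧ qw i ≤ 1 / 2 ∧ 19 / 100 ≤ pw i ∧
    pw i ≤ 4 / 5 ∧ ee ≤ 1 / 1000 ∧ 0 < ee := by
  cases i <;> norm_num [qw, pw, ee]

theorem A05_P1 (v : ℝ × ℝ × Wd d) : ‖ContinuousLinearMap.fst ℝ ℝ (ℝ × Wd d) v‖ ≤ ‖v‖ :=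
  norm_fst_le v

theorem A05_P2 (v : ℝ × ℝ × Wd d) :
    ‖((ContinuousLinearMap.fst ℝ ℝ (Wd d)).comp (ContinuousLinearMap.snd ℝ ℝ (ℝ × Wd d))) v‖ ≤
      ‖v‖ :=
  (norm_fst_le v.2).trans (norm_snd_le v)

theorem A05_P3 (v : ℝ × ℝ × Wd d) :
    ‖((ContinuousLinearMap.snd ℝ ℝ (Wd d)).comp (ContinuousLinearMap.snd ℝ ℝ (ℝ × Wd d))) v‖ ≤
      ‖v‖ :=
  (norm_snd_le v.2).trans (norm_snd_le v)

theorem A05_P4 (v : ℝ × ℝ × Wd d) : ‖ContinuousLinearMap.snd ℝ ℝ (ℝ × Wd d) v‖ ≤ ‖v‖ :=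
  norm_snd_le v

/-- the time reversal of the coordinates -/
noncomputable def A05_T (d : ℕ) : (ℝ × Wd d) × ℝ × Wd 0 →L[ℝ] Cx d :=
  ((ContinuousLinearMap.fst ℝ ℝ (Wd 0)).comp
    (ContinuousLinearMap.snd ℝ (ℝ × Wd d) (ℝ × Wd 0))).prod
    (ContinuousLinearMap.fst ℝ (ℝ × Wd d) (ℝ × Wd 0))

theorem A05_T_apply (u : (ℝ × Wd d) × ℝ × Wd 0) : A05_T d u = (u.2.1, u.1) := rfl

theorem A05_T_norm (u : (ℝ × Wd d) × ℝ × Wd 0) : ‖A05_T d u‖ ≤ ‖u‖ := by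
  rw [A05_T_apply, Prod.norm_def]
  exact max_le ((norm_fst_le u.2).trans (norm_snd_le u)) (norm_fst_le u)

theorem A05_II1 (h : NearD g) (i : Sy) {z : Cx d} (hz : z ∈ DX d) : XX g i z ∈ II :=
  (mem_NN.mp (VV_sub_NN i (mem_VVd.mp (XX_spec h i hz).1).1)).1

theorem A05_II2 (h : NearD g) (i : Sy) {z : Cx d} (hz : z ∈ DX d) : YY g i z ∈ II :=
  Ioo_subset_Icc_self (YY_int h i hz)

theorem A05_domV {z : (ℝ × Wd d) × ℝ × Wd 0} (hz : z ∈ (SV g).dom) :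
    A05_T d z ∈ DX d := by
  obtain ⟨h1, h2, -⟩ := hz
  exact ⟨h2, h1.1, h1.2⟩

theorem NearD.good_U (h : NearD g) : (SU g).Good where
  q0 := fun i => by
    obtain ⟨c1, c2, -⟩ := A05_consts i
    exact ⟨c1, c2.trans (by norm_num)⟩
  qsum := by
    show qw Sy.P + qw Sy.Q = 1 - gam
    norm_num [qw, gam]
  X0 := fun i z hz => A05_II1 h i hz
  Y0 := fun i z hz => by
    show |YY g i z - (off qw i + qw i * z.2.1)| ≤ ee
    rw [off_qw]
    exact (YY_val h i hz).trans (by norm_num [e0, ee])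
  K0 := fun i z hz => by
    refine ⟨mem_BW.mpr (KK_int h i hz).le, (KK_val h i hz).trans ?_⟩
    have := mul_le_mul_of_nonneg_right (show aw ≤ 1 / 50 by norm_num [aw]) (norm_nonneg z.2.2)
    have : e0 ≤ ee := by norm_num [e0, ee]
    linarith
  mvX := fun i => by
    refine A05_mv h i (ContinuousLinearMap.id ℝ (Cx d)) (fun u => le_rfl)
      (ContinuousLinearMap.fst ℝ ℝ (ℝ × Wd d)) A05_P1 (SU g).dom (fun z hz => hz) _ _
      (fun z => rfl) ?_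
    rintro B ⟨b1, b2, b3, b4, b5, b6, b7, b8, b9⟩ b10
    refine ⟨fun t => ?_, b2, b3⟩
    show ‖(B (t, 0, 0)).1‖ ≤ 811 / 1000 * ‖t‖
    rw [A05_t]
    show ‖t • (B (1, 0, 0)).1‖ ≤ _
    rw [norm_smul, mul_comm]
    refine mul_le_mul_of_nonneg_right ?_ (norm_nonneg _)
    obtain ⟨-, -, c3, c4, c5, c6⟩ := A05_consts i
    rw [Real.norm_eq_abs, abs_le]
    have := abs_le.mp b1
    constructor <;> linarith [this.1, this.2]
  mvY := fun i => by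
    refine A05_mv h i (ContinuousLinearMap.id ℝ (Cx d)) (fun u => le_rfl)
      ((ContinuousLinearMap.fst ℝ ℝ (Wd d)).comp (ContinuousLinearMap.snd ℝ ℝ (ℝ × Wd d)))
      A05_P2 (SU g).dom (fun z hz => hz) _ _ (fun z => rfl) ?_
    rintro B ⟨b1, b2, b3, b4, b5, b6, b7, b8, b9⟩ b10
    refine ⟨fun t => ?_, b5, b6⟩
    show |(B (t, 0, 0)).2.1| ≤ ee * ‖t‖
    rw [A05_t]
    show |t * (B (1, 0, 0)).2.1| ≤ _
    rw [abs_mul, mul_comm]
    exact mul_le_mul_of_nonneg_right b4 (abs_nonneg _)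
  mvK := fun i => by
    refine A05_mv h i (ContinuousLinearMap.id ℝ (Cx d)) (fun u => le_rfl)
      ((ContinuousLinearMap.snd ℝ ℝ (Wd d)).comp (ContinuousLinearMap.snd ℝ ℝ (ℝ × Wd d)))
      A05_P3 (SU g).dom (fun z hz => hz) _ _ (fun z => rfl) ?_
    rintro B ⟨b1, b2, b3, b4, b5, b6, b7, b8, b9⟩ b10
    refine ⟨fun t => ?_, b8, b9⟩
    show ‖(B (t, 0, 0)).2.2‖ ≤ ee * ‖t‖
    rw [A05_t]
    show ‖t • (B (1, 0, 0)).2.2‖ ≤ _
    rw [norm_smul, mul_comm]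
    exact mul_le_mul_of_nonneg_right b7 (norm_nonneg _)

theorem NearD.good_S (h : NearD g) : (SV g).Good where
  q0 := fun i => by
    obtain ⟨-, -, c1, c2, -⟩ := A05_consts i
    exact ⟨c1, c2.trans (by norm_num)⟩
  qsum := by
    show pw Sy.P + pw Sy.Q = 1 - gam
    norm_num [pw, gam]
  X0 := fun i z hz =>
    ⟨A05_II2 h i (A05_domV hz), mem_BW.mpr (KK_int h i (A05_domV hz)).le⟩
  Y0 := fun i z hz => by
    show |XX g i (A05_T d z) - (off pw i + pw i * (A05_T d z).1)| ≤ ee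
    rw [off_pw]
    exact (XX_val h i (A05_domV hz)).trans (by norm_num [e0, ee])
  K0 := fun i z hz => by
    refine ⟨(RgW 0).zero_mem, ?_⟩
    show ‖(0 : Wd 0)‖ ≤ _
    rw [norm_zero]
    have := norm_nonneg z.2.2
    have := ee_pos
    positivity
  mvX := fun i => by
    refine A05_mv h i (A05_T d) A05_T_norm
      (ContinuousLinearMap.snd ℝ ℝ (ℝ × Wd d)) A05_P4 (SV g).dom (fun z hz => A05_domV hz) _ _
      (fun z => rfl) ?_
    rintro B ⟨b1, b2, b3, b4, b5, b6, b7, b8, b9⟩ b10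
    obtain ⟨c1, c2, c3, c4, c5, c6⟩ := A05_consts i
    refine ⟨fun u => ?_, ?_, fun v => ?_⟩
    · show ‖(B (0, u.1, u.2)).2‖ ≤ 811 / 1000 * ‖u‖
      have hu1 : |u.1| ≤ ‖u‖ := norm_fst_le u
      have hu2 : ‖u.2‖ ≤ ‖u‖ := norm_snd_le u
      have hu := norm_nonneg u
      rw [A05_lin, zero_smul, zero_add, Prod.norm_def]
      refine max_le ?_ ?_
      · show |u.1 * (B (0, 1, 0)).2.1 + (B (0, 0, u.2)).2.1| ≤ _
        have k1 : |u.1 * (B (0, 1, 0)).2.1| ≤ ‖u‖ * (501 / 1000) := by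
          rw [abs_mul]
          refine mul_le_mul hu1 ?_ (abs_nonneg _) hu
          rw [abs_le]
          have := abs_le.mp b5
          constructor <;> linarith [this.1, this.2]
        have k2 : |(B (0, 0, u.2)).2.1| ≤ 1 / 1000 * ‖u‖ :=
          (b6 u.2).trans (mul_le_mul c5 hu2 (norm_nonneg _) (by norm_num))
        refine (abs_add_le _ _).trans ?_
        linarith
      · show ‖u.1 • (B (0, 1, 0)).2.2 + (B (0, 0, u.2)).2.2‖ ≤ _
        have k1 : ‖u.1 • (B (0, 1, 0)).2.2‖ ≤ ‖u‖ * (1 / 1000) := by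
          rw [norm_smul]
          exact mul_le_mul hu1 (b8.trans c5) (norm_nonneg _) hu
        have k2 : ‖(B (0, 0, u.2)).2.2‖ ≤ 1 / 50 * ‖u‖ :=
          (b9 u.2).trans (mul_le_mul_of_nonneg_left hu2 (by norm_num))
        refine (norm_add_le _ _).trans ?_
        linarith
    · show ‖(B (1, 0, 0)).2‖ ≤ ee
      rw [Prod.norm_def]
      exact max_le b4 b7
    · show ‖(B (0, 0)).2‖ ≤ ee * ‖v‖
      have : ((0, 0) : Cx d) = 0 := rfl
      rw [this, map_zero, Prod.snd_zero, norm_zero]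
      exact mul_nonneg c6.le (norm_nonneg _)
  mvY := fun i => by
    refine A05_mv h i (A05_T d) A05_T_norm
      (ContinuousLinearMap.fst ℝ ℝ (ℝ × Wd d)) A05_P1 (SV g).dom (fun z hz => A05_domV hz) _ _
      (fun z => rfl) ?_
    rintro B ⟨b1, b2, b3, b4, b5, b6, b7, b8, b9⟩ b10
    obtain ⟨c1, c2, c3, c4, c5, c6⟩ := A05_consts i
    refine ⟨fun u => ?_, b1, fun v => ?_⟩
    · exact b10 (0, u.1, u.2) rfl |>.trans (mul_le_mul_of_nonneg_left (by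
        rw [Prod.norm_def]
        exact max_le (by simp) le_rfl) c6.le)
    · show |(B (0, 0)).1| ≤ ee * ‖v‖
      have : ((0, 0) : Cx d) = 0 := rfl
      rw [this, map_zero, Prod.fst_zero, abs_zero]
      exact mul_nonneg c6.le (norm_nonneg _)
  mvK := fun i => by
    intro z0 h0 z1 h1 z2 h2 z3 h3
    have hC : (0 : (ℝ × Wd d) × ℝ × Wd 0 →L[ℝ] Wd 0) ∈
        {A : (ℝ × Wd d) × ℝ × Wd 0 →L[ℝ] Wd 0 | (∀ h, ‖A (h, 0, 0)‖ ≤ ee * ‖h‖) ∧
        ‖A (0, 1, 0)‖ ≤ ee ∧ ∀ v, ‖A (0, 0, v)‖ ≤ 1 / 50 * ‖v‖} := by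
      refine ⟨fun u => ?_, ?_, fun v => ?_⟩
      · rw [zero_apply, norm_zero]
        exact mul_nonneg ee_pos.le (norm_nonneg _)
      · rw [zero_apply, norm_zero]
        exact ee_pos.le
      · rw [zero_apply, norm_zero]
        exact mul_nonneg (by norm_num) (norm_nonneg _)
    refine ⟨0, hC, 0, hC, ?_, ?_, ?_⟩
    · show (0 : Wd 0) - 0 = _
      rw [zero_apply, sub_self]
    · show (0 : Wd 0) - 0 = _
      rw [zero_apply, sub_self]
    · rw [sub_self, norm_zero]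
      exact mul_nonneg ee_pos.le (le_max_of_le_left (norm_nonneg _))

end Pool.Agent.Lib.H37D
end
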