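import Pool.Agent.Lib.H1M.FF.M003
import Pool.Agent.Lib.H1M.FF.M012
import Pool.Agent.Lib.H1M.FF.M018
import Pool.Agent.Lib.H1M.FF.M019
import Pool.Agent.Lib.H1M.FF.M024

/-! Merged copies (to shorten the build) of Lib.H37D.CDefsD, Lib.H37D.DC01, Lib.H37P.KDefs, Lib.H37D.PDefs, Lib.H37D.DB08b, Lib.H37D.IDefs, Lib.H37D.DB15. -/

-- from Lib.H37D.CDefsD
section

/-!
# H37D, section C: tangency data, places (definitions)
-/

open Set Filter Topology Asymptotics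
open scoped ContDiff

namespace Pool.Agent.Lib.H37D

open Pool.Agent.Lib.H37N

noncomputable section

variable {d : ℕ}

/-- the transition from the unstable axis of `P` to the stable hyperplane of `Q` in the charts -/
def SSD (g : En d → En d) (s : FrD d) (v : En d) : En d := SMD g (s.κ Sy.P) (s.c Sy.Q) s.kS s.uS v

/-- the map from the chart at `Q` to the point after `k` steps -/
def InD (g : En d → En d) (s : FrD d) (b : ℝ) (k : ℕ) (v : En d) : En d :=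
  g^[k] (s.κ Sy.Q ((v.1.1, b + v.1.2), v.2))

/-- the chart coordinates at `P` after `l` steps -/
def PlD (g : En d → En d) (s : FrD d) (l : ℕ) (w : En d) : En d := s.c Sy.P (g^[l] w)

/-- the transition map from the chart at `Q` to the chart at `P` -/
def TTD (g : En d → En d) (s : FrD d) (b : ℝ) (k l : ℕ) (v : En d) : En d :=
  PlD g s l (g (InD g s b k v))

/-- `g' = g` off `Z` -/
def EqOffD (Z : Set (En d)) (g g' : En d → En d) : Prop :=
  ∀ z ∈ Dd d, z ∉ Z → g' z = g z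

/-- a tangency of order (at least) `m` between the unstable manifold of `Q` and the stable manifold of
`P`, which visits the fold region only in the open set `Z` -/
structure TDD (g : En d → En d) (s : FrD d) (Z : Set (En d)) (m : ℕ) (b a : ℝ) (wT : Wd d) (k l : ℕ) :
    Prop where
  openZ : IsOpen Z
  subZ : Z ⊆ interior (FFd d)
  b_pos : 0 < |b|
  b_lt : |b| < 1
  a_lt : |a| < 1
  w_lt : ‖wT‖ < 1
  path1 : ∀ i ≤ k, InD g s b i 0 ∈ VOD d ∪ Z
  memZ : InD g s b k 0 ∈ Z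
  dist : ∀ i < k, InD g s b i 0 ≠ InD g s b k 0
  path2 : ∀ i ≤ l, g^[i] (g (InD g s b k 0)) ∈ VOD d
  fin : g^[l] (g (InD g s b k 0)) = s.κ Sy.P ((a, 0), wT)
  ord : (fun t : ℝ => (TTD g s b k l ((0, t), 0)).1.2) =O[𝓝 0] fun t => |t| ^ (m + 1)

/-- a place where the map can be perturbed: the chart coordinates `PlD` identify the open set `D` with
the ball of radius `r` around `((a,0),wT)`; the orbits of the points of `B` in the chart at `Q` enter
`D` exactly at the time `k + 1` -/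
structure PlaceD (g : En d → En d) (s : FrD d) (Z : Set (En d)) (b a : ℝ) (wT : Wd d) (k l : ℕ) (r : ℝ)
    (D B : Set (En d)) (Li : En d → En d) : Prop where
  r_pos : 0 < r
  r_lt : |a| + r < 1
  r_ltw : ‖wT‖ + r < 1
  openD : IsOpen D
  subD : D ⊆ g '' Z
  compD : ∃ C : Set (En d), IsCompact C ∧ D ⊆ C ∧ C ⊆ K0D d ∧ C ⊆ g '' Z
  Pl_mem : ∀ w ∈ D, PlD g s l w ∈ Metric.ball (((a, 0), wT) : En d) r
  Li_Pl : ∀ w ∈ D, Li (PlD g s l w) = w
  Li_mem : ∀ v ∈ Metric.ball (((a, 0), wT) : En d) r, Li v ∈ D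
  Pl_Li : ∀ v ∈ Metric.ball (((a, 0), wT) : En d) r, PlD g s l (Li v) = v
  smLi : ContDiffOn ℝ ∞ Li (Metric.ball (((a, 0), wT) : En d) r)
  smPl : ContDiffOn ℝ ∞ (PlD g s l) D
  path : ∀ w ∈ D, ∀ i ≤ l, g^[i] w ∈ VOD d
  land : ∀ w ∈ D, g^[l] w = s.κ Sy.P (PlD g s l w)
  nhB : B ∈ 𝓝 (0 : En d)
  boxB : ∀ v ∈ B, |v.1.1| < 1 ∧ |b + v.1.2| < 1 ∧ ‖v.2‖ < 1
  pathB : ∀ v ∈ B, ∀ i ≤ k, InD g s b i v ∈ VOD d ∪ Z
  notD : ∀ v ∈ B, ∀ i < k, g (InD g s b i v) ∉ D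
  inD : ∀ v ∈ B, g (InD g s b k v) ∈ D
  TB : ∀ v ∈ B, TTD g s b k l v ∈ Metric.ball (((a, 0), wT) : En d) (r / 2)

/-- an admissible perturbation at the place -/
def AdmD (D : Set (En d)) (ψ : En d → En d) : Prop := (∀ w ∉ D, ψ w = w) ∧ ∀ w ∈ D, ψ w ∈ D

end

end Pool.Agent.Lib.H37D
end

-- from Lib.H37D.DC01
section

/-!
# H37D DC01 (size M): iterates along orbits in `Omd`
-/

open Set Filter Topology Asymptotics
open scoped ContDiff

namespace Pool.Agent.Lib.H37D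

open Pool.Agent.Lib.H37N

variable {d : ℕ} {g : En d → En d}

theorem NearD.contDiffAt_Omd (h : NearD g) {z : En d} (hz : z ∈ Omd d) :
    ∀ᶠ w in 𝓝 z, ContDiffAt ℝ ∞ g w := by
  obtain ⟨O, hO, hsub, hs, -, -⟩ := h.smooth
  filter_upwards [hO.mem_nhds (hsub (Omd_sub hz))] with w hw
  exact hs.contDiffAt (hO.mem_nhds hw)

theorem NearD.bij_Omd (h : NearD g) {z : En d} (hz : z ∈ Omd d) : Function.Bijective (fderiv ℝ g z) := by
  obtain ⟨O, hO, hsub, hs, -, hj⟩ := h.smooth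
  exact hj z (hsub (Omd_sub hz))

theorem NearD.iter_Omd (h : NearD g) (n : ℕ) {z : En d} (hz : ∀ j < n, g^[j] z ∈ Omd d) :
    ∀ᶠ w in 𝓝 z, ContDiffAt ℝ ∞ (g^[n]) w ∧ ∀ j < n, g^[j] w ∈ Omd d := by
  induction n with
  | zero =>
    refine Eventually.of_forall fun w => ⟨?_, fun j hj => absurd hj (Nat.not_lt_zero j)⟩
    exact contDiffAt_id
  | succ n ih =>
    have ih' := ih fun j hj => hz j (hj.trans (Nat.lt_succ_self n))
    have hc : ContinuousAt (g^[n]) z := ih'.self_of_nhds.1.continuousAt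
    have hV : ∀ᶠ w in 𝓝 z, g^[n] w ∈ Omd d :=
      hc.eventually_mem (isOpen_Omd.mem_nhds (hz n (Nat.lt_succ_self n)))
    filter_upwards [ih', hV] with w hw hw'
    refine ⟨?_, fun j hj => ?_⟩
    · rw [Function.iterate_succ']
      exact (h.contDiffAt_Omd hw').self_of_nhds.comp w hw.1
    · rcases Nat.lt_succ_iff_lt_or_eq.1 hj with h' | rfl
      · exact hw.2 j h'
      · exact hw'

/-- the same with `VOD` -/
theorem NearD.iter_VOD (h : NearD g) (n : ℕ) {z : En d} (hz : ∀ j < n, g^[j] z ∈ VOD d) :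
    ∀ᶠ w in 𝓝 z, ContDiffAt ℝ ∞ (g^[n]) w ∧ ∀ j < n, g^[j] w ∈ VOD d := by
  induction n with
  | zero =>
    refine Eventually.of_forall fun w => ⟨?_, fun j hj => absurd hj (Nat.not_lt_zero j)⟩
    exact contDiffAt_id
  | succ n ih =>
    have ih' := ih fun j hj => hz j (hj.trans (Nat.lt_succ_self n))
    have hc : ContinuousAt (g^[n]) z := ih'.self_of_nhds.1.continuousAt
    have hV : ∀ᶠ w in 𝓝 z, g^[n] w ∈ VOD d :=
      hc.eventually_mem (isOpen_VOD.mem_nhds (hz n (Nat.lt_succ_self n)))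
    filter_upwards [ih', hV] with w hw hw'
    refine ⟨?_, fun j hj => ?_⟩
    · rw [Function.iterate_succ']
      exact (h.contDiffAt_Omd (VOD_sub_Omd hw')).self_of_nhds.comp w hw.1
    · rcases Nat.lt_succ_iff_lt_or_eq.1 hj with h' | rfl
      · exact hw.2 j h'
      · exact hw'

theorem dc01_iter_eq {g g' : En d → En d} {n : ℕ} (he : ∀ z ∈ VOD d, g' z = g z) {z : En d}
    (hz : ∀ j < n, g^[j] z ∈ VOD d) : ∀ j ≤ n, g'^[j] z = g^[j] z := by
  intro j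
  induction j with
  | zero => intro _; rfl
  | succ j ih =>
    intro hj
    rw [Function.iterate_succ_apply', Function.iterate_succ_apply', ih (by omega),
      he _ (hz j (by omega))]

end Pool.Agent.Lib.H37D
end

-- from Lib.H37P.KDefs
section

/-!
# H37N: flat arcs and the blocks of Stage II (definitions)

`n = e + 3`, `N = nb e = 2 (e + 3)` blocks.
Parameters `ε : Fin 6 → ℝ`: `ε 0 = ε1`, `ε 1 = ε2`, `ε 2 = ε4`, `ε 3 = 1/E`, `ε 4 = ξ⁰`, `ε 5 = B - B0`.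
-/

open Set Filter Topology Asymptotics
open scoped ContDiff

namespace Pool.Agent.Lib.H37N

noncomputable section

/-- the parameters of a pass -/
abbrev E6 : Type := Fin 6 → ℝ


/-- the Jacobian of the ideal block, up to a constant factor -/
def hG (A : Pt → ℝ) (Mh : ℝ × Pt → ℝ) (U : ℝ) : ℝ :=
  -(deriv (fun t => A (0, t)) U * Mh (0, (0, U)))

/-- first coordinate of the block (before the correction) -/
def bX (f : PF) (a b B0 : ℝ) (A : Pt → ℝ) (z : E6 × Pt) : ℝ :=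
  a + A (z.1 4 + z.1 3 * XiF f b (z.1 0) (z.1 1) (z.1 2) (B0 + z.1 5) z.2.1 z.2.2,
    etaF f b (z.1 0) (z.1 1) z.2.1 z.2.2)

/-- second coordinate of the block (before the correction) -/
def bU (f : PF) (b B0 : ℝ) (Mh : ℝ × Pt → ℝ) (z : E6 × Pt) : ℝ :=
  XiF f b (z.1 0) (z.1 1) (z.1 2) (B0 + z.1 5) z.2.1 z.2.2 *
    Mh (z.1 4, (z.1 3 * XiF f b (z.1 0) (z.1 1) (z.1 2) (B0 + z.1 5) z.2.1 z.2.2,
      etaF f b (z.1 0) (z.1 1) z.2.1 z.2.2))

/-- the number of blocks -/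
abbrev nb (e : ℕ) : ℕ := 2 * (e + 3)

/-- the base points (in the zoomed coordinate), periodic with sum zero and gaps at least `1` -/
def dj (e j : ℕ) : ℝ := ((j % nb e : ℕ) : ℝ) - ((nb e : ℝ) - 1) / 2

/-- the coefficient of the ideal blocks -/
def ttc (e : ℕ) : ℝ := 2 * Real.cos (sth (e + 3))

/-- the polynomial of the block `j` -/
def qpoly (e : ℕ) (q : QQ (e + 3) e) (j : ℕ) (u : ℝ) : ℝ :=
  ∑ i ∈ Finset.range (e + 1), qx q j i * u ^ i

/-- the zoomed correction of the block `j` -/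
def qt (e : ℕ) (τ : ℝ) (q : QQ (e + 3) e) (j : ℕ) (w : ℝ) : ℝ :=
  dj e j - τ * dj e (j + 1) + dj e (j + 2) + (ttc e - τ) * w + qpoly e q j w

/-- the correction of the block `j` -/
def Qj (e : ℕ) (a hs c0 τ ρ : ℝ) (q : QQ (e + 3) e) (j : ℕ) (X : ℝ) : ℝ :=
  -c0 + ρ * qt e τ q j ((X - a) / (ρ * hs) - dj e (j + 1))



end

end Pool.Agent.Lib.H37N
end

-- from Lib.H37D.PDefs
section

/-!
# H37D: the pass from the chart at `P` to the chart at `Q` (definitions)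

Coordinates of a point at `P`: `z = ((X, U), w)`, the chart coordinates are `((X, y), w)`, `y = yFD ..`.
Parameters `ε : EP d = (Fin 6 → ℝ) × (Fin 7 → Wd d)`:
`ε.1 0 = ε1 = λ_P^n`, `ε.1 1 = ε2 = μ_Q^(-m)/d_S`, `ε.1 2 = ε4 = μ_P^n λ_Q^m`, `ε.1 3 = 1/E`, `ε.1 4 = ξ⁰`, `ε.1 5 = B - B0`;
`ε.2 0 = α_P^n`, `ε.2 1 = E λ_Q^m α_P^n`, `ε.2 2 = w⁰ = α_Q^m w_S`, `ε.2 3 = E λ_P^n α_Q^m`, `ε.2 4 = μ_P^n α_Q^m`,
`ε.2 5 = μ_Q^m α_Q^m`, `ε.2 6 = μ_P^n α_P^n`. All tend to `0` along the sequences of the density lemma.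
-/

open Set Filter Topology Asymptotics
open scoped ContDiff

namespace Pool.Agent.Lib.H37D

open Pool.Agent.Lib.H37N

noncomputable section

variable {d : ℕ}

/-- `d_S`, the derivative of the second coordinate of the connection along the unstable axis -/
def dSD (g : En d → En d) (s : FrD d) : ℝ := (fderiv ℝ (SSD g s) 0 ((0, 1), 0)).1.2

/-- the functions of the pass, arguments `((σ, t), w)` -/
structure PFD (d : ℕ) where
  Th : ℝ × Wd d → ℝ
  W : En d → ℝ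
  Y1 : ℝ × Wd d → ℝ
  Y2 : En d → ℝ
  Y3 : Wd d → (Wd d →L[ℝ] ℝ)
  Z1 : En d → Wd d
  Z2 : En d → Wd d
  Z3 : En d → (Wd d →L[ℝ] Wd d)

/-- smoothness and normalisation of the functions of the pass -/
structure SmPFD (f : PFD d) : Prop where
  smTh : ContDiff ℝ ∞ f.Th
  smW : ContDiff ℝ ∞ f.W
  smY1 : ContDiff ℝ ∞ f.Y1
  smY2 : ContDiff ℝ ∞ f.Y2
  smY3 : ContDiff ℝ ∞ f.Y3
  smZ1 : ContDiff ℝ ∞ f.Z1
  smZ2 : ContDiff ℝ ∞ f.Z2
  smZ3 : ContDiff ℝ ∞ f.Z3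
  Th0 : f.Th (0, 0) = 0
  W0 : f.W ((0, 0), 0) = 1

/-- the functions of `f` belong to `g, s` -/
structure IsPFD (g : En d → En d) (s : FrD d) (f : PFD d) (r : ℝ) : Prop extends SmPFD f where
  r_pos : 0 < r
  Y10 : f.Y1 (0, 0) = pjac (SSD g s) 0 / dSD g s
  snd : ∀ (σ t : ℝ) (w : Wd d), |σ| < r → |t| < r → ‖w‖ < r →
    (SSD g s ((σ, f.Th (σ, w) + t), w)).1.2 = dSD g s * t * f.W ((σ, t), w)
  fst : ∀ (σ t : ℝ) (w : Wd d), |σ| < r → |t| < r → ‖w‖ < r →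
    (SSD g s ((σ, f.Th (σ, w) + t), w)).1.1 =
      s.sS + σ * f.Y1 (σ, w) + t * f.Y2 ((σ, t), w) + f.Y3 w w
  thd : ∀ (σ t : ℝ) (w : Wd d), |σ| < r → |t| < r → ‖w‖ < r →
    (SSD g s ((σ, f.Th (σ, w) + t), w)).2 =
      s.wS + σ • f.Z1 ((σ, t), w) + t • f.Z2 ((σ, t), w) + f.Z3 ((σ, t), w) w

/-- the large factor `E = d_S μ_P^n μ_Q^m` -/
def EED (g : En d → En d) (s : FrD d) (n m : ℕ) : ℝ := dSD g s * s.mu Sy.P ^ n * s.mu Sy.Q ^ m
/-- `ε1 = λ_P^n` -/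
def e1D (s : FrD d) (n : ℕ) : ℝ := s.lam Sy.P ^ n
/-- `ε2 = μ_Q^(-m) / d_S` -/
def e2D (g : En d → En d) (s : FrD d) (m : ℕ) : ℝ := 1 / (dSD g s * s.mu Sy.Q ^ m)
/-- `ε4 = μ_P^n λ_Q^m` -/
def e4D (s : FrD d) (n m : ℕ) : ℝ := s.mu Sy.P ^ n * s.lam Sy.Q ^ m
/-- `ξ⁰ = λ_Q^m s_S` -/
def xi0D (s : FrD d) (m : ℕ) : ℝ := s.lam Sy.Q ^ m * s.sS
/-- `B = d_S (λ_P μ_P)^n (λ_Q μ_Q)^m` -/
def BBD (g : En d → En d) (s : FrD d) (n m : ℕ) : ℝ :=
  dSD g s * (s.lam Sy.P * s.mu Sy.P) ^ n * (s.lam Sy.Q * s.mu Sy.Q) ^ m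
/-- `w⁰ = α_Q^m w_S` -/
def w0D (s : FrD d) (m : ℕ) : Wd d := mulw (s.al Sy.Q ^ m) s.wS

/-- the parameters of a pass -/
abbrev EP (d : ℕ) : Type := E6 × (Fin 7 → Wd d)

/-- the vector parameters of the pass with `n, m` turns -/
def epsW (g : En d → En d) (s : FrD d) (n m : ℕ) : Fin 7 → Wd d :=
  ![s.al Sy.P ^ n, (EED g s n m * s.lam Sy.Q ^ m) • s.al Sy.P ^ n, w0D s m,
    (EED g s n m * s.lam Sy.P ^ n) • s.al Sy.Q ^ m, s.mu Sy.P ^ n • s.al Sy.Q ^ m,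
    s.mu Sy.Q ^ m • s.al Sy.Q ^ m, s.mu Sy.P ^ n • s.al Sy.P ^ n]

/-- the parameters of the pass with `n, m` turns -/
def epsD (g : En d → En d) (s : FrD d) (B0 : ℝ) (n m : ℕ) : EP d :=
  (![e1D s n, e2D g s m, e4D s n m, (EED g s n m)⁻¹, xi0D s m, BBD g s n m - B0], epsW g s n m)

/-- the argument of the functions of the pass -/
def argF (b : ℝ) (ε : EP d) (z : En d) : En d :=
  ((ε.1 0 * z.1.1, ε.1 1 * (z.1.2 + b)), mulw (ε.2 0) z.2)

/-- the unstable coordinate at the entrance of `P` -/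
def yFD (s : FrD d) (f : PFD d) (b E mn ε1 : ℝ) (eV : Wd d) (z : En d) : ℝ :=
  (z.1.2 + b) / E + (s.uS + f.Th (ε1 * z.1.1, mulw eV z.2)) / mn

/-- the unstable coordinate at the exit of `Q`, minus `b` -/
def etaFD (f : PFD d) (b : ℝ) (ε : EP d) (z : En d) : ℝ := (z.1.2 + b) * f.W (argF b ε z) - b

/-- the rescaled stable coordinate at the exit of `Q` -/
def XiFD (f : PFD d) (b B0 : ℝ) (ε : EP d) (z : En d) : ℝ :=
  (B0 + ε.1 5) * z.1.1 * f.Y1 (ε.1 0 * z.1.1, mulw (ε.2 0) z.2) +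
    ε.1 2 * (z.1.2 + b) * f.Y2 (argF b ε z) + f.Y3 (mulw (ε.2 0) z.2) (mulw (ε.2 1) z.2)

/-- the rescaled strongly stable coordinates at the exit of `Q` -/
def OmFD (f : PFD d) (b dS : ℝ) (ε : EP d) (z : En d) : Wd d :=
  z.1.1 • mulw (ε.2 3) (f.Z1 (argF b ε z)) + (z.1.2 + b) • mulw (ε.2 4) (f.Z2 (argF b ε z)) +
    dS • mulw (ε.2 5) (f.Z3 (argF b ε z) (mulw (ε.2 6) z.2))

/-- the chart coordinates (relative to `(0,b)`) at the exit of `Q`; `i3 = 1/E` -/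
def exD (f : PFD d) (b B0 dS i3 : ℝ) (ε : EP d) (z : En d) : En d :=
  ((ε.1 4 + i3 * XiFD f b B0 ε z, etaFD f b ε z), ε.2 2 + i3 • OmFD f b dS ε z)

/-- chart coordinates at `P` of the point with the coordinates `z = ((X,U),w)` -/
def YcD (g : En d → En d) (s : FrD d) (f : PFD d) (b : ℝ) (n m : ℕ) (z : En d) : En d :=
  ((z.1.1, yFD s f b (EED g s n m) (s.mu Sy.P ^ n) (e1D s n) (s.al Sy.P ^ n) z), z.2)

end

end Pool.Agent.Lib.H37D
end

-- from Lib.H37D.DB08b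
section

/-! # H37D, chunk DB08b (M): from a germ to a chart on the box (port of H37N/B08.lean) -/

open Set Filter Topology
open scoped ContDiff

namespace Pool.Agent.Lib.H37D

open Pool.Agent.Lib.H37N

variable {d : ℕ}

theorem db08b_norm {v : En d} (hv : v ∈ BxD d) : ‖v‖ < 2 := by
  rw [Prod.norm_def]
  refine max_lt (b08_norm hv.1) ?_
  exact mem_ball_zero_iff.1 hv.2

theorem db08b_fderiv {κ₀ : En d → En d} (hκ : ContDiff ℝ ∞ κ₀) (r : ℝ) (v : En d) :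
    fderiv ℝ (fun v => κ₀ (r • v)) v = r • fderiv ℝ κ₀ (r • v) := by
  have h1 : HasFDerivAt (fun v : En d => r • v) (r • ContinuousLinearMap.id ℝ (En d)) v :=
    (hasFDerivAt_id v).const_smul r
  have h2 : HasFDerivAt κ₀ (fderiv ℝ κ₀ (r • v)) (r • v) :=
    (hκ.differentiable (by simp) _).hasFDerivAt
  have h3 : fderiv ℝ (fun v => κ₀ (r • v)) v =
      (fderiv ℝ κ₀ (r • v)).comp (r • ContinuousLinearMap.id ℝ (En d)) := (h2.comp v h1).fderiv
  rw [h3]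
  refine ContinuousLinearMap.ext fun w => ?_
  simp only [ContinuousLinearMap.comp_apply, smul_apply,
    ContinuousLinearMap.id_apply, map_smul]

theorem db08b_slp (K : En d →L[ℝ] En d) (s : Wd d →L[ℝ] Pt) (r : ℝ) :
    slp (r • K) s = r • slp K s := by
  refine ContinuousLinearMap.ext fun z => ?_
  rw [slp_apply, smul_apply, smul_apply, slp_apply, Prod.smul_fst, Prod.smul_snd, map_smul,
    smul_sub]

theorem db08b_det2 (M : Pt →L[ℝ] Pt) (r : ℝ) : det2 (r • M) = r ^ 2 * det2 M := by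
  simp only [det2, smul_apply, Prod.smul_fst, Prod.smul_snd, smul_eq_mul]
  ring

theorem db08b_bij {K : En d →L[ℝ] En d} (hK : Function.Bijective K) {r : ℝ} (hr : r ≠ 0) :
    Function.Bijective (r • K : En d →L[ℝ] En d) := by
  constructor
  · intro v w hvw
    simp only [smul_apply] at hvw
    exact hK.1 (smul_right_injective (En d) hr hvw)
  · intro w
    obtain ⟨v, hv⟩ := hK.2 (r⁻¹ • w)
    refine ⟨v, ?_⟩
    simp only [smul_apply]
    rw [hv, smul_smul, mul_inv_cancel₀ hr, one_smul]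

/-- PROOF. As `chart_of_germ` in H37N/B08.lean.  fderiv κ₀ 0 = C is bijective; `inverse_fun`: c₀ smooth, c₀ (κ₀ v) = v for v near 0, κ₀ (c₀ w) = w for w in an open N containing κ₀ 0.
Choose r in (0,1) such that for all u with ‖u‖ < 3 r: c₀ (κ₀ u) = u, κ₀ u ∈ N, κ₀ u ∈ interior (VV i) × ball 0 1 (open), g (κ₀ u) = κ₀ (dgD lam mu al u), and K = fderiv κ₀ u is bijective and satisfies
the two sign conditions of `sgn_open` (fderiv κ₀ is continuous).  κ v = κ₀ (r • v), c w = r⁻¹ • c₀ w.  BxD d is in the ball of radius 2 (sup norm).  fderiv κ v = r • fderiv κ₀ (r • v) (chain rule):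
bijective (r ≠ 0), slp (r • K) s = r • slp K s, det2 (r • M) = r^2 det2 M > 0, and the slope condition does not change.  isOpen: κ '' BxD = N ∩ {w | c w ∈ BxD}.  sgn2 at z = κ v: D = fderiv c z satisfies
D (fderiv κ v u) = u (differentiate c (κ v') = v' for v' near v, BxD is open), `sgn2_of`.  lin: |y| < 2 because |mu y| < 2 and mu > 1, the point r • ((x,y),w) has norm < 2 r, and
dgD lam mu al (r • v) = r • dgD lam mu al v. -/
theorem chart_of_germD {g : En d → En d} {i : Sy} {κ₀ : En d → En d} (hκ : ContDiff ℝ ∞ κ₀)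
    (h0 : κ₀ 0 ∈ interior (VV i) ×ˢ Metric.ball (0 : Wd d) 1) (C : En d ≃L[ℝ] En d)
    (hC : fderiv ℝ κ₀ 0 = (C : En d →L[ℝ] En d))
    (h1 : ∀ s : Wd d →L[ℝ] Pt, ‖s‖ ≤ 1 / 10 ^ 8 → 0 < det2 (slp (C : En d →L[ℝ] En d) s))
    (h2 : ∀ w : Wd d, ‖(C (0, w)).1‖ ≤ 1 / 10 ^ 9 * ‖(C (0, w)).2‖)
    {lam mu : ℝ} {al : Wd d} (hlam : lam ∈ Ioo (49 / 100 : ℝ) (51 / 100)) (hmu : mu ∈ muR i)
    (hal : ∀ k, al k ∈ Ioo (89 / 10 ^ 9 : ℝ) (101 / 10 ^ 9))
    (hconj : ∀ᶠ v in 𝓝 (0 : En d), g (κ₀ v) = κ₀ (dgD lam mu al v)) :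
    ∃ κ c : En d → En d, LinChartD g i κ c lam mu al := by
  have hbij : Function.Bijective (fderiv ℝ κ₀ 0) := by
    rw [hC]
    exact C.bijective
  obtain ⟨c₀, hc, -, hl, hr⟩ := inverse_fun (f := κ₀) (x₀ := (0 : En d))
    (Eventually.of_forall fun x => hκ.contDiffAt) hbij
  obtain ⟨N, hNe, hNo, hN0⟩ := eventually_nhds_iff.1 hr
  have hfc : Continuous (fderiv ℝ κ₀) := hκ.continuous_fderiv (by simp)
  have hsg := sgn_open C h1 h2
  rw [← hC] at hsg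
  have hVo : IsOpen (interior (VV i) ×ˢ Metric.ball (0 : Wd d) 1) :=
    isOpen_interior.prod Metric.isOpen_ball
  have hev : ∀ᶠ u in 𝓝 (0 : En d), c₀ (κ₀ u) = u ∧ κ₀ u ∈ N ∧
      (Function.Bijective (fderiv ℝ κ₀ u) ∧
      (∀ s : Wd d →L[ℝ] Pt, ‖s‖ ≤ 1 / 10 ^ 8 → 0 < det2 (slp (fderiv ℝ κ₀ u) s)) ∧
      ∀ w : Wd d, ‖((fderiv ℝ κ₀ u) (0, w)).1‖ ≤ 1 / 10 ^ 8 * ‖((fderiv ℝ κ₀ u) (0, w)).2‖) ∧
      κ₀ u ∈ interior (VV i) ×ˢ Metric.ball (0 : Wd d) 1 ∧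
      g (κ₀ u) = κ₀ (dgD lam mu al u) := by
    filter_upwards [hl, hκ.continuous.continuousAt.eventually (hNo.mem_nhds hN0),
      hfc.continuousAt.eventually hsg,
      hκ.continuous.continuousAt.eventually (hVo.mem_nhds h0), hconj] with u h1 h2 h3 h4 h5
    exact ⟨h1, h2, h3, h4, h5⟩
  obtain ⟨δ, hδ, hδe⟩ := Metric.eventually_nhds_iff.1 hev
  have hr0 : 0 < δ / 3 := by positivity
  set r := δ / 3 with hrdef
  have hbig : ∀ v : En d, ‖v‖ < 2 → c₀ (κ₀ (r • v)) = r • v ∧ κ₀ (r • v) ∈ N ∧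
      (Function.Bijective (fderiv ℝ κ₀ (r • v)) ∧
      (∀ s : Wd d →L[ℝ] Pt, ‖s‖ ≤ 1 / 10 ^ 8 → 0 < det2 (slp (fderiv ℝ κ₀ (r • v)) s)) ∧
      ∀ w : Wd d, ‖((fderiv ℝ κ₀ (r • v)) (0, w)).1‖ ≤
        1 / 10 ^ 8 * ‖((fderiv ℝ κ₀ (r • v)) (0, w)).2‖) ∧
      κ₀ (r • v) ∈ interior (VV i) ×ˢ Metric.ball (0 : Wd d) 1 ∧
      g (κ₀ (r • v)) = κ₀ (dgD lam mu al (r • v)) := by
    intro v hv
    refine hδe ?_
    rw [dist_zero_right, norm_smul, Real.norm_of_nonneg hr0.le]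
    have : r * ‖v‖ < r * 2 := mul_lt_mul_of_pos_left hv hr0
    linarith
  have hleft : ∀ v ∈ BxD d, r⁻¹ • c₀ (κ₀ (r • v)) = v := by
    intro v hv
    rw [(hbig v (db08b_norm hv)).1, smul_smul, inv_mul_cancel₀ hr0.ne', one_smul]
  have hopen : IsOpen (BxD d) := (isOpen_Ioo.prod isOpen_Ioo).prod Metric.isOpen_ball
  have hcs : ContDiff ℝ ∞ (fun w => r⁻¹ • c₀ w) := hc.const_smul r⁻¹
  have hκs : ContDiff ℝ ∞ (fun v : En d => κ₀ (r • v)) := hκ.comp (contDiff_const_smul r)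
  have hsgn1 : ∀ v ∈ BxD d, ∀ s : Wd d →L[ℝ] Pt, ‖s‖ ≤ 1 / 10 ^ 8 →
      0 < det2 (slp (fderiv ℝ (fun v => κ₀ (r • v)) v) s) := by
    intro v hv s hs
    rw [db08b_fderiv hκ, db08b_slp, db08b_det2]
    exact mul_pos (by positivity) ((hbig v (db08b_norm hv)).2.2.1.2.1 s hs)
  refine ⟨fun v => κ₀ (r • v), fun w => r⁻¹ • c₀ w, ?_⟩
  refine ⟨hκs, ?_, ?_, ?_, ?_, hcs, hleft, ?_, hlam, hmu, hal, hsgn1, ?_⟩
  · intro v hv w hw hvw
    rw [← hleft v hv, ← hleft w hw]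
    simp only at hvw
    rw [hvw]
  · intro v hv
    rw [db08b_fderiv hκ]
    exact db08b_bij (hbig v (db08b_norm hv)).2.2.1.1 hr0.ne'
  · have heq : (fun v => κ₀ (r • v)) '' BxD d = N ∩ (fun w => r⁻¹ • c₀ w) ⁻¹' BxD d := by
      ext w
      constructor
      · rintro ⟨v, hv, rfl⟩
        refine ⟨(hbig v (db08b_norm hv)).2.1, ?_⟩
        simp only [mem_preimage]
        rw [hleft v hv]
        exact hv
      · rintro ⟨h1, h2⟩
        refine ⟨r⁻¹ • c₀ w, h2, ?_⟩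
        simp only
        rw [smul_smul, mul_inv_cancel₀ hr0.ne', one_smul]
        exact hNe w h1
    rw [heq]
    exact hNo.inter (hopen.preimage hcs.continuous)
  · rintro w ⟨v, hv, rfl⟩
    exact (hbig v (db08b_norm hv)).2.2.2.1
  · intro x y w hx hy hw
    have hmu1 := b08_one_lt hmu
    have hy2 : |y| < 2 := by
      rw [abs_mul, abs_of_pos (by linarith : 0 < mu)] at hy
      nlinarith [abs_nonneg y]
    have h1 := (hbig ((x, y), w) (by
      rw [Prod.norm_def, Prod.norm_def]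
      exact max_lt (max_lt hx hy2) hw)).2.2.2.2
    rw [h1, map_smul, dgD_apply]
  · rintro z ⟨v, hv, rfl⟩
    have hb := hbig v (db08b_norm hv)
    refine sgn2_of (K := fderiv ℝ (fun v => κ₀ (r • v)) v)
      (D := fderiv ℝ (fun w => r⁻¹ • c₀ w) (κ₀ (r • v))) ?_ (hsgn1 v hv) ?_
    · intro u
      have e1 : (fun v' : En d => r⁻¹ • c₀ (κ₀ (r • v'))) =ᶠ[𝓝 v] fun v' => v' := by
        filter_upwards [hopen.mem_nhds hv] with v' hv'
        exact hleft v' hv'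
      have e2 : HasFDerivAt (fun v' : En d => κ₀ (r • v'))
          (fderiv ℝ (fun v => κ₀ (r • v)) v) v :=
        (hκs.differentiable (by simp) v).hasFDerivAt
      have e3 : HasFDerivAt (fun w => r⁻¹ • c₀ w)
          (fderiv ℝ (fun w => r⁻¹ • c₀ w) (κ₀ (r • v))) (κ₀ (r • v)) :=
        (hcs.differentiable (by simp) _).hasFDerivAt
      have e4 := HasFDerivAt.comp v e3 e2
      have e5 : HasFDerivAt (fun v' : En d => v')
          ((fderiv ℝ (fun w => r⁻¹ • c₀ w) (κ₀ (r • v))).comp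
            (fderiv ℝ (fun v => κ₀ (r • v)) v)) v :=
        e4.congr_of_eventuallyEq e1.symm
      have e6 := e5.unique (hasFDerivAt_id v)
      have e7 := congrArg (fun L : En d →L[ℝ] En d => L u) e6
      exact e7
    · intro w
      rw [db08b_fderiv hκ]
      simp only [smul_apply, Prod.smul_fst, Prod.smul_snd, norm_smul]
      have h3 := hb.2.2.1.2.2 w
      have h4 : 0 ≤ ‖r‖ := norm_nonneg r
      calc ‖r‖ * ‖((fderiv ℝ κ₀ (r • v)) (0, w)).1‖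
          ≤ ‖r‖ * (1 / 10 ^ 8 * ‖((fderiv ℝ κ₀ (r • v)) (0, w)).2‖) :=
            mul_le_mul_of_nonneg_left h3 h4
        _ = 1 / 10 ^ 8 * (‖r‖ * ‖((fderiv ℝ κ₀ (r • v)) (0, w)).2‖) := by ring

end Pool.Agent.Lib.H37D
end

-- from Lib.H37D.IDefs
section

/-!
# H37D, section I: the composed curve (definitions used by DJ10 and DI99)
-/

open Set Filter Topology Asymptotics
open scoped ContDiff

namespace Pool.Agent.Lib.H37D

open Pool.Agent.Lib.H37N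

noncomputable section

variable {d : ℕ}

/-- `n` steps in a linear chart -/
def linD (lam mu : ℝ) (al : Wd d) (n : ℕ) (v : En d) : En d :=
  ((lam ^ n * v.1.1, mu ^ n * v.1.2), mulw (al ^ n) v.2)

/-- the map `κ_P → κ_Q` of the pass (n steps near P, the connection, ν steps near Q), in coordinates -/
def midD (g : En d → En d) (s : FrD d) (n ν : ℕ) (u : En d) : En d :=
  linD (s.lam Sy.Q) (s.mu Sy.Q) (s.al Sy.Q) ν
    (SSD g s (linD (s.lam Sy.P) (s.mu Sy.P) (s.al Sy.P) n u - ((0, s.uS), 0)))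

/-- a vertical perturbation of `T` -/
def vertD (T : En d → En d) (φ : ℝ × Wd d → ℝ) (v : En d) : En d :=
  (((T v).1.1, (T v).1.2 + φ ((T v).1.1, (T v).2)), (T v).2)

/-- the curve of the new datum -/
def cmpD (g : En d → En d) (s : FrD d) (T1 T2 : En d → En d) (b2 : ℝ) (n ν : ℕ)
    (φ1 φ2 : ℝ × Wd d → ℝ) (t : ℝ) : En d :=
  vertD T2 φ2 (midD g s n ν (vertD T1 φ1 ((0, t), 0)) - ((0, b2), 0))

/-- parameters of the two families of perturbations -/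
abbrev PEW (m d : ℕ) : Type := PE m × Wd d

end

end Pool.Agent.Lib.H37D
end

-- from Lib.H37D.DB15
section

/-! # H37D, chunk DB15 (M): orbits converging to the fixed point (port of H37N/B15.lean) -/

open Set Filter Topology
open scoped ContDiff

namespace Pool.Agent.Lib.H37D

open Pool.Agent.Lib.H37N

variable {d : ℕ} {g : En d → En d} {i : Sy} {κ c : En d → En d} {lam mu : ℝ} {al : Wd d}

theorem db15_zero : (0 : En d) ∈ BxD d := by
  have h : ((((0 : ℝ), (0 : ℝ)), (0 : Wd d)) : En d) ∈ BxD d := mem_BxD.2 (by simp)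
  exact h

theorem db15_lim (h : LinChartD g i κ c lam mu al) {w : ℕ → En d}
    (hlim : Tendsto w atTop (𝓝 (κ 0))) : Tendsto (fun n => c (w n)) atTop (𝓝 0) := by
  have h1 : Tendsto (fun n => c (w n)) atTop (𝓝 (c (κ 0))) :=
    (h.smooth_c.continuous.tendsto (κ 0)).comp hlim
  rw [h.left 0 db15_zero] at h1
  exact h1

theorem db15_ev (h : LinChartD g i κ c lam mu al) {w : ℕ → En d}
    (hlim : Tendsto w atTop (𝓝 (κ 0))) : ∃ N : ℕ, ∀ n ≥ N, κ (c (w n)) = w n ∧ c (w n) ∈ BxD d ∧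
      |(c (w n)).1.1| < 1 / 10 ∧ |(c (w n)).1.2| < 1 / 10 ∧ ‖(c (w n)).2‖ < 1 / 10 := by
  have h1 : ∀ᶠ n in atTop, w n ∈ κ '' BxD d :=
    hlim.eventually (h.isOpen.mem_nhds ⟨0, db15_zero, rfl⟩)
  have h2 : ∀ᶠ n in atTop, c (w n) ∈ Metric.ball (0 : En d) (1 / 10) :=
    (db15_lim h hlim).eventually (Metric.ball_mem_nhds _ (by norm_num))
  obtain ⟨N, hN⟩ := eventually_atTop.1 (h1.and h2)
  refine ⟨N, fun n hn => ?_⟩
  obtain ⟨h3, h4⟩ := hN n hn
  obtain ⟨h5, h6⟩ := h.right h3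
  rw [mem_ball_zero_iff, Prod.norm_def, max_lt_iff, Prod.norm_def, max_lt_iff, Real.norm_eq_abs,
    Real.norm_eq_abs] at h4
  exact ⟨h5, h6, h4.1.1, h4.1.2, h4.2⟩

theorem db15_step (h : LinChartD g i κ c lam mu al) {w w' : En d} (e : κ (c w) = w)
    (e' : κ (c w') = w') (hB' : c w' ∈ BxD d) (h1 : |(c w).1.1| < 1 / 10)
    (h2 : |(c w).1.2| < 1 / 10) (h3 : ‖(c w).2‖ < 1 / 10) (hw : g w = w') :
    c w' = ((lam * (c w).1.1, mu * (c w).1.2), mulw al (c w).2) := by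
  obtain ⟨m1, m2⟩ := b15_mu h.mu_mem
  have hl := h.lam_mem
  have a1 : |lam * (c w).1.1| < 2 := by
    rw [abs_mul, abs_of_pos (by linarith [hl.1])]
    nlinarith [abs_nonneg (c w).1.1, hl.1, hl.2]
  have a2 : |mu * (c w).1.2| < 2 := by
    rw [abs_mul, abs_of_pos (by linarith)]
    nlinarith [abs_nonneg (c w).1.2]
  have a3 : ‖mulw al (c w).2‖ < 2 := by
    have := norm_mulw_le h (c w).2
    nlinarith [norm_nonneg (c w).2]
  have h5 := h.lin (c w).1.1 (c w).1.2 (c w).2 (by linarith) a2 (by linarith)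
  have h4 : κ (((c w).1.1, (c w).1.2), (c w).2) = κ (c w) := rfl
  rw [h4, e, hw, ← e'] at h5
  exact h.inj hB' (mem_BxD.2 ⟨⟨a1, a2⟩, a3⟩) h5

/-- PROOF. As `LinChart.fwd`: c (w n) = ((x_n,y_n),w_n) → 0, for large n c (w (n+1)) = ((lam x_n, mu y_n), mulw al w_n), so |y_(n+1)| ≥ |y_n| and y_n → 0: y_n = 0 (`b15_mono`). -/
theorem LinChartD.fwd (h : LinChartD g i κ c lam mu al) {w : ℕ → En d} (hw : ∀ n, g (w n) = w (n + 1))
    (hlim : Tendsto w atTop (𝓝 (κ 0))) :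
    ∀ᶠ n in atTop, ∃ (x : ℝ) (om : Wd d), |x| < 1 ∧ ‖om‖ < 1 ∧ w n = κ ((x, 0), om) := by
  obtain ⟨N, hN⟩ := db15_ev h hlim
  obtain ⟨m1, m2⟩ := b15_mu h.mu_mem
  have hs : ∀ n ≥ N, |(c (w n)).1.2| ≤ |(c (w (n + 1))).1.2| := by
    intro n hn
    obtain ⟨e, -, h1, h2, h3⟩ := hN n hn
    obtain ⟨e', hB', -, -, -⟩ := hN (n + 1) (by omega)
    rw [db15_step h e e' hB' h1 h2 h3 (hw n)]
    simp only [abs_mul, abs_of_pos (show (0 : ℝ) < mu by linarith)]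
    nlinarith [abs_nonneg (c (w n)).1.2]
  have hl : Tendsto (fun n => (c (w n)).1.2) atTop (𝓝 0) := by
    have := ((continuous_snd.comp continuous_fst).tendsto (0 : En d)).comp (db15_lim h hlim)
    exact this
  have h0 := b15_mono hs hl
  refine eventually_atTop.2 ⟨N, fun n hn => ?_⟩
  obtain ⟨e, -, h1, -, h3⟩ := hN n hn
  refine ⟨(c (w n)).1.1, (c (w n)).2, by linarith, by linarith, ?_⟩
  rw [← h0 n hn]
  exact e.symm

/-- PROOF. As `LinChart.bwd`: x_n = lam x_(n+1), w_n = mulw al w_(n+1) for large n (norm increases, tends to 0), so x_n = 0, w_n = 0. -/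
theorem LinChartD.bwd (h : LinChartD g i κ c lam mu al) {w : ℕ → En d} (hw : ∀ n, g (w (n + 1)) = w n)
    (hlim : Tendsto w atTop (𝓝 (κ 0))) : ∀ᶠ n in atTop, ∃ y : ℝ, |y| < 1 ∧ w n = κ ((0, y), 0) := by
  obtain ⟨N, hN⟩ := db15_ev h hlim
  have hl0 := h.lam_mem
  have hst : ∀ n ≥ N, c (w n) =
      ((lam * (c (w (n + 1))).1.1, mu * (c (w (n + 1))).1.2), mulw al (c (w (n + 1))).2) := by
    intro n hn
    obtain ⟨e, hB, -, -, -⟩ := hN n hn
    obtain ⟨e', -, h1, h2, h3⟩ := hN (n + 1) (by omega)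
    exact db15_step h e' e hB h1 h2 h3 (hw n)
  have hs : ∀ n ≥ N, |(c (w n)).1.1| ≤ |(c (w (n + 1))).1.1| := by
    intro n hn
    rw [hst n hn]
    simp only [abs_mul, abs_of_pos (show (0 : ℝ) < lam by linarith [hl0.1])]
    nlinarith [abs_nonneg (c (w (n + 1))).1.1, hl0.2]
  have hs2 : ∀ n ≥ N, |‖(c (w n)).2‖| ≤ |‖(c (w (n + 1))).2‖| := by
    intro n hn
    rw [hst n hn, abs_of_nonneg (norm_nonneg _), abs_of_nonneg (norm_nonneg _)]
    have := norm_mulw_le h (c (w (n + 1))).2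
    simp only
    nlinarith [norm_nonneg (c (w (n + 1))).2]
  have hl : Tendsto (fun n => (c (w n)).1.1) atTop (𝓝 0) := by
    have := ((continuous_fst.comp continuous_fst).tendsto (0 : En d)).comp (db15_lim h hlim)
    exact this
  have hl2 : Tendsto (fun n => ‖(c (w n)).2‖) atTop (𝓝 0) := by
    have h5 : Tendsto (fun v : En d => ‖v.2‖) (𝓝 0) (𝓝 ‖(0 : En d).2‖) :=
      (continuous_norm.comp (continuous_snd (X := Pt) (Y := Wd d))).tendsto (0 : En d)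
    have h6 : ‖(0 : En d).2‖ = 0 := by simp
    rw [h6] at h5
    exact h5.comp (db15_lim h hlim)
  have h0 := b15_mono hs hl
  have h02 := b15_mono hs2 hl2
  refine eventually_atTop.2 ⟨N, fun n hn => ?_⟩
  obtain ⟨e, -, -, h1, -⟩ := hN n hn
  refine ⟨(c (w n)).1.2, by linarith, ?_⟩
  have e2 : (c (w n)).2 = 0 := norm_eq_zero.1 (h02 n hn)
  rw [← h0 n hn, ← e2]
  exact e.symm

end Pool.Agent.Lib.H37D
end
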