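import Pool.Agent.Lib.H1M.FF.M018
import Pool.Agent.Lib.H1M.FF.M024

/-! Merged copies (to shorten the build) of Lib.H37D.DB02, Lib.H37D.DB13. -/

-- from Lib.H37D.DB02
section

/-! # H37D, chunk DB02 (M): fixed points (port of H37N/B02.lean) -/

open Set Filter Topology
open scoped ContDiff

namespace Pool.Agent.Lib.H37D

open Pool.Agent.Lib.H37N

variable {d : ℕ}

/-- The contraction whose fixed points are the fixed points of g in VVd d i. -/
noncomputable def db02Phi (g : En d → En d) (i : Sy) (z : En d) : En d :=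
  ((z.1.1 - pw i / (1 - pw i) * ((g z).1.1 - z.1.1), (g z).1.2), (g z).2)

/-- PROOF. As `b02_contr` in H37N/B02.lean: κ = pw/(1-pw) ≤ 4, 1 + κ = κ/pw; first component at most 12 e0 ‖z-z'‖, second at most qw |..| + 3 e0 ‖z-z'‖, third at most aw ‖..‖ + 2 e0 ‖z-z'‖
(`NearD.diff`). -/
theorem db02_contr {g : En d → En d} (hg : NearD g) {i : Sy} {z z' : En d} (hz : z ∈ VVd d i) (hz' : z' ∈ VVd d i) :
    ‖db02Phi g i z - db02Phi g i z'‖ ≤ 51 / 100 * ‖z - z'‖ := by
  obtain ⟨d1, d2, d3⟩ := hg.diff hz hz'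
  obtain ⟨p0, p1, p4, pp⟩ := b02_pw i
  obtain ⟨n1, n2, n3⟩ := db01_norms (z - z')
  rw [Prod.fst_sub, Prod.snd_sub] at n2
  rw [Prod.snd_sub] at n3
  have nn : 0 ≤ ‖z - z'‖ := norm_nonneg _
  rw [Prod.norm_def, Prod.norm_def]
  apply max_le
  · apply max_le
    · rw [Real.norm_eq_abs]
      have h1 : (db02Phi g i z - db02Phi g i z').1.1
          = -(pw i / (1 - pw i)) * ((g z).1.1 - (g z').1.1 - (z.1.1 - z'.1.1) / pw i) := by
        have hne : pw i ≠ 0 := p0.ne'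
        have hne' : 1 - pw i ≠ 0 := by linarith
        simp only [db02Phi, Prod.fst_sub]
        field_simp
        ring
      rw [h1, abs_mul, abs_neg, abs_of_pos pp]
      calc pw i / (1 - pw i) * |(g z).1.1 - (g z').1.1 - (z.1.1 - z'.1.1) / pw i|
          ≤ 4 * (3 * e0 * ‖z - z'‖) := by gcongr
        _ ≤ 51 / 100 * ‖z - z'‖ := by
            unfold e0
            nlinarith
    · rw [Real.norm_eq_abs]
      have h1 : (db02Phi g i z - db02Phi g i z').1.2
          = ((g z).1.2 - (g z').1.2 - qw i * (z.1.2 - z'.1.2)) + qw i * (z.1.2 - z'.1.2) := by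
        simp only [db02Phi, Prod.snd_sub, Prod.fst_sub]
        ring
      have q1 : 0 ≤ qw i ∧ qw i ≤ 1 / 2 := by
        cases i <;> simp only [qw] <;> norm_num
      rw [h1]
      calc |((g z).1.2 - (g z').1.2 - qw i * (z.1.2 - z'.1.2)) + qw i * (z.1.2 - z'.1.2)|
          ≤ |(g z).1.2 - (g z').1.2 - qw i * (z.1.2 - z'.1.2)| + |qw i * (z.1.2 - z'.1.2)| :=
            abs_add_le _ _
        _ ≤ 3 * e0 * ‖z - z'‖ + 1 / 2 * ‖z - z'‖ := by
            rw [abs_mul, abs_of_nonneg q1.1]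
            have := mul_le_mul q1.2 n2 (abs_nonneg _) (by norm_num)
            linarith
        _ ≤ 51 / 100 * ‖z - z'‖ := by
            unfold e0
            nlinarith
  · have h1 : (db02Phi g i z - db02Phi g i z').2 = (g z).2 - (g z').2 := rfl
    rw [h1]
    calc ‖(g z).2 - (g z').2‖ ≤ aw * ‖z.2 - z'.2‖ + 2 * e0 * ‖z - z'‖ := d3
      _ ≤ aw * ‖z - z'‖ + 2 * e0 * ‖z - z'‖ := by
          have : (0 : ℝ) ≤ aw := by unfold aw; positivity
          gcongr
      _ ≤ 51 / 100 * ‖z - z'‖ := by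
          unfold e0 aw
          nlinarith

theorem db02_close {g : En d → En d} (hg : NearD g) {i : Sy} {z : En d} (hz : z ∈ VVd d i) :
    |(db02Phi g i z).1.1 - fx i| ≤ 4 * e0 ∧ |(db02Phi g i z).1.2 - (be i + qw i * z.1.2)| ≤ e0 ∧
      ‖(db02Phi g i z).2‖ ≤ aw * ‖z.2‖ + e0 := by
  obtain ⟨c1, c2⟩ := hg.close0 i z hz
  obtain ⟨p0, p1, p4, pp⟩ := b02_pw i
  simp only [Aff] at c1 c2
  refine ⟨?_, c2, hg.wval z (VVd_sub_Dd i hz)⟩
  have h1 : (db02Phi g i z).1.1 - fx i = -(pw i / (1 - pw i)) * ((g z).1.1 - (z.1.1 - al i) / pw i) := by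
    simp only [db02Phi]
    cases i
    · simp only [pw, al, fx]
      ring
    · simp only [pw, al, fx]
      ring
  rw [h1, abs_mul, abs_neg, abs_of_pos pp]
  gcongr

/-- PROOF. As `b02_maps`; third component: ‖(g z).2‖ ≤ aw ‖z.2‖ + e0 ≤ 1 (`hg.wval`). -/
theorem db02_maps {g : En d → En d} (hg : NearD g) {i : Sy} {z : En d} (hz : z ∈ VVd d i) : db02Phi g i z ∈ VVd d i := by
  obtain ⟨h1, h2, h3⟩ := db02_close hg hz
  rw [mem_VVd, mem_VV] at hz ⊢
  obtain ⟨⟨⟨a1, a2⟩, a3, a4⟩, a5⟩ := hz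
  rw [abs_le] at h1 h2
  obtain ⟨h11, h12⟩ := h1
  obtain ⟨h21, h22⟩ := h2
  have a6 : ‖(db02Phi g i z).2‖ ≤ 1 := by
    unfold aw e0 at h3
    nlinarith [norm_nonneg z.2]
  cases i <;> simp only [pw, al, fx, be, qw, del, e0] at a1 a2 a3 a4 h11 h12 h21 h22 ⊢ <;>
    refine ⟨⟨⟨?_, ?_⟩, ?_, ?_⟩, a6⟩ <;> linarith

theorem db02_fix_iff {g : En d → En d} {i : Sy} {z : En d} : db02Phi g i z = z ↔ g z = z := by
  obtain ⟨p0, p1, p4, pp⟩ := b02_pw i
  constructor
  · intro h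
    have h1 := congrArg (fun v : En d => v.1.1) h
    have h2 := congrArg (fun v : En d => v.1.2) h
    have h5 := congrArg (fun v : En d => v.2) h
    simp only [db02Phi] at h1 h2 h5
    have h3 : pw i / (1 - pw i) * ((g z).1.1 - z.1.1) = 0 := by linarith
    rcases mul_eq_zero.mp h3 with h4 | h4
    · exact absurd h4 pp.ne'
    · exact Prod.ext (Prod.ext (by linarith) h2) h5
  · intro h
    simp only [db02Phi, h, sub_self, mul_zero, sub_zero]

/-- PROOF. As `exists_fix` in H37N/B02.lean (VVd d i is closed, nonempty: it contains ((fx i, fx i), 0); `ContractingWith.exists_fixedPoint'`).  For the third component: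
‖z.2‖ = ‖(g z).2‖ ≤ aw ‖z.2‖ + e0, so ‖z.2‖ ≤ 2 e0.  Interior: `mem_interior_VVd`, `mem_interior_VV`. -/
theorem exists_fixD {g : En d → En d} (hg : NearD g) (i : Sy) :
    ∃ z ∈ interior (VVd d i), g z = z ∧ |z.1.1 - fx i| ≤ 1 / 10 ^ 11 ∧ |z.1.2 - fx i| ≤ 1 / 10 ^ 11 ∧ ‖z.2‖ ≤ 1 / 10 ^ 11 := by
  have hcl : IsClosed (VVd d i) := (isClosed_Icc.prod isClosed_Icc).prod Metric.isClosed_closedBall
  have hne : (((fx i, fx i), 0) : En d) ∈ VVd d i := by
    rw [mem_VVd, mem_VV]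
    refine ⟨?_, by simp⟩
    cases i <;> simp only [fx, al, pw, del] <;> norm_num
  have hmaps : MapsTo (db02Phi g i) (VVd d i) (VVd d i) := fun z hz => db02_maps hg hz
  have hcon : ContractingWith (51 / 100 : NNReal) (hmaps.restrict (db02Phi g i) (VVd d i) (VVd d i)) := by
    refine ⟨?_, ?_⟩
    · rw [← NNReal.coe_lt_coe]
      push_cast
      norm_num
    · apply LipschitzWith.of_dist_le_mul
      rintro ⟨z, hz⟩ ⟨z', hz'⟩
      rw [Subtype.dist_eq, Subtype.dist_eq, dist_eq_norm, dist_eq_norm]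
      push_cast
      exact db02_contr hg hz hz'
  obtain ⟨z, hz, hfix, -⟩ := hcon.exists_fixedPoint' hcl.isComplete hmaps hne (edist_ne_top _ _)
  have hfix' : db02Phi g i z = z := hfix
  have hgz : g z = z := db02_fix_iff.mp hfix'
  obtain ⟨h1, h2, h3⟩ := db02_close hg hz
  rw [hfix'] at h1 h2 h3
  have hz2 := hz
  rw [mem_VVd, mem_VV] at hz2
  obtain ⟨⟨⟨a1, a2⟩, a3, a4⟩, a5⟩ := hz2
  rw [abs_le] at h1 h2
  obtain ⟨h11, h12⟩ := h1
  obtain ⟨h21, h22⟩ := h2
  have h4 : ‖z.2‖ ≤ 1 / 10 ^ 11 := by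
    unfold aw e0 at h3
    have := norm_nonneg z.2
    norm_num at h3 ⊢
    linarith
  refine ⟨z, ?_, hgz, ?_, ?_, h4⟩
  · rw [mem_interior_VVd, mem_interior_VV]
    refine ⟨?_, lt_of_le_of_lt h4 (by norm_num)⟩
    cases i <;> simp only [pw, al, fx, be, qw, del, e0] at a1 a2 a3 a4 h11 h12 h21 h22 ⊢ <;>
      refine ⟨⟨?_, ?_⟩, ?_, ?_⟩ <;> linarith
  · rw [abs_le]
    cases i <;> simp only [fx, e0] at h11 h12 ⊢ <;> constructor <;> linarith
  · rw [abs_le]
    cases i <;> simp only [be, qw, fx, e0] at h21 h22 ⊢ <;> constructor <;> linarith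


end Pool.Agent.Lib.H37D
end

-- from Lib.H37D.DB13
section

/-! # H37D, chunk DB13 (M): every bi-infinite itinerary is realised (port of H37N/B13.lean) -/

open Set Filter Topology
open scoped ContDiff

namespace Pool.Agent.Lib.H37D

open Pool.Agent.Lib.H37N

variable {d : ℕ}

/-- one step of the iteration -/
noncomputable def db13T (g : En d → En d) (i : ℤ → Sy) (s : ℤ → En d) (n : ℤ) : En d :=
  (((s n).1.1 - pw (i n) * ((g (s n)).1.1 - (s (n + 1)).1.1), (g (s (n - 1))).1.2), (g (s (n - 1))).2)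

/-- PROOF. As `b13_maps`; third component: ‖(g (s (n-1))).2‖ ≤ aw + e0 ≤ 1 (`hg.wval`). -/
theorem db13_maps {g : En d → En d} (hg : NearD g) {i : ℤ → Sy} {s : ℤ → En d} (hs : ∀ n, s n ∈ VVd d (i n)) (n : ℤ) :
    db13T g i s n ∈ VVd d (i n) := by
  rw [mem_VVd, mem_VV]
  have hs1 : ∀ n, (s n).1 ∈ VV (i n) := fun n => (mem_VVd.1 (hs n)).1
  have hs2 : ∀ n, ‖(s n).2‖ ≤ 1 := fun n => (mem_VVd.1 (hs n)).2
  obtain ⟨hp0, hp1⟩ := b13_pw (i n)
  obtain ⟨ha0, ha1⟩ := b13_al (i (n + 1))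
  obtain ⟨hb0, hb1⟩ := b13_be (i (n - 1))
  obtain ⟨hq0, hq1⟩ := b13_qw (i (n - 1))
  have h1 := (hg.close0 (i n) (s n) (hs n)).1
  have h2 := (hg.close0 (i (n - 1)) (s (n - 1)) (hs (n - 1))).2
  have h3 := (mem_VV.1 (hs1 (n + 1))).1
  have h4 := (mem_VV.1 (hs1 (n - 1))).2
  simp only [Aff] at h1 h2
  rw [abs_le] at h1 h2
  obtain ⟨h1a, h1b⟩ := h1
  obtain ⟨h2a, h2b⟩ := h2
  have e1 : pw (i n) * (((s n).1.1 - al (i n)) / pw (i n)) = (s n).1.1 - al (i n) := by
    field_simp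
  have h1a' := mul_le_mul_of_nonneg_left h1a hp0.le
  have h1b' := mul_le_mul_of_nonneg_left h1b hp0.le
  rw [mul_sub, e1] at h1a' h1b'
  have he : (e0 : ℝ) = 1 / 10 ^ 12 := rfl
  have hd : (del : ℝ) = 1 / 100000 := rfl
  have hw : ‖(g (s (n - 1))).2‖ ≤ 1 := by
    have h5 := hg.wval (s (n - 1)) (VVd_sub_Dd _ (hs (n - 1)))
    have h6 : aw * ‖(s (n - 1)).2‖ ≤ aw * 1 :=
      mul_le_mul_of_nonneg_left (hs2 (n - 1)) (by norm_num [aw])
    have h7 : (aw : ℝ) = 1 / 10 ^ 7 := rfl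
    have h8 : aw * 1 + e0 ≤ 1 := by rw [h7, he]; norm_num
    linarith
  simp only [db13T]
  set p := pw (i n) with hp
  set x := (s (n + 1)).1.1
  set y := (s (n - 1)).1.2
  set gx := (g (s n)).1.1
  set gy := (g (s (n - 1))).1.2
  have h3a : -del ≤ x := by linarith [h3.1]
  have h3b : x ≤ 1 + del := by linarith [h3.2]
  have m1 : p * (-del) ≤ p * x := mul_le_mul_of_nonneg_left h3a hp0.le
  have m2 : p * x ≤ p * (1 + del) := mul_le_mul_of_nonneg_left h3b hp0.le
  have m3 : qw (i (n - 1)) * (-del) ≤ qw (i (n - 1)) * y := mul_le_mul_of_nonneg_left h4.1 hq0.le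
  have m4 : qw (i (n - 1)) * y ≤ qw (i (n - 1)) * (1 + del) := mul_le_mul_of_nonneg_left h4.2 hq0.le
  have hde : (0 : ℝ) < del := by rw [hd]; norm_num
  have hee : (0 : ℝ) < e0 := by rw [he]; norm_num
  have m5 : p * del ≤ 4 / 5 * del := mul_le_mul_of_nonneg_right hp1 hde.le
  have m6 : p * e0 ≤ 4 / 5 * e0 := mul_le_mul_of_nonneg_right hp1 hee.le
  have m7 : qw (i (n - 1)) * del ≤ 1 / 2 * del := mul_le_mul_of_nonneg_right hq1 hde.le
  have hed : (e0 : ℝ) ≤ 1 / 100 * del := by rw [hd, he]; norm_num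
  refine ⟨⟨⟨?_, ?_⟩, ?_, ?_⟩, hw⟩
  · nlinarith
  · nlinarith
  · nlinarith
  · nlinarith

/-- PROOF. As `b13_contr`, with `NearD.diff`; third component ≤ aw d + 2 e0 d. -/
theorem db13_contr {g : En d → En d} (hg : NearD g) {i : ℤ → Sy} {s s' : ℤ → En d} (hs : ∀ n, s n ∈ VVd d (i n))
    (hs' : ∀ n, s' n ∈ VVd d (i n)) {D : ℝ} (hd : ∀ n, ‖s n - s' n‖ ≤ D) (n : ℤ) :
    ‖db13T g i s n - db13T g i s' n‖ ≤ 81 / 100 * D := by
  have hd0 : 0 ≤ D := le_trans (norm_nonneg _) (hd n)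
  obtain ⟨hp0, hp1⟩ := b13_pw (i n)
  obtain ⟨hq0, hq1⟩ := b13_qw (i (n - 1))
  have h1 := (hg.diff (hs n) (hs' n)).1
  have h2 := (hg.diff (hs (n - 1)) (hs' (n - 1))).2.1
  have hw := (hg.diff (hs (n - 1)) (hs' (n - 1))).2.2
  have he : (e0 : ℝ) = 1 / 10 ^ 12 := rfl
  have hee : (0 : ℝ) < e0 := by rw [he]; norm_num
  have hee1 : (e0 : ℝ) ≤ 1 / 1500 := by rw [he]; norm_num
  have b1 : 3 * e0 * ‖s n - s' n‖ ≤ 3 * e0 * D :=
    mul_le_mul_of_nonneg_left (hd n) (by positivity)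
  have b2 : 3 * e0 * ‖s (n - 1) - s' (n - 1)‖ ≤ 3 * e0 * D :=
    mul_le_mul_of_nonneg_left (hd (n - 1)) (by positivity)
  have b2' : 2 * e0 * ‖s (n - 1) - s' (n - 1)‖ ≤ 2 * e0 * D :=
    mul_le_mul_of_nonneg_left (hd (n - 1)) (by positivity)
  have b3 : 3 * e0 * D ≤ 1 / 500 * D := by
    have := mul_le_mul_of_nonneg_right hee1 hd0
    linarith
  have b4 : e0 * D ≤ 1 / 1500 * D := mul_le_mul_of_nonneg_right hee1 hd0
  have h3 := norm_prod_le_iff.1 (hd (n + 1))
  have h4 := norm_prod_le_iff.1 (hd (n - 1))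
  have h3' := norm_prod_le_iff.1 h3.1
  have h4' := norm_prod_le_iff.1 h4.1
  simp only [Prod.fst_sub, Prod.snd_sub, Real.norm_eq_abs] at h3' h4' h4
  obtain ⟨h3x, -⟩ := h3'
  obtain ⟨-, h4y⟩ := h4'
  obtain ⟨-, h4w⟩ := h4
  rw [norm_prod_le_iff, norm_prod_le_iff]
  simp only [db13T, Prod.fst_sub, Prod.snd_sub, Real.norm_eq_abs]
  refine ⟨⟨?_, ?_⟩, ?_⟩
  · have e : (s n).1.1 - pw (i n) * ((g (s n)).1.1 - (s (n + 1)).1.1) -
        ((s' n).1.1 - pw (i n) * ((g (s' n)).1.1 - (s' (n + 1)).1.1)) =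
        pw (i n) * (((s (n + 1)).1.1 - (s' (n + 1)).1.1) -
          ((g (s n)).1.1 - (g (s' n)).1.1 - ((s n).1.1 - (s' n).1.1) / pw (i n))) := by
      field_simp
      ring
    rw [e, abs_mul, abs_of_pos hp0]
    have h5 : |((s (n + 1)).1.1 - (s' (n + 1)).1.1) -
          ((g (s n)).1.1 - (g (s' n)).1.1 - ((s n).1.1 - (s' n).1.1) / pw (i n))| ≤
          D + 1 / 500 * D := by
      refine le_trans (abs_sub _ _) ?_
      linarith
    calc pw (i n) * |((s (n + 1)).1.1 - (s' (n + 1)).1.1) -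
          ((g (s n)).1.1 - (g (s' n)).1.1 - ((s n).1.1 - (s' n).1.1) / pw (i n))|
        ≤ 4 / 5 * (D + 1 / 500 * D) :=
          mul_le_mul hp1 h5 (abs_nonneg _) (by norm_num)
      _ ≤ 81 / 100 * D := by linarith
  · have e : (g (s (n - 1))).1.2 - (g (s' (n - 1))).1.2 =
        ((g (s (n - 1))).1.2 - (g (s' (n - 1))).1.2 -
          qw (i (n - 1)) * ((s (n - 1)).1.2 - (s' (n - 1)).1.2)) +
          qw (i (n - 1)) * ((s (n - 1)).1.2 - (s' (n - 1)).1.2) := by ring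
    rw [e]
    refine le_trans (abs_add_le _ _) ?_
    rw [abs_mul, abs_of_pos hq0]
    have h5 : qw (i (n - 1)) * |(s (n - 1)).1.2 - (s' (n - 1)).1.2| ≤ 1 / 2 * D :=
      mul_le_mul hq1 h4y (abs_nonneg _) (by norm_num)
    linarith
  · have h5 : aw * ‖(s (n - 1)).2 - (s' (n - 1)).2‖ ≤ 1 / 10 * D :=
      mul_le_mul (by norm_num [aw]) h4w (norm_nonneg _) (by norm_num)
    linarith

/-- PROOF. As `exists_orbit` in H37N/B13.lean (start with the points ((al (i n), 0), 0)). -/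
theorem exists_orbitD {g : En d → En d} (hg : NearD g) (i : ℤ → Sy) :
    ∃ s : ℤ → En d, ∀ n, s n ∈ VVd d (i n) ∧ g (s n) = s (n + 1) := by
  have hd : (del : ℝ) = 1 / 100000 := rfl
  set S : ℕ → ℤ → En d := fun k => (db13T g i)^[k] (fun n => ((al (i n), 0), 0)) with hS
  have hSs : ∀ k, S (k + 1) = db13T g i (S k) := by
    intro k
    simp only [hS]
    rw [Function.iterate_succ_apply']
  have hmem : ∀ k n, S k n ∈ VVd d (i n) := by
    intro k
    induction k with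
    | zero =>
      intro n
      rw [mem_VVd, mem_VV]
      have := (b13_pw (i n)).1
      simp only [hS, Function.iterate_zero, id_eq, norm_zero]
      rw [hd]
      refine ⟨⟨⟨?_, ?_⟩, ?_, ?_⟩, ?_⟩ <;> linarith
    | succ k ih =>
      intro n
      rw [hSs]
      exact db13_maps hg ih n
  have hstep : ∀ k n, ‖S (k + 1) n - S k n‖ ≤ 2 * (81 / 100) ^ k := by
    intro k
    induction k with
    | zero =>
      intro n
      have h1' := mem_VVd.1 (hmem 1 n)
      have h0' := mem_VVd.1 (hmem 0 n)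
      have h1 := mem_VV.1 h1'.1
      have h0 := mem_VV.1 h0'.1
      obtain ⟨ha0, ha1⟩ := b13_al (i n)
      have hp := (b13_pw (i n)).1
      rw [hd] at h0 h1
      rw [norm_prod_le_iff, norm_prod_le_iff]
      simp only [Prod.fst_sub, Prod.snd_sub, Real.norm_eq_abs, pow_zero, mul_one, zero_add]
      refine ⟨⟨?_, ?_⟩, ?_⟩
      · rw [abs_le]
        constructor <;> linarith [h1.1.1, h1.1.2, h0.1.1, h0.1.2]
      · rw [abs_le]
        constructor <;> linarith [h1.2.1, h1.2.2, h0.2.1, h0.2.2]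
      · refine le_trans (norm_sub_le _ _) ?_
        linarith [h1'.2, h0'.2]
    | succ k ih =>
      intro n
      have h := db13_contr hg (hmem (k + 1)) (hmem k) ih n
      rw [← hSs, ← hSs] at h
      refine le_trans h (le_of_eq ?_)
      ring
  have hlim : ∀ n, ∃ z, Tendsto (fun k => S k n) atTop (𝓝 z) := by
    intro n
    apply cauchySeq_tendsto_of_complete
    refine cauchySeq_of_le_geometric (81 / 100) 2 (by norm_num) ?_
    intro k
    rw [dist_comm, dist_eq_norm]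
    exact hstep k n
  choose s hs using hlim
  have hsV : ∀ n, s n ∈ VVd d (i n) := by
    intro n
    have hcl : IsClosed (VVd d (i n)) := (isClosed_Icc.prod isClosed_Icc).prod
      Metric.isClosed_closedBall
    exact hcl.mem_of_tendsto (hs n) (Eventually.of_forall fun k => hmem k n)
  have hgc : ∀ n, Tendsto (fun k => g (S k n)) atTop (𝓝 (g (s n))) := by
    intro n
    have h1 : ContinuousAt g (s n) :=
      (hg.contDiffAt (VVd_sub_Dd _ (hsV n))).self_of_nhds.continuousAt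
    exact h1.tendsto.comp (hs n)
  have hfix : ∀ n, db13T g i s n = s n := by
    intro n
    have h1 : Tendsto (fun k => S (k + 1) n) atTop (𝓝 (s n)) :=
      (tendsto_add_atTop_iff_nat (f := fun k => S k n) 1).2 (hs n)
    have h2 : Tendsto (fun k => db13T g i (S k) n) atTop (𝓝 (db13T g i s n)) := by
      have hf : ∀ z : En d, Tendsto (fun z : En d => z.1.1) (𝓝 z) (𝓝 z.1.1) :=
        fun z => (continuous_fst.comp continuous_fst).tendsto z
      have hf2 : ∀ z : En d, Tendsto (fun z : En d => z.1.2) (𝓝 z) (𝓝 z.1.2) :=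
        fun z => (continuous_snd.comp continuous_fst).tendsto z
      have a1 : Tendsto (fun k => (S k n).1.1) atTop (𝓝 (s n).1.1) := (hf _).comp (hs n)
      have a2 : Tendsto (fun k => (S k (n + 1)).1.1) atTop (𝓝 (s (n + 1)).1.1) :=
        (hf _).comp (hs (n + 1))
      have a3 : Tendsto (fun k => (g (S k n)).1.1) atTop (𝓝 (g (s n)).1.1) :=
        (hf _).comp (hgc n)
      have a4 : Tendsto (fun k => (g (S k (n - 1))).1.2) atTop (𝓝 (g (s (n - 1))).1.2) :=
        (hf2 _).comp (hgc (n - 1))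
      have a5 : Tendsto (fun k => (g (S k (n - 1))).2) atTop (𝓝 (g (s (n - 1))).2) :=
        (continuous_snd.tendsto _).comp (hgc (n - 1))
      exact ((a1.sub ((a3.sub a2).const_mul (pw (i n)))).prodMk_nhds a4).prodMk_nhds a5
    have h3 : (fun k => S (k + 1) n) = fun k => db13T g i (S k) n := by
      funext k
      rw [hSs]
    rw [h3] at h1
    exact tendsto_nhds_unique h2 h1
  refine ⟨s, fun n => ⟨hsV n, ?_⟩⟩
  have hp := (b13_pw (i n)).1
  have h1 := congrArg (fun z : En d => z.1.1) (hfix n)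
  have h2 := congrArg (fun z : En d => z.1.2) (hfix (n + 1))
  have h2' := congrArg (fun z : En d => z.2) (hfix (n + 1))
  simp only [db13T] at h1 h2 h2'
  rw [add_sub_cancel_right] at h2 h2'
  have h3 : pw (i n) * ((g (s n)).1.1 - (s (n + 1)).1.1) = 0 := by linarith
  have h4 : (g (s n)).1.1 - (s (n + 1)).1.1 = 0 := by
    rcases mul_eq_zero.1 h3 with h | h
    · exact absurd h hp.ne'
    · exact h
  exact Prod.ext (Prod.ext (sub_eq_zero.1 h4) h2) h2'

end Pool.Agent.Lib.H37D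
end
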