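import Mathlib
import Pool.Agent.Lib.H1M.FF.M003
import Pool.Agent.Lib.H1M.FF.M004
import Pool.Agent.Lib.H1M.FF.M012
import Pool.Agent.Lib.H1M.FF.M014
import Pool.Agent.Lib.H1M.FF.M018
import Pool.Agent.Lib.H1M.FF.M019
import Pool.Agent.Lib.H1M.FF.M024

/-! Merged copies (to shorten the build) of Lib.H37N.T6a, Lib.H37D.DN06, Lib.H37N.T6b, Lib.H37D.DT67, Lib.H37D.DB04, Lib.H37N.B09, Lib.H37N.B19. -/

-- from Lib.H37N.T6a
section

/-! # H37N, chunk T6a (M): flat cut-off -/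

open Set Filter Topology Asymptotics
open scoped ContDiff

namespace Pool.Agent.Lib.H37N

variable {P E W : Type} [NormedAddCommGroup P] [NormedSpace ℝ P] [FiniteDimensional ℝ P]
  [NormedAddCommGroup E] [NormedSpace ℝ E] [FiniteDimensional ℝ E]
  [NormedAddCommGroup W] [NormedSpace ℝ W] [CompleteSpace W]

omit [FiniteDimensional ℝ E] in
theorem t6a_bound {χ : E → ℝ} (hχ : ContDiff ℝ ∞ χ) (hs : HasCompactSupport χ) (R : ℕ) :
    ∃ C : ℝ, 0 ≤ C ∧ ∀ j ≤ R, ∀ x, ‖iteratedFDeriv ℝ j χ x‖ ≤ C := by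
  have h : ∀ j : ℕ, ∃ C : ℝ, ∀ x, ‖iteratedFDeriv ℝ j χ x‖ ≤ C := fun j =>
    (hχ.continuous_iteratedFDeriv (m := j)
      (by exact_mod_cast le_top)).bounded_above_of_compact_support (hs.iteratedFDeriv j)
  choose C hC using h
  have hC0 : ∀ j, 0 ≤ C j := fun j => (norm_nonneg _).trans (hC j 0)
  refine ⟨∑ j ∈ Finset.range (R + 1), C j, Finset.sum_nonneg fun j _ => hC0 j,
    fun j hj x => (hC j x).trans ?_⟩
  exact Finset.single_le_sum (f := C) (fun j _ => hC0 j) (Finset.mem_range.2 (by omega))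

theorem t6a_loc {f : E → W} (hf : ContDiff ℝ ∞ f) (x₀ : E) (R : ℕ)
    (h : f =O[𝓝 x₀] fun x => ‖x - x₀‖ ^ (R + 1)) :
    ∃ C : ℝ, 0 ≤ C ∧ ∀ᶠ x in 𝓝 x₀, ∀ j ≤ R,
      ‖iteratedFDeriv ℝ j f x‖ ≤ C * ‖x - x₀‖ ^ (R + 1 - j) := by
  have h1 : ∀ j : ℕ, ∃ C : ℝ, 0 ≤ C ∧ (j ≤ R → ∀ᶠ x in 𝓝 x₀,
      ‖iteratedFDeriv ℝ j f x‖ ≤ C * ‖x - x₀‖ ^ (R + 1 - j)) := by
    intro j
    by_cases hj : j ≤ R
    · obtain ⟨C, hC0, hC⟩ := (isBigO_iteratedFDeriv hf x₀ R j (by omega) h).exists_nonneg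
      refine ⟨C, hC0, fun _ => ?_⟩
      filter_upwards [hC.bound] with x hx
      have e : ‖‖x - x₀‖ ^ (R + 1 - j)‖ = ‖x - x₀‖ ^ (R + 1 - j) :=
        Real.norm_of_nonneg (by positivity)
      rw [e] at hx
      exact hx
    · exact ⟨0, le_rfl, fun h => absurd h hj⟩
  choose C hC0 hC using h1
  refine ⟨∑ j ∈ Finset.range (R + 1), C j, Finset.sum_nonneg fun j _ => hC0 j, ?_⟩
  have : ∀ᶠ x in 𝓝 x₀, ∀ j ∈ Finset.range (R + 1),
      ‖iteratedFDeriv ℝ j f x‖ ≤ C j * ‖x - x₀‖ ^ (R + 1 - j) :=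
    (Filter.eventually_all_finset _).2 fun j hj =>
      hC j (by have := Finset.mem_range.1 hj; omega)
  filter_upwards [this] with x hx j hj
  refine (hx j (Finset.mem_range.2 (by omega))).trans ?_
  gcongr
  exact Finset.single_le_sum (f := C) (fun j _ => hC0 j) (Finset.mem_range.2 (by omega))

omit [FiniteDimensional ℝ E] in
theorem t6a_scale {χ : E → ℝ} (hχ : ContDiff ℝ ∞ χ) (x₀ : E) (r : ℝ) (i : ℕ) (x : E) :
    iteratedFDeriv ℝ i (fun z => χ (r⁻¹ • (z - x₀))) x =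
      (r⁻¹) ^ i • iteratedFDeriv ℝ i χ (r⁻¹ • (x - x₀)) := by
  rw [iteratedFDeriv_comp_sub i x₀ x (f := fun z => χ (r⁻¹ • z)),
    iteratedFDeriv_comp_const_smul _ (hχ.of_le (by exact_mod_cast le_top))]

/-- T6, general form: a smooth function with vanishing R-jet at x₀ agrees near x₀ with a smooth function with small support and small derivatives up to order R.

PROOF. Let χ : E → ℝ be a smooth cut-off with support in closedBall 0 1 and χ = 1 near 0 (`exists_cutoff`), C₁ a bound of ‖iteratedFDeriv j χ‖ for j ≤ R (compact support: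
`HasCompactSupport.iteratedFDeriv`, continuity).  By `isBigO_iteratedFDeriv` (k = R) there are C₂, δ with ‖iteratedFDeriv j f x‖ ≤ C₂ ‖x-x₀‖^(R+1-j) for ‖x - x₀‖ ≤ δ, j ≤ R.
For 0 < r ≤ min(δ,1) with closedBall x₀ r ⊆ B put χ_r(x) = χ(r⁻¹ • (x - x₀)), g = χ_r • f.  ‖iteratedFDeriv i χ_r x‖ ≤ r^(-i) C₁ (`iteratedFDeriv_comp_const_smul` or
`ContinuousLinearMap.norm_iteratedFDeriv_comp_right`, translation `iteratedFDeriv_comp_sub`), zero outside closedBall x₀ r.  `norm_iteratedFDeriv_smul_le`: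
‖iteratedFDeriv j g x‖ ≤ Σ_i binom(j,i) r^(-i) C₁ C₂ r^(R+1-(j-i)) = 2^j C₁ C₂ r^(R+1-j) ≤ 2^R C₁ C₂ r for x ∈ closedBall x₀ r, and 0 outside (g vanishes near such x).
Take r with 2^R C₁ C₂ r ≤ ε. -/
theorem flat_cut {f : E → W} (hf : ContDiff ℝ ∞ f) (x₀ : E) (R : ℕ)
    (h : f =O[𝓝 x₀] fun x => ‖x - x₀‖ ^ (R + 1)) {ε : ℝ} (hε : 0 < ε) {B : Set E} (hB : B ∈ 𝓝 x₀) :
    ∃ g : E → W, ContDiff ℝ ∞ g ∧ HasCompactSupport g ∧ tsupport g ⊆ B ∧ g =ᶠ[𝓝 x₀] f ∧
      ∀ j ≤ R, ∀ x, ‖iteratedFDeriv ℝ j g x‖ ≤ ε := by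
  obtain ⟨χ, hχ, hχc, hχs, -, hχ1⟩ := exists_cutoff (E := E) (C := {0}) (O := Metric.ball 0 1)
    isCompact_singleton Metric.isOpen_ball (by simp)
  rw [nhdsSet_singleton] at hχ1
  obtain ⟨C₁, hC₁0, hC₁⟩ := t6a_bound hχ hχc R
  obtain ⟨C₂, hC₂0, hC₂⟩ := t6a_loc hf x₀ R h
  obtain ⟨δ, hδ, hδ'⟩ := Metric.eventually_nhds_iff.1 (hC₂.and hB)
  -- the radius
  obtain ⟨r, hr0, hr1, hrδ, hrε⟩ : ∃ r : ℝ, 0 < r ∧ r ≤ 1 ∧ r < δ ∧
      2 ^ R * (C₁ * C₂) * r ≤ ε := by
    have hM : 0 < 2 ^ R * (C₁ * C₂) + 1 := by positivity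
    refine ⟨min (min 1 (δ / 2)) (ε / (2 ^ R * (C₁ * C₂) + 1)), by positivity,
      (min_le_left _ _).trans (min_le_left _ _), ?_, ?_⟩
    · have : min (min 1 (δ / 2)) (ε / (2 ^ R * (C₁ * C₂) + 1)) ≤ δ / 2 :=
        (min_le_left _ _).trans (min_le_right _ _)
      linarith
    · have h1 : min (min 1 (δ / 2)) (ε / (2 ^ R * (C₁ * C₂) + 1)) ≤
          ε / (2 ^ R * (C₁ * C₂) + 1) := min_le_right _ _
      have h2 : (2 ^ R * (C₁ * C₂) + 1) * (ε / (2 ^ R * (C₁ * C₂) + 1)) = ε := by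
        field_simp
      have h3 : 0 ≤ ε / (2 ^ R * (C₁ * C₂) + 1) := by positivity
      have h4 : 0 ≤ 2 ^ R * (C₁ * C₂) := by positivity
      calc 2 ^ R * (C₁ * C₂) * min (min 1 (δ / 2)) (ε / (2 ^ R * (C₁ * C₂) + 1))
          ≤ 2 ^ R * (C₁ * C₂) * (ε / (2 ^ R * (C₁ * C₂) + 1)) :=
            mul_le_mul_of_nonneg_left h1 h4
        _ ≤ (2 ^ R * (C₁ * C₂) + 1) * (ε / (2 ^ R * (C₁ * C₂) + 1)) := by
            nlinarith
        _ = ε := h2
  have hχr : ContDiff ℝ ∞ (fun z : E => χ (r⁻¹ • (z - x₀))) :=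
    hχ.comp (contDiff_const.smul (contDiff_id.sub contDiff_const))
  have hgd : ContDiff ℝ ∞ (fun z : E => χ (r⁻¹ • (z - x₀)) • f z) := hχr.smul hf
  have hsup : Function.support (fun z : E => χ (r⁻¹ • (z - x₀)) • f z) ⊆
      Metric.closedBall x₀ r := by
    intro z hz
    have h1 : χ (r⁻¹ • (z - x₀)) ≠ 0 := fun h0 => hz (by simp [h0])
    have h2 : r⁻¹ • (z - x₀) ∈ Metric.ball (0 : E) 1 := hχs (subset_tsupport _ h1)
    rw [mem_ball_zero_iff, norm_smul, norm_inv, Real.norm_of_nonneg hr0.le] at h2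
    rw [mem_closedBall_iff_norm]
    have h3 : ‖z - x₀‖ = r * (r⁻¹ * ‖z - x₀‖) := by field_simp
    rw [h3]
    nlinarith
  have htsup : tsupport (fun z : E => χ (r⁻¹ • (z - x₀)) • f z) ⊆ Metric.closedBall x₀ r :=
    closure_minimal hsup Metric.isClosed_closedBall
  refine ⟨fun z => χ (r⁻¹ • (z - x₀)) • f z, hgd, ?_, ?_, ?_, ?_⟩
  · exact HasCompactSupport.of_support_subset_isCompact (isCompact_closedBall x₀ r) hsup
  · intro z hz
    exact (hδ' (lt_of_le_of_lt (Metric.mem_closedBall.1 (htsup hz)) hrδ)).2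
  · have hc : Tendsto (fun z : E => r⁻¹ • (z - x₀)) (𝓝 x₀) (𝓝 0) := by
      have : Continuous (fun z : E => r⁻¹ • (z - x₀)) := by fun_prop
      simpa using this.tendsto x₀
    filter_upwards [hc.eventually hχ1] with z hz
    rw [hz, one_smul]
  · intro j hj x
    by_cases hx : x ∈ Metric.closedBall x₀ r
    · have hxr : ‖x - x₀‖ ≤ r := mem_closedBall_iff_norm.1 hx
      have hxd : dist x x₀ < δ := by rw [dist_eq_norm]; linarith
      have hb := (hδ' hxd).1
      refine (norm_iteratedFDeriv_smul_le hχr hf x (n := j)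
        (by exact_mod_cast le_top)).trans ?_
      have hterm : ∀ i ∈ Finset.range (j + 1), (j.choose i : ℝ) *
          ‖iteratedFDeriv ℝ i (fun z => χ (r⁻¹ • (z - x₀))) x‖ *
          ‖iteratedFDeriv ℝ (j - i) f x‖ ≤ (j.choose i : ℝ) * ((C₁ * C₂) * r) := by
        intro i hi
        have hi' : i ≤ j := by have := Finset.mem_range.1 hi; omega
        rw [mul_assoc]
        refine mul_le_mul_of_nonneg_left ?_ (by positivity)
        have e1 : ‖iteratedFDeriv ℝ i (fun z => χ (r⁻¹ • (z - x₀))) x‖ ≤ (r⁻¹) ^ i * C₁ := by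
          rw [t6a_scale hχ, norm_smul, norm_pow, norm_inv, Real.norm_of_nonneg hr0.le]
          exact mul_le_mul_of_nonneg_left (hC₁ i (by omega) _) (by positivity)
        have e2 : ‖iteratedFDeriv ℝ (j - i) f x‖ ≤ C₂ * r ^ (R + 1 - (j - i)) := by
          refine (hb (j - i) (by omega)).trans ?_
          gcongr
        have e3 : (r⁻¹) ^ i * r ^ (R + 1 - (j - i)) ≤ r := by
          have : R + 1 - (j - i) = i + (R - j + 1) := by omega
          rw [this, pow_add, ← mul_assoc, ← mul_pow, inv_mul_cancel₀ hr0.ne', one_pow, one_mul]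
          calc r ^ (R - j + 1) ≤ r ^ 1 := pow_le_pow_of_le_one hr0.le hr1 (by omega)
            _ = r := pow_one r
        calc ‖iteratedFDeriv ℝ i (fun z => χ (r⁻¹ • (z - x₀))) x‖ *
              ‖iteratedFDeriv ℝ (j - i) f x‖
            ≤ ((r⁻¹) ^ i * C₁) * (C₂ * r ^ (R + 1 - (j - i))) :=
              mul_le_mul e1 e2 (norm_nonneg _) (by positivity)
          _ = (C₁ * C₂) * ((r⁻¹) ^ i * r ^ (R + 1 - (j - i))) := by ring
          _ ≤ (C₁ * C₂) * r := mul_le_mul_of_nonneg_left e3 (by positivity)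
      refine (Finset.sum_le_sum hterm).trans ?_
      rw [← Finset.sum_mul]
      have e4 : ∑ i ∈ Finset.range (j + 1), (j.choose i : ℝ) = 2 ^ j := by
        exact_mod_cast Nat.sum_range_choose j
      rw [e4]
      refine le_trans ?_ hrε
      rw [← mul_assoc]
      have : (2 : ℝ) ^ j ≤ 2 ^ R := pow_le_pow_right₀ (by norm_num) hj
      gcongr
    · have h0 : iteratedFDeriv ℝ j (fun z => χ (r⁻¹ • (z - x₀)) • f z) x = 0 := by
        by_contra h0
        exact hx (htsup (support_iteratedFDeriv_subset j h0))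
      rw [h0, norm_zero]
      exact hε.le

end Pool.Agent.Lib.H37N
end

-- from Lib.H37D.DN06
section

/-! # H37D, chunk DN06: FC, flat correction by a small perturbation in `En d` (port of H37N/T6b) -/

open Set Filter Topology Asymptotics
open scoped ContDiff

namespace Pool.Agent.Lib.H37D

open Pool.Agent.Lib.H37N

variable {d : ℕ}

/-- T6 (FC) in `En d`. -/
theorem flat_corrD (R : ℕ) {ε : ℝ} (hε : 0 < ε) {z₀ : En d} (hz : z₀ ∈ interior (K0D d)) {G : En d → En d}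
    (hG : ∀ᶠ z in 𝓝 z₀, ContDiffAt ℝ ∞ G z)
    (h : (fun z => G z - z) =O[𝓝 z₀] fun z => ‖z - z₀‖ ^ (R + 1)) {B : Set (En d)} (hB : B ∈ 𝓝 z₀) :
    ∃ ψ : En d → En d, SmallD R ε ψ ∧ (∀ z, z ∉ B → ψ z = z) ∧ ψ =ᶠ[𝓝 z₀] G := by
  have hG' : ∀ᶠ z in 𝓝 z₀, ContDiffAt ℝ ∞ (fun z => G z - z) z := by
    filter_upwards [hG] with z hz
    exact hz.sub contDiffAt_id
  obtain ⟨f, hf, hfG⟩ := localise_at hG'
  have hf2 : f =O[𝓝 z₀] fun z => ‖z - z₀‖ ^ (R + 1) := hfG.trans_isBigO h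
  have hB2 : B ∩ interior (K0D d) ∈ 𝓝 z₀ := inter_mem hB (isOpen_interior.mem_nhds hz)
  obtain ⟨g, hg, hgc, hgs, hgf, hgb⟩ := flat_cut hf z₀ R hf2 hε hB2
  have h0 : ∀ z, z ∉ B ∩ interior (K0D d) → g z = 0 := by
    intro z hz
    by_contra hne
    exact hz (hgs (subset_tsupport g hne))
  refine ⟨fun z => z + g z, ⟨contDiff_id.add hg, ?_, ?_⟩, ?_, ?_⟩
  · intro z hz
    have h1 : g z = 0 := h0 z (fun h => hz (interior_subset h.2))
    simp [h1]
  · intro j hj z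
    have h1 : (fun z => z + g z - z) = g := by
      funext z
      simp
    rw [h1]
    exact hgb j hj z
  · intro z hz
    have h1 : g z = 0 := h0 z (fun h => hz h.1)
    simp [h1]
  · filter_upwards [hgf, hfG] with z h1 h2
    rw [h1, h2]
    simp

/-- the region is inside the box of perturbations -/
theorem omd_sub_K0D : Omd d ⊆ interior (K0D d) := by
  have h1 : IsOpen (Omd d) := by
    unfold Omd Om
    exact ((isOpen_interior.union isOpen_interior).union isOpen_interior).prod Metric.isOpen_ball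
  refine interior_maximal ?_ h1
  intro z hz
  refine ⟨?_, ?_⟩
  · have h2 : z.1 ∈ Om := hz.1
    rcases h2 with (h2 | h2) | h2
    · have h3 := interior_subset h2
      simp only [VV, mem_prod, mem_Icc, al, pw, del] at h3
      simp only [K0, mem_prod, mem_Icc]
      refine ⟨⟨?_, ?_⟩, ⟨?_, ?_⟩⟩ <;> linarith [h3.1.1, h3.1.2, h3.2.1, h3.2.2]
    · have h3 := interior_subset h2
      simp only [VV, mem_prod, mem_Icc, al, pw, del] at h3
      simp only [K0, mem_prod, mem_Icc]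
      refine ⟨⟨?_, ?_⟩, ⟨?_, ?_⟩⟩ <;> linarith [h3.1.1, h3.1.2, h3.2.1, h3.2.2]
    · have h3 := interior_subset h2
      simp only [FF, mem_prod, mem_Icc, xc, u0, del] at h3
      simp only [K0, mem_prod, mem_Icc]
      refine ⟨⟨?_, ?_⟩, ⟨?_, ?_⟩⟩ <;> linarith [h3.1.1, h3.1.2, h3.2.1, h3.2.2]
  · have h2 : z.2 ∈ Metric.ball (0 : Wd d) 1 := hz.2
    exact Metric.closedBall_subset_closedBall (by norm_num) (Metric.ball_subset_closedBall h2)

end Pool.Agent.Lib.H37D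
end

-- from Lib.H37N.T6b
section

/-! # H37N, chunk T6b (S): FC, flat correction by a small perturbation -/

open Set Filter Topology Asymptotics
open scoped ContDiff

namespace Pool.Agent.Lib.H37N

/-- T6 (FC).

PROOF. f := a global smooth function equal to G - id near z₀ (`localise_at`), f =O(‖z-z₀‖^(R+1)) near z₀; g from `flat_cut` with B ∩ interior K0 (a neighbourhood of z₀);
ψ z := z + g z: smooth, ψ z = z for z ∉ tsupport g ⊆ B ∩ K0, ψ - id = g. -/
theorem flat_corr (R : ℕ) {ε : ℝ} (hε : 0 < ε) {z₀ : Pt} (hz : z₀ ∈ interior K0) {G : Pt → Pt}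
    (hG : ∀ᶠ z in 𝓝 z₀, ContDiffAt ℝ ∞ G z)
    (h : (fun z => G z - z) =O[𝓝 z₀] fun z => ‖z - z₀‖ ^ (R + 1)) {B : Set Pt} (hB : B ∈ 𝓝 z₀) :
    ∃ ψ : Pt → Pt, Small R ε ψ ∧ (∀ z, z ∉ B → ψ z = z) ∧ ψ =ᶠ[𝓝 z₀] G := by
  have hG' : ∀ᶠ z in 𝓝 z₀, ContDiffAt ℝ ∞ (fun z => G z - z) z := by
    filter_upwards [hG] with z hz
    exact hz.sub contDiffAt_id
  obtain ⟨f, hf, hfG⟩ := localise_at hG'
  have hf2 : f =O[𝓝 z₀] fun z => ‖z - z₀‖ ^ (R + 1) := hfG.trans_isBigO h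
  have hB2 : B ∩ interior K0 ∈ 𝓝 z₀ := inter_mem hB (isOpen_interior.mem_nhds hz)
  obtain ⟨g, hg, hgc, hgs, hgf, hgb⟩ := flat_cut hf z₀ R hf2 hε hB2
  have h0 : ∀ z, z ∉ B ∩ interior K0 → g z = 0 := by
    intro z hz
    by_contra hne
    exact hz (hgs (subset_tsupport g hne))
  refine ⟨fun z => z + g z, ⟨contDiff_id.add hg, ?_, ?_⟩, ?_, ?_⟩
  · intro z hz
    have h1 : g z = 0 := h0 z (fun h => hz (interior_subset h.2))
    simp [h1]
  · intro j hj z
    have h1 : (fun z => z + g z - z) = g := by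
      funext z
      simp
    rw [h1]
    exact hgb j hj z
  · intro z hz
    have h1 : g z = 0 := h0 z (fun h => hz h.1)
    simp [h1]
  · filter_upwards [hgf, hfG] with z h1 h2
    rw [h1, h2]
    simp

end Pool.Agent.Lib.H37N
end

-- from Lib.H37D.DT67
section

/-! # H37D, DT67: small families in `En d` (port of T7); flat corrections are in DN06 -/

open Set Filter Topology Asymptotics
open scoped ContDiff

namespace Pool.Agent.Lib.H37D

open Pool.Agent.Lib.H37N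

variable {d : ℕ}

variable {P : Type} [NormedAddCommGroup P] [NormedSpace ℝ P]

/-- T7.

PROOF. h(p,z) = Ψ(p,z) - z is smooth.  For j ≤ R the function (p,z) ↦ ‖iteratedFDeriv j (h(p,·)) z‖ is continuous (`continuous_partial_iteratedFDeriv`) and 0 for p = p₀
(h(p₀,·) = 0).  For every z in C there are neighbourhoods with the value < ε; by compactness of C (tube lemma, `IsCompact.eventually_forall_of_forall_eventually`) for p near p₀ it is
< ε for all z ∈ C.  For z ∉ C (open complement) h(p,·) = 0 near z, so the derivative is 0 ≤ ε.  Finitely many j ≤ R. -/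
theorem small_familyD {Ψ : P × En d → En d} (hΨ : ContDiff ℝ ∞ Ψ) (p₀ : P) (h0 : ∀ z, Ψ (p₀, z) = z)
    {C : Set (En d)} (hC : IsCompact C) (hCK : C ⊆ K0D d) (hs : ∀ p z, z ∉ C → Ψ (p, z) = z) (R : ℕ) {ε : ℝ} (hε : 0 < ε) :
    ∀ᶠ p in 𝓝 p₀, SmallD R ε (fun z => Ψ (p, z)) := by
  have hh : ContDiff ℝ ∞ (fun q : P × En d => Ψ q - q.2) := hΨ.sub contDiff_snd
  have h1 : ∀ j : ℕ, ∀ᶠ p in 𝓝 p₀, ∀ z ∈ C,
      ‖iteratedFDeriv ℝ j (fun x => Ψ (p, x) - x) z‖ < ε := by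
    intro j
    have hc := continuous_partial_iteratedFDeriv (h := fun q : P × En d => Ψ q - q.2) hh j
    apply hC.eventually_forall_of_forall_eventually
    intro z _
    have h2 : Continuous (fun q : P × En d => ‖iteratedFDeriv ℝ j (fun x => Ψ (q.1, x) - x) q.2‖) :=
      hc.norm
    have h3 : ‖iteratedFDeriv ℝ j (fun x => Ψ (p₀, x) - x) z‖ < ε := by
      have h4 : (fun x => Ψ (p₀, x) - x) = fun _ => (0 : (En d)) := by
        funext x
        rw [h0, sub_self]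
      rw [h4, iteratedFDeriv_zero_fun]
      simpa using hε
    exact (h2.tendsto (p₀, z)).eventually (gt_mem_nhds h3)
  have h5 : ∀ᶠ p in 𝓝 p₀, ∀ j ∈ Finset.range (R + 1), ∀ z ∈ C,
      ‖iteratedFDeriv ℝ j (fun x => Ψ (p, x) - x) z‖ < ε := by
    rw [Filter.eventually_all_finset]
    intro j _
    exact h1 j
  filter_upwards [h5] with p hp
  refine ⟨hΨ.comp (contDiff_const.prodMk contDiff_id), fun z hz => hs p z fun h => hz (hCK h), ?_⟩
  intro j hj z
  by_cases hz : z ∈ C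
  · exact (hp j (Finset.mem_range.2 (by omega)) z hz).le
  · have h6 : (fun x => Ψ (p, x) - x) =ᶠ[𝓝 z] fun _ => (0 : (En d)) := by
      filter_upwards [hC.isClosed.isOpen_compl.mem_nhds hz] with x hx
      rw [hs p x hx, sub_self]
    have h7 := (h6.iteratedFDeriv ℝ j).eq_of_nhds
    show ‖iteratedFDeriv ℝ j (fun x => Ψ (p, x) - x) z‖ ≤ ε
    rw [h7, iteratedFDeriv_zero_fun]
    simpa using hε.le

end Pool.Agent.Lib.H37D
end

-- from Lib.H37D.DB04
section

/-! # H37D, chunk DB04 (S/M): small perturbations of the derivative at a point (port of H37N/B04.lean) -/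

open Set Filter Topology
open scoped ContDiff

namespace Pool.Agent.Lib.H37D

open Pool.Agent.Lib.H37N

variable {d : ℕ}

/-- PROOF. As `lin_pert`: Ψ(t,z) = z + χ z • (A t) (z - z₀), `small_familyD`. -/
theorem lin_pertD (R : ℕ) {ε : ℝ} (hε : 0 < ε) {z₀ : En d} (hz : z₀ ∈ interior (K0D d)) {T : Type}
    [NormedAddCommGroup T] [NormedSpace ℝ T] (A : T →L[ℝ] (En d →L[ℝ] En d))
    {B : Set (En d)} (hB : B ∈ 𝓝 z₀) :
    ∀ᶠ t in 𝓝 (0 : T), ∃ ψ : En d → En d, SmallD R ε ψ ∧ (∀ z, z ∉ B → ψ z = z) ∧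
      ψ =ᶠ[𝓝 z₀] fun z => z + A t (z - z₀) := by
  have hO : IsOpen (interior B ∩ interior (K0D d)) := isOpen_interior.inter isOpen_interior
  have hz0 : z₀ ∈ interior B ∩ interior (K0D d) := ⟨mem_interior_iff_mem_nhds.2 hB, hz⟩
  obtain ⟨χ, hχ, hcs, hts, -, h1⟩ :=
    exists_cutoff (isCompact_singleton (x := z₀)) hO (singleton_subset_iff.2 hz0)
  rw [nhdsSet_singleton] at h1
  have hA : ContDiff ℝ ∞ (fun q : T × En d => A q.1 (q.2 - z₀)) :=
    (A.contDiff.comp contDiff_fst).clm_apply (contDiff_snd.sub contDiff_const)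
  have hsm : ContDiff ℝ ∞ (fun q : T × En d => q.2 + χ q.2 • A q.1 (q.2 - z₀)) :=
    contDiff_snd.add ((hχ.comp contDiff_snd).smul hA)
  have hzero : ∀ (t : T) (z : En d), z ∉ tsupport χ → z + χ z • A t (z - z₀) = z := by
    intro t z hzt
    rw [image_eq_zero_of_notMem_tsupport hzt]
    simp
  have key := small_familyD hsm (0 : T) (fun z => by simp) (C := tsupport χ) hcs
    (fun z hzt => interior_subset (hts hzt).2) hzero R hε
  filter_upwards [key] with t ht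
  refine ⟨_, ht, ?_, ?_⟩
  · intro z hzB
    exact hzero t z fun h => hzB (interior_subset (hts h).1)
  · filter_upwards [h1] with z hz1
    simp only [hz1, one_smul]

end Pool.Agent.Lib.H37D
end

-- from Lib.H37N.B09
section

/-! # H37N, chunk B09 (M): a chart at one of the fixed points -/

open Set Filter Topology
open scoped ContDiff

namespace Pool.Agent.Lib.H37N

/-- PROOF. mu > 1. -/
theorem one_lt_of_muR {i : Sy} {mu : ℝ} (h : mu ∈ muR i) : 1 < mu := by
  cases i with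
  | P =>
    have h' : mu ∈ Ioo (124 / 100 : ℝ) (126 / 100) := h
    linarith [h'.1]
  | Q =>
    have h' : mu ∈ Ioo (5 : ℝ) (505 / 100) := h
    linarith [h'.1]



end Pool.Agent.Lib.H37N
end

-- from Lib.H37N.B19
section

/-! # H37N, chunk B19 (S): section B, main theorem, and independence of the values off VO -/

open Set Filter Topology
open scoped ContDiff

namespace Pool.Agent.Lib.H37N


/-- PROOF. If g^[j] z ∈ VO for j < n then g'^[j] z = g^[j] z for j ≤ n (induction, `Function.iterate_succ_apply'`). -/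
theorem iterate_eq_of_VO {g g' : Pt → Pt} (h : ∀ z ∈ VO, g' z = g z) {n : ℕ} {z : Pt}
    (hz : ∀ j < n, g^[j] z ∈ VO) : ∀ j ≤ n, g'^[j] z = g^[j] z := by
  intro j
  induction j with
  | zero => intro _; rfl
  | succ j ih =>
    intro hj
    rw [Function.iterate_succ_apply', Function.iterate_succ_apply', ih (by omega)]
    exact h _ (hz j (by omega))

/-- PROOF. By `iterate_eq_of_VO` for v near 0 (field path) g'^[j] (κP (v.1, uS+v.2)) = g^[j] (..) for j ≤ kS; so SM g' = SM g near 0 (and at 0), the same derivative. -/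
theorem SData.congr {g g' κP κQ cQ : Pt → Pt} {kS : ℕ} {uS sS : ℝ} (h : SData g κP κQ cQ kS uS sS)
    (hg : ∀ z ∈ VO, g' z = g z) : SData g' κP κQ cQ kS uS sS := by
  have key : ∀ᶠ v in 𝓝 (0 : Pt), ∀ j ≤ kS,
      g'^[j] (κP (v.1, uS + v.2)) = g^[j] (κP (v.1, uS + v.2)) := by
    filter_upwards [h.path] with v hv
    exact iterate_eq_of_VO hg (n := kS) (fun j hj => hv j hj.le)
  have hSM : SM g' κP cQ kS uS =ᶠ[𝓝 (0 : Pt)] SM g κP cQ kS uS := by
    filter_upwards [key] with v hv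
    unfold SM
    rw [hv kS le_rfl]
  have hfd : fderiv ℝ (SM g' κP cQ kS uS) 0 = fderiv ℝ (SM g κP cQ kS uS) 0 := hSM.fderiv_eq
  refine ⟨h.pos, h.u_ne, h.u_lt, h.s_lt, ?_, ?_, ?_, ?_, ?_, ?_, ?_⟩
  · filter_upwards [h.path, key] with v hv hk j hj
    rw [hk j hj]
    exact hv j hj
  · have h1 := key.self_of_nhds kS le_rfl
    simp only [Prod.fst_zero, Prod.snd_zero, add_zero] at h1
    rw [h1]
    exact h.hit
  · filter_upwards [h.smooth, hSM.eventually_nhds] with v h1 h2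
    exact h1.congr_of_eventuallyEq h2
  · rw [hSM.self_of_nhds]
    exact h.S0
  · filter_upwards [h.back, hSM, key] with v h1 h2 h3
    rw [h2, h3 kS le_rfl]
    exact h1
  · have := h.jac_pos
    unfold jac at this ⊢
    rw [hfd]
    exact this
  · rw [hfd]
    exact h.d_pos

theorem IsFr.congr {g g' : Pt → Pt} {F : Fr} (h : IsFr g F) (hg : ∀ z ∈ VO, g' z = g z) : IsFr g' F := by
  refine ⟨fun i => ?_, h.irr, h.sdata.congr hg⟩
  have hc := h.chart i
  refine { hc with lin := ?_ }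
  intro x y hx hy
  have hmu : 1 < F.mu i := by
    have := hc.mu_mem
    cases i
    · exact lt_trans (by norm_num) this.1
    · exact lt_trans (by norm_num) this.1
  have hy' : |y| < 2 := by
    rw [abs_mul, abs_of_pos (by linarith)] at hy
    nlinarith [abs_nonneg y]
  have hB : ((x, y) : Pt) ∈ Bx := ⟨abs_lt.1 hx, abs_lt.1 hy'⟩
  have hV : F.κ i (x, y) ∈ interior (VV i) := hc.sub ⟨_, hB, rfl⟩
  have hVO : F.κ i (x, y) ∈ VO := by
    cases i
    · exact Or.inl hV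
    · exact Or.inr hV
  rw [hg _ hVO]
  exact hc.lin x y hx hy

end Pool.Agent.Lib.H37N
end
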