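import Pool.Agent.Lib.H1M.FF.M012
import Pool.Agent.Lib.H1M.FF.M014
import Pool.Agent.Lib.H1M.FF.M024

/-! Merged copies (to shorten the build) of Lib.H37N.A37, Lib.H37N.A38, Lib.H37N.A39, Lib.H37N.A120, Lib.H37N.A123, Lib.H37N.A121. -/

-- from Lib.H37N.A37
section

/-!
# H37N A37 (size M): gaps of the leaves of a word (A.4)
-/

open Set Filter Topology

namespace Pool.Agent.Lib.H37N

variable {p q : Sy → ℝ} {X Y : Sy → Pt → ℝ}

noncomputable section

/-- `κ` -/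
def kap : ℝ := 1 / 10000

/-- the gap of the word at `x'` -/
def gp (X Y : Sy → Pt → ℝ) (w : List Sy) (x' : ℝ) : ℝ :=
  Gw X Y w (fixL X Y Sy.Q) x' - Gw X Y w (fixL X Y Sy.P) x'

end

/-! The base gaps (for all arguments, by `A14`): `fixL Q x - fixL P y` within `12 ee` of `1`,
`GG P (fixL Q) x - fixL P y` within `12 ee` of `q P`, `fixL Q x - GG Q (fixL P) y` within `12 ee` of `q Q` (`1 - q P - gam = q Q`),
`GG Q (fixL P) x - GG P (fixL Q) y` within `12 ee` of `gam`. Each pair is compared with the first one (both directions) by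
`leaf_dist`; `(1 + 1/20000) q ≤ q + kap`, `q / (1 + 1/20000) ≥ q - kap`. -/

/-- Proof: `Gw_strictMono`, the order of the base leaves (`A15`). -/
theorem gp_pos (h : CS p q X Y) (w : List Sy) (x' : ℝ) : 0 < gp X Y w x' := by
  unfold gp
  rw [sub_pos]
  exact Gw_strictMono h w (fixL_leaf h _) (fixL_leaf h _)
    (fun x => (fixP_lt_GPQ h x).trans ((GPQ_lt_GQP h x).trans (GQP_lt_fixQ h x))) x'

theorem a37_base (h : CS p q X Y) (x y : ℝ) :
    |fixL X Y Sy.Q x - fixL X Y Sy.P y - 1| ≤ 100 * ee := by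
  have h1 := abs_le.1 (fixL_Q_val h x)
  have h2 := abs_le.1 (fixL_P_val h y)
  have h3 := ee_pos
  rw [abs_le]
  constructor <;> linarith [h1.1, h1.2, h2.1, h2.2]

/-- comparison of a pair with the full pair -/
theorem a37_comp (h : CS p q X Y) (w : List Sy) {a b : ℝ → ℝ} (ha : IsLeaf a) (hb : IsLeaf b)
    {m : ℝ} (hm : gam / 2 ≤ m) (hm1 : m ≤ 1) (hab : ∀ x y, |b x - a y - m| ≤ 100 * ee) (x x' : ℝ) :
    (m - kap) * gp X Y w x' ≤ Gw X Y w b x - Gw X Y w a x ∧
      Gw X Y w b x - Gw X Y w a x ≤ (m + kap) * gp X Y w x' := by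
  have hm0 : 0 < m := lt_of_lt_of_le (by norm_num [gam]) hm
  have e1 := leaf_dist h w ha hb (fixL_leaf h Sy.P) (fixL_leaf h Sy.Q) (m := m) (m' := 1) hm
    (by norm_num [gam]) hab (a37_base h) x x'
  have e2 := leaf_dist h w (fixL_leaf h Sy.P) (fixL_leaf h Sy.Q) ha hb (m := 1) (m' := m)
    (by norm_num [gam]) hm (a37_base h) hab x' x
  have hg := gp_pos h w x'
  change _ ≤ (1 + 1 / 20000) * (gp X Y w x' / 1) at e1
  change gp X Y w x' / 1 ≤ _ at e2
  rw [div_one] at e1 e2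
  rw [div_le_iff₀ hm0] at e1
  generalize gp X Y w x' = g at *
  generalize Gw X Y w b x - Gw X Y w a x = d at *
  have e3 : m * g ≤ (1 + 1 / 20000) * d := by
    have := mul_le_mul_of_nonneg_left e2 hm0.le
    calc m * g ≤ m * ((1 + 1 / 20000) * (d / m)) := this
      _ = (1 + 1 / 20000) * d := by field_simp
  have e4 : m * g ≤ 1 * g := mul_le_mul_of_nonneg_right hm1 hg.le
  have e5 : 0 < m * g := mul_pos hm0 hg
  unfold kap
  constructor
  · nlinarith
  · nlinarith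

/-- Proof: `leaf_dist` with both pairs `(fixL P, fixL Q)`, `m = m' = 1`. -/
theorem gap_full (h : CS p q X Y) (w : List Sy) (x x' : ℝ) :
    (1 - kap) * gp X Y w x' ≤ gp X Y w x ∧ gp X Y w x ≤ (1 + kap) * gp X Y w x' :=
  a37_comp h w (fixL_leaf h _) (fixL_leaf h _) (by norm_num [gam]) le_rfl (a37_base h) x x'

theorem gap_P (h : CS p q X Y) (w : List Sy) (x x' : ℝ) :
    (q Sy.P - kap) * gp X Y w x' ≤
      Gw X Y w (GG X Y Sy.P (fixL X Y Sy.Q)) x - Gw X Y w (fixL X Y Sy.P) x ∧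
    Gw X Y w (GG X Y Sy.P (fixL X Y Sy.Q)) x - Gw X Y w (fixL X Y Sy.P) x ≤
      (q Sy.P + kap) * gp X Y w x' := by
  have hq := h.q0 Sy.P
  refine a37_comp h w (fixL_leaf h _) (GG_leaf h _ (fixL_leaf h _)) ?_ ?_ ?_ x x'
  · unfold gam; linarith [hq.1]
  · linarith [hq.2]
  · intro x y
    have h1 := abs_le.1 (GGPQ_val h x)
    have h2 := abs_le.1 (fixL_P_val h y)
    have h3 := ee_pos
    rw [abs_le]
    constructor <;> linarith [h1.1, h1.2, h2.1, h2.2]

theorem gap_Q (h : CS p q X Y) (w : List Sy) (x x' : ℝ) :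
    (q Sy.Q - kap) * gp X Y w x' ≤
      Gw X Y w (fixL X Y Sy.Q) x - Gw X Y w (GG X Y Sy.Q (fixL X Y Sy.P)) x ∧
    Gw X Y w (fixL X Y Sy.Q) x - Gw X Y w (GG X Y Sy.Q (fixL X Y Sy.P)) x ≤
      (q Sy.Q + kap) * gp X Y w x' := by
  have hq := h.q0 Sy.Q
  refine a37_comp h w (GG_leaf h _ (fixL_leaf h _)) (fixL_leaf h _) ?_ ?_ ?_ x x'
  · unfold gam; linarith [hq.1]
  · linarith [hq.2]
  · intro x y
    have h1 := abs_le.1 (fixL_Q_val h x)
    have h2 := abs_le.1 (GGQP_val h y)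
    have h3 := ee_pos
    have h4 := h.qsum
    rw [abs_le]
    constructor <;> linarith [h1.1, h1.2, h2.1, h2.2]

theorem gap_mid (h : CS p q X Y) (w : List Sy) (x x' : ℝ) :
    0 < Gw X Y w (GG X Y Sy.Q (fixL X Y Sy.P)) x - Gw X Y w (GG X Y Sy.P (fixL X Y Sy.Q)) x ∧
    Gw X Y w (GG X Y Sy.Q (fixL X Y Sy.P)) x - Gw X Y w (GG X Y Sy.P (fixL X Y Sy.Q)) x ≤
      2 * gam * gp X Y w x' := by
  constructor
  · rw [sub_pos]
    exact Gw_strictMono h w (GG_leaf h _ (fixL_leaf h _)) (GG_leaf h _ (fixL_leaf h _))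
      (fun x => GPQ_lt_GQP h x) x
  · have := (a37_comp h w (m := gam) (GG_leaf h Sy.P (fixL_leaf h Sy.Q))
      (GG_leaf h Sy.Q (fixL_leaf h Sy.P)) (by norm_num [gam]) (by norm_num [gam]) ?_ x x').2
    · refine this.trans (mul_le_mul_of_nonneg_right ?_ (gp_pos h w x').le)
      norm_num [gam, kap]
    · intro x y
      have h1 := abs_le.1 (GGQP_val h x)
      have h2 := abs_le.1 (GGPQ_val h y)
      have h3 := ee_pos
      rw [abs_le]
      constructor <;> linarith [h1.1, h1.2, h2.1, h2.2]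

end Pool.Agent.Lib.H37N
end

-- from Lib.H37N.A38
section

/-!
# H37N A38 (size M, book-keeping): the unstable leaves `Uu` of a near map: order, gaps
-/

open Set Filter Topology

namespace Pool.Agent.Lib.H37N

variable {g : Pt → Pt}

/-! Everything follows from `A12`, `A14`, `A15`, `A37` for the system `h.cs`
(`Uu g b (i :: w) = Gw _ _ w (GG _ _ i (fixL _ _ b))` by definition, `hU g w = gp (XX g) (YY g) w xc`). -/

theorem Uu_leaf (h : Near g) (b : Sy) (w : List Sy) : IsLeaf (Uu g b w) := by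
  exact Gw_leaf h.cs w (fixL_leaf h.cs b)


theorem Uu_append (g : Pt → Pt) (b : Sy) (u w : List Sy) :
    Uu g b (u ++ w) = Gw (XX g) (YY g) w (Uu g b u) := by
  exact Gw_append _ _ u w _











end Pool.Agent.Lib.H37N
end

-- from Lib.H37N.A39
section

/-!
# H37N A39 (size M, book-keeping): the stable leaves `Ss` of a near map: order, gaps
-/

open Set Filter Topology

namespace Pool.Agent.Lib.H37N

variable {g : Pt → Pt}

/-! Everything follows from `A12`, `A14`, `A15`, `A37` for the system `h.cs.swap`; `List.reverse_append`, `Gw_cons`: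
`Ss g b (v ++ [i]) = Gw _ _ v.reverse (GG _ _ i (fixL _ _ b))`, `hS g v = gp (swX (YY g)) (swX (XX g)) v.reverse yc`. -/

theorem Ss_leaf (h : Near g) (b : Sy) (v : List Sy) : IsLeaf (Ss g b v) :=
  Gw_leaf h.cs.swap _ (fixL_leaf h.cs.swap b)















end Pool.Agent.Lib.H37N
end

-- from Lib.H37N.A120
section

/-!
# H37N A120 (size M): one step of real orbits on leaves
-/

open Set Filter Topology

namespace Pool.Agent.Lib.H37N

variable {g : Pt → Pt}

/-- the preimage of the point over `x` of the transformed leaf. Proof. `x0 = sol (XX g) i f x` satisfies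
`x0 = XX g i (x, f x0)` (`sol_spec`, `cl_of_mem`), `(x, f x0) ∈ NN`; `XX_spec`: `(x0, f x0) ∈ VV i`, `(g (x0, f x0)).1 = x`, and
`(g (x0, f x0)).2 = YY g i (x, f x0) = GG .. i f x` by definition of `YY` and `GG`; `XX_int`, `GG_int`. -/
theorem step_U (h : Near g) (i : Sy) {f : ℝ → ℝ} (hf : IsLeaf f) {x : ℝ} (hx : x ∈ II) :
    (sol (XX g) i f x, f (sol (XX g) i f x)) ∈ VV i ∧
    sol (XX g) i f x ∈ Ioo (al i - del) (al i + pw i + del) ∧
    g (sol (XX g) i f x, f (sol (XX g) i f x)) = (x, GG (XX g) (YY g) i f x) := by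
  have hG : GG (XX g) (YY g) i f x = YY g i (x, f (sol (XX g) i f x)) := by
    unfold GG
    rw [cl_of_mem hx]
  have h1 := sol_spec h.cs i hf x
  rw [cl_of_mem hx] at h1
  rw [hG]
  generalize sol (XX g) i f x = s at *
  have hN : (x, f s) ∈ NN := ⟨hx, hf.mem s⟩
  have h2 := (XX_spec h i hN).1
  have h4 := XX_int h i hN
  have h5 := g_cross h i hN
  rw [← h1] at h2 h4 h5
  exact ⟨h2, h4, h5⟩


/-- two-point estimate along one step of real orbits. Proof. `cross_of` for both points and `X_diff`, `Y_diff` of `h.cs`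
(`pw, qw ≤ 4/5`). -/
theorem real_diff (h : Near g) (i : Sy) {z z' : Pt} (hz : z ∈ VV i) (hz' : z' ∈ VV i)
    (hgz : g z ∈ NN) (hgz' : g z' ∈ NN) :
    |z'.1 - z.1| ≤ 81 / 100 * |(g z').1 - (g z).1| + ee * |z'.2 - z.2| ∧
    |(g z').2 - (g z).2| ≤ 81 / 100 * |z'.2 - z.2| + ee * |(g z').1 - (g z).1| := by
  obtain ⟨a1, a2⟩ := cross_of h i hz hgz
  obtain ⟨b1, b2⟩ := cross_of h i hz' hgz'
  have hN : ((g z).1, z.2) ∈ NN := ⟨hgz.1, (VV_sub_NN i hz).2⟩
  have hN' : ((g z').1, z'.2) ∈ NN := ⟨hgz'.1, (VV_sub_NN i hz').2⟩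
  have hX : |z'.1 - z.1 - pw i * ((g z').1 - (g z).1)| ≤
      ee * |(g z').1 - (g z).1| + ee * |z'.2 - z.2| := by
    have h1 := h.cs.X_diff i hN hN'
    rw [a1, b1] at h1
    exact h1
  have hY : |(g z').2 - (g z).2 - qw i * (z'.2 - z.2)| ≤
      ee * |(g z').1 - (g z).1| + ee * |z'.2 - z.2| := by
    have h1 := h.cs.Y_diff i hN hN'
    rw [a2, b2] at h1
    exact h1
  have hp : 0 ≤ pw i ∧ pw i ≤ 4 / 5 := by cases i <;> norm_num [pw]
  have hq : 0 ≤ qw i ∧ qw i ≤ 4 / 5 := by cases i <;> norm_num [qw]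
  have he : ee ≤ 1 / 1000 := by norm_num [ee]
  have hB := abs_nonneg ((g z').1 - (g z).1)
  have hD := abs_nonneg (z'.2 - z.2)
  constructor
  · have h1 := abs_sub_abs_le_abs_sub (z'.1 - z.1) (pw i * ((g z').1 - (g z).1))
    rw [abs_mul, abs_of_nonneg hp.1] at h1
    nlinarith [mul_nonneg (sub_nonneg.2 hp.2) hB, mul_nonneg (sub_nonneg.2 he) hB]
  · have h1 := abs_sub_abs_le_abs_sub ((g z').2 - (g z).2) (qw i * (z'.2 - z.2))
    rw [abs_mul, abs_of_nonneg hq.1] at h1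
    nlinarith [mul_nonneg (sub_nonneg.2 hq.2) hD, mul_nonneg (sub_nonneg.2 he) hD]


end Pool.Agent.Lib.H37N
end

-- from Lib.H37N.A123
section

/-!
# H37N A123 (size M): the fixed points
-/

open Set Filter Topology

namespace Pool.Agent.Lib.H37N

variable {g : Pt → Pt}

theorem a123_int {b : Sy} {x y : ℝ} (hx : x ∈ Ioo (al b - del) (al b + pw b + del))
    (hy : y ∈ Ioo (-del) (1 + del)) : ((x, y) : Pt) ∈ interior (VV b) := by
  unfold VV
  rw [interior_prod_eq, interior_Icc, interior_Icc]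
  exact ⟨hx, hy⟩

theorem a123_contr (h : Near g) (b : Sy) {f : ℝ → ℝ} (hf : IsLeaf f) :
    ∃ x, sol (XX g) b f x = x := by
  have hK : ContractingWith (82 / 100 : NNReal) (fun x => sol (XX g) b f x) := by
    refine ⟨?_, ?_⟩
    · rw [← NNReal.coe_lt_coe]
      push_cast
      norm_num
    · refine LipschitzWith.of_dist_le_mul fun x y => ?_
      rw [Real.dist_eq, Real.dist_eq]
      have h1 := sol_lip h.cs b hf x y
      have h2 := cl_lip x y
      have h3 : pw b + 2 * ee ≤ 82 / 100 := by cases b <;> norm_num [pw, ee]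
      have h4 : ((82 / 100 : NNReal) : ℝ) = 82 / 100 := by push_cast; norm_num
      rw [h4]
      exact h1.trans (mul_le_mul h3 h2 (abs_nonneg _) (by norm_num))
  exact ⟨ContractingWith.fixedPoint _ hK, ContractingWith.fixedPoint_isFixedPt hK⟩

/-- Proof. Existence: the map `x ↦ sol (XX g) b f x`, `f = fixL (XX g) (YY g) b`, is a contraction of `ℝ` (`sol_lip`, `cl_lip`), let
`x` be its fixed point (`ContractingWith.fixedPoint`); `x ∈ II` (`sol_mem`) and `step_U` gives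
`g (x, f x) = (x, GG f x) = (x, f x)`, and `(x, f x) ∈ interior (VV b)` (`interior_prod_eq`; `f x = GG f x` is interior,
`GG_int`). Uniqueness: `real_diff` for two fixed points in `VV b ⊆ NN` gives `E ≤ .81 E + ee F`, `F ≤ .81 F + ee E`, so
`E = F = 0`. `Classical.epsilon_spec`. -/
theorem fixP_spec (h : Near g) (b : Sy) : fixP g b ∈ interior (VV b) ∧ g (fixP g b) = fixP g b ∧
    ∀ z ∈ VV b, g z = z → z = fixP g b := by
  have huniq : ∀ z ∈ VV b, ∀ z' ∈ VV b, g z = z → g z' = z' → z = z' := by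
    intro z hz z' hz' hg hg'
    have h1 := real_diff h b hz hz' (hg.symm ▸ VV_sub_NN b hz) (hg'.symm ▸ VV_sub_NN b hz')
    rw [hg, hg'] at h1
    obtain ⟨h2, h3⟩ := h1
    have h4 := abs_nonneg (z'.1 - z.1)
    have h5 := abs_nonneg (z'.2 - z.2)
    have he : ee = 1 / 10 ^ 10 := rfl
    rw [he] at h2 h3
    have h6 : |z'.1 - z.1| = 0 := by linarith
    have h7 : |z'.2 - z.2| = 0 := by linarith
    rw [abs_eq_zero, sub_eq_zero] at h6 h7
    exact Prod.ext h6.symm h7.symm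
  have hf := fixL_leaf h.cs b
  obtain ⟨x, hx⟩ := a123_contr h b hf
  have hxI : x ∈ II := by
    have h1 := sol_mem h.cs b hf x
    rw [hx] at h1
    exact ⟨h1.1.le, h1.2.le⟩
  obtain ⟨h1, h2, h3⟩ := step_U h b hf hxI
  rw [hx] at h1 h2 h3
  have h4 : GG (XX g) (YY g) b (fixL (XX g) (YY g) b) x ∈ Ioo (-del) (1 + del) :=
    GG_int h.cs b hf x
  rw [fixL_fix h.cs b] at h3 h4
  have h5 := a123_int h2 h4
  have hsp : fixP g b ∈ VV b ∧ g (fixP g b) = fixP g b :=
    Classical.epsilon_spec (p := fun z => z ∈ VV b ∧ g z = z) ⟨_, h1, h3⟩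
  have h6 := huniq _ h1 _ hsp.1 h3 hsp.2
  exact ⟨h6 ▸ h5, hsp.2, fun z hz hgz => huniq z hz _ hsp.1 hgz hsp.2⟩

end Pool.Agent.Lib.H37N
end

-- from Lib.H37N.A121
section

/-!
# H37N A121 (size M): backward orbits in the strips (A.12): uniqueness, convergence
-/

open Set Filter Topology

namespace Pool.Agent.Lib.H37N

variable {g : Pt → Pt}

theorem a121_iter {E F : ℕ → ℝ} {N0 : ℕ} (hE2 : ∀ n, N0 ≤ n → E n ≤ 2) (hF2 : ∀ n, N0 ≤ n → F n ≤ 2)
    (h1 : ∀ n, N0 ≤ n → E (n + 1) ≤ 81 / 100 * E n + ee * F (n + 1))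
    (h2 : ∀ n, N0 ≤ n → F n ≤ 81 / 100 * F (n + 1) + ee * E n) (k : ℕ) :
    ∀ n, N0 + k ≤ n → E n ≤ 2 * (82 / 100) ^ k ∧ F n ≤ 2 * (82 / 100) ^ k := by
  have he : ee ≤ 1 / 1000 := by norm_num [ee]
  have he0 := ee_pos
  induction k with
  | zero =>
    intro n hn
    rw [pow_zero, mul_one]
    exact ⟨hE2 n (by omega), hF2 n (by omega)⟩
  | succ k ih =>
    intro n hn
    obtain ⟨m, rfl⟩ : ∃ m, n = m + 1 := ⟨n - 1, by omega⟩
    have a1 := (ih m (by omega)).1
    have a2 := ih (m + 1) (by omega)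
    have a3 := ih (m + 1 + 1) (by omega)
    have hM : (0 : ℝ) < 2 * (82 / 100) ^ k := by positivity
    have b1 := h1 m (by omega)
    have b2 := h2 (m + 1) (by omega)
    rw [pow_succ]
    generalize (82 / 100 : ℝ) ^ k = M at *
    have c1 : ee * F (m + 1) ≤ ee * (2 * M) := mul_le_mul_of_nonneg_left a2.2 he0.le
    have c2 : ee * E (m + 1) ≤ ee * (2 * M) := mul_le_mul_of_nonneg_left a2.1 he0.le
    have c3 : ee * (2 * M) ≤ 1 / 1000 * (2 * M) := mul_le_mul_of_nonneg_right he hM.le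
    constructor
    · linarith
    · linarith [a3.2]

theorem a121_zero {E F : ℕ → ℝ} (hE0 : E 0 = 0) (hE2 : ∀ n, E n ≤ 2) (hF2 : ∀ n, F n ≤ 2)
    (hF0 : 0 ≤ F 0)
    (h1 : ∀ n, E (n + 1) ≤ 81 / 100 * E n + ee * F (n + 1))
    (h2 : ∀ n, F n ≤ 81 / 100 * F (n + 1) + ee * E n) : F 0 = 0 := by
  have he : ee ≤ 1 / 1000 := by norm_num [ee]
  have he0 := ee_pos
  have key : ∀ k : ℕ, ∀ n, E n ≤ 2 * (82 / 100) ^ k ∧ F n ≤ 2 * (82 / 100) ^ k := by
    intro k
    induction k with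
    | zero =>
      intro n
      rw [pow_zero, mul_one]
      exact ⟨hE2 n, hF2 n⟩
    | succ k ih =>
      intro n
      have hM : (0 : ℝ) < 2 * (82 / 100) ^ k := by positivity
      have a1 := ih n
      have a2 := ih (n + 1)
      have b2 := h2 n
      rw [pow_succ]
      constructor
      · rcases n with _ | m
        · rw [hE0]; positivity
        · have a3 := (ih m).1
          have b1 := h1 m
          generalize (82 / 100 : ℝ) ^ k = M at *
          have c1 : ee * F (m + 1) ≤ ee * (2 * M) := mul_le_mul_of_nonneg_left a1.2 he0.le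
          have c3 : ee * (2 * M) ≤ 1 / 1000 * (2 * M) := mul_le_mul_of_nonneg_right he hM.le
          linarith
      · generalize (82 / 100 : ℝ) ^ k = M at *
        have c1 : ee * E n ≤ ee * (2 * M) := mul_le_mul_of_nonneg_left a1.1 he0.le
        have c3 : ee * (2 * M) ≤ 1 / 1000 * (2 * M) := mul_le_mul_of_nonneg_right he hM.le
        linarith [a2.2]
  refine le_antisymm ?_ hF0
  have ht : Tendsto (fun k : ℕ => (2 : ℝ) * (82 / 100) ^ k) atTop (𝓝 (2 * 0)) :=
    (tendsto_pow_atTop_nhds_zero_of_lt_one (by norm_num) (by norm_num)).const_mul 2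
  rw [mul_zero] at ht
  exact ge_of_tendsto' ht fun k => (key k 0).2

theorem a121_two {z z' : Pt} (hz : z ∈ NN) (hz' : z' ∈ NN) :
    |z'.1 - z.1| ≤ 2 ∧ |z'.2 - z.2| ≤ 2 := by
  obtain ⟨⟨a1, a2⟩, a3, a4⟩ := hz
  obtain ⟨⟨b1, b2⟩, b3, b4⟩ := hz'
  have hd : del ≤ 1 / 10 := by norm_num [del]
  constructor <;> rw [abs_le] <;> constructor <;> linarith

/-- Two infinite backward orbits in the strips with the same itinerary and the same first coordinate agree at time `0`.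
Proof. `E n = |(ζ' n).1 - (ζ n).1|`, `F n = |(ζ' n).2 - (ζ n).2|` (all `≤ 2`). `real_diff` for `ζ (n+1)`:
`E (n+1) ≤ .81 E n + ee F (n+1)`, `F n ≤ .81 F (n+1) + ee E n`. Let `M` be a bound of all `F n`. From `E 0 = 0`:
`E n ≤ 6 ee M` for all `n` (induction), so `F n ≤ .81 M + 6 ee^2 M ≤ .82 M`. Iterating, `F 0 ≤ (.82)^k * 2` for all `k`. -/
theorem back_unique (h : Near g) {ι : ℕ → Sy} {ζ ζ' : ℕ → Pt} (hN : ζ 0 ∈ NN) (hN' : ζ' 0 ∈ NN)
    (hV : ∀ n, ζ (n + 1) ∈ VV (ι n)) (hV' : ∀ n, ζ' (n + 1) ∈ VV (ι n))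
    (hg : ∀ n, g (ζ (n + 1)) = ζ n) (hg' : ∀ n, g (ζ' (n + 1)) = ζ' n)
    (h0 : (ζ 0).1 = (ζ' 0).1) : ζ 0 = ζ' 0 := by
  have hNN : ∀ n, ζ n ∈ NN := by
    intro n
    rcases n with _ | n
    · exact hN
    · exact VV_sub_NN _ (hV n)
  have hNN' : ∀ n, ζ' n ∈ NN := by
    intro n
    rcases n with _ | n
    · exact hN'
    · exact VV_sub_NN _ (hV' n)
  have hd : ∀ n, |(ζ' (n + 1)).1 - (ζ (n + 1)).1| ≤ 81 / 100 * |(ζ' n).1 - (ζ n).1| +
        ee * |(ζ' (n + 1)).2 - (ζ (n + 1)).2| ∧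
      |(ζ' n).2 - (ζ n).2| ≤ 81 / 100 * |(ζ' (n + 1)).2 - (ζ (n + 1)).2| +
        ee * |(ζ' n).1 - (ζ n).1| := by
    intro n
    have h1 := real_diff h (ι n) (hV n) (hV' n) (by rw [hg n]; exact hNN n)
      (by rw [hg' n]; exact hNN' n)
    rw [hg n, hg' n] at h1
    exact h1
  have h3 := a121_zero (E := fun n => |(ζ' n).1 - (ζ n).1|) (F := fun n => |(ζ' n).2 - (ζ n).2|)
    (by show |(ζ' 0).1 - (ζ 0).1| = 0; rw [h0, sub_self, abs_zero])
    (fun n => (a121_two (hNN n) (hNN' n)).1) (fun n => (a121_two (hNN n) (hNN' n)).2)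
    (abs_nonneg _) (fun n => (hd n).1) (fun n => (hd n).2)
  have h4 : (ζ' 0).2 - (ζ 0).2 = 0 := abs_eq_zero.1 h3
  exact Prod.ext h0 (by linarith)

/-- A bounded backward orbit which stays in `VV b` from some time on tends to the fixed point. Proof. For `n ≥ N0` compare
with the constant orbit `fixP g b` (`real_diff`): `E (n+1) ≤ .81 E n + ee F (n+1)`, `F n ≤ .81 F (n+1) + ee E n`, `E, F ≤ 2`. First
`F n ≤ 6 ee sup_{m ≥ n} E m`-type bound (iterate the second inequality forward in `n`: `F n ≤ .81^k F (n+k) + ee ∑ .81^j E (n+j)`),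
so with `S n = sup_{m ≥ n} E m`: `F n ≤ 6 ee S n` and `S (n+1) ≤ .82 S n`; or: `lim sup E ≤ .81 lim sup E + 6 ee^2 lim sup E`. -/
theorem back_tendsto (h : Near g) (b : Sy) {ζ : ℕ → Pt} {N0 : ℕ} (hN : ∀ n, ζ n ∈ NN)
    (hV : ∀ n, N0 ≤ n → ζ (n + 1) ∈ VV b) (hg : ∀ n, g (ζ (n + 1)) = ζ n) :
    Tendsto ζ atTop (𝓝 (fixP g b)) := by
  obtain ⟨hp1, hp2, _⟩ := fixP_spec h b
  have hpV : fixP g b ∈ VV b := interior_subset hp1
  have hpN : fixP g b ∈ NN := VV_sub_NN b hpV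
  generalize fixP g b = p at *
  have hd : ∀ n, N0 ≤ n → |(ζ (n + 1)).1 - p.1| ≤ 81 / 100 * |(ζ n).1 - p.1| +
        ee * |(ζ (n + 1)).2 - p.2| ∧
      |(ζ n).2 - p.2| ≤ 81 / 100 * |(ζ (n + 1)).2 - p.2| + ee * |(ζ n).1 - p.1| := by
    intro n hn
    have h1 := real_diff h b hpV (hV n hn) (by rw [hp2]; exact hpN)
      (by rw [hg n]; exact hN n)
    rw [hg n, hp2] at h1
    exact h1
  have key := a121_iter (E := fun n => |(ζ n).1 - p.1|) (F := fun n => |(ζ n).2 - p.2|)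
    (N0 := N0) (fun n _ => (a121_two hpN (hN n)).1) (fun n _ => (a121_two hpN (hN n)).2)
    (fun n hn => (hd n hn).1) (fun n hn => (hd n hn).2)
  rw [← tendsto_add_atTop_iff_nat N0, tendsto_iff_dist_tendsto_zero]
  have ht : Tendsto (fun k : ℕ => (2 : ℝ) * (82 / 100) ^ k) atTop (𝓝 (2 * 0)) :=
    (tendsto_pow_atTop_nhds_zero_of_lt_one (by norm_num) (by norm_num)).const_mul 2
  rw [mul_zero] at ht
  refine squeeze_zero (fun n => dist_nonneg) (fun n => ?_) ht
  have h1 := key n (n + N0) (by omega)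
  rw [Prod.dist_eq, Real.dist_eq, Real.dist_eq]
  exact max_le h1.1 h1.2


end Pool.Agent.Lib.H37N
end
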