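import Pool.Agent.Lib.H1M.FF.M001
import Pool.Agent.Lib.H1M.FF.M009
import Pool.Agent.Lib.H1M.FF.M013
import Pool.Agent.Lib.H1M.FF.M020
import Pool.Agent.Lib.H1M.FF.M021
import Pool.Agent.Lib.H1M.FF.M027

/-! Merged copies (to shorten the build) of Lib.H37C.E2, Lib.H37C.F2, Lib.H37C.F1, Lib.H37C.S6, Lib.H37C.S7, Lib.H37C.G2, Lib.H37D.DHDefs, Lib.H37D.DH40, Lib.H37D.DH41, Lib.H37D.DH44, Lib.H37D.DH61. -/

-- from Lib.H37C.E2
section

open TopologicalSpace Set Filter Topology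
open scoped Manifold ContDiff
open Pool.Agent.Lib.Helper37.ConjBorel

namespace Pool.Agent.Lib.H37C

variable {n : ℕ} {M : Type*} [TopologicalSpace M] [ChartedSpace (Euc n) M]


theorem e2_ev {Z : Type*} [TopologicalSpace Z] {φ : OpenPartialHomeomorph M (Euc n)} {z₀ : Z}
    {x₀ : Euc n} (hx₀ : x₀ ∈ φ.target) {s : Set M} (hs : IsOpen s) (h : φ.symm x₀ ∈ s) :
    ∀ᶠ p : Z × Euc n in 𝓝 (z₀, x₀), φ.symm p.2 ∈ s := by
  have h1 : ContinuousAt (fun p : Z × Euc n => φ.symm p.2) (z₀, x₀) :=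
    ContinuousAt.comp (g := φ.symm) (f := fun p : Z × Euc n => p.2) (φ.symm.continuousAt hx₀)
      continuous_snd.continuousAt
  exact h1.eventually (hs.mem_nhds h)


/-- **E2, second part.** Composition with a fixed diffeomorphism.

Proof: charts `φ, ψ'`, a point `x₀`; let `p = g z₀ (φ.symm x₀)` and `χ = chartAt p`. Near `(z₀, x₀)`
the expression `ψ' ∘ f ∘ g z ∘ φ.symm` is `(ψ' ∘ f ∘ χ.symm) ∘ (χ ∘ g z ∘ φ.symm)`; `RegN.comp`
with `regN_of_contDiffOn`, `contDiffOn_expr`. -/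
theorem JC.comp_left [IsManifold (𝓡 n) ∞ M] {Z : Type*} [TopologicalSpace Z] {g : Z → M → M}
    (hg : JC (n := n) g) (f : DiffInf n M) : JC (n := n) (fun z => (f ∘ g z : M → M)) := by
  refine ⟨f.continuous.comp hg.1, ?_⟩
  intro φ hφ χ hχ z₀ x₀ hx₀ hgx
  set p := g z₀ (φ.symm x₀) with hp
  set κ := chartAt (Euc n) p with hκ
  have hκm : κ ∈ IsManifold.maximalAtlas (𝓡 n) ∞ M := IsManifold.chart_mem_maximalAtlas _
  have hpκ : p ∈ κ.source := mem_chart_source _ _
  have h1 := hg.2 φ hφ κ hκm z₀ x₀ hx₀ hpκ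
  have hfp : f p ∈ χ.source := hgx
  have h2 : Pool.Agent.Lib.Helper37.ConjBorel.RegN ⊤ (fun _ : Z => (χ ∘ f ∘ κ.symm : Euc n → Euc n)) z₀
      ((κ ∘ g z₀ ∘ φ.symm : Euc n → Euc n) x₀) := by
    refine regN_of_contDiffOn (isOpen_expr f.continuous κ χ)
      (contDiffOn_expr f.contMDiff hκm hχ) z₀ ⟨κ.map_source hpκ, ?_⟩
    show f (κ.symm (κ p)) ∈ χ.source
    rwa [κ.left_inv hpκ]
  have h3 := Pool.Agent.Lib.Helper37.ConjBorel.RegN.comp (G := fun _ : Z => (χ ∘ f ∘ κ.symm : Euc n → Euc n))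
    (H := fun z => (κ ∘ g z ∘ φ.symm : Euc n → Euc n)) h2 h1
  refine h3.congr ?_
  have h4 : ContinuousAt (fun q : Z × Euc n => g q.1 (φ.symm q.2)) (z₀, x₀) :=
    ContinuousAt.comp (g := fun q : Z × M => g q.1 q.2)
      (f := fun q : Z × Euc n => (q.1, φ.symm q.2)) hg.1.continuousAt
      (continuous_fst.continuousAt.prodMk (ContinuousAt.comp (g := φ.symm)
        (f := fun q : Z × Euc n => q.2) (φ.symm.continuousAt hx₀) continuous_snd.continuousAt))
  filter_upwards [h4.eventually (κ.open_source.mem_nhds hpκ)] with q hq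
  show χ (f (κ.symm (κ (g q.1 (φ.symm q.2))))) = χ (f (g q.1 (φ.symm q.2)))
  rw [κ.left_inv hq]

end Pool.Agent.Lib.H37C
end

-- from Lib.H37C.F2
section

open TopologicalSpace Set Filter Topology
open scoped Manifold ContDiff
open Pool.Agent.Lib.Helper37.ConjBorel

namespace Pool.Agent.Lib.H37C

variable {n : ℕ} {M : Type*} [TopologicalSpace M] [ChartedSpace (Euc n) M]
variable {e : OpenPartialHomeomorph M (Euc n)} {lt : ℕ → ℕ → Prop} [IsStrictTotalOrder ℕ lt]

omit [IsStrictTotalOrder ℕ lt] in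
theorem f2_gap {k k' : ℝ} [IsStrictTotalOrder ℕ lt] (hk : k ∈ Kset lt) (hk' : k' ∈ Kset lt)
    (h : k < k') : ∃ x ∈ Icc k k', x ∉ Kset lt := by
  obtain ⟨i, h1, h2⟩ := exists_gap hk hk' h
  have hw := wt_pos i
  refine ⟨lend lt i + wt i / 2, ⟨by linarith, by linarith⟩, fun hx => ?_⟩
  rcases hx.2.2 i with h3 | h3 <;> linarith




end Pool.Agent.Lib.H37C
end

-- from Lib.H37C.F1
section

open TopologicalSpace Set Filter Topology
open scoped Manifold ContDiff
open Pool.Agent.Lib.Helper37.ConjBorel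

namespace Pool.Agent.Lib.H37C

section

variable {lt : ℕ → ℕ → Prop} [IsStrictTotalOrder ℕ lt]

/-- **F1.** If the order `lt` has a first element `b` and a last element `t`, then `Kint lt` is closed:
it is `{k ∈ Kset lt | wt b ≤ k ≤ 1 - wt t}`.

Proof: `lend lt b = 0`, so a point `k > 0` of `Kset` is `≥ wt b`; `lend lt t + wt t = 1`
(`lend_add`: all indices), so a point `k < 1` of `Kset` is `≤ lend lt t = 1 - wt t`. `Kset` is an
intersection of closed sets. -/
theorem isClosed_Kint {b t : ℕ} (hb : ∀ i, i ≠ b → lt b i) (ht : ∀ i, i ≠ t → lt i t) :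
    IsClosed (Kint lt) ∧ Kint lt ⊆ Icc (wt b) (1 - wt t) := by
  have hlb : lend lt b = 0 := by
    rw [lend_eq_pt]
    have : {j | lt j b} = ∅ := by
      ext j
      simp only [mem_setOf_eq, mem_empty_iff_false, iff_false]
      intro hj
      by_cases h : j = b
      · rw [h] at hj; exact irrefl_of lt _ hj
      · exact asymm_of lt hj (hb j h)
    rw [this]
    simp [pt]
  have hlt : lend lt t + wt t = 1 := by
    rw [lend_add]
    have : {j | j = t ∨ lt j t} = univ := by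
      ext j
      simp only [mem_setOf_eq, mem_univ, iff_true]
      by_cases h : j = t
      · exact Or.inl h
      · exact Or.inr (ht j h)
    rw [this]
    have := pt_compl univ
    simpa [pt] using this
  have hsub : Kint lt ⊆ Icc (wt b) (1 - wt t) := by
    rintro k ⟨hk, hk0, hk1⟩
    constructor
    · rcases hk.2.2 b with h | h
      · rw [hlb] at h; exact absurd hk0 (not_lt.2 h)
      · rw [hlb] at h; linarith
    · rcases hk.2.2 t with h | h
      · linarith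
      · rw [hlt] at h; exact absurd hk1 (not_lt.2 h)
  refine ⟨?_, hsub⟩
  have heq : Kint lt = Kset lt ∩ Icc (wt b) (1 - wt t) := by
    apply Subset.antisymm
    · exact fun k hk => ⟨hk.1, hsub hk⟩
    · rintro k ⟨hk, h1, h2⟩
      exact ⟨hk, (wt_pos b).trans_le h1, by linarith [wt_pos t]⟩
  rw [heq]
  refine IsClosed.inter ?_ isClosed_Icc
  have : Kset lt = Icc 0 1 ∩ ⋂ i, ({r | r ≤ lend lt i} ∪ {r | lend lt i + wt i ≤ r}) := by
    ext r
    simp only [Kset, mem_setOf_eq, mem_inter_iff, mem_Icc, mem_iInter, mem_union]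
    tauto
  rw [this]
  exact isClosed_Icc.inter (isClosed_iInter fun i =>
    (isClosed_le continuous_id continuous_const).union (isClosed_le continuous_const continuous_id))

end

variable {n : ℕ} {M : Type*} [TopologicalSpace M] [ChartedSpace (Euc n) M]
variable {e : OpenPartialHomeomorph M (Euc n)}






end Pool.Agent.Lib.H37C
end

-- from Lib.H37C.S6
section

open TopologicalSpace Set Filter Topology
open scoped Manifold ContDiff
open Pool.Agent.Lib.Helper37.ConjBorel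

namespace Pool.Agent.Lib.H37C

/-- **S6.** The left ends of the gaps depend continuously on the order.

Proof: `continuous_tsum` with the summable bound `wt j`; each term is continuous, as the set
`{t | lt t j i}` is clopen (`IsClopen.continuous_indicator`-like, `continuous_const.piecewise`). -/
theorem continuous_lend {T : Type*} [TopologicalSpace T] (lt : T → ℕ → ℕ → Prop)
    (hc : ∀ i j, IsClopen {t | lt t i j}) (i : ℕ) : Continuous fun t => lend (lt t) i := by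
  unfold lend
  refine continuous_tsum (u := wt) (fun j => ?_) hasSum_wt.summable (fun j t => ?_)
  · have e : (fun t => Set.indicator {j | lt t j i} wt j)
        = Set.indicator {t | lt t j i} (fun _ => wt j) := by
      funext t
      by_cases h : lt t j i
      · rw [Set.indicator_of_mem (s := {j | lt t j i}) h, Set.indicator_of_mem (s := {t | lt t j i}) h]
      · rw [Set.indicator_of_notMem (s := {j | lt t j i}) h,
          Set.indicator_of_notMem (s := {t | lt t j i}) h]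
    rw [e]
    refine continuous_const.indicator ?_
    intro a ha
    rw [(hc j i).frontier_eq] at ha
    exact absurd ha (Set.notMem_empty a)
  · have h0 : 0 ≤ wt j := (wt_pos j).le
    rw [Real.norm_eq_abs, abs_of_nonneg (Set.indicator_nonneg (fun _ _ => (wt_pos _).le) j)]
    exact Set.indicator_le_self' (fun _ _ => (wt_pos _).le) j

theorem s6_contDiff {n : ℕ} (i : ℕ) {s : ℝ} (hs : 0 ≤ s) :
    ContDiff ℝ ∞ (fun x : Euc n => eps n i • Vf (wt i) s x) := by
  rw [contDiff_iff_contDiffAt]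
  intro x
  have h := (Vf_contDiffOn (n := n) (wt_pos i)).contDiffAt (x := (s, x))
    ((isOpen_lt continuous_const continuous_fst).mem_nhds (by
      show -(1 / 2) < s
      linarith))
  have h2 : ContDiffAt ℝ ∞ (fun x : Euc n => (s, x)) x := (contDiff_prodMk_right s).contDiffAt
  exact (ContDiffAt.comp x (g := fun p : ℝ × Euc n => Vf (wt i) p.1 p.2) h h2).const_smul _

theorem s6_reg {n : ℕ} {T : Type*} [TopologicalSpace T] (lt : T → ℕ → ℕ → Prop)
    (hc : ∀ i j, IsClopen {t | lt t i j}) (i : ℕ) (t₀ : T) (x₀ : Euc n) :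
    RegN ⊤ (fun t => (fun x : Euc n => eps n i • Vf (wt i) (lend (lt t) i) x)) t₀ x₀ := by
  refine RegN.reparam (g := fun s => (fun x : Euc n => eps n i • Vf (wt i) s x))
    (σ := fun t => lend (lt t) i) ?_ (continuous_lend lt hc i).continuousAt
  refine regN_of_joint _ (O := {p : ℝ × Euc n | -(1 / 2) < p.1})
    (isOpen_lt continuous_const continuous_fst) ?_ ?_
  · exact (Vf_contDiffOn (n := n) (wt_pos i)).const_smul _
  · show -(1 / 2) < lend (lt t₀) i
    have := lend_nonneg (lt t₀) i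
    linarith

/-- **S6, second part.** The field is a regular family.

Proof: the term `i` is the family `s ↦ (x ↦ eps n i • Vf (wt i) s x)`, reparametrized by
`s = lend (lt t) i`; it is regular (`Vf_contDiffOn`, `regN_of_joint`, `RegN.reparam`,
`continuous_lend`) and its `k`-th derivatives are bounded by the summable sequence of `eps_bound n k`
(`lend_nonneg`, `lend_add_le_one`). So the sum is smooth (`contDiff_tsum`), its `k`-th derivative is
the sum of the `k`-th derivatives (`iteratedFDeriv_tsum`), and this is continuous in `(t, x)`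
(`continuous_tsum`). -/
theorem fld_regN {n : ℕ} {T : Type*} [TopologicalSpace T] (lt : T → ℕ → ℕ → Prop)
    (hs : ∀ t, IsStrictTotalOrder ℕ (lt t)) (hc : ∀ i j, IsClopen {t | lt t i j}) (t₀ : T)
    (x₀ : Euc n) : RegN ⊤ (fun t => (Fld (lt t) : Euc n → Euc n)) t₀ x₀ := by
  choose u hu hb using eps_bound n
  have hB : ∀ (t : T) (k i : ℕ) (x : Euc n),
      ‖iteratedFDeriv ℝ k (fun x : Euc n => eps n i • Vf (wt i) (lend (lt t) i) x) x‖ ≤ u k i := by
    intro t k i x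
    have := hs t
    exact hb k i _ (lend_nonneg _ _) (lend_add_le_one i) x
  have hC : ∀ (t : T) (i : ℕ),
      ContDiff ℝ ((⊤ : ℕ∞) : WithTop ℕ∞)
        (fun x : Euc n => eps n i • Vf (wt i) (lend (lt t) i) x) := by
    intro t i
    exact s6_contDiff i (lend_nonneg _ _)
  refine ⟨Eventually.of_forall fun p => ?_, fun k _ => ?_⟩
  · have h := contDiff_tsum (𝕜 := ℝ) (N := (⊤ : ℕ∞)) (v := u) (hC p.1) (fun k _ => hu k)
      (fun k i x _ => hB p.1 k i x)
    exact h.contDiffAt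
  · have e : (fun p : T × Euc n => iteratedFDeriv ℝ k (Fld (lt p.1) : Euc n → Euc n) p.2) =
        fun p : T × Euc n => ∑' i, iteratedFDeriv ℝ k
          (fun x : Euc n => eps n i • Vf (wt i) (lend (lt p.1) i) x) p.2 := by
      funext p
      exact iteratedFDeriv_tsum_apply (𝕜 := ℝ) (N := (⊤ : ℕ∞)) (v := u) (hC p.1) (fun k _ => hu k)
        (fun k i x _ => hB p.1 k i x) le_top p.2
    rw [e]
    have hcont : ∀ i, Continuous (fun p : T × Euc n => iteratedFDeriv ℝ k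
          (fun x : Euc n => eps n i • Vf (wt i) (lend (lt p.1) i) x) p.2) := by
      intro i
      rw [continuous_iff_continuousAt]
      rintro ⟨t, x⟩
      exact (s6_reg lt hc i t x).2 k le_top
    exact (continuous_tsum hcont (hu k) (fun i p => hB p.1 k i p.2)).continuousAt


end Pool.Agent.Lib.H37C
end

-- from Lib.H37C.S7
section

open TopologicalSpace Set Filter Topology
open scoped Manifold ContDiff NNReal
open Pool.Agent.Lib.Helper37.ConjBorel

namespace Pool.Agent.Lib.H37C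

variable {lt : ℕ → ℕ → Prop} [IsStrictTotalOrder ℕ lt]

theorem s7_summable {n : ℕ} (x : Euc n) :
    Summable fun i => eps n i • Vf (wt i) (lend lt i) x := by
  obtain ⟨u, hu, hb⟩ := eps_bound n 0
  refine Summable.of_norm_bounded hu fun i => ?_
  have h := hb i (lend lt i) (lend_nonneg _ _) (lend_add_le_one i) x
  rwa [norm_iteratedFDeriv_zero] at h

/-- **S7.** The field is Lipschitz with constant `1/2` (sum of the constants `(1/2)^(i+2)`, a
geometric series; `eps_lip`; the series converges absolutely by `eps_bound n 0`). -/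
theorem fld_lip {n : ℕ} (x y : Euc n) : ‖(Fld lt x : Euc n) - Fld lt y‖ ≤ 1 / 2 * ‖x - y‖ := by
  have hg : HasSum (fun i : ℕ => (1 / 2 : ℝ) ^ (i + 2) * ‖x - y‖) (1 / 2 * ‖x - y‖) := by
    have h1 : HasSum (fun i : ℕ => (1 / 2 : ℝ) ^ (i + 2)) (1 / 2) := by
      have h2 := (hasSum_geometric_two).mul_right ((1 / 2 : ℝ) ^ 2)
      have e : (fun i : ℕ => (1 / 2 : ℝ) ^ i * (1 / 2) ^ 2) = fun i => (1 / 2 : ℝ) ^ (i + 2) := by
        funext i
        rw [pow_add]
      rw [e] at h2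
      have e2 : (2 : ℝ) * (1 / 2) ^ 2 = 1 / 2 := by norm_num
      rwa [e2] at h2
    exact h1.mul_right _
  unfold Fld
  rw [← (s7_summable x).tsum_sub (s7_summable y)]
  exact tsum_of_norm_bounded hg fun i =>
    eps_lip n i (lend lt i) (lend_nonneg _ _) (lend_add_le_one i) x y

theorem s7_fld_contDiff {n : ℕ} : ContDiff ℝ ∞ (Fld lt : Euc n → Euc n) := by
  rw [contDiff_iff_contDiffAt]
  intro x
  have h := (fld_regN (n := n) (T := Unit) (fun _ => lt) (fun _ => inferInstance)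
    (fun i j => by
      by_cases h : lt i j
      · simp only [h, Set.ofPred_true]
        exact isClopen_univ
      · simp only [h, Set.ofPred_false]
        exact isClopen_empty) () x).1.self_of_nhds
  exact h

/-- **S7, second part.** `psi lt δ` is a smooth diffeomorphism of the Euclidean space for
`0 ≤ δ ≤ 1`.

Proof: `psi lt δ = id + u` with `u` smooth (`psi_regN` for a constant family gives smoothness of
`psi`), Lipschitz with constant `1/2`: injective; surjective, as `x ↦ y - u x` is a contraction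
(`ContractingWith`), or by `ApproximatesLinearOn.toHomeomorph` (Mathlib). The derivative
`id + Du` is invertible as `‖Du‖ ≤ 1/2`; so the inverse is smooth
(`OpenPartialHomeomorph.contDiffAt_symm` or `ContDiffAt.to_localInverse`). -/
theorem psi_diffeo {n : ℕ} {δ : ℝ} (h0 : 0 ≤ δ) (h1 : δ ≤ 1) :
    ContDiff ℝ ∞ (psi lt δ : Euc n → Euc n) ∧ ∃ g : Euc n → Euc n, ContDiff ℝ ∞ g ∧
      (∀ x, g (psi lt δ x) = x) ∧ ∀ x, psi lt δ (g x) = x := by
  have hF := s7_fld_contDiff (lt := lt) (n := n)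
  have hc : ContDiff ℝ ∞ (psi lt δ : Euc n → Euc n) := contDiff_id.add (hF.const_smul δ)
  refine ⟨hc, ?_⟩
  -- Lipschitz bound of `δ • Fld`
  have hL : ∀ x y : Euc n, ‖δ • (Fld lt x : Euc n) - δ • Fld lt y‖ ≤ 1 / 2 * ‖x - y‖ := by
    intro x y
    rw [← smul_sub, norm_smul, Real.norm_eq_abs, abs_of_nonneg h0]
    calc δ * ‖(Fld lt x : Euc n) - Fld lt y‖ ≤ 1 * (1 / 2 * ‖x - y‖) :=
          mul_le_mul h1 (fld_lip x y) (norm_nonneg _) zero_le_one
      _ = _ := one_mul _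
  have hA : ApproximatesLinearOn (psi lt δ : Euc n → Euc n)
      ((ContinuousLinearEquiv.refl ℝ (Euc n) : Euc n ≃L[ℝ] Euc n) : Euc n →L[ℝ] Euc n)
      univ (1 / 2 : ℝ≥0) := by
    intro x _ y _
    have e : psi lt δ x - psi lt δ y -
        ((ContinuousLinearEquiv.refl ℝ (Euc n) : Euc n ≃L[ℝ] Euc n) : Euc n →L[ℝ] Euc n) (x - y) =
        δ • (Fld lt x : Euc n) - δ • Fld lt y := by
      simp only [psi, ContinuousLinearEquiv.coe_refl, ContinuousLinearMap.id_apply]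
      abel
    rw [e]
    have := hL x y
    simpa using this
  have hN : Subsingleton (Euc n) ∨ (1 / 2 : ℝ≥0) <
      ‖((ContinuousLinearEquiv.refl ℝ (Euc n)).symm : Euc n →L[ℝ] Euc n)‖₊⁻¹ := by
    rcases subsingleton_or_nontrivial (Euc n) with h | h
    · exact Or.inl h
    · right
      have : ‖((ContinuousLinearEquiv.refl ℝ (Euc n)).symm : Euc n →L[ℝ] Euc n)‖₊ = 1 := by
        have h3 : ((ContinuousLinearEquiv.refl ℝ (Euc n)).symm : Euc n →L[ℝ] Euc n) =
          ContinuousLinearMap.id ℝ (Euc n) := rfl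
        rw [h3]
        ext
        simp
      rw [this, inv_one]
      exact NNReal.half_lt_self one_ne_zero
  set h : Euc n ≃ₜ Euc n := hA.toHomeomorph _ hN with hh
  have hco : (h : Euc n → Euc n) = psi lt δ := rfl
  -- the derivative
  have hlip : LipschitzWith (1 / 2 : ℝ≥0) (fun x : Euc n => -(δ • (Fld lt x : Euc n))) := by
    refine LipschitzWith.of_dist_le_mul fun x y => ?_
    rw [dist_eq_norm, dist_eq_norm, ← neg_sub', norm_neg]
    simpa using hL x y
  have hD : ∀ a : Euc n, ∃ f' : Euc n ≃L[ℝ] Euc n, HasFDerivAt h (f' : Euc n →L[ℝ] Euc n) a := by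
    intro a
    set t : Euc n →L[ℝ] Euc n := fderiv ℝ (fun x : Euc n => -(δ • (Fld lt x : Euc n))) a with ht
    have ht1 : ‖t‖ < 1 := by
      have := norm_fderiv_le_of_lipschitz ℝ (x₀ := a) hlip
      calc ‖t‖ ≤ ((1 / 2 : ℝ≥0) : ℝ) := this
        _ < 1 := by simp; norm_num
    refine ⟨ContinuousLinearEquiv.unitsEquiv ℝ (Euc n) (Units.oneSub t ht1), ?_⟩
    have hd : HasFDerivAt (fun x : Euc n => -(δ • (Fld lt x : Euc n))) t a :=
      ((hF.const_smul δ).neg.differentiable (by simp) a).hasFDerivAt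
    have h2 : HasFDerivAt (fun x : Euc n => x - -(δ • (Fld lt x : Euc n)))
        (ContinuousLinearMap.id ℝ (Euc n) - t) a := (hasFDerivAt_id a).sub hd
    have e : (h : Euc n → Euc n) = fun x : Euc n => x - -(δ • (Fld lt x : Euc n)) := by
      rw [hco]
      funext x
      rw [sub_neg_eq_add]
      rfl
    rw [e]
    exact h2
  choose f' hf' using hD
  refine ⟨h.symm, h.contDiff_symm hf' hc, fun x => ?_, fun x => ?_⟩
  · exact h.symm_apply_apply x
  · exact h.apply_symm_apply x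

/-- outside the shell `psi` is the identity -/
theorem psi_out {n : ℕ} {δ : ℝ} {x : Euc n} (hx : ‖x‖ ∉ Ioo (1 : ℝ) 2) : psi lt δ x = x := by
  unfold psi
  rw [fld_zero hx, smul_zero, add_zero]

/-- `psi` maps the ball of radius `2` to itself, and its inverse does too -/
theorem psi_ball {n : ℕ} {δ : ℝ} (h0 : 0 ≤ δ) (h1 : δ ≤ 1) {x : Euc n} :
    ‖psi lt δ x‖ ≤ 2 ↔ ‖x‖ ≤ 2 := by
  by_cases hx : ‖x‖ ∈ Ioo (1 : ℝ) 2
  · refine ⟨fun _ => hx.2.le, fun _ => ?_⟩
    have hx0 : 0 < ‖x‖ := by linarith [hx.1]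
    have hy : ‖(2 / ‖x‖) • x‖ = 2 := by
      rw [norm_smul, Real.norm_eq_abs, abs_of_pos (by positivity), div_mul_cancel₀ _ hx0.ne']
    have hy0 : (Fld lt ((2 / ‖x‖) • x) : Euc n) = 0 := by
      apply fld_zero
      rw [hy]
      exact fun h => lt_irrefl _ h.2
    have h2 := fld_lip (lt := lt) x ((2 / ‖x‖) • x)
    rw [hy0, sub_zero] at h2
    have h3 : ‖x - (2 / ‖x‖) • x‖ = 2 - ‖x‖ := by
      have e : x - (2 / ‖x‖) • x = (1 - 2 / ‖x‖) • x := by
        rw [sub_smul, one_smul]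
      rw [e, norm_smul, Real.norm_eq_abs, abs_of_nonpos]
      · rw [neg_sub, sub_mul, div_mul_cancel₀ _ hx0.ne', one_mul]
      · rw [sub_nonpos, le_div_iff₀ hx0]
        linarith [hx.2]
    rw [h3] at h2
    unfold psi
    calc ‖x + δ • (Fld lt x : Euc n)‖ ≤ ‖x‖ + ‖δ • (Fld lt x : Euc n)‖ := norm_add_le _ _
      _ = ‖x‖ + δ * ‖(Fld lt x : Euc n)‖ := by
          rw [norm_smul, Real.norm_eq_abs, abs_of_nonneg h0]
      _ ≤ ‖x‖ + 1 * (1 / 2 * (2 - ‖x‖)) := by
          gcongr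
      _ ≤ 2 := by linarith [hx.2]
  · rw [psi_out hx]

end Pool.Agent.Lib.H37C
end

-- from Lib.H37C.G2
section

open TopologicalSpace Set Filter Topology MeasureTheory
open scoped Manifold ContDiff
open Pool.Agent.Lib.Helper37.ConjBorel

namespace Pool.Agent.Lib.H37C

variable {n : ℕ} {M : Type*} [TopologicalSpace M] [ChartedSpace (Euc n) M]

/-- A conjugacy maps the fixed points of `F^m` onto the fixed points of `F'^m`. -/
theorem g2_image {F F' : DiffInf n M} (h : M ≃ₜ M) (hh : ∀ x, h (F x) = F' (h x)) (m : ℕ) :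
    h '' {z | (⇑F)^[m] z = z} = {z | (⇑F')^[m] z = z} := by
  have hi : ∀ k z, h ((⇑F)^[k] z) = (⇑F')^[k] (h z) := by
    intro k
    induction k with
    | zero => intro z; rfl
    | succ k ih =>
      intro z
      rw [Function.iterate_succ_apply, Function.iterate_succ_apply, ih, hh]
  ext y
  constructor
  · rintro ⟨z, hz, rfl⟩
    have hz' : (⇑F)^[m] z = z := hz
    show (⇑F')^[m] (h z) = h z
    rw [← hi, hz']
  · intro hy
    have hy' : (⇑F')^[m] y = y := hy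
    refine ⟨h.symm y, ?_, h.apply_symm_apply y⟩
    show (⇑F)^[m] (h.symm y) = h.symm y
    apply h.injective
    rw [hi, h.apply_symm_apply, hy']

/-- first and last element of the order `1 + ℤ^Ω + 1` -/
theorem g2_endsA {lt : ℕ → ℕ → Prop} [IsStrictTotalOrder ℕ lt] {Ω : Type*} {r : Ω → Ω → Prop}
    (h : IsA lt r) : ∃ b t : ℕ, (∀ i, i ≠ b → lt b i) ∧ ∀ i, i ≠ t → lt i t := by
  obtain ⟨b, t, ι, -, hb, ht, hall⟩ := h
  have hbt : lt b t := _root_.trans (hb 0) (ht 0)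
  refine ⟨b, t, fun i hi => ?_, fun i hi => ?_⟩
  · rcases hall i with h | h | ⟨f, h⟩
    · exact absurd h hi
    · rw [h]; exact hbt
    · rw [← h]; exact hb f
  · rcases hall i with h | h | ⟨f, h⟩
    · rw [h]; exact hbt
    · exact absurd h hi
    · rw [← h]; exact ht f



end Pool.Agent.Lib.H37C
end

-- from Lib.H37D.DHDefs
section

/-!
# H37D, section HC: definitions

Chunks DH..: if an open set `U` of `Diff^∞(M)` contains a diffeomorphism with a centre spot (`CSpot`), then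
topological conjugacy on `U` is complete analytic (`mainC`, DH72).

Notation: `v = (ζ, w) ∈ Euc 2 × W` are the coordinates near the spot, `ptM e L v` the point of `M`.
-/

open TopologicalSpace Set Filter Topology
open scoped Manifold ContDiff
open Pool.Agent.Lib.Helper37.ConjBorel Pool.Agent.Lib.H37C

namespace Pool.Agent.Lib.H37D

/-! ## The perturbation -/

section Pert

variable {n : ℕ} {M : Type*} [TopologicalSpace M] [ChartedSpace (Euc n) M]
variable {W : Type*} [NormedAddCommGroup W] [NormedSpace ℝ W]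

/-- the point of `M` with the coordinates `v` -/
def ptM (e : OpenPartialHomeomorph M (Euc n)) (L : Euc n ≃L[ℝ] Euc 2 × W) (v : Euc 2 × W) : M :=
  e.symm (L.symm v)

/-- the closed box -/
def Bx (r : ℝ) : Set (Euc 2 × W) := {v | ‖v.1‖ ≤ 3 ∧ ‖v.2‖ ≤ r}

/-- A centre spot: the points `(ζ, 0)` have period `m`, `f₀^m (ζ, w) = (ζ, A_ζ w)`, and the backward orbits of the points
with `w ≠ 0` tend to the source `p`. -/
structure CSpot (f₀ : DiffInf n M) (m : ℕ) (p : M) (e : OpenPartialHomeomorph M (Euc n))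
    (L : Euc n ≃L[ℝ] Euc 2 × W) (A : Euc 2 → W ≃L[ℝ] W) (r₂ r₃ : ℝ) : Prop where
  pos : 0 < m
  mem : e ∈ IsManifold.maximalAtlas (𝓡 n) ∞ M
  big : ∀ v ∈ Bx r₃, L.symm v ∈ e.target
  r_pos : 0 < r₂
  r_lt : r₂ < r₃
  cont_A : Continuous fun ζ => (A ζ : W →L[ℝ] W)
  A_le : ∀ ζ w, ‖A ζ w‖ ≤ 1 / 8 * ‖w‖
  A_close : ∀ ζ ζ' w, ‖A ζ w - A ζ' w‖ ≤ 1 / 100 * ‖A ζ' w‖
  per : ∀ v ∈ Bx r₃, (⇑f₀)^[m] (ptM e L v) = ptM e L (v.1, A v.1 v.2)
  disj : ∀ i, 0 < i → i < m → ∀ v ∈ Bx r₃, ∀ v' ∈ Bx r₃, (⇑f₀)^[i] (ptM e L v) ≠ ptM e L v'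
  fund : ∀ ζ w, ‖A ζ w‖ ≤ r₂ → ‖w‖ ≤ r₃
  fix : f₀ p = p
  notin : ∀ v ∈ Bx r₃, ptM e L v ≠ p
  src : ∀ V ∈ 𝓝 p, ∃ N : ℕ, ∀ k ≥ N, ∀ v ∈ Bx r₃, r₂ ≤ ‖v.2‖ → (⇑f₀.symm)^[k] (ptM e L v) ∈ V

/-- a cut-off function on `W` -/
structure Cut (χ : W → ℝ) (r : ℝ) : Prop where
  smooth : ContDiff ℝ ∞ χ
  nonneg : ∀ w, 0 ≤ χ w
  le_one : ∀ w, χ w ≤ 1
  one : ∀ w, ‖w‖ ≤ r / 2 → χ w = 1
  zero : ∀ w, r ≤ ‖w‖ → χ w = 0

/-- the perturbation in the coordinates `(ζ, w)` -/
noncomputable def PP (χ : W → ℝ) (lt : ℕ → ℕ → Prop) (δ : ℝ) (v : Euc 2 × W) : Euc 2 × W :=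
  (psi lt (δ * χ v.2) v.1, v.2)

/-- the perturbation on the model space of `M` -/
noncomputable def PE (L : Euc n ≃L[ℝ] Euc 2 × W) (χ : W → ℝ) (lt : ℕ → ℕ → Prop) (δ : ℝ) (x : Euc n) : Euc n :=
  L.symm (PP χ lt δ (L x))

/-- `F` is the perturbation of `f₀` given by the order `lt` -/
def IsPert (f₀ : DiffInf n M) (e : OpenPartialHomeomorph M (Euc n)) (L : Euc n ≃L[ℝ] Euc 2 × W) (χ : W → ℝ)
    (lt : ℕ → ℕ → Prop) (δ : ℝ) (F : DiffInf n M) : Prop :=
  ∀ z, F z = f₀ (ext e (PE L χ lt δ) z)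

/-- the open tube -/
def Tb (e : OpenPartialHomeomorph M (Euc n)) (L : Euc n ≃L[ℝ] Euc 2 × W) (r : ℝ) : Set M :=
  ptM e L '' {v | ‖v.1‖ < 5 / 2 ∧ ‖v.2‖ < r / 2}

/-- the shell (a neighbourhood of the set of fixed points of `F^m` in the tube which depend on the order) -/
def CoC (e : OpenPartialHomeomorph M (Euc n)) (L : Euc n ≃L[ℝ] Euc 2 × W) (r : ℝ) : Set M :=
  ptM e L '' {v | 1 < ‖v.1‖ ∧ ‖v.1‖ < 2 ∧ ‖v.2‖ < r}

/-- the disc in the shell -/
def DiC (e : OpenPartialHomeomorph M (Euc n)) (L : Euc n ≃L[ℝ] Euc 2 × W) : Set M :=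
  ptM e L '' {v | 1 < ‖v.1‖ ∧ ‖v.1‖ < 2 ∧ v.2 = 0}

/-- the radial coordinate -/
noncomputable def radC (e : OpenPartialHomeomorph M (Euc n)) (L : Euc n ≃L[ℝ] Euc 2 × W) (z : M) : ℝ :=
  ‖(L (e z)).1‖ - 1

/-- the background: the fixed points of `f₀^m` outside the orbit of the shell -/
def bgC (f₀ : DiffInf n M) (m : ℕ) (e : OpenPartialHomeomorph M (Euc n)) (L : Euc n ≃L[ℝ] Euc 2 × W) (r : ℝ) : Set M :=
  {z | (⇑f₀)^[m] z = z ∧ ∀ i < m, ∀ y ∈ CoC e L r, (⇑f₀)^[i] y ≠ z}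

end Pert

/-! ## Fixed points: the set `X` looks, in the open set `Co`, like the product of `K` and a sphere, in the disc `Di` -/

/-- `RadData` with a disc `Di` -/
structure RadC {Z : Type*} [TopologicalSpace Z] (X Co Di : Set Z) (rad : Z → ℝ) (K : Set ℝ) : Prop where
  isOpen : IsOpen Co
  sub : Di ⊆ Co
  closed : IsClosed (X ∩ Co)
  mem : ∀ z ∈ Co, z ∈ X ↔ z ∈ Di ∧ rad z ∈ K
  comp : ∀ z ∈ X ∩ Co, ∀ z' ∈ connectedComponentIn X z, z' ∈ Co ∧ rad z' = rad z
  loc : ∀ z ∈ X ∩ Co, ∀ᶠ z' in 𝓝 z, z' ∈ X → rad z' = rad z → z' ∈ connectedComponentIn X z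
  cont : ContinuousOn rad Co
  lift : ∀ z ∈ Di, ∃ σ : ℝ → Z, ContinuousAt σ (rad z) ∧ σ (rad z) = z ∧
    ∀ᶠ k in 𝓝 (rad z), σ k ∈ Di ∧ rad (σ k) = k
  surj : ∀ k ∈ K, ∃ z ∈ Di, rad z = k

end Pool.Agent.Lib.H37D
end

-- from Lib.H37D.DH40
section

open TopologicalSpace Set Filter Topology
open scoped Manifold ContDiff
open Pool.Agent.Lib.Helper37.ConjBorel Pool.Agent.Lib.H37C

namespace Pool.Agent.Lib.H37D

/-! **DH40 (S/M).** Elementary properties of the perturbation in the coordinates and of the chart. -/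

variable {n : ℕ} {M : Type*} [TopologicalSpace M] [ChartedSpace (Euc n) M]
variable {W : Type*} [NormedAddCommGroup W] [NormedSpace ℝ W]
variable {f₀ : DiffInf n M} {m : ℕ} {p : M} {e : OpenPartialHomeomorph M (Euc n)} {L : Euc n ≃L[ℝ] Euc 2 × W}
variable {A : Euc 2 → W ≃L[ℝ] W} {r₂ r₃ : ℝ} {χ : W → ℝ} {lt : ℕ → ℕ → Prop} {δ : ℝ} {F : DiffInf n M}

theorem dh40_range (hχ : Cut χ r₂) (h0 : 0 ≤ δ) (h1 : δ ≤ 1) (w : W) : 0 ≤ δ * χ w ∧ δ * χ w ≤ 1 :=
  ⟨mul_nonneg h0 (hχ.nonneg w), mul_le_one₀ h1 (hχ.nonneg w) (hχ.le_one w)⟩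

/-- `psi` fixes the points outside the shell (`psi_out`) and preserves `‖ζ‖ ≤ 2` (`psi_ball`, `0 ≤ δ χ(w) ≤ 1`). -/
theorem PP_mem [IsStrictTotalOrder ℕ lt] (hχ : Cut χ r₂) (h0 : 0 ≤ δ) (h1 : δ ≤ 1) {v : Euc 2 × W} {r : ℝ} (hv : v ∈ Bx r) :
    PP χ lt δ v ∈ Bx r := by
  have ha := dh40_range hχ h0 h1 v.2
  refine ⟨?_, hv.2⟩
  show ‖psi lt (δ * χ v.2) v.1‖ ≤ 3
  by_cases h : ‖v.1‖ ≤ 2
  · exact ((psi_ball ha.1 ha.2).2 h).trans (by norm_num)
  · rw [psi_out (fun h' => h h'.2.le)]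
    exact hv.1

theorem PP_tube [IsStrictTotalOrder ℕ lt] (hχ : Cut χ r₂) (h0 : 0 ≤ δ) (h1 : δ ≤ 1) {v : Euc 2 × W} :
    ‖(PP χ lt δ v).1‖ < 5 / 2 ↔ ‖v.1‖ < 5 / 2 := by
  have ha := dh40_range hχ h0 h1 v.2
  show ‖psi lt (δ * χ v.2) v.1‖ < 5 / 2 ↔ _
  by_cases h : ‖v.1‖ ≤ 2
  · have h2 := (psi_ball (lt := lt) ha.1 ha.2).2 h
    constructor
    · intro _
      linarith
    · intro _
      linarith
  · rw [psi_out (fun h' => h h'.2.le)]

theorem PP_out [IsStrictTotalOrder ℕ lt] (hχ : Cut χ r₂) {v : Euc 2 × W}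
    (hv : ¬ (1 < ‖v.1‖ ∧ ‖v.1‖ < 2 ∧ ‖v.2‖ < r₂)) : PP χ lt δ v = v := by
  unfold PP
  ext1
  · show psi lt (δ * χ v.2) v.1 = v.1
    by_cases h : ‖v.1‖ ∈ Ioo (1 : ℝ) 2
    · have h2 : r₂ ≤ ‖v.2‖ := by
        by_contra h3
        exact hv ⟨h.1, h.2, not_le.1 h3⟩
      rw [hχ.zero v.2 h2, mul_zero]
      unfold psi
      rw [zero_smul, add_zero]
    · exact psi_out h
  · rfl

theorem PP_one (hχ : Cut χ r₂) {v : Euc 2 × W} (hv : ‖v.2‖ ≤ r₂ / 2) : PP χ lt δ v = (psi lt δ v.1, v.2) := by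
  unfold PP
  rw [hχ.one v.2 hv, mul_one]

/-- `psi_diffeo`; for the last property: if `‖v'.1‖ > 3` then `v = PP v' = v'` (`PP_out`). -/
theorem PP_surj [IsStrictTotalOrder ℕ lt] (hχ : Cut χ r₂) (h0 : 0 ≤ δ) (h1 : δ ≤ 1) (v : Euc 2 × W) :
    ∃ v' : Euc 2 × W, v'.2 = v.2 ∧ PP χ lt δ v' = v ∧ (‖v.1‖ ≤ 3 → ‖v'.1‖ ≤ 3) := by
  have ha := dh40_range hχ h0 h1 v.2
  obtain ⟨_, g, _, _, hg⟩ := psi_diffeo (lt := lt) (n := 2) ha.1 ha.2
  refine ⟨(g v.1, v.2), rfl, ?_, ?_⟩
  · unfold PP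
    ext1
    · exact hg v.1
    · rfl
  · intro h3
    show ‖g v.1‖ ≤ 3
    by_cases h : ‖g v.1‖ ≤ 2
    · linarith
    · have h4 := psi_out (lt := lt) (δ := δ * χ v.2) (x := g v.1) (fun h' => h h'.2.le)
      rw [hg v.1] at h4
      rw [← h4]
      exact h3

/-- `L.symm v, L.symm v'` are in `e.target`, where `e.symm` is injective. -/
theorem ptM_inj (hS : CSpot f₀ m p e L A r₂ r₃) {v v' : Euc 2 × W} (hv : v ∈ Bx r₃) (hv' : v' ∈ Bx r₃)
    (h : ptM e L v = ptM e L v') : v = v' := by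
  unfold ptM at h
  have h1 := congrArg e h
  rw [e.right_inv (hS.big v hv), e.right_inv (hS.big v' hv')] at h1
  exact L.symm.injective h1

theorem coord_ptM (hS : CSpot f₀ m p e L A r₂ r₃) {v : Euc 2 × W} (hv : v ∈ Bx r₃) : L (e (ptM e L v)) = v := by
  unfold ptM
  rw [e.right_inv (hS.big v hv), L.apply_symm_apply]

theorem ptM_source (hS : CSpot f₀ m p e L A r₂ r₃) {v : Euc 2 × W} (hv : v ∈ Bx r₃) : ptM e L v ∈ e.source :=
  e.map_target (hS.big v hv)

theorem ptM_coord {z : M} (hz : z ∈ e.source) : ptM e L (L (e z)) = z := by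
  unfold ptM
  rw [L.symm_apply_apply, e.left_inv hz]

/-- `ext_of_mem`, `e.right_inv` -/
theorem ext_pt (hS : CSpot f₀ m p e L A r₂ r₃) {v : Euc 2 × W} (hv : v ∈ Bx r₃) :
    ext e (PE L χ lt δ) (ptM e L v) = ptM e L (PP χ lt δ v) := by
  rw [ext_of_mem (ptM_source hS hv)]
  unfold PE
  rw [coord_ptM hS hv]
  rfl

/-- If `z ∈ e.source`, `z = ptM e L v` with `v = L (e z)`; `PP_out`. -/
theorem ext_fix [IsStrictTotalOrder ℕ lt] (hχ : Cut χ r₂) {z : M} (hz : z ∉ CoC e L r₂) :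
    ext e (PE L χ lt δ) z = z := by
  by_cases h : z ∈ e.source
  · rw [ext_of_mem h]
    unfold PE
    rw [PP_out hχ]
    · exact ptM_coord h
    · intro hv
      exact hz ⟨L (e z), hv, ptM_coord h⟩
  · exact ext_of_notMem h

end Pool.Agent.Lib.H37D
end

-- from Lib.H37D.DH41
section

open TopologicalSpace Set Filter Topology
open scoped Manifold ContDiff
open Pool.Agent.Lib.Helper37.ConjBorel Pool.Agent.Lib.H37C

namespace Pool.Agent.Lib.H37D

variable {n : ℕ} {M : Type*} [TopologicalSpace M] [ChartedSpace (Euc n) M]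
variable {W : Type*} [NormedAddCommGroup W] [NormedSpace ℝ W]
variable {f₀ : DiffInf n M} {m : ℕ} {p : M} {e : OpenPartialHomeomorph M (Euc n)} {L : Euc n ≃L[ℝ] Euc 2 × W}
variable {A : Euc 2 → W ≃L[ℝ] W} {r₂ r₃ : ℝ} {χ : W → ℝ} {lt : ℕ → ℕ → Prop} {δ : ℝ} {F : DiffInf n M}

/-- **DH41 (S/M).** The first `m` iterates of `F` in the box: `F^i (pt v) = f₀^i (pt (PP v))`.

Proof by induction on `i`: `F (pt v) = f₀ (pt (PP v))` (`ext_pt`); for `1 ≤ i < m` the point `f₀^i (pt (PP v))` is not in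
`CoC e L r₂` (`disj`, `PP_mem`; the points of `CoC` are `pt v'` with `v' ∈ Bx r₃`, as `r₂ < r₃`), so `ext` fixes it (`ext_fix`) and `F` acts on it as `f₀`. -/
theorem iter_tube [IsStrictTotalOrder ℕ lt] (hS : CSpot f₀ m p e L A r₂ r₃) (hχ : Cut χ r₂) (h0 : 0 ≤ δ) (h1 : δ ≤ 1)
    (hF : IsPert f₀ e L χ lt δ F) {v : Euc 2 × W} (hv : v ∈ Bx r₃) {i : ℕ} (hi0 : 0 < i) (hi : i ≤ m) :
    (⇑F)^[i] (ptM e L v) = (⇑f₀)^[i] (ptM e L (PP χ lt δ v)) := by
  induction i with
  | zero => exact absurd hi0 (lt_irrefl 0)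
  | succ i ih =>
    rcases Nat.eq_zero_or_pos i with h | h
    · subst h
      rw [zero_add, Function.iterate_one, Function.iterate_one, hF, ext_pt hS hv]
    · rw [Function.iterate_succ_apply', Function.iterate_succ_apply', ih h (by omega), hF]
      rw [ext_fix hχ]
      rintro ⟨v', ⟨h2, h3, h4⟩, hv'⟩
      have hB : v' ∈ Bx r₃ := ⟨by linarith, by linarith [hS.r_lt]⟩
      exact hS.disj i h (by omega) _ (PP_mem hχ h0 h1 hv) v' hB hv'.symm

/-- `per` -/
theorem iter_m [IsStrictTotalOrder ℕ lt] (hS : CSpot f₀ m p e L A r₂ r₃) (hχ : Cut χ r₂) (h0 : 0 ≤ δ) (h1 : δ ≤ 1)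
    (hF : IsPert f₀ e L χ lt δ F) {v : Euc 2 × W} (hv : v ∈ Bx r₃) :
    (⇑F)^[m] (ptM e L v) = ptM e L ((PP χ lt δ v).1, A (PP χ lt δ v).1 v.2) := by
  rw [iter_tube hS hχ h0 h1 hF hv hS.pos le_rfl, hS.per _ (PP_mem hχ h0 h1 hv)]
  rfl

/-- `disj` -/
theorem iter_ne [IsStrictTotalOrder ℕ lt] (hS : CSpot f₀ m p e L A r₂ r₃) (hχ : Cut χ r₂) (h0 : 0 ≤ δ) (h1 : δ ≤ 1)
    (hF : IsPert f₀ e L χ lt δ F) {v v' : Euc 2 × W} (hv : v ∈ Bx r₃) (hv' : v' ∈ Bx r₃) {i : ℕ} (hi0 : 0 < i)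
    (hi : i < m) : (⇑F)^[i] (ptM e L v) ≠ ptM e L v' := by
  rw [iter_tube hS hχ h0 h1 hF hv hi0 hi.le]
  exact hS.disj i hi0 hi _ (PP_mem hχ h0 h1 hv) v' hv'

end Pool.Agent.Lib.H37D
end

-- from Lib.H37D.DH44
section

open TopologicalSpace Set Filter Topology
open scoped Manifold ContDiff
open Pool.Agent.Lib.Helper37.ConjBorel Pool.Agent.Lib.H37C

namespace Pool.Agent.Lib.H37D

variable {n : ℕ} {M : Type*} [TopologicalSpace M] [ChartedSpace (Euc n) M]
variable {W : Type*} [NormedAddCommGroup W] [NormedSpace ℝ W]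
variable {f₀ : DiffInf n M} {m : ℕ} {p : M} {e : OpenPartialHomeomorph M (Euc n)} {L : Euc n ≃L[ℝ] Euc 2 × W}
variable {A : Euc 2 → W ≃L[ℝ] W} {r₂ r₃ : ℝ} {χ : W → ℝ} {lt : ℕ → ℕ → Prop} {δ : ℝ} {F : DiffInf n M}

/-- **DH44 (S/M).** Topology of the box.

`e.symm` maps open subsets of `e.target` to open sets (`OpenPartialHomeomorph.isOpen_image_symm_of_subset_target`); `ptM e L` is
continuous on the box. -/
theorem isOpen_image_ptM (hS : CSpot f₀ m p e L A r₂ r₃) {O : Set (Euc 2 × W)} (hO : IsOpen O) (hOB : O ⊆ Bx r₃) :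
    IsOpen (ptM e L '' O) := by
  have h1 : ptM e L '' O = e.symm '' (L.symm '' O) := by
    rw [Set.image_image]
    rfl
  rw [h1]
  apply e.isOpen_image_symm_of_subset_target
  · exact L.symm.toHomeomorph.isOpenMap O hO
  · rintro _ ⟨v, hv, rfl⟩
    exact hS.big v (hOB hv)

theorem continuousOn_ptM (hS : CSpot f₀ m p e L A r₂ r₃) : ContinuousOn (ptM e L) (Bx r₃) :=
  ContinuousOn.comp (g := e.symm) (f := fun v : Euc 2 × W => L.symm v) e.continuousOn_symm
    L.symm.continuous.continuousOn (fun v hv => hS.big v hv)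

/-- compact sets have compact, so closed, images -/
theorem isClosed_image_ptM [T2Space M] (hS : CSpot f₀ m p e L A r₂ r₃) {C : Set (Euc 2 × W)} (hC : IsCompact C)
    (hCB : C ⊆ Bx r₃) : IsClosed (ptM e L '' C) :=
  (hC.image_of_continuousOn ((continuousOn_ptM hS).mono hCB)).isClosed

theorem isOpen_Tb (hS : CSpot f₀ m p e L A r₂ r₃) : IsOpen (Tb e L r₂) := by
  apply isOpen_image_ptM hS
  · exact (isOpen_lt (continuous_fst.norm) continuous_const).inter
      (isOpen_lt (continuous_snd.norm) continuous_const)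
  · rintro v ⟨h1, h2⟩
    have := hS.r_lt
    have := hS.r_pos
    exact ⟨by linarith, by linarith⟩

theorem isOpen_CoC (hS : CSpot f₀ m p e L A r₂ r₃) : IsOpen (CoC e L r₂) := by
  apply isOpen_image_ptM hS
  · exact (isOpen_lt continuous_const (continuous_fst.norm)).inter
      ((isOpen_lt (continuous_fst.norm) continuous_const).inter
      (isOpen_lt (continuous_snd.norm) continuous_const))
  · rintro v ⟨h0, h1, h2⟩
    have := hS.r_lt
    exact ⟨by linarith, by linarith⟩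

/-- `Tb` is contained in the closed set `ptM e L '' {v | ‖v.1‖ ≤ 5/2 ∧ ‖v.2‖ ≤ r₂/2}` (`isClosed_image_ptM`). -/
theorem closure_Tb [T2Space M] [FiniteDimensional ℝ W] (hS : CSpot f₀ m p e L A r₂ r₃) {y : M} (hy : y ∈ closure (Tb e L r₂)) :
    ∃ v : Euc 2 × W, ‖v.1‖ ≤ 5 / 2 ∧ ‖v.2‖ ≤ r₂ / 2 ∧ ptM e L v = y := by
  have h1 := hS.r_lt
  have h2 := hS.r_pos
  have hcl : IsClosed (ptM e L '' (Metric.closedBall (0 : Euc 2) (5 / 2) ×ˢ
      Metric.closedBall (0 : W) (r₂ / 2))) := by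
    apply isClosed_image_ptM hS
    · exact (isCompact_closedBall (0 : Euc 2) (5 / 2)).prod (isCompact_closedBall (0 : W) (r₂ / 2))
    · rintro v ⟨h3, h4⟩
      rw [mem_closedBall_zero_iff] at h3 h4
      exact ⟨by linarith, by linarith⟩
  have hsub : Tb e L r₂ ⊆ ptM e L '' (Metric.closedBall (0 : Euc 2) (5 / 2) ×ˢ
      Metric.closedBall (0 : W) (r₂ / 2)) := by
    rintro _ ⟨v, ⟨h3, h4⟩, rfl⟩
    refine ⟨v, ⟨?_, ?_⟩, rfl⟩
    · rw [mem_closedBall_zero_iff]; exact h3.le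
    · rw [mem_closedBall_zero_iff]; exact h4.le
  obtain ⟨v, ⟨h3, h4⟩, hv⟩ := closure_minimal hsub hcl hy
  rw [mem_closedBall_zero_iff] at h3 h4
  exact ⟨v, h3, h4, hv⟩

/-- Neighbourhoods in the coordinates: `z ↦ L (e z)` is continuous at `ptM e L v`, with value `v`. -/
theorem eventually_ptM (hS : CSpot f₀ m p e L A r₂ r₃) {v : Euc 2 × W} (hv : v ∈ Bx r₃) {P : Euc 2 × W → Prop}
    (hP : ∀ᶠ v' in 𝓝 v, P v') : ∀ᶠ z in 𝓝 (ptM e L v), z ∈ e.source ∧ P (L (e z)) := by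
  have hs := ptM_source hS hv
  have h1 : ContinuousAt (fun z => L (e z)) (ptM e L v) :=
    ContinuousAt.comp (g := fun x => L x) (f := fun z => e z) L.continuous.continuousAt
      (e.continuousAt hs)
  have h2 : Tendsto (fun z => L (e z)) (𝓝 (ptM e L v)) (𝓝 v) := by
    have h3 := h1.tendsto
    simp only [coord_ptM hS hv] at h3
    exact h3
  have h4 : ∀ᶠ z in 𝓝 (ptM e L v), z ∈ e.source := e.open_source.mem_nhds hs
  exact h4.and (h2.eventually hP)

end Pool.Agent.Lib.H37D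
end

-- from Lib.H37D.DH61
section

open TopologicalSpace Set Filter Topology
open scoped Manifold ContDiff
open Pool.Agent.Lib.Helper37.ConjBorel Pool.Agent.Lib.H37C

namespace Pool.Agent.Lib.H37D

/-- **DH61.** Abstract version of Lib/H37C/F2 (`comp_subset`). -/
theorem comp_subset_C {Z : Type*} [TopologicalSpace Z] {X Co : Set Z} {rad : Z → ℝ} {lt : ℕ → ℕ → Prop}
    [IsStrictTotalOrder ℕ lt] (hX : ∀ z ∈ Co, z ∈ X → rad z ∈ Kint lt) (hcl : IsClosed (X ∩ Co)) (hop : IsOpen Co)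
    (hc : ContinuousOn rad Co) :
    ∀ z ∈ X ∩ Co, ∀ z' ∈ connectedComponentIn X z, z' ∈ Co ∧ rad z' = rad z := by
  rintro z ⟨hzX, hzC⟩
  have hpre := isPreconnected_connectedComponentIn (F := X) (x := z)
  have hsub : connectedComponentIn X z ⊆ X := connectedComponentIn_subset X z
  have hmem : z ∈ connectedComponentIn X z := mem_connectedComponentIn hzX
  have h1 : connectedComponentIn X z ⊆ Co := by
    intro w hw
    by_contra hwC
    obtain ⟨v, hv1, hv2, hv3⟩ := hpre Co (X ∩ Co)ᶜ hop hcl.isOpen_compl (by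
      intro v hv
      by_cases h : v ∈ Co
      · exact Or.inl h
      · exact Or.inr fun h2 => h h2.2) ⟨z, hmem, hzC⟩ ⟨w, hw, fun h2 => hwC h2.2⟩
    exact hv3 ⟨hsub hv1, hv2⟩
  intro z' hz'
  refine ⟨h1 hz', ?_⟩
  have himg : IsPreconnected (rad '' connectedComponentIn X z) := hpre.image _ (hc.mono h1)
  have hK : ∀ w ∈ connectedComponentIn X z, rad w ∈ Kset lt := fun w hw =>
    (hX w (h1 hw) (hsub hw)).1
  have key : ∀ w ∈ connectedComponentIn X z, ∀ w' ∈ connectedComponentIn X z,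
      ¬ rad w < rad w' := by
    intro w hw w' hw' hlt
    obtain ⟨x, hx1, hx2⟩ := f2_gap (hK w hw) (hK w' hw') hlt
    obtain ⟨v, hv, rfl⟩ := himg.Icc_subset (mem_image_of_mem _ hw) (mem_image_of_mem _ hw') hx1
    exact hx2 (hK v hv)
  exact le_antisymm (not_lt.1 (key z hmem z' hz')) (not_lt.1 (key z' hz' z hmem))

end Pool.Agent.Lib.H37D
end
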