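import Pool.Agent.Lib.H1M.FF.M003
import Pool.Agent.Lib.H1M.FF.M027
import Pool.Agent.Lib.H1M.FF.M029

/-! Merged copies (to shorten the build) of Lib.H37D.DM01, Lib.H37D.DM02, Lib.H37D.DM03, Lib.H37D.DM04, Lib.H37D.DM05, Lib.H37D.DM06, Lib.H37D.DM07. -/

-- from Lib.H37D.DM01
section

/-!
# H37D DM01: compactly supported diffeomorphisms; shears
-/

open Set Filter Topology
open scoped ContDiff

namespace Pool.Agent.Lib.H37D

open Pool.Agent.Lib.H37N

/-- `Φ` is a compactly supported `C^∞` diffeomorphism with the inverse `Φi` -/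
structure IsCD {E : Type} [NormedAddCommGroup E] [NormedSpace ℝ E] (Φ Φi : E → E) : Prop where
  smooth : ContDiff ℝ ∞ Φ
  smoothi : ContDiff ℝ ∞ Φi
  left : ∀ z, Φi (Φ z) = z
  right : ∀ z, Φ (Φi z) = z
  supp : ∃ r : ℝ, ∀ z, r ≤ ‖z‖ → Φ z = z

variable {E : Type} [NormedAddCommGroup E] [NormedSpace ℝ E]

theorem IsCD.id : IsCD (fun z : E => z) (fun z : E => z) :=
  ⟨contDiff_id, contDiff_id, fun _ => rfl, fun _ => rfl, 0, fun _ _ => rfl⟩

theorem IsCD.symm {Φ Φi : E → E} (h : IsCD Φ Φi) : IsCD Φi Φ := by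
  obtain ⟨r, hr⟩ := h.supp
  refine ⟨h.smoothi, h.smooth, h.right, h.left, r, fun z hz => ?_⟩
  have h1 := h.left z
  rw [hr z hz] at h1
  exact h1

theorem IsCD.comp {Φ Φi Ψ Ψi : E → E} (h : IsCD Φ Φi) (h' : IsCD Ψ Ψi) :
    IsCD (fun z => Φ (Ψ z)) (fun z => Ψi (Φi z)) := by
  obtain ⟨r, hr⟩ := h.supp
  obtain ⟨r', hr'⟩ := h'.supp
  refine ⟨h.smooth.comp h'.smooth, h'.smoothi.comp h.smoothi, fun z => ?_, fun z => ?_,
    max r r', fun z hz => ?_⟩
  · show Ψi (Φi (Φ (Ψ z))) = z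
    rw [h.left, h'.left]
  · show Φ (Ψ (Ψi (Φi z))) = z
    rw [h'.right, h.right]
  · show Φ (Ψ z) = z
    rw [hr' z ((le_max_right _ _).trans hz), hr z ((le_max_left _ _).trans hz)]

theorem dm01_line (f : E → ℝ) (hf : ContDiff ℝ ∞ f) (u y : E) (t : ℝ) :
    HasDerivAt (fun t : ℝ => t + f (y + t • u)) (1 + fderiv ℝ f (y + t • u) u) t := by
  have h1 : HasDerivAt (fun t : ℝ => y + t • u) u t := by
    have := ((hasDerivAt_id t).smul_const u).const_add y
    simpa using this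
  have h2 : HasFDerivAt f (fderiv ℝ f (y + t • u)) (y + t • u) :=
    (hf.differentiable (by simp) _).hasFDerivAt
  exact (hasDerivAt_id t).add (h2.comp_hasDerivAt t h1)

/-- A shear in the direction `u`. -/
theorem shear [FiniteDimensional ℝ E] {f : E → ℝ} (u : E) (hf : ContDiff ℝ ∞ f)
    (hu : ∀ z, -1 < fderiv ℝ f z u) (hr : ∃ r : ℝ, ∀ z, r ≤ ‖z‖ → f z = 0) :
    ∃ Φi : E → E, IsCD (fun z => z + f z • u) Φi := by
  obtain ⟨r, hr⟩ := hr
  have hprop : ProperSpace E := FiniteDimensional.proper ℝ E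
  obtain ⟨C, hC⟩ : ∃ C : ℝ, ∀ z, |f z| ≤ C := by
    obtain ⟨C, hC⟩ := (isCompact_closedBall (0 : E) |r|).exists_bound_of_continuousOn hf.continuous.continuousOn
    refine ⟨max C 0, fun z => ?_⟩
    by_cases hz : z ∈ Metric.closedBall (0 : E) |r|
    · exact (hC z hz).trans (le_max_left _ _)
    · rw [mem_closedBall_zero_iff, not_le] at hz
      rw [hr z ((le_abs_self r).trans hz.le), abs_zero]
      exact le_max_right _ _
  set h : E → ℝ → ℝ := fun y t => t + f (y + t • u) with hh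
  have hd := dm01_line f hf u
  have hmono : ∀ y, StrictMono (h y) := fun y =>
    strictMono_of_deriv_pos fun t => by
      rw [(hd y t).deriv]
      have := hu (y + t • u)
      linarith
  have hcont : ∀ y, Continuous (h y) := fun y => by
    rw [continuous_iff_continuousAt]
    exact fun t => (hd y t).continuousAt
  set Φ : E → E := fun z => z + f z • u with hΦ
  have hΦs : ContDiff ℝ ∞ Φ := contDiff_id.add (hf.smul contDiff_const)
  have hinj : Function.Injective Φ := by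
    intro z z' hzz
    have h1 : z + f z • u = z' + f z' • u := hzz
    have h2 : z' = z + (f z - f z') • u := by
      rw [sub_smul, ← add_sub_assoc, h1, add_sub_cancel_right]
    have h3 : h z 0 = h z (f z - f z') := by
      simp only [hh]
      rw [zero_smul, add_zero, ← h2]
      ring
    have h4 := (hmono z).injective h3
    rw [← h4, zero_smul, add_zero] at h2
    exact h2.symm
  have hsurj : Function.Surjective Φ := by
    intro y
    have h1 : (0 : ℝ) ∈ Icc (h y (-(C + 1))) (h y (C + 1)) := by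
      constructor
      · have := (abs_le.1 (hC (y + (-(C + 1)) • u))).2
        simp only [hh]
        linarith
      · have := (abs_le.1 (hC (y + (C + 1) • u))).1
        simp only [hh]
        linarith
    have hC0 : 0 ≤ C := (abs_nonneg _).trans (hC 0)
    obtain ⟨t, -, ht⟩ := intermediate_value_Icc (by linarith : -(C + 1) ≤ C + 1)
      (hcont y).continuousOn h1
    refine ⟨y + t • u, ?_⟩
    show y + t • u + f (y + t • u) • u = y
    simp only [hh] at ht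
    rw [add_assoc, ← add_smul, ht, zero_smul, add_zero]
  have hbij : ∀ z, Function.Bijective (fderiv ℝ Φ z) := by
    intro z
    have h1 : HasFDerivAt Φ (ContinuousLinearMap.id ℝ E + (fderiv ℝ f z).smulRight u) z :=
      (hasFDerivAt_id z).add ((hf.differentiable (by simp) z).hasFDerivAt.smul_const u)
    have h2 : Function.Injective (fderiv ℝ Φ z) := by
      rw [injective_iff_map_eq_zero]
      intro v hv
      rw [h1.fderiv] at hv
      have h3 : v + (fderiv ℝ f z v) • u = 0 := hv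
      have h4 := congrArg (fderiv ℝ f z) h3
      rw [map_add, map_smul, map_zero, smul_eq_mul] at h4
      have h5 : fderiv ℝ f z v * (1 + fderiv ℝ f z u) = 0 := by linarith
      have h6 : fderiv ℝ f z v = 0 := by
        rcases mul_eq_zero.1 h5 with h7 | h7
        · exact h7
        · have := hu z
          linarith
      rw [h6, zero_smul, add_zero] at h3
      exact h3
    exact ⟨h2, LinearMap.surjective_of_injective (f := (fderiv ℝ Φ z : E →ₗ[ℝ] E)) h2⟩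
  set Φi := Function.surjInv hsurj with hΦi
  have h1 : ∀ z, Φ (Φi z) = z := Function.surjInv_eq hsurj
  have h2 : ∀ z, Φi (Φ z) = z := fun z => hinj (h1 (Φ z))
  refine ⟨Φi, hΦs, ?_, h2, h1, r, fun z hz => ?_⟩
  · rw [contDiff_iff_contDiffAt]
    intro w
    obtain ⟨g, hg, -, -, hg3⟩ := inverse_fun (f := Φ) (x₀ := Φi w)
      (Eventually.of_forall fun x => hΦs.contDiffAt) (hbij (Φi w))
    rw [h1] at hg3
    refine hg.contDiffAt.congr_of_eventuallyEq ?_
    filter_upwards [hg3] with y hy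
    rw [← hy, h2, hy]
  · show z + f z • u = z
    rw [hr z hz, zero_smul, add_zero]

end Pool.Agent.Lib.H37D
end

-- from Lib.H37D.DM02
section

/-!
# H37D DM02: slow cut-off functions on `En d`; shears with a cut-off
-/

open Set Filter Topology
open scoped ContDiff

namespace Pool.Agent.Lib.H37D

open Pool.Agent.Lib.H37N

variable {d : ℕ}

/-- the direction of the coordinate `w_k` -/
def eW (d : ℕ) (k : Fin d) : En d := (0, Pi.single k 1)

theorem dm02_dir {χ : ℝ → ℝ} (hχ : ContDiff ℝ ∞ χ) {X : En d → ℝ} (hX : ContDiff ℝ ∞ X) {z u : En d}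
    {c q : ℝ} (h : ∀ t : ℝ, X (z + t • u) = χ (c + t) * q) : fderiv ℝ X z u = deriv χ c * q := by
  have h1 : HasDerivAt (fun t : ℝ => z + t • u) u 0 := by
    have := ((hasDerivAt_id (0 : ℝ)).smul_const u).const_add z
    simpa using this
  have h2 : HasFDerivAt X (fderiv ℝ X z) (z + (0 : ℝ) • u) := by
    rw [zero_smul, add_zero]
    exact (hX.differentiable (by simp) _).hasFDerivAt
  have h3 : HasDerivAt (fun t : ℝ => X (z + t • u)) (fderiv ℝ X z u) 0 := h2.comp_hasDerivAt 0 h1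
  have h4 : HasDerivAt (fun t : ℝ => χ (c + t) * q) (deriv χ c * q) 0 := by
    have h5 : HasDerivAt χ (deriv χ c) (c + 0) := by
      rw [add_zero]
      exact (hχ.differentiable (by simp) _).hasDerivAt
    have h6 : HasDerivAt (fun t : ℝ => c + t) 1 0 := by
      simpa using (hasDerivAt_id (0 : ℝ)).const_add c
    have h7 : HasDerivAt (fun t : ℝ => χ (c + t)) (deriv χ c * 1) 0 := h5.comp 0 h6
    rw [mul_one] at h7
    exact h7.mul_const q
  have h8 : (fun t : ℝ => X (z + t • u)) = fun t : ℝ => χ (c + t) * q := funext h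
  rw [h8] at h3
  exact h3.unique h4

theorem dm02_prod (χ : ℝ → ℝ) (w : Wd d) (k : Fin d) (t : ℝ) :
    ∏ j, χ ((w + t • (Pi.single k 1 : Wd d)) j) = χ (w k + t) * ∏ j ∈ Finset.univ.erase k, χ (w j) := by
  rw [← Finset.mul_prod_erase Finset.univ _ (Finset.mem_univ k)]
  congr 1
  · simp
  · refine Finset.prod_congr rfl fun j hj => ?_
    have hjk : j ≠ k := (Finset.mem_erase.1 hj).1
    simp [hjk]

theorem cutX (d : ℕ) (C : ℝ) {η : ℝ} (hη : 0 < η) : ∃ X : En d → ℝ, ContDiff ℝ ∞ X ∧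
    (∀ z, 0 ≤ X z ∧ X z ≤ 1) ∧ (∀ z, ‖z‖ ≤ C → X z = 1) ∧ (∃ r : ℝ, ∀ z, r ≤ ‖z‖ → X z = 0) ∧
    (∀ z, |fderiv ℝ X z (eX d)| * (1 + |z.1.1|) ≤ η) ∧
    (∀ z, |fderiv ℝ X z (eY d)| * (1 + |z.1.2|) ≤ η) ∧
    ∀ k z, |fderiv ℝ X z (eW d k)| * (1 + |z.2 k|) ≤ η := by
  obtain ⟨χ, hχ, hχ01, hχ1, ⟨R, hR⟩, hχd⟩ := slow_cutoff C hη
  have hXs : ContDiff ℝ ∞ (fun z : En d => χ z.1.1 * χ z.1.2 * ∏ k, χ (z.2 k)) := by
    refine (ContDiff.mul ?_ ?_).mul (contDiff_prod fun k _ => ?_)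
    · exact hχ.comp (contDiff_fst.comp contDiff_fst)
    · exact hχ.comp (contDiff_snd.comp contDiff_fst)
    · exact hχ.comp ((contDiff_apply ℝ ℝ k).comp contDiff_snd)
  have hp : ∀ (s : Finset (Fin d)) (w : Wd d), 0 ≤ ∏ j ∈ s, χ (w j) ∧ ∏ j ∈ s, χ (w j) ≤ 1 := fun s w =>
    ⟨Finset.prod_nonneg fun j _ => (hχ01 _).1, Finset.prod_le_one (fun j _ => (hχ01 _).1) fun j _ => (hχ01 _).2⟩
  have hbd : ∀ c q : ℝ, 0 ≤ q → q ≤ 1 → |deriv χ c * q| * (1 + |c|) ≤ η := by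
    intro c q h0 h1
    rw [abs_mul, abs_of_nonneg h0]
    have h2 := hχd c
    have h3 : |deriv χ c| * q ≤ |deriv χ c| := mul_le_of_le_one_right (abs_nonneg _) h1
    have h4 : 0 ≤ 1 + |c| := by positivity
    exact (mul_le_mul_of_nonneg_right h3 h4).trans h2
  refine ⟨fun z => χ z.1.1 * χ z.1.2 * ∏ k, χ (z.2 k), hXs, fun z => ?_, fun z hz => ?_,
    ⟨max R 1, fun z hz => ?_⟩, fun z => ?_, fun z => ?_, fun k z => ?_⟩
  · obtain ⟨h1, h2⟩ := hχ01 z.1.1
    obtain ⟨h3, h4⟩ := hχ01 z.1.2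
    obtain ⟨h5, h6⟩ := hp Finset.univ z.2
    exact ⟨mul_nonneg (mul_nonneg h1 h3) h5, mul_le_one₀ (mul_le_one₀ h2 h3 h4) h5 h6⟩
  · have h1 : ‖z.1‖ ≤ C := (norm_fst_le z).trans hz
    have h2 : ‖z.2‖ ≤ C := (norm_snd_le z).trans hz
    show χ z.1.1 * χ z.1.2 * ∏ k, χ (z.2 k) = 1
    rw [hχ1 _ ((norm_fst_le z.1).trans h1), hχ1 _ ((norm_snd_le z.1).trans h1),
      Finset.prod_eq_one fun k _ => hχ1 _ ((norm_le_pi_norm z.2 k).trans h2)]
    norm_num
  · show χ z.1.1 * χ z.1.2 * ∏ k, χ (z.2 k) = 0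
    have hR1 : (0 : ℝ) < max R 1 := lt_of_lt_of_le one_pos (le_max_right _ _)
    rw [Prod.norm_def] at hz
    rcases le_max_iff.1 hz with h | h
    · rw [Prod.norm_def] at h
      rcases le_max_iff.1 h with h' | h'
      · rw [hR _ ((le_max_left _ _).trans h'), zero_mul, zero_mul]
      · rw [hR _ ((le_max_left _ _).trans h'), mul_zero, zero_mul]
    · have h1 : ∃ k, max R 1 ≤ ‖z.2 k‖ := by
        by_contra hcon
        push Not at hcon
        exact absurd ((pi_norm_lt_iff hR1).2 hcon) (not_lt.2 h)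
      obtain ⟨k, hk⟩ := h1
      rw [Finset.prod_eq_zero (Finset.mem_univ k) (hR _ ((le_max_left _ _).trans hk)), mul_zero]
  · rw [dm02_dir hχ hXs (z := z) (u := eX d) (c := z.1.1) (q := χ z.1.2 * ∏ k, χ (z.2 k)) ?_]
    · obtain ⟨h3, h4⟩ := hχ01 z.1.2
      obtain ⟨h5, h6⟩ := hp Finset.univ z.2
      exact hbd _ _ (mul_nonneg h3 h5) (mul_le_one₀ h4 h5 h6)
    · intro t
      simp [eX, mul_assoc]
  · rw [dm02_dir hχ hXs (z := z) (u := eY d) (c := z.1.2) (q := χ z.1.1 * ∏ k, χ (z.2 k)) ?_]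
    · obtain ⟨h3, h4⟩ := hχ01 z.1.1
      obtain ⟨h5, h6⟩ := hp Finset.univ z.2
      exact hbd _ _ (mul_nonneg h3 h5) (mul_le_one₀ h4 h5 h6)
    · intro t
      simp only [eY, Prod.smul_mk, smul_eq_mul, mul_zero, mul_one, smul_zero, Prod.fst_add,
        Prod.snd_add, add_zero]
      ring
  · rw [dm02_dir hχ hXs (z := z) (u := eW d k) (c := z.2 k)
      (q := χ z.1.1 * χ z.1.2 * ∏ j ∈ Finset.univ.erase k, χ (z.2 j)) ?_]
    · obtain ⟨h1, h2⟩ := hχ01 z.1.1
      obtain ⟨h3, h4⟩ := hχ01 z.1.2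
      obtain ⟨h5, h6⟩ := hp (Finset.univ.erase k) z.2
      exact hbd _ _ (mul_nonneg (mul_nonneg h1 h3) h5) (mul_le_one₀ (mul_le_one₀ h2 h3 h4) h5 h6)
    · intro t
      have h1 := dm02_prod χ z.2 k t
      have h2 : z + t • eW d k = (z.1, z.2 + t • (Pi.single k 1 : Wd d)) := by
        ext <;> simp [eW]
      rw [h2]
      show χ z.1.1 * χ z.1.2 * ∏ j, χ ((z.2 + t • (Pi.single k 1 : Wd d)) j) = _
      rw [h1]
      ring

/-- A shear with a slow cut-off. -/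
theorem shear_cut {X g c : En d → ℝ} {u : En d} {K η : ℝ} (hX : ContDiff ℝ ∞ X)
    (hX1 : ∀ z, 0 ≤ X z ∧ X z ≤ 1) (hXr : ∃ r : ℝ, ∀ z, r ≤ ‖z‖ → X z = 0)
    (hXu : ∀ z, |fderiv ℝ X z u| * (1 + |c z|) ≤ η) (hg : ContDiff ℝ ∞ g)
    (hg1 : ∀ z, -1 / 2 ≤ fderiv ℝ g z u) (hg2 : ∀ z, |g z| ≤ K * (1 + |c z|)) (hK : 0 ≤ K)
    (hKη : K * η ≤ 1 / 4) : ∃ Φi : En d → En d, IsCD (fun z => z + (X z * g z) • u) Φi := by
  obtain ⟨r, hr⟩ := hXr
  refine shear u (hX.mul hg) (fun z => ?_) ⟨r, fun z hz => by rw [hr z hz, zero_mul]⟩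
  have h1 : fderiv ℝ (fun z => X z * g z) z u = X z * fderiv ℝ g z u + g z * fderiv ℝ X z u := by
    have h2 := (hX.differentiable (by simp) z).hasFDerivAt.mul (hg.differentiable (by simp) z).hasFDerivAt
    have h3 : fderiv ℝ (fun z => X z * g z) z = X z • fderiv ℝ g z + g z • fderiv ℝ X z := h2.fderiv
    rw [h3]
    rfl
  rw [h1]
  have h4 : |g z * fderiv ℝ X z u| ≤ 1 / 4 := by
    rw [abs_mul]
    calc |g z| * |fderiv ℝ X z u| ≤ K * (1 + |c z|) * |fderiv ℝ X z u| :=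
          mul_le_mul_of_nonneg_right (hg2 z) (abs_nonneg _)
      _ = K * (|fderiv ℝ X z u| * (1 + |c z|)) := by ring
      _ ≤ K * η := mul_le_mul_of_nonneg_left (hXu z) hK
      _ ≤ 1 / 4 := hKη
  have h5 := (abs_le.1 h4).1
  have h6 := hg1 z
  obtain ⟨h7, h8⟩ := hX1 z
  nlinarith

/-- The function of the slot. -/
theorem slotW (d : ℕ) {a b : ℝ} (ha : 0 < a) (hab : a < b) : ∃ τ : Wd d → ℝ, ContDiff ℝ ∞ τ ∧
    (∀ w, 0 ≤ τ w ∧ τ w ≤ 1) ∧ (∀ w, ‖w‖ ≤ a → τ w = 1) ∧ ∀ w, b ≤ ‖w‖ → τ w = 0 := by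
  let f : ContDiffBump (0 : Wd d) := ⟨a, b, ha, hab⟩
  refine ⟨f, f.contDiff, fun w => ⟨f.nonneg, f.le_one⟩, fun w hw => ?_, fun w hw => ?_⟩
  · exact f.one_of_mem_closedBall (by simpa using hw)
  · exact f.zero_of_le_dist (by simpa using hw)

end Pool.Agent.Lib.H37D
end

-- from Lib.H37D.DM03
section

/-!
# H37D DM03: fibre affine diffeomorphisms of the plane, cut off in `w`
-/

open Set Filter Topology
open scoped ContDiff

namespace Pool.Agent.Lib.H37D

open Pool.Agent.Lib.H37N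

variable {d : ℕ}

theorem dm03_disp {lam c : ℝ → ℝ} (hl : ContDiff ℝ ∞ lam) (hc : ContDiff ℝ ∞ c)
    (hpos : ∀ x, 0 < lam x) {K : ℝ} (hK : ∀ x, K ≤ |x| → lam x = 1 ∧ c x = 0) (C : ℝ) :
    ∃ f : Pt → ℝ, ContDiff ℝ ∞ f ∧ (∀ z, -1 < fderiv ℝ f z (0, 1)) ∧
      (∃ r : ℝ, ∀ z, r ≤ ‖z‖ → f z = 0) ∧ ∀ x y : ℝ, |y| ≤ C → f (x, y) = (lam x - 1) * y + c x := by
  obtain ⟨m0, K', hm0, hm1, hK0, hb⟩ := mm2_bounds hl.continuous hc.continuous hpos hK
  obtain ⟨χ, hχ, hχ01, hχ1, ⟨R, hR⟩, hχd⟩ := slow_cutoff C (η := m0 / (2 * K' + 2)) (by positivity)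
  have hfs : ContDiff ℝ ∞ (fun z : Pt => χ z.2 * ((lam z.1 - 1) * z.2 + c z.1)) := by
    have l1 : ContDiff ℝ ∞ (fun z : Pt => lam z.1) := hl.comp contDiff_fst
    have l2 : ContDiff ℝ ∞ (fun z : Pt => c z.1) := hc.comp contDiff_fst
    have l3 : ContDiff ℝ ∞ (fun z : Pt => χ z.2) := hχ.comp contDiff_snd
    exact l3.mul (((l1.sub contDiff_const).mul contDiff_snd).add l2)
  refine ⟨fun z : Pt => χ z.2 * ((lam z.1 - 1) * z.2 + c z.1), hfs, fun z => ?_,
    ⟨max K R, fun z hz => ?_⟩, fun x y hy => ?_⟩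
  · obtain ⟨x, y⟩ := z
    have hder : HasDerivAt (fun y : ℝ => χ y * ((lam x - 1) * y + c x))
        (deriv χ y * ((lam x - 1) * y + c x) + χ y * (lam x - 1)) y := by
      have h1 : HasDerivAt χ (deriv χ y) y := (hχ.differentiable (by simp) y).hasDerivAt
      have h2 : HasDerivAt (fun y : ℝ => (lam x - 1) * y + c x) (lam x - 1) y := by
        have := ((hasDerivAt_id y).const_mul (lam x - 1)).add_const (c x)
        simpa using this
      exact h1.mul h2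
    have h1 : HasDerivAt (fun t : ℝ => ((x, t) : Pt)) ((0, 1) : Pt) y :=
      (hasDerivAt_const y x).prodMk (hasDerivAt_id y)
    have h2 : HasFDerivAt (fun z : Pt => χ z.2 * ((lam z.1 - 1) * z.2 + c z.1))
        (fderiv ℝ (fun z : Pt => χ z.2 * ((lam z.1 - 1) * z.2 + c z.1)) (x, y))
        ((fun t : ℝ => ((x, t) : Pt)) y) :=
      (hfs.differentiable (by simp) _).hasFDerivAt
    have h3 := h2.comp_hasDerivAt y h1
    have h4 : fderiv ℝ (fun z : Pt => χ z.2 * ((lam z.1 - 1) * z.2 + c z.1)) (x, y) (0, 1) =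
        deriv χ y * ((lam x - 1) * y + c x) + χ y * (lam x - 1) := h3.unique hder
    rw [h4]
    obtain ⟨b1, b2, b3⟩ := hb x
    have h1 : |deriv χ y * ((lam x - 1) * y + c x)| ≤ m0 / 2 := by
      rw [abs_mul]
      have h2 : |(lam x - 1) * y + c x| ≤ K' * (1 + |y|) := by
        calc |(lam x - 1) * y + c x| ≤ |(lam x - 1) * y| + |c x| := abs_add_le _ _
          _ = |lam x - 1| * |y| + |c x| := by rw [abs_mul]
          _ ≤ K' * |y| + K' := by
              have := mul_le_mul_of_nonneg_right b2 (abs_nonneg y)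
              linarith
          _ = K' * (1 + |y|) := by ring
      calc |deriv χ y| * |(lam x - 1) * y + c x| ≤ |deriv χ y| * (K' * (1 + |y|)) :=
            mul_le_mul_of_nonneg_left h2 (abs_nonneg _)
        _ = K' * (|deriv χ y| * (1 + |y|)) := by ring
        _ ≤ K' * (m0 / (2 * K' + 2)) := mul_le_mul_of_nonneg_left (hχd y) hK0
        _ ≤ m0 / 2 := by
            rw [mul_div_assoc', div_le_div_iff₀ (by positivity) (by norm_num)]
            nlinarith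
    have h3 := neg_abs_le (deriv χ y * ((lam x - 1) * y + c x))
    obtain ⟨c1, c2⟩ := hχ01 y
    have h4 : m0 ≤ 1 + χ y * (lam x - 1) := by nlinarith
    linarith
  · show χ z.2 * ((lam z.1 - 1) * z.2 + c z.1) = 0
    rw [Prod.norm_def, Real.norm_eq_abs, Real.norm_eq_abs] at hz
    rcases le_max_iff.1 hz with h | h
    · obtain ⟨h1, h2⟩ := hK z.1 (le_trans (le_max_left _ _) h)
      rw [h1, h2]
      ring
    · rw [hR z.2 (le_trans (le_max_right _ _) h), zero_mul]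
  · show χ y * ((lam x - 1) * y + c x) = _
    rw [hχ1 y hy, one_mul]

/-- a planar shear, cut off in `w`; `P` is a linear map (the identity or the swap) -/
theorem dm03_cut {f : Pt → ℝ} (hf : ContDiff ℝ ∞ f) (P : Pt →L[ℝ] Pt) (hP : ∀ z, ‖P z‖ = ‖z‖) (u : Pt)
    (hu : ∀ z, -1 < fderiv ℝ f z (P u)) (hr : ∃ r : ℝ, ∀ z, r ≤ ‖z‖ → f z = 0) :
    ∃ Φ Φi : En d → En d, IsCD Φ Φi ∧ (∀ z, (Φ z).2 = z.2) ∧ (∃ r : ℝ, ∀ z, r ≤ ‖z.1‖ → Φ z = z) ∧
      ∀ z w, ‖w‖ ≤ 2 → Φ (z, w) = (z + f (P z) • u, w) := by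
  obtain ⟨τ, hτ, hτ01, hτ1, hτ0⟩ := slotW d (a := 2) (b := 3) (by norm_num) (by norm_num)
  obtain ⟨r, hr⟩ := hr
  have h1 : ContDiff ℝ ∞ (fun z : En d => τ z.2) := hτ.comp contDiff_snd
  have h2 : ContDiff ℝ ∞ (fun z : En d => f (P z.1)) := hf.comp (P.contDiff.comp contDiff_fst)
  obtain ⟨Φi, hΦ⟩ := shear (E := En d) (f := fun z => τ z.2 * f (P z.1)) (u, 0) (h1.mul h2)
    (fun z => by
      have e1 : HasFDerivAt (fun z : En d => τ z.2) ((fderiv ℝ τ z.2).comp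
          (ContinuousLinearMap.snd ℝ Pt (Wd d))) z :=
        (hτ.differentiable (by simp) z.2).hasFDerivAt.comp z hasFDerivAt_snd
      have e2 : HasFDerivAt (fun z : En d => f (P z.1)) ((fderiv ℝ f (P z.1)).comp
          (P.comp (ContinuousLinearMap.fst ℝ Pt (Wd d)))) z :=
        (hf.differentiable (by simp) (P z.1)).hasFDerivAt.comp z (P.hasFDerivAt.comp z hasFDerivAt_fst)
      have e3 : fderiv ℝ (fun z : En d => τ z.2 * f (P z.1)) z = _ := (e1.mul e2).fderiv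
      have e4 : fderiv ℝ (fun z : En d => τ z.2 * f (P z.1)) z (u, 0) =
          τ z.2 * fderiv ℝ f (P z.1) (P u) := by
        rw [e3]
        simp
      rw [e4]
      obtain ⟨c1, c2⟩ := hτ01 z.2
      have c3 := hu (P z.1)
      rcases c2.eq_or_lt with c4 | c4
      · rw [c4, one_mul]
        exact c3
      · have c5 : 0 ≤ τ z.2 * (1 + fderiv ℝ f (P z.1) (P u)) := mul_nonneg c1 (by linarith)
        nlinarith)
    ⟨max r 3, fun z hz => by
      show τ z.2 * f (P z.1) = 0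
      rw [Prod.norm_def] at hz
      rcases le_max_iff.1 hz with h | h
      · rw [hr (P z.1) (by rw [hP]; exact (le_max_left _ _).trans h), mul_zero]
      · rw [hτ0 z.2 ((le_max_right _ _).trans h), zero_mul]⟩
  refine ⟨_, Φi, hΦ, fun z => ?_, ⟨r, fun z hz => ?_⟩, fun z w hw => ?_⟩
  · show (z + (τ z.2 * f (P z.1)) • ((u, 0) : En d)).2 = z.2
    simp
  · show z + (τ z.2 * f (P z.1)) • ((u, 0) : En d) = z
    rw [hr (P z.1) (by rw [hP]; exact hz), mul_zero, zero_smul, add_zero]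
  · show (z, w) + (τ w * f (P z)) • ((u, 0) : En d) = _
    rw [hτ1 w hw, one_mul]
    simp

theorem dm_A1 (d : ℕ) {lam c : ℝ → ℝ} (hl : ContDiff ℝ ∞ lam) (hc : ContDiff ℝ ∞ c)
    (hpos : ∀ x, 0 < lam x) {K : ℝ} (hK : ∀ x, K ≤ |x| → lam x = 1 ∧ c x = 0) (C : ℝ) :
    ∃ Φ Φi : En d → En d, IsCD Φ Φi ∧ (∀ z, (Φ z).2 = z.2) ∧ (∃ r : ℝ, ∀ z, r ≤ ‖z.1‖ → Φ z = z) ∧
      ∀ x y w, |y| ≤ C → ‖w‖ ≤ 2 → Φ ((x, y), w) = ((x, lam x * y + c x), w) := by
  obtain ⟨f, hf, hf1, hf2, hf3⟩ := dm03_disp hl hc hpos hK C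
  obtain ⟨Φ, Φi, h1, h2, h3, h4⟩ := dm03_cut (d := d) hf (ContinuousLinearMap.id ℝ Pt) (fun _ => rfl)
    (0, 1) hf1 hf2
  refine ⟨Φ, Φi, h1, h2, h3, fun x y w hy hw => ?_⟩
  rw [h4 _ _ hw]
  show ((x, y) + f (x, y) • ((0, 1) : Pt), w) = _
  rw [hf3 x y hy]
  simp only [Prod.smul_mk, smul_eq_mul, mul_zero, mul_one, Prod.mk_add_mk, add_zero]
  congr 2
  ring

theorem dm_A2 (d : ℕ) {lam c : ℝ → ℝ} (hl : ContDiff ℝ ∞ lam) (hc : ContDiff ℝ ∞ c)
    (hpos : ∀ x, 0 < lam x) {K : ℝ} (hK : ∀ x, K ≤ |x| → lam x = 1 ∧ c x = 0) (C : ℝ) :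
    ∃ Φ Φi : En d → En d, IsCD Φ Φi ∧ (∀ z, (Φ z).2 = z.2) ∧ (∃ r : ℝ, ∀ z, r ≤ ‖z.1‖ → Φ z = z) ∧
      ∀ x y w, |x| ≤ C → ‖w‖ ≤ 2 → Φ ((x, y), w) = ((lam y * x + c y, y), w) := by
  obtain ⟨f, hf, hf1, hf2, hf3⟩ := dm03_disp hl hc hpos hK C
  obtain ⟨Φ, Φi, h1, h2, h3, h4⟩ := dm03_cut (d := d) hf
    ((ContinuousLinearMap.snd ℝ ℝ ℝ).prod (ContinuousLinearMap.fst ℝ ℝ ℝ))
    (fun z => by
      show ‖((z.2, z.1) : Pt)‖ = ‖z‖
      rw [Prod.norm_def, Prod.norm_def, max_comm]) (1, 0) hf1 hf2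
  refine ⟨Φ, Φi, h1, h2, h3, fun x y w hy hw => ?_⟩
  rw [h4 _ _ hw]
  show ((x, y) + f (y, x) • ((1, 0) : Pt), w) = _
  rw [hf3 y x hy]
  simp only [Prod.smul_mk, smul_eq_mul, mul_zero, mul_one, Prod.mk_add_mk, add_zero]
  congr 2
  ring

end Pool.Agent.Lib.H37D
end

-- from Lib.H37D.DM04
section

/-!
# H37D DM04: the twist, cut off in `w`
-/

open Set Filter Topology
open scoped ContDiff

namespace Pool.Agent.Lib.H37D

open Pool.Agent.Lib.H37N

variable {d : ℕ}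

theorem dm04_smooth (v0 : Pt) {τ : Wd d → ℝ} (hτ : ContDiff ℝ ∞ τ) {θ : ℝ → ℝ} (hθ : ContDiff ℝ ∞ θ) :
    ContDiff ℝ ∞ (fun z : En d => ((mm4_tw v0 (fun t => τ z.2 * θ t) z.1, z.2) : En d)) := by
  have h1 : ContDiff ℝ ∞ fun z : En d => z.1.1 - v0.1 :=
    (contDiff_fst.comp contDiff_fst).sub contDiff_const
  have h2 : ContDiff ℝ ∞ fun z : En d => z.1.2 - v0.2 :=
    (contDiff_snd.comp contDiff_fst).sub contDiff_const
  have h0 : ContDiff ℝ ∞ fun z : En d => τ z.2 := hτ.comp contDiff_snd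
  have h3 : ContDiff ℝ ∞ fun z : En d => τ z.2 * θ ((z.1.1 - v0.1) ^ 2 + (z.1.2 - v0.2) ^ 2) :=
    h0.mul (hθ.comp ((h1.pow 2).add (h2.pow 2)))
  have h4 : ContDiff ℝ ∞ fun z : En d =>
      Real.cos (τ z.2 * θ ((z.1.1 - v0.1) ^ 2 + (z.1.2 - v0.2) ^ 2)) := Real.contDiff_cos.comp h3
  have h5 : ContDiff ℝ ∞ fun z : En d =>
      Real.sin (τ z.2 * θ ((z.1.1 - v0.1) ^ 2 + (z.1.2 - v0.2) ^ 2)) := Real.contDiff_sin.comp h3
  exact ((contDiff_const.add ((h4.mul h1).sub (h5.mul h2))).prodMk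
    (contDiff_const.add ((h5.mul h1).add (h4.mul h2)))).prodMk contDiff_snd

theorem dm_twist (d : ℕ) (v0 : Pt) {r0 r1 : ℝ} (h0 : 0 < r0) (h1 : r0 < r1) :
    ∃ Φ Φi : En d → En d, IsCD Φ Φi ∧ (∀ z, (Φ z).2 = z.2) ∧ (∃ r : ℝ, ∀ z, r ≤ ‖z.1‖ → Φ z = z) ∧
      (∀ (v : Pt) (w : Wd d), ‖w‖ ≤ 2 → (v.1 - v0.1) ^ 2 + (v.2 - v0.2) ^ 2 ≤ r0 ^ 2 →
        Φ (v, w) = ((v0.1 + (v.2 - v0.2), v0.2 - (v.1 - v0.1)), w)) ∧
      ∀ (v : Pt) (w : Wd d), r1 ^ 2 ≤ (v.1 - v0.1) ^ 2 + (v.2 - v0.2) ^ 2 → Φ (v, w) = (v, w) := by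
  obtain ⟨τ, hτ, hτ01, hτ1, hτ0⟩ := slotW d (a := 2) (b := 3) (by norm_num) (by norm_num)
  have hr : 0 < r1 ^ 2 - r0 ^ 2 := by nlinarith
  let θ : ℝ → ℝ := fun t => -(Real.pi / 2) * Real.smoothTransition ((r1 ^ 2 - t) / (r1 ^ 2 - r0 ^ 2))
  have hθ : ContDiff ℝ ∞ θ :=
    contDiff_const.mul (Real.smoothTransition.contDiff.comp (by fun_prop))
  have hθ0 : ∀ t, t ≤ r0 ^ 2 → θ t = -(Real.pi / 2) := by
    intro t ht
    show -(Real.pi / 2) * Real.smoothTransition ((r1 ^ 2 - t) / (r1 ^ 2 - r0 ^ 2)) = _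
    rw [Real.smoothTransition.one_of_one_le, mul_one]
    rw [le_div_iff₀ hr]
    linarith
  have hθ1 : ∀ t, r1 ^ 2 ≤ t → θ t = 0 := by
    intro t ht
    show -(Real.pi / 2) * Real.smoothTransition ((r1 ^ 2 - t) / (r1 ^ 2 - r0 ^ 2)) = _
    rw [Real.smoothTransition.zero_of_nonpos, mul_zero]
    exact div_nonpos_of_nonpos_of_nonneg (by linarith) hr.le
  have htw : ∀ (φ : ℝ → ℝ) (v : Pt), φ ((v.1 - v0.1) ^ 2 + (v.2 - v0.2) ^ 2) = 0 →
      mm4_tw v0 φ v = v := by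
    intro φ v hv
    rw [mm4_tw, hv, Real.cos_zero, Real.sin_zero]
    refine Prod.ext ?_ ?_
    · show v0.1 + (1 * (v.1 - v0.1) - 0 * (v.2 - v0.2)) = v.1
      ring
    · show v0.2 + (0 * (v.1 - v0.1) + 1 * (v.2 - v0.2)) = v.2
      ring
  have hfar : ∀ v : Pt, ‖v0‖ + r1 ≤ ‖v‖ → r1 ^ 2 ≤ (v.1 - v0.1) ^ 2 + (v.2 - v0.2) ^ 2 := by
    intro z hz
    have h2 : r1 ≤ ‖z - v0‖ := by
      have := norm_sub_norm_le z v0
      linarith
    have h3 : ‖z - v0‖ = max |z.1 - v0.1| |z.2 - v0.2| := rfl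
    rw [h3] at h2
    have hr1 : 0 < r1 := h0.trans h1
    rcases le_max_iff.1 h2 with h4 | h4
    · have h5 : r1 ^ 2 ≤ (z.1 - v0.1) ^ 2 := by
        rw [← sq_abs (z.1 - v0.1)]
        exact pow_le_pow_left₀ hr1.le h4 2
      nlinarith [sq_nonneg (z.2 - v0.2)]
    · have h5 : r1 ^ 2 ≤ (z.2 - v0.2) ^ 2 := by
        rw [← sq_abs (z.2 - v0.2)]
        exact pow_le_pow_left₀ hr1.le h4 2
      nlinarith [sq_nonneg (z.1 - v0.1)]
  set Φ : En d → En d := fun z => (mm4_tw v0 (fun t => τ z.2 * θ t) z.1, z.2) with hΦ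
  set Φi : En d → En d := fun z => (mm4_tw v0 (fun t => τ z.2 * (-θ t)) z.1, z.2) with hΦi
  have hz1 : ∀ z : En d, r1 ^ 2 ≤ (z.1.1 - v0.1) ^ 2 + (z.1.2 - v0.2) ^ 2 → Φ z = z := by
    intro z hz
    show (mm4_tw v0 (fun t => τ z.2 * θ t) z.1, z.2) = z
    rw [htw (fun t => τ z.2 * θ t) z.1 (by rw [hθ1 _ hz, mul_zero])]
  refine ⟨Φ, Φi, ⟨dm04_smooth v0 hτ hθ, dm04_smooth v0 hτ hθ.neg, fun z => ?_, fun z => ?_,
    max (‖v0‖ + r1) 3, fun z hz => ?_⟩, fun z => rfl, ⟨‖v0‖ + r1, fun z hz => hz1 z (hfar z.1 hz)⟩,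
    fun v w hw hv => ?_, fun v w hv => hz1 (v, w) hv⟩
  · show (mm4_tw v0 (fun t => τ z.2 * (-θ t)) (mm4_tw v0 (fun t => τ z.2 * θ t) z.1), z.2) = z
    have h2 := mm4_inv v0 (fun t => τ z.2 * θ t) z.1
    have h3 : (fun t => -(τ z.2 * θ t)) = fun t => τ z.2 * (-θ t) := by
      funext t
      ring
    rw [h3] at h2
    rw [h2]
  · show (mm4_tw v0 (fun t => τ z.2 * θ t) (mm4_tw v0 (fun t => τ z.2 * (-θ t)) z.1), z.2) = z
    have h2 := mm4_inv v0 (fun t => τ z.2 * (-θ t)) z.1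
    have h3 : (fun t => -(τ z.2 * (-θ t))) = fun t => τ z.2 * θ t := by
      funext t
      ring
    rw [h3] at h2
    rw [h2]
  · rw [Prod.norm_def] at hz
    rcases le_max_iff.1 hz with h | h
    · exact hz1 z (hfar z.1 ((le_max_left _ _).trans h))
    · show (mm4_tw v0 (fun t => τ z.2 * θ t) z.1, z.2) = z
      rw [htw (fun t => τ z.2 * θ t) z.1 (by rw [hτ0 _ ((le_max_right _ _).trans h), zero_mul])]
  · show (mm4_tw v0 (fun t => τ w * θ t) v, w) = _
    rw [hτ1 w hw, mm4_tw]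
    simp only [one_mul]
    rw [hθ0 _ hv, Real.cos_neg, Real.sin_neg, Real.cos_pi_div_two, Real.sin_pi_div_two]
    refine Prod.ext (Prod.ext ?_ ?_) rfl
    · show v0.1 + (0 * (v.1 - v0.1) - -1 * (v.2 - v0.2)) = v0.1 + (v.2 - v0.2)
      ring
    · show v0.2 + (-1 * (v.1 - v0.1) + 0 * (v.2 - v0.2)) = v0.2 - (v.1 - v0.1)
      ring

end Pool.Agent.Lib.H37D
end

-- from Lib.H37D.DM05
section

/-!
# H37D DM05: the planar model, cut off in `w`
-/

open Set Filter Topology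
open scoped ContDiff

namespace Pool.Agent.Lib.H37D

open Pool.Agent.Lib.H37N

variable {d : ℕ}

/-- open neighbourhoods of `VV i` and `FF` on which the model is explicit -/
def VVo (i : Sy) : Set Pt := Ioo (al i - 2 * del) (al i + pw i + 2 * del) ×ˢ Ioo (-2 * del) (1 + 2 * del)

def FFo : Set Pt := Ioo (xc - u0 - del) (xc + u0 + del) ×ˢ Ioo (-2 * del) (1 + 2 * del)

theorem dm_planar (d : ℕ) : ∃ (Φ Φi : En d → En d) (R0 : ℝ), IsCD Φ Φi ∧ (∀ z, (Φ z).2 = z.2) ∧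
    (∀ z, R0 ≤ ‖z.1‖ → Φ z = z) ∧
    (∀ (i : Sy) (z : Pt) (w : Wd d), z ∈ VVo i → ‖w‖ ≤ 2 → Φ (z, w) = (Aff i z, w)) ∧
    ∀ (z : Pt) (w : Wd d), z ∈ FFo → ‖w‖ ≤ 2 → Φ (z, w) = (Fold z, w) := by
  obtain ⟨lam, c, hls, hcs, hlp, ⟨K, hK⟩, hval⟩ := profile
    (a := ![-2 * del, xc - u0 - del, 801 / 1000 - 2 * del])
    (b := ![4 / 5 + 2 * del, xc + u0 + del, 1 + 2 * del])
    (l := ![1 / 2, gam / 100, 499 / 1000])
    (c := ![fun _ => 0, fun x => yc - gam / 200 - (x - xc) ^ 2 / (20 * gam),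
      fun _ => 501 / 1000])
    (by intro i; fin_cases i <;> norm_num [del, xc, u0])
    (by norm_num [del, xc, u0])
    (by show xc + u0 + del < 801 / 1000 - 2 * del; norm_num [del, xc, u0])
    (by intro i; fin_cases i <;> norm_num [gam])
    (by
      intro i
      fin_cases i
      · exact contDiff_const
      · show ContDiff ℝ ∞ fun x : ℝ => yc - gam / 200 - (x - xc) ^ 2 / (20 * gam)
        fun_prop
      · exact contDiff_const)
  obtain ⟨lam', c', hls', hcs', hlp', ⟨K', hK'⟩, hval'⟩ := profile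
    (a := ![-2 * del, yc - 27 / 100 * gam, 501 / 1000 - 2 * del])
    (b := ![1 / 2 + 2 * del, yc + 27 / 100 * gam, 1 + 2 * del])
    (l := ![5 / 4, 50 / gam, 1000 / 199])
    (c := ![fun _ => 0, fun _ => 1 / 2 - 50 / gam * xc, fun _ => - 801 / 199])
    (by intro i; fin_cases i <;> norm_num [del, yc, gam])
    (by norm_num [del, yc, gam])
    (by show yc + 27 / 100 * gam < 501 / 1000 - 2 * del; norm_num [del, yc, gam])
    (by intro i; fin_cases i <;> norm_num [gam])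
    (by
      intro i
      fin_cases i <;> exact contDiff_const)
  have v0 := hval 0
  have v1 := hval 1
  have v2 := hval 2
  have w0 := hval' 0
  have w1 := hval' 1
  have w2 := hval' 2
  simp only [Matrix.cons_val_zero, Matrix.cons_val_one, Matrix.cons_val, mem_Icc] at v0 v1 v2 w0 w1 w2
  obtain ⟨A1, A1i, hA1, hA12, ⟨ra, hra⟩, hA1v⟩ := dm_A1 d hls hcs hlp hK 2
  obtain ⟨A2, A2i, hA2, hA22, ⟨rb, hrb⟩, hA2w⟩ := dm_A2 d hls' hcs' hlp' hK' 2
  obtain ⟨R, Ri, hR, hR2, ⟨rc, hrc⟩, hRin, hRout⟩ := dm_twist d (xc, yc) (r0 := 3 / 10 * gam)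
    (r1 := 45 / 100 * gam) (by norm_num [gam]) (by norm_num [gam])
  refine ⟨fun z => A2 (R (A1 z)), _, max ra (max rb rc), hA2.comp (hR.comp hA1), ?_, ?_, ?_, ?_⟩
  · intro z
    show (A2 (R (A1 z))).2 = z.2
    rw [hA22, hR2, hA12]
  · intro z hz
    show A2 (R (A1 z)) = z
    rw [hra z ((le_max_left _ _).trans hz),
      hrc z (((le_max_right _ _).trans (le_max_right _ _)).trans hz),
      hrb z (((le_max_left _ _).trans (le_max_right _ _)).trans hz)]
  · rintro i ⟨x, y⟩ w ⟨⟨h1, h2⟩, h3, h4⟩ hw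
    show A2 (R (A1 ((x, y), w))) = _
    cases i
    · simp only [al, pw, del] at h1 h2 h3 h4
      obtain ⟨e1, e2⟩ := v0 x ⟨by simp only [del]; linarith, by simp only [del]; linarith⟩
      have hy : |y| ≤ 2 := by rw [abs_le]; constructor <;> linarith
      have hx : |x| ≤ 2 := by rw [abs_le]; constructor <;> linarith
      have s1 : A1 ((x, y), w) = ((x, 1 / 2 * y + 0), w) := by rw [hA1v x y w hy hw, e1, e2]
      have s2 : R ((x, 1 / 2 * y + 0), w) = ((x, 1 / 2 * y + 0), w) := by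
        refine hRout _ _ ?_
        simp only [gam, xc, yc]
        nlinarith [sq_nonneg (1 / 2 * y + 0 - 5005 / 10000 : ℝ)]
      obtain ⟨f1, f2⟩ := w0 (1 / 2 * y + 0) ⟨by simp only [del]; linarith, by simp only [del]; linarith⟩
      rw [s1, s2, hA2w _ _ _ hx hw, f1, f2]
      simp only [Aff, al, pw, be, qw]
      refine Prod.ext (Prod.ext ?_ ?_) rfl
      · show (5 / 4 * x + 0 : ℝ) = (x - 0) / (4 / 5)
        ring
      · show (1 / 2 * y + 0 : ℝ) = 0 + 1 / 2 * y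
        ring
    · simp only [al, pw, del] at h1 h2 h3 h4
      obtain ⟨e1, e2⟩ := v2 x ⟨by simp only [del]; linarith, by simp only [del]; linarith⟩
      have hy : |y| ≤ 2 := by rw [abs_le]; constructor <;> linarith
      have hx : |x| ≤ 2 := by rw [abs_le]; constructor <;> linarith
      have s1 : A1 ((x, y), w) = ((x, 499 / 1000 * y + 501 / 1000), w) := by rw [hA1v x y w hy hw, e1, e2]
      have s2 : R ((x, 499 / 1000 * y + 501 / 1000), w) = ((x, 499 / 1000 * y + 501 / 1000), w) := by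
        refine hRout _ _ ?_
        simp only [gam, xc, yc]
        nlinarith [sq_nonneg (499 / 1000 * y + 501 / 1000 - 5005 / 10000 : ℝ)]
      obtain ⟨f1, f2⟩ := w2 (499 / 1000 * y + 501 / 1000)
        ⟨by simp only [del]; linarith, by simp only [del]; linarith⟩
      rw [s1, s2, hA2w _ _ _ hx hw, f1, f2]
      simp only [Aff, al, pw, be, qw]
      refine Prod.ext (Prod.ext ?_ ?_) rfl
      · show (1000 / 199 * x + - 801 / 199 : ℝ) = (x - 801 / 1000) / (199 / 1000)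
        ring
      · show (499 / 1000 * y + 501 / 1000 : ℝ) = 501 / 1000 + 499 / 1000 * y
        ring
  · rintro ⟨x, y⟩ wv ⟨⟨h1, h2⟩, h3, h4⟩ hwv
    obtain ⟨e1, e2⟩ := v1 x ⟨h1.le, h2.le⟩
    simp only [xc, u0, del] at h1 h2 h3 h4
    have hy : |y| ≤ 2 := by rw [abs_le]; constructor <;> linarith
    obtain ⟨u, rfl⟩ : ∃ u, x = 8005 / 10000 + u := ⟨x - 8005 / 10000, by ring⟩
    have hu1 : -(26 / 100000) ≤ u := by linarith
    have hu2 : u ≤ 26 / 100000 := by linarith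
    have husq : u ^ 2 ≤ (26 / 100000) ^ 2 := by nlinarith
    have hu0 : 0 ≤ u ^ 2 := sq_nonneg u
    set w : ℝ := 1 / 100000 * (y - 1 / 2) - 50 * u ^ 2 with hw
    have hw1 : -(1 / 100000) ≤ w := by rw [hw]; linarith
    have hw2 : w ≤ 1 / 100000 := by rw [hw]; linarith
    have hwsq : w ^ 2 ≤ (1 / 100000) ^ 2 := by nlinarith
    have s1 : A1 ((8005 / 10000 + u, y), wv) = ((8005 / 10000 + u, 5005 / 10000 + w), wv) := by
      rw [hA1v _ y wv hy hwv, e1, e2]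
      refine Prod.ext (Prod.ext rfl ?_) rfl
      simp only [hw, gam, xc, yc]
      ring
    have s2 : R ((8005 / 10000 + u, 5005 / 10000 + w), wv) =
        ((8005 / 10000 + w, 5005 / 10000 - u), wv) := by
      rw [hRin _ _ hwv]
      · refine Prod.ext (Prod.ext ?_ ?_) rfl
        · simp only [xc, yc]; ring
        · simp only [xc, yc]; ring
      · simp only [xc, yc, gam]
        nlinarith
    obtain ⟨f1, f2⟩ := w1 (5005 / 10000 - u)
        ⟨by simp only [yc, gam]; linarith, by simp only [yc, gam]; linarith⟩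
    have hx : |8005 / 10000 + w| ≤ 2 := by rw [abs_le]; constructor <;> linarith
    show A2 (R (A1 ((8005 / 10000 + u, y), wv))) = _
    rw [s1, s2, hA2w _ _ _ hx hwv, f1, f2]
    simp only [Fold, gam, xc, yc, cc, dd, hw]
    refine Prod.ext (Prod.ext ?_ ?_) rfl
    · show (50 / (1 / 1000) * (8005 / 10000 + (1 / 100000 * (y - 1 / 2) - 50 * u ^ 2)) +
        (1 / 2 - 50 / (1 / 1000) * (8005 / 10000)) : ℝ) =
        1 / 2 + 1 / 2 * (y - 1 / 2) - 2500000 * (8005 / 10000 + u - 8005 / 10000) ^ 2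
      ring
    · show (5005 / 10000 - u : ℝ) = 5005 / 10000 - (8005 / 10000 + u - 8005 / 10000)
      ring

end Pool.Agent.Lib.H37D
end

-- from Lib.H37D.DM06
section

/-!
# H37D DM06: the shears in the direction of `x`
-/

open Set Filter Topology
open scoped ContDiff

namespace Pool.Agent.Lib.H37D

open Pool.Agent.Lib.H37N

variable {d : ℕ}

theorem dm06_mono {c : ℝ} : Monotone fun x : ℝ => Real.smoothTransition (x + c) :=
  fun _ _ h => Real.smoothTransition.monotone (by linarith)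

theorem dm06_smooth (c : ℝ) : ContDiff ℝ ∞ fun x : ℝ => Real.smoothTransition (x + c) :=
  Real.smoothTransition.contDiff.comp (contDiff_id.add contDiff_const)

/-- the translation of the slot -/
theorem dm_T (d : ℕ) (R0 C : ℝ) (hR0 : 4 ≤ R0) : ∃ T Ti : En d → En d, IsCD T Ti ∧
    (∀ z, ∃ t : ℝ, 0 ≤ t ∧ t ≤ R0 + 3 ∧ T z = z + t • eX d) ∧ (∀ z : En d, z.1.1 ≤ -R0 → T z = z) ∧
    (∀ z : En d, 2 / 10 ^ 7 ≤ ‖z.2‖ → T z = z) ∧
    ∀ z : En d, ‖z‖ ≤ C → -R0 + 1 ≤ z.1.1 → ‖z.2‖ ≤ 11 / 10 ^ 8 → T z = z + (R0 + 3) • eX d := by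
  obtain ⟨X, hX, hX01, hX1, hXr, hXx, -, -⟩ := cutX d C (η := 1 / (4 * (R0 + 3))) (by positivity)
  obtain ⟨τ, hτ, hτ01, hτ1, hτ0⟩ := slotW d (a := 11 / 10 ^ 8) (b := 2 / 10 ^ 7) (by norm_num)
    (by norm_num)
  have hs : ContDiff ℝ ∞ (fun z : En d => Real.smoothTransition (z.1.1 + R0)) :=
    (dm06_smooth R0).comp (contDiff_fst.comp contDiff_fst)
  have ht : ContDiff ℝ ∞ (fun z : En d => τ z.2) := hτ.comp contDiff_snd
  have hg : ContDiff ℝ ∞ (fun z : En d => Real.smoothTransition (z.1.1 + R0) * ((R0 + 3) * τ z.2)) :=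
    hs.mul (contDiff_const.mul ht)
  have h3 : 0 ≤ R0 + 3 := by linarith
  obtain ⟨Φi, hΦ⟩ := shear_cut (X := X) (g := fun z : En d => Real.smoothTransition (z.1.1 + R0) *
    ((R0 + 3) * τ z.2)) (c := fun z => z.1.1) (u := eX d) (K := R0 + 3) hX hX01 hXr hXx hg
    (fun z => by
      have h1 := dm02_dir (dm06_smooth R0) hg (z := z) (u := eX d) (c := z.1.1)
        (q := (R0 + 3) * τ z.2) (fun t => by simp [eX])
      rw [h1]
      have h2 : 0 ≤ deriv (fun x : ℝ => Real.smoothTransition (x + R0)) z.1.1 :=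
        dm06_mono.deriv_nonneg
      have h4 : 0 ≤ (R0 + 3) * τ z.2 := mul_nonneg h3 (hτ01 _).1
      have := mul_nonneg h2 h4
      linarith)
    (fun z => by
      have h1 : |Real.smoothTransition (z.1.1 + R0) * ((R0 + 3) * τ z.2)| ≤ R0 + 3 := by
        rw [abs_of_nonneg (mul_nonneg (Real.smoothTransition.nonneg _) (mul_nonneg h3 (hτ01 _).1))]
        have h5 := Real.smoothTransition.le_one (z.1.1 + R0)
        have h6 := (hτ01 z.2).2
        calc Real.smoothTransition (z.1.1 + R0) * ((R0 + 3) * τ z.2) ≤ 1 * ((R0 + 3) * 1) :=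
              mul_le_mul h5 (mul_le_mul_of_nonneg_left h6 h3) (mul_nonneg h3 (hτ01 _).1) zero_le_one
          _ = R0 + 3 := by ring
      have h2 : 0 ≤ |z.1.1| := abs_nonneg _
      nlinarith)
    h3 (by
      rw [mul_one_div, div_le_div_iff₀ (by positivity) (by norm_num)]
      linarith)
  refine ⟨_, Φi, hΦ, fun z => ⟨X z * (Real.smoothTransition (z.1.1 + R0) * ((R0 + 3) * τ z.2)), ?_, ?_, rfl⟩,
    fun z hz => ?_, fun z hz => ?_, fun z hz hx hw => ?_⟩
  · exact mul_nonneg (hX01 z).1 (mul_nonneg (Real.smoothTransition.nonneg _) (mul_nonneg h3 (hτ01 _).1))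
  · have h5 := Real.smoothTransition.le_one (z.1.1 + R0)
    have h6 := (hτ01 z.2).2
    calc X z * (Real.smoothTransition (z.1.1 + R0) * ((R0 + 3) * τ z.2)) ≤ 1 * (1 * ((R0 + 3) * 1)) :=
          mul_le_mul (hX01 z).2 (mul_le_mul h5 (mul_le_mul_of_nonneg_left h6 h3)
            (mul_nonneg h3 (hτ01 _).1) zero_le_one)
            (mul_nonneg (Real.smoothTransition.nonneg _) (mul_nonneg h3 (hτ01 _).1)) zero_le_one
      _ = R0 + 3 := by ring
  · show z + (X z * (Real.smoothTransition (z.1.1 + R0) * ((R0 + 3) * τ z.2))) • eX d = z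
    rw [Real.smoothTransition.zero_of_nonpos (by linarith), zero_mul, mul_zero, zero_smul, add_zero]
  · show z + (X z * (Real.smoothTransition (z.1.1 + R0) * ((R0 + 3) * τ z.2))) • eX d = z
    rw [hτ0 _ hz, mul_zero, mul_zero, mul_zero, zero_smul, add_zero]
  · show z + (X z * (Real.smoothTransition (z.1.1 + R0) * ((R0 + 3) * τ z.2))) • eX d = _
    rw [hX1 z hz, hτ1 _ hw, Real.smoothTransition.one_of_one_le (by linarith), one_mul, one_mul, mul_one]

/-- the contraction towards the source on the left, the translation on the right -/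
theorem dm_Sx (d : ℕ) (R0 C : ℝ) (hR0 : 4 ≤ R0) : ∃ (S Si : En d → En d) (β : ℝ → ℝ), IsCD S Si ∧
    Monotone β ∧ (∀ x, x ≤ R0 + 1 → β x = (x - (3 * R0 + 7)) / 2) ∧
    (∀ x, R0 + 2 ≤ x → β x = x - (R0 + 3)) ∧ ∀ z : En d, ‖z‖ ≤ C → S z = ((β z.1.1, z.1.2), z.2) := by
  obtain ⟨X, hX, hX01, hX1, hXr, hXx, -, -⟩ := cutX d C (η := 1 / (4 * (4 * R0 + 10))) (by positivity)
  set s : ℝ → ℝ := fun x => Real.smoothTransition (x + (-R0 - 1)) with hs
  have hss : ContDiff ℝ ∞ s := dm06_smooth _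
  have hs01 : ∀ x, 0 ≤ s x ∧ s x ≤ 1 := fun x =>
    ⟨Real.smoothTransition.nonneg _, Real.smoothTransition.le_one _⟩
  set D : ℝ → ℝ := fun x => (1 - s x) * (-(x + (3 * R0 + 7)) / 2) + s x * (-(R0 + 3)) with hD
  have hDs : ContDiff ℝ ∞ D := by
    refine ((contDiff_const.sub hss).mul ?_).add (hss.mul contDiff_const)
    fun_prop
  have hder : ∀ x, HasDerivAt D (-(1 - s x) / 2 + deriv s x * ((x + (3 * R0 + 7)) / 2 - (R0 + 3))) x := by
    intro x
    have h1 : HasDerivAt s (deriv s x) x := (hss.differentiable (by simp) x).hasDerivAt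
    have h2 : HasDerivAt (fun x : ℝ => -(x + (3 * R0 + 7)) / 2) (-1 / 2) x := by
      have := (((hasDerivAt_id x).add_const (3 * R0 + 7)).neg).div_const 2
      simpa using this
    have h3 := ((h1.const_sub 1).mul h2).add (h1.mul_const (-(R0 + 3)))
    refine h3.congr_deriv ?_
    ring
  have hdn : ∀ x, -1 / 2 ≤ deriv D x := by
    intro x
    rw [(hder x).deriv]
    have h1 : 0 ≤ deriv s x * ((x + (3 * R0 + 7)) / 2 - (R0 + 3)) := by
      rcases lt_or_ge x (R0 + 1) with hx | hx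
      · have h2 : s =ᶠ[𝓝 x] fun _ => 0 := by
          filter_upwards [Iio_mem_nhds hx] with y hy
          exact Real.smoothTransition.zero_of_nonpos (by have := mem_Iio.1 hy; linarith)
        rw [h2.deriv_eq, deriv_const, zero_mul]
      · exact mul_nonneg dm06_mono.deriv_nonneg (by linarith)
    have h3 := (hs01 x).1
    linarith
  have hgs : ContDiff ℝ ∞ (fun z : En d => D z.1.1) := hDs.comp (contDiff_fst.comp contDiff_fst)
  have h3 : 0 ≤ 4 * R0 + 10 := by linarith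
  obtain ⟨Φi, hΦ⟩ := shear_cut (X := X) (g := fun z : En d => D z.1.1) (c := fun z => z.1.1)
    (u := eX d) (K := 4 * R0 + 10) hX hX01 hXr hXx hgs
    (fun z => by
      have h1 := dm02_dir hDs hgs (z := z) (u := eX d) (c := z.1.1) (q := 1)
        (fun t => by simp [eX])
      rw [h1, mul_one]
      exact hdn _)
    (fun z => by
      obtain ⟨h5, h6⟩ := hs01 z.1.1
      have h7 := abs_nonneg z.1.1
      have e1 : |(1 - s z.1.1) * (-(z.1.1 + (3 * R0 + 7)) / 2)| ≤ (|z.1.1| + (3 * R0 + 7)) / 2 := by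
        rw [abs_mul, abs_of_nonneg (by linarith : 0 ≤ 1 - s z.1.1), abs_div, abs_neg]
        have e2 : |z.1.1 + (3 * R0 + 7)| ≤ |z.1.1| + (3 * R0 + 7) :=
          (abs_add_le _ _).trans (by rw [abs_of_nonneg (by linarith : (0 : ℝ) ≤ 3 * R0 + 7)])
        rw [abs_of_pos (by norm_num : (0 : ℝ) < 2)]
        have e3 : |z.1.1 + (3 * R0 + 7)| / 2 ≤ (|z.1.1| + (3 * R0 + 7)) / 2 := by linarith
        have e4 : 0 ≤ |z.1.1 + (3 * R0 + 7)| / 2 := by positivity
        nlinarith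
      have e5 : |s z.1.1 * (-(R0 + 3))| ≤ R0 + 3 := by
        rw [abs_mul, abs_neg, abs_of_nonneg h5, abs_of_nonneg (by linarith : 0 ≤ R0 + 3)]
        nlinarith
      have e6 := abs_add_le ((1 - s z.1.1) * (-(z.1.1 + (3 * R0 + 7)) / 2)) (s z.1.1 * (-(R0 + 3)))
      show |(1 - s z.1.1) * (-(z.1.1 + (3 * R0 + 7)) / 2) + s z.1.1 * (-(R0 + 3))| ≤ _
      nlinarith)
    h3 (by
      rw [mul_one_div, div_le_div_iff₀ (by positivity) (by norm_num)]
      linarith)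
  refine ⟨_, Φi, fun x => x + D x, hΦ, ?_, fun x hx => ?_, fun x hx => ?_, fun z hz => ?_⟩
  · refine monotone_of_deriv_nonneg ((differentiable_id).add (hDs.differentiable (by simp))) fun x => ?_
    have h1 : HasDerivAt (fun x : ℝ => x + D x) (1 + deriv D x) x :=
      (hasDerivAt_id x).add (hDs.differentiable (by simp) x).hasDerivAt
    rw [h1.deriv]
    have := hdn x
    linarith
  · have h1 : s x = 0 := Real.smoothTransition.zero_of_nonpos (by linarith)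
    show x + ((1 - s x) * (-(x + (3 * R0 + 7)) / 2) + s x * (-(R0 + 3))) = _
    rw [h1]
    ring
  · have h1 : s x = 1 := Real.smoothTransition.one_of_one_le (by linarith)
    show x + ((1 - s x) * (-(x + (3 * R0 + 7)) / 2) + s x * (-(R0 + 3))) = _
    rw [h1]
    ring
  · show z + (X z * D z.1.1) • eX d = _
    rw [hX1 z hz, one_mul]
    ext <;> simp [eX]

end Pool.Agent.Lib.H37D
end

-- from Lib.H37D.DM07
section

/-!
# H37D DM07: the shears in the directions of `y` and `w`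
-/

open Set Filter Topology
open scoped ContDiff

namespace Pool.Agent.Lib.H37D

open Pool.Agent.Lib.H37N

variable {d : ℕ}

/-- the transition function of the scalings: `1` for `x ≤ -R0 - 2`, `0` for `x ≥ -R0 - 1` -/
noncomputable def rhoS (R0 x : ℝ) : ℝ := Real.smoothTransition (-R0 - 1 - x)

/-- the scaling factor of `w_k` -/
noncomputable def nuS (d : ℕ) (R0 : ℝ) (k : Fin d) (x : ℝ) : ℝ :=
  (1 - rhoS R0 x) * (1 / awk d k) + rhoS R0 x * (1 / 2)

theorem rhoS_smooth (R0 : ℝ) : ContDiff ℝ ∞ (rhoS R0) :=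
  Real.smoothTransition.contDiff.comp (contDiff_const.sub contDiff_id)

theorem rhoS_mem (R0 x : ℝ) : 0 ≤ rhoS R0 x ∧ rhoS R0 x ≤ 1 :=
  ⟨Real.smoothTransition.nonneg _, Real.smoothTransition.le_one _⟩

theorem rhoS_one {R0 x : ℝ} (h : x ≤ -R0 - 2) : rhoS R0 x = 1 :=
  Real.smoothTransition.one_of_one_le (by linarith)

theorem rhoS_zero {R0 x : ℝ} (h : -R0 - 1 ≤ x) : rhoS R0 x = 0 :=
  Real.smoothTransition.zero_of_nonpos (by linarith)

theorem awk_bounds (k : Fin d) : 9 / 10 ^ 8 ≤ awk d k ∧ awk d k ≤ 1 / 10 ^ 7 := by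
  have hd : (0 : ℝ) < (d : ℝ) + 1 := by positivity
  have hk1 : (k : ℝ) + 1 ≤ d := by
    have := k.2
    exact_mod_cast this
  have hk0 : (0 : ℝ) ≤ (k : ℝ) := Nat.cast_nonneg _
  unfold awk aw
  have h1 : ((k : ℝ) + 1) / (10 * ((d : ℝ) + 1)) ≤ 1 / 10 := by
    rw [div_le_div_iff₀ (by positivity) (by norm_num)]
    linarith
  have h2 : 0 ≤ ((k : ℝ) + 1) / (10 * ((d : ℝ) + 1)) := by positivity
  constructor
  · norm_num
    linarith
  · norm_num
    linarith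

theorem awk_inv (k : Fin d) : 10 ^ 7 ≤ 1 / awk d k ∧ 1 / awk d k ≤ 12 / 10 * 10 ^ 7 := by
  obtain ⟨h1, h2⟩ := awk_bounds k
  have h0 : 0 < awk d k := lt_of_lt_of_le (by norm_num) h1
  constructor
  · rw [le_div_iff₀ h0]
    norm_num at h2 ⊢
    linarith
  · rw [div_le_iff₀ h0]
    norm_num at h1 ⊢
    linarith

theorem nuS_mem (R0 : ℝ) (k : Fin d) (x : ℝ) : 1 / 2 ≤ nuS d R0 k x ∧ nuS d R0 k x ≤ 12 / 10 * 10 ^ 7 := by
  obtain ⟨h1, h2⟩ := awk_inv k
  obtain ⟨h3, h4⟩ := rhoS_mem R0 x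
  unfold nuS
  constructor <;> nlinarith

theorem dm_Sy (d : ℕ) (R0 C : ℝ) : ∃ S Si : En d → En d, IsCD S Si ∧
    ∀ z : En d, ‖z‖ ≤ C → S z = ((z.1.1, (1 - rhoS R0 z.1.1 / 2) * z.1.2), z.2) := by
  obtain ⟨X, hX, hX01, hX1, hXr, -, hXy, -⟩ := cutX d C (η := 1 / 4) (by positivity)
  have hg : ContDiff ℝ ∞ (fun z : En d => z.1.2 * (-(rhoS R0 z.1.1 / 2))) :=
    (contDiff_snd.comp contDiff_fst).mul
      (((rhoS_smooth R0).comp (contDiff_fst.comp contDiff_fst)).div_const 2).neg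
  obtain ⟨Φi, hΦ⟩ := shear_cut (X := X) (g := fun z : En d => z.1.2 * (-(rhoS R0 z.1.1 / 2)))
    (c := fun z => z.1.2) (u := eY d) (K := 1) hX hX01 hXr hXy hg
    (fun z => by
      have h1 := dm02_dir (χ := fun t => t) contDiff_id hg (z := z) (u := eY d) (c := z.1.2)
        (q := -(rhoS R0 z.1.1 / 2)) (fun t => by simp [eY])
      rw [h1]
      have h2 : deriv (fun t : ℝ => t) z.1.2 = 1 := (hasDerivAt_id _).deriv
      rw [h2]
      have := (rhoS_mem R0 z.1.1).2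
      linarith)
    (fun z => by
      obtain ⟨h3, h4⟩ := rhoS_mem R0 z.1.1
      rw [abs_mul, abs_neg, abs_of_nonneg (by linarith : 0 ≤ rhoS R0 z.1.1 / 2)]
      have := abs_nonneg z.1.2
      nlinarith)
    zero_le_one (by norm_num)
  refine ⟨_, Φi, hΦ, fun z hz => ?_⟩
  show z + (X z * (z.1.2 * (-(rhoS R0 z.1.1 / 2)))) • eY d = _
  rw [hX1 z hz, one_mul]
  ext
  · simp [eY]
  · simp [eY]
    ring
  · simp [eY]

theorem dm_Swk (d : ℕ) (R0 C : ℝ) (k : Fin d) : ∃ S Si : En d → En d, IsCD S Si ∧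
    ∀ z : En d, ‖z‖ ≤ C → S z = (z.1, Function.update z.2 k (nuS d R0 k z.1.1 * z.2 k)) := by
  obtain ⟨X, hX, hX01, hX1, hXr, -, -, hXw⟩ := cutX d C (η := 1 / (4 * (12 / 10 * 10 ^ 7)))
    (by positivity)
  have hnu : ContDiff ℝ ∞ (nuS d R0 k) :=
    ((contDiff_const.sub (rhoS_smooth R0)).mul contDiff_const).add
      ((rhoS_smooth R0).mul contDiff_const)
  have hg : ContDiff ℝ ∞ (fun z : En d => z.2 k * (nuS d R0 k z.1.1 - 1)) :=
    ((contDiff_apply ℝ ℝ k).comp contDiff_snd).mul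
      ((hnu.comp (contDiff_fst.comp contDiff_fst)).sub contDiff_const)
  obtain ⟨Φi, hΦ⟩ := shear_cut (X := X) (g := fun z : En d => z.2 k * (nuS d R0 k z.1.1 - 1))
    (c := fun z => z.2 k) (u := eW d k) (K := 12 / 10 * 10 ^ 7) hX hX01 hXr (hXw k) hg
    (fun z => by
      have h1 := dm02_dir (χ := fun t => t) contDiff_id hg (z := z) (u := eW d k) (c := z.2 k)
        (q := nuS d R0 k z.1.1 - 1) (fun t => by simp [eW])
      rw [h1]
      have h2 : deriv (fun t : ℝ => t) (z.2 k) = 1 := (hasDerivAt_id _).deriv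
      rw [h2]
      have := (nuS_mem R0 k z.1.1).1
      linarith)
    (fun z => by
      obtain ⟨h3, h4⟩ := nuS_mem R0 k z.1.1
      have h5 : |nuS d R0 k z.1.1 - 1| ≤ 12 / 10 * 10 ^ 7 := by
        rw [abs_le]
        constructor <;> linarith
      rw [abs_mul]
      have h6 := abs_nonneg (z.2 k)
      nlinarith)
    (by norm_num) (by norm_num)
  refine ⟨_, Φi, hΦ, fun z hz => ?_⟩
  show z + (X z * (z.2 k * (nuS d R0 k z.1.1 - 1))) • eW d k = _
  rw [hX1 z hz, one_mul]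
  refine Prod.ext ?_ (funext fun j => ?_)
  · simp [eW]
  · by_cases hj : j = k
    · subst hj
      simp [eW]
      ring
    · simp [eW, hj]

theorem dm_Sw (d : ℕ) (R0 C : ℝ) (hC : 0 ≤ C) : ∃ S Si : En d → En d, IsCD S Si ∧
    ∀ z : En d, ‖z‖ ≤ C → S z = (z.1, fun k => nuS d R0 k z.1.1 * z.2 k) := by
  have key : ∀ n : ℕ, ∃ S Si : En d → En d, IsCD S Si ∧ ∀ z : En d, ‖z‖ ≤ C →
      S z = (z.1, fun k : Fin d => if (k : ℕ) < n then nuS d R0 k z.1.1 * z.2 k else z.2 k) := by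
    intro n
    induction n with
    | zero => exact ⟨_, _, IsCD.id, fun z _ => by simp⟩
    | succ n ih =>
      obtain ⟨S, Si, hS, hSz⟩ := ih
      by_cases hn : n < d
      · obtain ⟨S', Si', hS', hSz'⟩ := dm_Swk d R0 (12 / 10 * 10 ^ 7 * C) ⟨n, hn⟩
        refine ⟨_, _, hS'.comp hS, fun z hz => ?_⟩
        show S' (S z) = _
        rw [hSz z hz, hSz']
        · refine Prod.ext rfl (funext fun j => ?_)
          by_cases hj : j = ⟨n, hn⟩
          · subst hj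
            simp
          · have hj' : (j : ℕ) ≠ n := fun h => hj (Fin.ext h)
            have h1 : ((j : ℕ) < n + 1) ↔ ((j : ℕ) < n) := by omega
            simp [hj, h1]
        · rw [Prod.norm_def]
          have hz1 : ‖z.1‖ ≤ C := (norm_fst_le z).trans hz
          have hz2 : ‖z.2‖ ≤ C := (norm_snd_le z).trans hz
          refine max_le (hz1.trans (by nlinarith)) ?_
          rw [pi_norm_le_iff_of_nonneg (by positivity)]
          intro j
          have h1 : ‖z.2 j‖ ≤ C := (norm_le_pi_norm z.2 j).trans hz2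
          show ‖if (j : ℕ) < n then nuS d R0 j z.1.1 * z.2 j else z.2 j‖ ≤ _
          split_ifs
          · obtain ⟨h3, h4⟩ := nuS_mem R0 j z.1.1
            rw [norm_mul, Real.norm_eq_abs, abs_of_nonneg (by linarith)]
            exact mul_le_mul h4 h1 (norm_nonneg _) (by norm_num)
          · refine h1.trans ?_
            nlinarith
      · refine ⟨S, Si, hS, fun z hz => ?_⟩
        rw [hSz z hz]
        refine Prod.ext rfl (funext fun j => ?_)
        have h1 : (j : ℕ) < n := lt_of_lt_of_le j.2 (not_lt.1 hn)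
        have h2 : (j : ℕ) < n + 1 := by omega
        simp [h1, h2]
  obtain ⟨S, Si, hS, hSz⟩ := key d
  refine ⟨S, Si, hS, fun z hz => ?_⟩
  rw [hSz z hz]
  refine Prod.ext rfl (funext fun j => ?_)
  simp [j.2]

end Pool.Agent.Lib.H37D
end
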