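import Pool.Agent.Lib.H1M.FF.M003
import Pool.Agent.Lib.H1M.FF.M006
import Pool.Agent.Lib.H1M.FF.M018
import Pool.Agent.Lib.H1M.FF.M024
import Pool.Agent.Lib.H1M.FF.M026
import Pool.Agent.Lib.H1M.FF.M028
import Pool.Agent.Lib.H1M.FF.M029
import Pool.Agent.Lib.H1M.FF.M034
import Pool.Agent.Lib.H1M.FF.M035
import Pool.Agent.Lib.H1M.FF.M036

/-! Merged copies (to shorten the build) of Lib.H37D.DB09, Lib.H37D.DB11, Lib.H37D.DB14, Lib.H37D.DB18a, Lib.H37D.DB17, Lib.H37D.DB18b, Lib.H37D.DB18c, Lib.H37D.DB19. -/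

-- from Lib.H37D.DB09
section

/-! # H37D, chunk DB09 (M): a chart at one of the fixed points (port of H37N/B09.lean) -/

open Set Filter Topology
open scoped ContDiff

namespace Pool.Agent.Lib.H37D

open Pool.Agent.Lib.H37N

variable {d : ℕ}

theorem db09_pos {lam mu : ℝ} {al : Wd d} (h1 : 0 < lam) (h2 : 0 < mu) (h3 : ∀ k, 0 < al k)
    (j : Fin 2 ⊕ Fin d) : 0 < LamD lam mu al j := by
  rcases j with j | k
  · fin_cases j
    · exact h1
    · exact h2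
  · exact h3 k

theorem db09_ev {ι : Type} [Finite ι] (j : ι) {a : ℝ} {O : Set ℝ} (hO : IsOpen O) (ha : a ∈ O) :
    ∀ᶠ t in 𝓝 (0 : ι → ℝ), (1 + t j) * a ∈ O := by
  have hc : Continuous fun t : ι → ℝ => (1 + t j) * a := by fun_prop
  have ht : Tendsto (fun t : ι → ℝ => (1 + t j) * a) (𝓝 0) (𝓝 a) := by
    have := hc.tendsto 0
    simpa using this
  exact ht.eventually (hO.mem_nhds ha)

/-- PROOF. z₀, C, lam, mu, al from `exists_fixD`, `exists_eigD`; A from `exists_pertA`; ε₁ from hU for g.  `lin_pertD` with A and B = VVd d i (a neighbourhood of z₀, z₀ ∈ interior (K0D d) by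
`VVd_sub_interior_K0D`), and `gen_logs` with L = LamD lam mu al, p t := (the conclusion of `lin_pertD` at t) ∧ (1 + t (inl 0)) lam ∈ Ioo (49/100) (51/100) ∧ (1 + t (inl 1)) mu ∈ muR i ∧
∀ k, (1 + t (inr k)) al k ∈ Ioo (89/10^9) (101/10^9) (eventually true, open conditions): ψ₁ and the new lam₁, mu₁, al₁ with LamD lam₁ mu₁ al₁ j = (1 + t j) LamD lam mu al j (cases j).
g₁ = ψ₁ ∘ g ∈ U is NearS, g₁ z₀ = z₀, the derivative is given by `db09_deriv`.  ε₂ from hU for g₁; `flat_germM` for g₁ with b = basD d, L = dgD lam₁ mu₁ al₁, Λ = LamD lam₁ mu₁ al₁ (`dgD_basD`; Λ ≠ 0: positive;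
nonresonance from `nonresM`): G, κ₀; `flat_corrD` with B = VVd d i: ψ₂ = G near z₀, so ψ₂ (g₁ (κ₀ v)) = κ₀ (L v) for v near 0 (g₁ (κ₀ v) → z₀).  ψ = ψ₂ ∘ ψ₁.  `chart_of_germD` for ψ₂ ∘ g₁ (κ₀ 0 = z₀ in
the interior: `mem_interior_VVd`).  Irrationality: `irr_of_indep` with a = inl 0, b = inl 1. -/
theorem lin_atD {R : ℕ} {U : Set (En d → En d)} (hU : PertOpenD R U) (hN : ∀ g ∈ U, NearS g) {g : En d → En d}
    (hg : g ∈ U) (i : Sy) {A : ℝ} (hA : A ≠ 0) :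
    ∃ ψ : En d → En d, ψ ∘ g ∈ U ∧ (∀ z, z ∉ VVd d i → ψ z = z) ∧ ∃ (κ c : En d → En d) (lam mu : ℝ) (al : Wd d),
      LinChartD (ψ ∘ g) i κ c lam mu al ∧ Irrational (A / Real.log (lam * mu)) := by
  obtain ⟨z₀, hz0, hfix, -, -, -⟩ := exists_fixD (hN g hg).toNearD i
  have hzV : z₀ ∈ VVd d i := interior_subset hz0
  have hnb : VVd d i ∈ 𝓝 z₀ := mem_interior_iff_mem_nhds.1 hz0
  have hK : z₀ ∈ interior (K0D d) := VVd_sub_interior_K0D i hzV
  obtain ⟨C, lam, mu, al, hlam, hmu, hal, hC, hs1, hs2⟩ := exists_eigD (hN g hg) hzV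
  have hmu1 : 1 < mu := one_lt_of_muR hmu
  have hL : ∀ j, 0 < LamD lam mu al j := db09_pos (by linarith [hlam.1]) (by linarith)
    fun k => lt_trans (by norm_num) (hal k).1
  obtain ⟨A', hA'⟩ := exists_pertA C
  obtain ⟨ε₁, hε₁, hU₁⟩ := hU g hg
  have h1 := lin_pertD R hε₁ hK A' hnb
  have h2 : ∀ᶠ t in 𝓝 (0 : Fin 2 ⊕ Fin d → ℝ),
      (1 + t (Sum.inl 0)) * lam ∈ Ioo (49 / 100 : ℝ) (51 / 100) :=
    db09_ev (Sum.inl 0) isOpen_Ioo hlam
  have h3 : ∀ᶠ t in 𝓝 (0 : Fin 2 ⊕ Fin d → ℝ), (1 + t (Sum.inl 1)) * mu ∈ muR i :=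
    db09_ev (Sum.inl 1) (by cases i <;> exact isOpen_Ioo) hmu
  have h4 : ∀ᶠ t in 𝓝 (0 : Fin 2 ⊕ Fin d → ℝ), ∀ k,
      (1 + t (Sum.inr k)) * al k ∈ Ioo (89 / 10 ^ 9 : ℝ) (101 / 10 ^ 9) :=
    eventually_all.2 fun k => db09_ev (Sum.inr k) isOpen_Ioo (hal k)
  obtain ⟨t, ⟨⟨ψ₁, hs1', hout1, hloc1⟩, hlam1, hmu1', hal1⟩, -, hind⟩ :=
    gen_logs hA hL (h1.and (h2.and (h3.and h4)))
  have hmu1'' : 1 < (1 + t (Sum.inl 1)) * mu := one_lt_of_muR hmu1'
  have hpos : ∀ j, 0 < LamD ((1 + t (Sum.inl 0)) * lam) ((1 + t (Sum.inl 1)) * mu)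
      (fun k => (1 + t (Sum.inr k)) * al k) j :=
    db09_pos (by linarith [hlam1.1]) (by linarith) fun k => lt_trans (by norm_num) (hal1 k).1
  have hLam : ∀ j, (1 + t j) * LamD lam mu al j = LamD ((1 + t (Sum.inl 0)) * lam)
      ((1 + t (Sum.inl 1)) * mu) (fun k => (1 + t (Sum.inr k)) * al k) j := by
    intro j
    rcases j with j | k
    · fin_cases j
      · rfl
      · rfl
    · rfl
  simp only [hLam] at hind
  have hg1 : ψ₁ ∘ g ∈ U := hU₁ ψ₁ hs1'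
  have hψz : ψ₁ z₀ = z₀ := by
    have h9 := hloc1.eq_of_nhds
    simp only [sub_self, map_zero, add_zero] at h9
    exact h9
  have hfix1 : (ψ₁ ∘ g) z₀ = z₀ := by
    rw [Function.comp_apply, hfix, hψz]
  have hdiff : DifferentiableAt ℝ g z₀ :=
    ((hN g hg).toNearD.contDiffAt (VVd_sub_Dd i hzV)).self_of_nhds.differentiableAt (by simp)
  have hC1 := db09_deriv hdiff hfix C hC hA' t hloc1
  obtain ⟨ε₂, hε₂, hU₂⟩ := hU _ hg1
  have hsm1 := (hN _ hg1).toNearD.contDiffAt (VVd_sub_Dd i hzV)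
  obtain ⟨G, κ₀, hG, hGO, hκs, hκ0, hdκ, hconj⟩ := flat_germM (basD d) hsm1 hfix1 C hC1
    (fun a => dgD_basD _ _ _ a) (fun a => (hpos a).ne')
    (fun n hn t a => nonresM hpos hind hn t a) R
  obtain ⟨ψ₂, hs2', hout2, hloc2⟩ := flat_corrD R hε₂ hK
    (Eventually.of_forall fun z => hG.contDiffAt) hGO hnb
  have ht : Tendsto (fun v => (ψ₁ ∘ g) (κ₀ v)) (𝓝 0) (𝓝 z₀) := by
    have h5 : ContinuousAt (fun v => (ψ₁ ∘ g) (κ₀ v)) 0 := by
      refine ContinuousAt.comp (g := ψ₁ ∘ g) ?_ hκs.continuous.continuousAt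
      rw [hκ0]
      exact hsm1.self_of_nhds.continuousAt
    have h6 := h5.tendsto
    rw [hκ0, hfix1] at h6
    exact h6
  have hconj2 : ∀ᶠ v in 𝓝 (0 : En d), (ψ₂ ∘ (ψ₁ ∘ g)) (κ₀ v) =
      κ₀ (dgD ((1 + t (Sum.inl 0)) * lam) ((1 + t (Sum.inl 1)) * mu)
        (fun k => (1 + t (Sum.inr k)) * al k) v) := by
    filter_upwards [hconj, ht.eventually hloc2] with v hv1 hv2
    rw [Function.comp_apply, hv2, hv1]
  have h0 : κ₀ 0 ∈ interior (VV i) ×ˢ Metric.ball (0 : Wd d) 1 := by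
    rw [hκ0]
    have h7 := mem_interior_VVd.1 hz0
    exact ⟨h7.1, mem_ball_zero_iff.2 h7.2⟩
  obtain ⟨κ, c, hchart⟩ := chart_of_germD (g := ψ₂ ∘ (ψ₁ ∘ g)) (i := i) hκs h0 C hdκ hs1 hs2
    hlam1 hmu1' hal1 hconj2
  refine ⟨ψ₂ ∘ ψ₁, hU₂ ψ₂ hs2', ?_, κ, c, _, _, _, hchart, ?_⟩
  · intro z hz
    rw [Function.comp_apply, hout1 z hz, hout2 z hz]
  · exact irr_of_indep hpos hind (a := Sum.inl 0) (b := Sum.inl 1) (by simp)

end Pool.Agent.Lib.H37D
end

-- from Lib.H37D.DB11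
section

/-! # H37D, chunk DB11 (S): B.2 theorem LIN (port of H37N/B11.lean) -/

open Set Filter Topology
open scoped ContDiff

namespace Pool.Agent.Lib.H37D

open Pool.Agent.Lib.H37N

variable {d : ℕ}

/-- PROOF. `lin_atD` at P with A = 1: a chart at P.  0 < lamP muP < 51/100 * 126/100 < 1, so A = log (lamP muP) ≠ 0.  `lin_atD` at Q for the new map with this A.  The chart at P is kept by
`LinChartD.of_comp` (z ∈ VVd P is not in VVd Q: `not_mem_VVd_of_ne`). -/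
theorem LIND {R : ℕ} {U : Set (En d → En d)} (hU : PertOpenD R U) (hN : ∀ g ∈ U, NearS g) {g : En d → En d} (hg : g ∈ U) :
    ∃ g' ∈ U, ∃ (κ c : Sy → En d → En d) (lam mu : Sy → ℝ) (al : Sy → Wd d),
      (∀ i, LinChartD g' i (κ i) (c i) (lam i) (mu i) (al i)) ∧
      Irrational (Real.log (lam Sy.P * mu Sy.P) / Real.log (lam Sy.Q * mu Sy.Q)) := by
  obtain ⟨ψ₁, h1U, -, κP, cP, lamP, muP, alP, hP, -⟩ :=
    lin_atD hU hN hg Sy.P one_ne_zero
  have hlamP := hP.lam_mem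
  have hmuP : muP ∈ Ioo (124 / 100 : ℝ) (126 / 100) := hP.mu_mem
  have hlamP0 : 0 < lamP := by linarith [hlamP.1]
  have hmuP0 : 0 < muP := by linarith [hmuP.1]
  have hlog : Real.log (lamP * muP) ≠ 0 := by
    have h0 : 0 < lamP * muP := mul_pos hlamP0 hmuP0
    have h1 : lamP * muP < 1 := by nlinarith [hlamP.2, hmuP.2]
    exact (Real.log_neg h0 h1).ne
  obtain ⟨ψ₂, h2U, h2out, κQ, cQ, lamQ, muQ, alQ, hQ, hirr⟩ :=
    lin_atD hU hN h1U Sy.Q hlog
  have hP2 : LinChartD (ψ₂ ∘ (ψ₁ ∘ g)) Sy.P κP cP lamP muP alP :=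
    hP.of_comp fun z hz => h2out z (not_mem_VVd_of_ne (by decide) hz)
  refine ⟨ψ₂ ∘ (ψ₁ ∘ g), h2U, fun i => match i with | Sy.P => κP | Sy.Q => κQ,
    fun i => match i with | Sy.P => cP | Sy.Q => cQ,
    fun i => match i with | Sy.P => lamP | Sy.Q => lamQ,
    fun i => match i with | Sy.P => muP | Sy.Q => muQ,
    fun i => match i with | Sy.P => alP | Sy.Q => alQ, ?_, hirr⟩
  intro i
  cases i with
  | P => exact hP2
  | Q => exact hQ

end Pool.Agent.Lib.H37D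
end

-- from Lib.H37D.DB14
section

/-! # H37D, chunk DB14 (M): decay of orbits with the same itinerary, the connecting orbit (port of H37N/B14.lean) -/

open Set Filter Topology
open scoped ContDiff

namespace Pool.Agent.Lib.H37D

open Pool.Agent.Lib.H37N

variable {d : ℕ}


/-- one step: the three estimates -/
theorem db14_step {g : En d → En d} (hg : NearD g) {i : Sy} {z z' : En d} (hz : z ∈ VVd d i)
    (hz' : z' ∈ VVd d i) :
    |z.1.1 - z'.1.1| ≤ 81 / 100 * |(g z).1.1 - (g z').1.1| +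
      1 / 10 ^ 11 * (|z.1.1 - z'.1.1| + max |z.1.2 - z'.1.2| ‖z.2 - z'.2‖) ∧
    max |(g z).1.2 - (g z').1.2| ‖(g z).2 - (g z').2‖ ≤
      81 / 100 * max |z.1.2 - z'.1.2| ‖z.2 - z'.2‖ +
      1 / 10 ^ 11 * (|z.1.1 - z'.1.1| + max |z.1.2 - z'.1.2| ‖z.2 - z'.2‖) := by
  obtain ⟨h1, h2, h2w⟩ := hg.diff hz hz'
  have h3 : ‖z - z'‖ ≤ |z.1.1 - z'.1.1| + max |z.1.2 - z'.1.2| ‖z.2 - z'.2‖ := by
    rw [Prod.norm_def, Prod.norm_def]
    simp only [Prod.fst_sub, Prod.snd_sub, Real.norm_eq_abs]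
    have a1 := abs_nonneg (z.1.1 - z'.1.1)
    have a2 := le_max_left |z.1.2 - z'.1.2| ‖z.2 - z'.2‖
    have a3 := le_max_right |z.1.2 - z'.1.2| ‖z.2 - z'.2‖
    have a4 := norm_nonneg (z.2 - z'.2)
    refine max_le (max_le ?_ ?_) ?_ <;> linarith
  obtain ⟨hp0, hp1⟩ := b14_pw i
  obtain ⟨hq0, hq1⟩ := b14_qw i
  set m := max |z.1.2 - z'.1.2| ‖z.2 - z'.2‖ with hm
  have hmy : |z.1.2 - z'.1.2| ≤ m := le_max_left _ _
  have hmw : ‖z.2 - z'.2‖ ≤ m := le_max_right _ _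
  have hm0 : 0 ≤ m := le_trans (norm_nonneg _) hmw
  set N := |z.1.1 - z'.1.1| + m with hN
  have hN0 : 0 ≤ N := add_nonneg (abs_nonneg _) hm0
  have he : 3 * e0 * ‖z - z'‖ ≤ 3 / 10 ^ 12 * N := by
    have : (3 * e0 : ℝ) = 3 / 10 ^ 12 := by norm_num [e0]
    rw [this]
    exact mul_le_mul_of_nonneg_left h3 (by positivity)
  have he2 : 2 * e0 * ‖z - z'‖ ≤ 3 / 10 ^ 12 * N := by
    refine le_trans ?_ he
    have : (0 : ℝ) ≤ e0 := by norm_num [e0]
    nlinarith [norm_nonneg (z - z'), mul_nonneg this (norm_nonneg (z - z'))]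
  have h8 : 3 / 10 ^ 12 * N ≤ 1 / 10 ^ 11 * N :=
    mul_le_mul_of_nonneg_right (by norm_num) hN0
  refine ⟨?_, max_le ?_ ?_⟩
  · have h4 : z.1.1 - z'.1.1 = pw i * ((g z).1.1 - (g z').1.1) -
        pw i * ((g z).1.1 - (g z').1.1 - (z.1.1 - z'.1.1) / pw i) := by
      field_simp
      ring
    have h5 : |z.1.1 - z'.1.1| ≤ pw i * |(g z).1.1 - (g z').1.1| +
        pw i * |(g z).1.1 - (g z').1.1 - (z.1.1 - z'.1.1) / pw i| := by
      calc |z.1.1 - z'.1.1| = |pw i * ((g z).1.1 - (g z').1.1) -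
            pw i * ((g z).1.1 - (g z').1.1 - (z.1.1 - z'.1.1) / pw i)| := by rw [← h4]
        _ ≤ |pw i * ((g z).1.1 - (g z').1.1)| +
            |pw i * ((g z).1.1 - (g z').1.1 - (z.1.1 - z'.1.1) / pw i)| := abs_sub _ _
        _ = _ := by rw [abs_mul, abs_mul, abs_of_pos hp0]
    have h6 : pw i * |(g z).1.1 - (g z').1.1| ≤ 81 / 100 * |(g z).1.1 - (g z').1.1| :=
      mul_le_mul_of_nonneg_right (by linarith) (abs_nonneg _)
    have h7 : pw i * |(g z).1.1 - (g z').1.1 - (z.1.1 - z'.1.1) / pw i| ≤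
        1 * (3 / 10 ^ 12 * N) :=
      mul_le_mul (by linarith) (h1.trans he) (abs_nonneg _) (by norm_num)
    linarith
  · have h5 : |(g z).1.2 - (g z').1.2| ≤ |(g z).1.2 - (g z').1.2 - qw i * (z.1.2 - z'.1.2)| +
        qw i * |z.1.2 - z'.1.2| := by
      have h9 := abs_add_le ((g z).1.2 - (g z').1.2 - qw i * (z.1.2 - z'.1.2))
        (qw i * (z.1.2 - z'.1.2))
      rw [sub_add_cancel, abs_mul (qw i), abs_of_pos hq0] at h9
      exact h9
    have h6 : qw i * |z.1.2 - z'.1.2| ≤ 81 / 100 * m :=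
      mul_le_mul (by linarith) hmy (abs_nonneg _) (by norm_num)
    linarith [h2.trans he]
  · have h6 : aw * ‖z.2 - z'.2‖ ≤ 81 / 100 * m :=
      mul_le_mul (by norm_num [aw]) hmw (norm_nonneg _) (by norm_num)
    linarith

theorem db14_tendsto {s s' : ℕ → En d}
    (h1 : Tendsto (fun n => |(s n).1.1 - (s' n).1.1|) atTop (𝓝 0))
    (h2 : Tendsto (fun n => max |(s n).1.2 - (s' n).1.2| ‖(s n).2 - (s' n).2‖) atTop (𝓝 0)) :
    Tendsto (fun n => s n - s' n) atTop (𝓝 0) := by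
  refine squeeze_zero_norm (a := fun n => |(s n).1.1 - (s' n).1.1| +
    max |(s n).1.2 - (s' n).1.2| ‖(s n).2 - (s' n).2‖) (fun n => ?_) ?_
  · rw [Prod.norm_def, Prod.norm_def]
    simp only [Prod.fst_sub, Prod.snd_sub, Real.norm_eq_abs]
    have a1 := abs_nonneg ((s n).1.1 - (s' n).1.1)
    have a2 := le_max_left |(s n).1.2 - (s' n).1.2| ‖(s n).2 - (s' n).2‖
    have a3 := le_max_right |(s n).1.2 - (s' n).1.2| ‖(s n).2 - (s' n).2‖
    have a4 := norm_nonneg ((s n).2 - (s' n).2)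
    refine max_le (max_le ?_ ?_) ?_ <;> linarith
  · simpa using h1.add h2

theorem db14_two {w w' : Wd d} (h : ‖w‖ ≤ 1) (h' : ‖w'‖ ≤ 1) : ‖w - w'‖ ≤ 2 := by
  refine le_trans (norm_sub_le _ _) ?_
  linarith

/-- PROOF. `mem_interior_VVd`, planar part as `mem_interior_of` in H37N/B14.lean; ‖z.2‖ = ‖(g w).2‖ ≤ aw + e0 < 1 (`hg.wval`). -/
theorem mem_interior_ofD {g : En d → En d} (hg : NearD g) {i j k : Sy} {z w : En d} (hz : z ∈ VVd d i)
    (hz' : g z ∈ VVd d j) (hw : w ∈ VVd d k) (hw' : g w = z) : z ∈ interior (VVd d i) := by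
  rw [mem_interior_VVd, mem_interior_VV]
  have h1 := (abs_le.1 (hg.close0 i z hz).1)
  have h2 := (abs_le.1 (hg.close0 k w hw).2)
  obtain ⟨h3, h4⟩ := b14_x (mem_VVd.1 hz').1
  obtain ⟨h5, h6⟩ := b14_y (mem_VVd.1 hw).1
  obtain ⟨hp0, hp1⟩ := b14_pw i
  obtain ⟨hq0, hq1⟩ := b14_qw k
  have hd : del = 1 / 100000 := rfl
  have he : e0 = 1 / 10 ^ 12 := rfl
  have hww : ‖z.2‖ < 1 := by
    have h5 := hg.wval w (VVd_sub_Dd _ hw)
    rw [hw'] at h5
    have h6 : aw * ‖w.2‖ ≤ aw * 1 :=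
      mul_le_mul_of_nonneg_left (mem_VVd.1 hw).2 (by norm_num [aw])
    have h7 : (aw : ℝ) = 1 / 10 ^ 7 := rfl
    have h8 : aw * 1 + e0 < 1 := by rw [h7, he]; norm_num
    linarith
  simp only [Aff] at h1 h2
  rw [hw'] at h2
  have ha : z.1.1 = al i + pw i * ((z.1.1 - al i) / pw i) := by
    field_simp
    ring
  set t := (z.1.1 - al i) / pw i with ht
  have ht1 : -del - e0 ≤ t := by linarith [h1.2]
  have ht2 : t ≤ 1 + del + e0 := by linarith [h1.1]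
  have h7 : pw i * (-del - e0) ≤ pw i * t := mul_le_mul_of_nonneg_left ht1 hp0.le
  have h8 : pw i * t ≤ pw i * (1 + del + e0) := mul_le_mul_of_nonneg_left ht2 hp0.le
  have h9 : pw i * (del + e0) ≤ 4 / 5 * (del + e0) :=
    mul_le_mul_of_nonneg_right hp1 (by rw [hd, he]; norm_num)
  have h10 : 4 / 5 * (del + e0) < del := by rw [hd, he]; norm_num
  have h11 : qw k * (-del) ≤ qw k * w.1.2 := mul_le_mul_of_nonneg_left h5 hq0.le
  have h12 : qw k * w.1.2 ≤ qw k * (1 + del) := mul_le_mul_of_nonneg_left h6 hq0.le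
  have h13 : qw k * del ≤ 1 / 2 * del := mul_le_mul_of_nonneg_right hq1 (by rw [hd]; norm_num)
  have h14 : 1 / 2 * del + e0 < del := by rw [hd, he]; norm_num
  have h15 : 0 ≤ be k ∧ be k + qw k ≤ 1 := by
    cases k <;> norm_num [be, qw]
  refine ⟨⟨⟨by linarith, by linarith⟩, by linarith, by linarith⟩, hww⟩

/-- Forward orbits with the same itinerary.

PROOF. `seq_decay_tendsto` (H37N/B12.lean) with u k = max |(s k).1.2 - (s' k).1.2| ‖(s k).2 - (s' k).2‖ and v k = |(s k).1.1 - (s' k).1.1| ≤ 2.  `NearD.diff`: with δ = ‖s k - s' k‖ ≤ u k + v k: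
|(s (k+1)).1.2 - ..| ≤ qw |..| + 3 e0 δ, ‖(s (k+1)).2 - ..‖ ≤ aw ‖..‖ + 2 e0 δ, so u (k+1) ≤ 81/100 u k + 1/10^11 (..); |(s k).1.1 - ..| ≤ pw (v (k+1) + 3 e0 δ). -/
theorem fwd_decayD {g : En d → En d} (hg : NearD g) {i : ℕ → Sy} {s s' : ℕ → En d} (hs : ∀ n, s n ∈ VVd d (i n))
    (hs' : ∀ n, s' n ∈ VVd d (i n)) (h : ∀ n, g (s n) = s (n + 1)) (h' : ∀ n, g (s' n) = s' (n + 1)) :
    Tendsto (fun n => s n - s' n) atTop (𝓝 0) := by
  have h1 := seq_decay_tendsto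
    (u := fun k => max |(s k).1.2 - (s' k).1.2| ‖(s k).2 - (s' k).2‖)
    (v := fun k => |(s k).1.1 - (s' k).1.1|) (M := 2)
    (fun k => le_trans (norm_nonneg _) (le_max_right _ _)) (fun k => abs_nonneg _)
    (fun k => b14_two (b14_x (mem_VVd.1 (hs k)).1) (b14_x (mem_VVd.1 (hs' k)).1))
    (fun k => ?_) (fun k => ?_)
  · exact db14_tendsto h1.2 h1.1
  · have h2 := (db14_step hg (hs k) (hs' k)).2
    rw [h k, h' k] at h2
    have h3 : 0 ≤ max |(s (k + 1)).1.2 - (s' (k + 1)).1.2| ‖(s (k + 1)).2 - (s' (k + 1)).2‖ :=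
      le_trans (norm_nonneg _) (le_max_right _ _)
    have h4 := abs_nonneg ((s (k + 1)).1.1 - (s' (k + 1)).1.1)
    linarith
  · have h2 := (db14_step hg (hs k) (hs' k)).1
    rw [h k, h' k] at h2
    have h3 : 0 ≤ max |(s (k + 1)).1.2 - (s' (k + 1)).1.2| ‖(s (k + 1)).2 - (s' (k + 1)).2‖ :=
      le_trans (norm_nonneg _) (le_max_right _ _)
    have h4 := abs_nonneg ((s (k + 1)).1.1 - (s' (k + 1)).1.1)
    linarith

/-- Backward orbits with the same itinerary.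

PROOF. As `bwd_decay` in H37N/B14.lean: u k = |(s (k+1)).1.1 - (s' (k+1)).1.1| and v k = max |(s (k+1)).1.2 - ..| ‖(s (k+1)).2 - ..‖ ≤ 2. -/
theorem bwd_decayD {g : En d → En d} (hg : NearD g) {i : ℕ → Sy} {s s' : ℕ → En d} (hs : ∀ n, s (n + 1) ∈ VVd d (i n))
    (hs' : ∀ n, s' (n + 1) ∈ VVd d (i n)) (h : ∀ n, g (s (n + 1)) = s n) (h' : ∀ n, g (s' (n + 1)) = s' n) :
    Tendsto (fun n => s n - s' n) atTop (𝓝 0) := by
  have h1 := seq_decay_tendsto (u := fun k => |(s (k + 1)).1.1 - (s' (k + 1)).1.1|)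
    (v := fun k => max |(s (k + 1)).1.2 - (s' (k + 1)).1.2| ‖(s (k + 1)).2 - (s' (k + 1)).2‖)
    (M := 2) (fun k => abs_nonneg _)
    (fun k => le_trans (norm_nonneg _) (le_max_right _ _))
    (fun k => max_le (b14_two (b14_y (mem_VVd.1 (hs k)).1) (b14_y (mem_VVd.1 (hs' k)).1))
      (db14_two (mem_VVd.1 (hs k)).2 (mem_VVd.1 (hs' k)).2)) (fun k => ?_) (fun k => ?_)
  · exact (tendsto_add_atTop_iff_nat 1).1
      (db14_tendsto (s := fun n => s (n + 1)) (s' := fun n => s' (n + 1)) h1.1 h1.2)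
  · have h2 := (db14_step hg (hs (k + 1)) (hs' (k + 1))).1
    rw [h (k + 1), h' (k + 1)] at h2
    have h3 : 0 ≤ max |(s (k + 1)).1.2 - (s' (k + 1)).1.2| ‖(s (k + 1)).2 - (s' (k + 1)).2‖ :=
      le_trans (norm_nonneg _) (le_max_right _ _)
    have h4 := abs_nonneg ((s (k + 1)).1.1 - (s' (k + 1)).1.1)
    linarith
  · have h2 := (db14_step hg (hs (k + 1)) (hs' (k + 1))).2
    rw [h (k + 1), h' (k + 1)] at h2
    have h3 : 0 ≤ max |(s (k + 1)).1.2 - (s' (k + 1)).1.2| ‖(s (k + 1)).2 - (s' (k + 1)).2‖ :=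
      le_trans (norm_nonneg _) (le_max_right _ _)
    have h4 := abs_nonneg ((s (k + 1)).1.1 - (s' (k + 1)).1.1)
    linarith

/-- The connecting orbit.

PROOF. As `exists_conn` in H37N/B14.lean: `exists_orbitD` with i n = if n < 0 then P else Q, `mem_interior_ofD`, `bwd_decayD`, `fwd_decayD`, `not_mem_VVd_of_ne`. -/
theorem exists_connD {g : En d → En d} (hg : NearD g) {p q : En d} (hp : p ∈ VVd d Sy.P) (hp' : g p = p)
    (hq : q ∈ VVd d Sy.Q) (hq' : g q = q) :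
    ∃ a b : ℕ → En d, a 0 = b 0 ∧ (∀ n, g (a (n + 1)) = a n) ∧ (∀ n, g (b n) = b (n + 1)) ∧
      (∀ n, a (n + 1) ∈ interior (VVd d Sy.P)) ∧ (∀ n, b n ∈ interior (VVd d Sy.Q)) ∧
      Tendsto a atTop (𝓝 p) ∧ Tendsto b atTop (𝓝 q) ∧ ∀ n, a n ≠ p := by
  obtain ⟨s, hs⟩ := exists_orbitD hg (fun n => if n < 0 then Sy.P else Sy.Q)
  have hP : ∀ n : ℤ, n < 0 → s n ∈ VVd d Sy.P := by
    intro n hn
    have := (hs n).1
    rwa [if_pos hn] at this
  have hQ : ∀ n : ℤ, 0 ≤ n → s n ∈ VVd d Sy.Q := by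
    intro n hn
    have := (hs n).1
    rwa [if_neg (not_lt.2 hn)] at this
  have hint : ∀ (n : ℤ) (j : Sy), s n ∈ VVd d j → s n ∈ interior (VVd d j) := by
    intro n j hj
    have h1 : g (s n) ∈ VVd d (if n + 1 < 0 then Sy.P else Sy.Q) := by
      rw [(hs n).2]
      exact (hs (n + 1)).1
    have h2 : g (s (n - 1)) = s n := by
      have := (hs (n - 1)).2
      rwa [sub_add_cancel] at this
    exact mem_interior_ofD hg hj h1 (hs (n - 1)).1 h2
  have hstepa : ∀ n : ℕ, g (s (-((n + 1 : ℕ) : ℤ))) = s (-(n : ℤ)) := by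
    intro n
    rw [(hs _).2]
    congr 1
    push_cast
    ring
  have hstepb : ∀ n : ℕ, g (s (n : ℤ)) = s ((n + 1 : ℕ) : ℤ) := by
    intro n
    rw [(hs _).2]
    congr 1
  have haP : ∀ n : ℕ, s (-((n + 1 : ℕ) : ℤ)) ∈ VVd d Sy.P := by
    intro n
    refine hP _ ?_
    push_cast
    omega
  have hbQ : ∀ n : ℕ, s (n : ℤ) ∈ VVd d Sy.Q := fun n => hQ _ (by omega)
  refine ⟨fun n => s (-(n : ℤ)), fun n => s (n : ℤ), ?_, hstepa, hstepb,
    fun n => hint _ _ (haP n), fun n => hint _ _ (hbQ n), ?_, ?_, ?_⟩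
  · simp
  · have h1 := bwd_decayD hg (i := fun _ => Sy.P) (s := fun n => s (-(n : ℤ))) (s' := fun _ => p)
      haP (fun _ => hp) hstepa (fun _ => hp')
    have h2 := h1.add_const p
    simpa using h2
  · have h1 := fwd_decayD hg (i := fun _ => Sy.Q) (s := fun n => s (n : ℤ)) (s' := fun _ => q)
      hbQ (fun _ => hq) hstepb (fun _ => hq')
    have h2 := h1.add_const q
    simpa using h2
  · intro n hn
    have h0 : ∀ m : ℕ, s (-(m : ℤ)) = p → s 0 = p := by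
      intro m
      induction m with
      | zero => intro h; simpa using h
      | succ m ih =>
        intro h
        apply ih
        rw [← hstepa m, h, hp']
    have h1 : s 0 = p := h0 n hn
    have h2 : s 0 ∈ VVd d Sy.Q := hQ 0 le_rfl
    rw [h1] at h2
    exact not_mem_VVd_of_ne (by decide) hp h2

end Pool.Agent.Lib.H37D
end

-- from Lib.H37D.DB18a
section

/-! # H37D, chunk DB18a (S/M): the connecting orbit in the charts (port of H37N/B18a.lean) -/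

open Set Filter Topology
open scoped ContDiff

namespace Pool.Agent.Lib.H37D

open Pool.Agent.Lib.H37N

variable {d : ℕ}

theorem db18a_zero : (0 : En d) ∈ BxD d := by
  have h : (((0 : ℝ), (0 : ℝ)), (0 : Wd d)) ∈ BxD d := by
    rw [mem_BxD]
    simp
  exact h

theorem db18a_sub {i : Sy} {z : En d} (h : z ∈ interior (VV i) ×ˢ Metric.ball (0 : Wd d) 1) :
    z ∈ VVd d i :=
  mem_VVd.2 ⟨interior_subset h.1, (mem_ball_zero_iff.1 h.2).le⟩

theorem db18a_VOD {z : En d} {i : Sy} (h : z ∈ interior (VVd d i)) : z ∈ VOD d := by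
  rw [mem_interior_VVd] at h
  refine ⟨?_, mem_ball_zero_iff.2 h.2⟩
  cases i
  · exact Or.inl h.1
  · exact Or.inr h.1

theorem db18a_back {g : En d → En d} {a : ℕ → En d} (ha : ∀ n, g (a (n + 1)) = a n) :
    ∀ j n, j ≤ n → g^[j] (a n) = a (n - j) := by
  intro j
  induction j with
  | zero => intro n _; rfl
  | succ j ih =>
    intro n hn
    rw [Function.iterate_succ_apply']
    rw [ih n (by omega)]
    have e : n - j = (n - (j + 1)) + 1 := by omega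
    rw [e, ha]

theorem db18a_fwd {g : En d → En d} {b : ℕ → En d} (hb : ∀ n, g (b n) = b (n + 1)) :
    ∀ j, g^[j] (b 0) = b j := by
  intro j
  induction j with
  | zero => rfl
  | succ j ih => rw [Function.iterate_succ_apply', ih, hb]

/-- PROOF. As `sdata_core`: p = κP 0 ∈ VVd P, q = κQ 0 ∈ VVd Q are fixed.  `exists_connD`: a, b.  `LinChartD.bwd` for a: n ≥ 1 with a n = κP ((0,y),0), |y| < 1, y ≠ 0 because a n ≠ p.  `LinChartD.fwd` for
b: m with b m = κQ ((x,0),w).  kS = n + m. -/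
theorem sdata_coreD {g κP cP κQ cQ : En d → En d} {lamP muP lamQ muQ : ℝ} {alP alQ : Wd d} (hg : NearD g)
    (hP : LinChartD g Sy.P κP cP lamP muP alP) (hQ : LinChartD g Sy.Q κQ cQ lamQ muQ alQ) :
    ∃ (kS : ℕ) (uS sS : ℝ) (wS : Wd d), 1 ≤ kS ∧ uS ≠ 0 ∧ |uS| < 1 ∧ |sS| < 1 ∧ ‖wS‖ < 1 ∧
      (∀ j ≤ kS, g^[j] (κP ((0, uS), 0)) ∈ VOD d) ∧ g^[kS] (κP ((0, uS), 0)) = κQ ((sS, 0), wS) := by
  have hp : κP 0 ∈ VVd d Sy.P := db18a_sub (hP.sub ⟨0, db18a_zero, rfl⟩)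
  have hq : κQ 0 ∈ VVd d Sy.Q := db18a_sub (hQ.sub ⟨0, db18a_zero, rfl⟩)
  obtain ⟨a, b, h0, ha, hb, haP, hbQ, hla, hlb, hne⟩ := exists_connD hg hp hP.fix hq hQ.fix
  obtain ⟨N, hN⟩ := eventually_atTop.1 (hP.bwd ha hla)
  obtain ⟨M, hM⟩ := eventually_atTop.1 (hQ.fwd hb hlb)
  obtain ⟨y, hy1, hy⟩ := hN (N + 1) (by omega)
  obtain ⟨x, om, hx1, hom, hx⟩ := hM M le_rfl
  have key : ∀ j, g^[N + 1 + j] (κP ((0, y), 0)) = b j := by
    intro j
    rw [add_comm, Function.iterate_add_apply, ← hy, db18a_back ha (N + 1) (N + 1) le_rfl,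
      Nat.sub_self, h0, db18a_fwd hb]
  refine ⟨N + 1 + M, y, x, om, by omega, ?_, hy1, hx1, hom, ?_, ?_⟩
  · rintro rfl
    exact hne (N + 1) hy
  · intro j hj
    rcases lt_or_ge j (N + 1) with h | h
    · have e : N + 1 - j = (N - j) + 1 := by omega
      rw [← hy, db18a_back ha j (N + 1) h.le, e]
      exact db18a_VOD (haP _)
    · obtain ⟨k, rfl⟩ := Nat.exists_eq_add_of_le h
      rw [key]
      exact db18a_VOD (hbQ _)
  · rw [key, hx]

end Pool.Agent.Lib.H37D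
end

-- from Lib.H37D.DB17
section

/-! # H37D, chunk DB17 (M): the unstable axis and the stable hyperplane of a chart and the horizontal cone (port of H37N/B17.lean) -/

open Set Filter Topology
open scoped ContDiff

namespace Pool.Agent.Lib.H37D

open Pool.Agent.Lib.H37N

variable {d : ℕ} {g : En d → En d} {i : Sy} {κ c : En d → En d} {lam mu : ℝ} {al : Wd d}

theorem db17_kappa (h : LinChartD g i κ c lam mu al) (v : En d) : HasFDerivAt κ (fderiv ℝ κ v) v :=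
  (h.smooth.differentiable (by simp) v).hasFDerivAt

theorem db17_VOD (j : Sy) : interior (VV j) ×ˢ Metric.ball (0 : Wd d) 1 ⊆ VOD d := by
  refine prod_mono ?_ subset_rfl
  cases j
  · exact subset_union_left
  · exact subset_union_right

theorem db17_mulw_zero (a : Wd d) : mulw a 0 = 0 := by
  ext k; simp [mulw]

theorem db17_norm3 (u : En d) (h1 : |u.1.2| < ‖u‖) (h2 : ‖u.2‖ < ‖u‖) : ‖u‖ = |u.1.1| := by
  rcases max_choice ‖u.1‖ ‖u.2‖ with h | h
  · have h3 : ‖u‖ = ‖u.1‖ := by rw [Prod.norm_def, h]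
    rcases max_choice ‖u.1.1‖ ‖u.1.2‖ with h' | h'
    · have h4 : ‖u.1‖ = ‖u.1.1‖ := by rw [Prod.norm_def, h']
      rw [h3, h4, Real.norm_eq_abs]
    · have h4 : ‖u.1‖ = ‖u.1.2‖ := by rw [Prod.norm_def, h']
      rw [h3, h4, Real.norm_eq_abs] at h1
      exact absurd h1 (lt_irrefl _)
  · have h3 : ‖u‖ = ‖u.2‖ := by rw [Prod.norm_def, h]
    rw [h3] at h2
    exact absurd h2 (lt_irrefl _)

/-- The unstable direction at the fixed point.

PROOF. g (κ v) = κ (dgD lam mu al v) near 0; differentiate at 0 in the direction ((0,1),0): fderiv g (κ 0) u = mu • u, u = fderiv κ 0 ((0,1),0).  `NearD.deriv_apply` at κ 0 ∈ VVd d i: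
|mu u.1.2 - qw u.1.2| ≤ 3 e0 ‖u‖ and mu - qw ≥ 7/10, so |u.1.2| ≤ 5 e0 ‖u‖; mu ‖u.2‖ ≤ aw ‖u.2‖ + 2 e0 ‖u‖, so ‖u.2‖ ≤ 2 e0 ‖u‖; u ≠ 0 (`h.inv`), so ‖u‖ = |u.1.1| > 0. -/
theorem db17_zero (hg : NearD g) (h : LinChartD g i κ c lam mu al) :
    |(fderiv ℝ κ 0 ((0, 1), 0)).1.2| < |(fderiv ℝ κ 0 ((0, 1), 0)).1.1| / 2 ∧
      ‖(fderiv ℝ κ 0 ((0, 1), 0)).2‖ < |(fderiv ℝ κ 0 ((0, 1), 0)).1.1| / 2 := by
  have hmu := h.one_lt
  have h0B : (0 : En d) ∈ BxD d := by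
    have h1 : (((0 : ℝ), (0 : ℝ)), (0 : Wd d)) ∈ BxD d := mem_BxD.2 ⟨⟨by simp, by simp⟩, by simp⟩
    exact h1
  have hz0 := h.sub ⟨0, h0B, rfl⟩
  have hz : κ 0 ∈ VVd d i := by
    rw [mem_VVd]
    exact ⟨interior_subset hz0.1, (mem_ball_zero_iff.1 hz0.2).le⟩
  have hgd : DifferentiableAt ℝ g (κ 0) :=
    (hg.contDiffAt (VVd_sub_Dd i hz)).self_of_nhds.differentiableAt (by simp)
  have hc1 : HasDerivAt (fun t : ℝ => ((((0 : ℝ), t), 0) : En d)) (((0 : ℝ), (1 : ℝ)), 0) 0 :=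
    ((hasDerivAt_const (0 : ℝ) (0 : ℝ)).prodMk (hasDerivAt_id (0 : ℝ))).prodMk (hasDerivAt_const (0 : ℝ) (0 : Wd d))
  have hc2 : HasDerivAt (fun t : ℝ => ((((0 : ℝ), mu * t), 0) : En d)) (((0 : ℝ), mu), 0) 0 := by
    have := ((hasDerivAt_const (0 : ℝ) (0 : ℝ)).prodMk ((hasDerivAt_id (0 : ℝ)).const_mul mu)).prodMk
      (hasDerivAt_const (0 : ℝ) (0 : Wd d))
    simpa using this
  have e1 : HasDerivAt (fun t : ℝ => κ (((0 : ℝ), t), 0)) (fderiv ℝ κ 0 ((0, 1), 0)) 0 :=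
    HasFDerivAt.comp_hasDerivAt (0 : ℝ) (f := fun t : ℝ => ((((0 : ℝ), t), 0) : En d)) (db17_kappa h _) hc1
  have e2 : HasDerivAt (fun t : ℝ => κ (((0 : ℝ), mu * t), 0)) (fderiv ℝ κ 0 ((0, mu), 0)) 0 := by
    have hk : HasFDerivAt κ (fderiv ℝ κ 0) ((fun t : ℝ => ((((0 : ℝ), mu * t), 0) : En d)) 0) := by
      have : ((fun t : ℝ => ((((0 : ℝ), mu * t), 0) : En d)) 0) = (0 : En d) := by
        simp only [mul_zero]; rfl
      rw [this]
      exact db17_kappa h 0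
    exact HasFDerivAt.comp_hasDerivAt (0 : ℝ) hk hc2
  have e3 : HasDerivAt (fun t : ℝ => g (κ (((0 : ℝ), t), 0))) (fderiv ℝ g (κ 0) (fderiv ℝ κ 0 ((0, 1), 0))) 0 :=
    HasFDerivAt.comp_hasDerivAt (0 : ℝ) (f := fun t : ℝ => κ (((0 : ℝ), t), 0)) hgd.hasFDerivAt e1
  have hev : (fun t : ℝ => g (κ (((0 : ℝ), t), 0))) =ᶠ[𝓝 0] fun t : ℝ => κ (((0 : ℝ), mu * t), 0) := by
    have h1 : ∀ᶠ t in 𝓝 (0 : ℝ), |mu * t| < 2 := by
      have : ContinuousAt (fun t : ℝ => |mu * t|) 0 := by fun_prop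
      apply this.eventually_lt continuousAt_const
      simp
    filter_upwards [h1] with t ht
    rw [h.lin 0 t 0 (by simp) ht (by simp), mul_zero, db17_mulw_zero]
  have e4 : fderiv ℝ g (κ 0) (fderiv ℝ κ 0 ((0, 1), 0)) = fderiv ℝ κ 0 ((0, mu), 0) :=
    e3.unique (e2.congr_of_eventuallyEq hev)
  set v := fderiv ℝ κ 0 ((0, 1), 0) with hv
  have e5 : fderiv ℝ κ 0 ((0, mu), 0) = mu • v := by
    rw [hv, ← map_smul]
    simp
  rw [e5] at e4
  have hvne : v ≠ 0 := by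
    intro h0
    have h1 := (h.inv 0 h0B).1 (show fderiv ℝ κ 0 ((0, 1), 0) = fderiv ℝ κ 0 0 by rw [← hv, h0, map_zero])
    have h2 := congrArg (fun q : En d => q.1.2) h1
    simp at h2
  obtain ⟨-, hd, hdw⟩ := hg.deriv_apply hz v
  rw [e4] at hd hdw
  have hq : 7 / 10 ≤ mu - qw i := by
    have := h.mu_mem
    cases i
    · simp only [muR, mem_Ioo] at this; simp only [qw]; linarith [this.1]
    · simp only [muR, mem_Ioo] at this; simp only [qw]; linarith [this.1]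
  have hd2 : (mu - qw i) * |v.1.2| ≤ 3 * e0 * ‖v‖ := by
    have : (mu • v).1.2 - qw i * v.1.2 = (mu - qw i) * v.1.2 := by
      simp only [Prod.smul_fst, Prod.smul_snd, smul_eq_mul]; ring
    rw [this, abs_mul, abs_of_pos (by linarith)] at hd
    exact hd
  have he0 : (0 : ℝ) < e0 := by unfold e0; positivity
  have hd3 : |v.1.2| ≤ 5 * e0 * ‖v‖ := by
    nlinarith [abs_nonneg v.1.2, norm_nonneg v, mul_nonneg he0.le (norm_nonneg v)]
  have hd4 : ‖v.2‖ ≤ 5 * e0 * ‖v‖ := by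
    have h1 : ‖(mu • v).2‖ = mu * ‖v.2‖ := by
      rw [Prod.smul_snd, norm_smul, Real.norm_eq_abs, abs_of_pos (by linarith)]
    rw [h1] at hdw
    have h2 : (aw : ℝ) = 1 / 10 ^ 7 := rfl
    rw [h2] at hdw
    have h3 := norm_nonneg v.2
    have h4 := mul_nonneg he0.le (norm_nonneg v)
    have h5 : ‖v.2‖ ≤ mu * ‖v.2‖ := by nlinarith
    norm_num at hdw
    nlinarith
  have hvn : 0 < ‖v‖ := norm_pos_iff.2 hvne
  have he : e0 = 1 / 10 ^ 12 := rfl
  rw [he] at hd3 hd4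
  have hlt : |v.1.2| < ‖v‖ := by nlinarith
  have hlt2 : ‖v.2‖ < ‖v‖ := by nlinarith
  have hn : ‖v‖ = |v.1.1| := db17_norm3 v hlt hlt2
  rw [hn] at hd3 hd4 hvn
  constructor
  · nlinarith
  · nlinarith

/-- The unstable direction is in the horizontal cone.

PROOF. As `LinChart.cone`.  By `db17_zero` and continuity of fderiv κ there is ρ > 0 with the strict inequalities at ((0,y'),0) for |y'| < ρ.  Choose n with |y| / mu^n < ρ.  For t near y:
|mu^n (t/mu^n)| = |t| < 2, so g^[n] (κ ((0, t/mu^n),0)) = κ ((0, t),0) (`LinChartD.iter`, mulw _ 0 = 0); the points g^[j] (κ ((0, y/mu^n),0)), j < n, are in VOD d (`LinChartD.iter_mem`).  Differentiate at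
t = y: fderiv κ ((0,y),0) ((0,1),0) = fderiv (g^[n]) (..) (mu^(-n) • fderiv κ ((0, y/mu^n),0) ((0,1),0)); `cone_iterD`. -/
theorem LinChartD.cone (hg : NearD g) (h : LinChartD g i κ c lam mu al) {y : ℝ} (hy : |y| < 2) :
    HCone (fderiv ℝ κ ((0, y), 0) ((0, 1), 0)) ∧ 0 < |(fderiv ℝ κ ((0, y), 0) ((0, 1), 0)).1.1| := by
  have hmu := h.one_lt
  have hcontκ : Continuous (fun v : En d => fderiv ℝ κ v ((0, 1), 0)) :=
    (h.smooth.continuous_fderiv (by simp)).clm_apply continuous_const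
  have c1 : Continuous (fun t : ℝ => fderiv ℝ κ ((((0 : ℝ), t), 0) : En d) ((0, 1), 0)) :=
    hcontκ.comp (by fun_prop : Continuous fun t : ℝ => ((((0 : ℝ), t), 0) : En d))
  have c3 : ContinuousAt (fun t : ℝ => |(fderiv ℝ κ ((((0 : ℝ), t), 0) : En d) ((0, 1), 0)).1.1| / 2) 0 :=
    ((continuous_abs.comp (continuous_fst.comp (continuous_fst.comp c1))).div_const 2).continuousAt
  have hz0 := db17_zero hg h
  have hopen1 : ∀ᶠ t in 𝓝 (0 : ℝ), |(fderiv ℝ κ ((((0 : ℝ), t), 0) : En d) ((0, 1), 0)).1.2| <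
      |(fderiv ℝ κ ((((0 : ℝ), t), 0) : En d) ((0, 1), 0)).1.1| / 2 := by
    have c2 : ContinuousAt (fun t : ℝ => |(fderiv ℝ κ ((((0 : ℝ), t), 0) : En d) ((0, 1), 0)).1.2|) 0 :=
      (continuous_abs.comp (continuous_snd.comp (continuous_fst.comp c1))).continuousAt
    exact c2.eventually_lt c3 hz0.1
  have hopen2 : ∀ᶠ t in 𝓝 (0 : ℝ), ‖(fderiv ℝ κ ((((0 : ℝ), t), 0) : En d) ((0, 1), 0)).2‖ <
      |(fderiv ℝ κ ((((0 : ℝ), t), 0) : En d) ((0, 1), 0)).1.1| / 2 := by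
    have c2 : ContinuousAt (fun t : ℝ => ‖(fderiv ℝ κ ((((0 : ℝ), t), 0) : En d) ((0, 1), 0)).2‖) 0 :=
      (continuous_norm.comp (continuous_snd.comp c1)).continuousAt
    exact c2.eventually_lt c3 hz0.2
  have hlim : Tendsto (fun n : ℕ => y / mu ^ n) atTop (𝓝 0) := by
    have h1 : Tendsto (fun n : ℕ => mu ^ n) atTop atTop := tendsto_pow_atTop_atTop_of_one_lt hmu
    exact h1.const_div_atTop y
  obtain ⟨n, hn1, hn2⟩ := (hlim.eventually (hopen1.and hopen2)).exists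
  set y' := y / mu ^ n with hy'
  have hpn : (0 : ℝ) < mu ^ n := by positivity
  have hmy : mu ^ n * y' = y := by
    rw [hy']; field_simp
  have hmem : ∀ j < n, g^[j] (κ ((0, y'), 0)) ∈ VOD d := by
    intro j hj
    exact db17_VOD i (h.iter_mem n (x := 0) (y := y') (w := 0) (by simp) (by rw [hmy]; exact hy) (by simp) j hj.le)
  have hgd : DifferentiableAt ℝ (g^[n]) (κ ((0, y'), 0)) :=
    (hg.iter isOpen_VOD (VOD_sub_Omd.trans Omd_sub_Dd) n hmem).self_of_nhds.1.differentiableAt (by simp)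
  have hc1 : HasDerivAt (fun t : ℝ => ((((0 : ℝ), t), 0) : En d)) (((0 : ℝ), (1 : ℝ)), 0) y :=
    ((hasDerivAt_const y (0 : ℝ)).prodMk (hasDerivAt_id y)).prodMk (hasDerivAt_const y (0 : Wd d))
  have hc2 : HasDerivAt (fun t : ℝ => ((((0 : ℝ), t / mu ^ n), 0) : En d)) (((0 : ℝ), 1 / mu ^ n), 0) y :=
    ((hasDerivAt_const y (0 : ℝ)).prodMk ((hasDerivAt_id y).div_const _)).prodMk (hasDerivAt_const y (0 : Wd d))
  have e1 : HasDerivAt (fun t : ℝ => κ (((0 : ℝ), t), 0)) (fderiv ℝ κ ((0, y), 0) ((0, 1), 0)) y :=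
    HasFDerivAt.comp_hasDerivAt y (f := fun t : ℝ => ((((0 : ℝ), t), 0) : En d)) (db17_kappa h _) hc1
  have e2 : HasDerivAt (fun t : ℝ => κ (((0 : ℝ), t / mu ^ n), 0)) (fderiv ℝ κ ((0, y'), 0) ((0, 1 / mu ^ n), 0)) y :=
    HasFDerivAt.comp_hasDerivAt y (f := fun t : ℝ => ((((0 : ℝ), t / mu ^ n), 0) : En d)) (db17_kappa h _) hc2
  have e3 : HasDerivAt (fun t : ℝ => g^[n] (κ (((0 : ℝ), t / mu ^ n), 0)))
      (fderiv ℝ (g^[n]) (κ ((0, y'), 0)) (fderiv ℝ κ ((0, y'), 0) ((0, 1 / mu ^ n), 0))) y :=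
    HasFDerivAt.comp_hasDerivAt y (f := fun t : ℝ => κ (((0 : ℝ), t / mu ^ n), 0)) hgd.hasFDerivAt e2
  have hev : (fun t : ℝ => g^[n] (κ (((0 : ℝ), t / mu ^ n), 0))) =ᶠ[𝓝 y] fun t : ℝ => κ (((0 : ℝ), t), 0) := by
    have h1 : ∀ᶠ t in 𝓝 y, |t| < 2 := by
      have : ContinuousAt (fun t : ℝ => |t|) y := by fun_prop
      exact this.eventually_lt continuousAt_const hy
    filter_upwards [h1] with t ht
    have hmt : mu ^ n * (t / mu ^ n) = t := by field_simp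
    rw [h.iter n (by simp) (by rw [hmt]; exact ht) (by simp), hmt, mul_zero, db17_mulw_zero]
  have e4 : fderiv ℝ (g^[n]) (κ ((0, y'), 0)) (fderiv ℝ κ ((0, y'), 0) ((0, 1 / mu ^ n), 0)) =
      fderiv ℝ κ ((0, y), 0) ((0, 1), 0) :=
    e3.unique (e1.congr_of_eventuallyEq hev)
  have e5 : fderiv ℝ κ ((0, y'), 0) ((0, 1 / mu ^ n), 0) = (1 / mu ^ n) • fderiv ℝ κ ((0, y'), 0) ((0, 1), 0) := by
    rw [← map_smul]
    simp
  have hpos : (0 : ℝ) < 1 / mu ^ n := by positivity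
  have hw : HCone (fderiv ℝ κ ((0, y'), 0) ((0, 1 / mu ^ n), 0)) := by
    rw [e5]
    constructor
    · simp only [Prod.smul_fst, Prod.smul_snd, smul_eq_mul, abs_mul, abs_of_pos hpos]
      nlinarith
    · simp only [Prod.smul_fst, Prod.smul_snd, smul_eq_mul, abs_mul, norm_smul, Real.norm_eq_abs, abs_of_pos hpos]
      nlinarith
  have hci := cone_iterD hg n hmem hw
  rw [e4] at hci
  refine ⟨hci.1, lt_of_lt_of_le ?_ hci.2⟩
  apply mul_pos (by positivity)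
  rw [e5]
  simp only [Prod.smul_fst, smul_eq_mul, abs_mul, abs_of_pos hpos]
  apply mul_pos hpos
  have := abs_nonneg (fderiv ℝ κ ((0, y'), 0) ((0, 1), 0)).1.2
  linarith

/-- A stable direction is not in the horizontal cone.

PROOF. As `LinChart.stable_not_cone`.  u = fderiv κ ((x,0),w) ((a,0),b).  For all n and t near 0: g^[n] (κ ((x + t a, 0), w + t b)) = κ ((lam^n (x + t a), 0), mulw (al^n) (w + t b)), so
fderiv (g^[n]) (κ ((x,0),w)) u = fderiv κ ((lam^n x, 0), mulw (al^n) w) ((lam^n a, 0), mulw (al^n) b), which tends to 0.  By `cone_iterD` |u.1.1| ≤ (6/5)^n |u.1.1| ≤ |(..).1.1| → 0.  So u.1.1 = 0, u = 0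
(cone), and fderiv κ is injective (`h.inv`): a = 0, b = 0. -/
theorem LinChartD.stable_not_cone (hg : NearD g) (h : LinChartD g i κ c lam mu al) {x : ℝ} {w : Wd d} (hx : |x| < 2)
    (hw : ‖w‖ < 2) {a : ℝ} {b : Wd d} (hc : HCone (fderiv ℝ κ ((x, 0), w) ((a, 0), b))) : a = 0 ∧ b = 0 := by
  have hmu := h.one_lt
  have hlam := h.lam_pos
  have hlam1 : lam < 1 := by linarith [h.lam_mem.2]
  set u := fderiv ℝ κ ((x, 0), w) ((a, 0), b) with hu
  have hmem : ∀ n : ℕ, ∀ j < n, g^[j] (κ ((x, 0), w)) ∈ VOD d := by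
    intro n j hj
    exact db17_VOD i (h.iter_mem n (x := x) (y := 0) (w := w) hx (by simp) hw j hj.le)
  have key : ∀ n : ℕ, fderiv ℝ (g^[n]) (κ ((x, 0), w)) u =
      fderiv ℝ κ ((lam ^ n * x, 0), mulw (fun k => al k ^ n) w) ((lam ^ n * a, 0), mulw (fun k => al k ^ n) b) := by
    intro n
    have hgd : DifferentiableAt ℝ (g^[n]) (κ ((x, 0), w)) :=
      (hg.iter isOpen_VOD (VOD_sub_Omd.trans Omd_sub_Dd) n (hmem n)).self_of_nhds.1.differentiableAt (by simp)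
    have hb : HasDerivAt (fun t : ℝ => w + t • b) b 0 := by
      have := ((hasDerivAt_id (0 : ℝ)).smul_const b).const_add w
      simpa using this
    have hc1 : HasDerivAt (fun t : ℝ => (((x + t * a, (0 : ℝ)), w + t • b) : En d)) ((a, (0 : ℝ)), b) 0 := by
      have := ((hasDerivAt_id (0 : ℝ)).mul_const a).const_add x
      have h2 := (this.prodMk (hasDerivAt_const (0 : ℝ) (0 : ℝ))).prodMk hb
      simpa using h2
    have hc2 : HasDerivAt (fun t : ℝ => (((lam ^ n * (x + t * a), (0 : ℝ)), mulw (fun k => al k ^ n) (w + t • b)) : En d))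
        ((lam ^ n * a, (0 : ℝ)), mulw (fun k => al k ^ n) b) 0 := by
      have h1 := (((hasDerivAt_id (0 : ℝ)).mul_const a).const_add x).const_mul (lam ^ n)
      have h3 : HasDerivAt (fun t : ℝ => mulw (fun k => al k ^ n) (w + t • b)) (mulw (fun k => al k ^ n) b) 0 := by
        have h4 := HasFDerivAt.comp_hasDerivAt (0 : ℝ) (f := fun t : ℝ => w + t • b)
          (mulL (fun k => al k ^ n) : Wd d →L[ℝ] Wd d).hasFDerivAt hb
        simpa [Function.comp_def] using h4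
      have h2 := (h1.prodMk (hasDerivAt_const (0 : ℝ) (0 : ℝ))).prodMk h3
      simpa using h2
    have hp1 : (fun t : ℝ => (((x + t * a, (0 : ℝ)), w + t • b) : En d)) 0 = ((x, 0), w) := by simp
    have hp2 : (fun t : ℝ => (((lam ^ n * (x + t * a), (0 : ℝ)), mulw (fun k => al k ^ n) (w + t • b)) : En d)) 0 =
        ((lam ^ n * x, 0), mulw (fun k => al k ^ n) w) := by simp
    have e1 : HasDerivAt (fun t : ℝ => κ ((x + t * a, (0 : ℝ)), w + t • b)) u 0 := by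
      have hk : HasFDerivAt κ (fderiv ℝ κ ((x, 0), w)) ((fun t : ℝ => (((x + t * a, (0 : ℝ)), w + t • b) : En d)) 0) := by
        rw [hp1]; exact db17_kappa h _
      exact HasFDerivAt.comp_hasDerivAt (0 : ℝ) hk hc1
    have e2 : HasDerivAt (fun t : ℝ => κ ((lam ^ n * (x + t * a), (0 : ℝ)), mulw (fun k => al k ^ n) (w + t • b)))
        (fderiv ℝ κ ((lam ^ n * x, 0), mulw (fun k => al k ^ n) w) ((lam ^ n * a, 0), mulw (fun k => al k ^ n) b)) 0 := by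
      have hk : HasFDerivAt κ (fderiv ℝ κ ((lam ^ n * x, 0), mulw (fun k => al k ^ n) w))
          ((fun t : ℝ => (((lam ^ n * (x + t * a), (0 : ℝ)), mulw (fun k => al k ^ n) (w + t • b)) : En d)) 0) := by
        rw [hp2]; exact db17_kappa h _
      exact HasFDerivAt.comp_hasDerivAt (0 : ℝ) hk hc2
    have e3 : HasDerivAt (fun t : ℝ => g^[n] (κ ((x + t * a, (0 : ℝ)), w + t • b)))
        (fderiv ℝ (g^[n]) (κ ((x, 0), w)) u) 0 := by
      have hk : HasFDerivAt (g^[n]) (fderiv ℝ (g^[n]) (κ ((x, 0), w)))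
          ((fun t : ℝ => κ ((x + t * a, (0 : ℝ)), w + t • b)) 0) := by
        simp only [zero_mul, add_zero, zero_smul]
        exact hgd.hasFDerivAt
      exact HasFDerivAt.comp_hasDerivAt (0 : ℝ) hk e1
    have hev : (fun t : ℝ => g^[n] (κ ((x + t * a, (0 : ℝ)), w + t • b))) =ᶠ[𝓝 0]
        fun t : ℝ => κ ((lam ^ n * (x + t * a), (0 : ℝ)), mulw (fun k => al k ^ n) (w + t • b)) := by
      have h1 : ∀ᶠ t in 𝓝 (0 : ℝ), |x + t * a| < 2 := by
        have : ContinuousAt (fun t : ℝ => |x + t * a|) 0 := by fun_prop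
        apply this.eventually_lt continuousAt_const
        simpa using hx
      have h2 : ∀ᶠ t in 𝓝 (0 : ℝ), ‖w + t • b‖ < 2 := by
        have : ContinuousAt (fun t : ℝ => ‖w + t • b‖) 0 := by fun_prop
        apply this.eventually_lt continuousAt_const
        simpa using hw
      filter_upwards [h1, h2] with t ht ht2
      rw [h.iter n ht (by simp) ht2, mul_zero]
    exact e3.unique (e2.congr_of_eventuallyEq hev)
  have hlimx : Tendsto (fun n : ℕ => lam ^ n) atTop (𝓝 0) :=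
    tendsto_pow_atTop_nhds_zero_of_lt_one hlam.le hlam1
  have hlimw : ∀ v : Wd d, Tendsto (fun n : ℕ => mulw (fun k => al k ^ n) v) atTop (𝓝 0) := by
    intro v
    rw [tendsto_pi_nhds]
    intro k
    have h1 : al k ∈ Ioo (89 / 10 ^ 9 : ℝ) (101 / 10 ^ 9) := h.al_mem k
    have h2 : Tendsto (fun n : ℕ => al k ^ n) atTop (𝓝 0) :=
      tendsto_pow_atTop_nhds_zero_of_lt_one (le_trans (by norm_num) h1.1.le) (lt_trans h1.2 (by norm_num))
    have h3 := h2.mul_const (v k)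
    rw [zero_mul] at h3
    exact h3
  have hpt : ∀ (r : ℝ) (v : Wd d), Tendsto (fun n : ℕ => (((lam ^ n * r, (0 : ℝ)), mulw (fun k => al k ^ n) v) : En d))
      atTop (𝓝 0) := by
    intro r v
    have h1 : Tendsto (fun n : ℕ => lam ^ n * r) atTop (𝓝 0) := by
      have := hlimx.mul_const r
      rwa [zero_mul] at this
    exact (h1.prodMk_nhds tendsto_const_nhds).prodMk_nhds (hlimw v)
  have hcontκ : Continuous (fun q : En d × En d => (fderiv ℝ κ q.1) q.2) :=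
    ((h.smooth.continuous_fderiv (by simp)).comp continuous_fst).clm_apply continuous_snd
  have hlim : Tendsto (fun n : ℕ => |(fderiv ℝ κ ((lam ^ n * x, 0), mulw (fun k => al k ^ n) w)
      ((lam ^ n * a, 0), mulw (fun k => al k ^ n) b)).1.1|) atTop (𝓝 0) := by
    have c1 : Continuous (fun q : En d × En d => |((fderiv ℝ κ q.1) q.2).1.1|) :=
      continuous_abs.comp (continuous_fst.comp (continuous_fst.comp hcontκ))
    have h5 := (c1.tendsto ((0 : En d), (0 : En d))).comp ((hpt x w).prodMk_nhds (hpt a b))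
    have h6 : |((fderiv ℝ κ ((0 : En d), (0 : En d)).1) ((0 : En d), (0 : En d)).2).1.1| = 0 := by simp
    rw [h6] at h5
    exact h5
  have hle : ∀ n : ℕ, |u.1.1| ≤ |(fderiv ℝ κ ((lam ^ n * x, 0), mulw (fun k => al k ^ n) w)
      ((lam ^ n * a, 0), mulw (fun k => al k ^ n) b)).1.1| := by
    intro n
    have h1 := (cone_iterD hg n (hmem n) hc).2
    rw [key n] at h1
    have h2 : (1 : ℝ) ≤ (6 / 5) ^ n := one_le_pow₀ (by norm_num)
    have h3 := abs_nonneg u.1.1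
    nlinarith
  have hw1 : |u.1.1| ≤ 0 := ge_of_tendsto' hlim hle
  have hw1' : u.1.1 = 0 := abs_nonpos_iff.1 hw1
  obtain ⟨hc1, hc2⟩ := hc
  rw [hw1'] at hc1 hc2
  simp only [abs_zero, zero_div] at hc1 hc2
  have hw2' : u.1.2 = 0 := abs_nonpos_iff.1 hc1
  have hw3' : u.2 = 0 := norm_le_zero_iff.1 hc2
  have hw0 : u = 0 := Prod.ext (Prod.ext hw1' hw2') hw3'
  have hB : (((x, 0), w) : En d) ∈ BxD d := mem_BxD.2 ⟨⟨hx, by simp⟩, hw⟩
  have h1 := (h.inv _ hB).1 (show fderiv ℝ κ ((x, 0), w) ((a, 0), b) = fderiv ℝ κ ((x, 0), w) 0 by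
    rw [← hu, hw0, map_zero])
  exact ⟨congrArg (fun q : En d => q.1.1) h1, congrArg (fun q : En d => q.2) h1⟩

end Pool.Agent.Lib.H37D
end

-- from Lib.H37D.DB18b
section

/-! # H37D, chunk DB18b (M): the transition map of the connection (port of H37N/B18b.lean) -/

open Set Filter Topology
open scoped ContDiff

namespace Pool.Agent.Lib.H37D

open Pool.Agent.Lib.H37N

variable {d : ℕ} {g κP cP κQ cQ : En d → En d} {lamP muP lamQ muQ : ℝ} {alP alQ : Wd d} {kS : ℕ} {uS sS : ℝ} {wS : Wd d}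

/-- the shift along the unstable axis -/
def db18b_tau (uS : ℝ) (v : En d) : En d := ((v.1.1, uS + v.1.2), v.2)

theorem db18b_tau_eq (uS : ℝ) (v : En d) : db18b_tau uS v = v + ((0, uS), 0) := by
  unfold db18b_tau
  refine Prod.ext (Prod.ext ?_ ?_) ?_
  · simp
  · simp [add_comm]
  · simp

theorem db18b_tau_contDiff (uS : ℝ) : ContDiff ℝ ∞ (db18b_tau (d := d) uS) := by
  have h : (db18b_tau (d := d) uS) = fun v => v + ((0, uS), 0) := funext (db18b_tau_eq uS)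
  rw [h]
  exact contDiff_id.add contDiff_const

theorem db18b_tau_zero (uS : ℝ) : db18b_tau (d := d) uS 0 = ((0, uS), 0) := by
  simp [db18b_tau]

theorem db18b_tau_hasFDerivAt (uS : ℝ) (v : En d) :
    HasFDerivAt (db18b_tau (d := d) uS) (ContinuousLinearMap.id ℝ (En d)) v := by
  have h : (db18b_tau (d := d) uS) = fun v => v + ((0, uS), 0) := funext (db18b_tau_eq uS)
  rw [h]
  exact (hasFDerivAt_id v).add_const _


/-- PROOF. The map v ↦ κP ((v.1.1, uS + v.1.2), v.2) is smooth, at v = 0 it is κP ((0,uS),0).  `NearD.iter` with V = VOD d, n = kS + 1 (pull back the eventual statement). -/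
theorem db18_path (hg : NearD g) (hP : LinChartD g Sy.P κP cP lamP muP alP)
    (hpath : ∀ j ≤ kS, g^[j] (κP ((0, uS), 0)) ∈ VOD d) :
    ∀ᶠ v in 𝓝 (0 : En d), (∀ j ≤ kS, g^[j] (κP ((v.1.1, uS + v.1.2), v.2)) ∈ VOD d) ∧
      ContDiffAt ℝ ∞ (fun v : En d => g^[kS] (κP ((v.1.1, uS + v.1.2), v.2))) v := by
  have hVD : VOD d ⊆ Dd d := VOD_sub_Omd.trans Omd_sub_Dd
  have hsm : ContDiff ℝ ∞ (fun v : En d => κP (db18b_tau uS v)) :=
    hP.smooth.comp (db18b_tau_contDiff uS)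
  have hc : Tendsto (fun v : En d => κP (db18b_tau uS v)) (𝓝 0) (𝓝 (κP ((0, uS), 0))) := by
    have := hsm.continuous.continuousAt (x := (0 : En d))
    have h2 : Tendsto (fun v : En d => κP (db18b_tau uS v)) (𝓝 0) (𝓝 (κP (db18b_tau uS 0))) := this
    rwa [db18b_tau_zero] at h2
  have h1 := NearD.iter hg isOpen_VOD hVD (kS + 1) (z := κP ((0, uS), 0)) (fun j hj => hpath j (Nat.lt_succ_iff.mp hj))
  have h2 := NearD.iter hg isOpen_VOD hVD kS (z := κP ((0, uS), 0)) (fun j hj => hpath j hj.le)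
  filter_upwards [hc.eventually h1, hc.eventually h2] with v hv1 hv2
  refine ⟨fun j hj => hv1.2 j (Nat.lt_succ_iff.mpr hj), ?_⟩
  exact ContDiffAt.comp v (g := g^[kS]) (f := fun v : En d => κP (db18b_tau uS v)) hv2.1 hsm.contDiffAt

/-- PROOF. cQ is smooth. -/
theorem db18_smooth (hg : NearD g) (hP : LinChartD g Sy.P κP cP lamP muP alP) (hQ : LinChartD g Sy.Q κQ cQ lamQ muQ alQ)
    (hpath : ∀ j ≤ kS, g^[j] (κP ((0, uS), 0)) ∈ VOD d) :
    ∀ᶠ v in 𝓝 (0 : En d), ContDiffAt ℝ ∞ (SMD g κP cQ kS uS) v := by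
  filter_upwards [db18_path hg hP hpath] with v hv
  exact ContDiffAt.comp v (g := cQ) (f := fun v : En d => g^[kS] (κP ((v.1.1, uS + v.1.2), v.2)))
    hQ.smooth_c.contDiffAt hv.2

theorem db18b_mem_Bx (hs : |sS| < 1) (hw : ‖wS‖ < 1) : (((sS, 0), wS) : En d) ∈ BxD d := by
  rw [mem_BxD]
  refine ⟨⟨by linarith, by simp⟩, by linarith⟩

theorem db18b_mem_Bx' (hs : |uS| < 1) : (((0, uS), 0) : En d) ∈ BxD d := by
  rw [mem_BxD]
  refine ⟨⟨by simp, by linarith⟩, by simp⟩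

/-- PROOF. `LinChartD.left` at ((sS,0),wS) ∈ BxD d. -/
theorem db18_zero (hQ : LinChartD g Sy.Q κQ cQ lamQ muQ alQ) (hs : |sS| < 1) (hw : ‖wS‖ < 1)
    (hit : g^[kS] (κP ((0, uS), 0)) = κQ ((sS, 0), wS)) : SMD g κP cQ kS uS 0 = ((sS, 0), wS) := by
  have h0 : SMD g κP cQ kS uS 0 = cQ (g^[kS] (κP ((0, uS), 0))) := by
    simp [SMD]
  rw [h0, hit]
  exact hQ.left _ (db18b_mem_Bx hs hw)

/-- PROOF. v ↦ g^[kS] (κP (..)) is continuous at 0 with value in the open set κQ '' BxD d; `LinChartD.right`. -/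
theorem db18_back (hg : NearD g) (hP : LinChartD g Sy.P κP cP lamP muP alP) (hQ : LinChartD g Sy.Q κQ cQ lamQ muQ alQ)
    (hs : |sS| < 1) (hw : ‖wS‖ < 1) (hpath : ∀ j ≤ kS, g^[j] (κP ((0, uS), 0)) ∈ VOD d)
    (hit : g^[kS] (κP ((0, uS), 0)) = κQ ((sS, 0), wS)) :
    ∀ᶠ v in 𝓝 (0 : En d), SMD g κP cQ kS uS v ∈ BxD d ∧
      κQ (SMD g κP cQ kS uS v) = g^[kS] (κP ((v.1.1, uS + v.1.2), v.2)) := by
  have hc := (db18_path hg hP hpath).self_of_nhds.2.continuousAt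
  have hmem : (fun v : En d => g^[kS] (κP ((v.1.1, uS + v.1.2), v.2))) 0 ∈ κQ '' BxD d := by
    have h0 : (fun v : En d => g^[kS] (κP ((v.1.1, uS + v.1.2), v.2))) 0 = g^[kS] (κP ((0, uS), 0)) := by simp
    rw [h0, hit]
    exact mem_image_of_mem _ (db18b_mem_Bx hs hw)
  have hev := hc.preimage_mem_nhds (hQ.isOpen.mem_nhds hmem)
  filter_upwards [hev] with v hv
  obtain ⟨h1, h2⟩ := hQ.right hv
  exact ⟨h2, h1⟩

/-- the two factorisations of the transition -/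
theorem db18b_germ (hg : NearD g) (hP : LinChartD g Sy.P κP cP lamP muP alP) (hQ : LinChartD g Sy.Q κQ cQ lamQ muQ alQ)
    (hs : |sS| < 1) (hw : ‖wS‖ < 1) (hpath : ∀ j ≤ kS, g^[j] (κP ((0, uS), 0)) ∈ VOD d)
    (hit : g^[kS] (κP ((0, uS), 0)) = κQ ((sS, 0), wS)) :
    κQ ∘ SMD g κP cQ kS uS =ᶠ[𝓝 (0 : En d)] g^[kS] ∘ (κP ∘ db18b_tau uS) := by
  filter_upwards [db18_back hg hP hQ hs hw hpath hit] with v hv
  exact hv.2

theorem db18b_iter_diff (hg : NearD g) (hpath : ∀ j ≤ kS, g^[j] (κP ((0, uS), 0)) ∈ VOD d) :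
    DifferentiableAt ℝ (g^[kS]) (κP ((0, uS), 0)) :=
  ((NearD.iter hg isOpen_VOD (VOD_sub_Omd.trans Omd_sub_Dd) kS (z := κP ((0, uS), 0))
    (fun j hj => hpath j hj.le)).self_of_nhds.1).differentiableAt (by simp)

theorem db18b_SM_diff (hg : NearD g) (hP : LinChartD g Sy.P κP cP lamP muP alP) (hQ : LinChartD g Sy.Q κQ cQ lamQ muQ alQ)
    (hpath : ∀ j ≤ kS, g^[j] (κP ((0, uS), 0)) ∈ VOD d) :
    DifferentiableAt ℝ (SMD g κP cQ kS uS) 0 :=
  ((db18_smooth hg hP hQ hpath).self_of_nhds).differentiableAt (by simp)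

theorem db18b_tau_diff (hP : LinChartD g Sy.P κP cP lamP muP alP) :
    HasFDerivAt (fun v : En d => κP (db18b_tau uS v)) (fderiv ℝ κP ((0, uS), 0)) 0 := by
  have h1 : HasFDerivAt κP (fderiv ℝ κP ((0, uS), 0)) (db18b_tau uS 0) := by
    rw [db18b_tau_zero]
    exact (hP.smooth.differentiable (by simp)).differentiableAt.hasFDerivAt
  have h2 := h1.comp (0 : En d) (db18b_tau_hasFDerivAt uS 0)
  rwa [ContinuousLinearMap.comp_id] at h2

/-- PROOF. `quot_pjac` at v = 0 with κ := fun v => κP ((v.1.1, uS + v.1.2), v.2) (its derivative at 0 is fderiv κP ((0,uS),0); sgn1 of the chart), c := cQ (sgn2 at κQ ((sS,0),wS) ∈ κQ '' BxD d),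
VOD ⊆ Omd (`VOD_sub_Omd`). -/
theorem db18_pj (hg : NearD g) (hP : LinChartD g Sy.P κP cP lamP muP alP) (hQ : LinChartD g Sy.Q κQ cQ lamQ muQ alQ)
    (hu : |uS| < 1) (hs : |sS| < 1) (hw : ‖wS‖ < 1) (hpath : ∀ j ≤ kS, g^[j] (κP ((0, uS), 0)) ∈ VOD d)
    (hit : g^[kS] (κP ((0, uS), 0)) = κQ ((sS, 0), wS)) : 0 < pjac (SMD g κP cQ kS uS) 0 := by
  have hk0 : (fun v : En d => κP (db18b_tau uS v)) 0 = κP ((0, uS), 0) := by
    simp only [db18b_tau_zero]
  have hfd := db18b_tau_diff (uS := uS) hP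
  have key := quot_pjac hg (n := kS) (κ := fun v : En d => κP (db18b_tau uS v)) (c := cQ) (v := 0)
    hfd.differentiableAt
    (by
      intro s hs1
      rw [hfd.fderiv]
      exact hP.sgn1 _ (db18b_mem_Bx' hu) s hs1)
    (by
      intro j hj
      simp only [db18b_tau_zero]
      exact VOD_sub_Omd (hpath j hj.le))
    (hQ.smooth_c.differentiable (by simp)).differentiableAt
    (by
      simp only [db18b_tau_zero]
      rw [hit]
      exact hQ.sgn2 _ (mem_image_of_mem _ (db18b_mem_Bx hs hw)))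
  exact key

/-- PROOF. Suppose it is 0 and write fderiv SMD 0 ((0,1),0) = ((a,0),b).  κQ ∘ SMD = g^[kS] ∘ κP ∘ τ near 0 (`db18_back`), so fderiv κQ ((sS,0),wS) ((a,0),b) =
fderiv (g^[kS]) (κP ((0,uS),0)) (fderiv κP ((0,uS),0) ((0,1),0)) =: u.  By `LinChartD.cone` and `cone_iterD` u ∈ HCone and |u.1.1| > 0.  `LinChartD.stable_not_cone` for κQ gives a = 0, b = 0, so
u = 0, contradiction. -/
theorem db18_d_ne (hg : NearD g) (hP : LinChartD g Sy.P κP cP lamP muP alP) (hQ : LinChartD g Sy.Q κQ cQ lamQ muQ alQ)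
    (hu : |uS| < 1) (hs : |sS| < 1) (hw : ‖wS‖ < 1) (hpath : ∀ j ≤ kS, g^[j] (κP ((0, uS), 0)) ∈ VOD d)
    (hit : g^[kS] (κP ((0, uS), 0)) = κQ ((sS, 0), wS)) :
    (fderiv ℝ (SMD g κP cQ kS uS) 0 ((0, 1), 0)).1.2 ≠ 0 := by
  intro h0
  have hgerm := db18b_germ hg hP hQ hs hw hpath hit
  have hSM0 := db18_zero (κP := κP) hQ hs hw hit
  have e1 : fderiv ℝ (κQ ∘ SMD g κP cQ kS uS) 0 ((0, 1), 0) =
      fderiv ℝ κQ ((sS, 0), wS) (fderiv ℝ (SMD g κP cQ kS uS) 0 ((0, 1), 0)) := by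
    rw [fderiv_comp (0 : En d) (hQ.smooth.differentiable (by simp)).differentiableAt
      (db18b_SM_diff hg hP hQ hpath), hSM0]
    rfl
  have e2 : fderiv ℝ (g^[kS] ∘ (κP ∘ db18b_tau uS)) 0 ((0, 1), 0) =
      fderiv ℝ (g^[kS]) (κP ((0, uS), 0)) (fderiv ℝ κP ((0, uS), 0) ((0, 1), 0)) := by
    have hd : HasFDerivAt (g^[kS]) (fderiv ℝ (g^[kS]) (κP ((0, uS), 0))) ((κP ∘ db18b_tau uS) 0) := by
      have h9 : (κP ∘ db18b_tau uS) 0 = κP ((0, uS), 0) := by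
        simp [db18b_tau_zero]
      rw [h9]
      exact (db18b_iter_diff hg hpath).hasFDerivAt
    have hd2 : HasFDerivAt (κP ∘ db18b_tau uS) (fderiv ℝ κP ((0, uS), 0)) 0 := db18b_tau_diff hP
    rw [(hd.comp (0 : En d) hd2).fderiv]
    rfl
  have e3 : fderiv ℝ κQ ((sS, 0), wS) (fderiv ℝ (SMD g κP cQ kS uS) 0 ((0, 1), 0)) =
      fderiv ℝ (g^[kS]) (κP ((0, uS), 0)) (fderiv ℝ κP ((0, uS), 0) ((0, 1), 0)) := by
    rw [← e1, ← e2, hgerm.fderiv_eq]
  obtain ⟨c1, c2⟩ := hP.cone hg (y := uS) (by linarith)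
  obtain ⟨d1, d2⟩ := cone_iterD hg kS (z := κP ((0, uS), 0)) (fun j hj => hpath j hj.le) c1
  have ha : fderiv ℝ (SMD g κP cQ kS uS) 0 ((0, 1), 0) =
      (((fderiv ℝ (SMD g κP cQ kS uS) 0 ((0, 1), 0)).1.1, 0), (fderiv ℝ (SMD g κP cQ kS uS) 0 ((0, 1), 0)).2) :=
    Prod.ext (Prod.ext rfl h0) rfl
  rw [ha] at e3
  have hz := hQ.stable_not_cone hg (x := sS) (w := wS)
    (a := (fderiv ℝ (SMD g κP cQ kS uS) 0 ((0, 1), 0)).1.1)
    (b := (fderiv ℝ (SMD g κP cQ kS uS) 0 ((0, 1), 0)).2)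
    (by linarith) (by linarith) (by rw [e3]; exact d1)
  rw [hz.1, hz.2] at e3
  have hz2 : fderiv ℝ κQ ((sS, 0), wS) (((0, 0), 0) : En d) = 0 := by
    have h9 : (((0, 0), 0) : En d) = 0 := rfl
    rw [h9, map_zero]
  rw [hz2] at e3
  rw [← e3] at d2
  have hpos : 0 < (6 / 5 : ℝ) ^ kS * |(fderiv ℝ κP ((0, uS), 0) ((0, 1), 0)).1.1| := by positivity
  simp at d2
  linarith

end Pool.Agent.Lib.H37D
end

-- from Lib.H37D.DB18c
section

/-! # H37D, chunk DB18c (S/M): the transversal connection (port of H37N/B18c.lean) -/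

open Set Filter Topology
open scoped ContDiff

namespace Pool.Agent.Lib.H37D

open Pool.Agent.Lib.H37N

variable {d : ℕ}

/-- the connection from the facts of DB18b, if the unstable derivative is positive -/
theorem db18c_of_pos {g κP cP κQ cQ : En d → En d} {lamP muP lamQ muQ : ℝ} {alP alQ : Wd d} {kS : ℕ} {uS sS : ℝ}
    {wS : Wd d} (hg : NearD g)
    (hP : LinChartD g Sy.P κP cP lamP muP alP) (hQ : LinChartD g Sy.Q κQ cQ lamQ muQ alQ)
    (h1 : 1 ≤ kS) (hune : uS ≠ 0) (hu : |uS| < 1) (hs : |sS| < 1) (hw : ‖wS‖ < 1)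
    (hpath : ∀ j ≤ kS, g^[j] (κP ((0, uS), 0)) ∈ VOD d) (hit : g^[kS] (κP ((0, uS), 0)) = κQ ((sS, 0), wS))
    (hd : 0 < (fderiv ℝ (SMD g κP cQ kS uS) 0 ((0, 1), 0)).1.2) : SDataD g κP κQ cQ kS uS sS wS where
  pos := h1
  u_ne := hune
  u_lt := hu
  s_lt := hs
  w_lt := hw
  path := (db18_path hg hP hpath).mono fun _ hv => hv.1
  hit := hit
  smooth := db18_smooth hg hP hQ hpath
  S0 := db18_zero hQ hs hw hit
  back := db18_back hg hP hQ hs hw hpath hit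
  pj_pos := db18_pj hg hP hQ hu hs hw hpath hit
  d_pos := hd

/-- the reflection as a continuous linear map -/
noncomputable def db18cR (d : ℕ) : En d →L[ℝ] En d :=
  (-(ContinuousLinearMap.fst ℝ Pt (Wd d))).prod (ContinuousLinearMap.snd ℝ Pt (Wd d))

theorem db18cR_apply (v : En d) : db18cR d v = rfl2 v := rfl

/-- PROOF. As `exists_sdata`: `sdata_coreD` and the lemmas of DB18b.  If d = (fderiv SMD 0 ((0,1),0)).1.2 > 0 take κQ, cQ.  If d < 0 take κQ ∘ rfl2, rfl2 ∘ cQ (`LinChartD.neg`) and -sS, wS: then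
κQ' ((-sS,0),wS) = κQ ((sS,0),wS) and SMD g κP cQ' = rfl2 ∘ SMD g κP cQ has the derivative rfl2 ∘ .., so the number is positive; pj_pos from `db18_pj` for the new chart. -/
theorem exists_sdataD {g κP cP κQ cQ : En d → En d} {lamP muP lamQ muQ : ℝ} {alP alQ : Wd d} (hg : NearD g)
    (hP : LinChartD g Sy.P κP cP lamP muP alP) (hQ : LinChartD g Sy.Q κQ cQ lamQ muQ alQ) :
    ∃ (κQ' cQ' : En d → En d) (kS : ℕ) (uS sS : ℝ) (wS : Wd d), LinChartD g Sy.Q κQ' cQ' lamQ muQ alQ ∧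
      SDataD g κP κQ' cQ' kS uS sS wS := by
  obtain ⟨kS, uS, sS, wS, h1, hune, hu, hs, hw, hpath, hit⟩ := sdata_coreD hg hP hQ
  have hd := db18_d_ne hg hP hQ hu hs hw hpath hit
  rcases lt_or_gt_of_ne hd with hneg | hpos
  · have hs' : |(-sS)| < 1 := by rwa [abs_neg]
    have hit' : g^[kS] (κP ((0, uS), 0)) = (fun v => κQ (rfl2 v)) (((-sS, 0), wS) : En d) := by
      rw [hit]
      simp [rfl2]
    refine ⟨fun v => κQ (rfl2 v), fun w => rfl2 (cQ w), kS, uS, -sS, wS, hQ.neg, ?_⟩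
    refine db18c_of_pos hg hP hQ.neg h1 hune hu hs' hw hpath hit' ?_
    have hSM : SMD g κP (fun w => rfl2 (cQ w)) kS uS = fun v => db18cR d (SMD g κP cQ kS uS v) := rfl
    have hdiff : DifferentiableAt ℝ (SMD g κP cQ kS uS) 0 :=
      (db18_smooth hg hP hQ hpath).self_of_nhds.differentiableAt (by simp)
    have hF : HasFDerivAt (fun v => db18cR d (SMD g κP cQ kS uS v))
        ((db18cR d).comp (fderiv ℝ (SMD g κP cQ kS uS) 0)) 0 :=
      (db18cR d).hasFDerivAt.comp 0 hdiff.hasFDerivAt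
    rw [hSM, hF.fderiv, ContinuousLinearMap.comp_apply, db18cR_apply]
    change 0 < -(fderiv ℝ (SMD g κP cQ kS uS) 0 ((0, 1), 0)).1.2
    linarith
  · exact ⟨κQ, cQ, kS, uS, sS, wS, hQ, db18c_of_pos hg hP hQ h1 hune hu hs hw hpath hit hpos⟩

end Pool.Agent.Lib.H37D
end

-- from Lib.H37D.DB19
section

/-! # H37D, chunk DB19 (S/M): section B, final theorem and persistence (port of H37N/B19.lean) -/

open Set Filter Topology
open scoped ContDiff

namespace Pool.Agent.Lib.H37D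

open Pool.Agent.Lib.H37N

variable {d : ℕ}

/-- PROOF. `LIND` and `exists_sdataD`. -/
theorem sectionBD {R : ℕ} {U : Set (En d → En d)} (hU : PertOpenD R U) (hN : ∀ g ∈ U, NearS g) {g : En d → En d}
    (hg : g ∈ U) : ∃ g' ∈ U, ∃ F : FrD d, IsFrD g' F := by
  obtain ⟨g', hg', κ, c, lam, mu, al, hch, hirr⟩ := LIND hU hN hg
  obtain ⟨κQ', cQ', kS, uS, sS, wS, hQ', hsd⟩ := exists_sdataD (hN g' hg').toNearD (hch Sy.P) (hch Sy.Q)
  refine ⟨g', hg', ⟨fun i => Sy.casesOn i (κ Sy.P) κQ', fun i => Sy.casesOn i (c Sy.P) cQ',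
    lam, mu, al, kS, uS, sS, wS⟩, ⟨?_, hirr, hsd⟩⟩
  intro i
  cases i
  · exact hch Sy.P
  · exact hQ'

/-- PROOF. If g^[j] z ∈ VOD d for j < n then g'^[j] z = g^[j] z for j ≤ n (induction, `Function.iterate_succ_apply'`). -/
theorem iterate_eq_of_VOD {g g' : En d → En d} (h : ∀ z ∈ VOD d, g' z = g z) {n : ℕ} {z : En d}
    (hz : ∀ j < n, g^[j] z ∈ VOD d) : ∀ j ≤ n, g'^[j] z = g^[j] z := by
  intro j
  induction j with
  | zero => intro _; rfl
  | succ j ih =>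
    intro hj
    rw [Function.iterate_succ_apply', Function.iterate_succ_apply', ih (by omega)]
    exact h _ (hz j (by omega))

/-- PROOF. As `SData.congr`. -/
theorem SDataD.congr {g g' κP κQ cQ : En d → En d} {kS : ℕ} {uS sS : ℝ} {wS : Wd d}
    (h : SDataD g κP κQ cQ kS uS sS wS) (hg : ∀ z ∈ VOD d, g' z = g z) : SDataD g' κP κQ cQ kS uS sS wS := by
  have key : ∀ᶠ v in 𝓝 (0 : En d), ∀ j ≤ kS,
      g'^[j] (κP ((v.1.1, uS + v.1.2), v.2)) = g^[j] (κP ((v.1.1, uS + v.1.2), v.2)) := by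
    filter_upwards [h.path] with v hv
    exact iterate_eq_of_VOD hg (n := kS) (fun j hj => hv j hj.le)
  have hSM : SMD g' κP cQ kS uS =ᶠ[𝓝 (0 : En d)] SMD g κP cQ kS uS := by
    filter_upwards [key] with v hv
    unfold SMD
    rw [hv kS le_rfl]
  have hfd : fderiv ℝ (SMD g' κP cQ kS uS) 0 = fderiv ℝ (SMD g κP cQ kS uS) 0 := hSM.fderiv_eq
  refine ⟨h.pos, h.u_ne, h.u_lt, h.s_lt, h.w_lt, ?_, ?_, ?_, ?_, ?_, ?_, ?_⟩
  · filter_upwards [h.path, key] with v hv hk j hj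
    rw [hk j hj]
    exact hv j hj
  · have h1 := key.self_of_nhds kS le_rfl
    simp only [Prod.fst_zero, Prod.snd_zero, add_zero] at h1
    rw [h1]
    exact h.hit
  · filter_upwards [h.smooth, hSM.eventually_nhds] with v h1 h2
    exact h1.congr_of_eventuallyEq h2
  · rw [hSM.self_of_nhds]
    exact h.S0
  · filter_upwards [h.back, hSM, key] with v h1 h2 h3
    rw [h2, h3 kS le_rfl]
    exact h1
  · have := h.pj_pos
    unfold pjac at this ⊢
    rw [hfd]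
    exact this
  · rw [hfd]
    exact h.d_pos

/-- PROOF. `LinChartD.congr` (interior (VV i) × ball 0 1 ⊆ VOD d), `SDataD.congr`. -/
theorem IsFrD.congr {g g' : En d → En d} {F : FrD d} (h : IsFrD g F) (hg : ∀ z ∈ VOD d, g' z = g z) : IsFrD g' F := by
  refine ⟨fun i => (h.chart i).congr ?_, h.irr, h.sdata.congr hg⟩
  intro z hz
  refine hg z ⟨?_, hz.2⟩
  cases i
  · exact Or.inl hz.1
  · exact Or.inr hz.1

end Pool.Agent.Lib.H37D
end
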