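import Pool.Agent.Lib.H1M.FF.M012
import Pool.Agent.Lib.H1M.FF.M020
import Pool.Agent.Lib.H1M.FF.M027
import Pool.Agent.Lib.H1M.FF.M034
import Pool.Agent.Lib.H1M.FF.M036

/-! Merged copies (to shorten the build) of Lib.H37D.DH81, Lib.H37D.DH83, Lib.H37P.P06, Lib.H37D.DP06, Lib.H37D.DK8, Lib.H37D.MDefsD. -/

-- from Lib.H37D.DH81
section

open TopologicalSpace Set Filter Topology
open scoped Manifold ContDiff
open Pool.Agent.Lib.Helper37.ConjBorel Pool.Agent.Lib.H37C Pool.Agent.Lib.H37N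

namespace Pool.Agent.Lib.H37D

variable {d : ℕ} {M : Type*} [TopologicalSpace M] [ChartedSpace (Euc (d + 2)) M]

/-- `Omd d ⊆ K0D d ⊆ closedBall 0 4` (`omd_sub_K0D`; `K0 = Icc (-3) 4 ×ˢ Icc (-3) 4`, sup norms), `BigCD`. -/
theorem omd_target {e : OpenPartialHomeomorph M (Euc (d + 2))} {r : ℝ} (he : BigCD e r) (hr : 4 ≤ r) {z : En d}
    (hz : z ∈ Omd d) : (LLd d).symm z ∈ e.target := by
  refine he.big z (le_trans ?_ hr)
  have h1 : z ∈ K0D d := interior_subset (omd_sub_K0D hz)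
  obtain ⟨h2, h3⟩ := h1
  simp only [K0, mem_prod, mem_Icc] at h2
  have h4 : ‖z.2‖ ≤ 4 := mem_closedBall_zero_iff.1 h3
  refine (Prod.norm_def z).le.trans (max_le ?_ h4)
  refine (Prod.norm_def z.1).le.trans (max_le ?_ ?_)
  · rw [Real.norm_eq_abs]
    exact abs_le.2 ⟨by linarith [h2.1.1], by linarith [h2.1.2]⟩
  · rw [Real.norm_eq_abs]
    exact abs_le.2 ⟨by linarith [h2.2.1], by linarith [h2.2.2]⟩

/-- **DH81 (M).** The chart of the tube.

Proof. Let `ω` be the open partial homeomorphism of `Euc (d + 2)` with source `(LLd d).symm '' (Θ '' Bt d)` (open, `hC.isOpen`), target `(LLd d).symm '' Bt d` (open), `toFun = cjd c`,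
`invFun = cjd Θ` (`hC.left`, `hC.smooth`, `hC.smooth_c`). It is in `contDiffGroupoid ∞ (𝓡 (d + 2))` (`contDiffGroupoid, mem_groupoid_of_pregroupoid`, see `exists_chart` in Lib/H37C/D1.lean),
so `κ = e.trans ω` is in the maximal atlas (same place). For `z ∈ Bt d`: `Θ z ∈ Omd d` (`hC.path z hz 0`), so `(LLd d).symm (Θ z) ∈ e.target` (`omd_target`), hence
`(LLd d).symm z ∈ κ.target` (`OpenPartialHomeomorph.trans_target`) and `κ.symm ((LLd d).symm z) = e.symm ((LLd d).symm (Θ z))`. -/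
theorem exists_kappa [IsManifold (𝓡 (d + 2)) ∞ M] {e : OpenPartialHomeomorph M (Euc (d + 2))} {r : ℝ} (he : BigCD e r)
    (hr : 4 ≤ r) {g : En d → En d} {m : ℕ} {Θ c : En d → En d} {A : Pt → Wd d →L[ℝ] Wd d} (hC : CSpotD g m Θ c A) :
    ∃ κ : OpenPartialHomeomorph M (Euc (d + 2)), κ ∈ IsManifold.maximalAtlas (𝓡 (d + 2)) ∞ M ∧
      (∀ z ∈ Bt d, (LLd d).symm z ∈ κ.target) ∧
      ∀ z ∈ Bt d, κ.symm ((LLd d).symm z) = e.symm ((LLd d).symm (Θ z)) := by
  have hBt : IsOpen (Bt d) := Metric.isOpen_ball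
  have hsm : ContDiff ℝ ∞ (cjd Θ) :=
    (LLd d).symm.contDiff.comp (hC.smooth.comp (LLd d).contDiff)
  have hsmc : ContDiff ℝ ∞ (cjd c) :=
    (LLd d).symm.contDiff.comp (hC.smooth_c.comp (LLd d).contDiff)
  let om : OpenPartialHomeomorph (Euc (d + 2)) (Euc (d + 2)) :=
    { toFun := cjd c
      invFun := cjd Θ
      source := LLd d ⁻¹' (Θ '' Bt d)
      target := LLd d ⁻¹' Bt d
      map_source' := by
        rintro x ⟨p, hp, hpx⟩
        change LLd d ((LLd d).symm (c (LLd d x))) ∈ Bt d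
        rw [ContinuousLinearEquiv.apply_symm_apply, ← hpx, hC.left p hp]
        exact hp
      map_target' := by
        intro x hx
        change LLd d ((LLd d).symm (Θ (LLd d x))) ∈ Θ '' Bt d
        rw [ContinuousLinearEquiv.apply_symm_apply]
        exact ⟨_, hx, rfl⟩
      left_inv' := by
        rintro x ⟨p, hp, hpx⟩
        change (LLd d).symm (Θ (LLd d ((LLd d).symm (c (LLd d x))))) = x
        rw [ContinuousLinearEquiv.apply_symm_apply, ← hpx, hC.left p hp, hpx,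
          ContinuousLinearEquiv.symm_apply_apply]
      right_inv' := by
        intro x hx
        change (LLd d).symm (c (LLd d ((LLd d).symm (Θ (LLd d x))))) = x
        rw [ContinuousLinearEquiv.apply_symm_apply, hC.left _ hx,
          ContinuousLinearEquiv.symm_apply_apply]
      open_source := hC.isOpen.preimage (LLd d).continuous
      open_target := hBt.preimage (LLd d).continuous
      continuousOn_toFun := hsmc.continuous.continuousOn
      continuousOn_invFun := hsm.continuous.continuousOn }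
  have hom : om ∈ contDiffGroupoid ∞ (𝓡 (d + 2)) := by
    rw [contDiffGroupoid, mem_groupoid_of_pregroupoid]
    constructor
    · show ContDiffOn ℝ ∞ _ _
      have : ContDiff ℝ ∞ (cjd c) := hsmc
      exact this.contDiffOn
    · show ContDiffOn ℝ ∞ _ _
      have : ContDiff ℝ ∞ (cjd Θ) := hsm
      exact this.contDiffOn
  have hom' : om.symm ∈ contDiffGroupoid ∞ (𝓡 (d + 2)) := StructureGroupoid.symm _ hom
  have h₀ : e ∈ (contDiffGroupoid ∞ (𝓡 (d + 2))).maximalAtlas M := he.mem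
  refine ⟨e.trans om, ?_, ?_, ?_⟩
  · show _ ∈ (contDiffGroupoid ∞ (𝓡 (d + 2))).maximalAtlas M
    rw [mem_maximalAtlas_iff] at h₀ ⊢
    intro e' he'
    obtain ⟨h1, h2⟩ := h₀ e' he'
    constructor
    · rw [OpenPartialHomeomorph.trans_symm_eq_symm_trans_symm, OpenPartialHomeomorph.trans_assoc]
      exact StructureGroupoid.trans _ hom' h1
    · rw [← OpenPartialHomeomorph.trans_assoc]
      exact StructureGroupoid.trans _ h2 hom
  · intro z hz
    rw [OpenPartialHomeomorph.trans_target]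
    refine ⟨?_, ?_⟩
    · change LLd d ((LLd d).symm z) ∈ Bt d
      rw [ContinuousLinearEquiv.apply_symm_apply]
      exact hz
    · change (LLd d).symm (Θ (LLd d ((LLd d).symm z))) ∈ e.target
      rw [ContinuousLinearEquiv.apply_symm_apply]
      exact omd_target he hr (hC.path z hz 0 (Nat.zero_le _))
  · intro z hz
    change e.symm ((LLd d).symm (Θ (LLd d ((LLd d).symm z)))) = _
    rw [ContinuousLinearEquiv.apply_symm_apply]

end Pool.Agent.Lib.H37D
end

-- from Lib.H37D.DH83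
section

open TopologicalSpace Set Filter Topology
open scoped Manifold ContDiff
open Pool.Agent.Lib.Helper37.ConjBorel Pool.Agent.Lib.H37C Pool.Agent.Lib.H37N

namespace Pool.Agent.Lib.H37D

variable {d : ℕ} {M : Type*} [TopologicalSpace M] [ChartedSpace (Euc (d + 2)) M]

/-- **DH83 (S/M).** One step in the chart: if `z` and its image are in `Omd d`, then `f` acts on the point with the coordinates `z` as `locD e f`.

Proof. `z ∈ domD e f`: otherwise `locD e f z = ((10, 10), 0)`, which is not in `Omd d` (`omd_sub_K0D`: `10 > 4`). So `locD e f z = LLd d (e (f (e.symm ..)))` and `e.left_inv`. -/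
theorem step_loc {e : OpenPartialHomeomorph M (Euc (d + 2))} {f : DiffInf (d + 2) M} {z : En d}
    (hz : locD e f z ∈ Omd d) : f (e.symm ((LLd d).symm z)) = e.symm ((LLd d).symm (locD e f z)) := by
  by_cases h : z ∈ domD e f
  · have h1 : locD e f z = LLd d (e (f (e.symm ((LLd d).symm z)))) := by
      unfold locD
      rw [if_pos h]
    rw [h1, (LLd d).symm_apply_apply, e.left_inv h.2]
  · exfalso
    have h1 : locD e f z = ((10, 10), 0) := by
      unfold locD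
      rw [if_neg h]
    rw [h1] at hz
    have h2 := interior_subset (omd_sub_K0D hz)
    have h3 : (((10 : ℝ), (10 : ℝ)) : Pt) ∈ K0 := h2.1
    simp only [K0, mem_prod, mem_Icc] at h3
    linarith [h3.1.2]

/-- **DH83, second part (S).** `step_loc`, induction on `i` (`hC.path`). -/
theorem iter_loc {e : OpenPartialHomeomorph M (Euc (d + 2))} {f : DiffInf (d + 2) M} {m : ℕ} {Θ c : En d → En d}
    {A : Pt → Wd d →L[ℝ] Wd d} (hC : CSpotD (locD e f) m Θ c A) {z : En d} (hz : z ∈ Bt d) {i : ℕ} (hi : i ≤ m) :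
    (⇑f)^[i] (e.symm ((LLd d).symm (Θ z))) = e.symm ((LLd d).symm ((locD e f)^[i] (Θ z))) := by
  induction i with
  | zero => rfl
  | succ i ih =>
    rw [Function.iterate_succ_apply', ih (by omega), Function.iterate_succ_apply']
    apply step_loc
    have h1 := hC.path z hz (i + 1) hi
    rw [Function.iterate_succ_apply'] at h1
    exact h1

/-- `e.symm` is injective on the target, `omd_target` -/
theorem symm_inj {e : OpenPartialHomeomorph M (Euc (d + 2))} {r : ℝ} (he : BigCD e r) (hr : 4 ≤ r) {z z' : En d}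
    (hz : z ∈ Omd d) (hz' : z' ∈ Omd d) (h : e.symm ((LLd d).symm z) = e.symm ((LLd d).symm z')) : z = z' := by
  have h1 := congrArg e h
  rw [e.right_inv (omd_target he hr hz), e.right_inv (omd_target he hr hz')] at h1
  exact (LLd d).symm.injective h1

end Pool.Agent.Lib.H37D
end

-- from Lib.H37P.P06
section

/-!
# H37N P06 (M): flat corrections at a place

Let `w0 = Li v0 ∈ D`, `G = Li ∘ Gh ∘ PlM` near `w0`: smooth near `w0`, `G w0 = w0`, and `G w - w = Li (Gh v) - Li v = O(|Gh v - v|) =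
O(|v - v0|^(R+2)) = O(|w - w0|^(R+2))`, `v = PlM w` (`Li`, `PlM` are locally Lipschitz). `flat_corr` (T6b) gives `ψ ∈ Small R ε`, supported in a
small compact neighbourhood of `w0` inside `D ∩ Li '' O`, equal to `G` near `w0`; `ψ` is a bijection (T8), so it maps
the support ball into itself: `Adm D ψ`. (T6 should give the support in a closed ball `C` with `ψ '' C ⊆ C`; since `ψ` is
injective and `= id` off `C`, this is automatic.)
-/

open Set Filter Topology Asymptotics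
open scoped ContDiff

namespace Pool.Agent.Lib.H37N

variable {g : Pt → Pt} {s : Fr} {Z : Set Pt} {b a : ℝ} {k l : ℕ} {r : ℝ} {D B : Set Pt}
  {Li : Pt → Pt}

theorem Place.flat (hp : Place g s Z b a k l r D B Li) {v0 : Pt}
    (hv0 : v0 ∈ Metric.ball ((a, 0) : Pt) r) {R : ℕ} {Gh : Pt → Pt} {O1 : Set Pt}
    (hO1 : IsOpen O1) (hv1 : v0 ∈ O1) (hG : ContDiffOn ℝ ∞ Gh O1)
    (hG1 : (fun v => Gh v - v) =O[𝓝 v0] fun v => ‖v - v0‖ ^ (R + 2)) {ε : ℝ} (hε : 0 < ε)
    {O : Set Pt} (hO : O ∈ 𝓝 v0) :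
    ∃ ψ : Pt → Pt, Small R ε ψ ∧ Adm D ψ ∧
      (∀ᶠ v in 𝓝 v0, PlM g s l (ψ (Li v)) = Gh v) ∧
      ∀ v ∈ Metric.ball ((a, 0) : Pt) r, v ∉ O → PlM g s l (ψ (Li v)) = v := by
  have hball : IsOpen (Metric.ball ((a, 0) : Pt) r) := Metric.isOpen_ball
  have hw0 : Li v0 ∈ D := hp.Li_mem v0 hv0
  have hPw0 : PlM g s l (Li v0) = v0 := hp.Pl_Li v0 hv0
  obtain ⟨C, -, hDC, hCK, -⟩ := hp.compD
  have hK : Li v0 ∈ interior K0 :=
    interior_maximal (hDC.trans hCK) hp.openD hw0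
  -- Gh fixes v0
  have hfix : Gh v0 = v0 := by
    obtain ⟨c, hc⟩ := hG1.bound
    have h1 := hc.self_of_nhds
    simp only [sub_self, norm_zero] at h1
    rw [zero_pow (by omega), norm_zero, mul_zero] at h1
    exact sub_eq_zero.1 (norm_eq_zero.1 (le_antisymm h1 (norm_nonneg _)))
  have hPlat : ∀ w ∈ D, ContDiffAt ℝ ∞ (PlM g s l) w := fun w hw =>
    hp.smPl.contDiffAt (hp.openD.mem_nhds hw)
  have hLiat : ∀ v ∈ Metric.ball ((a, 0) : Pt) r, ContDiffAt ℝ ∞ Li v := fun v hv =>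
    hp.smLi.contDiffAt (hball.mem_nhds hv)
  have hPc : Tendsto (PlM g s l) (𝓝 (Li v0)) (𝓝 v0) := by
    have h1 := (hPlat _ hw0).continuousAt.tendsto
    rwa [hPw0] at h1
  have hLc : Tendsto Li (𝓝 v0) (𝓝 (Li v0)) := (hLiat v0 hv0).continuousAt.tendsto
  have hGc : Tendsto Gh (𝓝 v0) (𝓝 v0) := by
    have h1 := (hG.contDiffAt (hO1.mem_nhds hv1)).continuousAt.tendsto
    rwa [hfix] at h1
  have hDn : ∀ᶠ w in 𝓝 (Li v0), w ∈ D := hp.openD.mem_nhds hw0
  have hGs : ∀ᶠ w in 𝓝 (Li v0), ContDiffAt ℝ ∞ (fun w => Li (Gh (PlM g s l w))) w := by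
    have h1 : ∀ᶠ w in 𝓝 (Li v0), PlM g s l w ∈ O1 := hPc.eventually (hO1.mem_nhds hv1)
    have h2 : ∀ᶠ w in 𝓝 (Li v0), Gh (PlM g s l w) ∈ Metric.ball ((a, 0) : Pt) r :=
      (hGc.comp hPc).eventually (hball.mem_nhds hv0)
    filter_upwards [hDn, h1, h2] with w h3 h4 h5
    exact (hLiat _ h5).comp w ((hG.contDiffAt (hO1.mem_nhds h4)).comp w (hPlat w h3))
  have hbig : (fun w => Li (Gh (PlM g s l w)) - w) =O[𝓝 (Li v0)]
      fun w => ‖w - Li v0‖ ^ (R + 2) := by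
    obtain ⟨K, T, hT, hKT⟩ := ((hLiat v0 hv0).of_le (by simp : (1 : WithTop ℕ∞) ≤ ∞)).exists_lipschitzOnWith
    have h1 : (fun w => Li (Gh (PlM g s l w)) - w) =O[𝓝 (Li v0)]
        fun w => Gh (PlM g s l w) - PlM g s l w := by
      refine IsBigO.of_bound K ?_
      filter_upwards [hDn, hPc.eventually hT, (hGc.comp hPc).eventually hT] with w h2 h3 h4
      have h5 : w = Li (PlM g s l w) := (hp.Li_Pl w h2).symm
      have h6 := hKT.dist_le_mul _ h4 _ h3
      rw [dist_eq_norm, dist_eq_norm] at h6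
      calc ‖Li (Gh (PlM g s l w)) - w‖ = ‖Li (Gh (PlM g s l w)) - Li (PlM g s l w)‖ := by
            rw [← h5]
        _ ≤ _ := h6
    have h2 : (fun w => Gh (PlM g s l w) - PlM g s l w) =O[𝓝 (Li v0)]
        fun w => ‖PlM g s l w - v0‖ ^ (R + 2) := hG1.comp_tendsto hPc
    have h3 : (fun w => PlM g s l w - v0) =O[𝓝 (Li v0)] fun w => w - Li v0 := by
      have h4 := ((hPlat _ hw0).differentiableAt (by simp)).hasFDerivAt.isBigO_sub
      rwa [hPw0] at h4
    exact (h1.trans h2).trans (h3.norm_norm.pow (R + 2))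
  have hB : {w | w ∈ D ∧ PlM g s l w ∈ O} ∈ 𝓝 (Li v0) :=
    Filter.inter_mem (hp.openD.mem_nhds hw0) (hPc hO)
  obtain ⟨ψ, hψ, hψB, hψG⟩ := flat_corr (R + 1) (ε := min ε (1 / 2)) (lt_min hε (by norm_num)) hK
    hGs hbig hB
  have hinj : Function.Injective ψ :=
    t8_inj (hψ.mono (R' := 1) (ε' := 1 / 2) (by omega) (min_le_right _ _))
  refine ⟨ψ, hψ.mono (Nat.le_succ R) (min_le_left _ _), ⟨?_, ?_⟩, ?_, ?_⟩
  · intro w hw
    exact hψB w fun h => hw h.1
  · intro w hw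
    by_contra hc
    have h1 : ψ (ψ w) = ψ w := hψB _ fun h => hc h.1
    exact hc ((hinj h1).symm ▸ hw)
  · have h1 : ∀ᶠ v in 𝓝 v0, ψ (Li v) = Li (Gh (PlM g s l (Li v))) := hLc.eventually hψG
    have h2 : ∀ᶠ v in 𝓝 v0, v ∈ Metric.ball ((a, 0) : Pt) r := hball.mem_nhds hv0
    have h3 : ∀ᶠ v in 𝓝 v0, Gh v ∈ Metric.ball ((a, 0) : Pt) r :=
      hGc.eventually (hball.mem_nhds hv0)
    filter_upwards [h1, h2, h3] with v h4 h5 h6
    rw [h4, hp.Pl_Li v h5, hp.Pl_Li _ h6]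
  · intro v hv hvO
    have h1 : ψ (Li v) = Li v := hψB _ fun h => by
      have h2 : PlM g s l (Li v) ∈ O := h.2
      rw [hp.Pl_Li v hv] at h2
      exact hvO h2
    rw [h1, hp.Pl_Li v hv]


end Pool.Agent.Lib.H37N
end

-- from Lib.H37D.DP06
section

/-!
# H37D DP06 (M): flat corrections at a place (port of H37P/P06.lean)

Word for word as H37P/P06 (`flat_corrD` of DT67 with `R + 1` in place of `R`, the injectivity of `SmallD 1 (1/2)` maps from KT8).
-/

open Set Filter Topology Asymptotics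
open scoped ContDiff

namespace Pool.Agent.Lib.H37D

open Pool.Agent.Lib.H37N

variable {d : ℕ} {g : En d → En d} {s : FrD d} {Z : Set (En d)} {b a : ℝ} {wT : Wd d} {k l : ℕ}
  {r : ℝ} {D B : Set (En d)} {Li : En d → En d}

theorem PlaceD.flat (hp : PlaceD g s Z b a wT k l r D B Li) {v0 : En d}
    (hv0 : v0 ∈ Metric.ball (((a, 0), wT) : En d) r) {R : ℕ} {Gh : En d → En d} {O1 : Set (En d)}
    (hO1 : IsOpen O1) (hv1 : v0 ∈ O1) (hG : ContDiffOn ℝ ∞ Gh O1)
    (hG1 : (fun v => Gh v - v) =O[𝓝 v0] fun v => ‖v - v0‖ ^ (R + 2)) {ε : ℝ} (hε : 0 < ε)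
    {O : Set (En d)} (hO : O ∈ 𝓝 v0) :
    ∃ ψ : En d → En d, SmallD R ε ψ ∧ AdmD D ψ ∧
      (∀ᶠ v in 𝓝 v0, PlD g s l (ψ (Li v)) = Gh v) ∧
      ∀ v ∈ Metric.ball (((a, 0), wT) : En d) r, v ∉ O → PlD g s l (ψ (Li v)) = v := by
  have hball : IsOpen (Metric.ball (((a, 0), wT) : En d) r) := Metric.isOpen_ball
  have hw0 : Li v0 ∈ D := hp.Li_mem v0 hv0
  have hPw0 : PlD g s l (Li v0) = v0 := hp.Pl_Li v0 hv0
  obtain ⟨C, -, hDC, hCK, -⟩ := hp.compD
  have hK : Li v0 ∈ interior (K0D d) :=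
    interior_maximal (hDC.trans hCK) hp.openD hw0
  -- Gh fixes v0
  have hfix : Gh v0 = v0 := by
    obtain ⟨c, hc⟩ := hG1.bound
    have h1 := hc.self_of_nhds
    simp only [sub_self, norm_zero] at h1
    rw [zero_pow (by omega), norm_zero, mul_zero] at h1
    exact sub_eq_zero.1 (norm_eq_zero.1 (le_antisymm h1 (norm_nonneg _)))
  have hPlat : ∀ w ∈ D, ContDiffAt ℝ ∞ (PlD g s l) w := fun w hw =>
    hp.smPl.contDiffAt (hp.openD.mem_nhds hw)
  have hLiat : ∀ v ∈ Metric.ball (((a, 0), wT) : En d) r, ContDiffAt ℝ ∞ Li v := fun v hv =>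
    hp.smLi.contDiffAt (hball.mem_nhds hv)
  have hPc : Tendsto (PlD g s l) (𝓝 (Li v0)) (𝓝 v0) := by
    have h1 := (hPlat _ hw0).continuousAt.tendsto
    rwa [hPw0] at h1
  have hLc : Tendsto Li (𝓝 v0) (𝓝 (Li v0)) := (hLiat v0 hv0).continuousAt.tendsto
  have hGc : Tendsto Gh (𝓝 v0) (𝓝 v0) := by
    have h1 := (hG.contDiffAt (hO1.mem_nhds hv1)).continuousAt.tendsto
    rwa [hfix] at h1
  have hDn : ∀ᶠ w in 𝓝 (Li v0), w ∈ D := hp.openD.mem_nhds hw0
  have hGs : ∀ᶠ w in 𝓝 (Li v0), ContDiffAt ℝ ∞ (fun w => Li (Gh (PlD g s l w))) w := by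
    have h1 : ∀ᶠ w in 𝓝 (Li v0), PlD g s l w ∈ O1 := hPc.eventually (hO1.mem_nhds hv1)
    have h2 : ∀ᶠ w in 𝓝 (Li v0), Gh (PlD g s l w) ∈ Metric.ball (((a, 0), wT) : En d) r :=
      (hGc.comp hPc).eventually (hball.mem_nhds hv0)
    filter_upwards [hDn, h1, h2] with w h3 h4 h5
    exact (hLiat _ h5).comp w ((hG.contDiffAt (hO1.mem_nhds h4)).comp w (hPlat w h3))
  have hbig : (fun w => Li (Gh (PlD g s l w)) - w) =O[𝓝 (Li v0)]
      fun w => ‖w - Li v0‖ ^ (R + 2) := by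
    obtain ⟨K, T, hT, hKT⟩ := ((hLiat v0 hv0).of_le (by simp : (1 : WithTop ℕ∞) ≤ ∞)).exists_lipschitzOnWith
    have h1 : (fun w => Li (Gh (PlD g s l w)) - w) =O[𝓝 (Li v0)]
        fun w => Gh (PlD g s l w) - PlD g s l w := by
      refine IsBigO.of_bound K ?_
      filter_upwards [hDn, hPc.eventually hT, (hGc.comp hPc).eventually hT] with w h2 h3 h4
      have h5 : w = Li (PlD g s l w) := (hp.Li_Pl w h2).symm
      have h6 := hKT.dist_le_mul _ h4 _ h3
      rw [dist_eq_norm, dist_eq_norm] at h6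
      calc ‖Li (Gh (PlD g s l w)) - w‖ = ‖Li (Gh (PlD g s l w)) - Li (PlD g s l w)‖ := by
            rw [← h5]
        _ ≤ _ := h6
    have h2 : (fun w => Gh (PlD g s l w) - PlD g s l w) =O[𝓝 (Li v0)]
        fun w => ‖PlD g s l w - v0‖ ^ (R + 2) := hG1.comp_tendsto hPc
    have h3 : (fun w => PlD g s l w - v0) =O[𝓝 (Li v0)] fun w => w - Li v0 := by
      have h4 := ((hPlat _ hw0).differentiableAt (by simp)).hasFDerivAt.isBigO_sub
      rwa [hPw0] at h4
    exact (h1.trans h2).trans (h3.norm_norm.pow (R + 2))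
  have hB : {w | w ∈ D ∧ PlD g s l w ∈ O} ∈ 𝓝 (Li v0) :=
    Filter.inter_mem (hp.openD.mem_nhds hw0) (hPc hO)
  obtain ⟨ψ, hψ, hψB, hψG⟩ := flat_corrD (R + 1) (ε := min ε (1 / 2)) (lt_min hε (by norm_num)) hK
    hGs hbig hB
  have hinj : Function.Injective ψ :=
    kt8_inj (hψ.mono (R' := 1) (ε' := 1 / 2) (by omega) (min_le_right _ _))
  refine ⟨ψ, hψ.mono (Nat.le_succ R) (min_le_left _ _), ⟨?_, ?_⟩, ?_, ?_⟩
  · intro w hw
    exact hψB w fun h => hw h.1
  · intro w hw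
    by_contra hc
    have h1 : ψ (ψ w) = ψ w := hψB _ fun h => hc h.1
    exact hc ((hinj h1).symm ▸ hw)
  · have h1 : ∀ᶠ v in 𝓝 v0, ψ (Li v) = Li (Gh (PlD g s l (Li v))) := hLc.eventually hψG
    have h2 : ∀ᶠ v in 𝓝 v0, v ∈ Metric.ball (((a, 0), wT) : En d) r := hball.mem_nhds hv0
    have h3 : ∀ᶠ v in 𝓝 v0, Gh v ∈ Metric.ball (((a, 0), wT) : En d) r :=
      hGc.eventually (hball.mem_nhds hv0)
    filter_upwards [h1, h2, h3] with v h4 h5 h6
    rw [h4, hp.Pl_Li v h5, hp.Pl_Li _ h6]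
  · intro v hv hvO
    have h1 : ψ (Li v) = Li v := hψB _ fun h => by
      have h2 : PlD g s l (Li v) ∈ O := h.2
      rw [hp.Pl_Li v hv] at h2
      exact hvO h2
    rw [h1, hp.Pl_Li v hv]

end Pool.Agent.Lib.H37D
end

-- from Lib.H37D.DK8
section

/-!
# H37D DK8 (port of H37N MK8): the open set of diffeomorphisms with near local representations
-/

open Set Filter Topology
open scoped ContDiff Manifold
open Pool.Agent.Lib.Helper37.ConjBorel Pool.Agent.Lib.H37C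

namespace Pool.Agent.Lib.H37D

open Pool.Agent.Lib.H37N

variable {d : ℕ}

theorem dk8_iter (F : Euc (d + 2) → Euc (d + 2)) (z : En d) (k : ℕ) (m : Fin k → En d) :
    iteratedFDeriv ℝ k (fun z => LLd d (F ((LLd d).symm z))) z m =
      LLd d (iteratedFDeriv ℝ k F ((LLd d).symm z) (fun i => (LLd d).symm (m i))) := by
  have h1 := ContinuousLinearEquiv.iteratedFDeriv_comp_left (𝕜 := ℝ) (f := F ∘ ((LLd d).symm : En d → Euc (d + 2)))
    (x := z) (LLd d) (i := k)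
  have h2 := ContinuousLinearEquiv.iteratedFDerivWithin_comp_right (𝕜 := ℝ) (LLd d).symm F
    (s := univ) uniqueDiffOn_univ (x := z) (mem_univ _) k
  rw [preimage_univ, iteratedFDerivWithin_univ, iteratedFDerivWithin_univ] at h2
  have h3 : (fun z => LLd d (F ((LLd d).symm z))) = ((LLd d) : Euc (d + 2) → En d) ∘ (F ∘ ((LLd d).symm : En d → Euc (d + 2))) := rfl
  rw [h3, h1, h2]
  rfl

variable {M : Type*} [TopologicalSpace M] [ChartedSpace (Euc (d + 2)) M]

/-- Proof: `domD e f` is open: `isOpen_expr` (ConjBorel/Proof) and the homeomorphism `LLd d`. -/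
theorem domD_open {e : OpenPartialHomeomorph M (Euc (d + 2))} {f : M → M} (hf : Continuous f) :
    IsOpen (domD e f) := by
  exact (isOpen_expr hf e e).preimage (LLd d).symm.continuous

/-- Proof. On `domD e f`, `locD e f = LLd d ∘ (e ∘ f ∘ e.symm) ∘ (LLd d).symm`; `contDiffOn_expr`. -/
theorem locD_smooth [IsManifold (𝓡 (d + 2)) ∞ M] {e : OpenPartialHomeomorph M (Euc (d + 2))}
    (he : e ∈ IsManifold.maximalAtlas (𝓡 (d + 2)) ∞ M) (f : DiffInf (d + 2) M) :
    ContDiffOn ℝ ∞ (locD e f) (domD e f) := by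
  have h1 := contDiffOn_expr f.contMDiff he he
  have h2 : ContDiffOn ℝ ∞ (fun z : En d => LLd d ((e ∘ f ∘ e.symm) ((LLd d).symm z))) (domD e f) :=
    (LLd d).contDiff.comp_contDiffOn (h1.comp (LLd d).symm.contDiff.contDiffOn fun z hz => hz)
  refine h2.congr fun z hz => ?_
  unfold locD
  rw [if_pos hz]
  rfl

/-- Proof. `e`, `e.symm`, `f`, `LLd d` are injective on the respective sets. -/
theorem locD_injOn {e : OpenPartialHomeomorph M (Euc (d + 2))} (f : DiffInf (d + 2) M) :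
    InjOn (locD e f) (domD e f) := by
  intro z hz z' hz' h
  unfold locD at h
  rw [if_pos hz, if_pos hz'] at h
  have h1 := e.injOn hz.2 hz'.2 ((LLd d).injective h)
  have h2 := e.symm.injOn hz.1 hz'.1 (f.injective h1)
  exact (LLd d).symm.injective h2

/-- Norms of derivatives of the local representations. Near `z ∈ domD e f ∩ domD e f'` the difference is
`LLd d ∘ (e ∘ f ∘ e.symm - e ∘ f' ∘ e.symm) ∘ (LLd d).symm`: `ContinuousLinearMap.iteratedFDeriv_comp_left`,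
`ContinuousLinearMap.iteratedFDeriv_comp_right` (or the `ContinuousLinearEquiv` versions), norms of compositions with linear maps;
`iteratedFDeriv_sub` for functions smooth near the point. `A = ‖LLd d‖ * (‖(LLd d).symm‖ + 1)^2`. -/
theorem locD_diff_le [IsManifold (𝓡 (d + 2)) ∞ M] {e : OpenPartialHomeomorph M (Euc (d + 2))}
    (he : e ∈ IsManifold.maximalAtlas (𝓡 (d + 2)) ∞ M) (f f' : DiffInf (d + 2) M) {z : En d} (hz : z ∈ domD e f)
    (hz' : z ∈ domD e f') {k R0 : ℕ} (hk : k ≤ R0) {η : ℝ}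
    (h : ‖iteratedFDeriv ℝ k (e ∘ f ∘ e.symm) ((LLd d).symm z) -
      iteratedFDeriv ℝ k (e ∘ f' ∘ e.symm) ((LLd d).symm z)‖ ≤ η) :
    ‖iteratedFDeriv ℝ k (locD e f) z - iteratedFDeriv ℝ k (locD e f') z‖ ≤
      ‖((LLd d) : Euc (d + 2) →L[ℝ] En d)‖ * (‖((LLd d).symm : En d →L[ℝ] Euc (d + 2))‖ + 1) ^ R0 * η := by
  have hη : 0 ≤ η := (norm_nonneg _).trans h
  have hev : ∀ (f : DiffInf (d + 2) M), z ∈ domD e f →
      (locD e f) =ᶠ[𝓝 z] fun z => LLd d ((e ∘ f ∘ e.symm) ((LLd d).symm z)) := by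
    intro f hz
    filter_upwards [(domD_open f.continuous).mem_nhds hz] with y hy
    unfold locD
    rw [if_pos hy]
    rfl
  have e1 := ((hev f hz).iteratedFDeriv ℝ k).eq_of_nhds
  have e2 := ((hev f' hz').iteratedFDeriv ℝ k).eq_of_nhds
  rw [e1, e2]
  refine ContinuousMultilinearMap.opNorm_le_bound (by positivity) fun m => ?_
  rw [sub_apply, dk8_iter, dk8_iter, ← map_sub,
    ← sub_apply]
  have h3 : ∀ x : Euc (d + 2), ‖LLd d x‖ ≤ ‖((LLd d) : Euc (d + 2) →L[ℝ] En d)‖ * ‖x‖ := fun x =>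
    ((LLd d) : Euc (d + 2) →L[ℝ] En d).le_opNorm x
  have h4 : ∀ x : En d, ‖(LLd d).symm x‖ ≤ ‖((LLd d).symm : En d →L[ℝ] Euc (d + 2))‖ * ‖x‖ := fun x =>
    ((LLd d).symm : En d →L[ℝ] Euc (d + 2)).le_opNorm x
  have h5 : ∏ i, ‖(LLd d).symm (m i)‖ ≤ (‖((LLd d).symm : En d →L[ℝ] Euc (d + 2))‖ + 1) ^ R0 * ∏ i, ‖m i‖ := by
    have h6 : ∏ i, ‖(LLd d).symm (m i)‖ ≤ ∏ i, ((‖((LLd d).symm : En d →L[ℝ] Euc (d + 2))‖ + 1) * ‖m i‖) := by
      refine Finset.prod_le_prod (fun i _ => norm_nonneg _) fun i _ => ?_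
      refine (h4 (m i)).trans ?_
      have := norm_nonneg (m i)
      nlinarith
    rw [Finset.prod_mul_distrib, Finset.prod_const, Finset.card_univ, Fintype.card_fin] at h6
    refine h6.trans ?_
    have h7 : (‖((LLd d).symm : En d →L[ℝ] Euc (d + 2))‖ + 1) ^ k ≤ (‖((LLd d).symm : En d →L[ℝ] Euc (d + 2))‖ + 1) ^ R0 :=
      pow_le_pow_right₀ (by linarith [norm_nonneg ((LLd d).symm : En d →L[ℝ] Euc (d + 2))]) hk
    exact mul_le_mul_of_nonneg_right h7 (Finset.prod_nonneg fun i _ => norm_nonneg _)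
  refine (h3 _).trans ?_
  have h8 := ContinuousMultilinearMap.le_opNorm (iteratedFDeriv ℝ k (e ∘ f ∘ e.symm) ((LLd d).symm z) -
      iteratedFDeriv ℝ k (e ∘ f' ∘ e.symm) ((LLd d).symm z)) (fun i => (LLd d).symm (m i))
  calc _ ≤ ‖((LLd d) : Euc (d + 2) →L[ℝ] En d)‖ * (η * ((‖((LLd d).symm : En d →L[ℝ] Euc (d + 2))‖ + 1) ^ R0 * ∏ i, ‖m i‖)) := by
        refine mul_le_mul_of_nonneg_left (h8.trans ?_) (norm_nonneg _)
        refine mul_le_mul h h5 (Finset.prod_nonneg fun i _ => norm_nonneg _) hη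
    _ = _ := by ring


theorem locD_symm {e : OpenPartialHomeomorph M (Euc (d + 2))} (f f' : DiffInf (d + 2) M)
    (hff : ∀ x, f' (f x) = x) {z : En d} (hz : z ∈ domD e f) :
    locD e f z ∈ domD e f' ∧ locD e f' (locD e f z) = z := by
  have h1 : locD e f z = LLd d (e (f (e.symm ((LLd d).symm z)))) := if_pos hz
  have h2 : e.symm ((LLd d).symm (locD e f z)) = f (e.symm ((LLd d).symm z)) := by
    rw [h1, ContinuousLinearEquiv.symm_apply_apply, e.left_inv hz.2]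
  have h3 : locD e f z ∈ domD e f' := by
    refine ⟨?_, ?_⟩
    · rw [h1, ContinuousLinearEquiv.symm_apply_apply]
      exact e.map_source hz.2
    · rw [h2, hff]
      exact e.map_target hz.1
  refine ⟨h3, ?_⟩
  have h4 : locD e f' (locD e f z) = LLd d (e (f' (e.symm ((LLd d).symm (locD e f z))))) := if_pos h3
  rw [h4, h2, hff, e.right_inv hz.1, ContinuousLinearEquiv.apply_symm_apply]

theorem locD_bij [IsManifold (𝓡 (d + 2)) ∞ M] {e : OpenPartialHomeomorph M (Euc (d + 2))}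
    (he : e ∈ IsManifold.maximalAtlas (𝓡 (d + 2)) ∞ M) (f : DiffInf (d + 2) M) {z : En d}
    (hz : z ∈ domD e f) : Function.Bijective (fderiv ℝ (locD e f) z) := by
  have hcd : ∀ (f : DiffInf (d + 2) M) (z : En d), z ∈ domD e f → DifferentiableAt ℝ (locD e f) z :=
    fun f z hz => ((locD_smooth he f).contDiffAt ((domD_open f.continuous).mem_nhds hz)).differentiableAt
      (by simp)
  obtain ⟨hy, hyz⟩ := locD_symm f f.symm (fun x => f.symm_apply_apply x) hz
  have key : ∀ (f f' : DiffInf (d + 2) M), (∀ x, f' (f x) = x) → ∀ z ∈ domD e f,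
      (fderiv ℝ (locD e f') (locD e f z)).comp (fderiv ℝ (locD e f) z) =
        ContinuousLinearMap.id ℝ (En d) := by
    intro f f' hff z hz
    obtain ⟨h1, -⟩ := locD_symm f f' hff hz
    rw [← fderiv_comp z (hcd f' _ h1) (hcd f z hz)]
    have h2 : locD e f' ∘ locD e f =ᶠ[𝓝 z] id := by
      filter_upwards [(domD_open f.continuous).mem_nhds hz] with y hy
      exact (locD_symm f f' hff hy).2
    rw [h2.fderiv_eq, fderiv_id]
  have h1 := key f f.symm (fun x => f.symm_apply_apply x) z hz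
  have h2 := key f.symm f (fun x => f.apply_symm_apply x) _ hy
  rw [hyz] at h2
  refine Function.bijective_iff_has_inverse.2 ⟨fderiv ℝ (locD e f.symm) (locD e f z), fun v => ?_, fun v => ?_⟩
  · exact DFunLike.congr_fun h1 v
  · exact DFunLike.congr_fun h2 v

/-- closeness of the local representations to a compactly supported diffeomorphism on a compact set -/
theorem exists_V_closeD [IsManifold (𝓡 (d + 2)) ∞ M] {e : OpenPartialHomeomorph M (Euc (d + 2))} {r : ℝ}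
    (he : BigCD e r) {Fs : En d → En d} (hinj : Function.Injective Fs)
    (hsupp : ∀ z, r ≤ ‖z‖ → Fs z = z) {fs : DiffInf (d + 2) M} (hfs : ∀ m, fs m = ext e (cjd Fs) m)
    {K : Set (En d)} (hK : IsCompact K) (hKr : ∀ z ∈ K, ‖z‖ < r) (R0 : ℕ) {ε : ℝ} (hε : 0 < ε) :
    ∃ V : Set (DiffInf (d + 2) M), IsOpen V ∧ fs ∈ V ∧
      ∀ f ∈ V, K ⊆ domD e f ∧ ∀ k ≤ R0, ∀ z ∈ K,
        ‖iteratedFDeriv ℝ k (locD e f) z - iteratedFDeriv ℝ k Fs z‖ ≤ ε := by
  have hle : ∀ z, ‖z‖ ≤ r → ‖Fs z‖ ≤ r := by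
    intro z hz
    by_contra hcon
    have h1 := hinj (hsupp (Fs z) (not_le.1 hcon).le)
    rw [h1] at hcon
    exact hcon hz
  have hdom : ∀ z, ‖z‖ ≤ r → z ∈ domD e fs ∧ locD e fs z = Fs z := by
    intro z hz
    have h1 : (LLd d).symm z ∈ e.target := he.big z hz
    have h2 : (LLd d).symm (Fs z) ∈ e.target := he.big _ (hle z hz)
    have h3 : fs (e.symm ((LLd d).symm z)) = e.symm ((LLd d).symm (Fs z)) := by
      rw [hfs, ext_of_mem (e.map_target h1), e.right_inv h1]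
      unfold cjd
      rw [ContinuousLinearEquiv.apply_symm_apply]
    have h4 : z ∈ domD e fs := ⟨h1, by rw [h3]; exact e.map_target h2⟩
    refine ⟨h4, ?_⟩
    unfold locD
    rw [if_pos h4, h3, e.right_inv h2, ContinuousLinearEquiv.apply_symm_apply]
  have hevF : ∀ z ∈ K, locD e fs =ᶠ[𝓝 z] Fs := by
    intro z hz
    have h1 : z ∈ Metric.ball (0 : En d) r := by
      rw [mem_ball_zero_iff]
      exact hKr z hz
    filter_upwards [Metric.isOpen_ball.mem_nhds h1] with y hy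
    rw [mem_ball_zero_iff] at hy
    exact (hdom y hy.le).2
  set A : ℝ := ‖((LLd d) : Euc (d + 2) →L[ℝ] En d)‖ *
    (‖((LLd d).symm : En d →L[ℝ] Euc (d + 2))‖ + 1) ^ R0 with hA
  have hA0 : 0 ≤ A := by positivity
  set ε' : ℝ := ε / (A + 1) with hε'
  have hε0 : 0 < ε' := by positivity
  have hAε : A * ε' ≤ ε := by
    rw [hε', mul_div_assoc', div_le_iff₀ (by positivity)]
    nlinarith
  set C : Set (Euc (d + 2)) := (LLd d).symm '' K with hC
  have hCc : IsCompact C := hK.image (LLd d).symm.continuous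
  have hCt : C ⊆ e.target := by
    rintro _ ⟨z, hz, rfl⟩
    exact he.big z (hKr z hz).le
  have hCs : ∀ x ∈ C, fs (e.symm x) ∈ e.source := by
    rintro _ ⟨z, hz, rfl⟩
    exact (hdom z (hKr z hz).le).1.2
  have hopen : ∀ k : ℕ, IsOpen (basicSet fs e e C k ε') := fun k =>
    TopologicalSpace.isOpen_generateFrom_of_mem
      ⟨fs, e, e, C, k, ε', he.mem, he.mem, hCc, hCt, hCs, hε0, rfl⟩
  have hmem : ∀ k : ℕ, fs ∈ basicSet fs e e C k ε' := fun k => mem_basicSet_self hε0 hCs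
  refine ⟨⋂ k ∈ Finset.range (R0 + 1), basicSet fs e e C k ε',
    isOpen_biInter_finset fun k _ => hopen k, mem_iInter₂.2 fun k _ => hmem k, ?_⟩
  intro f hf
  rw [mem_iInter₂] at hf
  have hsub : K ⊆ domD e f := by
    intro z hz
    exact ⟨hCt ⟨z, hz, rfl⟩, (hf 0 (by simp)).1 _ ⟨z, hz, rfl⟩⟩
  refine ⟨hsub, fun k hk z hz => ?_⟩
  have h1 := ((hf k (Finset.mem_range.2 (Nat.lt_succ_of_le hk))).2 _ ⟨z, hz, rfl⟩).le
  have h2 := locD_diff_le he.mem f fs (hsub hz) (hdom z (hKr z hz).le).1 hk h1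
  rw [((hevF z hz).iteratedFDeriv ℝ k).eq_of_nhds] at h2
  exact h2.trans hAε

theorem dk8_S {z : En d} (hz : z ∈ Dd d) : ‖z‖ ≤ 2 := by
  have h1 : ‖z.1‖ ≤ 2 ∧ ‖z.2‖ ≤ 1 := by
    rcases hz with (hz | hz) | hz
    · exact ⟨mk8_S (Or.inl (Or.inl hz.1)), mem_closedBall_zero_iff.1 hz.2⟩
    · exact ⟨mk8_S (Or.inl (Or.inr hz.1)), mem_closedBall_zero_iff.1 hz.2⟩
    · exact ⟨mk8_S (Or.inr hz.1), mem_closedBall_zero_iff.1 hz.2⟩
  rw [Prod.norm_def]
  exact max_le h1.1 (h1.2.trans (by norm_num))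

theorem dk8_compact : IsCompact (Dd d) := by
  have hB : IsCompact (BW d) := isCompact_closedBall _ _
  exact (((isCompact_Icc.prod isCompact_Icc).prod hB).union
    ((isCompact_Icc.prod isCompact_Icc).prod hB)).union ((isCompact_Icc.prod isCompact_Icc).prod hB)

theorem dk8_fderiv {f g : En d → En d} {z : En d} {ε : ℝ} (hε : 0 ≤ ε)
    (h : ‖iteratedFDeriv ℝ 1 f z - iteratedFDeriv ℝ 1 g z‖ ≤ ε) : ‖fderiv ℝ f z - fderiv ℝ g z‖ ≤ ε := by
  refine ContinuousLinearMap.opNorm_le_bound _ hε fun v => ?_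
  have h2 := ContinuousMultilinearMap.le_opNorm (iteratedFDeriv ℝ 1 f z - iteratedFDeriv ℝ 1 g z)
    (fun _ => v)
  rw [sub_apply, iteratedFDeriv_one_apply, iteratedFDeriv_one_apply] at h2
  simp only [Finset.univ_unique, Finset.prod_singleton] at h2
  rw [sub_apply]
  exact h2.trans (mul_le_mul_of_nonneg_right h (norm_nonneg _))

theorem dk8_zero {f g : En d → En d} {z : En d} {ε : ℝ}
    (h : ‖iteratedFDeriv ℝ 0 f z - iteratedFDeriv ℝ 0 g z‖ ≤ ε) : ‖f z - g z‖ ≤ ε := by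
  have h2 := ContinuousMultilinearMap.le_opNorm (iteratedFDeriv ℝ 0 f z - iteratedFDeriv ℝ 0 g z)
    (fun i => Fin.elim0 i)
  rw [sub_apply, iteratedFDeriv_zero_apply, iteratedFDeriv_zero_apply] at h2
  simp only [Finset.univ_eq_empty, Finset.prod_empty, mul_one] at h2
  exact h2.trans h

/-- a `C²`-close local representation is `NearS` -/
theorem nearS_loc [IsManifold (𝓡 (d + 2)) ∞ M] {e : OpenPartialHomeomorph M (Euc (d + 2))} {r : ℝ}
    (he : BigCD e r) {Fs : En d → En d} (hV : ∀ i, ∀ᶠ z in 𝓝ˢ (VVd d i), Fs z = AffD d i z)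
    (hF : ∀ᶠ z in 𝓝ˢ (FFd d), Fs z = FoldD d z) {f : DiffInf (d + 2) M} (hsub : Dd d ⊆ domD e f)
    (h : ∀ k ≤ 2, ∀ z ∈ Dd d, ‖iteratedFDeriv ℝ k (locD e f) z - iteratedFDeriv ℝ k Fs z‖ ≤ en d) :
    NearS (locD e f) := by
  refine nearS_of_close hV hF (O := domD e f) (domD_open f.continuous) hsub (locD_smooth he.mem f)
    (locD_injOn f) (fun z hz => locD_bij he.mem f hz) ?_ ?_ ?_
  · intro z hz
    exact dk8_zero (h 0 (by norm_num) z hz)
  · intro z hz
    exact dk8_fderiv (en_pos d).le (h 1 (by norm_num) z hz)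
  · intro i z hz
    exact h 2 le_rfl z (dk7_VD i hz)

/-- Port of `exists_V` (MK8), with a further compact set `K` on which the closeness (any order `R0`, any `ε`) holds for all `f ∈ V`. -/
theorem exists_VD [IsManifold (𝓡 (d + 2)) ∞ M] {e : OpenPartialHomeomorph M (Euc (d + 2))} {r : ℝ}
    (he : BigCD e r) (hr : 4 ≤ r) {Fs : En d → En d} (hinj : Function.Injective Fs)
    (hsupp : ∀ z, r ≤ ‖z‖ → Fs z = z) (hV : ∀ i, ∀ᶠ z in 𝓝ˢ (VVd d i), Fs z = AffD d i z)
    (hF : ∀ᶠ z in 𝓝ˢ (FFd d), Fs z = FoldD d z)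
    {fs : DiffInf (d + 2) M} (hfs : ∀ m, fs m = ext e (cjd Fs) m)
    {K : Set (En d)} (hK : IsCompact K) (hKr : ∀ z ∈ K, ‖z‖ < r) (R0 : ℕ) {ε : ℝ} (hε : 0 < ε) :
    ∃ V : Set (DiffInf (d + 2) M), IsOpen V ∧ fs ∈ V ∧
      ∀ f ∈ V, NearS (locD e f) ∧ Dd d ∪ K ⊆ domD e f ∧ ∀ k ≤ R0, ∀ z ∈ K,
        ‖iteratedFDeriv ℝ k (locD e f) z - iteratedFDeriv ℝ k Fs z‖ ≤ ε := by
  obtain ⟨V1, ho1, hm1, h1⟩ := exists_V_closeD he hinj hsupp hfs dk8_compact
    (fun z hz => lt_of_le_of_lt (dk8_S hz) (by linarith)) 2 (en_pos d)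
  obtain ⟨V2, ho2, hm2, h2⟩ := exists_V_closeD he hinj hsupp hfs hK hKr R0 hε
  refine ⟨V1 ∩ V2, ho1.inter ho2, ⟨hm1, hm2⟩, fun f hf => ⟨?_, union_subset (h1 f hf.1).1 (h2 f hf.2).1,
    (h2 f hf.2).2⟩⟩
  exact nearS_loc he hV hF (h1 f hf.1).1 (h1 f hf.1).2

end Pool.Agent.Lib.H37D
end

-- from Lib.H37D.MDefsD
section

/-!
# H37D, section M: the interface of the model diffeomorphism of `En d`
-/

open Set Filter Topology
open scoped ContDiff Manifold
open Pool.Agent.Lib.Helper37.ConjBorel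

namespace Pool.Agent.Lib.H37D

open Pool.Agent.Lib.H37N

noncomputable section

/-- the vertical strips, widened by `10^-6` -/
def VVm (i : Sy) : Set Pt :=
  Icc (al i - del - 1 / 10 ^ 6) (al i + pw i + del + 1 / 10 ^ 6) ×ˢ Icc (-del - 1 / 10 ^ 6) (1 + del + 1 / 10 ^ 6)

/-- the fold region, widened by `10^-6` -/
def FFm : Set Pt :=
  Icc (xc - u0 - 1 / 10 ^ 6) (xc + u0 + 1 / 10 ^ 6) ×ˢ Icc (-del - 1 / 10 ^ 6) (1 + del + 1 / 10 ^ 6)

/-- the model diffeomorphism `F` of `En d` with inverse `B`: the model maps near the strips and the fold, identity far away,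
and a source `p` (`B` is the contraction with the factor `1/2` on a ball around `p`), which captures, under `B`,
the points that leave the thin neighbourhood of the plane -/
structure ModelD {d : ℕ} (F B : En d → En d) (p : En d) (rho r : ℝ) : Prop where
  smooth : ContDiff ℝ ∞ F
  smooth_B : ContDiff ℝ ∞ B
  left : ∀ z, B (F z) = z
  right : ∀ z, F (B z) = z
  supp : ∀ z, r ≤ ‖z‖ → F z = z
  hV : ∀ i, ∀ z : En d, z.1 ∈ VVm i → ‖z.2‖ ≤ 21 / 20 → F z = AffD d i z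
  hF : ∀ z : En d, z.1 ∈ FFm → ‖z.2‖ ≤ 21 / 20 → F z = FoldD d z
  rho_pos : 0 < rho
  sub : Metric.closedBall p rho ⊆ Metric.ball 0 r
  lin : ∀ z ∈ Metric.closedBall p rho, B z = p + (1 / 2 : ℝ) • (z - p)
  far : Disjoint (Metric.closedBall p rho) (Omd d)
  exit : ∀ z : En d, z.1.1 ∈ Icc (-del - 1 / 10 ^ 6) (1 + del + 1 / 10 ^ 6) →
    z.1.2 ∈ Icc (-del - 1 / 10 ^ 6) (1 + del + 1 / 10 ^ 6) → 5 / 10 ^ 8 ≤ ‖z.2‖ → ‖z.2‖ ≤ 1 →
    B^[3] z ∈ Metric.ball p rho

variable {d : ℕ} {M : Type*} [TopologicalSpace M] [ChartedSpace (Euc (d + 2)) M]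

/-- `p` is a source of `f`, it attracts the backward orbits of all points of the centre spots off the centre -/
structure SrcAt (e : OpenPartialHomeomorph M (Euc (d + 2))) (f : DiffInf (d + 2) M) (p : M) : Prop where
  fix : f p = p
  mem : p ∈ e.source
  out : LLd d (e p) ∉ Omd d
  att : ∃ U ∈ 𝓝 p, ∀ W ∈ 𝓝 p, ∃ N : ℕ, ∀ k ≥ N, ∀ z ∈ U, (⇑f.symm)^[k] z ∈ W
  src : ∀ (m : ℕ) (Θ c : En d → En d) (A : Pt → Wd d →L[ℝ] Wd d), CSpotD (locD e f) m Θ c A →
    ∀ v w, ‖v‖ < 4 → ‖w‖ < 4 → w ≠ 0 →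
      Tendsto (fun k => (⇑f.symm)^[k] (e.symm ((LLd d).symm (Θ (v, w))))) atTop (𝓝 p)

end

end Pool.Agent.Lib.H37D
end
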