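import Pool.Agent.Lib.H1M.FF.M003
import Pool.Agent.Lib.H1M.FF.M014
import Pool.Agent.Lib.H1M.FF.M020
import Pool.Agent.Lib.H1M.FF.M034
import Pool.Agent.Lib.H1M.FF.M036

/-! Merged copies (to shorten the build) of Lib.H37D.FDefs, Lib.H37P.Z20, Lib.H37D.DZ20, Lib.H37D.DI2b, Lib.H37D.DP05, Lib.H37P.Z22. -/

-- from Lib.H37D.FDefs
section

/-!
# H37D: flat arcs and the blocks of Stage II (definitions)

As in H37P/KDefs and H37P/ZDefs (`nb`, `dj`, `ttc`, `qpoly`, `qt`, `Qj` are reused), with the strongly stable coordinates.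
-/

open Set Filter Topology Asymptotics
open scoped ContDiff

namespace Pool.Agent.Lib.H37D

open Pool.Agent.Lib.H37N

noncomputable section

variable {d : ℕ}

/-- local form of the transition along a flat arc of the unstable axis which lies on the stable
hyperplane: for `v = ((ξ0 + ζ, t), w0 + η)`:
`TTD v = ((a + A v, Nn ((ξ0,w0), a + A v) + ζ Mh + Mw η), wT + Aw v)`, `Mh, Mw` at `((ξ0,w0), ((ζ,t),η))` -/
structure FlatD (g : En d → En d) (s : FrD d) (b a : ℝ) (wT : Wd d) (k l : ℕ) (A : En d → ℝ)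
    (Aw : En d → Wd d) (Nn : (ℝ × Wd d) × ℝ → ℝ) (Mh : (ℝ × Wd d) × En d → ℝ)
    (Mw : (ℝ × Wd d) × En d → (Wd d →L[ℝ] ℝ)) (r : ℝ) : Prop where
  r_pos : 0 < r
  smA : ContDiff ℝ ∞ A
  smAw : ContDiff ℝ ∞ Aw
  smN : ContDiff ℝ ∞ Nn
  smM : ContDiff ℝ ∞ Mh
  smMw : ContDiff ℝ ∞ Mw
  fst : ∀ v : En d, ‖v‖ < r → (TTD g s b k l v).1.1 = a + A v
  thd : ∀ v : En d, ‖v‖ < r → (TTD g s b k l v).2 = wT + Aw v
  snd : ∀ (ξ0 ζ t : ℝ) (w0 η : Wd d), |ξ0| < r → |ζ| < r → |t| < r → ‖w0‖ < r → ‖η‖ < r →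
    (TTD g s b k l ((ξ0 + ζ, t), w0 + η)).1.2 =
      Nn ((ξ0, w0), a + A ((ξ0 + ζ, t), w0 + η)) + ζ * Mh ((ξ0, w0), ((ζ, t), η)) +
        Mw ((ξ0, w0), ((ζ, t), η)) η
  N0 : ∀ X : ℝ, |X - a| < r → Nn ((0, 0), X) = 0
  A0 : A ((0, 0), 0) = 0
  Aw0 : Aw ((0, 0), 0) = 0
  neg : deriv (fun t => A ((0, t), 0)) 0 * Mh ((0, 0), ((0, 0), 0)) < 0

/-- the Jacobian of the ideal block, up to a constant factor -/
def hGD (A : En d → ℝ) (Mh : (ℝ × Wd d) × En d → ℝ) (U : ℝ) : ℝ :=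
  -(deriv (fun t => A ((0, t), 0)) U * Mh ((0, 0), ((0, U), 0)))

/-- the argument of `Mh, Mw` in the block -/
def argM (f : PFD d) (b B0 dS : ℝ) (q : EP d × En d) : (ℝ × Wd d) × En d :=
  ((q.1.1 4, q.1.2 2), ((q.1.1 3 * XiFD f b B0 q.1 q.2, etaFD f b q.1 q.2),
    q.1.1 3 • OmFD f b dS q.1 q.2))

/-- first coordinate of the block -/
def bXD (f : PFD d) (a b B0 dS : ℝ) (A : En d → ℝ) (q : EP d × En d) : ℝ :=
  a + A (exD f b B0 dS (q.1.1 3) q.1 q.2)

/-- second coordinate of the block (before the correction) -/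
def bUD (f : PFD d) (b B0 dS : ℝ) (Mh : (ℝ × Wd d) × En d → ℝ)
    (Mw : (ℝ × Wd d) × En d → (Wd d →L[ℝ] ℝ)) (q : EP d × En d) : ℝ :=
  XiFD f b B0 q.1 q.2 * Mh (argM f b B0 dS q) + Mw (argM f b B0 dS q) (OmFD f b dS q.1 q.2)

/-- strongly stable coordinates of the block -/
def bWD (f : PFD d) (b B0 dS : ℝ) (wT : Wd d) (Aw : En d → Wd d) (q : EP d × En d) : Wd d :=
  wT + Aw (exD f b B0 dS (q.1.1 3) q.1 q.2)

/-- abstract blocks: smooth functions of (parameters, `((X,U),w)`) with the ideal values at the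
parameter `0` -/
structure BlkD {P' : Type} [NormedAddCommGroup P'] [NormedSpace ℝ P'] (bX bU : P' × En d → ℝ)
    (bW : P' × En d → Wd d) (a c1 : ℝ) (wT : Wd d) (h Ga : ℝ → ℝ) (k : ℝ → Wd d) : Prop where
  smX : ContDiff ℝ ∞ bX
  smU : ContDiff ℝ ∞ bU
  smW : ContDiff ℝ ∞ bW
  smh : ContDiff ℝ ∞ h
  smG : ContDiff ℝ ∞ Ga
  smk : ContDiff ℝ ∞ k
  h0 : h 0 = 0
  k0 : k 0 = 0
  zX : ∀ z : En d, bX (0, z) = a + h z.1.2
  zU : ∀ z : En d, bU (0, z) = c1 * z.1.1 * Ga z.1.2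
  zW : ∀ z : En d, bW (0, z) = wT + k z.1.2

/-- the block `j` with its correction `Q j`, from abstract block functions -/
def stpD {P' : Type} (bX bU : P' × En d → ℝ) (bW : P' × En d → Wd d) (Q : ℕ → ℝ → ℝ) (ε : P')
    (j : ℕ) (z : En d) : En d :=
  ((bX (ε, z), bU (ε, z) + Q j (bX (ε, z))), bW (ε, z))

/-- the composition of the first `j` blocks -/
def stoD {P' : Type} (bX bU : P' × En d → ℝ) (bW : P' × En d → Wd d) (Q : ℕ → ℝ → ℝ) (ε : P') :
    ℕ → En d → En d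
  | 0, z => z
  | j + 1, z => stpD bX bU bW Q ε j (stoD bX bU bW Q ε j z)

/-- the zoom at the block `j`: `((x,u),ϖ) ↦ ((a + ρ hs (dj j + x), ρ (dj (j+1) + u)), wT + ρ (dj j c + ϖ))` -/
def zmD (e : ℕ) (a hs ρ : ℝ) (wT c : Wd d) (j : ℕ) (z : En d) : En d :=
  ((a + ρ * hs * (dj e j + z.1.1), ρ * (dj e (j + 1) + z.1.2)), wT + ρ • (dj e j • c + z.2))

/-- parameters of the perturbation: `(ξ⁰, w⁰, 1/μ_P^n, ε1, α_P^n, 1/E, q/E)` -/
abbrev PSD (e d : ℕ) := ℝ × Wd d × ℝ × ℝ × Wd d × ℝ × QQ (e + 3) e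

/-- the shear at the place of the block `j` -/
def phSD (e : ℕ) (s : FrD d) (f : PFD d) (Nn : (ℝ × Wd d) × ℝ → ℝ) (a b hs c0 τ ρ : ℝ) (j : ℕ)
    (p : PSD e d) (X : ℝ) (w : Wd d) : ℝ :=
  -Nn ((p.1, p.2.1), X) + p.2.2.1 * (s.uS + f.Th (p.2.2.2.1 * X, mulw p.2.2.2.2.1 w)) +
    p.2.2.2.2.2.1 * (b - c0 + ρ * qt e τ 0 j ((X - a) / (ρ * hs) - dj e (j + 1))) +
    ρ * qpoly e p.2.2.2.2.2.2 j ((X - a) / (ρ * hs) - dj e (j + 1))

/-- the parameter of the perturbation for the pass with `n, m` turns and the polynomial `q` -/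
def parS (g : En d → En d) (s : FrD d) (e n m : ℕ) (q : QQ (e + 3) e) : PSD e d :=
  (xi0D s m, w0D s m, (s.mu Sy.P ^ n)⁻¹, e1D s n, s.al Sy.P ^ n, (EED g s n m)⁻¹,
    (EED g s n m)⁻¹ • q)

end

end Pool.Agent.Lib.H37D
end

-- from Lib.H37P.Z20
section

/-!
# H37N Z20 (S/M): the blocks at `ε = 0`, smoothness

`etaF f b 0 0 X U = U` because `W(0,0) = 1`; `XiF f b 0 0 0 B0 X U = B0 X Y1(0)`. The functions are compositions of
smooth ones. `dj`: `∑_{j<N} dj (j+1) = 0`, `dj (j+N) = dj j`, `|dj i - dj j| ≥ 1` for `i ≢ j` mod `N`.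
-/

open Set Filter Topology Asymptotics
open scoped ContDiff

namespace Pool.Agent.Lib.H37N





theorem dj_add (e j : ℕ) : dj e (j + nb e) = dj e j := by
  unfold dj
  rw [Nat.add_mod_right]

theorem sum_dj (e : ℕ) : ∑ j ∈ Finset.range (nb e), dj e (j + 1) = 0 := by
  have h1 : ∑ j ∈ Finset.range (nb e), dj e (j + 1) = ∑ j ∈ Finset.range (nb e), dj e j := by
    have h2 := Finset.sum_range_succ (dj e) (nb e)
    have h3 := Finset.sum_range_succ' (dj e) (nb e)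
    have h4 : dj e (nb e) = dj e 0 := by
      have := dj_add e 0
      rwa [zero_add] at this
    rw [h4] at h2
    linarith
  rw [h1]
  have h5 : ∀ j ∈ Finset.range (nb e), dj e j = (j : ℝ) - ((nb e : ℝ) - 1) / 2 := by
    intro j hj
    unfold dj
    rw [Nat.mod_eq_of_lt (Finset.mem_range.1 hj)]
  rw [Finset.sum_congr rfl h5, Finset.sum_sub_distrib, Finset.sum_const, Finset.card_range,
    nsmul_eq_mul]
  have h6 : ∀ n : ℕ, ∑ j ∈ Finset.range n, (j : ℝ) = n * ((n : ℝ) - 1) / 2 := by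
    intro n
    induction n with
    | zero => simp
    | succ n ih =>
      rw [Finset.sum_range_succ, ih]
      push_cast
      ring
  rw [h6]
  ring

theorem dj_sep (e : ℕ) {i j : ℕ} (h : i % nb e ≠ j % nb e) : 1 ≤ |dj e i - dj e j| := by
  have h1 : dj e i - dj e j = ((((i % nb e : ℕ) : ℤ) - ((j % nb e : ℕ) : ℤ) : ℤ) : ℝ) := by
    unfold dj
    rw [Int.cast_sub, Int.cast_natCast, Int.cast_natCast]
    ring
  rw [h1]
  have h2 : ((i % nb e : ℕ) : ℤ) - ((j % nb e : ℕ) : ℤ) ≠ 0 := by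
    intro h3
    apply h
    omega
  have h4 : 1 ≤ |((i % nb e : ℕ) : ℤ) - ((j % nb e : ℕ) : ℤ)| := Int.one_le_abs h2
  exact_mod_cast h4

end Pool.Agent.Lib.H37N
end

-- from Lib.H37D.DZ20
section

/-! # H37D, chunk DZ20 (S/M): the blocks at `ε = 0`, smoothness -/

open Set Filter Topology Asymptotics
open scoped ContDiff

namespace Pool.Agent.Lib.H37D

open Pool.Agent.Lib.H37N

variable {d : ℕ}

/-- PROOF. `mulw a w` is bilinear: componentwise products (`contDiff_pi`). -/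
theorem contDiff_mulw {X : Type} [NormedAddCommGroup X] [NormedSpace ℝ X] {f g : X → Wd d} (hf : ContDiff ℝ ∞ f)
    (hg : ContDiff ℝ ∞ g) : ContDiff ℝ ∞ (fun x => mulw (f x) (g x)) := by
  unfold mulw
  rw [contDiff_pi] at hf hg ⊢
  exact fun k => (hf k).mul (hg k)

theorem mulw_zero_left (w : Wd d) : mulw 0 w = 0 := by
  ext k
  simp [mulw]


/-- the components of the parameter are smooth -/
theorem dz20_eps {X : Type} [NormedAddCommGroup X] [NormedSpace ℝ X] {f : X → EP d} (hf : ContDiff ℝ ∞ f) (i : Fin 6)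
    (j : Fin 7) : ContDiff ℝ ∞ (fun x => (f x).1 i) ∧ ContDiff ℝ ∞ (fun x => (f x).2 j) := by
  have h1 : ContDiff ℝ ∞ (fun x => (f x).1) := contDiff_fst.comp hf
  have h2 : ContDiff ℝ ∞ (fun x => (f x).2) := contDiff_snd.comp hf
  exact ⟨(contDiff_pi.1 h1) i, (contDiff_pi.1 h2) j⟩

/-- PROOF. Composition of smooth functions: `dz20_eps` for `Prod.fst`, `contDiff_mulw`, products, `ContDiff.clm_apply` for `f.Y3 _ _`. -/
theorem contDiff_argF (b : ℝ) : ContDiff ℝ ∞ (fun q : EP d × En d => argF b q.1 q.2) := by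
  unfold argF
  have h0 := (dz20_eps (X := EP d × En d) (f := Prod.fst) contDiff_fst 0 0)
  have h1 := (dz20_eps (X := EP d × En d) (f := Prod.fst) contDiff_fst 1 0)
  have x1 : ContDiff ℝ ∞ (fun q : EP d × En d => q.2.1.1) := by fun_prop
  have x2 : ContDiff ℝ ∞ (fun q : EP d × En d => q.2.1.2) := by fun_prop
  have x3 : ContDiff ℝ ∞ (fun q : EP d × En d => q.2.2) := by fun_prop
  exact ((h0.1.mul x1).prodMk (h1.1.mul (x2.add contDiff_const))).prodMk (contDiff_mulw h0.2 x3)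

theorem contDiff_XiFD {f : PFD d} (hf : SmPFD f) (b B0 : ℝ) :
    ContDiff ℝ ∞ (fun q : EP d × En d => XiFD f b B0 q.1 q.2) := by
  unfold XiFD
  have hE : ∀ i : Fin 6, ContDiff ℝ ∞ (fun q : EP d × En d => q.1.1 i) := fun i =>
    (dz20_eps (X := EP d × En d) (f := Prod.fst) contDiff_fst i 0).1
  have hV : ∀ j : Fin 7, ContDiff ℝ ∞ (fun q : EP d × En d => q.1.2 j) := fun j =>
    (dz20_eps (X := EP d × En d) (f := Prod.fst) contDiff_fst 0 j).2
  have x1 : ContDiff ℝ ∞ (fun q : EP d × En d => q.2.1.1) := by fun_prop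
  have x2 : ContDiff ℝ ∞ (fun q : EP d × En d => q.2.1.2) := by fun_prop
  have x3 : ContDiff ℝ ∞ (fun q : EP d × En d => q.2.2) := by fun_prop
  have y1 : ContDiff ℝ ∞ (fun q : EP d × En d => f.Y1 (q.1.1 0 * q.2.1.1, mulw (q.1.2 0) q.2.2)) :=
    hf.smY1.comp (((hE 0).mul x1).prodMk (contDiff_mulw (hV 0) x3))
  have y2 : ContDiff ℝ ∞ (fun q : EP d × En d => f.Y2 (argF b q.1 q.2)) :=
    hf.smY2.comp (contDiff_argF b)
  have y3 : ContDiff ℝ ∞ (fun q : EP d × En d => f.Y3 (mulw (q.1.2 0) q.2.2) (mulw (q.1.2 1) q.2.2)) :=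
    (hf.smY3.comp (contDiff_mulw (hV 0) x3)).clm_apply (contDiff_mulw (hV 1) x3)
  exact (((((contDiff_const.add (hE 5)).mul x1).mul y1)).add
    (((hE 2).mul (x2.add contDiff_const)).mul y2)).add y3

theorem contDiff_etaFD {f : PFD d} (hf : SmPFD f) (b : ℝ) :
    ContDiff ℝ ∞ (fun q : EP d × En d => etaFD f b q.1 q.2) := by
  unfold etaFD
  have x2 : ContDiff ℝ ∞ (fun q : EP d × En d => q.2.1.2) := by fun_prop
  have y2 : ContDiff ℝ ∞ (fun q : EP d × En d => f.W (argF b q.1 q.2)) :=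
    hf.smW.comp (contDiff_argF b)
  exact ((x2.add contDiff_const).mul y2).sub contDiff_const

theorem contDiff_OmFD {f : PFD d} (hf : SmPFD f) (b dS : ℝ) :
    ContDiff ℝ ∞ (fun q : EP d × En d => OmFD f b dS q.1 q.2) := by
  unfold OmFD
  have hV : ∀ j : Fin 7, ContDiff ℝ ∞ (fun q : EP d × En d => q.1.2 j) := fun j =>
    (dz20_eps (X := EP d × En d) (f := Prod.fst) contDiff_fst 0 j).2
  have x1 : ContDiff ℝ ∞ (fun q : EP d × En d => q.2.1.1) := by fun_prop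
  have x2 : ContDiff ℝ ∞ (fun q : EP d × En d => q.2.1.2) := by fun_prop
  have x3 : ContDiff ℝ ∞ (fun q : EP d × En d => q.2.2) := by fun_prop
  have y1 : ContDiff ℝ ∞ (fun q : EP d × En d => f.Z1 (argF b q.1 q.2)) :=
    hf.smZ1.comp (contDiff_argF b)
  have y2 : ContDiff ℝ ∞ (fun q : EP d × En d => f.Z2 (argF b q.1 q.2)) :=
    hf.smZ2.comp (contDiff_argF b)
  have y3 : ContDiff ℝ ∞ (fun q : EP d × En d => f.Z3 (argF b q.1 q.2) (mulw (q.1.2 6) q.2.2)) :=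
    (hf.smZ3.comp (contDiff_argF b)).clm_apply (contDiff_mulw (hV 6) x3)
  exact ((x1.smul (contDiff_mulw (hV 3) y1)).add
    ((x2.add contDiff_const).smul (contDiff_mulw (hV 4) y2))).add
    ((contDiff_mulw (hV 5) y3).const_smul dS)

theorem contDiff_exD {f : PFD d} (hf : SmPFD f) (b B0 dS : ℝ) :
    ContDiff ℝ ∞ (fun q : EP d × En d => exD f b B0 dS (q.1.1 3) q.1 q.2) := by
  unfold exD
  have hE : ∀ i : Fin 6, ContDiff ℝ ∞ (fun q : EP d × En d => q.1.1 i) := fun i =>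
    (dz20_eps (X := EP d × En d) (f := Prod.fst) contDiff_fst i 0).1
  have hV : ∀ j : Fin 7, ContDiff ℝ ∞ (fun q : EP d × En d => q.1.2 j) := fun j =>
    (dz20_eps (X := EP d × En d) (f := Prod.fst) contDiff_fst 0 j).2
  exact (((hE 4).add ((hE 3).mul (contDiff_XiFD hf b B0))).prodMk (contDiff_etaFD hf b)).prodMk
    ((hV 2).add ((hE 3).smul (contDiff_OmFD hf b dS)))

theorem dz20_argF (b : ℝ) (z : En d) : argF b (0 : EP d) z = ((0, 0), 0) := by
  unfold argF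
  have h0 : ∀ i : Fin 6, (0 : EP d).1 i = 0 := fun _ => rfl
  have h1 : ∀ i : Fin 7, (0 : EP d).2 i = 0 := fun _ => rfl
  simp only [h0, h1, zero_mul, mulw_zero_left]

/-- PROOF. argF b 0 z = ((0,0),0) = 0 and W 0 = 1. -/
theorem etaFD_zero {f : PFD d} (hf : SmPFD f) (b : ℝ) (z : En d) : etaFD f b 0 z = z.1.2 := by
  unfold etaFD
  rw [dz20_argF, hf.W0]
  ring

theorem XiFD_zero (f : PFD d) (b B0 : ℝ) (z : En d) : XiFD f b B0 0 z = B0 * z.1.1 * f.Y1 (0, 0) := by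
  unfold XiFD
  have h0 : ∀ i : Fin 6, (0 : EP d).1 i = 0 := fun _ => rfl
  have h1 : ∀ i : Fin 7, (0 : EP d).2 i = 0 := fun _ => rfl
  simp only [h0, h1, zero_mul, mulw_zero_left, map_zero, add_zero]

theorem OmFD_zero (f : PFD d) (b dS : ℝ) (z : En d) : OmFD f b dS 0 z = 0 := by
  unfold OmFD
  have h1 : ∀ i : Fin 7, (0 : EP d).2 i = 0 := fun _ => rfl
  simp only [h1, mulw_zero_left, smul_zero, add_zero]

theorem exD_zero {f : PFD d} (hf : SmPFD f) (b B0 dS i3 : ℝ) (z : En d) (h : i3 = 0) :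
    exD f b B0 dS i3 0 z = ((0, z.1.2), 0) := by
  unfold exD
  have h0 : ∀ i : Fin 6, (0 : EP d).1 i = 0 := fun _ => rfl
  have h1 : ∀ i : Fin 7, (0 : EP d).2 i = 0 := fun _ => rfl
  rw [etaFD_zero hf, h0, h1, h]
  simp only [zero_mul, add_zero, zero_smul]

/-- The blocks of a flat arc are abstract blocks.

PROOF. Smoothness from `contDiff_exD`, `contDiff_XiFD`, `contDiff_OmFD`, `contDiff_etaFD` (components of the parameter: `dz20_eps`), `ContDiff.clm_apply` for Mw.  Values at 0: `exD_zero`, `XiFD_zero`,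
`OmFD_zero`, `etaFD_zero`; argM at (0,z) is ((0,0),((0,U),0)) because `(0 : EP d).1 3 = 0`.  A ((0,0),0) = 0 and Aw ((0,0),0) = 0 are hA0, hAw0. -/
theorem blkD_of {f : PFD d} (hf : SmPFD f) {A : En d → ℝ} {Aw : En d → Wd d} {Mh : (ℝ × Wd d) × En d → ℝ}
    {Mw : (ℝ × Wd d) × En d → (Wd d →L[ℝ] ℝ)} (smA : ContDiff ℝ ∞ A) (smAw : ContDiff ℝ ∞ Aw) (smM : ContDiff ℝ ∞ Mh)
    (smMw : ContDiff ℝ ∞ Mw) (hA0 : A ((0, 0), 0) = 0) (hAw0 : Aw ((0, 0), 0) = 0) (a b B0 dS : ℝ) (wT : Wd d) :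
    BlkD (bXD f a b B0 dS A) (bUD f b B0 dS Mh Mw) (bWD f b B0 dS wT Aw) a (B0 * f.Y1 (0, 0)) wT
      (fun U => A ((0, U), 0)) (fun U => Mh ((0, 0), ((0, U), 0))) (fun U => Aw ((0, U), 0)) := by
  have hE : ∀ i : Fin 6, ContDiff ℝ ∞ (fun q : EP d × En d => q.1.1 i) := fun i =>
    (dz20_eps (X := EP d × En d) (f := Prod.fst) contDiff_fst i 0).1
  have hV : ∀ j : Fin 7, ContDiff ℝ ∞ (fun q : EP d × En d => q.1.2 j) := fun j =>
    (dz20_eps (X := EP d × En d) (f := Prod.fst) contDiff_fst 0 j).2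
  have hX := contDiff_XiFD hf b B0
  have hO := contDiff_OmFD hf b dS
  have hη := contDiff_etaFD hf b
  have hex := contDiff_exD hf b B0 dS
  have h0 : ∀ i : Fin 6, (0 : EP d).1 i = 0 := fun _ => rfl
  have h1 : ∀ i : Fin 7, (0 : EP d).2 i = 0 := fun _ => rfl
  have hM : ContDiff ℝ ∞ (argM f b B0 dS) := by
    unfold argM
    exact ((hE 4).prodMk (hV 2)).prodMk ((((hE 3).mul hX).prodMk hη).prodMk ((hE 3).smul hO))
  have hM0 : ∀ z : En d, argM f b B0 dS (0, z) = ((0, 0), ((0, z.1.2), 0)) := by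
    intro z
    show (((0 : EP d).1 4, (0 : EP d).2 2), (((0 : EP d).1 3 * XiFD f b B0 0 z, etaFD f b 0 z),
      (0 : EP d).1 3 • OmFD f b dS 0 z)) = _
    rw [etaFD_zero hf, h0, h0, h1]
    simp only [zero_mul, zero_smul]
  have hx0 : ∀ z : En d, exD f b B0 dS ((0 : EP d).1 3) 0 z = ((0, z.1.2), 0) := fun z =>
    exD_zero hf b B0 dS _ z rfl
  have hl : ContDiff ℝ ∞ (fun U : ℝ => (((0, U), 0) : En d)) := by fun_prop
  refine ⟨?_, ?_, ?_, ?_, ?_, ?_, hA0, hAw0, ?_, ?_, ?_⟩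
  · unfold bXD
    exact contDiff_const.add (smA.comp hex)
  · unfold bUD
    exact (hX.mul (smM.comp hM)).add ((smMw.comp hM).clm_apply hO)
  · unfold bWD
    exact contDiff_const.add (smAw.comp hex)
  · exact smA.comp hl
  · exact smM.comp (contDiff_const.prodMk hl)
  · exact smAw.comp hl
  · intro z
    show a + A (exD f b B0 dS ((0 : EP d).1 3) 0 z) = _
    rw [hx0]
  · intro z
    show XiFD f b B0 0 z * Mh (argM f b B0 dS (0, z)) + Mw (argM f b B0 dS (0, z)) (OmFD f b dS 0 z) = _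
    rw [hM0, XiFD_zero, OmFD_zero, map_zero]
    ring
  · intro z
    show wT + Aw (exD f b B0 dS ((0 : EP d).1 3) 0 z) = _
    rw [hx0]

end Pool.Agent.Lib.H37D
end

-- from Lib.H37D.DI2b
section

/-! # H37D, chunk DI2b (S): the function `U₀` (port of H37N/I2b.lean) -/

open Set Filter Topology
open scoped ContDiff

namespace Pool.Agent.Lib.H37D

open Pool.Agent.Lib.H37N

variable {d : ℕ}

/-- PROOF. `inverse_param` (P = EP d, p₀ = 0, t₀ = 0) for `F(ε,U) = etaFD f b ε ((a,U),w1)`, smooth, `F(0,U) = U`. -/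
theorem exists_U0D {f : PFD d} (hf : SmPFD f) (a b : ℝ) (w1 : Wd d) :
    ∃ U0 : EP d → ℝ, ContDiff ℝ ∞ U0 ∧ U0 0 = 0 ∧
      ∀ᶠ ε : EP d in 𝓝 0, etaFD f b ε ((a, U0 ε), w1) = 0 := by
  set F : EP d × ℝ → ℝ := fun q => etaFD f b q.1 ((a, q.2), w1) with hF
  have hFs : ContDiff ℝ ∞ F :=
    (contDiff_etaFD hf b).comp (contDiff_fst.prodMk ((contDiff_const.prodMk contDiff_snd).prodMk contDiff_const))
  have hF0 : ∀ t : ℝ, F (0, t) = t := fun t => etaFD_zero hf b _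
  have hd : deriv (fun t => F (0, t)) 0 ≠ 0 := by
    have h2 : (fun t : ℝ => F (0, t)) = fun t => t := funext hF0
    rw [h2]
    simp
  obtain ⟨θ, hθ, hθ0, -, hθ2⟩ := inverse_param (P := EP d) (F := F) (p₀ := 0) (t₀ := 0)
    (Eventually.of_forall fun q => hFs.contDiffAt) hd
  rw [hF0] at hθ0 hθ2
  refine ⟨fun e => θ (e, 0), hθ.comp (contDiff_id.prodMk contDiff_const), hθ0, ?_⟩
  have h4 : Tendsto (fun e : EP d => (e, (0 : ℝ))) (𝓝 0) (𝓝 ((0 : EP d), 0)) := by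
    have h5 : ContinuousAt (fun e : EP d => (e, (0 : ℝ))) 0 := by fun_prop
    exact h5.tendsto
  exact h4.eventually hθ2

end Pool.Agent.Lib.H37D
end

-- from Lib.H37D.DP05
section

/-!
# H37D DP05 (M): smooth families of perturbations at a place are small (port of H37P/P05.lean)

Word for word as H37P/P05 (`small_familyD` of DT67, `K0D d`).
-/

open Set Filter Topology Asymptotics
open scoped ContDiff

namespace Pool.Agent.Lib.H37D

open Pool.Agent.Lib.H37N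

variable {d : ℕ} {g : En d → En d} {s : FrD d} {Z : Set (En d)} {b a : ℝ} {wT : Wd d} {k l : ℕ}
  {r : ℝ} {D B : Set (En d)} {Li : En d → En d}

theorem PlaceD.family (hp : PlaceD g s Z b a wT k l r D B Li) {P : Type} [NormedAddCommGroup P]
    [NormedSpace ℝ P] [FiniteDimensional ℝ P] (Ψ : P × En d → En d) (hΨ : ContDiff ℝ ∞ Ψ)
    (h0 : ∀ v, Ψ (0, v) = v)
    (hsupp : ∀ p v, v ∉ Metric.closedBall (((a, 0), wT) : En d) (r / 2) → Ψ (p, v) = v) (R : ℕ)
    {ε : ℝ} (hε : 0 < ε) :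
    ∀ᶠ p in 𝓝 (0 : P), ∃ ψ : En d → En d, SmallD R ε ψ ∧ AdmD D ψ ∧
      ∀ v ∈ Metric.ball (((a, 0), wT) : En d) r, PlD g s l (ψ (Li v)) = Ψ (p, v) := by
  classical
  have hr := hp.r_pos
  set C1 : Set (En d) := Metric.closedBall (((a, 0), wT) : En d) (r / 2) with hC1
  set B1 : Set (En d) := Metric.ball (((a, 0), wT) : En d) r with hB1
  have hC1c : IsCompact C1 := isCompact_closedBall _ _
  have hC1B : C1 ⊆ B1 := Metric.closedBall_subset_ball (by linarith)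
  have hB1o : IsOpen B1 := Metric.isOpen_ball
  -- the family maps the ball into itself for small parameters
  have h1 : ∀ᶠ p in 𝓝 (0 : P), ∀ v ∈ C1, Ψ (p, v) ∈ B1 := by
    apply hC1c.eventually_forall_of_forall_eventually
    intro v hv
    have h2 : Ψ (0, v) ∈ B1 := by rw [h0]; exact hC1B hv
    have h3 : Tendsto Ψ (𝓝 ((0 : P), v)) (𝓝 (Ψ (0, v))) := hΨ.continuous.tendsto _
    exact h3.eventually (hB1o.mem_nhds h2)
  obtain ⟨ρ, hρ, hρ1⟩ := Metric.eventually_nhds_iff_ball.1 h1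
  obtain ⟨χ, hχ, -, hχt, hχ01, hχ1⟩ := exists_cutoff (E := P) (isCompact_singleton (x := (0 : P)))
    (Metric.isOpen_ball (x := (0 : P)) (ε := ρ)) (singleton_subset_iff.2 (Metric.mem_ball_self hρ))
  rw [nhdsSet_singleton] at hχ1
  have hball : ∀ p : P, χ p • p ∈ Metric.ball (0 : P) ρ := by
    intro p
    by_cases hpb : p ∈ Metric.ball (0 : P) ρ
    · rw [mem_ball_zero_iff] at hpb ⊢
      rw [norm_smul, Real.norm_of_nonneg (hχ01 p).1]
      calc χ p * ‖p‖ ≤ 1 * ‖p‖ := mul_le_mul_of_nonneg_right (hχ01 p).2 (norm_nonneg _)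
        _ = ‖p‖ := one_mul _
        _ < ρ := hpb
    · have : χ p = 0 := by
        by_contra hne
        exact hpb (hχt (subset_tsupport _ hne))
      rw [this, zero_smul]
      exact Metric.mem_ball_self hρ
  set Φ : P × (En d) → (En d) := fun q => Ψ (χ q.1 • q.1, q.2) with hΦ
  have hΦs : ContDiff ℝ ∞ Φ := by
    apply hΨ.comp
    exact ((hχ.comp contDiff_fst).smul contDiff_fst).prodMk contDiff_snd
  have hΦB : ∀ p v, v ∈ B1 → Φ (p, v) ∈ B1 := by
    intro p v hv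
    by_cases hvC : v ∈ C1
    · exact hρ1 _ (hball p) v hvC
    · show Ψ (χ p • p, v) ∈ B1
      rw [hsupp _ v hvC]
      exact hv
  have hΦ0 : ∀ v, Φ (0, v) = v := by
    intro v
    show Ψ (χ 0 • (0 : P), v) = v
    rw [smul_zero, h0]
  have hΦid : ∀ p v, v ∉ C1 → Φ (p, v) = v := fun p v hv => hsupp _ v hv
  -- the compact set
  set K : Set (En d) := Li '' C1 with hK
  have hKc : IsCompact K := hC1c.image_of_continuousOn (hp.smLi.continuousOn.mono hC1B)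
  have hKD : K ⊆ D := by
    rintro w ⟨v, hv, rfl⟩
    exact hp.Li_mem v (hC1B hv)
  have hnK : ∀ w ∈ D, w ∉ K → PlD g s l w ∉ C1 := by
    intro w hw hwK hC
    exact hwK ⟨_, hC, hp.Li_Pl w hw⟩
  set F : P × (En d) → (En d) := fun q => if q.2 ∈ D then Li (Φ (q.1, PlD g s l q.2)) else q.2 with hF
  have hFid : ∀ p w, w ∉ K → F (p, w) = w := by
    intro p w hw
    by_cases hwD : w ∈ D
    · show (if w ∈ D then Li (Φ (p, PlD g s l w)) else w) = w
      rw [if_pos hwD, hΦid p _ (hnK w hwD hw), hp.Li_Pl w hwD]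
    · show (if w ∈ D then Li (Φ (p, PlD g s l w)) else w) = w
      rw [if_neg hwD]
  have hFs : ContDiff ℝ ∞ F := by
    rw [contDiff_iff_contDiffAt]
    rintro ⟨p, w⟩
    by_cases hwD : w ∈ D
    · have hO : IsOpen ((univ : Set P) ×ˢ D) := isOpen_univ.prod hp.openD
      have hmem : ((p, w) : P × (En d)) ∈ (univ : Set P) ×ˢ D := ⟨mem_univ _, hwD⟩
      have hG : ContDiffOn ℝ ∞ (fun q : P × (En d) => Li (Φ (q.1, PlD g s l q.2)))
          ((univ : Set P) ×ˢ D) := by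
        apply hp.smLi.comp (t := B1)
        · apply hΦs.comp_contDiffOn
          exact contDiff_fst.contDiffOn.prodMk
            (hp.smPl.comp contDiff_snd.contDiffOn (fun q hq => hq.2))
        · intro q hq
          exact hΦB _ _ (hp.Pl_mem _ hq.2)
      refine (hG.contDiffAt (hO.mem_nhds hmem)).congr_of_eventuallyEq ?_
      filter_upwards [hO.mem_nhds hmem] with q hq
      exact if_pos hq.2
    · have hwK : w ∉ K := fun h => hwD (hKD h)
      have hO : IsOpen ((univ : Set P) ×ˢ Kᶜ) := isOpen_univ.prod hKc.isClosed.isOpen_compl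
      have hmem : ((p, w) : P × (En d)) ∈ (univ : Set P) ×ˢ Kᶜ := ⟨mem_univ _, hwK⟩
      refine (contDiff_snd.contDiffAt (x := (p, w))).congr_of_eventuallyEq ?_
      filter_upwards [hO.mem_nhds hmem] with q hq
      exact hFid q.1 q.2 hq.2
  have hF0 : ∀ w, F (0, w) = w := by
    intro w
    by_cases hwD : w ∈ D
    · show (if w ∈ D then Li (Φ (0, PlD g s l w)) else w) = w
      rw [if_pos hwD, hΦ0, hp.Li_Pl w hwD]
    · show (if w ∈ D then Li (Φ (0, PlD g s l w)) else w) = w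
      rw [if_neg hwD]
  obtain ⟨C, hCc, hDC, hCK, -⟩ := hp.compD
  have hsm := small_familyD hFs (0 : P) hF0 hKc ((hKD.trans hDC).trans hCK) hFid R hε
  filter_upwards [hsm, hχ1] with p hps hpχ
  refine ⟨fun z => F (p, z), hps, ⟨?_, ?_⟩, ?_⟩
  · intro w hw
    exact hFid p w (fun h => hw (hKD h))
  · intro w hw
    show (if w ∈ D then Li (Φ (p, PlD g s l w)) else w) ∈ D
    rw [if_pos hw]
    exact hp.Li_mem _ (hΦB _ _ (hp.Pl_mem w hw))
  · intro v hv
    have hD := hp.Li_mem v hv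
    have hχp : χ p = 1 := by simpa using hpχ
    show PlD g s l (if Li v ∈ D then Li (Φ (p, PlD g s l (Li v))) else Li v) = Ψ (p, v)
    rw [if_pos hD, hp.Pl_Li v hv, hp.Pl_Li _ (hΦB p v hv)]
    show Ψ (χ p • p, v) = Ψ (p, v)
    rw [hχp, one_smul]

end Pool.Agent.Lib.H37D
end

-- from Lib.H37P.Z22
section

/-!
# H37N Z22 (M/L): the zoomed blocks

PROOF.md, S.1. `hs = h'(0)`, `c0 = B0 Y1(0) a Γ(0)`, `τ = B0 Y1(0) a Γ'(0)`, `B0 Y1(0) hs Γ(0) = -1`. Zoom `bX` and `bU` at `x0 = (a,0)`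
(`zoomE`): `HX, HU`, and put, with `ξ = (hs (dj j + x.1), dj (j+1) + x.2)`,
`B_j((ρ,ε),q,x).1 = HX((ρ,ε),ξ)/hs - dj (j+1)` and `.2 = HU((ρ,ε),ξ) + qt e τ q j (.1) - dj (j+2)`.
At `(ρ,ε) = 0`: `HX = hs (dj (j+1) + x.2)`, so `.1 = x.2`; `HU = B0 Y1 Γ(0) hs (dj j + x.1) + τ (dj (j+1) + x.2) =
-(dj j + x.1) + τ (dj (j+1) + x.2)`, so `.2 = - x.1 + tt x.2 + qpoly q j x.2`.
Jacobian: for `ρ ≠ 0` the zoomed block is the block conjugated by the affine maps `x ↦ (a + ρ hs (dj j + x.1), ρ (dj (j+1) + x.2))`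
with the same linear part `diag(ρ hs, ρ)`, so its Jacobian is the Jacobian `JB(ε,V)` of `V ↦ (bX, bU + Q(bX))`, which is
the Jacobian of `V ↦ (bX (ε,V), bU (ε,V))` (shear), smooth, and `JB(0,(X,U)) = B0 Y1(0) hG(U) > 0` near `U = 0`, `= 1` at `0`. Let `LJ` be a
global smooth function equal to `log JB` near `(0,(a,0))` (T3), zoom it: `HJ`, `J_j = HJ((ρ,ε),ξ)`. At `0`:
`J_j = (d/dU log hG)(0) (dj (j+1) + x.2)`. The identity `jac B_j = exp(ρ J_j)` holds near `0` for `ρ ≠ 0` and extends to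
`ρ = 0` by continuity.
-/

open Set Filter Topology Asymptotics
open scoped ContDiff

namespace Pool.Agent.Lib.H37N



theorem z22_shear {f1 f2 : Pt → ℝ} {φ : ℝ → ℝ} {x : Pt} (h1 : DifferentiableAt ℝ f1 x)
    (h2 : DifferentiableAt ℝ f2 x) (h3 : DifferentiableAt ℝ φ (f1 x)) :
    jac (fun v => (f1 v, f2 v + φ (f1 v))) x =
      fderiv ℝ f1 x (1, 0) * fderiv ℝ f2 x (0, 1) - fderiv ℝ f2 x (1, 0) * fderiv ℝ f1 x (0, 1) := by
  have h4 : HasFDerivAt (fun v => φ (f1 v)) (deriv φ (f1 x) • fderiv ℝ f1 x) x :=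
    h3.hasDerivAt.comp_hasFDerivAt x h1.hasFDerivAt
  have h5 : HasFDerivAt (fun v => (f1 v, f2 v + φ (f1 v)))
      ((fderiv ℝ f1 x).prod (fderiv ℝ f2 x + deriv φ (f1 x) • fderiv ℝ f1 x)) x :=
    h1.hasFDerivAt.prodMk (h2.hasFDerivAt.add h4)
  unfold jac
  rw [h5.fderiv]
  simp only [ContinuousLinearMap.prod_apply, add_apply,
    smul_apply, smul_eq_mul]
  ring





theorem z22_qx (n e j i : ℕ) : ContDiff ℝ ∞ (fun q : QQ n e => qx q j i) := by
  by_cases h : j < 2 * n ∧ i < e + 1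
  · have : (fun q : QQ n e => qx q j i) = fun q => q ⟨j, h.1⟩ ⟨i, h.2⟩ := by
      funext q
      simp [qx, h]
    rw [this]
    exact (contDiff_apply_apply ℝ ℝ (⟨j, h.1⟩ : Fin (2 * n)) (⟨i, h.2⟩ : Fin (e + 1)))
  · have : (fun q : QQ n e => qx q j i) = fun _ => 0 := by
      funext q
      simp only [qx, dif_neg h]
    rw [this]
    exact contDiff_const

theorem z22_qt {E : Type} [NormedAddCommGroup E] [NormedSpace ℝ E] (e : ℕ) (τ : ℝ) (j : ℕ)
    {q : E → QQ (e + 3) e} {w : E → ℝ} (hq : ContDiff ℝ ∞ q) (hw : ContDiff ℝ ∞ w) :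
    ContDiff ℝ ∞ (fun z => qt e τ (q z) j (w z)) := by
  unfold qt qpoly
  refine (contDiff_const.add (contDiff_const.mul hw)).add ?_
  exact ContDiff.sum fun i _ => ((z22_qx (e + 3) e j i).comp hq).mul (hw.pow i)



end Pool.Agent.Lib.H37N
end
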