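import Pool.Agent.Lib.H1M.FF.M003
import Pool.Agent.Lib.H1M.FF.M005
import Pool.Agent.Lib.H1M.FF.M010
import Pool.Agent.Lib.H1M.FF.M012
import Pool.Agent.Lib.H1M.FF.M020
import Pool.Agent.Lib.H1M.FF.M036

/-! Merged copies (to shorten the build) of Lib.H37D.DN03, Lib.H37D.DN05, Lib.H37D.DN19, Lib.H37D.DN18, Lib.H37D.DN20. -/

-- from Lib.H37D.DN03
section

/-! # H37D, chunk DN03 (M): derivatives of near maps are near linear; the strong stable space of a periodic point (section NF of PROOFN.md) -/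

open Set Filter Topology Asymptotics
open scoped ContDiff

namespace Pool.Agent.Lib.H37D

open Pool.Agent.Lib.H37N

variable {d : ℕ}

theorem dn03_awk (d : ℕ) (k : Fin d) : 9 / 10 ^ 8 ≤ awk d k ∧ awk d k ≤ 1 / 10 ^ 7 := by
  refine ⟨?_, (d0_awk_pos d k).2⟩
  have hk : (k : ℝ) + 1 ≤ (d : ℝ) + 1 := by
    have h1 : (k : ℝ) ≤ (d : ℝ) := by exact_mod_cast k.2.le
    linarith
  have hd : 0 < 10 * ((d : ℝ) + 1) := by positivity
  have h2 : ((k : ℝ) + 1) / (10 * ((d : ℝ) + 1)) ≤ 1 / 10 := by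
    rw [div_le_iff₀ hd]
    linarith
  unfold awk aw
  linarith

theorem dn03_mulw_le (w : Wd d) : ‖mulw (awk d) w‖ ≤ 1 / 10 ^ 7 * ‖w‖ := by
  rw [pi_norm_le_iff_of_nonneg (by positivity)]
  intro k
  unfold mulw
  rw [norm_mul, Real.norm_eq_abs, abs_of_pos (d0_awk_pos d k).1]
  exact mul_le_mul (dn03_awk d k).2 (norm_le_pi_norm w k) (norm_nonneg _) (by norm_num)

theorem dn03_mulw_ge (w : Wd d) : 9 / 10 ^ 8 * ‖w‖ ≤ ‖mulw (awk d) w‖ := by
  have h1 : ‖w‖ ≤ (10 ^ 8 / 9) * ‖mulw (awk d) w‖ := by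
    rw [pi_norm_le_iff_of_nonneg (by positivity)]
    intro k
    have h2 := norm_le_pi_norm (mulw (awk d) w) k
    have h3 : ‖mulw (awk d) w k‖ = awk d k * ‖w k‖ := by
      unfold mulw
      rw [norm_mul, Real.norm_eq_abs, abs_of_pos (d0_awk_pos d k).1]
    rw [h3] at h2
    have h4 : 9 / 10 ^ 8 * ‖w k‖ ≤ awk d k * ‖w k‖ :=
      mul_le_mul_of_nonneg_right (dn03_awk d k).1 (norm_nonneg _)
    have h5 : 9 / 10 ^ 8 * ‖w k‖ ≤ ‖mulw (awk d) w‖ := h4.trans h2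
    calc ‖w k‖ = (10 ^ 8 / 9) * (9 / 10 ^ 8 * ‖w k‖) := by ring
      _ ≤ (10 ^ 8 / 9) * ‖mulw (awk d) w‖ := mul_le_mul_of_nonneg_left h5 (by norm_num)
  calc 9 / 10 ^ 8 * ‖w‖ ≤ 9 / 10 ^ 8 * ((10 ^ 8 / 9) * ‖mulw (awk d) w‖) :=
        mul_le_mul_of_nonneg_left h1 (by norm_num)
    _ = ‖mulw (awk d) w‖ := by ring

theorem dn03_z (z : Pt) : ‖((z, 0) : En d)‖ = ‖z‖ := by
  rw [Prod.norm_def]
  simp

theorem dn03_w (w : Wd d) : ‖((0, w) : En d)‖ = ‖w‖ := by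
  rw [Prod.norm_def]
  simp

/-- perturbation of a block diagonal map -/
theorem dn03_gen {D M : En d →L[ℝ] En d} (h : ‖D - M‖ ≤ e0) {m : Pt → Pt}
    (hz : ∀ z : Pt, M (z, 0) = (m z, 0)) (hm : ∀ z, ‖z‖ ≤ 3000 * ‖m z‖)
    (hw : ∀ w, M (0, w) = (0, mulw (awk d) w)) : NLin D := by
  have he : e0 = 1 / 10 ^ 12 := rfl
  have hd : ∀ v, ‖D v - M v‖ ≤ 1 / 10 ^ 12 * ‖v‖ := fun v => by
    have h1 := (D - M).le_opNorm v
    rw [ContinuousLinearMap.sub_apply] at h1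
    exact h1.trans (mul_le_mul_of_nonneg_right (h.trans he.le) (norm_nonneg _))
  have hdz : ∀ z : Pt, ‖(D (z, 0)).1 - m z‖ ≤ 1 / 10 ^ 12 * ‖z‖ ∧
      ‖(D (z, 0)).2‖ ≤ 1 / 10 ^ 12 * ‖z‖ := fun z => by
    have h1 := hd (z, 0)
    rw [hz, dn03_z, Prod.norm_def, max_le_iff] at h1
    refine ⟨h1.1, ?_⟩
    have h2 := h1.2
    simpa using h2
  have hdw : ∀ w, ‖(D (0, w)).1‖ ≤ 1 / 10 ^ 12 * ‖w‖ ∧
      ‖(D (0, w)).2 - mulw (awk d) w‖ ≤ 1 / 10 ^ 12 * ‖w‖ := fun w => by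
    have h1 := hd (0, w)
    rw [hw, dn03_w, Prod.norm_def, max_le_iff] at h1
    refine ⟨?_, h1.2⟩
    have h2 := h1.1
    simpa using h2
  refine ⟨?_, fun w => (hdw w).1, fun z => (hdz z).2, ?_, ?_⟩
  · intro s hs z
    have h1 : slp D s z = (D (z, 0)).1 - s ((D (z, 0)).2) := rfl
    obtain ⟨h2, h3⟩ := hdz z
    have h4 : ‖s ((D (z, 0)).2)‖ ≤ 1 / 10 ^ 8 * (1 / 10 ^ 12 * ‖z‖) :=
      (s.le_opNorm _).trans (mul_le_mul hs h3 (norm_nonneg _) (by norm_num))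
    have h5 : m z = slp D s z - ((D (z, 0)).1 - m z) + s ((D (z, 0)).2) := by
      rw [h1]
      abel
    have h6 : ‖m z‖ ≤ ‖slp D s z‖ + ‖(D (z, 0)).1 - m z‖ + ‖s ((D (z, 0)).2)‖ := by
      conv_lhs => rw [h5]
      refine (norm_add_le _ _).trans (add_le_add (norm_sub_le _ _) le_rfl)
    have h7 := hm z
    have h8 : 0 ≤ ‖z‖ := norm_nonneg _
    nlinarith
  · intro w
    have h1 := (hdw w).2
    have h2 := dn03_mulw_le w
    have h3 : ‖(D (0, w)).2‖ ≤ ‖(D (0, w)).2 - mulw (awk d) w‖ + ‖mulw (awk d) w‖ := by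
      have := norm_add_le ((D (0, w)).2 - mulw (awk d) w) (mulw (awk d) w)
      rwa [sub_add_cancel] at this
    have h8 : 0 ≤ ‖w‖ := norm_nonneg _
    linarith
  · intro w
    have h1 := (hdw w).2
    have h2 := dn03_mulw_ge w
    have h3 : ‖mulw (awk d) w‖ ≤ ‖(D (0, w)).2‖ + ‖(D (0, w)).2 - mulw (awk d) w‖ := by
      have := norm_sub_le (D (0, w)).2 ((D (0, w)).2 - mulw (awk d) w)
      rwa [sub_sub_cancel] at this
    have h8 : 0 ≤ ‖w‖ := norm_nonneg _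
    linarith

/-- Derivatives of near maps are near linear.

PROOF. On `VVd d i`: D = fderiv ℝ g z, ‖D - MdL d i‖ ≤ en d ≤ e0 = 10^-12 (`closeS`, `en_le`), MdL ((x,y),w) = ((x / pw i, qw i * y), awk .* w); awk in (0.9 * 10^-7, 10^-7] gives ww_le, ww_ge (sup norm:
(89/10^9 + 10^-12) |w_k| ≤ |awk k w_k|); zw, wz: the model part is 0.  low: slp D s z = (1/pw x, qw y) + error, error ≤ (10^-12 + 10^-8 * 10^-12) ‖z‖, 1/pw ≥ 1, qw ≥ 499/1000, so
‖slp D s z‖ ≥ (0.499 - 2 * 10^-12) ‖z‖.  On `FFd d`: `foldS`, model z = (x,y) ↦ (-k x + y/2, -x) with |k| = |2 dd (z.1.1 - xc)| ≤ 1250: for u = (-k x + y/2, -x): |x| ≤ ‖u‖, |y| ≤ 2(‖u‖ + 1250 |x|) ≤ 2502 ‖u‖, so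
‖z‖ ≤ 2502 ‖u‖, and ‖u - slp D s z‖ ≤ 2 * 10^-12 ‖z‖.  (d = 0: `Wd 0` is trivial, awk_k has no instances.) -/
theorem NearS.nlin {g : En d → En d} (hg : NearS g) {z : En d} (hz : z ∈ Dd d) : NLin (fderiv ℝ g z) := by
  have hV : ∀ i, z ∈ VVd d i → NLin (fderiv ℝ g z) := by
    intro i hi
    refine dn03_gen ((hg.closeS i z hi).trans (en_le d)) (m := fun z => (1 / pw i * z.1, qw i * z.2))
      ?_ ?_ ?_
    · intro z
      rw [MdL, dgD_apply]
      refine Prod.ext rfl ?_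
      funext k
      simp [mulw]
    · intro z
      have hp : 1 ≤ 1 / pw i := by cases i <;> norm_num [pw]
      have hq : 1 / 10 ≤ qw i := by cases i <;> norm_num [qw]
      rw [Prod.norm_def, Prod.norm_def]
      have h1 : ‖z.1‖ ≤ ‖1 / pw i * z.1‖ := by
        rw [norm_mul, Real.norm_eq_abs (1 / pw i), abs_of_pos (by linarith)]
        nlinarith [norm_nonneg z.1]
      have h2 : ‖z.2‖ ≤ 10 * ‖qw i * z.2‖ := by
        rw [norm_mul, Real.norm_eq_abs (qw i), abs_of_pos (by linarith)]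
        nlinarith [norm_nonneg z.2]
      have h3 := le_max_left ‖1 / pw i * z.1‖ ‖qw i * z.2‖
      have h4 := le_max_right ‖1 / pw i * z.1‖ ‖qw i * z.2‖
      have h5 : 0 ≤ ‖z.1‖ := norm_nonneg _
      refine max_le ?_ ?_ <;> simp only <;> linarith
    · intro w
      rw [MdL, dgD_apply]
      refine Prod.ext ?_ rfl
      simp
  rcases hz with (hz | hz) | hz
  · exact hV _ hz
  · exact hV _ hz
  · set a : ℝ := -(2 * dd * (z.1.1 - xc)) with ha
    refine dn03_gen ((hg.foldS z hz).trans (en_le d)) (m := fun z => (a * z.1 + cc * z.2, -z.1))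
      ?_ ?_ ?_
    · intro v
      refine Prod.ext rfl ?_
      show mulL (awk d) (0 : Wd d) = 0
      rw [map_zero]
    · intro v
      have h0 : |z.1.1 - xc| ≤ 1 / 4000 := by
        have h1 := hz.1.1
        have hu : u0 = 1 / 4000 := rfl
        rw [hu] at h1
        rw [abs_le]
        constructor <;> linarith [h1.1, h1.2]
      have h1 : |a| ≤ 1250 := by
        rw [ha, abs_neg, abs_mul]
        have hdd : |2 * dd| = 5000000 := by norm_num [dd]
        rw [hdd]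
        linarith
      rw [Prod.norm_def, Prod.norm_def]
      have h2 := le_max_left ‖a * v.1 + cc * v.2‖ ‖-v.1‖
      have h3 := le_max_right ‖a * v.1 + cc * v.2‖ ‖-v.1‖
      set X := max ‖a * v.1 + cc * v.2‖ ‖-v.1‖
      rw [norm_neg] at h3
      have h4 : ‖cc * v.2‖ ≤ ‖a * v.1 + cc * v.2‖ + ‖a * v.1‖ := by
        have := norm_sub_le (a * v.1 + cc * v.2) (a * v.1)
        rwa [add_sub_cancel_left] at this
      have h5 : ‖a * v.1‖ ≤ 1250 * X := by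
        rw [norm_mul, Real.norm_eq_abs a]
        exact mul_le_mul h1 h3 (norm_nonneg _) (by norm_num)
      have h6 : ‖cc * v.2‖ = 1 / 2 * ‖v.2‖ := by
        rw [norm_mul]
        norm_num [cc]
      rw [h6] at h4
      have h7 : 0 ≤ ‖v.1‖ := norm_nonneg _
      have h8 : 0 ≤ ‖v.2‖ := norm_nonneg _
      refine max_le ?_ ?_ <;> linarith
    · intro w
      refine Prod.ext ?_ ?_
      · simp [FoldL]
      · show mulL (awk d) w = mulw (awk d) w
        exact mulL_apply _ _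

theorem dn03_Om (g : En d → En d) {z : En d} (hz : z ∈ Omd d) : z ∈ Dd d := by
  obtain ⟨h1, h2⟩ := hz
  have h3 : z.2 ∈ BW d := Metric.ball_subset_closedBall h2
  rcases h1 with (h1 | h1) | h1
  · exact Or.inl (Or.inl ⟨interior_subset h1, h3⟩)
  · exact Or.inl (Or.inr ⟨interior_subset h1, h3⟩)
  · exact Or.inr ⟨interior_subset h1, h3⟩

/-- The derivative of the iterate is the product of the derivatives.

PROOF. Induction on k ≤ m: `g^[k+1] = g ∘ g^[k]` (`Function.iterate_succ'`), chain rule; g is differentiable at the points of Omd d ⊆ Dd d (NearD.smooth: ContDiffOn on an open set containing Dd d;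
`interior_subset`), `fderiv_comp`. -/
theorem NearS.fderiv_iterate {g : En d → En d} (hg : NearS g) {z : En d} (m : ℕ) (hz : ∀ i < m, g^[i] z ∈ Omd d) :
    ContDiffAt ℝ ∞ g^[m] z ∧ fderiv ℝ g^[m] z = prodL (fun i => fderiv ℝ g (g^[i] z)) m ∧
      Function.Bijective (fderiv ℝ g^[m] z) := by
  obtain ⟨O, hO, hDO, hgO, -, hbij⟩ := hg.smooth
  induction m with
  | zero =>
    refine ⟨contDiffAt_id, ?_, ?_⟩
    · rw [Function.iterate_zero]
      exact fderiv_id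
    · rw [Function.iterate_zero]
      have h1 : fderiv ℝ (id : En d → En d) z = ContinuousLinearMap.id ℝ _ := fderiv_id
      rw [h1]
      exact Function.bijective_id
  | succ m ih =>
    obtain ⟨h1, h2, h3⟩ := ih fun i hi => hz i (hi.trans (Nat.lt_succ_self m))
    have hm : g^[m] z ∈ O := hDO (dn03_Om g (hz m (Nat.lt_succ_self m)))
    have h4 : ContDiffAt ℝ ∞ g (g^[m] z) := (hgO _ hm).contDiffAt (hO.mem_nhds hm)
    have h5 : g^[m + 1] = g ∘ g^[m] := Function.iterate_succ' g m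
    have h6 : fderiv ℝ g^[m + 1] z = (fderiv ℝ g (g^[m] z)).comp (fderiv ℝ g^[m] z) := by
      rw [h5]
      exact fderiv_comp z (h4.differentiableAt (by simp)) (h1.differentiableAt (by simp))
    refine ⟨?_, ?_, ?_⟩
    · rw [h5]
      exact h4.comp z h1
    · rw [h6, h2]
      rfl
    · rw [h6]
      exact (hbij _ hm).comp h3

/-- The strong stable space of a periodic point.

PROOF. `strong_stable` with A i = fderiv ℝ g (g^[i] z) (Omd d ⊆ Dd d), `strong_norms`, `NearS.fderiv_iterate`. -/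
theorem NearS.strong {g : En d → En d} (hg : NearS g) {z : En d} {m : ℕ} (hm : 0 < m) (hz : ∀ i < m, g^[i] z ∈ Omd d) :
    ∃ (s : Wd d →L[ℝ] Pt) (A0 A0i : Wd d →L[ℝ] Wd d), ‖s‖ ≤ 1 / 10 ^ 8 ∧
      (∀ w, fderiv ℝ g^[m] z (s w, w) = (s (A0 w), A0 w)) ∧ A0.comp A0i = ContinuousLinearMap.id ℝ _ ∧
      A0i.comp A0 = ContinuousLinearMap.id ℝ _ ∧ ‖A0‖ ≤ 1 / 100 ∧ ‖A0i‖ * ‖A0‖ ^ 2 < 1 := by
  obtain ⟨s, A0, h1, h2, h3⟩ := strong_stable hm (A := fun i => fderiv ℝ g (g^[i] z))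
    fun i hi => hg.nlin (dn03_Om g (hz i hi))
  obtain ⟨A0i, h4, h5, h6, h7⟩ := strong_norms hm h3
  refine ⟨s, A0, A0i, h1, ?_, h4, h5, h6, h7⟩
  intro w
  rw [(hg.fderiv_iterate m hz).2.1]
  exact h2 w

end Pool.Agent.Lib.H37D
end

-- from Lib.H37D.DN05
section

/-! # H37D, chunk DN05 (S/M): passing to the minimal period (section NF of PROOFN.md) -/

open Set Filter Topology Asymptotics
open scoped ContDiff

namespace Pool.Agent.Lib.H37D

open Pool.Agent.Lib.H37N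

variable {d : ℕ}

theorem dn05_Om {z : En d} (hz : z ∈ Omd d) : z ∈ Dd d := by
  obtain ⟨h1, h2⟩ := hz
  have h3 : z.2 ∈ BW d := Metric.ball_subset_closedBall h2
  rcases h1 with (h1 | h1) | h1
  · exact Or.inl (Or.inl ⟨interior_subset h1, h3⟩)
  · exact Or.inl (Or.inr ⟨interior_subset h1, h3⟩)
  · exact Or.inr ⟨interior_subset h1, h3⟩

theorem dn05_cont {g : En d → En d} (hg : NearS g) {z : En d} (m : ℕ)
    (hz : ∀ i < m, g^[i] z ∈ Omd d) : ContinuousAt g^[m] z := by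
  obtain ⟨O, hO, hDO, hgO, -, -⟩ := hg.smooth
  induction m with
  | zero => exact continuousAt_id
  | succ m ih =>
    have h1 := ih fun i hi => hz i (hi.trans (Nat.lt_succ_self m))
    have hm : g^[m] z ∈ O := hDO (dn05_Om (hz m (Nat.lt_succ_self m)))
    have h4 : ContinuousAt g (g^[m] z) := (hgO.continuousOn _ hm).continuousAt (hO.mem_nhds hm)
    rw [Function.iterate_succ']
    exact h4.comp h1

/-- A disc of periodic points contains a smaller disc of points of constant minimal period.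

PROOF. Let O be an open neighbourhood of 0 with the properties of `CentreSpot` (K, ι), such that for v in O: ι is ContDiffAt at v, fderiv ℝ ι v is injective (open condition: fderiv ℝ ι is continuous at 0
and injective linear maps of finite-dimensional spaces form an open set, `ContinuousLinearMap.isOpen_injective` or antilipschitz), g^[i] (ι v) in Omd for i < K, g^[K] (ι v) = ι v.  For v in O let p(v) = the least
m ≥ 1 with g^[m] (ι v) = ι v, p(v) ≤ K.  Let v₁ in O have maximal p(v₁) = m.  For v near v₁ and 0 < i < m: g^[i] (ι v) ≠ ι v (both sides continuous at v₁: g^[i] is continuous at ι v₁ because the orbit is in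
Omd, an open set where g is C^inf), so p(v) ≥ m, so p(v) = m by maximality.  New disc: ι'(v) := ι(v₁ + v).  Its derivative at 0 is fderiv ℝ ι v₁ (`fderiv_comp_const_add` or chain rule).  For i < m ≤ K the
points are in Omd.  Distinctness: for 0 < i < m, g^[i] (ι v₁) ≠ ι v₁.  Finally `localise_at` (H37N.T3) makes ι' globally smooth. -/
theorem CentreSpot.minimal {g : En d → En d} (hg : NearS g) (h : CentreSpot g) :
    ∃ m : ℕ, 0 < m ∧ ∃ ι : Pt → En d, ContDiff ℝ ∞ ι ∧ Function.Injective (fderiv ℝ ι 0) ∧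
      (∀ᶠ v in 𝓝 (0 : Pt), (∀ i < m, g^[i] (ι v) ∈ Omd d) ∧ g^[m] (ι v) = ι v) ∧
      ∀ i, 0 < i → i < m → g^[i] (ι 0) ≠ ι 0 := by
  obtain ⟨K, hK, ι, hι, hinj, hper⟩ := h
  have hi : ∀ᶠ v in 𝓝 (0 : Pt), Function.Injective (fderiv ℝ ι v) := by
    have h1 : ContDiffAt ℝ ∞ ι 0 := hι.self_of_nhds
    have h2 : ContinuousAt (fderiv ℝ ι) 0 := (h1.fderiv_right (m := 0) (by simp)).continuousAt
    have h3 : IsOpen {L : Pt →L[ℝ] En d | Function.Injective L} := ContinuousLinearMap.isOpen_injective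
    exact h2.eventually (h3.mem_nhds hinj)
  obtain ⟨t, ht, hto, h0t⟩ := eventually_nhds_iff.1 (hι.and (hi.and hper))
  have hpp : ∀ v ∈ t, Function.IsPeriodicPt g K (ι v) := fun v hv => (ht v hv).2.2.2
  obtain ⟨v1, hv1, hmin⟩ := WellFounded.has_min
    (measure fun v => K - Function.minimalPeriod g (ι v)).wf t ⟨0, h0t⟩
  have hmax : ∀ v ∈ t, Function.minimalPeriod g (ι v) ≤ Function.minimalPeriod g (ι v1) := by
    intro v hv
    have h1 := hmin v hv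
    have h2 := (hpp v hv).minimalPeriod_le hK
    have h3 := (hpp v1 hv1).minimalPeriod_le hK
    have h4 : ¬ (K - Function.minimalPeriod g (ι v) < K - Function.minimalPeriod g (ι v1)) := h1
    omega
  obtain ⟨m, hm⟩ : ∃ m, m = Function.minimalPeriod g (ι v1) := ⟨_, rfl⟩
  rw [← hm] at hmax
  have hmpos : 0 < m := by
    rw [hm]
    exact (hpp v1 hv1).minimalPeriod_pos hK
  have hmK : m ≤ K := by
    rw [hm]
    exact (hpp v1 hv1).minimalPeriod_le hK
  have hne : ∀ i, 0 < i → i < m → g^[i] (ι v1) ≠ ι v1 := by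
    intro i hi0 him heq
    rw [hm] at him
    exact Function.not_isPeriodicPt_of_pos_of_lt_minimalPeriod hi0.ne' him heq
  have hιc : ContinuousAt ι v1 := (ht v1 hv1).1.continuousAt
  have hev : ∀ᶠ v in 𝓝 v1, ∀ i ∈ Finset.range m, 0 < i → g^[i] (ι v) ≠ ι v := by
    rw [Filter.eventually_all_finset]
    intro i him
    rw [Finset.mem_range] at him
    by_cases hi0 : 0 < i
    · have h1 : ContinuousAt g^[i] (ι v1) := dn05_cont hg i fun j hj =>
        (ht v1 hv1).2.2.1 j (by omega)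
      have h2 : ContinuousAt (fun v => g^[i] (ι v)) v1 := h1.comp hιc
      have h4 : IsOpen {p : En d × En d | p.1 ≠ p.2} := isOpen_ne_fun continuous_fst continuous_snd
      have h3 : ∀ᶠ v in 𝓝 v1, (g^[i] (ι v), ι v) ∈ {p : En d × En d | p.1 ≠ p.2} :=
        (h2.prodMk hιc).eventually (h4.mem_nhds (hne i hi0 him))
      filter_upwards [h3] with v hv _
      exact hv
    · exact Filter.Eventually.of_forall fun v h => absurd h hi0
  have hev2 : ∀ᶠ v in 𝓝 v1, ContDiffAt ℝ ∞ ι v ∧ (∀ i < m, g^[i] (ι v) ∈ Omd d) ∧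
      g^[m] (ι v) = ι v := by
    filter_upwards [hev, hto.mem_nhds hv1] with v hv hvt
    refine ⟨(ht v hvt).1, fun i hi => (ht v hvt).2.2.1 i (by omega), ?_⟩
    have h1 := hmax v hvt
    have h2 : Function.minimalPeriod g (ι v) = m := by
      by_contra hcon
      have h3 : Function.minimalPeriod g (ι v) < m := lt_of_le_of_ne h1 hcon
      exact hv _ (Finset.mem_range.2 h3) ((hpp v hvt).minimalPeriod_pos hK)
        (Function.isPeriodicPt_minimalPeriod g (ι v))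
    rw [← h2]
    exact Function.isPeriodicPt_minimalPeriod g (ι v)
  have htend : Tendsto (fun v : Pt => v1 + v) (𝓝 0) (𝓝 v1) := by
    have h1 : Continuous fun v : Pt => v1 + v := by fun_prop
    have h2 := h1.tendsto 0
    rwa [add_zero] at h2
  have hev3 := htend.eventually hev2
  have hsm : ∀ᶠ v in 𝓝 (0 : Pt), ContDiffAt ℝ ∞ (fun v => ι (v1 + v)) v := by
    filter_upwards [hev3] with v hv
    have h1 : ContDiffAt ℝ ∞ (fun v : Pt => v1 + v) v := by fun_prop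
    exact hv.1.comp v h1
  obtain ⟨ι', hι', heq⟩ := localise_at hsm
  refine ⟨m, hmpos, ι', hι', ?_, ?_, ?_⟩
  · rw [heq.fderiv_eq, fderiv_comp_add_left, add_zero]
    exact (ht v1 hv1).2.1
  · filter_upwards [hev3, heq] with v hv hv'
    rw [hv']
    exact hv.2
  · have h1 : ι' 0 = ι v1 := by
      rw [heq.eq_of_nhds, add_zero]
    rw [h1]
    exact hne

end Pool.Agent.Lib.H37D
end

-- from Lib.H37D.DN19
section

/-! # H37D, chunk DN19 (M): a centre spot in a small box, rescaled (section NF of PROOFN.md) -/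

open Set Filter Topology Asymptotics
open scoped ContDiff

namespace Pool.Agent.Lib.H37D

open Pool.Agent.Lib.H37N

variable {d : ℕ}

/-- A smooth family of linear maps near an invertible small one.

PROOF. A is continuous at 0.  ‖A v w‖ ≤ ‖A 0‖ ‖w‖ + ‖A v - A 0‖ ‖w‖ ≤ (1/8)‖w‖ for v near 0.  ‖w‖ = ‖A0i (A 0 w)‖ ≤ ‖A0i‖ ‖A 0 w‖, so with η := 1 / (1000 (‖A0i‖ + 1)) and ‖A v - A 0‖ ≤ η, ‖A v' - A 0‖ ≤ η: ‖A v w - A v' w‖ ≤ 2 η ‖w‖ ≤ (1/500) ‖A 0 w‖
and ‖A 0 w‖ ≤ ‖A v' w‖ + η ‖w‖ ≤ ‖A v' w‖ + (1/1000) ‖A 0 w‖, so ‖A v w - A v' w‖ ≤ (1/100) ‖A v' w‖.  A v' is injective (same estimate: ‖A v' w‖ ≥ .999 ‖A 0 w‖, A 0 injective), so bijective (finite dimension). -/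
theorem A_small {A : Pt → Wd d →L[ℝ] Wd d} (hA : ContDiff ℝ ∞ A) (hA0 : ‖A 0‖ ≤ 1 / 100) {A0i : Wd d →L[ℝ] Wd d}
    (hA0i : A0i.comp (A 0) = ContinuousLinearMap.id ℝ _) :
    ∃ r > (0 : ℝ), ∀ v, ‖v‖ < r → Function.Bijective (A v) ∧ (∀ w, ‖A v w‖ ≤ 1 / 8 * ‖w‖) ∧
      ∀ v', ‖v'‖ < r → ∀ w, ‖A v w - A v' w‖ ≤ 1 / 100 * ‖A v' w‖ := by
  set η : ℝ := 1 / (1000 * (‖A0i‖ + 1)) with hη
  have hN : 0 ≤ ‖A0i‖ := norm_nonneg _
  have hη0 : 0 < η := by positivity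
  have hη1 : η ≤ 1 / 1000 := by
    rw [hη]
    apply one_div_le_one_div_of_le (by norm_num)
    nlinarith
  have hη2 : η * ‖A0i‖ ≤ 1 / 1000 := by
    rw [hη, div_mul_eq_mul_div, div_le_iff₀ (by positivity)]
    nlinarith
  obtain ⟨r, hr, hcl⟩ := Metric.continuousAt_iff.mp (hA.continuous.continuousAt (x := 0)) η hη0
  have hclose : ∀ v, ‖v‖ < r → ‖A v - A 0‖ ≤ η := by
    intro v hv
    have := hcl (x := v) (by rwa [dist_zero_right])
    rw [dist_eq_norm] at this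
    exact this.le
  have hdiff : ∀ v, ‖v‖ < r → ∀ w, ‖A v w - A 0 w‖ ≤ η * ‖w‖ := by
    intro v hv w
    have h : ‖A v w - A 0 w‖ ≤ ‖A v - A 0‖ * ‖w‖ := (A v - A 0).le_opNorm w
    exact h.trans (mul_le_mul_of_nonneg_right (hclose v hv) (norm_nonneg w))
  have hw0 : ∀ w, ‖w‖ ≤ ‖A0i‖ * ‖A 0 w‖ := by
    intro w
    have h1 : A0i (A 0 w) = w := by
      have := DFunLike.congr_fun hA0i w
      simpa using this
    calc ‖w‖ = ‖A0i (A 0 w)‖ := by rw [h1]
      _ ≤ _ := A0i.le_opNorm _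
  have hsmall : ∀ w, η * ‖w‖ ≤ 1 / 1000 * ‖A 0 w‖ := by
    intro w
    calc η * ‖w‖ ≤ η * (‖A0i‖ * ‖A 0 w‖) := mul_le_mul_of_nonneg_left (hw0 w) hη0.le
      _ = (η * ‖A0i‖) * ‖A 0 w‖ := by ring
      _ ≤ _ := mul_le_mul_of_nonneg_right hη2 (norm_nonneg _)
  have hbelow : ∀ v, ‖v‖ < r → ∀ w, 999 / 1000 * ‖A 0 w‖ ≤ ‖A v w‖ := by
    intro v hv w
    have h1 := hdiff v hv w
    have h2 := hsmall w
    have h3 : ‖A 0 w‖ ≤ ‖A v w‖ + ‖A v w - A 0 w‖ := by
      have : A 0 w = A v w - (A v w - A 0 w) := by abel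
      calc ‖A 0 w‖ = ‖A v w - (A v w - A 0 w)‖ := by rw [← this]
        _ ≤ _ := norm_sub_le _ _
    linarith
  refine ⟨r, hr, fun v hv => ⟨?_, ?_, ?_⟩⟩
  · have hinj : Function.Injective (A v) := by
      rw [injective_iff_map_eq_zero]
      intro w hw
      have h1 := hbelow v hv w
      rw [hw, norm_zero] at h1
      have h2 : ‖A 0 w‖ ≤ 0 := by linarith
      have h3 := hw0 w
      have h4 : ‖w‖ ≤ 0 := by nlinarith [norm_nonneg (A 0 w)]
      exact norm_le_zero_iff.mp h4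
    refine ⟨hinj, ?_⟩
    exact (LinearMap.injective_iff_surjective (f := (A v : Wd d →ₗ[ℝ] Wd d))).mp hinj
  · intro w
    have h1 := hdiff v hv w
    have h2 : ‖A 0 w‖ ≤ 1 / 100 * ‖w‖ :=
      ((A 0).le_opNorm w).trans (mul_le_mul_of_nonneg_right hA0 (norm_nonneg w))
    have h3 : ‖A v w‖ ≤ ‖A 0 w‖ + ‖A v w - A 0 w‖ := by
      have : A v w = A 0 w + (A v w - A 0 w) := by abel
      calc ‖A v w‖ = ‖A 0 w + (A v w - A 0 w)‖ := by rw [← this]
        _ ≤ _ := norm_add_le _ _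
    have h4 : η * ‖w‖ ≤ 1 / 1000 * ‖w‖ := mul_le_mul_of_nonneg_right hη1 (norm_nonneg w)
    linarith [norm_nonneg w]
  · intro v' hv' w
    have h1 := hdiff v hv w
    have h2 := hdiff v' hv' w
    have h3 : ‖A v w - A v' w‖ ≤ ‖A v w - A 0 w‖ + ‖A v' w - A 0 w‖ := by
      have : A v w - A v' w = (A v w - A 0 w) - (A v' w - A 0 w) := by abel
      rw [this]
      exact norm_sub_le _ _
    have h4 := hsmall w
    have h5 := hbelow v' hv' w
    linarith [norm_nonneg (A 0 w)]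

/-- The cone condition.

PROOF. Let T w := (s w, w).  DΘ is continuous: for p in a ball around 0 of radius r, ‖DΘ(p)(0,w) - T w‖ ≤ 10^-9 ‖w‖ (for all w; ‖DΘ(p) - DΘ(0)‖ ≤ 10^-9 and ‖(0,w)‖ = ‖w‖).  Mean value inequality on the segment from (v,0) to (v,w) for the map p ↦ Θ p - (linear part):
‖Θ(v,w) - Θ(v,0) - (s w, w)‖ ≤ 10^-9 ‖w‖ (`Convex.norm_image_sub_le_of_norm_fderiv_le'` with φ = DΘ(0) on the ball, convex).  So ‖(..).1‖ ≤ (10^-8 + 10^-9) ‖w‖ and ‖(..).2‖ ≥ (1 - 10^-9) ‖w‖. -/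
theorem cone_small {Θ : En d → En d} (hΘ : ContDiff ℝ ∞ Θ) {s : Wd d →L[ℝ] Pt} (hs : ‖s‖ ≤ 1 / 10 ^ 8)
    (hc : ∀ w, fderiv ℝ Θ 0 (0, w) = (s w, w)) :
    ∃ r > (0 : ℝ), ∀ v w, ‖v‖ < r → ‖w‖ < r →
      ‖(Θ (v, w)).1 - (Θ (v, 0)).1‖ ≤ 1 / 10 ^ 7 * ‖(Θ (v, w)).2 - (Θ (v, 0)).2‖ := by
  have hcont : ContinuousAt (fderiv ℝ Θ) 0 := (hΘ.continuous_fderiv (by simp)).continuousAt
  obtain ⟨r, hr, hcl⟩ := Metric.continuousAt_iff.mp hcont (1 / 10 ^ 9) (by norm_num)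
  refine ⟨r, hr, fun v w hv hw => ?_⟩
  have hx : ((v, 0) : En d) ∈ Metric.ball (0 : En d) r := by
    rw [mem_ball_zero_iff, Prod.norm_mk, norm_zero]
    exact max_lt hv hr
  have hy : ((v, w) : En d) ∈ Metric.ball (0 : En d) r := by
    rw [mem_ball_zero_iff, Prod.norm_mk]
    exact max_lt hv hw
  have hm := Convex.norm_image_sub_le_of_norm_fderiv_le' (𝕜 := ℝ) (f := Θ) (φ := fderiv ℝ Θ 0)
    (C := 1 / 10 ^ 9) (s := Metric.ball (0 : En d) r)
    (fun x _ => (hΘ.differentiable (by simp)).differentiableAt)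
    (fun x hx => by
      have := hcl (x := x) (by rw [dist_zero_right]; exact mem_ball_zero_iff.mp hx)
      rw [dist_eq_norm] at this
      exact this.le) (convex_ball _ _) hx hy
  have e1 : ((v, w) : En d) - (v, 0) = (0, w) := by
    rw [Prod.mk_sub_mk, sub_self, sub_zero]
  have e2 : ‖((0, w) : En d)‖ = ‖w‖ := by
    rw [Prod.norm_mk, norm_zero]
    exact max_eq_right (norm_nonneg w)
  rw [e1, hc, e2] at hm
  have h1 : ‖(Θ (v, w)).1 - (Θ (v, 0)).1 - s w‖ ≤ 1 / 10 ^ 9 * ‖w‖ :=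
    (norm_fst_le (Θ (v, w) - Θ (v, 0) - (s w, w))).trans hm
  have h2 : ‖(Θ (v, w)).2 - (Θ (v, 0)).2 - w‖ ≤ 1 / 10 ^ 9 * ‖w‖ :=
    (norm_snd_le (Θ (v, w) - Θ (v, 0) - (s w, w))).trans hm
  have h3 : ‖s w‖ ≤ 1 / 10 ^ 8 * ‖w‖ :=
    (s.le_opNorm w).trans (mul_le_mul_of_nonneg_right hs (norm_nonneg w))
  have h4 : ‖(Θ (v, w)).1 - (Θ (v, 0)).1‖ ≤ ‖(Θ (v, w)).1 - (Θ (v, 0)).1 - s w‖ + ‖s w‖ := by
    have : (Θ (v, w)).1 - (Θ (v, 0)).1 = ((Θ (v, w)).1 - (Θ (v, 0)).1 - s w) + s w := by abel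
    calc ‖(Θ (v, w)).1 - (Θ (v, 0)).1‖ = ‖((Θ (v, w)).1 - (Θ (v, 0)).1 - s w) + s w‖ := by
          rw [← this]
      _ ≤ _ := norm_add_le _ _
  have h5 : ‖w‖ ≤ ‖(Θ (v, w)).2 - (Θ (v, 0)).2‖ + ‖(Θ (v, w)).2 - (Θ (v, 0)).2 - w‖ := by
    have : w = ((Θ (v, w)).2 - (Θ (v, 0)).2) - ((Θ (v, w)).2 - (Θ (v, 0)).2 - w) := by abel
    calc ‖w‖ = ‖((Θ (v, w)).2 - (Θ (v, 0)).2) - ((Θ (v, w)).2 - (Θ (v, 0)).2 - w)‖ := by
          rw [← this]
      _ ≤ _ := norm_sub_le _ _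
  nlinarith [norm_nonneg w]

theorem dn19_Om_open : IsOpen (Omd d) := by
  unfold Omd Om
  exact ((isOpen_interior.union isOpen_interior).union isOpen_interior).prod Metric.isOpen_ball

theorem dn19_Om_sub : Omd d ⊆ Dd d := by
  rintro z ⟨h1, h2⟩
  have hb : z.2 ∈ BW d := Metric.ball_subset_closedBall h2
  rcases h1 with (h1 | h1) | h1
  · exact Or.inl (Or.inl ⟨interior_subset h1, hb⟩)
  · exact Or.inl (Or.inr ⟨interior_subset h1, hb⟩)
  · exact Or.inr ⟨interior_subset h1, hb⟩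

theorem dn19_cont {g : En d → En d} (hg : NearS g) {z : En d} (hz : z ∈ Omd d) :
    ContinuousAt g z := by
  obtain ⟨O, hO, hsub, hsm, -, -⟩ := hg.toNearD.smooth
  exact hsm.continuousOn.continuousAt (hO.mem_nhds (hsub (dn19_Om_sub hz)))

theorem dn19_iter {g : En d → En d} (hg : NearS g) {z₀ : En d} {m : ℕ}
    (hz : ∀ i < m, g^[i] z₀ ∈ Omd d) : ∀ i ≤ m, ContinuousAt (g^[i]) z₀ := by
  intro i
  induction i with
  | zero => intro _; exact continuousAt_id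
  | succ i ih =>
    intro hi
    rw [Function.iterate_succ']
    exact (dn19_cont hg (hz i (by omega))).comp (ih (by omega))

theorem dn19_ball {P : En d → Prop} (h : ∀ᶠ p in 𝓝 (0 : En d), P p) :
    ∃ r > (0 : ℝ), ∀ p, ‖p‖ < r → P p := by
  obtain ⟨r, hr, h'⟩ := Metric.eventually_nhds_iff.mp h
  exact ⟨r, hr, fun p hp => h' (by rwa [dist_zero_right])⟩

/-- The rescaled centre spot.

PROOF. c₁ from `inverse_fun` (c₁ smooth, c₁ (Θ p) = p near 0, Θ (c₁ z) = z near z₀).  Choose ρ > 0 such that for all p with ‖p‖ < 4ρ: `A_small`, `cone_small` hold with r = 4ρ, c₁ (Θ p) = p, g^[m] (Θ p) = Θ (p.1, A p.1 p.2), g^[i] (Θ p) ∈ Omd d for i ≤ m (Omd d open, g^[i] continuous at z₀ for i ≤ m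
because g is continuous at the points of Omd d; g^[m] z₀ = z₀ ∈ Omd d), and g^[i] (Θ p) ∈ ball (g^[i] z₀) δ, Θ p ∈ ball z₀ δ with 2δ ≤ dist (g^[i] z₀) z₀ for 0 < i < m (so g^[i] (Θ p) ≠ Θ q).  Then
Θr p := Θ (ρ • p), c z := ρ⁻¹ • c₁ z, A v := A (ρ • v).  `lin`: Θr (v, A(ρ v) w) = Θ (ρ v, A(ρ v)(ρ w)).  isOpen: Θr '' Bt d = Θ '' ball 0 (4ρ) is open: every point has a neighbourhood in the image.  Take ρ so small that DΘ(p) is bijective for ‖p‖ < 4ρ (openness of the invertible maps)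
and use `ContDiffAt.toOpenPartialHomeomorph` / `HasStrictFDerivAt.map_nhds_eq_of_equiv`, or: Θ '' ball 0 (4ρ) = {z ∈ O | ‖c₁ z‖ < 4ρ} for an open neighbourhood O of z₀ on which Θ (c₁ z) = z, if ρ is so small that Θ '' ball 0 (4ρ) ⊆ O. -/
theorem spot_of_germ {g : En d → En d} (hg : NearS g) {z₀ : En d} {m : ℕ} (hm : 0 < m)
    (hz : ∀ i < m, g^[i] z₀ ∈ Omd d) (hper : g^[m] z₀ = z₀) (hdist : ∀ i, 0 < i → i < m → g^[i] z₀ ≠ z₀)
    {Θ : En d → En d} (hΘ : ContDiff ℝ ∞ Θ) (hΘ0 : Θ 0 = z₀) (hΘb : Function.Bijective (fderiv ℝ Θ 0))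
    {s : Wd d →L[ℝ] Pt} (hs : ‖s‖ ≤ 1 / 10 ^ 8) (hc : ∀ w, fderiv ℝ Θ 0 (0, w) = (s w, w))
    {A : Pt → Wd d →L[ℝ] Wd d} (hA : ContDiff ℝ ∞ A) (hA0 : ‖A 0‖ ≤ 1 / 100) {A0i : Wd d →L[ℝ] Wd d}
    (hA0i : A0i.comp (A 0) = ContinuousLinearMap.id ℝ _)
    (hlin : ∀ᶠ p in 𝓝 (0 : En d), g^[m] (Θ p) = Θ (p.1, A p.1 p.2)) : LocalSpotD g := by
  obtain ⟨c₁, hc₁, -, hc₁l, hc₁r⟩ := inverse_fun
    (Eventually.of_forall fun x => hΘ.contDiffAt (x := x)) hΘb
  rw [hΘ0] at hc₁r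
  obtain ⟨O, hO1, hO, hzO⟩ := mem_nhds_iff.mp hc₁r
  have hΘc : Tendsto Θ (𝓝 0) (𝓝 z₀) := by
    have := hΘ.continuous.continuousAt (x := (0 : En d))
    rwa [ContinuousAt, hΘ0] at this
  have hit := dn19_iter hg hz
  have hz0 : z₀ ∈ Omd d := hz 0 hm
  have hzm : ∀ i ≤ m, g^[i] z₀ ∈ Omd d := by
    intro i hi
    by_cases h : i = m
    · rw [h, hper]
      exact hz0
    · exact hz i (by omega)
  -- the eventual conditions
  have e1 : ∀ᶠ p in 𝓝 (0 : En d), Θ p ∈ O := hΘc.eventually (hO.mem_nhds hzO)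
  have e2 : ∀ᶠ p in 𝓝 (0 : En d), ∀ i ∈ Finset.range (m + 1), g^[i] (Θ p) ∈ Omd d := by
    rw [Filter.eventually_all_finset]
    intro i hi
    have hi' : i ≤ m := Nat.lt_succ_iff.mp (Finset.mem_range.mp hi)
    exact ((hit i hi').tendsto.comp hΘc).eventually (dn19_Om_open.mem_nhds (hzm i hi'))
  have e3 : ∀ᶠ pq in 𝓝 ((0, 0) : En d × En d), ∀ i ∈ Finset.Ioo 0 m,
      g^[i] (Θ pq.1) ≠ Θ pq.2 := by
    rw [Filter.eventually_all_finset]
    intro i hi
    rw [Finset.mem_Ioo] at hi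
    have h1 : Tendsto (fun pq : En d × En d => g^[i] (Θ pq.1)) (𝓝 (0, 0)) (𝓝 (g^[i] z₀)) :=
      ((hit i hi.2.le).tendsto.comp hΘc).comp (continuous_fst.tendsto' (0, 0) (0 : En d) rfl)
    have h2 : Tendsto (fun pq : En d × En d => Θ pq.2) (𝓝 (0, 0)) (𝓝 z₀) :=
      hΘc.comp (continuous_snd.tendsto' (0, 0) (0 : En d) rfl)
    have h3 : ∀ᶠ ab in 𝓝 ((g^[i] z₀, z₀) : En d × En d), ab.1 ≠ ab.2 :=
      (isOpen_ne_fun continuous_fst continuous_snd).mem_nhds (hdist i hi.1 hi.2)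
    exact (h1.prodMk_nhds h2).eventually h3
  obtain ⟨r1, hr1, h1⟩ := dn19_ball (hc₁l.and (e1.and (e2.and hlin)))
  obtain ⟨r2, hr2, h2⟩ := Metric.eventually_nhds_iff.mp e3
  obtain ⟨r3, hr3, h3⟩ := A_small hA hA0 hA0i
  obtain ⟨r4, hr4, h4⟩ := cone_small hΘ hs hc
  set R := min (min r1 r2) (min r3 r4) with hR
  have hRpos : 0 < R := lt_min (lt_min hr1 hr2) (lt_min hr3 hr4)
  set ρ := R / 4 with hρ
  have hρpos : 0 < ρ := by positivity
  have hsc : ∀ {E : Type} [NormedAddCommGroup E] [NormedSpace ℝ E] (p : E), ‖p‖ < 4 →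
      ‖ρ • p‖ < R := by
    intro E _ _ p hp
    rw [norm_smul, Real.norm_of_nonneg hρpos.le, hρ]
    nlinarith
  have hR1 : R ≤ r1 := (min_le_left _ _).trans (min_le_left _ _)
  have hR2 : R ≤ r2 := (min_le_left _ _).trans (min_le_right _ _)
  have hR3 : R ≤ r3 := (min_le_right _ _).trans (min_le_left _ _)
  have hR4 : R ≤ r4 := (min_le_right _ _).trans (min_le_right _ _)
  have hpair : ∀ {v : Pt} {w : Wd d}, ‖v‖ < 4 → ‖w‖ < 4 → ‖((v, w) : En d)‖ < 4 := by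
    intro v w hv hw
    rw [Prod.norm_mk]
    exact max_lt hv hw
  have hsmul : ∀ (v : Pt) (w : Wd d), ρ • ((v, w) : En d) = (ρ • v, ρ • w) := fun v w => rfl
  have hBt : ∀ {p : En d}, p ∈ Bt d → ‖p‖ < 4 := fun hp => mem_ball_zero_iff.mp hp
  refine ⟨m, fun p => Θ (ρ • p), fun z => ρ⁻¹ • c₁ z, fun v => A (ρ • v), ?_⟩
  refine ⟨hm, ?_, ?_, ?_, ?_, ?_, ?_, ?_, ?_, ?_, ?_, ?_, ?_⟩
  · exact hΘ.comp (contDiff_const_smul ρ)
  · exact hc₁.const_smul ρ⁻¹
  · intro p hp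
    have := (h1 (ρ • p) ((hsc p (hBt hp)).trans_le hR1)).1
    show ρ⁻¹ • c₁ (Θ (ρ • p)) = p
    rw [this, smul_smul, inv_mul_cancel₀ hρpos.ne', one_smul]
  · have e : (fun p => Θ (ρ • p)) '' Bt d = O ∩ {z | ‖c₁ z‖ < R} := by
      ext z
      constructor
      · rintro ⟨p, hp, rfl⟩
        have h := h1 (ρ • p) ((hsc p (hBt hp)).trans_le hR1)
        refine ⟨h.2.1, ?_⟩
        show ‖c₁ (Θ (ρ • p))‖ < R
        rw [h.1]
        exact hsc p (hBt hp)
      · rintro ⟨hz1, hz2⟩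
        have hz2' : ‖c₁ z‖ < R := hz2
        refine ⟨ρ⁻¹ • c₁ z, ?_, ?_⟩
        · rw [Bt, mem_ball_zero_iff, norm_smul, norm_inv, Real.norm_of_nonneg hρpos.le, hρ,
            inv_mul_lt_iff₀ (by positivity)]
          linarith
        · show Θ (ρ • ρ⁻¹ • c₁ z) = z
          rw [smul_smul, mul_inv_cancel₀ hρpos.ne', one_smul]
          exact hO1 hz1
    rw [e]
    exact hO.inter (isOpen_lt (hc₁.continuous.norm) continuous_const)
  · exact hA.comp (contDiff_const_smul ρ)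
  · intro v hv
    exact (h3 (ρ • v) ((hsc v hv).trans_le hR3)).1
  · intro v hv
    exact (h3 (ρ • v) ((hsc v hv).trans_le hR3)).2.1
  · intro v hv v' hv'
    exact (h3 (ρ • v) ((hsc v hv).trans_le hR3)).2.2 (ρ • v') ((hsc v' hv').trans_le hR3)
  · intro v w hv hw
    have h := (h1 (ρ • ((v, w) : En d)) ((hsc _ (hpair hv hw)).trans_le hR1)).2.2.2
    show g^[m] (Θ (ρ • (v, w))) = Θ (ρ • (v, A (ρ • v) w))
    rw [h, hsmul, hsmul]
    show Θ (ρ • v, A (ρ • v) (ρ • w)) = _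
    rw [map_smul]
  · intro p hp i hi
    exact (h1 (ρ • p) ((hsc p (hBt hp)).trans_le hR1)).2.2.1 i
      (Finset.mem_range.mpr (Nat.lt_succ_iff.mpr hi))
  · intro i hi0 him p hp q hq
    have hd : dist ((ρ • p, ρ • q) : En d × En d) (0, 0) < r2 := by
      rw [Prod.dist_eq, dist_zero_right, dist_zero_right]
      exact (max_lt (hsc p (hBt hp)) (hsc q (hBt hq))).trans_le hR2
    exact h2 hd i (Finset.mem_Ioo.mpr ⟨hi0, him⟩)
  · intro v w hv hw
    have h := h4 (ρ • v) (ρ • w) ((hsc v hv).trans_le hR4) ((hsc w hw).trans_le hR4)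
    show ‖(Θ (ρ • (v, w))).1 - (Θ (ρ • (v, 0))).1‖ ≤
      1 / 10 ^ 7 * ‖(Θ (ρ • (v, w))).2 - (Θ (ρ • (v, 0))).2‖
    rw [hsmul, hsmul, smul_zero]
    exact h

end Pool.Agent.Lib.H37D
end

-- from Lib.H37D.DN18
section

/-! # H37D, chunk DN18 (S/M): correction of the return map by a perturbation near one point of the orbit (section NF of PROOFN.md) -/

open Set Filter Topology Asymptotics
open scoped ContDiff

namespace Pool.Agent.Lib.H37D

open Pool.Agent.Lib.H37N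

variable {d : ℕ}

theorem dn18_cont {g : En d → En d} (hg : NearS g) {z : En d} (hz : z ∈ Omd d) : ContinuousAt g z := by
  obtain ⟨O, hO, hDO, hs, -, -⟩ := hg.toNearD.smooth
  have h1 : z ∈ Dd d := by
    have h2 : z.2 ∈ BW d := Metric.ball_subset_closedBall hz.2
    rcases hz.1 with (h | h) | h
    · exact Or.inl (Or.inl ⟨interior_subset h, h2⟩)
    · exact Or.inl (Or.inr ⟨interior_subset h, h2⟩)
    · exact Or.inr ⟨interior_subset h, h2⟩
  exact (hs.contDiffAt (hO.mem_nhds (hDO h1))).continuousAt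

/-- Correction of the return map.

PROOF. ε from hU g hg.  All g^[i], i ≤ m, are continuous at z₀ (g is continuous at the points of Omd d ⊆ Dd d: NearS.toNearD.smooth; composition).  Choose r > 0 with 2r ≤ dist (g^[i] z₀) z₀ for all 0 < i < m (finite minimum), B := ball z₀ r.
z₀ ∈ Omd d ⊆ interior (K0D d) (`omd_sub_K0D`, hz 0).  `flat_corrD` R gives φ : SmallD R ε, φ = id off B, φ = ψ near z₀.  g' := φ ∘ g ∈ U.  For z near z₀: g^[i] z ∈ ball (g^[i] z₀) r for i < m, so g^[i] z ∉ B for 0 < i < m, and g^[m] z is in the neighbourhood of z₀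
where φ = ψ.  By induction on i < m: g'^[i] z = g^[i] z (`Function.iterate_succ_apply'`: g'^[i+1] z = φ (g (g^[i] z)) = φ (g^[i+1] z) = g^[i+1] z if i + 1 < m), and g'^[m] z = φ (g^[m] z) = ψ (g^[m] z) (m = (m-1) + 1). -/
theorem perturb_germ {R : ℕ} {U : Set (En d → En d)} (hU : PertOpenD R U) (hN : ∀ g ∈ U, NearS g) {g : En d → En d}
    (hg : g ∈ U) {z₀ : En d} {m : ℕ} (hm : 0 < m) (hz : ∀ i < m, g^[i] z₀ ∈ Omd d) (hper : g^[m] z₀ = z₀)
    (hdist : ∀ i, 0 < i → i < m → g^[i] z₀ ≠ z₀) {ψ : En d → En d} (hψ : ContDiff ℝ ∞ ψ)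
    (hO : (fun z => ψ z - z) =O[𝓝 z₀] fun z => ‖z - z₀‖ ^ (R + 1)) :
    ∃ g' ∈ U, ∀ᶠ z in 𝓝 z₀, (∀ i < m, g'^[i] z = g^[i] z) ∧ g'^[m] z = ψ (g^[m] z) := by
  obtain ⟨ε, hε, hεU⟩ := hU g hg
  have hgN := hN g hg
  have hcont : ∀ i ≤ m, ContinuousAt g^[i] z₀ := by
    intro i
    induction i with
    | zero => intro _; exact continuousAt_id
    | succ i ih =>
      intro hi
      have hi' : i < m := Nat.lt_of_succ_le hi
      have h1 := ih hi'.le
      have h2 : ContinuousAt g (g^[i] z₀) := dn18_cont hgN (hz i hi')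
      rw [Function.iterate_succ']
      exact ContinuousAt.comp h2 h1
  have hr : ∃ r > (0 : ℝ), ∀ i, 0 < i → i < m → r ≤ dist (g^[i] z₀) z₀ / 2 := by
    have h1 : ∀ M : ℕ, M ≤ m → ∃ r > (0 : ℝ), ∀ i, 0 < i → i < M → r ≤ dist (g^[i] z₀) z₀ / 2 := by
      intro M
      induction M with
      | zero => intro _; exact ⟨1, one_pos, fun i _ h => absurd h (Nat.not_lt_zero _)⟩
      | succ M ih =>
        intro hM
        obtain ⟨r, hr, h⟩ := ih (Nat.le_of_succ_le hM)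
        rcases Nat.eq_zero_or_pos M with h0 | h0
        · subst h0
          exact ⟨1, one_pos, fun i h1 h2 => absurd h2 (by omega)⟩
        · have hd : 0 < dist (g^[M] z₀) z₀ := dist_pos.2 (hdist M h0 (Nat.lt_of_succ_le hM))
          refine ⟨min r (dist (g^[M] z₀) z₀ / 2), lt_min hr (by linarith), ?_⟩
          intro i h1 h2
          rcases Nat.lt_succ_iff_lt_or_eq.1 h2 with h3 | h3
          · exact (min_le_left _ _).trans (h i h1 h3)
          · rw [h3]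
            exact min_le_right _ _
    exact h1 m le_rfl
  obtain ⟨r, hr, hrd⟩ := hr
  obtain ⟨φ, hφ, hφ1, hφ2⟩ := flat_corrD R hε (omd_sub_K0D (hz 0 hm)) (Eventually.of_forall fun z => hψ.contDiffAt)
    hO (Metric.ball_mem_nhds z₀ hr)
  have hout : ∀ᶠ z in 𝓝 z₀, ∀ i ∈ Finset.range m, 0 < i → g^[i] z ∉ Metric.ball z₀ r := by
    refine (Finset.eventually_all (Finset.range m)).2 ?_
    intro i hi
    have hi' : i < m := Finset.mem_range.1 hi
    rcases Nat.eq_zero_or_pos i with h0 | h0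
    · subst h0
      exact Eventually.of_forall fun z h => absurd h (lt_irrefl 0)
    · filter_upwards [(hcont i hi'.le).eventually (Metric.ball_mem_nhds _ hr)] with z hz1 _ hz2
      have h3 := hrd i h0 hi'
      have h4 := Metric.mem_ball.1 hz1
      have h5 := Metric.mem_ball.1 hz2
      have h6 := dist_triangle (g^[i] z₀) (g^[i] z) z₀
      rw [dist_comm (g^[i] z₀) (g^[i] z)] at h6
      linarith
  have hlast : ∀ᶠ z in 𝓝 z₀, φ (g^[m] z) = ψ (g^[m] z) := by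
    have h1 := hcont m le_rfl
    have h2 : Tendsto g^[m] (𝓝 z₀) (𝓝 z₀) := by
      have h3 := h1.tendsto
      rwa [hper] at h3
    exact h2.eventually hφ2
  refine ⟨φ ∘ g, hεU φ hφ, ?_⟩
  filter_upwards [hout, hlast] with z h1 h2
  have h3 : ∀ i < m, (φ ∘ g)^[i] z = g^[i] z := by
    intro i
    induction i with
    | zero => intro _; rfl
    | succ i ih =>
      intro hi
      rw [Function.iterate_succ_apply', ih (Nat.lt_of_succ_lt hi)]
      show φ (g (g^[i] z)) = _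
      rw [← Function.iterate_succ_apply' g i z]
      exact hφ1 _ (h1 (i + 1) (Finset.mem_range.2 hi) (Nat.succ_pos i))
  refine ⟨h3, ?_⟩
  obtain ⟨n, rfl⟩ : ∃ n, m = n + 1 := ⟨m - 1, by omega⟩
  rw [Function.iterate_succ_apply', h3 n (Nat.lt_succ_self n)]
  show φ (g (g^[n] z)) = _
  rw [← Function.iterate_succ_apply' g n z]
  exact h2

end Pool.Agent.Lib.H37D
end

-- from Lib.H37D.DN20
section

/-! # H37D, DN20: section NF, main theorem -/

open Set Filter Topology Asymptotics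
open scoped ContDiff

namespace Pool.Agent.Lib.H37D

open Pool.Agent.Lib.H37N

variable {d : ℕ}

theorem dn20_isOpen : IsOpen (Omd d) := by
  unfold Omd Om
  exact ((isOpen_interior.union isOpen_interior).union isOpen_interior).prod Metric.isOpen_ball

theorem dn20_cont {g : En d → En d} (hg : NearS g) {z : En d} {m : ℕ} (hz : ∀ i < m, g^[i] z ∈ Omd d) :
    ∀ᶠ z' in 𝓝 z, ∀ i < m, g^[i] z' ∈ Omd d := by
  have h1 : ∀ i ∈ Finset.range m, ∀ᶠ z' in 𝓝 z, g^[i] z' ∈ Omd d := by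
    intro i hi
    have hi' : i < m := Finset.mem_range.1 hi
    have h2 := (hg.fderiv_iterate i (fun j hj => hz j (hj.trans hi'))).1.continuousAt
    exact h2.eventually (dn20_isOpen.mem_nhds (hz i hi'))
  have h3 := (Finset.eventually_all (Finset.range m)).2 h1
  filter_upwards [h3] with z' h i hi
  exact h i (Finset.mem_range.2 hi)

theorem dn20_smooth {g : En d → En d} (hg : NearS g) {z : En d} {m : ℕ} (hz : ∀ i < m, g^[i] z ∈ Omd d) :
    ∀ᶠ z' in 𝓝 z, ContDiffAt ℝ ∞ g^[m] z' := by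
  filter_upwards [dn20_cont hg hz] with z' h
  exact (hg.fderiv_iterate m h).1

/-- Section NF. -/
theorem sectionN {R : ℕ} {U : Set (En d → En d)} (hU : PertOpenD R U) (hN : ∀ g ∈ U, NearS g) {g : En d → En d}
    (hg : g ∈ U) (h : CentreSpot g) : ∃ g' ∈ U, LocalSpotD g' := by
  have hgN := hN g hg
  obtain ⟨m, hm, ι, hι, hinj, hfix, hdist⟩ := h.minimal hgN
  have h0 := hfix.self_of_nhds
  obtain ⟨s, A0, A0i, hs, hss, hA1, hA2, hAn, hAq⟩ := hgN.strong hm h0.1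
  have hf := dn20_smooth hgN h0.1
  have hb := (hgN.fderiv_iterate m h0.1).2.2
  obtain ⟨Θ0, G, hΘ0, hG, hΘ00, hΘ0b, hΘ0w, hconj, hG0, hDG⟩ :=
    flatten hι hinj hf (hfix.mono fun v h => h.2) hAn hss
  obtain ⟨Θ', A, hΘ', hA, hA0, hΘ'0, hDΘ', hO⟩ := normal_form hG hG0 hA1 hA2 hDG
    (lt_of_le_of_lt hAn (by norm_num)) hAq (R + 1)
  have hΘ'00 : Θ' 0 = 0 := hΘ'0 0
  have hG00 : G 0 = 0 := hG0.self_of_nhds
  set N : En d → En d := fun p => (p.1, A p.1 p.2) with hNdef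
  have hNs : ContDiff ℝ ∞ N := contDiff_fst.prodMk ((hA.comp contDiff_fst).clm_apply contDiff_snd)
  have hN0 : N 0 = 0 := by simp [hNdef]
  -- the new chart
  have hΘ : ContDiff ℝ ∞ (fun p => Θ0 (Θ' p)) := hΘ0.comp hΘ'
  have hΘz : Θ0 (Θ' 0) = ι 0 := by rw [hΘ'00, hΘ00]
  have hDΘ : fderiv ℝ (fun p => Θ0 (Θ' p)) 0 = fderiv ℝ Θ0 0 := by
    have h1 : HasFDerivAt Θ' (ContinuousLinearMap.id ℝ (En d)) 0 := by
      rw [← hDΘ']
      exact (hΘ'.differentiable (by simp) 0).hasFDerivAt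
    have h2 : HasFDerivAt Θ0 (fderiv ℝ Θ0 0) (Θ' 0) := by
      rw [hΘ'00]
      exact (hΘ0.differentiable (by simp) 0).hasFDerivAt
    have h3 := h2.comp 0 h1
    have h4 := h3.fderiv
    rw [ContinuousLinearMap.comp_id] at h4
    exact h4
  have hO2 : (fun p : En d => g^[m] (Θ0 (Θ' p)) - Θ0 (Θ' (N p))) =O[𝓝 0] fun p => ‖p.2‖ ^ (R + 1) := by
    obtain ⟨K, t, ht, hLip⟩ := (hΘ0.contDiffAt (x := (0 : En d))).of_le (m := 1) (by simp) |>.exists_lipschitzOnWith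
    have hc1 : Tendsto (fun p => G (Θ' p)) (𝓝 0) (𝓝 0) := by
      have h := (hG.continuous.comp hΘ'.continuous).tendsto 0
      have e : (G ∘ Θ') 0 = 0 := by simp [hΘ'00, hG00]
      rw [e] at h
      exact h
    have hc2 : Tendsto (fun p => Θ' (N p)) (𝓝 0) (𝓝 0) := by
      have h := (hΘ'.continuous.comp hNs.continuous).tendsto 0
      have e : (Θ' ∘ N) 0 = 0 := by simp [hΘ'00, hN0]
      rw [e] at h
      exact h
    have hc3 : Tendsto Θ' (𝓝 0) (𝓝 0) := by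
      have := hΘ'.continuous.tendsto 0
      simpa [hΘ'00] using this
    have h1 : (fun p : En d => g^[m] (Θ0 (Θ' p)) - Θ0 (Θ' (N p))) =O[𝓝 0]
        fun p => G (Θ' p) - Θ' (N p) := by
      refine IsBigO.of_bound K ?_
      filter_upwards [hc1.eventually ht, hc2.eventually ht, hc3.eventually hconj] with p h1 h2 h3
      rw [← h3]
      exact hLip.norm_sub_le h1 h2
    exact h1.trans hO
  obtain ⟨ψ, hψ, hψO, hψe⟩ := nf_germ hf h0.2 hb hΘ hΘz (by rw [hDΘ]; exact hΘ0b) hA hO2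
  obtain ⟨g', hg', hev⟩ := perturb_germ hU hN hg hm h0.1 h0.2 hdist hψ hψO
  refine ⟨g', hg', ?_⟩
  have he := hev.self_of_nhds
  have hz' : ∀ i < m, g'^[i] (ι 0) ∈ Omd d := fun i hi => by
    rw [he.1 i hi]
    exact h0.1 i hi
  have hper : g'^[m] (ι 0) = ι 0 := by
    rw [he.2]
    have h1 := hψe.self_of_nhds
    have h2 : ((0 : En d).1, A (0 : En d).1 (0 : En d).2) = (0 : En d) := hN0
    rw [h2] at h1
    rw [hΘz] at h1
    exact h1
  refine spot_of_germ (hN g' hg') hm hz' hper (fun i hi hi' => by rw [he.1 i hi']; exact hdist i hi hi')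
    hΘ hΘz (by rw [hDΘ]; exact hΘ0b) hs (fun w => by rw [hDΘ]; exact hΘ0w w) hA
    (by rw [hA0]; exact hAn) (A0i := A0i) (by rw [hA0]; exact hA2) ?_
  have hcΘ : Tendsto (fun p => Θ0 (Θ' p)) (𝓝 0) (𝓝 (ι 0)) := by
    have := hΘ.continuous.tendsto 0
    rwa [hΘz] at this
  filter_upwards [hcΘ.eventually hev, hψe] with p h1 h2
  rw [h1.2, h2]

end Pool.Agent.Lib.H37D
end
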