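import Pool.Agent.Lib.H1M.FF.M003
import Pool.Agent.Lib.H1M.FF.M006
import Pool.Agent.Lib.H1M.FF.M008
import Pool.Agent.Lib.H1M.FF.M012
import Pool.Agent.Lib.H1M.FF.M014
import Pool.Agent.Lib.H1M.FF.M018
import Pool.Agent.Lib.H1M.FF.M019
import Pool.Agent.Lib.H1M.FF.M024
import Pool.Agent.Lib.H1M.FF.M034
import Pool.Agent.Lib.H1M.FF.M036
import Pool.Agent.Lib.H1M.FF.M037

/-! Merged copies (to shorten the build) of Lib.H37N.A112, Lib.H37N.A124, Lib.H37N.C33, Lib.H37N.C50, Lib.H37D.DP01, Lib.H37D.DP07, Lib.H37D.DP08, Lib.H37D.DP09, Lib.H37P.P04. -/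

-- from Lib.H37N.A112
section

/-!
# H37N A112 (size M): images of open sets, the cut-off function of a strip
-/

open Set Filter Topology
open scoped ContDiff

namespace Pool.Agent.Lib.H37N

variable {g : Pt → Pt}

/-- Proof: `h.smooth`. -/
theorem Near.injOn (h : Near g) : InjOn g (VV Sy.P ∪ VV Sy.Q ∪ FF) := by
  obtain ⟨O, hO, hsub, hd, hinj, hjac⟩ := h.smooth
  exact hinj.mono hsub





end Pool.Agent.Lib.H37N
end

-- from Lib.H37N.A124
section

/-!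
# H37N A124 (size M): existence of backward orbits on unstable leaves, characterisation
-/

open Set Filter Topology

namespace Pool.Agent.Lib.H37N

variable {g : Pt → Pt}

theorem a124_step (h : Near g) (b : Sy) (r : List Sy) (n : ℕ) :
    Uu g b (r.drop n).reverse =
      GG (XX g) (YY g) (r.getD n b) (Uu g b (r.drop (n + 1)).reverse) := by
  rcases lt_or_ge n r.length with hn | hn
  · have h1 : r.drop n = r[n] :: r.drop (n + 1) := List.drop_eq_getElem_cons hn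
    have h2 : r.getD n b = r[n] := by
      rw [List.getD_eq_getElem?_getD, List.getElem?_eq_getElem hn]
      rfl
    rw [h1, List.reverse_cons, Uu_append, h2]
    rfl
  · have h1 : r.drop n = [] := List.drop_eq_nil_of_le hn
    have h2 : r.drop (n + 1) = [] := List.drop_eq_nil_of_le (by omega)
    have h3 : r.getD n b = b := by
      rw [List.getD_eq_getElem?_getD, List.getElem?_eq_none hn]
      rfl
    rw [h1, h2, h3]
    exact (fixL_fix h.cs b).symm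

/-- Proof. Put `W n = (List.dropLast)^[n] w`, letter `ι n = (w.reverse).getD n b` (the last letter of `W n`, or `b` if `W n = []`),
`x 0 = x`, `x (n+1) = sol (XX g) (ι n) (Uu g b (W (n+1))) (x n)`, `ζ n = (x n, Uu g b (W n) (x n))`. Since
`Uu g b (W n) = GG (ι n) (Uu g b (W (n+1)))` (`Uu_append` for `W n = W (n+1) ++ [ι n]`; for `W n = []`: `fixL_fix`), `step_U` gives
`g (ζ (n+1)) = ζ n`, `ζ (n+1) ∈ VV (ι n)`, with first coordinate interior; the second coordinate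
`Uu g b (W (n+1)) (x (n+1))` is interior too (`GG_int`, every `Uu g b _` is a value of `GG`). Alternatively: induction on
`w.reverse`, with the case `w = []` by iterating `x ↦ sol (XX g) b (fixL ..) x`. Limit: `back_tendsto` with `N0 = w.length`. -/
theorem back_orbit (h : Near g) (b : Sy) (w : List Sy) {x : ℝ} (hx : x ∈ II) : ∃ ζ : ℕ → Pt,
    ζ 0 = (x, Uu g b w x) ∧ (∀ n, ζ (n + 1) ∈ interior (VV (w.reverse.getD n b))) ∧
    (∀ n, g (ζ (n + 1)) = ζ n) ∧ Tendsto ζ atTop (𝓝 (fixP g b)) := by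
  let r := w.reverse
  let L : ℕ → ℝ → ℝ := fun n => Uu g b (r.drop n).reverse
  let xs : ℕ → ℝ := fun n => Nat.rec x (fun k y => sol (XX g) (r.getD k b) (L (k + 1)) y) n
  have hL : ∀ n, IsLeaf (L n) := fun n => Uu_leaf h b _
  have hstep : ∀ n, L n = GG (XX g) (YY g) (r.getD n b) (L (n + 1)) := fun n => a124_step h b r n
  have hxs : ∀ n, xs (n + 1) = sol (XX g) (r.getD n b) (L (n + 1)) (xs n) := fun n => rfl
  have hI : ∀ n, xs n ∈ II := by
    intro n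
    cases n with
    | zero => exact hx
    | succ n =>
      rw [hxs]
      have h1 := sol_mem h.cs (r.getD n b) (hL (n + 1)) (xs n)
      exact ⟨h1.1.le, h1.2.le⟩
  have hint : ∀ n y, L n y ∈ Ioo (-del) (1 + del) := by
    intro n y
    rw [hstep n]
    exact GG_int h.cs _ (hL (n + 1)) y
  have hV : ∀ n, ((xs (n + 1), L (n + 1) (xs (n + 1))) : Pt) ∈ interior (VV (r.getD n b)) := by
    intro n
    have h1 := (step_U h (r.getD n b) (hL (n + 1)) (hI n)).2.1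
    exact a123_int h1 (hint (n + 1) _)
  have hg : ∀ n, g (xs (n + 1), L (n + 1) (xs (n + 1))) = (xs n, L n (xs n)) := by
    intro n
    have h1 := (step_U h (r.getD n b) (hL (n + 1)) (hI n)).2.2
    rw [hstep n]
    exact h1
  refine ⟨fun n => (xs n, L n (xs n)), ?_, hV, hg, ?_⟩
  · change ((x, Uu g b (r.drop 0).reverse x) : Pt) = (x, Uu g b w x)
    rw [List.drop_zero, List.reverse_reverse]
  · refine back_tendsto h b (N0 := w.length) (fun n => ⟨hI n, (hL n).mem _⟩) ?_ hg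
    intro n hn
    have h1 : r.getD n b = b := by
      rw [List.getD_eq_getElem?_getD, List.getElem?_eq_none (by simpa [r] using hn)]
      rfl
    have h2 := interior_subset (hV n)
    rw [h1] at h2
    exact h2

/-- characterisation of the unstable leaves. Proof: `back_orbit` and `back_unique`. -/
theorem back_char (h : Near g) (b : Sy) (w : List Sy) {ζ : ℕ → Pt} (hN : ζ 0 ∈ NN)
    (hV : ∀ n, ζ (n + 1) ∈ VV (w.reverse.getD n b)) (hg : ∀ n, g (ζ (n + 1)) = ζ n) :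
    (ζ 0).2 = Uu g b w (ζ 0).1 := by
  obtain ⟨ζ', h0, hV', hg', _⟩ := back_orbit h b w (x := (ζ 0).1) hN.1
  have hN' : ζ' 0 ∈ NN := by
    rw [h0]
    exact ⟨hN.1, (Uu_leaf h b w).mem _⟩
  have h1 := back_unique h (ι := fun n => w.reverse.getD n b) hN hN' hV
    (fun n => interior_subset (hV' n)) hg hg' (by rw [h0])
  rw [h0] at h1
  exact congrArg Prod.snd h1

end Pool.Agent.Lib.H37N
end

-- from Lib.H37N.C33
section

/-!
# H37N C33 (size M): the unstable side of the first tangency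
-/

open Set Filter Topology
open scoped ContDiff

namespace Pool.Agent.Lib.H37N

theorem c33_FF_sub_NN {z : Pt} (hz : z ∈ FF) : z ∈ NN := by
  obtain ⟨⟨h1, h2⟩, h3⟩ := hz
  refine ⟨⟨?_, ?_⟩, h3⟩
  · simp only [xc, u0, del] at *
    linarith
  · simp only [xc, u0, del] at *
    linarith




end Pool.Agent.Lib.H37N
end

-- from Lib.H37N.C50
section

/-!
# H37N C50: persistence of tangency data (C.1), the induction on the order (C.5), the first datum (C.6)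
-/

open Set Filter Topology Asymptotics
open scoped ContDiff

namespace Pool.Agent.Lib.H37N

/-- persistence of the path -/
theorem c50_path {g g' : Pt → Pt} {F : Fr} {b : ℝ} {Z : Set Pt} (he : ∀ z ∈ VO ∪ Z, g' z = g z) {v : Pt}
    {k : ℕ} (hv : ∀ i < k, InM g F b i v ∈ VO ∪ Z) : ∀ i ≤ k, InM g' F b i v = InM g F b i v := by
  intro i
  induction i with
  | zero => intro _; rfl
  | succ i ih =>
    intro hi
    have h1 := ih (by omega)
    have h2 := hv i (by omega)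
    unfold InM at h1 h2 ⊢
    rw [Function.iterate_succ_apply', Function.iterate_succ_apply', h1, he _ h2]

/-- persistence (C.1) -/
theorem TD.congr {g g' : Pt → Pt} (h : Near g) {F : Fr} (hF : IsFr g F) {Z : Set Pt} {m : ℕ} {b a : ℝ}
    {k l : ℕ} (t : TD g F Z m b a k l) (he : ∀ z ∈ VO ∪ Z, g' z = g z) : TD g' F Z m b a k l := by
  have hOm : VO ∪ Z ⊆ Om := union_subset (fun z hz => Or.inl hz) (fun z hz => Or.inr (t.subZ hz))
  have hopen : IsOpen (VO ∪ Z) := isOpen_VO.union t.openZ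
  have hIn0 : ∀ i, InM g F b i 0 = g^[i] (F.κ Sy.Q (0, b)) := by
    intro i; simp [InM]
  have hκ : Tendsto (fun v : Pt => F.κ Sy.Q (v.1, b + v.2)) (𝓝 0) (𝓝 (F.κ Sy.Q (0, b))) := by
    have h1 : Continuous (fun v : Pt => F.κ Sy.Q (v.1, b + v.2)) :=
      (hF.chart Sy.Q).smooth.continuous.comp (by fun_prop)
    have h2 := h1.tendsto 0
    simpa using h2
  have hcont : ∀ i ≤ k, Tendsto (fun v : Pt => InM g F b i v) (𝓝 0) (𝓝 (InM g F b i 0)) := by
    intro i hi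
    have h1 := (h.iter_Om i (z := F.κ Sy.Q (0, b)) (fun j hj => by
      have := t.path1 j (by omega)
      rw [hIn0] at this
      exact hOm this)).self_of_nhds.1.continuousAt.tendsto
    rw [hIn0]
    exact h1.comp hκ
  have hpath : ∀ᶠ v in 𝓝 (0 : Pt), ∀ i ≤ k, InM g F b i v ∈ VO ∪ Z := by
    have h1 : ∀ i ∈ Finset.range (k + 1), ∀ᶠ v in 𝓝 (0 : Pt), InM g F b i v ∈ VO ∪ Z := by
      intro i hi
      have hi' : i ≤ k := by simpa [Nat.lt_succ_iff] using hi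
      exact (hcont i hi').eventually (hopen.mem_nhds (t.path1 i hi'))
    have h2 := (Finset.eventually_all (Finset.range (k + 1))).2 h1
    filter_upwards [h2] with v hv i hi
    exact hv i (by simpa [Nat.lt_succ_iff] using hi)
  have hIn : ∀ᶠ v in 𝓝 (0 : Pt), ∀ i ≤ k, InM g' F b i v = InM g F b i v := by
    filter_upwards [hpath] with v hv
    exact c50_path he (fun i hi => hv i hi.le)
  have hIn' := hIn.self_of_nhds
  have hgz : g' (InM g F b k 0) = g (InM g F b k 0) := he _ (Or.inr t.memZ)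
  have hVO : ∀ z ∈ VO, g' z = g z := fun z hz => he z (Or.inl hz)
  have hit := iterate_eq_of_VO (n := l) hVO (z := g (InM g F b k 0)) (fun j hj => t.path2 j hj.le)
  refine ⟨t.openZ, t.subZ, t.b_pos, t.b_lt, t.a_lt, ?_, ?_, ?_, ?_, ?_, ?_⟩
  · intro i hi
    rw [hIn' i hi]; exact t.path1 i hi
  · rw [hIn' k le_rfl]; exact t.memZ
  · intro i hi
    rw [hIn' i hi.le, hIn' k le_rfl]; exact t.dist i hi
  · intro i hi
    rw [hIn' k le_rfl, hgz, hit i hi]; exact t.path2 i hi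
  · rw [hIn' k le_rfl, hgz, hit l le_rfl]; exact t.fin
  · have hgc : Tendsto (fun v : Pt => g (InM g F b k v)) (𝓝 0) (𝓝 (g (InM g F b k 0))) := by
      have h1 := (h.contDiffAt_Om (hOm (Or.inr t.memZ))).self_of_nhds.continuousAt.tendsto
      exact h1.comp (hcont k le_rfl)
    have hl := h.iter l (z := g (InM g F b k 0)) (fun j hj => t.path2 j hj.le)
    have hev : ∀ᶠ v in 𝓝 (0 : Pt), TT g' F b k l v = TT g F b k l v := by
      filter_upwards [hIn, hpath, hgc.eventually hl] with v h1 h2 h3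
      unfold TT PlM
      rw [h1 k le_rfl, he _ (h2 k le_rfl), iterate_eq_of_VO (n := l) hVO h3.2 l le_rfl]
    have hline : Tendsto (fun t : ℝ => ((0, t) : Pt)) (𝓝 0) (𝓝 0) := by
      have : Continuous (fun t : ℝ => ((0, t) : Pt)) := by fun_prop
      exact this.tendsto 0
    refine t.ord.congr' ?_ EventuallyEq.rfl
    filter_upwards [hline.eventually hev] with s hs
    rw [hs]

theorem EqOff.trans {Z : Set Pt} {g g' g'' : Pt → Pt} (h : EqOff Z g g') (h' : EqOff Z g' g'') :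
    EqOff Z g g'' := fun z hz hz' => (h' z hz hz').trans (h z hz hz')

theorem EqOff.mono {Z Z' : Set Pt} {g g' : Pt → Pt} (h : EqOff Z g g') (hZ : Z ⊆ Z') :
    EqOff Z' g g' := fun z hz hz' => h z hz fun h' => hz' (hZ h')

theorem EqOff.strips {Z : Set Pt} {g g' : Pt → Pt} (h : EqOff Z g g') (hZ : Z ⊆ interior FF) :
    ∀ z ∈ VV Sy.P ∪ VV Sy.Q, g' z = g z := fun z hz =>
  h z (Or.inl hz) fun h' => (Set.disjoint_left.mp VV_FF_disjoint) hz (interior_subset (hZ h'))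


theorem TD.mono {g : Pt → Pt} {F : Fr} {Z Z' : Set Pt} {m : ℕ} {b a : ℝ} {k l : ℕ}
    (t : TD g F Z m b a k l) (hZ : Z ⊆ Z') (ho : IsOpen Z') (hF' : Z' ⊆ interior FF) :
    TD g F Z' m b a k l :=
  ⟨ho, hF', t.b_pos, t.b_lt, t.a_lt, fun i hi => (t.path1 i hi).imp id fun h => hZ h, hZ t.memZ,
    t.dist, t.path2, t.fin, t.ord⟩



end Pool.Agent.Lib.H37N
end

-- from Lib.H37D.DP01
section

/-!
# H37D DP01 (S/M): persistence of tangency data (port of H37P/P01.lean)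

As in H37P/P01: `NearD.iter_Omd`, `NearD.iter_VOD`, `iterate_eq_of_VOD`, `isOpen_VOD`, `isOpen_Omd` (DC01) replace the planar lemmas;
`InD g s b i 0 = g^[i] (κQ ((0, b), 0))`; `v ↦ κQ ((v.1.1, b + v.1.2), v.2)` is continuous.
`tdd_congr`: `g' = g` on `VOD ∪ Z1`; the paths are the same, `TTD g' = TTD g` near `0` (`ttd_congr`), the order condition along `t ↦ ((0,t),0)`.
-/

open Set Filter Topology Asymptotics
open scoped ContDiff

namespace Pool.Agent.Lib.H37D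

open Pool.Agent.Lib.H37N

variable {d : ℕ}

theorem dp01_eq {g g' : En d → En d} {Z1 Z2 : Set (En d)} (h : EqOffD Z2 g g')
    (hZ1 : Z1 ⊆ interior (FFd d)) (hZ2 : Z2 ⊆ FFd d) (hd : Disjoint Z1 Z2) :
    ∀ z ∈ VOD d ∪ Z1, g' z = g z := by
  rintro z (hz | hz)
  · have hzV := VOD_sub hz
    refine h z (Or.inl hzV) fun h2 => ?_
    exact Set.disjoint_left.1 VVd_FFd_disjoint hzV (hZ2 h2)
  · exact h z (Or.inr (interior_subset (hZ1 hz))) fun h2 => Set.disjoint_left.1 hd hz h2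

theorem dp01_path {g g' : En d → En d} {F : FrD d} {b : ℝ} {Z : Set (En d)}
    (he : ∀ z ∈ VOD d ∪ Z, g' z = g z) {v : En d} {k : ℕ}
    (hv : ∀ i < k, InD g F b i v ∈ VOD d ∪ Z) : ∀ i ≤ k, InD g' F b i v = InD g F b i v := by
  intro i
  induction i with
  | zero => intro _; rfl
  | succ i ih =>
    intro hi
    have h1 := ih (by omega)
    have h2 := hv i (by omega)
    unfold InD at h1 h2 ⊢
    rw [Function.iterate_succ_apply', Function.iterate_succ_apply', h1, he _ h2]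

/-- near `0` the paths stay in the open region and are the same for the two maps -/
theorem dp01_near {g g' : En d → En d} {s : FrD d} {Z1 : Set (En d)} {m : ℕ} {b a : ℝ}
    {wT : Wd d} {k l : ℕ} (hN : NearS g) (hs : IsFrD g s) (ht : TDD g s Z1 m b a wT k l)
    (he : ∀ z ∈ VOD d ∪ Z1, g' z = g z) :
    (∀ᶠ v in 𝓝 (0 : En d), ∀ i ≤ k, InD g' s b i v = InD g s b i v) ∧
      ∀ᶠ v in 𝓝 (0 : En d), TTD g' s b k l v = TTD g s b k l v := by
  have hOm : VOD d ∪ Z1 ⊆ Omd d :=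
    union_subset VOD_sub_Omd (fun z hz => interior_FFd_sub_Omd (ht.subZ hz))
  have hopen : IsOpen (VOD d ∪ Z1) := isOpen_VOD.union ht.openZ
  have hIn0 : ∀ i, InD g s b i 0 = g^[i] (s.κ Sy.Q ((0, b), 0)) := by
    intro i
    simp [InD]
  have hκ : Tendsto (fun v : En d => s.κ Sy.Q ((v.1.1, b + v.1.2), v.2)) (𝓝 0)
      (𝓝 (s.κ Sy.Q ((0, b), 0))) := by
    have h1 : Continuous (fun v : En d => s.κ Sy.Q ((v.1.1, b + v.1.2), v.2)) :=
      (hs.chart Sy.Q).smooth.continuous.comp (by fun_prop)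
    have h2 := h1.tendsto 0
    simpa using h2
  have hcont : ∀ i ≤ k, Tendsto (fun v : En d => InD g s b i v) (𝓝 0) (𝓝 (InD g s b i 0)) := by
    intro i hi
    have h1 := (hN.toNearD.iter_Omd i (z := s.κ Sy.Q ((0, b), 0)) (fun j hj => by
      have := ht.path1 j (by omega)
      rw [hIn0] at this
      exact hOm this)).self_of_nhds.1.continuousAt.tendsto
    rw [hIn0]
    exact h1.comp hκ
  have hpath : ∀ᶠ v in 𝓝 (0 : En d), ∀ i ≤ k, InD g s b i v ∈ VOD d ∪ Z1 := by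
    have h1 : ∀ i ∈ Finset.range (k + 1), ∀ᶠ v in 𝓝 (0 : En d), InD g s b i v ∈ VOD d ∪ Z1 := by
      intro i hi
      have hi' : i ≤ k := by simpa [Nat.lt_succ_iff] using hi
      exact (hcont i hi').eventually (hopen.mem_nhds (ht.path1 i hi'))
    have h2 := (Finset.eventually_all (Finset.range (k + 1))).2 h1
    filter_upwards [h2] with v hv i hi
    exact hv i (by simpa [Nat.lt_succ_iff] using hi)
  have hIn : ∀ᶠ v in 𝓝 (0 : En d), ∀ i ≤ k, InD g' s b i v = InD g s b i v := by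
    filter_upwards [hpath] with v hv
    exact dp01_path he (fun i hi => hv i hi.le)
  have hVO : ∀ z ∈ VOD d, g' z = g z := fun z hz => he z (Or.inl hz)
  have hgc : Tendsto (fun v : En d => g (InD g s b k v)) (𝓝 0) (𝓝 (g (InD g s b k 0))) := by
    have h1 := (hN.toNearD.contDiffAt_Omd (hOm (Or.inr ht.memZ))).self_of_nhds.continuousAt.tendsto
    exact h1.comp (hcont k le_rfl)
  have hl := hN.toNearD.iter_VOD l (z := g (InD g s b k 0)) (fun j hj => ht.path2 j hj.le)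
  refine ⟨hIn, ?_⟩
  filter_upwards [hIn, hpath, hgc.eventually hl] with v h1 h2 h3
  unfold TTD PlD
  rw [h1 k le_rfl, he _ (h2 k le_rfl), dc01_iter_eq (n := l) hVO h3.2 l le_rfl]

/-- the transition map is the same near `0` -/
theorem ttd_congr {g g' : En d → En d} {s : FrD d} {Z1 Z2 : Set (En d)} {m : ℕ} {b a : ℝ}
    {wT : Wd d} {k l : ℕ} (hN : NearS g) (hs : IsFrD g s) (ht : TDD g s Z1 m b a wT k l)
    (h : EqOffD Z2 g g') (hZ2 : Z2 ⊆ FFd d) (hd : Disjoint Z1 Z2) :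
    ∀ᶠ v in 𝓝 (0 : En d), TTD g' s b k l v = TTD g s b k l v :=
  (dp01_near hN hs ht (dp01_eq h ht.subZ hZ2 hd)).2

theorem tdd_congr {g g' : En d → En d} {s : FrD d} {Z1 Z2 : Set (En d)} {m : ℕ} {b a : ℝ}
    {wT : Wd d} {k l : ℕ} (hN : NearS g) (hs : IsFrD g s) (ht : TDD g s Z1 m b a wT k l)
    (h : EqOffD Z2 g g') (hZ2 : Z2 ⊆ FFd d) (hd : Disjoint Z1 Z2) :
    TDD g' s Z1 m b a wT k l := by
  have he := dp01_eq h ht.subZ hZ2 hd
  obtain ⟨hIn, hev⟩ := dp01_near hN hs ht he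
  have hIn' := hIn.self_of_nhds
  have hgz : g' (InD g s b k 0) = g (InD g s b k 0) := he _ (Or.inr ht.memZ)
  have hVO : ∀ z ∈ VOD d, g' z = g z := fun z hz => he z (Or.inl hz)
  have hit := dc01_iter_eq (n := l) hVO (z := g (InD g s b k 0)) (fun j hj => ht.path2 j hj.le)
  refine ⟨ht.openZ, ht.subZ, ht.b_pos, ht.b_lt, ht.a_lt, ht.w_lt, ?_, ?_, ?_, ?_, ?_, ?_⟩
  · intro i hi
    rw [hIn' i hi]; exact ht.path1 i hi
  · rw [hIn' k le_rfl]; exact ht.memZ
  · intro i hi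
    rw [hIn' i hi.le, hIn' k le_rfl]; exact ht.dist i hi
  · intro i hi
    rw [hIn' k le_rfl, hgz, hit i hi]; exact ht.path2 i hi
  · rw [hIn' k le_rfl, hgz, hit l le_rfl]; exact ht.fin
  · have hline : Tendsto (fun t : ℝ => (((0, t), 0) : En d)) (𝓝 0) (𝓝 0) := by
      have : Continuous (fun t : ℝ => (((0, t), 0) : En d)) := by fun_prop
      exact this.tendsto 0
    refine ht.ord.congr' ?_ EventuallyEq.rfl
    filter_upwards [hline.eventually hev] with t ht'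
    rw [ht']


end Pool.Agent.Lib.H37D
end

-- from Lib.H37D.DP07
section

/-!
# H37D DP07 (M): the path of the pass (port of H37N/I0b.lean and H37P/P07.lean)

`dp07_lin_iter`: `LinChartD.iter`, `LinChartD.iter_mem` (DB10) and `mem_BxD`: `|lam^j x| ≤ |x|`, `|mu^j y| ≤ |mu^n y|`, `‖mulw (al^j) w‖ ≤ ‖w‖` (`0 < al k < 1`).
`pass_rawD`: as `pass_path`: `r ≤ 1` such that `SDataD.path`, `SDataD.back`, `SDataD.smooth` hold on the ball of radius `r` of `En d`; the point after `n` steps is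
`κP ((σ, uS + t), mulw (al_P^n) w)` with `σ = lam_P^n X`, `t = mu_P^n y - uS`; then `path`, `back`: after `kS` more steps it is `κQ (SSD ..)`, `SSD .. ∈ BxD d`; then `m` steps
in the chart at `Q` (`|mu_Q^m (SSD ..).1.2| < 2`).
-/

open Set Filter Topology Asymptotics
open scoped ContDiff

namespace Pool.Agent.Lib.H37D

open Pool.Agent.Lib.H37N

variable {d : ℕ}

theorem dp07_norm_le {α w : Wd d} (h : ∀ k, |α k| ≤ 1) : ‖mulw α w‖ ≤ ‖w‖ := by
  rw [pi_norm_le_iff_of_nonneg (norm_nonneg _)]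
  intro k
  have h1 := norm_le_pi_norm w k
  unfold mulw
  rw [norm_mul, Real.norm_eq_abs (α k)]
  calc |α k| * ‖w k‖ ≤ 1 * ‖w k‖ := mul_le_mul_of_nonneg_right (h k) (norm_nonneg _)
    _ = ‖w k‖ := one_mul _
    _ ≤ ‖w‖ := h1

theorem dp07_lin_iter {g : En d → En d} {i : Sy} {κ c : En d → En d} {lam mu : ℝ} {al : Wd d}
    (h : LinChartD g i κ c lam mu al) {x y : ℝ} {w : Wd d} (n : ℕ) (hx : |x| < 2)
    (hy : |mu ^ n * y| < 2) (hw : ‖w‖ < 2) :
    ∀ j ≤ n, g^[j] (κ ((x, y), w)) = κ ((lam ^ j * x, mu ^ j * y), mulw (al ^ j) w) ∧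
      ((lam ^ j * x, mu ^ j * y), mulw (al ^ j) w) ∈ BxD d ∧ g^[j] (κ ((x, y), w)) ∈ VOD d := by
  have hmu : 1 < mu := h.one_lt
  have hmu0 : 0 < mu := by linarith
  have hl2 := h.lam_mem.2
  have hl0 : 0 < lam := h.lam_pos
  have hX : ∀ j : ℕ, |lam ^ j * x| < 2 := by
    intro j
    rw [abs_mul, abs_of_pos (pow_pos hl0 j)]
    have : lam ^ j ≤ 1 := pow_le_one₀ hl0.le (by linarith)
    nlinarith [abs_nonneg x]
  have hY : ∀ j : ℕ, j ≤ n → |mu ^ j * y| < 2 := by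
    intro j hj
    rw [abs_mul, abs_of_pos (pow_pos hmu0 j)]
    rw [abs_mul, abs_of_pos (pow_pos hmu0 n)] at hy
    have : mu ^ j ≤ mu ^ n := pow_le_pow_right₀ hmu.le hj
    nlinarith [abs_nonneg y]
  have hW : ∀ j : ℕ, ‖mulw (al ^ j) w‖ < 2 := by
    intro j
    refine lt_of_le_of_lt (dp07_norm_le fun k => ?_) hw
    obtain ⟨h1, h2⟩ := h.al_mem k
    have h3 : 0 < al k := lt_trans (by norm_num) h1
    have h4 : al k ≤ 1 := h2.le.trans (by norm_num)
    rw [Pi.pow_apply, abs_of_pos (pow_pos h3 j)]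
    exact pow_le_one₀ h3.le h4
  have hB : ∀ j : ℕ, j ≤ n → ((lam ^ j * x, mu ^ j * y), mulw (al ^ j) w) ∈ BxD d := by
    intro j hj
    exact mem_BxD.2 ⟨⟨hX j, hY j hj⟩, hW j⟩
  have hI : ∀ j : ℕ, j ≤ n →
      g^[j] (κ ((x, y), w)) = κ ((lam ^ j * x, mu ^ j * y), mulw (al ^ j) w) := by
    intro j
    induction j with
    | zero =>
      intro _
      have e : mulw (al ^ 0) w = w := by
        funext k
        simp [mulw]
      rw [e]
      simp
    | succ j ih =>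
      intro hj
      rw [Function.iterate_succ_apply', ih (by omega)]
      have h3 : |mu * (mu ^ j * y)| < 2 := by
        have := hY (j + 1) hj
        rw [pow_succ'] at this
        rwa [← mul_assoc]
      rw [h.lin _ _ _ (hX j) h3 (hW j)]
      have e1 : lam * (lam ^ j * x) = lam ^ (j + 1) * x := by ring
      have e2 : mu * (mu ^ j * y) = mu ^ (j + 1) * y := by ring
      have e3 : mulw al (mulw (al ^ j) w) = mulw (al ^ (j + 1)) w := by
        funext k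
        simp only [mulw, Pi.pow_apply]
        ring
      rw [e1, e2, e3]
  intro j hj
  refine ⟨hI j hj, hB j hj, ?_⟩
  rw [hI j hj]
  have := h.sub (mem_image_of_mem κ (hB j hj))
  unfold VOD VO
  cases i
  · exact ⟨Or.inl this.1, this.2⟩
  · exact ⟨Or.inr this.1, this.2⟩

theorem pass_rawD {g : En d → En d} {s : FrD d} (hs : IsFrD g s) :
    ∃ r > 0, ContDiffOn ℝ ∞ (SSD g s) (Metric.ball 0 r) ∧ SSD g s 0 = ((s.sS, 0), s.wS) ∧
      ∀ (n m : ℕ) (X y : ℝ) (w : Wd d), |X| ≤ 1 → ‖w‖ ≤ 1 → |s.lam Sy.P ^ n * X| < r →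
        |s.mu Sy.P ^ n * y - s.uS| < r → ‖mulw (s.al Sy.P ^ n) w‖ < r →
        |s.mu Sy.Q ^ m * (SSD g s ((s.lam Sy.P ^ n * X, s.mu Sy.P ^ n * y - s.uS),
          mulw (s.al Sy.P ^ n) w)).1.2| < 2 →
        g^[n + s.kS + m] (s.κ Sy.P ((X, y), w)) =
          s.κ Sy.Q ((s.lam Sy.Q ^ m * (SSD g s ((s.lam Sy.P ^ n * X, s.mu Sy.P ^ n * y - s.uS),
              mulw (s.al Sy.P ^ n) w)).1.1,
            s.mu Sy.Q ^ m * (SSD g s ((s.lam Sy.P ^ n * X, s.mu Sy.P ^ n * y - s.uS),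
              mulw (s.al Sy.P ^ n) w)).1.2),
            mulw (s.al Sy.Q ^ m) (SSD g s ((s.lam Sy.P ^ n * X, s.mu Sy.P ^ n * y - s.uS),
              mulw (s.al Sy.P ^ n) w)).2) ∧
        ∀ i ≤ n + s.kS + m, g^[i] (s.κ Sy.P ((X, y), w)) ∈ VOD d := by
  have hev := (hs.sdata.path.and hs.sdata.back).and hs.sdata.smooth
  obtain ⟨r0, hr0, hball⟩ := Metric.eventually_nhds_iff_ball.1 hev
  refine ⟨min r0 1, lt_min hr0 one_pos, ?_, hs.sdata.S0, ?_⟩
  · intro v hv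
    exact (hball v (Metric.ball_subset_ball (min_le_left _ _) hv)).2.contDiffWithinAt
  · intro n m X y w hX1 hw1 hX hY hW hM
    have hX0 := lt_of_lt_of_le hX (min_le_left _ _)
    have hY0 := lt_of_lt_of_le hY (min_le_left _ _)
    have hY1 := lt_of_lt_of_le hY (min_le_right _ _)
    have hW0 := lt_of_lt_of_le hW (min_le_left _ _)
    set v : En d := ((s.lam Sy.P ^ n * X, s.mu Sy.P ^ n * y - s.uS), mulw (s.al Sy.P ^ n) w) with hv
    have hvb : v ∈ Metric.ball (0 : En d) r0 := by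
      rw [mem_ball_zero_iff, Prod.norm_def, Prod.norm_def, max_lt_iff, max_lt_iff,
        Real.norm_eq_abs, Real.norm_eq_abs]
      exact ⟨⟨hX0, hY0⟩, hW0⟩
    obtain ⟨⟨hpath, hback1, hback2⟩, -⟩ := hball v hvb
    have hmuy : |s.mu Sy.P ^ n * y| < 2 := by
      have h1 := hs.sdata.u_lt
      have h2 : |s.mu Sy.P ^ n * y| ≤ |s.mu Sy.P ^ n * y - s.uS| + |s.uS| := by
        have := abs_add_le (s.mu Sy.P ^ n * y - s.uS) s.uS
        rwa [sub_add_cancel] at this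
      linarith
    have hP := dp07_lin_iter (hs.chart Sy.P) (x := X) (y := y) (w := w) n (by linarith) hmuy
      (by linarith)
    set q : En d := SSD g s v with hq
    have hqB : q ∈ BxD d := hback1
    have hq2 : s.κ Sy.Q q = g^[s.kS] (s.κ Sy.P ((v.1.1, s.uS + v.1.2), v.2)) := hback2
    have hqm : ((q.1.1, q.1.2), q.2) ∈ BxD d := hqB
    rw [mem_BxD] at hqm
    have hQ := dp07_lin_iter (hs.chart Sy.Q) (x := q.1.1) (y := q.1.2) (w := q.2) m hqm.1.1 hM hqm.2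
    have hn : g^[n] (s.κ Sy.P ((X, y), w)) = s.κ Sy.P ((v.1.1, s.uS + v.1.2), v.2) := by
      rw [(hP n le_rfl).1]
      have e : s.mu Sy.P ^ n * y = s.uS + (s.mu Sy.P ^ n * y - s.uS) := by ring
      rw [hv]
      simp only
      rw [← e]
    have hk : g^[n + s.kS] (s.κ Sy.P ((X, y), w)) = s.κ Sy.Q ((q.1.1, q.1.2), q.2) := by
      rw [Nat.add_comm n s.kS, Function.iterate_add_apply, hn, ← hq2]
    refine ⟨?_, ?_⟩
    · have e1 : n + s.kS + m = m + (n + s.kS) := by omega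
      rw [e1, Function.iterate_add_apply, hk]
      exact (hQ m le_rfl).1
    · intro i hi
      rcases Nat.lt_or_ge n i with h1 | h1
      · rcases Nat.lt_or_ge (n + s.kS) i with h2 | h2
        · obtain ⟨j, rfl⟩ : ∃ j, i = j + (n + s.kS) := ⟨i - (n + s.kS), by omega⟩
          rw [Function.iterate_add_apply, hk]
          exact (hQ j (by omega)).2.2
        · obtain ⟨j, rfl⟩ : ∃ j, i = j + n := ⟨i - n, by omega⟩
          rw [Function.iterate_add_apply, hn]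
          exact hpath j (by omega)
      · exact (hP i h1).2.2

end Pool.Agent.Lib.H37D
end

-- from Lib.H37D.DP08
section

/-!
# H37D DP08 (M): the functions of the pass (port of H37N/I0a.lean and H37P/P08.lean, with the parameter `w`)

`exists_passFnD`. `localise_at`: `T : En d → En d` smooth, `T = S` near `0`. `F((σ,w), τ) = (T ((σ,τ),w)).1.2`, `inverse_param` (T10b) at `((0,0),0)`
(`deriv = dS ≠ 0`): `θ`, `Th (σ,w) = θ((σ,w),0)` (value `0`): `(T ((σ, Th(σ,w)), w)).1.2 = 0` near `0`, `Th (0,0) = 0`.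
`hadamard1` with the parameter `p = (σ,w) : ℝ × Wd d` for `(p,t) ↦ (T ((σ, Th p + t), w)).1.2 = 0 + t G(p,t)`, `G(0,0) = dS`, `W ((σ,t),w) = G((σ,w),t)/dS`.
`hadamard1` for `(T ((σ, Th p + t), w)).1.1 = H(σ,w) + t Y2`; `H(σ,w) = (T ((σ, Th (σ,w)), w)).1.1`: `hadamard1` in `σ` (parameter `w`): `H(σ,w) = H(0,w) + σ Y1(σ,w)`,
`Y1(0,0) = ∂_σ H(0,0) = ∂_σ T_1 + ∂_t T_1 ∂_σ Th`, and `∂_σ Th (0,0) = - ∂_σ T_2/dS` (differentiate `T_2((σ,Th(σ,0)),0) = 0`), so `Y1(0,0) = pjac S 0 / dS`;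
`hadamard` (T2, with a trivial parameter space, e.g. `P = ℝ` not used) for `w ↦ H(0,w) = sS + Y3(w) w`.
`K(v) = (T ((σ, Th(σ,w) + t), w)).2`, `v = ((σ,t),w)`: `hadamard` : `K(v) = wS + G(v) v`, `Z1(v) = G(v) ((1,0),0)`, `Z2(v) = G(v) ((0,1),0)`, `Z3(v) = (G(v)).comp (inr)`.
All identities hold near `0`; `r` = radius of a ball.
-/

open Set Filter Topology Asymptotics
open scoped ContDiff

namespace Pool.Agent.Lib.H37D

open Pool.Agent.Lib.H37N

variable {d : ℕ}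

theorem exists_passFnD {S : En d → En d} {sS dS : ℝ} {wS : Wd d}
    (hS : ∀ᶠ v in 𝓝 (0 : En d), ContDiffAt ℝ ∞ S v) (h0 : S 0 = ((sS, 0), wS))
    (hd : (fderiv ℝ S 0 ((0, 1), 0)).1.2 = dS) (hd0 : dS ≠ 0) :
    ∃ f : PFD d, SmPFD f ∧ f.Y1 (0, 0) = pjac S 0 / dS ∧
      (∀ᶠ v in 𝓝 (0 : En d), (S ((v.1.1, f.Th (v.1.1, v.2) + v.1.2), v.2)).1.2 = dS * v.1.2 * f.W v) ∧
      (∀ᶠ v in 𝓝 (0 : En d), (S ((v.1.1, f.Th (v.1.1, v.2) + v.1.2), v.2)).1.1 =
        sS + v.1.1 * f.Y1 (v.1.1, v.2) + v.1.2 * f.Y2 v + f.Y3 v.2 v.2) ∧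
      (∀ᶠ v in 𝓝 (0 : En d), (S ((v.1.1, f.Th (v.1.1, v.2) + v.1.2), v.2)).2 =
        wS + v.1.1 • f.Z1 v + v.1.2 • f.Z2 v + f.Z3 v v.2) := by
  obtain ⟨T, hT, hTS⟩ := localise_at hS
  have hT0 : T 0 = ((sS, 0), wS) := by rw [hTS.eq_of_nhds, h0]
  have hTf : fderiv ℝ T 0 = fderiv ℝ S 0 := hTS.fderiv_eq
  have hs1 : ContDiff ℝ ∞ fun v : En d => (T v).1.1 := contDiff_fst.comp (contDiff_fst.comp hT)
  have hs2 : ContDiff ℝ ∞ fun v : En d => (T v).1.2 := contDiff_snd.comp (contDiff_fst.comp hT)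
  have hs3 : ContDiff ℝ ∞ fun v : En d => (T v).2 := contDiff_snd.comp hT
  have hTL : HasFDerivAt T (fderiv ℝ S 0) (0 : En d) := by
    rw [← hTf]
    exact (hT.differentiable (by simp)).differentiableAt.hasFDerivAt
  have hder : HasDerivAt (fun t : ℝ => T ((0, t), 0)) (fderiv ℝ S 0 ((0, 1), 0)) 0 := by
    have h1 : HasDerivAt (fun t : ℝ => (((0 : ℝ), t), (0 : Wd d))) (((0 : ℝ), (1 : ℝ)), (0 : Wd d)) 0 :=
      ((hasDerivAt_const (0 : ℝ) (0 : ℝ)).prodMk (hasDerivAt_id (0 : ℝ))).prodMk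
        (hasDerivAt_const (0 : ℝ) (0 : Wd d))
    have h2 : HasFDerivAt T (fderiv ℝ S 0) ((fun t : ℝ => (((0 : ℝ), t), (0 : Wd d))) 0) := hTL
    exact h2.comp_hasDerivAt (0 : ℝ) h1
  have hder2 : HasDerivAt (fun t : ℝ => (T ((0, t), 0)).1.2) dS 0 := by
    rw [← hd]
    exact ((ContinuousLinearMap.snd ℝ ℝ ℝ).comp
      (ContinuousLinearMap.fst ℝ Pt (Wd d))).hasFDerivAt.comp_hasDerivAt (0 : ℝ) hder
  have hre : ContDiff ℝ ∞ fun q : (ℝ × Wd d) × ℝ => (((q.1.1, q.2), q.1.2) : En d) :=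
    ((contDiff_fst.comp contDiff_fst).prodMk contDiff_snd).prodMk (contDiff_snd.comp contDiff_fst)
  obtain ⟨θ, hθ, hθ0, -, hθ1⟩ := inverse_param (P := ℝ × Wd d)
    (F := fun q : (ℝ × Wd d) × ℝ => (T ((q.1.1, q.2), q.1.2)).1.2) (p₀ := (0, 0))
    (t₀ := 0) (Eventually.of_forall fun q => (hs2.comp hre).contDiffAt) (by
      show deriv (fun t : ℝ => (T ((0, t), 0)).1.2) 0 ≠ 0
      rw [hder2.deriv]
      exact hd0)
  have hT0' : T (((0 : ℝ), (0 : ℝ)), (0 : Wd d)) = ((sS, 0), wS) := hT0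
  have hF0 : (T (((0 : ℝ), (0 : ℝ)), (0 : Wd d))).1.2 = 0 := by
    rw [hT0']
  simp only [hF0] at hθ0 hθ1
  -- the function Th
  set Th : ℝ × Wd d → ℝ := fun p => θ (p, 0) with hTh
  have hThs : ContDiff ℝ ∞ Th := hθ.comp (contDiff_id.prodMk contDiff_const)
  have hTh0 : Th (0, 0) = 0 := hθ0
  have hTh1 : ∀ᶠ p : ℝ × Wd d in 𝓝 (0, 0), (T ((p.1, Th p), p.2)).1.2 = 0 := by
    have h1 : Tendsto (fun p : ℝ × Wd d => (p, (0 : ℝ))) (𝓝 (0, 0)) (𝓝 ((0, 0), (0 : ℝ))) :=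
      (Continuous.prodMk continuous_id continuous_const).tendsto' _ _ rfl
    exact h1.eventually hθ1
  -- the functions W and Y2
  have hcur : ContDiff ℝ ∞ fun q : (ℝ × Wd d) × ℝ => (((q.1.1, Th q.1 + q.2), q.1.2) : En d) :=
    ((contDiff_fst.comp contDiff_fst).prodMk ((hThs.comp contDiff_fst).add contDiff_snd)).prodMk
      (contDiff_snd.comp contDiff_fst)
  obtain ⟨G2, hG2, hG2e, hG20⟩ := hadamard1 (P := ℝ × Wd d)
    (F := fun q : (ℝ × Wd d) × ℝ => (T ((q.1.1, Th q.1 + q.2), q.1.2)).1.2) (hs2.comp hcur)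
  obtain ⟨Y2, hY2, hY2e, -⟩ := hadamard1 (P := ℝ × Wd d)
    (F := fun q : (ℝ × Wd d) × ℝ => (T ((q.1.1, Th q.1 + q.2), q.1.2)).1.1) (hs1.comp hcur)
  -- the function Y1
  have hsw : ContDiff ℝ ∞ fun q : Wd d × ℝ => (q.2, q.1) := contDiff_snd.prodMk contDiff_fst
  have hcur' : ContDiff ℝ ∞ fun q : Wd d × ℝ => (((q.2, Th (q.2, q.1)), q.1) : En d) :=
    (contDiff_snd.prodMk (hThs.comp hsw)).prodMk contDiff_fst
  obtain ⟨G0, hG0, hG0e, hG00⟩ := hadamard1 (P := Wd d)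
    (F := fun q : Wd d × ℝ => (T ((q.2, Th (q.2, q.1)), q.1)).1.1) (hs1.comp hcur')
  -- the function Y3
  have hcur3 : ContDiff ℝ ∞ fun q : ℝ × Wd d => ((((0 : ℝ), Th ((0 : ℝ), q.2)), q.2) : En d) :=
    (contDiff_const.prodMk (hThs.comp (contDiff_const.prodMk contDiff_snd))).prodMk contDiff_snd
  obtain ⟨G3, hG3, hG3e, -⟩ := hadamard (P := ℝ)
    (F := fun q : ℝ × Wd d => (T (((0 : ℝ), Th ((0 : ℝ), q.2)), q.2)).1.1) (hs1.comp hcur3)
  -- the functions Z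
  have hpi : ContDiff ℝ ∞ fun v : En d => (v.1.1, v.2) :=
    (contDiff_fst.comp contDiff_fst).prodMk contDiff_snd
  have hcur4 : ContDiff ℝ ∞ fun v : En d => (((v.1.1, Th (v.1.1, v.2) + v.1.2), v.2) : En d) :=
    ((contDiff_fst.comp contDiff_fst).prodMk
      ((hThs.comp hpi).add (contDiff_snd.comp contDiff_fst))).prodMk contDiff_snd
  obtain ⟨G4, hG4, hG4e, -⟩ := hadamard (P := ℝ)
    (F := fun q : ℝ × En d => (T ((q.2.1.1, Th (q.2.1.1, q.2.2) + q.2.1.2), q.2.2)).2)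
    ((hs3.comp hcur4).comp contDiff_snd)
  -- derivative of Th
  have hTh' : ContDiff ℝ ∞ fun σ : ℝ => Th (σ, 0) := hThs.comp (contDiff_id.prodMk contDiff_const)
  set θ' : ℝ := deriv (fun σ : ℝ => Th (σ, 0)) 0 with hθ'
  have hThd : HasDerivAt (fun σ : ℝ => Th (σ, 0)) θ' 0 :=
    ((hTh'.differentiable (by simp)).differentiableAt).hasDerivAt
  have hcd : HasDerivAt (fun σ : ℝ => T ((σ, Th (σ, 0)), 0)) (fderiv ℝ S 0 ((1, θ'), 0)) 0 := by
    have h1 : HasDerivAt (fun σ : ℝ => ((σ, Th (σ, 0)), (0 : Wd d))) (((1 : ℝ), θ'), (0 : Wd d)) 0 :=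
      ((hasDerivAt_id (0 : ℝ)).prodMk hThd).prodMk (hasDerivAt_const (0 : ℝ) (0 : Wd d))
    have h2 : HasFDerivAt T (fderiv ℝ S 0) ((fun σ : ℝ => ((σ, Th (σ, 0)), (0 : Wd d))) 0) := by
      show HasFDerivAt T (fderiv ℝ S 0) (((0 : ℝ), Th (0, 0)), (0 : Wd d))
      rw [hTh0]
      exact hTL
    exact h2.comp_hasDerivAt (0 : ℝ) h1
  have hlin : fderiv ℝ S 0 ((1, θ'), 0) =
      fderiv ℝ S 0 ((1, 0), 0) + θ' • fderiv ℝ S 0 ((0, 1), 0) := by
    rw [← map_smul, ← map_add]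
    congr 1
    simp
  have hd1 : HasDerivAt (fun σ : ℝ => (T ((σ, Th (σ, 0)), 0)).1.1)
      (fderiv ℝ S 0 ((1, θ'), 0)).1.1 0 :=
    ((ContinuousLinearMap.fst ℝ ℝ ℝ).comp
      (ContinuousLinearMap.fst ℝ Pt (Wd d))).hasFDerivAt.comp_hasDerivAt (0 : ℝ) hcd
  have hd2 : HasDerivAt (fun σ : ℝ => (T ((σ, Th (σ, 0)), 0)).1.2)
      (fderiv ℝ S 0 ((1, θ'), 0)).1.2 0 :=
    ((ContinuousLinearMap.snd ℝ ℝ ℝ).comp
      (ContinuousLinearMap.fst ℝ Pt (Wd d))).hasFDerivAt.comp_hasDerivAt (0 : ℝ) hcd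
  have hzero : (fderiv ℝ S 0 ((1, θ'), 0)).1.2 = 0 := by
    have h0' : Tendsto (fun σ : ℝ => (σ, (0 : Wd d))) (𝓝 0) (𝓝 (0, 0)) :=
      (Continuous.prodMk continuous_id continuous_const).tendsto' _ _ rfl
    have h1 : (fun σ : ℝ => (T ((σ, Th (σ, 0)), 0)).1.2) =ᶠ[𝓝 0] fun _ => (0 : ℝ) :=
      h0'.eventually hTh1
    have h2 := h1.deriv_eq
    rw [hd2.deriv, deriv_const] at h2
    exact h2
  have hSev : ∀ᶠ v : En d in 𝓝 0, T ((v.1.1, Th (v.1.1, v.2) + v.1.2), v.2) =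
      S ((v.1.1, Th (v.1.1, v.2) + v.1.2), v.2) := by
    have h1 : Tendsto (fun v : En d => (((v.1.1, Th (v.1.1, v.2) + v.1.2), v.2) : En d)) (𝓝 0)
        (𝓝 0) := by
      refine hcur4.continuous.tendsto' _ _ ?_
      show ((((0 : ℝ), Th (0, 0) + 0), (0 : Wd d)) : En d) = 0
      rw [hTh0, add_zero]
      rfl
    exact h1.eventually hTS
  have hap : ContDiff ℝ ∞ fun v : En d => (((v.1.1, v.2), v.1.2) : (ℝ × Wd d) × ℝ) :=
    hpi.prodMk (contDiff_snd.comp contDiff_fst)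
  have hG4' : ContDiff ℝ ∞ fun v : En d => G4 (0, v) := hG4.comp (contDiff_const.prodMk contDiff_id)
  refine ⟨{ Th := Th
            W := fun v => G2 ((v.1.1, v.2), v.1.2) / dS
            Y1 := fun p => G0 (p.2, p.1)
            Y2 := fun v => Y2 ((v.1.1, v.2), v.1.2)
            Y3 := fun w => G3 (0, w)
            Z1 := fun v => G4 (0, v) ((1, 0), 0)
            Z2 := fun v => G4 (0, v) ((0, 1), 0)
            Z3 := fun v => (G4 (0, v)).comp (ContinuousLinearMap.inr ℝ Pt (Wd d)) }, ?_, ?_, ?_, ?_, ?_⟩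
  · refine { smTh := hThs, smW := ?_, smY1 := ?_, smY2 := ?_, smY3 := ?_, smZ1 := ?_, smZ2 := ?_,
             smZ3 := ?_, Th0 := hTh0, W0 := ?_ }
    · exact (hG2.comp hap).div_const _
    · exact hG0.comp (contDiff_snd.prodMk contDiff_fst)
    · exact hY2.comp hap
    · exact hG3.comp (contDiff_const.prodMk contDiff_id)
    · exact hG4'.clm_apply contDiff_const
    · exact hG4'.clm_apply contDiff_const
    · exact hG4'.clm_comp contDiff_const
    · have h1 := hG20 ((0 : ℝ), (0 : Wd d))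
      simp only [hTh0, zero_add] at h1
      rw [hder2.deriv] at h1
      show G2 (((0 : ℝ), (0 : Wd d)), (0 : ℝ)) / dS = 1
      rw [h1, div_self hd0]
  · have h1 := hG00 (0 : Wd d)
    simp only at h1
    rw [hd1.deriv] at h1
    show G0 ((0 : Wd d), (0 : ℝ)) = _
    rw [h1, eq_div_iff hd0, hlin]
    rw [hlin] at hzero
    simp only [Prod.fst_add, Prod.snd_add, Prod.smul_fst, Prod.smul_snd, smul_eq_mul, hd] at hzero ⊢
    have hpj : pjac S 0 = (fderiv ℝ S 0 ((1, 0), 0)).1.1 * (fderiv ℝ S 0 ((0, 1), 0)).1.2 -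
        (fderiv ℝ S 0 ((1, 0), 0)).1.2 * (fderiv ℝ S 0 ((0, 1), 0)).1.1 := by
      first
        | rfl
        | (unfold pjac det2; rfl)
        | (unfold pjac det2; simp)
    rw [hpj, hd]
    linear_combination (fderiv ℝ S 0 ((0, 1), 0)).1.1 * hzero
  · have h4 : Tendsto (fun v : En d => (v.1.1, v.2)) (𝓝 0) (𝓝 (0, 0)) :=
      hpi.continuous.tendsto' _ _ rfl
    filter_upwards [hSev, h4.eventually hTh1] with v hv hv2
    rw [← hv]
    have h1 := hG2e (v.1.1, v.2) v.1.2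
    simp only [add_zero, smul_eq_mul] at h1 hv2
    rw [h1, hv2]
    field_simp
    ring
  · filter_upwards [hSev] with v hv
    rw [← hv]
    have h1 := hY2e (v.1.1, v.2) v.1.2
    have h2 := hG0e v.2 v.1.1
    have h3 := hG3e 0 v.2
    simp only [hTh0, add_zero, smul_eq_mul] at h1 h2 h3
    rw [hT0'] at h3
    rw [h1, h2, h3]
    ring
  · filter_upwards [hSev] with v hv
    rw [← hv]
    have h1 := hG4e 0 v
    have h2 : T (((0 : En d).1.1, Th ((0 : En d).1.1, (0 : En d).2) + (0 : En d).1.2), (0 : En d).2) =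
        ((sS, 0), wS) := by
      show T ((((0 : ℝ), Th (0, 0) + 0), (0 : Wd d)) : En d) = _
      rw [hTh0, add_zero]
      exact hT0
    simp only at h1
    rw [h2] at h1
    rw [h1]
    have h3 : v = v.1.1 • (((1, 0), 0) : En d) + v.1.2 • (((0, 1), 0) : En d) + (((0, 0), v.2) : En d) := by
      ext <;> simp
    have h4 : G4 (0, v) v = v.1.1 • G4 (0, v) ((1, 0), 0) + v.1.2 • G4 (0, v) ((0, 1), 0) +
        G4 (0, v) ((0, 0), v.2) := by
      conv_lhs => rw [h3]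
      rw [map_add, map_add, map_smul, map_smul, ← h3]
    rw [h4]
    show _ = wS + v.1.1 • G4 (0, v) ((1, 0), 0) + v.1.2 • G4 (0, v) ((0, 1), 0) +
      G4 (0, v) ((0, 0), v.2)
    abel

theorem exists_PFD {g : En d → En d} {s : FrD d} (hs : IsFrD g s) :
    ∃ (f : PFD d) (r : ℝ), IsPFD g s f r := by
  obtain ⟨f, hf, hY, h1, h2, h3⟩ := exists_passFnD (S := SSD g s) (sS := s.sS) (wS := s.wS)
    (dS := dSD g s) hs.sdata.smooth hs.sdata.S0 rfl hs.sdata.d_pos.ne'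
  obtain ⟨r, hr, hb⟩ := Metric.eventually_nhds_iff_ball.1 (h1.and (h2.and h3))
  have hmem : ∀ (σ t : ℝ) (w : Wd d), |σ| < r → |t| < r → ‖w‖ < r →
      (((σ, t), w) : En d) ∈ Metric.ball (0 : En d) r := by
    intro σ t w h1 h2 h3
    rw [mem_ball_zero_iff, Prod.norm_def, Prod.norm_def, max_lt_iff, max_lt_iff,
      Real.norm_eq_abs, Real.norm_eq_abs]
    exact ⟨⟨h1, h2⟩, h3⟩
  refine ⟨f, r, { toSmPFD := hf, r_pos := hr, Y10 := hY, snd := ?_, fst := ?_, thd := ?_ }⟩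
  · intro σ t w h1 h2 h3
    exact (hb _ (hmem σ t w h1 h2 h3)).1
  · intro σ t w h1 h2 h3
    exact (hb _ (hmem σ t w h1 h2 h3)).2.1
  · intro σ t w h1 h2 h3
    exact (hb _ (hmem σ t w h1 h2 h3)).2.2

end Pool.Agent.Lib.H37D
end

-- from Lib.H37D.DP09
section

/-!
# H37D DP09 (M): the pass in the coordinates `((X,U),w)` (port of H37P/P09.lean)

`pass_rawD` with `y = yFD ..`: `mu_P^n y - uS = Th(σ, ω) + t`, `σ = ε1 X`, `ω = mulw (al_P^n) w`, `t = ε2 (U + b)`; `IsPFD.snd`, `.fst`, `.thd`.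
`mu_Q^m dS t W = (U + b) W` (as in the plane). `lam_Q^m S_1 = ξ⁰ + E⁻¹ XiFD`: the new term `lam_Q^m Y3(ω) ω = E⁻¹ Y3(ω) (mulw (E lam_Q^m al_P^n) w)` (linearity).
`al_Q^m S_w = w⁰ + E⁻¹ OmFD`: `mulw (al_Q^m) (σ Z1) = E⁻¹ (X mulw (E lam_P^n al_Q^m) Z1)`; `mulw (al_Q^m) (t Z2) = E⁻¹ ((U+b) mulw (mu_P^n al_Q^m) Z2)` because `E ε2 = mu_P^n`;
`mulw (al_Q^m) (Z3 ω) = E⁻¹ (dS mulw (mu_Q^m al_Q^m) (Z3 (mulw (mu_P^n al_P^n) w)))` because `ω = mulw (al_P^n) w = mu_P^(-n) mulw (mu_P^n al_P^n) w` and `E = dS mu_P^n mu_Q^m`.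
The hypotheses `|ε1|, |ε2|, ‖al_P^n‖ < δ` give `|σ|, |t|, ‖ω‖` small (`‖mulw α w‖ ≤ ‖α‖ ‖w‖`).
-/

open Set Filter Topology Asymptotics
open scoped ContDiff

namespace Pool.Agent.Lib.H37D

open Pool.Agent.Lib.H37N

variable {d : ℕ}

theorem dp09_norm_mulw (α w : Wd d) : ‖mulw α w‖ ≤ ‖α‖ * ‖w‖ := by
  refine (pi_norm_le_iff_of_nonneg (mul_nonneg (norm_nonneg _) (norm_nonneg _))).2 fun k => ?_
  show ‖α k * w k‖ ≤ _
  rw [norm_mul]
  exact mul_le_mul (norm_le_pi_norm α k) (norm_le_pi_norm w k) (norm_nonneg _) (norm_nonneg _)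

theorem dp09_smul_mulw (c : ℝ) (α w : Wd d) : mulw (c • α) w = c • mulw α w := by
  funext k
  show c * α k * w k = c * (α k * w k)
  ring

theorem dp09_fst {E B lP mP lQ mQ D X b U sS y1 y2 y3 : ℝ} (hD : D ≠ 0) (hP : mP ≠ 0)
    (hQ : mQ ≠ 0) (hE : E = D * mP * mQ) (hB : B = D * (lP * mP) * (lQ * mQ)) :
    lQ * (sS + lP * X * y1 + 1 / (D * mQ) * (U + b) * y2 + y3) =
      lQ * sS + E⁻¹ * (B * X * y1 + mP * lQ * (U + b) * y2 + E * lQ * y3) := by
  subst hE hB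
  field_simp
  ring

theorem dp09_thd {E D mP mQ lP X U b a ws z1 z2 z3 : ℝ} (hD : D ≠ 0) (hP : mP ≠ 0)
    (hQ : mQ ≠ 0) (hE : E = D * mP * mQ) :
    a * (ws + lP * X * z1 + 1 / (D * mQ) * (U + b) * z2 + z3) =
      a * ws + E⁻¹ * (X * (E * lP * a * z1) + (U + b) * (mP * a * z2) +
        D * (mQ * a * (mP * z3))) := by
  subst hE
  field_simp
  ring

theorem pass_XUD {g : En d → En d} {s : FrD d} (hs : IsFrD g s) {f : PFD d} {r : ℝ}
    (hf : IsPFD g s f r) :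
    ∃ δ > 0, ∀ (B0 : ℝ) (n m : ℕ) (b : ℝ) (z : En d), |e1D s n| < δ → |e2D g s m| < δ →
      ‖s.al Sy.P ^ n‖ < δ → |z.1.1| ≤ 1 → |z.1.2 + b| ≤ 1 → ‖z.2‖ ≤ 1 →
      g^[n + s.kS + m] (s.κ Sy.P (YcD g s f b n m z)) =
        s.κ Sy.Q (((xi0D s m + (EED g s n m)⁻¹ * XiFD f b B0 (epsD g s B0 n m) z,
          b + etaFD f b (epsD g s B0 n m) z),
          w0D s m + (EED g s n m)⁻¹ • OmFD f b (dSD g s) (epsD g s B0 n m) z)) ∧
      ∀ i ≤ n + s.kS + m, g^[i] (s.κ Sy.P (YcD g s f b n m z)) ∈ VOD d := by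
  obtain ⟨r', hr', -, -, hraw⟩ := pass_rawD hs
  have hP : 0 < s.mu Sy.P := lt_trans one_pos (hs.chart Sy.P).one_lt
  have hQ : 0 < s.mu Sy.Q := lt_trans one_pos (hs.chart Sy.Q).one_lt
  have hd : 0 < dSD g s := hs.sdata.d_pos
  -- continuity
  have hcTh : ∀ᶠ v : ℝ × Wd d in 𝓝 0, |f.Th v| < r' / 2 := by
    have h1 : Tendsto f.Th (𝓝 0) (𝓝 0) := by
      have h0 := hf.smTh.continuous.tendsto (0 : ℝ × Wd d)
      have h2 : f.Th (0 : ℝ × Wd d) = 0 := hf.Th0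
      rwa [h2] at h0
    have h2 := h1.eventually (Metric.ball_mem_nhds (0 : ℝ) (half_pos hr'))
    filter_upwards [h2] with σ hσ
    rwa [dist_zero_right, Real.norm_eq_abs] at hσ
  have hcW : ∀ᶠ v : En d in 𝓝 0, |f.W v| < 2 := by
    have h1 : Tendsto f.W (𝓝 0) (𝓝 1) := by
      have h0 := hf.smW.continuous.tendsto (0 : En d)
      have h2 : f.W (0 : En d) = 1 := hf.W0
      rwa [h2] at h0
    have h2 := h1.eventually (Metric.ball_mem_nhds (1 : ℝ) one_pos)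
    filter_upwards [h2] with v hv
    rw [Real.dist_eq] at hv
    have h3 := abs_lt.1 hv
    rw [abs_lt]
    constructor <;> linarith [h3.1, h3.2]
  obtain ⟨δ1, hδ1, h1⟩ := Metric.eventually_nhds_iff_ball.1 hcTh
  obtain ⟨δ2, hδ2, h2⟩ := Metric.eventually_nhds_iff_ball.1 hcW
  have hpos : 0 < min (min r (r' / 2)) (min δ1 δ2) :=
    lt_min (lt_min hf.r_pos (half_pos hr')) (lt_min hδ1 hδ2)
  refine ⟨min (min r (r' / 2)) (min δ1 δ2), hpos, ?_⟩
  intro B0 n m b z he1 he2 he3 hX hU hw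
  obtain ⟨⟨X, U⟩, w⟩ := z
  simp only at hX hU hw
  set δ := min (min r (r' / 2)) (min δ1 δ2) with hδ
  set σ := e1D s n * X with hσ
  set t := e2D g s m * (U + b) with ht
  set q := mulw (s.al Sy.P ^ n) w with hq
  have hσ' : |σ| < δ := by
    rw [hσ, abs_mul]
    calc |e1D s n| * |X| ≤ |e1D s n| * 1 := mul_le_mul_of_nonneg_left hX (abs_nonneg _)
      _ < _ := by rw [mul_one]; exact he1
  have ht' : |t| < δ := by
    rw [ht, abs_mul]
    calc |e2D g s m| * |U + b| ≤ |e2D g s m| * 1 := mul_le_mul_of_nonneg_left hU (abs_nonneg _)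
      _ < _ := by rw [mul_one]; exact he2
  have hq' : ‖q‖ < δ := by
    refine lt_of_le_of_lt (dp09_norm_mulw _ _) ?_
    calc ‖s.al Sy.P ^ n‖ * ‖w‖ ≤ ‖s.al Sy.P ^ n‖ * 1 :=
          mul_le_mul_of_nonneg_left hw (norm_nonneg _)
      _ < _ := by rw [mul_one]; exact he3
  have l1 : δ ≤ r := (min_le_left _ _).trans (min_le_left _ _)
  have l2 : δ ≤ r' / 2 := (min_le_left _ _).trans (min_le_right _ _)
  have l3 : δ ≤ δ1 := (min_le_right _ _).trans (min_le_left _ _)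
  have l4 : δ ≤ δ2 := (min_le_right _ _).trans (min_le_right _ _)
  have hTh : |f.Th (σ, q)| < r' / 2 := by
    apply h1
    rw [mem_ball_zero_iff, Prod.norm_def, max_lt_iff, Real.norm_eq_abs]
    exact ⟨lt_of_lt_of_le hσ' l3, lt_of_lt_of_le hq' l3⟩
  have hW : |f.W ((σ, t), q)| < 2 := by
    apply h2
    rw [mem_ball_zero_iff, Prod.norm_def, Prod.norm_def, max_lt_iff, max_lt_iff,
      Real.norm_eq_abs, Real.norm_eq_abs]
    exact ⟨⟨lt_of_lt_of_le hσ' l4, lt_of_lt_of_le ht' l4⟩, lt_of_lt_of_le hq' l4⟩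
  have hmuP : s.mu Sy.P ^ n ≠ 0 := (pow_pos hP n).ne'
  have hmuQ : s.mu Sy.Q ^ m ≠ 0 := (pow_pos hQ m).ne'
  have hYc : YcD g s f b n m ((X, U), w) = ((X, yFD s f b (EED g s n m) (s.mu Sy.P ^ n)
      (e1D s n) (s.al Sy.P ^ n) ((X, U), w)), w) := rfl
  have hy : s.mu Sy.P ^ n * yFD s f b (EED g s n m) (s.mu Sy.P ^ n) (e1D s n) (s.al Sy.P ^ n)
      ((X, U), w) - s.uS = f.Th (σ, q) + t := by
    have e1 : yFD s f b (EED g s n m) (s.mu Sy.P ^ n) (e1D s n) (s.al Sy.P ^ n)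
      ((X, U), w) = (U + b) / EED g s n m + (s.uS + f.Th (σ, q)) / (s.mu Sy.P ^ n) := rfl
    rw [e1, EED, ht, e2D]
    field_simp
    ring
  have hlam : s.lam Sy.P ^ n * X = σ := rfl
  have hsnd := hf.snd σ t q (lt_of_lt_of_le hσ' l1) (lt_of_lt_of_le ht' l1)
    (lt_of_lt_of_le hq' l1)
  have hfst := hf.fst σ t q (lt_of_lt_of_le hσ' l1) (lt_of_lt_of_le ht' l1)
    (lt_of_lt_of_le hq' l1)
  have hthd := hf.thd σ t q (lt_of_lt_of_le hσ' l1) (lt_of_lt_of_le ht' l1)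
    (lt_of_lt_of_le hq' l1)
  have hS2 : s.mu Sy.Q ^ m * (SSD g s ((σ, f.Th (σ, q) + t), q)).1.2 =
      (U + b) * f.W ((σ, t), q) := by
    rw [hsnd]
    have h3 : s.mu Sy.Q ^ m * (dSD g s * t) = U + b := by
      rw [ht, e2D]
      field_simp
    calc s.mu Sy.Q ^ m * (dSD g s * t * f.W ((σ, t), q)) =
        (s.mu Sy.Q ^ m * (dSD g s * t)) * f.W ((σ, t), q) := by ring
      _ = _ := by rw [h3]
  have hraw' := hraw n m X (yFD s f b (EED g s n m) (s.mu Sy.P ^ n) (e1D s n) (s.al Sy.P ^ n)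
      ((X, U), w)) w hX hw
    (by
      rw [hlam]
      have := lt_of_lt_of_le hσ' l2
      linarith)
    (by
      rw [hy]
      have h3 := lt_of_lt_of_le ht' l2
      have h4 := abs_add_le (f.Th (σ, q)) t
      linarith)
    (by
      rw [← hq]
      have := lt_of_lt_of_le hq' l2
      linarith)
    (by
      rw [hy, hlam, ← hq, hS2, abs_mul]
      have h3 : |U + b| * |f.W ((σ, t), q)| ≤ 1 * |f.W ((σ, t), q)| :=
        mul_le_mul_of_nonneg_right hU (abs_nonneg _)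
      linarith)
  rw [hy, hlam, ← hq, hS2] at hraw'
  rw [hYc]
  refine ⟨?_, hraw'.2⟩
  rw [hraw'.1, hfst, hthd]
  congr 1
  have eX : XiFD f b B0 (epsD g s B0 n m) ((X, U), w) =
      BBD g s n m * X * f.Y1 (σ, q) + s.mu Sy.P ^ n * s.lam Sy.Q ^ m * (U + b) *
        f.Y2 ((σ, t), q) + EED g s n m * s.lam Sy.Q ^ m * f.Y3 q q := by
    have e1 : XiFD f b B0 (epsD g s B0 n m) ((X, U), w) =
        (B0 + (BBD g s n m - B0)) * X * f.Y1 (σ, q) + e4D s n m * (U + b) *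
          f.Y2 ((σ, t), q) + f.Y3 q (mulw ((EED g s n m * s.lam Sy.Q ^ m) • s.al Sy.P ^ n) w) :=
      rfl
    rw [e1, dp09_smul_mulw, ← hq, map_smul, smul_eq_mul, e4D]
    ring
  have eE : etaFD f b (epsD g s B0 n m) ((X, U), w) = (U + b) * f.W ((σ, t), q) - b := rfl
  have eO : OmFD f b (dSD g s) (epsD g s B0 n m) ((X, U), w) =
      X • mulw ((EED g s n m * s.lam Sy.P ^ n) • s.al Sy.Q ^ m) (f.Z1 ((σ, t), q)) +
      (U + b) • mulw (s.mu Sy.P ^ n • s.al Sy.Q ^ m) (f.Z2 ((σ, t), q)) +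
      dSD g s • mulw (s.mu Sy.Q ^ m • s.al Sy.Q ^ m)
        (f.Z3 ((σ, t), q) (s.mu Sy.P ^ n • q)) := by
    have e1 : OmFD f b (dSD g s) (epsD g s B0 n m) ((X, U), w) =
      X • mulw ((EED g s n m * s.lam Sy.P ^ n) • s.al Sy.Q ^ m) (f.Z1 ((σ, t), q)) +
      (U + b) • mulw (s.mu Sy.P ^ n • s.al Sy.Q ^ m) (f.Z2 ((σ, t), q)) +
      dSD g s • mulw (s.mu Sy.Q ^ m • s.al Sy.Q ^ m)
        (f.Z3 ((σ, t), q) (mulw (s.mu Sy.P ^ n • s.al Sy.P ^ n) w)) := rfl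
    rw [e1, dp09_smul_mulw (s.mu Sy.P ^ n) (s.al Sy.P ^ n) w]
  have key1 : s.lam Sy.Q ^ m * (s.sS + σ * f.Y1 (σ, q) + t * f.Y2 ((σ, t), q) + f.Y3 q q) =
      xi0D s m + (EED g s n m)⁻¹ * XiFD f b B0 (epsD g s B0 n m) ((X, U), w) := by
    rw [eX]
    have h5 := dp09_fst (E := EED g s n m) (B := BBD g s n m) (lP := s.lam Sy.P ^ n)
      (mP := s.mu Sy.P ^ n) (lQ := s.lam Sy.Q ^ m) (mQ := s.mu Sy.Q ^ m) (D := dSD g s) (X := X)
      (b := b) (U := U) (sS := s.sS) (y1 := f.Y1 (σ, q)) (y2 := f.Y2 ((σ, t), q))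
      (y3 := f.Y3 q q) hd.ne' hmuP hmuQ rfl (by rw [BBD, mul_pow, mul_pow])
    exact h5
  have key2 : (U + b) * f.W ((σ, t), q) = b + etaFD f b (epsD g s B0 n m) ((X, U), w) := by
    rw [eE]
    ring
  have key3 : mulw (s.al Sy.Q ^ m) (s.wS + σ • f.Z1 ((σ, t), q) + t • f.Z2 ((σ, t), q) +
        f.Z3 ((σ, t), q) q) =
      w0D s m + (EED g s n m)⁻¹ • OmFD f b (dSD g s) (epsD g s B0 n m) ((X, U), w) := by
    rw [eO, map_smul]
    funext k
    exact dp09_thd (E := EED g s n m) (D := dSD g s) (mP := s.mu Sy.P ^ n)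
      (mQ := s.mu Sy.Q ^ m) (lP := s.lam Sy.P ^ n) (X := X) (U := U) (b := b)
      (a := (s.al Sy.Q ^ m) k) (ws := s.wS k) (z1 := f.Z1 ((σ, t), q) k)
      (z2 := f.Z2 ((σ, t), q) k) (z3 := f.Z3 ((σ, t), q) q k) hd.ne' hmuP hmuQ rfl
  rw [key1, key2, key3]

end Pool.Agent.Lib.H37D
end

-- from Lib.H37P.P04
section

/-!
# H37N P04 (S/M): the orbits after an admissible perturbation

`g' = ψ ∘ g`, `Adm D ψ`. `g' z = g z` unless `g z ∈ D ⊆ g '' Z`; `g` is injective on `V_P ∪ V_Q ∪ F` (`Near g`) and `Z ⊆ interior FF`, so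
`g z ∈ D`, `z ∈ V_P ∪ V_Q ∪ F` implies `z ∈ Z`. So `EqOff Z g g'`. In particular `g' = g` on `V_P ∪ V_Q`
(disjoint from `F`). The orbit of `κQ (v.1, b + v.2)`, `v ∈ B`: up to time `k` it is not changed (`notD`), then
`g' (InM k v) = ψ (g (InM k v)) ∈ D`, then the path of a point of `D` is in `VO`, where `g' = g`.
-/

open Set Filter Topology Asymptotics
open scoped ContDiff

namespace Pool.Agent.Lib.H37N

variable {g : Pt → Pt} {s : Fr} {Z : Set Pt} {b a : ℝ} {k l : ℕ} {r : ℝ} {D B : Set Pt}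
  {Li : Pt → Pt}

theorem Place.eqOff (hN : Near g) (hZ : Z ⊆ interior FF) (hp : Place g s Z b a k l r D B Li)
    {ψ : Pt → Pt} (hψ : Adm D ψ) : EqOff Z g (ψ ∘ g) := by
  intro z hz hzZ
  show ψ (g z) = g z
  by_cases h : g z ∈ D
  · exfalso
    obtain ⟨z', hz', h1⟩ := hp.subD h
    have hz'F : z' ∈ VV Sy.P ∪ VV Sy.Q ∪ FF := Or.inr (interior_subset (hZ hz'))
    have h2 : z' = z := hN.injOn hz'F hz h1
    exact hzZ (h2 ▸ hz')
  · exact hψ.1 _ h


theorem Place.eqV (hN : Near g) (hZ : Z ⊆ interior FF) (hp : Place g s Z b a k l r D B Li)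
    {ψ : Pt → Pt} (hψ : Adm D ψ) : ∀ z ∈ VV Sy.P ∪ VV Sy.Q, (ψ ∘ g) z = g z := by
  intro z hz
  refine hp.eqOff hN hZ hψ z (Or.inl hz) fun h => ?_
  exact Set.disjoint_left.1 VV_FF_disjoint hz (interior_subset (hZ h))


theorem Place.iter_in (hN : Near g) (hp : Place g s Z b a k l r D B Li)
    {ψ : Pt → Pt} (hψ : Adm D ψ) {v : Pt} (hv : v ∈ B) :
    ∀ i ≤ k, InM (ψ ∘ g) s b i v = InM g s b i v := by
  intro i
  induction i with
  | zero => intro _; rfl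
  | succ i ih =>
    intro hi
    have h1 : InM (ψ ∘ g) s b (i + 1) v = (ψ ∘ g) (InM (ψ ∘ g) s b i v) :=
      Function.iterate_succ_apply' _ _ _
    have h2 : InM g s b (i + 1) v = g (InM g s b i v) := Function.iterate_succ_apply' _ _ _
    rw [h1, h2, ih (by omega)]
    exact hψ.1 _ (hp.notD v hv i (by omega))


theorem Place.iter_D (hN : Near g) (hZ : Z ⊆ interior FF) (hp : Place g s Z b a k l r D B Li)
    {ψ : Pt → Pt} (hψ : Adm D ψ) {w : Pt} (hw : w ∈ D) :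
    ∀ i ≤ l, (ψ ∘ g)^[i] w = g^[i] w := by
  have h1 : ∀ z ∈ VO, (ψ ∘ g) z = g z := fun z hz =>
    hp.eqV hN hZ hψ z (Or.imp (fun h => interior_subset h) (fun h => interior_subset h) hz)
  exact iterate_eq_of_VO h1 (fun j hj => hp.path w hw j hj.le)


/-- the transition after the perturbation, and where it passes -/
theorem Place.transition (hN : Near g) (hZ : Z ⊆ interior FF)
    (hp : Place g s Z b a k l r D B Li) {ψ : Pt → Pt} (hψ : Adm D ψ) {v : Pt} (hv : v ∈ B) :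
    TT (ψ ∘ g) s b k l v = PlM g s l (ψ (Li (TT g s b k l v))) ∧
    (ψ ∘ g)^[k + 1 + l] (s.κ Sy.Q (v.1, b + v.2)) = s.κ Sy.P (TT (ψ ∘ g) s b k l v) ∧
    TT (ψ ∘ g) s b k l v ∈ Metric.ball ((a, 0) : Pt) r ∧
    ∀ i ≤ k + 1 + l, (ψ ∘ g)^[i] (s.κ Sy.Q (v.1, b + v.2)) ∈ VO ∪ Z := by
  have hw : g (InM g s b k v) ∈ D := hp.inD v hv
  set w := g (InM g s b k v) with hwd
  have hψw : ψ w ∈ D := hψ.2 w hw
  have hk : (ψ ∘ g) (InM (ψ ∘ g) s b k v) = ψ w := by
    rw [hp.iter_in hN hψ hv k le_rfl]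
    rfl
  have hl : ∀ i ≤ l, (ψ ∘ g)^[i] (ψ w) = g^[i] (ψ w) := hp.iter_D hN hZ hψ hψw
  have hTT : TT (ψ ∘ g) s b k l v = PlM g s l (ψ w) := by
    unfold TT PlM
    rw [hk, hl l le_rfl]
  have hTT0 : TT g s b k l v = PlM g s l w := rfl
  have hk1 : (ψ ∘ g)^[k + 1] (s.κ Sy.Q (v.1, b + v.2)) = ψ w := by
    rw [Function.iterate_succ_apply']
    exact hk
  refine ⟨?_, ?_, ?_, ?_⟩
  · rw [hTT, hTT0, hp.Li_Pl w hw]
  · rw [hTT, Nat.add_comm (k + 1) l, Function.iterate_add_apply, hk1, hl l le_rfl]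
    exact hp.land _ hψw
  · rw [hTT]
    exact hp.Pl_mem _ hψw
  · intro i hi
    rcases Nat.lt_or_ge k i with h | h
    · obtain ⟨j, rfl⟩ : ∃ j, i = j + (k + 1) := ⟨i - (k + 1), by omega⟩
      rw [Function.iterate_add_apply, hk1, hl j (by omega)]
      exact Or.inl (hp.path _ hψw j (by omega))
    · have h1 : (ψ ∘ g)^[i] (s.κ Sy.Q (v.1, b + v.2)) = InM g s b i v := hp.iter_in hN hψ hv i h
      rw [h1]
      exact hp.pathB v hv i h


end Pool.Agent.Lib.H37N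
end
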