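import Pool.Agent.Lib.H1M.FF.M031
import Pool.Agent.Lib.H1M.FF.M038

/-! Merged copies (to shorten the build) of Lib.H37D.DH23, Lib.H37D.DH25, Lib.H37D.DH26, Lib.H37D.DH27, Lib.H37D.DH62, Lib.H37D.DH63, Lib.H37D.DH64, Lib.H37D.DH65. -/

-- from Lib.H37D.DH23
section

open TopologicalSpace Set Filter Topology

namespace Pool.Agent.Lib.H37D

variable {Y : Type*} [TopologicalSpace Y] {W : Type*} [NormedAddCommGroup W] [NormedSpace ℝ W] {A B : Y → W ≃L[ℝ] W} {r : ℝ}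

/-- **DH23 (M).** The map `K`: solution of `K y w = (1 - θ) w + θ B_y K (ψ⁻¹ y, A_y⁻¹ w)`, `θ = th r ‖w‖`.

Proof. `exists_fp` with `Z = Y × W`, `σ (y, w) = (ψ⁻¹ y, A_y⁻¹ w)` (continuous by `continuous_app_symm`),
`G (y, w) a = θ(‖w‖) (B_y A_y⁻¹ w - w) + θ(‖w‖) B_y a` (continuous by `continuous_app`; the first summand is `sC y w - w`),
`c = 1/8` (`leB`, `0 ≤ θ ≤ 1`), `C = r/200` (`sC_bound`) gives a continuous `k` with `‖k‖ ≤ (8/7) (r/200) ≤ r/100`; let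
`K y w = w + k (y, w)`. Then `K y w - w = θ (B_y A_y⁻¹ w - w) + θ B_y (K (ψ⁻¹ y) (A_y⁻¹ w) - A_y⁻¹ w)`, this is the equation
in the first property. If `‖w‖ ≥ r/2` then `θ = 0`, so `K y w = w`. If `‖w‖ ≥ r/16`, then `‖A_y⁻¹ w‖ ≥ r/2` (`le_symmA`), so
`K (ψ⁻¹ y) (A_y⁻¹ w) = A_y⁻¹ w` and `K y w = sC y w`. If `‖w‖ ≤ r/4` then `θ = 1`. -/
theorem exists_K [CompleteSpace W] (h : Coc A B) (hr : 0 < r) (ψ : Y ≃ₜ Y) :
    ∃ K : Y → W → W, (Continuous fun q : Y × W => K q.1 q.2) ∧ (∀ y w, ‖K y w - w‖ ≤ r / 100) ∧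
      (∀ y w, K y w - w = th r ‖w‖ • (B y (K (ψ.symm y) ((A y).symm w)) - w)) ∧
      (∀ y w, r / 2 ≤ ‖w‖ → K y w = w) ∧ (∀ y w, r / 16 ≤ ‖w‖ → K y w = sC A B r y w) ∧
      ∀ y w, ‖w‖ ≤ r / 4 → K y w = B y (K (ψ.symm y) ((A y).symm w)) := by
  have hAs := continuous_app_symm h.contA
  have hB := continuous_app h.contB
  have hth : Continuous fun q : Y × W => th r ‖q.2‖ := (th_cont r).comp continuous_snd.norm
  have hσ : Continuous fun z : Y × W => (ψ.symm z.1, (A z.1).symm z.2) :=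
    (ψ.symm.continuous.comp continuous_fst).prodMk hAs
  have hG : Continuous fun q : (Y × W) × W =>
      (sC A B r q.1.1 q.1.2 - q.1.2) + th r ‖q.1.2‖ • B q.1.1 q.2 := by
    have c1 : Continuous fun q : (Y × W) × W => sC A B r q.1.1 q.1.2 :=
      (sC_cont h r).comp continuous_fst
    have c2 : Continuous fun q : (Y × W) × W => th r ‖q.1.2‖ := hth.comp continuous_fst
    have c3 : Continuous fun q : (Y × W) × W => B q.1.1 q.2 :=
      hB.comp ((continuous_fst.comp continuous_fst).prodMk continuous_snd)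
    exact (c1.sub (continuous_snd.comp continuous_fst)).add (c2.smul c3)
  obtain ⟨k, hk, hkb, hkf⟩ := exists_fp (Z := Y × W) (W := W)
    (G := fun z a => (sC A B r z.1 z.2 - z.2) + th r ‖z.2‖ • B z.1 a) hG
    (c := 1 / 8) (C := r / 200) (by norm_num) (by norm_num)
    (by
      intro z a b
      have e : (sC A B r z.1 z.2 - z.2) + th r ‖z.2‖ • B z.1 a
          - ((sC A B r z.1 z.2 - z.2) + th r ‖z.2‖ • B z.1 b) = th r ‖z.2‖ • B z.1 (a - b) := by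
        rw [map_sub, smul_sub]; abel
      rw [e, norm_smul, Real.norm_eq_abs, abs_of_nonneg (th_nonneg _ _)]
      calc th r ‖z.2‖ * ‖B z.1 (a - b)‖ ≤ 1 * (1 / 8 * ‖a - b‖) :=
            mul_le_mul (th_le_one _ _) (h.leB _ _) (norm_nonneg _) (by norm_num)
        _ = 1 / 8 * ‖a - b‖ := one_mul _)
    (by
      intro z
      simp only [map_zero, smul_zero, add_zero]
      exact sC_bound h hr z.1 z.2)
    hσ
  have h3 : ∀ y w, (w + k (y, w)) - w =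
      th r ‖w‖ • (B y ((A y).symm w + k (ψ.symm y, (A y).symm w)) - w) := by
    intro y w
    have := hkf (y, w)
    simp only at this
    have e1 : sC A B r y w - w = th r ‖w‖ • (B y ((A y).symm w) - w) := by
      unfold sC; abel
    rw [e1] at this
    rw [add_sub_cancel_left, this, map_add, ← smul_add]
    congr 1
    abel
  have h4 : ∀ y w, r / 2 ≤ ‖w‖ → w + k (y, w) = w := by
    intro y w hw
    have := h3 y w
    rw [th_zero hr hw, zero_smul, sub_eq_zero] at this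
    exact this
  refine ⟨fun y w => w + k (y, w), ?_, ?_, h3, h4, ?_, ?_⟩
  · exact continuous_snd.add hk
  · intro y w
    rw [add_sub_cancel_left]
    refine (hkb (y, w)).trans ?_
    rw [div_le_iff₀ (by norm_num)]
    linarith
  · intro y w hw
    have h5 := h3 y w
    have h6 : (A y).symm w + k (ψ.symm y, (A y).symm w) = (A y).symm w := by
      apply h4
      have := h.le_symmA y w
      linarith
    rw [h6] at h5
    have e0 : w + k (y, w) = w + ((w + k (y, w)) - w) := by abel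
    change w + k (y, w) = _
    rw [e0, h5]
    rfl
  · intro y w hw
    have h5 := h3 y w
    rw [th_one hr hw, one_smul] at h5
    exact sub_left_injective h5

end Pool.Agent.Lib.H37D
end

-- from Lib.H37D.DH25
section

open TopologicalSpace Set Filter Topology

namespace Pool.Agent.Lib.H37D

variable {Y : Type*} [TopologicalSpace Y] {W : Type*} [NormedAddCommGroup W] [NormedSpace ℝ W] {A B : Y → W ≃L[ℝ] W} {r : ℝ}

/-- **DH25 (M).** `L ∘ K = id`.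

Proof. `b (y, w) = ‖L y (K y w) - w‖` is bounded by `r/50` (`hKb`, `hLb`). We show for each `(y, w)`: `b (y, w) = 0` or
`b (y, w) ≤ b (ψ⁻¹ y, A_y⁻¹ w) / 8`; then `eq_zero_of_contr` (DH20, `P = True`) gives `b = 0`.
(1) `‖w‖ ≥ r/16`, `u = K y w = sC y w` (`hKs`). If `‖u‖ ≥ r/16`: `L y u = S y u = w`. If `‖u‖ < r/16`: `‖w‖ ≤ ‖u‖ + r/200 ≤ r/4` (`sC_bound`), so
`u = B_y A_y⁻¹ w` (`th_one`), `B_y⁻¹ u = A_y⁻¹ w`, of norm `≥ r/2` (`le_symmA`). `L y u = A_y L (ψ⁻¹ y) (A_y⁻¹ w) = A_y A_y⁻¹ w = w` (`hLi`, `hL1`).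
(2) `‖w‖ < r/16`: `u = K y w = B_y K (ψ⁻¹ y) (A_y⁻¹ w)` (`hKi`), `‖u‖ ≤ r/16 + r/100 ≤ r/8`, so
`L y u = A_y L (ψ⁻¹ y) (B_y⁻¹ u) = A_y L (ψ⁻¹ y) (K (ψ⁻¹ y) (A_y⁻¹ w))` and
`L y u - w = A_y (L (ψ⁻¹ y) (K (ψ⁻¹ y) (A_y⁻¹ w)) - A_y⁻¹ w)`, with norm `≤ b (ψ⁻¹ y, A_y⁻¹ w) / 8` (`leA`). -/
theorem L_K [CompleteSpace W] (h : Coc A B) (hr : 0 < r) (ψ : Y ≃ₜ Y) {S K L : Y → W → W}
    (hl : ∀ y w, S y (sC A B r y w) = w)
    (hKb : ∀ y w, ‖K y w - w‖ ≤ r / 100) (hKs : ∀ y w, r / 16 ≤ ‖w‖ → K y w = sC A B r y w)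
    (hKi : ∀ y w, ‖w‖ ≤ r / 4 → K y w = B y (K (ψ.symm y) ((A y).symm w)))
    (hLb : ∀ y u, ‖L y u - u‖ ≤ r / 100) (hL1 : ∀ y u, r / 2 ≤ ‖u‖ → L y u = u)
    (hLs : ∀ y u, r / 16 ≤ ‖u‖ → L y u = S y u)
    (hLi : ∀ y u, ‖u‖ ≤ r / 8 → L y u = A y (L (ψ.symm y) ((B y).symm u))) (y : Y) (w : W) : L y (K y w) = w := by
  have key := eq_zero_of_contr (Z := Y × W) (b := fun z => ‖L z.1 (K z.1 z.2) - z.2‖) (C := r / 50)
    (P := fun _ => True) (fun z => norm_nonneg _)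
    (by
      intro z _
      have e : L z.1 (K z.1 z.2) - z.2 = (L z.1 (K z.1 z.2) - K z.1 z.2) + (K z.1 z.2 - z.2) := by abel
      rw [e]
      refine (norm_add_le _ _).trans ?_
      have h1 := hLb z.1 (K z.1 z.2)
      have h2 := hKb z.1 z.2
      linarith)
    (by
      rintro ⟨y, w⟩ _
      refine ⟨(ψ.symm y, (A y).symm w), trivial, ?_⟩
      simp only
      rcases le_or_gt (r / 16) ‖w‖ with hw | hw
      · have hz : L y (K y w) = w := by
          have hu := hKs y w hw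
          rcases le_or_gt (r / 16) ‖K y w‖ with hu2 | hu2
          · rw [hLs y _ hu2, hu, hl]
          · have hb := hKb y w
            have hw4 : ‖w‖ ≤ r / 4 := by
              have e : w = K y w - (K y w - w) := by abel
              have : ‖w‖ ≤ ‖K y w‖ + ‖K y w - w‖ := by
                calc ‖w‖ = ‖K y w - (K y w - w)‖ := by rw [← e]
                  _ ≤ _ := norm_sub_le _ _
              linarith
            have hu3 : K y w = B y ((A y).symm w) := by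
              rw [hu]
              unfold sC
              rw [th_one hr hw4, one_smul]
              abel
            rw [hLi y _ (by linarith)]
            have e2 : (B y).symm (K y w) = (A y).symm w := by
              rw [hu3, ContinuousLinearEquiv.symm_apply_apply]
            rw [e2, hL1 _ _ (by have := h.le_symmA y w; linarith),
              ContinuousLinearEquiv.apply_symm_apply]
        rw [hz, sub_self, norm_zero]
        positivity
      · have hb := hKb y w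
        have hu2 : ‖K y w‖ ≤ r / 8 := by
          have : ‖K y w‖ ≤ ‖K y w - w‖ + ‖w‖ := by
            calc ‖K y w‖ = ‖(K y w - w) + w‖ := by rw [sub_add_cancel]
              _ ≤ _ := norm_add_le _ _
          linarith
        have e1 : L y (K y w) = A y (L (ψ.symm y) (K (ψ.symm y) ((A y).symm w))) := by
          rw [hLi y _ hu2]
          have : (B y).symm (K y w) = K (ψ.symm y) ((A y).symm w) := by
            rw [hKi y w (by linarith), ContinuousLinearEquiv.symm_apply_apply]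
          rw [this]
        have e2 : L y (K y w) - w = A y (L (ψ.symm y) (K (ψ.symm y) ((A y).symm w)) - (A y).symm w) := by
          rw [map_sub, ContinuousLinearEquiv.apply_symm_apply, e1]
        rw [e2]
        exact h.leA _ _)
    (z := (y, w)) trivial
  simp only at key
  rw [norm_eq_zero, sub_eq_zero] at key
  exact key

end Pool.Agent.Lib.H37D
end

-- from Lib.H37D.DH26
section

open TopologicalSpace Set Filter Topology

namespace Pool.Agent.Lib.H37D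

variable {Y : Type*} [TopologicalSpace Y] {W : Type*} [NormedAddCommGroup W] [NormedSpace ℝ W] {A B : Y → W ≃L[ℝ] W} {r : ℝ}

/-- **DH26 (M).** `K ∘ L = id`.

Proof. `b (y, u) = ‖K y (L y u) - u‖` is bounded by `r/50`. We show for each `(y, u)`: `b (y, u) = 0` or
`b (y, u) ≤ b (ψ⁻¹ y, B_y⁻¹ u) / 8`; then `eq_zero_of_contr` (DH20, `P = True`) gives `b = 0`.
(1) `‖u‖ ≥ r/16`, `w = L y u = S y u` (`hLs`), so `sC y w = u`. If `‖w‖ ≥ r/16`: `K y w = sC y w = u` (`hKs`). If `‖w‖ < r/16`: then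
`u = sC y w = B_y A_y⁻¹ w` (`th_one`), so `A_y⁻¹ w = B_y⁻¹ u`, of norm `≥ r/2` (`le_symmB`), and
`K y w = B_y K (ψ⁻¹ y) (A_y⁻¹ w) = B_y A_y⁻¹ w = u` (`hKi`, `hK1`).
(2) `‖u‖ < r/16`: `w = L y u = A_y L (ψ⁻¹ y) (B_y⁻¹ u)` (`hLi`), `‖w‖ ≤ r/16 + r/100 ≤ r/4`, so
`K y w = B_y K (ψ⁻¹ y) (A_y⁻¹ w) = B_y K (ψ⁻¹ y) (L (ψ⁻¹ y) (B_y⁻¹ u))` and the difference with `u = B_y B_y⁻¹ u` has norm
`≤ b (ψ⁻¹ y, B_y⁻¹ u) / 8` (`leB`). -/
theorem K_L [CompleteSpace W] (h : Coc A B) (hr : 0 < r) (ψ : Y ≃ₜ Y) {S K L : Y → W → W}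
    (hr' : ∀ y w, sC A B r y (S y w) = w)
    (hKb : ∀ y w, ‖K y w - w‖ ≤ r / 100) (hK1 : ∀ y w, r / 2 ≤ ‖w‖ → K y w = w)
    (hKs : ∀ y w, r / 16 ≤ ‖w‖ → K y w = sC A B r y w)
    (hKi : ∀ y w, ‖w‖ ≤ r / 4 → K y w = B y (K (ψ.symm y) ((A y).symm w)))
    (hLb : ∀ y u, ‖L y u - u‖ ≤ r / 100) (hLs : ∀ y u, r / 16 ≤ ‖u‖ → L y u = S y u)
    (hLi : ∀ y u, ‖u‖ ≤ r / 8 → L y u = A y (L (ψ.symm y) ((B y).symm u))) (y : Y) (u : W) : K y (L y u) = u := by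
  have key := eq_zero_of_contr (Z := Y × W) (b := fun z => ‖K z.1 (L z.1 z.2) - z.2‖) (C := r / 50)
    (P := fun _ => True) (fun z => norm_nonneg _)
    (by
      intro z _
      have e : K z.1 (L z.1 z.2) - z.2 = (K z.1 (L z.1 z.2) - L z.1 z.2) + (L z.1 z.2 - z.2) := by abel
      rw [e]
      refine (norm_add_le _ _).trans ?_
      have h1 := hKb z.1 (L z.1 z.2)
      have h2 := hLb z.1 z.2
      linarith)
    (by
      rintro ⟨y, u⟩ _
      refine ⟨(ψ.symm y, (B y).symm u), trivial, ?_⟩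
      simp only
      rcases le_or_gt (r / 16) ‖u‖ with hu | hu
      · have hz : K y (L y u) = u := by
          have hw : sC A B r y (L y u) = u := by rw [hLs y u hu, hr']
          rcases le_or_gt (r / 16) ‖L y u‖ with hw2 | hw2
          · rw [hKs y _ hw2, hw]
          · have hu3 : B y ((A y).symm (L y u)) = u := by
              have := hw
              unfold sC at this
              rw [th_one hr (by linarith), one_smul] at this
              rw [add_sub_cancel] at this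
              exact this
            have e2 : (A y).symm (L y u) = (B y).symm u := by
              conv_rhs => rw [← hu3]
              rw [ContinuousLinearEquiv.symm_apply_apply]
            rw [hKi y _ (by linarith), e2, hK1 _ _ (by have := h.le_symmB y u; linarith),
              ContinuousLinearEquiv.apply_symm_apply]
        rw [hz, sub_self, norm_zero]
        positivity
      · have hb := hLb y u
        have hw2 : ‖L y u‖ ≤ r / 4 := by
          have : ‖L y u‖ ≤ ‖L y u - u‖ + ‖u‖ := by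
            calc ‖L y u‖ = ‖(L y u - u) + u‖ := by rw [sub_add_cancel]
              _ ≤ _ := norm_add_le _ _
          linarith
        have e1 : K y (L y u) = B y (K (ψ.symm y) (L (ψ.symm y) ((B y).symm u))) := by
          rw [hKi y _ hw2]
          have : (A y).symm (L y u) = L (ψ.symm y) ((B y).symm u) := by
            rw [hLi y u (by linarith), ContinuousLinearEquiv.symm_apply_apply]
          rw [this]
        have e2 : K y (L y u) - u = B y (K (ψ.symm y) (L (ψ.symm y) ((B y).symm u)) - (B y).symm u) := by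
          rw [map_sub, ContinuousLinearEquiv.apply_symm_apply, e1]
        rw [e2]
        exact h.leB _ _)
    (z := (y, u)) trivial
  simp only at key
  rw [norm_eq_zero, sub_eq_zero] at key
  exact key

end Pool.Agent.Lib.H37D
end

-- from Lib.H37D.DH27
section

open TopologicalSpace Set Filter Topology

namespace Pool.Agent.Lib.H37D

variable {Y : Type*} [TopologicalSpace Y] {W : Type*} [NormedAddCommGroup W] [NormedSpace ℝ W] {A B : Y → W ≃L[ℝ] W} {r : ℝ}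

/-- **DH27 (S/M), cocycle lemma.** Let `A, B` be close families of contractions over the homeomorphism `ψ`. The maps
`(y, w) ↦ (ψ y, A (ψ y) w)` and `(y, w) ↦ (ψ y, B (ψ y) w)` are conjugate near `w = 0` by a homeomorphism `(y, w) ↦ (y, K y w)`,
which is the identity for `‖w‖ ≥ r/2`.

Proof. `S` from `exists_sInv`, `K` from `exists_K`, `L` from `exists_L`, `L_K`, `K_L`. (5): `‖A (ψ y) w‖ ≤ r/8 ≤ r/4`, so
`K (ψ y) (A (ψ y) w) = B (ψ y) (K y w)` (`ψ.symm (ψ y) = y`, `A⁻¹ A w = w`). (6): apply (5) to `w' = L y w` (`‖L y w‖ < r` if `‖w‖ < r`, see (7);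
for `‖w‖ = r`: `L y w = w`): `K (ψ y) (A (ψ y) (L y w)) = B (ψ y) w`, then apply `L (ψ y)`. (7): if `‖w‖ < r` and `‖K y w‖ ≥ r`, then
`K y (K y w) = K y w`, so `K y w = w` by injectivity, a contradiction. (8) the same for `L`. (9): `P (y, w) = (y ∈ D)`,
`b (y, w) = ‖K y w - w‖`; if `y ∈ D` then `K y w - w = θ (B_y K (ψ⁻¹ y) (A_y⁻¹ w) - B_y A_y⁻¹ w)` (as `B_y = A_y`), of norm
`≤ b (ψ⁻¹ y, A_y⁻¹ w) / 8`; `eq_zero_of_contr`; and `L y w = L y (K y w) = w`. -/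
theorem exists_coc [CompleteSpace W] (h : Coc A B) (hr : 0 < r) (ψ : Y ≃ₜ Y) :
    ∃ K L : Y → W → W, (Continuous fun q : Y × W => K q.1 q.2) ∧ (Continuous fun q : Y × W => L q.1 q.2) ∧
      (∀ y w, L y (K y w) = w) ∧ (∀ y w, K y (L y w) = w) ∧
      (∀ y w, ‖w‖ ≤ r → K (ψ y) (A (ψ y) w) = B (ψ y) (K y w)) ∧
      (∀ y w, ‖w‖ ≤ r → L (ψ y) (B (ψ y) w) = A (ψ y) (L y w)) ∧
      (∀ y w, ‖w‖ < r → ‖K y w‖ < r) ∧ (∀ y w, ‖w‖ < r → ‖L y w‖ < r) ∧
      ∀ D : Set Y, (∀ y ∈ D, ψ.symm y ∈ D) → (∀ y ∈ D, A y = B y) → ∀ y ∈ D, ∀ w, K y w = w ∧ L y w = w := by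
  obtain ⟨S, hS, hl, hr'⟩ := exists_sInv h hr
  obtain ⟨K, hKc, hKb, hKeq, hK1, hKs, hKi⟩ := exists_K h hr ψ
  obtain ⟨L, hLc, hLb, hL1, hLs, hLi⟩ := exists_L h hr ψ hS hl hr'
  have LK := L_K h hr ψ hl hKb hKs hKi hLb hL1 hLs hLi
  have KL := K_L h hr ψ hr' hKb hK1 hKs hKi hLb hLs hLi
  have h5 : ∀ y w, ‖w‖ ≤ r → K (ψ y) (A (ψ y) w) = B (ψ y) (K y w) := by
    intro y w hw
    have h1 : ‖A (ψ y) w‖ ≤ r / 4 := (h.leA _ _).trans (by linarith)
    have h2 := hKi (ψ y) (A (ψ y) w) h1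
    rw [ψ.symm_apply_apply, (A (ψ y)).symm_apply_apply] at h2
    exact h2
  have h7 : ∀ y w, ‖w‖ < r → ‖K y w‖ < r := by
    intro y w hw
    by_contra hc
    push Not at hc
    have h1 := hK1 y (K y w) (by linarith)
    have h2 := congrArg (L y) h1
    rw [LK, LK] at h2
    rw [h2] at hc
    linarith
  have h8 : ∀ y w, ‖w‖ < r → ‖L y w‖ < r := by
    intro y w hw
    by_contra hc
    push Not at hc
    have h1 := hL1 y (L y w) (by linarith)
    have h2 := congrArg (K y) h1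
    rw [KL, KL] at h2
    rw [h2] at hc
    linarith
  refine ⟨K, L, hKc, hLc, LK, KL, h5, ?_, h7, h8, ?_⟩
  · intro y w hw
    have hw' : ‖L y w‖ ≤ r := by
      rcases hw.lt_or_eq with h1 | h1
      · exact (h8 y w h1).le
      · rw [hL1 y w (by linarith)]
        exact hw
    have e := h5 y (L y w) hw'
    rw [KL] at e
    rw [← e, LK]
  · intro D hD hAB y hy w
    have hK : K y w = w := by
      have key := eq_zero_of_contr (Z := Y × W) (b := fun q => ‖K q.1 q.2 - q.2‖) (C := r / 100)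
        (P := fun q => q.1 ∈ D) (fun _ => norm_nonneg _) (fun q _ => hKb _ _)
        (fun q hq => ⟨(ψ.symm q.1, (A q.1).symm q.2), hD _ hq, ?_⟩) (z := (y, w)) hy
      · exact sub_eq_zero.1 (norm_eq_zero.1 key)
      · show ‖K q.1 q.2 - q.2‖ ≤
          1 / 8 * ‖K (ψ.symm q.1) ((A q.1).symm q.2) - (A q.1).symm q.2‖
        have e1 : B q.1 ((A q.1).symm q.2) = q.2 := by
          rw [← hAB _ hq, ContinuousLinearEquiv.apply_symm_apply]
        have e2 : B q.1 (K (ψ.symm q.1) ((A q.1).symm q.2)) - q.2 =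
            B q.1 (K (ψ.symm q.1) ((A q.1).symm q.2) - (A q.1).symm q.2) := by
          rw [map_sub, e1]
        rw [hKeq, e2, norm_smul, Real.norm_eq_abs, abs_of_nonneg (th_nonneg _ _)]
        have e3 := h.leB q.1 (K (ψ.symm q.1) ((A q.1).symm q.2) - (A q.1).symm q.2)
        have e4 := th_le_one r ‖q.2‖
        have e5 := th_nonneg r ‖q.2‖
        calc th r ‖q.2‖ * ‖B q.1 (K (ψ.symm q.1) ((A q.1).symm q.2) - (A q.1).symm q.2)‖
            ≤ 1 * ‖B q.1 (K (ψ.symm q.1) ((A q.1).symm q.2) - (A q.1).symm q.2)‖ :=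
              mul_le_mul_of_nonneg_right e4 (norm_nonneg _)
          _ ≤ _ := by rw [one_mul]; exact e3
    refine ⟨hK, ?_⟩
    have e6 := LK y w
    rw [hK] at e6
    exact e6

end Pool.Agent.Lib.H37D
end

-- from Lib.H37D.DH62
section

open TopologicalSpace Set Filter Topology
open scoped Manifold ContDiff
open Pool.Agent.Lib.Helper37.ConjBorel Pool.Agent.Lib.H37C

namespace Pool.Agent.Lib.H37D

variable {n : ℕ} {M : Type*} [TopologicalSpace M] [ChartedSpace (Euc n) M]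
variable {W : Type*} [NormedAddCommGroup W] [NormedSpace ℝ W]
variable {f₀ : DiffInf n M} {m : ℕ} {p : M} {e : OpenPartialHomeomorph M (Euc n)} {L : Euc n ≃L[ℝ] Euc 2 × W}
variable {A : Euc 2 → W ≃L[ℝ] W} {r₂ r₃ : ℝ}

theorem dh62_mem (hS : CSpot f₀ m p e L A r₂ r₃) {v : Euc 2 × W} (h1 : ‖v.1‖ ≤ 3)
    (h2 : ‖v.2‖ < r₂) : v ∈ Bx r₃ := ⟨h1, h2.le.trans hS.r_lt.le⟩

theorem dh62_mem0 (hS : CSpot f₀ m p e L A r₂ r₃) {ζ : Euc 2} (h1 : ‖ζ‖ ≤ 3) :
    ((ζ, 0) : Euc 2 × W) ∈ Bx r₃ := dh62_mem hS h1 (by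
  show ‖(0 : W)‖ < r₂
  rw [norm_zero]
  exact hS.r_pos)

theorem dh62_Di {z : M} (hz : z ∈ DiC e L) :
    ∃ ζ : Euc 2, 1 < ‖ζ‖ ∧ ‖ζ‖ < 2 ∧ z = ptM e L (ζ, 0) := by
  obtain ⟨⟨ζ, w⟩, ⟨h1, h2, h3⟩, rfl⟩ := hz
  have h3' : w = 0 := h3
  subst h3'
  exact ⟨ζ, h1, h2, rfl⟩

/-- **DH62 (S/M).** The radial coordinate in the shell (port of Lib/H37C/F1).

`radC` is continuous on the source of the chart. -/
theorem continuousOn_radC (hS : CSpot f₀ m p e L A r₂ r₃) : ContinuousOn (radC e L) (CoC e L r₂) := by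
  have hsub : CoC e L r₂ ⊆ e.source := by
    rintro _ ⟨v, ⟨h1, h2, h3⟩, rfl⟩
    exact ptM_source hS (dh62_mem hS (by linarith) h3)
  have h1 : ContinuousOn (fun z => L (e z)) (CoC e L r₂) :=
    L.continuous.comp_continuousOn (e.continuousOn.mono hsub)
  have h2 : ContinuousOn (fun z => ‖(L (e z)).1‖ - 1) (CoC e L r₂) :=
    ((continuous_fst.comp_continuousOn h1).norm).sub continuousOn_const
  exact h2

/-- `coord_ptM` -/
theorem radC_ptM (hS : CSpot f₀ m p e L A r₂ r₃) {v : Euc 2 × W} (hv : v ∈ Bx r₃) : radC e L (ptM e L v) = ‖v.1‖ - 1 := by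
  unfold radC
  rw [coord_ptM hS hv]

/-- The set is the image of the compact set `{v | v.2 = 0 ∧ ‖v.1‖ ≤ 2 ∧ ‖v.1‖ - 1 ∈ K}`, a product of a compact set of `Euc 2` and
`{0}` (`isClosed_image_ptM`). -/
theorem isClosed_radC [T2Space M] (hS : CSpot f₀ m p e L A r₂ r₃) {K : Set ℝ} (hK : IsClosed K) {a b : ℝ} (ha : 0 < a)
    (hb1 : b < 1) (hKab : K ⊆ Icc a b) : IsClosed {z | z ∈ DiC e L ∧ radC e L z ∈ K} := by
  have h1 : {z | z ∈ DiC e L ∧ radC e L z ∈ K} =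
      ptM e L '' ((Metric.closedBall (0 : Euc 2) 2 ∩ {ζ | ‖ζ‖ - 1 ∈ K}) ×ˢ ({0} : Set W)) := by
    ext z
    constructor
    · rintro ⟨hz1, hz2⟩
      obtain ⟨ζ, h2, h3, rfl⟩ := dh62_Di hz1
      rw [radC_ptM hS (dh62_mem0 hS (by linarith))] at hz2
      exact ⟨(ζ, 0), ⟨⟨by simpa using h3.le, hz2⟩, rfl⟩, rfl⟩
    · rintro ⟨⟨ζ, w⟩, ⟨⟨h2, h3⟩, h4⟩, rfl⟩
      have h4' : w = 0 := h4
      subst h4'
      have h5 : ‖ζ‖ - 1 ∈ K := h3
      have h6 := hKab h5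
      have h7 : 1 < ‖ζ‖ := by linarith [h6.1]
      have h8 : ‖ζ‖ < 2 := by linarith [h6.2]
      refine ⟨⟨(ζ, 0), ⟨h7, h8, rfl⟩, rfl⟩, ?_⟩
      rw [radC_ptM hS (dh62_mem0 hS (by linarith))]
      exact h5
  rw [h1]
  refine isClosed_image_ptM hS ?_ ?_
  · exact (((isCompact_closedBall _ _).inter_right
      (hK.preimage (continuous_norm.sub continuous_const))).prod isCompact_singleton)
  · rintro ⟨ζ, w⟩ ⟨⟨h2, -⟩, h4⟩
    have h4' : w = 0 := h4
    subst h4'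
    rw [mem_closedBall_zero_iff] at h2
    exact dh62_mem0 hS (by linarith)

/-- `z = pt (ζ, 0)`: `σ k = pt (((k + 1) / ‖ζ‖) • ζ, 0)` (see `exists_lift` in Lib/H37C/F1). -/
theorem exists_liftC (hS : CSpot f₀ m p e L A r₂ r₃) {z : M} (hz : z ∈ DiC e L) :
    ∃ σ : ℝ → M, ContinuousAt σ (radC e L z) ∧ σ (radC e L z) = z ∧
      ∀ᶠ k in 𝓝 (radC e L z), σ k ∈ DiC e L ∧ radC e L (σ k) = k := by
  obtain ⟨ζ, hz1, hz2, rfl⟩ := dh62_Di hz
  have hn : ‖ζ‖ ≠ 0 := by linarith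
  have hr : radC e L (ptM e L ((ζ, 0) : Euc 2 × W)) = ‖ζ‖ - 1 :=
    radC_ptM hS (dh62_mem0 hS (by linarith))
  rw [hr]
  have h1 : ((‖ζ‖ - 1 + 1) / ‖ζ‖) • ζ = ζ := by
    rw [sub_add_cancel, div_self hn, one_smul]
  refine ⟨fun k => ptM e L (((k + 1) / ‖ζ‖) • ζ, 0), ?_, ?_, ?_⟩
  · have h2 : Continuous fun k : ℝ => L.symm ((((k + 1) / ‖ζ‖) • ζ, 0) : Euc 2 × W) :=
      L.symm.continuous.comp (by fun_prop)
    refine ContinuousAt.comp (g := e.symm)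
      (f := fun k : ℝ => L.symm ((((k + 1) / ‖ζ‖) • ζ, 0) : Euc 2 × W)) ?_ h2.continuousAt
    apply e.symm.continuousAt
    show L.symm ((((‖ζ‖ - 1 + 1) / ‖ζ‖) • ζ, 0) : Euc 2 × W) ∈ e.target
    rw [h1]
    exact hS.big _ (dh62_mem0 hS (by linarith))
  · show ptM e L ((((‖ζ‖ - 1 + 1) / ‖ζ‖) • ζ, 0) : Euc 2 × W) = _
    rw [h1]
  · have h3 : ∀ᶠ k in 𝓝 (‖ζ‖ - 1), 0 < k ∧ k < 1 := by
      apply IsOpen.mem_nhds (isOpen_Ioo (a := (0 : ℝ)) (b := 1))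
      exact ⟨by linarith, by linarith⟩
    filter_upwards [h3] with k hk
    have h4 : ‖((k + 1) / ‖ζ‖) • ζ‖ = k + 1 := by
      rw [norm_smul, Real.norm_eq_abs, abs_of_nonneg
        (div_nonneg (by linarith) (norm_nonneg _)), div_mul_cancel₀ _ hn]
    have h5 : 1 < ‖((k + 1) / ‖ζ‖) • ζ‖ := by rw [h4]; linarith
    have h6 : ‖((k + 1) / ‖ζ‖) • ζ‖ < 2 := by rw [h4]; linarith
    refine ⟨⟨(((k + 1) / ‖ζ‖) • ζ, 0), ⟨h5, h6, rfl⟩, rfl⟩, ?_⟩
    rw [radC_ptM hS (dh62_mem0 hS (by linarith))]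
    show ‖((k + 1) / ‖ζ‖) • ζ‖ - 1 = k
    rw [h4]
    ring

/-- `pt ((k + 1, 0), 0)` -/
theorem exists_radC_eq (hS : CSpot f₀ m p e L A r₂ r₃) {k : ℝ} (hk : k ∈ Ioo (0 : ℝ) 1) :
    ∃ z ∈ DiC e L, radC e L z = k := by
  obtain ⟨ζ, hζ⟩ : ∃ ζ : Euc 2, ζ = EuclideanSpace.single 0 (k + 1) := ⟨_, rfl⟩
  have h1 : ‖ζ‖ = k + 1 := by
    rw [hζ, EuclideanSpace.norm_single, Real.norm_eq_abs, abs_of_pos (by linarith [hk.1])]
  have h2 : 1 < ‖ζ‖ := by rw [h1]; linarith [hk.1]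
  have h3 : ‖ζ‖ < 2 := by rw [h1]; linarith [hk.2]
  refine ⟨ptM e L (ζ, 0), ⟨(ζ, 0), ⟨h2, h3, rfl⟩, rfl⟩, ?_⟩
  rw [radC_ptM hS (dh62_mem0 hS (by linarith))]
  show ‖ζ‖ - 1 = k
  rw [h1]
  ring

/-- Port of `comp_loc` (Lib/H37C/F2).

Proof. `z = pt (ζ, 0)`, `r = ‖ζ‖ ∈ (1, 2)`. The sphere of radius `r` of `Euc 2` is preconnected (`isPreconnected_sphere`, rank `2`), so
its image `I` under `ζ' ↦ pt (ζ', 0)` is (`continuousOn_ptM`), `I ⊆ X` by `hX` (`radC_ptM`), `z ∈ I`, so `I` is contained in the component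
(`IsPreconnected.subset_connectedComponentIn`). For `z'` near `z`: `z' ∈ CoC` (`isOpen_CoC`); if `z' ∈ X` then `z' ∈ DiC`, `z' = pt (ζ', 0)`, and
`radC z' = radC z` gives `‖ζ'‖ = r`, `z' ∈ I`. -/
theorem comp_locC (hS : CSpot f₀ m p e L A r₂ r₃) {lt : ℕ → ℕ → Prop} {X : Set M}
    (hX : ∀ z ∈ CoC e L r₂, z ∈ X ↔ z ∈ DiC e L ∧ radC e L z ∈ Kint lt) :
    ∀ z ∈ X ∩ CoC e L r₂, ∀ᶠ z' in 𝓝 z, z' ∈ X → radC e L z' = radC e L z → z' ∈ connectedComponentIn X z := by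
  rintro z ⟨hzX, hzC⟩
  obtain ⟨hzD, hzK⟩ := (hX z hzC).1 hzX
  obtain ⟨ζ, hz1, hz2, rfl⟩ := dh62_Di hzD
  rw [radC_ptM hS (dh62_mem0 hS (by linarith))] at hzK
  have hrank : 1 < Module.rank ℝ (Euc 2) := by
    rw [← Module.finrank_eq_rank, finrank_euclideanSpace_fin]
    exact_mod_cast (by norm_num : 1 < 2)
  have hSp := isPreconnected_sphere hrank (0 : Euc 2) ‖ζ‖
  have hcont : ContinuousOn (fun ζ' : Euc 2 => ptM e L ((ζ', 0) : Euc 2 × W))
      (Metric.sphere (0 : Euc 2) ‖ζ‖) := by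
    refine (continuousOn_ptM hS).comp
      (Continuous.continuousOn (by fun_prop)) ?_
    intro x hx
    rw [mem_sphere_zero_iff_norm] at hx
    exact dh62_mem0 hS (by linarith)
  have hI : IsPreconnected ((fun ζ' : Euc 2 => ptM e L ((ζ', 0) : Euc 2 × W)) ''
      Metric.sphere (0 : Euc 2) ‖ζ‖) := hSp.image _ hcont
  have hIX : (fun ζ' : Euc 2 => ptM e L ((ζ', 0) : Euc 2 × W)) ''
      Metric.sphere (0 : Euc 2) ‖ζ‖ ⊆ X := by
    rintro _ ⟨x, hx, rfl⟩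
    rw [mem_sphere_zero_iff_norm] at hx
    have h1 : 1 < ‖x‖ := by rw [hx]; exact hz1
    have h2 : ‖x‖ < 2 := by rw [hx]; exact hz2
    have h3 : ptM e L ((x, 0) : Euc 2 × W) ∈ CoC e L r₂ :=
      ⟨(x, 0), ⟨h1, h2, by
        show ‖(0 : W)‖ < r₂
        rw [norm_zero]
        exact hS.r_pos⟩, rfl⟩
    rw [hX _ h3]
    refine ⟨⟨(x, 0), ⟨h1, h2, rfl⟩, rfl⟩, ?_⟩
    rw [radC_ptM hS (dh62_mem0 hS (by linarith))]
    show ‖x‖ - 1 ∈ Kint lt
    rw [hx]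
    exact hzK
  have hzI : ptM e L ((ζ, 0) : Euc 2 × W) ∈ (fun ζ' : Euc 2 => ptM e L ((ζ', 0) : Euc 2 × W)) ''
      Metric.sphere (0 : Euc 2) ‖ζ‖ := ⟨ζ, by simp, rfl⟩
  have hsub := hI.subset_connectedComponentIn hzI hIX
  filter_upwards [(isOpen_CoC hS).mem_nhds hzC] with z' hz' hzX' hr
  obtain ⟨hzD', -⟩ := (hX z' hz').1 hzX'
  obtain ⟨ζ', h1, h2, rfl⟩ := dh62_Di hzD'
  rw [radC_ptM hS (dh62_mem0 hS (by linarith)), radC_ptM hS (dh62_mem0 hS (by linarith))] at hr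
  apply hsub
  refine ⟨ζ', ?_, rfl⟩
  rw [mem_sphere_zero_iff_norm]
  have hr' : ‖ζ'‖ - 1 = ‖ζ‖ - 1 := hr
  linarith

end Pool.Agent.Lib.H37D
end

-- from Lib.H37D.DH63
section

open TopologicalSpace Set Filter Topology
open scoped Manifold ContDiff
open Pool.Agent.Lib.Helper37.ConjBorel Pool.Agent.Lib.H37C

namespace Pool.Agent.Lib.H37D

variable {n : ℕ} {M : Type*} [TopologicalSpace M] [ChartedSpace (Euc n) M]
variable {W : Type*} [NormedAddCommGroup W] [NormedSpace ℝ W]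
variable {f₀ : DiffInf n M} {m : ℕ} {p : M} {e : OpenPartialHomeomorph M (Euc n)} {L : Euc n ≃L[ℝ] Euc 2 × W}
variable {A : Euc 2 → W ≃L[ℝ] W} {r₂ r₃ : ℝ} {χ : W → ℝ} {lt : ℕ → ℕ → Prop} {δ : ℝ} {F : DiffInf n M}

/-- **DH63 (S/M).** The fixed points of `F^m` in the shell.

Proof. `z = pt v`, `F^m z = pt ((PP v).1, A (PP v).1 v.2)` (`iter_m`). If `F^m z = z` then by `ptM_inj` `A _ v.2 = v.2`, so `‖v.2‖ ≤ ‖v.2‖ / 8`,
`v.2 = 0`, `χ 0 = 1` (`PP_one`), `psi lt δ v.1 = v.1`; by `norm_psi`, `δ * vv 2 lt (‖v.1‖ - 1) = 0`, so `‖v.1‖ - 1 ∈ Kset lt` (`vv_eq_zero_iff`, as in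
Lib/H37C/F3). Conversely, `z = pt (ζ, 0)` with `‖ζ‖ - 1 ∈ Kset lt`: `psi lt δ ζ = ζ` (`psi_eq`), `A _ 0 = 0`. -/
theorem mem_fixC [IsStrictTotalOrder ℕ lt] (hS : CSpot f₀ m p e L A r₂ r₃) (hχ : Cut χ r₂) (h0 : 0 < δ) (h1 : δ ≤ 1)
    (hF : IsPert f₀ e L χ lt δ F) {z : M} (hz : z ∈ CoC e L r₂) :
    z ∈ {z | (⇑F)^[m] z = z} ↔ z ∈ DiC e L ∧ radC e L z ∈ Kint lt := by
  obtain ⟨⟨ζ, w⟩, ⟨hz1, hz2, hz3⟩, rfl⟩ := hz
  replace hz1 : 1 < ‖ζ‖ := hz1
  replace hz2 : ‖ζ‖ < 2 := hz2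
  replace hz3 : ‖w‖ < r₂ := hz3
  have hv : ((ζ, w) : Euc 2 × W) ∈ Bx r₃ := dh62_mem hS (by show ‖ζ‖ ≤ 3; linarith) hz3
  have hr : radC e L (ptM e L ((ζ, w) : Euc 2 × W)) = ‖ζ‖ - 1 := radC_ptM hS hv
  have hcrit : psi lt δ ζ = ζ ↔ ‖ζ‖ - 1 ∈ Kint lt := by
    have hn : ‖ζ‖ ≠ 0 := by linarith
    have e3 : psi lt δ ζ = ζ ↔ vv 2 lt (‖ζ‖ - 1) = 0 := by
      constructor
      · intro h
        have h3 := norm_psi (lt := lt) h0.le ζ
        rw [h] at h3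
        have h4 : δ * vv 2 lt (‖ζ‖ - 1) = 0 := by linarith
        rcases mul_eq_zero.1 h4 with h5 | h5
        · exact absurd h5 h0.ne'
        · exact h5
      · intro h
        rw [psi_eq, h, mul_zero, add_zero, mul_inv_cancel₀ hn, one_smul]
    rw [e3, vv_eq_zero_iff 2 ⟨by linarith, by linarith⟩]
    exact ⟨fun h => ⟨h, by linarith, by linarith⟩, fun h => h.1⟩
  have hPm := PP_mem (lt := lt) hχ h0.le h1 hv
  have hit := iter_m hS hχ h0.le h1 hF hv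
  show (⇑F)^[m] (ptM e L (ζ, w)) = ptM e L (ζ, w) ↔ _
  rw [hit, hr]
  constructor
  · intro h
    have hA := hS.A_le (PP χ lt δ ((ζ, w) : Euc 2 × W)).1 w
    have hm : (((PP χ lt δ ((ζ, w) : Euc 2 × W)).1, A (PP χ lt δ ((ζ, w) : Euc 2 × W)).1 w) :
        Euc 2 × W) ∈ Bx r₃ := by
      refine ⟨hPm.1, ?_⟩
      have h5 := hv.2
      have h6 := norm_nonneg w
      exact hA.trans (by
        show 1 / 8 * ‖w‖ ≤ r₃
        have h7 : ‖w‖ ≤ r₃ := h5
        linarith)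
    have h2 := ptM_inj hS hm hv h
    have h3 := congrArg Prod.fst h2
    have h4 := congrArg Prod.snd h2
    replace h3 : (PP χ lt δ ((ζ, w) : Euc 2 × W)).1 = ζ := h3
    replace h4 : A (PP χ lt δ ((ζ, w) : Euc 2 × W)).1 w = w := h4
    rw [h4] at hA
    have hw : w = 0 := by
      rw [← norm_eq_zero]
      have := norm_nonneg w
      linarith
    subst hw
    have h5 : PP χ lt δ ((ζ, 0) : Euc 2 × W) = (psi lt δ ζ, 0) := PP_one hχ (by
      show ‖(0 : W)‖ ≤ r₂ / 2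
      rw [norm_zero]
      linarith [hS.r_pos])
    rw [h5] at h3
    exact ⟨⟨(ζ, 0), ⟨hz1, hz2, rfl⟩, rfl⟩, hcrit.1 h3⟩
  · rintro ⟨hD, hK⟩
    obtain ⟨ζ', h2, h3, h4⟩ := dh62_Di hD
    have h5 := ptM_inj hS hv (dh62_mem0 hS (by linarith)) h4
    have h6 : w = 0 := congrArg Prod.snd h5
    subst h6
    have h7 : PP χ lt δ ((ζ, 0) : Euc 2 × W) = (psi lt δ ζ, 0) := PP_one hχ (by
      show ‖(0 : W)‖ ≤ r₂ / 2
      rw [norm_zero]
      linarith [hS.r_pos])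
    rw [h7]
    show ptM e L (psi lt δ ζ, A (psi lt δ ζ) 0) = _
    rw [hcrit.2 hK, map_zero]

/-- **DH63, second part (S).** Port of `radData` (Lib/H37C/F3): `isOpen_CoC`, `mem_fixC`, `isClosed_Kint`, `isClosed_radC`, `comp_subset_C`, `comp_locC`,
`continuousOn_radC`, `exists_liftC`, `exists_radC_eq`. -/
theorem radDataC [T2Space M] [IsStrictTotalOrder ℕ lt] (hS : CSpot f₀ m p e L A r₂ r₃) (hχ : Cut χ r₂) {b t : ℕ}
    (hb : ∀ i, i ≠ b → lt b i) (ht : ∀ i, i ≠ t → lt i t) (h0 : 0 < δ) (h1 : δ ≤ 1) (hF : IsPert f₀ e L χ lt δ F) :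
    RadC {z | (⇑F)^[m] z = z} (CoC e L r₂) (DiC e L) (radC e L) (Kint lt) := by
  have hmem : ∀ z ∈ CoC e L r₂, z ∈ {z | (⇑F)^[m] z = z} ↔ z ∈ DiC e L ∧ radC e L z ∈ Kint lt :=
    fun z hz => mem_fixC hS hχ h0 h1 hF hz
  have hsub : DiC e L ⊆ CoC e L r₂ := by
    intro z hz
    obtain ⟨ζ, h2, h3, rfl⟩ := dh62_Di hz
    exact ⟨(ζ, 0), ⟨h2, h3, by
      show ‖(0 : W)‖ < r₂
      rw [norm_zero]
      exact hS.r_pos⟩, rfl⟩
  obtain ⟨hKc, hKs⟩ := isClosed_Kint hb ht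
  have hcl : IsClosed ({z | (⇑F)^[m] z = z} ∩ CoC e L r₂) := by
    have h3 := isClosed_radC hS hKc (wt_pos b) (by linarith [wt_pos t]) hKs
    have h4 : {z | (⇑F)^[m] z = z} ∩ CoC e L r₂ = {z | z ∈ DiC e L ∧ radC e L z ∈ Kint lt} := by
      ext z
      constructor
      · rintro ⟨h4, h5⟩
        exact (hmem z h5).1 h4
      · rintro ⟨h4, h5⟩
        exact ⟨(hmem z (hsub h4)).2 ⟨h4, h5⟩, hsub h4⟩
    rw [h4]
    exact h3
  exact
    { isOpen := isOpen_CoC hS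
      sub := hsub
      closed := hcl
      mem := hmem
      comp := comp_subset_C (fun z hz hzX => ((hmem z hz).1 hzX).2) hcl (isOpen_CoC hS)
        (continuousOn_radC hS)
      loc := comp_locC hS hmem
      cont := continuousOn_radC hS
      lift := fun z hz => exists_liftC hS hz
      surj := fun k hk => exists_radC_eq hS hk.2 }

end Pool.Agent.Lib.H37D
end

-- from Lib.H37D.DH64
section

open TopologicalSpace Set Filter Topology
open scoped Manifold ContDiff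
open Pool.Agent.Lib.Helper37.ConjBorel Pool.Agent.Lib.H37C

namespace Pool.Agent.Lib.H37D

variable {n : ℕ} {M : Type*} [TopologicalSpace M] [ChartedSpace (Euc n) M]
variable {W : Type*} [NormedAddCommGroup W] [NormedSpace ℝ W]
variable {f₀ : DiffInf n M} {m : ℕ} {p : M} {e : OpenPartialHomeomorph M (Euc n)} {L : Euc n ≃L[ℝ] Euc 2 × W}
variable {A : Euc 2 → W ≃L[ℝ] W} {r₂ r₃ : ℝ} {χ : W → ℝ} {lt : ℕ → ℕ → Prop} {δ : ℝ} {F : DiffInf n M}

/-- **DH64 (S).** For a fixed point `y` of `F^m` in the shell: `f₀^i y = F^i y` for `i ≤ m`.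

Proof: `y = pt v` with `v.2 = 0` (`mem_fixC`) and `PP v = v`: by `iter_m` `F^m y = pt ((PP v).1, 0) = pt v`, so `(PP v).1 = v.1` (`ptM_inj`). `iter_tube`; `i = 0` is trivial. -/
theorem iter_fixC [IsStrictTotalOrder ℕ lt] (hS : CSpot f₀ m p e L A r₂ r₃) (hχ : Cut χ r₂) (h0 : 0 < δ) (h1 : δ ≤ 1)
    (hF : IsPert f₀ e L χ lt δ F) {y : M} (hy : y ∈ CoC e L r₂) (hy' : (⇑F)^[m] y = y) {i : ℕ} (hi : i ≤ m) :
    (⇑f₀)^[i] y = (⇑F)^[i] y := by
  obtain ⟨⟨v, ⟨h3, h4, h5⟩, rfl⟩, -⟩ := (mem_fixC hS hχ h0 h1 hF hy).1 hy'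
  have hr : 0 < r₃ := hS.r_pos.trans hS.r_lt
  have hv : v ∈ Bx r₃ := ⟨by linarith, by rw [h5, norm_zero]; exact hr.le⟩
  have h6 := iter_m hS hχ h0.le h1 hF hv
  rw [hy', h5, map_zero] at h6
  have hv' : ((PP χ lt δ v).1, (0 : W)) ∈ Bx r₃ :=
    ⟨(PP_mem hχ h0.le h1 hv).1, by simp only [norm_zero]; exact hr.le⟩
  have h7 := ptM_inj hS hv hv' h6
  have h8 : PP χ lt δ v = v := by
    have h9 : PP χ lt δ v = ((PP χ lt δ v).1, v.2) := rfl
    rw [h9, h5]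
    exact h7.symm
  rcases Nat.eq_zero_or_pos i with h | h
  · rw [h]; rfl
  · rw [iter_tube hS hχ h0.le h1 hF hv h hi, h8]

/-- **DH64, second part (M).** Outside the orbit of the shell, the fixed points of `F^m` are the background.

Proof. Let `O` be the set of the points `f₀^i y`, `i < m`, `y ∈ CoC`.
(1) Let `F^m z = z`, `z ∉ O`. No `y = F^j z`, `j < m`, is in `CoC`: otherwise `F^m y = y`, so `z = F^m z = F^(m-j) y = f₀^(m-j) y` (`iter_fixC`); if `j > 0`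
then `z ∈ O`; if `j = 0`, `z = y ∈ O`. So `F^j z = f₀^j z` for `j ≤ m` (induction, `ext_fix`), `f₀^m z = z`.
(2) Let `f₀^m z = z`, `z ∉ O`. No `y = f₀^j z`, `j < m`, is in `CoC`: `z = f₀^m z = f₀^(m-j) y ∈ O` if `j > 0`, and `z = y ∈ O` if `j = 0`. So `F^j z = f₀^j z`
for `j ≤ m`, `F^m z = z`. -/
theorem fix_off [IsStrictTotalOrder ℕ lt] (hS : CSpot f₀ m p e L A r₂ r₃) (hχ : Cut χ r₂) (h0 : 0 < δ) (h1 : δ ≤ 1)
    (hF : IsPert f₀ e L χ lt δ F) {z : M} (hz : ∀ i < m, ∀ y ∈ CoC e L r₂, (⇑f₀)^[i] y ≠ z) :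
    (⇑F)^[m] z = z ↔ (⇑f₀)^[m] z = z := by
  have hstep : ∀ x : M, x ∉ CoC e L r₂ → F x = f₀ x := by
    intro x hx
    rw [hF x, ext_fix hχ hx]
  constructor
  · intro hFz
    have hno : ∀ j < m, (⇑F)^[j] z ∉ CoC e L r₂ := by
      intro j hj hy
      have h2 : (⇑F)^[m] ((⇑F)^[j] z) = (⇑F)^[j] z := by
        rw [← Function.iterate_add_apply, add_comm, Function.iterate_add_apply, hFz]
      have h3 : (⇑F)^[m - j] ((⇑F)^[j] z) = z := by
        rw [← Function.iterate_add_apply, Nat.sub_add_cancel hj.le, hFz]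
      have h4 := iter_fixC hS hχ h0 h1 hF hy h2 (Nat.sub_le m j)
      rcases Nat.eq_zero_or_pos j with h | h
      · rw [h] at hy
        exact hz 0 hS.pos z hy rfl
      · exact hz (m - j) (by omega) _ hy (by rw [h4, h3])
    have hall : ∀ j ≤ m, (⇑F)^[j] z = (⇑f₀)^[j] z := by
      intro j
      induction j with
      | zero => intro _; rfl
      | succ j ih =>
        intro hj
        rw [Function.iterate_succ_apply', Function.iterate_succ_apply', hstep _ (hno j (by omega)),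
          ih (by omega)]
    rw [← hall m le_rfl]
    exact hFz
  · intro hfz
    have hno : ∀ j < m, (⇑f₀)^[j] z ∉ CoC e L r₂ := by
      intro j hj hy
      have h3 : (⇑f₀)^[m - j] ((⇑f₀)^[j] z) = z := by
        rw [← Function.iterate_add_apply, Nat.sub_add_cancel hj.le, hfz]
      rcases Nat.eq_zero_or_pos j with h | h
      · rw [h] at hy
        exact hz 0 hS.pos z hy rfl
      · exact hz (m - j) (by omega) _ hy h3
    have hall : ∀ j ≤ m, (⇑F)^[j] z = (⇑f₀)^[j] z := by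
      intro j
      induction j with
      | zero => intro _; rfl
      | succ j ih =>
        intro hj
        rw [Function.iterate_succ_apply', Function.iterate_succ_apply', ih (by omega),
          hstep _ (hno j (by omega))]
    rw [hall m le_rfl]
    exact hfz

/-- **DH64, third part (M).** The fixed points of `F^m` in the orbit of the shell.

Proof. `z = f₀^i y`, `y = pt v ∈ CoC`, `F^m z = z`. If `i = 0` it is `z ∈ X`. Let `i > 0`. For `j < m - i` the point `f₀^j z = f₀^(i+j) y` is not in the shell (`disj`), so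
`F^(m-i) z = f₀^(m-i) z = f₀^m y = pt (v.1, A v.1 v.2) =: y'` (`per`; induction, `ext_fix`); `y' ∈ CoC` and `F^m y' = y'` (`F^(m-i)` commutes with `F^m`). `mem_fixC` for `y'`:
`A v.1 v.2 = 0`, so `v.2 = 0` and `y' = y`. So `F^m y = y`. -/
theorem fix_on [IsStrictTotalOrder ℕ lt] (hS : CSpot f₀ m p e L A r₂ r₃) (hχ : Cut χ r₂) (h0 : 0 < δ) (h1 : δ ≤ 1)
    (hF : IsPert f₀ e L χ lt δ F) {y : M} (hy : y ∈ CoC e L r₂) {i : ℕ} (hi : i < m)
    (hz : (⇑F)^[m] ((⇑f₀)^[i] y) = (⇑f₀)^[i] y) : (⇑F)^[m] y = y := by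
  rcases Nat.eq_zero_or_pos i with h | h
  · rw [h] at hz
    exact hz
  have hr : 0 < r₃ := hS.r_pos.trans hS.r_lt
  have hstep : ∀ x : M, x ∉ CoC e L r₂ → F x = f₀ x := by
    intro x hx
    rw [hF x, ext_fix hχ hx]
  have hy0 := hy
  obtain ⟨v, ⟨h3, h4, h5⟩, hvy⟩ := hy
  have hv : v ∈ Bx r₃ := ⟨by linarith, by linarith [hS.r_lt]⟩
  have hno : ∀ j < m - i, (⇑f₀)^[j] ((⇑f₀)^[i] y) ∉ CoC e L r₂ := by
    rintro j hj ⟨v', ⟨g3, g4, g5⟩, hv'⟩
    rw [← Function.iterate_add_apply, ← hvy] at hv'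
    exact hS.disj (j + i) (by omega) (by omega) v hv v' ⟨by linarith, by linarith [hS.r_lt]⟩ hv'.symm
  have hall : ∀ j ≤ m - i, (⇑F)^[j] ((⇑f₀)^[i] y) = (⇑f₀)^[j] ((⇑f₀)^[i] y) := by
    intro j
    induction j with
    | zero => intro _; rfl
    | succ j ih =>
      intro hj
      rw [Function.iterate_succ_apply', Function.iterate_succ_apply', ih (by omega),
        hstep _ (hno j (by omega))]
  have h6 : (⇑F)^[m - i] ((⇑f₀)^[i] y) = ptM e L (v.1, A v.1 v.2) := by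
    rw [hall _ le_rfl, ← Function.iterate_add_apply, Nat.sub_add_cancel hi.le, ← hvy, hS.per v hv]
  have hA := hS.A_le v.1 v.2
  have h7 : ptM e L (v.1, A v.1 v.2) ∈ CoC e L r₂ :=
    ⟨(v.1, A v.1 v.2), ⟨h3, h4, by
      show ‖A v.1 v.2‖ < r₂
      have := norm_nonneg v.2
      linarith⟩, rfl⟩
  have h8 : (⇑F)^[m] (ptM e L (v.1, A v.1 v.2)) = ptM e L (v.1, A v.1 v.2) := by
    rw [← h6, ← Function.iterate_add_apply, add_comm, Function.iterate_add_apply, hz]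
  obtain ⟨⟨v', ⟨g3, g4, g5⟩, hv'⟩, -⟩ := (mem_fixC hS hχ h0 h1 hF h7).1 h8
  have hb : (v.1, A v.1 v.2) ∈ Bx r₃ := ⟨hv.1, by
      show ‖A v.1 v.2‖ ≤ r₃
      have := norm_nonneg v.2
      linarith [hv.2]⟩
  have hb' : v' ∈ Bx r₃ := ⟨by linarith, by rw [g5, norm_zero]; exact hr.le⟩
  have h9 := ptM_inj hS hb' hb hv'
  have h10 : A v.1 v.2 = 0 := by
    rw [← g5, h9]
  have h11 : v.2 = 0 := (A v.1).map_eq_zero_iff.1 h10
  have h12 : (v.1, A v.1 v.2) = v := Prod.ext rfl (h10.trans h11.symm)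
  rw [h12, hvy] at h8
  exact h8

end Pool.Agent.Lib.H37D
end

-- from Lib.H37D.DH65
section

open TopologicalSpace Set Filter Topology
open scoped Manifold ContDiff
open Pool.Agent.Lib.Helper37.ConjBorel Pool.Agent.Lib.H37C

namespace Pool.Agent.Lib.H37D

variable {n : ℕ} {M : Type*} [TopologicalSpace M] [ChartedSpace (Euc n) M]
variable {W : Type*} [NormedAddCommGroup W] [NormedSpace ℝ W]
variable {f₀ : DiffInf n M} {m : ℕ} {p : M} {e : OpenPartialHomeomorph M (Euc n)} {L : Euc n ≃L[ℝ] Euc 2 × W}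
variable {A : Euc 2 → W ≃L[ℝ] W} {r₂ r₃ : ℝ} {χ : W → ℝ} {lt : ℕ → ℕ → Prop} {δ : ℝ} {F : DiffInf n M}

/-- **DH65 (M).** Port of `split_fix` (Lib/H37C/G1).

Proof. `X = {z | F^m z = z}`, `O = ⋃_{i<m} f₀^i '' CoC` is open (`isOpen_CoC`), `bgC = {f₀^m z = z} \ O` is closed, and it is `X \ O` (`fix_off`). `Y = X ∩ O =
⋃_{i<m} f₀^i '' (X ∩ CoC)` (`fix_on`, `iter_fixC`: for `y ∈ X ∩ CoC`, `f₀^i y = F^i y ∈ X`) is closed by `(radDataC ..).closed`. For `z = f₀^i y ∈ Y`: `y ∈ X`, `z = F^i y`,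
`F^(m-i) z = F^m y = y`. -/
theorem split_fixC [T2Space M] [IsStrictTotalOrder ℕ lt] (hS : CSpot f₀ m p e L A r₂ r₃) (hχ : Cut χ r₂) {b t : ℕ}
    (hb : ∀ i, i ≠ b → lt b i) (ht : ∀ i, i ≠ t → lt i t) (h0 : 0 < δ) (h1 : δ ≤ 1) (hF : IsPert f₀ e L χ lt δ F) :
    IsClosed (bgC f₀ m e L r₂) ∧ ∃ Y : Set M, IsClosed Y ∧ Disjoint (bgC f₀ m e L r₂) Y ∧
      {z | (⇑F)^[m] z = z} = bgC f₀ m e L r₂ ∪ Y ∧
      ∀ z ∈ Y, ∃ j, (⇑F)^[j] z ∈ {z | (⇑F)^[m] z = z} ∩ CoC e L r₂ := by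
  have hD := radDataC hS hχ hb ht h0 h1 hF
  -- the orbit of the shell
  let O : Set M := ⋃ i ∈ Finset.range m, (⇑f₀)^[i] '' CoC e L r₂
  have hOmem : ∀ z, z ∈ O ↔ ∃ i < m, ∃ y ∈ CoC e L r₂, (⇑f₀)^[i] y = z := by
    intro z
    simp only [O, mem_iUnion, Finset.mem_range, mem_image, exists_prop]
  have hhom : ∀ i, ∃ g : M ≃ₜ M, ∀ z, g z = (⇑f₀)^[i] z := by
    intro i
    induction i with
    | zero => exact ⟨Homeomorph.refl M, fun z => rfl⟩
    | succ i ih =>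
      obtain ⟨g, hg⟩ := ih
      refine ⟨g.trans f₀.toHomeomorph, fun z => ?_⟩
      rw [Function.iterate_succ_apply', ← hg]
      rfl
  have hOo : IsOpen O := by
    refine isOpen_biUnion fun i _ => ?_
    obtain ⟨g, hg⟩ := hhom i
    have h2 : (⇑f₀)^[i] '' CoC e L r₂ = g '' CoC e L r₂ := by
      ext z; simp [hg]
    rw [h2]
    exact g.isOpenMap _ hD.isOpen
  have hcl0 : IsClosed {z | (⇑f₀)^[m] z = z} :=
    isClosed_eq (f₀.continuous.iterate m) continuous_id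
  have hbg : bgC f₀ m e L r₂ = {z | (⇑f₀)^[m] z = z} ∩ Oᶜ := by
    ext z
    constructor
    · rintro ⟨h2, h3⟩
      refine ⟨h2, fun h4 => ?_⟩
      obtain ⟨i, hi, y, hy, h5⟩ := (hOmem z).1 h4
      exact h3 i hi y hy h5
    · rintro ⟨h2, h3⟩
      exact ⟨h2, fun i hi y hy h4 => h3 ((hOmem z).2 ⟨i, hi, y, hy, h4⟩)⟩
  have hbgc : IsClosed (bgC f₀ m e L r₂) := by
    rw [hbg]; exact hcl0.inter hOo.isClosed_compl
  have hFinj : ∀ j, Function.Injective ((⇑F)^[j]) := fun j => F.injective.iterate j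
  have hXF : ∀ j z, (⇑F)^[j] z ∈ {z | (⇑F)^[m] z = z} ↔ z ∈ {z | (⇑F)^[m] z = z} := by
    intro j z
    show (⇑F)^[m] ((⇑F)^[j] z) = (⇑F)^[j] z ↔ (⇑F)^[m] z = z
    rw [← Function.iterate_add_apply, add_comm, Function.iterate_add_apply]
    exact (hFinj j).eq_iff
  have hYeq : {z | (⇑F)^[m] z = z} ∩ O =
      ⋃ i ∈ Finset.range m, (⇑f₀)^[i] '' ({z | (⇑F)^[m] z = z} ∩ CoC e L r₂) := by
    ext z
    simp only [mem_inter_iff, mem_iUnion, Finset.mem_range, mem_image, exists_prop]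
    constructor
    · rintro ⟨h2, h3⟩
      obtain ⟨i, hi, y, hy, rfl⟩ := (hOmem z).1 h3
      exact ⟨i, hi, y, ⟨fix_on hS hχ h0 h1 hF hy hi h2, hy⟩, rfl⟩
    · rintro ⟨i, hi, y, ⟨h2, hy⟩, rfl⟩
      refine ⟨?_, (hOmem _).2 ⟨i, hi, y, hy, rfl⟩⟩
      rw [iter_fixC hS hχ h0 h1 hF hy h2 hi.le]
      exact (hXF i y).2 h2
  refine ⟨hbgc, {z | (⇑F)^[m] z = z} ∩ O, ?_, ?_, ?_, ?_⟩
  · rw [hYeq]
    refine (Finset.range m).finite_toSet.isClosed_biUnion fun i _ => ?_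
    obtain ⟨g, hg⟩ := hhom i
    have h2 : (⇑f₀)^[i] '' ({z | (⇑F)^[m] z = z} ∩ CoC e L r₂) =
        g '' ({z | (⇑F)^[m] z = z} ∩ CoC e L r₂) := by
      ext z; simp [hg]
    rw [h2]
    exact g.isClosedMap _ hD.closed
  · rw [Set.disjoint_left, hbg]
    rintro z ⟨-, h2⟩ ⟨-, h3⟩
    exact h2 h3
  · ext z
    constructor
    · intro h2
      by_cases h3 : z ∈ O
      · exact Or.inr ⟨h2, h3⟩
      · left
        rw [hbg]
        refine ⟨?_, h3⟩
        exact (fix_off hS hχ h0 h1 hF (z := z)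
          (fun i hi y hy h5 => h3 ((hOmem z).2 ⟨i, hi, y, hy, h5⟩))).1 h2
    · rintro (h2 | h2)
      · exact (fix_off hS hχ h0 h1 hF (z := z) h2.2).2 h2.1
      · exact h2.1
  · rintro z ⟨h2, h3⟩
    obtain ⟨i, hi, y, hy, rfl⟩ := (hOmem z).1 h3
    have h4 := fix_on hS hχ h0 h1 hF hy hi h2
    refine ⟨m - i, (hXF (m - i) _).2 h2, ?_⟩
    rw [iter_fixC hS hχ h0 h1 hF hy h4 hi.le, ← Function.iterate_add_apply,
      Nat.sub_add_cancel hi.le, h4]
    exact hy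

end Pool.Agent.Lib.H37D
end
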