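import Pool.Agent.Lib.H1M.FF.M038

/-! Merged copies (to shorten the build) of Lib.H37D.DH31, Lib.H37D.DH32, Lib.H37D.DH35, Lib.H37D.DH42, Lib.H37D.DH33, Lib.H37D.DH34, Lib.H37D.DH36. -/

-- from Lib.H37D.DH31
section

open TopologicalSpace Set Filter Topology
open scoped Manifold ContDiff
open Pool.Agent.Lib.Helper37.ConjBorel Pool.Agent.Lib.H37C

namespace Pool.Agent.Lib.H37D

/-- **DH31 (S/M).** Pairs of regular families are regular.

Proof. `ContDiffAt.prodMk`; `iteratedFDeriv_prodMk` (Mathlib: the iterated derivative of the pair is the pair of the iterated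
derivatives, `ContinuousMultilinearMap.prod`), which is a continuous function of the pair of the derivatives
(`ContinuousMultilinearMap.prodL` is a linear isometry equivalence). The equality holds for all `p` near `(z₀, x₀)`
(`ContinuousAt.congr`). -/
theorem regN_prodMk {Z E F F' : Type*} [TopologicalSpace Z] [NormedAddCommGroup E] [NormedSpace ℝ E]
    [NormedAddCommGroup F] [NormedSpace ℝ F] [NormedAddCommGroup F'] [NormedSpace ℝ F'] {G : Z → E → F} {H : Z → E → F'}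
    {z₀ : Z} {x₀ : E} (hG : RegN ⊤ G z₀ x₀) (hH : RegN ⊤ H z₀ x₀) : RegN ⊤ (fun z x => (G z x, H z x)) z₀ x₀ := by
  refine ⟨?_, fun k hk => ?_⟩
  · filter_upwards [hG.1, hH.1] with p hp hp'
    exact hp.prodMk hp'
  · have e : (fun p : Z × E => ContinuousMultilinearMap.prodL ℝ (fun _ : Fin k => E) F F'
        (iteratedFDeriv ℝ k (G p.1) p.2, iteratedFDeriv ℝ k (H p.1) p.2)) =ᶠ[𝓝 (z₀, x₀)]
        fun p : Z × E => iteratedFDeriv ℝ k (fun x => (G p.1 x, H p.1 x)) p.2 := by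
      filter_upwards [hG.1, hH.1] with p hp hp'
      exact (iteratedFDeriv_prodMk hp hp' (by exact_mod_cast le_top)).symm
    refine ContinuousAt.congr ?_ e
    exact (ContinuousMultilinearMap.prodL ℝ (fun _ : Fin k => E) F F').continuous.continuousAt.comp
      ((hG.2 k hk).prodMk (hH.2 k hk))

end Pool.Agent.Lib.H37D
end

-- from Lib.H37D.DH32
section

open TopologicalSpace Set Filter Topology
open scoped Manifold ContDiff
open Pool.Agent.Lib.Helper37.ConjBorel Pool.Agent.Lib.H37C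

namespace Pool.Agent.Lib.H37D

variable {n : ℕ} {W : Type*} [NormedAddCommGroup W] [NormedSpace ℝ W]

/-- **DH32 (S).** The perturbation is `x + (δ χ) J (Fld)`. (Linearity of `L.symm`; `psi lt c ζ = ζ + c • Fld lt ζ` by definition.) -/
theorem PE_eq (L : Euc n ≃L[ℝ] Euc 2 × W) (χ : W → ℝ) (lt : ℕ → ℕ → Prop) (δ : ℝ) (x : Euc n) :
    PE L χ lt δ x = x + (δ * χ (L x).2) • L.symm (Fld lt (L x).1, (0 : W)) := by
  unfold PE PP psi
  have h1 : (((L x).1 + (δ * χ (L x).2) • Fld lt (L x).1, (L x).2) : Euc 2 × W) =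
      L x + (δ * χ (L x).2) • (Fld lt (L x).1, (0 : W)) := by
    ext1 <;> simp
  rw [h1, map_add, map_smul, L.symm_apply_apply]

/-- **DH32, second part (M).** The family of perturbations is regular.

Proof. `PE_eq`. Let `q (s, a, x) = x + (s * χ (L x).2) • L.symm (a, 0)`, a smooth function on `ℝ × Euc 2 × Euc n`. For fixed
`(t, δ)`: `PE x = q (δ, Fld (lt t) (L x).1, x)`. The family `(t, δ) ↦ (x ↦ Fld (lt t) (L x).1)` is regular (`fld_regN`, `RegN.reparam` with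
`Prod.fst`, `RegN.comp` with the constant family `x ↦ (L x).1`, regular by `regN_of_contDiffOn isOpen_univ`), the family
`(t, δ) ↦ (x ↦ (δ : ℝ))` is regular (`regN_of_joint` for `ℝ`, then `RegN.reparam` with `Prod.snd`), the family `x ↦ x` is regular; the triple
is regular by `regN_prodMk` (twice), and `RegN.comp` with the constant family `q` (`regN_of_contDiffOn isOpen_univ`) gives the result. -/
theorem PE_regN {T : Type*} [TopologicalSpace T] (lt : T → ℕ → ℕ → Prop) (hs : ∀ t, IsStrictTotalOrder ℕ (lt t))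
    (hc : ∀ i j, IsClopen {t | lt t i j}) (L : Euc n ≃L[ℝ] Euc 2 × W) {χ : W → ℝ} (hχ : ContDiff ℝ ∞ χ) (p₀ : T × ℝ)
    (x₀ : Euc n) : RegN ⊤ (fun p : T × ℝ => (PE L χ (lt p.1) p.2 : Euc n → Euc n)) p₀ x₀ := by
  have hL1 : RegN ⊤ (fun _ : T × ℝ => (fun x : Euc n => (L x).1)) p₀ x₀ :=
    regN_of_contDiffOn isOpen_univ (contDiff_fst.comp L.contDiff).contDiffOn p₀ (mem_univ x₀)
  have hF : RegN ⊤ (fun p : T × ℝ => (Fld (lt p.1) : Euc 2 → Euc 2)) p₀ ((fun x : Euc n => (L x).1) x₀) :=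
    RegN.reparam (g := fun t => (Fld (lt t) : Euc 2 → Euc 2)) (σ := fun p : T × ℝ => p.1)
      (fld_regN lt hs hc p₀.1 _) continuous_fst.continuousAt
  have hFL : RegN ⊤ (fun p : T × ℝ => (fun x : Euc n => (Fld (lt p.1) (L x).1 : Euc 2))) p₀ x₀ :=
    RegN.comp (H := fun _ : T × ℝ => (fun x : Euc n => (L x).1)) hF hL1
  have hδ0 : RegN ⊤ (fun (s : ℝ) (_ : Euc n) => s) p₀.2 x₀ :=
    regN_of_joint (fun (s : ℝ) (_ : Euc n) => s) isOpen_univ contDiff_fst.contDiffOn (mem_univ _)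
  have hδ : RegN ⊤ (fun (p : T × ℝ) (_ : Euc n) => p.2) p₀ x₀ :=
    RegN.reparam (g := fun (s : ℝ) (_ : Euc n) => s) (σ := fun p : T × ℝ => p.2) hδ0
      continuous_snd.continuousAt
  have hid : RegN ⊤ (fun _ : T × ℝ => (fun x : Euc n => x)) p₀ x₀ :=
    regN_of_contDiffOn isOpen_univ contDiff_id.contDiffOn p₀ (mem_univ x₀)
  have htr := regN_prodMk hδ (regN_prodMk hFL hid)
  have hq : ContDiff ℝ ∞ (fun q : ℝ × Euc 2 × Euc n =>
      q.2.2 + (q.1 * χ (L q.2.2).2) • L.symm (q.2.1, (0 : W))) := by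
    have h1 : ContDiff ℝ ∞ (fun q : ℝ × Euc 2 × Euc n => q.2.2) := contDiff_snd.comp contDiff_snd
    have h2 : ContDiff ℝ ∞ (fun q : ℝ × Euc 2 × Euc n => χ (L q.2.2).2) :=
      hχ.comp (contDiff_snd.comp (L.contDiff.comp h1))
    have h3 : ContDiff ℝ ∞ (fun q : ℝ × Euc 2 × Euc n => L.symm (q.2.1, (0 : W))) :=
      L.symm.contDiff.comp ((contDiff_fst.comp contDiff_snd).prodMk contDiff_const)
    exact h1.add ((contDiff_fst.mul h2).smul h3)
  have hqr : RegN ⊤ (fun _ : T × ℝ => (fun q : ℝ × Euc 2 × Euc n =>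
      q.2.2 + (q.1 * χ (L q.2.2).2) • L.symm (q.2.1, (0 : W)))) p₀
      (p₀.2, (Fld (lt p₀.1) (L x₀).1 : Euc 2), x₀) :=
    regN_of_contDiffOn isOpen_univ hq.contDiffOn p₀ (mem_univ _)
  have h := RegN.comp (G := fun _ : T × ℝ => (fun q : ℝ × Euc 2 × Euc n =>
      q.2.2 + (q.1 * χ (L q.2.2).2) • L.symm (q.2.1, (0 : W)))) hqr htr
  refine h.congr (Filter.Eventually.of_forall fun p => ?_)
  exact (PE_eq L χ (lt p.1.1) p.1.2 p.2).symm

end Pool.Agent.Lib.H37D
end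

-- from Lib.H37D.DH35
section

open TopologicalSpace Set Filter Topology
open scoped Manifold ContDiff
open Pool.Agent.Lib.Helper37.ConjBorel Pool.Agent.Lib.H37C

namespace Pool.Agent.Lib.H37D

variable {n : ℕ} {M : Type*} [TopologicalSpace M] [ChartedSpace (Euc n) M]

theorem dh35_closed [T2Space M] {e : OpenPartialHomeomorph M (Euc n)} {C : Set (Euc n)}
    (hC : IsCompact C) (hCe : C ⊆ e.target) : IsClosed (e.symm '' C) :=
  (hC.image_of_continuousOn (e.continuousOn_symm.mono hCe)).isClosed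

theorem dh35_off {e : OpenPartialHomeomorph M (Euc n)} {C : Set (Euc n)} {ψ : Euc n → Euc n}
    (hoff : ∀ x, x ∉ C → ψ x = x) {z : M} (hz : z ∉ e.symm '' C) : ext e ψ z = z := by
  by_cases h : z ∈ e.source
  · rw [ext_of_mem h]
    by_cases h2 : e z ∈ C
    · exact absurd ⟨e z, h2, e.left_inv h⟩ hz
    · rw [hoff _ h2, e.left_inv h]
  · exact ext_of_notMem h

theorem dh35_notMem {e : OpenPartialHomeomorph M (Euc n)} {C : Set (Euc n)} (hCe : C ⊆ e.target)
    {z : M} (hz : z ∉ e.source) : z ∉ e.symm '' C := by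
  rintro ⟨x, hx, rfl⟩
  exact hz (e.map_target (hCe hx))

theorem dh35_target {e : OpenPartialHomeomorph M (Euc n)} {C : Set (Euc n)} (hCe : C ⊆ e.target)
    {ψ : Euc n → Euc n} (hoff : ∀ x, x ∉ C → ψ x = x) (hon : ∀ x, x ∈ C → ψ x ∈ C) {x : Euc n}
    (hx : x ∈ e.target) : ψ x ∈ e.target := by
  by_cases h : x ∈ C
  · exact hCe (hon x h)
  · rw [hoff x h]
    exact hx

theorem dh35_on {C : Set (Euc n)} {ψ : Euc n → Euc n} (hoff : ∀ x, x ∉ C → ψ x = x)
    (hψi : Function.Injective ψ) (x : Euc n) (hx : x ∈ C) : ψ x ∈ C := by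
  by_contra h
  have h3 := hψi (hoff (ψ x) h)
  rw [h3] at h
  exact h hx

theorem dh35_comp {e : OpenPartialHomeomorph M (Euc n)} {C : Set (Euc n)} (hCe : C ⊆ e.target)
    {ψ g : Euc n → Euc n} (hoff : ∀ x, x ∉ C → ψ x = x) (h1 : ∀ x, g (ψ x) = x) (z : M) :
    ext e g (ext e ψ z) = z := by
  by_cases h : z ∈ e.source
  · have h2 := dh35_target hCe hoff (dh35_on hoff (Function.LeftInverse.injective h1))
      (e.map_source h)
    have h3 := e.map_target h2
    rw [ext_of_mem h, ext_of_mem h3, e.right_inv h2, h1, e.left_inv h]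
  · rw [ext_of_notMem h, ext_of_notMem h]

theorem dh35_smooth [T2Space M] [IsManifold (𝓡 n) ∞ M] {e : OpenPartialHomeomorph M (Euc n)}
    (he : e ∈ IsManifold.maximalAtlas (𝓡 n) ∞ M) {C : Set (Euc n)} (hC : IsCompact C)
    (hCe : C ⊆ e.target) {ψ : Euc n → Euc n} (hψ : ContDiff ℝ ∞ ψ)
    (hoff : ∀ x, x ∉ C → ψ x = x) (hψi : Function.Injective ψ) :
    ContMDiff (𝓡 n) (𝓡 n) ∞ (ext e ψ) := by
  intro z
  by_cases h : z ∈ e.source
  · have h1 : ContMDiffAt (𝓡 n) (𝓡 n) ∞ (fun z => e.symm (ψ (e z))) z := by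
      have h2 : ContMDiffAt (𝓡 n) (𝓡 n) ∞ ψ (e z) := hψ.contMDiff.contMDiffAt
      have h3 : ContMDiffAt (𝓡 n) (𝓡 n) ∞ e z :=
        (contMDiffOn_of_mem_maximalAtlas he).contMDiffAt (e.open_source.mem_nhds h)
      have h4 : ContMDiffAt (𝓡 n) (𝓡 n) ∞ e.symm (ψ (e z)) :=
        (contMDiffOn_symm_of_mem_maximalAtlas he).contMDiffAt
          (e.open_target.mem_nhds (dh35_target hCe hoff (dh35_on hoff hψi) (e.map_source h)))
      exact h4.comp z (h2.comp z h3)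
    refine h1.congr_of_eventuallyEq ?_
    filter_upwards [e.open_source.mem_nhds h] with w hw
    exact ext_of_mem hw
  · refine contMDiffAt_id.congr_of_eventuallyEq ?_
    filter_upwards [(dh35_closed hC hCe).isOpen_compl.mem_nhds (dh35_notMem hCe h)] with w hw
    exact dh35_off hoff hw

/-- **DH35 (M).** Port of `exists_diff` (Lib/H37C/E1): the ball of radius `2` is replaced by a compact set `C` in the image of
the chart.

Proof: the proof in Lib/H37C/E1.lean, word for word, with `Metric.closedBall 0 2` replaced by `C` and `2 ≤ ‖x‖` by `x ∉ C`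
(`ψ` maps `C` to itself: if `x ∈ C` and `ψ x ∉ C` then `ψ (ψ x) = ψ x`, so `ψ x = x`). -/
theorem exists_diffC [T2Space M] [IsManifold (𝓡 n) ∞ M] {e : OpenPartialHomeomorph M (Euc n)}
    (he : e ∈ IsManifold.maximalAtlas (𝓡 n) ∞ M) {C : Set (Euc n)} (hC : IsCompact C) (hCe : C ⊆ e.target)
    {ψ g : Euc n → Euc n} (hψ : ContDiff ℝ ∞ ψ) (hg : ContDiff ℝ ∞ g) (h1 : ∀ x, g (ψ x) = x) (h2 : ∀ x, ψ (g x) = x)
    (hoff : ∀ x, x ∉ C → ψ x = x) : ∃ G : DiffInf n M, ∀ z, G z = ext e ψ z := by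
  have hg2 : ∀ x, x ∉ C → g x = x := fun x hx => by
    rw [← hoff x hx, h1, hoff x hx]
  exact ⟨{ toFun := ext e ψ
           invFun := ext e g
           left_inv := dh35_comp hCe hoff h1
           right_inv := dh35_comp hCe hg2 h2
           contMDiff_toFun := dh35_smooth he hC hCe hψ hoff (Function.LeftInverse.injective h1)
           contMDiff_invFun := dh35_smooth he hC hCe hg hg2 (Function.LeftInverse.injective h2) },
    fun z => rfl⟩

/-- **DH35, second part.** Port of `jc_ext` (Lib/H37C/E2), in the same way. -/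
theorem jc_extC [T2Space M] [IsManifold (𝓡 n) ∞ M] {Z : Type*} [TopologicalSpace Z]
    {e : OpenPartialHomeomorph M (Euc n)} (he : e ∈ IsManifold.maximalAtlas (𝓡 n) ∞ M) {C : Set (Euc n)}
    (hC : IsCompact C) (hCe : C ⊆ e.target) (ψ : Z → Euc n → Euc n) (hψ : ∀ z x, RegN ⊤ ψ z x)
    (hoff : ∀ z x, x ∉ C → ψ z x = x) (hon : ∀ z x, x ∈ C → ψ z x ∈ C) :
    JC (n := n) (fun z => (ext e (ψ z) : M → M)) := by
  have htar : ∀ z, ∀ x ∈ e.target, ψ z x ∈ e.target := fun z x hx =>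
    dh35_target hCe (hoff z) (hon z) hx
  constructor
  · rw [continuous_iff_continuousAt]
    rintro ⟨z₀, m₀⟩
    by_cases h : m₀ ∈ e.source
    · have h1 : ContinuousAt (fun p : Z × M => (p.1, e p.2)) (z₀, m₀) :=
        continuous_fst.continuousAt.prodMk (ContinuousAt.comp (g := e)
          (f := fun p : Z × M => p.2) (e.continuousAt h) continuous_snd.continuousAt)
      have h2 : ContinuousAt (fun p : Z × M => ψ p.1 (e p.2)) (z₀, m₀) :=
        ContinuousAt.comp (g := fun q : Z × Euc n => ψ q.1 q.2)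
          (f := fun p : Z × M => (p.1, e p.2)) (hψ z₀ (e m₀)).continuousAt h1
      have h3 : ContinuousAt (fun p : Z × M => e.symm (ψ p.1 (e p.2))) (z₀, m₀) :=
        ContinuousAt.comp (g := e.symm) (f := fun p : Z × M => ψ p.1 (e p.2))
          (e.symm.continuousAt (htar _ _ (e.map_source h))) h2
      refine h3.congr ?_
      filter_upwards [continuous_snd.continuousAt.eventually (e.open_source.mem_nhds h)]
        with p hp
      exact (ext_of_mem hp).symm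
    · refine continuous_snd.continuousAt.congr ?_
      filter_upwards [continuous_snd.continuousAt.eventually
        ((dh35_closed hC hCe).isOpen_compl.mem_nhds (dh35_notMem hCe h))] with p hp
      exact (dh35_off (hoff p.1) hp).symm
  · intro φ hφ χ hχ z₀ x₀ hx₀ hgx'
    have hgx : ext e (ψ z₀) (φ.symm x₀) ∈ χ.source := hgx'
    by_cases h : φ.symm x₀ ∈ e.source
    · have hA : RegN ⊤ (fun _ : Z => (e ∘ φ.symm : Euc n → Euc n)) z₀ x₀ :=
        regN_of_contDiffOn (isOpen_expr (f := id) continuous_id φ e) (contDiffOn_change hφ he) z₀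
          ⟨hx₀, h⟩
      have hy : e.symm (ψ z₀ (e (φ.symm x₀))) ∈ χ.source := by
        rwa [ext_of_mem h] at hgx
      have hB : RegN ⊤ (fun _ : Z => (χ ∘ e.symm : Euc n → Euc n)) z₀ (ψ z₀ (e (φ.symm x₀))) :=
        regN_of_contDiffOn (isOpen_expr (f := id) continuous_id e χ) (contDiffOn_change he hχ) z₀
          ⟨htar _ _ (e.map_source h), hy⟩
      have hD1 : RegN ⊤ (fun z : Z => ψ z ∘ (e ∘ φ.symm : Euc n → Euc n)) z₀ x₀ :=
        RegN.comp (G := ψ) (H := fun _ => (e ∘ φ.symm : Euc n → Euc n)) (hψ z₀ _) hA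
      have hD : RegN ⊤ (fun z : Z => (χ ∘ e.symm : Euc n → Euc n) ∘
          (ψ z ∘ (e ∘ φ.symm : Euc n → Euc n))) z₀ x₀ :=
        RegN.comp (G := fun _ => (χ ∘ e.symm : Euc n → Euc n))
          (H := fun z : Z => ψ z ∘ (e ∘ φ.symm : Euc n → Euc n)) hB hD1
      refine hD.congr ?_
      filter_upwards [e2_ev (z₀ := z₀) hx₀ e.open_source h] with p hp
      show χ (e.symm (ψ p.1 (e (φ.symm p.2)))) = χ (ext e (ψ p.1) (φ.symm p.2))
      rw [ext_of_mem hp]
    · have hy : φ.symm x₀ ∈ χ.source := by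
        rwa [ext_of_notMem h] at hgx
      have hA : RegN ⊤ (fun _ : Z => (χ ∘ φ.symm : Euc n → Euc n)) z₀ x₀ :=
        regN_of_contDiffOn (isOpen_expr (f := id) continuous_id φ χ) (contDiffOn_change hφ hχ) z₀
          ⟨hx₀, hy⟩
      refine hA.congr ?_
      filter_upwards [e2_ev (z₀ := z₀) hx₀ (dh35_closed hC hCe).isOpen_compl (dh35_notMem hCe h)]
        with p hp
      show χ (φ.symm p.2) = χ (ext e (ψ p.1) (φ.symm p.2))
      rw [dh35_off (hoff p.1) hp]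

end Pool.Agent.Lib.H37D
end

-- from Lib.H37D.DH42
section

open TopologicalSpace Set Filter Topology
open scoped Manifold ContDiff
open Pool.Agent.Lib.Helper37.ConjBorel Pool.Agent.Lib.H37C

namespace Pool.Agent.Lib.H37D

variable {n : ℕ} {M : Type*} [TopologicalSpace M] [ChartedSpace (Euc n) M]
variable {W : Type*} [NormedAddCommGroup W] [NormedSpace ℝ W]
variable {f₀ : DiffInf n M} {m : ℕ} {p : M} {e : OpenPartialHomeomorph M (Euc n)} {L : Euc n ≃L[ℝ] Euc 2 × W}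
variable {A : Euc 2 → W ≃L[ℝ] W} {r₂ r₃ : ℝ} {χ : W → ℝ} {lt : ℕ → ℕ → Prop} {δ : ℝ} {F : DiffInf n M}

/-- **DH42 (S/M).** Returns to the box under `f₀`.

Proof: strong induction on `j`, for all `v`. `j < m` contradicts `disj`. Otherwise `f₀^m (pt v) = pt v₁`, `v₁ = (v.1, A v.1 v.2) ∈ Bx r₃`,
`‖v₁.2‖ ≤ ‖v.2‖ / 8`. If `j = m`, `v₁ = a` (`ptM_inj`). If `j > m`: `f₀^(j-m) (pt v₁) = pt a`, induction hypothesis:
`a.1 = v₁.1 = v.1`, `‖a.2‖ ≤ ‖v₁.2‖ / 8`. -/
theorem ret_box (hS : CSpot f₀ m p e L A r₂ r₃) {v a : Euc 2 × W} (hv : v ∈ Bx r₃) (ha : a ∈ Bx r₃) {j : ℕ} (hj : 0 < j)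
    (h : (⇑f₀)^[j] (ptM e L v) = ptM e L a) : a.1 = v.1 ∧ ‖a.2‖ ≤ 1 / 8 * ‖v.2‖ := by
  induction j using Nat.strong_induction_on generalizing v with
  | _ j ih =>
    by_cases hjm : j < m
    · exact absurd h (hS.disj j hj hjm v hv a ha)
    · obtain ⟨j', rfl⟩ : ∃ j', j = j' + m := ⟨j - m, by omega⟩
      rw [Function.iterate_add_apply, hS.per v hv] at h
      have h2 := hS.A_le v.1 v.2
      have hv1 : ((v.1, A v.1 v.2) : Euc 2 × W) ∈ Bx r₃ := by
        refine ⟨hv.1, ?_⟩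
        show ‖A v.1 v.2‖ ≤ r₃
        have h3 : ‖v.2‖ ≤ r₃ := hv.2
        linarith [norm_nonneg v.2]
      rcases Nat.eq_zero_or_pos j' with h0 | h0
      · subst h0
        rw [Function.iterate_zero, id_eq] at h
        have h3 := ptM_inj hS hv1 ha h
        rw [← h3]
        exact ⟨rfl, h2⟩
      · have h3 := ih j' (by have := hS.pos; omega) hv1 h0 h
        refine ⟨h3.1, h3.2.trans ?_⟩
        show 1 / 8 * ‖A v.1 v.2‖ ≤ _
        linarith [norm_nonneg v.2]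

/-- **DH42, second part.** Backward orbits which avoid the shell.

Proof by induction on `k`: let `u' = f₀⁻¹^[k] u`, `u'' = f₀⁻¹ u'`; `F u'' = f₀ (ext .. u'') = f₀ u'' = u'` (hypothesis for `j = k + 1`), so
`F⁻¹ u' = u''`. -/
theorem back_of (hF : IsPert f₀ e L χ lt δ F) {u : M}
    (h : ∀ j, 0 < j → ext e (PE L χ lt δ) ((⇑f₀.symm)^[j] u) = (⇑f₀.symm)^[j] u) (k : ℕ) :
    (⇑F.symm)^[k] u = (⇑f₀.symm)^[k] u := by
  induction k with
  | zero => rfl
  | succ k ih =>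
    rw [Function.iterate_succ_apply', ih]
    have h1 := h (k + 1) (Nat.succ_pos k)
    have h2 : F ((⇑f₀.symm)^[k + 1] u) = (⇑f₀.symm)^[k] u := by
      rw [hF, h1, Function.iterate_succ_apply', f₀.apply_symm_apply]
    rw [← h2, F.symm_apply_apply]

theorem dh42_inv (f : DiffInf n M) (j : ℕ) (x : M) : (⇑f)^[j] ((⇑f.symm)^[j] x) = x :=
  Function.LeftInverse.iterate (fun y => f.apply_symm_apply y) j x

/-- `back_of`, `ext_fix`: if `f₀⁻¹^[j] (pt a) = pt v` with `1 < ‖v.1‖ < 2`, `‖v.2‖ < r₂`, then `f₀^j (pt v) = pt a`, so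
`‖a.2‖ ≤ ‖v.2‖ / 8 < r₂` by `ret_box`. -/
theorem back_ann [IsStrictTotalOrder ℕ lt] (hS : CSpot f₀ m p e L A r₂ r₃) (hχ : Cut χ r₂) (hF : IsPert f₀ e L χ lt δ F)
    {a : Euc 2 × W} (ha : a ∈ Bx r₃) (hr : r₂ ≤ ‖a.2‖) (k : ℕ) :
    (⇑F.symm)^[k] (ptM e L a) = (⇑f₀.symm)^[k] (ptM e L a) := by
  apply back_of hF
  intro j hj
  apply ext_fix hχ
  rintro ⟨v', ⟨h2, h3, h4⟩, hv'⟩
  have hB : v' ∈ Bx r₃ := ⟨by linarith, by linarith [hS.r_lt]⟩
  have h5 : (⇑f₀)^[j] (ptM e L v') = ptM e L a := by rw [hv', dh42_inv]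
  have h6 := (ret_box hS hB ha hj h5).2
  linarith [norm_nonneg v'.2]

/-- The same with `a.1 = v.1`, `‖v.1‖ < 2`. -/
theorem back_side [IsStrictTotalOrder ℕ lt] (hS : CSpot f₀ m p e L A r₂ r₃) (hχ : Cut χ r₂) (hF : IsPert f₀ e L χ lt δ F)
    {a : Euc 2 × W} (ha : a ∈ Bx r₃) (hr : 2 ≤ ‖a.1‖) (k : ℕ) :
    (⇑F.symm)^[k] (ptM e L a) = (⇑f₀.symm)^[k] (ptM e L a) := by
  apply back_of hF
  intro j hj
  apply ext_fix hχ
  rintro ⟨v', ⟨h2, h3, h4⟩, hv'⟩
  have hB : v' ∈ Bx r₃ := ⟨by linarith, by linarith [hS.r_lt]⟩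
  have h5 : (⇑f₀)^[j] (ptM e L v') = ptM e L a := by rw [hv', dh42_inv]
  have h6 := (ret_box hS hB ha hj h5).1
  rw [h6] at hr
  linarith

end Pool.Agent.Lib.H37D
end

-- from Lib.H37D.DH33
section

open TopologicalSpace Set Filter Topology
open scoped Manifold ContDiff NNReal
open Pool.Agent.Lib.Helper37.ConjBorel Pool.Agent.Lib.H37C

namespace Pool.Agent.Lib.H37D

variable {n : ℕ} {W : Type*} [NormedAddCommGroup W] [NormedSpace ℝ W] {lt : ℕ → ℕ → Prop} [IsStrictTotalOrder ℕ lt]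

/-- **DH33 (S).** Smoothness: `PE_eq`, `s7_fld_contDiff`. -/
theorem PE_contDiff (L : Euc n ≃L[ℝ] Euc 2 × W) {χ : W → ℝ} (hχ : ContDiff ℝ ∞ χ) (δ : ℝ) :
    ContDiff ℝ ∞ (PE L χ lt δ : Euc n → Euc n) := by
  have h : (PE L χ lt δ : Euc n → Euc n) =
      fun x => x + (δ * χ (L x).2) • L.symm (Fld lt (L x).1, (0 : W)) := by
    funext x
    exact PE_eq L χ lt δ x
  rw [h]
  have hL1 : ContDiff ℝ ∞ (fun x => (L x).1) := contDiff_fst.comp L.contDiff
  have hL2 : ContDiff ℝ ∞ (fun x => (L x).2) := contDiff_snd.comp L.contDiff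
  have hF : ContDiff ℝ ∞ (fun x => (Fld lt (L x).1 : Euc 2)) := (s7_fld_contDiff (lt := lt) (n := 2)).comp hL1
  have hc0 : ContDiff ℝ ∞ (fun _ : Euc n => (0 : W)) := contDiff_const
  have hJ : ContDiff ℝ ∞ (fun x => L.symm (Fld lt (L x).1, (0 : W))) :=
    L.symm.contDiff.comp (hF.prodMk hc0)
  have hd : ContDiff ℝ ∞ (fun x => δ * χ (L x).2) := contDiff_const.mul (hχ.comp hL2)
  exact contDiff_id.add (hd.smul hJ)

/-- **DH33, second part (S).** `PE` is bijective: for each `w` the map `psi lt (δ χ(w))` is bijective (`psi_diffeo`,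
`0 ≤ δ χ(w) ≤ 1`). -/
theorem PE_bijective (L : Euc n ≃L[ℝ] Euc 2 × W) {χ : W → ℝ} {r : ℝ} (hχ : Cut χ r) {δ : ℝ} (h0 : 0 ≤ δ) (h1 : δ ≤ 1) :
    Function.Bijective (PE L χ lt δ : Euc n → Euc n) := by
  have hP : Function.Bijective (PP χ lt δ : Euc 2 × W → Euc 2 × W) := by
    have hw : ∀ w : W, 0 ≤ δ * χ w ∧ δ * χ w ≤ 1 := fun w =>
      ⟨mul_nonneg h0 (hχ.nonneg w), by
        calc δ * χ w ≤ 1 * 1 := mul_le_mul h1 (hχ.le_one w) (hχ.nonneg w) zero_le_one
          _ = 1 := one_mul 1⟩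
    have hd : ∀ w : W, ∃ g : Euc 2 → Euc 2, (∀ x, g (psi lt (δ * χ w) x) = x) ∧
        ∀ x, psi lt (δ * χ w) (g x) = x := fun w => by
      obtain ⟨-, g, -, h2, h3⟩ := psi_diffeo (lt := lt) (n := 2) (hw w).1 (hw w).2
      exact ⟨g, h2, h3⟩
    choose g hg1 hg2 using hd
    refine ⟨?_, ?_⟩
    · intro v v' h
      have h2a : (PP χ lt δ v).2 = (PP χ lt δ v').2 := by rw [h]
      have h2 : v.2 = v'.2 := h2a
      have h1a : (PP χ lt δ v).1 = (PP χ lt δ v').1 := by rw [h]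
      have h1' : psi lt (δ * χ v.2) v.1 = psi lt (δ * χ v'.2) v'.1 := h1a
      rw [← h2] at h1'
      have h3 := congrArg (g v.2) h1'
      rw [hg1, hg1] at h3
      exact Prod.ext h3 h2
    · intro v
      refine ⟨(g v.2 v.1, v.2), ?_⟩
      exact Prod.ext (hg2 v.2 v.1) rfl
  exact L.symm.bijective.comp (hP.comp L.bijective)

/-- **DH33, third part (M).** The derivative of `PE` is injective, so invertible (finite dimension).

Proof. `PE x = x + (δ * χ (L x).2) • J (Fld lt (L x).1)`, `J a = L.symm (a, 0)` (`PE_eq`). Let `D = fderiv ℝ (Fld lt) (L x).1`; `‖D‖ ≤ 1/2`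
(`fld_lip`, `norm_fderiv_le_of_lipschitz`), `s7_fld_contDiff`. The derivative of `PE` at `x` in the direction `v`, with `L v = (a, b)`, is
`v + (δ * χ (L x).2) • J (D a) + (δ * fderiv χ (L x).2 b) • J (Fld lt (L x).1)`. Let it be `0` and apply `L`: the second component gives
`b = 0`, so the first one is `a + (δ * χ (L x).2) • D a = 0`, so `‖a‖ ≤ ‖a‖ / 2`, `a = 0`, `v = 0`. -/
theorem PE_fderiv (L : Euc n ≃L[ℝ] Euc 2 × W) {χ : W → ℝ} {r : ℝ} (hχ : Cut χ r) {δ : ℝ} (h0 : 0 ≤ δ) (h1 : δ ≤ 1)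
    (x : Euc n) : ∃ f' : Euc n ≃L[ℝ] Euc n, HasFDerivAt (PE L χ lt δ : Euc n → Euc n) (f' : Euc n →L[ℝ] Euc n) x := by
  have h1' := h1
  set D : Euc 2 →L[ℝ] Euc 2 := fderiv ℝ (Fld lt : Euc 2 → Euc 2) (L x).1 with hD
  have hFd : HasFDerivAt (Fld lt : Euc 2 → Euc 2) D (L x).1 :=
    ((s7_fld_contDiff (lt := lt) (n := 2)).differentiable (by simp) _).hasFDerivAt
  have hDn : ‖D‖ ≤ 1 / 2 := by
    have hlip : LipschitzWith (1 / 2 : ℝ≥0) (Fld lt : Euc 2 → Euc 2) := by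
      refine LipschitzWith.of_dist_le_mul fun x y => ?_
      rw [dist_eq_norm, dist_eq_norm]
      simpa using fld_lip (lt := lt) x y
    have h2 := norm_fderiv_le_of_lipschitz ℝ (x₀ := (L x).1) hlip
    calc ‖D‖ ≤ ((1 / 2 : ℝ≥0) : ℝ) := h2
      _ = 1 / 2 := by simp
  have hPEd : HasFDerivAt (PE L χ lt δ : Euc n → Euc n) (fderiv ℝ (PE L χ lt δ : Euc n → Euc n) x) x :=
    ((PE_contDiff (lt := lt) L hχ.smooth δ).differentiable (by simp) x).hasFDerivAt
  set T := fderiv ℝ (PE L χ lt δ : Euc n → Euc n) x with hT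
  have hinj : Function.Injective T := by
    rw [injective_iff_map_eq_zero]
    intro v hv
    -- the derivative of `L ∘ PE ∘ L.symm = PP`
    have h1 : HasFDerivAt (fun y => L (PE L χ lt δ y)) ((L : Euc n →L[ℝ] Euc 2 × W).comp T) x :=
      (L : Euc n →L[ℝ] Euc 2 × W).hasFDerivAt.comp x hPEd
    have hχd : HasFDerivAt χ (fderiv ℝ χ (L x).2) (L x).2 := (hχ.smooth.differentiable (by simp) _).hasFDerivAt
    have hLx : HasFDerivAt (fun y => L y) (L : Euc n →L[ℝ] Euc 2 × W) x := (L : Euc n →L[ℝ] Euc 2 × W).hasFDerivAt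
    have hL1 : HasFDerivAt (fun y => (L y).1) ((ContinuousLinearMap.fst ℝ (Euc 2) W).comp (L : Euc n →L[ℝ] Euc 2 × W)) x :=
      hLx.fst
    have hL2 : HasFDerivAt (fun y => (L y).2) ((ContinuousLinearMap.snd ℝ (Euc 2) W).comp (L : Euc n →L[ℝ] Euc 2 × W)) x :=
      hLx.snd
    have h2 : HasFDerivAt (fun y => (Fld lt (L y).1 : Euc 2))
        (D.comp ((ContinuousLinearMap.fst ℝ (Euc 2) W).comp (L : Euc n →L[ℝ] Euc 2 × W))) x :=
      HasFDerivAt.comp (g := (Fld lt : Euc 2 → Euc 2)) x hFd hL1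
    have h3 : HasFDerivAt (fun y => δ * χ (L y).2)
        (δ • ((fderiv ℝ χ (L x).2).comp ((ContinuousLinearMap.snd ℝ (Euc 2) W).comp (L : Euc n →L[ℝ] Euc 2 × W)))) x :=
      (HasFDerivAt.comp x hχd hL2).const_mul δ
    have h4 := hL1.add (h3.smul h2)
    have h5 : (fun y => L (PE L χ lt δ y)) =
        fun y => ((L y).1 + (δ * χ (L y).2) • (Fld lt (L y).1 : Euc 2), (L y).2) := by
      funext y
      show L (L.symm (PP χ lt δ (L y))) = _
      rw [L.apply_symm_apply]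
      rfl
    rw [h5] at h1
    have h6 := (h4.prodMk hL2).unique h1
    have h7 := congrArg (fun S : Euc n →L[ℝ] Euc 2 × W => S v) h6
    have h8 : ((L : Euc n →L[ℝ] Euc 2 × W).comp T) v = 0 := by
      show L (T v) = 0
      rw [hv, map_zero]
    rw [h8] at h7
    have h9 : (L v).2 = 0 := congrArg Prod.snd h7
    have h10 : (L v).1 + ((δ * χ (L x).2) • D (L v).1 +
        (δ * (fderiv ℝ χ (L x).2) (L v).2) • (Fld lt (L x).1 : Euc 2)) = 0 := congrArg Prod.fst h7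
    rw [h9, map_zero, mul_zero, zero_smul, add_zero] at h10
    have h11 : ‖(L v).1‖ ≤ 1 / 2 * ‖(L v).1‖ := by
      have h12 : (L v).1 = -((δ * χ (L x).2) • D (L v).1) := eq_neg_of_add_eq_zero_left h10
      have h13 : ‖(L v).1‖ = ‖(δ * χ (L x).2) • D (L v).1‖ := by
        conv_lhs => rw [h12]
        exact norm_neg _
      have h14 : δ * χ (L x).2 ≤ 1 := by
        calc δ * χ (L x).2 ≤ 1 * 1 := mul_le_mul h1' (hχ.le_one _) (hχ.nonneg _) zero_le_one
          _ = 1 := one_mul 1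
      calc ‖(L v).1‖ = δ * χ (L x).2 * ‖D (L v).1‖ := by
            rw [h13, norm_smul, Real.norm_eq_abs, abs_of_nonneg (mul_nonneg h0 (hχ.nonneg _))]
        _ ≤ 1 * (1 / 2 * ‖(L v).1‖) := by
            refine mul_le_mul h14 ?_ (norm_nonneg _) zero_le_one
            exact (D.le_opNorm _).trans (mul_le_mul_of_nonneg_right hDn (norm_nonneg _))
        _ = 1 / 2 * ‖(L v).1‖ := one_mul _
    have h15 : ‖(L v).1‖ = 0 := by
      have := norm_nonneg (L v).1
      linarith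
    have h16 : L v = 0 := Prod.ext (norm_eq_zero.1 h15) h9
    exact (map_eq_zero_iff L L.injective).1 h16
  have hsurj : Function.Surjective T := (LinearMap.injective_iff_surjective (f := (T : Euc n →ₗ[ℝ] Euc n))).1 hinj
  refine ⟨ContinuousLinearEquiv.ofBijective T (LinearMap.ker_eq_bot.2 hinj) (LinearMap.range_eq_top.2 hsurj), ?_⟩
  rw [ContinuousLinearEquiv.coe_ofBijective]
  exact hPEd

end Pool.Agent.Lib.H37D
end

-- from Lib.H37D.DH34
section

open TopologicalSpace Set Filter Topology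
open scoped Manifold ContDiff
open Pool.Agent.Lib.Helper37.ConjBorel Pool.Agent.Lib.H37C

namespace Pool.Agent.Lib.H37D

variable {n : ℕ} {W : Type*} [NormedAddCommGroup W] [NormedSpace ℝ W] {lt : ℕ → ℕ → Prop} [IsStrictTotalOrder ℕ lt]

/-- **DH34 (M).** `PE` is a smooth diffeomorphism.

Proof. `PE` is a continuous bijection, and an open map: `isOpenMap_iff_nhds_le`, `HasStrictFDerivAt.map_nhds_eq_of_equiv`
(`ContDiffAt.hasStrictFDerivAt'`, `PE_fderiv`), so a homeomorphism `h` (`Equiv.ofBijective`,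
`Equiv.toHomeomorphOfContinuousOpen`); `h.contDiff_symm` (`Homeomorph.contDiff_symm`, used in the same way in `psi_diffeo`, Lib/H37C/S7). -/
theorem PE_diffeo (L : Euc n ≃L[ℝ] Euc 2 × W) {χ : W → ℝ} {r : ℝ} (hχ : Cut χ r) {δ : ℝ} (h0 : 0 ≤ δ) (h1 : δ ≤ 1) :
    ContDiff ℝ ∞ (PE L χ lt δ : Euc n → Euc n) ∧ ∃ g : Euc n → Euc n, ContDiff ℝ ∞ g ∧
      (∀ x, g (PE L χ lt δ x) = x) ∧ ∀ x, PE L χ lt δ (g x) = x := by
  have hc := PE_contDiff (lt := lt) L hχ.smooth δ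
  refine ⟨hc, ?_⟩
  have hopen : IsOpenMap (PE L χ lt δ : Euc n → Euc n) := by
    rw [isOpenMap_iff_nhds_le]
    intro x
    obtain ⟨f', hf'⟩ := PE_fderiv (lt := lt) L hχ h0 h1 x
    have hs : HasStrictFDerivAt (PE L χ lt δ : Euc n → Euc n) (f' : Euc n →L[ℝ] Euc n) x :=
      hc.contDiffAt.hasStrictFDerivAt' hf' (by simp)
    exact hs.map_nhds_eq_of_equiv.ge
  set h : Euc n ≃ₜ Euc n := (Equiv.ofBijective _ (PE_bijective (lt := lt) L hχ h0 h1)).toHomeomorphOfContinuousOpen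
    hc.continuous hopen with hh
  have hco : (h : Euc n → Euc n) = PE L χ lt δ := rfl
  have hD : ∀ a : Euc n, ∃ f' : Euc n ≃L[ℝ] Euc n, HasFDerivAt h (f' : Euc n →L[ℝ] Euc n) a := fun a =>
    PE_fderiv (lt := lt) L hχ h0 h1 a
  choose f' hf' using hD
  have hcs : ContDiff ℝ ∞ h.symm := h.contDiff_symm hf' hc
  refine ⟨h.symm, hcs, fun x => ?_, fun x => ?_⟩
  · exact h.symm_apply_apply x
  · exact h.apply_symm_apply x

end Pool.Agent.Lib.H37D
end

-- from Lib.H37D.DH36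
section

open TopologicalSpace Set Filter Topology
open scoped Manifold ContDiff
open Pool.Agent.Lib.Helper37.ConjBorel Pool.Agent.Lib.H37C

namespace Pool.Agent.Lib.H37D

variable {n : ℕ} {M : Type*} [TopologicalSpace M] [ChartedSpace (Euc n) M]
variable {W : Type*} [NormedAddCommGroup W] [NormedSpace ℝ W] [FiniteDimensional ℝ W]

/-- the support of the perturbation -/
def dh36_C (L : Euc n ≃L[ℝ] Euc 2 × W) (r : ℝ) : Set (Euc n) :=
  L.symm '' {v | ‖v.1‖ ≤ 2 ∧ ‖v.2‖ ≤ r}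

theorem dh36_compact (L : Euc n ≃L[ℝ] Euc 2 × W) (r : ℝ) : IsCompact (dh36_C L r) := by
  have h1 : {v : Euc 2 × W | ‖v.1‖ ≤ 2 ∧ ‖v.2‖ ≤ r} =
      Metric.closedBall 0 2 ×ˢ Metric.closedBall 0 r := by
    ext v
    simp [mem_prod]
  unfold dh36_C
  rw [h1]
  exact ((isCompact_closedBall _ _).prod (isCompact_closedBall _ _)).image L.symm.continuous

theorem dh36_sub {e : OpenPartialHomeomorph M (Euc n)} {L : Euc n ≃L[ℝ] Euc 2 × W} {r : ℝ}
    (hb : ∀ v ∈ Bx r, L.symm v ∈ e.target) : dh36_C L r ⊆ e.target := by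
  rintro x ⟨v, hv, rfl⟩
  exact hb v ⟨hv.1.trans (by norm_num), hv.2⟩

omit [FiniteDimensional ℝ W] in
theorem dh36_mem {L : Euc n ≃L[ℝ] Euc 2 × W} {r : ℝ} {x : Euc n} :
    x ∈ dh36_C L r ↔ ‖(L x).1‖ ≤ 2 ∧ ‖(L x).2‖ ≤ r := by
  constructor
  · rintro ⟨v, hv, rfl⟩
    rw [L.apply_symm_apply]
    exact hv
  · intro h
    exact ⟨L x, h, L.symm_apply_apply x⟩

omit [FiniteDimensional ℝ W] in
theorem dh36_off (L : Euc n ≃L[ℝ] Euc 2 × W) {χ : W → ℝ} {r : ℝ} (hχ : Cut χ r)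
    {lt : ℕ → ℕ → Prop} [IsStrictTotalOrder ℕ lt] (δ : ℝ) (x : Euc n) (hx : x ∉ dh36_C L r) :
    PE L χ lt δ x = x := by
  rw [dh36_mem, not_and_or] at hx
  unfold PE PP
  have h1 : (psi lt (δ * χ (L x).2) (L x).1 : Euc 2) = (L x).1 := by
    rcases hx with hx | hx
    · exact psi_out fun h => hx h.2.le
    · rw [hχ.zero _ (not_le.1 hx).le]
      simp [psi]
  rw [h1, Prod.mk.eta, L.symm_apply_apply]

omit [FiniteDimensional ℝ W] in
theorem dh36_on (L : Euc n ≃L[ℝ] Euc 2 × W) {χ : W → ℝ} {r : ℝ} (hχ : Cut χ r)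
    {lt : ℕ → ℕ → Prop} [IsStrictTotalOrder ℕ lt] {δ : ℝ} (h0 : 0 ≤ δ) (h1 : δ ≤ 1) (x : Euc n)
    (hx : x ∈ dh36_C L r) : PE L χ lt δ x ∈ dh36_C L r := by
  rw [dh36_mem] at hx ⊢
  unfold PE PP
  rw [L.apply_symm_apply]
  refine ⟨?_, hx.2⟩
  exact (psi_ball (mul_nonneg h0 (hχ.nonneg _))
    (mul_le_one₀ h1 (hχ.nonneg _) (hχ.le_one _))).2 hx.1

/-- **DH36 (M).** The family of perturbations in the open set `U`.

Proof: as `exists_family` (Lib/H37C/E3), with `C = L.symm '' {v | ‖v.1‖ ≤ 2 ∧ ‖v.2‖ ≤ r}` (compact: product of closed balls in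
finite-dimensional spaces; contained in the target by `hb`), `exists_diffC`, `jc_extC`, `PE_diffeo`, `PE_regN`, `JC.comp_left`,
`continuous_of_jc`. If `x ∉ C`, `L x = (ζ, w)`: `‖ζ‖ > 2`, so `psi_out`, or `‖w‖ > r`, so `χ w = 0` and `psi lt 0 = id`. `PE` maps
`C` to `C` by `psi_ball` (`0 ≤ δ χ(w) ≤ 1`). For `δ = 0`, `PE L χ lt 0 = id`. -/
theorem exists_familyC [T2Space M] [IsManifold (𝓡 n) ∞ M] {T : Type*} [TopologicalSpace T] [CompactSpace T]
    (f₀ : DiffInf n M) {U : Set (DiffInf n M)} (hU : IsOpen U) (h₀ : f₀ ∈ U) {e : OpenPartialHomeomorph M (Euc n)}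
    (he : e ∈ IsManifold.maximalAtlas (𝓡 n) ∞ M) (L : Euc n ≃L[ℝ] Euc 2 × W) {χ : W → ℝ} {r : ℝ} (hχ : Cut χ r)
    (hb : ∀ v ∈ Bx r, L.symm v ∈ e.target) (lt : T → ℕ → ℕ → Prop) (hs : ∀ t, IsStrictTotalOrder ℕ (lt t))
    (hc : ∀ i j, IsClopen {t | lt t i j}) :
    ∃ δ : ℝ, 0 < δ ∧ δ ≤ 1 ∧ ∃ F : T → DiffInf n M, Continuous F ∧ (∀ t, F t ∈ U) ∧
      ∀ t, IsPert f₀ e L χ (lt t) δ (F t) := by
  have hCc := dh36_compact L r
  have hCe := dh36_sub (M := M) hb
  have hG : ∀ p : T × Icc (0 : ℝ) 1, ∃ G : DiffInf n M, ∀ z, G z =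
      ext e (PE L χ (lt p.1) p.2) z := by
    rintro ⟨t, δ⟩
    have := hs t
    obtain ⟨h1, g, h2, h3, h4⟩ := PE_diffeo (lt := lt t) L hχ δ.2.1 δ.2.2
    exact exists_diffC he hCc hCe h1 h2 h3 h4 (fun x hx => dh36_off L hχ _ x hx)
  choose G hG using hG
  let H : T × Icc (0 : ℝ) 1 → DiffInf n M := fun p => (G p).trans f₀
  have hHz : ∀ p z, H p z = f₀ (ext e (PE L χ (lt p.1) p.2) z) := fun p z => by
    show f₀ (G p z) = _
    rw [hG]
  have hJ : JC (n := n) (fun p : T × Icc (0 : ℝ) 1 =>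
      (ext e (PE L χ (lt p.1) p.2) : M → M)) := by
    refine jc_extC he hCc hCe (fun p : T × Icc (0 : ℝ) 1 => PE L χ (lt p.1) p.2) ?_ ?_ ?_
    · intro p x
      have h1 := PE_regN lt hs hc L hχ.smooth (p.1, (p.2 : ℝ)) x
      exact RegN.reparam (σ := fun p : T × Icc (0 : ℝ) 1 => (p.1, (p.2 : ℝ))) h1
        (by fun_prop)
    · intro p x hx
      have := hs p.1
      exact dh36_off L hχ _ x hx
    · intro p x hx
      have := hs p.1
      exact dh36_on L hχ p.2.2.1 p.2.2.2 x hx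
  have hHc : Continuous H := by
    refine continuous_of_jc ?_
    have h1 := JC.comp_left hJ f₀
    have h2 : (fun p => (H p : M → M)) =
        fun p : T × Icc (0 : ℝ) 1 => (f₀ ∘ (ext e (PE L χ (lt p.1) p.2)) : M → M) := by
      funext p z
      exact hHz p z
    rw [h2]
    exact h1
  have h0 : ∀ t, H (t, ⟨0, by simp⟩) ∈ U := by
    intro t
    have : H (t, ⟨0, by simp⟩) = f₀ := by
      apply Diffeomorph.ext
      intro z
      rw [hHz]
      congr 1
      have h1 : (PE L χ (lt t) 0 : Euc n → Euc n) = id := by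
        funext x
        unfold PE PP
        have h3 : (psi (lt t) (0 * χ (L x).2) (L x).1 : Euc 2) = (L x).1 := by
          simp [psi]
        rw [h3, Prod.mk.eta, L.symm_apply_apply]
        rfl
      show ext e (PE L χ (lt t) 0) z = z
      rw [h1]
      by_cases hz : z ∈ e.source
      · rw [ext_of_mem hz]; exact e.left_inv hz
      · exact ext_of_notMem hz
    rw [this]
    exact h₀
  have hev : ∀ᶠ s in 𝓝 (0 : ℝ), ∀ t ∈ (univ : Set T), H (t, projIcc 0 1 zero_le_one s) ∈ U := by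
    refine isCompact_univ.eventually_forall_of_forall_eventually fun t _ => ?_
    have h1 : ContinuousAt (fun q : ℝ × T => H (q.2, projIcc 0 1 zero_le_one q.1)) (0, t) := by
      have : Continuous fun q : ℝ × T => H (q.2, projIcc 0 1 zero_le_one q.1) :=
        hHc.comp (continuous_snd.prodMk (continuous_projIcc.comp continuous_fst))
      exact this.continuousAt
    apply h1.eventually
    apply hU.mem_nhds
    show H (t, projIcc 0 1 zero_le_one 0) ∈ U
    have h2 : projIcc (0 : ℝ) 1 zero_le_one 0 = ⟨0, by simp⟩ := by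
      rw [projIcc_left]
    rw [h2]
    exact h0 t
  obtain ⟨s, hs0, hs1⟩ := hev.exists_gt
  set δ := projIcc (0 : ℝ) 1 zero_le_one s with hδ
  have hδ0 : 0 < (δ : ℝ) := by
    rw [hδ, coe_projIcc]
    exact lt_max_of_lt_right (lt_min one_pos hs0)
  exact ⟨δ, hδ0, δ.2.2, fun t => H (t, δ), hHc.comp (continuous_id.prodMk continuous_const),
    fun t => hs1 t (mem_univ t), fun t z => hHz (t, δ) z⟩

end Pool.Agent.Lib.H37D
end
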