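import Pool.Agent.Lib.H1M.FF.M022
import Pool.Agent.Lib.H1M.FF.M024
import Pool.Agent.Lib.H1M.FF.M040

/-! Merged copies (to shorten the build) of Lib.H37D.A36. -/

-- from Lib.H37D.A36
section

/-!
# H37D A36 (size M): distortion for leaves

As `leaf_dist` in `Lib/H37N/A36.lean` (`a36_real` can be cited; `a36_cl` is to be repeated). The cone condition at time `0`: `‖v1 - v0‖ ≤ 6 ee ≤ gam/2 - 100 ee`
(`Leaf.small`).
-/

open Set Filter Topology

namespace Pool.Agent.Lib.H37D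

open Pool.Agent.Lib.H37N

variable {H V : Type*} [NormedAddCommGroup H] [NormedSpace ℝ H] [CompleteSpace H]
  [NormedAddCommGroup V] [NormedSpace ℝ V] {S : Sys H V}

theorem da36_cl (S : Sys H V) (w : List Sy) (hw : w ≠ []) (f : H → ℝ × V) (x : H) :
    S.Gw w f (S.RH.cl x) = S.Gw w f x := by
  induction w generalizing f with
  | nil => exact absurd rfl hw
  | cons i w ih =>
    rw [Sys.Gw_cons]
    by_cases h : w = []
    · subst h
      rw [Sys.Gw_nil]
      exact S.GG_cl i f x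
    · exact ih h _

theorem leaf_dist (h : S.Good) (w : List Sy) {f0 f1 f2 f3 : H → ℝ × V} (l0 : S.Leaf f0)
    (l1 : S.Leaf f1) (l2 : S.Leaf f2) (l3 : S.Leaf f3) {m m' : ℝ} (hm0 : gam / 2 ≤ m)
    (hm0' : gam / 2 ≤ m') (hm : ∀ x y, |(f1 x).1 - (f0 y).1 - m| ≤ 100 * ee)
    (hm' : ∀ x y, |(f3 x).1 - (f2 y).1 - m'| ≤ 100 * ee) (x x' : H) :
    ((S.Gw w f1 x).1 - (S.Gw w f0 x).1) / m ≤
      (1 + 1 / 20000) * (((S.Gw w f3 x').1 - (S.Gw w f2 x').1) / m') := by
  by_cases hw : w = []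
  · subst hw
    simp only [Sys.Gw_nil]
    have hmp : 0 < m := lt_of_lt_of_le (by norm_num [gam]) hm0
    have hmp' : 0 < m' := lt_of_lt_of_le (by norm_num [gam]) hm0'
    have h1 : ((f1 x).1 - (f0 x).1) / m ≤ 1 + 2 / 10 ^ 5 := by
      rw [div_le_iff₀ hmp]
      have := (abs_le.1 (hm x x)).2
      have e : 100 * ee ≤ 2 / 10 ^ 5 * (gam / 2) := by norm_num [ee, gam]
      nlinarith
    have h2 : 1 - 2 / 10 ^ 5 ≤ ((f3 x').1 - (f2 x').1) / m' := by
      rw [le_div_iff₀ hmp']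
      have := (abs_le.1 (hm' x' x')).1
      have e : 100 * ee ≤ 2 / 10 ^ 5 * (gam / 2) := by norm_num [ee, gam]
      nlinarith
    calc ((f1 x).1 - (f0 x).1) / m ≤ 1 + 2 / 10 ^ 5 := h1
      _ ≤ (1 + 1 / 20000) * (1 - 2 / 10 ^ 5) := by norm_num
      _ ≤ _ := mul_le_mul_of_nonneg_left h2 (by norm_num)
  · rw [← da36_cl S w hw f1 x, ← da36_cl S w hw f0 x, ← da36_cl S w hw f3 x',
      ← da36_cl S w hw f2 x']
    obtain ⟨x0, y0, v0, o0, p0, q0, r0⟩ := leaf_orbit h w l0 (S.RH.cl_mem x)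
    obtain ⟨x1, y1, v1, o1, p1, q1, r1⟩ := leaf_orbit h w l1 (S.RH.cl_mem x)
    obtain ⟨x2, y2, v2, o2, p2, q2, r2⟩ := leaf_orbit h w l2 (S.RH.cl_mem x')
    obtain ⟨x3, y3, v3, o3, p3, q3, r3⟩ := leaf_orbit h w l3 (S.RH.cl_mem x')
    have hk : x0 w.length = x1 w.length := by rw [p0, p1]
    have hk' : x2 w.length = x3 w.length := by rw [p2, p3]
    have hee : 100 * ee + 6 * ee < gam / 2 := by norm_num [ee, gam]
    have hee0 := ee_pos
    have s0 : y0 0 = (f0 (x0 0)).1 := congrArg Prod.fst r0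
    have s1 : y1 0 = (f1 (x1 0)).1 := congrArg Prod.fst r1
    have s2 : y2 0 = (f2 (x2 0)).1 := congrArg Prod.fst r2
    have s3 : y3 0 = (f3 (x3 0)).1 := congrArg Prod.fst r3
    have t0 : v0 0 = (f0 (x0 0)).2 := congrArg Prod.snd r0
    have t1 : v1 0 = (f1 (x1 0)).2 := congrArg Prod.snd r1
    have t2 : v2 0 = (f2 (x2 0)).2 := congrArg Prod.snd r2
    have t3 : v3 0 = (f3 (x3 0)).2 := congrArg Prod.snd r3
    have hb : |y1 0 - y0 0 - m| ≤ 100 * ee := by
      rw [s1, s0]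
      exact hm _ _
    have hb' : |y3 0 - y2 0 - m'| ≤ 100 * ee := by
      rw [s3, s2]
      exact hm' _ _
    have hgap : 6 * ee < y1 0 - y0 0 := by
      have := (abs_le.1 hb).1
      linarith
    have hgap' : 6 * ee < y3 0 - y2 0 := by
      have := (abs_le.1 hb').1
      linarith
    have h0 : y0 0 < y1 0 := by linarith
    have h0' : y2 0 < y3 0 := by linarith
    have hc : ‖v1 0 - v0 0‖ ≤ y1 0 - y0 0 := by
      have k1 := norm_sub_le (v1 0) (v0 0)
      have k2 := l1.small (x1 0)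
      have k3 := l0.small (x0 0)
      rw [← t1] at k2
      rw [← t0] at k3
      linarith
    have hc' : ‖v3 0 - v2 0‖ ≤ y3 0 - y2 0 := by
      have k1 := norm_sub_le (v3 0) (v2 0)
      have k2 := l3.small (x3 0)
      have k3 := l2.small (x2 0)
      rw [← t3] at k2
      rw [← t2] at k3
      linarith
    have hd := distortion h o0 o1 o2 o3 hk hk' h0 h0' hc hc'
    have hD := (pair_D h o0 o1 hk h0 hc).1
    have hD' := (pair_D h o2 o3 hk' h0' hc').1
    rw [← q0, ← q1, ← q2, ← q3]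
    exact a36_real (hD _ le_rfl).1 (hD 0 (Nat.zero_le _)).1 (hD' _ le_rfl).1
      (hD' 0 (Nat.zero_le _)).1 hm0 hm0' hb hb' hd

end Pool.Agent.Lib.H37D
end
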