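import Pool.Agent.Lib.H1M.FF.M020
import Pool.Agent.Lib.H1M.FF.M027
import Pool.Agent.Lib.H1M.FF.M042

/-! Merged copies (to shorten the build) of Lib.H37D.DK3, Lib.H37D.DK4, Lib.H37D.DK5, Lib.H37D.DK6, Lib.H37D.DK9, Lib.H37D.DM2, Lib.H37D.DM3. -/

-- from Lib.H37D.DK3
section

/-!
# H37D DK3 (port of MK3) (size M): regularity of families of small perturbations
-/

open Set Filter Topology
open scoped ContDiff Manifold
open Pool.Agent.Lib.Helper37.ConjBorel Pool.Agent.Lib.H37C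

namespace Pool.Agent.Lib.H37D

open Pool.Agent.Lib.H37N

variable {d : ℕ}

/-- `RegN` is defined in `Lib/Helper37/ConjBorel/Proof.lean`. Proof. The first part: every `g s` is `C^∞`. Second part, `k ≤ R`:
`iteratedFDeriv ℝ k (g s) z = iteratedFDeriv ℝ k (fun z => g s z - z) z + iteratedFDeriv ℝ k id z` (`iteratedFDeriv_add_apply`); the first
summand has norm at most `|s|`, which tends to `0` as `(s, z) → (0, x)`, the second is continuous in `z`; at `s = 0` the first summand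
is `0`. -/
theorem regN_small {R : ℕ} {g : ℝ → En d → En d} (hs : ∀ s, ContDiff ℝ ∞ (g s))
    (hb : ∀ s, ∀ j ≤ R, ∀ z, ‖iteratedFDeriv ℝ j (fun z => g s z - z) z‖ ≤ |s|) (x : En d) :
    Pool.Agent.Lib.Helper37.ConjBorel.RegN (R : ℕ∞) g 0 x := by
  refine ⟨Eventually.of_forall fun p => (hs p.1).contDiffAt, fun k hk => ?_⟩
  have hk' : k ≤ R := by exact_mod_cast hk
  have hsum : ∀ p : ℝ × En d, iteratedFDeriv ℝ k (g p.1) p.2 =
      iteratedFDeriv ℝ k (fun z => g p.1 z - z) p.2 + iteratedFDeriv ℝ k (fun z : En d => z) p.2 := by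
    intro p
    have h1 : ContDiffAt ℝ k (fun z => g p.1 z - z) p.2 :=
      (((hs p.1).sub contDiff_id).of_le (by exact_mod_cast le_top)).contDiffAt
    have h2 : ContDiffAt ℝ k (fun z : En d => z) p.2 := contDiff_id.contDiffAt
    rw [← iteratedFDeriv_add_apply h1 h2]
    congr 1
    funext z
    simp
  have hfun : (fun p : ℝ × En d => iteratedFDeriv ℝ k (g p.1) p.2) = fun p =>
      iteratedFDeriv ℝ k (fun z => g p.1 z - z) p.2 + iteratedFDeriv ℝ k (fun z : En d => z) p.2 :=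
    funext hsum
  rw [hfun]
  refine ContinuousAt.add ?_ ?_
  · have h0 : iteratedFDeriv ℝ k (fun z => g 0 z - z) x = 0 := by
      have := hb 0 k hk' x
      rw [abs_zero] at this
      exact norm_le_zero_iff.1 this
    show Tendsto _ _ (𝓝 (iteratedFDeriv ℝ k (fun z => g 0 z - z) x))
    rw [h0]
    refine squeeze_zero_norm (a := fun p : ℝ × En d => |p.1|) (fun p => hb p.1 k hk' p.2) ?_
    have h1 : Continuous (fun p : ℝ × En d => |p.1|) := by fun_prop
    have h2 := h1.tendsto ((0 : ℝ), x)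
    simpa using h2
  · have h1 : Continuous (iteratedFDeriv ℝ k (fun z : En d => z)) :=
      (contDiff_id (𝕜 := ℝ) (n := ∞)).continuous_iteratedFDeriv (by exact_mod_cast le_top)
    exact (h1.comp continuous_snd).continuousAt

theorem dk3_cj {R : ℕ} {g : ℝ → En d → En d} (hs : ∀ s, ContDiff ℝ ∞ (g s))
    (hb : ∀ s, ∀ j ≤ R, ∀ z, ‖iteratedFDeriv ℝ j (fun z => g s z - z) z‖ ≤ |s|) (y : Euc (d + 2)) :
    Pool.Agent.Lib.Helper37.ConjBorel.RegN (R : ℕ∞) (fun s => cjd (g s)) 0 y := by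
  have h1 : Pool.Agent.Lib.Helper37.ConjBorel.RegN (R : ℕ∞) (fun _ : ℝ => (LLd d : Euc (d + 2) → En d)) 0 y :=
    regN_of_contDiffOn isOpen_univ (LLd d).contDiff.contDiffOn 0 (mem_univ _)
  have h2 : Pool.Agent.Lib.Helper37.ConjBorel.RegN (R : ℕ∞) (fun s => g s ∘ (LLd d : Euc (d + 2) → En d)) 0 y :=
    Pool.Agent.Lib.Helper37.ConjBorel.RegN.comp (G := g) (H := fun _ : ℝ => (LLd d : Euc (d + 2) → En d)) (regN_small hs hb _) h1
  have h3 : Pool.Agent.Lib.Helper37.ConjBorel.RegN (R : ℕ∞) (fun _ : ℝ => ((LLd d).symm : En d → Euc (d + 2))) 0 ((g 0 ∘ (LLd d : Euc (d + 2) → En d)) y) :=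
    regN_of_contDiffOn isOpen_univ (LLd d).symm.contDiff.contDiffOn 0 (mem_univ _)
  exact Pool.Agent.Lib.Helper37.ConjBorel.RegN.comp (G := fun _ : ℝ => ((LLd d).symm : En d → Euc (d + 2))) (H := fun s => g s ∘ (LLd d : Euc (d + 2) → En d)) h3 h2

variable {M : Type*} [TopologicalSpace M] [ChartedSpace (Euc (d + 2)) M]

/-- The family `s ↦ ext e (cjd (g s)) ∘ f` is jointly continuous and regular up to order `R` at `s = 0`.
Proof. `g 0 z = z` (`hb` for `s = 0`, `j = 0`). Let `m0 = f (φ.symm x0)`. CASE 1: `m0 ∈ e.source`. Near `(0, x0)`: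
`f (φ.symm x) ∈ e.source`, and `cjd (g s) (e (f (φ.symm x))) ∈ e.target` (continuity of `(s, y) ↦ g s y`, from `regN_small` and
`RegN.continuousAt`; the value at `(0, x0)` is `e m0 ∈ e.target`). The expression is `(χ ∘ e.symm ∘ (LLd d).symm) ∘ g s ∘ (LLd d ∘ e ∘ f ∘ φ.symm)`:
`RegN.comp` twice with `regN_of_contDiffOn` for the two fixed maps (`contDiffOn_change`, `contDiffOn_expr`, `isOpen_expr`; `LLd d`
is linear), then `RegN.congr`. Continuity: composition. CASE 2: `m0 ∉ e.source`. The set `A = e.symm '' ((LLd d).symm '' K0D d)` is compact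
(`K0D d` is in the ball of radius `4 ≤ r`, `he.big`), so closed (`T2Space`), `m0 ∉ A`, and `ext e (cjd (g s)) m = m` for `m ∉ A` (`g s` is the identity
off `K0D d`). So near `(0, x0)` the family is the fixed map `χ ∘ f ∘ φ.symm`. Compare `jc_ext` in `H37C/E2.lean`. -/
theorem family_reg [T2Space M] [IsManifold (𝓡 (d + 2)) ∞ M] {e : OpenPartialHomeomorph M (Euc (d + 2))} {r : ℝ}
    (he : BigCD e r) (hr : 4 ≤ r) {R : ℕ} {g : ℝ → En d → En d} (hs : ∀ s, ContDiff ℝ ∞ (g s))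
    (hb : ∀ s, ∀ j ≤ R, ∀ z, ‖iteratedFDeriv ℝ j (fun z => g s z - z) z‖ ≤ |s|)
    (hK : ∀ s z, z ∉ K0D d → g s z = z) (f : DiffInf (d + 2) M) {φ χ : OpenPartialHomeomorph M (Euc (d + 2))}
    (hφ : φ ∈ IsManifold.maximalAtlas (𝓡 (d + 2)) ∞ M) (hχ : χ ∈ IsManifold.maximalAtlas (𝓡 (d + 2)) ∞ M)
    {x0 : Euc (d + 2)} (hx0 : x0 ∈ φ.target) (hfx : f (φ.symm x0) ∈ χ.source) :
    ContinuousAt (fun p : ℝ × Euc (d + 2) => ext e (cjd (g p.1)) (f (φ.symm p.2))) (0, x0) ∧
    Pool.Agent.Lib.Helper37.ConjBorel.RegN (R : ℕ∞) (fun s => χ ∘ (fun m => ext e (cjd (g s)) (f m)) ∘ φ.symm) 0 x0 := by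
  have hg0 : ∀ z, g 0 z = z := by
    intro z
    have h1 := hb 0 0 (Nat.zero_le _) z
    rw [norm_iteratedFDeriv_zero, abs_zero] at h1
    exact sub_eq_zero.1 (norm_le_zero_iff.1 h1)
  have hcj0 : ∀ y, cjd (g 0) y = y := by
    intro y
    show (LLd d).symm (g 0 (LLd d y)) = y
    rw [hg0, ContinuousLinearEquiv.symm_apply_apply]
  have hev : ∀ {s : Set M}, IsOpen s → f (φ.symm x0) ∈ s →
      ∀ᶠ p : ℝ × Euc (d + 2) in 𝓝 (0, x0), f (φ.symm p.2) ∈ s := by
    intro s hs h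
    have h1 : ContinuousAt (fun p : ℝ × Euc (d + 2) => f (φ.symm p.2)) (0, x0) :=
      ContinuousAt.comp (g := f) (f := fun p : ℝ × Euc (d + 2) => φ.symm p.2) f.continuous.continuousAt
        (ContinuousAt.comp (g := φ.symm) (f := fun p : ℝ × Euc (d + 2) => p.2) (φ.symm.continuousAt hx0)
          continuous_snd.continuousAt)
    exact h1.eventually (hs.mem_nhds h)
  by_cases hm : f (φ.symm x0) ∈ e.source
  · have hA : Pool.Agent.Lib.Helper37.ConjBorel.RegN (R : ℕ∞) (fun _ : ℝ => (e ∘ f ∘ φ.symm : Euc (d + 2) → Euc (d + 2))) 0 x0 :=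
      regN_of_contDiffOn (isOpen_expr f.continuous φ e) (contDiffOn_expr f.contMDiff hφ he.mem) 0
        ⟨hx0, hm⟩
    have hC : Pool.Agent.Lib.Helper37.ConjBorel.RegN (R : ℕ∞) (fun s : ℝ => cjd (g s) ∘ (e ∘ f ∘ φ.symm : Euc (d + 2) → Euc (d + 2))) 0 x0 :=
      Pool.Agent.Lib.Helper37.ConjBorel.RegN.comp (G := fun s => cjd (g s)) (H := fun _ => (e ∘ f ∘ φ.symm : Euc (d + 2) → Euc (d + 2)))
        (dk3_cj hs hb _) hA
    have hval : (cjd (g 0) ∘ (e ∘ f ∘ φ.symm : Euc (d + 2) → Euc (d + 2))) x0 = e (f (φ.symm x0)) := hcj0 _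
    have hB : Pool.Agent.Lib.Helper37.ConjBorel.RegN (R : ℕ∞) (fun _ : ℝ => (χ ∘ e.symm : Euc (d + 2) → Euc (d + 2))) 0
        ((cjd (g 0) ∘ (e ∘ f ∘ φ.symm : Euc (d + 2) → Euc (d + 2))) x0) := by
      rw [hval]
      refine regN_of_contDiffOn (isOpen_expr (f := id) continuous_id e χ)
        (contDiffOn_change he.mem hχ) 0 ⟨e.map_source hm, ?_⟩
      show e.symm (e (f (φ.symm x0))) ∈ χ.source
      rw [e.left_inv hm]
      exact hfx
    have hD : Pool.Agent.Lib.Helper37.ConjBorel.RegN (R : ℕ∞) (fun s : ℝ => (χ ∘ e.symm : Euc (d + 2) → Euc (d + 2)) ∘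
        (cjd (g s) ∘ (e ∘ f ∘ φ.symm : Euc (d + 2) → Euc (d + 2)))) 0 x0 :=
      Pool.Agent.Lib.Helper37.ConjBorel.RegN.comp (G := fun _ : ℝ => (χ ∘ e.symm : Euc (d + 2) → Euc (d + 2)))
        (H := fun s : ℝ => cjd (g s) ∘ (e ∘ f ∘ φ.symm : Euc (d + 2) → Euc (d + 2))) hB hC
    constructor
    · have h1 : ContinuousAt (fun p : ℝ × Euc (d + 2) => e.symm (cjd (g p.1) (e (f (φ.symm p.2))))) (0, x0) := by
        refine ContinuousAt.comp (g := e.symm)
          (f := fun p : ℝ × Euc (d + 2) => cjd (g p.1) (e (f (φ.symm p.2)))) ?_ hC.continuousAt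
        have h2 : cjd (g (0 : ℝ)) (e (f (φ.symm x0))) = e (f (φ.symm x0)) := hcj0 _
        show ContinuousAt e.symm (cjd (g (0 : ℝ)) (e (f (φ.symm x0))))
        rw [h2]
        exact e.symm.continuousAt (e.map_source hm)
      refine h1.congr ?_
      filter_upwards [hev e.open_source hm] with p hp
      exact (ext_of_mem hp).symm
    · refine hD.congr ?_
      filter_upwards [hev e.open_source hm] with p hp
      show χ (e.symm (cjd (g p.1) (e (f (φ.symm p.2))))) = χ (ext e (cjd (g p.1)) (f (φ.symm p.2)))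
      rw [ext_of_mem hp]
  · have hK0c : IsCompact (K0D d) := k0D_compact d
    have hsub : (LLd d).symm '' K0D d ⊆ e.target := by
      rintro _ ⟨z, hz, rfl⟩
      exact he.big z ((k0D_norm hz).trans hr)
    have hclosed : IsClosed (e.symm '' ((LLd d).symm '' K0D d)) :=
      ((hK0c.image (LLd d).symm.continuous).image_of_continuousOn (e.continuousOn_symm.mono hsub)).isClosed
    have hnot : f (φ.symm x0) ∉ e.symm '' ((LLd d).symm '' K0D d) := by
      rintro ⟨x, hx, hx2⟩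
      apply hm
      rw [← hx2]
      exact e.map_target (hsub hx)
    have hoff : ∀ (s : ℝ) (m : M), m ∉ e.symm '' ((LLd d).symm '' K0D d) → ext e (cjd (g s)) m = m := by
      intro s m hmA
      by_cases h : m ∈ e.source
      · rw [ext_of_mem h]
        have h1 : LLd d (e m) ∉ K0D d := by
          intro h2
          exact hmA ⟨e m, ⟨LLd d (e m), h2, (LLd d).symm_apply_apply _⟩, e.left_inv h⟩
        have h2 : cjd (g s) (e m) = e m := by
          show (LLd d).symm (g s (LLd d (e m))) = e m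
          rw [hK s _ h1, ContinuousLinearEquiv.symm_apply_apply]
        rw [h2, e.left_inv h]
      · exact ext_of_notMem h
    have hev2 := hev hclosed.isOpen_compl hnot
    constructor
    · have h1 : ContinuousAt (fun p : ℝ × Euc (d + 2) => f (φ.symm p.2)) (0, x0) :=
        ContinuousAt.comp (g := f) (f := fun p : ℝ × Euc (d + 2) => φ.symm p.2) f.continuous.continuousAt
          (ContinuousAt.comp (g := φ.symm) (f := fun p : ℝ × Euc (d + 2) => p.2) (φ.symm.continuousAt hx0)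
            continuous_snd.continuousAt)
      refine h1.congr ?_
      filter_upwards [hev2] with p hp
      exact (hoff p.1 _ hp).symm
    · have hA : Pool.Agent.Lib.Helper37.ConjBorel.RegN (R : ℕ∞) (fun _ : ℝ => (χ ∘ f ∘ φ.symm : Euc (d + 2) → Euc (d + 2))) 0 x0 :=
        regN_of_contDiffOn (isOpen_expr f.continuous φ χ) (contDiffOn_expr f.contMDiff hφ hχ) 0
          ⟨hx0, hfx⟩
      refine hA.congr ?_
      filter_upwards [hev2] with p hp
      show χ (f (φ.symm p.2)) = χ (ext e (cjd (g p.1)) (f (φ.symm p.2)))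
      rw [hoff p.1 _ hp]

end Pool.Agent.Lib.H37D
end

-- from Lib.H37D.DK4
section

/-!
# H37D DK4 (port of MK4) (size M): the basic sets of order at most `R` are stable under small perturbations
-/

open Set Filter Topology
open scoped ContDiff Manifold
open Pool.Agent.Lib.Helper37.ConjBorel Pool.Agent.Lib.H37C

namespace Pool.Agent.Lib.H37D

open Pool.Agent.Lib.H37N

variable {d : ℕ}

variable {M : Type*} [TopologicalSpace M] [ChartedSpace (Euc (d + 2)) M]

/-- Proof. Otherwise for every `j : ℕ` there is `ψ j` with `SmallD R (1/(j+1)) (ψ j)` and `f2 j` of the given form, not in the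
basic set. Define `g s = ψ j` if `s = 1/(j+1)` (the `j` is unique), `g s = id` otherwise: the hypotheses of `family_reg` hold
(`SmallD.smooth`, `SmallD.bound`, `SmallD.supp`). As in `continuous_of_jc` (`Lib/Helper37/ConjBorel/Proof.lean`), with
`IsCompact.eventually_forall_of_forall_eventually` on `C`: for `s` near `0`, all `x ∈ C`:
`ext e (cjd (g s)) (f1 (φ.symm x)) ∈ χ.source` (continuity; at `s = 0` it is `f1 (φ.symm x) ∈ χ.source`), and the norm of the difference of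
the `k`-th derivatives is `< ε0` (`RegN` part with `k ≤ R`, minus the fixed function `χ ∘ f0 ∘ φ.symm`; at `s = 0`, `cjd (g 0) = id` and the
function is `χ ∘ f1 ∘ φ.symm` near `x`). For `s = 1/(j+1)`, `j` large, `f2 j` is in the basic set: contradiction. -/
theorem basic_stable [T2Space M] [IsManifold (𝓡 (d + 2)) ∞ M] {e : OpenPartialHomeomorph M (Euc (d + 2))} {r : ℝ}
    (he : BigCD e r) (hr : 4 ≤ r) {f0 f1 : DiffInf (d + 2) M} {φ χ : OpenPartialHomeomorph M (Euc (d + 2))}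
    (hφ : φ ∈ IsManifold.maximalAtlas (𝓡 (d + 2)) ∞ M) (hχ : χ ∈ IsManifold.maximalAtlas (𝓡 (d + 2)) ∞ M)
    {C : Set (Euc (d + 2))} (hC : IsCompact C) (hCφ : C ⊆ φ.target)
    (hCχ : ∀ x ∈ C, f0 (φ.symm x) ∈ χ.source) {k R : ℕ} (hk : k ≤ R) {ε0 : ℝ}
    (hf1 : f1 ∈ basicSet f0 φ χ C k ε0) : ∃ ε > (0 : ℝ), ∀ ψ, SmallD R ε ψ → ∀ f2 : DiffInf (d + 2) M,
      (∀ z, f2 z = ext e (cjd ψ) (f1 z)) → f2 ∈ basicSet f0 φ χ C k ε0 := by
  classical
  by_contra hcon
  have hcon' : ∀ j : ℕ, ∃ ψ, SmallD R (1 / ((j : ℝ) + 1)) ψ ∧ ∃ f2 : DiffInf (d + 2) M,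
      (∀ z, f2 z = ext e (cjd ψ) (f1 z)) ∧ f2 ∉ basicSet f0 φ χ C k ε0 := by
    intro j
    by_contra h1
    refine hcon ⟨1 / ((j : ℝ) + 1), Nat.one_div_pos_of_nat, fun ψ hψ f2 hf2 => ?_⟩
    by_contra h2
    exact h1 ⟨ψ, hψ, f2, hf2, h2⟩
  choose ψ hψ f2 hf2 hnot using hcon'
  -- the family
  let g : ℝ → En d → En d := fun s =>
    if h : ∃ j : ℕ, s = 1 / ((j : ℝ) + 1) then ψ h.choose else fun z => z
  have hgj : ∀ j : ℕ, g (1 / ((j : ℝ) + 1)) = ψ j := by
    intro j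
    have h : ∃ i : ℕ, 1 / ((j : ℝ) + 1) = 1 / ((i : ℝ) + 1) := ⟨j, rfl⟩
    have h1 : g (1 / ((j : ℝ) + 1)) = ψ h.choose := dif_pos h
    have h2 : h.choose = j := by
      have h3 := h.choose_spec
      have key : ∀ a b : ℝ, 1 / a = 1 / b → a = b := fun a b hab => by
        rw [one_div, one_div] at hab
        exact inv_injective hab
      have h4 : ((j : ℝ) + 1) = (h.choose : ℝ) + 1 := key _ _ h3
      exact_mod_cast (add_right_cancel h4).symm
    rw [h1, h2]
  have hcase : ∀ s, (∃ j : ℕ, s = 1 / ((j : ℝ) + 1) ∧ g s = ψ j) ∨ g s = fun z => z := by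
    intro s
    by_cases h : ∃ j : ℕ, s = 1 / ((j : ℝ) + 1)
    · obtain ⟨j, rfl⟩ := h
      exact Or.inl ⟨j, rfl, hgj j⟩
    · exact Or.inr (dif_neg h)
  have hg0 : g 0 = fun z => z := by
    refine dif_neg ?_
    rintro ⟨j, hj⟩
    have h1 : (0 : ℝ) < 1 / ((j : ℝ) + 1) := Nat.one_div_pos_of_nat
    exact h1.ne hj
  have hs : ∀ s, ContDiff ℝ ∞ (g s) := by
    intro s
    rcases hcase s with ⟨j, -, h⟩ | h
    · rw [h]
      exact (hψ j).smooth
    · rw [h]
      exact contDiff_id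
  have hb : ∀ s, ∀ j ≤ R, ∀ z, ‖iteratedFDeriv ℝ j (fun z => g s z - z) z‖ ≤ |s| := by
    intro s i hi z
    rcases hcase s with ⟨j, hj, h⟩ | h
    · rw [h]
      have h1 : (0 : ℝ) < 1 / ((j : ℝ) + 1) := Nat.one_div_pos_of_nat
      rw [hj, abs_of_pos h1]
      exact (hψ j).bound i hi z
    · rw [h]
      have h1 : (fun z : En d => z - z) = fun _ => (0 : En d) := by
        funext z
        exact sub_self z
      rw [h1]
      have h2 : iteratedFDeriv ℝ i (fun _ : En d => (0 : En d)) z = 0 := by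
        rw [iteratedFDeriv_fun_zero]
        rfl
      rw [h2, norm_zero]
      exact abs_nonneg s
  have hK : ∀ s z, z ∉ K0D d → g s z = z := by
    intro s z hz
    rcases hcase s with ⟨j, -, h⟩ | h
    · rw [h]
      exact (hψ j).supp z hz
    · rw [h]
  have hext0 : ∀ m, ext e (cjd (g 0)) m = m := by
    intro m
    by_cases hm : m ∈ e.source
    · rw [ext_of_mem hm, hg0]
      have h1 : cjd (fun z => z) (e m) = e m := (LLd d).symm_apply_apply _
      rw [h1, e.left_inv hm]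
    · exact ext_of_notMem hm
  have hfam := fun {x : Euc (d + 2)} (hx : x ∈ C) =>
    family_reg he hr hs hb hK f1 hφ hχ (hCφ hx) (hf1.1 x hx)
  have h1 : ∀ᶠ s in 𝓝 (0 : ℝ), ∀ x ∈ C, ext e (cjd (g s)) (f1 (φ.symm x)) ∈ χ.source := by
    refine hC.eventually_forall_of_forall_eventually fun x hx => ?_
    refine (hfam hx).1.eventually (χ.open_source.mem_nhds ?_)
    simp only [hext0]
    exact hf1.1 x hx
  have h2 : ∀ᶠ s in 𝓝 (0 : ℝ), ∀ x ∈ C,
      ‖iteratedFDeriv ℝ k (χ ∘ (fun m => ext e (cjd (g s)) (f1 m)) ∘ φ.symm) x -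
        iteratedFDeriv ℝ k (χ ∘ f0 ∘ φ.symm) x‖ < ε0 := by
    refine hC.eventually_forall_of_forall_eventually fun x hx => ?_
    have h3 := (hfam hx).2.2 k (by exact_mod_cast hk)
    have h4 : Pool.Agent.Lib.Helper37.ConjBorel.RegN ⊤ (fun _ : ℝ => χ ∘ f0 ∘ φ.symm) 0 x :=
      regN_of_contDiffOn (isOpen_expr f0.continuous φ χ) (contDiffOn_expr f0.contMDiff hφ hχ) 0
        ⟨hCφ hx, hCχ x hx⟩
    have h5 := (h3.sub (h4.2 k le_top)).norm
    refine h5.eventually_lt_const ?_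
    have h6 : (χ ∘ (fun m => ext e (cjd (g 0)) (f1 m)) ∘ φ.symm) = χ ∘ f1 ∘ φ.symm := by
      funext y
      simp only [Function.comp_apply, hext0]
    show ‖iteratedFDeriv ℝ k (χ ∘ (fun m => ext e (cjd (g 0)) (f1 m)) ∘ φ.symm) x -
        iteratedFDeriv ℝ k (χ ∘ f0 ∘ φ.symm) x‖ < ε0
    rw [h6]
    exact hf1.2 x hx
  have h7 : Tendsto (fun j : ℕ => (1 : ℝ) / ((j : ℝ) + 1)) atTop (𝓝 0) :=
    tendsto_one_div_add_atTop_nhds_zero_nat
  obtain ⟨j, h8, h9⟩ := (h7.eventually (h1.and h2)).exists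
  refine hnot j ⟨fun x hx => ?_, fun x hx => ?_⟩
  · have h10 := h8 x hx
    rw [hgj] at h10
    rw [hf2]
    exact h10
  · have h10 := h9 x hx
    rw [hgj] at h10
    have h11 : (χ ∘ f2 j ∘ φ.symm) = χ ∘ (fun m => ext e (cjd (ψ j)) (f1 m)) ∘ φ.symm := by
      funext y
      simp only [Function.comp_apply, hf2]
    rw [h11]
    exact h10

end Pool.Agent.Lib.H37D
end

-- from Lib.H37D.DK5
section

/-!
# H37D DK5 (port of MK5) (size M): open sets of diffeomorphisms which are stable under perturbations of bounded order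
-/

open Set Filter Topology
open scoped ContDiff Manifold
open Pool.Agent.Lib.Helper37.ConjBorel Pool.Agent.Lib.H37C

namespace Pool.Agent.Lib.H37D

open Pool.Agent.Lib.H37N

variable {d : ℕ}

variable {M : Type*} [TopologicalSpace M] [ChartedSpace (Euc (d + 2)) M]

theorem dk5_mono {R R' : ℕ} {ε ε' : ℝ} {ψ : En d → En d} (h : SmallD R ε ψ) (hR : R' ≤ R)
    (hε : ε ≤ ε') : SmallD R' ε' ψ :=
  ⟨h.smooth, h.supp, fun j hj z => (h.bound j (hj.trans hR) z).trans hε⟩

/-- Proof. The topology of `DiffInf (d + 2) M` is generated by the basic sets (`cInfTopology`): there are finitely many basic sets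
containing `f` whose intersection `U'` is contained in `U` (`TopologicalSpace.isTopologicalBasis_of_subbasis`, or
`TopologicalSpace.nhds_generateFrom` and finite infima of principal filters, or induction on `GenerateOpen`). `R` = the maximum of their orders `k`
(finite set). For `f1 ∈ U'` take the minimum of the `ε` of `basic_stable` for the finitely many sets (`SmallD.mono`-type monotonicity in `ε` is
immediate from the definition). -/
theorem stable_nhd [T2Space M] [IsManifold (𝓡 (d + 2)) ∞ M] {e : OpenPartialHomeomorph M (Euc (d + 2))} {r : ℝ}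
    (he : BigCD e r) (hr : 4 ≤ r) {U : Set (DiffInf (d + 2) M)} (hU : IsOpen U) {f : DiffInf (d + 2) M}
    (hf : f ∈ U) : ∃ (R : ℕ) (U' : Set (DiffInf (d + 2) M)), IsOpen U' ∧ f ∈ U' ∧ U' ⊆ U ∧
      ∀ f1 ∈ U', ∃ ε > (0 : ℝ), ∀ ψ, SmallD R ε ψ → ∀ f2 : DiffInf (d + 2) M,
        (∀ z, f2 z = ext e (cjd ψ) (f1 z)) → f2 ∈ U' := by
  have hU' : TopologicalSpace.GenerateOpen _ U := hU
  induction hU' with
  | basic s hs =>
    obtain ⟨f0, φ, χ, C, k, ε0, h1, h2, h3, h4, h5, h6, rfl⟩ := id hs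
    refine ⟨k, basicSet f0 φ χ C k ε0, TopologicalSpace.isOpen_generateFrom_of_mem hs, hf,
      Subset.rfl, fun f1 hf1 => ?_⟩
    exact basic_stable he hr h1 h2 h3 h4 h5 le_rfl hf1
  | univ =>
    exact ⟨0, univ, isOpen_univ, mem_univ _, Subset.rfl, fun f1 _ => ⟨1, one_pos,
      fun _ _ _ _ => mem_univ _⟩⟩
  | inter s t hs ht ih1 ih2 =>
    obtain ⟨R1, U1, ho1, hf1, hs1, hp1⟩ := ih1 hs hf.1
    obtain ⟨R2, U2, ho2, hf2, hs2, hp2⟩ := ih2 ht hf.2
    refine ⟨max R1 R2, U1 ∩ U2, ho1.inter ho2, ⟨hf1, hf2⟩, inter_subset_inter hs1 hs2,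
      fun f1 h => ?_⟩
    obtain ⟨ε1, he1, h1⟩ := hp1 f1 h.1
    obtain ⟨ε2, he2, h2⟩ := hp2 f1 h.2
    refine ⟨min ε1 ε2, lt_min he1 he2, fun ψ hψ f2 hf2 => ⟨?_, ?_⟩⟩
    · exact h1 ψ (dk5_mono hψ (le_max_left _ _) (min_le_left _ _)) f2 hf2
    · exact h2 ψ (dk5_mono hψ (le_max_right _ _) (min_le_right _ _)) f2 hf2
  | sUnion S hS ih =>
    obtain ⟨s, hs, hfs⟩ := hf
    obtain ⟨R1, U1, ho1, hf1, hs1, hp1⟩ := ih s hs (hS s hs) hfs
    exact ⟨R1, U1, ho1, hf1, hs1.trans (subset_sUnion_of_mem hs), hp1⟩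

end Pool.Agent.Lib.H37D
end

-- from Lib.H37D.DK6
section

/-!
# H37D DK6 (port of MK6): local representations of perturbed diffeomorphisms
-/

open Set Filter Topology
open scoped ContDiff Manifold
open Pool.Agent.Lib.Helper37.ConjBorel Pool.Agent.Lib.H37C

namespace Pool.Agent.Lib.H37D

open Pool.Agent.Lib.H37N

variable {d : ℕ}

variable {M : Type*} [TopologicalSpace M] [ChartedSpace (Euc (d + 2)) M]

theorem dk6_cj {e : OpenPartialHomeomorph M (Euc (d + 2))} {r : ℝ} (he : BigCD e r) (hr : 4 ≤ r)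
    {ψ : En d → En d} (hψ : SmallD 1 (1 / 2) ψ) {x : Euc (d + 2)} (hx : x ∈ e.target) :
    cjd ψ x ∈ e.target := by
  by_cases h : (LLd d) x ∈ K0D d
  · exact he.big _ ((k0D_norm (hψ.mem_K0D h)).trans hr)
  · have h1 : cjd ψ x = x := by
      rw [cjd, hψ.supp _ h, (LLd d).symm_apply_apply]
    rw [h1]
    exact hx

/-- Proof. `ψ` is a bijection which is the identity off `K0D d` and maps `K0D d` to `K0D d` (`SmallD.mem_K0`), and `(LLd d).symm '' K0D d ⊆ e.target` (`K0D d` is in the ball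
of radius `4`). For `m ∈ e.source`: `cjd ψ (e m) ∈ e.target`, so `ext e (cjd ψ) m = e.symm (cjd ψ (e m)) ∈ e.source` and
`e (ext e (cjd ψ) m) = cjd ψ (e m)`; for `m ∉ e.source`: `ext e (cjd ψ) m = m ∉ e.source`. So the two sets `domD` agree, on `domD`:
`(LLd d) (cjd ψ (e (f z'))) = ψ ((LLd d) (e (f z')))`, off `domD`: `ψ (10,10) = (10,10)`. -/
theorem loc_ext {e : OpenPartialHomeomorph M (Euc (d + 2))} {r : ℝ} (he : BigCD e r) (hr : 4 ≤ r)
    {ψ : En d → En d} (hψ : SmallD 1 (1 / 2) ψ) (f : M → M) :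
    locD e (fun m => ext e (cjd ψ) (f m)) = ψ ∘ locD e f := by
  funext z
  show locD e (fun m => ext e (cjd ψ) (f m)) z = ψ (locD e f z)
  by_cases h : z ∈ domD e f
  · have h2 := dk6_cj he hr hψ (e.map_source h.2)
    have h' : z ∈ domD e (fun m => ext e (cjd ψ) (f m)) := by
      refine ⟨h.1, ?_⟩
      show ext e (cjd ψ) (f (e.symm ((LLd d).symm z))) ∈ e.source
      rw [ext_of_mem h.2]
      exact e.map_target h2
    rw [locD, locD, if_pos h', if_pos h, ext_of_mem h.2, e.right_inv h2, cjd,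
      (LLd d).apply_symm_apply]
  · have h' : z ∉ domD e (fun m => ext e (cjd ψ) (f m)) := by
      intro hh
      apply h
      refine ⟨hh.1, ?_⟩
      by_contra hn
      have h3 : ext e (cjd ψ) (f (e.symm ((LLd d).symm z))) ∈ e.source := hh.2
      rw [ext_of_notMem hn] at h3
      exact hn h3
    rw [locD, locD, if_neg h', if_neg h, hψ.supp]
    rintro ⟨⟨⟨_, h4⟩, _⟩, _⟩
    have h5 : (10 : ℝ) ≤ 4 := h4
    norm_num at h5

/-- Proof. Let `g = locD e f1`, `f1 ∈ U'`, `ε` from the hypothesis, `ε' = min ε (1/2)`. `ψ` with `SmallD (max R 1) ε' ψ` is also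
`SmallD R ε` and `SmallD 1 (1/2)` (`SmallD.mono`, T8). `SmallD.exists_inverse` gives a `C^∞` inverse, so `exists_diffK` for `cjd ψ` (support in
the compact set `(LLd d).symm '' K0D d ⊆ e.target`) gives `G : DiffInf (d + 2) M` with `G z = ext e (cjd ψ) z`; `f2 = f1.trans G ∈ U'`, and
`locD e f2 = ψ ∘ locD e f1` (`loc_ext`). -/
theorem pertOpen_loc [T2Space M] [IsManifold (𝓡 (d + 2)) ∞ M] {e : OpenPartialHomeomorph M (Euc (d + 2))} {r : ℝ}
    (he : BigCD e r) (hr : 4 ≤ r) {R : ℕ} {U' : Set (DiffInf (d + 2) M)}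
    (h : ∀ f1 ∈ U', ∃ ε > (0 : ℝ), ∀ ψ, SmallD R ε ψ → ∀ f2 : DiffInf (d + 2) M,
      (∀ z, f2 z = ext e (cjd ψ) (f1 z)) → f2 ∈ U') :
    PertOpenD (max R 1) ((fun f : DiffInf (d + 2) M => locD e f) '' U') := by
  rintro _ ⟨f1, hf1, rfl⟩
  obtain ⟨ε, hε, h1⟩ := h f1 hf1
  refine ⟨min ε (1 / 2), lt_min hε (by norm_num), fun ψ hψ => ?_⟩
  have hψ1 : SmallD 1 (1 / 2) ψ := hψ.mono (le_max_right _ _) (min_le_right _ _)
  have hψR : SmallD R ε ψ := hψ.mono (le_max_left _ _) (min_le_left _ _)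
  obtain ⟨φ, hφ, i1, i2, i3⟩ := hψ1.exists_inverse
  have hK : IsCompact ((LLd d).symm '' K0D d) :=
    (k0D_compact d).image (LLd d).symm.continuous
  have hKe : (LLd d).symm '' K0D d ⊆ e.target := by
    rintro _ ⟨z, hz, rfl⟩
    exact he.big z ((k0D_norm hz).trans hr)
  have hcd : ∀ {θ : En d → En d}, ContDiff ℝ ∞ θ → ContDiff ℝ ∞ (cjd θ) := fun hθ =>
    (LLd d).symm.contDiff.comp (hθ.comp (LLd d).contDiff)
  obtain ⟨G, hG⟩ := exists_diffK he.mem hK hKe (hcd hψ.smooth) (hcd hφ)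
    (fun x => by
      show (LLd d).symm (φ ((LLd d) ((LLd d).symm (ψ ((LLd d) x))))) = x
      rw [(LLd d).apply_symm_apply, i1, (LLd d).symm_apply_apply])
    (fun x => by
      show (LLd d).symm (ψ ((LLd d) ((LLd d).symm (φ ((LLd d) x))))) = x
      rw [(LLd d).apply_symm_apply, i2, (LLd d).symm_apply_apply])
    (fun x hx => by
      have h2 : (LLd d) x ∉ K0D d := fun h3 => hx ⟨(LLd d) x, h3, (LLd d).symm_apply_apply x⟩
      show (LLd d).symm (ψ ((LLd d) x)) = x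
      rw [hψ.supp _ h2, (LLd d).symm_apply_apply])
  have hf2 : ∀ z, (f1.trans G) z = ext e (cjd ψ) (f1 z) := fun z => hG (f1 z)
  refine ⟨f1.trans G, h1 ψ hψR (f1.trans G) hf2, ?_⟩
  show locD e (f1.trans G) = ψ ∘ locD e f1
  rw [← loc_ext he hr hψ1 f1]
  congr 1
  funext z
  exact hf2 z


end Pool.Agent.Lib.H37D
end

-- from Lib.H37D.DK9
section

/-!
# H37D DK9: density of centre spots (in normal form) in an open set of diffeomorphisms, from the local theorem
-/

open Set Filter Topology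
open scoped ContDiff Manifold
open Pool.Agent.Lib.Helper37.ConjBorel Pool.Agent.Lib.H37C

namespace Pool.Agent.Lib.H37D

open Pool.Agent.Lib.H37N

variable {d : ℕ}

/-- Proof. Let `f ∈ S ∩ V`. `stable_nhd`: `R`, `U'` with `f ∈ U' ⊆ S ∩ V`; `pertOpen_loc`: the set `{locD e f1 | f1 ∈ U'}` is
`PertOpenD (max R 1)`, nonempty, all its elements are `NearS`. The local theorem `hL` gives `f1 ∈ U'` with `LocalSpotD (locD e f1)`. -/
theorem dense_localSpot {M : Type*} [TopologicalSpace M] [ChartedSpace (Euc (d + 2)) M] [T2Space M]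
    [IsManifold (𝓡 (d + 2)) ∞ M]
    (hL : ∀ (R : ℕ) (U : Set (En d → En d)), PertOpenD R U → (∀ g ∈ U, NearS g) → U.Nonempty →
      ∃ g ∈ U, LocalSpotD g)
    {e : OpenPartialHomeomorph M (Euc (d + 2))} {r : ℝ} (he : BigCD e r) (hr : 4 ≤ r)
    {V : Set (DiffInf (d + 2) M)} (hV : IsOpen V) (hN : ∀ f ∈ V, NearS (locD e f))
    {S : Set (DiffInf (d + 2) M)} (hS : IsOpen S) (hne : (S ∩ V).Nonempty) :
    ∃ f ∈ S ∩ V, LocalSpotD (locD e f) := by
  obtain ⟨f, hf⟩ := hne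
  obtain ⟨R, U', hU'o, hfU', hU'U, hst⟩ := stable_nhd he hr (hS.inter hV) hf
  have hP := pertOpen_loc he hr hst
  obtain ⟨g, ⟨f1, hf1, rfl⟩, hspot⟩ := hL (max R 1) _ hP
    (by
      rintro _ ⟨f1, hf1, rfl⟩
      exact hN f1 (hU'U hf1).2)
    ⟨_, f, hfU', rfl⟩
  exact ⟨f1, hU'U hf1, hspot⟩

/-- a compactly supported diffeomorphism of `En d` as a diffeomorphism of the manifold, in a big chart -/
theorem exists_model_diffeo (M : Type*) [TopologicalSpace M] [ChartedSpace (Euc (d + 2)) M] [T2Space M]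
    [IsManifold (𝓡 (d + 2)) ∞ M] [Nonempty M] {Fs Fi : En d → En d} (hs : ContDiff ℝ ∞ Fs)
    (hi : ContDiff ℝ ∞ Fi) (hi1 : ∀ z, Fi (Fs z) = z) (hi2 : ∀ z, Fs (Fi z) = z) {r : ℝ}
    (hsupp : ∀ z, r ≤ ‖z‖ → Fs z = z) :
    ∃ e : OpenPartialHomeomorph M (Euc (d + 2)), BigCD e r ∧
      ∃ fs : DiffInf (d + 2) M, ∀ m, fs m = ext e (cjd Fs) m := by
  obtain ⟨e, he⟩ := exists_bigCD (d := d) (M := M) r
  have hK : IsCompact ((LLd d).symm '' Metric.closedBall (0 : En d) r) :=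
    (isCompact_closedBall _ _).image (LLd d).symm.continuous
  have hKe : (LLd d).symm '' Metric.closedBall (0 : En d) r ⊆ e.target := by
    rintro _ ⟨z, hz, rfl⟩
    exact he.big z (by simpa using hz)
  obtain ⟨fs, hfs⟩ := exists_diffK (n := d + 2) (M := M) he.mem hK hKe (ψ := cjd Fs) (g := cjd Fi)
    ((LLd d).symm.contDiff.comp (hs.comp (LLd d).contDiff))
    ((LLd d).symm.contDiff.comp (hi.comp (LLd d).contDiff))
    (fun x => by simp [cjd, hi1]) (fun x => by simp [cjd, hi2]) (fun x hx => by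
      have h1 : r ≤ ‖LLd d x‖ := by
        by_contra hcon
        refine hx ⟨LLd d x, ?_, by simp⟩
        simpa using (not_le.mp hcon).le
      simp [cjd, hsupp _ h1])
  exact ⟨e, he, fs, hfs⟩

end Pool.Agent.Lib.H37D
end

-- from Lib.H37D.DM2
section

/-!
# H37D DM2: open conditions: the diffeomorphisms whose inverse is close to the inverse of the model
-/

open Set Filter Topology
open scoped ContDiff Manifold
open Pool.Agent.Lib.Helper37.ConjBorel Pool.Agent.Lib.H37C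

namespace Pool.Agent.Lib.H37D

open Pool.Agent.Lib.H37N

variable {d : ℕ}

theorem dm2_symm {n : ℕ} {M : Type*} [TopologicalSpace M] [ChartedSpace (Euc n) M] [T2Space M] [CompactSpace M]
    [IsManifold (𝓡 n) ∞ M] : Continuous fun f : DiffInf n M => (f.symm : DiffInf n M) :=
  continuous_of_jc (JC.inv jc_id)

theorem dm2_suppB {F B : En d → En d} {p : En d} {rho r : ℝ} (h : ModelD F B p rho r) :
    ∀ z, r ≤ ‖z‖ → B z = z := by
  intro z hz
  have h1 := h.left z
  rwa [h.supp z hz] at h1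

theorem dm2_ball {F B : En d → En d} {p : En d} {rho r : ℝ} (h : ModelD F B p rho r) :
    ∀ z, ‖z‖ < r → ‖B z‖ < r := by
  intro z hz
  by_contra hcon
  have h1 := h.supp (B z) (not_lt.1 hcon)
  rw [h.right] at h1
  rw [← h1] at hcon
  exact hcon hz

variable {M : Type*} [TopologicalSpace M] [ChartedSpace (Euc (d + 2)) M]

theorem dm2_ext {e : OpenPartialHomeomorph M (Euc (d + 2))} {F B : En d → En d} {p : En d} {rho r : ℝ}
    (he : BigCD e r) (h : ModelD F B p rho r) {fs : DiffInf (d + 2) M} (hfs : ∀ m, fs m = ext e (cjd F) m) :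
    ∀ m, fs.symm m = ext e (cjd B) m := by
  intro m
  have key : fs (H37C.ext e (cjd B) m) = m → fs.symm m = H37C.ext e (cjd B) m := by
    intro h1
    have h2 := congrArg fs.symm h1
    rw [fs.symm_apply_apply] at h2
    exact h2.symm
  refine key ?_
  rw [hfs]
  by_cases hm : m ∈ e.source
  · rw [ext_of_mem hm]
    have h1 : cjd B (e m) ∈ e.target := by
      unfold cjd
      by_cases h2 : r ≤ ‖LLd d (e m)‖
      · rw [dm2_suppB h _ h2, ContinuousLinearEquiv.symm_apply_apply]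
        exact e.map_source hm
      · exact he.big _ (dm2_ball h _ (not_le.1 h2)).le
    rw [ext_of_mem (e.map_target h1), e.right_inv h1]
    unfold cjd
    rw [ContinuousLinearEquiv.apply_symm_apply, h.right, ContinuousLinearEquiv.symm_apply_apply, e.left_inv hm]
  · rw [ext_of_notMem hm, ext_of_notMem hm]

/-- `C^2`-near local representations, and inverses `C^1`-close to the inverse of the model on a compact set -/
theorem exists_VB [T2Space M] [CompactSpace M] [IsManifold (𝓡 (d + 2)) ∞ M]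
    {e : OpenPartialHomeomorph M (Euc (d + 2))} {F B : En d → En d} {p : En d} {rho r : ℝ}
    (he : BigCD e r) (hr : 4 ≤ r) (h : ModelD F B p rho r)
    {fs : DiffInf (d + 2) M} (hfs : ∀ m, fs m = ext e (cjd F) m)
    {K : Set (En d)} (hK : IsCompact K) (hKr : ∀ z ∈ K, ‖z‖ < r) {ε : ℝ} (hε : 0 < ε) :
    ∃ V : Set (DiffInf (d + 2) M), IsOpen V ∧ fs ∈ V ∧
      ∀ f ∈ V, NearS (locD e f) ∧ Dd d ⊆ domD e f ∧ K ⊆ domD e f.symm ∧
        ∀ z ∈ K, ‖locD e f.symm z - B z‖ ≤ ε ∧ ‖fderiv ℝ (locD e f.symm) z - fderiv ℝ B z‖ ≤ ε := by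
  have hV : ∀ i, ∀ᶠ z in 𝓝ˢ (VVd d i), F z = AffD d i z := by
    intro i
    have hO : IsOpen ((Ioo (al i - del - 1 / 10 ^ 6) (al i + pw i + del + 1 / 10 ^ 6) ×ˢ
        Ioo (-del - 1 / 10 ^ 6) (1 + del + 1 / 10 ^ 6)) ×ˢ Metric.ball (0 : Wd d) (21 / 20)) :=
      (isOpen_Ioo.prod isOpen_Ioo).prod Metric.isOpen_ball
    have h1 : ((Ioo (al i - del - 1 / 10 ^ 6) (al i + pw i + del + 1 / 10 ^ 6) ×ˢ
        Ioo (-del - 1 / 10 ^ 6) (1 + del + 1 / 10 ^ 6)) ×ˢ Metric.ball (0 : Wd d) (21 / 20)) ∈ 𝓝ˢ (VVd d i) := by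
      refine hO.mem_nhdsSet.2 ?_
      rintro z ⟨⟨⟨h1, h2⟩, h3, h4⟩, h5⟩
      rw [BW, mem_closedBall_zero_iff] at h5
      refine ⟨⟨⟨?_, ?_⟩, ?_, ?_⟩, ?_⟩
      · norm_num; linarith
      · norm_num; linarith
      · norm_num; linarith
      · norm_num; linarith
      · rw [mem_ball_zero_iff]; linarith
    filter_upwards [h1] with z hz
    refine h.hV i z ⟨⟨hz.1.1.1.le, hz.1.1.2.le⟩, hz.1.2.1.le, hz.1.2.2.le⟩ ?_
    have := hz.2
    rw [mem_ball_zero_iff] at this
    exact this.le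
  have hF : ∀ᶠ z in 𝓝ˢ (FFd d), F z = FoldD d z := by
    have hO : IsOpen ((Ioo (xc - u0 - 1 / 10 ^ 6) (xc + u0 + 1 / 10 ^ 6) ×ˢ
        Ioo (-del - 1 / 10 ^ 6) (1 + del + 1 / 10 ^ 6)) ×ˢ Metric.ball (0 : Wd d) (21 / 20)) :=
      (isOpen_Ioo.prod isOpen_Ioo).prod Metric.isOpen_ball
    have h1 : ((Ioo (xc - u0 - 1 / 10 ^ 6) (xc + u0 + 1 / 10 ^ 6) ×ˢ
        Ioo (-del - 1 / 10 ^ 6) (1 + del + 1 / 10 ^ 6)) ×ˢ Metric.ball (0 : Wd d) (21 / 20)) ∈ 𝓝ˢ (FFd d) := by
      refine hO.mem_nhdsSet.2 ?_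
      rintro z ⟨⟨⟨h1, h2⟩, h3, h4⟩, h5⟩
      rw [BW, mem_closedBall_zero_iff] at h5
      refine ⟨⟨⟨?_, ?_⟩, ?_, ?_⟩, ?_⟩
      · norm_num; linarith
      · norm_num; linarith
      · norm_num; linarith
      · norm_num; linarith
      · rw [mem_ball_zero_iff]; linarith
    filter_upwards [h1] with z hz
    refine h.hF z ⟨⟨hz.1.1.1.le, hz.1.1.2.le⟩, hz.1.2.1.le, hz.1.2.2.le⟩ ?_
    have := hz.2
    rw [mem_ball_zero_iff] at this
    exact this.le
  have hinjF : Function.Injective F := fun x y hxy => by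
    have := congrArg B hxy
    rwa [h.left, h.left] at this
  have hinjB : Function.Injective B := fun x y hxy => by
    have := congrArg F hxy
    rwa [h.right, h.right] at this
  obtain ⟨V1, ho1, hm1, h1⟩ := exists_VD he hr hinjF h.supp hV hF hfs (K := ∅) isCompact_empty
    (fun z hz => absurd hz (notMem_empty z)) 0 one_pos
  obtain ⟨V2, ho2, hm2, h2⟩ := exists_V_closeD he hinjB (dm2_suppB h) (fs := fs.symm) (dm2_ext he h hfs) hK hKr 1 hε
  refine ⟨V1 ∩ (fun f : DiffInf (d + 2) M => (f.symm : DiffInf (d + 2) M)) ⁻¹' V2,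
    ho1.inter (ho2.preimage dm2_symm), ⟨hm1, hm2⟩, fun f hf => ?_⟩
  obtain ⟨ha, hb, -⟩ := h1 f hf.1
  obtain ⟨hc, hd⟩ := h2 f.symm hf.2
  exact ⟨ha, subset_union_left.trans hb, hc, fun z hz =>
    ⟨dk8_zero (hd 0 (by norm_num) z hz), dk8_fderiv hε.le (hd 1 le_rfl z hz)⟩⟩

/-- a step of the backward orbit in the chart -/
theorem dm2_step {e : OpenPartialHomeomorph M (Euc (d + 2))} (f : DiffInf (d + 2) M) {z : En d}
    (hz : z ∈ domD e f) {m : M} (hm : m ∈ e.source) (hmz : LLd d (e m) = z) :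
    f m ∈ e.source ∧ LLd d (e (f m)) = locD e f z := by
  have h1 : m = e.symm ((LLd d).symm z) := by
    rw [← hmz, ContinuousLinearEquiv.symm_apply_apply, e.left_inv hm]
  refine ⟨by rw [h1]; exact hz.2, ?_⟩
  rw [h1]
  exact (if_pos hz).symm

end Pool.Agent.Lib.H37D
end

-- from Lib.H37D.DM3
section

/-!
# H37D DM3: the inverse of the model: Lipschitz constant, maps close to it capture the exit set
-/

open Set Filter Topology
open scoped ContDiff Manifold

namespace Pool.Agent.Lib.H37D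

open Pool.Agent.Lib.H37N

variable {d : ℕ}

theorem dm3_lip {F B : En d → En d} {p : En d} {rho r : ℝ} (h : ModelD F B p rho r) :
    ∃ L : ℝ, 1 ≤ L ∧ ∀ x y, ‖B x - B y‖ ≤ L * ‖x - y‖ := by
  have hBr : ∀ z, r ≤ ‖z‖ → B z = z := by
    intro z hz
    have h1 := h.left z
    rwa [h.supp z hz] at h1
  have hc : Continuous (fderiv ℝ B) := h.smooth_B.continuous_fderiv (by simp)
  obtain ⟨L0, hL0⟩ := (isCompact_closedBall (0 : En d) r).exists_bound_of_continuousOn hc.continuousOn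
  refine ⟨max L0 1, le_max_right _ _, fun x y => ?_⟩
  refine Convex.norm_image_sub_le_of_norm_fderiv_le (𝕜 := ℝ) (s := univ) (f := B)
    (fun z _ => h.smooth_B.differentiable (by simp) z) (fun z _ => ?_) convex_univ (mem_univ _) (mem_univ _)
  by_cases hz : ‖z‖ ≤ r
  · exact (hL0 z (by simpa using hz)).trans (le_max_left _ _)
  · have h1 : B =ᶠ[𝓝 z] id := by
      have h2 : ∀ᶠ y in 𝓝 z, r < ‖y‖ := continuous_norm.continuousAt.eventually (lt_mem_nhds (not_le.1 hz))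
      filter_upwards [h2] with y hy
      exact hBr y hy.le
    rw [h1.fderiv_eq, fderiv_id]
    exact (ContinuousLinearMap.norm_id_le).trans (le_max_right _ _)

/-- the exit set -/
def EXd (d : ℕ) : Set (En d) :=
  {z | (z.1.1 ∈ Icc (-del - 1 / 10 ^ 6) (1 + del + 1 / 10 ^ 6) ∧
    z.1.2 ∈ Icc (-del - 1 / 10 ^ 6) (1 + del + 1 / 10 ^ 6)) ∧ 5 / 10 ^ 8 ≤ ‖z.2‖ ∧ ‖z.2‖ ≤ 1}

theorem dm3_EX_sub : EXd d ⊆ Metric.closedBall 0 2 := by
  rintro z ⟨⟨⟨h1, h2⟩, h3, h4⟩, -, h5⟩
  rw [mem_closedBall_zero_iff, Prod.norm_def, Prod.norm_def, Real.norm_eq_abs, Real.norm_eq_abs]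
  simp only [del] at h1 h2 h3 h4
  refine max_le (max_le ?_ ?_) (by linarith)
  · rw [abs_le]; constructor <;> linarith
  · rw [abs_le]; constructor <;> linarith

theorem dm3_EX_compact : IsCompact (EXd d) := by
  refine (isCompact_closedBall (0 : En d) 2).of_isClosed_subset ?_ dm3_EX_sub
  refine IsClosed.inter (IsClosed.inter ?_ ?_) (IsClosed.inter ?_ ?_)
  · exact isClosed_Icc.preimage (continuous_fst.comp continuous_fst)
  · exact isClosed_Icc.preimage (continuous_snd.comp continuous_fst)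
  · exact isClosed_le continuous_const (continuous_norm.comp continuous_snd)
  · exact isClosed_le (continuous_norm.comp continuous_snd) continuous_const

/-- maps close to `B` on a suitable ball capture the exit set -/
theorem dm3_exit {F B : En d → En d} {p : En d} {rho r : ℝ} (h : ModelD F B p rho r) (hr : 4 ≤ r) :
    ∃ (K : Set (En d)) (ε : ℝ), IsCompact K ∧ Convex ℝ K ∧ (∀ z ∈ K, ‖z‖ < r) ∧ 0 < ε ∧ ε ≤ 1 / 10 ^ 4 ∧
      ε ≤ rho / 8 ∧ Metric.closedBall p rho ⊆ K ∧ Metric.closedBall 0 2 ⊆ K ∧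
      ∀ b : En d → En d, (∀ z ∈ K, ‖b z - B z‖ ≤ ε) → ∀ z ∈ EXd d,
        b z ∈ K ∧ b (b z) ∈ K ∧ b (b (b z)) ∈ Metric.ball p rho := by
  obtain ⟨L, hL1, hL⟩ := dm3_lip h
  have hBc : Continuous B := h.smooth_B.continuous
  have hball : ∀ z, ‖z‖ < r → ‖B z‖ < r := by
    intro z hz
    by_contra hcon
    have h1 := h.supp (B z) (not_lt.1 hcon)
    rw [h.right] at h1
    rw [← h1] at hcon
    exact hcon hz
  set C : Set (En d) := Metric.closedBall 0 2 with hC
  have hCc : IsCompact C := isCompact_closedBall _ _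
  set K1 : Set (En d) := (Metric.closedBall p rho ∪ C) ∪ (B '' C ∪ B '' (B '' C)) with hK1
  have hK1c : IsCompact K1 :=
    ((isCompact_closedBall _ _).union hCc).union ((hCc.image hBc).union ((hCc.image hBc).image hBc))
  have hK1r : ∀ z ∈ K1, ‖z‖ < r := by
    have hCr : ∀ z ∈ C, ‖z‖ < r := fun z hz => by
      rw [hC, mem_closedBall_zero_iff] at hz
      linarith
    rintro z ((hz | hz) | (⟨y, hy, rfl⟩ | ⟨_, ⟨y, hy, rfl⟩, rfl⟩))
    · have := h.sub hz
      rwa [mem_ball_zero_iff] at this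
    · exact hCr z hz
    · exact hball _ (hCr y hy)
    · exact hball _ (hball _ (hCr y hy))
  obtain ⟨z1, hz1, hmax⟩ := hK1c.exists_isMaxOn
    ⟨0, Or.inl (Or.inr (by rw [hC]; simp))⟩ (continuous_norm.continuousOn (s := K1))
  have hr1 : ‖z1‖ < r := hK1r z1 hz1
  have hle : ∀ z ∈ K1, ‖z‖ ≤ ‖z1‖ := fun z hz => hmax hz
  obtain ⟨δ, hδ, hthick⟩ := (dm3_EX_compact (d := d)).image (hBc.iterate 3)
    |>.exists_thickening_subset_open Metric.isOpen_ball (t := Metric.ball p rho) (by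
      rintro _ ⟨z, ⟨⟨h1, h2⟩, h3, h4⟩, rfl⟩
      exact h.exit z h1 h2 h3 h4)
  have hL0 : 0 < L := by linarith
  refine ⟨Metric.closedBall 0 ((‖z1‖ + r) / 2),
    min (min (1 / 10 ^ 4) (rho / 8)) (min ((r - ‖z1‖) / (2 * (1 + L))) (δ / (2 * (1 + L + L ^ 2)))),
    isCompact_closedBall _ _, convex_closedBall _ _, ?_, ?_, ?_, ?_, ?_, ?_, ?_⟩
  · intro z hz
    rw [mem_closedBall_zero_iff] at hz
    linarith
  · have := h.rho_pos
    have h2 : 0 < r - ‖z1‖ := by linarith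
    positivity
  · exact (min_le_left _ _).trans (min_le_left _ _)
  · exact (min_le_left _ _).trans (min_le_right _ _)
  · intro z hz
    rw [mem_closedBall_zero_iff]
    linarith [hle z (Or.inl (Or.inl hz))]
  · intro z hz
    rw [mem_closedBall_zero_iff]
    linarith [hle z (Or.inl (Or.inr hz))]
  · set ε : ℝ := min (min (1 / 10 ^ 4) (rho / 8)) (min ((r - ‖z1‖) / (2 * (1 + L))) (δ / (2 * (1 + L + L ^ 2))))
      with hεdef
    have hε0 : 0 < ε := by
      have := h.rho_pos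
      have h2 : 0 < r - ‖z1‖ := by linarith
      positivity
    have hε1 : (1 + L) * ε ≤ (r - ‖z1‖) / 2 := by
      have h1 : ε ≤ (r - ‖z1‖) / (2 * (1 + L)) := (min_le_right _ _).trans (min_le_left _ _)
      rw [le_div_iff₀ (by positivity)] at h1
      linarith
    have hε2 : (1 + L + L ^ 2) * ε ≤ δ / 2 := by
      have h1 : ε ≤ δ / (2 * (1 + L + L ^ 2)) := (min_le_right _ _).trans (min_le_right _ _)
      rw [le_div_iff₀ (by positivity)] at h1
      linarith
    intro b hb z hz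
    have hzC : z ∈ C := dm3_EX_sub hz
    have hzK : z ∈ Metric.closedBall (0 : En d) ((‖z1‖ + r) / 2) := by
      rw [mem_closedBall_zero_iff]
      linarith [hle z (Or.inl (Or.inr hzC))]
    have e1 : ‖b z - B z‖ ≤ ε := hb z hzK
    have hb1 : b z ∈ Metric.closedBall (0 : En d) ((‖z1‖ + r) / 2) := by
      rw [mem_closedBall_zero_iff]
      have h1 := hle (B z) (Or.inr (Or.inl ⟨z, hzC, rfl⟩))
      have h2 : ‖b z‖ ≤ ‖b z - B z‖ + ‖B z‖ := norm_le_norm_sub_add _ _
      nlinarith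
    have e2 : ‖b (b z) - B (B z)‖ ≤ (1 + L) * ε := by
      have h1 := hb _ hb1
      have h2 := hL (b z) (B z)
      have h3 : ‖b (b z) - B (B z)‖ ≤ ‖b (b z) - B (b z)‖ + ‖B (b z) - B (B z)‖ := by
        have := norm_add_le (b (b z) - B (b z)) (B (b z) - B (B z))
        rwa [sub_add_sub_cancel] at this
      nlinarith
    have hb2 : b (b z) ∈ Metric.closedBall (0 : En d) ((‖z1‖ + r) / 2) := by
      rw [mem_closedBall_zero_iff]
      have h1 := hle (B (B z)) (Or.inr (Or.inr ⟨_, ⟨z, hzC, rfl⟩, rfl⟩))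
      have h2 : ‖b (b z)‖ ≤ ‖b (b z) - B (B z)‖ + ‖B (B z)‖ := norm_le_norm_sub_add _ _
      linarith
    have e3 : ‖b (b (b z)) - B (B (B z))‖ ≤ (1 + L + L ^ 2) * ε := by
      have h1 := hb _ hb2
      have h2 := hL (b (b z)) (B (B z))
      have h3 : ‖b (b (b z)) - B (B (B z))‖ ≤ ‖b (b (b z)) - B (b (b z))‖ + ‖B (b (b z)) - B (B (B z))‖ := by
        have := norm_add_le (b (b (b z)) - B (b (b z))) (B (b (b z)) - B (B (B z)))
        rwa [sub_add_sub_cancel] at this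
      nlinarith
    refine ⟨hb1, hb2, hthick ?_⟩
    rw [Metric.mem_thickening_iff]
    refine ⟨B^[3] z, ⟨z, hz, rfl⟩, ?_⟩
    rw [dist_eq_norm]
    show ‖b (b (b z)) - B (B (B z))‖ < δ
    linarith

end Pool.Agent.Lib.H37D
end
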