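import Pool.Agent.Lib.H1M.FF.M003
import Pool.Agent.Lib.H1M.FF.M014
import Pool.Agent.Lib.H1M.FF.M038
import Pool.Agent.Lib.H1M.FF.M043

/-! Merged copies (to shorten the build) of Lib.H37D.DF01c, Lib.H37D.DJ03, Lib.H37D.DF03c, Lib.H37D.DH60. -/

-- from Lib.H37D.DF01c
section

/-!
# H37D DF01c: flat arcs (pure part)
-/

open Set Filter Topology Asymptotics
open scoped ContDiff

namespace Pool.Agent.Lib.H37D

open Pool.Agent.Lib.H37N

variable {d : ℕ}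

theorem df01_core {T : En d → En d} {O : Set (En d)} (hO : IsOpen O) (h0 : (0 : En d) ∈ O)
    (hT : ContDiffOn ℝ ∞ T O) {a : ℝ} {wT : Wd d} (hT0 : T 0 = ((a, 0), wT))
    (hα : (fderiv ℝ T 0 ((0, 1), 0)).1.1 ≠ 0) {m : ℕ}
    (hord : (fun t : ℝ => (T ((0, t), 0)).1.2) =O[𝓝 0] fun t => |t| ^ (m + 1)) :
    ∃ (Gh : En d → En d) (O1 : Set (En d)), IsOpen O1 ∧ (((a, 0), wT) : En d) ∈ O1 ∧ ContDiffOn ℝ ∞ Gh O1 ∧
      ((fun v => Gh v - v) =O[𝓝 (((a, 0), wT) : En d)] fun v => ‖v - ((a, 0), wT)‖ ^ (m + 1)) ∧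
      Gh ((a, 0), wT) = ((a, 0), wT) ∧ ∀ᶠ t : ℝ in 𝓝 0, (Gh (T ((0, t), 0))).1.2 = 0 := by
  have hT0' : T ((0, 0), 0) = ((a, 0), wT) := hT0
  have hcont : Continuous (fun t : ℝ => (((0, t), 0) : En d)) := by fun_prop
  have hmem : ∀ᶠ t : ℝ in 𝓝 0, (((0, t), 0) : En d) ∈ O :=
    hcont.continuousAt.eventually_mem (hO.mem_nhds h0)
  have hls : ContDiff ℝ ∞ (fun t : ℝ => (((0, t), 0) : En d)) := by fun_prop
  have hφ : ∀ᶠ t : ℝ in 𝓝 0, ContDiffAt ℝ ∞ (fun t : ℝ => (T ((0, t), 0)).1.1) t := by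
    filter_upwards [hmem] with t ht
    exact ContDiffAt.comp (g := fun v : En d => (T v).1.1) (f := fun t : ℝ => (((0, t), 0) : En d)) t
      (hT.contDiffAt (hO.mem_nhds ht)).fst.fst hls.contDiffAt
  have hTd : HasFDerivAt T (fderiv ℝ T 0) (((0 : ℝ), (0 : ℝ)), (0 : Wd d)) :=
    ((hT.contDiffAt (hO.mem_nhds h0)).differentiableAt (by simp)).hasFDerivAt
  have hld : HasDerivAt (fun t : ℝ => (((0, t), 0) : En d)) (((0 : ℝ), (1 : ℝ)), (0 : Wd d)) 0 :=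
    ((hasDerivAt_const 0 (0 : ℝ)).prodMk (hasDerivAt_id 0)).prodMk (hasDerivAt_const 0 (0 : Wd d))
  have hTd2 : HasDerivAt (fun t : ℝ => T ((0, t), 0)) (fderiv ℝ T 0 ((0, 1), 0)) 0 :=
    hTd.comp_hasDerivAt (0 : ℝ) hld
  have hφd : HasDerivAt (fun t : ℝ => (T ((0, t), 0)).1.1) (fderiv ℝ T 0 ((0, 1), 0)).1.1 0 :=
    ((ContinuousLinearMap.fst ℝ ℝ ℝ).comp
      (ContinuousLinearMap.fst ℝ Pt (Wd d))).hasFDerivAt.comp_hasDerivAt (0 : ℝ) hTd2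
  have hb : Function.Bijective (fderiv ℝ (fun t : ℝ => (T ((0, t), 0)).1.1) 0) := by
    have h1 : ∀ v : ℝ, fderiv ℝ (fun t : ℝ => (T ((0, t), 0)).1.1) 0 v =
        v * (fderiv ℝ T 0 ((0, 1), 0)).1.1 := by
      intro v
      rw [hφd.hasFDerivAt.fderiv]
      simp
    constructor
    · intro v w hvw
      rw [h1, h1] at hvw
      exact mul_right_cancel₀ hα hvw
    · intro w
      refine ⟨w / (fderiv ℝ T 0 ((0, 1), 0)).1.1, ?_⟩
      rw [h1]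
      field_simp
  obtain ⟨θ, hθ, hθ0, hθ1, -⟩ := inverse_fun hφ hb
  simp only [hT0'] at hθ0
  refine ⟨fun v => ((v.1.1, v.1.2 - (T ((0, θ v.1.1), 0)).1.2), v.2),
    {v | (((0, θ v.1.1), 0) : En d) ∈ O}, ?_, ?_, ?_, ?_, ?_, ?_⟩
  · have hc : Continuous (fun v : En d => (((0, θ v.1.1), 0) : En d)) :=
      hcont.comp (hθ.continuous.comp (continuous_fst.comp continuous_fst))
    exact hO.preimage hc
  · change (((0, θ a), 0) : En d) ∈ O
    rw [hθ0]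
    exact h0
  · have hc : ContDiff ℝ ∞ (fun v : En d => (((0, θ v.1.1), 0) : En d)) :=
      hls.comp (hθ.comp (contDiff_fst.comp contDiff_fst))
    have h2 : ContDiffOn ℝ ∞ (fun v : En d => (T ((0, θ v.1.1), 0)).1.2)
        {v | (((0, θ v.1.1), 0) : En d) ∈ O} :=
      (hT.comp hc.contDiffOn (fun v hv => hv)).fst.snd
    exact ((contDiff_fst.comp contDiff_fst).contDiffOn.prodMk
      ((contDiff_snd.comp contDiff_fst).contDiffOn.sub h2)).prodMk contDiff_snd.contDiffOn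
  · have ht : Tendsto (fun v : En d => θ v.1.1) (𝓝 (((a, 0), wT) : En d)) (𝓝 0) := by
      have h := (hθ.continuous.comp (continuous_fst.comp continuous_fst)).tendsto (((a, 0), wT) : En d)
      simp only [Function.comp_apply, hθ0] at h
      exact h
    have h1 : (fun v : En d => (T ((0, θ v.1.1), 0)).1.2) =O[𝓝 (((a, 0), wT) : En d)]
        fun v => |θ v.1.1| ^ (m + 1) := hord.comp_tendsto ht
    have h2 : (fun v : En d => θ v.1.1) =O[𝓝 (((a, 0), wT) : En d)] fun v => v.1.1 - a := by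
      have h3 : (fun X : ℝ => θ X - θ a) =O[𝓝 a] fun X => X - a :=
        ((hθ.differentiable (by simp)) a).isBigO_sub
      have h4 : Tendsto (fun v : En d => v.1.1) (𝓝 (((a, 0), wT) : En d)) (𝓝 a) :=
        (continuous_fst.comp continuous_fst).tendsto _
      have h5 := h3.comp_tendsto h4
      simpa [Function.comp_def, hθ0] using h5
    have h6 : (fun v : En d => v.1.1 - a) =O[𝓝 (((a, 0), wT) : En d)] fun v => ‖v - ((a, 0), wT)‖ := by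
      refine IsBigO.of_bound 1 (Eventually.of_forall fun v => ?_)
      rw [one_mul, norm_norm]
      exact (norm_fst_le (v - ((a, 0), wT)).1).trans (norm_fst_le (v - ((a, 0), wT)))
    have h7 : (fun v : En d => |θ v.1.1| ^ (m + 1)) =O[𝓝 (((a, 0), wT) : En d)]
        fun v => ‖v - ((a, 0), wT)‖ ^ (m + 1) := by
      refine IsBigO.pow ?_ _
      exact (h2.trans h6).norm_left
    have h8 := h1.trans h7
    refine IsBigO.trans ?_ h8
    refine IsBigO.of_bound 1 (Eventually.of_forall fun v => ?_)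
    rw [one_mul, Prod.norm_def, Prod.norm_def]
    simp
  · simp only [hθ0, hT0']
    simp
  · filter_upwards [hθ1] with t ht
    change (T ((0, t), 0)).1.2 - (T ((0, θ (T ((0, t), 0)).1.1), 0)).1.2 = 0
    rw [ht, sub_self]

/-- the Jacobian along the flat arc -/
noncomputable def df02_M (T : En d → En d) (t : ℝ) : ℝ :=
  -(deriv (fun t : ℝ => (T ((0, t), 0)).1.1) t * (fderiv ℝ T ((0, t), 0) ((1, 0), 0)).1.2)

theorem df02_line : ContDiff ℝ ∞ (fun t : ℝ => (((0, t), 0) : En d)) := by fun_prop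

theorem df02_deriv {T : En d → En d} {t : ℝ} (h : DifferentiableAt ℝ T ((0, t), 0)) :
    HasDerivAt (fun t : ℝ => (T ((0, t), 0)).1.1) (fderiv ℝ T ((0, t), 0) ((0, 1), 0)).1.1 t := by
  have hline : HasDerivAt (fun t : ℝ => (((0, t), 0) : En d)) (((0 : ℝ), (1 : ℝ)), (0 : Wd d)) t :=
    ((hasDerivAt_const t (0 : ℝ)).prodMk (hasDerivAt_id t)).prodMk (hasDerivAt_const t (0 : Wd d))
  exact ((ContinuousLinearMap.fst ℝ ℝ ℝ).comp
    (ContinuousLinearMap.fst ℝ Pt (Wd d))).hasFDerivAt.comp_hasDerivAt t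
      (h.hasFDerivAt.comp_hasDerivAt t hline)

theorem df02_M_diff {T : En d → En d} {O : Set (En d)} (hO : IsOpen O) (h0 : (0 : En d) ∈ O)
    (hT : ContDiffOn ℝ ∞ T O) : DifferentiableAt ℝ (df02_M T) 0 := by
  have h1 : ∀ᶠ t : ℝ in 𝓝 0, (((0, t), 0) : En d) ∈ O :=
    df02_line.continuous.continuousAt.eventually_mem (hO.mem_nhds h0)
  have h2 : df02_M T =ᶠ[𝓝 0] fun t : ℝ =>
      -((fderiv ℝ T ((0, t), 0) ((0, 1), 0)).1.1 * (fderiv ℝ T ((0, t), 0) ((1, 0), 0)).1.2) := by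
    filter_upwards [h1] with t ht
    unfold df02_M
    rw [(df02_deriv ((hT.contDiffAt (hO.mem_nhds ht)).differentiableAt (by simp))).deriv]
  refine DifferentiableAt.congr_of_eventuallyEq ?_ h2
  have h3 : ContDiffAt ℝ ∞ (fderiv ℝ T) (0 : En d) :=
    (hT.contDiffAt (hO.mem_nhds h0)).fderiv_right (by simp)
  have h4 : DifferentiableAt ℝ (fun t : ℝ => fderiv ℝ T (((0, t), 0) : En d)) 0 := by
    have h5 : DifferentiableAt ℝ (fderiv ℝ T) ((fun t : ℝ => (((0, t), 0) : En d)) 0) :=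
      h3.differentiableAt (by simp)
    exact h5.comp (0 : ℝ) (df02_line.differentiable (by simp) 0)
  exact ((h4.clm_apply (differentiableAt_const _)).fst.fst.mul
    (h4.clm_apply (differentiableAt_const _)).fst.snd).neg

end Pool.Agent.Lib.H37D
end

-- from Lib.H37D.DJ03
section

/-!
# H37D DJ03 (S/M): vertical perturbations at a place (port of H37P/J09v.lean)

Word for word as `place_vert` (H37P/J09v.lean, proved) with
`Ψ(p,v) = ((v.1.1, v.1.2 + χ v * Φ (p, (v.1.1, v.2))), v.2)`, `χ` a cut-off function (`exists_cutoff`, `E := En d`) at `((a,0),wT)` with support in the ball of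
radius `r/2`, `PlaceD.family`. The function `Φ` may depend on `(X, w)`.
-/

open Set Filter Topology Asymptotics
open scoped ContDiff

namespace Pool.Agent.Lib.H37D

open Pool.Agent.Lib.H37N

variable {d : ℕ}

theorem place_vertD {g : En d → En d} {s : FrD d} {Z : Set (En d)} {b a : ℝ} {wT : Wd d}
    {k l : ℕ} {r : ℝ} {D B : Set (En d)} {Li : En d → En d}
    (hp : PlaceD g s Z b a wT k l r D B Li) {P : Type} [NormedAddCommGroup P] [NormedSpace ℝ P]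
    [FiniteDimensional ℝ P] (Φ : P × ℝ × Wd d → ℝ) (hΦ : ContDiff ℝ ∞ Φ) (h0 : ∀ X, Φ (0, X) = 0) :
    ∃ ρ > (0 : ℝ), ρ ≤ r ∧ ∀ (R : ℕ) {ε : ℝ}, 0 < ε → ∀ᶠ p in 𝓝 (0 : P), ∃ ψ : En d → En d,
      SmallD R ε ψ ∧ AdmD D ψ ∧ ∀ v ∈ Metric.ball (((a, 0), wT) : En d) ρ,
        PlD g s l (ψ (Li v)) = ((v.1.1, v.1.2 + Φ (p, (v.1.1, v.2))), v.2) := by
  have hr := hp.r_pos
  obtain ⟨χ, hχ, -, hts, -, h1⟩ := exists_cutoff (E := En d) (C := {(((a, 0), wT) : En d)})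
    (O := Metric.ball (((a, 0), wT) : En d) (r / 2)) isCompact_singleton Metric.isOpen_ball
    (by simp [hr])
  rw [nhdsSet_singleton] at h1
  obtain ⟨ρ, hρ, hball⟩ := Metric.eventually_nhds_iff_ball.1 h1
  refine ⟨min ρ r, lt_min hρ hr, min_le_right _ _, fun R ε hε => ?_⟩
  have hΨ : ContDiff ℝ ∞ (fun q : P × En d => ((q.2.1.1, q.2.1.2 + χ q.2 * Φ (q.1, (q.2.1.1, q.2.2))), q.2.2)) := by
    have e1 : ContDiff ℝ ∞ (fun q : P × En d => χ q.2) := hχ.comp contDiff_snd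
    have e2 : ContDiff ℝ ∞ (fun q : P × En d => Φ (q.1, (q.2.1.1, q.2.2))) := hΦ.comp (by fun_prop)
    fun_prop
  have hfam := hp.family (fun q : P × En d => ((q.2.1.1, q.2.1.2 + χ q.2 * Φ (q.1, (q.2.1.1, q.2.2))), q.2.2)) hΨ
    (fun v => by simp [h0]) (fun p v hv => by
      have hz : χ v = 0 := by
        by_contra hne
        exact hv (Metric.ball_subset_closedBall (hts (subset_tsupport χ hne)))
      simp [hz]) R hε
  filter_upwards [hfam] with p hp'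
  obtain ⟨ψ, hs1, hs2, hs3⟩ := hp'
  refine ⟨ψ, hs1, hs2, fun v hv => ?_⟩
  rw [hs3 v (Metric.ball_subset_ball (min_le_right _ _) hv)]
  simp [hball v (Metric.ball_subset_ball (min_le_left _ _) hv)]

end Pool.Agent.Lib.H37D
end

-- from Lib.H37D.DF03c
section

/-!
# H37D DF03c: the local form near a flat arc (pure part)

As H37P/F03. Parameters `p = (ξ0, w0)`.
-/

open Set Filter Topology Asymptotics
open scoped ContDiff

namespace Pool.Agent.Lib.H37D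

open Pool.Agent.Lib.H37N

variable {d : ℕ}

theorem df03_vert {H : En d → En d} {x y : ℝ} {w : Wd d} (h : DifferentiableAt ℝ H ((x, y), w)) :
    HasDerivAt (fun t : ℝ => (H ((x, t), w)).1.1) (fderiv ℝ H ((x, y), w) ((0, 1), 0)).1.1 y := by
  have h1 : HasDerivAt (fun t : ℝ => (((x, t), w) : En d)) ((0, 1), 0) y :=
    ((hasDerivAt_const y x).prodMk (hasDerivAt_id y)).prodMk (hasDerivAt_const y w)
  have h2 : HasDerivAt (fun t : ℝ => H ((x, t), w)) (fderiv ℝ H ((x, y), w) ((0, 1), 0)) y :=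
    h.hasFDerivAt.comp_hasDerivAt y h1
  exact ((ContinuousLinearMap.fst ℝ ℝ ℝ).comp (ContinuousLinearMap.fst ℝ Pt (Wd d))).hasFDerivAt.comp_hasDerivAt y h2

theorem df03_core {T : En d → En d} {a : ℝ} {wT : Wd d} (hTev : ∀ᶠ v in 𝓝 (0 : En d), ContDiffAt ℝ ∞ T v)
    (hT0 : T 0 = ((a, 0), wT))
    (hd2 : (fderiv ℝ T 0 ((0, 1), 0)).1.1 * (fderiv ℝ T 0 ((1, 0), 0)).1.2 < 0)
    (hfl : ∀ᶠ t : ℝ in 𝓝 0, (T ((0, t), 0)).1.2 = 0) :
    ∃ (A : En d → ℝ) (Aw : En d → Wd d) (Nn : (ℝ × Wd d) × ℝ → ℝ) (Mh : (ℝ × Wd d) × En d → ℝ)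
      (Mw : (ℝ × Wd d) × En d → (Wd d →L[ℝ] ℝ)) (r : ℝ), 0 < r ∧ ContDiff ℝ ∞ A ∧ ContDiff ℝ ∞ Aw ∧
      ContDiff ℝ ∞ Nn ∧ ContDiff ℝ ∞ Mh ∧ ContDiff ℝ ∞ Mw ∧
      (∀ v : En d, ‖v‖ < r → (T v).1.1 = a + A v) ∧ (∀ v : En d, ‖v‖ < r → (T v).2 = wT + Aw v) ∧
      (∀ (ξ0 ζ t : ℝ) (w0 η : Wd d), |ξ0| < r → |ζ| < r → |t| < r → ‖w0‖ < r → ‖η‖ < r →
        (T ((ξ0 + ζ, t), w0 + η)).1.2 = Nn ((ξ0, w0), a + A ((ξ0 + ζ, t), w0 + η)) +
          ζ * Mh ((ξ0, w0), ((ζ, t), η)) + Mw ((ξ0, w0), ((ζ, t), η)) η) ∧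
      (∀ X : ℝ, |X - a| < r → Nn ((0, 0), X) = 0) ∧ A ((0, 0), 0) = 0 ∧ Aw ((0, 0), 0) = 0 ∧
      deriv (fun t => A ((0, t), 0)) 0 * Mh ((0, 0), ((0, 0), 0)) < 0 ∧
      ∀ᶠ t : ℝ in 𝓝 0, deriv (fun t => A ((0, t), 0)) t * Mh ((0, 0), ((0, t), 0)) =
        deriv (fun t : ℝ => (T ((0, t), 0)).1.1) t * (fderiv ℝ T ((0, t), 0) ((1, 0), 0)).1.2 := by
  obtain ⟨Tg, hTg, hTgeq⟩ := localise_at hTev
  have hTgd : Differentiable ℝ Tg := hTg.differentiable (by simp)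
  have hTg0 : Tg ((0, 0), 0) = ((a, 0), wT) := by
    have h1 : Tg 0 = T 0 := hTgeq.eq_of_nhds
    rw [hT0] at h1
    exact h1
  set A : En d → ℝ := fun v => (Tg v).1.1 - a with hA
  set Aw : En d → Wd d := fun v => (Tg v).2 - wT with hAw
  set Y : En d → ℝ := fun v => (Tg v).1.2 with hY
  have hAs : ContDiff ℝ ∞ A := (contDiff_fst.comp (contDiff_fst.comp hTg)).sub contDiff_const
  have hAws : ContDiff ℝ ∞ Aw := (contDiff_snd.comp hTg).sub contDiff_const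
  have hYs : ContDiff ℝ ∞ Y := contDiff_snd.comp (contDiff_fst.comp hTg)
  have hA0 : A ((0, 0), 0) = 0 := by simp [hA, hTg0]
  have hAw0 : Aw ((0, 0), 0) = 0 := by simp [hAw, hTg0]
  -- vertical line through zero
  have hvert : Tendsto (fun t : ℝ => (((0, t), 0) : En d)) (𝓝 0) (𝓝 (0 : En d)) := by
    have h1 : Continuous (fun t : ℝ => (((0, t), 0) : En d)) := by fun_prop
    exact h1.tendsto 0
  have hY0 : ∀ᶠ t : ℝ in 𝓝 0, Y ((0, t), 0) = 0 := by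
    filter_upwards [hfl, hvert.eventually hTgeq] with t h1 h2
    show (Tg ((0, t), 0)).1.2 = 0
    rw [h2, h1]
  -- derivatives
  have hfd : ∀ᶠ v in 𝓝 (0 : En d), Tg =ᶠ[𝓝 v] T := hTgeq.eventuallyEq_nhds
  have hfd0 : fderiv ℝ Tg ((0, 0), 0) = fderiv ℝ T 0 := (hfd.self_of_nhds).fderiv_eq
  have hdA : ∀ t : ℝ, HasDerivAt (fun t : ℝ => A ((0, t), 0))
      (fderiv ℝ Tg ((0, t), 0) ((0, 1), 0)).1.1 t := by
    intro t
    exact (df03_vert (hTgd ((0, t), 0))).sub_const a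
  have hdA0 : deriv (fun t : ℝ => A ((0, t), 0)) 0 ≠ 0 := by
    rw [(hdA 0).deriv, hfd0]
    intro h
    rw [h, zero_mul] at hd2
    exact lt_irrefl _ hd2
  -- the implicit function
  set F : (ℝ × Wd d) × ℝ → ℝ := fun q => a + A ((q.1.1, q.2), q.1.2) with hF
  have hFs : ContDiff ℝ ∞ F := by
    have h1 : ContDiff ℝ ∞ (fun q : (ℝ × Wd d) × ℝ => (((q.1.1, q.2), q.1.2) : En d)) := by fun_prop
    exact contDiff_const.add (hAs.comp h1)
  obtain ⟨θ, hθ, hθ0, hθ1, hθ2⟩ := inverse_param (F := F) (p₀ := ((0 : ℝ), (0 : Wd d))) (t₀ := (0 : ℝ))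
    (Eventually.of_forall fun q => hFs.contDiffAt) (by
      have h1 : HasDerivAt (fun t : ℝ => F (((0 : ℝ), (0 : Wd d)), t)) _ 0 := (hdA 0).const_add a
      rw [h1.deriv, ← (hdA 0).deriv]
      exact hdA0)
  have hF0 : F (((0 : ℝ), (0 : Wd d)), 0) = a := by
    show a + A ((0, 0), 0) = a
    rw [hA0, add_zero]
  rw [hF0] at hθ0 hθ2
  set Nn : (ℝ × Wd d) × ℝ → ℝ := fun q => Y ((q.1.1, θ q), q.1.2) with hNn
  have hNs : ContDiff ℝ ∞ Nn := by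
    have h1 : ContDiff ℝ ∞ (fun q : (ℝ × Wd d) × ℝ => (((q.1.1, θ q), q.1.2) : En d)) :=
      ((contDiff_fst.comp contDiff_fst).prodMk hθ).prodMk (contDiff_snd.comp contDiff_fst)
    exact hYs.comp h1
  have hN0 : ∀ᶠ X : ℝ in 𝓝 a, Nn ((0, 0), X) = 0 := by
    have h1 : Tendsto (fun X : ℝ => θ ((0, 0), X)) (𝓝 a) (𝓝 0) := by
      have h2 : Continuous (fun X : ℝ => θ ((0, 0), X)) := hθ.continuous.comp (by fun_prop)
      have h3 := h2.tendsto a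
      rwa [hθ0] at h3
    filter_upwards [h1.eventually hY0] with X hX
    exact hX
  -- the remainder
  set M : ((ℝ × Wd d) × ℝ) × (ℝ × Wd d) → ℝ := fun q =>
    Y ((q.1.1.1 + q.2.1, q.1.2), q.1.1.2 + q.2.2) -
      Nn (q.1.1, a + A ((q.1.1.1 + q.2.1, q.1.2), q.1.1.2 + q.2.2)) with hM
  have hMs : ContDiff ℝ ∞ M := by
    have h1 : ContDiff ℝ ∞ (fun q : ((ℝ × Wd d) × ℝ) × (ℝ × Wd d) =>
        (((q.1.1.1 + q.2.1, q.1.2), q.1.1.2 + q.2.2) : En d)) := by fun_prop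
    have h2 : ContDiff ℝ ∞ (fun q : ((ℝ × Wd d) × ℝ) × (ℝ × Wd d) => q.1.1) := by fun_prop
    exact (hYs.comp h1).sub (hNs.comp (h2.prodMk (contDiff_const.add (hAs.comp h1))))
  obtain ⟨G, hG, hG1, hG2⟩ := hadamard hMs
  have hM0 : ∀ᶠ p : (ℝ × Wd d) × ℝ in 𝓝 ((0, 0), 0), M (p, 0) = 0 := by
    filter_upwards [hθ1] with p hp
    show Y ((p.1.1 + 0, p.2), p.1.2 + 0) -
      Y ((p.1.1, θ (p.1, a + A ((p.1.1 + 0, p.2), p.1.2 + 0))), p.1.2) = 0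
    have h1 : θ (p.1, a + A ((p.1.1, p.2), p.1.2)) = p.2 := hp
    rw [add_zero, add_zero, h1, sub_self]
  set arg : (ℝ × Wd d) × En d → ((ℝ × Wd d) × ℝ) × (ℝ × Wd d) := fun q =>
    ((q.1, q.2.1.2), (q.2.1.1, q.2.2)) with harg
  have hargs : ContDiff ℝ ∞ arg := by
    rw [harg]
    fun_prop
  set Mh : (ℝ × Wd d) × En d → ℝ := fun q => G (arg q) (1, 0) with hMh
  set Mw : (ℝ × Wd d) × En d → (Wd d →L[ℝ] ℝ) := fun q =>
    (G (arg q)).comp (ContinuousLinearMap.inr ℝ ℝ (Wd d)) with hMw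
  have hMhs : ContDiff ℝ ∞ Mh := (hG.comp hargs).clm_apply contDiff_const
  have hMws : ContDiff ℝ ∞ Mw := (hG.comp hargs).clm_comp contDiff_const
  -- the value of Mh on the arc
  have hMh0 : ∀ᶠ t : ℝ in 𝓝 0, Mh ((0, 0), ((0, t), 0)) = (fderiv ℝ Tg ((0, t), 0) ((1, 0), 0)).1.2 := by
    have hat : Tendsto (fun t : ℝ => a + A ((0, t), 0)) (𝓝 0) (𝓝 a) := by
      have h2 : Continuous (fun t : ℝ => a + A ((0, t), 0)) := by
        have := hAs.continuous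
        fun_prop
      have h3 := h2.tendsto 0
      simp only [hA0, add_zero] at h3
      exact h3
    filter_upwards [hat.eventually hN0.eventually_nhds] with t h1
    show G ((((0 : ℝ), (0 : Wd d)), t), (0, 0)) (1, 0) = _
    have e0 : ((0 : ℝ), (0 : Wd d)) = 0 := rfl
    rw [show (((((0 : ℝ), (0 : Wd d)), t), ((0 : ℝ), (0 : Wd d))) : ((ℝ × Wd d) × ℝ) × (ℝ × Wd d)) =
      ((((0 : ℝ), (0 : Wd d)), t), 0) from rfl, hG2 (((0 : ℝ), (0 : Wd d)), t)]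
    have h2 : (fun v : ℝ × Wd d => M ((((0 : ℝ), (0 : Wd d)), t), v)) =ᶠ[𝓝 0]
        fun v : ℝ × Wd d => (Tg ((v.1, t), v.2)).1.2 := by
      have h3 : Tendsto (fun v : ℝ × Wd d => a + A ((v.1, t), v.2)) (𝓝 0) (𝓝 (a + A ((0, t), 0))) := by
        have h4 : Continuous (fun v : ℝ × Wd d => a + A ((v.1, t), v.2)) := by
          have := hAs.continuous
          fun_prop
        exact h4.tendsto 0
      filter_upwards [h3.eventually h1] with v hv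
      show Y ((0 + v.1, t), 0 + v.2) - Nn (((0 : ℝ), (0 : Wd d)), a + A ((0 + v.1, t), 0 + v.2)) =
        (Tg ((v.1, t), v.2)).1.2
      rw [zero_add, zero_add, hv, sub_zero]
    rw [h2.fderiv_eq]
    have h5 : HasFDerivAt (fun v : ℝ × Wd d => (((v.1, t), v.2) : En d))
        (((ContinuousLinearMap.fst ℝ ℝ (Wd d)).prod 0).prod (ContinuousLinearMap.snd ℝ ℝ (Wd d))) 0 :=
      ((hasFDerivAt_fst).prodMk (hasFDerivAt_const _ _)).prodMk hasFDerivAt_snd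
    have h6 : HasFDerivAt Tg (fderiv ℝ Tg ((0, t), 0)) ((fun v : ℝ × Wd d => (((v.1, t), v.2) : En d)) 0) :=
      (hTgd ((0, t), 0)).hasFDerivAt
    have h7 := (h6.comp (0 : ℝ × Wd d) h5).fst.snd
    have h8 : HasFDerivAt (fun v : ℝ × Wd d => (Tg ((v.1, t), v.2)).1.2) _ 0 := h7
    rw [h8.fderiv]
    simp
  -- the radius
  obtain ⟨r1, hr1, H1⟩ := Metric.eventually_nhds_iff.1 hTgeq
  obtain ⟨r2, hr2, H2⟩ := Metric.eventually_nhds_iff.1 hM0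
  obtain ⟨r3, hr3, H3⟩ := Metric.eventually_nhds_iff.1 hN0
  have hpos : 0 < min (r1 / 2) (min r2 r3) := lt_min (half_pos hr1) (lt_min hr2 hr3)
  refine ⟨A, Aw, Nn, Mh, Mw, min (r1 / 2) (min r2 r3), hpos, hAs, hAws, hNs, hMhs, hMws, ?_, ?_, ?_, ?_,
    hA0, hAw0, ?_, ?_⟩
  · intro v hv
    have h3 : dist v 0 < r1 := by
      rw [dist_zero_right]
      linarith [(lt_min_iff.1 hv).1]
    have h4 := H1 h3
    show (T v).1.1 = a + ((Tg v).1.1 - a)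
    rw [h4]
    ring
  · intro v hv
    have h3 : dist v 0 < r1 := by
      rw [dist_zero_right]
      linarith [(lt_min_iff.1 hv).1]
    have h4 := H1 h3
    show (T v).2 = wT + ((Tg v).2 - wT)
    rw [h4]
    abel
  · intro ξ0 ζ t w0 η h0 hζ ht hw hη
    obtain ⟨h01, h02⟩ := lt_min_iff.1 h0
    obtain ⟨h11, h12⟩ := lt_min_iff.1 hζ
    obtain ⟨h21, h22⟩ := lt_min_iff.1 ht
    obtain ⟨h31, h32⟩ := lt_min_iff.1 hw
    obtain ⟨h41, h42⟩ := lt_min_iff.1 hη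
    have h1 : |ξ0 + ζ| < r1 := by
      have := abs_add_le ξ0 ζ
      linarith
    have h2 : |t| < r1 := by linarith
    have h2' : ‖w0 + η‖ < r1 := by
      have := norm_add_le w0 η
      linarith
    have h3 : dist (((ξ0 + ζ, t), w0 + η) : En d) 0 < r1 := by
      rw [dist_zero_right, Prod.norm_def, Prod.norm_def]
      exact max_lt (max_lt h1 h2) h2'
    have h4 := H1 h3
    have h5 : dist (((ξ0, w0), t) : (ℝ × Wd d) × ℝ) ((0, 0), 0) < r2 := by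
      rw [show (((0, 0), 0) : (ℝ × Wd d) × ℝ) = 0 from rfl, dist_zero_right, Prod.norm_def, Prod.norm_def]
      exact max_lt (max_lt (lt_min_iff.1 h02).1 (lt_min_iff.1 h32).1) (lt_min_iff.1 h22).1
    have h6 := H2 h5
    have h7 := hG1 ((ξ0, w0), t) (ζ, η)
    rw [h6, zero_add] at h7
    have h8 : M (((ξ0, w0), t), (ζ, η)) = Y ((ξ0 + ζ, t), w0 + η) -
      Nn ((ξ0, w0), a + A ((ξ0 + ζ, t), w0 + η)) := rfl
    rw [h8] at h7
    have h9 : G (((ξ0, w0), t), (ζ, η)) (ζ, η) = ζ * G (((ξ0, w0), t), (ζ, η)) (1, 0) +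
        G (((ξ0, w0), t), (ζ, η)) (0, η) := by
      have e : ((ζ, η) : ℝ × Wd d) = ζ • ((1 : ℝ), (0 : Wd d)) + ((0 : ℝ), η) := by simp
      conv_lhs => rw [e]
      rw [map_add, map_smul, smul_eq_mul]
      rw [← e]
    rw [h9] at h7
    rw [← h4]
    show Y ((ξ0 + ζ, t), w0 + η) = Nn ((ξ0, w0), a + A ((ξ0 + ζ, t), w0 + η)) +
      ζ * G (((ξ0, w0), t), (ζ, η)) (1, 0) + G (((ξ0, w0), t), (ζ, η)) (0, η)
    linarith
  · intro X hX
    refine H3 ?_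
    rw [Real.dist_eq]
    exact (lt_min_iff.1 (lt_min_iff.1 hX).2).2
  · rw [(hdA 0).deriv, hMh0.self_of_nhds, hfd0]
    exact hd2
  · filter_upwards [hMh0, hvert.eventually hfd] with t h1 h2
    rw [(hdA t).deriv, h1, ← h2.fderiv_eq]
    congr 1
    have h3 : (fun t : ℝ => (T ((0, t), 0)).1.1) =ᶠ[𝓝 t] fun t : ℝ => (Tg ((0, t), 0)).1.1 := by
      have h4 : Tendsto (fun t : ℝ => (((0, t), 0) : En d)) (𝓝 t) (𝓝 (((0, t), 0) : En d)) := by
        have h5 : Continuous (fun t : ℝ => (((0, t), 0) : En d)) := by fun_prop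
        exact h5.tendsto t
      filter_upwards [h4.eventually h2] with u hu
      rw [hu]
    rw [h3.deriv_eq]
    exact (df03_vert (hTgd ((0, t), 0))).deriv.symm

end Pool.Agent.Lib.H37D
end

-- from Lib.H37D.DH60
section

open TopologicalSpace Set Filter Topology
open Pool.Agent.Lib.H37C

namespace Pool.Agent.Lib.H37D

variable {Z : Type*} [TopologicalSpace Z] {X Co Di : Set Z} {rad : Z → ℝ} {K : Set ℝ}

/-- **DH60.** Port of Lib/H37C/F4. Accumulation in `X` gives accumulation of the radial coordinates. -/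
theorem accR_of_accX_C (hD : RadC X Co Di rad K) {S : Set Z} (hS : S ⊆ X) {z : Z} (hz : z ∈ X ∩ Co)
    (h : AccX X S z) : AccR (rad '' (S ∩ Co)) (rad z) := by
  unfold AccR
  rw [Metric.mem_closure_iff]
  intro ε hε
  have h1 : ∀ᶠ z' in 𝓝 z, z' ∈ Co := hD.isOpen.mem_nhds hz.2
  have h2 : ∀ᶠ z' in 𝓝 z, dist (rad z) (rad z') < ε := by
    have h3 : ContinuousAt rad z := hD.cont.continuousAt (hD.isOpen.mem_nhds hz.2)
    have h4 := Metric.continuousAt_iff'.1 h3 ε hε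
    filter_upwards [h4] with z' hz'
    rwa [dist_comm]
  have h3 := hD.loc z hz
  obtain ⟨z', hz'1, hz'2⟩ := mem_closure_iff_nhds.1 h _ ((h1.and h2).and h3)
  refine ⟨rad z', ⟨⟨z', ⟨hz'2.1, hz'1.1.1⟩, rfl⟩, fun h5 => hz'2.2 (hz'1.2 (hS hz'2.1) h5)⟩, hz'1.1.2⟩

theorem accX_of_accR_C (hD : RadC X Co Di rad K) {T : Set ℝ} {z : Z} (hz : z ∈ X ∩ Co)
    (h : AccR T (rad z)) : AccX X {z' | z' ∈ Di ∧ rad z' ∈ T} z := by
  obtain ⟨σ, hσ1, hσ2, hσ3⟩ := hD.lift z ((hD.mem z hz.2).1 hz.1).1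
  unfold AccX
  rw [mem_closure_iff_nhds]
  intro V hV
  have h1 : ∀ᶠ k in 𝓝 (rad z), σ k ∈ V := by
    apply hσ1.eventually
    rw [hσ2]
    exact hV
  obtain ⟨k, hk1, hk2⟩ := mem_closure_iff_nhds.1 h _ (h1.and hσ3)
  refine ⟨σ k, hk1.1, ⟨hk1.2.1, ?_⟩, fun hc => ?_⟩
  · rw [hk1.2.2]; exact hk2.1
  · have h3 := (hD.comp z hz _ hc).2
    rw [hk1.2.2] at h3
    exact hk2.2 h3

theorem topProp_of_radC (hD : RadC X Co Di rad K) {Ω : Type*} {r : Ω → Ω → Prop}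
    (h : ∃ k ∈ K, (∃ R : Ω → Set ℝ, GoodR K r R ∧ ∀ l, AccR (R l) k) ∧ ∀ D, SelfR K D → k ∉ D) :
    TopProp r X := by
  obtain ⟨k, hk, ⟨R, hR, hacc⟩, hno⟩ := h
  obtain ⟨z, hz, rfl⟩ := hD.surj k hk
  have hzC : z ∈ Co := hD.sub hz
  have hzX : z ∈ X := (hD.mem z hzC).2 ⟨hz, hk⟩
  refine ⟨fun l => {z' | z' ∈ Di ∧ rad z' ∈ R l}, ?_, z, hzX, fun l =>
    accX_of_accR_C hD ⟨hzX, hzC⟩ (hacc l), fun D hDs hzD => ?_⟩
  · rintro l x ⟨hx1, hx2⟩
    have hxX : x ∈ X := (hD.mem x (hD.sub hx1)).2 ⟨hx1, (hR l _ hx2).1⟩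
    exact ⟨hxX, fun l' hl' => accX_of_accR_C hD ⟨hxX, hD.sub hx1⟩ ((hR l _ hx2).2 l' hl')⟩
  · refine hno (rad '' (D ∩ Co)) ⟨?_, ?_⟩ ⟨z, ⟨hzD, hzC⟩, rfl⟩
    · rintro _ ⟨x, ⟨hx1, hx2⟩, rfl⟩
      exact ((hD.mem x hx2).1 (hDs.1 hx1)).2
    · rintro _ ⟨x, ⟨hx1, hx2⟩, rfl⟩
      exact accR_of_accX_C hD hDs.1 ⟨hDs.1 hx1, hx2⟩ (hDs.2 x hx1)

theorem self_of_radC (hD : RadC X Co Di rad K) {Ω : Type*} {r : Ω → Ω → Prop}
    (h : ∀ R : Ω → Set ℝ, GoodR K r R → ∀ k ∈ K, (∀ l, AccR (R l) k) → ∃ D, SelfR K D ∧ k ∈ D)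
    {R : Ω → Set Z} (hR : GoodFam X r R) {z : Z} (hz : z ∈ X ∩ Co) (hacc : ∀ l, AccX X (R l) z) :
    ∃ D, SelfAcc X D ∧ z ∈ D := by
  have hRX : ∀ l, R l ⊆ X := fun l x hx => (hR l x hx).1
  have hgood : GoodR K r (fun l => rad '' (R l ∩ Co)) := by
    rintro l _ ⟨x, ⟨hx1, hx2⟩, rfl⟩
    have hxX := (hR l x hx1).1
    exact ⟨((hD.mem x hx2).1 hxX).2, fun l' hl' =>
      accR_of_accX_C hD (hRX l') ⟨hxX, hx2⟩ ((hR l x hx1).2 l' hl')⟩
  have hzK := (hD.mem z hz.2).1 hz.1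
  obtain ⟨D, hD1, hD2⟩ := h _ hgood (rad z) hzK.2 (fun l => accR_of_accX_C hD (hRX l) hz (hacc l))
  refine ⟨{z' | z' ∈ Di ∧ rad z' ∈ D}, ⟨?_, ?_⟩, hzK.1, hD2⟩
  · rintro x ⟨hx1, hx2⟩
    exact (hD.mem x (hD.sub hx1)).2 ⟨hx1, hD1.1 hx2⟩
  · rintro x ⟨hx1, hx2⟩
    exact accX_of_accR_C hD ⟨(hD.mem x (hD.sub hx1)).2 ⟨hx1, hD1.1 hx2⟩, hD.sub hx1⟩ (hD1.2 _ hx2)

end Pool.Agent.Lib.H37D
end
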