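import Pool.Agent.Lib.H1M.FF.M002
import Pool.Agent.Lib.H1M.FF.M003
import Pool.Agent.Lib.H1M.FF.M012
import Pool.Agent.Lib.H1M.FF.M014
import Pool.Agent.Lib.H1M.FF.M018
import Pool.Agent.Lib.H1M.FF.M019
import Pool.Agent.Lib.H1M.FF.M020
import Pool.Agent.Lib.H1M.FF.M024
import Pool.Agent.Lib.H1M.FF.M028
import Pool.Agent.Lib.H1M.FF.M030
import Pool.Agent.Lib.H1M.FF.M031
import Pool.Agent.Lib.H1M.FF.M034
import Pool.Agent.Lib.H1M.FF.M036
import Pool.Agent.Lib.H1M.FF.M038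
import Pool.Agent.Lib.H1M.FF.M042
import Pool.Agent.Lib.H1M.FF.M043
import Pool.Agent.Lib.H1M.FF.M045

/-! Merged copies (to shorten the build) of Lib.H37D.DH30, Lib.H37P.J01, Lib.H37D.DH84, Lib.H37P.Z25, Lib.H37D.DZ25, Lib.H37P.Z27, Lib.H37P.Z28. -/

-- from Lib.H37D.DH30
section

open TopologicalSpace Set Filter Topology
open scoped Manifold ContDiff
open Pool.Agent.Lib.Helper37.ConjBorel Pool.Agent.Lib.H37C

namespace Pool.Agent.Lib.H37D

/-- **DH30 (S).** Cut-off functions exist: a `ContDiffBump (0 : W)` with `rIn = r / 2`, `rOut = r`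
(`ContDiffBump.contDiff`, `ContDiffBump.nonneg`, `ContDiffBump.le_one`, `ContDiffBump.one_of_mem_closedBall`,
`ContDiffBump.zero_of_le_dist`). -/
theorem exists_cut {W : Type*} [NormedAddCommGroup W] [NormedSpace ℝ W] [FiniteDimensional ℝ W] {r : ℝ} (hr : 0 < r) :
    ∃ χ : W → ℝ, Cut χ r := by
  let b : ContDiffBump (0 : W) := ⟨r / 2, r, by linarith, by linarith⟩
  refine ⟨b, ⟨b.contDiff, fun w => b.nonneg, fun w => b.le_one, fun w hw => ?_, fun w hw => ?_⟩⟩
  · apply b.one_of_mem_closedBall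
    rw [mem_closedBall_zero_iff]
    exact hw
  · apply b.zero_of_le_dist
    rw [dist_zero_right]
    exact hw

end Pool.Agent.Lib.H37D
end

-- from Lib.H37P.J01
section

/-!
# H37N J01 (M): the leading coefficient can be made nonzero

`t ↦ (TT (0,t)).2` is smooth near `0` and `O(|t|^(m+1))`, so it is `κ t^(m+1) + O(|t|^(m+2))` (Taylor). If `κ ≠ 0`, `g' = g`. If `κ = 0`:
`Ψ(p,(X,y)) = (X, y + p (X-a)^(m+1) χ(X,y))`, `χ` a bump at `(a,0)` with support in the ball of radius `r/2`, `Place.family`, small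
`p ≠ 0`: `TT g' = Ψ_p (TT g)` near `0`, new coefficient `p α^(m+1)`, `α = ∂_t (TT (0,t)).1 ≠ 0` (`tt_deriv`). `TD g'` holds (`ψ (g z) = g z`).
-/

open Set Filter Topology Asymptotics
open scoped ContDiff

namespace Pool.Agent.Lib.H37N

/-- factoring out a power -/
theorem j01_had {f : ℝ → ℝ} (hf : ∀ᶠ t in 𝓝 (0 : ℝ), ContDiffAt ℝ ∞ f t) (n : ℕ)
    (h : f =O[𝓝 0] fun t => |t| ^ n) :
    ∃ G : ℝ → ℝ, ContDiff ℝ ∞ G ∧ ∀ᶠ t in 𝓝 (0 : ℝ), f t = t ^ n * G t := by
  obtain ⟨F, hF, hFf⟩ := localise_at hf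
  have h1 : F =O[𝓝 0] fun t : ℝ => t ^ n := by
    refine (hFf.trans_isBigO h).trans ?_
    refine IsBigO.of_bound 1 (Eventually.of_forall fun t => ?_)
    simp [abs_pow]
  obtain ⟨G, hG, hG1⟩ := hadamard_pow (P := ℝ) (W := ℝ) (F := fun q : ℝ × ℝ => F q.2)
    (hF.comp contDiff_snd) n (fun _ => h1)
  refine ⟨fun t => G (0, t), hG.comp (contDiff_const.prodMk contDiff_id), ?_⟩
  filter_upwards [hFf] with t ht
  rw [← ht]
  exact hG1 0 t

theorem j01_lead {f G : ℝ → ℝ} (n : ℕ) (hG : DifferentiableAt ℝ G 0)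
    (h : ∀ᶠ t in 𝓝 (0 : ℝ), f t = t ^ n * G t) :
    (fun t => f t - G 0 * t ^ n) =O[𝓝 0] fun t => |t| ^ (n + 1) := by
  have h1 : (fun t => G t - G 0) =O[𝓝 0] fun t => t - 0 := hG.hasFDerivAt.isBigO_sub
  have h2 : (fun t => t ^ n * (G t - G 0)) =O[𝓝 0] fun t : ℝ => t ^ n * (t - 0) :=
    (isBigO_refl _ _).mul h1
  have h3 : (fun t => f t - G 0 * t ^ n) =ᶠ[𝓝 0] fun t => t ^ n * (G t - G 0) := by
    filter_upwards [h] with t ht
    rw [ht]
    ring
  refine (h3.trans_isBigO h2).trans (IsBigO.of_bound 1 (Eventually.of_forall fun t => ?_))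
  rw [sub_zero, ← pow_succ]
  simp [abs_pow]






end Pool.Agent.Lib.H37N
end

-- from Lib.H37D.DH84
section

open TopologicalSpace Set Filter Topology
open scoped Manifold ContDiff
open Pool.Agent.Lib.Helper37.ConjBorel Pool.Agent.Lib.H37C Pool.Agent.Lib.H37N

namespace Pool.Agent.Lib.H37D

variable {d : ℕ} {M : Type*} [TopologicalSpace M] [ChartedSpace (Euc (d + 2)) M]

/-- the coordinates `(ζ, w)` -/
noncomputable def LE (d : ℕ) : Euc (d + 2) ≃L[ℝ] Euc 2 × Wd d :=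
  (LLd d).trans (P2.symm.prodCongr (ContinuousLinearEquiv.refl ℝ (Wd d)))

/-- **DH84 (M).** The bridge: from a centre spot of the local representation and a source to `CSpot`.

Proof. `κ` from `exists_kappa`, `L = LE d` (`L.symm v = (LLd d).symm (P2 v.1, v.2)`), `A', r₂` from `exists_AE`, `r₃ = 3`. For `v ∈ Bx 3`: `z = (P2 v.1, v.2) ∈ Bt d` (`norm_P2_le`; `‖z‖ ≤ 3 < 4`), so
`L.symm v ∈ κ.target` and `ptM κ L v = e.symm ((LLd d).symm (Θ z))`. `per`: `iter_loc` with `i = m`, `hC.lin`, `A' v.1 v.2 = A (P2 v.1) v.2`, and `(v.1, A' v.1 v.2) ∈ Bx 3`. `disj`: `iter_loc`, `symm_inj` (`hC.path`), `hC.disj`.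
`notin`: if `p = ptM κ L v`, then `LLd d (e p) = Θ z ∈ Omd d` (`omd_target`, `e.right_inv`), but `hp.out`. `src`: the set `C = ptM κ L '' {v ∈ Bx 3 | r₂ ≤ ‖v.2‖}` is compact (the image of a compact set under a map
which is continuous on it: `κ.symm` is continuous on its target); for its points `hp.src` with `w = v.2 ≠ 0`; `unif_of_pointwise` with `g = f.symm`, `hp.att`. -/
theorem cspot_of_local [T2Space M] [IsManifold (𝓡 (d + 2)) ∞ M] {e : OpenPartialHomeomorph M (Euc (d + 2))} {r : ℝ}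
    (he : BigCD e r) (hr : 4 ≤ r) {f : DiffInf (d + 2) M} (hL : LocalSpotD (locD e f)) {p : M} (hp : SrcAt e f p) :
    ∃ (m : ℕ) (κ : OpenPartialHomeomorph M (Euc (d + 2))) (L : Euc (d + 2) ≃L[ℝ] Euc 2 × Wd d)
      (A : Euc 2 → Wd d ≃L[ℝ] Wd d) (r₂ r₃ : ℝ), CSpot f m p κ L A r₂ r₃ := by
  obtain ⟨m, Θ, c, A, hC⟩ := hL
  obtain ⟨κ, hκ, hκt, hκs⟩ := exists_kappa he hr hC
  obtain ⟨A', r₂, h2, h23, hA1, hA2, hA3, hA4, hA5⟩ :=
    exists_AE hC.smooth_A.continuous hC.A_bij hC.A_le hC.A_close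
  have hsym : ∀ v : Euc 2 × Wd d, (LE d).symm v = (LLd d).symm (P2 v.1, v.2) := fun v => rfl
  have hn1 : ∀ v ∈ Bx (W := Wd d) 3, ‖P2 v.1‖ < 4 := fun v hv =>
    (norm_P2_le v.1).trans_lt (lt_of_le_of_lt hv.1 (by norm_num))
  have hn2 : ∀ v ∈ Bx (W := Wd d) 3, ‖v.2‖ < 4 := fun v hv => lt_of_le_of_lt hv.2 (by norm_num)
  have hB : ∀ v ∈ Bx (W := Wd d) 3, ((P2 v.1, v.2) : En d) ∈ Bt d := by
    intro v hv
    show _ ∈ Metric.ball _ _
    rw [mem_ball_zero_iff, Prod.norm_def]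
    exact max_lt (hn1 v hv) (hn2 v hv)
  have hpt : ∀ v ∈ Bx (W := Wd d) 3, ptM κ (LE d) v = e.symm ((LLd d).symm (Θ (P2 v.1, v.2))) := by
    intro v hv
    show κ.symm ((LE d).symm v) = _
    rw [hsym, hκs _ (hB v hv)]
  have hbig : ∀ v ∈ Bx (W := Wd d) 3, (LE d).symm v ∈ κ.target := by
    intro v hv
    rw [hsym]
    exact hκt _ (hB v hv)
  have hAv : ∀ v ∈ Bx (W := Wd d) 3, ((v.1, A' v.1 v.2) : Euc 2 × Wd d) ∈ Bx (W := Wd d) 3 := by
    intro v hv
    refine ⟨hv.1, (hA2 v.1 v.2).trans ?_⟩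
    have := hv.2
    have h0 := norm_nonneg v.2
    show 1 / 8 * ‖v.2‖ ≤ 3
    linarith
  refine ⟨m, κ, LE d, A', r₂, 3, ?_⟩
  exact
    { pos := hC.pos
      mem := hκ
      big := hbig
      r_pos := h2
      r_lt := h23
      cont_A := hA1
      A_le := hA2
      A_close := hA3
      per := by
        intro v hv
        rw [hpt v hv, hpt _ (hAv v hv), iter_loc hC (hB v hv) le_rfl, hC.lin _ _ (hn1 v hv) (hn2 v hv),
          hA5 _ hv.1]
      disj := by
        intro i hi0 hi v hv v' hv' h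
        rw [hpt v hv, hpt v' hv', iter_loc hC (hB v hv) hi.le] at h
        exact hC.disj i hi0 hi _ (hB v hv) _ (hB v' hv')
          (symm_inj he hr (hC.path _ (hB v hv) i hi.le) (hC.path _ (hB v' hv') 0 (Nat.zero_le _)) h)
      fund := hA4
      fix := hp.fix
      notin := by
        intro v hv h
        apply hp.out
        have h0 : Θ (P2 v.1, v.2) ∈ Omd d := hC.path _ (hB v hv) 0 (Nat.zero_le _)
        rw [← h, hpt v hv, e.right_inv (omd_target he hr h0), (LLd d).apply_symm_apply]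
        exact h0
      src := by
        have hcpt : IsCompact {v : Euc 2 × Wd d | v ∈ Bx (W := Wd d) 3 ∧ r₂ ≤ ‖v.2‖} := by
          have h1 : IsCompact (Metric.closedBall (0 : Euc 2) 3 ×ˢ Metric.closedBall (0 : Wd d) 3) :=
            (isCompact_closedBall _ _).prod (isCompact_closedBall _ _)
          have h2 : IsClosed {v : Euc 2 × Wd d | r₂ ≤ ‖v.2‖} :=
            isClosed_le continuous_const continuous_snd.norm
          refine (h1.inter_right h2).of_isClosed_subset ?_ ?_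
          · have h3 : {v : Euc 2 × Wd d | v ∈ Bx (W := Wd d) 3 ∧ r₂ ≤ ‖v.2‖} =
                {v | ‖v.1‖ ≤ 3} ∩ {v | ‖v.2‖ ≤ 3} ∩ {v | r₂ ≤ ‖v.2‖} := by
              ext v
              exact ⟨fun h => ⟨⟨h.1.1, h.1.2⟩, h.2⟩, fun h => ⟨⟨h.1.1, h.1.2⟩, h.2⟩⟩
            rw [h3]
            exact ((isClosed_le continuous_fst.norm continuous_const).inter
              (isClosed_le continuous_snd.norm continuous_const)).inter h2
          · intro v hv
            refine ⟨⟨?_, ?_⟩, hv.2⟩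
            · rw [mem_closedBall_zero_iff]; exact hv.1.1
            · rw [mem_closedBall_zero_iff]; exact hv.1.2
        have hcont : ContinuousOn (ptM κ (LE d)) {v : Euc 2 × Wd d | v ∈ Bx (W := Wd d) 3 ∧ r₂ ≤ ‖v.2‖} := by
          have h1 : ContinuousOn (fun v : Euc 2 × Wd d => (LE d).symm v)
              {v : Euc 2 × Wd d | v ∈ Bx (W := Wd d) 3 ∧ r₂ ≤ ‖v.2‖} := (LE d).symm.continuous.continuousOn
          exact κ.continuousOn_symm.comp h1 fun v hv => hbig v hv.1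
        have hK := hcpt.image_of_continuousOn hcont
        have hu := unif_of_pointwise (g := ⇑f.symm) f.symm.continuous hp.att hK (by
          rintro _ ⟨v, hv, rfl⟩
          rw [hpt v hv.1]
          refine hp.src m Θ c A hC _ _ (hn1 v hv.1) (hn2 v hv.1) ?_
          intro h0
          have := hv.2
          rw [h0, norm_zero] at this
          linarith)
        intro V hV
        obtain ⟨N, hN⟩ := hu V hV
        exact ⟨N, fun k hk v hv hr => hN k hk _ ⟨v, ⟨hv, hr⟩, rfl⟩⟩ }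

end Pool.Agent.Lib.H37D
end

-- from Lib.H37P.Z25
section

/-!
# H37N Z25 (M): the family of perturbations of Stage II

`χ_j` = smooth bump functions on the plane, `= 1` on `|X - X_j| ≤ ρ|hs|/5`, `|y| ≤ r1`, support in `|X - X_j| ≤ ρ|hs|/3`,
`|y| ≤ 2 r1`, `X_j = a + ρ hs dj (j+1)`; pairwise disjoint supports (`dj_sep`), all supports in the closed ball of radius
`min (r/2) (rF/2)` around `(a,0)` by the hypothesis on `ρ` and the choice of `r1`.
`Ψ(p,(X,y)) = (X, y + ∑_j χ_j(X,y) phS_j(p,X))` is smooth, `Ψ(0,v) = v` because `Nn(0,X) = 0` for `|X - a| < rF`.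
`Place.family`.
-/

open Set Filter Topology Asymptotics
open scoped ContDiff

namespace Pool.Agent.Lib.H37N

theorem z25_bump {r1 r2 : ℝ} (h1 : 0 < r1) (h2 : r1 < r2) : ∃ χ : ℝ → ℝ, ContDiff ℝ ∞ χ ∧
    (∀ x, |x| ≤ r1 → χ x = 1) ∧ ∀ x, r2 ≤ |x| → χ x = 0 := by
  let φ : ContDiffBump (0 : ℝ) := ⟨r1, r2, h1, h2⟩
  refine ⟨φ, φ.contDiff, fun x hx => ?_, fun x hx => ?_⟩
  · apply φ.one_of_mem_closedBall
    rw [mem_closedBall_zero_iff, Real.norm_eq_abs]
    exact hx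
  · apply φ.zero_of_le_dist
    rw [dist_zero_right, Real.norm_eq_abs]
    exact hx

theorem z25_dj_bound (e j : ℕ) : |dj e j| ≤ ((nb e : ℝ) - 1) / 2 := by
  have hpos : 0 < nb e := by unfold nb; omega
  have h1 : j % nb e < nb e := Nat.mod_lt _ hpos
  have h2 : ((j % nb e : ℕ) : ℝ) ≤ (nb e : ℝ) - 1 := by
    have h3 : j % nb e + 1 ≤ nb e := h1
    have h4 : ((j % nb e + 1 : ℕ) : ℝ) ≤ (nb e : ℝ) := Nat.cast_le.2 h3
    rw [Nat.cast_add, Nat.cast_one] at h4
    linarith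
  have h3 : (0 : ℝ) ≤ ((j % nb e : ℕ) : ℝ) := Nat.cast_nonneg _
  unfold dj
  rw [abs_le]
  constructor <;> linarith

theorem z25_qx_zero {n e : ℕ} (j i : ℕ) : qx (0 : QQ n e) j i = 0 := by
  unfold qx
  split_ifs <;> simp

theorem z25_qpoly_zero (e j : ℕ) (u : ℝ) : qpoly e 0 j u = 0 := by
  unfold qpoly
  simp [z25_qx_zero]

theorem z25_qx_smooth {n e : ℕ} (j i : ℕ) : ContDiff ℝ ∞ (fun q : QQ n e => qx q j i) := by
  unfold qx
  split_ifs with h
  · fun_prop
  · exact contDiff_const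




end Pool.Agent.Lib.H37N
end

-- from Lib.H37D.DZ25
section

/-! # H37D, chunk DZ25 (M): the family of perturbations of Stage II (port of H37P/Z25.lean) -/

open Set Filter Topology Asymptotics
open scoped ContDiff

namespace Pool.Agent.Lib.H37D

open Pool.Agent.Lib.H37N

variable {d : ℕ}

theorem dz25_bump (c : Wd d) {r1 r2 : ℝ} (h1 : 0 < r1) (h2 : r1 < r2) :
    ∃ χ : Wd d → ℝ, ContDiff ℝ ∞ χ ∧
      (∀ x, ‖x - c‖ ≤ r1 → χ x = 1) ∧ ∀ x, r2 ≤ ‖x - c‖ → χ x = 0 := by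
  let φ : ContDiffBump c := ⟨r1, r2, h1, h2⟩
  refine ⟨φ, φ.contDiff, fun x hx => ?_, fun x hx => ?_⟩
  · apply φ.one_of_mem_closedBall
    rw [Metric.mem_closedBall, dist_eq_norm]
    exact hx
  · apply φ.zero_of_le_dist
    rw [dist_eq_norm]
    exact hx

/-- PROOF. As `z25_phS_smooth` (H37P/Z25.lean) with `contDiff_mulw` (DZ20) for the argument of `f.Th`. -/
theorem dz25_phS_smooth (e : ℕ) (s : FrD d) {f : PFD d} (hTh : ContDiff ℝ ∞ f.Th) {Nn : (ℝ × Wd d) × ℝ → ℝ}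
    (hNn : ContDiff ℝ ∞ Nn) (a b hs c0 τ ρ : ℝ) (j : ℕ) :
    ContDiff ℝ ∞ (fun z : PSD e d × (ℝ × Wd d) => phSD e s f Nn a b hs c0 τ ρ j z.1 z.2.1 z.2.2) := by
  have hu : ContDiff ℝ ∞ (fun z : PSD e d × (ℝ × Wd d) =>
      (z.2.1 - a) / (ρ * hs) - dj e (j + 1)) :=
    (((contDiff_fst.comp contDiff_snd).sub contDiff_const).div_const _).sub contDiff_const
  have hX : ContDiff ℝ ∞ (fun z : PSD e d × (ℝ × Wd d) => z.2.1) := by fun_prop
  have hw : ContDiff ℝ ∞ (fun z : PSD e d × (ℝ × Wd d) => z.2.2) := by fun_prop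
  have p0 : ContDiff ℝ ∞ (fun z : PSD e d × (ℝ × Wd d) => z.1.1) := by fun_prop
  have p1 : ContDiff ℝ ∞ (fun z : PSD e d × (ℝ × Wd d) => z.1.2.1) := by fun_prop
  have p2 : ContDiff ℝ ∞ (fun z : PSD e d × (ℝ × Wd d) => z.1.2.2.1) := by fun_prop
  have p3 : ContDiff ℝ ∞ (fun z : PSD e d × (ℝ × Wd d) => z.1.2.2.2.1) := by fun_prop
  have p4 : ContDiff ℝ ∞ (fun z : PSD e d × (ℝ × Wd d) => z.1.2.2.2.2.1) := by fun_prop
  have p5 : ContDiff ℝ ∞ (fun z : PSD e d × (ℝ × Wd d) => z.1.2.2.2.2.2.1) := by fun_prop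
  have p6 : ContDiff ℝ ∞ (fun z : PSD e d × (ℝ × Wd d) => z.1.2.2.2.2.2.2) := by fun_prop
  have h1 : ContDiff ℝ ∞ (fun z : PSD e d × (ℝ × Wd d) => Nn ((z.1.1, z.1.2.1), z.2.1)) :=
    hNn.comp ((p0.prodMk p1).prodMk hX)
  have h3 : ContDiff ℝ ∞ (fun z : PSD e d × (ℝ × Wd d) =>
      f.Th (z.1.2.2.2.1 * z.2.1, mulw z.1.2.2.2.2.1 z.2.2)) :=
    hTh.comp ((p3.mul hX).prodMk (contDiff_mulw p4 hw))
  have hq : ContDiff ℝ ∞ (fun z : PSD e d × (ℝ × Wd d) =>
      qpoly e z.1.2.2.2.2.2.2 j ((z.2.1 - a) / (ρ * hs) - dj e (j + 1))) := by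
    unfold qpoly
    refine ContDiff.sum fun i _ => ?_
    exact ((z25_qx_smooth j i).comp p6).mul (hu.pow i)
  have hqt : ContDiff ℝ ∞ (fun z : PSD e d × (ℝ × Wd d) =>
      qt e τ 0 j ((z.2.1 - a) / (ρ * hs) - dj e (j + 1))) := by
    unfold qt
    simp only [z25_qpoly_zero, add_zero]
    exact contDiff_const.add (contDiff_const.mul hu)
  unfold phSD
  exact ((h1.neg.add (p2.mul (contDiff_const.add h3))).add
    (p5.mul (contDiff_const.add (contDiff_const.mul hqt)))).add (contDiff_const.mul hq)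

theorem dz25_phS_zero (e : ℕ) (s : FrD d) (f : PFD d) {Nn : (ℝ × Wd d) × ℝ → ℝ} (a b hs c0 τ ρ : ℝ) (j : ℕ) {X : ℝ}
    (w : Wd d) (hX : Nn ((0, 0), X) = 0) : phSD e s f Nn a b hs c0 τ ρ j 0 X w = 0 := by
  unfold phSD
  have e1 : (0 : PSD e d).1 = 0 := rfl
  have e2 : (0 : PSD e d).2.1 = 0 := rfl
  have e3 : (0 : PSD e d).2.2.1 = 0 := rfl
  have e6 : (0 : PSD e d).2.2.2.2.2.1 = 0 := rfl
  have e7 : (0 : PSD e d).2.2.2.2.2.2 = 0 := rfl
  rw [e1, e2, e3, e6, e7, hX, z25_qpoly_zero]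
  ring

/-- The family.

PROOF. As in H37P/Z25.lean with one more bump function: χ1 (X - X_j) (radii ρ|hs|/5, ρ|hs|/3), χ2 (y) (radii r/8, r/4), χ3 (w) : `ContDiffBump wT` in Wd d with the radii r/4, r/2
(`one_of_mem_closedBall`, `zero_of_le_dist`); X_j = a + ρ hs dj (j+1), pairwise distance ≥ ρ|hs| (`dj_sep`).
Ψ (p,((X,y),w)) = ((X, y + ∑_j χ1 (X - X_j) χ2 y χ3 w phSD_j(p,X,w)), w) is smooth; Ψ (0,v) = v because Nn ((0,0),X) = 0 for |X - a| < rF; it is the identity off the closed ball of radius r/2 around ((a,0),wT)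
(χ3 w = 0 for ‖w - wT‖ ≥ r/2).  `PlaceD.family` (DP05).  r1 = r/8.  The point v is in the open ball of radius r/2: |v.1.1 - a| < ρ|hs|(nb e + 1) < r/2 (`z25_dj_bound`), |v.1.2| ≤ r/8, ‖v.2 - wT‖ ≤ r/4. -/
theorem family_SD {g : En d → En d} {s : FrD d} {Z : Set (En d)} {b a : ℝ} {wT : Wd d} {k l : ℕ} {r : ℝ}
    {D B : Set (En d)} {Li : En d → En d} (hp : PlaceD g s Z b a wT k l r D B Li) {f : PFD d}
    (hTh : ContDiff ℝ ∞ f.Th) {Nn : (ℝ × Wd d) × ℝ → ℝ} (hNn : ContDiff ℝ ∞ Nn) {rF : ℝ} (hrF : 0 < rF)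
    (hN0 : ∀ X : ℝ, |X - a| < rF → Nn ((0, 0), X) = 0) (e : ℕ) {hs c0 τ ρ : ℝ} (hhs : hs ≠ 0)
    (hρ : 0 < ρ) (hρr : ρ * |hs| * (nb e + 1) < r / 2) (hρF : ρ * |hs| * (nb e + 1) < rF) (R : ℕ) :
    ∃ r1 > 0, ∀ ε > 0, ∀ᶠ p in 𝓝 (0 : PSD e d), ∃ ψ : En d → En d, SmallD R ε ψ ∧ AdmD D ψ ∧
      ∀ j < nb e, ∀ v : En d, |v.1.1 - (a + ρ * hs * dj e (j + 1))| ≤ ρ * |hs| / 5 → |v.1.2| ≤ r1 →
        ‖v.2 - wT‖ ≤ r / 4 →
        v ∈ Metric.ball (((a, 0), wT) : En d) (r / 2) ∧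
        PlD g s l (ψ (Li v)) = ((v.1.1, v.1.2 + phSD e s f Nn a b hs c0 τ ρ j p v.1.1 v.2), v.2) := by
  have hr := hp.r_pos
  set w : ℝ := ρ * |hs| with hw
  have hwpos : 0 < w := mul_pos hρ (abs_pos.2 hhs)
  set Xc : ℕ → ℝ := fun j => a + ρ * hs * dj e (j + 1) with hXc
  have hnb1 : (1 : ℝ) ≤ (nb e : ℝ) := by
    have : 1 ≤ nb e := by unfold nb; omega
    exact_mod_cast this
  have habs : ∀ j, |Xc j - a| ≤ w * (((nb e : ℝ) - 1) / 2) := by
    intro j
    have h1 : Xc j - a = ρ * hs * dj e (j + 1) := by simp [hXc]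
    rw [h1, abs_mul, abs_mul, abs_of_pos hρ]
    exact mul_le_mul_of_nonneg_left (z25_dj_bound e (j + 1)) hwpos.le
  -- a point close to a centre is close to a
  have hclose : ∀ (j : ℕ) (X : ℝ), |X - Xc j| ≤ w / 3 → |X - a| < w * ((nb e : ℝ) + 1) := by
    intro j X hX
    have h1 : |X - a| ≤ |X - Xc j| + |Xc j - a| := abs_sub_le _ _ _
    have h2 := habs j
    nlinarith
  obtain ⟨χ1, hχ1, hχ1one, hχ1zero⟩ := z25_bump (r1 := w / 5) (r2 := w / 3) (by positivity) (by linarith)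
  obtain ⟨χ2, hχ2, hχ2one, hχ2zero⟩ := z25_bump (r1 := r / 8) (r2 := r / 4) (by positivity) (by linarith)
  obtain ⟨χ3, hχ3, hχ3one, hχ3zero⟩ := dz25_bump wT (r1 := r / 4) (r2 := r / 2) (by positivity) (by linarith)
  set Ψ : PSD e d × En d → En d := fun z => ((z.2.1.1, z.2.1.2 + ∑ j ∈ Finset.range (nb e),
    (χ1 (z.2.1.1 - Xc j) * χ2 z.2.1.2 * χ3 z.2.2) *
      phSD e s f Nn a b hs c0 τ ρ j z.1 z.2.1.1 z.2.2), z.2.2) with hΨdef
  have hΨ : ContDiff ℝ ∞ Ψ := by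
    refine ContDiff.prodMk (ContDiff.prodMk (by fun_prop)
      (ContDiff.add (by fun_prop) (ContDiff.sum fun j _ => ?_))) (by fun_prop)
    have h1 : ContDiff ℝ ∞ (fun z : PSD e d × En d => z.2.1.1 - Xc j) := by fun_prop
    have h2 : ContDiff ℝ ∞ (fun z : PSD e d × En d => z.2.1.2) := by fun_prop
    have h2' : ContDiff ℝ ∞ (fun z : PSD e d × En d => z.2.2) := by fun_prop
    have h3 : ContDiff ℝ ∞ (fun z : PSD e d × En d => (z.1, (z.2.1.1, z.2.2))) := by fun_prop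
    exact (((hχ1.comp h1).mul (hχ2.comp h2)).mul (hχ3.comp h2')).mul
      ((dz25_phS_smooth e s hTh hNn a b hs c0 τ ρ j).comp h3)
  have h0 : ∀ v, Ψ (0, v) = v := by
    intro v
    have hz : ∑ j ∈ Finset.range (nb e), (χ1 (v.1.1 - Xc j) * χ2 v.1.2 * χ3 v.2) *
        phSD e s f Nn a b hs c0 τ ρ j 0 v.1.1 v.2 = 0 := by
      refine Finset.sum_eq_zero fun j _ => ?_
      by_cases hX : w / 3 ≤ |v.1.1 - Xc j|
      · rw [hχ1zero _ hX]
        ring
      · have h1 := hclose j v.1.1 (not_le.1 hX).le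
        rw [dz25_phS_zero e s f a b hs c0 τ ρ j v.2 (hN0 _ (h1.trans hρF))]
        ring
    show ((v.1.1, v.1.2 + _), v.2) = v
    rw [hz, add_zero]
  have hsupp : ∀ (p : PSD e d) (v : En d),
      v ∉ Metric.closedBall (((a, 0), wT) : En d) (r / 2) → Ψ (p, v) = v := by
    intro p v hv
    have hz : ∑ j ∈ Finset.range (nb e), (χ1 (v.1.1 - Xc j) * χ2 v.1.2 * χ3 v.2) *
        phSD e s f Nn a b hs c0 τ ρ j p v.1.1 v.2 = 0 := by
      refine Finset.sum_eq_zero fun j _ => ?_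
      by_cases hX : w / 3 ≤ |v.1.1 - Xc j|
      · rw [hχ1zero _ hX]
        ring
      · have h1 := hclose j v.1.1 (not_le.1 hX).le
        by_cases hY : r / 4 ≤ |v.1.2|
        · rw [hχ2zero _ hY]
          ring
        · by_cases hW : r / 2 ≤ ‖v.2 - wT‖
          · rw [hχ3zero _ hW]
            ring
          · exfalso
            apply hv
            rw [Metric.mem_closedBall, Prod.dist_eq, Prod.dist_eq]
            refine max_le (max_le ?_ ?_) ?_
            · show dist v.1.1 a ≤ r / 2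
              rw [Real.dist_eq]
              linarith
            · show dist v.1.2 0 ≤ r / 2
              rw [Real.dist_eq, sub_zero]
              linarith [not_le.1 hY]
            · show dist v.2 wT ≤ r / 2
              rw [dist_eq_norm]
              exact (not_le.1 hW).le
    show ((v.1.1, v.1.2 + _), v.2) = v
    rw [hz, add_zero]
  refine ⟨r / 8, by positivity, fun ε hε => ?_⟩
  filter_upwards [hp.family Ψ hΨ h0 hsupp R hε] with p hψ
  obtain ⟨ψ, hS, hA, hP⟩ := hψ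
  refine ⟨ψ, hS, hA, fun j hj v hv1 hv2 hv3 => ?_⟩
  have hv1' : |v.1.1 - Xc j| ≤ w / 5 := hv1
  have h1 := hclose j v.1.1 (hv1'.trans (by linarith))
  have hball : v ∈ Metric.ball (((a, 0), wT) : En d) (r / 2) := by
    rw [Metric.mem_ball, Prod.dist_eq, Prod.dist_eq]
    refine max_lt (max_lt ?_ ?_) ?_
    · show dist v.1.1 a < r / 2
      rw [Real.dist_eq]
      linarith
    · show dist v.1.2 0 < r / 2
      rw [Real.dist_eq, sub_zero]
      linarith
    · show dist v.2 wT < r / 2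
      rw [dist_eq_norm]
      linarith
  refine ⟨hball, ?_⟩
  rw [hP v (Metric.ball_subset_ball (by linarith) hball)]
  have hsum : ∑ i ∈ Finset.range (nb e), (χ1 (v.1.1 - Xc i) * χ2 v.1.2 * χ3 v.2) *
      phSD e s f Nn a b hs c0 τ ρ i p v.1.1 v.2 =
      phSD e s f Nn a b hs c0 τ ρ j p v.1.1 v.2 := by
    rw [Finset.sum_eq_single j]
    · rw [hχ1one _ hv1', hχ2one _ hv2, hχ3one _ hv3]
      ring
    · intro i hi hij
      have hi' : i < nb e := Finset.mem_range.1 hi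
      have hmod : (i + 1) % nb e ≠ (j + 1) % nb e := by
        intro h
        have hm : (i + 1) ≡ (j + 1) [MOD nb e] := h
        have hm2 : i ≡ j [MOD nb e] := Nat.ModEq.add_right_cancel' 1 hm
        exact hij (Nat.ModEq.eq_of_lt_of_lt hm2 hi' hj)
      have hsep := dj_sep e hmod
      have h2 : w ≤ |Xc i - Xc j| := by
        have h3 : Xc i - Xc j = ρ * hs * (dj e (i + 1) - dj e (j + 1)) := by
          simp only [hXc]
          ring
        rw [h3, abs_mul, abs_mul, abs_of_pos hρ]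
        have := mul_le_mul_of_nonneg_left hsep hwpos.le
        linarith
      have h4 : |Xc i - Xc j| ≤ |v.1.1 - Xc i| + |v.1.1 - Xc j| := by
        have := abs_sub_le (Xc i) v.1.1 (Xc j)
        rwa [abs_sub_comm (Xc i) v.1.1] at this
      rw [hχ1zero _ (by linarith)]
      ring
    · intro hn
      exact absurd (Finset.mem_range.2 hj) hn
  show ((v.1.1, v.1.2 + _), v.2) = _
  rw [hsum]

end Pool.Agent.Lib.H37D
end

-- from Lib.H37P.Z27
section

/-!
# H37N Z27 (L): the perturbed map with the return map `sto`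

Data: a place, pass functions, a flat arc with `s0 ≠ 0`; `g ∈ U`, `U` PertOpen `R`. `B0 = d_S/(detDS detDT)`-like: `B0` is the positive
number with `B0 Y1(0) h'(0) Γ(0) = -1` (`Y1(0) > 0`, `h'(0) Γ(0) < 0`). `stageII_local` with `ρ1` so small that the
hypotheses on `ρ` of `family_S` hold and all base regions `|X - X_j| ≤ ρ|hs|/5`, `|U - ρ dj| ≤ ρ/5` are in `|X| ≤ 1`, `|U+b| ≤ 1`, and
`(0,U)` in `B ∩ ball 0 rF`. Then `(n,m)` from `exists_nm`, large: `‖epsv‖ < η`, the parameters `p` of `family_S` are small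
(`q` is bounded by `1`), `(ξ,η) ∈ B ∩ ball 0 rF` on the base regions (uniformly close to `(0,U)`), the second
coordinate of `TT` is `< r1`. So for every `j` and every `V` in the base region of the block `j` whose image `stp j V` has its
first coordinate in the base region of `j+1`: the step is realised (`block_step`, `family_S`). The statement is
formulated for a further admissible perturbation `χ` (the flat correction of S28) which acts trivially on the
points with first coordinate in the base regions `j+1 < N`: the total perturbation is `χ ∘ ψ`.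
-/

open Set Filter Topology Asymptotics
open scoped ContDiff

namespace Pool.Agent.Lib.H37N

theorem z27_dj_abs (e j : ℕ) : |dj e j| ≤ (nb e : ℝ) / 2 := by
  have hN : 0 < nb e := by unfold nb; omega
  have h1 : j % nb e < nb e := Nat.mod_lt _ hN
  have h2 : ((j % nb e : ℕ) : ℝ) + 1 ≤ (nb e : ℝ) := by exact_mod_cast h1
  have h3 : (0 : ℝ) ≤ ((j % nb e : ℕ) : ℝ) := Nat.cast_nonneg _
  unfold dj
  rw [abs_le]
  constructor <;> linarith

theorem z27_qpoly_zero (e j : ℕ) (w : ℝ) : qpoly e (0 : QQ (e + 3) e) j w = 0 := by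
  unfold qpoly
  refine Finset.sum_eq_zero fun i _ => ?_
  have h3 := qx_smul (0 : QQ (e + 3) e) 0 j i
  rw [smul_zero, zero_mul] at h3
  rw [h3, zero_mul]

theorem z27_qpoly_smul (e j : ℕ) (c : ℝ) (q : QQ (e + 3) e) (w : ℝ) :
    qpoly e (c • q) j w = c * qpoly e q j w := by
  unfold qpoly
  rw [Finset.mul_sum]
  refine Finset.sum_congr rfl fun i _ => ?_
  rw [qx_smul]
  ring









theorem z27_contDiff_Qj (e : ℕ) (a hs c0 τ ρ : ℝ) (q : QQ (e + 3) e) (j : ℕ) :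
    ContDiff ℝ ∞ (Qj e a hs c0 τ ρ q j) := by
  unfold Qj qt qpoly
  have h1 : ContDiff ℝ ∞ fun X : ℝ => (X - a) / (ρ * hs) - dj e (j + 1) := by fun_prop
  have h2 : ContDiff ℝ ∞ fun X : ℝ => ∑ i ∈ Finset.range (e + 1),
      qx q j i * ((X - a) / (ρ * hs) - dj e (j + 1)) ^ i :=
    ContDiff.sum fun i _ => contDiff_const.mul (h1.pow i)
  exact contDiff_const.add (contDiff_const.mul ((contDiff_const.add
    (contDiff_const.mul h1)).add h2))





end Pool.Agent.Lib.H37N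
end

-- from Lib.H37P.Z28
section

/-!
# H37N Z28 (M): the spot

`e = R + 1`. `realize` gives `ψ, K, Y, S, V0, ...`; `S N V0 = V0` (the `O`-estimate at `V0`). `Ret = Y ∘ S N ∘ Yi` near `v0 = Y V0`: smooth,
`Ret v - v = O(|v - v0|^(R+2))`, so its derivative at `v0` is the identity, it has a smooth local inverse `Gh`, `Gh v - v =
O(|v - v0|^(R+2))`. `Place.flat` with `O` from `realize` gives `χ ∈ Small R ε1`, `ε1` from `PertOpen` for `ψ ∘ g`: `χ ∘ ψ ∘ g ∈ U`, and `χ` acts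
trivially on `Y (W j)`, `0 < j < N`. Then for `V` near `V0`: `((χ∘ψ)∘g)^[N K] (κP (Y V)) = κP (Gh (Y (S N V))) = κP (Y V)`. The set
`{κP (Y V)}`, `V` near `V0`, is open (`κP` is open on `Bx`). The orbits are in `VO ∪ Z ⊆ Om`.
-/

open Set Filter Topology Asymptotics
open scoped ContDiff

namespace Pool.Agent.Lib.H37N


/-- a flat map has a flat inverse -/
theorem z28_inv {F : Pt → Pt} {v0 : Pt} {m : ℕ} (hm : 1 < m) (hF : ContDiff ℝ ∞ F) (h0 : F v0 = v0)
    (hO : (fun v : Pt => F v - v) =O[𝓝 v0] (fun v => ‖v - v0‖ ^ m)) :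
    ∃ G : Pt → Pt, ContDiff ℝ ∞ G ∧ (∀ᶠ v in 𝓝 v0, G (F v) = v) ∧
      (fun v => G v - v) =O[𝓝 v0] fun v => ‖v - v0‖ ^ m := by
  have hd : HasFDerivAt F (ContinuousLinearMap.id ℝ Pt) v0 := by
    have h1 : HasFDerivAt (fun v => F v - v) (0 : Pt →L[ℝ] Pt) v0 := hO.hasFDerivAt hm
    have h2 := h1.add (hasFDerivAt_id (𝕜 := ℝ) v0)
    rw [zero_add] at h2
    refine h2.congr_of_eventuallyEq (Eventually.of_forall fun v => ?_)
    simp
  have hb : Function.Bijective (fderiv ℝ F v0) := by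
    rw [hd.fderiv]
    exact Function.bijective_id
  obtain ⟨G, hG, hG0, hG1, hG2⟩ := inverse_fun (Eventually.of_forall fun x => hF.contDiffAt) hb
  rw [h0] at hG0 hG2
  refine ⟨G, hG, hG1, ?_⟩
  have ht : Tendsto G (𝓝 v0) (𝓝 v0) := by
    have := hG.continuous.tendsto v0
    rwa [hG0] at this
  have hA : (fun v : Pt => F (G v) - G v) =O[𝓝 v0] (fun v => ‖G v - v0‖ ^ m) := hO.comp_tendsto ht
  have hB : (fun v : Pt => G v - v) =O[𝓝 v0] (fun v => ‖G v - v0‖ ^ m) := by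
    have h1 : (fun v : Pt => G v - v) =ᶠ[𝓝 v0] fun v => -(F (G v) - G v) := by
      filter_upwards [hG2] with v hv
      rw [hv]
      abel
    exact h1.trans_isBigO hA.neg_left
  have hC : (fun v : Pt => G v - v0) =O[𝓝 v0] (fun v => v - v0) := by
    have := (hG.differentiable (by simp) v0).hasFDerivAt.isBigO_sub
    simpa only [hG0] using this
  exact hB.trans ((hC.norm_norm).pow m)


end Pool.Agent.Lib.H37N
end
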