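import Pool.Agent.Lib.H1M.FF.M020
import Pool.Agent.Lib.H1M.FF.M024
import Pool.Agent.Lib.H1M.FF.M025
import Pool.Agent.Lib.H1M.FF.M028
import Pool.Agent.Lib.H1M.FF.M034
import Pool.Agent.Lib.H1M.FF.M043
import Pool.Agent.Lib.H1M.FF.M045

/-! Merged copies (to shorten the build) of Lib.H37D.DP10, Lib.H37D.DI1c, Lib.H37D.IParD, Lib.H37D.DI2e. -/

-- from Lib.H37D.DP10
section

/-!
# H37D DP10 (M): density and the parameters tend to their limits (port of H37P/P10.lean)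

`Rates` for the four numbers from `IsFrD.rates`, `IsFrD.R1`, `IsFrD.irr` (DB20), `density_seq` (H37N/I1b). The scalar parameters as in P10. The vector parameters, coordinate by coordinate
(`tendsto_pi_nhds`, finitely many coordinates), with `0 < al k < 101/10^9`:
* `al_P^n → 0`; `w⁰ = al_Q^m wS → 0`;
* `E lam_Q^m al_P^n = B (al_P/lam_P)^n`, `B → B0`, `al_P/lam_P < 1`;
* `E lam_P^n al_Q^m = B (al_Q/lam_Q)^m → 0`;
* `mu_P^n al_Q^m = (mu_P^n lam_Q^m) (al_Q/lam_Q)^m → 0`;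
* `mu_Q^m al_Q^m = (mu_Q al_Q)^m → 0`; `mu_P^n al_P^n = (mu_P al_P)^n → 0`.
-/

open Set Filter Topology Asymptotics
open scoped ContDiff

namespace Pool.Agent.Lib.H37D

open Pool.Agent.Lib.H37N

variable {d : ℕ}

theorem IsFrD.toRates {g : En d → En d} {s : FrD d} (hs : IsFrD g s) :
    Rates (s.lam Sy.P) (s.mu Sy.P) (s.lam Sy.Q) (s.mu Sy.Q) := by
  obtain ⟨h1, h2, h3, h4, h5, h6, h7, h8⟩ := hs.rates
  exact ⟨h1, h2, h5, h3, h4, h6, h7, h8, hs.R1, hs.irr⟩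

theorem dp10_pow {c : ℝ} (h0 : 0 ≤ c) (h1 : c < 1) {n : ℕ → ℕ} (hn : Tendsto n atTop atTop) :
    Tendsto (fun j => c ^ (n j)) atTop (𝓝 0) :=
  (tendsto_pow_atTop_nhds_zero_of_lt_one h0 h1).comp hn

theorem exists_nmD {g : En d → En d} {s : FrD d} (hs : IsFrD g s) {B0 : ℝ} (hB : 0 < B0) :
    ∃ n m : ℕ → ℕ, Tendsto n atTop atTop ∧ Tendsto m atTop atTop ∧
      Tendsto (fun j => BBD g s (n j) (m j)) atTop (𝓝 B0) ∧
      Tendsto (fun j => e1D s (n j)) atTop (𝓝 0) ∧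
      Tendsto (fun j => e2D g s (m j)) atTop (𝓝 0) ∧
      Tendsto (fun j => e4D s (n j) (m j)) atTop (𝓝 0) ∧
      Tendsto (fun j => xi0D s (m j)) atTop (𝓝 0) ∧
      Tendsto (fun j => EED g s (n j) (m j)) atTop atTop ∧
      Tendsto (fun j => s.mu Sy.P ^ (n j)) atTop atTop ∧
      Tendsto (fun j => epsW g s (n j) (m j)) atTop (𝓝 0) := by
  have hr := hs.toRates
  have hd : 0 < dSD g s := hs.sdata.d_pos
  obtain ⟨n, m, hn, hm, h1, h2⟩ := density_seq hr hd hB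
  have hP : Tendsto (fun j => s.mu Sy.P ^ (n j)) atTop atTop :=
    (tendsto_pow_atTop_atTop_of_one_lt hr.mP_gt).comp hn
  have hQ : Tendsto (fun j => s.mu Sy.Q ^ (m j)) atTop atTop :=
    (tendsto_pow_atTop_atTop_of_one_lt hr.mQ_gt).comp hm
  have hB1 : Tendsto (fun j => BBD g s (n j) (m j)) atTop (𝓝 B0) := h1
  have h4 : Tendsto (fun j => e4D s (n j) (m j)) atTop (𝓝 0) := h2
  have lP := hr.lP_pos
  have lQ := hr.lQ_pos
  have mP := hr.mP_gt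
  have mQ := hr.mQ_gt
  have lP1 := hr.lP_lt
  have lQ1 := hr.lQ_lt
  refine ⟨n, m, hn, hm, h1, dp10_pow lP.le lP1 hn, ?_, h2, ?_, ?_, hP, ?_⟩
  · have h3 : Tendsto (fun j => dSD g s * s.mu Sy.Q ^ (m j)) atTop atTop :=
      hQ.const_mul_atTop hd
    have h4 := h3.inv_tendsto_atTop
    refine h4.congr fun j => ?_
    simp only [Pi.inv_apply, e2D, one_div]
  · have h3 := (dp10_pow lQ.le lQ1 hm).mul_const s.sS
    rw [zero_mul] at h3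
    exact h3
  · exact (hP.const_mul_atTop hd).atTop_mul_atTop₀ hQ
  · have key : ∀ k : Fin d, ∀ (i j : Sy), 0 ≤ s.al i k ∧ s.al i k < 1 ∧ 0 ≤ s.al i k / s.lam j ∧
        s.al i k / s.lam j < 1 ∧ 0 ≤ s.mu j * s.al i k ∧ s.mu j * s.al i k < 1 := by
      intro k i j
      obtain ⟨a1, a2, a3, a4⟩ := hs.strong i j k
      have l0 : 0 < s.lam j := by cases j <;> assumption
      have m0 : 1 < s.mu j := by cases j <;> assumption
      refine ⟨a1.le, by linarith, by positivity, ?_, by positivity, ?_⟩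
      · rw [div_lt_one l0]
        linarith
      · rw [mul_comm]
        linarith
    rw [tendsto_pi_nhds]
    intro i
    rw [tendsto_pi_nhds]
    intro k
    have kPP := key k Sy.P Sy.P
    have kQQ := key k Sy.Q Sy.Q
    have kQP := key k Sy.Q Sy.P
    have t1 := dp10_pow kPP.1 kPP.2.1 hn
    have t2 := dp10_pow kPP.2.2.1 kPP.2.2.2.1 hn
    have t3 := dp10_pow kPP.2.2.2.2.1 kPP.2.2.2.2.2 hn
    have u1 := dp10_pow kQQ.1 kQQ.2.1 hm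
    have u2 := dp10_pow kQQ.2.2.1 kQQ.2.2.2.1 hm
    have u3 := dp10_pow kQQ.2.2.2.2.1 kQQ.2.2.2.2.2 hm
    fin_cases i
    · exact t1
    · have h3 := hB1.mul t2
      rw [mul_zero] at h3
      refine h3.congr fun j => ?_
      show dSD g s * (s.lam Sy.P * s.mu Sy.P) ^ n j * (s.lam Sy.Q * s.mu Sy.Q) ^ m j *
        (s.al Sy.P k / s.lam Sy.P) ^ n j = dSD g s * s.mu Sy.P ^ n j * s.mu Sy.Q ^ m j *
          s.lam Sy.Q ^ m j * s.al Sy.P k ^ n j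
      rw [div_pow, mul_pow, mul_pow]
      field_simp
    · have h3 := u1.mul_const (s.wS k)
      rw [zero_mul] at h3
      exact h3
    · have h3 := hB1.mul u2
      rw [mul_zero] at h3
      refine h3.congr fun j => ?_
      show dSD g s * (s.lam Sy.P * s.mu Sy.P) ^ n j * (s.lam Sy.Q * s.mu Sy.Q) ^ m j *
        (s.al Sy.Q k / s.lam Sy.Q) ^ m j = dSD g s * s.mu Sy.P ^ n j * s.mu Sy.Q ^ m j *
          s.lam Sy.P ^ n j * s.al Sy.Q k ^ m j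
      rw [div_pow, mul_pow, mul_pow]
      field_simp
    · have h3 := h4.mul u2
      rw [mul_zero] at h3
      refine h3.congr fun j => ?_
      show s.mu Sy.P ^ n j * s.lam Sy.Q ^ m j * (s.al Sy.Q k / s.lam Sy.Q) ^ m j =
        s.mu Sy.P ^ n j * s.al Sy.Q k ^ m j
      rw [div_pow]
      field_simp
    · refine u3.congr fun j => ?_
      show (s.mu Sy.Q * s.al Sy.Q k) ^ m j = s.mu Sy.Q ^ m j * s.al Sy.Q k ^ m j
      rw [mul_pow]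
    · refine t3.congr fun j => ?_
      show (s.mu Sy.P * s.al Sy.P k) ^ n j = s.mu Sy.P ^ n j * s.al Sy.P k ^ n j
      rw [mul_pow]

/-- all the parameters of the pass tend to `0` (from `exists_nmD`, coordinate by coordinate) -/
theorem epsD_tendsto {g : En d → En d} {s : FrD d} {B0 : ℝ} {n m : ℕ → ℕ}
    (h1 : Tendsto (fun j => BBD g s (n j) (m j)) atTop (𝓝 B0))
    (h2 : Tendsto (fun j => e1D s (n j)) atTop (𝓝 0))
    (h3 : Tendsto (fun j => e2D g s (m j)) atTop (𝓝 0))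
    (h4 : Tendsto (fun j => e4D s (n j) (m j)) atTop (𝓝 0))
    (h5 : Tendsto (fun j => xi0D s (m j)) atTop (𝓝 0))
    (h6 : Tendsto (fun j => EED g s (n j) (m j)) atTop atTop)
    (h7 : Tendsto (fun j => epsW g s (n j) (m j)) atTop (𝓝 0)) :
    Tendsto (fun j => epsD g s B0 (n j) (m j)) atTop (𝓝 0) := by
  have h8 : Tendsto (fun j => (![e1D s (n j), e2D g s (m j), e4D s (n j) (m j),
      (EED g s (n j) (m j))⁻¹, xi0D s (m j), BBD g s (n j) (m j) - B0] : E6)) atTop (𝓝 0) := by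
    rw [tendsto_pi_nhds]
    intro i
    fin_cases i
    · exact h2
    · exact h3
    · exact h4
    · exact h6.inv_tendsto_atTop
    · exact h5
    · have h9 := h1.sub_const B0
      rw [sub_self] at h9
      exact h9
  exact h8.prodMk_nhds h7

end Pool.Agent.Lib.H37D
end

-- from Lib.H37D.DI1c
section

/-! # H37D, DI1c: the parameters of the passes (with sigma = E^(-1/m)) tend to 0 -/

open Set Filter Topology
open scoped ContDiff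

namespace Pool.Agent.Lib.H37D

open Pool.Agent.Lib.H37N

variable {d : ℕ}

/-- the space of parameters `(σ, ε)` -/
abbrev ParD (d : ℕ) : Type := ℝ × EP d

noncomputable section

/-- the parameter of the pass with `n, ν` turns -/
def parD (m : ℕ) (g : En d → En d) (s : FrD d) (B0 : ℝ) (n ν : ℕ) : ParD d :=
  ((EED g s n ν)⁻¹ ^ (1 / (m : ℝ)), epsD g s B0 n ν)

end

theorem EED_pos {g : En d → En d} {s : FrD d} (hs : IsFrD g s) (n ν : ℕ) : 0 < EED g s n ν := by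
  have hr := hs.toRates
  have h1 : 0 < dSD g s := hs.sdata.d_pos
  have h2 : 0 < s.mu Sy.P := one_pos.trans hr.mP_gt
  have h3 : 0 < s.mu Sy.Q := one_pos.trans hr.mQ_gt
  unfold EED
  positivity

theorem parD_pos (m : ℕ) {g : En d → En d} {s : FrD d} (hs : IsFrD g s) (B0 : ℝ) (n ν : ℕ) :
    0 < (parD m g s B0 n ν).1 := by
  show 0 < (EED g s n ν)⁻¹ ^ (1 / (m : ℝ))
  exact Real.rpow_pos_of_pos (inv_pos.2 (EED_pos hs n ν)) _

theorem parD_pow {m : ℕ} (hm : 1 ≤ m) {g : En d → En d} {s : FrD d} (hs : IsFrD g s) (B0 : ℝ) (n ν : ℕ) :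
    (parD m g s B0 n ν).1 ^ m = (EED g s n ν)⁻¹ := by
  show ((EED g s n ν)⁻¹ ^ (1 / (m : ℝ))) ^ m = (EED g s n ν)⁻¹
  rw [one_div]
  exact Real.rpow_inv_natCast_pow (inv_pos.2 (EED_pos hs n ν)).le (by omega)

theorem parD_tendsto {m : ℕ} (hm : 1 ≤ m) {g : En d → En d} {s : FrD d} (hs : IsFrD g s) {B0 : ℝ}
    (hB : 0 < B0) :
    ∃ n ν : ℕ → ℕ, Tendsto n atTop atTop ∧ Tendsto ν atTop atTop ∧
      Tendsto (fun j => parD m g s B0 (n j) (ν j)) atTop (𝓝 0) ∧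
      Tendsto (fun j => (s.mu Sy.P ^ n j)⁻¹) atTop (𝓝 0) := by
  obtain ⟨n, ν, hn, hν, h1, h2, h3, h4, h5, h6, h7, h8⟩ := exists_nmD hs hB
  have hEi : Tendsto (fun j => (EED g s (n j) (ν j))⁻¹) atTop (𝓝 0) := tendsto_inv_atTop_zero.comp h6
  have hm0 : 0 < 1 / (m : ℝ) := by
    have : (0 : ℝ) < m := by exact_mod_cast hm
    positivity
  have hr : Tendsto (fun x : ℝ => x ^ (1 / (m : ℝ))) (𝓝 0) (𝓝 0) := by
    have h5 : ContinuousAt (fun x : ℝ => x ^ (1 / (m : ℝ))) 0 :=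
      Real.continuousAt_rpow_const 0 _ (Or.inr hm0.le)
    have h6 := h5.tendsto
    simp only [Real.zero_rpow hm0.ne'] at h6
    exact h6
  refine ⟨n, ν, hn, hν, ?_, tendsto_inv_atTop_zero.comp h7⟩
  exact (hr.comp hEi).prodMk_nhds (epsD_tendsto h1 h2 h3 h4 h5 h6 h8)

end Pool.Agent.Lib.H37D
end

-- from Lib.H37D.IParD
section

/-!
# H37D, section I: the ingredients of Stage I in dimension `2 + d` (port of H37N/IPar.lean)

A parameter `p : ParD d = ℝ × EP d` is `(s, ε)` with `s = E^(-1/m)`; `ε` as in PDefs.lean (`ε.1 4 = x0`, `ε.2 2 = w0`).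
The base space of the rescaled functions is `En d × ℝ`: `(z, η)` with `z = ((X, U), w)`.
Changes: `etaFD`, `XiFD`, `OmFD` of PDefs.lean (smooth by DZ20.lean) in place of `H`, `Xi`; `Mh` is a divided difference,
`Mh (((x0,w0),t), (Ξ,Ω), s)`; `omg` is the direction of `w`.
-/

open Set Filter Topology Asymptotics
open scoped ContDiff

namespace Pool.Agent.Lib.H37D

open Pool.Agent.Lib.H37N

noncomputable section

/-- the ingredients of Stage I: `a = a_1`, `b = b_2`, `a2 = a_2`;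
`T_1((0,t),0) = ((a + t Ah t, t^(m+1) Yh t), w1 + t wh t)`, `T_2 = ((XX, YY), WW)`, `YY ((0,t),0) = t^(m+1) Yk t` -/
structure IngD (m d : ℕ) where
  a : ℝ
  b : ℝ
  a2 : ℝ
  B0 : ℝ
  uS : ℝ
  dS : ℝ
  w1 : Wd d
  w2 : Wd d
  f : PFD d
  U0 : EP d → ℝ
  Ah : ℝ → ℝ
  Yh : ℝ → ℝ
  wh : ℝ → Wd d
  XX : En d → ℝ
  YY : En d → ℝ
  WW : En d → Wd d
  Yk : ℝ → ℝ
  N : (ℝ × Wd d) × ℝ → ℝ
  Mh : ((ℝ × Wd d) × ℝ) × (ℝ × Wd d) × ℝ → ℝ
  /-- the path of AS1 -/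
  G : Fin m → ℝ → ℝ
  /-- divided differences of `HB`, `RB`, `ZB` -/
  DH : ParD d × (En d × ℝ) × ℝ → ℝ
  DR : ParD d × (En d × ℝ) × ℝ → ℝ
  DZ : ParD d × (En d × ℝ) × ℝ → ℝ

namespace IngD

variable {m d : ℕ} (I : IngD m d)

/-- Ξ as a function of (p, (z, η)) -/
def XiB (q : ParD d × (En d × ℝ)) : ℝ := XiFD I.f I.b I.B0 q.1.2 q.2.1

/-- Ω as a function of (p, (z, η)) -/
def OmB (q : ParD d × (En d × ℝ)) : Wd d := OmFD I.f I.b I.dS q.1.2 q.2.1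

/-- η as a function of (p, (z, η)) -/
def HB (q : ParD d × (En d × ℝ)) : ℝ := etaFD I.f I.b q.1.2 q.2.1

/-- the rescaled remainder as a function of (p, (z, η)) -/
def RB (q : ParD d × (En d × ℝ)) : ℝ :=
  I.Mh (((q.1.2.1 4, q.1.2.2 2), q.2.2), (I.XiB q, I.OmB q), q.1.1 ^ m)

/-- X_2 as a function of (p, (z, η)) -/
def ZB (q : ParD d × (En d × ℝ)) : ℝ :=
  I.XX ((q.1.2.1 4 + q.1.1 ^ m * I.XiB q, q.2.2), q.1.2.2 2 + q.1.1 ^ m • I.OmB q)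

/-- the base point (X, U, w, η) = (a_1, U_0, w_1, 0) -/
def base (p : ParD d) : En d × ℝ := (((I.a, I.U0 p.2), I.w1), 0)

/-- χ = (X_1 - a_1)/s -/
def chi (q : ParD d × ℝ × ℝ) : ℝ := q.2.2 * I.Ah (q.1.1 * q.2.2)

/-- ω = (w - w_1)/s -/
def omg (q : ParD d × ℝ × ℝ) : Wd d := q.2.2 • I.wh (q.1.1 * q.2.2)

/-- V as a function of (p, z, x) -/
def V (q : ParD d × ℝ × ℝ) : ℝ :=
  q.2.2 ^ (m + 1) * I.Yh (q.1.1 * q.2.2) + ∑ j : Fin m, I.G j q.2.1 * I.chi q ^ ((j : ℕ) + 1)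

/-- V_2 = η_2/s as a function of (p, z, x) -/
def V2 (q : ParD d × ℝ × ℝ) : ℝ := I.DH (q.1, (((I.chi q, I.V q), I.omg q), 0), q.1.1)

/-- the direction -/
def vv (q : ParD d × ℝ × ℝ) : En d × ℝ := (((I.chi q, I.V q), I.omg q), I.V2 q)

/-- ζ = (X_2 - X_2^0)/s -/
def zt (q : ParD d × ℝ × ℝ) : ℝ := I.DZ (q.1, I.vv q, q.1.1)

/-- the rescaled K -/
def K (q : ParD d × ℝ × ℝ) : ℝ :=
  I.V2 q ^ (m + 1) * I.Yk (q.1.1 * I.V2 q) + I.DR (q.1, I.vv q, q.1.1)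

/-- the first family of perturbations; the parameter is ((μ_P^(-n), ε.1 0, E^(-1)(b+U_0), s^(m-j) g_j), ε.2 0) -/
def Ph1 (q : PEW m d × ℝ × Wd d) : ℝ :=
  q.1.1.1 * (I.uS + I.f.Th (q.1.1.2.1 * q.2.1, mulw q.1.2 q.2.2)) + q.1.1.2.2.1 +
    ∑ j : Fin m, q.1.1.2.2.2 j * (q.2.1 - I.a) ^ ((j : ℕ) + 1)

/-- the second family of perturbations; the parameter is ((x0, s^m R(base), X_2^0 - a_2, s^(m-j) k_j), w0) -/
def Ph2 (q : PEW m d × ℝ × Wd d) : ℝ :=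
  -I.N ((q.1.1.1, q.1.2), q.2.1) - q.1.1.2.1 -
    ∑ j : Fin m, q.1.1.2.2.2 j * (q.2.1 - I.a2 - q.1.1.2.2.1) ^ ((j : ℕ) + 1)

/-- parameter of the first family -/
def par1 (mi : ℝ) (p : ParD d) (z : ℝ) : PEW m d :=
  ((mi, p.2.1 0, p.1 ^ m * (I.b + I.U0 p.2), fun j => p.1 ^ (m - (j : ℕ)) * I.G j z), p.2.2 0)

/-- parameter of the second family -/
def par2 (p : ParD d) (k : Fin m → ℝ) : PEW m d :=
  ((p.2.1 4, p.1 ^ m * I.RB (p, I.base p), I.ZB (p, I.base p) - I.a2, fun j => p.1 ^ (m - (j : ℕ)) * k j),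
    p.2.2 2)

/-- X_1 as a function of (p, z, x) -/
def X1 (q : ParD d × ℝ × ℝ) : ℝ := I.a + q.1.1 * I.chi q

/-- U as a function of (p, z, x) -/
def U (q : ParD d × ℝ × ℝ) : ℝ := I.U0 q.1.2 + q.1.1 * I.V q

/-- w after the first leg as a function of (p, z, x) -/
def wq (q : ParD d × ℝ × ℝ) : Wd d := I.w1 + q.1.1 • I.omg q

/-- the point ((X_1, U), w) as a function of (p, z, x) -/
def zQ (q : ParD d × ℝ × ℝ) : En d := ((I.X1 q, I.U q), I.wq q)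

/-- Ξ as a function of (p, z, x) -/
def XiQ (q : ParD d × ℝ × ℝ) : ℝ := XiFD I.f I.b I.B0 q.1.2 (I.zQ q)

/-- Ω as a function of (p, z, x) -/
def OmQ (q : ParD d × ℝ × ℝ) : Wd d := OmFD I.f I.b I.dS q.1.2 (I.zQ q)

/-- the argument of the transition (before the shift by Th) as a function of (p, z, x) -/
def uQ (q : ParD d × ℝ × ℝ) : En d := argF I.b q.1.2 (I.zQ q)

/-- the argument of T_2 as a function of (p, z, x) -/
def exQ (q : ParD d × ℝ × ℝ) : En d :=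
  ((q.1.2.1 4 + q.1.1 ^ m * I.XiQ q, q.1.1 * I.V2 q), q.1.2.2 2 + q.1.1 ^ m • I.OmQ q)

/-- the conditions (at (p,z,x)) under which the formulas for the curve hold -/
structure Good (S T1 T2 : En d → En d) (sS : ℝ) (wS : Wd d) (N : Set (En d)) (q : ParD d × ℝ × ℝ) : Prop where
  gT1 : T1 ((0, q.1.1 * q.2.2), 0) =
    ((I.a + (q.1.1 * q.2.2) * I.Ah (q.1.1 * q.2.2), (q.1.1 * q.2.2) ^ (m + 1) * I.Yh (q.1.1 * q.2.2)),
      I.w1 + (q.1.1 * q.2.2) • I.wh (q.1.1 * q.2.2))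
  gU0 : etaFD I.f I.b q.1.2 ((I.a, I.U0 q.1.2), I.w1) = 0
  gS : S (((I.uQ q).1.1, I.f.Th ((I.uQ q).1.1, (I.uQ q).2) + (I.uQ q).1.2), (I.uQ q).2) =
    ((sS + (I.uQ q).1.1 * I.f.Y1 ((I.uQ q).1.1, (I.uQ q).2) + (I.uQ q).1.2 * I.f.Y2 (I.uQ q) +
        I.f.Y3 (I.uQ q).2 (I.uQ q).2, I.dS * (I.uQ q).1.2 * I.f.W (I.uQ q)),
      wS + (I.uQ q).1.1 • I.f.Z1 (I.uQ q) + (I.uQ q).1.2 • I.f.Z2 (I.uQ q) + I.f.Z3 (I.uQ q) (I.uQ q).2)
  gM : I.YY (I.exQ q) - I.N ((q.1.2.1 4, q.1.2.2 2), I.XX (I.exQ q)) =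
    I.YY ((0, q.1.1 * I.V2 q), 0) +
      q.1.1 ^ m * I.Mh (((q.1.2.1 4, q.1.2.2 2), q.1.1 * I.V2 q), (I.XiQ q, I.OmQ q), q.1.1 ^ m)
  gYk : I.YY ((0, q.1.1 * I.V2 q), 0) = (q.1.1 * I.V2 q) ^ (m + 1) * I.Yk (q.1.1 * I.V2 q)
  gT2 : T2 (I.exQ q) = ((I.XX (I.exQ q), I.YY (I.exQ q)), I.WW (I.exQ q))
  gN1 : (((I.uQ q).1.1, I.f.Th ((I.uQ q).1.1, (I.uQ q).2) + (I.uQ q).1.2), (I.uQ q).2) ∈ N
  gN2 : I.exQ q ∈ N
  gN3 : ((I.ZB (q.1, I.base q.1) + q.1.1 * I.zt q - I.a2, 0), I.WW (I.exQ q) - I.w2) ∈ N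

/-- the properties of the ingredients -/
structure OK (S T1 T2 : En d → En d) (sS : ℝ) (wS : Wd d) (al1 al2 ka1 ka2 gm2 el : ℝ) : Prop where
  hm : 1 ≤ m
  smf : SmPFD I.f
  eqS : ∀ᶠ u : En d in 𝓝 0, S ((u.1.1, I.f.Th (u.1.1, u.2) + u.1.2), u.2) =
    ((sS + u.1.1 * I.f.Y1 (u.1.1, u.2) + u.1.2 * I.f.Y2 u + I.f.Y3 u.2 u.2, I.dS * u.1.2 * I.f.W u),
      wS + u.1.1 • I.f.Z1 u + u.1.2 • I.f.Z2 u + I.f.Z3 u u.2)
  smooth_U0 : ContDiff ℝ ∞ I.U0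
  U00 : I.U0 0 = 0
  eqU0 : ∀ᶠ ε : EP d in 𝓝 0, etaFD I.f I.b ε ((I.a, I.U0 ε), I.w1) = 0
  smooth_Ah : ContDiff ℝ ∞ I.Ah
  smooth_Yh : ContDiff ℝ ∞ I.Yh
  smooth_wh : ContDiff ℝ ∞ I.wh
  Ah0 : I.Ah 0 = al1
  Yh0 : I.Yh 0 = ka1
  eqT1 : ∀ᶠ t : ℝ in 𝓝 0, T1 ((0, t), 0) = ((I.a + t * I.Ah t, t ^ (m + 1) * I.Yh t), I.w1 + t • I.wh t)
  smooth_XX : ContDiff ℝ ∞ I.XX
  smooth_YY : ContDiff ℝ ∞ I.YY
  smooth_WW : ContDiff ℝ ∞ I.WW
  smooth_Yk : ContDiff ℝ ∞ I.Yk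
  XX0 : I.XX 0 = I.a2
  WW0 : I.WW 0 = I.w2
  XXt : HasDerivAt (fun t : ℝ => I.XX ((0, t), 0)) al2 0
  Yk0 : I.Yk 0 = ka2
  eqYk : ∀ᶠ t : ℝ in 𝓝 0, I.YY ((0, t), 0) = t ^ (m + 1) * I.Yk t
  eqT2 : ∀ᶠ v : En d in 𝓝 0, T2 v = ((I.XX v, I.YY v), I.WW v)
  smooth_N : ContDiff ℝ ∞ I.N
  N0 : ∀ X, I.N (0, X) = 0
  smooth_Mh : ContDiff ℝ ∞ I.Mh
  Mh0 : ∀ z : ℝ, I.Mh (0, (z, 0), 0) = gm2 * z
  eqM : ∀ᶠ p : (ℝ × Wd d) × ℝ in 𝓝 0, ∀ (v : ℝ × Wd d) (s : ℝ),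
    I.YY ((p.1.1 + s * v.1, p.2), p.1.2 + s • v.2) -
        I.N (p.1, I.XX ((p.1.1 + s * v.1, p.2), p.1.2 + s • v.2)) =
      I.YY ((0, p.2), 0) + s * I.Mh (p, v, s)
  smooth_G : ∀ j, ContDiff ℝ ∞ (I.G j)
  smooth_DH : ContDiff ℝ ∞ I.DH
  smooth_DR : ContDiff ℝ ∞ I.DR
  smooth_DZ : ContDiff ℝ ∞ I.DZ
  eqDH : ∀ p v s, I.HB (p, I.base p + s • v) = I.HB (p, I.base p) + s * I.DH (p, v, s)
  eqDR : ∀ p v s, I.RB (p, I.base p + s • v) = I.RB (p, I.base p) + s * I.DR (p, v, s)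
  eqDZ : ∀ p v s, I.ZB (p, I.base p + s • v) = I.ZB (p, I.base p) + s * I.DZ (p, v, s)
  DH0 : ∀ v, I.DH (0, v, 0) = v.1.1.2
  DR0 : ∀ v, I.DR (0, v, 0) = I.B0 * I.f.Y1 (0, 0) * gm2 * v.1.1.1 + el * v.2
  DZ0 : ∀ v, I.DZ (0, v, 0) = al2 * v.2

end IngD

end

end Pool.Agent.Lib.H37D
end

-- from Lib.H37D.DI2e
section

/-! # H37D, chunk DI2e (M): existence of the ingredients (port of H37N/I2e.lean) -/

open Set Filter Topology Asymptotics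
open scoped ContDiff

namespace Pool.Agent.Lib.H37D

open Pool.Agent.Lib.H37N

variable {d : ℕ}

/-- smoothness of the functions `XiB`, `OmB`, `HB`, `RB`, `ZB`, `base` -/
theorem ingD_smooth {m : ℕ} (I : IngD m d) (hf : SmPFD I.f) (hU0 : ContDiff ℝ ∞ I.U0) (hXX : ContDiff ℝ ∞ I.XX)
    (hMh : ContDiff ℝ ∞ I.Mh) :
    ContDiff ℝ ∞ I.XiB ∧ ContDiff ℝ ∞ I.OmB ∧ ContDiff ℝ ∞ I.HB ∧ ContDiff ℝ ∞ I.RB ∧ ContDiff ℝ ∞ I.ZB ∧
      ContDiff ℝ ∞ I.base := by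
  have hz : ContDiff ℝ ∞ (fun q : ParD d × (En d × ℝ) => (q.1.2, q.2.1)) :=
    (contDiff_snd.comp contDiff_fst).prodMk (contDiff_fst.comp contDiff_snd)
  have hXi : ContDiff ℝ ∞ I.XiB := (contDiff_XiFD hf I.b I.B0).comp hz
  have hOm : ContDiff ℝ ∞ I.OmB := (contDiff_OmFD hf I.b I.dS).comp hz
  have hH : ContDiff ℝ ∞ I.HB := (contDiff_etaFD hf I.b).comp hz
  have hε := dz20_eps (X := ParD d × (En d × ℝ)) (f := fun q => q.1.2) (contDiff_snd.comp contDiff_fst) 4 2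
  have hs : ContDiff ℝ ∞ (fun q : ParD d × (En d × ℝ) => q.1.1 ^ m) :=
    (contDiff_fst.comp contDiff_fst).pow m
  have hη : ContDiff ℝ ∞ (fun q : ParD d × (En d × ℝ) => q.2.2) := contDiff_snd.comp contDiff_snd
  refine ⟨hXi, hOm, hH, ?_, ?_, ?_⟩
  · exact hMh.comp (((hε.1.prodMk hε.2).prodMk hη).prodMk ((hXi.prodMk hOm).prodMk hs))
  · exact hXX.comp (((hε.1.add (hs.mul hXi)).prodMk hη).prodMk (hε.2.add (hs.smul hOm)))
  · exact ((contDiff_const.prodMk (hU0.comp contDiff_snd)).prodMk contDiff_const).prodMk contDiff_const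

theorem exists_ingD {m : ℕ} (hm : 1 ≤ m) {g : En d → En d} {s : FrD d} (hs : IsFrD g s)
    {T1 T2 : En d → En d} (hT1 : ∀ᶠ v in 𝓝 (0 : En d), ContDiffAt ℝ ∞ T1 v) {a1 al1 ka1 : ℝ}
    {w1 : Wd d} (hT10 : T1 0 = ((a1, 0), w1)) (hal1 : (fderiv ℝ T1 0 ((0, 1), 0)).1.1 = al1)
    (hka1 : (fun t : ℝ => (T1 ((0, t), 0)).1.2 - ka1 * t ^ (m + 1)) =O[𝓝 0] fun t : ℝ => t ^ (m + 2))
    (hT2 : ∀ᶠ v in 𝓝 (0 : En d), ContDiffAt ℝ ∞ T2 v) {a2 al2 gm2 ka2 : ℝ}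
    {w2 : Wd d} (hT20 : T2 0 = ((a2, 0), w2)) (hal2 : (fderiv ℝ T2 0 ((0, 1), 0)).1.1 = al2)
    (hal20 : al2 ≠ 0) (hgm2 : (fderiv ℝ T2 0 ((1, 0), 0)).1.2 = gm2)
    (hka2 : (fun t : ℝ => (T2 ((0, t), 0)).1.2 - ka2 * t ^ (m + 1)) =O[𝓝 0] fun t : ℝ => t ^ (m + 2))
    (b B0 : ℝ) {G : Fin m → ℝ → ℝ} (hG : ∀ j, ContDiff ℝ ∞ (G j)) :
    ∃ (I : IngD m d) (el : ℝ), I.a = a1 ∧ I.b = b ∧ I.a2 = a2 ∧ I.B0 = B0 ∧ I.uS = s.uS ∧ I.dS = dSD g s ∧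
      I.w1 = w1 ∧ I.w2 = w2 ∧ I.G = G ∧ I.f.Y1 (0, 0) = pjac (SSD g s) 0 / dSD g s ∧
      I.OK (SSD g s) T1 T2 s.sS s.wS al1 al2 ka1 ka2 gm2 el := by
  have hm0 : m ≠ 0 := by omega
  obtain ⟨f, hf, hY, hf1, hf2, hf3⟩ := exists_passFnD (S := SSD g s) (sS := s.sS) (wS := s.wS)
    (dS := dSD g s) hs.sdata.smooth hs.sdata.S0 rfl hs.sdata.d_pos.ne'
  obtain ⟨Ah, Yh, wh, hAh, hYh, hwh, hAh0, hYh0, heqT1⟩ := exists_normal1D hT1 hT10 hal1 hka1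
  obtain ⟨XX, YY, WW, Yk, hXX, hYY, hWW, hYk, hXX0, hWW0, hXXt, hYYx, hYk0, hYYt, heqT2⟩ :=
    exists_normal2D hT2 hT20 hal2 hgm2 hka2
  obtain ⟨N, Mh, hN, hN0, hMh, hMh0, heqM⟩ := exists_NMD hXX hYY hXXt hal20 hYYx
  obtain ⟨U0, hU0, hU00, heqU0⟩ := exists_U0D hf a1 b w1
  let I' : IngD m d :=
    { a := a1, b := b, a2 := a2, B0 := B0, uS := s.uS, dS := dSD g s, w1 := w1, w2 := w2, f := f, U0 := U0,
      Ah := Ah, Yh := Yh, wh := wh, XX := XX, YY := YY, WW := WW, Yk := Yk, N := N, Mh := Mh, G := G,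
      DH := fun _ => 0, DR := fun _ => 0, DZ := fun _ => 0 }
  obtain ⟨-, -, sH, sR, sZ, sb⟩ := ingD_smooth I' hf hU0 hXX hMh
  obtain ⟨DH, hDH, eDH, dDH⟩ := divdiff sH sb
  obtain ⟨DR, hDR, eDR, dDR⟩ := divdiff sR sb
  obtain ⟨DZ, hDZ, eDZ, dDZ⟩ := divdiff sZ sb
  have hb0 : I'.base 0 = (((a1, 0), w1), 0) := by
    show ((((a1, U0 0), w1), 0) : En d × ℝ) = _
    rw [hU00]
  have he1 : ∀ i : Fin 6, (0 : ParD d).2.1 i = 0 := fun _ => rfl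
  have he2 : ∀ i : Fin 7, (0 : ParD d).2.2 i = 0 := fun _ => rfl
  have hs0 : ((0 : ParD d).1) ^ m = 0 := zero_pow hm0
  have hXi0 : ∀ z : En d, XiFD f b B0 (0 : ParD d).2 z = B0 * z.1.1 * f.Y1 (0, 0) := fun z =>
    XiFD_zero f b B0 z
  have hOm0 : ∀ z : En d, OmFD f b (dSD g s) (0 : ParD d).2 z = 0 := fun z => OmFD_zero f b _ z
  -- the function m(η, ξ)
  set c : ℝ := B0 * f.Y1 (0, 0) with hc
  set M : ℝ × ℝ → ℝ := fun r => Mh (((0, 0), r.1), (r.2, 0), 0) with hM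
  have hMs : ContDiff ℝ ∞ M := hMh.comp (by fun_prop)
  have hMd := (hMs.differentiable (by simp) ((0, c * a1) : ℝ × ℝ)).hasFDerivAt
  have hMx : ∀ x : ℝ, (fderiv ℝ M (0, c * a1)) (0, x) = gm2 * x := by
    intro x
    have h1 : HasDerivAt (fun t : ℝ => ((0, c * a1 + t * x) : ℝ × ℝ)) (0, x) 0 := by
      have h2 := ((hasDerivAt_id (0 : ℝ)).mul_const x).const_add (c * a1)
      rw [one_mul] at h2
      exact (hasDerivAt_const _ _).prodMk h2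
    have h3 : HasFDerivAt M (fderiv ℝ M (0, c * a1)) (0, c * a1 + (0 : ℝ) * x) := by
      rw [zero_mul, add_zero]; exact hMd
    have h4 := HasFDerivAt.comp_hasDerivAt (0 : ℝ) (f := fun t : ℝ => ((0, c * a1 + t * x) : ℝ × ℝ)) (l := M) h3 h1
    have h5 : HasDerivAt (fun t : ℝ => gm2 * (c * a1 + t * x)) (gm2 * x) 0 := by
      have h2 := (((hasDerivAt_id (0 : ℝ)).mul_const x).const_add (c * a1)).const_mul gm2
      rw [one_mul] at h2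
      exact h2
    have h6 : (M ∘ fun t : ℝ => ((0, c * a1 + t * x) : ℝ × ℝ)) = fun t : ℝ => gm2 * (c * a1 + t * x) := by
      funext t
      exact hMh0 _
    rw [h6] at h4
    exact h4.unique h5
  refine ⟨{ I' with DH := DH, DR := DR, DZ := DZ }, (fderiv ℝ M (0, c * a1)) (1, 0), rfl, rfl, rfl, rfl, rfl, rfl,
    rfl, rfl, rfl, hY, ?_⟩
  refine
    { hm := hm
      smf := hf
      eqS := ?_
      smooth_U0 := hU0
      U00 := hU00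
      eqU0 := heqU0
      smooth_Ah := hAh
      smooth_Yh := hYh
      smooth_wh := hwh
      Ah0 := hAh0
      Yh0 := hYh0
      eqT1 := heqT1
      smooth_XX := hXX
      smooth_YY := hYY
      smooth_WW := hWW
      smooth_Yk := hYk
      XX0 := hXX0
      WW0 := hWW0
      XXt := hXXt
      Yk0 := hYk0
      eqYk := Eventually.of_forall hYYt
      eqT2 := heqT2
      smooth_N := hN
      N0 := hN0
      smooth_Mh := hMh
      Mh0 := hMh0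
      eqM := heqM
      smooth_G := hG
      smooth_DH := hDH
      smooth_DR := hDR
      smooth_DZ := hDZ
      eqDH := fun p v s => eDH p v s
      eqDR := fun p v s => eDR p v s
      eqDZ := fun p v s => eDZ p v s
      DH0 := ?_
      DR0 := ?_
      DZ0 := ?_ }
  · filter_upwards [hf1, hf2, hf3] with u h1 h2 h3
    exact Prod.ext (Prod.ext h2 h1) h3
  · intro v
    show DH (0, v, 0) = v.1.1.2
    rw [dDH, hb0]
    have e : (fun y : En d × ℝ => I'.HB (0, y)) = fun y : En d × ℝ => y.1.1.2 := by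
      funext y
      exact etaFD_zero hf b y.1
    rw [e]
    have h2 : HasFDerivAt (fun y : En d × ℝ => y.1.1.2)
        ((ContinuousLinearMap.snd ℝ ℝ ℝ).comp ((ContinuousLinearMap.fst ℝ (ℝ × ℝ) (Wd d)).comp
          (ContinuousLinearMap.fst ℝ (En d) ℝ))) (((a1, 0), w1), 0) :=
      ((ContinuousLinearMap.snd ℝ ℝ ℝ).comp ((ContinuousLinearMap.fst ℝ (ℝ × ℝ) (Wd d)).comp
          (ContinuousLinearMap.fst ℝ (En d) ℝ))).hasFDerivAt
    rw [h2.fderiv]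
    rfl
  · intro v
    show DR (0, v, 0) = B0 * f.Y1 (0, 0) * gm2 * v.1.1.1 + (fderiv ℝ M (0, c * a1)) (1, 0) * v.2
    rw [dDR, hb0]
    have e : (fun y : En d × ℝ => I'.RB (0, y)) = fun y : En d × ℝ => M (y.2, c * y.1.1.1) := by
      funext y
      show Mh ((((0 : ParD d).2.1 4, (0 : ParD d).2.2 2), y.2), (XiFD f b B0 (0 : ParD d).2 y.1,
        OmFD f b (dSD g s) (0 : ParD d).2 y.1), ((0 : ParD d).1) ^ m) = Mh (((0, 0), y.2), (c * y.1.1.1, 0), 0)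
      rw [he1, he2, hXi0, hOm0, hs0]
      have : B0 * y.1.1.1 * f.Y1 (0, 0) = c * y.1.1.1 := by rw [hc]; ring
      rw [this]
    rw [e]
    have h1 : HasFDerivAt (fun y : En d × ℝ => ((y.2, c * y.1.1.1) : ℝ × ℝ))
        ((ContinuousLinearMap.snd ℝ (En d) ℝ).prod (c • ((ContinuousLinearMap.fst ℝ ℝ ℝ).comp
          ((ContinuousLinearMap.fst ℝ (ℝ × ℝ) (Wd d)).comp (ContinuousLinearMap.fst ℝ (En d) ℝ)))))
        (((a1, 0), w1), 0) :=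
      ((ContinuousLinearMap.snd ℝ (En d) ℝ).prod (c • ((ContinuousLinearMap.fst ℝ ℝ ℝ).comp
          ((ContinuousLinearMap.fst ℝ (ℝ × ℝ) (Wd d)).comp (ContinuousLinearMap.fst ℝ (En d) ℝ))))).hasFDerivAt
    have h2 := HasFDerivAt.comp (g := M) ((((a1, 0), w1), 0) : En d × ℝ) hMd h1
    have h3 : fderiv ℝ (fun y : En d × ℝ => M (y.2, c * y.1.1.1)) (((a1, 0), w1), 0) = _ := h2.fderiv
    rw [h3]
    show (fderiv ℝ M (0, c * a1)) (v.2, c * v.1.1.1) = _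
    have h4 : ((v.2, c * v.1.1.1) : ℝ × ℝ) = v.2 • ((1, 0) : ℝ × ℝ) + (0, c * v.1.1.1) := by
      ext <;> simp
    rw [h4, map_add, map_smul, hMx, smul_eq_mul]
    rw [hc]
    ring
  · intro v
    show DZ (0, v, 0) = al2 * v.2
    rw [dDZ, hb0]
    have e : (fun y : En d × ℝ => I'.ZB (0, y)) = fun y : En d × ℝ => XX ((0, y.2), 0) := by
      funext y
      show XX (((0 : ParD d).2.1 4 + ((0 : ParD d).1) ^ m * XiFD f b B0 (0 : ParD d).2 y.1, y.2),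
        (0 : ParD d).2.2 2 + ((0 : ParD d).1) ^ m • OmFD f b (dSD g s) (0 : ParD d).2 y.1) = XX ((0, y.2), 0)
      rw [he1, he2, hs0, zero_mul, zero_smul, add_zero, add_zero]
    rw [e]
    have h1 : HasFDerivAt (fun y : En d × ℝ => y.2) (ContinuousLinearMap.snd ℝ (En d) ℝ) (((a1, 0), w1), 0) :=
      (ContinuousLinearMap.snd ℝ (En d) ℝ).hasFDerivAt
    have h2 : HasFDerivAt (fun y : En d × ℝ => XX ((0, y.2), 0)) (al2 • (ContinuousLinearMap.snd ℝ (En d) ℝ))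
        (((a1, 0), w1), 0) :=
      HasDerivAt.comp_hasFDerivAt (h₂ := fun t : ℝ => XX ((0, t), 0)) ((((a1, 0), w1), 0) : En d × ℝ)
        (by exact hXXt) h1
    rw [h2.fderiv]
    rfl

end Pool.Agent.Lib.H37D
end
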