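import Pool.Agent.Lib.H1M.FF.M003
import Pool.Agent.Lib.H1M.FF.M014
import Pool.Agent.Lib.H1M.FF.M018
import Pool.Agent.Lib.H1M.FF.M019
import Pool.Agent.Lib.H1M.FF.M024
import Pool.Agent.Lib.H1M.FF.M026
import Pool.Agent.Lib.H1M.FF.M034
import Pool.Agent.Lib.H1M.FF.M036
import Pool.Agent.Lib.H1M.FF.M043
import Pool.Agent.Lib.H1M.FF.M045

/-! Merged copies (to shorten the build) of Lib.H37D.DP02, Lib.H37D.DP03, Lib.H37D.DP04, Lib.H37D.DZ24. -/

-- from Lib.H37D.DP02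
section

/-!
# H37D DP02 (M): local regularity of the maps of a tangency datum (port of H37P/P02.lean)

As in H37P/P02 with bijective derivatives instead of positive Jacobians (composition of bijections, chain rule) and the planar minor:
* the set of `v` with `Function.Bijective (fderiv ℝ f v)` is open where `f` is smooth (the units of the algebra of continuous linear maps are open; in finite
  dimension bijective = unit; or: `inverse_fun` / `ContDiffAt` and the determinant of the linear map is a continuous function);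
* `InD g s b k = g^[k] ∘ κQ ∘ shift`, `fderiv κQ` is bijective on `BxD` (`LinChartD.inv`), `fderiv g` along the orbit (`NearD.bij_Omd`), induction on `k`;
* `PlD g s l = cP ∘ g^[l]`; near `g z` the point `g^[l] w` is in the open set `κP '' BxD`, `g^[l] w = κP (PlD w)`, so `fderiv κP ∘ fderiv PlD = fderiv g^[l]` is
  bijective, and `fderiv κP` is bijective;
* the planar minor: `TTD g s b k l v = cP (g^[k+1+l] (κ' v))` with `κ' v = κQ ((v.1.1, b + v.1.2), v.2)` (`Function.iterate_add_apply`), `quot_pjac` (DB16) with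
  `n = k + 1 + l`, `κ := κ'` (its derivative at `v` is that of `κQ` at the shifted point, `sgn1`), `c := cP` (`sgn2`), at every `v` near `0` (all the points
  are in `Omd d`, and the last one is in `κP '' BxD`).
`tt_derivD`: as `tt_deriv` (the function `t ↦ (TTD ((0,t),0)).1.2` is `O(|t|^(m+1))`, so its derivative is `0`).
-/

open Set Filter Topology Asymptotics
open scoped ContDiff

namespace Pool.Agent.Lib.H37D

open Pool.Agent.Lib.H37N

variable {d : ℕ}

theorem dp02_of_ev {P : En d → Prop} {z : En d} (h : ∀ᶠ v in 𝓝 z, P v) :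
    ∃ O : Set (En d), IsOpen O ∧ z ∈ O ∧ ∀ v ∈ O, P v := by
  obtain ⟨O, h1, h2, h3⟩ := mem_nhds_iff.mp h
  exact ⟨O, h2, h3, fun v hv => h1 hv⟩

/-- bijectivity of the derivative is an open condition -/
theorem dp02_bij_ev {f : En d → En d} {v : En d} (hf : ContDiffAt ℝ ∞ f v)
    (hb : Function.Bijective (fderiv ℝ f v)) :
    ∀ᶠ w in 𝓝 v, Function.Bijective (fderiv ℝ f w) := by
  obtain ⟨e, he⟩ : ∃ e : En d ≃L[ℝ] En d, (e : En d →L[ℝ] En d) = fderiv ℝ f v := by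
    refine ⟨ContinuousLinearEquiv.ofBijective (fderiv ℝ f v) ?_ ?_, ?_⟩
    · exact LinearMap.ker_eq_bot.2 hb.1
    · exact LinearMap.range_eq_top.2 hb.2
    · exact ContinuousLinearEquiv.coe_ofBijective _ _ _
  have hcont : ContinuousAt (fderiv ℝ f) v := (hf.fderiv_right (m := ∞) (by simp)).continuousAt
  have hinv : ∀ᶠ x in 𝓝 v, fderiv ℝ f x ∈
      range ((↑) : (En d ≃L[ℝ] En d) → En d →L[ℝ] En d) := by
    apply hcont.eventually
    rw [← he]
    exact ContinuousLinearEquiv.nhds e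
  filter_upwards [hinv] with w hw
  obtain ⟨e', he'⟩ := hw
  rw [← he']
  exact e'.bijective

theorem dp02_comp {f h : En d → En d} {v : En d} (hf : DifferentiableAt ℝ f (h v))
    (hh : DifferentiableAt ℝ h v) :
    (fderiv ℝ (f ∘ h) v : En d → En d) = (fderiv ℝ f (h v)) ∘ (fderiv ℝ h v) := by
  rw [fderiv_comp v hf hh]
  rfl

theorem dp02_bij_iter {g : En d → En d} (hN : NearD g) (n : ℕ) {z : En d}
    (hz : ∀ j < n, g^[j] z ∈ Omd d) : Function.Bijective (fderiv ℝ (g^[n]) z) := by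
  induction n with
  | zero =>
    have : fderiv ℝ (g^[0]) z = ContinuousLinearMap.id ℝ (En d) := by
      simp only [Function.iterate_zero]
      exact fderiv_id
    rw [this]
    exact Function.bijective_id
  | succ n ih =>
    have hz' : ∀ j < n, g^[j] z ∈ Omd d := fun j hj => hz j (hj.trans (Nat.lt_succ_self n))
    have hzn := hz n (Nat.lt_succ_self n)
    have h1 : DifferentiableAt ℝ (g^[n]) z :=
      (hN.iter_Omd n hz').self_of_nhds.1.differentiableAt (by simp)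
    have h2 : DifferentiableAt ℝ g (g^[n] z) :=
      (hN.contDiffAt_Omd hzn).self_of_nhds.differentiableAt (by simp)
    rw [Function.iterate_succ', dp02_comp h2 h1]
    exact (hN.bij_Omd hzn).comp (ih hz')

/-- the shift in the chart -/
theorem dp02_shift (b : ℝ) : ContDiff ℝ ∞ (fun v : En d => (((v.1.1, b + v.1.2), v.2) : En d)) :=
  ((contDiff_fst.comp contDiff_fst).prodMk
    (contDiff_const.add (contDiff_snd.comp contDiff_fst))).prodMk contDiff_snd

theorem dp02_dshift (b : ℝ) (v : En d) :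
    HasFDerivAt (fun v : En d => (((v.1.1, b + v.1.2), v.2) : En d))
      (ContinuousLinearMap.id ℝ (En d)) v := by
  have e : (fun v : En d => (((v.1.1, b + v.1.2), v.2) : En d)) =
      fun v : En d => v + ((0, b), 0) := by
    funext v
    ext <;> simp [add_comm]
  rw [e]
  exact (hasFDerivAt_id v).add_const _

theorem dp02_kd {κ : En d → En d} (hκ : ContDiff ℝ ∞ κ) (b : ℝ) (v : En d) :
    fderiv ℝ (fun v : En d => κ ((v.1.1, b + v.1.2), v.2)) v =
      fderiv ℝ κ ((v.1.1, b + v.1.2), v.2) := by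
  have h1 : HasFDerivAt κ (fderiv ℝ κ ((v.1.1, b + v.1.2), v.2)) ((v.1.1, b + v.1.2), v.2) :=
    (hκ.differentiable (by simp) _).hasFDerivAt
  have h2 := HasFDerivAt.comp (g := κ) v h1 (dp02_dshift b v)
  rw [ContinuousLinearMap.comp_id] at h2
  exact h2.fderiv

theorem dp02_sub {Z : Set (En d)} (h : Z ⊆ interior (FFd d)) : VOD d ∪ Z ⊆ Omd d := by
  rintro z (hz | hz)
  · exact VOD_sub_Omd hz
  · have h1 := h hz
    unfold FFd BW at h1
    rw [interior_prod_eq, interior_closedBall _ one_ne_zero] at h1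
    exact ⟨Or.inr h1.1, h1.2⟩

theorem dp02_box {b : ℝ} (hb : |b| < 1) :
    ∀ᶠ v in 𝓝 (0 : En d), (((v.1.1, b + v.1.2), v.2) : En d) ∈ BxD d := by
  have hc : ContinuousAt (fun v : En d => (((v.1.1, b + v.1.2), v.2) : En d)) 0 :=
    (dp02_shift b).continuous.continuousAt
  refine hc.eventually_mem (isOpen_BxD.mem_nhds ?_)
  rw [mem_BxD]
  simp
  linarith

theorem dp02_in {g : En d → En d} {s : FrD d} {Z : Set (En d)} {m : ℕ} {b a : ℝ} {wT : Wd d}
    {k l : ℕ} (hN : NearS g) (hs : IsFrD g s) (ht : TDD g s Z m b a wT k l) {i : ℕ} (hi : i ≤ k) :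
    (∀ᶠ v in 𝓝 (0 : En d), ContDiffAt ℝ ∞ (InD g s b i) v ∧ InD g s b i v ∈ VOD d ∪ Z) ∧
      Function.Bijective (fderiv ℝ (InD g s b i) 0) := by
  have hc := hs.chart Sy.Q
  have hsm : ContDiff ℝ ∞ (fun v : En d => s.κ Sy.Q ((v.1.1, b + v.1.2), v.2)) :=
    hc.smooth.comp (dp02_shift b)
  have hpath : ∀ j < i, g^[j] (s.κ Sy.Q (((0 : En d).1.1, b + (0 : En d).1.2), (0 : En d).2)) ∈
      Omd d := fun j hj => dp02_sub ht.subZ (ht.path1 j (hj.le.trans hi))
  have h1 := hN.toNearD.iter_Omd i hpath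
  have hcont : ContinuousAt (fun v : En d => s.κ Sy.Q ((v.1.1, b + v.1.2), v.2)) 0 :=
    hsm.continuous.continuousAt
  have h2 : ∀ᶠ v in 𝓝 (0 : En d), ContDiffAt ℝ ∞ (InD g s b i) v := by
    filter_upwards [hcont.eventually h1] with v hv
    exact ContDiffAt.comp v hv.1 hsm.contDiffAt
  refine ⟨?_, ?_⟩
  · have hmem : ∀ᶠ v in 𝓝 (0 : En d), InD g s b i v ∈ VOD d ∪ Z :=
      h2.self_of_nhds.continuousAt.eventually_mem
        ((isOpen_VOD.union ht.openZ).mem_nhds (ht.path1 i hi))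
    exact h2.and hmem
  · have e : InD g s b i = g^[i] ∘ (fun v : En d => s.κ Sy.Q ((v.1.1, b + v.1.2), v.2)) := rfl
    have d1 : DifferentiableAt ℝ (g^[i]) ((fun v : En d => s.κ Sy.Q ((v.1.1, b + v.1.2), v.2)) 0) :=
      h1.self_of_nhds.1.differentiableAt (by simp)
    have d2 : DifferentiableAt ℝ (fun v : En d => s.κ Sy.Q ((v.1.1, b + v.1.2), v.2)) 0 :=
      hsm.contDiffAt.differentiableAt (by simp)
    rw [e, dp02_comp (f := g^[i]) (h := fun v : En d => s.κ Sy.Q ((v.1.1, b + v.1.2), v.2)) d1 d2,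
      dp02_kd hc.smooth]
    exact (dp02_bij_iter hN.toNearD i hpath).comp
      (hc.inv _ (dp02_box ht.b_lt).self_of_nhds)

theorem in_regularD {g : En d → En d} {s : FrD d} {Z : Set (En d)} {m : ℕ} {b a : ℝ} {wT : Wd d}
    {k l : ℕ} (hN : NearS g) (hs : IsFrD g s) (ht : TDD g s Z m b a wT k l) :
    ∃ O : Set (En d), IsOpen O ∧ (0 : En d) ∈ O ∧ (∀ i ≤ k, ContDiffOn ℝ ∞ (InD g s b i) O) ∧
      (∀ v ∈ O, Function.Bijective (fderiv ℝ (InD g s b k) v)) ∧
      (∀ v ∈ O, ∀ i ≤ k, InD g s b i v ∈ VOD d ∪ Z) := by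
  have h1 : ∀ᶠ v in 𝓝 (0 : En d), ∀ i ∈ Finset.range (k + 1),
      ContDiffAt ℝ ∞ (InD g s b i) v ∧ InD g s b i v ∈ VOD d ∪ Z := by
    rw [Filter.eventually_all_finset]
    intro i hi
    exact (dp02_in hN hs ht (Nat.lt_succ_iff.mp (Finset.mem_range.mp hi))).1
  have hk := dp02_in hN hs ht (le_refl k)
  have h2 : ∀ᶠ v in 𝓝 (0 : En d), Function.Bijective (fderiv ℝ (InD g s b k) v) :=
    dp02_bij_ev hk.1.self_of_nhds.1 hk.2
  obtain ⟨O, hO, h0, h3⟩ := dp02_of_ev (h1.and h2)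
  refine ⟨O, hO, h0, fun i hi v hv => ?_, fun v hv => (h3 v hv).2, fun v hv i hi => ?_⟩
  · exact ((h3 v hv).1 i (Finset.mem_range.mpr (Nat.lt_succ_iff.mpr hi))).1.contDiffWithinAt
  · exact ((h3 v hv).1 i (Finset.mem_range.mpr (Nat.lt_succ_iff.mpr hi))).2

theorem dp02_a {g : En d → En d} {s : FrD d} {Z : Set (En d)} {m : ℕ} {b a : ℝ} {wT : Wd d}
    {k l : ℕ} (ht : TDD g s Z m b a wT k l) : (((a, 0), wT) : En d) ∈ BxD d := by
  rw [mem_BxD]
  refine ⟨⟨lt_trans ht.a_lt (by norm_num), by norm_num⟩, lt_trans ht.w_lt (by norm_num)⟩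

theorem pl_regularD {g : En d → En d} {s : FrD d} {Z : Set (En d)} {m : ℕ} {b a : ℝ} {wT : Wd d}
    {k l : ℕ} (hN : NearS g) (hs : IsFrD g s) (ht : TDD g s Z m b a wT k l) :
    ∃ O : Set (En d), IsOpen O ∧ g (InD g s b k 0) ∈ O ∧ ContDiffOn ℝ ∞ (PlD g s l) O ∧
      (∀ w ∈ O, Function.Bijective (fderiv ℝ (PlD g s l) w)) ∧
      (∀ w ∈ O, ∀ i ≤ l, g^[i] w ∈ VOD d) ∧
      (∀ w ∈ O, g^[l] w = s.κ Sy.P (PlD g s l w) ∧ PlD g s l w ∈ BxD d) := by
  have hc := hs.chart Sy.P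
  have h1 := hN.toNearD.iter_VOD (l + 1) (z := g (InD g s b k 0)) fun j hj =>
    ht.path2 j (Nat.lt_succ_iff.mp hj)
  have h1' := hN.toNearD.iter_VOD l (z := g (InD g s b k 0)) fun j hj => ht.path2 j hj.le
  have hev : ∀ᶠ w in 𝓝 (g (InD g s b k 0)), g^[l] w ∈ s.κ Sy.P '' BxD d := by
    refine h1'.self_of_nhds.1.continuousAt.eventually_mem (hc.isOpen.mem_nhds ?_)
    rw [ht.fin]
    exact mem_image_of_mem _ (dp02_a ht)
  obtain ⟨O, hO, h0, h3⟩ := dp02_of_ev ((h1.and h1').and hev)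
  have hland : ∀ w ∈ O, g^[l] w = s.κ Sy.P (PlD g s l w) ∧ PlD g s l w ∈ BxD d := by
    intro w hw
    obtain ⟨v, hv, hv'⟩ := (h3 w hw).2
    have e : PlD g s l w = v := by
      unfold PlD
      rw [← hv', hc.left v hv]
    rw [e]
    exact ⟨hv'.symm, hv⟩
  have hsm : ∀ w ∈ O, ContDiffAt ℝ ∞ (PlD g s l) w := fun w hw =>
    hc.smooth_c.contDiffAt.comp w (h3 w hw).1.2.1
  refine ⟨O, hO, h0, fun w hw => (hsm w hw).contDiffWithinAt, fun w hw => ?_, fun w hw i hi => ?_,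
    hland⟩
  · have e : (g^[l]) =ᶠ[𝓝 w] (s.κ Sy.P ∘ PlD g s l) := by
      filter_upwards [hO.mem_nhds hw] with w' hw'
      exact (hland w' hw').1
    have h4 : Function.Bijective (fderiv ℝ (g^[l]) w) :=
      dp02_bij_iter hN.toNearD l fun j hj => VOD_sub_Omd ((h3 w hw).1.2.2 j hj)
    rw [e.fderiv_eq, dp02_comp (hc.smooth.contDiffAt.differentiableAt (by simp))
      ((hsm w hw).differentiableAt (by simp))] at h4
    exact (Function.Bijective.of_comp_iff' (hc.inv _ (hland w hw).2) _).1 h4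
  · exact (h3 w hw).1.1.2 i (Nat.lt_succ_iff.mpr hi)

theorem tt_regularD {g : En d → En d} {s : FrD d} {Z : Set (En d)} {m : ℕ} {b a : ℝ} {wT : Wd d}
    {k l : ℕ} (hN : NearS g) (hs : IsFrD g s) (ht : TDD g s Z m b a wT k l) :
    (∃ O : Set (En d), IsOpen O ∧ (0 : En d) ∈ O ∧ ContDiffOn ℝ ∞ (TTD g s b k l) O ∧
      (∀ v ∈ O, Function.Bijective (fderiv ℝ (TTD g s b k l) v)) ∧
      ∀ v ∈ O, 0 < pjac (TTD g s b k l) v) ∧ TTD g s b k l 0 = ((a, 0), wT) := by
  refine ⟨?_, ?_⟩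
  · obtain ⟨O1, hO1, h01, hs1, hj1, hm1⟩ := in_regularD hN hs ht
    obtain ⟨O2, hO2, h02, hs2, hj2, hm2, hl2⟩ := pl_regularD hN hs ht
    have hInC : ∀ v ∈ O1, ContDiffAt ℝ ∞ (InD g s b k) v := fun v hv =>
      (hs1 k le_rfl).contDiffAt (hO1.mem_nhds hv)
    have hgC : ∀ v ∈ O1, ContDiffAt ℝ ∞ g (InD g s b k v) := fun v hv =>
      (hN.toNearD.contDiffAt_Omd (dp02_sub ht.subZ (hm1 v hv k le_rfl))).self_of_nhds
    have hgI : ∀ v ∈ O1, ContDiffAt ℝ ∞ (fun v => g (InD g s b k v)) v := fun v hv =>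
      (hgC v hv).comp v (hInC v hv)
    have hev : ∀ᶠ v in 𝓝 (0 : En d), v ∈ O1 ∧ g (InD g s b k v) ∈ O2 :=
      (hO1.eventually_mem h01).and ((hgI 0 h01).continuousAt.eventually_mem (hO2.mem_nhds h02))
    obtain ⟨O, hO, h0, h3⟩ := dp02_of_ev (hev.and (dp02_box ht.b_lt))
    refine ⟨O, hO, h0, fun v hv => ?_, fun v hv => ?_, fun v hv => ?_⟩
    · obtain ⟨⟨h4, h5⟩, -⟩ := h3 v hv
      exact (((hs2.contDiffAt (hO2.mem_nhds h5))).comp v (hgI v h4)).contDiffWithinAt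
    · obtain ⟨⟨h4, h5⟩, -⟩ := h3 v hv
      have e : TTD g s b k l = PlD g s l ∘ (g ∘ InD g s b k) := rfl
      have hd2 : DifferentiableAt ℝ (PlD g s l) ((g ∘ InD g s b k) v) :=
        (hs2.contDiffAt (hO2.mem_nhds h5)).differentiableAt (by simp)
      have hd1 : DifferentiableAt ℝ (g ∘ InD g s b k) v := (hgI v h4).differentiableAt (by simp)
      rw [e, dp02_comp hd2 hd1, dp02_comp ((hgC v h4).differentiableAt (by simp))
        ((hInC v h4).differentiableAt (by simp))]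
      exact (hj2 _ h5).comp ((hN.toNearD.bij_Omd (dp02_sub ht.subZ (hm1 v h4 k le_rfl))).comp
        (hj1 v h4))
    · obtain ⟨⟨h4, h5⟩, h6⟩ := h3 v hv
      have hcP := hs.chart Sy.P
      have hcQ := hs.chart Sy.Q
      have hit : ∀ i v', g^[i + (k + 1)] (s.κ Sy.Q ((v'.1.1, b + v'.1.2), v'.2)) =
          g^[i] (g (InD g s b k v')) := by
        intro i v'
        rw [Function.iterate_add_apply, Function.iterate_succ_apply']
        rfl
      have e : TTD g s b k l = fun v' => s.c Sy.P (g^[l + (k + 1)]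
          ((fun v : En d => s.κ Sy.Q ((v.1.1, b + v.1.2), v.2)) v')) := by
        funext v'
        show s.c Sy.P (g^[l] (g (InD g s b k v'))) = _
        rw [← hit]
      rw [e]
      have hz : g^[l + (k + 1)] ((fun v : En d => s.κ Sy.Q ((v.1.1, b + v.1.2), v.2)) v) =
          s.κ Sy.P (PlD g s l (g (InD g s b k v))) := by
        show g^[l + (k + 1)] (s.κ Sy.Q ((v.1.1, b + v.1.2), v.2)) = _
        rw [hit]
        exact (hl2 _ h5).1
      refine quot_pjac hN.toNearD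
        ((hcQ.smooth.comp (dp02_shift b)).contDiffAt.differentiableAt (by simp)) ?_ ?_
        (hcP.smooth_c.contDiffAt.differentiableAt (by simp)) ?_
      · intro s' hs'
        rw [dp02_kd hcQ.smooth]
        exact hcQ.sgn1 _ h6 s' hs'
      · intro j hj
        show g^[j] (s.κ Sy.Q ((v.1.1, b + v.1.2), v.2)) ∈ Omd d
        rcases Nat.lt_or_ge j (k + 1) with h7 | h7
        · exact dp02_sub ht.subZ (hm1 v h4 j (Nat.lt_succ_iff.mp h7))
        · obtain ⟨i, rfl⟩ := Nat.exists_eq_add_of_le h7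
          rw [add_comm (k + 1) i, hit]
          exact VOD_sub_Omd (hm2 _ h5 i (by omega))
      · rw [hz]
        exact hcP.sgn2 _ (mem_image_of_mem _ (hl2 _ h5).2)
  · unfold TTD PlD
    rw [ht.fin, (hs.chart Sy.P).left _ (dp02_a ht)]

/-- the derivatives at the tangency -/
theorem tt_derivD {g : En d → En d} {s : FrD d} {Z : Set (En d)} {m : ℕ} {b a : ℝ} {wT : Wd d}
    {k l : ℕ} (hN : NearS g) (hs : IsFrD g s) (hm : 1 ≤ m) (ht : TDD g s Z m b a wT k l) :
    (fderiv ℝ (TTD g s b k l) 0 ((0, 1), 0)).1.2 = 0 ∧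
    (fderiv ℝ (TTD g s b k l) 0 ((0, 1), 0)).1.1 * (fderiv ℝ (TTD g s b k l) 0 ((1, 0), 0)).1.2 =
      -pjac (TTD g s b k l) 0 ∧ 0 < pjac (TTD g s b k l) 0 := by
  obtain ⟨⟨O, hO, h0, hc, -, hj⟩, hTT0⟩ := tt_regularD hN hs ht
  have hd : DifferentiableAt ℝ (TTD g s b k l) 0 :=
    (hc.contDiffAt (hO.mem_nhds h0)).differentiableAt (by simp)
  have hline : HasDerivAt (fun t : ℝ => (((0 : ℝ), t), (0 : Wd d))) (((0 : ℝ), (1 : ℝ)), 0) 0 :=
    ((hasDerivAt_const (0 : ℝ) (0 : ℝ)).prodMk (hasDerivAt_id (0 : ℝ))).prodMk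
      (hasDerivAt_const (0 : ℝ) (0 : Wd d))
  have h1 : HasDerivAt (fun t : ℝ => TTD g s b k l ((0, t), 0))
      (fderiv ℝ (TTD g s b k l) 0 ((0, 1), 0)) 0 := by
    have h : HasFDerivAt (TTD g s b k l) (fderiv ℝ (TTD g s b k l) 0)
      (((0 : ℝ), (0 : ℝ)), (0 : Wd d)) := hd.hasFDerivAt
    generalize TTD g s b k l = T at h
    exact HasFDerivAt.comp_hasDerivAt (l := T)
      (f := fun t : ℝ => (((0 : ℝ), t), (0 : Wd d))) (0 : ℝ) h hline
  have h2 : HasDerivAt (fun t : ℝ => (TTD g s b k l ((0, t), 0)).1.2)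
      (fderiv ℝ (TTD g s b k l) 0 ((0, 1), 0)).1.2 0 := h1.fst.snd
  have h3 : HasDerivAt (fun t : ℝ => (TTD g s b k l ((0, t), 0)).1.2) 0 0 := by
    rw [hasDerivAt_iff_isLittleO]
    have e0 : (TTD g s b k l ((0, (0 : ℝ)), 0)).1.2 = 0 := by
      have : TTD g s b k l ((0, (0 : ℝ)), 0) = TTD g s b k l 0 := rfl
      rw [this, hTT0]
    simp only [e0, sub_zero, smul_zero]
    refine ht.ord.trans_isLittleO ?_
    have h4 : (fun t : ℝ => t ^ (m + 1)) =o[𝓝 0] fun t : ℝ => t ^ 1 :=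
      isLittleO_pow_pow (by omega)
    simp only [pow_one] at h4
    refine IsLittleO.congr' (h4.norm_left) ?_ (Eventually.of_forall fun _ => rfl)
    exact Eventually.of_forall fun t => by simp [Real.norm_eq_abs]
  have h5 : (fderiv ℝ (TTD g s b k l) 0 ((0, 1), 0)).1.2 = 0 := h2.unique h3
  refine ⟨h5, ?_, hj 0 h0⟩
  unfold pjac planar
  rw [h5]
  ring

end Pool.Agent.Lib.H37D
end

-- from Lib.H37D.DP03
section

/-!
# H37D DP03 (M): places exist (port of H37P/P03.lean)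

* `dp03_image_open`: as `Near.image_open` (H37N/A112): the derivative is bijective at the points of `Dd d`, `HasStrictFDerivAt.map_nhds_eq_of_surj`.
* `dp03_injOn`: `hN.smooth`.
* `dp03_fold_image`: planar part as `fold_image` (H37N/A112) from `fold0`; `‖(g z).2‖ ≤ aw + e0 < 1` (`wval`).
* `exists_placeD`: as `exists_place`: `inverse_fun` for `PlD` at `g z`, `z = InD k 0` (bijective derivative by `pl_regularD`); `D = O1 ∩ PlD ⁻¹' ball ((a,0),wT) r`; `r` with
  `|a| + r < 1` and `‖wT‖ + r < 1`; separation of the earlier visits by injectivity on `Dd d`; `C = Li '' closedBall ⊆ g '' Z ⊆ K0D d` by `dp03_fold_image`.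
-/

open Set Filter Topology Asymptotics
open scoped ContDiff

namespace Pool.Agent.Lib.H37D

open Pool.Agent.Lib.H37N

variable {d : ℕ}

theorem dp03_injOn {g : En d → En d} (h : NearS g) : InjOn g (Dd d) := by
  obtain ⟨O, hO, hsub, hd, hinj, hjac⟩ := h.smooth
  exact hinj.mono hsub

theorem dp03_image_open {g : En d → En d} (h : NearS g) {Z : Set (En d)} (hZ : IsOpen Z)
    (hZD : Z ⊆ Dd d) : IsOpen (g '' Z) := by
  obtain ⟨O, hO, hsub, hd, hinj, hjac⟩ := h.smooth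
  rw [isOpen_iff_mem_nhds]
  rintro _ ⟨z, hz, rfl⟩
  have hzO : z ∈ O := hsub (hZD hz)
  have hc : ContDiffAt ℝ ∞ g z := hd.contDiffAt (hO.mem_nhds hzO)
  have hs : HasStrictFDerivAt g (fderiv ℝ g z) z := hc.hasStrictFDerivAt (by simp)
  have hr : (fderiv ℝ g z).range = ⊤ :=
    LinearMap.range_eq_top.2 (hjac z hzO).2
  rw [← hs.map_nhds_eq_of_surj hr]
  rw [mem_map]
  exact mem_of_superset (hZ.mem_nhds hz) (subset_preimage_image g Z)

theorem dp03_fold_image {g : En d → En d} (h : NearS g) {z : En d} (hz : z ∈ FFd d) :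
    (g z).1.1 ∈ Ioo (0 : ℝ) 1 ∧ (g z).1.2 ∈ Ioo (0 : ℝ) 1 ∧ ‖(g z).2‖ < 1 := by
  obtain ⟨h1, h2⟩ := h.fold0 z hz
  have h3 := h.wval z (FFd_sub_Dd hz)
  rw [mem_FFd] at hz
  obtain ⟨⟨⟨a1, a2⟩, ⟨b1, b2⟩⟩, hw⟩ := hz
  rw [abs_le] at h1 h2
  simp only [Fold, xc, yc, u0, cc, dd, del, e0, aw] at *
  have hsq : (z.1.1 - 8005 / 10000) ^ 2 ≤ (1 / 4000) ^ 2 := by
    apply sq_le_sq'
    · linarith
    · linarith
  have hsq0 := sq_nonneg (z.1.1 - 8005 / 10000)
  refine ⟨⟨?_, ?_⟩, ⟨?_, ?_⟩, ?_⟩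
  · linarith [h1.1, h1.2, h2.1, h2.2]
  · linarith [h1.1, h1.2, h2.1, h2.2]
  · linarith [h1.1, h1.2, h2.1, h2.2]
  · linarith [h1.1, h1.2, h2.1, h2.2]
  · have h4 : (1 : ℝ) / 10 ^ 7 * ‖z.2‖ ≤ 1 / 10 ^ 7 * 1 :=
      mul_le_mul_of_nonneg_left hw (by norm_num)
    norm_num at h3 h4 ⊢
    linarith

theorem exists_placeD {g : En d → En d} {s : FrD d} {Z : Set (En d)} {m : ℕ} {b a : ℝ}
    {wT : Wd d} {k l : ℕ} (hN : NearS g) (hs : IsFrD g s) (ht : TDD g s Z m b a wT k l) :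
    ∃ (r : ℝ) (D B : Set (En d)) (Li : En d → En d), PlaceD g s Z b a wT k l r D B Li := by
  obtain ⟨O, hO, hwO, hPs, hPj, hPp, hPl⟩ := pl_regularD hN hs ht
  obtain ⟨O', hO', h0O', hIs, -, hIp⟩ := in_regularD hN hs ht
  set w0 : En d := g (InD g s b k 0) with hw0
  have hZF : Z ⊆ Dd d := fun z hz => Or.inr (interior_subset (ht.subZ hz))
  have hOm : VOD d ∪ Z ⊆ Omd d :=
    union_subset VOD_sub_Omd (fun z hz => interior_FFd_sub_Omd (ht.subZ hz))
  have hgZ : IsOpen (g '' Z) := dp03_image_open hN ht.openZ hZF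
  have hw0Z : w0 ∈ g '' Z := ⟨_, ht.memZ, rfl⟩
  have haB : (((a, 0), wT) : En d) ∈ BxD d := by
    have h1 := ht.a_lt
    have h2 := ht.w_lt
    rw [mem_BxD]
    refine ⟨⟨by linarith, by norm_num⟩, by linarith⟩
  have hPw0 : PlD g s l w0 = ((a, 0), wT) := by
    show s.c Sy.P (g^[l] w0) = ((a, 0), wT)
    rw [hw0, ht.fin, (hs.chart Sy.P).left _ haB]
  have hc0 : ∀ᶠ w in 𝓝 w0, ContDiffAt ℝ ∞ (PlD g s l) w := by
    filter_upwards [hO.mem_nhds hwO] with w hw
    exact hPs.contDiffAt (hO.mem_nhds hw)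
  obtain ⟨Li, hLs, hL0, hLP, hPL⟩ := inverse_fun hc0 (hPj w0 hwO)
  rw [hPw0] at hL0 hPL
  have hIc : ∀ i ≤ k, ContinuousAt (InD g s b i) 0 := fun i hi =>
    ((hIs i hi).contDiffAt (hO'.mem_nhds h0O')).continuousAt
  have hgc : ∀ i ≤ k, ContinuousAt (fun v => g (InD g s b i v)) 0 := by
    intro i hi
    have h1 : ContinuousAt g (InD g s b i 0) := by
      have h2 : InD g s b i 0 ∈ Omd d := hOm (hIp 0 h0O' i hi)
      exact (hN.toNearD.contDiffAt_Omd h2).self_of_nhds.continuousAt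
    exact ContinuousAt.comp (f := InD g s b i) (g := g) h1 (hIc i hi)
  -- separation
  have hsep : ∀ i < k, ∃ U : Set (En d), U ∈ 𝓝 w0 ∧ ∀ᶠ v in 𝓝 (0 : En d), g (InD g s b i v) ∉ U := by
    intro i hi
    have hne : g (InD g s b i 0) ≠ w0 := by
      intro he
      exact ht.dist i hi (dp03_injOn hN (Omd_sub (hOm (ht.path1 i hi.le)))
        (Omd_sub (hOm (ht.path1 k le_rfl))) he)
    obtain ⟨V, U, hV, hU, hVm, hUm, hVU⟩ := t2_separation hne
    refine ⟨U, hU.mem_nhds hUm, ?_⟩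
    filter_upwards [(hgc i hi.le).eventually_mem (hV.mem_nhds hVm)] with v hv hvU
    exact Set.disjoint_left.1 hVU hv hvU
  choose! U hU1 hU2 using hsep
  have hUall : ∀ᶠ w in 𝓝 w0, ∀ i ∈ Finset.range k, w ∈ U i :=
    (Finset.eventually_all (Finset.range k)).2 fun i hi => hU1 i (Finset.mem_range.1 hi)
  have hVall : ∀ᶠ v in 𝓝 (0 : En d), ∀ i ∈ Finset.range k, g (InD g s b i v) ∉ U i :=
    (Finset.eventually_all (Finset.range k)).2 fun i hi => hU2 i (Finset.mem_range.1 hi)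
  have hall : ∀ᶠ w in 𝓝 w0, (w ∈ O ∧ w ∈ g '' Z) ∧
      (Li (PlD g s l w) = w ∧ ∀ i ∈ Finset.range k, w ∈ U i) := by
    filter_upwards [hO.mem_nhds hwO, hgZ.mem_nhds hw0Z, hLP, hUall] with w h1 h2 h3 h4
    exact ⟨⟨h1, h2⟩, h3, h4⟩
  obtain ⟨O1, hO1sub, hO1, hw01⟩ := eventually_nhds_iff.1 hall
  have hO1c : ContinuousOn (PlD g s l) O1 := fun w hw =>
    ((hPs.contDiffAt (hO.mem_nhds (hO1sub _ hw).1.1)).continuousAt).continuousWithinAt
  have hev : ∀ᶠ v in 𝓝 (((a, 0), wT) : En d), PlD g s l (Li v) = v ∧ Li v ∈ O1 := by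
    refine hPL.and ?_
    have h1 : ContinuousAt Li (((a, 0), wT) : En d) := hLs.continuous.continuousAt
    exact h1.eventually_mem (by rw [hL0]; exact hO1.mem_nhds hw01)
  obtain ⟨r1, hr1, hball⟩ := (Metric.nhds_basis_closedBall.mem_iff).1 hev
  obtain ⟨r, hr0, hrr, hra, hrw⟩ : ∃ r : ℝ, 0 < r ∧ r ≤ r1 ∧ |a| + r < 1 ∧ ‖wT‖ + r < 1 := by
    have ha := ht.a_lt
    have hw := ht.w_lt
    refine ⟨min r1 (min ((1 - |a|) / 2) ((1 - ‖wT‖) / 2)),
      lt_min hr1 (lt_min (by linarith) (by linarith)), min_le_left _ _, ?_, ?_⟩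
    · have := (min_le_right r1 (min ((1 - |a|) / 2) ((1 - ‖wT‖) / 2))).trans (min_le_left _ _)
      linarith
    · have := (min_le_right r1 (min ((1 - |a|) / 2) ((1 - ‖wT‖) / 2))).trans (min_le_right _ _)
      linarith
  have hcb : ∀ v ∈ Metric.closedBall (((a, 0), wT) : En d) r, PlD g s l (Li v) = v ∧ Li v ∈ O1 :=
    fun v hv => hball (Metric.closedBall_subset_closedBall hrr hv)
  set D : Set (En d) := O1 ∩ PlD g s l ⁻¹' Metric.ball (((a, 0), wT) : En d) r with hD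
  have hDo : IsOpen D := hO1c.isOpen_inter_preimage hO1 Metric.isOpen_ball
  have hw0D : w0 ∈ D := ⟨hw01, by
    show PlD g s l w0 ∈ Metric.ball (((a, 0), wT) : En d) r
    rw [hPw0]
    exact Metric.mem_ball_self hr0⟩
  have hDC : D ⊆ Li '' Metric.closedBall (((a, 0), wT) : En d) r := fun w hw =>
    ⟨PlD g s l w, Metric.ball_subset_closedBall hw.2, (hO1sub _ hw.1).2.1⟩
  have hCZ : Li '' Metric.closedBall (((a, 0), wT) : En d) r ⊆ g '' Z := by
    rintro _ ⟨v, hv, rfl⟩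
    exact (hO1sub _ (hcb v hv).2).1.2
  have hPc : ContinuousAt (PlD g s l) w0 := (hc0.self_of_nhds).continuousAt
  have hTT : ∀ᶠ v in 𝓝 (0 : En d),
      TTD g s b k l v ∈ Metric.ball (((a, 0), wT) : En d) (r / 2) := by
    have h1 : ContinuousAt (fun v => PlD g s l (g (InD g s b k v))) 0 :=
      ContinuousAt.comp (f := fun v => g (InD g s b k v)) (g := PlD g s l) hPc (hgc k le_rfl)
    have h2 : PlD g s l (g (InD g s b k 0)) = ((a, 0), wT) := hPw0
    refine h1.eventually_mem ?_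
    rw [h2]
    exact Metric.ball_mem_nhds _ (half_pos hr0)
  have hbox : ∀ᶠ v in 𝓝 (0 : En d), |v.1.1| < 1 ∧ |b + v.1.2| < 1 ∧ ‖v.2‖ < 1 := by
    have h1 : Continuous fun v : En d => |v.1.1| := by fun_prop
    have h2 : Continuous fun v : En d => |b + v.1.2| := by fun_prop
    have h3 : Continuous fun v : En d => ‖v.2‖ := by fun_prop
    refine (h1.continuousAt.eventually_lt continuousAt_const (by simp)).and
      ((h2.continuousAt.eventually_lt continuousAt_const ?_).and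
        (h3.continuousAt.eventually_lt continuousAt_const (by simp)))
    show |b + 0| < 1
    rw [add_zero]
    exact ht.b_lt
  refine ⟨r, D, {v | (|v.1.1| < 1 ∧ |b + v.1.2| < 1 ∧ ‖v.2‖ < 1) ∧
    (∀ i ≤ k, InD g s b i v ∈ VOD d ∪ Z) ∧
    (∀ i < k, g (InD g s b i v) ∉ D) ∧ g (InD g s b k v) ∈ D ∧
    TTD g s b k l v ∈ Metric.ball (((a, 0), wT) : En d) (r / 2)}, Li, ?_⟩
  refine
    { r_pos := hr0
      r_lt := hra
      r_ltw := hrw
      openD := hDo
      subD := hDC.trans hCZ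
      compD := ⟨Li '' Metric.closedBall (((a, 0), wT) : En d) r,
        (isCompact_closedBall _ _).image hLs.continuous, hDC, ?_, hCZ⟩
      Pl_mem := fun w hw => hw.2
      Li_Pl := fun w hw => (hO1sub _ hw.1).2.1
      Li_mem := fun v hv => ⟨(hcb v (Metric.ball_subset_closedBall hv)).2, by
        show PlD g s l (Li v) ∈ Metric.ball (((a, 0), wT) : En d) r
        rw [(hcb v (Metric.ball_subset_closedBall hv)).1]
        exact hv⟩
      Pl_Li := fun v hv => (hcb v (Metric.ball_subset_closedBall hv)).1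
      smLi := hLs.contDiffOn
      smPl := hPs.mono fun w hw => (hO1sub _ hw.1).1.1
      path := fun w hw i hi => hPp w (hO1sub _ hw.1).1.1 i hi
      land := fun w hw => (hPl w (hO1sub _ hw.1).1.1).1
      nhB := ?_
      boxB := fun v hv => hv.1
      pathB := fun v hv => hv.2.1
      notD := fun v hv => hv.2.2.1
      inD := fun v hv => hv.2.2.2.1
      TB := fun v hv => hv.2.2.2.2 }
  · intro w hw
    obtain ⟨z, hz, rfl⟩ := hCZ hw
    obtain ⟨h1, h2, h3⟩ := dp03_fold_image hN (interior_subset (ht.subZ hz))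
    refine ⟨⟨⟨by linarith [h1.1], by linarith [h1.2]⟩, by linarith [h2.1], by linarith [h2.2]⟩, ?_⟩
    rw [mem_closedBall_zero_iff]
    linarith
  · have h3 : ∀ᶠ v in 𝓝 (0 : En d), ∀ i ≤ k, InD g s b i v ∈ VOD d ∪ Z := by
      filter_upwards [hO'.mem_nhds h0O'] with v hv
      exact hIp v hv
    have h4 : ∀ᶠ v in 𝓝 (0 : En d), g (InD g s b k v) ∈ D :=
      (hgc k le_rfl).eventually_mem (hDo.mem_nhds hw0D)
    filter_upwards [hbox, h3, hVall, h4, hTT] with v a1 a2 a3 a4 a5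
    refine ⟨a1, a2, fun i hi hiD => ?_, a4, a5⟩
    exact a3 i (Finset.mem_range.2 hi) ((hO1sub _ hiD.1).2.2 i (Finset.mem_range.2 hi))

end Pool.Agent.Lib.H37D
end

-- from Lib.H37D.DP04
section

/-!
# H37D DP04 (S/M): the orbits after an admissible perturbation (port of H37P/P04.lean)

Word for word as H37P/P04 (`dp03_injOn`, `VVd_FFd_disjoint`, `VOD_sub`, `iterate_eq_of_VOD`).
-/

open Set Filter Topology Asymptotics
open scoped ContDiff

namespace Pool.Agent.Lib.H37D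

open Pool.Agent.Lib.H37N

variable {d : ℕ} {g : En d → En d} {s : FrD d} {Z : Set (En d)} {b a : ℝ} {wT : Wd d} {k l : ℕ}
  {r : ℝ} {D B : Set (En d)} {Li : En d → En d}

theorem dp04_iterate {g g' : En d → En d} (h : ∀ z ∈ VOD d, g' z = g z) {n : ℕ} {z : En d}
    (hz : ∀ j < n, g^[j] z ∈ VOD d) : ∀ j ≤ n, g'^[j] z = g^[j] z := by
  intro j
  induction j with
  | zero => intro _; rfl
  | succ j ih =>
    intro hj
    rw [Function.iterate_succ_apply', Function.iterate_succ_apply', ih (by omega)]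
    exact h _ (hz j (by omega))

theorem PlaceD.eqOff (hN : NearS g) (hZ : Z ⊆ interior (FFd d))
    (hp : PlaceD g s Z b a wT k l r D B Li) {ψ : En d → En d} (hψ : AdmD D ψ) :
    EqOffD Z g (ψ ∘ g) := by
  intro z hz hzZ
  show ψ (g z) = g z
  by_cases h : g z ∈ D
  · exfalso
    obtain ⟨z', hz', h1⟩ := hp.subD h
    have hz'F : z' ∈ Dd d := Or.inr (interior_subset (hZ hz'))
    have h2 : z' = z := dp03_injOn hN hz'F hz h1
    exact hzZ (h2 ▸ hz')
  · exact hψ.1 _ h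

theorem PlaceD.eqV (hN : NearS g) (hZ : Z ⊆ interior (FFd d))
    (hp : PlaceD g s Z b a wT k l r D B Li) {ψ : En d → En d} (hψ : AdmD D ψ) :
    ∀ z ∈ VVd d Sy.P ∪ VVd d Sy.Q, (ψ ∘ g) z = g z := by
  intro z hz
  refine hp.eqOff hN hZ hψ z (Or.inl hz) fun h => ?_
  exact Set.disjoint_left.1 VVd_FFd_disjoint hz (interior_subset (hZ h))

theorem PlaceD.iter_in (hN : NearS g) (hp : PlaceD g s Z b a wT k l r D B Li) {ψ : En d → En d}
    (hψ : AdmD D ψ) {v : En d} (hv : v ∈ B) : ∀ i ≤ k, InD (ψ ∘ g) s b i v = InD g s b i v := by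
  intro i
  induction i with
  | zero => intro _; rfl
  | succ i ih =>
    intro hi
    have h1 : InD (ψ ∘ g) s b (i + 1) v = (ψ ∘ g) (InD (ψ ∘ g) s b i v) :=
      Function.iterate_succ_apply' _ _ _
    have h2 : InD g s b (i + 1) v = g (InD g s b i v) := Function.iterate_succ_apply' _ _ _
    rw [h1, h2, ih (by omega)]
    exact hψ.1 _ (hp.notD v hv i (by omega))

theorem PlaceD.iter_D (hN : NearS g) (hZ : Z ⊆ interior (FFd d))
    (hp : PlaceD g s Z b a wT k l r D B Li) {ψ : En d → En d} (hψ : AdmD D ψ) {w : En d}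
    (hw : w ∈ D) : ∀ i ≤ l, (ψ ∘ g)^[i] w = g^[i] w := by
  have h1 : ∀ z ∈ VOD d, (ψ ∘ g) z = g z := fun z hz =>
    hp.eqV hN hZ hψ z (VOD_sub hz)
  exact dp04_iterate h1 (fun j hj => hp.path w hw j hj.le)

/-- the transition after the perturbation, and where it passes -/
theorem PlaceD.transition (hN : NearS g) (hZ : Z ⊆ interior (FFd d))
    (hp : PlaceD g s Z b a wT k l r D B Li) {ψ : En d → En d} (hψ : AdmD D ψ) {v : En d}
    (hv : v ∈ B) :
    TTD (ψ ∘ g) s b k l v = PlD g s l (ψ (Li (TTD g s b k l v))) ∧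
    (ψ ∘ g)^[k + 1 + l] (s.κ Sy.Q ((v.1.1, b + v.1.2), v.2)) = s.κ Sy.P (TTD (ψ ∘ g) s b k l v) ∧
    TTD (ψ ∘ g) s b k l v ∈ Metric.ball (((a, 0), wT) : En d) r ∧
    ∀ i ≤ k + 1 + l, (ψ ∘ g)^[i] (s.κ Sy.Q ((v.1.1, b + v.1.2), v.2)) ∈ VOD d ∪ Z := by
  have hw : g (InD g s b k v) ∈ D := hp.inD v hv
  set w := g (InD g s b k v) with hwd
  have hψw : ψ w ∈ D := hψ.2 w hw
  have hk : (ψ ∘ g) (InD (ψ ∘ g) s b k v) = ψ w := by
    rw [hp.iter_in hN hψ hv k le_rfl]
    rfl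
  have hl : ∀ i ≤ l, (ψ ∘ g)^[i] (ψ w) = g^[i] (ψ w) := hp.iter_D hN hZ hψ hψw
  have hTT : TTD (ψ ∘ g) s b k l v = PlD g s l (ψ w) := by
    unfold TTD PlD
    rw [hk, hl l le_rfl]
  have hTT0 : TTD g s b k l v = PlD g s l w := rfl
  have hk1 : (ψ ∘ g)^[k + 1] (s.κ Sy.Q ((v.1.1, b + v.1.2), v.2)) = ψ w := by
    rw [Function.iterate_succ_apply']
    exact hk
  refine ⟨?_, ?_, ?_, ?_⟩
  · rw [hTT, hTT0, hp.Li_Pl w hw]
  · rw [hTT, Nat.add_comm (k + 1) l, Function.iterate_add_apply, hk1, hl l le_rfl]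
    exact hp.land _ hψw
  · rw [hTT]
    exact hp.Pl_mem _ hψw
  · intro i hi
    rcases Nat.lt_or_ge k i with h | h
    · obtain ⟨j, rfl⟩ : ∃ j, i = j + (k + 1) := ⟨i - (k + 1), by omega⟩
      rw [Function.iterate_add_apply, hk1, hl j (by omega)]
      exact Or.inl (hp.path _ hψw j (by omega))
    · have h1 : (ψ ∘ g)^[i] (s.κ Sy.Q ((v.1.1, b + v.1.2), v.2)) = InD g s b i v :=
        hp.iter_in hN hψ hv i h
      rw [h1]
      exact hp.pathB v hv i h

end Pool.Agent.Lib.H37D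
end

-- from Lib.H37D.DZ24
section

/-! # H37D, chunk DZ24 (S/M): the block for an arbitrary admissible perturbation (port of H37P/Z24.lean) -/

open Set Filter Topology Asymptotics
open scoped ContDiff

namespace Pool.Agent.Lib.H37D

open Pool.Agent.Lib.H37N

variable {d : ℕ}

/-- the chart coordinates (relative to `(0,b)`) at the exit of `Q`, as a function of the parameters and of the point at `P` -/
noncomputable def exE (f : PFD d) (b B0 dS : ℝ) (ε : EP d) (z : En d) : En d := exD f b B0 dS (ε.1 3) ε z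

/-- The block.

PROOF. As in H37P/Z24.lean: `pass_XUD` (DP09) gives δ; the three smallness hypotheses follow from ‖epsD‖ < δ: e1D s n = (epsD ..).1 0, e2D g s m = (epsD ..).1 1, s.al P ^ n = (epsD ..).2 0
(norms of components: `norm_le_pi_norm`, `norm_fst_le`, `norm_snd_le`).  The path is in VOD d, where (ψ ∘ g) z = g z (`PlaceD.eqV`, `VOD_sub`), so the same for ψ ∘ g (induction);
g^[n + kS + m] (κP (YcD z)) = κQ ((v.1.1, b + v.1.2), v.2) with v = exE .. (unfold exE exD; (epsD ..).1 3 = E⁻¹, .1 4 = xi0D, .2 2 = w0D by rfl).  Then `PlaceD.transition` (DP04). -/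
theorem blockD {g : En d → En d} {s : FrD d} {Z : Set (En d)} {b a : ℝ} {wT : Wd d} {k l : ℕ} {r : ℝ}
    {D B : Set (En d)} {Li : En d → En d} (hN : NearS g) (hs : IsFrD g s) (hZ : Z ⊆ interior (FFd d))
    (hp : PlaceD g s Z b a wT k l r D B Li) {f : PFD d} {rf : ℝ} (hf : IsPFD g s f rf) :
    ∃ δ > 0, ∀ ψ, AdmD D ψ → ∀ (B0 : ℝ) (n m : ℕ) (z : En d), ‖epsD g s B0 n m‖ < δ →
      |z.1.1| ≤ 1 → |z.1.2 + b| ≤ 1 → ‖z.2‖ ≤ 1 →
      exE f b B0 (dSD g s) (epsD g s B0 n m) z ∈ B →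
      (ψ ∘ g)^[n + s.kS + m + (k + 1 + l)] (s.κ Sy.P (YcD g s f b n m z)) =
        s.κ Sy.P (PlD g s l (ψ (Li (TTD g s b k l (exE f b B0 (dSD g s) (epsD g s B0 n m) z))))) ∧
      ∀ i ≤ n + s.kS + m + (k + 1 + l),
        (ψ ∘ g)^[i] (s.κ Sy.P (YcD g s f b n m z)) ∈ VOD d ∪ Z := by
  obtain ⟨δ, hδ, hpass⟩ := pass_XUD hs hf
  refine ⟨δ, hδ, fun ψ hψ B0 n m z he hX hU hw hB => ?_⟩
  have h1 : |e1D s n| < δ :=
    ((norm_le_pi_norm (epsD g s B0 n m).1 0).trans (norm_fst_le _)).trans_lt he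
  have h2 : |e2D g s m| < δ :=
    ((norm_le_pi_norm (epsD g s B0 n m).1 1).trans (norm_fst_le _)).trans_lt he
  have h0 : ‖s.al Sy.P ^ n‖ < δ :=
    ((norm_le_pi_norm (epsD g s B0 n m).2 0).trans (norm_snd_le _)).trans_lt he
  obtain ⟨h3, h4⟩ := hpass B0 n m b z h1 h2 h0 hX hU hw
  have hV : ∀ z ∈ VOD d, (ψ ∘ g) z = g z := fun z hz => hp.eqV hN hZ hψ z (VOD_sub hz)
  have key : ∀ i ≤ n + s.kS + m,
      (ψ ∘ g)^[i] (s.κ Sy.P (YcD g s f b n m z)) =
        g^[i] (s.κ Sy.P (YcD g s f b n m z)) := by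
    intro i
    induction i with
    | zero => intro _; rfl
    | succ i ih =>
      intro hi
      have ih' := ih (by omega)
      rw [Function.iterate_succ_apply', Function.iterate_succ_apply', ih']
      exact hV _ (h4 i (by omega))
  obtain ⟨t1, t2, -, t4⟩ := hp.transition hN hZ hψ hB
  have h5 : (ψ ∘ g)^[n + s.kS + m] (s.κ Sy.P (YcD g s f b n m z)) =
      s.κ Sy.Q (((exE f b B0 (dSD g s) (epsD g s B0 n m) z).1.1,
        b + (exE f b B0 (dSD g s) (epsD g s B0 n m) z).1.2),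
        (exE f b B0 (dSD g s) (epsD g s B0 n m) z).2) := by
    rw [key _ le_rfl]
    exact h3
  refine ⟨?_, fun i hi => ?_⟩
  · rw [add_comm (n + s.kS + m) (k + 1 + l), Function.iterate_add_apply, h5]
    rw [← t1]
    exact t2
  · rcases le_or_gt i (n + s.kS + m) with hle | hgt
    · rw [key i hle]
      exact Or.inl (h4 i hle)
    · obtain ⟨j, rfl⟩ := Nat.exists_eq_add_of_lt hgt
      have e : n + s.kS + m + j + 1 = (j + 1) + (n + s.kS + m) := by omega
      rw [e, Function.iterate_add_apply, h5]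
      exact t4 (j + 1) (by omega)

end Pool.Agent.Lib.H37D
end
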