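import Pool.Agent.Lib.H1M.FF.M039
import Pool.Agent.Lib.H1M.FF.M042
import Pool.Agent.Lib.H1M.FF.M049
import Pool.Agent.Lib.H1M.FF.M050

/-! Merged copies (to shorten the build) of Lib.H37D.DM08, Lib.H37D.DM09, Lib.H37D.DM5, Lib.H37D.DM10, Lib.H37D.DM12. -/

-- from Lib.H37D.DM08
section

/-!
# H37D DM08: the model with a source and an exit
-/

open Set Filter Topology
open scoped ContDiff

namespace Pool.Agent.Lib.H37D

open Pool.Agent.Lib.H37N

variable {d : ℕ}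

/-- the source -/
def pS (d : ℕ) (R0 : ℝ) : En d := ((-(3 * R0 + 7), 0), 0)

/-- a region on which the inverse of the model is a contraction to the source -/
def CxS (d : ℕ) (R0 : ℝ) : Set (En d) :=
  {z | -(5 * R0 + 13) ≤ z.1.1 ∧ z.1.1 ≤ R0 + 1 ∧ |z.1.2| ≤ 2 * R0 + 6 ∧ ‖z.2‖ ≤ 2 * R0 + 6 ∧
    (1 / 4 ≤ ‖z.2‖ ∨ z.1.1 ≤ -R0 - 1 / 2)}

/-- a smaller region -/
def CxS' (d : ℕ) (R0 : ℝ) : Set (En d) :=
  {z | -(5 * R0 + 12) ≤ z.1.1 ∧ z.1.1 ≤ R0 + 1 / 2 ∧ |z.1.2| ≤ 2 * R0 + 5 ∧ ‖z.2‖ ≤ 2 * R0 + 5 ∧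
    (1 / 2 ≤ ‖z.2‖ ∨ z.1.1 ≤ -R0 - 1)}

/-- the exit set -/
def C1S (d : ℕ) : Set (En d) :=
  {z | -1 ≤ z.1.1 ∧ z.1.1 ≤ 2 ∧ |z.1.2| ≤ 2 ∧ 5 / 10 ^ 8 ≤ ‖z.2‖ ∧ ‖z.2‖ ≤ 1}

theorem dm08_mulw {w : Wd d} {r : ℝ} (hw : ‖w‖ ≤ r) : ‖mulw (awk d) w‖ ≤ 1 / 10 ^ 7 * r := by
  have hr : 0 ≤ r := (norm_nonneg _).trans hw
  rw [pi_norm_le_iff_of_nonneg (by positivity)]
  intro k
  obtain ⟨h1, h2⟩ := awk_bounds k
  show ‖awk d k * w k‖ ≤ _
  rw [norm_mul, Real.norm_eq_abs, abs_of_nonneg (le_trans (by norm_num) h1)]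
  exact mul_le_mul h2 ((norm_le_pi_norm w k).trans hw) (norm_nonneg _) (by norm_num)

theorem dm08_aff {i : Sy} {z : Pt} (hz : z ∈ VVo i) : -1 ≤ (Aff i z).1 ∧ (Aff i z).1 ≤ 2 ∧
    -1 ≤ (Aff i z).2 ∧ (Aff i z).2 ≤ 2 := by
  obtain ⟨⟨h1, h2⟩, h3, h4⟩ := hz
  cases i
  · simp only [al, pw, del] at h1 h2 h3 h4
    simp only [Aff, al, pw, be, qw]
    refine ⟨?_, ?_, ?_, ?_⟩
    · rw [le_div_iff₀ (by norm_num)]; linarith
    · rw [div_le_iff₀ (by norm_num)]; linarith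
    · linarith
    · linarith
  · simp only [al, pw, del] at h1 h2 h3 h4
    simp only [Aff, al, pw, be, qw]
    refine ⟨?_, ?_, ?_, ?_⟩
    · rw [le_div_iff₀ (by norm_num)]; linarith
    · rw [div_le_iff₀ (by norm_num)]; linarith
    · linarith
    · linarith

theorem dm08_fold {z : Pt} (hz : z ∈ FFo) : -1 ≤ (Fold z).1 ∧ (Fold z).1 ≤ 2 ∧
    -1 ≤ (Fold z).2 ∧ (Fold z).2 ≤ 2 := by
  obtain ⟨⟨h1, h2⟩, h3, h4⟩ := hz
  simp only [xc, u0, del] at h1 h2 h3 h4
  simp only [Fold, xc, yc, cc, dd]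
  obtain ⟨x, y⟩ := z
  simp only at h1 h2 h3 h4 ⊢
  have h5 : (x - 8005 / 10000) ^ 2 ≤ (26 / 100000) ^ 2 := by nlinarith
  have h6 : 0 ≤ (x - 8005 / 10000) ^ 2 := sq_nonneg _
  refine ⟨?_, ?_, ?_, ?_⟩ <;> linarith

theorem modelD (d : ℕ) : ∃ (F B : En d → En d) (R0 : ℝ), (10 : ℝ) ^ 7 ≤ R0 ∧ IsCD F B ∧
    (∀ (i : Sy) (z : Pt) (w : Wd d), z ∈ VVo i → ‖w‖ ≤ 11 / 10 → F (z, w) = AffD d i (z, w)) ∧
    (∀ (z : Pt) (w : Wd d), z ∈ FFo → ‖w‖ ≤ 11 / 10 → F (z, w) = FoldD d (z, w)) ∧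
    (∀ z ∈ CxS d R0, B z = pS d R0 + (1 / 2 : ℝ) • (z - pS d R0)) ∧
    ∀ z ∈ C1S d, B z ∈ CxS' d R0 := by
  obtain ⟨Φ, Φi, R1, hΦ, hΦ2, hΦs, hΦV, hΦF⟩ := dm_planar d
  set R0 : ℝ := max R1 (10 ^ 7) with hR0
  have hR7 : (10 : ℝ) ^ 7 ≤ R0 := le_max_right _ _
  have hR4 : (4 : ℝ) ≤ R0 := le_trans (by norm_num) hR7
  have hΦs' : ∀ z : En d, R0 ≤ ‖z.1‖ → Φ z = z := fun z hz => hΦs z ((le_max_left _ _).trans hz)
  set C : ℝ := 6 * R0 + 16 with hC
  have hC0 : 0 ≤ C := by linarith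
  obtain ⟨T, Ti, hT, hT1, hT2, hT3, hT4⟩ := dm_T d R0 C hR4
  obtain ⟨Sx, Sxi, β, hSx, hβ, hβ1, hβ2, hSx1⟩ := dm_Sx d R0 C hR4
  obtain ⟨Sy', Syi, hSy, hSy1⟩ := dm_Sy d R0 C
  obtain ⟨Sw, Swi, hSw, hSw1⟩ := dm_Sw d R0 C hC0
  have hB := hΦ.symm.comp (hSw.comp (hSy.comp (hSx.comp hT)))
  -- the explicit part of B
  have hBx : ∀ z : En d, ‖T z‖ ≤ C → |β (T z).1.1| ≤ C →
      Φi (Sw (Sy' (Sx (T z)))) = Φi ((β (T z).1.1, (1 - rhoS R0 (β (T z).1.1) / 2) * (T z).1.2),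
        fun k => nuS d R0 k (β (T z).1.1) * (T z).2 k) := by
    intro z h1 h2
    have h3 : ‖(T z).1‖ ≤ C := (norm_fst_le _).trans h1
    have h4 : ‖(T z).2‖ ≤ C := (norm_snd_le _).trans h1
    have h5 : |(T z).1.2| ≤ C := (norm_snd_le (T z).1).trans h3
    rw [hSx1 _ h1]
    have h6 : ‖(((β (T z).1.1, (T z).1.2), (T z).2) : En d)‖ ≤ C := by
      rw [Prod.norm_def, Prod.norm_def]
      exact max_le (max_le h2 h5) h4
    rw [hSy1 _ h6]
    have h7 : ‖(((β (T z).1.1, (1 - rhoS R0 (β (T z).1.1) / 2) * (T z).1.2), (T z).2) : En d)‖ ≤ C := by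
      rw [Prod.norm_def, Prod.norm_def]
      refine max_le (max_le h2 ?_) h4
      obtain ⟨h8, h9⟩ := rhoS_mem R0 (β (T z).1.1)
      show |(1 - rhoS R0 (β (T z).1.1) / 2) * (T z).1.2| ≤ C
      rw [abs_mul, abs_of_nonneg (by linarith)]
      have h10 := abs_nonneg (T z).1.2
      nlinarith
    rw [hSw1 _ h7]
  -- the images of the strips
  have hFB : ∀ (q : Pt) (z : Pt) (w : Wd d), ‖w‖ ≤ 11 / 10 → Φ (z, w) = (q, w) → -1 ≤ q.1 → q.1 ≤ 2 →
      -1 ≤ q.2 → q.2 ≤ 2 → Φi (Sw (Sy' (Sx (T (q, mulw (awk d) w))))) = (z, w) := by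
    intro q z w hw hq h1 h2 h3 h4
    have hm : ‖mulw (awk d) w‖ ≤ 11 / 10 ^ 8 := by
      have := dm08_mulw hw
      norm_num at this ⊢
      linarith
    have hqn : ‖((q, mulw (awk d) w) : En d)‖ ≤ C := by
      rw [Prod.norm_def, Prod.norm_def]
      refine max_le (max_le ?_ ?_) (hm.trans (by norm_num; linarith))
      · rw [Real.norm_eq_abs, abs_le]; constructor <;> linarith
      · rw [Real.norm_eq_abs, abs_le]; constructor <;> linarith
    have hTq : T (q, mulw (awk d) w) = ((q.1 + (R0 + 3), q.2), mulw (awk d) w) := by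
      rw [hT4 _ hqn (by show -R0 + 1 ≤ q.1; linarith) hm]
      ext <;> simp [eX]
    have hb : β (q.1 + (R0 + 3)) = q.1 := by
      rw [hβ2 _ (by linarith)]
      ring
    rw [hBx]
    · rw [hTq]
      simp only [hb]
      have hr : rhoS R0 q.1 = 0 := rhoS_zero (by linarith)
      have hn : (fun k => nuS d R0 k q.1 * mulw (awk d) w k) = w := by
        funext k
        obtain ⟨h5, h6⟩ := awk_bounds k
        have h7 : awk d k ≠ 0 := (lt_of_lt_of_le (by norm_num) h5).ne'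
        show nuS d R0 k q.1 * (awk d k * w k) = w k
        rw [nuS, hr]
        field_simp
        ring
      rw [hn, hr]
      have : ((q.1, (1 - 0 / 2) * q.2) : Pt) = q := by
        ext <;> simp
      rw [this, ← hq, hΦ.left]
    · rw [hTq, Prod.norm_def, Prod.norm_def]
      refine max_le (max_le ?_ ?_) (hm.trans (by norm_num; linarith))
      · show |q.1 + (R0 + 3)| ≤ C
        rw [abs_le]; constructor <;> linarith
      · show |q.2| ≤ C
        rw [abs_le]; constructor <;> linarith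
    · rw [hTq]
      show |β (q.1 + (R0 + 3))| ≤ C
      rw [hb, abs_le]; constructor <;> linarith
  refine ⟨_, _, R0, hR7, hB.symm, ?_, ?_, ?_, ?_⟩
  · intro i z w hz hw
    obtain ⟨h1, h2, h3, h4⟩ := dm08_aff hz
    have h5 := hFB (Aff i z) z w hw (hΦV i z w hz (hw.trans (by norm_num))) h1 h2 h3 h4
    have h6 := hB.left (Aff i z, mulw (awk d) w)
    rw [h5] at h6
    exact h6
  · intro z w hz hw
    obtain ⟨h1, h2, h3, h4⟩ := dm08_fold hz
    have h5 := hFB (Fold z) z w hw (hΦF z w hz (hw.trans (by norm_num))) h1 h2 h3 h4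
    have h6 := hB.left (Fold z, mulw (awk d) w)
    rw [h5] at h6
    exact h6
  · rintro z ⟨h1, h2, h3, h4, h5⟩
    have hTz : T z = z := by
      rcases h5 with h5 | h5
      · exact hT3 z (le_trans (by norm_num) h5)
      · exact hT2 z (by linarith)
    have hβz : β z.1.1 = (z.1.1 - (3 * R0 + 7)) / 2 := hβ1 _ h2
    have hzn : ‖z‖ ≤ C := by
      rw [Prod.norm_def, Prod.norm_def]
      refine max_le (max_le ?_ ?_) (by linarith)
      · rw [Real.norm_eq_abs, abs_le]; constructor <;> linarith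
      · rw [Real.norm_eq_abs]; linarith
    show Φi (Sw (Sy' (Sx (T z)))) = _
    rw [hBx z (by rw [hTz]; exact hzn) (by
      rw [hTz, hβz, abs_le]; constructor <;> linarith)]
    rw [hTz, hβz]
    have hr : rhoS R0 ((z.1.1 - (3 * R0 + 7)) / 2) = 1 := rhoS_one (by linarith)
    have hfix : ∀ q : En d, R0 ≤ ‖q.1‖ → Φi q = q := fun q hq => by
      have := hΦ.left q
      rw [hΦs' q hq] at this
      exact this
    rw [hfix]
    · refine Prod.ext (Prod.ext ?_ ?_) (funext fun k => ?_)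
      · show (z.1.1 - (3 * R0 + 7)) / 2 = -(3 * R0 + 7) + 1 / 2 * (z.1.1 - -(3 * R0 + 7))
        ring
      · show (1 - rhoS R0 ((z.1.1 - (3 * R0 + 7)) / 2) / 2) * z.1.2 = 0 + 1 / 2 * (z.1.2 - 0)
        rw [hr]
        ring
      · show nuS d R0 k ((z.1.1 - (3 * R0 + 7)) / 2) * z.2 k = 0 + 1 / 2 * (z.2 k - 0)
        rw [nuS, hr]
        ring
    · refine le_trans ?_ (norm_fst_le _)
      show R0 ≤ |(z.1.1 - (3 * R0 + 7)) / 2|
      rw [le_abs]
      right
      linarith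
  · rintro z ⟨h1, h2, h3, h4, h5⟩
    obtain ⟨t, ht0, ht1, hTz⟩ := hT1 z
    have hTz' : T z = ((z.1.1 + t, z.1.2), z.2) := by
      rw [hTz]
      ext <;> simp [eX]
    have hb1 : β (z.1.1 + t) ≤ z.1.1 := by
      have h6 : β (z.1.1 + t) ≤ β (z.1.1 + (R0 + 3)) := hβ (by linarith)
      rw [hβ2 (z.1.1 + (R0 + 3)) (by linarith)] at h6
      linarith
    have hb2 : -(3 * R0 + 8) / 2 ≤ β (z.1.1 + t) := by
      have h6 : β z.1.1 ≤ β (z.1.1 + t) := hβ (by linarith)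
      rw [hβ1 z.1.1 (by linarith)] at h6
      linarith
    obtain ⟨h3a, h3b⟩ := abs_le.1 h3
    show Φi (Sw (Sy' (Sx (T z)))) ∈ _
    rw [hBx z (by
      rw [hTz', Prod.norm_def, Prod.norm_def]
      refine max_le (max_le ?_ ?_) (by show ‖z.2‖ ≤ C; linarith)
      · show |z.1.1 + t| ≤ C
        rw [abs_le]; constructor <;> linarith
      · show |z.1.2| ≤ C
        linarith) (by
      rw [hTz']
      show |β (z.1.1 + t)| ≤ C
      rw [abs_le]; constructor <;> linarith)]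
    rw [hTz']
    simp only
    set x := β (z.1.1 + t) with hx
    set y := (1 - rhoS R0 x / 2) * z.1.2 with hy
    set w : Wd d := fun k => nuS d R0 k x * z.2 k with hw
    obtain ⟨hr0, hr1⟩ := rhoS_mem R0 x
    have hyn : |y| ≤ 2 := by
      rw [hy, abs_mul, abs_of_nonneg (by linarith)]
      have := abs_nonneg z.1.2
      nlinarith
    have hwn : ‖w‖ ≤ 12 / 10 * 10 ^ 7 := by
      rw [pi_norm_le_iff_of_nonneg (by norm_num)]
      intro k
      obtain ⟨h6, h7⟩ := nuS_mem R0 k x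
      show ‖nuS d R0 k x * z.2 k‖ ≤ _
      rw [norm_mul, Real.norm_eq_abs, abs_of_nonneg (by linarith)]
      have h8 : ‖z.2 k‖ ≤ 1 := (norm_le_pi_norm z.2 k).trans h5
      have h9 := norm_nonneg (z.2 k)
      nlinarith
    have hwl : -R0 - 1 ≤ x → 1 / 2 ≤ ‖w‖ := by
      intro hxr
      have h6 : ∃ k, 5 / 10 ^ 8 ≤ ‖z.2 k‖ := by
        by_contra hcon
        push Not at hcon
        exact absurd ((pi_norm_lt_iff (by norm_num)).2 hcon) (not_lt.2 h4)
      obtain ⟨k, hk⟩ := h6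
      obtain ⟨h7, h8⟩ := awk_inv k
      have h9 : nuS d R0 k x = 1 / awk d k := by
        rw [nuS, rhoS_zero hxr]
        ring
      have h10 : ‖w k‖ ≤ ‖w‖ := norm_le_pi_norm w k
      have h11 : ‖w k‖ = 1 / awk d k * ‖z.2 k‖ := by
        show ‖nuS d R0 k x * z.2 k‖ = _
        rw [norm_mul, h9, Real.norm_eq_abs, abs_of_nonneg (le_trans (by norm_num) h7)]
      rw [h11] at h10
      have h12 : 10 ^ 7 * (5 / 10 ^ 8) ≤ 1 / awk d k * ‖z.2 k‖ :=
        mul_le_mul h7 hk (by norm_num) (le_trans (by norm_num) h7)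
      have h13 : (10 : ℝ) ^ 7 * (5 / 10 ^ 8) = 1 / 2 := by norm_num
      rw [h13] at h12
      linarith
    -- the planar part
    have hΦi2 : ∀ q : En d, (Φi q).2 = q.2 := fun q => by
      have := hΦ2 (Φi q)
      rw [hΦ.right] at this
      exact this.symm
    have hfix : ∀ q : En d, R0 ≤ ‖q.1‖ → Φi q = q := fun q hq => by
      have := hΦ.left q
      rw [hΦs' q hq] at this
      exact this
    have hin : ∀ q : En d, ‖q.1‖ < R0 → ‖(Φi q).1‖ ≤ R0 := fun q hq => by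
      by_contra hcon
      push Not at hcon
      have h6 := hΦs' (Φi q) hcon.le
      rw [hΦ.right] at h6
      rw [h6] at hq
      exact absurd hq (not_lt.2 hcon.le)
    have h2R : (12 / 10 * 10 ^ 7 : ℝ) ≤ 2 * R0 + 5 := by linarith
    rcases lt_or_ge ‖((x, y) : Pt)‖ R0 with hxy | hxy
    · have h6 := hin ((x, y), w) hxy
      have h7 := hΦi2 ((x, y), w)
      have h8 : |x| < R0 := lt_of_le_of_lt (norm_fst_le ((x, y) : Pt)) hxy
      have h9 : |(Φi ((x, y), w)).1.1| ≤ R0 := (norm_fst_le _).trans h6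
      have h10 : |(Φi ((x, y), w)).1.2| ≤ R0 := (norm_snd_le _).trans h6
      rw [abs_le] at h9
      have h11 := (abs_lt.1 h8).1
      refine ⟨by linarith, by linarith, by linarith, ?_, Or.inl ?_⟩
      · rw [h7]
        exact hwn.trans h2R
      · rw [h7]
        exact hwl (by linarith)
    · rw [hfix _ hxy]
      refine ⟨by show -(5 * R0 + 12) ≤ x; linarith, by show x ≤ R0 + 1 / 2; linarith,
        by show |y| ≤ _; linarith, hwn.trans h2R, ?_⟩
      rcases le_total (-R0 - 1) x with h6 | h6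
      · exact Or.inl (hwl h6)
      · exact Or.inr h6

end Pool.Agent.Lib.H37D
end

-- from Lib.H37D.DM09
section

/-!
# H37D DM09: the model in the form `ModelD`
-/

open Set Filter Topology
open scoped ContDiff

namespace Pool.Agent.Lib.H37D

open Pool.Agent.Lib.H37N

variable {d : ℕ}

theorem dm09_VVm {i : Sy} {z : Pt} (h : z ∈ VVm i) : z ∈ VVo i := by
  obtain ⟨⟨h1, h2⟩, h3, h4⟩ := h
  simp only [del] at h1 h2 h3 h4
  refine ⟨⟨?_, ?_⟩, ?_, ?_⟩ <;> simp only [del] <;> norm_num at h1 h2 h3 h4 ⊢ <;> linarith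

theorem dm09_FFm {z : Pt} (h : z ∈ FFm) : z ∈ FFo := by
  obtain ⟨⟨h1, h2⟩, h3, h4⟩ := h
  simp only [del] at h1 h2 h3 h4
  refine ⟨⟨?_, ?_⟩, ?_, ?_⟩ <;> simp only [del] <;> norm_num at h1 h2 h3 h4 ⊢ <;> linarith

theorem dm09_norm {z : En d} {R : ℝ} (h1 : |z.1.1| ≤ R) (h2 : |z.1.2| ≤ R) (h3 : ‖z.2‖ ≤ R) : ‖z‖ ≤ R := by
  rw [Prod.norm_def, Prod.norm_def]
  exact max_le (max_le h1 h2) h3

theorem dm09_ent {z : En d} {R : ℝ} (h : ‖z‖ ≤ R) : |z.1.1| ≤ R ∧ |z.1.2| ≤ R ∧ ‖z.2‖ ≤ R :=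
  ⟨((norm_fst_le z.1).trans (norm_fst_le z)).trans h, ((norm_snd_le z.1).trans (norm_fst_le z)).trans h,
    (norm_snd_le z).trans h⟩

theorem dm09_ball {R0 : ℝ} (hR : (10 : ℝ) ^ 7 ≤ R0) {z : En d} (hz : ‖z - pS d R0‖ ≤ 2 * R0 + 5) :
    z ∈ CxS d R0 := by
  norm_num at hR
  obtain ⟨h1, h2, h3⟩ := dm09_ent hz
  have e1 : (z - pS d R0).1.1 = z.1.1 + (3 * R0 + 7) := by
    show z.1.1 - -(3 * R0 + 7) = _
    ring
  have e2 : (z - pS d R0).1.2 = z.1.2 := by simp [pS]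
  have e3 : (z - pS d R0).2 = z.2 := by simp [pS]
  rw [e1, abs_le] at h1
  rw [e2] at h2
  rw [e3] at h3
  exact ⟨by linarith, by linarith, by linarith, by linarith, Or.inr (by linarith)⟩

theorem dm09_half {R0 : ℝ} {B : En d → En d}
    (hB : ∀ z ∈ CxS d R0, B z = pS d R0 + (1 / 2 : ℝ) • (z - pS d R0)) {z : En d} (hz : z ∈ CxS d R0)
    {ρ : ℝ} (h : ‖z - pS d R0‖ ≤ 2 * ρ) : ‖B z - pS d R0‖ ≤ ρ := by
  rw [hB z hz, add_sub_cancel_left, norm_smul, Real.norm_eq_abs, abs_of_pos (by norm_num : (0 : ℝ) < 1 / 2)]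
  linarith

theorem exists_modelD (d : ℕ) : ∃ (F B : En d → En d) (p : En d) (rho r : ℝ), 4 ≤ r ∧ ModelD F B p rho r := by
  obtain ⟨F, B, R0, hR, hFB, hV, hF, hC, hE⟩ := modelD d
  obtain ⟨r, hr⟩ := hFB.supp
  have hR7 := hR
  norm_num at hR7
  refine ⟨F, B, pS d R0, 2 * R0 + 5, max r (6 * R0), le_trans (by linarith) (le_max_right _ _), ?_⟩
  refine
    { smooth := hFB.smooth
      smooth_B := hFB.smoothi
      left := hFB.left
      right := hFB.right
      supp := fun z hz => hr z ((le_max_left _ _).trans hz)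
      hV := fun i z hz hw => hV i z.1 z.2 (dm09_VVm hz) (hw.trans (by norm_num))
      hF := fun z hz hw => hF z.1 z.2 (dm09_FFm hz) (hw.trans (by norm_num))
      rho_pos := by linarith
      sub := fun z hz => ?_
      lin := fun z hz => hC z (dm09_ball hR (mem_closedBall_iff_norm.1 hz))
      far := ?_
      exit := fun z h1 h2 h3 h4 => ?_ }
  · rw [mem_ball_zero_iff]
    obtain ⟨h1, h2, h3, h4, -⟩ := dm09_ball hR (mem_closedBall_iff_norm.1 hz)
    have h5 : ‖z‖ ≤ 5 * R0 + 13 :=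
      dm09_norm (abs_le.2 ⟨by linarith, by linarith⟩) (by linarith) (by linarith)
    refine lt_of_le_of_lt h5 (lt_of_lt_of_le ?_ (le_max_right _ _))
    linarith
  · rw [Set.disjoint_left]
    intro z hz hzO
    have h1 := (dm09_ent (mem_closedBall_iff_norm.1 hz)).1
    have e1 : (z - pS d R0).1.1 = z.1.1 + (3 * R0 + 7) := by
      show z.1.1 - -(3 * R0 + 7) = _
      ring
    rw [e1, abs_le] at h1
    have h2 : -1 ≤ z.1.1 := by
      obtain ⟨(h | h) | h, -⟩ := hzO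
      · have h3 := (interior_subset h).1.1
        simp only [al, del] at h3
        linarith
      · have h3 := (interior_subset h).1.1
        simp only [al, del] at h3
        linarith
      · have h3 := (interior_subset h).1.1
        simp only [xc, u0] at h3
        linarith
    linarith
  · simp only [del, mem_Icc] at h1 h2
    norm_num at h1 h2
    have hz : z ∈ C1S d := ⟨by linarith, by linarith, abs_le.2 ⟨by linarith, by linarith⟩, h3, h4⟩
    obtain ⟨k1, k2, k3, k4, k5⟩ := hE z hz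
    have hz1 : B z ∈ CxS d R0 := by
      refine ⟨by linarith, by linarith, by linarith, by linarith, ?_⟩
      rcases k5 with k5 | k5
      · exact Or.inl (by linarith)
      · exact Or.inr (by linarith)
    have e1 : (B z - pS d R0).1.1 = (B z).1.1 + (3 * R0 + 7) := by
      show (B z).1.1 - -(3 * R0 + 7) = _
      ring
    have e2 : (B z - pS d R0).1.2 = (B z).1.2 := by simp [pS]
    have e3 : (B z - pS d R0).2 = (B z).2 := by simp [pS]
    have hn1 : ‖B z - pS d R0‖ ≤ 2 * (2 * R0 + 4) := by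
      refine dm09_norm ?_ ?_ ?_
      · rw [e1, abs_le]
        constructor <;> linarith
      · rw [e2]
        linarith
      · rw [e3]
        linarith
    have hn2 := dm09_half hC hz1 hn1
    have hz2 : B (B z) ∈ CxS d R0 := dm09_ball hR (by linarith)
    have hn3 := dm09_half hC hz2 (ρ := R0 + 2) (by linarith)
    show B (B (B z)) ∈ _
    rw [mem_ball_iff_norm]
    linarith

end Pool.Agent.Lib.H37D
end

-- from Lib.H37D.DM5
section

/-!
# H37D DM5: the fixed point of a map close to a contraction; exit from the neighbourhood of an orbit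
-/

open Set Filter Topology
open scoped ContDiff Manifold

namespace Pool.Agent.Lib.H37D

open Pool.Agent.Lib.H37N

variable {d : ℕ}

theorem dm5_fix {B b : En d → En d} {p : En d} {rho : ℝ} (hρ : 0 < rho)
    (hlin : ∀ z ∈ Metric.closedBall p rho, B z = p + (1 / 2 : ℝ) • (z - p)) {ε : ℝ}
    (hε : ε ≤ rho / 8) (hε4 : ε ≤ 1 / 10 ^ 4)
    (hbd : ∀ z ∈ Metric.closedBall p rho, DifferentiableAt ℝ b z)
    (hb0 : ∀ z ∈ Metric.closedBall p rho, ‖b z - B z‖ ≤ ε)
    (hb1 : ∀ z ∈ Metric.closedBall p rho, ‖fderiv ℝ b z - fderiv ℝ B z‖ ≤ ε) :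
    ∃ q ∈ Metric.ball p rho, b q = q ∧
      ∀ z ∈ Metric.ball p rho, b z ∈ Metric.ball p rho ∧ ‖b z - q‖ ≤ 3 / 4 * ‖z - q‖ := by
  have hsub : Metric.ball p rho ⊆ Metric.closedBall p rho := Metric.ball_subset_closedBall
  have hmap : ∀ z ∈ Metric.closedBall p rho, ‖b z - p‖ ≤ 5 / 8 * rho := by
    intro z hz
    have h1 := hb0 z hz
    have h2 : ‖B z - p‖ ≤ 1 / 2 * rho := by
      rw [hlin z hz, add_sub_cancel_left, norm_smul, Real.norm_eq_abs, abs_of_pos (by norm_num : (0 : ℝ) < 1 / 2)]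
      have h3 : ‖z - p‖ ≤ rho := by rwa [← dist_eq_norm, ← Metric.mem_closedBall]
      linarith
    have h4 : ‖b z - p‖ ≤ ‖b z - B z‖ + ‖B z - p‖ := norm_sub_le_norm_sub_add_norm_sub _ _ _
    linarith
  have hder : ∀ z ∈ Metric.ball p rho, ‖fderiv ℝ b z‖ ≤ 3 / 4 := by
    intro z hz
    have h1 : B =ᶠ[𝓝 z] fun z => p + (1 / 2 : ℝ) • (z - p) := by
      filter_upwards [Metric.isOpen_ball.mem_nhds hz] with y hy
      exact hlin y (hsub hy)
    have h2 : HasFDerivAt (fun z : En d => p + (1 / 2 : ℝ) • (z - p)) ((1 / 2 : ℝ) • ContinuousLinearMap.id ℝ (En d)) z :=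
      (((hasFDerivAt_id z).sub_const p).const_smul (1 / 2 : ℝ)).const_add p
    have h3 : fderiv ℝ B z = (1 / 2 : ℝ) • ContinuousLinearMap.id ℝ (En d) := by
      rw [h1.fderiv_eq, h2.fderiv]
    have h4 : ‖fderiv ℝ B z‖ ≤ 1 / 2 := by
      rw [h3]
      refine ContinuousLinearMap.opNorm_le_bound _ (by norm_num) fun v => ?_
      show ‖(1 / 2 : ℝ) • v‖ ≤ _
      rw [norm_smul, Real.norm_eq_abs, abs_of_pos (by norm_num : (0 : ℝ) < 1 / 2)]
    have h5 := hb1 z (hsub hz)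
    have h6 : ‖fderiv ℝ b z‖ ≤ ‖fderiv ℝ b z - fderiv ℝ B z‖ + ‖fderiv ℝ B z‖ := norm_le_norm_sub_add _ _
    norm_num at hε4
    linarith
  have hlip : ∀ z ∈ Metric.ball p rho, ∀ z' ∈ Metric.ball p rho, ‖b z - b z'‖ ≤ 3 / 4 * ‖z - z'‖ := by
    intro z hz z' hz'
    exact Convex.norm_image_sub_le_of_norm_fderiv_le (𝕜 := ℝ) (s := Metric.ball p rho)
      (fun y hy => hbd y (hsub hy)) hder (convex_ball p rho) hz' hz
  have hS : ∀ z ∈ Metric.closedBall p (3 / 4 * rho), z ∈ Metric.ball p rho := by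
    intro z hz
    rw [Metric.mem_closedBall] at hz
    rw [Metric.mem_ball]
    linarith
  have hmS : MapsTo b (Metric.closedBall p (3 / 4 * rho)) (Metric.closedBall p (3 / 4 * rho)) := by
    intro z hz
    rw [Metric.mem_closedBall, dist_eq_norm]
    have := hmap z (hsub (hS z hz))
    linarith
  have hctr : ContractingWith (3 / 4 : NNReal) (hmS.restrict b _ _) := by
    refine ⟨?_, ?_⟩
    · rw [← NNReal.coe_lt_coe]
      push_cast
      norm_num
    · refine LipschitzWith.of_dist_le_mul fun x y => ?_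
      have h1 := hlip x.1 (hS _ x.2) y.1 (hS _ y.2)
      rw [← dist_eq_norm, ← dist_eq_norm] at h1
      push_cast
      exact h1
  have hpS : p ∈ Metric.closedBall p (3 / 4 * rho) := Metric.mem_closedBall_self (by positivity)
  obtain ⟨q, hqS, hq, -, -⟩ := ContractingWith.exists_fixedPoint' (Metric.isClosed_closedBall.isComplete) hmS hctr hpS
    (edist_ne_top _ _)
  refine ⟨q, hS q hqS, hq, fun z hz => ⟨?_, ?_⟩⟩
  · rw [Metric.mem_ball, dist_eq_norm]
    have := hmap z (hsub hz)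
    linarith
  · have h1 := hlip z hz q (hS q hqS)
    rwa [hq] at h1

/-- exit -/
theorem dm5_exit {y x : ℕ → En d} (hy : ∀ k, y k ∈ Omd d) (hw : ∀ k, ‖(y k).2‖ ≤ 2 / 10 ^ 12) (hx0 : x 0 ∈ Omd d)
    (hne : (x 0 - y 0).2 ≠ 0) (hc : ‖(x 0 - y 0).1‖ ≤ 1 / 10 ^ 7 * ‖(x 0 - y 0).2‖)
    (hstep : ∀ k, ‖(x k - y k).1‖ ≤ 1 / 10 ^ 7 * ‖(x k - y k).2‖ → ‖(x k - y k).2‖ ≤ 6 / 10 ^ 8 →
      ‖(x (k + 1) - y (k + 1)).1‖ ≤ 1 / 10 ^ 7 * ‖(x (k + 1) - y (k + 1)).2‖ ∧
        8 * 10 ^ 6 * ‖(x k - y k).2‖ ≤ ‖(x (k + 1) - y (k + 1)).2‖ ∧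
        ‖(x (k + 1) - y (k + 1)).2‖ ≤ 12 * 10 ^ 6 * ‖(x k - y k).2‖) :
    ∃ k, x k ∈ EXd d ∧ ∀ j < k, x j ∈ Metric.closedBall 0 2 := by
  have hpos : 0 < ‖(x 0 - y 0).2‖ := norm_pos_iff.2 hne
  have hex : ∃ k, 6 / 10 ^ 8 < ‖(x k - y k).2‖ := by
    by_contra hcon
    push Not at hcon
    have h1 : ∀ k, ‖(x k - y k).1‖ ≤ 1 / 10 ^ 7 * ‖(x k - y k).2‖ ∧
        (2 : ℝ) ^ k * ‖(x 0 - y 0).2‖ ≤ ‖(x k - y k).2‖ := by
      intro k
      induction k with
      | zero => exact ⟨hc, by rw [pow_zero, one_mul]⟩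
      | succ k ih =>
        obtain ⟨h2, h3, -⟩ := hstep k ih.1 (hcon k)
        refine ⟨h2, ?_⟩
        rw [pow_succ]
        have h4 := norm_nonneg (x k - y k).2
        nlinarith [ih.2]
    obtain ⟨n, hn⟩ := pow_unbounded_of_one_lt (6 / 10 ^ 8 / ‖(x 0 - y 0).2‖) (by norm_num : (1 : ℝ) < 2)
    rw [div_lt_iff₀ hpos] at hn
    linarith [(h1 n).2, hcon n]
  classical
  obtain ⟨k, hk, hmin⟩ : ∃ k, 6 / 10 ^ 8 < ‖(x k - y k).2‖ ∧ ∀ j < k, ‖(x j - y j).2‖ ≤ 6 / 10 ^ 8 :=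
    ⟨Nat.find hex, Nat.find_spec hex, fun j hj => not_lt.1 (Nat.find_min hex hj)⟩
  have hcone : ∀ j ≤ k, ‖(x j - y j).1‖ ≤ 1 / 10 ^ 7 * ‖(x j - y j).2‖ := by
    intro j
    induction j with
    | zero => exact fun _ => hc
    | succ j ih =>
      intro hj
      exact (hstep j (ih (by omega)) (hmin j (by omega))).1
  have hyb : ∀ k, (y k).1.1 ∈ Icc (-del) (1 + del) ∧ (y k).1.2 ∈ Icc (-del) (1 + del) := fun k => dm4_Om (hy k).1
  refine ⟨k, ?_, ?_⟩
  · have hc1 := hcone k le_rfl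
    have hw1 := hw k
    have hge : 5 / 10 ^ 8 ≤ ‖(x k).2‖ := by
      have h1 : ‖(x k).2 - (y k).2‖ ≤ ‖(x k).2‖ + ‖(y k).2‖ := norm_sub_le _ _
      have h2 : 6 / 10 ^ 8 < ‖(x k).2 - (y k).2‖ := hk
      norm_num at h2 hw1 ⊢
      linarith
    rcases Nat.eq_zero_or_pos k with rfl | hkp
    · obtain ⟨⟨h1, h2⟩, h3, h4⟩ := dm4_Om hx0.1
      have h5 : ‖(x 0).2‖ < 1 := by
        have := hx0.2
        rwa [mem_ball_zero_iff] at this
      refine ⟨⟨⟨?_, ?_⟩, ?_, ?_⟩, hge, h5.le⟩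
      · norm_num at h1 ⊢; linarith
      · norm_num at h2 ⊢; linarith
      · norm_num at h3 ⊢; linarith
      · norm_num at h4 ⊢; linarith
    · obtain ⟨j, rfl⟩ : ∃ j, k = j + 1 := ⟨k - 1, by omega⟩
      obtain ⟨-, -, h3⟩ := hstep j (hcone j (by omega)) (hmin j (by omega))
      have h4 := hmin j (by omega)
      have h5 : ‖(x (j + 1) - y (j + 1)).2‖ ≤ 72 / 100 := by
        have : 12 * 10 ^ 6 * ‖(x j - y j).2‖ ≤ 12 * 10 ^ 6 * (6 / 10 ^ 8) := by gcongr
        refine h3.trans (this.trans (by norm_num))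
      have h6 : ‖(x (j + 1)).2‖ ≤ 1 := by
        have e1 : (x (j + 1)).2 = (x (j + 1) - y (j + 1)).2 + (y (j + 1)).2 := by simp
        rw [e1]
        refine (norm_add_le _ _).trans ?_
        have : (2 : ℝ) / 10 ^ 12 ≤ 1 / 100 := by norm_num
        linarith
      have h7 : ‖(x (j + 1)).1 - (y (j + 1)).1‖ ≤ 1 / 10 ^ 7 := by
        have : ‖(x (j + 1) - y (j + 1)).1‖ ≤ 1 / 10 ^ 7 * 1 := hc1.trans (by gcongr; linarith)
        rw [mul_one] at this
        exact this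
      have h8 : |(x (j + 1)).1.1 - (y (j + 1)).1.1| ≤ 1 / 10 ^ 7 := (norm_fst_le _).trans h7
      have h9 : |(x (j + 1)).1.2 - (y (j + 1)).1.2| ≤ 1 / 10 ^ 7 := (norm_snd_le _).trans h7
      obtain ⟨⟨g1, g2⟩, g3, g4⟩ := hyb (j + 1)
      rw [abs_le] at h8 h9
      have g5 : (1 : ℝ) / 10 ^ 7 ≤ 1 / 10 ^ 6 := by norm_num
      exact ⟨⟨⟨by linarith, by linarith⟩, by linarith, by linarith⟩, hge, h6⟩
  · intro j hj
    have hc1 := hcone j hj.le
    have h1 := hmin j hj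
    obtain ⟨⟨g1, g2⟩, g3, g4⟩ := hyb j
    have hyn : ‖y j‖ ≤ 3 / 2 := by
      simp only [del] at g1 g2 g3 g4
      rw [Prod.norm_def, Prod.norm_def, Real.norm_eq_abs, Real.norm_eq_abs]
      refine max_le (max_le ?_ ?_) ((hw j).trans (by norm_num))
      · rw [abs_le]; constructor <;> linarith
      · rw [abs_le]; constructor <;> linarith
    have h2 : ‖x j - y j‖ ≤ 1 / 2 := by
      have h3 : (6 : ℝ) / 10 ^ 8 ≤ 1 / 2 := by norm_num
      rw [Prod.norm_def]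
      refine max_le ?_ (h1.trans h3)
      linarith
    rw [mem_closedBall_zero_iff]
    have h3 : ‖x j‖ ≤ ‖x j - y j‖ + ‖y j‖ := norm_le_norm_sub_add _ _
    linarith

end Pool.Agent.Lib.H37D
end

-- from Lib.H37D.DM10
section

/-!
# H37D DM10 (SRC): the source captures the backward orbits of the centre spots off the centre
-/

open Set Filter Topology
open scoped ContDiff Manifold
open Pool.Agent.Lib.Helper37.ConjBorel Pool.Agent.Lib.H37C

namespace Pool.Agent.Lib.H37D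

open Pool.Agent.Lib.H37N

variable {d : ℕ} {M : Type*} [TopologicalSpace M] [ChartedSpace (Euc (d + 2)) M]

/-- the orbit of a point of `M` in the chart -/
theorem dm10_iter {e : OpenPartialHomeomorph M (Euc (d + 2))} (f : DiffInf (d + 2) M) {z : M} (hz : z ∈ e.source)
    (n : ℕ) (h : ∀ j < n, (locD e f)^[j] (LLd d (e z)) ∈ domD e f) :
    f^[n] z ∈ e.source ∧ LLd d (e (f^[n] z)) = (locD e f)^[n] (LLd d (e z)) := by
  induction n with
  | zero => exact ⟨hz, rfl⟩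
  | succ n ih =>
    obtain ⟨h1, h2⟩ := ih fun j hj => h j (by omega)
    rw [Function.iterate_succ_apply', Function.iterate_succ_apply']
    exact dm2_step f (h n (by omega)) h1 h2

/-- the backward orbits of the centre -/
theorem dm10_orbit {g b : En d → En d} (hg : NearD g) (hb : ∀ z ∈ Dd d, b (g z) = z)
    {m : ℕ} {Θ c : En d → En d} {A : Pt → Wd d →L[ℝ] Wd d} (hs : CSpotD g m Θ c A) {v : Pt} (hv : ‖v‖ < 4) :
    ∃ y : ℕ → En d, y 0 = Θ (v, 0) ∧ (∀ k, y k ∈ Omd d) ∧ (∀ k, g (y (k + 1)) = y k) ∧ (∀ k, b (y k) = y (k + 1)) ∧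
      ∀ k, ‖(y k).2‖ ≤ 2 / 10 ^ 12 := by
  have hvB : ((v, 0) : En d) ∈ Bt d := by
    rw [Bt, mem_ball_zero_iff, Prod.norm_def]
    exact max_lt hv (by simp)
  have hper : g^[m] (Θ (v, 0)) = Θ (v, 0) := by
    have := hs.lin v 0 hv (by simp)
    rwa [map_zero] at this
  have hOm : ∀ j, g^[j] (Θ (v, 0)) ∈ Omd d := by
    intro j
    have h1 : Function.IsPeriodicPt g m (Θ (v, 0)) := hper
    rw [← h1.iterate_mod_apply j]
    exact hs.path _ hvB _ (Nat.mod_lt _ hs.pos).le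
  have hgy : ∀ k, g (g^[(m - 1) * (k + 1)] (Θ (v, 0))) = g^[(m - 1) * k] (Θ (v, 0)) := by
    intro k
    have e : (m - 1) * (k + 1) + 1 = (m - 1) * k + m := by
      have h1 : m - 1 + 1 = m := Nat.sub_add_cancel hs.pos
      calc (m - 1) * (k + 1) + 1 = (m - 1) * k + ((m - 1) + 1) := by ring
        _ = (m - 1) * k + m := by rw [h1]
    rw [← Function.iterate_succ_apply' g, Nat.succ_eq_add_one, e, Function.iterate_add_apply, hper]
  have hD : ∀ k, g^[(m - 1) * k] (Θ (v, 0)) ∈ Dd d := by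
    intro k
    obtain ⟨h1, h2⟩ := hOm ((m - 1) * k)
    have h3 : (g^[(m - 1) * k] (Θ (v, 0))).2 ∈ BW d := Metric.ball_subset_closedBall h2
    rcases h1 with (h1 | h1) | h1
    · exact Or.inl (Or.inl ⟨interior_subset h1, h3⟩)
    · exact Or.inl (Or.inr ⟨interior_subset h1, h3⟩)
    · exact Or.inr ⟨interior_subset h1, h3⟩
  have hw1 : ∀ k, ‖(g^[(m - 1) * k] (Θ (v, 0))).2‖ ≤ 1 / 10 ^ 6 := by
    intro k
    have h1 := hg.wval _ (hD (k + 1))
    rw [hgy] at h1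
    have h2 : ‖(g^[(m - 1) * (k + 1)] (Θ (v, 0))).2‖ ≤ 1 := by
      have := (hOm ((m - 1) * (k + 1))).2
      rw [mem_ball_zero_iff] at this
      exact this.le
    simp only [aw, e0] at h1
    norm_num at h1 ⊢
    linarith
  refine ⟨fun k => g^[(m - 1) * k] (Θ (v, 0)), rfl, fun k => hOm _, hgy, fun k => ?_, fun k => ?_⟩
  · show b (g^[(m - 1) * k] (Θ (v, 0))) = _
    rw [← hgy k]
    exact hb _ (hD (k + 1))
  · have h1 := hg.wval _ (hD (k + 1))
    rw [hgy] at h1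
    have h2 := hw1 (k + 1)
    show ‖(g^[(m - 1) * k] (Θ (v, 0))).2‖ ≤ _
    simp only [aw, e0] at h1
    norm_num at h1 h2 ⊢
    linarith

/-- SRC -/
theorem srcAt_of_close [T2Space M] [IsManifold (𝓡 (d + 2)) ∞ M] {e : OpenPartialHomeomorph M (Euc (d + 2))}
    {F B : En d → En d} {p : En d} {rho r : ℝ} (he : BigCD e r) (h : ModelD F B p rho r)
    {K : Set (En d)} (hKc : Convex ℝ K) {ε : ℝ} (hε4 : ε ≤ 1 / 10 ^ 4) (hερ : ε ≤ rho / 8)
    (hKp : Metric.closedBall p rho ⊆ K) (hK2 : Metric.closedBall 0 2 ⊆ K)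
    (hcap : ∀ b : En d → En d, (∀ z ∈ K, ‖b z - B z‖ ≤ ε) → ∀ z ∈ EXd d,
        b z ∈ K ∧ b (b z) ∈ K ∧ b (b (b z)) ∈ Metric.ball p rho)
    {f : DiffInf (d + 2) M} (hn : NearS (locD e f)) (hdom : Dd d ⊆ domD e f) (hKd : K ⊆ domD e f.symm)
    (hcl : ∀ z ∈ K, ‖locD e f.symm z - B z‖ ≤ ε ∧ ‖fderiv ℝ (locD e f.symm) z - fderiv ℝ B z‖ ≤ ε) :
    ∃ q : M, SrcAt e f q := by
  set b : En d → En d := locD e f.symm with hbdef
  have hbd : ∀ z ∈ K, DifferentiableAt ℝ b z := fun z hz =>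
    ((locD_smooth he.mem f.symm).contDiffAt ((domD_open f.symm.continuous).mem_nhds (hKd hz))).differentiableAt (by simp)
  obtain ⟨q, hqb, hq, hatt⟩ := dm5_fix h.rho_pos h.lin hερ hε4 (fun z hz => hbd z (hKp hz))
    (fun z hz => (hcl z (hKp hz)).1) (fun z hz => (hcl z (hKp hz)).2)
  have hballK : Metric.ball p rho ⊆ K := Metric.ball_subset_closedBall.trans hKp
  -- iterates in the ball
  have hit : ∀ k, ∀ z ∈ Metric.ball p rho, b^[k] z ∈ Metric.ball p rho ∧ ‖b^[k] z - q‖ ≤ (3 / 4) ^ k * ‖z - q‖ := by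
    intro k z hz
    induction k with
    | zero => exact ⟨hz, by rw [pow_zero, one_mul]; rfl⟩
    | succ k ih =>
      rw [Function.iterate_succ_apply']
      obtain ⟨h1, h2⟩ := hatt _ ih.1
      refine ⟨h1, h2.trans ?_⟩
      rw [pow_succ]
      nlinarith [ih.2]
  have hqd : q ∈ domD e f.symm := hKd (hballK hqb)
  set P : M := e.symm ((LLd d).symm q) with hP
  have hPs : P ∈ e.source := e.map_target hqd.1
  have hPc : LLd d (e P) = q := by
    rw [hP, e.right_inv hqd.1, ContinuousLinearEquiv.apply_symm_apply]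
  have hfix' : f.symm P = P := by
    obtain ⟨h1, h2⟩ := dm2_step f.symm hqd hPs hPc
    have h3 : locD e f.symm q = q := hq
    rw [h3, ← hPc] at h2
    exact e.injOn h1 hPs ((LLd d).injective h2)
  have hfix : f P = P := by
    have := congrArg f hfix'
    rw [f.apply_symm_apply] at this
    exact this.symm
  -- the neighbourhood
  set U : Set M := e.source ∩ {z | LLd d (e z) ∈ Metric.ball p rho} with hU
  have hUn : U ∈ 𝓝 P := by
    have h1 : ContinuousAt (fun z => LLd d (e z)) P := (LLd d).continuous.continuousAt.comp (e.continuousAt hPs)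
    refine inter_mem (e.open_source.mem_nhds hPs) (h1 (Metric.isOpen_ball.mem_nhds ?_))
    show LLd d (e P) ∈ _
    rw [hPc]
    exact hqb
  have hattU : ∀ W ∈ 𝓝 P, ∃ N : ℕ, ∀ k ≥ N, ∀ z ∈ U, (⇑f.symm)^[k] z ∈ W := by
    intro W hW
    have hc : ContinuousAt (fun x : En d => e.symm ((LLd d).symm x)) q :=
      ContinuousAt.comp (f := fun x : En d => (LLd d).symm x) (g := e.symm) (x := q)
        (e.continuousAt_symm hqd.1) (LLd d).symm.continuous.continuousAt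
    obtain ⟨δ, hδ, hball⟩ := Metric.mem_nhds_iff.1 (hc hW)
    have hlim : Tendsto (fun k : ℕ => (3 / 4 : ℝ) ^ k * (2 * rho)) atTop (𝓝 0) := by
      have := (tendsto_pow_atTop_nhds_zero_of_lt_one (by norm_num : (0 : ℝ) ≤ 3 / 4) (by norm_num)).mul_const (2 * rho)
      rwa [zero_mul] at this
    obtain ⟨N, hN⟩ := (hlim.eventually (gt_mem_nhds hδ)).exists_forall_of_atTop
    refine ⟨N, fun k hk z hz => ?_⟩
    obtain ⟨h1, h2⟩ := dm10_iter f.symm hz.1 k fun j _ => hKd (hballK (hit j _ hz.2).1)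
    have h3 : ‖b^[k] (LLd d (e z)) - q‖ < δ := by
      have h4 : ‖LLd d (e z) - q‖ ≤ 2 * rho := by
        have h5 : dist (LLd d (e z)) p < rho := hz.2
        have h6 : dist q p < rho := hqb
        have h7 := dist_triangle_right (LLd d (e z)) q p
        rw [dist_eq_norm] at h7
        linarith
      refine ((hit k _ hz.2).2.trans ?_).trans_lt (hN k hk)
      gcongr
    have h4 : (⇑f.symm)^[k] z = e.symm ((LLd d).symm (b^[k] (LLd d (e z)))) := by
      rw [← h2, ContinuousLinearEquiv.symm_apply_apply, e.left_inv h1]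
    rw [h4]
    exact hball (by rw [Metric.mem_ball, dist_eq_norm]; exact h3)
  refine ⟨P, hfix, hPs, ?_, ⟨U, hUn, hattU⟩, ?_⟩
  · rw [hPc]
    exact fun hcon => disjoint_left.1 h.far (Metric.ball_subset_closedBall hqb) hcon
  · intro m Θ c A hs v w hv hw hw0
    -- enough: the orbit enters U
    have key : ∃ n, (⇑f.symm)^[n] (e.symm ((LLd d).symm (Θ (v, w)))) ∈ U := by
      have hbg : ∀ z ∈ Dd d, b (locD e f z) = z := fun z hz =>
        (locD_symm f f.symm (fun x => f.symm_apply_apply x) (hdom hz)).2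
      obtain ⟨y, hy0, hyO, hgy, hby, hyw⟩ := dm10_orbit hn.toNearD hbg hs hv
      have hvB : ((v, 0) : En d) ∈ Bt d := by
        rw [Bt, mem_ball_zero_iff, Prod.norm_def]
        exact max_lt hv (by simp)
      have hvwB : ((v, w) : En d) ∈ Bt d := by
        rw [Bt, mem_ball_zero_iff, Prod.norm_def]
        exact max_lt hv hw
      have hx0 : Θ (v, w) ∈ Omd d := hs.path _ hvwB 0 (Nat.zero_le _)
      have hcone := hs.cone v w hv hw
      have hne : (Θ (v, w) - y 0).2 ≠ 0 := by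
        intro hcon
        rw [hy0] at hcon
        have h1 : ‖(Θ (v, w)).1 - (Θ (v, 0)).1‖ ≤ 0 := by
          refine hcone.trans (le_of_eq ?_)
          have h2 : (Θ (v, w)).2 - (Θ (v, 0)).2 = 0 := hcon
          rw [h2, norm_zero, mul_zero]
        have h3 : Θ (v, w) = Θ (v, 0) := by
          refine Prod.ext (sub_eq_zero.1 (norm_le_zero_iff.1 h1)) ?_
          exact sub_eq_zero.1 hcon
        have h4 := congrArg c h3
        rw [hs.left _ hvwB, hs.left _ hvB] at h4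
        exact hw0 (congrArg Prod.snd h4)
      obtain ⟨k, hkEX, hkj⟩ := dm5_exit (x := fun k => b^[k] (Θ (v, w))) hyO hyw hx0 hne
        (by
          show ‖(Θ (v, w) - y 0).1‖ ≤ _
          rw [hy0]
          exact hcone)
        (by
          intro j h1 h2
          have h3 := dm4_step h hn.toNearD hKc hK2 hε4 hbd (fun z hz => (hcl z hz).2) (hyO (j + 1)) (hyO j)
            (hgy j) (hby j) (hyw j) h1 h2
          have h4 : b^[j + 1] (Θ (v, w)) = b (b^[j] (Θ (v, w))) := Function.iterate_succ_apply' b j _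
          simp only [h4]
          exact h3)
      have hcap' := hcap b (fun z hz => (hcl z hz).1) _ hkEX
      have hX0 : e.symm ((LLd d).symm (Θ (v, w))) ∈ e.source := by
        have h1 : Θ (v, w) ∈ Dd d := by
          obtain ⟨h1, h2⟩ := hx0
          have h3 : (Θ (v, w)).2 ∈ BW d := Metric.ball_subset_closedBall h2
          rcases h1 with (h1 | h1) | h1
          · exact Or.inl (Or.inl ⟨interior_subset h1, h3⟩)
          · exact Or.inl (Or.inr ⟨interior_subset h1, h3⟩)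
          · exact Or.inr ⟨interior_subset h1, h3⟩
        exact e.map_target (hdom h1).1
      have hX1 : LLd d (e (e.symm ((LLd d).symm (Θ (v, w))))) = Θ (v, w) := by
        have h1 : Θ (v, w) ∈ Dd d := by
          obtain ⟨h1, h2⟩ := hx0
          have h3 : (Θ (v, w)).2 ∈ BW d := Metric.ball_subset_closedBall h2
          rcases h1 with (h1 | h1) | h1
          · exact Or.inl (Or.inl ⟨interior_subset h1, h3⟩)
          · exact Or.inl (Or.inr ⟨interior_subset h1, h3⟩)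
          · exact Or.inr ⟨interior_subset h1, h3⟩
        rw [e.right_inv (hdom h1).1, ContinuousLinearEquiv.apply_symm_apply]
      have e1 : b^[k + 1] (Θ (v, w)) = b (b^[k] (Θ (v, w))) := Function.iterate_succ_apply' b k _
      have e2 : b^[k + 2] (Θ (v, w)) = b (b (b^[k] (Θ (v, w)))) := by
        rw [← e1]; exact Function.iterate_succ_apply' b (k + 1) _
      have e3 : b^[k + 3] (Θ (v, w)) = b (b (b (b^[k] (Θ (v, w))))) := by
        rw [← e2]; exact Function.iterate_succ_apply' b (k + 2) _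
      obtain ⟨h1, h2⟩ := dm10_iter f.symm hX0 (k + 3) (by
        intro j hj
        rw [hX1]
        refine hKd ?_
        rcases lt_or_ge j k with hjk | hjk
        · exact hK2 (hkj j hjk)
        · obtain rfl | rfl | rfl : j = k ∨ j = k + 1 ∨ j = k + 2 := by omega
          · exact hK2 (dm3_EX_sub hkEX)
          · exact e1 ▸ hcap'.1
          · exact e2 ▸ hcap'.2.1)
      refine ⟨k + 3, h1, ?_⟩
      show LLd d (e _) ∈ Metric.ball p rho
      rw [h2, hX1]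
      exact e3 ▸ hcap'.2.2
    obtain ⟨n, hn'⟩ := key
    rw [tendsto_atTop']
    intro W hW
    obtain ⟨N, hN⟩ := hattU W hW
    refine ⟨N + n, fun k hk => ?_⟩
    obtain ⟨j, rfl⟩ : ∃ j, k = j + n := ⟨k - n, by omega⟩
    rw [Function.iterate_add_apply]
    exact hN j (by omega) _ hn'

/-- The open set of diffeomorphisms with near local representations and a source. -/
theorem exists_VS_of_model [T2Space M] [CompactSpace M] [IsManifold (𝓡 (d + 2)) ∞ M]
    {e : OpenPartialHomeomorph M (Euc (d + 2))} {F B : En d → En d} {p : En d} {rho r : ℝ}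
    (he : BigCD e r) (hr : 4 ≤ r) (h : ModelD F B p rho r)
    {fs : DiffInf (d + 2) M} (hfs : ∀ m, fs m = ext e (cjd F) m) :
    ∃ V : Set (DiffInf (d + 2) M), IsOpen V ∧ fs ∈ V ∧
      ∀ f ∈ V, NearS (locD e f) ∧ Dd d ⊆ domD e f ∧ ∃ q : M, SrcAt e f q := by
  obtain ⟨K, ε, hK, hKc, hKr, hε, hε4, hερ, hKp, hK2, hcap⟩ := dm3_exit h hr
  obtain ⟨V, hV, hfV, hV2⟩ := exists_VB he hr h hfs hK hKr hε
  refine ⟨V, hV, hfV, fun f hf => ?_⟩
  obtain ⟨h1, h2, h3, h4⟩ := hV2 f hf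
  exact ⟨h1, h2, srcAt_of_close he h hKc hε4 hερ hKp hK2 hcap h1 h2 h3 h4⟩

end Pool.Agent.Lib.H37D
end

-- from Lib.H37D.DM12
section

/-!
# H37D DM12: the open set of diffeomorphisms of a closed manifold with near local representations and a source
-/

open Set Filter Topology
open scoped ContDiff Manifold
open Pool.Agent.Lib.Helper37.ConjBorel Pool.Agent.Lib.H37C

namespace Pool.Agent.Lib.H37D

open Pool.Agent.Lib.H37N

variable {d : ℕ}

theorem exists_VS (d : ℕ) (M : Type*) [TopologicalSpace M] [ChartedSpace (Euc (d + 2)) M] [T2Space M]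
    [CompactSpace M] [IsManifold (𝓡 (d + 2)) ∞ M] [Nonempty M] :
    ∃ (e : OpenPartialHomeomorph M (Euc (d + 2))) (r : ℝ) (V : Set (DiffInf (d + 2) M)), BigCD e r ∧ 4 ≤ r ∧
      IsOpen V ∧ V.Nonempty ∧ ∀ f ∈ V, NearS (locD e f) ∧ Dd d ⊆ domD e f ∧ ∃ p : M, SrcAt e f p := by
  obtain ⟨F, B, p, rho, r, hr, h⟩ := exists_modelD d
  obtain ⟨e, he, fs, hfs⟩ := exists_model_diffeo M h.smooth h.smooth_B h.left h.right h.supp
  obtain ⟨V, hV, hfV, hV2⟩ := exists_VS_of_model he hr h hfs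
  exact ⟨e, r, V, he, hr, hV, ⟨fs, hfV⟩, hV2⟩

end Pool.Agent.Lib.H37D
end
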