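import Pool.Agent.Lib.H1M.FF.M010
import Pool.Agent.Lib.H1M.FF.M038
import Pool.Agent.Lib.H1M.FF.M046
import Pool.Agent.Lib.H1M.FF.M047
import Pool.Agent.Lib.H1M.FF.M051
import Pool.Agent.Lib.H1M.FF.M053

/-! Merged copies (to shorten the build) of Lib.H37D.DH43, Lib.H37D.DH50, Lib.H37D.DH51, Lib.H37D.DH66, Lib.H37D.DH72, Lib.H37D.DH85. -/

-- from Lib.H37D.DH43
section

open TopologicalSpace Set Filter Topology
open scoped Manifold ContDiff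
open Pool.Agent.Lib.Helper37.ConjBorel Pool.Agent.Lib.H37C

namespace Pool.Agent.Lib.H37D

variable {n : ℕ} {M : Type*} [TopologicalSpace M] [ChartedSpace (Euc n) M]
variable {W : Type*} [NormedAddCommGroup W] [NormedSpace ℝ W]
variable {f₀ : DiffInf n M} {m : ℕ} {p : M} {e : OpenPartialHomeomorph M (Euc n)} {L : Euc n ≃L[ℝ] Euc 2 × W}
variable {A : Euc 2 → W ≃L[ℝ] W} {r₂ r₃ : ℝ} {χ : W → ℝ} {lt : ℕ → ℕ → Prop} {δ : ℝ} {F : DiffInf n M}

/-- **DH43 (S/M).** Preimages under `F^m` in the box.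

Proof. `w' = (A a.1)⁻¹ a.2`: `A a.1 w' = a.2` has norm `≤ r₂`, so `‖w'‖ ≤ r₃` (`fund`), and `8 ‖a.2‖ ≤ ‖w'‖` (`A_le`). `PP_surj` for `(a.1, w')`
gives `a'`, `a'.2 = w'`, `PP a' = (a.1, w')`; `iter_m`: `F^m (pt a') = pt (a.1, A a.1 w') = pt a`. `PP_tube`. -/
theorem pre_m [IsStrictTotalOrder ℕ lt] (hS : CSpot f₀ m p e L A r₂ r₃) (hχ : Cut χ r₂) (h0 : 0 ≤ δ) (h1 : δ ≤ 1)
    (hF : IsPert f₀ e L χ lt δ F) {a : Euc 2 × W} (ha : ‖a.1‖ < 5 / 2) (ha' : ‖a.2‖ ≤ r₂) :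
    ∃ a' : Euc 2 × W, a' ∈ Bx r₃ ∧ ‖a'.1‖ < 5 / 2 ∧ 8 * ‖a.2‖ ≤ ‖a'.2‖ ∧ (⇑F)^[m] (ptM e L a') = ptM e L a := by
  have h2 : A a.1 ((A a.1).symm a.2) = a.2 := (A a.1).apply_symm_apply a.2
  have h3 := hS.fund a.1 ((A a.1).symm a.2) (by rw [h2]; exact ha')
  have h4 := hS.A_le a.1 ((A a.1).symm a.2)
  rw [h2] at h4
  obtain ⟨a', h5, h6, h7⟩ := PP_surj (lt := lt) hχ h0 h1 ((a.1, (A a.1).symm a.2) : Euc 2 × W)
  have h8 : ‖a'.1‖ ≤ 3 := h7 (by show ‖a.1‖ ≤ 3; linarith)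
  have h9 : a' ∈ Bx r₃ := ⟨h8, by rw [h5]; exact h3⟩
  refine ⟨a', h9, ?_, ?_, ?_⟩
  · rw [← PP_tube (lt := lt) hχ h0 h1, h6]
    exact ha
  · rw [h5]
    show 8 * ‖a.2‖ ≤ ‖(A a.1).symm a.2‖
    linarith
  · rw [iter_m hS hχ h0 h1 hF h9, h6, h5]
    show ptM e L (a.1, A a.1 ((A a.1).symm a.2)) = ptM e L a
    rw [h2]

theorem dh43_back {x y : M} {k : ℕ} (h : (⇑F)^[k] x = y) : (⇑F.symm)^[k] y = x := by
  rw [← h]
  exact Function.LeftInverse.iterate (fun z => F.symm_apply_apply z) k x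

theorem dh43_sub {x y y' : M} {k : ℕ} (hk : m ≤ k) (h : (⇑F)^[k] x = y) (h' : (⇑F)^[m] y' = y) :
    (⇑F)^[k - m] x = y' := by
  have h1 : (⇑F)^[m] ((⇑F)^[k - m] x) = (⇑F)^[m] y' := by
    rw [← Function.iterate_add_apply, h', ← h]
    congr 2
    omega
  exact (F.injective.iterate m) h1

/-- **DH43, second part (M).** The backward orbits of the tube tend to `p`, uniformly.

Proof. Let `N₀` be the number of `src` for `V`, `N = N₀ + 2 m`. Let `k ≥ N`, `F^k x = pt a ∈ Tb`, not in `F^m Tb`. `pre_m`: `a'`, so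
`F^m (pt a') = pt a = F^m (F^(k-m) x)`, `F^(k-m) x = pt a'` (`F^m` injective). As `pt a' ∉ Tb` and `‖a'.1‖ < 5/2`, `‖a'.2‖ ≥ r₂/2`.
If `‖a'.2‖ ≥ r₂`: `x = F⁻¹^[k-m] (pt a') = f₀⁻¹^[k-m] (pt a')` (`back_ann`) is in `V` (`src`). If `‖a'.2‖ < r₂`: `pre_m` again: `a''` with
`‖a''.2‖ ≥ 8 ‖a'.2‖ ≥ 4 r₂ ≥ r₂`, `F^(k-2m) x = pt a''`, `x = F⁻¹^[k-2m] (pt a'') = f₀⁻¹^[k-2m] (pt a'') ∈ V`. -/
theorem unif_of [IsStrictTotalOrder ℕ lt] (hS : CSpot f₀ m p e L A r₂ r₃) (hχ : Cut χ r₂) (h0 : 0 ≤ δ) (h1 : δ ≤ 1)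
    (hF : IsPert f₀ e L χ lt δ F) {V : Set M} (hV : V ∈ 𝓝 p) :
    ∃ N : ℕ, ∀ k ≥ N, ∀ x, (⇑F)^[k] x ∈ Tb e L r₂ → (∀ y ∈ Tb e L r₂, (⇑F)^[m] y ≠ (⇑F)^[k] x) → x ∈ V := by
  obtain ⟨N₀, hN⟩ := hS.src V hV
  have hr := hS.r_pos
  refine ⟨N₀ + 2 * m, fun k hk x hx hno => ?_⟩
  obtain ⟨a, ⟨ha1, ha2⟩, hax⟩ := hx
  obtain ⟨a', hB, h5, _, h6⟩ := pre_m hS hχ h0 h1 hF (a := a) ha1 (by linarith)
  have h7 := dh43_sub (by omega : m ≤ k) hax.symm h6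
  have h8 : r₂ / 2 ≤ ‖a'.2‖ := by
    by_contra h9
    exact hno (ptM e L a') ⟨a', ⟨h5, not_le.1 h9⟩, rfl⟩ (by rw [h6, hax])
  by_cases h9 : r₂ ≤ ‖a'.2‖
  · rw [← dh43_back h7, back_ann hS hχ hF hB h9]
    exact hN _ (by omega) a' hB h9
  · obtain ⟨a'', hB', h5', h10, h6'⟩ := pre_m hS hχ h0 h1 hF (a := a') h5 (not_le.1 h9).le
    have h11 := dh43_sub (by omega : m ≤ k - m) h7 h6'
    have h12 : r₂ ≤ ‖a''.2‖ := by linarith
    rw [← dh43_back h11, back_ann hS hχ hF hB' h12]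
    exact hN _ (by omega) a'' hB' h12

end Pool.Agent.Lib.H37D
end

-- from Lib.H37D.DH50
section

open TopologicalSpace Set Filter Topology
open scoped Manifold ContDiff
open Pool.Agent.Lib.Helper37.ConjBorel Pool.Agent.Lib.H37C

namespace Pool.Agent.Lib.H37D

variable {n : ℕ} {M : Type*} [TopologicalSpace M] [ChartedSpace (Euc n) M]
variable {W : Type*} [NormedAddCommGroup W] [NormedSpace ℝ W]
variable {f₀ : DiffInf n M} {m : ℕ} {p : M} {e : OpenPartialHomeomorph M (Euc n)} {L : Euc n ≃L[ℝ] Euc 2 × W}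
variable {A : Euc 2 → W ≃L[ℝ] W} {r₂ r₃ : ℝ} {χ : W → ℝ} {lt : ℕ → ℕ → Prop} {δ : ℝ} {F : DiffInf n M}

/-- the conjugacy on the tube -/
noncomputable def etaM (e : OpenPartialHomeomorph M (Euc n)) (L : Euc n ≃L[ℝ] Euc 2 × W) (φ : Euc 2 → Euc 2)
    (K : Euc 2 → W → W) (z : M) : M :=
  ptM e L (φ (L (e z)).1, K (L (e z)).1 (L (e z)).2)

/-- **DH50 (M).** The tube carries gluing data for `F, F'`.

Proof. `v ∈ Bx r₃` for the points `pt v` of the tube (`5/2 ≤ 3`, `r₂/2 < r₂ < r₃`). `φ` preserves `‖ζ‖ < 5/2`: if `‖ζ‖ < 2`, then `‖φ ζ‖ < 2`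
(otherwise `φ (φ ζ) = φ ζ`, so `φ ζ = ζ` by injectivity), otherwise `φ ζ = ζ`.
- `op`: `isOpen_Tb`. `into`: `iter_m`, `PP_tube`, `A_le`. `ret`: `iter_ne`. `maps`: `hKr`, `coord_ptM`.
- `cont`: `e` is continuous on its source, `L`, `φ`, `K` are continuous, `continuousOn_ptM`.
- `conj`: `x = pt (ζ, w)`, `F^m x = pt (ψ ζ, A (ψ ζ) w)`, `ψ = psi lt δ` (`iter_m`, `PP_one`), `η (F^m x) = pt (φ (ψ ζ), K (ψ ζ) (A (ψ ζ) w)) =
pt (ψ' (φ ζ), A (φ (ψ ζ)) (K ζ w))` (`hKc`), and `F'^m (η x) = F'^m (pt (φ ζ, K ζ w)) = pt (ψ' (φ ζ), A (ψ' (φ ζ)) (K ζ w))`; `hφ`.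
- `off`: such an `x` is not in `CoC e L r₂`: if `x = pt v`, `1 < ‖v.1‖ < 2`, `‖v.2‖ < r₂`, then `F^m x = pt ((PP v).1, A .. v.2)` is in the tube
(`‖A .. v.2‖ ≤ r₂/8 < r₂/2`, `PP_tube`). So `F x = f₀ x = F' x` by `ext_fix`.
- `np`: `p ∉ CoC` (`notin`), so `F p = f₀ p = p`, `F^k p = p`, not in the tube (`notin`).
- `unif`: `unif_of`.
- `bdry`: `y = pt v`, `‖v.1‖ ≤ 5/2`, `‖v.2‖ ≤ r₂/2` (`closure_Tb`). If `‖v.1‖ ≤ 2`, `F^m y = pt (ψ v.1, A .. v.2)` (`iter_m`) would be in the tube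
(`PP_tube`; `‖A .. v.2‖ ≤ r₂/16`), so `‖v.1‖ > 2`. By `eventually_ptM`, for `u` near `y`: `u ∈ e.source` and `‖(L (e u)).1‖ > 2`. Let `u ∈ Tb`,
`u = pt a`, `a = L (e u)` (`coord_ptM`). Then `η u = pt (φ a.1, K a.1 a.2) = pt a = u` (`hφ2`, `hK2`). If `F^k x = u`, then
`x = F⁻¹^[k] u = f₀⁻¹^[k] u = F'⁻¹^[k] u` (`back_side` twice), so `F'^k x = u`. -/
theorem glue_of [T2Space M] [FiniteDimensional ℝ W] [IsStrictTotalOrder ℕ lt] {lt' : ℕ → ℕ → Prop}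
    [IsStrictTotalOrder ℕ lt'] (hS : CSpot f₀ m p e L A r₂ r₃) (hχ : Cut χ r₂) (h0 : 0 ≤ δ) (h1 : δ ≤ 1)
    (hF : IsPert f₀ e L χ lt δ F) {F' : DiffInf n M} (hF' : IsPert f₀ e L χ lt' δ F') (φ : Euc 2 ≃ₜ Euc 2)
    (hφ2 : ∀ x, 2 ≤ ‖x‖ → φ x = x) (hφ : ∀ x, φ (psi lt δ x) = psi lt' δ (φ x)) {K : Euc 2 → W → W}
    (hK : Continuous fun q : Euc 2 × W => K q.1 q.2)
    (hKc : ∀ ζ w, ‖w‖ ≤ r₂ / 2 → K (psi lt δ ζ) (A (psi lt δ ζ) w) = A (φ (psi lt δ ζ)) (K ζ w))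
    (hKr : ∀ ζ w, ‖w‖ < r₂ / 2 → ‖K ζ w‖ < r₂ / 2) (hK2 : ∀ ζ, 2 ≤ ‖ζ‖ → ∀ w, K ζ w = w) :
    Glue F.toHomeomorph F'.toHomeomorph (Tb e L r₂) m (etaM e L φ K) p := by
  have hrp := hS.r_pos
  have hrl := hS.r_lt
  have hbx : ∀ v : Euc 2 × W, ‖v.1‖ < 5 / 2 → ‖v.2‖ < r₂ / 2 → v ∈ Bx r₃ := fun v a b =>
    ⟨by linarith, by linarith⟩
  have hφt : ∀ ζ, ‖ζ‖ < 5 / 2 → ‖φ ζ‖ < 5 / 2 := by
    intro ζ hζ
    by_cases h : 2 ≤ ‖ζ‖
    · rw [hφ2 ζ h]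
      exact hζ
    · by_contra hc
      push Not at hc
      have h3 := φ.injective (hφ2 (φ ζ) (by linarith))
      rw [h3] at hc
      linarith
  have hsub : Tb e L r₂ ⊆ e.source := by
    rintro z ⟨v, hv, rfl⟩
    exact ptM_source hS (hbx v hv.1 hv.2)
  have heta : ∀ v : Euc 2 × W, v ∈ Bx r₃ →
      etaM e L φ K (ptM e L v) = ptM e L (φ v.1, K v.1 v.2) := by
    intro v hv
    unfold etaM
    rw [coord_ptM hS hv]
  have hCp : p ∉ CoC e L r₂ := by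
    rintro ⟨v, hv, he⟩
    exact hS.notin v ⟨by linarith [hv.2.1], by linarith [hv.2.2]⟩ he
  have hFp : F p = p := by rw [hF, ext_fix hχ hCp, hS.fix]
  refine
    { pos := hS.pos
      op := isOpen_Tb hS
      into := ?_
      ret := ?_
      maps := ?_
      cont := ?_
      conj := ?_
      off := ?_
      np := ?_
      unif := fun V hV => unif_of hS hχ h0 h1 hF hV
      bdry := ?_ }
  · rintro x ⟨v, ⟨hv1, hv2⟩, rfl⟩
    show (⇑F)^[m] (ptM e L v) ∈ Tb e L r₂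
    rw [iter_m hS hχ h0 h1 hF (hbx v hv1 hv2)]
    refine ⟨((PP χ lt δ v).1, A (PP χ lt δ v).1 v.2),
      ⟨(PP_tube (lt := lt) hχ h0 h1 (v := v)).2 hv1, ?_⟩, rfl⟩
    exact (hS.A_le _ _).trans_lt (by linarith [norm_nonneg v.2])
  · rintro i hi0 hi x ⟨v, hv, rfl⟩ ⟨v', hv', he⟩
    exact iter_ne hS hχ h0 h1 hF (hbx v hv.1 hv.2) (hbx v' hv'.1 hv'.2) hi0 hi he.symm
  · rintro x ⟨v, hv, rfl⟩
    rw [heta v (hbx v hv.1 hv.2)]
    exact ⟨(φ v.1, K v.1 v.2), ⟨hφt _ hv.1, hKr _ _ hv.2⟩, rfl⟩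
  · have hcz : ContinuousOn (fun z => L (e z)) (Tb e L r₂) :=
      L.continuous.comp_continuousOn (e.continuousOn.mono hsub)
    have hg : ContinuousOn (fun z => (φ (L (e z)).1, K (L (e z)).1 (L (e z)).2)) (Tb e L r₂) :=
      (φ.continuous.comp_continuousOn (continuous_fst.comp_continuousOn hcz)).prodMk
        (hK.comp_continuousOn hcz)
    refine (continuousOn_ptM hS).comp hg ?_
    rintro z ⟨v, hv, rfl⟩
    show (φ (L (e (ptM e L v))).1, K (L (e (ptM e L v))).1 (L (e (ptM e L v))).2) ∈ Bx r₃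
    rw [coord_ptM hS (hbx v hv.1 hv.2)]
    exact hbx _ (hφt _ hv.1) (hKr _ _ hv.2)
  · rintro x ⟨v, ⟨hv1, hv2⟩, rfl⟩
    show etaM e L φ K ((⇑F)^[m] (ptM e L v)) = (⇑F')^[m] (etaM e L φ K (ptM e L v))
    have hvB := hbx v hv1 hv2
    have hvB' : ((φ v.1, K v.1 v.2) : Euc 2 × W) ∈ Bx r₃ := hbx _ (hφt _ hv1) (hKr _ _ hv2)
    rw [iter_m hS hχ h0 h1 hF hvB, heta v hvB, iter_m hS hχ h0 h1 hF' hvB', PP_one hχ hv2.le,
      PP_one hχ (hKr _ _ hv2).le]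
    have hBB : ((psi lt δ v.1, A (psi lt δ v.1) v.2) : Euc 2 × W) ∈ Bx r₃ := by
      have h3 := (PP_tube (lt := lt) hχ h0 h1 (v := v)).2 hv1
      rw [PP_one hχ hv2.le] at h3
      exact hbx _ h3 ((hS.A_le _ _).trans_lt (by linarith [norm_nonneg v.2]))
    show etaM e L φ K (ptM e L (psi lt δ v.1, A (psi lt δ v.1) v.2)) =
      ptM e L (psi lt' δ (φ v.1), A (psi lt' δ (φ v.1)) (K v.1 v.2))
    rw [heta _ hBB]
    show ptM e L (φ (psi lt δ v.1), K (psi lt δ v.1) (A (psi lt δ v.1) v.2)) = _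
    rw [hKc _ _ hv2.le, hφ]
  · intro x hx
    have hC : x ∉ CoC e L r₂ := by
      rintro ⟨v, ⟨hv1, hv2, hv3⟩, rfl⟩
      apply hx m
      show (⇑F)^[m] (ptM e L v) ∈ Tb e L r₂
      rw [iter_m hS hχ h0 h1 hF ⟨by linarith, by linarith⟩]
      refine ⟨((PP χ lt δ v).1, A (PP χ lt δ v).1 v.2),
        ⟨(PP_tube (lt := lt) hχ h0 h1 (v := v)).2 (by linarith), ?_⟩, rfl⟩
      exact (hS.A_le _ _).trans_lt (by linarith)
    show F x = F' x
    rw [hF, hF', ext_fix hχ hC, ext_fix hχ hC]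
  · intro k
    show (⇑F)^[k] p ∉ Tb e L r₂
    rw [Function.iterate_fixed hFp k]
    rintro ⟨v, hv, he⟩
    exact hS.notin v (hbx v hv.1 hv.2) he
  · intro y hy hyo
    obtain ⟨v, hv1, hv2, rfl⟩ := closure_Tb hS hy
    have hvB : v ∈ Bx r₃ := ⟨by linarith, by linarith⟩
    have hv : 2 < ‖v.1‖ := by
      by_contra hc
      push Not at hc
      apply hyo m
      show (⇑F)^[m] (ptM e L v) ∈ Tb e L r₂
      rw [iter_m hS hχ h0 h1 hF hvB]
      refine ⟨((PP χ lt δ v).1, A (PP χ lt δ v).1 v.2),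
        ⟨(PP_tube (lt := lt) hχ h0 h1 (v := v)).2 (by linarith), ?_⟩, rfl⟩
      exact (hS.A_le _ _).trans_lt (by linarith)
    have hev : ∀ᶠ v' : Euc 2 × W in 𝓝 v, 2 < ‖v'.1‖ :=
      (continuous_fst.norm).continuousAt.eventually (lt_mem_nhds hv)
    filter_upwards [eventually_ptM hS hvB hev] with u hu
    intro hT
    obtain ⟨a, ⟨ha1, ha2⟩, rfl⟩ := hT
    have haB := hbx a ha1 ha2
    rw [coord_ptM hS haB] at hu
    constructor
    · rw [heta a haB, hφ2 _ hu.2.le, hK2 _ hu.2.le]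
    · intro k x hx
      show (⇑F')^[k] x = ptM e L a
      have hx' : (⇑F)^[k] x = ptM e L a := hx
      have h3 : x = (⇑F.symm)^[k] (ptM e L a) := by
        rw [← hx']
        exact ((Function.LeftInverse.iterate F.symm_apply_apply k) x).symm
      rw [back_side hS hχ hF haB hu.2.le, ← back_side hS hχ hF' haB hu.2.le] at h3
      rw [h3]
      exact (Function.LeftInverse.iterate F'.apply_symm_apply k) _

end Pool.Agent.Lib.H37D
end

-- from Lib.H37D.DH51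
section

open TopologicalSpace Set Filter Topology
open scoped Manifold ContDiff
open Pool.Agent.Lib.Helper37.ConjBorel Pool.Agent.Lib.H37C

namespace Pool.Agent.Lib.H37D

variable {n : ℕ} {M : Type*} [TopologicalSpace M] [ChartedSpace (Euc n) M]
variable {W : Type*} [NormedAddCommGroup W] [NormedSpace ℝ W]
variable {f₀ : DiffInf n M} {m : ℕ} {p : M} {e : OpenPartialHomeomorph M (Euc n)} {L : Euc n ≃L[ℝ] Euc 2 × W}
variable {A : Euc 2 → W ≃L[ℝ] W} {r₂ r₃ : ℝ} {χ : W → ℝ} {lt : ℕ → ℕ → Prop} {δ : ℝ} {F : DiffInf n M}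

/-- **DH51 (M).** Isomorphic orders give topologically conjugate diffeomorphisms.

Proof. `conj_space 2 π` (Lib/H37C/C5) gives `φ` with `hφ2`, `hφ`. `ψ : Euc 2 ≃ₜ Euc 2` with `ψ ζ = psi lt δ ζ` (`psi_diffeo`). `Coc A (fun ζ => A (φ ζ))`
(`cont_A`, `A_le`, `A_close`; `W` is complete: `FiniteDimensional.complete ℝ W`). `exists_coc` (DH27) with `r = r₂/2` gives `K₁, L₁`; with `D = {ζ | 2 ≤ ‖ζ‖}`: on `D`,
`psi lt δ ζ = ζ` (`psi_out`), so `ψ.symm ζ = ζ`, and `φ ζ = ζ`; so `K₁ ζ w = w = L₁ ζ w`. `glue_of` with `(φ, K₁)` for `(F, F')`, and with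
`(φ.symm, K₂)`, `K₂ ζ w = L₁ (φ.symm ζ) w` for `(F', F)`: with `y = φ.symm ζ`, `φ.symm (psi lt' δ ζ) = psi lt δ y = ψ y` and `psi lt' δ ζ = φ (ψ y)`, so
`K₂ (psi lt' δ ζ) (A (psi lt' δ ζ) w) = L₁ (ψ y) (A (φ (ψ y)) w) = A (ψ y) (L₁ y w)` (sixth property in `exists_coc`). The two maps `etaM` are inverse to each other on the tube
(`coord_ptM`; for `x = pt (ζ, w)`: `η x = pt (φ ζ, K₁ ζ w)`, `η' (η x) = pt (ζ, L₁ ζ (K₁ ζ w))`; `η' x = pt (φ⁻¹ ζ, L₁ (φ⁻¹ ζ) w)`,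
`η (η' x) = pt (ζ, K₁ (φ⁻¹ ζ) (L₁ (φ⁻¹ ζ) w))`; the images are in the tube by `Glue.maps`). `glue` (DH14). -/
theorem topConj_of_isoC [T2Space M] [FiniteDimensional ℝ W] [IsStrictTotalOrder ℕ lt] {lt' : ℕ → ℕ → Prop}
    [IsStrictTotalOrder ℕ lt'] (hS : CSpot f₀ m p e L A r₂ r₃) (hχ : Cut χ r₂) (π : lt ≃r lt') (h0 : 0 < δ) (h1 : δ ≤ 1)
    (hF : IsPert f₀ e L χ lt δ F) {F' : DiffInf n M} (hF' : IsPert f₀ e L χ lt' δ F') : TopConj F F' := by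
  obtain ⟨φ, hφ2, hφ⟩ := conj_space 2 π h0 h1
  obtain ⟨hc, g, hgc, hg1, hg2⟩ := psi_diffeo (lt := lt) (n := 2) h0.le h1
  let ψ : Euc 2 ≃ₜ Euc 2 :=
    { toFun := psi lt δ
      invFun := g
      left_inv := hg1
      right_inv := hg2
      continuous_toFun := hc.continuous
      continuous_invFun := hgc.continuous }
  have hψ : ∀ ζ, ψ ζ = psi lt δ ζ := fun _ => rfl
  haveI : CompleteSpace W := FiniteDimensional.complete ℝ W
  have hCoc : Coc A (fun ζ => A (φ ζ)) :=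
    ⟨hS.cont_A, hS.cont_A.comp φ.continuous, hS.A_le, fun y w => hS.A_le _ _,
      fun y w => hS.A_close _ _ _⟩
  obtain ⟨K₁, L₁, hKc, hLc, hLK, hKL, hK5, hL6, hK7, hL8, hD⟩ :=
    exists_coc hCoc (half_pos hS.r_pos) ψ
  have hDD := hD {ζ | 2 ≤ ‖ζ‖} (by
      intro y hy
      have e1 : psi lt δ y = y := psi_out (fun h => absurd h.2 (not_lt.2 hy))
      have e2 : ψ.symm y = y := by
        rw [Homeomorph.symm_apply_eq, hψ, e1]
      rw [e2]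
      exact hy) (by
      intro y hy
      show A y = A (φ y)
      rw [hφ2 y hy])
  have hsym2 : ∀ x, 2 ≤ ‖x‖ → φ.symm x = x := by
    intro x hx
    rw [Homeomorph.symm_apply_eq, hφ2 x hx]
  have hsym : ∀ x, φ.symm (psi lt' δ x) = psi lt δ (φ.symm x) := by
    intro x
    rw [Homeomorph.symm_apply_eq, hφ, Homeomorph.apply_symm_apply]
  have G1 : Glue F.toHomeomorph F'.toHomeomorph (Tb e L r₂) m (etaM e L φ K₁) p :=
    glue_of hS hχ h0.le h1 hF hF' φ hφ2 hφ hKc (fun ζ w hw => hK5 ζ w hw)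
      (fun ζ w hw => hK7 ζ w hw) (fun ζ hζ w => (hDD ζ hζ w).1)
  have G2 : Glue F'.toHomeomorph F.toHomeomorph (Tb e L r₂) m
      (etaM e L φ.symm (fun ζ w => L₁ (φ.symm ζ) w)) p := by
    refine glue_of hS hχ h0.le h1 hF' hF φ.symm hsym2 hsym ?_ ?_ ?_ ?_
    · exact hLc.comp ((φ.symm.continuous.comp continuous_fst).prodMk continuous_snd)
    · intro ζ w hw
      show L₁ (φ.symm (psi lt' δ ζ)) (A (psi lt' δ ζ) w) =
        A (φ.symm (psi lt' δ ζ)) (L₁ (φ.symm ζ) w)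
      have h6 := hL6 (φ.symm ζ) w hw
      have e1 : φ (ψ (φ.symm ζ)) = psi lt' δ ζ := by
        rw [hψ, hφ, Homeomorph.apply_symm_apply]
      have e2 : ψ (φ.symm ζ) = φ.symm (psi lt' δ ζ) := by
        rw [hψ, hsym]
      rw [e1, e2] at h6
      exact h6
    · exact fun ζ w hw => hL8 (φ.symm ζ) w hw
    · intro ζ hζ w
      show L₁ (φ.symm ζ) w = w
      rw [hsym2 ζ hζ]
      exact (hDD ζ hζ w).2
  have hbox : ∀ v : Euc 2 × W, ‖v.1‖ < 5 / 2 ∧ ‖v.2‖ < r₂ / 2 → v ∈ Bx (W := W) r₃ := by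
    intro v hv
    have h2 := hS.r_pos
    have h3 := hS.r_lt
    exact ⟨by linarith [hv.1], by linarith [hv.2]⟩
  have hcoord : ∀ x ∈ Tb e L r₂, ∀ z ∈ Tb e L r₂, L (e x) = L (e z) → x = z := by
    rintro _ ⟨v, hv, rfl⟩ _ ⟨v', hv', rfl⟩ h
    rw [coord_ptM hS (hbox v hv), coord_ptM hS (hbox v' hv')] at h
    rw [h]
  have hval : ∀ v : Euc 2 × W, ptM e L v ∈ Tb e L r₂ → v ∈ Bx (W := W) r₃ → L (e (ptM e L v)) = v :=
    fun v _ hv => coord_ptM hS hv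
  have hη : ∀ (φ' : Euc 2 → Euc 2) (K : Euc 2 → W → W), ∀ x ∈ Tb e L r₂,
      ‖φ' (L (e x)).1‖ < 5 / 2 → ‖K (L (e x)).1 (L (e x)).2‖ < r₂ / 2 →
      L (e (etaM e L φ' K x)) = (φ' (L (e x)).1, K (L (e x)).1 (L (e x)).2) := by
    intro φ' K x _ h3 h4
    exact coord_ptM hS (hbox _ ⟨h3, h4⟩)
  have hx : ∀ x ∈ Tb e L r₂, ‖(L (e x)).1‖ < 5 / 2 ∧ ‖(L (e x)).2‖ < r₂ / 2 := by
    rintro _ ⟨v, hv, rfl⟩
    rw [coord_ptM hS (hbox v hv)]
    exact hv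
  have hball : ∀ φ' : Euc 2 ≃ₜ Euc 2, (∀ x, 2 ≤ ‖x‖ → φ' x = x) → ∀ ζ, ‖ζ‖ < 5 / 2 →
      ‖φ' ζ‖ < 5 / 2 := by
    intro φ' h ζ hζ
    by_contra hc
    push Not at hc
    have e1 := h (φ' ζ) (by linarith)
    have e2 := φ'.injective e1
    rw [e2] at hc
    linarith
  refine glue G1 G2 ?_ ?_
  · intro x hxT
    obtain ⟨a1, a2⟩ := hx x hxT
    have m1 := G1.maps x hxT
    have m2 := G2.maps _ m1
    have c1 := hη φ K₁ x hxT (hball φ hφ2 _ a1) (hK7 _ _ a2)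
    have b1 := hx _ m1
    have c2 := hη φ.symm (fun ζ w => L₁ (φ.symm ζ) w) _ m1 (hball φ.symm hsym2 _ b1.1)
      (hL8 _ _ b1.2)
    apply hcoord _ m2 _ hxT
    rw [c2, c1]
    show (φ.symm (φ (L (e x)).1), L₁ (φ.symm (φ (L (e x)).1)) (K₁ (L (e x)).1 (L (e x)).2)) =
      L (e x)
    rw [Homeomorph.symm_apply_apply, hLK]
  · intro x hxT
    obtain ⟨a1, a2⟩ := hx x hxT
    have m1 := G2.maps x hxT
    have m2 := G1.maps _ m1
    have c1 := hη φ.symm (fun ζ w => L₁ (φ.symm ζ) w) x hxT (hball φ.symm hsym2 _ a1)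
      (hL8 _ _ a2)
    have b1 := hx _ m1
    have c2 := hη φ K₁ _ m1 (hball φ hφ2 _ b1.1) (hK7 _ _ b1.2)
    apply hcoord _ m2 _ hxT
    rw [c2, c1]
    show (φ (φ.symm (L (e x)).1), K₁ (φ.symm (L (e x)).1) (L₁ (φ.symm (L (e x)).1) (L (e x)).2)) =
      L (e x)
    rw [Homeomorph.apply_symm_apply, hKL]

end Pool.Agent.Lib.H37D
end

-- from Lib.H37D.DH66
section

open TopologicalSpace Set Filter Topology
open scoped Manifold ContDiff
open Pool.Agent.Lib.Helper37.ConjBorel Pool.Agent.Lib.H37C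

namespace Pool.Agent.Lib.H37D

variable {n : ℕ} {M : Type*} [TopologicalSpace M] [ChartedSpace (Euc n) M]
variable {W : Type*} [NormedAddCommGroup W] [NormedSpace ℝ W]
variable {f₀ : DiffInf n M} {m : ℕ} {p : M} {e : OpenPartialHomeomorph M (Euc n)} {L : Euc n ≃L[ℝ] Euc 2 × W}
variable {A : Euc 2 → W ≃L[ℝ] W} {r₂ r₃ : ℝ} {χ : W → ℝ}

/-- **DH66.** Port of `not_topProp` (Lib/H37C/G1). -/
theorem not_topPropC [T2Space M] {δ : ℝ} (hS : CSpot f₀ m p e L A r₂ r₃) (hχ : Cut χ r₂) {lt : ℕ → ℕ → Prop}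
    [IsStrictTotalOrder ℕ lt] (h0 : 0 < δ) (h1 : δ ≤ 1) {F : DiffInf n M}
    (hF : IsPert f₀ e L χ lt δ F) {B₀ : Type} {r₀ : B₀ → B₀ → Prop}
    (hB : ∀ R : B₀ → Set M, GoodFam (bgC f₀ m e L r₂) r₀ R → ∀ x ∈ bgC f₀ m e L r₂,
      (∀ b, AccX (bgC f₀ m e L r₂) (R b) x) → ∃ D, SelfAcc (bgC f₀ m e L r₂) D ∧ x ∈ D)
    {r : B₀ ⊕ ℕ → B₀ ⊕ ℕ → Prop} [IsStrictTotalOrder (B₀ ⊕ ℕ) r] (hwf : WellFounded r)
    (hr : ∀ b b', r₀ b b' → r (Sum.inl b) (Sum.inl b')) (hlt : IsB lt r) :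
    ¬ TopProp r {z | (⇑F)^[m] z = z} := by
  rintro ⟨R, hR, x, hx, hacc, hno⟩
  obtain ⟨b, t, hb, ht⟩ : ∃ b t : ℕ, (∀ i, i ≠ b → lt b i) ∧ ∀ i, i ≠ t → lt i t := by
    obtain ⟨b, t, ι, -, -, hb, ht, hall⟩ := hlt
    have hbt : lt b t := _root_.trans (hb 0 0) (ht 0 0)
    refine ⟨b, t, fun i hi => ?_, fun i hi => ?_⟩
    · rcases hall i with h | h | ⟨q, f, h⟩
      · exact absurd h hi
      · rw [h]; exact hbt
      · rw [← h]; exact hb q f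
    · rcases hall i with h | h | ⟨q, f, h⟩
      · rw [h]; exact hbt
      · exact absurd h hi
      · rw [← h]; exact ht q f
  obtain ⟨hbg, Y, hY, hdis, hXY, hYj⟩ := split_fixC hS hχ hb ht h0 h1 hF
  have hx' : x ∈ bgC f₀ m e L r₂ ∪ Y := by rw [← hXY]; exact hx
  rcases hx' with hx' | hx'
  · obtain ⟨h2, h3⟩ := background hXY hbg hY hdis hR hx' hacc
    obtain ⟨D, hD1, hD2⟩ := hB (fun b => R (Sum.inl b) ∩ bgC f₀ m e L r₂)
      (fun b y hy => ⟨(h2 (Sum.inl b) y hy).1, fun b' hb' =>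
        (h2 (Sum.inl b) y hy).2 (Sum.inl b') (hr b' b hb')⟩) x hx' (fun b => h3 (Sum.inl b))
    exact hno D (selfAcc_background hXY hbg hY hdis hD1) hD2
  · obtain ⟨j, hj⟩ := hYj x hx'
    -- the homeomorphism `F^j`
    obtain ⟨g, hg⟩ : ∃ g : M ≃ₜ M, ∀ z, g z = (⇑F)^[j] z := by
      clear hj
      induction j with
      | zero => exact ⟨Homeomorph.refl M, fun z => rfl⟩
      | succ i ih =>
        obtain ⟨g, hg⟩ := ih
        refine ⟨g.trans F.toHomeomorph, fun z => ?_⟩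
        rw [Function.iterate_succ_apply', ← hg]
        rfl
    have hFinj : Function.Injective ((⇑F)^[j]) := F.injective.iterate j
    have hXF : ∀ z, g z ∈ {z | (⇑F)^[m] z = z} ↔ z ∈ {z | (⇑F)^[m] z = z} := by
      intro z
      show (⇑F)^[m] (g z) = g z ↔ (⇑F)^[m] z = z
      rw [hg, ← Function.iterate_add_apply, add_comm, Function.iterate_add_apply]
      exact hFinj.eq_iff
    have hgX : g '' {z | (⇑F)^[m] z = z} = {z | (⇑F)^[m] z = z} := by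
      ext z
      constructor
      · rintro ⟨w, hw, rfl⟩
        exact (hXF w).2 hw
      · intro hz
        refine ⟨g.symm z, (hXF _).1 ?_, g.apply_symm_apply z⟩
        rw [g.apply_symm_apply]
        exact hz
    have hR' := hR.image g
    rw [hgX] at hR'
    have hacc' : ∀ l, AccX {z | (⇑F)^[m] z = z} (g '' R l) (g x) := by
      intro l
      have h2 := AccX.image g hx (hacc l)
      rwa [hgX] at h2
    have hgx : g x ∈ {z | (⇑F)^[m] z = z} ∩ CoC e L r₂ := by rw [hg]; exact hj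
    obtain ⟨D, hD1, hD2⟩ := self_of_radC (radDataC hS hχ hb ht h0 h1 hF)
      (fun R hR k hk hacc => selfR_of_isB hwf hlt R hR k hk hacc) hR' hgx hacc'
    have hD3 := hD1.image g.symm
    have hgX' : g.symm '' {z | (⇑F)^[m] z = z} = {z | (⇑F)^[m] z = z} := by
      conv_lhs => rw [← hgX]
      rw [← image_comp]
      simp
    rw [hgX'] at hD3
    exact hno _ hD3 ⟨g x, hD2, g.symm_apply_apply x⟩

end Pool.Agent.Lib.H37D
end

-- from Lib.H37D.DH72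
section

open TopologicalSpace Set Filter Topology MeasureTheory
open scoped Manifold ContDiff
open Pool.Agent.Lib.Helper37.ConjBorel Pool.Agent.Lib.H37C

namespace Pool.Agent.Lib.H37D

variable {n : ℕ} {M : Type*} [TopologicalSpace M] [ChartedSpace (Euc n) M]
variable {W : Type*} [NormedAddCommGroup W] [NormedSpace ℝ W]
variable {f₀ : DiffInf n M} {m : ℕ} {p : M} {e : OpenPartialHomeomorph M (Euc n)} {L : Euc n ≃L[ℝ] Euc 2 × W}
variable {A : Euc 2 → W ≃L[ℝ] W} {r₂ r₃ : ℝ}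

/-- **DH72.** Every analytic set is reducible to topological conjugacy on `U`. -/
theorem reductionC [T2Space M] [CompactSpace M] [IsManifold (𝓡 n) ∞ M] [FiniteDimensional ℝ W]
    {U : Set (DiffInf n M)} (hU : IsOpen U) (h₀ : f₀ ∈ U) (hS : CSpot f₀ m p e L A r₂ r₃)
    (B : Set (ℕ → Bool)) (hB : AnalyticSet B) :
    ∃ F : (ℕ → Bool) → U × U, Continuous F ∧
      ∀ x, x ∈ B ↔ TopConj ((F x).1 : DiffInf n M) ((F x).2 : DiffInf n M) := by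
  have hMsc : SecondCountableTopology M := by
    obtain ⟨ι, hι, ⟨C⟩⟩ := exists_goodCover (n := n) (M := M)
    exact C.emb.isEmbedding.secondCountableTopology
  obtain ⟨χ, hχ⟩ := exists_cut (W := W) hS.r_pos
  obtain ⟨B₀, r₀, hB1, hB2, hB3, hB4⟩ := exists_prefix (bgC f₀ m e L r₂)
  obtain ⟨ltA, ltB, hA1, hB1', hA2, hB2', hiso, hno⟩ := exists_orders r₀ hB3 B hB
  obtain ⟨δ, hδ0, hδ1, G, hGc, hGU, hG⟩ := exists_familyC (T := (ℕ → Bool) × Bool) f₀ hU h₀ hS.mem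
    L hχ (fun v hv => hS.big v ⟨hv.1, hv.2.trans hS.r_lt.le⟩) (fun p => if p.2 then ltB p.1 else ltA p.1)
    (by
      rintro ⟨x, _ | _⟩
      · simpa using hA1 x
      · simpa using hB1' x)
    (by
      intro i j
      have h1 : {p : (ℕ → Bool) × Bool | (if p.2 then ltB p.1 else ltA p.1) i j} =
          (Prod.snd ⁻¹' {true} ∩ Prod.fst ⁻¹' {x | ltB x i j}) ∪
            (Prod.snd ⁻¹' {false} ∩ Prod.fst ⁻¹' {x | ltA x i j}) := by
        ext ⟨x, _ | _⟩ <;> simp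
      rw [h1]
      exact (((isClopen_discrete _).preimage continuous_snd).inter
        ((hB2' i j).preimage continuous_fst)).union
          (((isClopen_discrete _).preimage continuous_snd).inter
        ((hA2 i j).preimage continuous_fst)))
  refine ⟨fun x => (⟨G (x, false), hGU _⟩, ⟨G (x, true), hGU _⟩), ?_, fun x => ?_⟩
  · exact ((hGc.comp (continuous_id.prodMk continuous_const)).subtype_mk _).prodMk
      ((hGc.comp (continuous_id.prodMk continuous_const)).subtype_mk _)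
  have hFA : IsPert f₀ e L χ (ltA x) δ (G (x, false)) := by
    intro z; simpa using hG (x, false) z
  have hFB : IsPert f₀ e L χ (ltB x) δ (G (x, true)) := by
    intro z; simpa using hG (x, true) z
  have hsA := hA1 x
  have hsB := hB1' x
  constructor
  · intro hx
    obtain ⟨π⟩ := hiso x hx
    exact topConj_of_isoC hS hχ π hδ0 hδ1 hFA hFB
  · rintro ⟨h, hh⟩
    by_contra hx
    obtain ⟨r, hr1, hr2, hr3, hr4, hr5⟩ := hno x hx
    obtain ⟨b, t, hb, ht⟩ := g2_endsA hr4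
    have hT : TopProp r {z | (⇑(G (x, false)))^[m] z = z} :=
      topProp_of_radC (radDataC hS hχ hb ht hδ0 hδ1 hFA) (topR_of_isA hr2 hr4)
    have hT' := hT.image h
    rw [g2_image h hh m] at hT'
    exact not_topPropC hS hχ hδ0 hδ1 hFB hB4 hr2 hr3 hr5 hT'

/-- **DH72, main theorem of section HC.** An open set which contains a diffeomorphism with a centre spot. -/
theorem mainC [T2Space M] [CompactSpace M] [IsManifold (𝓡 n) ∞ M] [FiniteDimensional ℝ W]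
    {U : Set (DiffInf n M)} (hU : IsOpen U) (h₀ : f₀ ∈ U) (hS : CSpot f₀ m p e L A r₂ r₃) :
    AnalyticSet {p : U × U | TopConj (p.1 : DiffInf n M) (p.2 : DiffInf n M)} ∧
    (∀ A : Set (ℕ → Bool), AnalyticSet A → ∃ F : (ℕ → Bool) → U × U, Continuous F ∧
      ∀ x, x ∈ A ↔ TopConj ((F x).1 : DiffInf n M) ((F x).2 : DiffInf n M)) ∧
    ¬ MeasurableSet[borel (U × U)]
      {p : U × U | TopConj (p.1 : DiffInf n M) (p.2 : DiffInf n M)} := by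
  have hred := fun (B : Set (ℕ → Bool)) (hB : AnalyticSet B) => reductionC hU h₀ hS B hB
  refine ⟨analyticSet_topConj U hU, hred, fun hB => ?_⟩
  obtain ⟨A, hA, hAB⟩ := exists_analytic_nonborel
  obtain ⟨F, hF, hFA⟩ := hred A hA
  apply hAB
  let _ : MeasurableSpace (U × U) := borel (U × U)
  have _ : BorelSpace (U × U) := ⟨rfl⟩
  have h := hF.measurable hB
  have e : A = F ⁻¹' {p : U × U | TopConj (p.1 : DiffInf n M) (p.2 : DiffInf n M)} := by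
    ext x; exact hFA x
  rw [e]
  exact h

end Pool.Agent.Lib.H37D
end

-- from Lib.H37D.DH85
section

open TopologicalSpace Set Filter Topology MeasureTheory
open scoped Manifold ContDiff
open Pool.Agent.Lib.Helper37.ConjBorel Pool.Agent.Lib.H37C Pool.Agent.Lib.H37N

namespace Pool.Agent.Lib.H37D

variable {d : ℕ} {M : Type*} [TopologicalSpace M] [ChartedSpace (Euc (d + 2)) M]

/-- **DH85.** Section HC in the form used in the final theorem: an open set which contains a diffeomorphism with a centre spot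
in a good surrounding. -/
theorem main_of_local [T2Space M] [CompactSpace M] [IsManifold (𝓡 (d + 2)) ∞ M]
    {e : OpenPartialHomeomorph M (Euc (d + 2))} {r : ℝ} (he : BigCD e r) (hr : 4 ≤ r)
    {U : Set (DiffInf (d + 2) M)} (hU : IsOpen U) {f : DiffInf (d + 2) M} (hf : f ∈ U)
    (hL : LocalSpotD (locD e f)) {p : M} (hp : SrcAt e f p) :
    AnalyticSet {q : U × U | TopConj (q.1 : DiffInf (d + 2) M) (q.2 : DiffInf (d + 2) M)} ∧
    (∀ A : Set (ℕ → Bool), AnalyticSet A → ∃ F : (ℕ → Bool) → U × U, Continuous F ∧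
      ∀ x, x ∈ A ↔ TopConj ((F x).1 : DiffInf (d + 2) M) ((F x).2 : DiffInf (d + 2) M)) ∧
    ¬ MeasurableSet[borel (U × U)]
      {q : U × U | TopConj (q.1 : DiffInf (d + 2) M) (q.2 : DiffInf (d + 2) M)} := by
  obtain ⟨m, κ, L, A, r₂, r₃, hS⟩ := cspot_of_local he hr hL hp
  exact mainC hU hf hS

end Pool.Agent.Lib.H37D
end
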