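import Pool.Agent.Lib.H1M.FF.M042
import Pool.Agent.Lib.H1M.FF.M043
import Pool.Agent.Lib.H1M.FF.M051
import Pool.Agent.Lib.H1M.FF.M053
import Pool.Agent.Lib.H1M.FF.M055

/-! Merged copies (to shorten the build) of Lib.H37D.DF00, Lib.H37D.DF02, Lib.H37D.DF01, Lib.H37D.DF03, Lib.H37D.DJ01. -/

-- from Lib.H37D.DF00
section

/-!
# H37D DF00: tangency data after an admissible perturbation
-/

open Set Filter Topology Asymptotics
open scoped ContDiff

namespace Pool.Agent.Lib.H37D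

open Pool.Agent.Lib.H37N

variable {d : ℕ} {g : En d → En d} {s : FrD d} {Z : Set (En d)} {m : ℕ} {b a : ℝ} {wT : Wd d} {k l : ℕ}

/-- the derivative of the first coordinate along the arc -/
theorem df00_alpha (hN : NearS g) (hs : IsFrD g s) (hm : 1 ≤ m) (ht : TDD g s Z m b a wT k l) :
    ∃ α : ℝ, α ≠ 0 ∧ HasDerivAt (fun t : ℝ => (TTD g s b k l ((0, t), 0)).1.1) α 0 := by
  obtain ⟨⟨O, hO, h0, hc, -, -⟩, -⟩ := tt_regularD hN hs ht
  obtain ⟨-, h2, h3⟩ := tt_derivD hN hs hm ht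
  have hd : DifferentiableAt ℝ (TTD g s b k l) ((0, 0), 0) :=
    (hc.contDiffAt (hO.mem_nhds h0)).differentiableAt (by simp)
  refine ⟨_, ?_, df02_deriv hd⟩
  intro h4
  have e : (fderiv ℝ (TTD g s b k l) 0 ((0, 1), 0)).1.1 = 0 := h4
  rw [e, zero_mul] at h2
  linarith

theorem df00_td (hN : NearS g) (ht : TDD g s Z m b a wT k l) {r : ℝ} {D B : Set (En d)}
    {Li : En d → En d} (hp : PlaceD g s Z b a wT k l r D B Li) {ψ : En d → En d} (hψ : AdmD D ψ)
    (hfix : ψ (g (InD g s b k 0)) = g (InD g s b k 0))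
    (hord : (fun t : ℝ => (TTD (ψ ∘ g) s b k l ((0, t), 0)).1.2) =O[𝓝 0] fun t => |t| ^ (m + 1)) :
    TDD (ψ ∘ g) s Z m b a wT k l := by
  have h0 : (0 : En d) ∈ B := mem_of_mem_nhds hp.nhB
  have hin := PlaceD.iter_in hN hp hψ h0
  have hk : (ψ ∘ g) (InD (ψ ∘ g) s b k 0) = g (InD g s b k 0) := by
    rw [hin k le_rfl]
    exact hfix
  have hD := PlaceD.iter_D hN ht.subZ hp hψ (hp.inD 0 h0)
  refine ⟨ht.openZ, ht.subZ, ht.b_pos, ht.b_lt, ht.a_lt, ht.w_lt, ?_, ?_, ?_, ?_, ?_, hord⟩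
  · intro i hi
    rw [hin i hi]
    exact ht.path1 i hi
  · rw [hin k le_rfl]
    exact ht.memZ
  · intro i hi
    rw [hin i hi.le, hin k le_rfl]
    exact ht.dist i hi
  · intro i hi
    rw [hk, hD i hi]
    exact ht.path2 i hi
  · rw [hk, hD l le_rfl]
    exact ht.fin

theorem df00_fix (hN : NearS g) (hs : IsFrD g s) (ht : TDD g s Z m b a wT k l) {r : ℝ}
    {D B : Set (En d)} {Li : En d → En d} (hp : PlaceD g s Z b a wT k l r D B Li) {ψ : En d → En d}
    (hψ : AdmD D ψ) (h : PlD g s l (ψ (Li ((a, 0), wT))) = ((a, 0), wT)) :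
    ψ (g (InD g s b k 0)) = g (InD g s b k 0) := by
  have h0 : (0 : En d) ∈ B := mem_of_mem_nhds hp.nhB
  have hw := hp.inD 0 h0
  have hT : PlD g s l (g (InD g s b k 0)) = ((a, 0), wT) := (tt_regularD hN hs ht).2
  have e1 : Li ((a, 0), wT) = g (InD g s b k 0) := by
    rw [← hT]
    exact hp.Li_Pl _ hw
  rw [e1] at h
  have e2 := hp.Li_Pl _ (hψ.2 _ hw)
  rw [h, e1] at e2
  exact e2.symm

end Pool.Agent.Lib.H37D
end

-- from Lib.H37D.DF02
section

/-!
# H37D DF02: the slope of the logarithmic Jacobian along the arc (port of H37P/F02)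
-/

open Set Filter Topology Asymptotics
open scoped ContDiff

namespace Pool.Agent.Lib.H37D

open Pool.Agent.Lib.H37N

variable {d : ℕ}

theorem flat_slopeD {R m : ℕ} (hm : 1 ≤ m) {U : Set (En d → En d)} (hU : PertOpenD R U)
    (hUN : ∀ g ∈ U, NearS g) {g : En d → En d} (hg : g ∈ U) {s : FrD d} (hs : IsFrD g s)
    {Z : Set (En d)} {b a : ℝ} {wT : Wd d} {k l : ℕ} (ht : TDD g s Z m b a wT k l)
    (hfl : ∀ᶠ t : ℝ in 𝓝 0, (TTD g s b k l ((0, t), 0)).1.2 = 0) :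
    ∃ g' ∈ U, EqOffD Z g g' ∧ TDD g' s Z m b a wT k l ∧
      (∀ᶠ t : ℝ in 𝓝 0, (TTD g' s b k l ((0, t), 0)).1.2 = 0) ∧
      deriv (fun t : ℝ => Real.log (df02_M (TTD g' s b k l) t)) 0 ≠ 0 := by
  have hN := hUN g hg
  by_cases hL : deriv (fun t : ℝ => Real.log (df02_M (TTD g s b k l) t)) 0 = 0
  swap
  · exact ⟨g, hg, fun _ _ _ => rfl, ht, hfl, hL⟩
  obtain ⟨⟨O, hO, h0, hc, -, -⟩, hTT0⟩ := tt_regularD hN hs ht
  obtain ⟨α, hα, hX⟩ := df00_alpha hN hs hm ht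
  obtain ⟨r, D, B, Li, hp⟩ := exists_placeD hN hs ht
  have hr := hp.r_pos
  obtain ⟨χ, hχ, -, hχs, -, hχ1⟩ := exists_cutoff (E := En d) (C := {(((a, 0), wT) : En d)})
    (O := Metric.ball (((a, 0), wT) : En d) (r / 2)) isCompact_singleton Metric.isOpen_ball
    (singleton_subset_iff.2 (Metric.mem_ball_self (by linarith)))
  rw [nhdsSet_singleton] at hχ1
  obtain ⟨ε, hε, hUε⟩ := hU g hg
  have hfam := PlaceD.family hp (P := ℝ)
    (fun q : ℝ × En d => (((q.2.1.1, q.2.1.2 + q.2.1.2 * q.1 * (q.2.1.1 - a) * χ q.2), q.2.2) : En d))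
    (by
      have h1 : ContDiff ℝ ∞ (fun q : ℝ × En d => χ q.2) := hχ.comp contDiff_snd
      fun_prop)
    (fun v => by
      refine Prod.ext (Prod.ext rfl ?_) rfl
      simp)
    (fun p v hv => by
      have : χ v = 0 := by
        by_contra hc
        exact hv (Metric.ball_subset_closedBall (hχs (subset_tsupport χ hc)))
      refine Prod.ext (Prod.ext rfl ?_) rfl
      simp [this]) R hε
  obtain ⟨p, ⟨ψ, hSm, hAdm, hform⟩, hp0⟩ :=
    ((hfam.filter_mono (nhdsWithin_le_nhds (s := {(0 : ℝ)}ᶜ))).and self_mem_nhdsWithin).exists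
  have hp0' : p ≠ 0 := hp0
  have hball : Metric.ball (((a, 0), wT) : En d) (r / 2) ⊆ Metric.ball (((a, 0), wT) : En d) r :=
    Metric.ball_subset_ball (by linarith)
  have hTTc : ContinuousAt (TTD g s b k l) 0 := (hc.contDiffAt (hO.mem_nhds h0)).continuousAt
  have hχt : ∀ᶠ v : En d in 𝓝 0, χ (TTD g s b k l v) = 1 := by
    have hc : Tendsto (TTD g s b k l) (𝓝 0) (𝓝 ((a, 0), wT)) := by
      have h := hTTc.tendsto
      rwa [hTT0] at h
    exact hc.eventually hχ1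
  have hTT' : ∀ᶠ v : En d in 𝓝 0, TTD (ψ ∘ g) s b k l v =
      (((TTD g s b k l v).1.1, (TTD g s b k l v).1.2 * (1 + p * ((TTD g s b k l v).1.1 - a))),
        (TTD g s b k l v).2) := by
    filter_upwards [hp.nhB, hχt] with v h1 h2
    rw [(PlaceD.transition hN ht.subZ hp hAdm h1).1, hform _ (hball (hp.TB _ h1))]
    simp only [h2, mul_one]
    refine Prod.ext (Prod.ext rfl ?_) rfl
    simp only
    ring
  have hline : Tendsto (fun t : ℝ => (((0, t), 0) : En d)) (𝓝 0) (𝓝 0) :=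
    df02_line.continuous.continuousAt
  have hev : ∀ᶠ t : ℝ in 𝓝 0, ∀ᶠ v : En d in 𝓝 ((0, t), 0), TTD (ψ ∘ g) s b k l v =
      (((TTD g s b k l v).1.1, (TTD g s b k l v).1.2 * (1 + p * ((TTD g s b k l v).1.1 - a))),
        (TTD g s b k l v).2) :=
    hline.eventually (eventually_eventually_nhds.mpr hTT')
  have hflat' : ∀ᶠ t : ℝ in 𝓝 0, (TTD (ψ ∘ g) s b k l ((0, t), 0)).1.2 = 0 := by
    filter_upwards [hfl, hline.eventually hTT'] with t h1 h2
    rw [h2, h1, zero_mul]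
  have hTd : ∀ᶠ t : ℝ in 𝓝 0, DifferentiableAt ℝ (TTD g s b k l) (((0, t), 0) : En d) := by
    filter_upwards [hline.eventually (hO.mem_nhds h0)] with t h1
    exact (hc.contDiffAt (hO.mem_nhds h1)).differentiableAt (by simp)
  -- the new Jacobian
  have hM' : df02_M (TTD (ψ ∘ g) s b k l) =ᶠ[𝓝 0] fun t : ℝ =>
      df02_M (TTD g s b k l) t * (1 + p * ((TTD g s b k l ((0, t), 0)).1.1 - a)) := by
    filter_upwards [hev, hfl, hTd] with t h1 h2 h3
    have e1 : deriv (fun t : ℝ => (TTD (ψ ∘ g) s b k l ((0, t), 0)).1.1) t =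
        deriv (fun t : ℝ => (TTD g s b k l ((0, t), 0)).1.1) t := by
      refine EventuallyEq.deriv_eq ?_
      filter_upwards [df02_line.continuous.continuousAt.eventually h1] with u hu
      rw [hu]
    have e2 : (fderiv ℝ (TTD (ψ ∘ g) s b k l) ((0, t), 0) ((1, 0), 0)).1.2 =
        (fderiv ℝ (TTD g s b k l) ((0, t), 0) ((1, 0), 0)).1.2 *
          (1 + p * ((TTD g s b k l ((0, t), 0)).1.1 - a)) := by
      have d0 := h3.hasFDerivAt
      have d1 : HasFDerivAt (fun v : En d => (TTD g s b k l v).1.1)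
          ((ContinuousLinearMap.fst ℝ ℝ ℝ).comp ((ContinuousLinearMap.fst ℝ Pt (Wd d)).comp
            (fderiv ℝ (TTD g s b k l) ((0, t), 0)))) ((0, t), 0) := d0.fst.fst
      have d2 : HasFDerivAt (fun v : En d => (TTD g s b k l v).1.2)
          ((ContinuousLinearMap.snd ℝ ℝ ℝ).comp ((ContinuousLinearMap.fst ℝ Pt (Wd d)).comp
            (fderiv ℝ (TTD g s b k l) ((0, t), 0)))) ((0, t), 0) := d0.fst.snd
      have d3 := d2.mul (((d1.sub_const a).const_mul p).const_add 1)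
      have d4 := ((d1.prodMk d3).prodMk d0.snd).congr_of_eventuallyEq h1
      rw [d4.fderiv]
      simp [h2, mul_comm]
    unfold df02_M
    rw [e1, e2]
    ring
  have hMd := df02_M_diff hO h0 hc
  have hM0 : 0 < df02_M (TTD g s b k l) 0 := by
    obtain ⟨-, h2, h3⟩ := tt_derivD hN hs hm ht
    unfold df02_M
    have e : deriv (fun t : ℝ => (TTD g s b k l ((0, t), 0)).1.1) 0 =
        (fderiv ℝ (TTD g s b k l) 0 ((0, 1), 0)).1.1 :=
      (df02_deriv (t := 0) ((hc.contDiffAt (hO.mem_nhds h0)).differentiableAt (by simp))).deriv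
    have e' : (((0, 0), 0) : En d) = 0 := rfl
    rw [e, e', h2, neg_neg]
    exact h3
  have ha : (TTD g s b k l (((0 : ℝ), (0 : ℝ)), 0)).1.1 = a := by
    have : TTD g s b k l (((0 : ℝ), (0 : ℝ)), 0) = TTD g s b k l 0 := rfl
    rw [this, hTT0]
  have hf : HasDerivAt (fun t : ℝ => 1 + p * ((TTD g s b k l ((0, t), 0)).1.1 - a)) (p * α) 0 :=
    ((hX.sub_const a).const_mul p).const_add 1
  have hf0 : (1 : ℝ) + p * ((TTD g s b k l (((0 : ℝ), (0 : ℝ)), 0)).1.1 - a) = 1 := by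
    rw [ha]
    ring
  refine ⟨ψ ∘ g, hUε ψ hSm, PlaceD.eqOff hN ht.subZ hp hAdm, ?_, hflat', ?_⟩
  · refine df00_td hN ht hp hAdm (df00_fix hN hs ht hp hAdm ?_) ?_
    · rw [hform _ (Metric.mem_ball_self hr)]
      refine Prod.ext (Prod.ext rfl ?_) rfl
      simp
    · have h1 : (fun t : ℝ => (TTD (ψ ∘ g) s b k l ((0, t), 0)).1.2) =ᶠ[𝓝 0] fun _ => (0 : ℝ) := hflat'
      exact h1.trans_isBigO (isBigO_zero _ _)
  · have h1 : (fun t : ℝ => Real.log (df02_M (TTD (ψ ∘ g) s b k l) t)) =ᶠ[𝓝 0] fun t =>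
        Real.log (df02_M (TTD g s b k l) t) +
          Real.log (1 + p * ((TTD g s b k l ((0, t), 0)).1.1 - a)) := by
      have hpos : (0 : ℝ) < (fun t : ℝ => 1 + p * ((TTD g s b k l ((0, t), 0)).1.1 - a)) 0 := by
        show (0 : ℝ) < 1 + p * ((TTD g s b k l (((0 : ℝ), (0 : ℝ)), 0)).1.1 - a)
        rw [hf0]
        exact one_pos
      filter_upwards [hM', hMd.continuousAt.eventually (lt_mem_nhds hM0),
        hf.continuousAt.eventually (lt_mem_nhds hpos)] with t h1 h2 h3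
      rw [h1, Real.log_mul h2.ne' h3.ne']
    have h3 : HasDerivAt (fun t : ℝ => Real.log (df02_M (TTD g s b k l) t)) 0 0 := by
      have := (hMd.log hM0.ne').hasDerivAt
      rwa [hL] at this
    have h4 : HasDerivAt (fun t : ℝ => Real.log (1 + p * ((TTD g s b k l ((0, t), 0)).1.1 - a)))
        (p * α) 0 := by
      have h := hf.log (by rw [hf0]; exact one_ne_zero)
      rwa [hf0, div_one] at h
    have h5 : HasDerivAt (fun t : ℝ => Real.log (df02_M (TTD (ψ ∘ g) s b k l) t)) (p * α) 0 := by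
      have h := (h3.add h4).congr_of_eventuallyEq h1
      rwa [zero_add] at h
    rw [h5.deriv]
    exact mul_ne_zero hp0' hα

end Pool.Agent.Lib.H37D
end

-- from Lib.H37D.DF01
section

/-!
# H37D DF01: flat arcs
-/

open Set Filter Topology Asymptotics
open scoped ContDiff

namespace Pool.Agent.Lib.H37D

open Pool.Agent.Lib.H37N

variable {d : ℕ}

theorem flat_arcD {R m : ℕ} (hm : R + 1 ≤ m) {U : Set (En d → En d)} (hU : PertOpenD R U)
    (hUN : ∀ g ∈ U, NearS g) {g : En d → En d} (hg : g ∈ U) {s : FrD d} (hs : IsFrD g s)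
    {Z : Set (En d)} {b a : ℝ} {wT : Wd d} {k l : ℕ} (ht : TDD g s Z m b a wT k l) :
    ∃ g' ∈ U, EqOffD Z g g' ∧ TDD g' s Z m b a wT k l ∧
      ∀ᶠ t : ℝ in 𝓝 0, (TTD g' s b k l ((0, t), 0)).1.2 = 0 := by
  have hN := hUN g hg
  obtain ⟨⟨O, hO, hO0, hTs, -, -⟩, hT0⟩ := tt_regularD hN hs ht
  obtain ⟨-, hd2, hd3⟩ := tt_derivD hN hs (by omega) ht
  have hα : (fderiv ℝ (TTD g s b k l) 0 ((0, 1), 0)).1.1 ≠ 0 := by
    intro h
    rw [h, zero_mul] at hd2
    linarith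
  obtain ⟨Gh, O1, hO1, ha1, hGs, hGO, hGa, hG0⟩ := df01_core hO hO0 hTs hT0 hα ht.ord
  obtain ⟨r, D, B, Li, hp⟩ := exists_placeD hN hs ht
  obtain ⟨ε, hε, hU'⟩ := hU g hg
  have hcen : (((a, 0), wT) : En d) ∈ Metric.ball (((a, 0), wT) : En d) r := Metric.mem_ball_self hp.r_pos
  have hGO' : (fun v => Gh v - v) =O[𝓝 (((a, 0), wT) : En d)] fun v => ‖v - ((a, 0), wT)‖ ^ (R + 2) := by
    refine hGO.trans ?_
    refine IsBigO.of_bound 1 ?_
    have h1 : ∀ᶠ v in 𝓝 (((a, 0), wT) : En d), v ∈ Metric.ball (((a, 0), wT) : En d) 1 :=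
      Metric.ball_mem_nhds _ one_pos
    filter_upwards [h1] with v hv
    have hv' : ‖v - ((a, 0), wT)‖ ≤ 1 := by
      rw [Metric.mem_ball, dist_eq_norm] at hv
      exact hv.le
    rw [one_mul, norm_pow, norm_pow, norm_norm]
    exact pow_le_pow_of_le_one (norm_nonneg _) hv' (by omega)
  obtain ⟨ψ, hψS, hψA, hψG, -⟩ := hp.flat hcen hO1 ha1 hGs hGO' hε (O := univ) univ_mem
  have h0B : (0 : En d) ∈ B := mem_of_mem_nhds hp.nhB
  have hev : ∀ᶠ t : ℝ in 𝓝 0, (TTD (ψ ∘ g) s b k l ((0, t), 0)).1.2 = 0 := by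
    have hcont : Continuous (fun t : ℝ => (((0, t), 0) : En d)) := by fun_prop
    have h1 : ∀ᶠ t : ℝ in 𝓝 0, (((0, t), 0) : En d) ∈ B :=
      hcont.continuousAt.eventually_mem hp.nhB
    have h2 : Tendsto (fun t : ℝ => TTD g s b k l ((0, t), 0)) (𝓝 0) (𝓝 (((a, 0), wT) : En d)) := by
      have h3 : ContinuousAt (TTD g s b k l) ((0, 0), 0) :=
        (hTs.contDiffAt (hO.mem_nhds hO0)).continuousAt
      have h4 : Tendsto (fun t : ℝ => TTD g s b k l ((0, t), 0)) (𝓝 0)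
          (𝓝 (TTD g s b k l ((0, 0), 0))) :=
        h3.tendsto.comp (hcont.tendsto 0)
      have h5 : TTD g s b k l ((0, 0), 0) = ((a, 0), wT) := hT0
      rwa [h5] at h4
    filter_upwards [h1, h2.eventually hψG, hG0] with t ht1 ht2 ht3
    rw [(hp.transition hN ht.subZ hψA ht1).1, ht2, ht3]
  refine ⟨ψ ∘ g, hU' ψ hψS, hp.eqOff hN ht.subZ hψA, ?_, hev⟩
  refine df00_td hN ht hp hψA (df00_fix hN hs ht hp hψA ?_) ?_
  · rw [hψG.self_of_nhds, hGa]
  · refine IsBigO.of_bound 0 ?_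
    filter_upwards [hev] with t ht1
    rw [ht1]
    simp

end Pool.Agent.Lib.H37D
end

-- from Lib.H37D.DF03
section

/-!
# H37D DF03: the local form near a flat arc
-/

open Set Filter Topology Asymptotics
open scoped ContDiff

namespace Pool.Agent.Lib.H37D

open Pool.Agent.Lib.H37N

variable {d : ℕ}

theorem exists_flatD {g : En d → En d} {s : FrD d} {Z : Set (En d)} {m : ℕ} {b a : ℝ} {wT : Wd d}
    {k l : ℕ} (hN : NearS g) (hs : IsFrD g s) (hm : 1 ≤ m) (ht : TDD g s Z m b a wT k l)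
    (hfl : ∀ᶠ t : ℝ in 𝓝 0, (TTD g s b k l ((0, t), 0)).1.2 = 0) :
    ∃ (A : En d → ℝ) (Aw : En d → Wd d) (Nn : (ℝ × Wd d) × ℝ → ℝ) (Mh : (ℝ × Wd d) × En d → ℝ)
      (Mw : (ℝ × Wd d) × En d → (Wd d →L[ℝ] ℝ)) (rF : ℝ), FlatD g s b a wT k l A Aw Nn Mh Mw rF ∧
      ∀ᶠ t : ℝ in 𝓝 0, hGD A Mh t = df02_M (TTD g s b k l) t := by
  obtain ⟨⟨O, hO, h0O, hTO, -, -⟩, hT0⟩ := tt_regularD hN hs ht
  obtain ⟨-, hd2, hjac⟩ := tt_derivD hN hs hm ht
  have hTev : ∀ᶠ v in 𝓝 (0 : En d), ContDiffAt ℝ ∞ (TTD g s b k l) v := by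
    filter_upwards [hO.mem_nhds h0O] with v hv
    exact hTO.contDiffAt (hO.mem_nhds hv)
  obtain ⟨A, Aw, Nn, Mh, Mw, r, hr, h1, h2, h3, h4, h5, h6, h7, h8, h9, h10, h11, h12, h13⟩ :=
    df03_core hTev hT0 (by rw [hd2]; linarith) hfl
  refine ⟨A, Aw, Nn, Mh, Mw, r, ⟨hr, h1, h2, h3, h4, h5, h6, h7, h8, h9, h10, h11, h12⟩, ?_⟩
  filter_upwards [h13] with t ht
  unfold hGD df02_M
  rw [ht]

end Pool.Agent.Lib.H37D
end

-- from Lib.H37D.DJ01
section

/-!
# H37D DJ01 (M): the leading coefficient can be made nonzero (port of H37P/J01.lean)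

`j01_had`, `j01_lead` (H37P/J01) are one-dimensional and are used as they are.
* `j01_lineD`, `j01_alphaD`: as `j01_line`, `j01_alpha` (`tt_regularD`, `tt_derivD`; the line `t ↦ ((0,t),0)`).
* `j01_tdD`, `j01_fixD`: word for word as `j01_td`, `j01_fix` (`PlaceD.iter_in`, `PlaceD.iter_D`, `tt_regularD`).
* `nondegD`: as `nondeg`: `f t = (TTD ((0,t),0)).1.2 = t^(m+1) G t`; if `G 0 ≠ 0` take `g' = g`; otherwise
  `Ψ(p,v) = ((v.1.1, v.1.2 + p (v.1.1 - a)^(m+1) χ v), v.2)`, `χ` a bump at `((a,0),wT)` with support in the ball of radius `r/2`, `PlaceD.family`, small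
  `p ≠ 0`; `(TTD (ψ ∘ g) ((0,t),0)).1.2 = (TTD g ((0,t),0)).1.2 + p ((TTD g ((0,t),0)).1.1 - a)^(m+1)` near `t = 0` (`PlaceD.transition`), and
  `(TTD g ((0,t),0)).1.1 - a = t G1 t`, `G1 0 = α ≠ 0`; the new leading coefficient is `p α^(m+1)`.
-/

open Set Filter Topology Asymptotics
open scoped ContDiff

namespace Pool.Agent.Lib.H37D

open Pool.Agent.Lib.H37N

variable {d : ℕ}

theorem j01_lineD {g : En d → En d} {s : FrD d} {Z : Set (En d)} {m : ℕ} {b a : ℝ} {wT : Wd d}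
    {k l : ℕ} (hN : NearS g) (hs : IsFrD g s) (ht : TDD g s Z m b a wT k l) :
    ∀ᶠ t : ℝ in 𝓝 0, ContDiffAt ℝ ∞ (fun t : ℝ => TTD g s b k l ((0, t), 0)) t := by
  obtain ⟨⟨O, hO, h0, hc, -⟩, -⟩ := tt_regularD hN hs ht
  have hl : ContDiff ℝ ∞ (fun t : ℝ => ((((0 : ℝ), t), 0) : En d)) :=
    (contDiff_const.prodMk contDiff_id).prodMk contDiff_const
  have h1 : ∀ᶠ t : ℝ in 𝓝 0, ((((0 : ℝ), t), 0) : En d) ∈ O :=
    hl.continuous.continuousAt.eventually_mem (hO.mem_nhds h0)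
  filter_upwards [h1] with t ht
  have h2 := hc.contDiffAt (hO.mem_nhds ht)
  generalize TTD g s b k l = T at h2
  exact ContDiffAt.comp (g := T) (f := fun t : ℝ => ((((0 : ℝ), t), 0) : En d)) t h2 hl.contDiffAt

/-- the derivative of the first coordinate along the arc -/
theorem j01_alphaD {g : En d → En d} {s : FrD d} {Z : Set (En d)} {m : ℕ} {b a : ℝ} {wT : Wd d}
    {k l : ℕ} (hN : NearS g) (hs : IsFrD g s) (hm : 1 ≤ m) (ht : TDD g s Z m b a wT k l) :
    ∃ α : ℝ, α ≠ 0 ∧ HasDerivAt (fun t : ℝ => (TTD g s b k l ((0, t), 0)).1.1) α 0 := by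
  obtain ⟨⟨O, hO, h0, hc, -⟩, -⟩ := tt_regularD hN hs ht
  obtain ⟨-, h2, h3⟩ := tt_derivD hN hs hm ht
  have hd : DifferentiableAt ℝ (TTD g s b k l) 0 :=
    (hc.contDiffAt (hO.mem_nhds h0)).differentiableAt (by simp)
  have hline : HasDerivAt (fun t : ℝ => (((0 : ℝ), t), (0 : Wd d))) (((0 : ℝ), (1 : ℝ)), 0) 0 :=
    ((hasDerivAt_const (0 : ℝ) (0 : ℝ)).prodMk (hasDerivAt_id (0 : ℝ))).prodMk
      (hasDerivAt_const (0 : ℝ) (0 : Wd d))
  have h1 : HasDerivAt (fun t : ℝ => TTD g s b k l ((0, t), 0))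
      (fderiv ℝ (TTD g s b k l) 0 ((0, 1), 0)) 0 := by
    have h : HasFDerivAt (TTD g s b k l) (fderiv ℝ (TTD g s b k l) 0)
      (((0 : ℝ), (0 : ℝ)), (0 : Wd d)) := hd.hasFDerivAt
    generalize TTD g s b k l = T at h
    exact HasFDerivAt.comp_hasDerivAt (l := T)
      (f := fun t : ℝ => (((0 : ℝ), t), (0 : Wd d))) (0 : ℝ) h hline
  refine ⟨_, ?_, h1.fst.fst⟩
  intro h4
  rw [h4, zero_mul] at h2
  linarith

theorem j01_tdD {g : En d → En d} {s : FrD d} {Z : Set (En d)} {m : ℕ} {b a : ℝ} {wT : Wd d}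
    {k l : ℕ} (hN : NearS g) (ht : TDD g s Z m b a wT k l) {r : ℝ} {D B : Set (En d)}
    {Li : En d → En d} (hp : PlaceD g s Z b a wT k l r D B Li) {ψ : En d → En d} (hψ : AdmD D ψ)
    (hfix : ψ (g (InD g s b k 0)) = g (InD g s b k 0))
    (hord : (fun t : ℝ => (TTD (ψ ∘ g) s b k l ((0, t), 0)).1.2) =O[𝓝 0] fun t => |t| ^ (m + 1)) :
    TDD (ψ ∘ g) s Z m b a wT k l := by
  have h0 : (0 : En d) ∈ B := mem_of_mem_nhds hp.nhB
  have hin := PlaceD.iter_in hN hp hψ h0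
  have hk : (ψ ∘ g) (InD (ψ ∘ g) s b k 0) = g (InD g s b k 0) := by
    rw [hin k le_rfl]
    exact hfix
  have hD := PlaceD.iter_D hN ht.subZ hp hψ (hp.inD 0 h0)
  exact
    { openZ := ht.openZ
      subZ := ht.subZ
      b_pos := ht.b_pos
      b_lt := ht.b_lt
      a_lt := ht.a_lt
      w_lt := ht.w_lt
      path1 := fun i hi => by
        rw [hin i hi]
        exact ht.path1 i hi
      memZ := by
        rw [hin k le_rfl]
        exact ht.memZ
      dist := fun i hi => by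
        rw [hin i hi.le, hin k le_rfl]
        exact ht.dist i hi
      path2 := fun i hi => by
        rw [hk, hD i hi]
        exact ht.path2 i hi
      fin := by
        rw [hk, hD l le_rfl]
        exact ht.fin
      ord := hord }

/-- the fixed point of a perturbation at a place -/
theorem j01_fixD {g : En d → En d} {s : FrD d} {Z : Set (En d)} {m : ℕ} {b a : ℝ} {wT : Wd d}
    {k l : ℕ} (hN : NearS g) (hs : IsFrD g s) (ht : TDD g s Z m b a wT k l) {r : ℝ}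
    {D B : Set (En d)} {Li : En d → En d} (hp : PlaceD g s Z b a wT k l r D B Li)
    {ψ : En d → En d} (hψ : AdmD D ψ) (h : PlD g s l (ψ (Li ((a, 0), wT))) = ((a, 0), wT)) :
    ψ (g (InD g s b k 0)) = g (InD g s b k 0) := by
  have h0 : (0 : En d) ∈ B := mem_of_mem_nhds hp.nhB
  have hw := hp.inD 0 h0
  have hT : PlD g s l (g (InD g s b k 0)) = ((a, 0), wT) := (tt_regularD hN hs ht).2
  have e1 : Li ((a, 0), wT) = g (InD g s b k 0) := by
    rw [← hT]
    exact hp.Li_Pl _ hw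
  rw [e1] at h
  have e2 := hp.Li_Pl _ (hψ.2 _ hw)
  rw [h, e1] at e2
  exact e2.symm

theorem nondegD {R m : ℕ} (hm : 1 ≤ m) {U : Set (En d → En d)} (hU : PertOpenD R U)
    (hUN : ∀ g ∈ U, NearS g) {g : En d → En d} (hg : g ∈ U) {s : FrD d} (hs : IsFrD g s)
    {Z : Set (En d)} {b a : ℝ} {wT : Wd d} {k l : ℕ} (ht : TDD g s Z m b a wT k l) :
    ∃ g' ∈ U, EqOffD Z g g' ∧ TDD g' s Z m b a wT k l ∧
      ∃ κ : ℝ, κ ≠ 0 ∧ (fun t : ℝ => (TTD g' s b k l ((0, t), 0)).1.2 - κ * t ^ (m + 1)) =O[𝓝 0]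
        fun t => |t| ^ (m + 2) := by
  have hN := hUN g hg
  have hline := j01_lineD hN hs ht
  obtain ⟨G, hG, hG1⟩ := j01_had (f := fun t : ℝ => (TTD g s b k l ((0, t), 0)).1.2)
    (hline.mono fun t h => h.fst.snd) (m + 1) ht.ord
  have hl0 := j01_lead (m + 1) (hG.contDiffAt.differentiableAt (by simp)) hG1
  by_cases hκ : G 0 = 0
  swap
  · exact ⟨g, hg, fun _ _ _ => rfl, ht, G 0, hκ, hl0⟩
  have hy : (fun t : ℝ => (TTD g s b k l ((0, t), 0)).1.2) =O[𝓝 0] fun t => |t| ^ (m + 2) := by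
    refine hl0.congr_left fun t => ?_
    rw [hκ]
    ring
  have hTT0 := (tt_regularD hN hs ht).2
  obtain ⟨α, hα, hX⟩ := j01_alphaD hN hs hm ht
  have hX1 : (fun t : ℝ => (TTD g s b k l ((0, t), 0)).1.1 - a) =O[𝓝 0] fun t => |t| ^ 1 := by
    have h := hX.isBigO_sub
    have e : (TTD g s b k l ((0, (0 : ℝ)), 0)).1.1 = a := by
      have : TTD g s b k l ((0, (0 : ℝ)), 0) = TTD g s b k l 0 := rfl
      rw [this, hTT0]
    rw [e] at h
    refine h.trans (IsBigO.of_bound 1 (Eventually.of_forall fun t => ?_))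
    simp
  obtain ⟨G1, hG1s, hG1e⟩ := j01_had (f := fun t : ℝ => (TTD g s b k l ((0, t), 0)).1.1 - a)
    (hline.mono fun t h => h.fst.fst.sub contDiffAt_const) 1 hX1
  have hG10 : G1 0 = α := by
    have h1 : HasDerivAt (fun t : ℝ => t ^ 1 * G1 t) (G1 0) 0 := by
      have h := (hasDerivAt_id (0 : ℝ)).mul
        ((hG1s.contDiffAt.differentiableAt (by simp) : DifferentiableAt ℝ G1 0).hasDerivAt)
      simp only [id, one_mul, zero_mul, add_zero] at h
      refine h.congr_of_eventuallyEq (Eventually.of_forall fun t => ?_)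
      simp
    have h2 : HasDerivAt (fun t : ℝ => (TTD g s b k l ((0, t), 0)).1.1 - a) (G1 0) 0 :=
      h1.congr_of_eventuallyEq hG1e
    exact h2.unique (hX.sub_const a)
  obtain ⟨r, D, B, Li, hp⟩ := exists_placeD hN hs ht
  have hr := hp.r_pos
  obtain ⟨χ, hχ, -, hχs, -, hχ1⟩ := exists_cutoff (E := En d) (C := {(((a, 0), wT) : En d)})
    (O := Metric.ball (((a, 0), wT) : En d) (r / 2)) isCompact_singleton Metric.isOpen_ball
    (singleton_subset_iff.2 (Metric.mem_ball_self (by linarith)))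
  rw [nhdsSet_singleton] at hχ1
  obtain ⟨ε, hε, hUε⟩ := hU g hg
  have hfam := PlaceD.family hp (P := ℝ)
    (fun q : ℝ × En d => (((q.2.1.1, q.2.1.2 + q.1 * (q.2.1.1 - a) ^ (m + 1) * χ q.2), q.2.2) : En d))
    (by
      have e1 : ContDiff ℝ ∞ (fun q : ℝ × En d => χ q.2) := hχ.comp contDiff_snd
      fun_prop)
    (fun v => by ext <;> simp)
    (fun p v hv => by
      have : χ v = 0 := by
        by_contra hc
        exact hv (Metric.ball_subset_closedBall (hχs (subset_tsupport χ hc)))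
      ext <;> simp [this]) R hε
  obtain ⟨p, ⟨ψ, hSm, hAdm, hform⟩, hp0⟩ :=
    ((hfam.filter_mono (nhdsWithin_le_nhds (s := {(0 : ℝ)}ᶜ))).and self_mem_nhdsWithin).exists
  have hp0' : p ≠ 0 := hp0
  have hball : Metric.ball (((a, 0), wT) : En d) (r / 2) ⊆ Metric.ball (((a, 0), wT) : En d) r :=
    Metric.ball_subset_ball (by linarith)
  have hTTc : ContinuousAt (fun t : ℝ => TTD g s b k l ((0, t), 0)) 0 :=
    hline.self_of_nhds.continuousAt
  have hline0 : Tendsto (fun t : ℝ => ((((0 : ℝ), t), 0) : En d)) (𝓝 0) (𝓝 0) := by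
    have : Continuous (fun t : ℝ => ((((0 : ℝ), t), 0) : En d)) := by fun_prop
    exact this.continuousAt
  have hB : ∀ᶠ t : ℝ in 𝓝 0, ((((0 : ℝ), t), 0) : En d) ∈ B := hline0.eventually hp.nhB
  have hχt : ∀ᶠ t : ℝ in 𝓝 0, χ (TTD g s b k l ((0, t), 0)) = 1 := by
    have e : TTD g s b k l ((0, (0 : ℝ)), 0) = ((a, 0), wT) := hTT0
    have hc : Tendsto (fun t : ℝ => TTD g s b k l ((0, t), 0)) (𝓝 0) (𝓝 ((a, 0), wT)) := by
      have h := hTTc.tendsto
      rwa [e] at h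
    exact hc.eventually hχ1
  have hTT' : ∀ᶠ t : ℝ in 𝓝 0, (TTD (ψ ∘ g) s b k l ((0, t), 0)).1.2 =
      (TTD g s b k l ((0, t), 0)).1.2 + p * ((TTD g s b k l ((0, t), 0)).1.1 - a) ^ (m + 1) := by
    filter_upwards [hB, hχt] with t h1 h2
    rw [(PlaceD.transition hN ht.subZ hp hAdm h1).1, hform _ (hball (hp.TB _ h1)), h2, mul_one]
  have hpow : ∀ᶠ t : ℝ in 𝓝 0, p * ((TTD g s b k l ((0, t), 0)).1.1 - a) ^ (m + 1) =
      t ^ (m + 1) * (p * G1 t ^ (m + 1)) := by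
    filter_upwards [hG1e] with t h
    rw [h]
    ring
  have hlead := j01_lead (f := fun t : ℝ => p * ((TTD g s b k l ((0, t), 0)).1.1 - a) ^ (m + 1))
    (G := fun t => p * G1 t ^ (m + 1)) (m + 1)
    (((hG1s.contDiffAt.differentiableAt (by simp)).pow _).const_mul _) hpow
  rw [hG10] at hlead
  have hfinal : (fun t : ℝ => (TTD (ψ ∘ g) s b k l ((0, t), 0)).1.2 - p * α ^ (m + 1) * t ^ (m + 1)) =O[𝓝 0]
      fun t => |t| ^ (m + 2) := by
    refine IsBigO.congr' (hy.add hlead) ?_ EventuallyEq.rfl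
    filter_upwards [hTT'] with t h
    rw [h]
    ring
  refine ⟨ψ ∘ g, hUε ψ hSm, PlaceD.eqOff hN ht.subZ hp hAdm, ?_, p * α ^ (m + 1),
    mul_ne_zero hp0' (pow_ne_zero _ hα), hfinal⟩
  refine j01_tdD hN ht hp hAdm (j01_fixD hN hs ht hp hAdm ?_) ?_
  · rw [hform _ (Metric.mem_ball_self hr)]
    ext <;> simp
  · have h1 : (fun t : ℝ => p * α ^ (m + 1) * t ^ (m + 1)) =O[𝓝 0] fun t => |t| ^ (m + 1) := by
      refine IsBigO.of_bound |p * α ^ (m + 1)| (Eventually.of_forall fun t => ?_)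
      simp [abs_mul, abs_pow]
    have h2 : (fun t : ℝ => |t| ^ (m + 2)) =O[𝓝 0] fun t => |t| ^ (m + 1) := by
      have h3 : (fun t : ℝ => t ^ (m + 2)) =O[𝓝 0] fun t : ℝ => t ^ (m + 1) :=
        (isLittleO_pow_pow (by omega)).isBigO
      refine IsBigO.congr (h3.norm_norm) (fun t => ?_) (fun t => ?_)
      · simp [abs_pow]
      · simp [abs_pow]
    refine IsBigO.congr_left ((hfinal.trans h2).add h1) fun t => ?_
    ring

end Pool.Agent.Lib.H37D
end
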