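import Pool.Agent.Lib.H1M.FF.M018
import Pool.Agent.Lib.H1M.FF.M031
import Pool.Agent.Lib.H1M.FF.M034
import Pool.Agent.Lib.H1M.FF.M045
import Pool.Agent.Lib.H1M.FF.M051
import Pool.Agent.Lib.H1M.FF.M054
import Pool.Agent.Lib.H1M.FF.M055

/-! Merged copies (to shorten the build) of Lib.H37D.DI2f, Lib.H37D.DI2h, Lib.H37D.DI2g0, Lib.H37D.DI2g, Lib.H37D.DI99, Lib.H37D.DJ02, Lib.H37D.DP11, Lib.H37D.DJ10. -/

-- from Lib.H37D.DI2f
section

/-! # H37D, chunk DI2f (S/M): the rescaled functions (port of H37N/I2f.lean) -/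

open Set Filter Topology Asymptotics
open scoped ContDiff

namespace Pool.Agent.Lib.H37D

open Pool.Agent.Lib.H37N

namespace IngD

variable {m d : ℕ} {I : IngD m d} {S T1 T2 : En d → En d} {sS : ℝ} {wS : Wd d} {al1 al2 ka1 ka2 gm2 el : ℝ}

/-- all rescaled functions and the families of perturbations are smooth -/
theorem OK.smooth (h : I.OK S T1 T2 sS wS al1 al2 ka1 ka2 gm2 el) :
    ContDiff ℝ ∞ I.chi ∧ ContDiff ℝ ∞ I.omg ∧ ContDiff ℝ ∞ I.V ∧ ContDiff ℝ ∞ I.V2 ∧ ContDiff ℝ ∞ I.vv ∧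
      ContDiff ℝ ∞ I.zt ∧ ContDiff ℝ ∞ I.K ∧ ContDiff ℝ ∞ I.Ph1 ∧ ContDiff ℝ ∞ I.Ph2 ∧ ContDiff ℝ ∞ I.XiB ∧
      ContDiff ℝ ∞ I.OmB ∧ ContDiff ℝ ∞ I.HB ∧ ContDiff ℝ ∞ I.RB ∧ ContDiff ℝ ∞ I.ZB ∧ ContDiff ℝ ∞ I.base := by
  obtain ⟨sX, sO, sH, sR, sZ, sB⟩ := ingD_smooth I h.smf h.smooth_U0 h.smooth_XX h.smooth_Mh
  have hAh := h.smooth_Ah
  have hYh := h.smooth_Yh
  have hwh := h.smooth_wh
  have hYk := h.smooth_Yk
  have hN := h.smooth_N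
  have hG := h.smooth_G
  have hDH := h.smooth_DH
  have hDR := h.smooth_DR
  have hDZ := h.smooth_DZ
  have hTh := h.smf.smTh
  have p0 : ContDiff ℝ ∞ (fun q : ParD d × ℝ × ℝ => q.1) := contDiff_fst
  have p1 : ContDiff ℝ ∞ (fun q : ParD d × ℝ × ℝ => q.1.1) := contDiff_fst.comp contDiff_fst
  have p2 : ContDiff ℝ ∞ (fun q : ParD d × ℝ × ℝ => q.2.2) := contDiff_snd.comp contDiff_snd
  have p3 : ContDiff ℝ ∞ (fun q : ParD d × ℝ × ℝ => q.2.1) := contDiff_fst.comp contDiff_snd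
  have c1 : ContDiff ℝ ∞ I.chi := p2.mul (hAh.comp (p1.mul p2))
  have c0 : ContDiff ℝ ∞ I.omg := p2.smul (hwh.comp (p1.mul p2))
  have c2 : ContDiff ℝ ∞ I.V :=
    ((p2.pow (m + 1)).mul (hYh.comp (p1.mul p2))).add (ContDiff.sum fun j _ =>
      ((hG j).comp p3).mul (c1.pow ((j : ℕ) + 1)))
  have c3 : ContDiff ℝ ∞ I.V2 :=
    hDH.comp (p0.prodMk ((((c1.prodMk c2).prodMk c0).prodMk contDiff_const).prodMk p1))
  have c4 : ContDiff ℝ ∞ I.vv := ((c1.prodMk c2).prodMk c0).prodMk c3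
  have c5 : ContDiff ℝ ∞ I.zt := hDZ.comp (p0.prodMk (c4.prodMk p1))
  have c6 : ContDiff ℝ ∞ I.K :=
    ((c3.pow (m + 1)).mul (hYk.comp (p1.mul c3))).add (hDR.comp (p0.prodMk (c4.prodMk p1)))
  have c7 : ContDiff ℝ ∞ I.Ph1 := by
    have t1 : ContDiff ℝ ∞ (fun q : PEW m d × ℝ × Wd d => q.1.1.1) := by fun_prop
    have t2 : ContDiff ℝ ∞ (fun q : PEW m d × ℝ × Wd d => q.1.1.2.1 * q.2.1) := by fun_prop
    have t3 : ContDiff ℝ ∞ (fun q : PEW m d × ℝ × Wd d => mulw q.1.2 q.2.2) :=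
      contDiff_mulw (by fun_prop) (by fun_prop)
    have t4 : ContDiff ℝ ∞ (fun q : PEW m d × ℝ × Wd d => q.1.1.2.2.1) := by fun_prop
    have t5 : ContDiff ℝ ∞ (fun q : PEW m d × ℝ × Wd d => ∑ j : Fin m, q.1.1.2.2.2 j * (q.2.1 - I.a) ^ ((j : ℕ) + 1)) := by
      refine ContDiff.sum fun j _ => ?_
      fun_prop
    exact ((t1.mul (contDiff_const.add (hTh.comp (t2.prodMk t3)))).add t4).add t5
  have c8 : ContDiff ℝ ∞ I.Ph2 := by
    have t1 : ContDiff ℝ ∞ (fun q : PEW m d × ℝ × Wd d => (((q.1.1.1, q.1.2), q.2.1) : (ℝ × Wd d) × ℝ)) := by fun_prop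
    have t4 : ContDiff ℝ ∞ (fun q : PEW m d × ℝ × Wd d => q.1.1.2.1) := by fun_prop
    have t5 : ContDiff ℝ ∞ (fun q : PEW m d × ℝ × Wd d =>
        ∑ j : Fin m, q.1.1.2.2.2 j * (q.2.1 - I.a2 - q.1.1.2.2.1) ^ ((j : ℕ) + 1)) := by
      refine ContDiff.sum fun j _ => ?_
      fun_prop
    exact ((hN.comp t1).neg.sub t4).sub t5
  exact ⟨c1, c0, c2, c3, c4, c5, c6, c7, c8, sX, sO, sH, sR, sZ, sB⟩

/-- the families vanish at the parameter 0 -/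
theorem OK.Ph_zero (h : I.OK S T1 T2 sS wS al1 al2 ka1 ka2 gm2 el) (X : ℝ × Wd d) :
    I.Ph1 (0, X) = 0 ∧ I.Ph2 (0, X) = 0 := by
  constructor
  · simp [Ph1]
  · have h1 : I.N ((0, 0), X.1) = 0 := h.N0 X.1
    simp [Ph2, h1]

/-- values at p = 0 -/
theorem OK.at_zero (h : I.OK S T1 T2 sS wS al1 al2 ka1 ka2 gm2 el) (z x : ℝ) :
    I.zt (0, z, x) = al2 * (ka1 * x ^ (m + 1) + ∑ j : Fin m, I.G j z * (al1 * x) ^ ((j : ℕ) + 1)) ∧
    I.K (0, z, x) = ka2 * (ka1 * x ^ (m + 1) + ∑ j : Fin m, I.G j z * (al1 * x) ^ ((j : ℕ) + 1)) ^ (m + 1) +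
      I.B0 * I.f.Y1 (0, 0) * gm2 * al1 * x +
      el * (ka1 * x ^ (m + 1) + ∑ j : Fin m, I.G j z * (al1 * x) ^ ((j : ℕ) + 1)) := by
  have hchi : I.chi (0, z, x) = al1 * x := by
    simp only [chi, Prod.fst_zero, zero_mul, h.Ah0]
    ring
  have hV : I.V (0, z, x) = ka1 * x ^ (m + 1) + ∑ j : Fin m, I.G j z * (al1 * x) ^ ((j : ℕ) + 1) := by
    simp only [V, hchi, Prod.fst_zero, zero_mul, h.Yh0]
    ring
  have hV2 : I.V2 (0, z, x) = ka1 * x ^ (m + 1) + ∑ j : Fin m, I.G j z * (al1 * x) ^ ((j : ℕ) + 1) := by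
    rw [← hV]
    exact h.DH0 (((I.chi (0, z, x), I.V (0, z, x)), I.omg (0, z, x)), 0)
  constructor
  · have h1 : I.zt (0, z, x) = al2 * I.V2 (0, z, x) := h.DZ0 (I.vv (0, z, x))
    rw [h1, hV2]
  · have h1 : I.DR (0, I.vv (0, z, x), 0) = I.B0 * I.f.Y1 (0, 0) * gm2 * I.chi (0, z, x) + el * I.V2 (0, z, x) :=
      h.DR0 (I.vv (0, z, x))
    have h2 : I.K (0, z, x) = I.V2 (0, z, x) ^ (m + 1) * I.Yk (0 * I.V2 (0, z, x)) + I.DR (0, I.vv (0, z, x), 0) := rfl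
    rw [h2, h1, hV2, hchi, zero_mul, h.Yk0]
    ring

/-- values at x = 0 for s ≠ 0 -/
theorem OK.at_x0 (h : I.OK S T1 T2 sS wS al1 al2 ka1 ka2 gm2 el) (p : ParD d) (z : ℝ) (hs : p.1 ≠ 0) :
    I.chi (p, z, 0) = 0 ∧ I.omg (p, z, 0) = 0 ∧ I.V (p, z, 0) = 0 ∧ I.V2 (p, z, 0) = 0 ∧ I.zt (p, z, 0) = 0 ∧
      I.K (p, z, 0) = 0 := by
  have hchi : I.chi (p, z, 0) = 0 := by simp [chi]
  have homg : I.omg (p, z, 0) = 0 := by simp [omg]
  have hV : I.V (p, z, 0) = 0 := by simp [V, hchi]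
  have e1 : I.DH (p, 0, p.1) = 0 := by
    have := h.eqDH p 0 p.1
    rw [smul_zero, add_zero] at this
    have h2 : p.1 * I.DH (p, 0, p.1) = 0 := by linarith
    exact (mul_eq_zero.1 h2).resolve_left hs
  have e2 : I.DR (p, 0, p.1) = 0 := by
    have := h.eqDR p 0 p.1
    rw [smul_zero, add_zero] at this
    have h2 : p.1 * I.DR (p, 0, p.1) = 0 := by linarith
    exact (mul_eq_zero.1 h2).resolve_left hs
  have e3 : I.DZ (p, 0, p.1) = 0 := by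
    have := h.eqDZ p 0 p.1
    rw [smul_zero, add_zero] at this
    have h2 : p.1 * I.DZ (p, 0, p.1) = 0 := by linarith
    exact (mul_eq_zero.1 h2).resolve_left hs
  have hV2 : I.V2 (p, z, 0) = 0 := by
    simp only [V2, hchi, hV, homg]
    exact e1
  have hvv : I.vv (p, z, 0) = 0 := by
    simp only [vv, hchi, hV, hV2, homg]
    rfl
  refine ⟨hchi, homg, hV, hV2, ?_, ?_⟩
  · simp only [zt, hvv, e3]
  · simp only [K, hvv, hV2, e2]
    simp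

end IngD

end Pool.Agent.Lib.H37D
end

-- from Lib.H37D.DI2h
section

/-! # H37D, DI2h: the conditions hold for small parameters (port of H37N/I2h.lean) -/

open Set Filter Topology Asymptotics
open scoped ContDiff

namespace Pool.Agent.Lib.H37D

open Pool.Agent.Lib.H37N

theorem tubeD {A : Type} [TopologicalSpace A] [Zero A] {P : A × ℝ × ℝ → Prop}
    (h : ∀ z ∈ Icc (0 : ℝ) 1, ∀ᶠ q in 𝓝 ((0, z, 0) : A × ℝ × ℝ), P q) :
    ∀ᶠ p in 𝓝 (0 : A), ∀ z ∈ Icc (0 : ℝ) 1, ∀ᶠ x in 𝓝 (0 : ℝ), P (p, z, x) := by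
  have h1 : ∀ᶠ r in 𝓝 ((0, 0) : A × ℝ), ∀ z ∈ Icc (0 : ℝ) 1, P (r.1, z, r.2) := by
    refine isCompact_Icc.eventually_forall_of_forall_eventually ?_
    intro z hz
    have hc : Continuous fun w : (A × ℝ) × ℝ => ((w.1.1, w.2, w.1.2) : A × ℝ × ℝ) := by fun_prop
    have ht := hc.tendsto (((0, 0), z) : (A × ℝ) × ℝ)
    exact ht.eventually (h z hz)
  rw [nhds_prod_eq] at h1
  filter_upwards [h1.curry] with p hp z hz
  filter_upwards [hp] with x hx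
  exact hx z hz

namespace IngD

variable {m d : ℕ} {I : IngD m d} {S T1 T2 : En d → En d} {sS : ℝ} {wS : Wd d} {al1 al2 ka1 ka2 gm2 el : ℝ}

theorem di2h_ZB0 (h : I.OK S T1 T2 sS wS al1 al2 ka1 ka2 gm2 el) : I.ZB (0, I.base 0) = I.a2 := by
  have hm : m ≠ 0 := by have := h.hm; omega
  have h0 : I.XX ((0, 0), 0) = I.a2 := h.XX0
  have e : I.ZB (0, I.base 0) = I.XX ((0 + (0 : ℝ) ^ m * I.XiB (0, I.base 0), 0), 0 + (0 : ℝ) ^ m • I.OmB (0, I.base 0)) :=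
    rfl
  rw [e, zero_pow hm, zero_mul, zero_smul, add_zero, add_zero]
  exact h0

theorem di2h_arg0 (b : ℝ) (z : En d) : argF b 0 z = 0 := by
  have e : argF b (0 : EP d) z = (((0 : ℝ) * z.1.1, (0 : ℝ) * (z.1.2 + b)), mulw 0 z.2) := rfl
  rw [e, zero_mul, zero_mul, mulw_zero_left]
  rfl

theorem OK.good (h : I.OK S T1 T2 sS wS al1 al2 ka1 ka2 gm2 el) {N : Set (En d)} (hN : N ∈ 𝓝 (0 : En d)) :
    ∀ᶠ p in 𝓝 (0 : ParD d), ∀ z ∈ Icc (0 : ℝ) 1, ∀ᶠ x in 𝓝 (0 : ℝ), I.Good S T1 T2 sS wS N (p, z, x) := by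
  refine tubeD fun z _ => ?_
  have hm : m ≠ 0 := by have := h.hm; omega
  obtain ⟨s1, s2, s3, s4, -, s5, -, -, -, -, -, -, -, s12, s13⟩ := h.smooth
  have c1 : Continuous I.chi := s1.continuous
  have c1' : Continuous I.omg := s2.continuous
  have c2 : Continuous I.V := s3.continuous
  have c3 : Continuous I.V2 := s4.continuous
  have c5 : Continuous I.zt := s5.continuous
  have c12 : Continuous I.ZB := s12.continuous
  have c13 : Continuous I.base := s13.continuous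
  have cU0 : Continuous I.U0 := h.smooth_U0.continuous
  have cTh : Continuous I.f.Th := h.smf.smTh.continuous
  have cWW : Continuous I.WW := h.smooth_WW.continuous
  have cX1 : Continuous I.X1 := by
    unfold X1
    fun_prop
  have cU : Continuous I.U := by
    unfold U
    have : Continuous fun q : ParD d × ℝ × ℝ => I.U0 q.1.2 := cU0.comp (by fun_prop)
    fun_prop
  have cw : Continuous I.wq := by
    unfold wq
    fun_prop
  have cz : Continuous I.zQ := by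
    unfold zQ
    fun_prop
  have cXi : Continuous I.XiQ := by
    unfold XiQ
    exact (contDiff_XiFD h.smf I.b I.B0).continuous.comp
      (f := fun q : ParD d × ℝ × ℝ => (q.1.2, I.zQ q)) (by fun_prop)
  have cOm : Continuous I.OmQ := by
    unfold OmQ
    exact (contDiff_OmFD h.smf I.b I.dS).continuous.comp
      (f := fun q : ParD d × ℝ × ℝ => (q.1.2, I.zQ q)) (by fun_prop)
  have cu : Continuous I.uQ := by
    unfold uQ
    exact (contDiff_argF I.b).continuous.comp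
      (f := fun q : ParD d × ℝ × ℝ => (q.1.2, I.zQ q)) (by fun_prop)
  have cx0 : Continuous fun q : ParD d × ℝ × ℝ => q.1.2.1 4 := by fun_prop
  have cw0 : Continuous fun q : ParD d × ℝ × ℝ => q.1.2.2 2 := by fun_prop
  have cex : Continuous I.exQ := by
    unfold exQ
    fun_prop
  have key : ∀ {Y : Type} [TopologicalSpace Y] {f : ParD d × ℝ × ℝ → Y} {y₀ : Y} {Q : Y → Prop},
      Continuous f → f (0, z, 0) = y₀ → (∀ᶠ y in 𝓝 y₀, Q y) →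
      ∀ᶠ q in 𝓝 ((0, z, 0) : ParD d × ℝ × ℝ), Q (f q) := by
    intro Y _ f y₀ Q hf hfy hQ
    have ht := hf.tendsto ((0, z, 0) : ParD d × ℝ × ℝ)
    rw [hfy] at ht
    exact ht.eventually hQ
  have hu0 : I.uQ (0, z, 0) = 0 := di2h_arg0 I.b _
  have he0 : I.exQ (0, z, 0) = 0 := by
    have e : I.exQ (0, z, 0) = ((0 + (0 : ℝ) ^ m * I.XiQ (0, z, 0), (0 : ℝ) * I.V2 (0, z, 0)),
      0 + (0 : ℝ) ^ m • I.OmQ (0, z, 0)) := rfl
    rw [e, zero_pow hm, zero_mul, zero_mul, zero_smul, add_zero, add_zero]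
    rfl
  have k1 := key (f := fun q : ParD d × ℝ × ℝ => q.1.1 * q.2.2) (y₀ := 0) (by fun_prop) (by simp) h.eqT1
  have k2 := key (f := fun q : ParD d × ℝ × ℝ => q.1.2) (y₀ := 0) (by fun_prop) rfl h.eqU0
  have k3 := key (y₀ := 0) cu hu0 h.eqS
  have k5 := key (f := fun q : ParD d × ℝ × ℝ =>
      (((q.1.2.1 4, q.1.2.2 2), q.1.1 * I.V2 q) : (ℝ × Wd d) × ℝ)) (y₀ := 0) (by fun_prop) (by
        refine Prod.ext rfl ?_
        show (0 : ℝ) * I.V2 (0, z, 0) = 0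
        rw [zero_mul]) h.eqM
  have k6 := key (f := fun q : ParD d × ℝ × ℝ => q.1.1 * I.V2 q) (y₀ := 0) (by fun_prop) (by
        show (0 : ℝ) * I.V2 (0, z, 0) = 0
        rw [zero_mul]) h.eqYk
  have k7 := key (y₀ := 0) cex he0 h.eqT2
  have k8 := key (y₀ := 0) cex he0 hN
  have kh : Continuous fun q : ParD d × ℝ × ℝ =>
      ((((I.uQ q).1.1, I.f.Th ((I.uQ q).1.1, (I.uQ q).2) + (I.uQ q).1.2), (I.uQ q).2) : En d) := by
    have e1 : Continuous fun q : ParD d × ℝ × ℝ => (I.uQ q).1.1 := (continuous_fst.comp continuous_fst).comp cu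
    have e2 : Continuous fun q : ParD d × ℝ × ℝ => (I.uQ q).1.2 := (continuous_snd.comp continuous_fst).comp cu
    have e3 : Continuous fun q : ParD d × ℝ × ℝ => (I.uQ q).2 := continuous_snd.comp cu
    exact (e1.prodMk ((cTh.comp (e1.prodMk e3)).add e2)).prodMk e3
  have k9 := key (y₀ := 0) kh (by
    show ((((I.uQ (0, z, 0)).1.1, I.f.Th ((I.uQ (0, z, 0)).1.1, (I.uQ (0, z, 0)).2) + (I.uQ (0, z, 0)).1.2),
      (I.uQ (0, z, 0)).2) : En d) = 0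
    rw [hu0]
    have hT : I.f.Th (((0 : En d)).1.1, ((0 : En d)).2) = 0 := h.smf.Th0
    rw [hT]
    refine Prod.ext (Prod.ext rfl ?_) rfl
    exact zero_add _) hN
  have ki : Continuous fun q : ParD d × ℝ × ℝ =>
      (((I.ZB (q.1, I.base q.1) + q.1.1 * I.zt q - I.a2, 0), I.WW (I.exQ q) - I.w2) : En d) := by
    have : Continuous fun q : ParD d × ℝ × ℝ => I.ZB (q.1, I.base q.1) := c12.comp (by fun_prop)
    have : Continuous fun q : ParD d × ℝ × ℝ => I.WW (I.exQ q) := cWW.comp cex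
    fun_prop
  have k10 := key (y₀ := 0) ki (by
    show (((I.ZB (0, I.base 0) + (0 : ℝ) * I.zt (0, z, 0) - I.a2, 0), I.WW (I.exQ (0, z, 0)) - I.w2) : En d) = 0
    rw [di2h_ZB0 h, he0, h.WW0, zero_mul, add_zero, sub_self, sub_self]
    rfl) hN
  filter_upwards [k1, k2, k3, k5, k6, k7, k8, k9, k10] with q g1 g2 g3 g5 g6 g7 g8 g9 g10
  exact ⟨g1, g2, g3, g5 (I.XiQ q, I.OmQ q) (q.1.1 ^ m), g6, g7, g9, g8, g10⟩

theorem OK.par1_small (h : I.OK S T1 T2 sS wS al1 al2 ka1 ka2 gm2 el) {N1 : Set (PEW m d)}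
    (hN : N1 ∈ 𝓝 (0 : PEW m d)) :
    ∀ᶠ r : ℝ × ParD d in 𝓝 0, ∀ z ∈ Icc (0 : ℝ) 1, I.par1 r.1 r.2 z ∈ N1 := by
  have hm : m ≠ 0 := by have := h.hm; omega
  refine isCompact_Icc.eventually_forall_of_forall_eventually ?_
  intro z _
  have cU0 : Continuous I.U0 := h.smooth_U0.continuous
  have hc : Continuous fun w : (ℝ × ParD d) × ℝ => I.par1 w.1.1 w.1.2 w.2 := by
    unfold par1
    have k1 : Continuous fun w : (ℝ × ParD d) × ℝ => I.U0 w.1.2.2 := cU0.comp (by fun_prop)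
    have k2 : Continuous fun w : (ℝ × ParD d) × ℝ => fun j : Fin m => w.1.2.1 ^ (m - (j : ℕ)) * I.G j w.2 := by
      refine continuous_pi fun j => ?_
      have : Continuous fun w : (ℝ × ParD d) × ℝ => I.G j w.2 := (h.smooth_G j).continuous.comp (by fun_prop)
      fun_prop
    exact Continuous.prodMk (Continuous.prodMk (by fun_prop) (Continuous.prodMk (by fun_prop)
      (Continuous.prodMk (by fun_prop) k2))) (by fun_prop)
  have h0 : I.par1 0 0 z = 0 := by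
    have hj : ∀ j : Fin m, m - (j : ℕ) ≠ 0 := fun j => by have := j.2; omega
    unfold par1
    simp only [Prod.fst_zero, Prod.snd_zero, zero_pow hm, zero_mul]
    refine Prod.ext (Prod.ext rfl (Prod.ext rfl (Prod.ext rfl ?_))) rfl
    funext j
    simp [zero_pow (hj j)]
  have ht := hc.tendsto ((0, z) : (ℝ × ParD d) × ℝ)
  have e : I.par1 ((0, z) : (ℝ × ParD d) × ℝ).1.1 ((0, z) : (ℝ × ParD d) × ℝ).1.2 ((0, z) : (ℝ × ParD d) × ℝ).2 = 0 := h0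
  simp only [e] at ht
  exact ht.eventually hN

theorem OK.par2_small (h : I.OK S T1 T2 sS wS al1 al2 ka1 ka2 gm2 el) (C : ℝ) {N2 : Set (PEW m d)}
    (hN : N2 ∈ 𝓝 (0 : PEW m d)) :
    ∀ᶠ p in 𝓝 (0 : ParD d), ∀ k : Fin m → ℝ, (∀ j, |k j| ≤ C) → I.par2 p k ∈ N2 := by
  have hm : m ≠ 0 := by have := h.hm; omega
  obtain ⟨-, -, -, -, -, -, -, -, -, -, -, -, s11, s12, s13⟩ := h.smooth
  have c11 : Continuous I.RB := s11.continuous
  have c12 : Continuous I.ZB := s12.continuous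
  have c13 : Continuous I.base := s13.continuous
  have hK : IsCompact {k : Fin m → ℝ | ∀ j, |k j| ≤ C} := by
    have e : {k : Fin m → ℝ | ∀ j, |k j| ≤ C} = Set.pi univ fun _ => Icc (-C) C := by
      ext k
      simp only [Set.mem_ofPred_eq, Set.mem_pi, mem_univ, true_implies, mem_Icc, abs_le]
    rw [e]
    exact isCompact_univ_pi fun _ => isCompact_Icc
  have hc : Continuous fun w : ParD d × (Fin m → ℝ) => I.par2 w.1 w.2 := by
    unfold par2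
    have k1 : Continuous fun w : ParD d × (Fin m → ℝ) => I.RB (w.1, I.base w.1) := c11.comp (by fun_prop)
    have k2 : Continuous fun w : ParD d × (Fin m → ℝ) => I.ZB (w.1, I.base w.1) := c12.comp (by fun_prop)
    have k3 : Continuous fun w : ParD d × (Fin m → ℝ) => fun j : Fin m => w.1.1 ^ (m - (j : ℕ)) * w.2 j := by
      refine continuous_pi fun j => ?_
      fun_prop
    fun_prop
  have h0 : ∀ k : Fin m → ℝ, I.par2 0 k = 0 := by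
    intro k
    have hj : ∀ j : Fin m, m - (j : ℕ) ≠ 0 := fun j => by have := j.2; omega
    unfold par2
    rw [di2h_ZB0 h]
    simp only [Prod.fst_zero, Prod.snd_zero, zero_pow hm, zero_mul, sub_self]
    refine Prod.ext (Prod.ext rfl (Prod.ext rfl (Prod.ext rfl ?_))) rfl
    funext j
    simp [zero_pow (hj j)]
  have := hK.eventually_forall_of_forall_eventually (x₀ := (0 : ParD d))
    (P := fun p k => I.par2 p k ∈ N2) (fun k _ => by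
      have ht := hc.tendsto ((0, k) : ParD d × (Fin m → ℝ))
      simp only [h0 k] at ht
      exact ht.eventually hN)
  filter_upwards [this] with p hp k hk
  exact hp k hk

end IngD

end Pool.Agent.Lib.H37D
end

-- from Lib.H37D.DI2g0
section

/-!
# H37D DI2g0: the pass `midD` in the coordinates `((X,U),w)` (second leg of the curve)
-/

open Set Filter Topology Asymptotics
open scoped ContDiff

namespace Pool.Agent.Lib.H37D

open Pool.Agent.Lib.H37N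

variable {d : ℕ}

/-- the second leg: `y` is the unstable coordinate at `P`; the formula for the connection is a hypothesis -/
theorem pass_midD_at {g : En d → En d} {s : FrD d} (hs : IsFrD g s) {f : PFD d} (B0 b : ℝ) (n ν : ℕ)
    (z : En d) {y : ℝ}
    (hy : y = (EED g s n ν)⁻¹ * (z.1.2 + b) +
      (s.mu Sy.P ^ n)⁻¹ * (s.uS + f.Th (e1D s n * z.1.1, mulw (s.al Sy.P ^ n) z.2))) {u : En d}
    (hu : u = ((e1D s n * z.1.1, e2D g s ν * (z.1.2 + b)), mulw (s.al Sy.P ^ n) z.2))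
    (hS : SSD g s ((u.1.1, f.Th (u.1.1, u.2) + u.1.2), u.2) =
      ((s.sS + u.1.1 * f.Y1 (u.1.1, u.2) + u.1.2 * f.Y2 u + f.Y3 u.2 u.2, dSD g s * u.1.2 * f.W u),
        s.wS + u.1.1 • f.Z1 u + u.1.2 • f.Z2 u + f.Z3 u u.2)) :
    linD (s.lam Sy.P) (s.mu Sy.P) (s.al Sy.P) n ((z.1.1, y), z.2) - ((0, s.uS), 0) =
      ((e1D s n * z.1.1, f.Th (e1D s n * z.1.1, mulw (s.al Sy.P ^ n) z.2) + e2D g s ν * (z.1.2 + b)),
        mulw (s.al Sy.P ^ n) z.2) ∧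
    midD g s n ν ((z.1.1, y), z.2) - ((0, b), 0) =
      exD f b B0 (dSD g s) (EED g s n ν)⁻¹ (epsD g s B0 n ν) z := by
  subst hu
  obtain ⟨⟨X, U⟩, w⟩ := z
  simp only at hy hS
  have hP : 0 < s.mu Sy.P := lt_trans one_pos (hs.chart Sy.P).one_lt
  have hQ : 0 < s.mu Sy.Q := lt_trans one_pos (hs.chart Sy.Q).one_lt
  have hd : 0 < dSD g s := hs.sdata.d_pos
  have hmuP : s.mu Sy.P ^ n ≠ 0 := (pow_pos hP n).ne'
  have hmuQ : s.mu Sy.Q ^ ν ≠ 0 := (pow_pos hQ ν).ne'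
  set σ := e1D s n * X with hσ
  set t := e2D g s ν * (U + b) with ht
  set q := mulw (s.al Sy.P ^ n) w with hq
  have hy2 : s.mu Sy.P ^ n * y - s.uS = f.Th (σ, q) + t := by
    rw [hy, EED, ht, e2D]
    field_simp
    ring
  have hlin : linD (s.lam Sy.P) (s.mu Sy.P) (s.al Sy.P) n ((X, y), w) - ((0, s.uS), 0) =
      ((σ, f.Th (σ, q) + t), q) := by
    refine Prod.ext (Prod.ext ?_ ?_) ?_
    · show s.lam Sy.P ^ n * X - 0 = _
      rw [sub_zero]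
      rfl
    · show s.mu Sy.P ^ n * y - s.uS = _
      exact hy2
    · show mulw (s.al Sy.P ^ n) w - 0 = _
      rw [sub_zero]
  refine ⟨hlin, ?_⟩
  have hsnd : (SSD g s ((σ, f.Th (σ, q) + t), q)).1.2 = dSD g s * t * f.W ((σ, t), q) := by
    rw [hS]
  have hfst : (SSD g s ((σ, f.Th (σ, q) + t), q)).1.1 =
      s.sS + σ * f.Y1 (σ, q) + t * f.Y2 ((σ, t), q) + f.Y3 q q := by
    rw [hS]
  have hthd : (SSD g s ((σ, f.Th (σ, q) + t), q)).2 =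
      s.wS + σ • f.Z1 ((σ, t), q) + t • f.Z2 ((σ, t), q) + f.Z3 ((σ, t), q) q := by
    rw [hS]
  have eX : XiFD f b B0 (epsD g s B0 n ν) ((X, U), w) =
      BBD g s n ν * X * f.Y1 (σ, q) + s.mu Sy.P ^ n * s.lam Sy.Q ^ ν * (U + b) *
        f.Y2 ((σ, t), q) + EED g s n ν * s.lam Sy.Q ^ ν * f.Y3 q q := by
    have e1 : XiFD f b B0 (epsD g s B0 n ν) ((X, U), w) =
        (B0 + (BBD g s n ν - B0)) * X * f.Y1 (σ, q) + e4D s n ν * (U + b) *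
          f.Y2 ((σ, t), q) + f.Y3 q (mulw ((EED g s n ν * s.lam Sy.Q ^ ν) • s.al Sy.P ^ n) w) :=
      rfl
    rw [e1, dp09_smul_mulw, ← hq, map_smul, smul_eq_mul, e4D]
    ring
  have eE : etaFD f b (epsD g s B0 n ν) ((X, U), w) = (U + b) * f.W ((σ, t), q) - b := rfl
  have eO : OmFD f b (dSD g s) (epsD g s B0 n ν) ((X, U), w) =
      X • mulw ((EED g s n ν * s.lam Sy.P ^ n) • s.al Sy.Q ^ ν) (f.Z1 ((σ, t), q)) +
      (U + b) • mulw (s.mu Sy.P ^ n • s.al Sy.Q ^ ν) (f.Z2 ((σ, t), q)) +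
      dSD g s • mulw (s.mu Sy.Q ^ ν • s.al Sy.Q ^ ν)
        (f.Z3 ((σ, t), q) (s.mu Sy.P ^ n • q)) := by
    have e1 : OmFD f b (dSD g s) (epsD g s B0 n ν) ((X, U), w) =
      X • mulw ((EED g s n ν * s.lam Sy.P ^ n) • s.al Sy.Q ^ ν) (f.Z1 ((σ, t), q)) +
      (U + b) • mulw (s.mu Sy.P ^ n • s.al Sy.Q ^ ν) (f.Z2 ((σ, t), q)) +
      dSD g s • mulw (s.mu Sy.Q ^ ν • s.al Sy.Q ^ ν)
        (f.Z3 ((σ, t), q) (mulw (s.mu Sy.P ^ n • s.al Sy.P ^ n) w)) := rfl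
    rw [e1, dp09_smul_mulw (s.mu Sy.P ^ n) (s.al Sy.P ^ n) w]
  have key1 : s.lam Sy.Q ^ ν * (s.sS + σ * f.Y1 (σ, q) + t * f.Y2 ((σ, t), q) + f.Y3 q q) =
      xi0D s ν + (EED g s n ν)⁻¹ * XiFD f b B0 (epsD g s B0 n ν) ((X, U), w) := by
    rw [eX]
    have h5 := dp09_fst (E := EED g s n ν) (B := BBD g s n ν) (lP := s.lam Sy.P ^ n)
      (mP := s.mu Sy.P ^ n) (lQ := s.lam Sy.Q ^ ν) (mQ := s.mu Sy.Q ^ ν) (D := dSD g s) (X := X)
      (b := b) (U := U) (sS := s.sS) (y1 := f.Y1 (σ, q)) (y2 := f.Y2 ((σ, t), q))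
      (y3 := f.Y3 q q) hd.ne' hmuP hmuQ rfl (by rw [BBD, mul_pow, mul_pow])
    exact h5
  have key2 : s.mu Sy.Q ^ ν * (dSD g s * t * f.W ((σ, t), q)) - b =
      etaFD f b (epsD g s B0 n ν) ((X, U), w) := by
    rw [eE, ht, e2D]
    field_simp
  have key3 : mulw (s.al Sy.Q ^ ν) (s.wS + σ • f.Z1 ((σ, t), q) + t • f.Z2 ((σ, t), q) +
        f.Z3 ((σ, t), q) q) =
      w0D s ν + (EED g s n ν)⁻¹ • OmFD f b (dSD g s) (epsD g s B0 n ν) ((X, U), w) := by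
    rw [eO, map_smul]
    funext k
    exact dp09_thd (E := EED g s n ν) (D := dSD g s) (mP := s.mu Sy.P ^ n)
      (mQ := s.mu Sy.Q ^ ν) (lP := s.lam Sy.P ^ n) (X := X) (U := U) (b := b)
      (a := (s.al Sy.Q ^ ν) k) (ws := s.wS k) (z1 := f.Z1 ((σ, t), q) k)
      (z2 := f.Z2 ((σ, t), q) k) (z3 := f.Z3 ((σ, t), q) q k) hd.ne' hmuP hmuQ rfl
  unfold midD
  rw [hlin]
  refine Prod.ext (Prod.ext ?_ ?_) ?_
  · show s.lam Sy.Q ^ ν * (SSD g s ((σ, f.Th (σ, q) + t), q)).1.1 - 0 = _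
    rw [hfst, key1, sub_zero]
    rfl
  · show s.mu Sy.Q ^ ν * (SSD g s ((σ, f.Th (σ, q) + t), q)).1.2 - b = _
    rw [hsnd, key2]
    rfl
  · show mulw (s.al Sy.Q ^ ν) (SSD g s ((σ, f.Th (σ, q) + t), q)).2 - 0 = _
    rw [hthd, key3, sub_zero]
    rfl

end Pool.Agent.Lib.H37D
end

-- from Lib.H37D.DI2g
section

/-! # H37D, DI2g: formulas for the three legs of the curve (port of H37N/I2g.lean) -/

open Set Filter Topology Asymptotics
open scoped ContDiff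

namespace Pool.Agent.Lib.H37D

open Pool.Agent.Lib.H37N

namespace IngD

variable {m d : ℕ} {I : IngD m d} {S T1 T2 : En d → En d} {sS : ℝ} {wS : Wd d} {al1 al2 ka1 ka2 gm2 el : ℝ}

/-- first leg (`X1`, `wq` by definition of `chi`, `omg`; the sum as in the plane) -/
theorem first_legD (mi : ℝ) {N : Set (En d)} {q : ParD d × ℝ × ℝ} (h : I.Good S T1 T2 sS wS N q) :
    vertD T1 (fun X => I.Ph1 (I.par1 mi q.1 q.2.1, X)) ((0, q.1.1 * q.2.2), 0) =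
      ((I.X1 q, q.1.1 ^ m * (I.U q + I.b) + mi * (I.uS + I.f.Th ((I.uQ q).1.1, (I.uQ q).2))), I.wq q) := by
  have hX : I.a + (q.1.1 * q.2.2) * I.Ah (q.1.1 * q.2.2) = I.X1 q := by
    simp only [X1, chi]; ring
  have hw : I.w1 + (q.1.1 * q.2.2) • I.wh (q.1.1 * q.2.2) = I.wq q := by
    simp only [wq, omg, smul_smul]
  have hXa : I.X1 q - I.a = q.1.1 * I.chi q := by
    simp only [X1]; ring
  simp only [vertD, h.gT1, hX, hw]
  refine Prod.ext (Prod.ext rfl ?_) rfl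
  simp only [Ph1, par1, hXa]
  have hsum : (∑ j : Fin m, q.1.1 ^ (m - (j : ℕ)) * I.G j q.2.1 * (q.1.1 * I.chi q) ^ ((j : ℕ) + 1)) =
      q.1.1 ^ (m + 1) * ∑ j : Fin m, I.G j q.2.1 * I.chi q ^ ((j : ℕ) + 1) := by
    rw [Finset.mul_sum]
    refine Finset.sum_congr rfl fun j _ => ?_
    have hj : (j : ℕ) < m := j.2
    have hp : q.1.1 ^ (m + 1) = q.1.1 ^ (m - (j : ℕ)) * q.1.1 ^ ((j : ℕ) + 1) := by
      rw [← pow_add]; congr 1; omega
    rw [hp, mul_pow]; ring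
  rw [hsum]
  have hTh : I.f.Th ((I.uQ q).1.1, (I.uQ q).2) = I.f.Th (q.1.2.1 0 * I.X1 q, mulw (q.1.2.2 0) (I.wq q)) := rfl
  rw [hTh]
  simp only [U, V]
  ring

/-- second leg: the pass -/
theorem pass_legD {g : En d → En d} {s : FrD d} (hs : IsFrD g s) (hm : 1 ≤ m) {n ν : ℕ} {N : Set (En d)}
    {q : ParD d × ℝ × ℝ} (h : I.Good (SSD g s) T1 T2 s.sS s.wS N q) (hdS : I.dS = dSD g s) (huS : I.uS = s.uS)
    (hq : q.1 = parD m g s I.B0 n ν) :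
    linD (s.lam Sy.P) (s.mu Sy.P) (s.al Sy.P) n
        ((I.X1 q, q.1.1 ^ m * (I.U q + I.b) + (s.mu Sy.P ^ n)⁻¹ * (I.uS + I.f.Th ((I.uQ q).1.1, (I.uQ q).2))), I.wq q) -
        ((0, I.uS), 0) =
      (((I.uQ q).1.1, I.f.Th ((I.uQ q).1.1, (I.uQ q).2) + (I.uQ q).1.2), (I.uQ q).2) ∧
    midD g s n ν
        ((I.X1 q, q.1.1 ^ m * (I.U q + I.b) + (s.mu Sy.P ^ n)⁻¹ * (I.uS + I.f.Th ((I.uQ q).1.1, (I.uQ q).2))), I.wq q) -
        ((0, I.b), 0) =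
      ((q.1.2.1 4 + q.1.1 ^ m * I.XiQ q, etaFD I.f I.b q.1.2 (I.zQ q)), q.1.2.2 2 + q.1.1 ^ m • I.OmQ q) := by
  have hq1 : q.1.1 ^ m = (EED g s n ν)⁻¹ := by
    rw [hq]
    exact parD_pow hm hs I.B0 n ν
  have hq2 : q.1.2 = epsD g s I.B0 n ν := by
    rw [hq]
    rfl
  have hu : I.uQ q = ((e1D s n * (I.zQ q).1.1, e2D g s ν * ((I.zQ q).1.2 + I.b)),
      mulw (s.al Sy.P ^ n) (I.zQ q).2) := by
    unfold uQ
    rw [hq2]
    rfl
  have hS := h.gS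
  rw [hdS] at hS
  have key := pass_midD_at hs (f := I.f) I.B0 I.b n ν (I.zQ q)
    (y := q.1.1 ^ m * (I.U q + I.b) + (s.mu Sy.P ^ n)⁻¹ * (I.uS + I.f.Th ((I.uQ q).1.1, (I.uQ q).2)))
    (by
      rw [hq1, huS, hu]
      rfl) hu hS
  obtain ⟨k1, k2⟩ := key
  constructor
  · rw [huS] at k1 ⊢
    refine k1.trans ?_
    rw [hu]
  · refine k2.trans ?_
    have e1 : XiFD I.f I.b I.B0 (epsD g s I.B0 n ν) (I.zQ q) = I.XiQ q := by
      unfold XiQ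
      rw [hq2]
    have e2 : OmFD I.f I.b (dSD g s) (epsD g s I.B0 n ν) (I.zQ q) = I.OmQ q := by
      unfold OmQ
      rw [hq2, hdS]
    unfold exD
    rw [e1, e2, ← hq1, ← hq2]

/-- `η = s V₂` -/
theorem eta_eqD (hI : I.OK S T1 T2 sS wS al1 al2 ka1 ka2 gm2 el) {N : Set (En d)} {q : ParD d × ℝ × ℝ}
    (h : I.Good S T1 T2 sS wS N q) : etaFD I.f I.b q.1.2 (I.zQ q) = q.1.1 * I.V2 q := by
  have e := hI.eqDH q.1 (((I.chi q, I.V q), I.omg q), 0) q.1.1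
  have h0 : I.HB (q.1, I.base q.1) = 0 := h.gU0
  have h1 : I.HB (q.1, I.base q.1 + q.1.1 • (((I.chi q, I.V q), I.omg q), (0 : ℝ))) =
      etaFD I.f I.b q.1.2 (I.zQ q) := by
    simp only [HB, base, X1, U, zQ, wq, Prod.smul_mk, Prod.mk_add_mk, smul_eq_mul]
  rw [h0, h1, zero_add] at e
  rw [e]; rfl

/-- third leg -/
theorem third_legD (hI : I.OK S T1 T2 sS wS al1 al2 ka1 ka2 gm2 el) (k : Fin m → ℝ) {N : Set (En d)}
    {q : ParD d × ℝ × ℝ} (h : I.Good S T1 T2 sS wS N q) :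
    vertD T2 (fun X => I.Ph2 (I.par2 q.1 k, X)) (I.exQ q) =
      ((I.ZB (q.1, I.base q.1) + q.1.1 * I.zt q,
        q.1.1 ^ (m + 1) * (I.K q - ∑ j : Fin m, k j * I.zt q ^ ((j : ℕ) + 1))), I.WW (I.exQ q)) := by
  have hz : (I.base q.1 + q.1.1 • I.vv q).1 = I.zQ q := by
    simp only [base, vv, zQ, X1, U, wq, Prod.smul_mk, Prod.mk_add_mk, smul_eq_mul]
  have h3 : (I.base q.1 + q.1.1 • I.vv q).2 = q.1.1 * I.V2 q := by
    simp only [base, vv, Prod.smul_mk, Prod.mk_add_mk, smul_eq_mul, zero_add]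
  have hXiv : I.XiB (q.1, I.base q.1 + q.1.1 • I.vv q) = I.XiQ q := by
    simp only [XiB, XiQ, hz]
  have hOmv : I.OmB (q.1, I.base q.1 + q.1.1 • I.vv q) = I.OmQ q := by
    simp only [OmB, OmQ, hz]
  have eZ := hI.eqDZ q.1 (I.vv q) q.1.1
  have eR := hI.eqDR q.1 (I.vv q) q.1.1
  have hZ : I.ZB (q.1, I.base q.1 + q.1.1 • I.vv q) = I.XX (I.exQ q) := by
    simp only [ZB, hXiv, hOmv, h3, exQ]
  have hR : I.RB (q.1, I.base q.1 + q.1.1 • I.vv q) =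
      I.Mh (((q.1.2.1 4, q.1.2.2 2), q.1.1 * I.V2 q), (I.XiQ q, I.OmQ q), q.1.1 ^ m) := by
    simp only [RB, hXiv, hOmv, h3]
  rw [hZ] at eZ
  rw [hR] at eR
  change _ = I.ZB (q.1, I.base q.1) + q.1.1 * I.zt q at eZ
  simp only [vertD, h.gT2]
  refine Prod.ext (Prod.ext eZ ?_) rfl
  have hM := h.gM
  rw [h.gYk] at hM
  simp only [Ph2, par2]
  have hsum : (∑ j : Fin m, q.1.1 ^ (m - (j : ℕ)) * k j *
      (I.XX (I.exQ q) - I.a2 - (I.ZB (q.1, I.base q.1) - I.a2)) ^ ((j : ℕ) + 1)) =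
      q.1.1 ^ (m + 1) * ∑ j : Fin m, k j * I.zt q ^ ((j : ℕ) + 1) := by
    rw [Finset.mul_sum]
    refine Finset.sum_congr rfl fun j _ => ?_
    have hj : (j : ℕ) < m := j.2
    have hp : q.1.1 ^ (m + 1) = q.1.1 ^ (m - (j : ℕ)) * q.1.1 ^ ((j : ℕ) + 1) := by
      rw [← pow_add]; congr 1; omega
    have hd : I.XX (I.exQ q) - I.a2 - (I.ZB (q.1, I.base q.1) - I.a2) = q.1.1 * I.zt q := by
      rw [eZ]; ring
    rw [hd, hp, mul_pow]; ring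
  rw [hsum]
  have hK : I.K q = I.V2 q ^ (m + 1) * I.Yk (q.1.1 * I.V2 q) + I.DR (q.1, I.vv q, q.1.1) := rfl
  rw [hK]
  rw [eR] at hM
  rw [mul_pow] at hM
  linear_combination hM

end IngD

end Pool.Agent.Lib.H37D
end

-- from Lib.H37D.DI99
section

/-!
# H37D DI99: the analytic core of Stage I in dimension `2 + d` (port of H37N/I4a.lean)
-/

open Set Filter Topology Asymptotics
open scoped ContDiff

namespace Pool.Agent.Lib.H37D

open Pool.Agent.Lib.H37N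

variable {d : ℕ}

/-- the whole curve, from the three legs -/
theorem cmp_eqD {m : ℕ} {g : En d → En d} {s : FrD d} (hs : IsFrD g s) {I : IngD m d}
    {T1 T2 : En d → En d} {al1 al2 ka1 ka2 gm2 el : ℝ}
    (hI : I.OK (SSD g s) T1 T2 s.sS s.wS al1 al2 ka1 ka2 gm2 el) (hdS : I.dS = dSD g s)
    (huS : I.uS = s.uS) {n ν : ℕ} {p : ParD d} (hp : p = parD m g s I.B0 n ν) (z : ℝ)
    (k : Fin m → ℝ) {N : Set (En d)} {x : ℝ}
    (h : I.Good (SSD g s) T1 T2 s.sS s.wS N (p, z, x)) :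
    linD (s.lam Sy.P) (s.mu Sy.P) (s.al Sy.P) n
        (vertD T1 (fun X => I.Ph1 (I.par1 (s.mu Sy.P ^ n)⁻¹ p z, X)) ((0, p.1 * x), 0)) -
          ((0, I.uS), 0) ∈ N ∧
      midD g s n ν
        (vertD T1 (fun X => I.Ph1 (I.par1 (s.mu Sy.P ^ n)⁻¹ p z, X)) ((0, p.1 * x), 0)) -
          ((0, I.b), 0) ∈ N ∧
      cmpD g s T1 T2 I.b n ν (fun X => I.Ph1 (I.par1 (s.mu Sy.P ^ n)⁻¹ p z, X))
          (fun X => I.Ph2 (I.par2 p k, X)) (p.1 * x) =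
        ((I.ZB (p, I.base p) + p.1 * I.zt (p, z, x),
          p.1 ^ (m + 1) * (I.K (p, z, x) - ∑ j : Fin m, k j * I.zt (p, z, x) ^ ((j : ℕ) + 1))),
            I.WW (I.exQ (p, z, x))) := by
  have h1 := IngD.first_legD (s.mu Sy.P ^ n)⁻¹ h
  have hpl := IngD.pass_legD hs hI.hm h hdS huS (n := n) (ν := ν) hp
  have he := IngD.eta_eqD hI h
  have ht := IngD.third_legD hI k h
  obtain ⟨hp2, hp1⟩ := hpl
  have hmid : midD g s n ν
      (vertD T1 (fun X => I.Ph1 (I.par1 (s.mu Sy.P ^ n)⁻¹ p z, X)) ((0, p.1 * x), 0)) -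
        ((0, I.b), 0) = I.exQ (p, z, x) := by
    rw [h1, hp1, he]
    rfl
  refine ⟨?_, ?_, ?_⟩
  · rw [h1, hp2]
    exact h.gN1
  · rw [hmid]
    exact h.gN2
  · unfold cmpD
    rw [hmid, ht]

theorem coreD {m : ℕ} (hm : 1 ≤ m) {g : En d → En d} {s : FrD d} (hs : IsFrD g s)
    {T1 T2 : En d → En d} (hT1 : ∀ᶠ v in 𝓝 (0 : En d), ContDiffAt ℝ ∞ T1 v) {a1 al1 ka1 : ℝ}
    {w1 : Wd d} (hT10 : T1 0 = ((a1, 0), w1)) (hal1 : (fderiv ℝ T1 0 ((0, 1), 0)).1.1 = al1)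
    (hal10 : al1 ≠ 0)
    (hka1 : (fun t : ℝ => (T1 ((0, t), 0)).1.2 - ka1 * t ^ (m + 1)) =O[𝓝 0] fun t : ℝ => t ^ (m + 2))
    (hka10 : ka1 ≠ 0) (hT2 : ∀ᶠ v in 𝓝 (0 : En d), ContDiffAt ℝ ∞ T2 v) {a2 al2 gm2 ka2 : ℝ}
    {w2 : Wd d} (hT20 : T2 0 = ((a2, 0), w2)) (hal2 : (fderiv ℝ T2 0 ((0, 1), 0)).1.1 = al2)
    (hal20 : al2 ≠ 0) (hgm2 : (fderiv ℝ T2 0 ((1, 0), 0)).1.2 = gm2) (hgm20 : gm2 ≠ 0)
    (hka2 : (fun t : ℝ => (T2 ((0, t), 0)).1.2 - ka2 * t ^ (m + 1)) =O[𝓝 0] fun t : ℝ => t ^ (m + 2))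
    (hka20 : ka2 ≠ 0) (b : ℝ) :
    ∃ Φ1 Φ2 : PEW m d × ℝ × Wd d → ℝ, ContDiff ℝ ∞ Φ1 ∧ ContDiff ℝ ∞ Φ2 ∧ (∀ X, Φ1 (0, X) = 0) ∧
      (∀ X, Φ2 (0, X) = 0) ∧
      ∀ N1 ∈ 𝓝 (0 : PEW m d), ∀ N2 ∈ 𝓝 (0 : PEW m d), ∀ N ∈ 𝓝 (0 : En d),
        ∃ n ν : ℕ, ∃ p1 ∈ N1, ∃ p2 ∈ N2,
          linD (s.lam Sy.P) (s.mu Sy.P) (s.al Sy.P) n (vertD T1 (fun X => Φ1 (p1, X)) 0) -
            ((0, s.uS), 0) ∈ N ∧
          midD g s n ν (vertD T1 (fun X => Φ1 (p1, X)) 0) - ((0, b), 0) ∈ N ∧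
          cmpD g s T1 T2 b n ν (fun X => Φ1 (p1, X)) (fun X => Φ2 (p2, X)) 0 - ((a2, 0), w2) ∈ N ∧
          (cmpD g s T1 T2 b n ν (fun X => Φ1 (p1, X)) (fun X => Φ2 (p2, X)) 0).1.2 = 0 ∧
          (fun t => (cmpD g s T1 T2 b n ν (fun X => Φ1 (p1, X)) (fun X => Φ2 (p2, X)) t).1.2)
            =O[𝓝 0] fun t : ℝ => t ^ (m + 2) := by
  have hdS0 : 0 < dSD g s := hs.sdata.d_pos
  have hjS : 0 < pjac (SSD g s) 0 := hs.sdata.pj_pos
  obtain ⟨bt, hbt⟩ : ∃ bt : ℝ, bt = 1 * (pjac (SSD g s) 0 / dSD g s) * gm2 * al1 := ⟨_, rfl⟩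
  have hbt0 : bt ≠ 0 := by
    have : pjac (SSD g s) 0 / dSD g s ≠ 0 := (div_pos hjS hdS0).ne'
    rw [hbt]
    positivity
  obtain ⟨G, hG, hAS⟩ := AS1D (P := ParD d) hm hka10 hka20 hbt0 hal10 hal20
  obtain ⟨I, el, hIa, hIb, hIa2, hIB0, hIuS, hIdS, hIw1, hIw2, hIG, hIY, hI⟩ :=
    exists_ingD hm hs hT1 hT10 hal1 hka1 hT2 hT20 hal2 hal20 hgm2 hka2 b 1 hG
  obtain ⟨-, -, -, -, -, hszt, hsK, hsP1, hsP2, -⟩ := hI.smooth
  obtain ⟨C, hC⟩ := hAS el I.zt I.K hszt hsK (fun z x => by rw [(hI.at_zero z x).1, hIG])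
    (fun z x => by rw [(hI.at_zero z x).2, hIG, hIY, hIB0, hbt])
  refine ⟨I.Ph1, I.Ph2, hsP1, hsP2, fun X => (hI.Ph_zero X).1, fun X => (hI.Ph_zero X).2, ?_⟩
  intro N1 hN1 N2 hN2 N hN
  obtain ⟨n, ν, hn, hν, hpar, hmi⟩ := parD_tendsto hm hs (B0 := I.B0) (by rw [hIB0]; exact one_pos)
  have hev1 := hpar.eventually hC
  have hev2 := hpar.eventually (hI.good hN)
  have hev3 := (hmi.prodMk_nhds hpar).eventually (hI.par1_small hN1)
  have hev4 := hpar.eventually (hI.par2_small C hN2)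
  obtain ⟨j, ⟨⟨z, hz, k, hk, hO⟩, hgood, hp1, hp2⟩⟩ := (hev1.and (hev2.and (hev3.and hev4))).exists
  obtain ⟨p, hp⟩ : ∃ p : ParD d, p = parD m g s I.B0 (n j) (ν j) := ⟨_, rfl⟩
  rw [← hp] at hgood hp1 hp2 hO
  have hs0 : 0 < p.1 := by rw [hp]; exact parD_pos m hs I.B0 (n j) (ν j)
  obtain ⟨-, -, -, -, hx4, hx5⟩ := hI.at_x0 p z hs0.ne'
  have hg := hgood z hz
  have hc0 := cmp_eqD hs hI hIdS hIuS hp z k hg.self_of_nhds
  rw [mul_zero, hx4, hx5] at hc0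
  obtain ⟨hc2, hc3, hc4⟩ := hc0
  have hzero : (0 : ℝ) - ∑ j : Fin m, k j * (0 : ℝ) ^ ((j : ℕ) + 1) = 0 := by simp
  rw [hzero, mul_zero, mul_zero, add_zero] at hc4
  refine ⟨n j, ν j, I.par1 (s.mu Sy.P ^ n j)⁻¹ p z, hp1 z hz, I.par2 p k, hp2 k hk, ?_, ?_, ?_, ?_, ?_⟩
  · rw [hIuS] at hc2
    exact hc2
  · rw [hIb] at hc3
    exact hc3
  · rw [hIb] at hc4
    rw [hc4]
    have h3 := hg.self_of_nhds.gN3
    rw [hx4, mul_zero, add_zero, hIa2, hIw2] at h3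
    have h4 : ((I.ZB (p, I.base p), (0 : ℝ)), I.WW (I.exQ (p, z, 0))) - ((a2, 0), w2) =
        (((I.ZB (p, I.base p) - a2, 0), I.WW (I.exQ (p, z, 0)) - w2) : En d) := by
      simp
    rw [h4]
    exact h3
  · rw [hIb] at hc4
    rw [hc4]
  · -- the order
    have ht : Tendsto (fun t : ℝ => t / p.1) (𝓝 0) (𝓝 0) := by
      have : Continuous (fun t : ℝ => t / p.1) := by fun_prop
      simpa using this.tendsto 0
    have hev : ∀ᶠ t : ℝ in 𝓝 0, (cmpD g s T1 T2 b (n j) (ν j)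
        (fun X => I.Ph1 (I.par1 (s.mu Sy.P ^ n j)⁻¹ p z, X)) (fun X => I.Ph2 (I.par2 p k, X)) t).1.2 =
        p.1 ^ (m + 1) * (I.K (p, z, t / p.1) - I.K (p, z, 0) -
          ∑ j : Fin m, k j * (I.zt (p, z, t / p.1) - I.zt (p, z, 0)) ^ ((j : ℕ) + 1)) := by
      filter_upwards [ht.eventually hg] with t htg
      have hc := cmp_eqD hs hI hIdS hIuS hp z k htg
      have hc' := hc.2.2
      rw [mul_div_cancel₀ t hs0.ne', hIb] at hc'
      rw [hc', hx4, hx5, sub_zero]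
      simp only [sub_zero]
    have hO' := hO.comp_tendsto ht
    have hO2 : (fun t : ℝ => I.K (p, z, t / p.1) - I.K (p, z, 0) -
          ∑ j : Fin m, k j * (I.zt (p, z, t / p.1) - I.zt (p, z, 0)) ^ ((j : ℕ) + 1)) =O[𝓝 0]
          fun t : ℝ => (t / p.1) ^ (m + 2) := hO'
    refine (IsBigO.congr' (hO2.const_mul_left (p.1 ^ (m + 1))) (hev.mono fun t ht => ht.symm)
      EventuallyEq.rfl).trans ?_
    simp only [div_eq_mul_inv, mul_pow, inv_pow]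
    have : (fun t : ℝ => t ^ (m + 2) * (p.1 ^ (m + 2))⁻¹) =O[𝓝 0] fun t : ℝ => t ^ (m + 2) := by
      simp_rw [mul_comm _ ((p.1 ^ (m + 2))⁻¹)]
      exact (isBigO_refl _ _).const_mul_left _
    exact this

end Pool.Agent.Lib.H37D
end

-- from Lib.H37D.DJ02
section

/-!
# H37D DJ02 (M): the composed orbit (port of H37P/J09m.lean)

Word for word as `composed_mid` (H37P/J09m.lean, proved), with `j09_iter_congr` → `dj02_iter_congr` (the same proof), `j09_injOn` → `dp03_injOn`,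
`VVd_FFd_disjoint`, `VOD_sub`, `FFd_sub_Dd`, `VVd_sub_Dd` of Bas0. Points `v : En d`, the starting point is `κQ ((v.1.1, b + v.1.2), v.2)`.
-/

open Set Filter Topology Asymptotics
open scoped ContDiff

namespace Pool.Agent.Lib.H37D

open Pool.Agent.Lib.H37N

variable {d : ℕ}

theorem dj02_iter_congr {g g' : En d → En d} {z : En d} {N : ℕ}
    (hp : ∀ i < N, g' (g^[i] z) = g (g^[i] z)) : ∀ i ≤ N, g'^[i] z = g^[i] z := by
  intro i
  induction i with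
  | zero => intro _; rfl
  | succ i ih =>
    intro hi
    rw [Function.iterate_succ_apply', ih (by omega), hp i (by omega), ← Function.iterate_succ_apply' g]

theorem dj02_VOD_dom : VOD d ⊆ Dd d := by
  intro z hz
  rcases VOD_sub hz with h | h
  · exact VVd_sub_Dd _ h
  · exact VVd_sub_Dd _ h

theorem dj02_Z_dom {Z : Set (En d)} (hZ : Z ⊆ interior (FFd d)) : Z ⊆ Dd d := by
  exact (hZ.trans interior_subset).trans FFd_sub_Dd

theorem dj02_VOD_Z {Z : Set (En d)} (hZ : Z ⊆ interior (FFd d)) {z : En d} (h1 : z ∈ VOD d)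
    (h2 : z ∈ Z) : False := by
  exact (Set.disjoint_left.1 VVd_FFd_disjoint) (VOD_sub h1) (interior_subset (hZ h2))

/-- a point of the domain whose image is in `g '' Z` is in `Z` -/
theorem dj02_mem {g : En d → En d} (hN : NearS g) {Z : Set (En d)} (hZ : Z ⊆ interior (FFd d))
    {z : En d} (hz : z ∈ Dd d) (h : g z ∈ g '' Z) : z ∈ Z := by
  obtain ⟨z', hz', he⟩ := h
  rwa [← dp03_injOn hN (dj02_Z_dom hZ hz') hz he]

/-- the composed orbit -/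
theorem composed_midD {g : En d → En d} {s : FrD d} {Z1 Z2 : Set (En d)} {b1 a1 b2 a2 : ℝ}
    {w1 w2 : Wd d} {k1 l1 k2 l2 : ℕ} {r1 r2 : ℝ} {D1 B1 D2 B2 : Set (En d)} {L1 L2 : En d → En d}
    (hN : NearS g) (hZ1 : Z1 ⊆ interior (FFd d)) (hZ2 : Z2 ⊆ interior (FFd d))
    (hd : Disjoint Z1 Z2) (p1 : PlaceD g s Z1 b1 a1 w1 k1 l1 r1 D1 B1 L1)
    (p2 : PlaceD g s Z2 b2 a2 w2 k2 l2 r2 D2 B2 L2) {ψ1 ψ2 : En d → En d} (h1 : AdmD D1 ψ1)
    (h2 : AdmD D2 ψ2) {M : ℕ} {v u w : En d} (hv : v ∈ B1)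
    (hu : u = PlD g s l1 (ψ1 (L1 (TTD g s b1 k1 l1 v))))
    (hpath : ∀ i ≤ M, g^[i] (s.κ Sy.P u) ∈ VOD d)
    (hend : g^[M] (s.κ Sy.P u) = s.κ Sy.Q ((w.1.1, b2 + w.1.2), w.2)) (hw : w ∈ B2) :
    (∀ i ≤ k1 + 1 + l1 + M, InD (ψ1 ∘ ψ2 ∘ g) s b1 i v ∈ VOD d ∪ Z1) ∧
    (∀ i ≤ k2, InD (ψ1 ∘ ψ2 ∘ g) s b1 (k1 + 1 + l1 + M + i) v = InD g s b2 i w) ∧
    TTD (ψ1 ∘ ψ2 ∘ g) s b1 (k1 + 1 + l1 + M + k2) l2 v = PlD g s l2 (ψ2 (L2 (TTD g s b2 k2 l2 w))) ∧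
    (∀ i ≤ l2, (ψ1 ∘ ψ2 ∘ g)^[i]
      ((ψ1 ∘ ψ2 ∘ g) (InD (ψ1 ∘ ψ2 ∘ g) s b1 (k1 + 1 + l1 + M + k2) v)) ∈ VOD d) ∧
    (ψ1 ∘ ψ2 ∘ g)^[l2] ((ψ1 ∘ ψ2 ∘ g) (InD (ψ1 ∘ ψ2 ∘ g) s b1 (k1 + 1 + l1 + M + k2) v)) =
      s.κ Sy.P (PlD g s l2 (ψ2 (L2 (TTD g s b2 k2 l2 w)))) := by
  set g' : En d → En d := ψ1 ∘ ψ2 ∘ g with hg'
  -- disjointness of the supports
  have hDD : ∀ y, y ∈ D1 → y ∈ D2 → False := by
    intro y hy1 hy2
    obtain ⟨z1, hz1, e1⟩ := p1.subD hy1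
    obtain ⟨z2, hz2, e2⟩ := p2.subD hy2
    have : z1 = z2 := dp03_injOn hN (dj02_Z_dom hZ1 hz1) (dj02_Z_dom hZ2 hz2) (e1.trans e2.symm)
    exact (Set.disjoint_left.1 hd) hz1 (this ▸ hz2)
  -- values of g'
  have e0 : ∀ z, g z ∉ D1 → g z ∉ D2 → g' z = g z := by
    intro z ha hb
    simp only [hg', Function.comp_apply]
    rw [h2.1 _ hb, h1.1 _ ha]
  have e1 : ∀ z, g z ∈ D1 → g' z = ψ1 (g z) := by
    intro z ha
    simp only [hg', Function.comp_apply]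
    rw [h2.1 _ fun hb => hDD _ ha hb]
  have e2 : ∀ z, g z ∈ D2 → g' z = ψ2 (g z) := by
    intro z hb
    simp only [hg', Function.comp_apply]
    rw [h1.1 _ fun ha => hDD _ ha (h2.2 _ hb)]
  have eV : ∀ z ∈ VOD d, g' z = g z := by
    intro z hz
    refine e0 z (fun ha => ?_) fun hb => ?_
    · exact dj02_VOD_Z hZ1 hz (dj02_mem hN hZ1 (dj02_VOD_dom hz) (p1.subD ha))
    · exact dj02_VOD_Z hZ2 hz (dj02_mem hN hZ2 (dj02_VOD_dom hz) (p2.subD hb))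
  -- an orbit segment of g' starting at κQ (v + (0,b)), v in B, of a place
  have seg1 : ∀ i ≤ k1, g'^[i] (s.κ Sy.Q ((v.1.1, b1 + v.1.2), v.2)) = g^[i] (s.κ Sy.Q ((v.1.1, b1 + v.1.2), v.2)) := by
    refine dj02_iter_congr fun i hi => ?_
    refine e0 _ (p1.notD v hv i hi) fun hb => ?_
    have hm := p1.pathB v hv i hi.le
    have hz2 : g^[i] (s.κ Sy.Q ((v.1.1, b1 + v.1.2), v.2)) ∈ Z2 :=
      dj02_mem hN hZ2 (hm.elim (fun h => dj02_VOD_dom h) fun h => dj02_Z_dom hZ1 h) (p2.subD hb)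
    exact hm.elim (fun h => dj02_VOD_Z hZ2 h hz2) fun h => (Set.disjoint_left.1 hd) h hz2
  have seg2 : ∀ i ≤ k2, g'^[i] (s.κ Sy.Q ((w.1.1, b2 + w.1.2), w.2)) = g^[i] (s.κ Sy.Q ((w.1.1, b2 + w.1.2), w.2)) := by
    refine dj02_iter_congr fun i hi => ?_
    refine e0 _ (fun ha => ?_) (p2.notD w hw i hi)
    have hm := p2.pathB w hw i hi.le
    have hz1 : g^[i] (s.κ Sy.Q ((w.1.1, b2 + w.1.2), w.2)) ∈ Z1 :=
      dj02_mem hN hZ1 (hm.elim (fun h => dj02_VOD_dom h) fun h => dj02_Z_dom hZ2 h) (p1.subD ha)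
    exact hm.elim (fun h => dj02_VOD_Z hZ1 h hz1) fun h => (Set.disjoint_left.1 hd) hz1 h
  have hx1 : g (InD g s b1 k1 v) ∈ D1 := p1.inD v hv
  have hx2 : g (InD g s b2 k2 w) ∈ D2 := p2.inD w hw
  have hL1 : L1 (TTD g s b1 k1 l1 v) = g (InD g s b1 k1 v) := p1.Li_Pl _ hx1
  have hL2 : L2 (TTD g s b2 k2 l2 w) = g (InD g s b2 k2 w) := p2.Li_Pl _ hx2
  rw [hL1] at hu
  rw [hL2]
  set y1 := ψ1 (g (InD g s b1 k1 v)) with hy1
  set y2 := ψ2 (g (InD g s b2 k2 w)) with hy2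
  have hy1D : y1 ∈ D1 := h1.2 _ hx1
  have hy2D : y2 ∈ D2 := h2.2 _ hx2
  have pl1 : ∀ i ≤ l1, g'^[i] y1 = g^[i] y1 :=
    dj02_iter_congr fun i hi => eV _ (p1.path y1 hy1D i hi.le)
  have pl2 : ∀ i ≤ l2, g'^[i] y2 = g^[i] y2 :=
    dj02_iter_congr fun i hi => eV _ (p2.path y2 hy2D i hi.le)
  have pm : ∀ i ≤ M, g'^[i] (s.κ Sy.P u) = g^[i] (s.κ Sy.P u) :=
    dj02_iter_congr fun i hi => eV _ (hpath i hi.le)
  -- the times k1, k1+1, k1+1+l1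
  set x0 : En d := s.κ Sy.Q ((v.1.1, b1 + v.1.2), v.2) with hx0
  have t1 : g'^[k1 + 1] x0 = y1 := by
    rw [Function.iterate_succ_apply', seg1 k1 le_rfl]
    exact e1 _ hx1
  have t2 : ∀ j ≤ l1, g'^[k1 + 1 + j] x0 = g^[j] y1 := by
    intro j hj
    rw [add_comm (k1 + 1) j, Function.iterate_add_apply, t1, pl1 j hj]
  have t3 : g'^[k1 + 1 + l1] x0 = s.κ Sy.P u := by
    rw [t2 l1 le_rfl, p1.land y1 hy1D, ← hu]
  have t4 : ∀ j ≤ M, g'^[k1 + 1 + l1 + j] x0 = g^[j] (s.κ Sy.P u) := by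
    intro j hj
    rw [add_comm (k1 + 1 + l1) j, Function.iterate_add_apply, t3, pm j hj]
  have t5 : g'^[k1 + 1 + l1 + M] x0 = s.κ Sy.Q ((w.1.1, b2 + w.1.2), w.2) := by
    rw [t4 M le_rfl, hend]
  have t6 : ∀ j ≤ k2, g'^[k1 + 1 + l1 + M + j] x0 = g^[j] (s.κ Sy.Q ((w.1.1, b2 + w.1.2), w.2)) := by
    intro j hj
    rw [add_comm (k1 + 1 + l1 + M) j, Function.iterate_add_apply, t5, seg2 j hj]
  have t7 : g' (g'^[k1 + 1 + l1 + M + k2] x0) = y2 := by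
    rw [t6 k2 le_rfl]
    exact e2 _ hx2
  refine ⟨?_, fun i hi => t6 i hi, ?_, ?_, ?_⟩
  · intro i hi
    show g'^[i] x0 ∈ VOD d ∪ Z1
    rcases le_or_gt i k1 with h | h
    · rw [seg1 i h]
      exact p1.pathB v hv i h
    · obtain ⟨j, rfl⟩ := Nat.exists_eq_add_of_lt h
      rcases le_or_gt j l1 with h' | h'
      · left
        have := t2 j h'
        rw [show k1 + j + 1 = k1 + 1 + j by ring, this]
        exact p1.path y1 hy1D j h'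
      · obtain ⟨j', rfl⟩ := Nat.exists_eq_add_of_lt h'
        left
        rw [show k1 + (l1 + j' + 1) + 1 = k1 + 1 + l1 + (j' + 1) by ring, t4 (j' + 1) (by omega)]
        exact hpath (j' + 1) (by omega)
  · show s.c Sy.P (g'^[l2] (g' (g'^[k1 + 1 + l1 + M + k2] x0))) = s.c Sy.P (g^[l2] y2)
    rw [t7, pl2 l2 le_rfl]
  · intro i hi
    show g'^[i] (g' (g'^[k1 + 1 + l1 + M + k2] x0)) ∈ VOD d
    rw [t7, pl2 i hi]
    exact p2.path y2 hy2D i hi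
  · show g'^[l2] (g' (g'^[k1 + 1 + l1 + M + k2] x0)) = _
    rw [t7, pl2 l2 le_rfl]
    exact p2.land y2 hy2D

end Pool.Agent.Lib.H37D
end

-- from Lib.H37D.DP11
section

/-!
# H37D DP11 (S/M): places persist, disjoint perturbations (port of H37P/P11.lean)

Word for word as H37P/P11 (`dp01_eq` gives `g' = g` on `VOD d ∪ Z1`).
-/

open Set Filter Topology Asymptotics
open scoped ContDiff

namespace Pool.Agent.Lib.H37D

open Pool.Agent.Lib.H37N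

variable {d : ℕ}



theorem small_compD {R : ℕ} {ε1 ε2 : ℝ} {ψ1 ψ2 : En d → En d} (h1 : SmallD R ε1 ψ1)
    (h2 : SmallD R ε2 ψ2) {D1 D2 : Set (En d)} (a1 : AdmD D1 ψ1) (a2 : AdmD D2 ψ2)
    (hd : Disjoint D1 D2) : SmallD R (ε1 + ε2) (ψ1 ∘ ψ2) := by
  refine ⟨h1.smooth.comp h2.smooth, fun z hz => ?_, fun j hj z => ?_⟩
  · show ψ1 (ψ2 z) = z
    rw [h2.supp z hz, h1.supp z hz]
  · have h3 : (fun z => (ψ1 ∘ ψ2) z - z) = (fun z => ψ1 z - z) + fun z => ψ2 z - z := by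
      funext z
      show ψ1 (ψ2 z) - z = (ψ1 z - z) + (ψ2 z - z)
      by_cases hz1 : z ∈ D1
      · have hz2 : z ∉ D2 := Set.disjoint_left.1 hd hz1
        rw [a2.1 z hz2]
        abel
      · rw [a1.1 z hz1]
        by_cases hz2 : z ∈ D2
        · have hz3 : ψ2 z ∉ D1 := Set.disjoint_right.1 hd (a2.2 z hz2)
          rw [a1.1 _ hz3]
          abel
        · rw [a2.1 z hz2, a1.1 z hz1]
          abel
    have c1 : ContDiff ℝ ∞ fun z => ψ1 z - z := h1.smooth.sub contDiff_id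
    have c2 : ContDiff ℝ ∞ fun z => ψ2 z - z := h2.smooth.sub contDiff_id
    rw [h3, iteratedFDeriv_add_apply (c1.contDiffAt.of_le (by exact_mod_cast le_top))
      (c2.contDiffAt.of_le (by exact_mod_cast le_top))]
    exact (norm_add_le _ _).trans (add_le_add (h1.bound j hj z) (h2.bound j hj z))

end Pool.Agent.Lib.H37D
end

-- from Lib.H37D.DJ10
section

/-!
# H37D DJ10 (L): Stage I for nondegenerate data (port of H37P/J10.lean)

Places for both data (`exists_placeD`), the analytic core (`coreD`), vertical perturbations at the two places (`place_vertD`),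
the composed orbit (`composed_midD`), the pass (`pass_rawD`).
-/

open Set Filter Topology Asymptotics
open scoped ContDiff

namespace Pool.Agent.Lib.H37D

open Pool.Agent.Lib.H37N

variable {d : ℕ}

theorem dj10_lin_sub (lam mu : ℝ) (al : Wd d) (n : ℕ) (u : En d) (c : ℝ) :
    linD lam mu al n u - (((0, c), 0) : En d) =
      ((lam ^ n * u.1.1, mu ^ n * u.1.2 - c), mulw (al ^ n) u.2) := by
  unfold linD
  refine Prod.ext (Prod.ext ?_ ?_) ?_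
  · simp
  · simp
  · simp

theorem dj10_pass {g : En d → En d} {s : FrD d} (hs : IsFrD g s) :
    ∃ r > 0, ∀ (n ν : ℕ) (u : En d), |u.1.1| ≤ 1 → ‖u.2‖ ≤ 1 →
      |(linD (s.lam Sy.P) (s.mu Sy.P) (s.al Sy.P) n u - (((0, s.uS), 0) : En d)).1.1| < r →
      |(linD (s.lam Sy.P) (s.mu Sy.P) (s.al Sy.P) n u - (((0, s.uS), 0) : En d)).1.2| < r →
      ‖(linD (s.lam Sy.P) (s.mu Sy.P) (s.al Sy.P) n u - (((0, s.uS), 0) : En d)).2‖ < r →
      |(midD g s n ν u).1.2| < 2 →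
      g^[n + s.kS + ν] (s.κ Sy.P u) = s.κ Sy.Q (midD g s n ν u) ∧
        ∀ i ≤ n + s.kS + ν, g^[i] (s.κ Sy.P u) ∈ VOD d := by
  obtain ⟨r, hr, -, -, hpass⟩ := pass_rawD hs
  refine ⟨r, hr, fun n ν u h1 h2 h3 h4 h5 h6 => ?_⟩
  rw [dj10_lin_sub] at h3 h4 h5
  have hm : midD g s n ν u = ((s.lam Sy.Q ^ ν * (SSD g s ((s.lam Sy.P ^ n * u.1.1,
      s.mu Sy.P ^ n * u.1.2 - s.uS), mulw (s.al Sy.P ^ n) u.2)).1.1,
      s.mu Sy.Q ^ ν * (SSD g s ((s.lam Sy.P ^ n * u.1.1,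
      s.mu Sy.P ^ n * u.1.2 - s.uS), mulw (s.al Sy.P ^ n) u.2)).1.2),
      mulw (s.al Sy.Q ^ ν) (SSD g s ((s.lam Sy.P ^ n * u.1.1,
      s.mu Sy.P ^ n * u.1.2 - s.uS), mulw (s.al Sy.P ^ n) u.2)).2) := by
    unfold midD
    rw [dj10_lin_sub]
    rfl
  rw [hm] at h6 ⊢
  exact hpass n ν u.1.1 u.1.2 u.2 h1 h2 h3 h4 h5 h6

theorem dj10_tt {g : En d → En d} {s : FrD d} {Z : Set (En d)} {m : ℕ} {b a : ℝ} {wT : Wd d}
    {k l : ℕ} (hN : NearS g) (hs : IsFrD g s) (hm : 1 ≤ m) (ht : TDD g s Z m b a wT k l) :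
    (∀ᶠ v in 𝓝 (0 : En d), ContDiffAt ℝ ∞ (TTD g s b k l) v) ∧ TTD g s b k l 0 = ((a, 0), wT) ∧
      (fderiv ℝ (TTD g s b k l) 0 ((0, 1), 0)).1.1 ≠ 0 ∧
      (fderiv ℝ (TTD g s b k l) 0 ((1, 0), 0)).1.2 ≠ 0 := by
  obtain ⟨⟨O, hO, h0, hsm, -⟩, h1⟩ := tt_regularD hN hs ht
  obtain ⟨-, h2, h3⟩ := tt_derivD hN hs hm ht
  refine ⟨?_, h1, ?_, ?_⟩
  · filter_upwards [hO.mem_nhds h0] with v hv
    exact hsm.contDiffAt (hO.mem_nhds hv)
  · intro h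
    rw [h, zero_mul] at h2
    linarith
  · intro h
    rw [h, mul_zero] at h2
    linarith

theorem dj10_lin_cont (lam mu : ℝ) (al : Wd d) (n : ℕ) : Continuous (linD (d := d) lam mu al n) := by
  unfold linD mulw
  fun_prop

theorem stageI_nondegD {R m : ℕ} (hm : 1 ≤ m) {U : Set (En d → En d)} (hU : PertOpenD R U)
    (hUN : ∀ g ∈ U, NearS g) {g : En d → En d} (hg : g ∈ U) {s : FrD d} (hs : IsFrD g s)
    {Z1 Z2 : Set (En d)} (hd : Disjoint Z1 Z2) {b1 a1 b2 a2 : ℝ} {w1 w2 : Wd d} {k1 l1 k2 l2 : ℕ}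
    (ht1 : TDD g s Z1 m b1 a1 w1 k1 l1) (ht2 : TDD g s Z2 m b2 a2 w2 k2 l2) {κ1 κ2 : ℝ}
    (hκ1 : κ1 ≠ 0) (hκ2 : κ2 ≠ 0)
    (h1 : (fun t : ℝ => (TTD g s b1 k1 l1 ((0, t), 0)).1.2 - κ1 * t ^ (m + 1)) =O[𝓝 0]
      fun t => |t| ^ (m + 2))
    (h2 : (fun t : ℝ => (TTD g s b2 k2 l2 ((0, t), 0)).1.2 - κ2 * t ^ (m + 1)) =O[𝓝 0]
      fun t => |t| ^ (m + 2)) :
    ∃ g' ∈ U, EqOffD (Z1 ∪ Z2) g g' ∧ ∃ (b a : ℝ) (w : Wd d) (k l : ℕ),
      TDD g' s (Z1 ∪ Z2) (m + 1) b a w k l := by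
  have hN : NearS g := hUN g hg
  have hZ1 := ht1.subZ
  have hZ2 := ht2.subZ
  obtain ⟨r1, D1, B1, L1, p1⟩ := exists_placeD hN hs ht1
  obtain ⟨r2, D2, B2, L2, p2⟩ := exists_placeD hN hs ht2
  obtain ⟨hT1s, hT10, hal1, -⟩ := dj10_tt hN hs hm ht1
  obtain ⟨hT2s, hT20, hal2, hgm2⟩ := dj10_tt hN hs hm ht2
  have habs : (fun t : ℝ => |t| ^ (m + 2)) =O[𝓝 0] fun t : ℝ => t ^ (m + 2) := by
    refine IsBigO.of_bound 1 (Eventually.of_forall fun t => ?_)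
    rw [one_mul, norm_pow, norm_pow, Real.norm_eq_abs, Real.norm_eq_abs, abs_abs]
  obtain ⟨Φ1, Φ2, hΦ1, hΦ2, hz1, hz2, hcore⟩ := coreD hm hs (T1 := TTD g s b1 k1 l1)
    (T2 := TTD g s b2 k2 l2) hT1s hT10 rfl hal1 (h1.trans habs) hκ1 hT2s hT20 rfl hal2 rfl hgm2
    (h2.trans habs) hκ2 b2
  obtain ⟨ρ1, hρ1, hρ1r, hv1⟩ := place_vertD p1 Φ1 hΦ1 hz1
  obtain ⟨ρ2, hρ2, hρ2r, hv2⟩ := place_vertD p2 Φ2 hΦ2 hz2
  obtain ⟨ε, hε, hUε⟩ := hU g hg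
  obtain ⟨r, hr, hpass⟩ := dj10_pass hs
  -- the neighbourhood N
  have hc2 : ContinuousAt (TTD g s b2 k2 l2) 0 := hT2s.self_of_nhds.continuousAt
  have hN0 : {v : En d | (|v.1.1| < r ∧ |v.1.2| < r ∧ ‖v.2‖ < r ∧ |v.1.1| < 1 - |a2| ∧
      ‖v.2‖ < 1 - ‖w2‖ ∧ |b2 + v.1.2| < 2) ∧ ContDiffAt ℝ ∞ (SSD g s) v ∧
      TTD g s b2 k2 l2 v ∈ Metric.ball (((a2, 0), w2) : En d) ρ2} ∩ B2 ∈ 𝓝 (0 : En d) := by
    refine inter_mem ?_ p2.nhB
    have c1 : ∀ᶠ v : En d in 𝓝 0, |v.1.1| < r := by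
      have : Continuous fun v : En d => |v.1.1| := by fun_prop
      exact this.continuousAt.eventually_lt continuousAt_const (by simpa using hr)
    have c2 : ∀ᶠ v : En d in 𝓝 0, |v.1.2| < r := by
      have : Continuous fun v : En d => |v.1.2| := by fun_prop
      exact this.continuousAt.eventually_lt continuousAt_const (by simpa using hr)
    have c3 : ∀ᶠ v : En d in 𝓝 0, ‖v.2‖ < r := by
      have : Continuous fun v : En d => ‖v.2‖ := by fun_prop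
      exact this.continuousAt.eventually_lt continuousAt_const (by simpa using hr)
    have c4 : ∀ᶠ v : En d in 𝓝 0, |v.1.1| < 1 - |a2| := by
      have : Continuous fun v : En d => |v.1.1| := by fun_prop
      exact this.continuousAt.eventually_lt continuousAt_const (by have := ht2.a_lt; simp; linarith)
    have c5 : ∀ᶠ v : En d in 𝓝 0, |b2 + v.1.2| < 2 := by
      have : Continuous fun v : En d => |b2 + v.1.2| := by fun_prop
      exact this.continuousAt.eventually_lt continuousAt_const (by have := ht2.b_lt; simp; linarith)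
    have c6 : ∀ᶠ v : En d in 𝓝 0, TTD g s b2 k2 l2 v ∈ Metric.ball (((a2, 0), w2) : En d) ρ2 := by
      refine hc2.eventually_mem ?_
      rw [hT20]
      exact Metric.ball_mem_nhds _ hρ2
    have c7 : ∀ᶠ v : En d in 𝓝 0, ‖v.2‖ < 1 - ‖w2‖ := by
      have : Continuous fun v : En d => ‖v.2‖ := by fun_prop
      exact this.continuousAt.eventually_lt continuousAt_const (by have := ht2.w_lt; simp; linarith)
    filter_upwards [c1, c2, c3, c4, c5, c6, c7, hs.sdata.smooth] with v d1 d2 d3 d4 d5 d6 d7 d8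
    exact ⟨⟨d1, d2, d3, d4, d7, d5⟩, d8, d6⟩
  obtain ⟨N, hNsub, hNo, hN0'⟩ := mem_nhds_iff.1 hN0
  obtain ⟨n, ν, q1, ⟨ψ1, hS1, hA1, hψ1⟩, q2, ⟨ψ2, hS2, hA2, hψ2⟩, k02, k03, k04, k05, k06⟩ :=
    hcore _ (hv1 R (half_pos hε)) _ (hv2 R (half_pos hε)) N (hNo.mem_nhds hN0')
  set φ1 : ℝ × Wd d → ℝ := fun X => Φ1 (q1, X) with hφ1
  set φ2 : ℝ × Wd d → ℝ := fun X => Φ2 (q2, X) with hφ2
  -- disjoint supports
  have hDD : Disjoint D1 D2 := by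
    rw [Set.disjoint_left]
    intro y hy1 hy2
    obtain ⟨z1, hz1, e1⟩ := p1.subD hy1
    obtain ⟨z2, hz2, e2⟩ := p2.subD hy2
    have : z1 = z2 := dp03_injOn hN (dj02_Z_dom hZ1 hz1) (dj02_Z_dom hZ2 hz2) (e1.trans e2.symm)
    exact (Set.disjoint_left.1 hd) hz1 (this ▸ hz2)
  set g' : En d → En d := ψ1 ∘ ψ2 ∘ g with hg'
  have hgU : g' ∈ U := by
    have h12 : SmallD R (ε / 2 + ε / 2) (ψ1 ∘ ψ2) := small_compD hS1 hS2 hA1 hA2 hDD
    rw [add_halves] at h12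
    exact hUε _ h12
  have hoff : EqOffD (Z1 ∪ Z2) g g' := by
    intro z hz hzn
    have n1 : g z ∉ D1 := fun h => hzn (Or.inl (dj02_mem hN hZ1 hz (p1.subD h)))
    have n2 : g z ∉ D2 := fun h => hzn (Or.inr (dj02_mem hN hZ2 hz (p2.subD h)))
    simp only [hg', Function.comp_apply]
    rw [hA2.1 _ n2, hA1.1 _ n1]
  -- the curve
  have hcv : Tendsto (fun t : ℝ => (((0, t), 0) : En d)) (𝓝 0) (𝓝 0) := by
    have h : Continuous fun t : ℝ => (((0, t), 0) : En d) := by fun_prop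
    exact h.tendsto' 0 0 rfl
  have hT1c : ContinuousAt (fun t : ℝ => TTD g s b1 k1 l1 ((0, t), 0)) 0 := by
    have h3 : ContinuousAt (TTD g s b1 k1 l1) (((0 : ℝ), (0 : ℝ)), (0 : Wd d)) :=
      hT1s.self_of_nhds.continuousAt
    have h4 : ContinuousAt (fun t : ℝ => (((0, t), 0) : En d)) 0 := by fun_prop
    exact ContinuousAt.comp (f := fun t : ℝ => (((0, t), 0) : En d)) (g := TTD g s b1 k1 l1) h3 h4
  have hT1v : TTD g s b1 k1 l1 ((0, (0 : ℝ)), 0) = ((a1, 0), w1) := hT10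
  have hφ1c : Continuous φ1 := hΦ1.continuous.comp (by fun_prop)
  set u : ℝ → En d := fun t => vertD (TTD g s b1 k1 l1) φ1 ((0, t), 0) with hu
  have huc : ContinuousAt u 0 := by
    simp only [hu, vertD]
    have e1 : ContinuousAt (fun t : ℝ => (TTD g s b1 k1 l1 ((0, t), 0)).1.1) 0 := hT1c.fst.fst
    have e2 : ContinuousAt (fun t : ℝ => (TTD g s b1 k1 l1 ((0, t), 0)).1.2) 0 := hT1c.fst.snd
    have e3 : ContinuousAt (fun t : ℝ => (TTD g s b1 k1 l1 ((0, t), 0)).2) 0 := hT1c.snd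
    exact (e1.prodMk (e2.add (hφ1c.continuousAt.comp (e1.prodMk e3)))).prodMk e3
  set st : ℝ → En d := fun t =>
    linD (s.lam Sy.P) (s.mu Sy.P) (s.al Sy.P) n (u t) - (((0, s.uS), 0) : En d) with hst
  have hstc : ContinuousAt st 0 :=
    ((dj10_lin_cont _ _ _ n).continuousAt.comp huc).sub continuousAt_const
  have hst0 : st 0 ∈ N := k02
  set w : ℝ → En d := fun t => midD g s n ν (u t) - (((0, b2), 0) : En d) with hw
  have hwc : ContinuousAt w 0 := by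
    have e1 : ContinuousAt (fun t => SSD g s (st t)) 0 :=
      ContinuousAt.comp (f := st) (g := SSD g s) (hNsub hst0).1.2.1.continuousAt hstc
    exact ((dj10_lin_cont _ _ _ ν).continuousAt.comp e1).sub continuousAt_const
  have hw0 : w 0 ∈ N := k03
  -- conditions near t = 0
  have hev : ∀ᶠ t : ℝ in 𝓝 0, (((0, t), 0) : En d) ∈ B1 ∧
      TTD g s b1 k1 l1 ((0, t), 0) ∈ Metric.ball (((a1, 0), w1) : En d) ρ1 ∧
      (|(u t).1.1| ≤ 1 ∧ ‖(u t).2‖ ≤ 1) ∧ st t ∈ N ∧ w t ∈ N := by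
    have d1 : ∀ᶠ t : ℝ in 𝓝 0, (((0, t), 0) : En d) ∈ B1 := hcv.eventually p1.nhB
    have d2 : ∀ᶠ t : ℝ in 𝓝 0, TTD g s b1 k1 l1 ((0, t), 0) ∈
        Metric.ball (((a1, 0), w1) : En d) ρ1 := by
      refine hT1c.eventually_mem ?_
      rw [hT1v]
      exact Metric.ball_mem_nhds _ hρ1
    have hu0 : (u 0).1.1 = a1 := by
      have : (u 0).1.1 = (TTD g s b1 k1 l1 ((0, (0 : ℝ)), 0)).1.1 := rfl
      rw [this, hT1v]
    have hu0' : (u 0).2 = w1 := by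
      have : (u 0).2 = (TTD g s b1 k1 l1 ((0, (0 : ℝ)), 0)).2 := rfl
      rw [this, hT1v]
    have d3 : ∀ᶠ t : ℝ in 𝓝 0, |(u t).1.1| < 1 := by
      have : ContinuousAt (fun t => |(u t).1.1|) 0 := huc.fst.fst.abs
      refine this.eventually_lt continuousAt_const ?_
      rw [hu0]
      exact ht1.a_lt
    have d3' : ∀ᶠ t : ℝ in 𝓝 0, ‖(u t).2‖ < 1 := by
      have : ContinuousAt (fun t => ‖(u t).2‖) 0 := huc.snd.norm
      refine this.eventually_lt continuousAt_const ?_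
      rw [hu0']
      exact ht1.w_lt
    have d4 : ∀ᶠ t : ℝ in 𝓝 0, st t ∈ N := hstc.eventually_mem (hNo.mem_nhds hst0)
    have d5 : ∀ᶠ t : ℝ in 𝓝 0, w t ∈ N := hwc.eventually_mem (hNo.mem_nhds hw0)
    filter_upwards [d1, d2, d3, d3', d4, d5] with t e1 e2 e3 e3' e4 e5
    exact ⟨e1, e2, ⟨e3.le, e3'.le⟩, e4, e5⟩
  -- the composed orbit for such t
  set M : ℕ := n + s.kS + ν with hM
  have hcomp : ∀ t : ℝ, (((0, t), 0) : En d) ∈ B1 →
      TTD g s b1 k1 l1 ((0, t), 0) ∈ Metric.ball (((a1, 0), w1) : En d) ρ1 →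
      (|(u t).1.1| ≤ 1 ∧ ‖(u t).2‖ ≤ 1) → st t ∈ N → w t ∈ N →
      (∀ i ≤ k1 + 1 + l1 + M, InD g' s b1 i ((0, t), 0) ∈ VOD d ∪ Z1) ∧
      (∀ i ≤ k2, InD g' s b1 (k1 + 1 + l1 + M + i) ((0, t), 0) = InD g s b2 i (w t)) ∧
      TTD g' s b1 (k1 + 1 + l1 + M + k2) l2 ((0, t), 0) =
        cmpD g s (TTD g s b1 k1 l1) (TTD g s b2 k2 l2) b2 n ν φ1 φ2 t ∧
      (∀ i ≤ l2, g'^[i] (g' (InD g' s b1 (k1 + 1 + l1 + M + k2) ((0, t), 0))) ∈ VOD d) ∧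
      g'^[l2] (g' (InD g' s b1 (k1 + 1 + l1 + M + k2) ((0, t), 0))) =
        s.κ Sy.P (cmpD g s (TTD g s b1 k1 l1) (TTD g s b2 k2 l2) b2 n ν φ1 φ2 t) := by
    intro t c1 c2 c3 c4 c5
    obtain ⟨⟨⟨m1, m2, m3, m4, m5, m6⟩, m7, m8⟩, m9⟩ := hNsub c5
    obtain ⟨⟨⟨m1', m2', m3', -⟩, -⟩, -⟩ := hNsub c4
    have e1 : u t = PlD g s l1 (ψ1 (L1 (TTD g s b1 k1 l1 ((0, t), 0)))) := (hψ1 _ c2).symm
    have ew : midD g s n ν (u t) = (((w t).1.1, b2 + (w t).1.2), (w t).2) := by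
      simp only [hw]
      refine Prod.ext (Prod.ext ?_ ?_) ?_ <;> simp
    obtain ⟨f2, f1⟩ := hpass n ν (u t) c3.1 c3.2 m1' m2' m3' (by
      rw [ew]
      exact m6)
    have f2' : g^[M] (s.κ Sy.P (u t)) = s.κ Sy.Q (((w t).1.1, b2 + (w t).1.2), (w t).2) := by
      rw [← ew]
      exact f2
    have e2 : PlD g s l2 (ψ2 (L2 (TTD g s b2 k2 l2 (w t)))) =
        cmpD g s (TTD g s b1 k1 l1) (TTD g s b2 k2 l2) b2 n ν φ1 φ2 t := by
      rw [hψ2 _ m8]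
      rfl
    have := composed_midD hN hZ1 hZ2 hd p1 p2 hA1 hA2 c1 e1 f1 f2' m9
    rw [e2] at this
    exact this
  refine ⟨g', hgU, hoff, b1,
    (cmpD g s (TTD g s b1 k1 l1) (TTD g s b2 k2 l2) b2 n ν φ1 φ2 0).1.1,
    (cmpD g s (TTD g s b1 k1 l1) (TTD g s b2 k2 l2) b2 n ν φ1 φ2 0).2,
    k1 + 1 + l1 + M + k2, l2, ?_⟩
  obtain ⟨z1, z2, z3, z4, z5⟩ := hev.self_of_nhds
  obtain ⟨y1, y2, y3, y4, y5⟩ := hcomp 0 z1 z2 z3 z4 z5
  have hw0B : w 0 ∈ B2 := (hNsub z5).2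
  have hInZ2 : InD g s b2 k2 (w 0) ∈ Z2 := by
    have hm := p2.pathB _ hw0B k2 le_rfl
    exact dj02_mem hN hZ2 (hm.elim (fun h => dj02_VOD_dom h) fun h => dj02_Z_dom hZ2 h)
      (p2.subD (p2.inD _ hw0B))
  have hk2 : InD g' s b1 (k1 + 1 + l1 + M + k2) 0 = InD g s b2 k2 (w 0) := y2 k2 le_rfl
  refine
    { openZ := ht1.openZ.union ht2.openZ
      subZ := union_subset hZ1 hZ2
      b_pos := ht1.b_pos
      b_lt := ht1.b_lt
      a_lt := ?_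
      w_lt := ?_
      path1 := ?_
      memZ := ?_
      dist := ?_
      path2 := y4
      fin := ?_
      ord := ?_ }
  · have h := (hNsub k04).1.1.2.2.2.1
    have e : (cmpD g s (TTD g s b1 k1 l1) (TTD g s b2 k2 l2) b2 n ν φ1 φ2 0 -
        (((a2, 0), w2) : En d)).1.1 =
      (cmpD g s (TTD g s b1 k1 l1) (TTD g s b2 k2 l2) b2 n ν φ1 φ2 0).1.1 - a2 := rfl
    rw [e] at h
    have h3 := abs_sub_abs_le_abs_sub
      (cmpD g s (TTD g s b1 k1 l1) (TTD g s b2 k2 l2) b2 n ν φ1 φ2 0).1.1 a2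
    linarith
  · have h := (hNsub k04).1.1.2.2.2.2.1
    have e : (cmpD g s (TTD g s b1 k1 l1) (TTD g s b2 k2 l2) b2 n ν φ1 φ2 0 -
        (((a2, 0), w2) : En d)).2 =
      (cmpD g s (TTD g s b1 k1 l1) (TTD g s b2 k2 l2) b2 n ν φ1 φ2 0).2 - w2 := rfl
    rw [e] at h
    have h3 := norm_sub_norm_le
      (cmpD g s (TTD g s b1 k1 l1) (TTD g s b2 k2 l2) b2 n ν φ1 φ2 0).2 w2
    linarith
  · intro i hi
    rcases le_or_gt i (k1 + 1 + l1 + M) with h | h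
    · exact (y1 i h).elim (fun h => Or.inl h) fun h => Or.inr (Or.inl h)
    · obtain ⟨j, rfl⟩ := Nat.exists_eq_add_of_lt h
      have e : InD g' s b1 (k1 + 1 + l1 + M + j + 1) 0 = InD g s b2 (j + 1) (w 0) :=
        y2 (j + 1) (by omega)
      rw [e]
      exact (p2.pathB _ hw0B (j + 1) (by omega)).elim (fun h => Or.inl h) fun h => Or.inr (Or.inr h)
  · rw [hk2]
    exact Or.inr hInZ2
  · intro i hi
    rw [hk2]
    rcases le_or_gt i (k1 + 1 + l1 + M) with h | h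
    · intro he
      have hm : InD g' s b1 i ((0, 0), 0) ∈ VOD d ∪ Z1 := y1 i h
      have he' : InD g' s b1 i ((0, 0), 0) = InD g s b2 k2 (w 0) := he
      rw [he'] at hm
      exact hm.elim (fun h => dj02_VOD_Z hZ2 h hInZ2) fun h => (Set.disjoint_left.1 hd) h hInZ2
    · obtain ⟨j, rfl⟩ := Nat.exists_eq_add_of_lt h
      have e : InD g' s b1 (k1 + 1 + l1 + M + j + 1) 0 = InD g s b2 (j + 1) (w 0) :=
        y2 (j + 1) (by omega)
      rw [e]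
      intro he
      refine p2.notD _ hw0B (j + 1) (by omega) ?_
      rw [he]
      exact p2.inD _ hw0B
  · have e : cmpD g s (TTD g s b1 k1 l1) (TTD g s b2 k2 l2) b2 n ν φ1 φ2 0 =
        (((cmpD g s (TTD g s b1 k1 l1) (TTD g s b2 k2 l2) b2 n ν φ1 φ2 0).1.1, 0),
          (cmpD g s (TTD g s b1 k1 l1) (TTD g s b2 k2 l2) b2 n ν φ1 φ2 0).2) :=
      Prod.ext (Prod.ext rfl k05) rfl
    rw [← e]
    exact y5
  · have habs2 : (fun t : ℝ => t ^ (m + 2)) =O[𝓝 0] fun t : ℝ => |t| ^ (m + 2) := by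
      refine IsBigO.of_bound 1 (Eventually.of_forall fun t => ?_)
      rw [one_mul, norm_pow, norm_pow, Real.norm_eq_abs, Real.norm_eq_abs, abs_abs]
    refine (k06.trans habs2).congr' ?_ EventuallyEq.rfl
    filter_upwards [hev] with t ht
    rw [(hcomp t ht.1 ht.2.1 ht.2.2.1 ht.2.2.2.1 ht.2.2.2.2).2.2.1]

end Pool.Agent.Lib.H37D
end
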