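import Pool.Agent.Lib.H1M.FF.M018
import Pool.Agent.Lib.H1M.FF.M020
import Pool.Agent.Lib.H1M.FF.M042
import Pool.Agent.Lib.H1M.FF.M043
import Pool.Agent.Lib.H1M.FF.M045
import Pool.Agent.Lib.H1M.FF.M052
import Pool.Agent.Lib.H1M.FF.M053
import Pool.Agent.Lib.H1M.FF.M054
import Pool.Agent.Lib.H1M.FF.M055

/-! Merged copies (to shorten the build) of Lib.H37D.DZ26, Lib.H37D.DZ27a, Lib.H37D.DZ27, Lib.H37D.DZ28. -/

-- from Lib.H37D.DZ26
section

/-! # H37D, chunk DZ26 (M): one step of the perturbed map (port of `z27_shear`, `z27_step` in H37P/Z27.lean) -/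

open Set Filter Topology Asymptotics
open scoped ContDiff

namespace Pool.Agent.Lib.H37D

open Pool.Agent.Lib.H37N

variable {d : ℕ}

/-- The shear brings the point to the coordinates of the next block.

PROOF. As `z27_shear` (H37P/Z27.lean): unfold YcD stpD yFD phSD Qj parS, `z27_qpoly_smul`, `z27_qpoly_zero`, then ring on the second coordinate; the first and the third coordinates by rfl. -/
theorem dz26_shear {g : En d → En d} {s : FrD d} {f : PFD d} (e : ℕ) {a b hs c0 τ ρ B0 dS : ℝ} {wT : Wd d}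
    {A : En d → ℝ} {Aw : En d → Wd d} {Nn : (ℝ × Wd d) × ℝ → ℝ} {Mh : (ℝ × Wd d) × En d → ℝ}
    {Mw : (ℝ × Wd d) × En d → (Wd d →L[ℝ] ℝ)} (n m : ℕ) (q : QQ (e + 3) e) (j : ℕ) (z : En d) :
    (((bXD f a b B0 dS A (epsD g s B0 n m, z),
      Nn ((xi0D s m, w0D s m), bXD f a b B0 dS A (epsD g s B0 n m, z)) +
        (EED g s n m)⁻¹ * bUD f b B0 dS Mh Mw (epsD g s B0 n m, z) +
        phSD e s f Nn a b hs c0 τ ρ j (parS g s e n m q) (bXD f a b B0 dS A (epsD g s B0 n m, z))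
          (bWD f b B0 dS wT Aw (epsD g s B0 n m, z))),
      bWD f b B0 dS wT Aw (epsD g s B0 n m, z)) : En d) =
      YcD g s f b n m (stpD (bXD f a b B0 dS A) (bUD f b B0 dS Mh Mw) (bWD f b B0 dS wT Aw)
        (Qj e a hs c0 τ ρ q) (epsD g s B0 n m) j z) := by
  set X := bXD f a b B0 dS A (epsD g s B0 n m, z) with hX
  set Uu := bUD f b B0 dS Mh Mw (epsD g s B0 n m, z) with hUu
  set Ww := bWD f b B0 dS wT Aw (epsD g s B0 n m, z) with hWw
  have h1 : stpD (bXD f a b B0 dS A) (bUD f b B0 dS Mh Mw) (bWD f b B0 dS wT Aw)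
        (Qj e a hs c0 τ ρ q) (epsD g s B0 n m) j z =
      ((X, Uu + Qj e a hs c0 τ ρ q j X), Ww) := rfl
  rw [h1]
  unfold YcD yFD phSD parS Qj
  refine Prod.ext (Prod.ext rfl ?_) rfl
  simp only
  rw [z27_qpoly_smul]
  unfold qt
  rw [z27_qpoly_zero]
  generalize qpoly e q j ((X - a) / (ρ * hs) - dj e (j + 1)) = Qv
  generalize (X - a) / (ρ * hs) - dj e (j + 1) = w
  rw [div_eq_mul_inv, div_eq_mul_inv]
  ring

theorem dz26_adm {D : Set (En d)} {ψ χ : En d → En d} (h1 : AdmD D ψ) (h2 : AdmD D χ) : AdmD D (χ ∘ ψ) := by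
  refine ⟨fun w hw => ?_, fun w hw => h2.2 _ (h1.2 w hw)⟩
  show χ (ψ w) = w
  rw [h1.1 w hw, h2.1 w hw]

/-- One step of the perturbed map.

PROOF. As `z27_step` (H37P/Z27.lean).  `blockD` for χ ∘ ψ (`dz26_adm`).  v = exE f b B0 (dSD g s) (epsD ..) z = ((ξ0 + ζ, t), w0 + η) with ξ0 = (epsD ..).1 4 = xi0D, ζ = (epsD ..).1 3 * XiFD, t = etaFD,
w0 = (epsD ..).2 2 = w0D, η = (epsD ..).1 3 • OmFD (all by rfl).  `FlatD.fst`, `.thd` (‖v‖ < rF): (TTD v).1.1 = a + A v = bXD, (TTD v).2 = wT + Aw v = bWD; `FlatD.snd`: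
(TTD v).1.2 = Nn ((ξ0,w0), bXD) + ζ Mh(argM) + Mw(argM) η = Nn(..) + E⁻¹ bUD (linearity of Mw: map_smul, ring).  `hp.TB`: TTD v is in the ball of radius r/2, so Li (TTD v) ∈ D, ψ (..) ∈ D,
Li (YcD (stpD z)) = ψ (Li (TTD v)) (`hsh`, `dz26_shear`, `hp.Li_Pl`), and YcD (stpD z) = PlD (ψ (Li (TTD v))) is in the ball of radius r (`hp.Pl_mem`). -/
theorem stepD {g : En d → En d} {s : FrD d} {Z : Set (En d)} {b a : ℝ} {wT : Wd d} {k l : ℕ} {r : ℝ}
    {D B : Set (En d)} {Li : En d → En d} (hN : NearS g) (hs : IsFrD g s) (hZ : Z ⊆ interior (FFd d))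
    (hp : PlaceD g s Z b a wT k l r D B Li) {f : PFD d} {rf : ℝ} (hf : IsPFD g s f rf)
    {A : En d → ℝ} {Aw : En d → Wd d} {Nn : (ℝ × Wd d) × ℝ → ℝ} {Mh : (ℝ × Wd d) × En d → ℝ}
    {Mw : (ℝ × Wd d) × En d → (Wd d →L[ℝ] ℝ)} {rF : ℝ} (hF : FlatD g s b a wT k l A Aw Nn Mh Mw rF)
    (e : ℕ) {hs' c0 τ ρ B0 : ℝ} :
    ∃ δ > 0, ∀ (n m : ℕ), ‖epsD g s B0 n m‖ < δ →
      ∀ (q : QQ (e + 3) e) (j : ℕ) (z : En d) (ψ χ : En d → En d),
      AdmD D ψ → AdmD D χ → |z.1.1| ≤ 1 → |z.1.2 + b| ≤ 1 → ‖z.2‖ ≤ 1 →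
      exE f b B0 (dSD g s) (epsD g s B0 n m) z ∈ B →
      ‖exE f b B0 (dSD g s) (epsD g s B0 n m) z‖ < rF →
      |(epsD g s B0 n m).1 4| < rF → |(epsD g s B0 n m).1 3 * XiFD f b B0 (epsD g s B0 n m) z| < rF →
      ‖(epsD g s B0 n m).2 2‖ < rF → ‖(epsD g s B0 n m).1 3 • OmFD f b (dSD g s) (epsD g s B0 n m) z‖ < rF →
      (∀ v : En d, v.1.1 = bXD f a b B0 (dSD g s) A (epsD g s B0 n m, z) →
        v.1.2 = Nn (((epsD g s B0 n m).1 4, (epsD g s B0 n m).2 2),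
            bXD f a b B0 (dSD g s) A (epsD g s B0 n m, z)) +
          (epsD g s B0 n m).1 3 * bUD f b B0 (dSD g s) Mh Mw (epsD g s B0 n m, z) →
        v.2 = bWD f b B0 (dSD g s) wT Aw (epsD g s B0 n m, z) →
        PlD g s l (ψ (Li v)) = ((v.1.1, v.1.2 + phSD e s f Nn a b hs' c0 τ ρ j (parS g s e n m q) v.1.1 v.2), v.2)) →
      ((χ ∘ ψ) ∘ g)^[n + s.kS + m + (k + 1 + l)] (s.κ Sy.P (YcD g s f b n m z)) =
        s.κ Sy.P (PlD g s l (χ (Li (YcD g s f b n m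
          (stpD (bXD f a b B0 (dSD g s) A) (bUD f b B0 (dSD g s) Mh Mw) (bWD f b B0 (dSD g s) wT Aw)
            (Qj e a hs' c0 τ ρ q) (epsD g s B0 n m) j z))))) ∧
      YcD g s f b n m (stpD (bXD f a b B0 (dSD g s) A) (bUD f b B0 (dSD g s) Mh Mw)
          (bWD f b B0 (dSD g s) wT Aw) (Qj e a hs' c0 τ ρ q) (epsD g s B0 n m) j z) ∈
        Metric.ball (((a, 0), wT) : En d) r ∧
      ∀ i ≤ n + s.kS + m + (k + 1 + l),
        ((χ ∘ ψ) ∘ g)^[i] (s.κ Sy.P (YcD g s f b n m z)) ∈ VOD d ∪ Z := by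
  obtain ⟨δ, hδ, H⟩ := blockD hN hs hZ hp hf
  refine ⟨δ, hδ, ?_⟩
  intro n m he q j z ψ χ hψ hχ hV1 hV2 hV3 hwB hwF h4 hz hw2 hη hsh
  obtain ⟨hB1, hB2⟩ := H (χ ∘ ψ) (dz26_adm hψ hχ) B0 n m z he hV1 hV2 hV3 hwB
  set ε := epsD g s B0 n m with hε
  set w := exE f b B0 (dSD g s) ε z with hwdef
  have hTB : TTD g s b k l w ∈ Metric.ball (((a, 0), wT) : En d) (r / 2) := hp.TB w hwB
  have hTr : TTD g s b k l w ∈ Metric.ball (((a, 0), wT) : En d) r :=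
    Metric.ball_subset_ball (by linarith [hp.r_pos]) hTB
  -- the coordinates of `TTD w`
  have hT1 : (TTD g s b k l w).1.1 = bXD f a b B0 (dSD g s) A (ε, z) := hF.fst w hwF
  have hT3 : (TTD g s b k l w).2 = bWD f b B0 (dSD g s) wT Aw (ε, z) := hF.thd w hwF
  have ht : |w.1.2| < rF := by
    have h1 := (norm_snd_le w.1).trans (norm_fst_le w)
    exact lt_of_le_of_lt h1 hwF
  have hT2 : (TTD g s b k l w).1.2 = Nn ((ε.1 4, ε.2 2), bXD f a b B0 (dSD g s) A (ε, z)) +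
      ε.1 3 * bUD f b B0 (dSD g s) Mh Mw (ε, z) := by
    have h := hF.snd (ε.1 4) (ε.1 3 * XiFD f b B0 ε z) w.1.2 (ε.2 2)
      (ε.1 3 • OmFD f b (dSD g s) ε z) h4 hz ht hw2 hη
    have h5 : (((ε.1 4 + ε.1 3 * XiFD f b B0 ε z, w.1.2),
      ε.2 2 + ε.1 3 • OmFD f b (dSD g s) ε z) : En d) = w := rfl
    rw [h5] at h
    have h6 : a + A w = bXD f a b B0 (dSD g s) A (ε, z) := rfl
    have h7 : (((ε.1 4, ε.2 2), ((ε.1 3 * XiFD f b B0 ε z, w.1.2),
      ε.1 3 • OmFD f b (dSD g s) ε z)) : (ℝ × Wd d) × En d) = argM f b B0 (dSD g s) (ε, z) := rfl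
    rw [h6, h7, map_smul, smul_eq_mul] at h
    rw [h]
    unfold bUD
    ring
  have hP := hsh _ hT1 hT2 hT3
  have hY : PlD g s l (ψ (Li (TTD g s b k l w))) = YcD g s f b n m
      (stpD (bXD f a b B0 (dSD g s) A) (bUD f b B0 (dSD g s) Mh Mw) (bWD f b B0 (dSD g s) wT Aw)
        (Qj e a hs' c0 τ ρ q) ε j z) := by
    rw [hP, ← dz26_shear (hs := hs') (c0 := c0) (τ := τ) (ρ := ρ) (Nn := Nn) e n m q j z]
    refine Prod.ext (Prod.ext ?_ ?_) ?_
    · exact hT1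
    · show (TTD g s b k l w).1.2 + phSD e s f Nn a b hs' c0 τ ρ j (parS g s e n m q)
        (TTD g s b k l w).1.1 (TTD g s b k l w).2 = _
      rw [hT1, hT2, hT3]
      rfl
    · exact hT3
  have hD1 : Li (TTD g s b k l w) ∈ D := hp.Li_mem _ hTr
  have hD2 : ψ (Li (TTD g s b k l w)) ∈ D := hψ.2 _ hD1
  have hYD : Li (YcD g s f b n m
      (stpD (bXD f a b B0 (dSD g s) A) (bUD f b B0 (dSD g s) Mh Mw) (bWD f b B0 (dSD g s) wT Aw)
        (Qj e a hs' c0 τ ρ q) ε j z)) =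
      ψ (Li (TTD g s b k l w)) := by
    rw [← hY, hp.Li_Pl _ hD2]
  refine ⟨?_, ?_, ?_⟩
  · rw [hB1, hYD]
    rfl
  · rw [← hY]
    exact hp.Pl_mem _ hD2
  · exact hB2

end Pool.Agent.Lib.H37D
end

-- from Lib.H37D.DZ27a
section

/-! # H37D, chunk DZ27a (M): uniform smallness, the coordinates, smoothness (port of `z27_tube`, `z27_coords`, `z27_contDiff_sto` in H37P/Z27.lean) -/

open Set Filter Topology Asymptotics
open scoped ContDiff

namespace Pool.Agent.Lib.H37D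

open Pool.Agent.Lib.H37N

variable {d : ℕ}

theorem contDiff_exE {f : PFD d} (hf : SmPFD f) (b B0 dS : ℝ) :
    ContDiff ℝ ∞ (fun q : EP d × En d => exE f b B0 dS q.1 q.2) := contDiff_exD hf b B0 dS

theorem exE_zero {f : PFD d} (hf : SmPFD f) (b B0 dS : ℝ) (z : En d) : exE f b B0 dS 0 z = ((0, z.1.2), 0) :=
  exD_zero hf b B0 dS _ z rfl

theorem dz27_tube_lt {K : Set (En d × ℝ)} (hK : IsCompact K) {φ : EP d × (En d × ℝ) → ℝ}
    (hφ : Continuous φ) {c : ℝ} (h : ∀ p ∈ K, φ (0, p) < c) :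
    ∀ᶠ ε : EP d in 𝓝 0, ∀ p ∈ K, φ (ε, p) < c := by
  apply hK.eventually_forall_of_forall_eventually
  intro p hp
  exact hφ.continuousAt.eventually_lt continuousAt_const (h p hp)

/-- Uniform smallness of all the quantities of a step.

PROOF. As `z27_tube` (H37P/Z27.lean): the set of (z, X) with |z.1.1| ≤ 1, |z.1.2| ≤ ρU, ‖z.2‖ ≤ 1, |X - a| ≤ ρX is compact (closed and bounded, `isCompact_closedBall`, `isCompact_Icc`, `IsCompact.prod`);
all the functions are continuous in (ε, (z, X)) (`contDiff_exE`, `contDiff_XiFD`, `contDiff_OmFD`, `blkD_of` or the smoothness of bUD) and at ε = 0 they are: ‖exE‖ = |z.1.2| ≤ ρU, 0, 0, 0, 0, |Nn ((0,0),X)| = 0;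
`IsCompact.eventually_forall_of_forall_eventually`. -/
theorem dz27_tube {f : PFD d} (hf : SmPFD f) {Nn : (ℝ × Wd d) × ℝ → ℝ} (hNn : ContDiff ℝ ∞ Nn)
    {Mh : (ℝ × Wd d) × En d → ℝ} (hM : ContDiff ℝ ∞ Mh) {Mw : (ℝ × Wd d) × En d → (Wd d →L[ℝ] ℝ)}
    (hMw : ContDiff ℝ ∞ Mw) {a b B0 dS rF rB ρU ρX r1 : ℝ} (hr1 : 0 < r1) (hrF : 0 < rF) (hUB : ρU < rB)
    (hUF : ρU < rF) (hXF : ρX < rF) (hN0 : ∀ X : ℝ, |X - a| < rF → Nn ((0, 0), X) = 0) :
    ∀ᶠ ε : EP d in 𝓝 0, ∀ z : En d, |z.1.1| ≤ 1 → |z.1.2| ≤ ρU → ‖z.2‖ ≤ 1 → ∀ X : ℝ, |X - a| ≤ ρX →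
      ‖exE f b B0 dS ε z‖ < rB ∧ ‖exE f b B0 dS ε z‖ < rF ∧ |ε.1 4| < rF ∧
      |ε.1 3 * XiFD f b B0 ε z| < rF ∧ ‖ε.2 2‖ < rF ∧ ‖ε.1 3 • OmFD f b dS ε z‖ < rF ∧
      |Nn ((ε.1 4, ε.2 2), X) + ε.1 3 * bUD f b B0 dS Mh Mw (ε, z)| < r1 := by
  have cw := (contDiff_exE hf b B0 dS).continuous
  have cXi := (contDiff_XiFD hf b B0).continuous
  have cOm := (contDiff_OmFD hf b dS).continuous
  have cEt := (contDiff_etaFD hf b).continuous
  have cp : Continuous fun z : EP d × (En d × ℝ) => ((z.1, z.2.1) : EP d × En d) :=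
    continuous_fst.prodMk (continuous_fst.comp continuous_snd)
  have cE : ∀ i : Fin 6, Continuous fun z : EP d × (En d × ℝ) => z.1.1 i := fun i =>
    (continuous_apply i).comp (continuous_fst.comp continuous_fst)
  have cV : ∀ i : Fin 7, Continuous fun z : EP d × (En d × ℝ) => z.1.2 i := fun i =>
    (continuous_apply i).comp (continuous_snd.comp continuous_fst)
  have cwp : Continuous fun z : EP d × (En d × ℝ) => exE f b B0 dS z.1 z.2.1 := cw.comp cp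
  have cXip : Continuous fun z : EP d × (En d × ℝ) => XiFD f b B0 z.1 z.2.1 := cXi.comp cp
  have cOmp : Continuous fun z : EP d × (En d × ℝ) => OmFD f b dS z.1 z.2.1 := cOm.comp cp
  have cEtp : Continuous fun z : EP d × (En d × ℝ) => etaFD f b z.1 z.2.1 := cEt.comp cp
  have cArg : Continuous fun z : EP d × (En d × ℝ) => argM f b B0 dS (z.1, z.2.1) := by
    unfold argM
    exact ((cE 4).prodMk (cV 2)).prodMk ((((cE 3).mul cXip).prodMk cEtp).prodMk ((cE 3).smul cOmp))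
  have cbp : Continuous fun z : EP d × (En d × ℝ) => bUD f b B0 dS Mh Mw (z.1, z.2.1) := by
    unfold bUD
    exact (cXip.mul (hM.continuous.comp cArg)).add ((hMw.continuous.comp cArg).clm_apply cOmp)
  have cNp : Continuous fun z : EP d × (En d × ℝ) => Nn ((z.1.1 4, z.1.2 2), z.2.2) :=
    hNn.continuous.comp (((cE 4).prodMk (cV 2)).prodMk (continuous_snd.comp continuous_snd))
  set K : Set (En d × ℝ) := ((Icc (-1 : ℝ) 1 ×ˢ Icc (-ρU) ρU) ×ˢ Metric.closedBall (0 : Wd d) 1) ×ˢ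
    Icc (a - ρX) (a + ρX) with hKdef
  have hK : IsCompact K :=
    ((isCompact_Icc.prod isCompact_Icc).prod (isCompact_closedBall _ _)).prod isCompact_Icc
  have hw0 : ∀ p ∈ K, ‖exE f b B0 dS 0 p.1‖ ≤ ρU := by
    rintro ⟨⟨⟨x, u⟩, w1⟩, X⟩ ⟨⟨⟨hx, hu⟩, hw1⟩, hX⟩
    rw [exE_zero hf, Prod.norm_def, Prod.norm_def]
    simp only [norm_zero, Real.norm_eq_abs]
    have h0 : 0 ≤ ρU := le_trans (abs_nonneg u) (abs_le.2 hu)
    exact max_le (max_le h0 (abs_le.2 hu)) h0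
  have z1 : ∀ i : Fin 6, (0 : EP d).1 i = 0 := fun _ => rfl
  have z2 : ∀ i : Fin 7, (0 : EP d).2 i = 0 := fun _ => rfl
  have cN1 : Continuous fun z : EP d × (En d × ℝ) => ‖exE f b B0 dS z.1 z.2.1‖ := cwp.norm
  have cN5 : Continuous fun z : EP d × (En d × ℝ) => ‖z.1.2 2‖ := (cV 2).norm
  have cN6 : Continuous fun z : EP d × (En d × ℝ) => ‖z.1.1 3 • OmFD f b dS z.1 z.2.1‖ :=
    ((cE 3).smul cOmp).norm
  have T1 := dz27_tube_lt hK cN1 (c := rB) fun p hp => lt_of_le_of_lt (hw0 p hp) hUB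
  have T2 := dz27_tube_lt hK cN1 (c := rF) fun p hp => lt_of_le_of_lt (hw0 p hp) hUF
  have T3 := dz27_tube_lt hK (cE 4).norm (c := rF) fun p hp => by
    show ‖((0 : EP d).1 4 : ℝ)‖ < rF
    rw [z1, norm_zero]
    exact hrF
  have T4 := dz27_tube_lt hK ((cE 3).mul cXip).norm (c := rF) fun p hp => by
    show ‖(0 : EP d).1 3 * XiFD f b B0 0 p.1‖ < rF
    rw [z1, zero_mul, norm_zero]
    exact hrF
  have T5 := dz27_tube_lt hK cN5 (c := rF) fun p hp => by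
    show ‖(0 : EP d).2 2‖ < rF
    rw [z2, norm_zero]
    exact hrF
  have T6 := dz27_tube_lt hK cN6 (c := rF) fun p hp => by
    show ‖(0 : EP d).1 3 • OmFD f b dS 0 p.1‖ < rF
    rw [z1, zero_smul, norm_zero]
    exact hrF
  have T7 := dz27_tube_lt hK ((cNp.add ((cE 3).mul cbp)).norm) (c := r1) fun p hp => by
    show ‖Nn (((0 : EP d).1 4, (0 : EP d).2 2), p.2) +
      (0 : EP d).1 3 * bUD f b B0 dS Mh Mw (0, p.1)‖ < r1
    obtain ⟨-, hX⟩ := hp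
    have hX' : |p.2 - a| < rF := by
      refine lt_of_le_of_lt (abs_le.2 ⟨?_, ?_⟩) hXF
      · linarith [hX.1]
      · linarith [hX.2]
    rw [z1, z1, z2, hN0 p.2 hX', zero_mul, add_zero, norm_zero]
    exact hr1
  filter_upwards [T1, T2, T3, T4, T5, T6, T7] with ε t1 t2 t3 t4 t5 t6 t7 z hz1 hz2 hz3 X hX
  have hmem : ((z, X) : En d × ℝ) ∈ K := by
    refine ⟨⟨⟨abs_le.1 hz1, abs_le.1 hz2⟩, ?_⟩, ?_, ?_⟩
    · rw [mem_closedBall_zero_iff]
      exact hz3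
    · linarith [(abs_le.1 hX).1]
    · linarith [(abs_le.1 hX).2]
  have u1 : ‖exE f b B0 dS ε z‖ < rB := by
    simpa only using t1 (z, X) hmem
  have u2 : ‖exE f b B0 dS ε z‖ < rF := by
    simpa only using t2 (z, X) hmem
  have u3 : ‖ε.1 4‖ < rF := by
    simpa only using t3 (z, X) hmem
  have u4 : ‖ε.1 3 * XiFD f b B0 ε z‖ < rF := t4 (z, X) hmem
  have u5 : ‖ε.2 2‖ < rF := by
    simpa only using t5 (z, X) hmem
  have u6 : ‖ε.1 3 • OmFD f b dS ε z‖ < rF := by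
    simpa only using t6 (z, X) hmem
  have u7 : ‖Nn ((ε.1 4, ε.2 2), X) + ε.1 3 * bUD f b B0 dS Mh Mw (ε, z)‖ < r1 := t7 (z, X) hmem
  rw [Real.norm_eq_abs] at u3 u4 u7
  exact ⟨u1, u2, u3, u4, u5, u6, u7⟩

/-- The coordinates YcD are a global diffeomorphism.

PROOF. Yi v = ((v.1.1, E * (v.1.2 - (uS + Th (e1 X, mulw al w)) / mn) - b), v.2), X = v.1.1, w = v.2; `contDiff_mulw`; E = EED g s n m ≠ 0 (field_simp). -/
theorem dz27_coords {g : En d → En d} {s : FrD d} {f : PFD d} (hTh : ContDiff ℝ ∞ f.Th) (b : ℝ) (n m : ℕ)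
    (hE : EED g s n m ≠ 0) :
    ∃ Yi : En d → En d, ContDiff ℝ ∞ (YcD g s f b n m) ∧ ContDiff ℝ ∞ Yi ∧
      (∀ z, Yi (YcD g s f b n m z) = z) ∧ ∀ v, YcD g s f b n m (Yi v) = v := by
  have c1 : ContDiff ℝ ∞ fun z : En d => f.Th (e1D s n * z.1.1, mulw (s.al Sy.P ^ n) z.2) := by
    have x1 : ContDiff ℝ ∞ (fun z : En d => z.1.1) := by fun_prop
    exact hTh.comp ((contDiff_const.mul x1).prodMk (contDiff_mulw contDiff_const contDiff_snd))
  have x1 : ContDiff ℝ ∞ (fun z : En d => z.1.1) := by fun_prop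
  have x2 : ContDiff ℝ ∞ (fun z : En d => z.1.2) := by fun_prop
  refine ⟨fun v => ((v.1.1, EED g s n m * (v.1.2 -
    (s.uS + f.Th (e1D s n * v.1.1, mulw (s.al Sy.P ^ n) v.2)) / s.mu Sy.P ^ n) - b), v.2),
    ?_, ?_, ?_, ?_⟩
  · unfold YcD yFD
    exact (x1.prodMk (((x2.add contDiff_const).div_const _).add
      ((contDiff_const.add c1).div_const _))).prodMk contDiff_snd
  · exact (x1.prodMk ((contDiff_const.mul (x2.sub
      ((contDiff_const.add c1).div_const _))).sub contDiff_const)).prodMk contDiff_snd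
  · intro z
    unfold YcD yFD
    refine Prod.ext (Prod.ext rfl ?_) rfl
    simp only
    rw [add_sub_cancel_right, mul_div_cancel₀ _ hE, add_sub_cancel_right]
  · intro v
    unfold YcD yFD
    refine Prod.ext (Prod.ext rfl ?_) rfl
    simp only
    rw [sub_add_cancel, mul_div_cancel_left₀ _ hE, sub_add_cancel]

/-- The zoom is a global diffeomorphism.

PROOF. zi v = (((v.1.1 - a) / (ρ * hs) - dj e j, v.1.2 / ρ - dj e (j + 1)), ρ⁻¹ • (v.2 - wT) - dj e j • c). -/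
theorem dz27_zoom (e : ℕ) (a : ℝ) {hs ρ : ℝ} (hhs : hs ≠ 0) (hρ : ρ ≠ 0) (wT c : Wd d) (j : ℕ) :
    ∃ zi : En d → En d, ContDiff ℝ ∞ (zmD e a hs ρ wT c j) ∧ ContDiff ℝ ∞ zi ∧
      (∀ z, zi (zmD e a hs ρ wT c j z) = z) ∧ ∀ v, zmD e a hs ρ wT c j (zi v) = v := by
  have hρh : ρ * hs ≠ 0 := mul_ne_zero hρ hhs
  have x1 : ContDiff ℝ ∞ (fun z : En d => z.1.1) := by fun_prop
  have x2 : ContDiff ℝ ∞ (fun z : En d => z.1.2) := by fun_prop
  have x3 : ContDiff ℝ ∞ (fun z : En d => z.2) := by fun_prop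
  refine ⟨fun v => (((v.1.1 - a) / (ρ * hs) - dj e j, v.1.2 / ρ - dj e (j + 1)),
    ρ⁻¹ • (v.2 - wT) - dj e j • c), ?_, ?_, ?_, ?_⟩
  · unfold zmD
    exact ((contDiff_const.add (contDiff_const.mul (contDiff_const.add x1))).prodMk
      (contDiff_const.mul (contDiff_const.add x2))).prodMk
      (contDiff_const.add ((contDiff_const.add x3).const_smul ρ))
  · exact ((((x1.sub contDiff_const).div_const _).sub contDiff_const).prodMk
      ((x2.div_const _).sub contDiff_const)).prodMk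
      (((x3.sub contDiff_const).const_smul ρ⁻¹).sub contDiff_const)
  · intro z
    unfold zmD
    refine Prod.ext (Prod.ext ?_ ?_) ?_
    · show (a + ρ * hs * (dj e j + z.1.1) - a) / (ρ * hs) - dj e j = z.1.1
      field_simp
      ring
    · show ρ * (dj e (j + 1) + z.1.2) / ρ - dj e (j + 1) = z.1.2
      field_simp
      ring
    · show ρ⁻¹ • (wT + ρ • (dj e j • c + z.2) - wT) - dj e j • c = z.2
      rw [add_sub_cancel_left, smul_smul, inv_mul_cancel₀ hρ, one_smul, add_sub_cancel_left]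
  · intro v
    unfold zmD
    refine Prod.ext (Prod.ext ?_ ?_) ?_
    · show a + ρ * hs * (dj e j + ((v.1.1 - a) / (ρ * hs) - dj e j)) = v.1.1
      field_simp
      ring
    · show ρ * (dj e (j + 1) + (v.1.2 / ρ - dj e (j + 1))) = v.1.2
      field_simp
      ring
    · show wT + ρ • (dj e j • c + (ρ⁻¹ • (v.2 - wT) - dj e j • c)) = v.2
      rw [add_sub_cancel, smul_smul, mul_inv_cancel₀ hρ, one_smul, add_sub_cancel]


/-- PROOF. Induction on j. -/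
theorem dz27_contDiff_sto {P' : Type} [NormedAddCommGroup P'] [NormedSpace ℝ P'] {bX bU : P' × En d → ℝ}
    {bW : P' × En d → Wd d} (hX : ContDiff ℝ ∞ bX) (hU : ContDiff ℝ ∞ bU) (hW : ContDiff ℝ ∞ bW)
    (e : ℕ) (a hs c0 τ ρ : ℝ) (q : QQ (e + 3) e) (ε : P') (j : ℕ) :
    ContDiff ℝ ∞ (stoD bX bU bW (Qj e a hs c0 τ ρ q) ε j) := by
  induction j with
  | zero => exact contDiff_id
  | succ j ih =>
    have c0' : ContDiff ℝ ∞ fun z : En d => ((ε, stoD bX bU bW (Qj e a hs c0 τ ρ q) ε j z) : P' × En d) :=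
      contDiff_const.prodMk ih
    have c1 : ContDiff ℝ ∞ fun z : En d => bX (ε, stoD bX bU bW (Qj e a hs c0 τ ρ q) ε j z) :=
      hX.comp c0'
    have c2 : ContDiff ℝ ∞ fun z : En d => bU (ε, stoD bX bU bW (Qj e a hs c0 τ ρ q) ε j z) :=
      hU.comp c0'
    have c3 : ContDiff ℝ ∞ fun z : En d => bW (ε, stoD bX bU bW (Qj e a hs c0 τ ρ q) ε j z) :=
      hW.comp c0'
    exact (c1.prodMk (c2.add ((z27_contDiff_Qj e a hs c0 τ ρ q j).comp c1))).prodMk c3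

end Pool.Agent.Lib.H37D
end

-- from Lib.H37D.DZ27
section

/-! # H37D, chunk DZ27 (L): the perturbed map with the return map `stoD` (port of `realize` in H37P/Z27.lean) -/

open Set Filter Topology Asymptotics
open scoped ContDiff

namespace Pool.Agent.Lib.H37D

open Pool.Agent.Lib.H37N

variable {d : ℕ}

theorem dz27_parS {g : En d → En d} {s : FrD d} {e n m : ℕ} {B0 δ : ℝ} (hδ : ‖epsD g s B0 n m‖ < δ)
    (hm : |(s.mu Sy.P ^ n)⁻¹| < δ) {q : QQ (e + 3) e} (hq : ‖q‖ < 1) : ‖parS g s e n m q‖ < δ := by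
  have h1 : ∀ i : Fin 6, |(epsD g s B0 n m).1 i| < δ := fun i => by
    have h3 := norm_le_pi_norm (epsD g s B0 n m).1 i
    have h4 := norm_fst_le (epsD g s B0 n m)
    rw [Real.norm_eq_abs] at h3
    linarith
  have h2 : ∀ i : Fin 7, ‖(epsD g s B0 n m).2 i‖ < δ := fun i => by
    have h3 := norm_le_pi_norm (epsD g s B0 n m).2 i
    have h4 := norm_snd_le (epsD g s B0 n m)
    linarith
  have x0 : |xi0D s m| < δ := h1 4
  have x1 : ‖w0D s m‖ < δ := h2 2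
  have x2 : |e1D s n| < δ := h1 0
  have x3 : ‖s.al Sy.P ^ n‖ < δ := h2 0
  have x4 : |(EED g s n m)⁻¹| < δ := h1 3
  have x5 : ‖(EED g s n m)⁻¹ • q‖ < δ := by
    rw [norm_smul, Real.norm_eq_abs]
    calc _ ≤ |(EED g s n m)⁻¹| * 1 := mul_le_mul_of_nonneg_left hq.le (abs_nonneg _)
      _ < δ := by rw [mul_one]; exact x4
  unfold parS
  rw [Prod.norm_def, Prod.norm_def, Prod.norm_def, Prod.norm_def, Prod.norm_def, Prod.norm_def]
  exact max_lt x0 (max_lt x1 (max_lt hm (max_lt x2 (max_lt x3 (max_lt x4 x5)))))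

/-- the regions -/
def dz27_W (e : ℕ) (a hs ρ : ℝ) (wT c : Wd d) (j : ℕ) : Set (En d) :=
  {v | |v.1.1 - (a + ρ * hs * dj e j)| < ρ * |hs| / 5 ∧ |v.1.2 - ρ * dj e (j + 1)| < ρ / 5 ∧
    ‖v.2 - (wT + (ρ * dj e j) • c)‖ < ρ / 5}

theorem dz27_W_open (e : ℕ) (a hs ρ : ℝ) (wT c : Wd d) (j : ℕ) : IsOpen (dz27_W e a hs ρ wT c j) := by
  have e1 : dz27_W e a hs ρ wT c j = {v : En d | |v.1.1 - (a + ρ * hs * dj e j)| < ρ * |hs| / 5} ∩
      ({v : En d | |v.1.2 - ρ * dj e (j + 1)| < ρ / 5} ∩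
        {v : En d | ‖v.2 - (wT + (ρ * dj e j) • c)‖ < ρ / 5}) := rfl
  rw [e1]
  exact (isOpen_lt (by fun_prop) continuous_const).inter
    ((isOpen_lt (by fun_prop) continuous_const).inter (isOpen_lt (by fun_prop) continuous_const))

theorem dz27_zm_mem {e : ℕ} {a hs ρ : ℝ} {wT c : Wd d} {j : ℕ} {z : En d} (hhs : hs ≠ 0) (hρ : 0 < ρ)
    (hz : ‖z‖ < 1 / 10) : zmD e a hs ρ wT c j z ∈ dz27_W e a hs ρ wT c j := by
  have h0 : 0 < |hs| := abs_pos.2 hhs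
  have n1 := norm_fst_le z
  have n2 := norm_fst_le z.1
  have n3 := norm_snd_le z.1
  have n4 := norm_snd_le z
  rw [Real.norm_eq_abs] at n2 n3
  refine ⟨?_, ?_, ?_⟩
  · show |a + ρ * hs * (dj e j + z.1.1) - (a + ρ * hs * dj e j)| < ρ * |hs| / 5
    have h1 : a + ρ * hs * (dj e j + z.1.1) - (a + ρ * hs * dj e j) = ρ * hs * z.1.1 := by ring
    rw [h1, abs_mul, abs_mul, abs_of_pos hρ]
    have h2 : |z.1.1| < 1 / 10 := by linarith
    have h3 : 0 < ρ * |hs| := mul_pos hρ h0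
    nlinarith
  · show |ρ * (dj e (j + 1) + z.1.2) - ρ * dj e (j + 1)| < ρ / 5
    have h1 : ρ * (dj e (j + 1) + z.1.2) - ρ * dj e (j + 1) = ρ * z.1.2 := by ring
    rw [h1, abs_mul, abs_of_pos hρ]
    have h2 : |z.1.2| < 1 / 10 := by linarith
    nlinarith
  · show ‖wT + ρ • (dj e j • c + z.2) - (wT + (ρ * dj e j) • c)‖ < ρ / 5
    have h1 : wT + ρ • (dj e j • c + z.2) - (wT + (ρ * dj e j) • c) = ρ • z.2 := by
      rw [smul_add, smul_smul]
      abel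
    rw [h1, norm_smul, Real.norm_eq_abs, abs_of_pos hρ]
    have h2 : ‖z.2‖ < 1 / 10 := by linarith
    nlinarith

theorem dz27_W_bound {e : ℕ} {a hs ρ : ℝ} {wT c : Wd d} {j : ℕ} {v : En d} (hρ : 0 < ρ)
    (hv : v ∈ dz27_W e a hs ρ wT c j) :
    |v.1.1 - a| ≤ ρ * |hs| * ((nb e : ℝ) + 1) ∧ |v.1.2| ≤ ρ * ((nb e : ℝ) + 1) ∧
      ‖v.2 - wT‖ ≤ ρ * (‖c‖ * nb e + 1) := by
  obtain ⟨h1, h2, h3⟩ := hv
  have d1 := z27_dj_abs e j
  have d2 := z27_dj_abs e (j + 1)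
  have hN : (0 : ℝ) ≤ (nb e : ℝ) := Nat.cast_nonneg _
  have hρh : 0 ≤ ρ * |hs| := mul_nonneg hρ.le (abs_nonneg _)
  refine ⟨?_, ?_, ?_⟩
  · have t1 : |v.1.1 - a| ≤ |v.1.1 - (a + ρ * hs * dj e j)| + |ρ * hs * dj e j| := by
      have := abs_add_le (v.1.1 - (a + ρ * hs * dj e j)) (ρ * hs * dj e j)
      rwa [show v.1.1 - (a + ρ * hs * dj e j) + ρ * hs * dj e j = v.1.1 - a by ring] at this
    have t2 : |ρ * hs * dj e j| ≤ ρ * |hs| * ((nb e : ℝ) / 2) := by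
      rw [abs_mul, abs_mul, abs_of_pos hρ]
      exact mul_le_mul_of_nonneg_left d1 hρh
    have h2 : 0 ≤ ρ * |hs| * ((nb e : ℝ) / 2 + 4 / 5) := mul_nonneg hρh (by linarith)
    nlinarith
  · have t1 : |v.1.2| ≤ |v.1.2 - ρ * dj e (j + 1)| + |ρ * dj e (j + 1)| := by
      have := abs_add_le (v.1.2 - ρ * dj e (j + 1)) (ρ * dj e (j + 1))
      rwa [sub_add_cancel] at this
    have t2 : |ρ * dj e (j + 1)| ≤ ρ * ((nb e : ℝ) / 2) := by
      rw [abs_mul, abs_of_pos hρ]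
      exact mul_le_mul_of_nonneg_left d2 hρ.le
    have h2 : 0 ≤ ρ * ((nb e : ℝ) / 2 + 4 / 5) := mul_nonneg hρ.le (by linarith)
    nlinarith
  · have t1 : ‖v.2 - wT‖ ≤ ‖v.2 - (wT + (ρ * dj e j) • c)‖ + ‖(ρ * dj e j) • c‖ := by
      have := norm_add_le (v.2 - (wT + (ρ * dj e j) • c)) ((ρ * dj e j) • c)
      rwa [show v.2 - (wT + (ρ * dj e j) • c) + (ρ * dj e j) • c = v.2 - wT by abel] at this
    have t2 : ‖(ρ * dj e j) • c‖ ≤ ρ * ((nb e : ℝ) / 2) * ‖c‖ := by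
      rw [norm_smul, Real.norm_eq_abs, abs_mul, abs_of_pos hρ]
      exact mul_le_mul_of_nonneg_right (mul_le_mul_of_nonneg_left d1 hρ.le) (norm_nonneg _)
    have h2 : 0 ≤ ρ * (nb e : ℝ) * ‖c‖ := by positivity
    nlinarith

/-- Realisation of Stage II.

PROOF. As `realize` in H37P/Z27.lean.  f, rf from `exists_PFD`; B0 = -1/(Y1(0,0) hs Ga(0)) > 0; `blkD_of`, `stageII_localD` with h = fun U => A ((0,U),0), Ga = fun U => Mh ((0,0),((0,U),0)), k = fun U => Aw ((0,U),0),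
c = deriv k 0, c1 = B0 Y1(0,0); ρ1 as in the plane and also ρ1 (‖c‖ nb + 1) ≤ r/4.  `family_SD`, `stepD`, `dz27_tube` (ρU = ρ N1), `exists_nmD`, `epsD_tendsto`.
zm = zmD e a hs ρ wT c 0, zi its inverse (`dz27_zoom`); Y = YcD g s f b n m ∘ zm, S j = zi ∘ stoD .. j ∘ zm, Y (S j z) = YcD (stoD j (zm z)).
Regions: W' j = points v with |v.1.1 - (a + ρ hs dj j)| < ρ|hs|/5, |v.1.2 - ρ dj (j+1)| < ρ/5, ‖v.2 - (wT + ρ dj j c)‖ < ρ/5, W j = zm ⁻¹' (W' j).  The point (0, om 0) has S j (0, om 0) ∈ W j by the last item of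
`stageII_localD`.  For v in W' j: ‖v.2 - wT‖ ≤ ρ/5 + ρ nb ‖c‖/2 ≤ r/4, ‖v.2‖ ≤ ‖wT‖ + r < 1.  O = {v | |v.1.1 - X0| < ρ|hs|/5}, X0 = a + ρ hs dj 0 (zmD's first coordinate at the point (0, om 0)). -/
theorem realizeD {R e : ℕ} (he : 1 ≤ e) {U : Set (En d → En d)} (hU : PertOpenD R U)
    {g : En d → En d} (hg : g ∈ U) {s : FrD d} {Z : Set (En d)} {b a : ℝ} {wT : Wd d} {k l : ℕ} {r : ℝ}
    {D B : Set (En d)} {Li : En d → En d} (hN : NearS g) (hs : IsFrD g s) (hZ : Z ⊆ interior (FFd d))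
    (hb : |b| < 1) (hp : PlaceD g s Z b a wT k l r D B Li)
    {A : En d → ℝ} {Aw : En d → Wd d} {Nn : (ℝ × Wd d) × ℝ → ℝ} {Mh : (ℝ × Wd d) × En d → ℝ}
    {Mw : (ℝ × Wd d) × En d → (Wd d →L[ℝ] ℝ)} {rF : ℝ} (hF : FlatD g s b a wT k l A Aw Nn Mh Mw rF)
    (hne : deriv (fun U => Real.log (hGD A Mh U)) 0 ≠ 0) :
    ∃ (ψ : En d → En d) (K : ℕ) (Y Yi : En d → En d) (S : ℕ → En d → En d) (om : Pt → Wd d) (φ : Pt → Pt)
      (W : ℕ → Set (En d)),
      ψ ∘ g ∈ U ∧ AdmD D ψ ∧ 0 < K ∧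
      (ContDiff ℝ ∞ Y ∧ ContDiff ℝ ∞ Yi ∧ (∀ z, Yi (Y z) = z) ∧ ∀ v, Y (Yi v) = v) ∧
      (∀ j, ContDiff ℝ ∞ (S j)) ∧ S 0 = id ∧
      ContDiff ℝ ∞ om ∧ ContDiff ℝ ∞ φ ∧
      (∀ᶠ v in 𝓝 (0 : Pt), S (nb e) (v, om v) = (φ v, om v)) ∧
      ((fun v : Pt => φ v - v) =O[𝓝 0] fun v : Pt => ‖v‖ ^ (e + 1)) ∧
      Y (0, om 0) ∈ Metric.ball (((a, 0), wT) : En d) r ∧
      (∀ j, IsOpen (W j)) ∧
      (∀ j ≤ nb e, ∀ᶠ z in 𝓝 ((0, om 0) : En d), S j z ∈ W j) ∧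
      (∃ O ∈ 𝓝 (Y (0, om 0)), ∀ j, 0 < j → j < nb e → ∀ z ∈ W j, Y z ∉ O) ∧
      ∀ χ : En d → En d, AdmD D χ → (∀ v ∈ Metric.ball (((a, 0), wT) : En d) r, ∀ j, 0 < j → j < nb e →
        (∃ z ∈ W j, Y z = v) → PlD g s l (χ (Li v)) = v) →
        ∀ᶠ z in 𝓝 ((0, om 0) : En d),
          (∀ j, j + 1 < nb e → ((χ ∘ ψ) ∘ g)^[K] (s.κ Sy.P (Y (S j z))) = s.κ Sy.P (Y (S (j + 1) z))) ∧
          ((χ ∘ ψ) ∘ g)^[K] (s.κ Sy.P (Y (S (nb e - 1) z))) =
            s.κ Sy.P (PlD g s l (χ (Li (Y (S (nb e) z))))) ∧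
          ∀ j < nb e, ∀ i ≤ K, ((χ ∘ ψ) ∘ g)^[i] (s.κ Sy.P (Y (S j z))) ∈ VOD d ∪ Z := by
  obtain ⟨f, rf, hf⟩ := exists_PFD hs
  have hsm : SmPFD f := hf.toSmPFD
  have hdS : 0 < dSD g s := hs.sdata.d_pos
  have hjS : 0 < pjac (SSD g s) 0 := hs.sdata.pj_pos
  have hY10 : 0 < f.Y1 (0, 0) := by
    rw [hf.Y10]
    exact div_pos hjS hdS
  have hrF := hF.r_pos
  have hr := hp.r_pos
  -- the constants
  obtain ⟨h0, hh0def⟩ : ∃ h0, h0 = deriv (fun U => A ((0, U), 0)) 0 := ⟨_, rfl⟩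
  have hneg : h0 * Mh ((0, 0), ((0, 0), 0)) < 0 := by
    rw [hh0def]
    exact hF.neg
  have hh0 : h0 ≠ 0 := by
    intro h
    rw [h, zero_mul] at hneg
    exact lt_irrefl _ hneg
  have hh0a : 0 < |h0| := abs_pos.2 hh0
  have hneg2 : f.Y1 (0, 0) * (h0 * Mh ((0, 0), ((0, 0), 0))) < 0 := mul_neg_of_pos_of_neg hY10 hneg
  obtain ⟨B0, hB0⟩ : ∃ B0, B0 = -1 / (f.Y1 (0, 0) * (h0 * Mh ((0, 0), ((0, 0), 0)))) := ⟨_, rfl⟩
  have hB0pos : 0 < B0 := by
    rw [hB0]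
    exact div_pos_of_neg_of_neg (by norm_num) hneg2
  have hB : B0 * f.Y1 (0, 0) * h0 * Mh ((0, 0), ((0, 0), 0)) = -1 := by
    have h1 : B0 * (f.Y1 (0, 0) * (h0 * Mh ((0, 0), ((0, 0), 0)))) = -1 := by
      rw [hB0]
      exact div_mul_cancel₀ _ (ne_of_lt hneg2)
    linarith [h1, mul_assoc (B0 * f.Y1 (0, 0)) h0 (Mh ((0, 0), ((0, 0), 0))),
      mul_assoc B0 (f.Y1 (0, 0)) (h0 * Mh ((0, 0), ((0, 0), 0)))]
  obtain ⟨c0, hc0⟩ : ∃ c0, c0 = B0 * f.Y1 (0, 0) * a * Mh ((0, 0), ((0, 0), 0)) := ⟨_, rfl⟩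
  obtain ⟨τ, hτ⟩ : ∃ τ, τ = B0 * f.Y1 (0, 0) * a * deriv (fun U => Mh ((0, 0), ((0, U), 0))) 0 :=
    ⟨_, rfl⟩
  obtain ⟨s0, hs0⟩ : ∃ s0, s0 = deriv (fun U => Real.log (hGD A Mh U)) 0 := ⟨_, rfl⟩
  have hs0ne : s0 ≠ 0 := by
    rw [hs0]
    exact hne
  obtain ⟨c, hc⟩ : ∃ c, c = deriv (fun U => Aw ((0, U), 0)) 0 := ⟨_, rfl⟩
  -- the radii
  obtain ⟨rB, hrB, hBB⟩ := Metric.mem_nhds_iff.1 hp.nhB
  obtain ⟨N1, hN1⟩ : ∃ N1 : ℝ, N1 = (nb e : ℝ) + 1 := ⟨_, rfl⟩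
  have hNpos : (0 : ℝ) ≤ (nb e : ℝ) := Nat.cast_nonneg _
  have hN1pos : 0 < N1 := by rw [hN1]; linarith
  have hhN : 0 < |h0| * N1 := mul_pos hh0a hN1pos
  have hb1 : 0 < 1 - |b| := by linarith
  have hcN : 0 < ‖c‖ * nb e + 1 := by positivity
  obtain ⟨ρ1, hρ1def⟩ : ∃ ρ1 : ℝ, ρ1 = min (min (r / 2 / (|h0| * N1)) (rF / (|h0| * N1)))
      (min (min ((1 - |b|) / N1) (r / 4 / (‖c‖ * nb e + 1))) (min (rB / N1) (rF / N1))) := ⟨_, rfl⟩
  have hρ1 : 0 < ρ1 := by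
    rw [hρ1def]
    refine lt_min (lt_min ?_ ?_) (lt_min (lt_min ?_ ?_) (lt_min ?_ ?_))
    · exact div_pos (by linarith) hhN
    · exact div_pos hrF hhN
    · exact div_pos hb1 hN1pos
    · exact div_pos (by linarith) hcN
    · exact div_pos hrB hN1pos
    · exact div_pos hrF hN1pos
  have hBlk := blkD_of (f := f) hsm hF.smA hF.smAw hF.smM hF.smMw hF.A0 hF.Aw0 a b B0 (dSD g s) wT
  obtain ⟨ρ, hρ0, hρlt, η, hη, Hloc⟩ := stageII_localD he hBlk hh0def hB hc0 hτ hs0 hs0ne hc hρ1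
  rw [hρ1def] at hρlt
  obtain ⟨hρa, hρb⟩ := lt_min_iff.1 hρlt
  obtain ⟨hρa1, hρa2⟩ := lt_min_iff.1 hρa
  obtain ⟨hρb1, hρb2⟩ := lt_min_iff.1 hρb
  obtain ⟨hρb1, hρc⟩ := lt_min_iff.1 hρb1
  obtain ⟨hρb2, hρb3⟩ := lt_min_iff.1 hρb2
  have hA1 : ρ * |h0| * N1 < r / 2 := by
    have := (lt_div_iff₀ hhN).1 hρa1
    rw [mul_assoc]
    exact this
  have hA2 : ρ * |h0| * N1 < rF := by
    have := (lt_div_iff₀ hhN).1 hρa2
    rw [mul_assoc]
    exact this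
  have hA3 : ρ * N1 < 1 - |b| := (lt_div_iff₀ hN1pos).1 hρb1
  have hA4 : ρ * N1 < rB := (lt_div_iff₀ hN1pos).1 hρb2
  have hA5 : ρ * N1 < rF := (lt_div_iff₀ hN1pos).1 hρb3
  have hA6 : ρ * (‖c‖ * nb e + 1) < r / 4 := (lt_div_iff₀ hcN).1 hρc
  have hρh : 0 < ρ * |h0| := mul_pos hρ0 hh0a
  -- the family of perturbations
  obtain ⟨r1, hr1, Hfam⟩ := family_SD hp hsm.smTh hF.smN hF.r_pos hF.N0 e (hs := h0) (c0 := c0)
    (τ := τ) (ρ := ρ) hh0 hρ0 (by rw [← hN1]; exact hA1) (by rw [← hN1]; exact hA2) R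
  obtain ⟨εU, hεU, HU⟩ := hU g hg
  obtain ⟨δp, hδp, Hp⟩ := Metric.eventually_nhds_iff.1 (Hfam εU hεU)
  obtain ⟨δ, hδ, Hstep⟩ := stepD (hs' := h0) (c0 := c0) (τ := τ) (ρ := ρ) (B0 := B0)
    hN hs hZ hp hf hF e
  have Htube := dz27_tube (a := a) (b := b) (B0 := B0) (dS := dSD g s) (rF := rF) (rB := rB)
    (ρU := ρ * N1) (ρX := ρ * |h0| * N1) (r1 := r1) hsm hF.smN hF.smM hF.smMw hr1 hrF
    hA4 hA5 hA2 hF.N0
  -- the choice of `n, m`
  obtain ⟨n, m, -, -, hBBt, he1, he2, he4, hxi, hEE, hmu, hW7⟩ := exists_nmD hs hB0pos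
  have hεt := epsD_tendsto hBBt he1 he2 he4 hxi hEE hW7
  have hminv : Tendsto (fun j => (s.mu Sy.P ^ (n j))⁻¹) atTop (𝓝 0) :=
    tendsto_inv_atTop_zero.comp hmu
  have hev1 : ∀ c' > (0 : ℝ), ∀ᶠ j in atTop, ‖epsD g s B0 (n j) (m j)‖ < c' := by
    intro c' hc'
    have h := hεt.norm
    rw [norm_zero] at h
    exact h.eventually_lt tendsto_const_nhds hc'
  have hev2 : ∀ᶠ j in atTop, |(s.mu Sy.P ^ (n j))⁻¹| < δp := by
    have h := hminv.abs
    rw [abs_zero] at h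
    exact h.eventually_lt tendsto_const_nhds hδp
  obtain ⟨i, hi1, hi2, hi3, hi4, hi5, hi6⟩ := ((hev1 η hη).and ((hεt.eventually Htube).and
    ((hev1 δ hδ).and ((hev1 δp hδp).and (hev2.and
    (hEE.eventually (eventually_gt_atTop 0))))))).exists
  obtain ⟨nn, hnn⟩ : ∃ nn, nn = n i := ⟨_, rfl⟩
  obtain ⟨mm, hmm⟩ : ∃ mm, mm = m i := ⟨_, rfl⟩
  rw [← hnn, ← hmm] at hi1 hi2 hi3 hi4 hi6
  rw [← hnn] at hi5
  obtain ⟨ε, hεdef⟩ : ∃ ε, ε = epsD g s B0 nn mm := ⟨_, rfl⟩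
  obtain ⟨q, hq, om, φ, hom, hφ, hslice, hO, hclose⟩ := Hloc ε (by rw [hεdef]; exact hi1)
  -- the perturbation
  obtain ⟨ψ, hψs, hψ, hψfam⟩ := @Hp (parS g s e nn mm q) (by
      rw [dist_zero_right]
      exact dz27_parS hi4 hi5 hq)
  have hE0 : EED g s nn mm ≠ 0 := ne_of_gt hi6
  obtain ⟨Yi0, hYs, hYis, hYi1, hYi2⟩ := dz27_coords (g := g) (s := s) hsm.smTh b nn mm hE0
  obtain ⟨zi, hzs, hzis, hz1, hz2⟩ := dz27_zoom e a hh0 hρ0.ne' wT c 0
  -- the objects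
  obtain ⟨T, hT⟩ : ∃ T : ℕ → En d → En d, T = fun j => stoD (bXD f a b B0 (dSD g s) A)
      (bUD f b B0 (dSD g s) Mh Mw) (bWD f b B0 (dSD g s) wT Aw) (Qj e a h0 c0 τ ρ q) ε j := ⟨_, rfl⟩
  have hT1 : ∀ j v, T (j + 1) v = stpD (bXD f a b B0 (dSD g s) A)
      (bUD f b B0 (dSD g s) Mh Mw) (bWD f b B0 (dSD g s) wT Aw) (Qj e a h0 c0 τ ρ q) ε j (T j v) := by
    intro j v
    rw [hT]
    rfl
  have hTsm : ∀ j, ContDiff ℝ ∞ (T j) := by
    intro j
    rw [hT]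
    exact dz27_contDiff_sto hBlk.smX hBlk.smU hBlk.smW e a h0 c0 τ ρ q ε j
  have hT0 : ∀ v, T 0 v = v := by
    intro v
    rw [hT]
    rfl
  obtain ⟨zm, hzm⟩ : ∃ zm : En d → En d, zm = zmD e a h0 ρ wT c 0 := ⟨_, rfl⟩
  rw [← hzm] at hzs
  have hz1' : ∀ z, zi (zm z) = z := fun z => by rw [hzm]; exact hz1 z
  have hz2' : ∀ v, zm (zi v) = v := fun v => by rw [hzm]; exact hz2 v
  obtain ⟨W', hW'⟩ : ∃ W' : ℕ → Set (En d), W' = dz27_W e a h0 ρ wT c := ⟨_, rfl⟩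
  have hWo : ∀ j, IsOpen (W' j) := fun j => by rw [hW']; exact dz27_W_open _ _ _ _ _ _ _
  have hWb : ∀ j v, v ∈ W' j → |v.1.1 - a| ≤ ρ * |h0| * N1 ∧ |v.1.2| ≤ ρ * N1 ∧
      ‖v.2 - wT‖ ≤ ρ * (‖c‖ * nb e + 1) := by
    intro j v hv
    rw [hW'] at hv
    rw [hN1]
    exact dz27_W_bound hρ0 hv
  have hWX : ∀ j v, v ∈ W' j → |v.1.1| ≤ 1 := by
    intro j v hv
    have h1 := (hWb j v hv).1
    have h2 := hp.r_lt
    have h3 : |v.1.1| ≤ |v.1.1 - a| + |a| := by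
      have := abs_add_le (v.1.1 - a) a
      rwa [sub_add_cancel] at this
    linarith
  have hWU : ∀ j v, v ∈ W' j → |v.1.2 + b| ≤ 1 := by
    intro j v hv
    have h1 := (hWb j v hv).2.1
    have h3 := abs_add_le v.1.2 b
    linarith
  have hWw : ∀ j v, v ∈ W' j → ‖v.2‖ ≤ 1 := by
    intro j v hv
    have h1 := (hWb j v hv).2.2
    have h2 := hp.r_ltw
    have h3 : ‖v.2‖ ≤ ‖v.2 - wT‖ + ‖wT‖ := by
      have := norm_add_le (v.2 - wT) wT
      rwa [sub_add_cancel] at this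
    linarith
  obtain ⟨V0, hV0⟩ : ∃ V0 : En d, V0 = (0, om 0) := ⟨_, rfl⟩
  have hTW0 : ∀ j ≤ nb e, T j (zm V0) ∈ W' j := by
    intro j hj
    obtain ⟨z, hz, hz'⟩ := hclose j hj
    rw [hT, hzm, hV0, hW']
    show stoD _ _ _ _ _ _ _ ∈ _
    rw [hz']
    exact dz27_zm_mem hh0 hρ0 hz
  have hTW : ∀ j ≤ nb e, ∀ᶠ z in 𝓝 V0, T j (zm z) ∈ W' j := by
    intro j hj
    exact ((hTsm j).continuous.comp hzs.continuous).continuousAt.eventually
      ((hWo j).mem_nhds (hTW0 j hj))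
  -- one step
  have hone : ∀ χ, AdmD D χ → ∀ j < nb e, ∀ v, T j v ∈ W' j → T (j + 1) v ∈ W' (j + 1) →
      ((χ ∘ ψ) ∘ g)^[nn + s.kS + mm + (k + 1 + l)] (s.κ Sy.P (YcD g s f b nn mm (T j v))) =
        s.κ Sy.P (PlD g s l (χ (Li (YcD g s f b nn mm (T (j + 1) v))))) ∧
      YcD g s f b nn mm (T (j + 1) v) ∈ Metric.ball (((a, 0), wT) : En d) r ∧
      ∀ i ≤ nn + s.kS + mm + (k + 1 + l),
        ((χ ∘ ψ) ∘ g)^[i] (s.κ Sy.P (YcD g s f b nn mm (T j v))) ∈ VOD d ∪ Z := by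
    intro χ hχ j hj v hVj hVj1
    have hbX : (T (j + 1) v).1.1 = bXD f a b B0 (dSD g s) A (ε, T j v) := by
      rw [hT1]
      rfl
    have hbW : (T (j + 1) v).2 = bWD f b B0 (dSD g s) wT Aw (ε, T j v) := by
      rw [hT1]
      rfl
    have hX := (hWb _ _ hVj1).1
    have hTb := hi2 (T j v) (hWX _ _ hVj) (hWb _ _ hVj).2.1 (hWw _ _ hVj) (T (j + 1) v).1.1 hX
    rw [← hεdef] at hTb
    obtain ⟨t1, t2, t3, t4, t5, t6, t7⟩ := hTb
    have hst := Hstep nn mm hi3 q j (T j v) ψ χ hψ hχ (hWX _ _ hVj) (hWU _ _ hVj) (hWw _ _ hVj)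
    rw [← hεdef, ← hT1] at hst
    refine hst ?_ t2 t3 t4 t5 t6 ?_
    · apply hBB
      rw [Metric.mem_ball, dist_zero_right]
      exact t1
    · intro v' hv1 hv2 hv3
      refine (hψfam j hj v' ?_ ?_ ?_).2
      · rw [hv1, ← hbX]
        have h9 := hVj1
        rw [hW'] at h9
        exact h9.1.le
      · rw [hv2, ← hbX]
        exact t7.le
      · rw [hv3, ← hbW]
        exact (hWb _ _ hVj1).2.2.trans hA6.le
  have hNe : 0 < nb e := by unfold nb; omega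
  have hNe1 : nb e - 1 + 1 = nb e := by omega
  have hidA : AdmD D id := ⟨fun w _ => rfl, fun w hw => hw⟩
  have hφ0 : φ 0 = 0 := by
    have h2 := hO.eq_zero_imp.self_of_nhds
    have h3 : φ 0 - 0 = 0 := by
      apply h2
      rw [norm_zero, zero_pow (Nat.succ_ne_zero e)]
    exact sub_eq_zero.1 h3
  have hTN : T (nb e) (zm V0) = zm V0 := by
    have h1 := hslice.self_of_nhds
    rw [hT, hzm, hV0]
    rw [hφ0] at h1
    exact h1
  have hYball : YcD g s f b nn mm (zm V0) ∈ Metric.ball (((a, 0), wT) : En d) r := by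
    have h3 := hone id hidA (nb e - 1) (by omega) (zm V0) (hTW0 _ (by omega))
      (by rw [hNe1]; exact hTW0 _ le_rfl)
    rw [hNe1, hTN] at h3
    exact h3.2.1
  have hYS : ∀ j z, YcD g s f b nn mm (zm (zi (T j (zm z)))) = YcD g s f b nn mm (T j (zm z)) := by
    intro j z
    rw [hz2']
  refine ⟨ψ, nn + s.kS + mm + (k + 1 + l), fun z => YcD g s f b nn mm (zm z), fun v => zi (Yi0 v),
    fun j z => zi (T j (zm z)), om, φ, fun j => zm ⁻¹' (W' j), HU ψ hψs, hψ, by omega,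
    ⟨hYs.comp hzs, hzis.comp hYis, fun z => ?_, fun v => ?_⟩, fun j => hzis.comp ((hTsm j).comp hzs),
    ?_, hom, hφ, ?_, hO, ?_, fun j => (hWo j).preimage hzs.continuous, ?_, ?_, ?_⟩
  · show zi (Yi0 (YcD g s f b nn mm (zm z))) = z
    rw [hYi1, hz1']
  · show YcD g s f b nn mm (zm (zi (Yi0 v))) = v
    rw [hz2', hYi2]
  · funext z
    show zi (T 0 (zm z)) = z
    rw [hT0, hz1']
  · filter_upwards [hslice] with v hv
    show zi (T (nb e) (zm (v, om v))) = _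
    rw [hT, hzm]
    show zi (stoD _ _ _ _ _ _ _) = _
    rw [hv]
    exact hz1 _
  · rw [← hV0]
    exact hYball
  · intro j hj
    rw [← hV0]
    filter_upwards [hTW j hj] with z hz
    show zm (zi (T j (zm z))) ∈ W' j
    rw [hz2']
    exact hz
  · refine ⟨{v : En d | |v.1.1 - (zm V0).1.1| < ρ * |h0| / 5}, ?_, ?_⟩
    · refine (isOpen_lt (by fun_prop) continuous_const).mem_nhds ?_
      show |(zm (0, om 0)).1.1 - (zm V0).1.1| < ρ * |h0| / 5
      rw [← hV0, sub_self, abs_zero]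
      linarith
    · intro j hj0 hjN z hz hzO
      have h1 : |(zm z).1.1 - (zm V0).1.1| < ρ * |h0| / 5 := hzO
      have hz' : zm z ∈ W' j := hz
      rw [hW'] at hz'
      have h2 := hz'.1
      have hX0 : (zm V0).1.1 = a + ρ * h0 * dj e 0 := by
        rw [hzm, hV0]
        show a + ρ * h0 * (dj e 0 + 0) = _
        rw [add_zero]
      have h3 : 1 ≤ |dj e j - dj e 0| := by
        apply dj_sep
        rw [Nat.mod_eq_of_lt hjN, Nat.zero_mod]
        omega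
      have h4 : ρ * |h0| * |dj e j - dj e 0| = |(a + ρ * h0 * dj e j) - (zm V0).1.1| := by
        have h5 : (a + ρ * h0 * dj e j) - (zm V0).1.1 = ρ * h0 * (dj e j - dj e 0) := by
          rw [hX0]
          ring
        rw [h5, abs_mul, abs_mul, abs_of_pos hρ0]
      have h5 : |(a + ρ * h0 * dj e j) - (zm V0).1.1| ≤
          |(zm z).1.1 - (zm V0).1.1| + |(zm z).1.1 - (a + ρ * h0 * dj e j)| := by
        have := abs_sub_le (a + ρ * h0 * dj e j) (zm z).1.1 (zm V0).1.1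
        rw [abs_sub_comm (a + ρ * h0 * dj e j) (zm z).1.1] at this
        linarith
      have h6 : ρ * |h0| * 1 ≤ ρ * |h0| * |dj e j - dj e 0| :=
        mul_le_mul_of_nonneg_left h3 hρh.le
      linarith
  · intro χ hχ hχt
    rw [← hV0]
    have hall : ∀ᶠ z in 𝓝 V0, ∀ j ∈ Finset.range (nb e + 1), T j (zm z) ∈ W' j := by
      rw [Filter.eventually_all_finset]
      intro j hj
      exact hTW j (by
        have := Finset.mem_range.1 hj
        omega)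
    filter_upwards [hall] with z hz
    have hz' : ∀ j ≤ nb e, T j (zm z) ∈ W' j := fun j hj => hz j (Finset.mem_range.2 (by omega))
    refine ⟨?_, ?_, ?_⟩
    · intro j hj
      show ((χ ∘ ψ) ∘ g)^[_] (s.κ Sy.P (YcD g s f b nn mm (zm (zi (T j (zm z)))))) =
        s.κ Sy.P (YcD g s f b nn mm (zm (zi (T (j + 1) (zm z)))))
      rw [hYS, hYS]
      have h1 := hone χ hχ j (by omega) (zm z) (hz' j (by omega)) (hz' (j + 1) (by omega))
      rw [h1.1, hχt _ h1.2.1 (j + 1) (by omega) hj ⟨zi (T (j + 1) (zm z)), ?_, ?_⟩]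
      · show zm (zi (T (j + 1) (zm z))) ∈ W' (j + 1)
        rw [hz2']
        exact hz' (j + 1) (by omega)
      · exact hYS _ _
    · show ((χ ∘ ψ) ∘ g)^[_] (s.κ Sy.P (YcD g s f b nn mm (zm (zi (T (nb e - 1) (zm z)))))) =
        s.κ Sy.P (PlD g s l (χ (Li (YcD g s f b nn mm (zm (zi (T (nb e) (zm z))))))))
      rw [hYS, hYS]
      have h1 := hone χ hχ (nb e - 1) (by omega) (zm z) (hz' _ (by omega))
        (by rw [hNe1]; exact hz' _ le_rfl)
      rw [hNe1] at h1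
      exact h1.1
    · intro j hj i hi
      show ((χ ∘ ψ) ∘ g)^[_] (s.κ Sy.P (YcD g s f b nn mm (zm (zi (T j (zm z)))))) ∈ _
      rw [hYS]
      exact (hone χ hχ j hj (zm z) (hz' j hj.le) (hz' (j + 1) (by omega))).2.2 i hi

end Pool.Agent.Lib.H37D
end

-- from Lib.H37D.DZ28
section

/-! # H37D, chunk DZ28 (M): the centre disc (port of H37P/Z28.lean) -/

open Set Filter Topology Asymptotics
open scoped ContDiff

namespace Pool.Agent.Lib.H37D

open Pool.Agent.Lib.H37N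

variable {d : ℕ}

/-- The return map in the new coordinates is flat.

PROOF. Word for word `z28_ret` (H37P/Z28.lean) with En d. -/
theorem dz28_ret {Y Yi S : En d → En d} {V0 : En d} {m : ℕ} (hY : ContDiff ℝ ∞ Y) (hYi : ContDiff ℝ ∞ Yi)
    (h1 : ∀ V, Yi (Y V) = V) (h2 : ∀ v, Y (Yi v) = v) (hS : ContDiff ℝ ∞ S) (hS0 : S V0 = V0)
    (hO : (fun V : En d => S V - V) =O[𝓝 V0] (fun V => ‖V - V0‖ ^ m)) :
    (fun v : En d => Y (S (Yi v)) - v) =O[𝓝 (Y V0)] (fun v => ‖v - Y V0‖ ^ m) := by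
  have hYs : HasStrictFDerivAt Y (fderiv ℝ Y V0) V0 :=
    hY.contDiffAt.hasStrictFDerivAt (by simp)
  have hYis : HasStrictFDerivAt Yi (fderiv ℝ Yi (Y V0)) (Y V0) :=
    hYi.contDiffAt.hasStrictFDerivAt (by simp)
  have hA : (fun V : En d => Y (S V) - Y V) =O[𝓝 V0] (fun V => S V - V) := by
    have ht : Tendsto (fun V : En d => (S V, V)) (𝓝 V0) (𝓝 (V0, V0)) := by
      have := (hS.continuous.prodMk continuous_id).tendsto V0
      simpa only [id, hS0] using this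
    exact hYs.isBigO_sub.comp_tendsto ht
  have hB : (fun V : En d => Y (S V) - Y V) =O[𝓝 V0] (fun V => ‖V - V0‖ ^ m) := hA.trans hO
  have ht2 : Tendsto Yi (𝓝 (Y V0)) (𝓝 V0) := by
    have := hYi.continuous.tendsto (Y V0)
    rwa [h1] at this
  have hC : (fun v : En d => Y (S (Yi v)) - v) =O[𝓝 (Y V0)] (fun v => ‖Yi v - V0‖ ^ m) := by
    have := hB.comp_tendsto ht2
    refine this.congr_left fun v => ?_
    simp only [Function.comp_apply, h2]
  have hD : (fun v : En d => Yi v - V0) =O[𝓝 (Y V0)] (fun v => v - Y V0) := by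
    have := hYis.hasFDerivAt.isBigO_sub
    simpa only [h1] using this
  exact hC.trans ((hD.norm_norm).pow m)

/-- A centre disc.

PROOF. e = R + 1.  `realizeD` gives ψ, K, Y, Yi, S, om, φ, W; φ 0 = 0 (the O-estimate at 0, as in `spot_of_flat`).  `z28_inv` for φ (m = R + 2 > 1): G : Pt → Pt smooth, G (φ v) = v near 0, G v - v = O(‖v‖^(R+2)),
G 0 = 0.  Ξ z = (G z.1, z.2) : smooth, Ξ (0, om 0) = (0, om 0), Ξ z - z = (G z.1 - z.1, 0) = O(‖z - (0, om 0)‖^(R+2)) (|z.1| ≤ ‖z - (0, om 0)‖).  Gh = Y ∘ Ξ ∘ Yi: `dz28_ret` (S = Ξ).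
`PlaceD.flat` (DP06) at v0 = Y (0, om 0) with O from `realizeD` gives χ, SmallD R ε1 χ, ε1 from `hU (ψ ∘ g)`; χ ∘ ψ ∘ g ∈ U; χ acts trivially on Y (W j), 0 < j < nb e.  G' = (χ ∘ ψ) ∘ g.
ι v = κP (Y (v, om v)) (smooth: `(hs.chart Sy.P).smooth`).  For v near 0: G'^[j K] (ι v) = κP (Y (S j (v, om v))) for j < nb e, G'^[nb e * K] (ι v) = κP (PlD (χ (Li (Y (S (nb e) (v, om v)))))) =
κP (Gh (Y (φ v, om v))) (Y (S (nb e) (v, om v)) tends to v0 as v → 0) = κP (Y (Ξ (φ v, om v))) = κP (Y (v, om v)) = ι v.  The orbits are in VOD d ∪ Z ⊆ Omd d (`VOD_sub_Omd`, `interior_FFd_sub_Omd`); i = i % K + (i / K) * K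
as in H37P/Z28.lean.  fderiv ι 0 is injective: (Yi (c P (ι v))).1 = v for v near 0 (`(hs.chart Sy.P).left`, Y (0, om 0) is in the ball of radius r around ((a,0),wT), r_lt, r_ltw, so in the interior of BxD d), so the derivative of the
smooth map (Prod.fst ∘ Yi ∘ c P) composed with fderiv ι 0 is the identity. -/
theorem disc_of_flatD {R : ℕ} {U : Set (En d → En d)} (hU : PertOpenD R U)
    {g : En d → En d} (hg : g ∈ U) {s : FrD d} {Z : Set (En d)} {b a : ℝ} {wT : Wd d} {k l : ℕ} {r : ℝ}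
    {D B : Set (En d)} {Li : En d → En d} (hN : NearS g) (hs : IsFrD g s) (hZ : Z ⊆ interior (FFd d))
    (hb : |b| < 1) (hp : PlaceD g s Z b a wT k l r D B Li)
    {A : En d → ℝ} {Aw : En d → Wd d} {Nn : (ℝ × Wd d) × ℝ → ℝ} {Mh : (ℝ × Wd d) × En d → ℝ}
    {Mw : (ℝ × Wd d) × En d → (Wd d →L[ℝ] ℝ)} {rF : ℝ} (hF : FlatD g s b a wT k l A Aw Nn Mh Mw rF)
    (hne : deriv (fun U => Real.log (hGD A Mh U)) 0 ≠ 0) : ∃ g' ∈ U, CDisc g' := by
  obtain ⟨ψ, K, Y, Yi, S, om, φ, W, hψU, hψ, hK, ⟨hY, hYi, hYY, hYY'⟩, hS, hS0, hom, hφ, hSN, hφO,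
    hball, hWo, hSW, ⟨O, hOn, hOd⟩, hmain⟩ :=
    realizeD (e := R + 1) (by omega) hU hg hN hs hZ hb hp hF hne
  set N := nb (R + 1) with hNdef
  have hNpos : 0 < N := by
    rw [hNdef]
    unfold nb
    omega
  have hφ0 : φ 0 = 0 := by
    obtain ⟨c, hc⟩ := hφO.bound
    have := hc.self_of_nhds
    simp only [sub_zero, norm_zero] at this
    rw [norm_pow, norm_zero, zero_pow (by omega), mul_zero] at this
    exact norm_le_zero_iff.1 this
  obtain ⟨Gi, hGi, hGi1, hGi2⟩ := z28_inv (m := R + 2) (v0 := (0 : Pt)) (by omega) hφ hφ0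
    (by simpa only [sub_zero] using hφO)
  have hGi0 : Gi 0 = 0 := by
    have := hGi1.self_of_nhds
    rwa [hφ0] at this
  set Xi : En d → En d := fun z => (Gi z.1, z.2) with hXi
  have hXis : ContDiff ℝ ∞ Xi := (hGi.comp contDiff_fst).prodMk contDiff_snd
  have hXi0 : Xi (0, om 0) = (0, om 0) := by
    simp only [hXi, hGi0]
  have hfst : Tendsto (fun z : En d => z.1) (𝓝 (0, om 0)) (𝓝 0) := continuous_fst.tendsto _
  have hXiO : (fun z : En d => Xi z - z) =O[𝓝 (0, om 0)] (fun z => ‖z - (0, om 0)‖ ^ (R + 2)) := by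
    have h1 : (fun z : En d => Xi z - z) =O[𝓝 (0, om 0)] (fun z => Gi z.1 - z.1) := by
      refine IsBigO.of_bound 1 (Eventually.of_forall fun z => ?_)
      have h2 : Xi z - z = (Gi z.1 - z.1, 0) := by
        simp only [hXi]
        refine Prod.ext ?_ ?_
        · simp
        · simp
      rw [h2, one_mul]
      refine (Prod.norm_def _).le.trans (max_le le_rfl ?_)
      simp
    have h3 : (fun z : En d => Gi z.1 - z.1) =O[𝓝 (0, om 0)] (fun z => ‖z.1 - 0‖ ^ (R + 2)) :=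
      hGi2.comp_tendsto hfst
    have h4 : (fun z : En d => z.1 - 0) =O[𝓝 ((0, om 0) : En d)] (fun z => z - (0, om 0)) := by
      refine IsBigO.of_bound 1 (Eventually.of_forall fun z => ?_)
      rw [one_mul]
      exact norm_fst_le (z - (0, om 0))
    exact (h1.trans h3).trans (h4.norm_norm.pow (R + 2))
  have hret := dz28_ret hY hYi hYY hYY' hXis hXi0 hXiO
  have hGhs : ContDiff ℝ ∞ (fun v => Y (Xi (Yi v))) := hY.comp (hXis.comp hYi)
  obtain ⟨ε1, hε1, hpert⟩ := hU (ψ ∘ g) hψU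
  obtain ⟨χ, hχs, hχA, hχ1, hχ2⟩ := hp.flat hball isOpen_univ (mem_univ _) hGhs.contDiffOn hret hε1 hOn
  have hev := hmain χ hχA (by
    rintro v hv j hj0 hjN ⟨V, hV, rfl⟩
    exact hχ2 _ hv (hOd j hj0 hjN V hV))
  have hmem : χ ∘ (ψ ∘ g) ∈ U := hpert χ hχs
  set G : En d → En d := (χ ∘ ψ) ∘ g with hG
  have hL := hs.chart Sy.P
  have hom' : Continuous fun v : Pt => ((v, om v) : En d) := continuous_id.prodMk hom.continuous
  have hvt : Tendsto (fun v : Pt => ((v, om v) : En d)) (𝓝 0) (𝓝 (0, om 0)) := hom'.tendsto 0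
  have hYφ : Tendsto (fun v : Pt => Y (φ v, om v)) (𝓝 0) (𝓝 (Y (0, om 0))) := by
    have h4 : Continuous (fun v : Pt => Y (φ v, om v)) :=
      hY.continuous.comp (hφ.continuous.prodMk hom.continuous)
    have h5 := h4.tendsto 0
    simp only [hφ0] at h5
    exact h5
  have hιs : ContDiff ℝ ∞ (fun v : Pt => s.κ Sy.P (Y (v, om v))) :=
    hL.smooth.comp (hY.comp (contDiff_id.prodMk hom))
  refine ⟨G, hmem, N * K, Nat.mul_pos hNpos hK, fun v => s.κ Sy.P (Y (v, om v)), hιs, ?_, ?_⟩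
  · -- injectivity of the derivative
    have hBx : Y (0, om 0) ∈ interior (BxD d) := by
      rw [IsOpen.interior_eq]
      · have h1 := mem_ball_iff_norm.1 hball
        have h2 : ‖(Y (0, om 0) - ((a, 0), wT)).1‖ < r := (norm_fst_le _).trans_lt h1
        have h3 : ‖(Y (0, om 0) - ((a, 0), wT)).2‖ < r := (norm_snd_le _).trans_lt h1
        have h4 : ‖(Y (0, om 0) - ((a, 0), wT)).1.1‖ < r := (norm_fst_le _).trans_lt h2
        have h5 : ‖(Y (0, om 0) - ((a, 0), wT)).1.2‖ < r := (norm_snd_le _).trans_lt h2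
        have h6 := hp.r_lt
        have h7 := hp.r_ltw
        have h8 : |(Y (0, om 0)).1.1 - a| < r := h4
        have h9 : |(Y (0, om 0)).1.2 - 0| < r := h5
        have h10 : ‖(Y (0, om 0)).2 - wT‖ < r := h3
        have h11 := abs_nonneg a
        have h12 := norm_nonneg wT
        refine ⟨b10_mem_Bx.2 ⟨?_, ?_⟩, mem_ball_zero_iff.2 ?_⟩
        · have := abs_sub_abs_le_abs_sub (Y (0, om 0)).1.1 a
          linarith
        · rw [sub_zero] at h9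
          linarith
        · have := norm_sub_norm_le (Y (0, om 0)).2 wT
          linarith
      · refine IsOpen.prod ?_ Metric.isOpen_ball
        have h1 : Pool.Agent.Lib.H37N.Bx = {z : Pt | |z.1| < 2 ∧ |z.2| < 2} := by
          ext z
          exact b10_mem_Bx
        rw [h1]
        exact (isOpen_lt (continuous_abs.comp continuous_fst) continuous_const).inter
          (isOpen_lt (continuous_abs.comp continuous_snd) continuous_const)
    have hYv : Tendsto (fun v : Pt => Y (v, om v)) (𝓝 0) (𝓝 (Y (0, om 0))) :=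
      (hY.continuous.tendsto _).comp hvt
    have hLi : ∀ᶠ v in 𝓝 (0 : Pt), (Yi (s.c Sy.P (s.κ Sy.P (Y (v, om v))))).1 = v := by
      filter_upwards [hYv.eventually (isOpen_interior.mem_nhds hBx)] with v hv
      rw [hL.left _ (interior_subset hv), hYY]
    have hLs : ContDiff ℝ ∞ (fun w : En d => (Yi (s.c Sy.P w)).1) :=
      contDiff_fst.comp (hYi.comp hL.smooth_c)
    have hd1 := (hιs.differentiable (by simp) 0).hasFDerivAt
    have hd2 := (hLs.differentiable (by simp) (s.κ Sy.P (Y (0, om 0)))).hasFDerivAt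
    have hd3 := hd2.comp (0 : Pt) hd1
    have hd4 : HasFDerivAt ((fun w : En d => (Yi (s.c Sy.P w)).1) ∘
        fun v : Pt => s.κ Sy.P (Y (v, om v))) (ContinuousLinearMap.id ℝ Pt) 0 := by
      refine (hasFDerivAt_id (𝕜 := ℝ) (0 : Pt)).congr_of_eventuallyEq ?_
      filter_upwards [hLi] with v hv
      exact hv
    have hd5 := hd3.unique hd4
    intro u w huw
    have h1 := congrArg (fun T : Pt →L[ℝ] Pt => T u) hd5
    have h2 := congrArg (fun T : Pt →L[ℝ] Pt => T w) hd5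
    simp only [ContinuousLinearMap.comp_apply, ContinuousLinearMap.id_apply] at h1 h2
    rw [← h1, ← h2, huw]
  · filter_upwards [hvt.eventually hev, hSN, hGi1, hYφ.eventually hχ1] with v h1 h2 h3 h4
    obtain ⟨hst, hlast, horb⟩ := h1
    have hiter : ∀ j, j < N → G^[j * K] (s.κ Sy.P (Y (v, om v))) =
        s.κ Sy.P (Y (S j (v, om v))) := by
      intro j
      induction j with
      | zero =>
        intro _
        rw [zero_mul, Function.iterate_zero, hS0]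
        rfl
      | succ j ih =>
        intro hj
        rw [Nat.succ_mul, Nat.add_comm, Function.iterate_add_apply, ih (by omega), hst j hj]
    constructor
    · intro i hi
      have hdiv : i / K < N := Nat.div_lt_of_lt_mul (by rwa [Nat.mul_comm] at hi)
      have hmod : i % K < K := Nat.mod_lt _ hK
      have he : i = i % K + i / K * K := by
        rw [Nat.mul_comm, Nat.mod_add_div]
      rw [he, Function.iterate_add_apply, hiter _ hdiv]
      rcases horb (i / K) hdiv (i % K) hmod.le with h | h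
      · exact VOD_sub_Omd h
      · exact interior_FFd_sub_Omd (hZ h)
    · have he : N * K = K + (N - 1) * K := by
        obtain ⟨N', hN'⟩ : ∃ N', N = N' + 1 := ⟨N - 1, by omega⟩
        rw [hN', Nat.add_sub_cancel]
        ring
      rw [he, Function.iterate_add_apply, hiter _ (by omega), hlast, h2, h4, hYY]
      simp only [hXi, h3]

end Pool.Agent.Lib.H37D
end
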