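import Pool.Agent.Lib.H1M.FF.M018
import Pool.Agent.Lib.H1M.FF.M033
import Pool.Agent.Lib.H1M.FF.M056

/-! Merged copies (to shorten the build) of Lib.H37D.A39. -/

-- from Lib.H37D.A39
section

/-!
# H37D A39 (size M, book-keeping): the stable leaves `Ss` of a near map: order, gaps

As `Lib/H37N/A39.lean`. Everything follows from `A12`, `A14`, `A15`, `A37` for the system `SV g` (`h.good_S`), whose second coordinate is trivial
(`LeC.of_fst`, `LtC.of_fst` in `AD2`); `Ss g b v h = (Sv g b v h).1`, `hS g v = gp (SV g) v.reverse (yc, 0)`, `(SV g).q = pw`.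
-/

open Set Filter Topology

namespace Pool.Agent.Lib.H37D

open Pool.Agent.Lib.H37N

variable {d : ℕ} {g : En d → En d}

theorem Sv_leaf (h : NearD g) (b : Sy) (v : List Sy) : (SV g).Leaf (Sv g b v) := by
  exact Gw_leaf h.good_S _ (fixL_leaf h.good_S b)

theorem Ss_leaf (h : NearD g) (b : Sy) (v : List Sy) : SLeaf (Ss g b v) := by
  exact (Sv_leaf h b v).sleaf


theorem Sv_append_self (h : NearD g) (i : Sy) (v : List Sy) : Sv g i (v ++ [i]) = Sv g i v := by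
  unfold Sv
  rw [List.reverse_append, List.reverse_singleton, List.singleton_append, Sys.Gw_cons, fixL_fix h.good_S]

theorem Ss_append_self (h : NearD g) (i : Sy) (v : List Sy) : Ss g i (v ++ [i]) = Ss g i v := by
  funext y
  unfold Ss
  rw [Sv_append_self h]

theorem a39_snoc (g : En d → En d) (b i : Sy) (v : List Sy) :
    Sv g b (v ++ [i]) = (SV g).Gw v.reverse ((SV g).GG i ((SV g).fixL b)) := by
  unfold Sv
  rw [List.reverse_append]
  rfl

theorem Ss_P_lt (h : NearD g) (v : List Sy) (y : ℝ × Wd d) :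
    Ss g Sy.P v y < Ss g Sy.Q (v ++ [Sy.P]) y := by
  have hc := h.good_S
  unfold Ss
  rw [a39_snoc]
  exact (Gw_strictMono hc _ (fixL_leaf hc _) (GG_leaf hc _ (fixL_leaf hc _)) (fixP_lt_GPQ hc) y).1

theorem Ss_mid_lt (h : NearD g) (v : List Sy) (y : ℝ × Wd d) :
    Ss g Sy.Q (v ++ [Sy.P]) y < Ss g Sy.P (v ++ [Sy.Q]) y := by
  have hc := h.good_S
  unfold Ss
  rw [a39_snoc, a39_snoc]
  exact (Gw_strictMono hc _ (GG_leaf hc _ (fixL_leaf hc _)) (GG_leaf hc _ (fixL_leaf hc _))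
    (GPQ_lt_GQP hc) y).1

theorem Ss_lt_Q (h : NearD g) (v : List Sy) (y : ℝ × Wd d) :
    Ss g Sy.P (v ++ [Sy.Q]) y < Ss g Sy.Q v y := by
  have hc := h.good_S
  unfold Ss
  rw [a39_snoc]
  exact (Gw_strictMono hc _ (GG_leaf hc _ (fixL_leaf hc _)) (fixL_leaf hc _) (GQP_lt_fixQ hc) y).1

theorem Ss_PQ_lt (h : NearD g) (v : List Sy) (y : ℝ × Wd d) : Ss g Sy.P v y < Ss g Sy.Q v y := by
  exact (Ss_P_lt h v y).trans ((Ss_mid_lt h v y).trans (Ss_lt_Q h v y))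



theorem hS_pos (h : NearD g) (v : List Sy) : 0 < hS g v := by
  exact gp_pos h.good_S v.reverse (yc, 0)

theorem Ss_full (h : NearD g) (v : List Sy) (y : ℝ × Wd d) :
    (1 - kap) * hS g v ≤ Ss g Sy.Q v y - Ss g Sy.P v y ∧
      Ss g Sy.Q v y - Ss g Sy.P v y ≤ (1 + kap) * hS g v := by
  exact gap_full h.good_S v.reverse y (yc, 0)

theorem Ss_gapP (h : NearD g) (v : List Sy) (y : ℝ × Wd d) :
    (pw Sy.P - kap) * hS g v ≤ Ss g Sy.Q (v ++ [Sy.P]) y - Ss g Sy.P v y ∧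
      Ss g Sy.Q (v ++ [Sy.P]) y - Ss g Sy.P v y ≤ (pw Sy.P + kap) * hS g v := by
  unfold Ss
  rw [a39_snoc]
  exact gap_P h.good_S v.reverse y (yc, 0)

theorem Ss_gapQ (h : NearD g) (v : List Sy) (y : ℝ × Wd d) :
    (pw Sy.Q - kap) * hS g v ≤ Ss g Sy.Q v y - Ss g Sy.P (v ++ [Sy.Q]) y ∧
      Ss g Sy.Q v y - Ss g Sy.P (v ++ [Sy.Q]) y ≤ (pw Sy.Q + kap) * hS g v := by
  unfold Ss
  rw [a39_snoc]
  exact gap_Q h.good_S v.reverse y (yc, 0)

theorem Ss_gapM (h : NearD g) (v : List Sy) (y : ℝ × Wd d) :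
    0 < Ss g Sy.P (v ++ [Sy.Q]) y - Ss g Sy.Q (v ++ [Sy.P]) y ∧
      Ss g Sy.P (v ++ [Sy.Q]) y - Ss g Sy.Q (v ++ [Sy.P]) y ≤ 2 * gam * hS g v := by
  unfold Ss
  rw [a39_snoc, a39_snoc]
  exact gap_mid h.good_S v.reverse y (yc, 0)

end Pool.Agent.Lib.H37D
end
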