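import Pool.Agent.Lib.H1M.FF.M025
import Pool.Agent.Lib.H1M.FF.M062
import Pool.Agent.Lib.H1M.FF.M063

/-! Merged copies (to shorten the build) of Lib.H37D.A61, Lib.H37D.A70, Lib.H37D.A81. -/

-- from Lib.H37D.A61
section

/-!
# H37D A61 (size S/M): the empty pair is Ok; size of `DD` between the leaves of a linked pair

As `Lib/H37N/A61.lean`.
-/

open Set Filter Topology

namespace Pool.Agent.Lib.H37D

open Pool.Agent.Lib.H37N

variable {d : ℕ} {g : En d → En d}

theorem a61_UP (h : NearD g) (x : ℝ) : |(Uu g Sy.P [] x).1| ≤ 6 * ee := fixL_P_val h.good_U x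
theorem a61_UQ (h : NearD g) (x : ℝ) : |(Uu g Sy.Q [] x).1 - 1| ≤ 6 * ee := fixL_Q_val h.good_U x
theorem a61_SP (h : NearD g) (x : ℝ × Wd d) : |Ss g Sy.P [] x| ≤ 6 * ee := fixL_P_val h.good_S x
theorem a61_SQ (h : NearD g) (x : ℝ × Wd d) : |Ss g Sy.Q [] x - 1| ≤ 6 * ee :=
  fixL_Q_val h.good_S x

/-- Proof. `Uu g b [] = (SU g).fixL b`, `Sv g b [] = (SV g).fixL b`; `fixL_P_val`, `fixL_Q_val` for `h.good_U`, `h.good_S`: the values are
within `6 ee` of `0` (`P`), `1` (`Q`). `DD_val`: `DD (U^Q, S^P) ≥ 3/4 - 10^-7 > 0`, `DD (U^P, S^Q) ≤ -3/4 + 10^-7 < 0`. `hU, hS` are within `12 ee` of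
`1`, so `rr` is within `0.01` of `1/2`. -/
theorem ok_nil (h : NearD g) : Ok g [] [] := by
  have u1 := abs_le.1 (a61_UP h xc)
  have u2 := abs_le.1 (a61_UQ h xc)
  have s1 := abs_le.1 (a61_SP h (yc, 0))
  have s2 := abs_le.1 (a61_SQ h (yc, 0))
  refine ⟨⟨?_, ?_⟩, ?_, ?_⟩
  · have := abs_le.1 (DD_val h (Uu_leaf h Sy.Q []) (Ss_leaf h Sy.P []))
    unfold ee cc at *
    linarith [this.1]
  · have := abs_le.1 (DD_val h (Uu_leaf h Sy.P []) (Ss_leaf h Sy.Q []))
    unfold ee cc at *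
    linarith [this.2]
  · unfold rr hU hS
    rw [le_div_iff₀ (by unfold ee at *; linarith)]
    unfold ee cc at *
    linarith
  · unfold rr hU hS
    rw [div_le_iff₀ (by unfold ee at *; linarith)]
    unfold ee cc at *
    linarith

/-- Proof as in the plane. -/
theorem DD_small (h : NearD g) {w v : List Sy} (hl : Linked g w v) {f : ℝ → ℝ × Wd d}
    {s : ℝ × Wd d → ℝ} (hf : ULeaf f) (hs : SLeaf s) (hf0 : ∀ x, LeC (Uu g Sy.P w) f x)
    (hf1 : ∀ x, LeC f (Uu g Sy.Q w) x) (hs0 : ∀ y, Ss g Sy.P v y ≤ s y)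
    (hs1 : ∀ y, s y ≤ Ss g Sy.Q v y) : |DD g f s| ≤ 3 * (hU g w + hS g v) := by
  have lUP := Uu_leaf h Sy.P w
  have lUQ := Uu_leaf h Sy.Q w
  have lSP := Ss_leaf h Sy.P v
  have lSQ := Ss_leaf h Sy.Q v
  have a1 : DD g (Uu g Sy.P w) (Ss g Sy.Q v) ≤ DD g f s :=
    (DD_le_s h lUP hs lSQ hs1).trans (DD_le_f h lUP hf hs fun x _ => hf0 x)
  have a2 : DD g f s ≤ DD g (Uu g Sy.Q w) (Ss g Sy.P v) :=
    (DD_le_f h hf lUQ hs fun x _ => hf1 x).trans (DD_le_s h lUQ lSP hs hs0)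
  have a3 := (DD_mono_f h lUP lUQ lSP (L := 0) (H := (1 + kap) * hU g w) le_rfl
    (fun x _ => (Uu_PQ_lt h w x).le)
    (fun x _ => (sub_pos.2 (Uu_PQ_lt h w x).1).le) (fun x _ => (Uu_full h w x).2)).2
  have a4 := (DD_mono_s h lUP lSP lSQ (L := 0) (H := (1 + kap) * hS g v)
    (fun y => (sub_pos.2 (Ss_PQ_lt h v y)).le) (fun y => (Ss_full h v y).2)).2
  have hu := hU_pos h w
  have hs' := hS_pos h v
  have h1 := hl.1
  have h2 := hl.2
  have h3 : (cc + 1 / 10 ^ 8) * ((1 + kap) * hU g w) ≤ 3 * hU g w := by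
    rw [← mul_assoc]
    exact mul_le_mul_of_nonneg_right (by norm_num [cc, kap]) hu.le
  have h4 : (1 + kap) * hS g v ≤ 3 * hS g v :=
    mul_le_mul_of_nonneg_right (by norm_num [kap]) hs'.le
  rw [abs_le]
  constructor <;> linarith

end Pool.Agent.Lib.H37D
end

-- from Lib.H37D.A70
section

/-!
# H37D A70 (size M): the two key inequalities and the branching of linked pairs

As `Lib/H37N/A70.lean` (same statements, same proofs; `DD_mono_f` has the additional hypothesis that the pairs of leaves are in cone order: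
`Uu_PQ_lt`, `Uu_mid_lt`, ... with `LtC.le`).
-/

open Set Filter Topology

namespace Pool.Agent.Lib.H37D

open Pool.Agent.Lib.H37N

variable {d : ℕ} {g : En d → En d}

theorem key_U (h : NearD g) {w v : List Sy} (hr : rr g w v ≤ 100) :
    DD g (Uu g Sy.P (Sy.Q :: w)) (Ss g Sy.Q v) < DD g (Uu g Sy.Q (Sy.P :: w)) (Ss g Sy.P v) := by
  have lU1 := Uu_leaf h Sy.P (Sy.Q :: w)
  have lU2 := Uu_leaf h Sy.Q (Sy.P :: w)
  have lS1 := Ss_leaf h Sy.P v
  have lS2 := Ss_leaf h Sy.Q v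
  have e1 := (DD_mono_s h lU1 lS1 lS2 (fun y => (Ss_full h v y).1) (fun y => (Ss_full h v y).2)).1
  have e2 := (DD_mono_f h lU2 lU1 lS1 (L := 0) (H := 2 * gam * hU g w) le_rfl
    (fun x _ => (Uu_mid_lt h w x).le)
    (fun x _ => (Uu_gapM h w x).1.le) (fun x _ => (Uu_gapM h w x).2)).2
  have hu := hU_pos h w
  have hs := hS_pos h v
  unfold rr at hr
  rw [div_le_iff₀ hs] at hr
  unfold cc gam kap at *
  linarith

theorem key_S (h : NearD g) {w v : List Sy} (hr : 1 / 100 ≤ rr g w v) :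
    DD g (Uu g Sy.P w) (Ss g Sy.Q (v ++ [Sy.P])) <
      DD g (Uu g Sy.Q w) (Ss g Sy.P (v ++ [Sy.Q])) := by
  have lU1 := Uu_leaf h Sy.P w
  have lU2 := Uu_leaf h Sy.Q w
  have lS1 := Ss_leaf h Sy.Q (v ++ [Sy.P])
  have lS2 := Ss_leaf h Sy.P (v ++ [Sy.Q])
  have hu := hU_pos h w
  have hs := hS_pos h v
  have e1 := (DD_mono_f h lU1 lU2 lS1 (L := (1 - kap) * hU g w)
    (mul_nonneg (by norm_num [kap]) hu.le) (fun x _ => (Uu_PQ_lt h w x).le)
    (fun x _ => (Uu_full h w x).1) (fun x _ => (Uu_full h w x).2)).1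
  have e2 := (DD_mono_s h lU2 lS1 lS2 (L := 0) (H := 2 * gam * hS g v)
    (fun y => (Ss_gapM h v y).1.le) (fun y => (Ss_gapM h v y).2)).2
  unfold rr at hr
  rw [le_div_iff₀ hs] at hr
  unfold cc gam kap at *
  linarith

theorem branch_U (h : NearD g) {w v : List Sy} (hl : Linked g w v) (hr : rr g w v ≤ 100) :
    ∃ i, Linked g (i :: w) v := by
  by_cases h0 : 0 ≤ DD g (Uu g Sy.Q (Sy.P :: w)) (Ss g Sy.P v)
  · refine ⟨Sy.P, h0, ?_⟩
    rw [Uu_cons_self h]
    exact hl.2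
  · refine ⟨Sy.Q, ?_, ?_⟩
    · rw [Uu_cons_self h]
      exact hl.1
    · exact ((key_U h hr).trans (not_le.1 h0)).le

theorem branch_S (h : NearD g) {w v : List Sy} (hl : Linked g w v) (hr : 1 / 100 ≤ rr g w v) :
    ∃ i, Linked g w (v ++ [i]) := by
  by_cases h0 : DD g (Uu g Sy.P w) (Ss g Sy.Q (v ++ [Sy.P])) ≤ 0
  · refine ⟨Sy.P, ?_, h0⟩
    rw [Ss_append_self h]
    exact hl.1
  · refine ⟨Sy.Q, ?_, ?_⟩
    · exact ((not_le.1 h0).trans (key_S h hr)).le
    · rw [Ss_append_self h]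
      exact hl.2

theorem hU_cons (h : NearD g) (i : Sy) (w : List Sy) :
    49 / 100 * hU g w ≤ hU g (i :: w) ∧ hU g (i :: w) ≤ 51 / 100 * hU g w := by
  have hu := hU_pos h w
  cases i with
  | P =>
    have e := Uu_gapP h w xc
    have e' : hU g (Sy.P :: w) = (Uu g Sy.Q (Sy.P :: w) xc).1 - (Uu g Sy.P w xc).1 := by
      unfold hU
      rw [Uu_cons_self h]
    rw [e']
    refine ⟨(mul_le_mul_of_nonneg_right ?_ hu.le).trans e.1,
      e.2.trans (mul_le_mul_of_nonneg_right ?_ hu.le)⟩ <;> norm_num [qw, kap]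
  | Q =>
    have e := Uu_gapQ h w xc
    have e' : hU g (Sy.Q :: w) = (Uu g Sy.Q w xc).1 - (Uu g Sy.P (Sy.Q :: w) xc).1 := by
      unfold hU
      rw [Uu_cons_self h]
    rw [e']
    refine ⟨(mul_le_mul_of_nonneg_right ?_ hu.le).trans e.1,
      e.2.trans (mul_le_mul_of_nonneg_right ?_ hu.le)⟩ <;> norm_num [qw, kap]

theorem hS_append (h : NearD g) (i : Sy) (v : List Sy) :
    1 / 5.4 * hS g v ≤ hS g (v ++ [i]) ∧ hS g (v ++ [i]) ≤ 81 / 100 * hS g v := by
  have hu := hS_pos h v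
  cases i with
  | P =>
    have e := Ss_gapP h v (yc, 0)
    have e' : hS g (v ++ [Sy.P]) = Ss g Sy.Q (v ++ [Sy.P]) (yc, 0) - Ss g Sy.P v (yc, 0) := by
      unfold hS
      rw [Ss_append_self h]
    rw [e']
    refine ⟨(mul_le_mul_of_nonneg_right ?_ hu.le).trans e.1,
      e.2.trans (mul_le_mul_of_nonneg_right ?_ hu.le)⟩ <;> norm_num [pw, kap]
  | Q =>
    have e := Ss_gapQ h v (yc, 0)
    have e' : hS g (v ++ [Sy.Q]) = Ss g Sy.Q v (yc, 0) - Ss g Sy.P (v ++ [Sy.Q]) (yc, 0) := by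
      unfold hS
      rw [Ss_append_self h]
    rw [e']
    refine ⟨(mul_le_mul_of_nonneg_right ?_ hu.le).trans e.1,
      e.2.trans (mul_le_mul_of_nonneg_right ?_ hu.le)⟩ <;> norm_num [pw, kap]

theorem both_linked (h : NearD g) {w v : List Sy} (hr : rr g w v ≤ 100)
    (h0 : DD g (Uu g Sy.Q (Sy.P :: w)) (Ss g Sy.P v) = 0) :
    Linked g (Sy.P :: w) v ∧ Linked g (Sy.Q :: w) v := by
  have lU := Uu_leaf h Sy.Q (Sy.P :: w)
  have lUP := Uu_leaf h Sy.P w
  have lUQ := Uu_leaf h Sy.Q w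
  have lSP := Ss_leaf h Sy.P v
  have lSQ := Ss_leaf h Sy.Q v
  refine ⟨⟨h0.ge, ?_⟩, ?_, ?_⟩
  · rw [Uu_cons_self h, ← h0]
    exact (DD_le_f h lUP lU lSQ fun x _ => (Uu_P_lt h w x).le).trans
      (DD_le_s h lU lSP lSQ fun y => (Ss_PQ_lt h v y).le)
  · rw [Uu_cons_self h, ← h0]
    exact DD_le_f h lU lUQ lSP fun x _ => ((Uu_mid_lt h w x).trans (Uu_lt_Q h w x)).le
  · rw [← h0]
    exact (key_U h hr).le

end Pool.Agent.Lib.H37D
end

-- from Lib.H37D.A81
section

/-!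
# H37D A81 (size S/M): deep linked pairs of comparable sizes

As `Lib/H37N/A81.lean` (same statements, same proofs).
-/

open Set Filter Topology

namespace Pool.Agent.Lib.H37D

open Pool.Agent.Lib.H37N

variable {d : ℕ} {g : En d → En d}

/-- one step. Proof. If `1 ≤ rr`: `branch_U`, new first letter, `rr' = rr * hU'/hU ∈ [.49 rr, .51 rr]` (`hU_cons`), and
`cc hU ≥ hS`, so `cc hU' + hS' ≤ cc hU + hS - .49 cc hU ≤ (1 - .245)(cc hU + hS)`. If `rr < 1`: `branch_S`, new last letter,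
`rr' ∈ [rr / .81, 5.4 rr]` (`hS_append`), `hS > cc hU`, `cc hU + hS' ≤ (cc hU + hS) - .19 hS ≤ (1 - .095)(cc hU + hS)`. -/
theorem depth_step (h : NearD g) {w v : List Sy} (hok : Ok g w v) :
    ∃ w' v', Linked g (w' ++ w) (v ++ v') ∧
      ((1 ≤ rr g w v ∧ 49 / 100 * rr g w v ≤ rr g (w' ++ w) (v ++ v') ∧
        rr g (w' ++ w) (v ++ v') ≤ 51 / 100 * rr g w v) ∨
       (rr g w v < 1 ∧ 12 / 10 * rr g w v ≤ rr g (w' ++ w) (v ++ v') ∧
        rr g (w' ++ w) (v ++ v') ≤ 54 / 10 * rr g w v)) ∧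
      cc * hU g (w' ++ w) + hS g (v ++ v') ≤ 92 / 100 * (cc * hU g w + hS g v) := by
  have ha : 0 < hU g w := hU_pos h w
  have hb : 0 < hS g v := hS_pos h v
  have hc : (0 : ℝ) < cc := by norm_num [cc]
  by_cases h1 : 1 ≤ rr g w v
  · obtain ⟨i, hi⟩ := branch_U h hok.1 hok.2.2
    obtain ⟨h2, h3⟩ := hU_cons h i w
    refine ⟨[i], [], ?_, Or.inl ⟨h1, ?_, ?_⟩, ?_⟩
    · simpa using hi
    · simp only [List.singleton_append, List.append_nil]
      unfold rr
      rw [← mul_div_assoc]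
      apply div_le_div_of_nonneg_right _ hb.le
      nlinarith
    · simp only [List.singleton_append, List.append_nil]
      unfold rr
      rw [← mul_div_assoc]
      apply div_le_div_of_nonneg_right _ hb.le
      nlinarith
    · simp only [List.singleton_append, List.append_nil]
      have h4 : hS g v ≤ cc * hU g w := by
        unfold rr at h1
        rwa [one_le_div hb] at h1
      nlinarith
  · have h1' : rr g w v < 1 := not_le.mp h1
    obtain ⟨i, hi⟩ := branch_S h hok.1 hok.2.1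
    obtain ⟨h2, h3⟩ := hS_append h i v
    have hb' : 0 < hS g (v ++ [i]) := hS_pos h _
    have hca : 0 < cc * hU g w := mul_pos hc ha
    refine ⟨[], [i], ?_, Or.inr ⟨h1', ?_, ?_⟩, ?_⟩
    · simpa using hi
    · simp only [List.nil_append]
      unfold rr
      rw [← mul_div_assoc, div_le_div_iff₀ hb hb']
      nlinarith
    · simp only [List.nil_append]
      unfold rr
      rw [← mul_div_assoc, div_le_div_iff₀ hb' hb]
      have h5 : hS g v ≤ 54 / 10 * hS g (v ++ [i]) := by linarith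
      nlinarith
    · simp only [List.nil_append]
      have h4 : cc * hU g w < hS g v := by
        unfold rr at h1'
        rwa [div_lt_one hb] at h1'
      linarith

/-- Proof. Induction on `K`, from `depth_step` (the invariant implies `Ok`): with
`min (49/100) ((6/5)^K / 100) ≤ rr ≤ max (54/10) (100 * (51/100)^K)`. Step: if `rr ≥ 1` then `rr' ≥ .49`,
`rr' ≤ .51 rr ≤ max (.51 * 5.4) (100 * .51^(K+1))`; if `rr < 1` then `rr' ≤ 5.4`, `rr' ≥ 1.2 rr ≥ min (1.2 * .49) (1.2^(K+1)/100)`. -/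
theorem depth_iter (h : NearD g) {w v : List Sy} (hok : Ok g w v) (K : ℕ) :
    ∃ w' v', Linked g (w' ++ w) (v ++ v') ∧
      min (49 / 100) ((6 / 5) ^ K / 100) ≤ rr g (w' ++ w) (v ++ v') ∧
      rr g (w' ++ w) (v ++ v') ≤ max (54 / 10) (100 * (51 / 100) ^ K) ∧
      cc * hU g (w' ++ w) + hS g (v ++ v') ≤ (92 / 100) ^ K * (cc * hU g w + hS g v) := by
  induction K with
  | zero =>
    refine ⟨[], [], ?_, ?_, ?_, ?_⟩
    · simpa using hok.1
    · simp only [List.nil_append, List.append_nil, pow_zero]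
      refine (min_le_right _ _).trans ?_
      have := hok.2.1
      linarith
    · simp only [List.nil_append, List.append_nil, pow_zero]
      refine le_trans ?_ (le_max_right _ _)
      have := hok.2.2
      linarith
    · simp
  | succ K ih =>
    obtain ⟨w1, v1, hl, hlo, hhi, hs⟩ := ih
    have hp1 : (1 : ℝ) ≤ (6 / 5) ^ K := one_le_pow₀ (by norm_num)
    have hp2 : ((51 : ℝ) / 100) ^ K ≤ 1 := pow_le_one₀ (by norm_num) (by norm_num)
    have hlo' : 1 / 100 ≤ rr g (w1 ++ w) (v ++ v1) := by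
      refine le_trans (le_min (by norm_num) ?_) hlo
      linarith
    have hhi' : rr g (w1 ++ w) (v ++ v1) ≤ 100 := by
      refine hhi.trans (max_le (by norm_num) ?_)
      linarith
    obtain ⟨w2, v2, hl2, hr, hs2⟩ := depth_step h (w := w1 ++ w) (v := v ++ v1) ⟨hl, hlo', hhi'⟩
    refine ⟨w2 ++ w1, v1 ++ v2, ?_, ?_, ?_, ?_⟩
    · rw [List.append_assoc, ← List.append_assoc v]
      exact hl2
    · rw [List.append_assoc, ← List.append_assoc v]
      rcases hr with ⟨h1, h2, _⟩ | ⟨h1, h2, _⟩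
      · refine (min_le_left _ _).trans ?_
        linarith
      · refine le_trans ?_ h2
        rcases min_le_iff.mp hlo with h3 | h3
        · refine (min_le_left _ _).trans ?_
          linarith
        · refine (min_le_right _ _).trans ?_
          rw [pow_succ]
          linarith
    · rw [List.append_assoc, ← List.append_assoc v]
      rcases hr with ⟨h1, _, h2⟩ | ⟨h1, _, h2⟩
      · refine h2.trans ?_
        rcases le_max_iff.mp hhi with h3 | h3
        · refine le_trans ?_ (le_max_left _ _)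
          linarith
        · refine le_trans ?_ (le_max_right _ _)
          rw [pow_succ]
          linarith
      · refine le_trans ?_ (le_max_left _ _)
        linarith
    · rw [List.append_assoc, ← List.append_assoc v]
      refine hs2.trans ?_
      rw [pow_succ]
      linarith

/-- Proof. Take `K` in `depth_iter` with `(6/5)^K ≥ 100`, `100 * (51/100)^K ≤ 1` and
`(92/100)^K * (cc * hU g w + hS g v) < η / 2`; `hU + hS ≤ 2 (cc hU + hS)` (`cc = 1/2`). -/
theorem depth (h : NearD g) {w v : List Sy} (hok : Ok g w v) {η : ℝ} (hη : 0 < η) :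
    ∃ w' v', Linked g (w' ++ w) (v ++ v') ∧ 1 / 10 ≤ rr g (w' ++ w) (v ++ v') ∧
      rr g (w' ++ w) (v ++ v') ≤ 10 ∧ hU g (w' ++ w) + hS g (v ++ v') < η := by
  have hc : (cc : ℝ) = 1 / 2 := rfl
  set A : ℝ := cc * hU g w + hS g v with hA
  obtain ⟨K1, hK1⟩ := pow_unbounded_of_one_lt (100 : ℝ) (show (1 : ℝ) < 6 / 5 by norm_num)
  obtain ⟨K2, hK2⟩ := exists_pow_lt_of_lt_one (show (0 : ℝ) < 1 / 100 by norm_num)
    (show (51 / 100 : ℝ) < 1 by norm_num)
  have hApos : 0 < A := by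
    have h1 := hU_pos h w
    have h2 := hS_pos h v
    rw [hA, hc]
    linarith
  obtain ⟨K3, hK3⟩ := exists_pow_lt_of_lt_one (show (0 : ℝ) < η / 2 / A by positivity)
    (show (92 / 100 : ℝ) < 1 by norm_num)
  obtain ⟨w1, v1, hl, hlo, hhi, hs⟩ := depth_iter h hok (K1 + K2 + K3)
  have e1 : (100 : ℝ) ≤ (6 / 5) ^ (K1 + K2 + K3) :=
    hK1.le.trans (pow_le_pow_right₀ (by norm_num) (by omega))
  have e2 : ((51 : ℝ) / 100) ^ (K1 + K2 + K3) ≤ 1 / 100 :=
    (pow_le_pow_of_le_one (by norm_num) (by norm_num) (by omega)).trans hK2.le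
  have e3 : ((92 : ℝ) / 100) ^ (K1 + K2 + K3) < η / 2 / A :=
    (pow_le_pow_of_le_one (by norm_num) (by norm_num) (by omega)).trans_lt hK3
  refine ⟨w1, v1, hl, ?_, ?_, ?_⟩
  · refine le_trans (le_min (by norm_num) ?_) hlo
    linarith
  · refine hhi.trans (max_le (by norm_num) ?_)
    linarith
  · have h1 : (92 / 100) ^ (K1 + K2 + K3) * A < η / 2 := by
      rwa [lt_div_iff₀ hApos] at e3
    have h2 := hU_pos h (w1 ++ w)
    have h3 := hS_pos h (v ++ v1)
    rw [← hA, hc] at hs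
    linarith

/-- both extensions of such a pair have admissible ratio. Proof: `hU_cons`. -/
theorem rr_cons (h : NearD g) {w v : List Sy} (h0 : 1 / 10 ≤ rr g w v) (h1 : rr g w v ≤ 10) (i : Sy) :
    1 / 100 ≤ rr g (i :: w) v ∧ rr g (i :: w) v ≤ 100 := by
  have ha : 0 < hU g w := hU_pos h w
  have hb : 0 < hS g v := hS_pos h v
  have hc : (0 : ℝ) < cc := by norm_num [cc]
  have hca : 0 < cc * hU g w := mul_pos hc ha
  obtain ⟨h2, h3⟩ := hU_cons h i w
  unfold rr at h0 h1 ⊢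
  rw [le_div_iff₀ hb] at h0 ⊢
  rw [div_le_iff₀ hb] at h1 ⊢
  constructor
  · nlinarith
  · nlinarith

end Pool.Agent.Lib.H37D
end
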