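import Pool.Agent.Lib.H1M.FF.M025
import Pool.Agent.Lib.H1M.FF.M064

/-! Merged copies (to shorten the build) of Lib.H37D.A101. -/

-- from Lib.H37D.A101
section

/-!
# H37D A101 (size M): dependence on the map

As `Lib/H37N/A101.lean`. The systems `SU g`, `SV g` are determined by `XX g`, `YY g`, `KK g`, which depend only on `g` on
`VVd d Sy.P ∪ VVd d Sy.Q`.
-/

open Set Filter Topology

namespace Pool.Agent.Lib.H37D

open Pool.Agent.Lib.H37N

variable {d : ℕ} {g g' : En d → En d}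

theorem da101_mem (i : Sy) {z : En d} (hz : z ∈ VVd d i) : z ∈ VVd d Sy.P ∪ VVd d Sy.Q := by
  cases i
  · exact Or.inl hz
  · exact Or.inr hz

theorem XX_congr (hV : ∀ z ∈ VVd d Sy.P ∪ VVd d Sy.Q, g' z = g z) : XX g' = XX g := by
  funext i z
  unfold XX
  by_cases hz : z ∈ DX d
  · rw [if_pos hz, if_pos hz]
    have h1 : (fun x : ℝ => (x, z.2.1) ∈ VV i ∧ (g' ((x, z.2.1), z.2.2)).1.1 = z.1) =
        fun x : ℝ => (x, z.2.1) ∈ VV i ∧ (g ((x, z.2.1), z.2.2)).1.1 = z.1 := by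
      funext x
      refine propext (and_congr_right fun hx => ?_)
      rw [hV _ (da101_mem i ⟨hx, hz.2.2⟩)]
    rw [h1]
  · rw [if_neg hz, if_neg hz]

theorem YY_congr (h : NearD g) (hV : ∀ z ∈ VVd d Sy.P ∪ VVd d Sy.Q, g' z = g z) :
    YY g' = YY g := by
  funext i z
  unfold YY
  rw [XX_congr hV]
  by_cases hz : z ∈ DX d
  · rw [if_pos hz, if_pos hz, hV _ (da101_mem i (XX_spec h i hz).1)]
  · rw [if_neg hz, if_neg hz]

theorem KK_congr (h : NearD g) (hV : ∀ z ∈ VVd d Sy.P ∪ VVd d Sy.Q, g' z = g z) :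
    KK g' = KK g := by
  funext i z
  unfold KK
  rw [XX_congr hV]
  by_cases hz : z ∈ DX d
  · rw [if_pos hz, if_pos hz, hV _ (da101_mem i (XX_spec h i hz).1)]
  · rw [if_neg hz, if_neg hz]

theorem SU_congr (h : NearD g) (hV : ∀ z ∈ VVd d Sy.P ∪ VVd d Sy.Q, g' z = g z) :
    SU g' = SU g := by
  unfold SU
  rw [XX_congr hV, YY_congr h hV, KK_congr h hV]

theorem SV_congr (h : NearD g) (hV : ∀ z ∈ VVd d Sy.P ∪ VVd d Sy.Q, g' z = g z) :
    SV g' = SV g := by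
  unfold SV
  rw [XX_congr hV, YY_congr h hV, KK_congr h hV]

theorem Uu_congr (h : NearD g) (hV : ∀ z ∈ VVd d Sy.P ∪ VVd d Sy.Q, g' z = g z) :
    Uu g' = Uu g := by
  funext b w
  unfold Uu
  rw [SU_congr h hV]

theorem Ss_congr (h : NearD g) (hV : ∀ z ∈ VVd d Sy.P ∪ VVd d Sy.Q, g' z = g z) :
    Ss g' = Ss g := by
  funext b w y
  unfold Ss Sv
  rw [SV_congr h hV]

theorem Zs_congr (h : NearD g) (hV : ∀ z ∈ VVd d Sy.P ∪ VVd d Sy.Q, g' z = g z) :
    Zs g' = Zs g := by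
  funext w
  unfold Zs
  rw [SU_congr h hV]

theorem rr_congr (h : NearD g) (hV : ∀ z ∈ VVd d Sy.P ∪ VVd d Sy.Q, g' z = g z) :
    rr g' = rr g := by
  funext w v
  unfold rr hU hS
  rw [Uu_congr h hV, Ss_congr h hV]

/-- Proof. The functions `hh` agree on `JJ`. -/
theorem DD_congr {f : ℝ → ℝ × Wd d} {s : ℝ × Wd d → ℝ} (hf : ∀ x ∈ JJ, g' (pt f x) = g (pt f x)) :
    DD g' f s = DD g f s := by
  unfold DD
  have h1 : hh g' f s '' JJ = hh g f s '' JJ := by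
    refine Set.image_congr fun x hx => ?_
    unfold hh
    rw [hf x hx]
  rw [h1]

/-- Proof as in the plane. -/
theorem Ok_congr (h : NearD g) (hV : ∀ z ∈ VVd d Sy.P ∪ VVd d Sy.Q, g' z = g z)
    {w v w1 : List Sy} (hF : ∀ z ∈ FFd d, z ∉ Zs g w1 → g' z = g z)
    (hd : Disjoint (Zs g w) (Zs g w1)) (hok : Ok g w v) : Ok g' w v := by
  have key : ∀ b : Sy, ∀ s : ℝ × Wd d → ℝ, DD g' (Uu g b w) s = DD g (Uu g b w) s := by
    intro b s
    refine DD_congr fun x hx => ?_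
    refine hF _ (graph_FF (Uu_leaf h b w) hx) fun hz => ?_
    have hx' : x ∈ Ioo (xc - u0) (xc + u0) := hz.1
    have h1 := Uu_mem_Zs h b [] w hx'
    rw [List.nil_append] at h1
    exact Set.disjoint_left.1 hd h1 hz
  obtain ⟨⟨h1, h2⟩, h3, h4⟩ := hok
  refine ⟨⟨?_, ?_⟩, ?_, ?_⟩
  · rw [Uu_congr h hV, Ss_congr h hV, key]
    exact h1
  · rw [Uu_congr h hV, Ss_congr h hV, key]
    exact h2
  · rw [rr_congr h hV]
    exact h3
  · rw [rr_congr h hV]
    exact h4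

end Pool.Agent.Lib.H37D
end
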