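import Pool.Agent.Lib.H1M.FF.M064

/-! Merged copies (to shorten the build) of Lib.H37D.A92. -/

-- from Lib.H37D.A92
section

/-!
# H37D A92 (size S): the compact core of a strip

As `Lib/H37N/A92.lean` (`Wd d` is finite-dimensional: closed balls are compact).
-/

open Set Filter Topology

namespace Pool.Agent.Lib.H37D

open Pool.Agent.Lib.H37N

variable {d : ℕ} {g : En d → En d}

theorem Cw_compact (h : NearD g) (w : List Sy) : IsCompact (Cw g w) := by
  have h1 : IsClosed {z : En d | |z.1.1 - xc| ≤ u0 / 2} :=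
    isClosed_le (continuous_abs.comp ((continuous_fst.comp continuous_fst).sub continuous_const))
      continuous_const
  have h2 : IsClosed {z : En d | (Uu g Sy.P w z.1.1).1 ≤ z.1.2} :=
    isClosed_le (continuous_fst.comp ((Uu_leaf h Sy.P w).continuous.comp
      (continuous_fst.comp continuous_fst))) (continuous_snd.comp continuous_fst)
  have h3 : IsClosed {z : En d | z.1.2 ≤ (Uu g Sy.Q w z.1.1).1} :=
    isClosed_le (continuous_snd.comp continuous_fst) (continuous_fst.comp
      ((Uu_leaf h Sy.Q w).continuous.comp (continuous_fst.comp continuous_fst)))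
  have h4 : IsClosed {z : En d | ‖z.2‖ ≤ 1 / 2} :=
    isClosed_le (continuous_norm.comp continuous_snd) continuous_const
  have hcl : IsClosed (Cw g w) := h1.inter (h2.inter (h3.inter h4))
  refine IsCompact.of_isClosed_subset
    (((isCompact_Icc (a := xc - u0 / 2) (b := xc + u0 / 2)).prod
      (isCompact_Icc (a := -del) (b := 1 + del))).prod
      (isCompact_closedBall (0 : Wd d) (1 / 2))) hcl ?_
  rintro z ⟨hz1, hz2, hz3, hz4⟩
  rw [abs_le] at hz1
  refine ⟨⟨⟨by linarith [hz1.1], by linarith [hz1.2]⟩, ?_, ?_⟩, ?_⟩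
  · exact ((Uu_leaf h Sy.P w).mem z.1.1).1.trans hz2
  · exact hz3.trans ((Uu_leaf h Sy.Q w).mem z.1.1).2
  · rw [mem_closedBall_zero_iff]
    exact hz4

theorem Cw_sub (h : NearD g) (w : List Sy) : Cw g w ⊆ Zs g w := by
  rintro z ⟨hz1, hz2, hz3, hz4⟩
  have hu : (0 : ℝ) < u0 := by norm_num [u0]
  rw [abs_le] at hz1
  refine ⟨⟨by linarith [hz1.1], by linarith [hz1.2]⟩, ?_, ?_, ?_⟩
  · exact (Gw_strictMono h.good_U w lo_leaf (fixL_leaf h.good_U Sy.P)
      (lo_lt_fixL h.good_U Sy.P) z.1.1).1.trans_le hz2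
  · exact hz3.trans_lt
      (Gw_strictMono h.good_U w (fixL_leaf h.good_U Sy.Q) hi_leaf
        (fixL_lt_hi h.good_U Sy.Q) z.1.1).1
  · linarith

/-- graphs between the leaves are in the core. Proof: `LeC` gives the order of the first components, `hf.small`. -/
theorem pt_mem_Cw {w : List Sy} {f : ℝ → ℝ × Wd d} (hf : ULeaf f) {x : ℝ}
    (hx : |x - xc| ≤ u0 / 2) (hf0 : LeC (Uu g Sy.P w) f x) (hf1 : LeC f (Uu g Sy.Q w) x) :
    pt f x ∈ Cw g w :=
  ⟨hx, hf0.1, hf1.1, (hf.small x).trans (by norm_num [ee])⟩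

end Pool.Agent.Lib.H37D
end
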