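import Pool.Agent.Lib.H1M.FF.M025
import Pool.Agent.Lib.H1M.FF.M068

/-! Merged copies (to shorten the build) of Lib.H37D.A111. -/

-- from Lib.H37D.A111
section

/-!
# H37D A111 (size M): translations change `DD` by a constant

As `Lib/H37N/A111.lean` (`pt_mem_Cw` for the points with `|x - xc| ≤ u0/2`; only the first coordinate of the value is changed, so the argument of `s` is not).
-/

open Set Filter Topology

namespace Pool.Agent.Lib.H37D

open Pool.Agent.Lib.H37N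

variable {d : ℕ} {g : En d → En d}

theorem DD_translate (h : NearD g) {w : List Sy} {χ : En d → ℝ} (hχ : ∀ z, 0 ≤ χ z ∧ χ z ≤ 1)
    (h1 : ∀ z ∈ Cw g w, χ (g z) = 1) {τ : ℝ} (hτ : |τ| ≤ 1 / 1000) {f : ℝ → ℝ × Wd d}
    {s : ℝ × Wd d → ℝ} (hf : ULeaf f) (hs : SLeaf s) (hf0 : ∀ x, LeC (Uu g Sy.P w) f x)
    (hf1 : ∀ x, LeC f (Uu g Sy.Q w) x) :
    DD (fun z => ((((g z).1.1 - τ * χ (g z), (g z).1.2) : Pt), (g z).2)) f s = DD g f s - τ := by
  have hval : ∀ x, hh (fun z => ((((g z).1.1 - τ * χ (g z), (g z).1.2) : Pt), (g z).2)) f s x =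
      hh g f s x - τ * χ (g (pt f x)) := by
    intro x
    unfold hh
    ring
  have hmid : ∀ x, |x - xc| ≤ u0 / 2 → χ (g (pt f x)) = 1 := fun x hx =>
    h1 (pt f x) (pt_mem_Cw hf hx (hf0 x) (hf1 x))
  have hu : u0 / 2 ≤ u0 := by norm_num [u0]
  unfold DD
  refine IsGreatest.csSup_eq ⟨?_, ?_⟩
  · obtain ⟨x, hx1, hx2⟩ := DD_attained_mid h hf hs
    have hxJ : x ∈ JJ := by
      have h2 := abs_lt.1 hx1
      refine ⟨?_, ?_⟩ <;> linarith [h2.1, h2.2]
    refine ⟨x, hxJ, ?_⟩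
    rw [hval, hmid x hx1.le, mul_one, ← hx2]
    rfl
  · rintro _ ⟨x, hx, rfl⟩
    show hh (fun z => ((((g z).1.1 - τ * χ (g z), (g z).1.2) : Pt), (g z).2)) f s x ≤
      DD g f s - τ
    rw [hval]
    rcases le_or_gt |x - xc| (u0 / 2) with h2 | h2
    · rw [hmid x h2, mul_one]
      have h3 := hh_le_DD h hf hs hx
      linarith
    · have h3 := hh_far h hf hs hx h2.le
      have h4 := abs_le.1 hτ
      have h5 : |τ * χ (g (pt f x))| ≤ 1 / 1000 := by
        rw [abs_mul, abs_of_nonneg (hχ _).1]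
        have h6 := mul_le_mul hτ (hχ (g (pt f x))).2 (hχ _).1 (by norm_num)
        linarith
      have h6 := abs_le.1 h5
      linarith [h4.1, h4.2, h6.1, h6.2]

end Pool.Agent.Lib.H37D
end
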