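import Pool.Agent.Lib.H1M.FF.M003
import Pool.Agent.Lib.H1M.FF.M068

/-! Merged copies (to shorten the build) of Lib.H37D.A112. -/

-- from Lib.H37D.A112
section

/-!
# H37D A112 (size M): images of open sets, the cut-off function of a strip

As `Lib/H37N/A112.lean`; the derivative on `O` is bijective by `NearD.smooth`.
-/

open Set Filter Topology
open scoped ContDiff

namespace Pool.Agent.Lib.H37D

open Pool.Agent.Lib.H37N

variable {d : ℕ} {g : En d → En d}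

theorem NearD.injOn (h : NearD g) : InjOn g (Dd d) := by
  obtain ⟨O, hO, hsub, hd, hinj, hjac⟩ := h.smooth
  exact hinj.mono hsub

/-- Proof: `HasStrictFDerivAt.map_nhds_eq_of_surj`. -/
theorem NearD.image_open (h : NearD g) {Z : Set (En d)} (hZ : IsOpen Z) (hZO : Z ⊆ Dd d) :
    IsOpen (g '' Z) := by
  obtain ⟨O, hO, hsub, hd, hinj, hjac⟩ := h.smooth
  rw [isOpen_iff_mem_nhds]
  rintro _ ⟨z, hz, rfl⟩
  have hzO : z ∈ O := hsub (hZO hz)
  have hc : ContDiffAt ℝ ∞ g z := hd.contDiffAt (hO.mem_nhds hzO)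
  have hs : HasStrictFDerivAt g (fderiv ℝ g z) z := hc.hasStrictFDerivAt (by simp)
  have hr : (fderiv ℝ g z).range = ⊤ := LinearMap.range_eq_top.2 (hjac z hzO).2
  rw [← hs.map_nhds_eq_of_surj hr]
  rw [mem_map]
  exact mem_of_superset (hZ.mem_nhds hz) (subset_preimage_image g Z)

/-- Proof: `h.fold0`, the formula for `Fold` (as in the plane), and `h.wval`: `‖(g z).2‖ ≤ aw + e0`. -/
theorem fold_image (h : NearD g) {z : En d} (hz : z ∈ FFd d) :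
    (g z).1.1 ∈ Ioo (0 : ℝ) 1 ∧ (g z).1.2 ∈ Ioo (0 : ℝ) 1 ∧ ‖(g z).2‖ ≤ 1 / 10 ^ 6 := by
  obtain ⟨h1, h2⟩ := h.fold0 z hz
  have h3 := h.wval z (FFd_sub_Dd hz)
  obtain ⟨⟨⟨a1, a2⟩, ⟨b1, b2⟩⟩, hw⟩ := mem_FFd.1 hz
  rw [abs_le] at h1 h2
  simp only [Fold, xc, yc, u0, cc, dd, del, e0, aw] at *
  have hsq : (z.1.1 - 8005 / 10000) ^ 2 ≤ (1 / 4000) ^ 2 := by
    apply sq_le_sq'
    · linarith
    · linarith
  have hsq0 := sq_nonneg (z.1.1 - 8005 / 10000)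
  refine ⟨⟨?_, ?_⟩, ⟨?_, ?_⟩, ?_⟩ <;> linarith [h1.1, h1.2, h2.1, h2.2]

/-- Proof: as in the plane. -/
theorem strip_cutoff (h : NearD g) (w : List Sy) : ∃ χ : En d → ℝ, ContDiff ℝ ∞ χ ∧
    HasCompactSupport χ ∧ tsupport χ ⊆ g '' Zs g w ∧ (∀ x, χ x ∈ Icc (0 : ℝ) 1) ∧
    ∀ z ∈ Cw g w, χ (g z) = 1 := by
  obtain ⟨O, hO, hsub, hd, hinj, hjac⟩ := h.smooth
  have hZF : Zs g w ⊆ Dd d := Zs_sub_Dd h w
  have hcont : ContinuousOn g (Cw g w) :=
    hd.continuousOn.mono ((Cw_sub h w).trans (hZF.trans hsub))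
  obtain ⟨χ, c1, c2, c3, c4, c5⟩ := exists_cutoff (E := En d)
    ((Cw_compact h w).image_of_continuousOn hcont) (h.image_open (Zs_open h w) hZF)
    (image_mono (Cw_sub h w))
  exact ⟨χ, c1, c2, c3, c4, fun z hz => c5.self_of_nhdsSet _ (mem_image_of_mem g hz)⟩

end Pool.Agent.Lib.H37D
end
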