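import Pool.Agent.Lib.H1M.FF.M069

/-! Merged copies (to shorten the build) of Lib.H37D.A121. -/

-- from Lib.H37D.A121
section

/-!
# H37D A121 (size S/M): backward orbits in the strips: uniqueness, convergence

As `Lib/H37N/A121.lean` with `E n = |(ζ' n).1.1 - (ζ n).1.1|`, `F n = ‖vt (ζ' n) - vt (ζ n)‖` (`real_diff`, `ineq_zero`, `ineq_iter`, `NNd_two`).
-/

open Set Filter Topology

namespace Pool.Agent.Lib.H37D

open Pool.Agent.Lib.H37N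

variable {d : ℕ} {g : En d → En d}

theorem back_unique (h : NearD g) {ι : ℕ → Sy} {ζ ζ' : ℕ → En d} (hN : ζ 0 ∈ NNd d)
    (hN' : ζ' 0 ∈ NNd d) (hV : ∀ n, ζ (n + 1) ∈ VVd d (ι n)) (hV' : ∀ n, ζ' (n + 1) ∈ VVd d (ι n))
    (hg : ∀ n, g (ζ (n + 1)) = ζ n) (hg' : ∀ n, g (ζ' (n + 1)) = ζ' n)
    (h0 : (ζ 0).1.1 = (ζ' 0).1.1) : ζ 0 = ζ' 0 := by
  have hNN : ∀ n, ζ n ∈ NNd d := by
    intro n
    rcases n with _ | n
    · exact hN
    · exact VVd_sub_NNd _ (hV n)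
  have hNN' : ∀ n, ζ' n ∈ NNd d := by
    intro n
    rcases n with _ | n
    · exact hN'
    · exact VVd_sub_NNd _ (hV' n)
  have hd : ∀ n, |(ζ' (n + 1)).1.1 - (ζ (n + 1)).1.1| ≤ 812 / 1000 * |(ζ' n).1.1 - (ζ n).1.1| +
        2 * ee * ‖vt (ζ' (n + 1)) - vt (ζ (n + 1))‖ ∧
      ‖vt (ζ' n) - vt (ζ n)‖ ≤ 812 / 1000 * ‖vt (ζ' (n + 1)) - vt (ζ (n + 1))‖ +
        2 * ee * |(ζ' n).1.1 - (ζ n).1.1| := by
    intro n
    have h1 := real_diff h (ι n) (hV n) (hV' n) (by rw [hg n]; exact hNN n)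
      (by rw [hg' n]; exact hNN' n)
    rw [hg n, hg' n] at h1
    exact h1
  have h3 := ineq_zero (E := fun n => |(ζ' n).1.1 - (ζ n).1.1|)
    (F := fun n => ‖vt (ζ' n) - vt (ζ n)‖)
    (by show |(ζ' 0).1.1 - (ζ 0).1.1| = 0; rw [h0, sub_self, abs_zero])
    (fun n => (NNd_two (hNN n) (hNN' n)).1) (fun n => (NNd_two (hNN n) (hNN' n)).2)
    (norm_nonneg _) (fun n => (hd n).1) (fun n => (hd n).2)
  have h4 : vt (ζ' 0) - vt (ζ 0) = 0 := norm_eq_zero.1 h3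
  exact vt_ext h0 (sub_eq_zero.1 h4).symm

theorem da121_dist {z z' : En d} {r : ℝ} (h1 : |z.1.1 - z'.1.1| ≤ r) (h2 : ‖vt z - vt z'‖ ≤ r) :
    dist z z' ≤ r := by
  have h3 : ‖(vt z - vt z').1‖ ≤ r := (norm_fst_le _).trans h2
  have h4 : ‖(vt z - vt z').2‖ ≤ r := (norm_snd_le _).trans h2
  have h5 : ‖z.1.2 - z'.1.2‖ ≤ r := h3
  have h6 : ‖z.2 - z'.2‖ ≤ r := h4
  rw [Real.norm_eq_abs] at h5
  rw [Prod.dist_eq, Prod.dist_eq, Real.dist_eq, Real.dist_eq, dist_eq_norm]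
  exact max_le (max_le h1 h5) h6

theorem back_tendsto (h : NearD g) (b : Sy) {ζ : ℕ → En d} {N0 : ℕ} (hN : ∀ n, ζ n ∈ NNd d)
    (hV : ∀ n, N0 ≤ n → ζ (n + 1) ∈ VVd d b) (hg : ∀ n, g (ζ (n + 1)) = ζ n) :
    Tendsto ζ atTop (𝓝 (fixP g b)) := by
  obtain ⟨hp1, hp2, _⟩ := fixP_spec h b
  have hpV : fixP g b ∈ VVd d b := interior_subset hp1
  have hpN : fixP g b ∈ NNd d := VVd_sub_NNd b hpV
  generalize fixP g b = p at *
  have hd : ∀ n, N0 ≤ n → |(ζ (n + 1)).1.1 - p.1.1| ≤ 812 / 1000 * |(ζ n).1.1 - p.1.1| +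
        2 * ee * ‖vt (ζ (n + 1)) - vt p‖ ∧
      ‖vt (ζ n) - vt p‖ ≤ 812 / 1000 * ‖vt (ζ (n + 1)) - vt p‖ +
        2 * ee * |(ζ n).1.1 - p.1.1| := by
    intro n hn
    have h1 := real_diff h b hpV (hV n hn) (by rw [hp2]; exact hpN)
      (by rw [hg n]; exact hN n)
    rw [hg n, hp2] at h1
    exact h1
  have key := ineq_iter (E := fun n => |(ζ n).1.1 - p.1.1|) (F := fun n => ‖vt (ζ n) - vt p‖)
    (N0 := N0) (fun n _ => (NNd_two hpN (hN n)).1) (fun n _ => (NNd_two hpN (hN n)).2)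
    (fun n hn => (hd n hn).1) (fun n hn => (hd n hn).2)
  rw [← tendsto_add_atTop_iff_nat N0, tendsto_iff_dist_tendsto_zero]
  have ht : Tendsto (fun k : ℕ => (2 : ℝ) * (82 / 100) ^ k) atTop (𝓝 (2 * 0)) :=
    (tendsto_pow_atTop_nhds_zero_of_lt_one (by norm_num) (by norm_num)).const_mul 2
  rw [mul_zero] at ht
  refine squeeze_zero (fun n => dist_nonneg) (fun n => ?_) ht
  have h1 := key n (n + N0) (by omega)
  exact da121_dist h1.1 h1.2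

end Pool.Agent.Lib.H37D
end
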