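import Pool.Agent.Lib.H1M.FF.M069

/-! Merged copies (to shorten the build) of Lib.H37D.A122. -/

-- from Lib.H37D.A122
section

/-!
# H37D A122 (size S/M): forward orbits in the strips: uniqueness, convergence

As `Lib/H37N/A122.lean`: `E n = ‖vt (g^[n] z') - vt (g^[n] z)‖`, `F n = |(g^[n] z').1.1 - (g^[n] z).1.1|` in `ineq_zero`, `ineq_iter`.
-/

open Set Filter Topology

namespace Pool.Agent.Lib.H37D

open Pool.Agent.Lib.H37N

variable {d : ℕ} {g : En d → En d}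

theorem forw_unique (h : NearD g) {ι : ℕ → Sy} {z z' : En d} (hV : ∀ n, g^[n] z ∈ VVd d (ι n))
    (hV' : ∀ n, g^[n] z' ∈ VVd d (ι n)) (h0 : vt z = vt z') : z = z' := by
  have hNN : ∀ n, g^[n] z ∈ NNd d := fun n => ⟨VV_sub_NN _ (hV n).1, (hV n).2⟩
  have hNN' : ∀ n, g^[n] z' ∈ NNd d := fun n => ⟨VV_sub_NN _ (hV' n).1, (hV' n).2⟩
  have hd : ∀ n, |(g^[n] z').1.1 - (g^[n] z).1.1| ≤
        812 / 1000 * |(g^[n + 1] z').1.1 - (g^[n + 1] z).1.1| +
        2 * ee * ‖vt (g^[n] z') - vt (g^[n] z)‖ ∧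
      ‖vt (g^[n + 1] z') - vt (g^[n + 1] z)‖ ≤ 812 / 1000 * ‖vt (g^[n] z') - vt (g^[n] z)‖ +
        2 * ee * |(g^[n + 1] z').1.1 - (g^[n + 1] z).1.1| := by
    intro n
    have e1 : g (g^[n] z) = g^[n + 1] z := (Function.iterate_succ_apply' g n z).symm
    have e2 : g (g^[n] z') = g^[n + 1] z' := (Function.iterate_succ_apply' g n z').symm
    have h1 := real_diff h (ι n) (hV n) (hV' n) (by rw [e1]; exact hNN (n + 1))
      (by rw [e2]; exact hNN' (n + 1))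
    rw [e1, e2] at h1
    exact h1
  have h3 := ineq_zero (E := fun n => ‖vt (g^[n] z') - vt (g^[n] z)‖)
    (F := fun n => |(g^[n] z').1.1 - (g^[n] z).1.1|)
    (by show ‖vt z' - vt z‖ = 0; rw [h0, sub_self, norm_zero])
    (fun n => (NNd_two (hNN n) (hNN' n)).2) (fun n => (NNd_two (hNN n) (hNN' n)).1)
    (abs_nonneg _) (fun n => (hd n).2) (fun n => (hd n).1)
  have h4 : z'.1.1 - z.1.1 = 0 := abs_eq_zero.1 h3
  exact vt_ext (by linarith) h0

theorem forw_tendsto (h : NearD g) (b : Sy) {z : En d} {N0 : ℕ}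
    (hV : ∀ n, N0 ≤ n → g^[n] z ∈ VVd d b) :
    Tendsto (fun n => g^[n] z) atTop (𝓝 (fixP g b)) := by
  obtain ⟨hp1, hp2, _⟩ := fixP_spec h b
  have hpV : fixP g b ∈ VVd d b := interior_subset hp1
  have hpN : fixP g b ∈ NNd d := ⟨VV_sub_NN b hpV.1, hpV.2⟩
  have hNN : ∀ n, N0 ≤ n → g^[n] z ∈ NNd d :=
    fun n hn => ⟨VV_sub_NN _ (hV n hn).1, (hV n hn).2⟩
  generalize fixP g b = p at *
  have hd : ∀ n, N0 ≤ n → |(g^[n] z).1.1 - p.1.1| ≤ 812 / 1000 * |(g^[n + 1] z).1.1 - p.1.1| +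
        2 * ee * ‖vt (g^[n] z) - vt p‖ ∧
      ‖vt (g^[n + 1] z) - vt p‖ ≤ 812 / 1000 * ‖vt (g^[n] z) - vt p‖ +
        2 * ee * |(g^[n + 1] z).1.1 - p.1.1| := by
    intro n hn
    have e1 : g (g^[n] z) = g^[n + 1] z := (Function.iterate_succ_apply' g n z).symm
    have h1 := real_diff h b hpV (hV n hn) (by rw [hp2]; exact hpN)
      (by rw [e1]; exact hNN (n + 1) (by omega))
    rw [e1, hp2] at h1
    exact h1
  have key := ineq_iter (E := fun n => ‖vt (g^[n] z) - vt p‖)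
    (F := fun n => |(g^[n] z).1.1 - p.1.1|)
    (N0 := N0) (fun n hn => (NNd_two hpN (hNN n hn)).2) (fun n hn => (NNd_two hpN (hNN n hn)).1)
    (fun n hn => (hd n hn).2) (fun n hn => (hd n hn).1)
  rw [← tendsto_add_atTop_iff_nat N0, tendsto_iff_dist_tendsto_zero]
  have ht : Tendsto (fun k : ℕ => (2 : ℝ) * (82 / 100) ^ k) atTop (𝓝 (2 * 0)) :=
    (tendsto_pow_atTop_nhds_zero_of_lt_one (by norm_num) (by norm_num)).const_mul 2
  rw [mul_zero] at ht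
  refine squeeze_zero (fun n => dist_nonneg) (fun n => ?_) ht
  have h1 := key n (n + N0) (by omega)
  have h2 : ‖((g^[n + N0] z).1.2 - p.1.2, (g^[n + N0] z).2 - p.2)‖ ≤ 2 * (82 / 100) ^ n := h1.1
  rw [Prod.norm_def, max_le_iff] at h2
  rw [Prod.dist_eq, Prod.dist_eq, Real.dist_eq, Real.dist_eq, dist_eq_norm]
  exact max_le (max_le h1.2 h2.1) h2.2

end Pool.Agent.Lib.H37D
end
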