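import Pool.Agent.Lib.H1M.FF.M036
import Pool.Agent.Lib.H1M.FF.M067
import Pool.Agent.Lib.H1M.FF.M070
import Pool.Agent.Lib.H1M.FF.M071

/-! Merged copies (to shorten the build) of Lib.H37D.A114. -/

-- from Lib.H37D.A114
section

/-!
# H37D A114 (size M): the translation move inside a strip
-/

open Set Filter Topology
open scoped ContDiff

namespace Pool.Agent.Lib.H37D

open Pool.Agent.Lib.H37N

variable {d : ℕ}

/-- Proof. As in the plane (`Lib/H37N/A114.lean`), with `Ψ (t, z) = ((z.1.1 - t * χ z, z.1.2), z.2)`, `small_familyD`, `fold_image`. -/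
theorem strip_move {R : ℕ} {U : Set (En d → En d)} (hU : PertOpenD R U) (hN : ∀ g ∈ U, NearD g)
    {g : En d → En d} (hg : g ∈ U) (w : List Sy) : ∃ τ0 > (0 : ℝ), ∀ τ : ℝ, |τ| < τ0 → ∃ g' ∈ U,
      (∀ z ∈ VVd d Sy.P ∪ VVd d Sy.Q, g' z = g z) ∧ (∀ z ∈ FFd d, z ∉ Zs g w → g' z = g z) ∧
      ∀ (f : ℝ → ℝ × Wd d) (s : ℝ × Wd d → ℝ), ULeaf f → SLeaf s →
        (∀ x, LeC (Uu g Sy.P w) f x) → (∀ x, LeC f (Uu g Sy.Q w) x) →
        DD g' f s = DD g f s - τ := by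
  have h : NearD g := hN g hg
  obtain ⟨χ, c1, c2, c3, c4, c5⟩ := strip_cutoff h w
  obtain ⟨ε, hε, hε'⟩ := hU g hg
  have hZF : Zs g w ⊆ Dd d := Zs_sub_Dd h w
  have hΨ : ContDiff ℝ ∞ (fun q : ℝ × En d => (((q.2.1.1 - q.1 * χ q.2, q.2.1.2), q.2.2) : En d)) := by
    have h1 : ContDiff ℝ ∞ (fun q : ℝ × En d => χ q.2) := c1.comp contDiff_snd
    have h2 : ContDiff ℝ ∞ (fun q : ℝ × En d => q.2.1) := contDiff_fst.comp contDiff_snd
    exact (((contDiff_fst.comp h2).sub (contDiff_fst.mul h1)).prodMk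
      (contDiff_snd.comp h2)).prodMk (contDiff_snd.comp contDiff_snd)
  have hCK : tsupport χ ⊆ K0D d := by
    intro y hy
    obtain ⟨z, hz, rfl⟩ := c3 hy
    obtain ⟨h1, h2, h3⟩ := fold_image h (interior_subset (Zs_sub_FF h w hz))
    refine ⟨⟨⟨by linarith [h1.1], by linarith [h1.2]⟩, ⟨by linarith [h2.1], by linarith [h2.2]⟩⟩, ?_⟩
    rw [mem_closedBall_zero_iff]
    exact h3.trans (by norm_num)
  have hsm := small_familyD (P := ℝ) hΨ 0 (fun z => by simp) c2 hCK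
    (fun p z hz => by simp [image_eq_zero_of_notMem_tsupport hz]) R hε
  obtain ⟨δ, hδ, hδ'⟩ := Metric.eventually_nhds_iff.1 hsm
  refine ⟨min δ (1 / 1000), by positivity, fun τ hτ => ?_⟩
  have hτδ : |τ| < δ := lt_of_lt_of_le hτ (min_le_left _ _)
  have hτ1 : |τ| ≤ 1 / 1000 := (lt_of_lt_of_le hτ (min_le_right _ _)).le
  have hS := hδ' (y := τ) (by rw [Real.dist_eq, sub_zero]; exact hτδ)
  have hU' := hε' _ hS
  have key : ∀ z ∈ Dd d, z ∉ Zs g w → χ (g z) = 0 := by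
    intro z hz hzw
    refine image_eq_zero_of_notMem_tsupport fun hc => hzw ?_
    obtain ⟨z', hz', he⟩ := c3 hc
    rw [← h.injOn (hZF hz') hz he]
    exact hz'
  have key2 : ∀ z ∈ Dd d, z ∉ Zs g w →
      ((fun z => (((z.1.1 - τ * χ z, z.1.2), z.2) : En d)) ∘ g) z = g z := by
    intro z hz hzw
    simp [key z hz hzw]
  refine ⟨(fun z => (((z.1.1 - τ * χ z, z.1.2), z.2) : En d)) ∘ g, hU', ?_, ?_, ?_⟩
  · intro z hz
    refine key2 z (Or.inl hz) fun hzw => ?_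
    have hF := (interior_subset (Zs_sub_FF h w hzw) : z ∈ FFd d)
    obtain ⟨⟨⟨a1, a2⟩, -⟩, -⟩ := hF
    rcases hz with ⟨⟨⟨b1, b2⟩, -⟩, -⟩ | ⟨⟨⟨b1, b2⟩, -⟩, -⟩
    · simp only [xc, u0, al, pw, del] at *
      linarith
    · simp only [xc, u0, al, pw, del] at *
      linarith
  · intro z hz hzw
    exact key2 z (Or.inr hz) hzw
  · intro f s hf hs hf0 hf1
    exact DD_translate h (fun z => ⟨(c4 z).1, (c4 z).2⟩) c5 hτ1 hf hs hf0 hf1

end Pool.Agent.Lib.H37D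
end
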