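import Pool.Agent.Lib.H1M.FF.M072

/-! Merged copies (to shorten the build) of Lib.H37D.A124. -/

-- from Lib.H37D.A124
section

/-!
# H37D A124 (size M): existence of backward orbits on unstable leaves, characterisation

As `Lib/H37N/A124.lean`.
-/

open Set Filter Topology

namespace Pool.Agent.Lib.H37D

open Pool.Agent.Lib.H37N

variable {d : ℕ} {g : En d → En d}

theorem Uu_step (h : NearD g) (b : Sy) (r : List Sy) (n : ℕ) :
    Uu g b (r.drop n).reverse =
      (SU g).GG (r.getD n b) (Uu g b (r.drop (n + 1)).reverse) := by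
  rcases lt_or_ge n r.length with hn | hn
  · have h1 : r.drop n = r[n] :: r.drop (n + 1) := List.drop_eq_getElem_cons hn
    have h2 : r.getD n b = r[n] := by
      rw [List.getD_eq_getElem?_getD, List.getElem?_eq_getElem hn]
      rfl
    rw [h1, List.reverse_cons, Uu_append, h2]
    rfl
  · have h1 : r.drop n = [] := List.drop_eq_nil_of_le hn
    have h2 : r.drop (n + 1) = [] := List.drop_eq_nil_of_le (by omega)
    have h3 : r.getD n b = b := by
      rw [List.getD_eq_getElem?_getD, List.getElem?_eq_none hn]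
      rfl
    rw [h1, h2, h3]
    exact (fixL_fix h.good_U b).symm

/-- Proof as in the plane: `x 0 = x`, `x (n+1) = (SU g).sol (ι n) (L (n+1)) (x n)`, `ζ n = pt (L n) (x n)`, `L n = Uu g b (w.reverse.drop n).reverse`
(`Uu_step`, `step_U`, `GG_U_int`, `mem_int_VVd`, `back_tendsto`). -/
theorem back_orbit (h : NearD g) (b : Sy) (w : List Sy) {x : ℝ} (hx : x ∈ II) : ∃ ζ : ℕ → En d,
    ζ 0 = pt (Uu g b w) x ∧ (∀ n, ζ (n + 1) ∈ interior (VVd d (w.reverse.getD n b))) ∧
    (∀ n, g (ζ (n + 1)) = ζ n) ∧ Tendsto ζ atTop (𝓝 (fixP g b)) := by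
  let r := w.reverse
  let L : ℕ → ℝ → ℝ × Wd d := fun n => Uu g b (r.drop n).reverse
  let xs : ℕ → ℝ := fun n => Nat.rec x (fun k y => (SU g).sol (r.getD k b) (L (k + 1)) y) n
  have hL : ∀ n, ULeaf (L n) := fun n => Uu_leaf h b _
  have hstep : ∀ n, L n = (SU g).GG (r.getD n b) (L (n + 1)) := fun n => Uu_step h b r n
  have hxs : ∀ n, xs (n + 1) = (SU g).sol (r.getD n b) (L (n + 1)) (xs n) := fun n => rfl
  have hI : ∀ n, xs n ∈ II := by
    intro n
    cases n with
    | zero => exact hx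
    | succ n =>
      rw [hxs]
      exact sol_mem h.good_U (r.getD n b) ((hL (n + 1)).leaf g) (xs n)
  have hint : ∀ n y, (L n y).1 ∈ Ioo (-del) (1 + del) ∧ ‖(L n y).2‖ < 1 := by
    intro n y
    rw [hstep n]
    exact GG_U_int h _ (hL (n + 1)) y
  have hV : ∀ n, pt (L (n + 1)) (xs (n + 1)) ∈ interior (VVd d (r.getD n b)) := by
    intro n
    have h1 := (step_U h (r.getD n b) (hL (n + 1)) (hI n)).2.1
    exact mem_int_VVd h1 (hint (n + 1) _).1 (hint (n + 1) _).2
  have hg : ∀ n, g (pt (L (n + 1)) (xs (n + 1))) = pt (L n) (xs n) := by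
    intro n
    have h1 := (step_U h (r.getD n b) (hL (n + 1)) (hI n)).2.2
    rw [hstep n]
    exact h1
  refine ⟨fun n => pt (L n) (xs n), ?_, hV, hg, ?_⟩
  · change pt (Uu g b (r.drop 0).reverse) x = pt (Uu g b w) x
    rw [List.drop_zero, List.reverse_reverse]
  · refine back_tendsto h b (N0 := w.length) (fun n => ⟨⟨hI n, (hL n).mem _⟩, ?_⟩) ?_ hg
    · rw [mem_BW]
      exact (hL n).norm_le _
    intro n hn
    have h1 : r.getD n b = b := by
      rw [List.getD_eq_getElem?_getD, List.getElem?_eq_none (by simpa [r] using hn)]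
      rfl
    have h2 := interior_subset (hV n)
    rw [h1] at h2
    exact h2

/-- characterisation of the unstable leaves. Proof: `back_orbit` and `back_unique`. -/
theorem back_char (h : NearD g) (b : Sy) (w : List Sy) {ζ : ℕ → En d} (hN : ζ 0 ∈ NNd d)
    (hV : ∀ n, ζ (n + 1) ∈ VVd d (w.reverse.getD n b)) (hg : ∀ n, g (ζ (n + 1)) = ζ n) :
    ((ζ 0).1.2, (ζ 0).2) = Uu g b w (ζ 0).1.1 := by
  obtain ⟨ζ', h0, hV', hg', _⟩ := back_orbit h b w (x := (ζ 0).1.1) hN.1.1
  have hN' : ζ' 0 ∈ NNd d := by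
    rw [h0]
    exact ⟨⟨hN.1.1, (Uu_leaf h b w).mem _⟩, mem_BW.2 ((Uu_leaf h b w).norm_le _)⟩
  have h1 := back_unique h (ι := fun n => w.reverse.getD n b) hN hN' hV
    (fun n => interior_subset (hV' n)) hg hg' (by rw [h0]; rfl)
  rw [h0] at h1
  exact congrArg vt h1

end Pool.Agent.Lib.H37D
end
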