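import Pool.Agent.Lib.H1M.FF.M073

/-! Merged copies (to shorten the build) of Lib.H37D.A125. -/

-- from Lib.H37D.A125
section

/-!
# H37D A125 (size M): forward orbits on stable leaves, characterisation

As `Lib/H37N/A125.lean`.
-/

open Set Filter Topology

namespace Pool.Agent.Lib.H37D

open Pool.Agent.Lib.H37N

variable {d : ℕ} {g : En d → En d}

theorem Sv_step (h : NearD g) (b : Sy) (v : List Sy) (n : ℕ) :
    Sv g b (v.drop n) = (SV g).GG (v.getD n b) (Sv g b (v.drop (n + 1))) := by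
  unfold Sv
  rcases lt_or_ge n v.length with hn | hn
  · have h1 : v.drop n = v[n] :: v.drop (n + 1) := List.drop_eq_getElem_cons hn
    have h2 : v.getD n b = v[n] := by
      rw [List.getD_eq_getElem?_getD, List.getElem?_eq_getElem hn]
      rfl
    rw [h1, List.reverse_cons, Sys.Gw_append, h2]
    rfl
  · have h1 : v.drop n = [] := List.drop_eq_nil_of_le hn
    have h2 : v.drop (n + 1) = [] := List.drop_eq_nil_of_le (by omega)
    have h3 : v.getD n b = b := by
      rw [List.getD_eq_getElem?_getD, List.getElem?_eq_none hn]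
      rfl
    rw [h1, h2, h3]
    exact (fixL_fix h.good_S b).symm

/-- Proof as in the plane (`Sv_step`, `step_S`, `mem_int_VVd`, `forw_tendsto`). -/
theorem forw_orbit (h : NearD g) (b : Sy) (v : List Sy) {y : ℝ × Wd d} (hy : y.1 ∈ II)
    (hw : ‖y.2‖ ≤ 1) :
    (∀ n, g^[n] ((Ss g b v y, y.1), y.2) ∈ VVd d (v.getD n b)) ∧
    (y.1 ∈ Ioo (-del) (1 + del) → ‖y.2‖ < 1 →
      ∀ n, g^[n] ((Ss g b v y, y.1), y.2) ∈ interior (VVd d (v.getD n b))) ∧
    Tendsto (fun n => g^[n] ((Ss g b v y, y.1), y.2)) atTop (𝓝 (fixP g b)) := by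
  let S : ℕ → ℝ × Wd d → ℝ × Wd 0 := fun n => Sv g b (v.drop n)
  let ys : ℕ → ℝ × Wd d := fun n => Nat.rec y (fun k z => (SV g).sol (v.getD k b) (S (k + 1)) z) n
  have hS : ∀ n, (SV g).Leaf (S n) := fun n =>
    Gw_leaf h.good_S _ (fixL_leaf h.good_S b)
  have hstep : ∀ n, S n = (SV g).GG (v.getD n b) (S (n + 1)) := fun n => Sv_step h b v n
  have hys : ∀ n, ys (n + 1) = (SV g).sol (v.getD n b) (S (n + 1)) (ys n) := fun n => rfl
  have hI : ∀ n, (ys n).1 ∈ II ∧ ‖(ys n).2‖ ≤ 1 := by
    intro n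
    cases n with
    | zero => exact ⟨hy, hw⟩
    | succ n =>
      rw [hys]
      have h1 := sol_mem h.good_S (v.getD n b) (hS (n + 1)) (ys n)
      exact ⟨h1.1, mem_BW.1 h1.2⟩
  have hst := fun n => step_S h (v.getD n b) (hS (n + 1)) (hI n).1 (hI n).2
  have hg : ∀ n, g (((((S n (ys n)).1, (ys n).1), (ys n).2)) : En d) =
      (((S (n + 1) (ys (n + 1))).1, (ys (n + 1)).1), (ys (n + 1)).2) := by
    intro n
    have h1 := (hst n).2.2.2
    rw [← hstep n] at h1
    exact h1
  have hit : ∀ n, g^[n] ((Ss g b v y, y.1), y.2) =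
      (((S n (ys n)).1, (ys n).1), (ys n).2) := by
    intro n
    induction n with
    | zero =>
      change ((((Sv g b v y).1, y.1), y.2) : En d) = (((Sv g b (v.drop 0) y).1, y.1), y.2)
      rw [List.drop_zero]
    | succ n ih =>
      rw [Function.iterate_succ_apply', ih, hg]
  have hV : ∀ n, ((((S n (ys n)).1, (ys n).1), (ys n).2) : En d) ∈ VVd d (v.getD n b) := by
    intro n
    have h1 := (hst n).1
    rw [← hstep n] at h1
    exact h1
  refine ⟨fun n => by rw [hit n]; exact hV n, fun hy0 hw0 n => ?_, ?_⟩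
  · rw [hit n]
    have h1 := (hst n).2.1
    rw [← hstep n] at h1
    have h2 : (ys n).1 ∈ Ioo (-del) (1 + del) ∧ ‖(ys n).2‖ < 1 := by
      cases n with
      | zero => exact ⟨hy0, hw0⟩
      | succ n =>
        rw [hys]
        exact (hst n).2.2.1
    exact mem_int_VVd h1 h2.1 h2.2
  · refine forw_tendsto h b (N0 := v.length) ?_
    intro n hn
    have h1 : v.getD n b = b := by
      rw [List.getD_eq_getElem?_getD, List.getElem?_eq_none hn]
      rfl
    have h2 := hV n
    rw [h1] at h2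
    rw [hit n]
    exact h2

/-- characterisation of the stable leaves. Proof: `forw_orbit` and `forw_unique`. -/
theorem forw_char (h : NearD g) (b : Sy) (v : List Sy) {z : En d}
    (hV : ∀ n, g^[n] z ∈ VVd d (v.getD n b)) : z.1.1 = Ss g b v (z.1.2, z.2) := by
  have h0 : z ∈ VVd d (v.getD 0 b) := hV 0
  have hy : z.1.2 ∈ II := h0.1.2
  have hw : ‖z.2‖ ≤ 1 := mem_BW.1 h0.2
  have h1 := forw_unique h (ι := fun n => v.getD n b) hV
    (forw_orbit h b v (y := (z.1.2, z.2)) hy hw).1 rfl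
  exact congrArg (fun z : En d => z.1.1) h1

end Pool.Agent.Lib.H37D
end
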