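import Pool.Agent.Lib.H1M.FF.M066
import Pool.Agent.Lib.H1M.FF.M067
import Pool.Agent.Lib.H1M.FF.M068
import Pool.Agent.Lib.H1M.FF.M074
import Pool.Agent.Lib.H1M.FF.M075
import Pool.Agent.Lib.H1M.FF.M076

/-! Merged copies (to shorten the build) of Lib.H37D.DC31. -/

-- from Lib.H37D.DC31
section

/-!
# H37D DC31: moves which make `DD` zero at a deep pair (first part of C.3 and of C.5)
-/

open Set Filter Topology
open scoped ContDiff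

namespace Pool.Agent.Lib.H37D

open Pool.Agent.Lib.H37N

variable {d : ℕ}

theorem zero_pair {R : ℕ} {U : Set (En d → En d)} (hU : PertOpenD R U) (hN : ∀ g ∈ U, NearD g)
    {g : En d → En d} (hg : g ∈ U) {w v : List Sy} (hok : Ok g w v) : ∃ g' ∈ U,
      (∀ z ∈ VVd d Sy.P ∪ VVd d Sy.Q, g' z = g z) ∧ (∀ z ∈ FFd d, z ∉ Zs g w → g' z = g z) ∧
      ∃ w' v' : List Sy, DD g' (Uu g' Sy.Q (w' ++ w)) (Ss g' Sy.P (v ++ v')) = 0 := by
  have h := hN g hg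
  obtain ⟨τ0, hτ0, hmove⟩ := strip_move hU hN hg w
  obtain ⟨w', v', hl, -, -, hsm⟩ := depth h hok (η := τ0 / 3) (by positivity)
  have hlU := Uu_leaf h Sy.Q (w' ++ w)
  have hlS := Ss_leaf h Sy.P (v ++ v')
  have hd := DD_small h hl hlU hlS (fun x => (Uu_PQ_lt h _ x).le) (fun x => LeC.refl _ _)
    (fun y => le_rfl) (fun y => (Ss_PQ_lt h _ y).le)
  obtain ⟨g', hg', hV, hF, hD⟩ := hmove (DD g (Uu g Sy.Q (w' ++ w)) (Ss g Sy.P (v ++ v')))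
    (by linarith)
  refine ⟨g', hg', hV, hF, w', v', ?_⟩
  rw [Uu_congr h hV, Ss_congr h hV]
  rw [hD _ _ hlU hlS (fun x => (Uu_between h Sy.Q w' w x).1) (fun x => (Uu_between h Sy.Q w' w x).2)]
  ring

theorem double_pair {R : ℕ} {U : Set (En d → En d)} (hU : PertOpenD R U) (hN : ∀ g ∈ U, NearD g)
    {g : En d → En d} (hg : g ∈ U) {w v : List Sy} (hok : Ok g w v) : ∃ g' ∈ U,
      (∀ z ∈ VVd d Sy.P ∪ VVd d Sy.Q, g' z = g z) ∧ (∀ z ∈ FFd d, z ∉ Zs g w → g' z = g z) ∧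
      ∃ w' v' : List Sy, Ok g' (Sy.P :: (w' ++ w)) (v ++ v') ∧
        Ok g' (Sy.Q :: (w' ++ w)) (v ++ v') := by
  have h := hN g hg
  obtain ⟨τ0, hτ0, hmove⟩ := strip_move hU hN hg w
  obtain ⟨w', v', hl, hr0, hr1, hsm⟩ := depth h hok (η := τ0 / 3) (by positivity)
  have hlU := Uu_leaf h Sy.Q (Sy.P :: (w' ++ w))
  have hlS := Ss_leaf h Sy.P (v ++ v')
  have hd := DD_small h hl hlU hlS (fun x => (Uu_P_lt h _ x).le)
    (fun x => ((Uu_mid_lt h _ x).trans (Uu_lt_Q h _ x)).le)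
    (fun y => le_rfl) (fun y => (Ss_PQ_lt h _ y).le)
  obtain ⟨g', hg', hV, hF, hD⟩ :=
    hmove (DD g (Uu g Sy.Q (Sy.P :: (w' ++ w))) (Ss g Sy.P (v ++ v'))) (by linarith)
  have h' := hN g' hg'
  refine ⟨g', hg', hV, hF, w', v', ?_⟩
  have hrr := rr_congr h hV
  have h0 : DD g' (Uu g' Sy.Q (Sy.P :: (w' ++ w))) (Ss g' Sy.P (v ++ v')) = 0 := by
    rw [Uu_congr h hV, Ss_congr h hV]
    rw [hD _ _ hlU hlS (fun x => (Uu_between h Sy.Q (Sy.P :: w') w x).1)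
      (fun x => (Uu_between h Sy.Q (Sy.P :: w') w x).2)]
    ring
  have hr0' : 1 / 10 ≤ rr g' (w' ++ w) (v ++ v') := by rw [hrr]; exact hr0
  have hr1' : rr g' (w' ++ w) (v ++ v') ≤ 10 := by rw [hrr]; exact hr1
  obtain ⟨l1, l2⟩ := both_linked h' (by linarith) h0
  exact ⟨⟨l1, rr_cons h' hr0' hr1' Sy.P⟩, ⟨l2, rr_cons h' hr0' hr1' Sy.Q⟩⟩

theorem contact {g : En d → En d} (h : NearD g) {f : ℝ → ℝ × Wd d} {s : ℝ × Wd d → ℝ}
    (hf : ULeaf f) (hs : SLeaf s) (h0 : DD g f s = 0) : ∃ x, |x - xc| < u0 / 2 ∧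
      (g (pt f x)).1.1 = s ((g (pt f x)).1.2, (g (pt f x)).2) ∧
      ∀ x' ∈ JJ, (g (pt f x')).1.1 ≤ s ((g (pt f x')).1.2, (g (pt f x')).2) := by
  obtain ⟨x, hx, e⟩ := DD_attained_mid h hf hs
  rw [h0] at e
  refine ⟨x, hx, ?_, ?_⟩
  · unfold hh at e
    linarith
  · intro x' hx'
    have h1 := hh_le_DD h hf hs hx'
    rw [h0] at h1
    unfold hh at h1
    linarith

end Pool.Agent.Lib.H37D
end
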