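import Pool.Agent.Lib.H1M.FF.M034
import Pool.Agent.Lib.H1M.FF.M045
import Pool.Agent.Lib.H1M.FF.M077

/-! Merged copies (to shorten the build) of Lib.H37D.DC33. -/

-- from Lib.H37D.DC33
section

/-!
# H37D DC33: the unstable side of the first tangency
-/

open Set Filter Topology
open scoped ContDiff

namespace Pool.Agent.Lib.H37D

open Pool.Agent.Lib.H37N

variable {d : ℕ}

theorem dc33_fix {g : En d → En d} (h : NearD g) {F : FrD d} (hF : IsFrD g F) (i : Sy) :
    F.κ i 0 = fixP g i ∧ F.κ i 0 ∈ interior (VVd d i) := by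
  have hc := hF.chart i
  have h1 : F.κ i 0 ∈ interior (VVd d i) := by
    rw [interior_VVd]
    apply hc.sub
    refine ⟨0, ?_, rfl⟩
    change (((0 : ℝ), (0 : ℝ)), (0 : Wd d)) ∈ BxD d
    rw [mem_BxD]
    norm_num
  exact ⟨(fixP_spec h i).2.2 _ (interior_subset h1) hc.fix, h1⟩

theorem dc33_unst_side {g : En d → En d} (h : NearD g) {F : FrD d} (hF : IsFrD g F) (w : List Sy) {x : ℝ}
    (hx : x ∈ II) (hz : pt (Uu g Sy.Q w) x ∈ interior (FFd d)) : ∃ (b : ℝ) (k : ℕ), 0 < |b| ∧ |b| < 1 ∧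
      g^[k] (F.κ Sy.Q ((0, b), 0)) = pt (Uu g Sy.Q w) x ∧ (∀ i < k, g^[i] (F.κ Sy.Q ((0, b), 0)) ∈ VOD d) ∧
      ∀ᶠ t in 𝓝 (0 : ℝ), ((g^[k] (F.κ Sy.Q ((0, b + t), 0))).1.2, (g^[k] (F.κ Sy.Q ((0, b + t), 0))).2) =
        Uu g Sy.Q w (g^[k] (F.κ Sy.Q ((0, b + t), 0))).1.1 := by
  have hc := hF.chart Sy.Q
  obtain ⟨hfix, hfixV⟩ := dc33_fix h hF Sy.Q
  obtain ⟨ζ, h0, hV, hg, hlim⟩ := back_orbit h Sy.Q w hx
  rw [← hfix] at hlim
  obtain ⟨k, ⟨b, hb1, hζk⟩, hk⟩ := ((hc.bwd hg hlim).and (eventually_ge_atTop (w.length + 1))).exists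
  have hit : ∀ i ≤ k, g^[i] (ζ k) = ζ (k - i) := by
    intro i
    induction i with
    | zero => intro _; rfl
    | succ i ih =>
      intro hi
      rw [Function.iterate_succ_apply', ih (by omega)]
      have e : k - i = (k - (i + 1)) + 1 := by omega
      rw [e]
      exact hg _
  have hgk : g^[k] (F.κ Sy.Q ((0, b), 0)) = pt (Uu g Sy.Q w) x := by
    rw [← hζk, hit k le_rfl, Nat.sub_self, h0]
  have hmem : ∀ i < k, g^[i] (F.κ Sy.Q ((0, b), 0)) ∈
      interior (VVd d (w.reverse.getD (k - i - 1) Sy.Q)) := by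
    intro i hi
    rw [← hζk, hit i hi.le]
    have e : k - i = (k - i - 1) + 1 := by omega
    have h1 := hV (k - i - 1)
    rwa [← e] at h1
  have hpath : ∀ i < k, g^[i] (F.κ Sy.Q ((0, b), 0)) ∈ VOD d :=
    fun i hi => interior_VVd_sub_VOD _ (hmem i hi)
  refine ⟨b, k, ?_, hb1, hgk, hpath, ?_⟩
  · rw [abs_pos]
    rintro rfl
    have h1 : ∀ n, g^[n] (F.κ Sy.Q 0) = F.κ Sy.Q 0 := fun n => Function.iterate_fixed hc.fix n
    have h2 : F.κ Sy.Q 0 = pt (Uu g Sy.Q w) x := by
      rw [← hgk]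
      exact (h1 k).symm
    rw [← h2] at hz
    exact Set.disjoint_left.1 VVd_FFd_disjoint (Or.inr (interior_subset hfixV)) (interior_subset hz)
  · have hcont : ∀ j ≤ k, ContinuousAt (fun t : ℝ => g^[j] (F.κ Sy.Q ((0, b + t), 0))) 0 := by
      intro j hj
      have h1 := (h.iter_VOD j (z := F.κ Sy.Q ((0, b), 0)) (fun i hi => hpath i (by omega))).self_of_nhds.1
      have h2 : ContinuousAt (fun t : ℝ => F.κ Sy.Q ((0, b + t), 0)) 0 := by
        have h3 : Continuous (fun t : ℝ => F.κ Sy.Q ((0, b + t), 0)) :=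
          hc.smooth.continuous.comp (by fun_prop)
        exact h3.continuousAt
      have h4 : ContinuousAt (g^[j]) ((fun t : ℝ => F.κ Sy.Q ((0, b + t), 0)) 0) := by
        simp only [add_zero]
        exact h1.continuousAt
      exact ContinuousAt.comp h4 h2
    have hE1 : ∀ᶠ t in 𝓝 (0 : ℝ), |b + t| < 1 := by
      have h1 : ContinuousAt (fun t : ℝ => |b + t|) 0 := by fun_prop
      have h2 : |b + (0 : ℝ)| < 1 := by rwa [add_zero]
      exact h1.eventually_lt continuousAt_const h2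
    have hE2 : ∀ᶠ t in 𝓝 (0 : ℝ), g^[k] (F.κ Sy.Q ((0, b + t), 0)) ∈ interior (FFd d) := by
      have h1 := hcont k le_rfl
      apply h1.eventually_mem
      apply isOpen_interior.mem_nhds
      simp only [add_zero]
      rw [hgk]
      exact hz
    have hE3 : ∀ᶠ t in 𝓝 (0 : ℝ), ∀ j ∈ Finset.range k,
        g^[j] (F.κ Sy.Q ((0, b + t), 0)) ∈ interior (VVd d (w.reverse.getD (k - j - 1) Sy.Q)) := by
      rw [Filter.eventually_all_finset]
      intro j hj
      have hj' : j < k := Finset.mem_range.1 hj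
      have h1 := hcont j hj'.le
      apply h1.eventually_mem
      apply isOpen_interior.mem_nhds
      simp only [add_zero]
      exact hmem j hj'
    filter_upwards [hE1, hE2, hE3] with t ht1 ht2 ht3
    have hmu := hc.one_lt
    have hmup : ∀ n : ℕ, (0 : ℝ) < F.mu Sy.Q ^ n := fun n => by positivity
    have hsmall : ∀ n : ℕ, |(b + t) / F.mu Sy.Q ^ n| < 1 := by
      intro n
      rw [abs_div, abs_of_pos (hmup n), div_lt_one (hmup n)]
      exact ht1.trans_le (one_le_pow₀ hmu.le)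
    let ξ : ℕ → En d := fun n => if n ≤ k then g^[k - n] (F.κ Sy.Q ((0, b + t), 0)) else
      F.κ Sy.Q ((0, (b + t) / F.mu Sy.Q ^ (n - k)), 0)
    have hξ1 : ∀ n ≤ k, ξ n = g^[k - n] (F.κ Sy.Q ((0, b + t), 0)) := fun n hn => if_pos hn
    have hξ2 : ∀ n, k ≤ n → ξ n = F.κ Sy.Q ((0, (b + t) / F.mu Sy.Q ^ (n - k)), 0) := by
      intro n hn
      rcases hn.eq_or_lt with rfl | hn
      · rw [hξ1 _ le_rfl]
        simp
      · exact if_neg (by omega)
    have hξ0 : ξ 0 = g^[k] (F.κ Sy.Q ((0, b + t), 0)) := hξ1 0 (Nat.zero_le _)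
    have hres := back_char h Sy.Q w (ζ := ξ) ?_ ?_ ?_
    · rw [hξ0] at hres
      exact hres
    · rw [hξ0]
      have h1 := interior_subset ht2
      exact ⟨c33_FF_sub_NN h1.1, h1.2⟩
    · intro n
      rcases Nat.lt_or_ge n k with hn | hn
      · rw [hξ1 (n + 1) hn]
        have h1 := ht3 (k - (n + 1)) (Finset.mem_range.2 (by omega))
        have e : k - (k - (n + 1)) - 1 = n := by omega
        rw [e] at h1
        exact interior_subset h1
      · rw [hξ2 (n + 1) (by omega)]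
        have e : w.reverse.getD n Sy.Q = Sy.Q := by
          rw [List.getD_eq_default]
          rw [List.length_reverse]
          omega
        rw [e]
        apply interior_subset
        rw [interior_VVd]
        apply hc.sub
        refine ⟨_, mem_BxD.2 ⟨⟨by norm_num, ?_⟩, by norm_num⟩, rfl⟩
        exact (hsmall _).trans (by norm_num)
    · intro n
      rcases Nat.lt_or_ge n k with hn | hn
      · rw [hξ1 (n + 1) hn, hξ1 n hn.le]
        have e : k - n = (k - (n + 1)) + 1 := by omega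
        rw [e, Function.iterate_succ_apply']
      · rw [hξ2 (n + 1) (by omega), hξ2 n hn]
        have e : n + 1 - k = (n - k) + 1 := by omega
        have e2 : F.mu Sy.Q * ((b + t) / F.mu Sy.Q ^ (n + 1 - k)) = (b + t) / F.mu Sy.Q ^ (n - k) := by
          rw [e, pow_succ]
          have hne : F.mu Sy.Q ≠ 0 := by positivity
          field_simp
        rw [hc.lin 0 _ 0 (by norm_num) (by rw [e2]; exact (hsmall _).trans (by norm_num)) (by norm_num),
          e2, mul_zero]
        have e3 : mulw (F.al Sy.Q) (0 : Wd d) = 0 := by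
          funext j
          simp [mulw]
        rw [e3]

end Pool.Agent.Lib.H37D
end
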