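import Pool.Agent.Lib.H1M.FF.M006
import Pool.Agent.Lib.H1M.FF.M010
import Pool.Agent.Lib.H1M.FF.M041
import Pool.Agent.Lib.H1M.FF.M079

/-! Merged copies (to shorten the build) of Lib.H37D.DC37. -/

-- from Lib.H37D.DC37
section

/-!
# H37D DC37: the first tangency (C.3)
-/

open Set Filter Topology Asymptotics
open scoped ContDiff

namespace Pool.Agent.Lib.H37D

open Pool.Agent.Lib.H37N

variable {d : ℕ}

theorem dc37_leaf_cont {s : ℝ × Wd d → ℝ} (hs : SLeaf s) : Continuous s := by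
  refine LipschitzWith.continuous (K := ⟨10 * ee, by norm_num [ee]⟩) ?_
  refine LipschitzWith.of_dist_le_mul fun x y => ?_
  rw [Real.dist_eq, dist_eq_norm]
  exact hs.lip x y

/-- a tangency datum of order one from a zero of `DD` -/
theorem tangency_of_zeroD {g : En d → En d} (h : NearD g) {F : FrD d} (hF : IsFrD g F) {u w v : List Sy}
    (h0 : DD g (Uu g Sy.Q (u ++ w)) (Ss g Sy.P v) = 0) :
    ∃ (b a : ℝ) (wT : Wd d) (k l : ℕ), TDD g F (Zs g w) 1 b a wT k l := by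
  set f := Uu g Sy.Q (u ++ w) with hf
  set s := Ss g Sy.P v with hs
  have hfl : ULeaf f := Uu_leaf h _ _
  have hsl : SLeaf s := Ss_leaf h _ _
  obtain ⟨x, hx, hc, hle⟩ := contact h hfl hsl h0
  have hu0 : (0 : ℝ) < u0 := by norm_num [u0]
  have hxI : x ∈ Ioo (xc - u0) (xc + u0) := by
    rw [abs_lt] at hx
    constructor <;> linarith [hx.1, hx.2]
  have hzZ : pt f x ∈ Zs g w := Uu_mem_Zs h Sy.Q u w hxI
  have hzF : pt f x ∈ interior (FFd d) := Zs_sub_FF h w hzZ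
  have hxII : x ∈ II := by
    have h1 := hxI.1
    have h2 := hxI.2
    simp only [xc, u0] at h1 h2
    constructor <;> norm_num [del] <;> linarith
  obtain ⟨b, k, hb0, hb1, hk, hpath, hgr⟩ := dc33_unst_side h hF (u ++ w) hxII hzF
  have hFimg := fold_image h (interior_subset hzF)
  set y : ℝ × Wd d := ((g (pt f x)).1.2, (g (pt f x)).2) with hy
  have hyI : y.1 ∈ Ioo (-del) (1 + del) := by
    have := hFimg.2.1
    constructor <;> norm_num [del] <;> linarith [this.1, this.2]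
  have hyw : ‖y.2‖ < 1 := hFimg.2.2.trans_lt (by norm_num)
  have hw0 : g (pt f x) = ((s y, y.1), y.2) := Prod.ext (Prod.ext hc rfl) rfl
  obtain ⟨a, wT, l, ha, hwT, hpl, hal, hzero⟩ := dc34_st_side h hF v hyI hyw
  rw [← hs] at hpl hal hzero
  have hchQ := hF.chart Sy.Q
  have hchP := hF.chart Sy.P
  -- continuity data
  have hitl : ∀ᶠ p in 𝓝 (((s y, y.1), y.2) : En d), ContDiffAt ℝ ∞ (g^[l]) p := by
    filter_upwards [h.iter_VOD l (z := ((s y, y.1), y.2)) (fun j hj => hpl j hj.le)] with p hp using hp.1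
  have hψ : ∀ᶠ p in 𝓝 (((s y, y.1), y.2) : En d), ContDiffAt ℝ ∞ (fun q => (F.c Sy.P (g^[l] q)).1.2) p := by
    filter_upwards [hitl] with p hp
    exact (hchP.smooth_c.contDiffAt.comp p hp).fst.snd
  have hsign := sign_sideE (dc37_leaf_cont hsl) (ψ := fun q => (F.c Sy.P (g^[l] q)).1.2)
    (w0 := ((s y, y.1), y.2)) rfl
    (by filter_upwards [hψ] with p hp using hp.continuousAt) hzero
  -- the curve
  have hκc : ContDiff ℝ ∞ (fun t : ℝ => F.κ Sy.Q ((0, b + t), 0)) :=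
    hchQ.smooth.comp ((contDiff_const.prodMk (contDiff_const.add contDiff_id)).prodMk contDiff_const)
  have hκ0 : F.κ Sy.Q ((0, b + 0), 0) = F.κ Sy.Q ((0, b), 0) := by rw [add_zero]
  have hitk : ∀ᶠ t in 𝓝 (0 : ℝ), ContDiffAt ℝ ∞ (g^[k]) (F.κ Sy.Q ((0, b + t), 0)) := by
    have h1 := h.iter_VOD k (z := F.κ Sy.Q ((0, b), 0)) hpath
    have h2 : Tendsto (fun t : ℝ => F.κ Sy.Q ((0, b + t), 0)) (𝓝 0) (𝓝 (F.κ Sy.Q ((0, b), 0))) := by
      have := hκc.continuous.tendsto 0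
      rwa [hκ0] at this
    filter_upwards [h2.eventually h1] with t ht using ht.1
  set γ : ℝ → En d := fun t => g^[k] (F.κ Sy.Q ((0, b + t), 0)) with hγ
  have hγs : ∀ᶠ t in 𝓝 (0 : ℝ), ContDiffAt ℝ ∞ γ t := by
    filter_upwards [hitk] with t ht
    exact ht.comp t hκc.contDiffAt
  have hγ0 : γ 0 = pt f x := by rw [hγ]; simp only [add_zero]; exact hk
  have hγc : Tendsto γ (𝓝 0) (𝓝 (pt f x)) := by
    have := hγs.self_of_nhds.continuousAt.tendsto
    rwa [hγ0] at this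
  have hzOm : pt f x ∈ Omd d := interior_FFd_sub_Omd hzF
  have hgs : ∀ᶠ t in 𝓝 (0 : ℝ), ContDiffAt ℝ ∞ g (γ t) := hγc.eventually (h.contDiffAt_Omd hzOm)
  have hgγs : ∀ᶠ t in 𝓝 (0 : ℝ), ContDiffAt ℝ ∞ (fun t => g (γ t)) t := by
    filter_upwards [hgs, hγs] with t h1 h2 using h1.comp t h2
  have hgγc : Tendsto (fun t => g (γ t)) (𝓝 0) (𝓝 (((s y, y.1), y.2) : En d)) := by
    have := hgγs.self_of_nhds.continuousAt.tendsto
    rwa [hγ0, hw0] at this
  have hφs : ∀ᶠ t in 𝓝 (0 : ℝ), ContDiffAt ℝ ∞ (fun t => (F.c Sy.P (g^[l] (g (γ t)))).1.2) t := by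
    filter_upwards [hgγc.eventually hψ, hgγs] with t h1 h2
    exact h1.comp (f := fun t => g (γ t)) t h2
  have hφ0 : (F.c Sy.P (g^[l] (g (γ 0)))).1.2 = 0 := by
    rw [hγ0, hw0, hal, hchP.left]
    exact mem_BxD.2 ⟨⟨by linarith, by norm_num⟩, by linarith⟩
  -- position of the curve
  have hside : ∀ᶠ t in 𝓝 (0 : ℝ), (g (γ t)).1.1 ≤ s ((g (γ t)).1.2, (g (γ t)).2) := by
    have hFFn : ∀ᶠ t in 𝓝 (0 : ℝ), γ t ∈ interior (FFd d) :=
      hγc.eventually (isOpen_interior.mem_nhds hzF)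
    filter_upwards [hFFn, hgr] with t h1 h2
    have h3 : (γ t).1.1 ∈ JJ := (interior_subset h1).1.1
    have h4 := hle _ h3
    have h5 : pt f (γ t).1.1 = γ t := by
      have h6 : ((γ t).1.2, (γ t).2) = f (γ t).1.1 := h2
      unfold pt
      rw [← h6]
    rwa [h5] at h4
  have hφ := order_two hφs hφ0 (by
    rcases hsign with hsn | hsn
    · left
      filter_upwards [hgγc.eventually hsn, hside] with t h1 h2 using h1 h2
    · right
      filter_upwards [hgγc.eventually hsn, hside] with t h1 h2 using h1 h2)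
  have hIn : ∀ i, InD g F b i 0 = g^[i] (F.κ Sy.Q ((0, b), 0)) := by
    intro i
    simp [InD]
  refine ⟨b, a, wT, k, l, ⟨Zs_open h w, Zs_sub_FF h w, hb0, hb1, ha, hwT, ?_, ?_, ?_, ?_, ?_, ?_⟩⟩
  · intro i hi
    rw [hIn]
    rcases hi.lt_or_eq with hi' | rfl
    · exact Or.inl (hpath i hi')
    · rw [hk]; exact Or.inr hzZ
  · rw [hIn, hk]; exact hzZ
  · intro i hi heq
    rw [hIn, hIn, hk] at heq
    have h1 := hpath i hi
    rw [heq] at h1
    exact (Set.disjoint_left.mp VVd_FFd_disjoint) (VOD_sub h1) (interior_subset hzF)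
  · intro i hi
    rw [hIn, hk, hw0]; exact hpl i hi
  · rw [hIn, hk, hw0]; exact hal
  · have h1 : (fun t : ℝ => (TTD g F b k l ((0, t), 0)).1.2) =
        fun t => (F.c Sy.P (g^[l] (g (γ t)))).1.2 := by
      funext t
      simp [TTD, PlD, InD, hγ]
    rw [h1]
    exact hφ

theorem first_tangencyD {R : ℕ} {U : Set (En d → En d)} (hU : PertOpenD R U) (hN : ∀ g ∈ U, NearD g)
    {g : En d → En d} (hg : g ∈ U) {F : FrD d} (hF : IsFrD g F) {w v : List Sy} (hok : Ok g w v) :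
    ∃ g' ∈ U, EqOffD (Zs g w) g g' ∧ ∃ (b a : ℝ) (wT : Wd d) (k l : ℕ), TDD g' F (Zs g w) 1 b a wT k l := by
  obtain ⟨g', hg', hV, hFF, w', v', hD⟩ := zero_pair hU hN hg hok
  have hFr : IsFrD g' F := hF.congr fun z hz => hV z (VOD_sub hz)
  refine ⟨g', hg', ?_, ?_⟩
  · intro z hz hzZ
    rcases hz with hz | hz
    · exact hV z hz
    · exact hFF z hz hzZ
  · have h1 := tangency_of_zeroD (hN g' hg') hFr hD
    rwa [Zs_congr (hN g hg) hV] at h1

end Pool.Agent.Lib.H37D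
end
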