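import Pool.Agent.Lib.H1M.FF.M044
import Pool.Agent.Lib.H1M.FF.M082
import Pool.Agent.Lib.H1M.FF.M083

/-! Merged copies (to shorten the build) of Lib.H37D.L00D. -/

-- from Lib.H37D.L00D
section

/-!
# H37D L00D: the local theorem in dimension `2 + d`
-/

open Set Filter Topology Asymptotics
open scoped ContDiff

namespace Pool.Agent.Lib.H37D

open Pool.Agent.Lib.H37N

variable {d : ℕ}

/-- the local theorem: an open set of perturbations of maps near the model contains a map with a
centre spot in normal form -/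
theorem local_spotD {R : ℕ} {U : Set (En d → En d)} (hU : PertOpenD R U) (hUN : ∀ g ∈ U, NearS g)
    (hne : U.Nonempty) : ∃ g ∈ U, LocalSpotD g := by
  obtain ⟨g0, hg0⟩ := hne
  obtain ⟨g1, hg1, F, hF⟩ := sectionBD hU hUN hg0
  obtain ⟨g2, hg2, -, hF2, b, a, wT, k, l, ht⟩ := exists_TDD hU (fun g hg => (hUN g hg).toNearD)
    (stepI_of hU hUN F) (R + 1) (by omega) hg1 hF
  obtain ⟨g3, hg3, hC⟩ := disc_of_order le_rfl hU hUN hg2 hF2 ht
  exact sectionN hU hUN hg3 hC.spot

end Pool.Agent.Lib.H37D
end
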